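import Pool.Agent.Lib.L8.W1

/-!
# W, file W1B: the dichotomy without congruences (helper43)
-/

namespace Pool.Agent.Lib.L8

open MeasureTheory Matrix NumberField NumberField.InfinitePlace IsDedekindDomain Pool.Agent.Lib.H89N Pool.Agent.Lib.H33W Pool.Agent.Lib.H67G Pool.Agent.Lib.L1S
open scoped ENNReal Pointwise

noncomputable section

set_option linter.unusedSectionVars false

variable {ι M N : Type} [Fintype ι] [DecidableEq ι] [AddCommGroup M] [Module ℚ M] [AddCommGroup N] [Module ℚ N]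
  {P : RootPairing ι ℚ M N} [P.IsCrystallographic] {b : P.Base}

variable {K L : Type} [Field K] [NumberField K] [Field L] [NumberField L] [Algebra K L]

variable [P.IsRootSystem] [P.IsReduced] [P.IsIrreducible]

/-- The dichotomy from the vanishing of the minors (compare `qb3_core`). -/
theorem w1_core (Q : QS b K L) {θ : b.support → (EE L →ₗ[ℝ] ℝ)} (hθ : ∀ i, ∃ z : L, Thq Q θ i z ≠ 0) {δ : HQ Q}
    (hD : ∀ (i j : b.support) (w : Equiv.Perm ι), w ∈ WP P → OppW b i j w → Dm b i w δ.1.1.1 = 0) : δ ∈ HUH (HQ Q) ∨ AltH (HQ Q) θ δ := by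
  obtain ⟨u, hu, w, n, hn, u', hu', hg⟩ := bruhat b L δ.1
  rcases qb2_dich Q hθ hu hu' hn hg with ⟨z, u1, hu1, e⟩ | hA | ⟨i, j, w1, hw1, hO, hDne⟩
  · left
    have h1 : (δ.1 * u1⁻¹).1.1 = z • (1 : Matrix (I b) (I b) L) := by
      have e1 : (δ.1 * u1⁻¹).1.1 = δ.1.1.1 * u1⁻¹.1.1 := rfl
      have e2 : u1.1.1 * u1⁻¹.1.1 = 1 := u1.1.mul_inv
      rw [e1, e, Matrix.smul_mul, e2]
    have hz := w1_scalar h1
    rw [qb2_mem_HUH]
    have e5 : δ.1 = u1 := by
      apply Subtype.ext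
      apply Units.ext
      rw [e, hz, one_smul]
    rw [e5]
    exact hu1
  · exact Or.inr hA
  · exact absurd (hD i j w1 hw1 hO) hDne

end

end Pool.Agent.Lib.L8
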