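import Mathlib

/-!
# L8, version 2: the abstract structure for the analysis (helper33, helper56)

`G` is the group of the `F`-points (`F = ℝ` or `ℂ`) of a split group (the closure of `G(F)` in `GL(F)`), `J` the set of the simple roots, `𝔞 = J → ℝ` in **coroot coordinates**: `y = ∑ y_j α_j^∨`, so `ϖ_j(y) = y_j`,
`ρ(y) = ∑ y_j`, `α_i(y) = ∑_k A i k * y_k` with the Cartan integers `A i k = ⟨α_i, α_k^∨⟩`. `ex y = exp(y)`, `Hp : G → 𝔞` is the Iwasawa projection of `G = U A K`, `V` the opposite of `U`, `n i` the representative of the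
simple reflection in `K` (`[[0, 1], [-1, 0]]` in `SL₂`), `x i t` the simple root group, `c i` its coordinate. All integrals are over subgroups of `U`, all functions are `h_s(g) = exp(∑_j (s_j + d) Hp(g)_j)`, `d = [F : ℝ]`.
-/

namespace Pool.Agent.Lib.L8

open Filter Topology

noncomputable section

/-- The simple root `α_i` on `𝔞` (coroot coordinates). -/
def al {J : Type} [Fintype J] (A : J → J → ℤ) (i : J) (y : J → ℝ) : ℝ := ∑ k, (A i k : ℝ) * y k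

/-- The simple reflection on `𝔞`: `s_i y = y - α_i(y) α_i^∨`. -/
def sr {J : Type} [Fintype J] [DecidableEq J] (A : J → J → ℤ) (i : J) (y : J → ℝ) : J → ℝ := y - al A i y • Pi.single i 1

/-- The Weyl group element of a word: `wl [i_1, …, i_k] = s_(i_1) ⋯ s_(i_k)`. -/
def wl {J : Type} [Fintype J] [DecidableEq J] (A : J → J → ℤ) : List J → (J → ℝ) → J → ℝ
  | [], y => y
  | i :: l, y => sr A i (wl A l y)

/-- The data. -/
structure IwD (J : Type) (F : Type) (G : Type) [Group G] where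
  /-- The unipotent group. -/
  U : Subgroup G
  /-- The opposite unipotent group. -/
  V : Subgroup G
  /-- The maximal compact subgroup. -/
  K : Subgroup G
  /-- The compact part of the torus. -/
  M : Subgroup G
  /-- The exponential map of `𝔞`. -/
  ex : (J → ℝ) → G
  /-- The Iwasawa projection (coroot coordinates). -/
  Hp : G → J → ℝ
  /-- The root groups of the simple roots. -/
  x : J → F → G
  /-- The coordinates of the simple roots. -/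
  c : J → G → F
  /-- The representatives of the simple reflections. -/
  n : J → G
  /-- The Cartan involution (an antiautomorphism, `g ↦ g*`). -/
  st : G → G
  /-- The Cartan integers `A i k = ⟨α_i, α_k^∨⟩`. -/
  A : J → J → ℤ

namespace IwD

variable {J F G : Type} [Fintype J] [DecidableEq J] [Group G] (S : IwD J F G)

/-- The representative of a word: `nl [i_1, …, i_k] = n_(i_1) ⋯ n_(i_k)`. -/
def nl (l : List J) : G := (l.map S.n).prod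

/-- `w_l α_i > 0`. -/
def Pos (l : List J) (i : J) : Prop := ∀ t, S.nl l * S.x i t * (S.nl l)⁻¹ ∈ S.U

/-- Reduced words. -/
def Red (l : List J) : Prop := ∀ l₁ i l₂, l = l₁ ++ i :: l₂ → S.Pos l₁ i

/-- The word represents the longest element. -/
def Long (l : List J) : Prop := S.Red l ∧ (∀ u ∈ S.U, S.nl l * u * (S.nl l)⁻¹ ∈ S.V) ∧ ∀ v ∈ S.V, (S.nl l)⁻¹ * v * S.nl l ∈ S.U

end IwD

/-- **The structure.** -/
structure Iw (J : Type) [Fintype J] [DecidableEq J] (F : Type) [RCLike F] (G : Type) [Group G] [TopologicalSpace G] extends IwD J F G where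
  -- topology
  U_closed : IsClosed (U : Set G)
  V_closed : IsClosed (V : Set G)
  K_compact : IsCompact (K : Set G)
  M_le : M ≤ K
  ex_cont : Continuous ex
  x_cont : ∀ i, Continuous (x i)
  c_cont : ∀ i, Continuous fun u : U => c i u
  Hp_cont : Continuous Hp
  st_cont : Continuous st
  /-- `U` and the `n_i` generate a dense subgroup. -/
  gen : Dense (Subgroup.closure ((U : Set G) ∪ Set.range n) : Set G)
  -- the torus
  ex_add : ∀ y z, ex (y + z) = ex y * ex z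
  ex_U : ∀ y, ∀ u ∈ U, ex y * u * (ex y)⁻¹ ∈ U
  ex_V : ∀ y, ∀ v ∈ V, ex y * v * (ex y)⁻¹ ∈ V
  M_U : ∀ m ∈ M, ∀ u ∈ U, m * u * m⁻¹ ∈ U
  M_V : ∀ m ∈ M, ∀ v ∈ V, m * v * m⁻¹ ∈ V
  M_ex : ∀ m ∈ M, ∀ y, m * ex y = ex y * m
  M_c : ∀ m ∈ M, ∀ i, ∀ u ∈ U, ‖c i (m * u * m⁻¹)‖ = ‖c i u‖
  M_x : ∀ m ∈ M, ∀ i s, ∃ s', m * x i s * m⁻¹ = x i s'
  -- Iwasawa decomposition
  dec : ∀ g, ∃ u ∈ U, ∃ k ∈ K, g = u * ex (Hp g) * k
  Hp_U : ∀ u ∈ U, ∀ g, Hp (u * g) = Hp g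
  Hp_ex : ∀ y g, Hp (ex y * g) = y + Hp g
  Hp_M : ∀ m ∈ M, ∀ g, Hp (m * g) = Hp g
  Hp_K : ∀ k ∈ K, ∀ g, Hp (g * k) = Hp g
  -- the Cartan involution
  st_mul : ∀ g h, st (g * h) = st h * st g
  st_st : ∀ g, st (st g) = g
  st_K : ∀ g, g ∈ K ↔ st g = g⁻¹
  st_ex : ∀ y, st (ex y) = ex y
  st_U : ∀ u ∈ U, st u ∈ V
  st_V : ∀ v ∈ V, st v ∈ U
  /-- `U × A × V → G` is injective. -/
  uav : ∀ u ∈ U, ∀ u' ∈ U, ∀ y y', ∀ v ∈ V, ∀ v' ∈ V, u * ex y * v = u' * ex y' * v' → u = u' ∧ y = y' ∧ v = v'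
  -- simple roots
  x_U : ∀ i t, x i t ∈ U
  x_add : ∀ i s t, x i (s + t) = x i s * x i t
  c_mul : ∀ i, ∀ u ∈ U, ∀ u' ∈ U, c i (u * u') = c i u + c i u'
  c_x : ∀ i t, c i (x i t) = t
  x_ex : ∀ i y t, ex y * x i t * (ex y)⁻¹ = x i ((Real.exp (al A i y) : ℝ) • t)
  c_ex : ∀ i y, ∀ u ∈ U, c i (ex y * u * (ex y)⁻¹) = (Real.exp (al A i y) : ℝ) • c i u
  /-- A strictly antidominant vector contracts `U`. -/
  contr0 : ∃ y, (∀ i, al A i y ≤ 0) ∧ ∀ u ∈ U, Tendsto (fun t : ℝ => ex (t • y) * u * (ex (t • y))⁻¹) atTop (𝓝 1)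
  /-- A vector with `α_i(y) = 0`, `α_k(y) < 0` for `k ≠ i` contracts `U` to the root group of `α_i`. -/
  contri : ∀ i, ∃ y, ∀ u ∈ U, Tendsto (fun t : ℝ => ex (t • y) * u * (ex (t • y))⁻¹) atTop (𝓝 (x i (c i u)))
  n_K : ∀ i, n i ∈ K
  n_ex : ∀ i y, n i * ex y * (n i)⁻¹ = ex (sr A i y)
  n_M : ∀ i, ∀ m ∈ M, n i * m * (n i)⁻¹ ∈ M
  n_M' : ∀ i, ∀ m ∈ M, (n i)⁻¹ * m * n i ∈ M
  n_sq : ∀ i, n i * n i ∈ M
  /-- `n_i` normalises `U^i = {u ∈ U : c_i(u) = 0}`. -/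
  n_U : ∀ i, ∀ u ∈ U, c i u = 0 → n i * u * (n i)⁻¹ ∈ U ∧ c i (n i * u * (n i)⁻¹) = 0
  n_x : ∀ i t, n i * x i t * (n i)⁻¹ ∈ V
  /-- Rank one: the Iwasawa projection. -/
  rk_H : ∀ i t, Hp (n i * x i t) = (-(1 / 2 : ℝ) * Real.log (1 + ‖t‖ ^ 2)) • Pi.single i 1
  /-- Rank one: the inversion. -/
  rk_inv : ∀ i t, t ≠ 0 → ∃ m ∈ M, x i t * n i = (n i * x i (-t⁻¹) * (n i)⁻¹) * m * ex (Real.log ‖t‖ • Pi.single i 1) * x i (-t⁻¹)
  -- the Weyl group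
  A_diag : ∀ i, A i i = 2
  A_off : ∀ i k, i ≠ k → A i k ≤ 0
  /-- A dominant element has nonnegative coordinates. -/
  dom_nonneg : ∀ Z : J → ℝ, (∀ i, 0 ≤ al A i Z) → ∀ j, 0 ≤ Z j
  /-- `w_l α_i > 0` implies `w_l (-α_i) < 0`. -/
  pos_neg : ∀ l i, toIwD.Pos l i → ∀ t, toIwD.nl l * (n i * x i t * (n i)⁻¹) * (toIwD.nl l)⁻¹ ∈ V
  /-- The coroots `w_l α_i^∨` of a positive root are positive. -/
  pos_coroot : ∀ l i, toIwD.Pos l i → (∀ k, 0 ≤ wl A l (Pi.single i 1) k) ∧ ∃ k, 0 < wl A l (Pi.single i 1) k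
  /-- `w_0 ρ = -ρ`. -/
  long_rho : ∀ l, toIwD.Long l → ∀ y, ∑ j, wl A l y j = -∑ j, y j
  /-- **Adapted words**: for `Z` dominant there is a factorisation `w_0 = w w_M`, `M` the centraliser of `Z' = w_0⁻¹ Z` (antidominant), `w_M` the longest element of its Weyl group. -/
  words : ∀ Z : J → ℝ, (∀ i, 0 ≤ al A i Z) → ∃ lw lM Z', toIwD.Long (lw ++ lM) ∧ toIwD.Red lM ∧ wl A (lw ++ lM) Z' = Z ∧ (∀ i, al A i Z' ≤ 0) ∧ (∀ i ∈ lM, al A i Z' = 0) ∧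
    (∀ l₁ i l₂, lw = l₁ ++ i :: l₂ → ∃ k, 0 < al A k Z ∧ 0 < wl A l₁ (Pi.single i 1) k) ∧
    (∀ u ∈ U, ex Z' * u * (ex Z')⁻¹ = u → toIwD.nl lw * u * (toIwD.nl lw)⁻¹ ∈ U ∧ toIwD.nl lM * u * (toIwD.nl lM)⁻¹ ∈ V) ∧
    (∀ u ∈ U, toIwD.nl lM * u * (toIwD.nl lM)⁻¹ ∈ V → ex Z' * u * (ex Z')⁻¹ = u) ∧
    ∀ u ∈ U, toIwD.nl lw * u * (toIwD.nl lw)⁻¹ ∈ V → Tendsto (fun t : ℝ => ex (t • Z') * u * (ex (t • Z'))⁻¹) atTop (𝓝 1)
  -- norms
  /-- `Hp(n_0 u)` increases when `u` is contracted. -/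
  norm_mono : ∀ l, toIwD.Long l → ∀ Z', (∀ i, al A i Z' ≤ 0) → ∀ u ∈ U, ∀ j, Hp (toIwD.nl l * u) j ≤ Hp (toIwD.nl l * (ex Z' * u * (ex Z')⁻¹)) j
  /-- Kostant: `Hp(k exp(Z))` is between `w_0 Z` and `Z`. -/
  kostant : ∀ l, toIwD.Long l → ∀ Z, (∀ i, 0 ≤ al A i Z) → ∀ k ∈ K, ∀ j, wl A l Z j ≤ Hp (k * ex Z) j ∧ Hp (k * ex Z) j ≤ Z j

end

end Pool.Agent.Lib.L8
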