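import Pool.Agent.Lib.L8.E0
import Pool.Agent.Lib.L8.Iw

/-!
# L8, version 2, bridge, BR0: definitions
-/

namespace Pool.Agent.Lib.L8

open MeasureTheory Filter
open scoped ENNReal Topology

noncomputable section

set_option linter.unusedSectionVars false
set_option linter.unusedVariables false

variable {J F G : Type} [Fintype J] [DecidableEq J] [RCLike F] [Group G] [TopologicalSpace G] [IsTopologicalGroup G] [SecondCountableTopology G] [LocallyCompactSpace G] [T2Space G] [MeasurableSpace G] [BorelSpace G] (I : Iw J F G)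

/-- **Right Haar measures of a subgroup `V`**, as measures on `G`. -/
structure RH {G : Type} [Group G] [TopologicalSpace G] [MeasurableSpace G] (V : Subgroup G) (ν : Measure G) : Prop where
  ae : ∀ᵐ x ∂ν, x ∈ V
  fin : ∀ C : Set G, IsCompact C → ν C < ∞
  ne : ν ≠ 0
  inv : ∀ v ∈ V, ν.map (fun x => x * v) = ν

/-- The torus `M exp(𝔞)`. -/
def Iw.TT : Subgroup G where
  carrier := {g | ∃ m ∈ I.M, ∃ y, g = m * I.ex y}
  mul_mem' := by
    rintro a b ⟨m, hm, y, rfl⟩ ⟨m', hm', y', rfl⟩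
    refine ⟨m * m', I.M.mul_mem hm hm', y + y', ?_⟩
    rw [I.ex_add, mul_assoc, ← mul_assoc (I.ex y), ← I.M_ex m' hm' y]
    simp only [mul_assoc]
  one_mem' := by
    refine ⟨1, I.M.one_mem, 0, ?_⟩
    have h := I.ex_add 0 0
    rw [add_zero] at h
    have h' : I.ex 0 = 1 := by
      have := congrArg (fun g => (I.ex 0)⁻¹ * g) h
      simpa using this.symm
    rw [h', one_mul]
  inv_mem' := by
    rintro a ⟨m, hm, y, rfl⟩
    refine ⟨m⁻¹, I.M.inv_mem hm, -y, ?_⟩
    have h := I.ex_add 0 0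
    rw [add_zero] at h
    have h' : I.ex 0 = 1 := by
      have := congrArg (fun g => (I.ex 0)⁻¹ * g) h
      simpa using this.symm
    have h2 : I.ex (-y) = (I.ex y)⁻¹ := by
      have := I.ex_add (-y) y
      rw [neg_add_cancel, h'] at this
      exact eq_inv_of_mul_eq_one_left this.symm
    rw [h2, mul_inv_rev]
    have h3 := I.M_ex m hm y
    have h4 : (I.ex y)⁻¹ * m⁻¹ = m⁻¹ * (I.ex y)⁻¹ := by
      rw [← mul_inv_rev, ← mul_inv_rev, h3]
    exact h4

/-- The root group of `α_i`. -/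
def Iw.Ui (i : J) : Subgroup G where
  carrier := {g | ∃ t, g = I.x i t}
  mul_mem' := by
    rintro a b ⟨s, rfl⟩ ⟨t, rfl⟩
    exact ⟨s + t, (I.x_add i s t).symm⟩
  one_mem' := by
    refine ⟨0, ?_⟩
    have h := I.x_add i 0 0
    rw [add_zero] at h
    have := congrArg (fun g => (I.x i 0)⁻¹ * g) h
    simpa using this
  inv_mem' := by
    rintro a ⟨t, rfl⟩
    refine ⟨-t, ?_⟩
    have h := I.x_add i 0 0
    rw [add_zero] at h
    have h0 : I.x i 0 = 1 := by
      have := congrArg (fun g => (I.x i 0)⁻¹ * g) h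
      simpa using this.symm
    have := I.x_add i (-t) t
    rw [neg_add_cancel, h0] at this
    exact (eq_inv_of_mul_eq_one_left this.symm).symm

/-- `U^i = {u ∈ U : c_i(u) = 0}`. -/
def Iw.Uc (i : J) : Subgroup G where
  carrier := {u | u ∈ I.U ∧ I.c i u = 0}
  mul_mem' := by
    rintro a b ⟨ha, ha'⟩ ⟨hb, hb'⟩
    exact ⟨I.U.mul_mem ha hb, by rw [I.c_mul i a ha b hb, ha', hb', add_zero]⟩
  one_mem' := by
    refine ⟨I.U.one_mem, ?_⟩
    have h := I.c_mul i 1 I.U.one_mem 1 I.U.one_mem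
    rw [mul_one] at h
    simpa using h
  inv_mem' := by
    rintro a ⟨ha, ha'⟩
    refine ⟨I.U.inv_mem ha, ?_⟩
    have h := I.c_mul i 1 I.U.one_mem 1 I.U.one_mem
    rw [mul_one] at h
    have h1 : I.c i 1 = 0 := by simpa using h
    have h2 := I.c_mul i a ha a⁻¹ (I.U.inv_mem ha)
    rw [mul_inv_cancel, h1, ha', zero_add] at h2
    exact h2.symm

/-- `U_w = {u ∈ U : n_w u n_w⁻¹ ∈ V}` for a word. -/
def Iw.Uw (l : List J) : Subgroup G where
  carrier := {u | u ∈ I.U ∧ I.nl l * u * (I.nl l)⁻¹ ∈ I.V}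
  mul_mem' := by
    rintro a b ⟨ha, ha'⟩ ⟨hb, hb'⟩
    refine ⟨I.U.mul_mem ha hb, ?_⟩
    have := I.V.mul_mem ha' hb'
    have e : I.nl l * a * (I.nl l)⁻¹ * (I.nl l * b * (I.nl l)⁻¹) = I.nl l * (a * b) * (I.nl l)⁻¹ := by group
    rwa [e] at this
  one_mem' := by
    refine ⟨I.U.one_mem, ?_⟩
    rw [mul_one, mul_inv_cancel]
    exact I.V.one_mem
  inv_mem' := by
    rintro a ⟨ha, ha'⟩
    refine ⟨I.U.inv_mem ha, ?_⟩
    have := I.V.inv_mem ha'
    have e : (I.nl l * a * (I.nl l)⁻¹)⁻¹ = I.nl l * a⁻¹ * (I.nl l)⁻¹ := by group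
    rwa [e] at this

/-- The Haar measure of the root group. -/
def Iw.νi (i : J) : Measure G := (volume : Measure F).map (I.x i)

/-- `[F : ℝ]`. -/
def dF (F : Type) [RCLike F] : ℝ := Module.finrank ℝ F

end

end Pool.Agent.Lib.L8
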