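import Pool.Agent.Lib.L8.BR0

/-!
# L8, version 2, bridge, BRA: right Haar measures: existence, uniqueness, conjugation
-/

namespace Pool.Agent.Lib.L8

open MeasureTheory Filter
open scoped ENNReal Topology

noncomputable section

set_option linter.unusedSectionVars false
set_option linter.unusedVariables false

variable {G : Type} [Group G] [TopologicalSpace G] [IsTopologicalGroup G] [SecondCountableTopology G] [LocallyCompactSpace G] [T2Space G] [MeasurableSpace G] [BorelSpace G] {V : Subgroup G}

/-- PROOF. `G` is `σ`-compact (second countable, locally compact), `ν` is finite on compact sets: `IsFiniteMeasureOnCompacts`, hence locally finite (`isLocallyFiniteMeasure_of_isFiniteMeasureOnCompacts`) and σ-finite (second countable). -/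
theorem rh_sigma {ν : Measure G} (h : RH V ν) : SigmaFinite ν := by
  have : IsFiniteMeasureOnCompacts ν := ⟨fun {K} hK => h.fin K hK⟩
  have : IsLocallyFiniteMeasure ν := isLocallyFiniteMeasure_of_isFiniteMeasureOnCompacts
  infer_instance

/-- PROOF. `V` is closed, hence locally compact (`IsClosed.locallyCompactSpace`) and second countable; `μ` = Haar measure on `V`, `μ.inv` is right invariant (`MeasureTheory.Measure.inv.instIsMulRightInvariant`), `ν = μ.inv.map Subtype.val`; the embedding is closed (`IsClosed.isClosedEmbedding_subtypeVal`), so preimages of compact sets are compact. -/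
theorem rh_ex (hV : IsClosed (V : Set G)) : ∃ ν, RH V ν := by
  have : LocallyCompactSpace V := hV.locallyCompactSpace
  have hem : Topology.IsClosedEmbedding (Subtype.val : V → G) := hV.isClosedEmbedding_subtypeVal
  have hme : Measurable (Subtype.val : V → G) := measurable_subtype_coe
  refine ⟨(Measure.haar : Measure V).inv.map Subtype.val, ?_, ?_, ?_, ?_⟩
  · exact (ae_map_iff hme.aemeasurable hV.measurableSet).2 (ae_of_all _ fun x => x.2)
  · intro C hC
    rw [Measure.map_apply hme hC.measurableSet, Measure.inv_apply]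
    exact (hem.isCompact_preimage hC).inv.measure_lt_top
  · rw [Ne, Measure.map_eq_zero_iff hme.aemeasurable, ← Measure.measure_univ_eq_zero, Measure.inv_apply,
      Set.inv_univ, Measure.measure_univ_eq_zero]
    exact NeZero.ne _
  · intro v hv
    rw [Measure.map_map (measurable_mul_const v) hme]
    have e : (fun x : G => x * v) ∘ (Subtype.val : V → G) = (Subtype.val : V → G) ∘ (fun x : V => x * ⟨v, hv⟩) := by
      funext x
      rfl
    rw [e, ← Measure.map_map hme (measurable_mul_const _), map_mul_right_eq_self]

/-- Every right Haar measure is a multiple of the standard one. -/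
theorem bra_std (hV : IsClosed (V : Set G)) {ν : Measure G} (h : RH V ν) :
    ∃ c : ℝ≥0∞, c ≠ 0 ∧ c ≠ ∞ ∧
      ν = c • (have : LocallyCompactSpace V := hV.locallyCompactSpace
        ((Measure.haar : Measure V).inv.map Subtype.val)) := by
  have : LocallyCompactSpace V := hV.locallyCompactSpace
  have : SecondCountableTopology V := (Topology.IsInducing.subtypeVal (Y := G) (t := (V : Set G))).secondCountableTopology
  have hem : Topology.IsClosedEmbedding (Subtype.val : V → G) := hV.isClosedEmbedding_subtypeVal
  have hme : Measurable (Subtype.val : V → G) := measurable_subtype_coe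
  have hM : MeasurableEmbedding (Subtype.val : V → G) := hem.measurableEmbedding
  have h1 : (ν.comap Subtype.val).map (Subtype.val : V → G) = ν := by
    rw [hM.map_comap]
    have : Set.range (Subtype.val : V → G) = (V : Set G) := Subtype.range_coe
    rw [this]
    exact Measure.restrict_eq_self_of_ae_mem h.ae
  obtain ⟨κ, hκ⟩ : ∃ κ : Measure V, κ = ν.comap Subtype.val := ⟨_, rfl⟩
  rw [← hκ] at h1
  have hr : κ.IsMulRightInvariant := by
    refine ⟨fun v => ?_⟩
    have e1 : (κ.map fun x => x * v).map (Subtype.val : V → G) = κ.map (Subtype.val : V → G) := by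
      rw [Measure.map_map hme (measurable_mul_const _)]
      have e : (Subtype.val : V → G) ∘ (fun x : V => x * v) = (fun x : G => x * (v : G)) ∘ (Subtype.val : V → G) := by
        funext x
        rfl
      rw [e, ← Measure.map_map (measurable_mul_const _) hme, h1]
      exact h.inv _ v.2
    have e2 := congrArg (Measure.comap (Subtype.val : V → G)) e1
    rw [hM.comap_map, hM.comap_map] at e2
    exact e2
  have hf : IsFiniteMeasureOnCompacts κ.inv := by
    refine ⟨fun {K} hK => ?_⟩
    rw [Measure.inv_apply, hκ, hM.comap_apply]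
    exact h.fin _ (hK.inv.image continuous_subtype_val)
  have h2 := Measure.isMulLeftInvariant_eq_smul κ.inv (Measure.haar : Measure V)
  obtain ⟨c, hc⟩ : ∃ c : NNReal, c = Measure.haarScalarFactor κ.inv (Measure.haar : Measure V) := ⟨_, rfl⟩
  rw [← hc] at h2
  have h3 : κ = (c : ℝ≥0∞) • (Measure.haar : Measure V).inv := by
    have h4 : κ = κ.inv.inv := (Measure.inv_inv κ).symm
    rw [h4, h2]
    ext s hs
    rw [Measure.inv_apply, Measure.smul_apply, Measure.smul_apply, Measure.inv_apply]
    rfl
  have h5 : ν = (c : ℝ≥0∞) • ((Measure.haar : Measure V).inv.map Subtype.val) := by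
    rw [← h1, h3, Measure.map_smul]
  refine ⟨c, ?_, ENNReal.coe_ne_top, h5⟩
  intro h0
  apply h.ne
  rw [h5, h0, zero_smul]

/-- PROOF. `μ = (ν.comap Subtype.val).inv` on `V` (closed embedding, hence measurable embedding) is left invariant, finite on compact sets, not zero (`ν` lives on `V`), so there is a compact set with nonempty interior and positive measure (`V` is σ-compact: `exists_compact_superset`, or all compact sets of an exhaustion `compactCovering` enlarged), hence a Haar measure
(`MeasureTheory.Measure.isHaarMeasure_of_isCompact_nonempty_interior`). The same for `ν'`; `MeasureTheory.Measure.isHaarMeasure_eq_smul` (or `isMulLeftInvariant_eq_smul`) gives the constant; go back: `ν = (ν.comap val).map val` because `ν` lives on `V`. -/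
theorem rh_uniq (hV : IsClosed (V : Set G)) {ν ν' : Measure G} (h : RH V ν) (h' : RH V ν') : ∃ c : ℝ≥0∞, c ≠ 0 ∧ c ≠ ∞ ∧ ν = c • ν' := by
  obtain ⟨c, h0, h1, h2⟩ := bra_std hV h
  obtain ⟨c', h0', h1', h2'⟩ := bra_std hV h'
  refine ⟨c * c'⁻¹, mul_ne_zero h0 (ENNReal.inv_ne_zero.2 h1'), ENNReal.mul_ne_top h1 (ENNReal.inv_ne_top.2 h0'), ?_⟩
  rw [h2', smul_smul, mul_assoc, ENNReal.inv_mul_cancel h0' h1', mul_one]
  exact h2

/-- PROOF. `Measure.map_smul`, `Measure.smul_apply`. -/
theorem rh_smul {ν : Measure G} (h : RH V ν) {c : ℝ≥0∞} (h0 : c ≠ 0) (h1 : c ≠ ∞) : RH V (c • ν) := by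
  refine ⟨Measure.ae_smul_measure h.ae c, fun C hC => ?_, fun hz => h.ne ?_, fun v hv => ?_⟩
  · rw [Measure.smul_apply, smul_eq_mul]
    exact ENNReal.mul_lt_top h1.lt_top (h.fin C hC)
  · ext s _
    have h2 : (c • ν) s = 0 := by rw [hz]; rfl
    rw [Measure.smul_apply, smul_eq_mul, mul_eq_zero] at h2
    exact h2.resolve_left h0
  · rw [Measure.map_smul, h.inv v hv]

/-- PROOF. Conjugation by `g` is a homeomorphism: preimages of compact sets are compact; `(x ↦ g x g⁻¹)` intertwines the right translations by `g⁻¹ w g ∈ V` and by `w ∈ W` (`Measure.map_map`). -/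
theorem rh_conj {W : Subgroup G} (g : G) (hg : ∀ x, x ∈ W ↔ g⁻¹ * x * g ∈ V) {ν : Measure G} (h : RH V ν) : RH W (ν.map fun x => g * x * g⁻¹) := by
  have hM : MeasurableEmbedding fun x : G => g * x * g⁻¹ :=
    ((Homeomorph.mulLeft g).trans (Homeomorph.mulRight g⁻¹)).measurableEmbedding
  refine ⟨?_, fun C hC => ?_, ?_, fun w hw => ?_⟩
  · rw [hM.ae_map_iff]
    filter_upwards [h.ae] with x hx
    rw [hg]
    have e : g⁻¹ * (g * x * g⁻¹) * g = x := by group
    rw [e]
    exact hx
  · rw [hM.map_apply]
    exact h.fin _ (((Homeomorph.mulLeft g).trans (Homeomorph.mulRight g⁻¹)).isCompact_preimage.2 hC)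
  · rw [Ne, Measure.map_eq_zero_iff hM.measurable.aemeasurable]
    exact h.ne
  · rw [Measure.map_map (measurable_mul_const w) hM.measurable]
    have e : (fun x : G => x * w) ∘ (fun x : G => g * x * g⁻¹) =
        (fun x : G => g * x * g⁻¹) ∘ (fun x : G => x * (g⁻¹ * w * g)) := by
      funext x
      simp only [Function.comp_apply]
      group
    rw [e, ← Measure.map_map hM.measurable (measurable_mul_const _), h.inv _ ((hg w).1 hw)]

/-- **The modulus.** PROOF. `rh_conj`, `rh_uniq`. -/
theorem rh_mod (hV : IsClosed (V : Set G)) {ν : Measure G} (h : RH V ν) (g : G) (hg : ∀ x, x ∈ V ↔ g⁻¹ * x * g ∈ V) :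
    ∃ c : ℝ≥0∞, c ≠ 0 ∧ c ≠ ∞ ∧ (ν.map fun x => g * x * g⁻¹) = c • ν := by
  exact rh_uniq hV (rh_conj g hg h) h

/-- There is a compact set of positive measure. PROOF. `G` is a countable union of compact sets (`compactCovering`), `ν ≠ 0`. -/
theorem rh_pos {ν : Measure G} (h : RH V ν) : ∃ C : Set G, IsCompact C ∧ 0 < ν C := by
  by_contra hcon
  push Not at hcon
  apply h.ne
  rw [← Measure.measure_univ_eq_zero, ← iUnion_compactCovering G]
  exact measure_iUnion_null fun n => le_antisymm (hcon _ (isCompact_compactCovering G n)) zero_le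

/-- The constant is determined. PROOF. `rh_pos`, `h.fin`, `ENNReal.mul_left_inj` (evaluate on a compact set of positive measure). -/
theorem rh_cst {ν : Measure G} (h : RH V ν) {c c' : ℝ≥0∞} (e : c • ν = c' • ν) : c = c' := by
  obtain ⟨C, hC, hpos⟩ := rh_pos h
  have h1 := congrArg (fun m : Measure G => m C) e
  simp only [Measure.smul_apply, smul_eq_mul] at h1
  exact (ENNReal.mul_left_inj hpos.ne' (h.fin C hC).ne).1 h1

end

end Pool.Agent.Lib.L8
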