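import Pool.Agent.Lib.L8.BRA

/-!
# L8, version 2, bridge, BRB: semidirect products
-/

namespace Pool.Agent.Lib.L8

open MeasureTheory Filter
open scoped ENNReal Topology

noncomputable section

set_option linter.unusedSectionVars false
set_option linter.unusedVariables false

variable {G : Type} [Group G] [TopologicalSpace G] [IsTopologicalGroup G] [SecondCountableTopology G] [LocallyCompactSpace G] [T2Space G] [MeasurableSpace G] [BorelSpace G]

/-- **Semidirect products.** `V = V1 V2`, `V2` normalises `V1`, `π` is the projection to `V2`.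
PROOF. `ae`: the set of the pairs in `V1 × V2` has full measure (`Measure.ae_prod`-type lemmas, or `Measure.ae_prod_mem_iff`), the image is in `V`. `fin`: for a compact set `C`, `C' = π '' (C ∩ V)` is compact (`V` closed, `π` continuous on `V`), and `{(x, y) ∈ V1 × V2 : x y ∈ C} ⊆ (C * C'⁻¹) × C'` (`y = π(x y)`), both factors of finite measure (`Measure.prod_prod`).
`inv`: `v = a b` (`hdec`), `x y a b = (x (y a y⁻¹)) (y b)`: for fixed `y ∈ V2` the translation `x ↦ x (y a y⁻¹)` preserves `ν1`, then `y ↦ y b` preserves `ν2`; test with a measurable set `A`: `lintegral` over `y` of `ν1 {x : x y a b ∈ A}` (`Measure.prod_apply_symm`; `Measure.map_apply`). `ne`: `ν1 ≠ 0`, `ν2 ≠ 0` (`Measure.prod_eq_zero` or total mass; `map` of a nonzero measure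
under a measurable map is nonzero: `Measure.map_eq_zero_iff`). -/
theorem rh_prod {V V1 V2 : Subgroup G} (hV : IsClosed (V : Set G)) (h1 : V1 ≤ V) (h2 : V2 ≤ V) (hdec : ∀ v ∈ V, ∃ a ∈ V1, ∃ b ∈ V2, v = a * b)
    (hn : ∀ b ∈ V2, ∀ a ∈ V1, b * a * b⁻¹ ∈ V1) {π : G → G} (hπ : ContinuousOn π V) (hπ' : ∀ a ∈ V1, ∀ b ∈ V2, π (a * b) = b) {ν1 ν2 : Measure G} (k1 : RH V1 ν1) (k2 : RH V2 ν2) :
    RH V ((ν1.prod ν2).map fun p => p.1 * p.2) := by
  have s1 : SigmaFinite ν1 := rh_sigma k1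
  have s2 : SigmaFinite ν2 := rh_sigma k2
  have hf : Measurable fun p : G × G => p.1 * p.2 := measurable_fst.mul measurable_snd
  have a1 : ∀ᵐ p ∂(ν1.prod ν2), p.1 ∈ V1 := Measure.quasiMeasurePreserving_fst.ae k1.ae
  have a2 : ∀ᵐ p ∂(ν1.prod ν2), p.2 ∈ V2 := Measure.quasiMeasurePreserving_snd.ae k2.ae
  refine ⟨?_, fun C hC => ?_, ?_, fun v hv => ?_⟩
  · refine (ae_map_iff hf.aemeasurable hV.measurableSet).2 ?_
    filter_upwards [a1, a2] with p hp1 hp2
    exact V.mul_mem (h1 hp1) (h2 hp2)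
  · rw [Measure.map_apply hf hC.measurableSet]
    have hC1 : IsCompact (C ∩ (V : Set G)) := hC.inter_right hV
    have hC' : IsCompact (π '' (C ∩ (V : Set G))) := hC1.image_of_continuousOn (hπ.mono Set.inter_subset_right)
    have hle : (fun p : G × G => p.1 * p.2) ⁻¹' C ≤ᵐ[ν1.prod ν2]
        ((fun p : G × G => p.1 * p.2⁻¹) '' (C ×ˢ (π '' (C ∩ (V : Set G))))) ×ˢ (π '' (C ∩ (V : Set G))) := by
      filter_upwards [a1, a2] with p hp1 hp2
      intro hp
      have hp' : p.1 * p.2 ∈ C := hp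
      have hq : p.2 ∈ π '' (C ∩ (V : Set G)) :=
        ⟨p.1 * p.2, ⟨hp', V.mul_mem (h1 hp1) (h2 hp2)⟩, hπ' _ hp1 _ hp2⟩
      have hr : p.1 ∈ (fun p : G × G => p.1 * p.2⁻¹) '' (C ×ˢ (π '' (C ∩ (V : Set G)))) := by
        refine ⟨(p.1 * p.2, p.2), Set.mk_mem_prod hp' hq, ?_⟩
        simp only
        group
      exact Set.mk_mem_prod hr hq
    refine (measure_mono_ae hle).trans_lt ?_
    rw [Measure.prod_prod]
    exact ENNReal.mul_lt_top (k1.fin _ ((hC.prod hC').image (continuous_fst.mul continuous_snd.inv))) (k2.fin _ hC')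
  · rw [Ne, Measure.map_eq_zero_iff hf.aemeasurable]
    intro hz
    obtain ⟨C1, _, hp1⟩ := rh_pos k1
    obtain ⟨C2, _, hp2⟩ := rh_pos k2
    have h3 : (ν1.prod ν2) (C1 ×ˢ C2) = 0 := by rw [hz]; rfl
    rw [Measure.prod_prod, mul_eq_zero] at h3
    rcases h3 with h3 | h3
    · exact hp1.ne' h3
    · exact hp2.ne' h3
  · obtain ⟨a, ha, b, hb, rfl⟩ := hdec v hv
    rw [Measure.map_map (measurable_mul_const _) hf]
    ext s hs
    rw [Measure.map_apply ((measurable_mul_const _).comp hf) hs, Measure.map_apply hf hs]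
    have hF : Measurable fun y : G => ν1 ((fun x : G => (x, y)) ⁻¹' ((fun p : G × G => p.1 * p.2) ⁻¹' s)) :=
      measurable_measure_prodMk_right (hf hs)
    rw [Measure.prod_apply_symm (hf hs), Measure.prod_apply_symm (((measurable_mul_const _).comp hf) hs)]
    have e1 : ∫⁻ y, ν1 ((fun x : G => (x, y)) ⁻¹' (((fun x : G => x * (a * b)) ∘ fun p : G × G => p.1 * p.2) ⁻¹' s)) ∂ν2 =
        ∫⁻ y, ν1 ((fun x : G => (x, y * b)) ⁻¹' ((fun p : G × G => p.1 * p.2) ⁻¹' s)) ∂ν2 := by
      refine lintegral_congr_ae ?_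
      filter_upwards [k2.ae] with y hy
      have hc := hn y hy a ha
      have e2 : (fun x : G => (x, y)) ⁻¹' (((fun x : G => x * (a * b)) ∘ fun p : G × G => p.1 * p.2) ⁻¹' s) =
          (fun x : G => x * (y * a * y⁻¹)) ⁻¹' ((fun x : G => (x, y * b)) ⁻¹' ((fun p : G × G => p.1 * p.2) ⁻¹' s)) := by
        ext x
        simp only [Set.mem_preimage, Function.comp_apply]
        have e3 : x * y * (a * b) = x * (y * a * y⁻¹) * (y * b) := by group
        rw [e3]
      have hm : MeasurableSet ((fun x : G => (x, y * b)) ⁻¹' ((fun p : G × G => p.1 * p.2) ⁻¹' s)) :=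
        measurable_prodMk_right (hf hs)
      rw [e2, ← Measure.map_apply (measurable_mul_const _) hm, k1.inv _ hc]
    rw [e1]
    have e4 := lintegral_map hF (measurable_mul_const b) (μ := ν2)
    rw [k2.inv b hb] at e4
    rw [e4]

end

end Pool.Agent.Lib.L8
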