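import Pool.Agent.Lib.L8.BRA

/-!
# L8, version 2, bridge, BRC: moduli equal to one, compact groups
-/

namespace Pool.Agent.Lib.L8

open MeasureTheory Filter
open scoped ENNReal Topology

noncomputable section

set_option linter.unusedSectionVars false
set_option linter.unusedVariables false

variable {G : Type} [Group G] [TopologicalSpace G] [IsTopologicalGroup G] [SecondCountableTopology G] [LocallyCompactSpace G] [T2Space G] [MeasurableSpace G] [BorelSpace G] {V : Subgroup G}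

theorem brc_meas (g : G) : Measurable fun x : G => g * x * g⁻¹ :=
  (by fun_prop : Continuous fun x : G => g * x * g⁻¹).measurable

theorem brc_comp {ν : Measure G} {g h : G} {c c' : ℝ≥0∞} (hg : (ν.map fun x => g * x * g⁻¹) = c • ν) (hh : (ν.map fun x => h * x * h⁻¹) = c' • ν) :
    (ν.map fun x => (g * h) * x * (g * h)⁻¹) = (c * c') • ν := by
  have h1 : (fun x => (g * h) * x * (g * h)⁻¹) = (fun x => g * x * g⁻¹) ∘ fun x => h * x * h⁻¹ := by
    funext x
    show (g * h) * x * (g * h)⁻¹ = g * (h * x * h⁻¹) * g⁻¹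
    group
  rw [h1, ← Measure.map_map (brc_meas g) (brc_meas h), hh, Measure.map_smul, hg, smul_smul, mul_comm c' c]

theorem brc_one {ν : Measure G} : (ν.map fun x => (1 : G) * x * (1 : G)⁻¹) = (1 : ℝ≥0∞) • ν := by
  have h1 : (fun x : G => (1 : G) * x * (1 : G)⁻¹) = id := by
    funext x
    simp
  rw [h1, Measure.map_id, one_smul]

theorem brc_pow {ν : Measure G} {g : G} {c : ℝ≥0∞} (hg : (ν.map fun x => g * x * g⁻¹) = c • ν) (n : ℕ) :
    (ν.map fun x => g ^ n * x * (g ^ n)⁻¹) = c ^ n • ν := by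
  induction n with
  | zero =>
    rw [pow_zero, pow_zero]
    exact brc_one
  | succ n ih =>
    rw [pow_succ, pow_succ]
    exact brc_comp ih hg

theorem brc_le {ν : Measure G} (h : RH V ν) {K : Subgroup G} (hK : IsCompact (K : Set G)) {k : G} (hk : k ∈ K) {c : ℝ≥0∞} (hc : c ≠ ∞)
    (he : (ν.map fun x => k * x * k⁻¹) = c • ν) : c ≤ 1 := by
  by_contra hlt
  rw [not_le] at hlt
  obtain ⟨C, hC, hpos⟩ := rh_pos h
  set C' : Set G := (fun p : G × G => p.1⁻¹ * p.2 * p.1) '' ((K : Set G) ×ˢ C) with hC'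
  have h1 : IsCompact C' := (hK.prod hC).image (by fun_prop)
  have h2 : ν C' < ∞ := h.fin _ h1
  have h3 : ν C < ∞ := h.fin _ hC
  have h4 : ∀ n : ℕ, c ^ n * ν C ≤ ν C' := by
    intro n
    have h5 := congrArg (fun μ : Measure G => μ C) (brc_pow he n)
    simp only [Measure.smul_apply, smul_eq_mul] at h5
    rw [← h5, Measure.map_apply (brc_meas _) hC.measurableSet]
    refine measure_mono fun y hy => ?_
    have h6 : k ^ n * y * (k ^ n)⁻¹ ∈ C := hy
    refine ⟨(k ^ n, k ^ n * y * (k ^ n)⁻¹), ⟨K.pow_mem hk n, h6⟩, ?_⟩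
    show (k ^ n)⁻¹ * (k ^ n * y * (k ^ n)⁻¹) * k ^ n = y
    group
  have h5 : 1 < c.toReal := by
    have h6 := (ENNReal.toReal_lt_toReal ENNReal.one_ne_top hc).2 hlt
    rwa [ENNReal.toReal_one] at h6
  have h6 : 0 < (ν C).toReal := ENNReal.toReal_pos hpos.ne' h3.ne
  obtain ⟨n, hn⟩ := pow_unbounded_of_one_lt ((ν C').toReal / (ν C).toReal) h5
  rw [div_lt_iff₀ h6] at hn
  have h7 := ENNReal.toReal_mono h2.ne (h4 n)
  rw [ENNReal.toReal_mul, ENNReal.toReal_pow] at h7
  exact absurd hn (not_lt.2 h7)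

theorem brc_fin {K : Subgroup G} (hK : IsCompact (K : Set G)) {ν : Measure G} (h : RH K ν) : ν Set.univ < ∞ := by
  have h1 : ν (K : Set G)ᶜ = 0 := h.ae
  have h2 : ν Set.univ ≤ ν (K : Set G) + ν (K : Set G)ᶜ := by
    rw [← Set.union_compl_self (K : Set G)]
    exact measure_union_le _ _
  rw [h1, add_zero] at h2
  exact lt_of_le_of_lt h2 (h.fin _ hK)

/-- **The modulus of an element of a compact group is one.** PROOF. `ν.map(conj k) = c ν` (`rh_mod`), by induction `ν.map(conj k^n) = c^n ν` for `n : ℕ`. Let `C` be compact with `ν C > 0` (`rh_pos`), `C' = {x y x⁻¹ : x ∈ K, y ∈ C}` compact. `c^n ν(C) = ν {x : k^n x k^(-n) ∈ C} ≤ ν(C') < ∞` for all `n`, so `c ≤ 1`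
(otherwise `c^n → ∞`). The same for `k⁻¹` gives `c⁻¹ ≤ 1` (the constant of `k⁻¹` is `c⁻¹`: compose, `rh_cst`). -/
theorem rh_cpt (hV : IsClosed (V : Set G)) {ν : Measure G} (h : RH V ν) {K : Subgroup G} (hK : IsCompact (K : Set G)) {k : G} (hk : k ∈ K)
    (hn : ∀ x, x ∈ V ↔ k⁻¹ * x * k ∈ V) : (ν.map fun x => k * x * k⁻¹) = ν := by
  obtain ⟨c, hc0, hc1, hc⟩ := rh_mod hV h k hn
  have hn' : ∀ x, x ∈ V ↔ (k⁻¹)⁻¹ * x * k⁻¹ ∈ V := by
    intro x
    have h1 := hn ((k⁻¹)⁻¹ * x * k⁻¹)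
    have h2 : k⁻¹ * ((k⁻¹)⁻¹ * x * k⁻¹) * k = x := by group
    rw [h2] at h1
    exact h1.symm
  obtain ⟨c', hc0', hc1', hc'⟩ := rh_mod hV h k⁻¹ hn'
  have h1 := brc_le h hK hk hc1 hc
  have h2 := brc_le h hK (K.inv_mem hk) hc1' hc'
  have h3 := brc_comp hc hc'
  rw [mul_inv_cancel, brc_one] at h3
  have h4 := rh_cst h h3
  have h5 : c = 1 := by
    refine le_antisymm h1 ?_
    rw [h4]
    calc c * c' ≤ c * 1 := mul_le_mul_right h2 c
      _ = c := mul_one c
  rw [hc, h5, one_smul]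

/-- **The modulus of a unipotent one parameter group is one.** PROOF. `ν.map(conj x(s)) = c(s) ν` (`rh_mod`), `c(s + s') = c(s) c(s')` (`Measure.map_map`, `rh_cst`), and conjugation by `t`: `x(s + s) = t x(s) t⁻¹` has the same constant as `x(s)` (the constant `c0` of `t` cancels). So `c(s)² = c(s)`, `c(s) = 1`. -/
theorem rh_uni (hV : IsClosed (V : Set G)) {ν : Measure G} (h : RH V ν) {F : Type} [AddCommGroup F] (x : F → G) (hx : ∀ s s', x (s + s') = x s * x s')
    (hn : ∀ s, ∀ v ∈ V, x s * v * (x s)⁻¹ ∈ V) (t : G) (ht : ∀ v, v ∈ V ↔ t⁻¹ * v * t ∈ V) (hd : ∀ s, t * x s * t⁻¹ = x (s + s)) (s : F) :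
    (ν.map fun v => x s * v * (x s)⁻¹) = ν := by
  have hx0 : x 0 = 1 := by
    have h1 := hx 0 0
    rw [add_zero] at h1
    exact (mul_eq_left.1 h1.symm)
  have hxn : ∀ s, x (-s) = (x s)⁻¹ := by
    intro s
    have h1 := hx (-s) s
    rw [neg_add_cancel, hx0] at h1
    exact eq_inv_of_mul_eq_one_left h1.symm
  have hn' : ∀ y, y ∈ V ↔ (x s)⁻¹ * y * x s ∈ V := by
    intro y
    constructor
    · intro hy
      have h1 := hn (-s) y hy
      rwa [hxn, inv_inv] at h1
    · intro hy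
      have h1 := hn s _ hy
      have h2 : x s * ((x s)⁻¹ * y * x s) * (x s)⁻¹ = y := by group
      rwa [h2] at h1
  have ht' : ∀ y, y ∈ V ↔ (t⁻¹)⁻¹ * y * t⁻¹ ∈ V := by
    intro y
    have h1 := ht ((t⁻¹)⁻¹ * y * t⁻¹)
    have h2 : t⁻¹ * ((t⁻¹)⁻¹ * y * t⁻¹) * t = y := by group
    rw [h2] at h1
    exact h1.symm
  obtain ⟨c, hc0, hc1, hc⟩ := rh_mod hV h (x s) hn'
  obtain ⟨a, ha0, ha1, ha⟩ := rh_mod hV h t ht
  obtain ⟨a', ha0', ha1', ha'⟩ := rh_mod hV h t⁻¹ ht'
  have h1 := brc_comp ha ha'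
  rw [mul_inv_cancel, brc_one] at h1
  have h2 := rh_cst h h1
  have h3 := brc_comp hc hc
  have h4 := brc_comp (brc_comp ha hc) ha'
  rw [hd s, hx s s, h3] at h4
  have h5 := rh_cst h h4
  have h6 : c * c = c * 1 := by
    rw [h5, mul_one, mul_right_comm, ← h2, one_mul]
  have h7 : c = 1 := (ENNReal.mul_right_inj hc0 hc1).1 h6
  rw [hc, h7, one_smul]

/-- PROOF. `ν.map (k x)` is again a right Haar measure of `K` (left and right translations commute), so it is `c ν` (`rh_uniq`), with the same total mass `ν univ = ν K < ∞`, not zero. -/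
theorem rh_left {K : Subgroup G} (hK : IsCompact (K : Set G)) {ν : Measure G} (h : RH K ν) {k : G} (hk : k ∈ K) : (ν.map fun x => k * x) = ν := by
  have hm : ∀ g : G, Measurable fun x : G => g * x := fun g => (by fun_prop : Continuous fun x : G => g * x).measurable
  have hm' : ∀ g : G, Measurable fun x : G => x * g := fun g => (by fun_prop : Continuous fun x : G => x * g).measurable
  have h1 : RH K (ν.map fun x => k * x) := by
    refine ⟨?_, ?_, ?_, ?_⟩
    · refine (ae_map_iff (p := fun x => x ∈ K) (hm k).aemeasurable hK.measurableSet).2 ?_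
      filter_upwards [h.ae] with x hx
      exact K.mul_mem hk hx
    · intro C hC
      rw [Measure.map_apply (hm k) hC.measurableSet]
      refine h.fin _ ?_
      have h2 : (fun x => k * x) ⁻¹' C = (Homeomorph.mulLeft k).symm '' C := by
        rw [Homeomorph.image_symm]
        rfl
      rw [h2]
      exact hC.image (Homeomorph.mulLeft k).symm.continuous
    · intro h2
      have h3 := (Measure.map_eq_zero_iff (hm k).aemeasurable).1 h2
      exact h.ne h3
    · intro v hv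
      rw [Measure.map_map (hm' v) (hm k)]
      have h2 : (fun x => x * v) ∘ (fun x => k * x) = (fun x => k * x) ∘ fun x => x * v := by
        funext x
        exact mul_assoc k x v
      rw [h2, ← Measure.map_map (hm k) (hm' v), h.inv v hv]
  obtain ⟨c, hc0, hc1, hc⟩ := rh_uniq hK.isClosed h1 h
  have h2 := congrArg (fun μ : Measure G => μ Set.univ) hc
  simp only [Measure.smul_apply, smul_eq_mul] at h2
  rw [Measure.map_apply (hm k) MeasurableSet.univ, Set.preimage_univ] at h2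
  have h3 : ν Set.univ ≠ 0 := fun h4 => h.ne (Measure.measure_univ_eq_zero.1 h4)
  have h4 : 1 * ν Set.univ = c * ν Set.univ := by rw [one_mul]; exact h2
  have h5 : 1 = c := (ENNReal.mul_left_inj h3 (brc_fin hK h).ne).1 h4
  rw [hc, ← h5, one_smul]

/-- PROOF. `rh_ex` (compact sets are closed), divide by the total mass `ν univ = ν K`, which is finite and not zero. -/
theorem rh_prob {K : Subgroup G} (hK : IsCompact (K : Set G)) : ∃ κ, RH K κ ∧ IsProbabilityMeasure κ := by
  obtain ⟨ν, h⟩ := rh_ex hK.isClosed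
  have h1 := brc_fin hK h
  have h2 : ν Set.univ ≠ 0 := fun h4 => h.ne (Measure.measure_univ_eq_zero.1 h4)
  refine ⟨(ν Set.univ)⁻¹ • ν, rh_smul h (ENNReal.inv_ne_zero.2 h1.ne) (ENNReal.inv_ne_top.2 h2), ⟨?_⟩⟩
  rw [Measure.smul_apply, smul_eq_mul]
  exact ENNReal.inv_mul_cancel h2 h1.ne

end

end Pool.Agent.Lib.L8
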