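import Pool.Agent.Lib.L8.BR0

/-!
# L8, version 2, bridge, BRD: rank one integrals
-/

namespace Pool.Agent.Lib.L8

open MeasureTheory Filter
open scoped ENNReal Topology

noncomputable section

set_option linter.unusedSectionVars false
set_option linter.unusedVariables false

variable {F : Type} [RCLike F]

/-- PROOF. `exp(-((z + d)(1/2) log(1 + |t|²))) = (1 + ‖t‖²)^(-(z + d)/2)`: `integrable_rpow_neg_one_add_norm_sq`. -/
theorem brd_int {z : ℝ} (hz : 0 < z) : Integrable (fun t : F => Real.exp (-((z + dF F) * (1 / 2 * Real.log (1 + ‖t‖ ^ 2))))) := by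
  have h1 : (Module.finrank ℝ F : ℝ) < z + dF F := by
    unfold dF
    linarith
  have h2 := integrable_rpow_neg_one_add_norm_sq (E := F) (μ := volume) h1
  refine h2.congr (Filter.Eventually.of_forall fun t => ?_)
  have h3 : (0 : ℝ) < 1 + ‖t‖ ^ 2 := by positivity
  change (1 + ‖t‖ ^ 2) ^ (-(z + dF F) / 2) = Real.exp (-((z + dF F) * (1 / 2 * Real.log (1 + ‖t‖ ^ 2))))
  rw [Real.rpow_def_of_pos h3]
  congr 1
  ring

/-- PROOF. `∫ exp(-x ‖t‖²) dt = (π / x)^(d / 2)` for `x > 0` (`GaussianFourier.integral_rexp_neg_mul_sq_norm`; `F` is a Euclidean space over `ℝ`, or treat it through `InnerProductSpace.rclikeToReal`, `RCLike` norms). -/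
theorem brd_gauss {x : ℝ} (hx : 0 < x) : ∫ t : F, Real.exp (-(x * ‖t‖ ^ 2)) = (Real.pi / x) ^ (dF F / 2) := by
  have h1 := GaussianFourier.integral_rexp_neg_mul_sq_norm (V := F) hx
  unfold dF
  rw [← h1]
  refine integral_congr_ae (Filter.Eventually.of_forall fun t => ?_)
  change Real.exp (-(x * ‖t‖ ^ 2)) = Real.exp (-x * ‖t‖ ^ 2)
  rw [neg_mul]

theorem brd_gauss_int {x : ℝ} (hx : 0 < x) : Integrable (fun t : F => Real.exp (-(x * ‖t‖ ^ 2))) := by
  by_contra h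
  have h1 := integral_undef h
  rw [brd_gauss hx] at h1
  have h2 : (0 : ℝ) < (Real.pi / x) ^ (dF F / 2) := Real.rpow_pos_of_pos (div_pos Real.pi_pos hx) _
  exact h2.ne' h1

/-- The integrand. -/
def brd_f (F : Type) [RCLike F] (s : ℂ) (p : F × ℝ) : ℂ := (p.2 : ℂ) ^ (s - 1) * Complex.exp (-(((1 + ‖p.1‖ ^ 2 : ℝ) : ℂ) * (p.2 : ℂ)))

theorem brd_meas (s : ℂ) : Measurable (brd_f F s) := by
  unfold brd_f
  refine Measurable.mul ?_ ?_
  · exact (Complex.measurable_ofReal.comp measurable_snd).pow_const _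
  · refine Complex.measurable_exp.comp (Measurable.neg (Measurable.mul ?_ ?_))
    · exact Complex.measurable_ofReal.comp ((measurable_const).add ((measurable_norm.comp measurable_fst).pow_const 2))
    · exact Complex.measurable_ofReal.comp measurable_snd

theorem brd_norm (s : ℂ) (t : F) {x : ℝ} (hx : 0 < x) :
    ‖brd_f F s (t, x)‖ = x ^ (s.re - 1) * Real.exp (-x) * Real.exp (-(x * ‖t‖ ^ 2)) := by
  unfold brd_f
  rw [norm_mul, Complex.norm_cpow_eq_rpow_re_of_pos hx, Complex.norm_exp, mul_assoc, ← Real.exp_add]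
  congr 2
  rw [← Complex.ofReal_mul, ← Complex.ofReal_neg, Complex.ofReal_re]
  ring

theorem brd_eq (s : ℂ) (t : F) {x : ℝ} (hx : 0 < x) :
    brd_f F s (t, x) = ((x : ℂ) ^ (s - 1) * Complex.exp (-(x : ℂ))) * ((Real.exp (-(x * ‖t‖ ^ 2)) : ℝ) : ℂ) := by
  unfold brd_f
  rw [Complex.ofReal_exp, mul_assoc, ← Complex.exp_add]
  congr 2
  push_cast
  ring

theorem brd_pw {s : ℂ} {x : ℝ} (hx : 0 < x) (d : ℝ) :
    ((x : ℂ) ^ (s - 1) * Complex.exp (-(x : ℂ))) * (((Real.pi / x) ^ (d / 2) : ℝ) : ℂ) =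
      ((Real.pi ^ (d / 2) : ℝ) : ℂ) * (Complex.exp (-(x : ℂ)) * (x : ℂ) ^ ((s - ((d / 2 : ℝ) : ℂ)) - 1)) := by
  have hx' : (x : ℂ) ≠ 0 := by exact_mod_cast hx.ne'
  rw [Real.div_rpow Real.pi_pos.le hx.le]
  have h1 : (x : ℂ) ^ (s - 1) = (x : ℂ) ^ ((s - ((d / 2 : ℝ) : ℂ)) - 1) * ((x ^ (d / 2) : ℝ) : ℂ) := by
    rw [Complex.ofReal_cpow hx.le, ← Complex.cpow_add _ _ hx']
    congr 1
    ring
  rw [h1]
  have h2 : ((x ^ (d / 2) : ℝ) : ℂ) ≠ 0 := by
    exact_mod_cast (Real.rpow_pos_of_pos hx _).ne'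
  push_cast
  field_simp

theorem brd_fub {s : ℂ} (hs : dF F / 2 < s.re) :
    Integrable (brd_f F s) ((volume : Measure F).prod (volume.restrict (Set.Ioi (0 : ℝ)))) := by
  rw [integrable_prod_iff' (brd_meas s).aestronglyMeasurable]
  constructor
  · refine (ae_restrict_iff' measurableSet_Ioi).2 (Filter.Eventually.of_forall fun x hx => ?_)
    have hx' : 0 < x := hx
    have h1 : (fun t : F => brd_f F s (t, x)) = fun t => ((x : ℂ) ^ (s - 1) * Complex.exp (-(x : ℂ))) *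
        ((Real.exp (-(x * ‖t‖ ^ 2)) : ℝ) : ℂ) := funext fun t => brd_eq s t hx'
    rw [h1]
    exact (brd_gauss_int hx').ofReal.const_mul _
  · have h1 : IntegrableOn (fun x : ℝ => Real.pi ^ (dF F / 2) * (Real.exp (-x) * x ^ ((s.re - dF F / 2) - 1)))
        (Set.Ioi 0) := (Real.GammaIntegral_convergent (by linarith)).const_mul _
    refine Integrable.congr h1 ?_
    refine (ae_restrict_iff' measurableSet_Ioi).2 (Filter.Eventually.of_forall fun x hx => ?_)
    have hx' : 0 < x := hx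
    change _ = ∫ t : F, ‖brd_f F s (t, x)‖
    have h2 : (fun t : F => ‖brd_f F s (t, x)‖) = fun t => (x ^ (s.re - 1) * Real.exp (-x)) * Real.exp (-(x * ‖t‖ ^ 2)) :=
      funext fun t => brd_norm s t hx'
    rw [h2, integral_const_mul, brd_gauss hx', Real.div_rpow Real.pi_pos.le hx'.le]
    have h3 : x ^ (s.re - 1) = x ^ ((s.re - dF F / 2) - 1) * x ^ (dF F / 2) := by
      rw [← Real.rpow_add hx']
      congr 1
      ring
    rw [h3]
    have h4 : x ^ (dF F / 2) ≠ 0 := (Real.rpow_pos_of_pos hx' _).ne'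
    field_simp

theorem brd_key {s : ℂ} (hs : dF F / 2 < s.re) :
    Complex.Gamma s * ∫ t : F, Complex.exp (-(s * ((Real.log (1 + ‖t‖ ^ 2) : ℝ) : ℂ))) =
      ((Real.pi ^ (dF F / 2) : ℝ) : ℂ) * Complex.Gamma (s - ((dF F / 2 : ℝ) : ℂ)) := by
  have hd : 0 ≤ dF F := by unfold dF; positivity
  have hs0 : 0 < s.re := by linarith
  have h1 : ∀ t : F, ∫ x in Set.Ioi (0 : ℝ), brd_f F s (t, x) =
      Complex.Gamma s * Complex.exp (-(s * ((Real.log (1 + ‖t‖ ^ 2) : ℝ) : ℂ))) := by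
    intro t
    have hr : (0 : ℝ) < 1 + ‖t‖ ^ 2 := by positivity
    have h2 := Complex.integral_cpow_mul_exp_neg_mul_Ioi hs0 hr
    unfold brd_f
    rw [h2, mul_comm]
    congr 1
    have h3 : (1 / ((1 + ‖t‖ ^ 2 : ℝ) : ℂ)) ≠ 0 := by
      have : ((1 + ‖t‖ ^ 2 : ℝ) : ℂ) ≠ 0 := by exact_mod_cast hr.ne'
      exact one_div_ne_zero this
    rw [Complex.cpow_def_of_ne_zero h3]
    congr 1
    have h4 : (1 / ((1 + ‖t‖ ^ 2 : ℝ) : ℂ)) = ((1 / (1 + ‖t‖ ^ 2) : ℝ) : ℂ) := by push_cast; rfl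
    rw [h4, ← Complex.ofReal_log (by positivity), one_div, Real.log_inv]
    push_cast
    ring
  have h5 : Complex.Gamma s * ∫ t : F, Complex.exp (-(s * ((Real.log (1 + ‖t‖ ^ 2) : ℝ) : ℂ))) =
      ∫ t : F, ∫ x in Set.Ioi (0 : ℝ), brd_f F s (t, x) := by
    rw [← integral_const_mul]
    exact integral_congr_ae (Filter.Eventually.of_forall fun t => (h1 t).symm)
  rw [h5]
  have h6 := integral_integral_swap (μ := (volume : Measure F)) (ν := volume.restrict (Set.Ioi (0 : ℝ)))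
    (f := fun t x => brd_f F s (t, x)) (brd_fub hs)
  rw [h6]
  have h7 : ∫ x in Set.Ioi (0 : ℝ), ∫ t : F, brd_f F s (t, x) =
      ∫ x in Set.Ioi (0 : ℝ), ((Real.pi ^ (dF F / 2) : ℝ) : ℂ) *
        (Complex.exp (-(x : ℂ)) * (x : ℂ) ^ ((s - ((dF F / 2 : ℝ) : ℂ)) - 1)) := by
    refine setIntegral_congr_fun measurableSet_Ioi fun x hx => ?_
    have hx' : 0 < x := hx
    change ∫ t : F, brd_f F s (t, x) = _
    have h8 : (fun t : F => brd_f F s (t, x)) = fun t => ((x : ℂ) ^ (s - 1) * Complex.exp (-(x : ℂ))) *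
        ((Real.exp (-(x * ‖t‖ ^ 2)) : ℝ) : ℂ) := funext fun t => brd_eq s t hx'
    rw [h8, integral_const_mul, integral_complex_ofReal, brd_gauss hx']
    exact brd_pw hx' _
  rw [h7, integral_const_mul]
  congr 1
  rw [Complex.Gamma_eq_integral]
  · unfold Complex.GammaIntegral
    refine setIntegral_congr_fun measurableSet_Ioi fun x hx => ?_
    push_cast
    rfl
  · rw [Complex.sub_re, Complex.ofReal_re]
    linarith

/-- **The rank one integral is not zero.** PROOF. With `s = (z + d)/2` (`Re s > d/2`): `Γ(s) (1 + |t|²)^(-s) = ∫_0^∞ x^(s - 1) e^(-x (1 + |t|²)) dx` (`Complex.integral_cpow_mul_exp_neg_mul_Ioi` or `Complex.GammaIntegral` with a scaling). Integrate over `t` and exchange (the norm is the case of the real parameter `Re s`; everything is nonnegative there and finite):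
`Γ(s) ∫ (1 + |t|²)^(-s) dt = ∫_0^∞ x^(s - 1) e^(-x) (π / x)^(d/2) dx = π^(d/2) Γ(s - d/2)`, `s - d/2 = z/2`, and `Γ(z/2) ≠ 0` (`Complex.Gamma_ne_zero_of_re_pos`). So the integral is not zero. -/
theorem brd_ne {z : ℂ} (hz : 0 < z.re) : ∫ t : F, Complex.exp (-((z + dF F) * ((1 / 2 * Real.log (1 + ‖t‖ ^ 2) : ℝ) : ℂ))) ≠ 0 := by
  have hs : dF F / 2 < ((z + (dF F : ℂ)) / 2).re := by
    have e : ((z + (dF F : ℂ)) / 2).re = (z.re + dF F) / 2 := by
      have e1 : ((z + (dF F : ℂ)) / 2) = ((z + (dF F : ℂ)) / ((2 : ℝ) : ℂ)) := by norm_num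
      rw [e1, Complex.div_ofReal_re, Complex.add_re, Complex.ofReal_re]
    rw [e]
    linarith
  have h1 := brd_key (F := F) hs
  intro h0
  have h2 : ∫ t : F, Complex.exp (-((z + (dF F : ℂ)) / 2 * ((Real.log (1 + ‖t‖ ^ 2) : ℝ) : ℂ))) = 0 := by
    rw [← h0]
    refine integral_congr_ae (Filter.Eventually.of_forall fun t => ?_)
    change Complex.exp _ = Complex.exp _
    congr 1
    push_cast
    ring
  rw [h2, mul_zero] at h1
  have h3 : (z + (dF F : ℂ)) / 2 - ((dF F / 2 : ℝ) : ℂ) = z / 2 := by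
    push_cast
    ring
  rw [h3] at h1
  have h4 : Complex.Gamma (z / 2) ≠ 0 := by
    apply Complex.Gamma_ne_zero_of_re_pos
    have e1 : z / 2 = z / ((2 : ℝ) : ℂ) := by norm_num
    rw [e1, Complex.div_ofReal_re]
    linarith
  have h5 : ((Real.pi ^ (dF F / 2) : ℝ) : ℂ) ≠ 0 := by
    exact_mod_cast (Real.rpow_pos_of_pos Real.pi_pos _).ne'
  exact (mul_ne_zero h5 h4) h1.symm

end

end Pool.Agent.Lib.L8
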