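import Pool.Agent.Lib.L8.BR0

/-!
# L8, version 2, bridge, BRE: the inversion and the dilations on the field
-/

namespace Pool.Agent.Lib.L8

open MeasureTheory Filter
open scoped ENNReal Topology

noncomputable section

set_option linter.unusedSectionVars false
set_option linter.unusedVariables false

variable {F : Type} [RCLike F]

/-- PROOF. For `w = ‖w‖ u`, `‖u‖ = 1`: multiplication by `u` is a linear isometry of the real vector space `F`, hence measure preserving (`LinearIsometryEquiv.measurePreserving`, or: the image of the unit ball is the unit ball, `Measure.addHaar_image_linearMap`); multiplication by the real number `‖w‖` has determinant `‖w‖^d` (`Measure.addHaar_smul`). -/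
theorem bre_mul {w : F} (hw : w ≠ 0) : (volume : Measure F).map (fun t => w * t) = ENNReal.ofReal (‖w‖ ^ (-dF F)) • (volume : Measure F) := by
  have hn : (0 : ℝ) < ‖w‖ := norm_pos_iff.2 hw
  set u : F := ((‖w‖⁻¹ : ℝ) : F) * w with hu
  have hu1 : ‖u‖ = 1 := by
    rw [hu, norm_mul, RCLike.norm_ofReal, abs_of_pos (inv_pos.2 hn), inv_mul_cancel₀ hn.ne']
  have hu0 : u ≠ 0 := by
    intro h
    rw [h, norm_zero] at hu1
    exact zero_ne_one hu1
  let L : F ≃ₗᵢ[ℝ] F :=
    { toFun := fun t => u * t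
      invFun := fun t => u⁻¹ * t
      left_inv := fun t => by
        show u⁻¹ * (u * t) = t
        rw [← mul_assoc, inv_mul_cancel₀ hu0, one_mul]
      right_inv := fun t => by
        show u * (u⁻¹ * t) = t
        rw [← mul_assoc, mul_inv_cancel₀ hu0, one_mul]
      map_add' := fun x y => mul_add u x y
      map_smul' := fun r x => by
        show u * (r • x) = r • (u * x)
        rw [mul_smul_comm]
      norm_map' := fun x => by
        show ‖u * x‖ = ‖x‖
        rw [norm_mul, hu1, one_mul] }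
  have hL : (volume : Measure F).map (fun t => u * t) = volume := L.measurePreserving.map_eq
  have hcomp : (fun t : F => w * t) = (fun t : F => ‖w‖ • t) ∘ fun t : F => u * t := by
    funext t
    show w * t = ‖w‖ • (u * t)
    rw [RCLike.real_smul_eq_coe_mul, ← mul_assoc, hu, ← mul_assoc, ← RCLike.ofReal_mul,
      mul_inv_cancel₀ hn.ne', RCLike.ofReal_one, one_mul]
  have hm1 : Measurable (fun t : F => ‖w‖ • t) := (continuous_const_smul ‖w‖).measurable
  have hm2 : Measurable (fun t : F => u * t) := (continuous_const.mul continuous_id).measurable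
  rw [hcomp, ← Measure.map_map hm1 hm2, hL, Measure.map_addHaar_smul volume hn.ne']
  congr 2
  rw [abs_of_pos (inv_pos.2 (pow_pos hn _)), Real.rpow_neg hn.le]
  unfold dF
  rw [Real.rpow_natCast]

/-- The same for real dilations. PROOF. `bre_mul` (`RCLike.real_smul_eq_coe_mul`). -/
theorem bre_smul {r : ℝ} (hr : 0 < r) : (volume : Measure F).map (fun t => r • t) = ENNReal.ofReal (r ^ (-dF F)) • (volume : Measure F) := by
  rw [Measure.map_addHaar_smul volume hr.ne']
  congr 2
  rw [abs_of_pos (inv_pos.2 (pow_pos hr _)), Real.rpow_neg hr.le]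
  unfold dF
  rw [Real.rpow_natCast]

/-- The determinant of a multiplication. -/
theorem bre_det {c : F} (hc : c ≠ 0) (L : F →ₗ[ℝ] F) (hL : ∀ x, L x = c * x) :
    |LinearMap.det L| = ‖c‖ ^ dF F := by
  have hn : (0 : ℝ) < ‖c‖ := norm_pos_iff.2 hc
  have hdet : LinearMap.det L ≠ 0 := by
    intro h0
    have hbij : Function.Injective L := by
      intro x y hxy
      rw [hL, hL] at hxy
      exact mul_left_cancel₀ hc hxy
    have h1 : IsUnit (LinearMap.det L) := by
      rw [← LinearMap.isUnit_iff_isUnit_det]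
      exact (Module.End.isUnit_iff _).2 ⟨hbij, LinearMap.injective_iff_surjective.1 hbij⟩
    rw [h0] at h1
    exact not_isUnit_zero h1
  have h1 := Measure.map_linearMap_addHaar_eq_smul_addHaar (volume : Measure F) hdet
  have hfun : (⇑L : F → F) = fun t => c * t := funext hL
  rw [hfun, bre_mul hc] at h1
  have h2 := congrArg (fun μ : Measure F => μ (Metric.ball 0 1)) h1
  simp only [Measure.smul_apply, smul_eq_mul] at h2
  have hpos : (volume : Measure F) (Metric.ball 0 1) ≠ 0 :=
    (Metric.measure_ball_pos volume (0 : F) one_pos).ne'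
  have hfin : (volume : Measure F) (Metric.ball 0 1) ≠ ∞ := measure_ball_lt_top.ne
  have h3 := (ENNReal.mul_left_inj hpos hfin).1 h2
  have h4 : ‖c‖ ^ (-dF F) = |(LinearMap.det L)⁻¹| := by
    have h5 := congrArg ENNReal.toReal h3
    rwa [ENNReal.toReal_ofReal (Real.rpow_nonneg hn.le _), ENNReal.toReal_ofReal (abs_nonneg _)] at h5
  rw [Real.rpow_neg hn.le, abs_inv] at h4
  exact (inv_injective h4).symm

/-- **The inversion.** PROOF. `f(t) = -t⁻¹` is injective on `{t ≠ 0}`, its derivative (over `ℝ`) is the multiplication by `t⁻²`, of determinant of absolute value `‖t‖^(-2 d)` (from `bre_mul`: `Measure.addHaar_image_linearMap` or `Measure.map_linearMap_addHaar_eq_smul_addHaar`). `lintegral_image_eq_lintegral_abs_det_fderiv_mul` on `s = {t ≠ 0}`, `f(s) = s`: for measurable `A`,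
`vol(A) = ∫_(s ∩ f⁻¹ A) |det f'| = ∫_(f⁻¹ A) exp(-2 d log ‖t‖) dt`. -/
theorem bre_inv : ((volume : Measure F).withDensity fun t => ENNReal.ofReal (Real.exp (-(2 * dF F * Real.log ‖t‖)))).map (fun t => -t⁻¹) = volume := by
  have hmeas : Measurable (fun t : F => -t⁻¹) := measurable_inv.neg
  have hnull : (volume : Measure F) {0} = 0 := measure_singleton 0
  ext A hA
  rw [Measure.map_apply hmeas hA, withDensity_apply _ (hmeas hA)]
  set s : Set F := (fun t : F => -t⁻¹) ⁻¹' A ∩ {0}ᶜ with hs
  have hsm : MeasurableSet s := (hmeas hA).inter (MeasurableSet.singleton 0).compl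
  have hae : ∀ B : Set F, (B ∩ {0}ᶜ : Set F) =ᵐ[volume] B := by
    intro B
    refine Filter.eventuallyLE_antisymm_iff.2 ⟨Filter.Eventually.of_forall fun t ht => ht.1, ?_⟩
    have h0 : ∀ᵐ t ∂(volume : Measure F), t ∈ ({0}ᶜ : Set F) := measure_eq_zero_iff_ae_notMem.1 hnull
    filter_upwards [h0] with t ht hB
    exact ⟨hB, ht⟩
  have hder : ∀ t ∈ s, HasFDerivWithinAt (fun t : F => -t⁻¹)
      ((ContinuousLinearMap.toSpanSingleton F (-(-(t ^ 2)⁻¹))).restrictScalars ℝ) s t := by
    intro t ht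
    have ht0 : t ≠ 0 := ht.2
    exact (((hasDerivAt_inv ht0).neg).hasFDerivAt.restrictScalars ℝ).hasFDerivWithinAt
  have hinj : Set.InjOn (fun t : F => -t⁻¹) s := by
    intro x _ y _ hxy
    exact inv_injective (neg_injective hxy)
  have himg : (fun t : F => -t⁻¹) '' s = A ∩ {0}ᶜ := by
    ext z
    constructor
    · rintro ⟨t, ⟨ht, ht0⟩, rfl⟩
      refine ⟨ht, ?_⟩
      intro h0
      apply ht0
      have h1 : -t⁻¹ = 0 := h0
      exact inv_eq_zero.1 (neg_eq_zero.1 h1)
    · rintro ⟨hz, hz0⟩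
      have hz0' : z ≠ 0 := hz0
      have hzz : -(-z⁻¹)⁻¹ = z := by
        rw [inv_neg, neg_neg, inv_inv]
      refine ⟨-z⁻¹, ⟨?_, ?_⟩, hzz⟩
      · show -(-z⁻¹)⁻¹ ∈ A
        rw [hzz]
        exact hz
      · intro h0
        have h1 : -z⁻¹ = 0 := h0
        exact hz0' (inv_eq_zero.1 (neg_eq_zero.1 h1))
  have hchange := lintegral_abs_det_fderiv_eq_addHaar_image (volume : Measure F) hsm hder hinj
  rw [himg, measure_congr (hae A)] at hchange
  rw [← hchange, ← setLIntegral_congr (hae ((fun t : F => -t⁻¹) ⁻¹' A))]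
  refine setLIntegral_congr_fun hsm fun t ht => ?_
  have ht0 : t ≠ 0 := ht.2
  have hn : (0 : ℝ) < ‖t‖ := norm_pos_iff.2 ht0
  have hc : (t ^ 2)⁻¹ ≠ 0 := inv_ne_zero (pow_ne_zero 2 ht0)
  have hd := bre_det hc ((((ContinuousLinearMap.toSpanSingleton F (-(-(t ^ 2)⁻¹))).restrictScalars ℝ) :
    F →L[ℝ] F) : F →ₗ[ℝ] F) (fun x => by
      show x • (-(-(t ^ 2)⁻¹)) = (t ^ 2)⁻¹ * x
      rw [neg_neg, smul_eq_mul, mul_comm])
  have hd' : |(((ContinuousLinearMap.toSpanSingleton F (-(-(t ^ 2)⁻¹))).restrictScalars ℝ) :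
      F →L[ℝ] F).det| = ‖(t ^ 2)⁻¹‖ ^ dF F := hd
  show ENNReal.ofReal (Real.exp (-(2 * dF F * Real.log ‖t‖))) = ENNReal.ofReal
    |(((ContinuousLinearMap.toSpanSingleton F (-(-(t ^ 2)⁻¹))).restrictScalars ℝ) : F →L[ℝ] F).det|
  rw [hd', norm_inv, norm_pow, Real.rpow_def_of_pos (inv_pos.2 (pow_pos hn 2)), Real.log_inv, Real.log_pow]
  congr 2
  push_cast
  ring

end

end Pool.Agent.Lib.L8
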