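import Pool.Agent.Lib.L8.BR0

/-!
# L8, version 2, bridge, BRF: algebra in `Iw`
-/

namespace Pool.Agent.Lib.L8

open MeasureTheory Filter
open scoped ENNReal Topology

noncomputable section

set_option linter.unusedSectionVars false
set_option linter.unusedVariables false

variable {J F G : Type} [Fintype J] [DecidableEq J] [RCLike F] [Group G] [TopologicalSpace G] [IsTopologicalGroup G] [SecondCountableTopology G] [LocallyCompactSpace G] [T2Space G] [MeasurableSpace G] [BorelSpace G] (I : Iw J F G)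

/-- PROOF. `ex_add 0 0`. -/
theorem brf_ex0 : I.ex 0 = 1 := by
  have h := I.ex_add 0 0
  rw [add_zero] at h
  have := congrArg (fun g => (I.ex 0)⁻¹ * g) h
  simpa using this.symm

theorem brf_exneg (y : J → ℝ) : I.ex (-y) = (I.ex y)⁻¹ := by
  have := I.ex_add (-y) y
  rw [neg_add_cancel, brf_ex0] at this
  exact eq_inv_of_mul_eq_one_left this.symm

theorem brf_x0 (i : J) : I.x i 0 = 1 := by
  have h := I.x_add i 0 0
  rw [add_zero] at h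
  have := congrArg (fun g => (I.x i 0)⁻¹ * g) h
  simpa using this.symm

theorem brf_xneg (i : J) (t : F) : I.x i (-t) = (I.x i t)⁻¹ := by
  have := I.x_add i (-t) t
  rw [neg_add_cancel, brf_x0] at this
  exact eq_inv_of_mul_eq_one_left this.symm

theorem brf_c1 (i : J) : I.c i 1 = 0 := by
  have h := I.c_x i 0
  rwa [brf_x0] at h

/-- PROOF. `1 = u ex(H) k` (`dec 1`), so `H = Hp(u ex(H) k) = H + Hp 1` ... : `Hp 1 = Hp(u * (ex H * (1 * k))) = H + Hp 1` with `H = Hp 1` (`Hp_U`, `Hp_ex`, `Hp_K`). -/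
theorem brf_Hp1 : I.Hp 1 = 0 := by
  obtain ⟨u, hu, k, hk, h⟩ := I.dec 1
  have h0 : I.Hp k = I.Hp 1 := by
    have := I.Hp_K k hk 1
    rwa [one_mul] at this
  have h1 : I.Hp (u * I.ex (I.Hp 1) * k) = I.Hp 1 + I.Hp 1 := by
    rw [mul_assoc, I.Hp_U u hu, I.Hp_ex, h0]
  rw [← h] at h1
  exact left_eq_add.1 h1

/-- PROOF. `Hp_M`, `Hp_ex`, `brf_Hp1`. -/
theorem brf_HpT {m : G} (hm : m ∈ I.M) (y : J → ℝ) : I.Hp (m * I.ex y) = y := by
  rw [I.Hp_M m hm]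
  have := I.Hp_ex y 1
  rwa [mul_one, brf_Hp1, add_zero] at this

/-- PROOF. `u = (u x_i(-c)) x_i(c)`, `c = c_i(u)` (`c_mul`, `c_x`). -/
theorem brf_dec (i : J) {u : G} (hu : u ∈ I.U) : u * (I.x i (I.c i u))⁻¹ ∈ I.Uc i := by
  refine ⟨I.U.mul_mem hu (I.U.inv_mem (I.x_U i _)), ?_⟩
  have h1 : (I.x i (I.c i u))⁻¹ = I.x i (-(I.c i u)) := (brf_xneg I i _).symm
  rw [h1, I.c_mul i u hu _ (I.x_U i _), I.c_x, add_neg_cancel]

/-- PROOF. `c_mul`: `c_i(x v x⁻¹) = c_i(x) + c_i(v) - c_i(x)`. -/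
theorem brf_xc (i : J) (t : F) {v : G} (hv : v ∈ I.Uc i) : I.x i t * v * (I.x i t)⁻¹ ∈ I.Uc i := by
  rw [← brf_xneg]
  refine ⟨I.U.mul_mem (I.U.mul_mem (I.x_U i _) hv.1) (I.x_U i _), ?_⟩
  rw [I.c_mul i _ (I.U.mul_mem (I.x_U i _) hv.1) _ (I.x_U i _), I.c_mul i _ (I.x_U i _) _ hv.1,
    I.c_x, I.c_x, hv.2, add_zero, add_neg_cancel]

/-- PROOF. `n_U`. -/
theorem brf_nc (i : J) {v : G} (hv : v ∈ I.Uc i) : I.n i * v * (I.n i)⁻¹ ∈ I.Uc i := by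
  exact I.n_U i v hv.1 hv.2

theorem brf_mc (i : J) {m : G} (hm : m ∈ I.M) {v : G} (hv : v ∈ I.Uc i) : m * v * m⁻¹ ∈ I.Uc i := by
  refine ⟨I.M_U m hm v hv.1, ?_⟩
  have h := I.M_c m hm i v hv.1
  rw [hv.2, norm_zero] at h
  exact norm_eq_zero.1 h

/-- PROOF. `n_i⁻¹ v n_i = m⁻¹ (n_i v n_i⁻¹) m`, `m = n_i² ∈ M` (`n_sq`), `M` preserves `U^i` (`M_U`, `M_c`: the norm of `c_i` is preserved, so `c_i = 0` is). -/
theorem brf_nc' (i : J) {v : G} (hv : v ∈ I.Uc i) : (I.n i)⁻¹ * v * I.n i ∈ I.Uc i := by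
  have h1 := brf_mc I i (I.M.inv_mem (I.n_sq i)) (brf_nc I i hv)
  have e : (I.n i * I.n i)⁻¹ * (I.n i * v * (I.n i)⁻¹) * (I.n i * I.n i)⁻¹⁻¹ = (I.n i)⁻¹ * v * I.n i := by group
  rwa [e] at h1

/-- PROOF. `t = m ex y`: `M_U`, `M_c`, `ex_U`, `c_ex`. -/
theorem brf_tc (i : J) {t : G} (ht : t ∈ I.TT) {v : G} (hv : v ∈ I.Uc i) : t * v * t⁻¹ ∈ I.Uc i := by
  obtain ⟨m, hm, y, rfl⟩ := ht
  have e : m * I.ex y * v * (m * I.ex y)⁻¹ = m * (I.ex y * v * (I.ex y)⁻¹) * m⁻¹ := by group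
  rw [e]
  refine brf_mc I i hm ⟨I.ex_U y v hv.1, ?_⟩
  rw [I.c_ex i y v hv.1, hv.2, smul_zero]

/-- PROOF. `M_x`, `x_ex`. -/
theorem brf_tx (i : J) {t : G} (ht : t ∈ I.TT) {v : G} (hv : v ∈ I.Ui i) : t * v * t⁻¹ ∈ I.Ui i := by
  obtain ⟨m, hm, y, rfl⟩ := ht
  obtain ⟨s, rfl⟩ := hv
  have e : m * I.ex y * I.x i s * (m * I.ex y)⁻¹ = m * (I.ex y * I.x i s * (I.ex y)⁻¹) * m⁻¹ := by group
  rw [e, I.x_ex]
  exact I.M_x m hm i _

theorem brf_tU {t : G} (ht : t ∈ I.TT) {v : G} (hv : v ∈ I.U) : t * v * t⁻¹ ∈ I.U := by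
  obtain ⟨m, hm, y, rfl⟩ := ht
  have e : m * I.ex y * v * (m * I.ex y)⁻¹ = m * (I.ex y * v * (I.ex y)⁻¹) * m⁻¹ := by group
  rw [e]
  exact I.M_U m hm _ (I.ex_U y v hv)

theorem brf_tV {t : G} (ht : t ∈ I.TT) {v : G} (hv : v ∈ I.V) : t * v * t⁻¹ ∈ I.V := by
  obtain ⟨m, hm, y, rfl⟩ := ht
  have e : m * I.ex y * v * (m * I.ex y)⁻¹ = m * (I.ex y * v * (I.ex y)⁻¹) * m⁻¹ := by group
  rw [e]
  exact I.M_V m hm _ (I.ex_V y v hv)

/-- PROOF. `uav` with `u = 1 * ex 0 * v`. -/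
theorem brf_UV {g : G} (h : g ∈ I.U) (h' : g ∈ I.V) : g = 1 := by
  have h1 := I.uav g h 1 I.U.one_mem 0 0 1 I.V.one_mem g h' (by rw [brf_ex0]; group)
  exact h1.1

/-- PROOF. `n_i m ex(y) n_i⁻¹ = (n_i m n_i⁻¹) ex(s_i y)`. -/
theorem brf_cj (i : J) {m : G} (hm : m ∈ I.M) (y : J → ℝ) : ∃ m' ∈ I.M, I.n i * (m * I.ex y) * (I.n i)⁻¹ = m' * I.ex (sr I.A i y) := by
  refine ⟨I.n i * m * (I.n i)⁻¹, I.n_M i m hm, ?_⟩
  rw [← I.n_ex i y]
  group

/-- PROOF. Induction on the word. -/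
theorem brf_cjl (l : List J) {m : G} (hm : m ∈ I.M) (y : J → ℝ) : ∃ m' ∈ I.M, I.nl l * (m * I.ex y) * (I.nl l)⁻¹ = m' * I.ex (wl I.A l y) := by
  induction l generalizing m y with
  | nil =>
    refine ⟨m, hm, ?_⟩
    show 1 * (m * I.ex y) * (1 : G)⁻¹ = m * I.ex y
    group
  | cons i l ih =>
    obtain ⟨m1, hm1, h1⟩ := ih hm y
    obtain ⟨m2, hm2, h2⟩ := brf_cj I i hm1 (wl I.A l y)
    refine ⟨m2, hm2, ?_⟩
    have e : I.nl (i :: l) = I.n i * I.nl l := by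
      unfold IwD.nl
      rw [List.map_cons, List.prod_cons]
    have e2 : I.nl (i :: l) * (m * I.ex y) * (I.nl (i :: l))⁻¹ =
        I.n i * (I.nl l * (m * I.ex y) * (I.nl l)⁻¹) * (I.n i)⁻¹ := by
      rw [e]
      group
    rw [e2, h1, h2]
    rfl

theorem brf_exl (l : List J) (y : J → ℝ) : I.nl l * I.ex y * (I.nl l)⁻¹ = I.ex (wl I.A l y) := by
  induction l with
  | nil =>
    show 1 * I.ex y * (1 : G)⁻¹ = I.ex y
    group
  | cons i l ih =>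
    have e : I.nl (i :: l) = I.n i * I.nl l := by
      unfold IwD.nl
      rw [List.map_cons, List.prod_cons]
    have e2 : I.nl (i :: l) * I.ex y * (I.nl (i :: l))⁻¹ =
        I.n i * (I.nl l * I.ex y * (I.nl l)⁻¹) * (I.n i)⁻¹ := by
      rw [e]
      group
    rw [e2, ih, I.n_ex]
    rfl

theorem brf_nlK (l : List J) : I.nl l ∈ I.K := by
  unfold IwD.nl
  refine I.K.list_prod_mem fun x hx => ?_
  obtain ⟨i, -, rfl⟩ := List.mem_map.1 hx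
  exact I.n_K i

/-- PROOF. Closed conditions: `U` is closed, `c_i` is continuous on `U` (`c_cont`: `Continuous fun u : U => c i u`); `Uc i = Subtype.val '' (preimage of 0)`, closed embedding. -/
theorem brf_Uc_closed (i : J) : IsClosed (I.Uc i : Set G) := by
  have h1 : (I.Uc i : Set G) = Subtype.val '' {u : I.U | I.c i u = 0} := by
    ext u
    constructor
    · rintro ⟨hu, hu'⟩
      exact ⟨⟨u, hu⟩, hu', rfl⟩
    · rintro ⟨u, hu, rfl⟩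
      exact ⟨u.2, hu⟩
  rw [h1]
  exact I.U_closed.isClosedEmbedding_subtypeVal.isClosedMap _
    (isClosed_eq (I.c_cont i) continuous_const)

/-- PROOF. `Ui i = {u ∈ U : u = x_i(c_i(u))}`. -/
theorem brf_Ui_closed (i : J) : IsClosed (I.Ui i : Set G) := by
  have h1 : (I.Ui i : Set G) = Subtype.val '' {u : I.U | I.x i (I.c i u) = (u : G)} := by
    ext u
    constructor
    · rintro ⟨t, rfl⟩
      refine ⟨⟨I.x i t, I.x_U i t⟩, ?_, rfl⟩
      show I.x i (I.c i (I.x i t)) = I.x i t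
      rw [I.c_x]
    · rintro ⟨u, hu, rfl⟩
      exact ⟨I.c i u, hu.symm⟩
  rw [h1]
  exact I.U_closed.isClosedEmbedding_subtypeVal.isClosedMap _
    (isClosed_eq ((I.x_cont i).comp (I.c_cont i)) continuous_subtype_val)

theorem brf_Uw_closed (l : List J) : IsClosed (I.Uw l : Set G) := by
  have h1 : (I.Uw l : Set G) = (I.U : Set G) ∩ (fun u => I.nl l * u * (I.nl l)⁻¹) ⁻¹' (I.V : Set G) := rfl
  rw [h1]
  exact I.U_closed.inter (I.V_closed.preimage (by fun_prop))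

/-- PROOF. `c_cont`, `x_cont`. -/
theorem brf_pi_cont (i : J) : ContinuousOn (fun u => I.x i (I.c i u)) (I.U : Set G) := by
  rw [continuousOn_iff_continuous_domRestrict]
  exact (I.x_cont i).comp (I.c_cont i)

end

end Pool.Agent.Lib.L8
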