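import Pool.Agent.Lib.L8.IG10

/-! # L8, module I, chunk IG10B: `M` preserves the norms of the simple coordinates -/

namespace Pool.Agent.Lib.L8

open Matrix Pool.Agent.Lib.L1S

noncomputable section

set_option linter.unusedSectionVars false

variable {ι M N : Type} [Fintype ι] [DecidableEq ι] [AddCommGroup M] [Module ℚ M] [AddCommGroup N] [Module ℚ N]
  {P : RootPairing ι ℚ M N} [P.IsCrystallographic] [P.IsReduced] [P.IsIrreducible] [P.IsRootSystem] {b : P.Base} {F : Type} [RCLike F]

/-- the entries of a unipotent element in the weight `α_i` -/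
theorem ig10b_entry {u : GF b F} (hu : u ∈ gU b F) (i : b.support) (r c : I b) (h : wt b r = wt b c + P.root i) :
    u.1.1 r c = cf b (i : ι) u.1.1 * toA F (E b (i : ι)) r c := by
  classical
  have hh : b.height (i : ι) = 1 := b.height_one_of_mem_support i.2
  have h2 : ht b r = ht b c + 1 := by
    have h3 := ht_of_wt b r c 1 (i : ι) (by rw [Nat.cast_one, one_smul]; exact h)
    rw [h3, hh]
    norm_num
  have h5 : u.1.1 r c = hcp b 1 u.1.1 r c := by
    unfold hcp
    rw [Matrix.of_apply, if_pos h2]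
  rw [h5, lead b (GF_Nmz u.2) le_rfl hu, Matrix.sum_apply]
  rw [Finset.sum_eq_single (i : ι)]
  · rw [Matrix.smul_apply, smul_eq_mul]
  · intro β _ hβ
    rw [Matrix.smul_apply, smul_eq_mul]
    by_contra h6
    have h7 := (HasWt.toA (A := F) (hasWt_E b β)) r c (right_ne_zero_of_mul h6)
    rw [h] at h7
    exact hβ (P.root.injective (add_left_cancel h7)).symm
  · intro h6
    refine absurd ?_ h6
    rw [Finset.mem_filter]
    exact ⟨Finset.mem_univ _, hh⟩

/-- `|c_i(m u m⁻¹)| = |c_i(u)|`.
PROOF: `m` normalises the Lie algebra (`GF_Nmz`) and preserves the weight spaces, so `m E_i m⁻¹` has weight `α_i` and lies in `gR`: `m E_i m⁻¹ = χ E_i` (`gR_root`), `χ ≠ 0`. The component of degree one of `u` is `∑_j c_j(u) E_j` + other roots of height one = simple roots (`lead`, `k = 1`; `cf b i` of it is `gc`: `E_simple_entry`),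
so `c_i(m u m⁻¹) = χ c_i(u)`. For `m ∈ K`: apply the adjoint to `m E_i m⁻¹ = χ E_i`: `m F_i m⁻¹ = (star χ) F_i` (`stM m = m⁻¹`), and `[E_i, F_i] = H_i`, `m H_i m⁻¹ = χ (star χ) H_i`; the trace of `H_i²` is not zero, so `(χ star χ)² = 1`, `|χ| = 1`. -/
theorem gM_c {m : GF b F} (hm : m ∈ gM b F) (i : b.support) {u : GF b F} (hu : u ∈ gU b F) : ‖(m * u * m⁻¹).1.1 (Sum.inl i) (Sum.inr (ng P i))‖ = ‖u.1.1 (Sum.inl i) (Sum.inr (ng P i))‖ := by
  classical
  have hm' : m⁻¹ ∈ gM b F := inv_mem hm
  obtain ⟨g, hg⟩ : ∃ g, g = m.1.1 := ⟨_, rfl⟩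
  obtain ⟨g', hg'⟩ : ∃ g', g' = (m⁻¹).1.1 := ⟨_, rfl⟩
  obtain ⟨U, hU⟩ : ∃ U, U = u.1.1 := ⟨_, rfl⟩
  have e1 : g * g' = 1 := by
    rw [hg, hg']
    exact m.1.mul_inv
  have e2 : g' * g = 1 := by
    rw [hg, hg']
    exact m.1.inv_mul
  have hw : HasWt b (0 : M) g := by
    intro r c h
    rw [add_zero]
    rw [hg] at h
    exact gex_comm_wt hm.2 r c h
  have hw' : HasWt b (0 : M) g' := by
    intro r c h
    rw [add_zero]
    rw [hg'] at h
    exact gex_comm_wt hm'.2 r c h
  have hN : Nmz b g g' := by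
    rw [hg, hg']
    exact GF_Nmz m.2
  obtain ⟨X, hX⟩ : ∃ X, X = toA F (eZ b i) := ⟨_, rfl⟩
  obtain ⟨Y, hY⟩ : ∃ Y, Y = toA F (fZ b i) := ⟨_, rfl⟩
  obtain ⟨H, hH⟩ : ∃ H, H = toA F (hZ b i) := ⟨_, rfl⟩
  have hXE : X = toA F (E b (i : ι)) := by rw [hX, E_simple]
  have hXg : X ∈ gR b F := by
    rw [hXE]
    exact Submodule.subset_span (Or.inr ⟨(i : ι), rfl⟩)
  have hXw : HasWt b (P.root i) X := by
    rw [hX]
    exact HasWt.toA (hasWt_eZ i)
  have hZw : HasWt b (P.root i) (g * X * g') := by
    have h1 := (hw.mul hXw).mul hw'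
    rwa [zero_add, add_zero] at h1
  obtain ⟨χ, hχ⟩ : ∃ χ, χ = cf b (i : ι) (g * X * g') := ⟨_, rfl⟩
  have k1 : g * X * g' = χ • X := by
    have h1 := gR_root b (hN.2.2 X hXg).1 (i : ι) hZw
    rw [← hχ, ← hXE] at h1
    exact h1
  have k2 : g * Y * g' = star χ • Y := by
    have h1 := congrArg (stM b) k1
    rw [stM_mul, stM_mul, stM_smul] at h1
    have h2 : stM b g = g' := by
      rw [hg, hg']
      exact congrArg (fun x : GF b F => x.1.1) hm.1
    have h3 : stM b g' = g := by
      rw [← h2, stM_stM]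
    have h4 : stM b X = Y := by
      rw [hX, hY, stM_e]
    rw [h2, h3, h4, ← mul_assoc] at h1
    exact h1
  have k3 : X * Y - Y * X = H := by
    rw [hX, hY, hH]
    exact l109_ef i
  have k4 : g * H * g' = (χ * star χ) • H := by
    have h1 : g * (X * Y) * g' = (χ * star χ) • (X * Y) := by
      calc g * (X * Y) * g' = (g * X * g') * (g * Y * g') := by
            have h2 : (g * X * g') * (g * Y * g') = g * X * (g' * g) * Y * g' := by
              simp only [mul_assoc]
            rw [h2, e2, mul_one]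
            simp only [mul_assoc]
        _ = (χ * star χ) • (X * Y) := by
            rw [k1, k2, smul_mul_smul_comm]
    have h2 : g * (Y * X) * g' = (χ * star χ) • (Y * X) := by
      calc g * (Y * X) * g' = (g * Y * g') * (g * X * g') := by
            have h2 : (g * Y * g') * (g * X * g') = g * Y * (g' * g) * X * g' := by
              simp only [mul_assoc]
            rw [h2, e2, mul_one]
            simp only [mul_assoc]
        _ = (χ * star χ) • (Y * X) := by
            rw [k1, k2, smul_mul_smul_comm, mul_comm (star χ) χ]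
    rw [← k3, mul_sub, sub_mul, h1, h2, smul_sub]
  have hHd : H = Matrix.diagonal fun r => ((pj b i r : ℤ) : F) := by
    rw [hH]
    unfold toA hZ
    rw [Matrix.diagonal_map Int.cast_zero]
    rfl
  have k5 : g * H * g' = H := by
    have h1 : g * H = H * g := by
      rw [hHd]
      ext r c
      rw [Matrix.mul_diagonal, Matrix.diagonal_mul]
      by_cases h2 : g r c = 0
      · rw [h2, zero_mul, mul_zero]
      · have h3 : pj b i r = pj b i c := by
          have h4 := hw r c h2
          rw [add_zero] at h4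
          have h5 := de_pj b i r
          have h6 := de_pj b i c
          rw [h4, ← h6] at h5
          exact_mod_cast h5
        rw [h3, mul_comm]
    rw [h1, mul_assoc, e1, mul_one]
  have k6 : χ * star χ = 1 := by
    have h1 := congrFun (congrFun (k5.symm.trans k4) (Sum.inr (i : ι))) (Sum.inr (i : ι))
    rw [Matrix.smul_apply, hHd, Matrix.diagonal_apply_eq, smul_eq_mul] at h1
    have h2 : ((pj b i (Sum.inr (i : ι)) : ℤ) : F) = 2 := by
      have h3 : pj b i (Sum.inr (i : ι)) = 2 := P.pairingIn_same ℤ (i : ι)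
      rw [h3]
      norm_num
    rw [h2] at h1
    have h4 : (2 : F) ≠ 0 := two_ne_zero
    exact mul_right_cancel₀ h4 (by rw [one_mul]; exact h1.symm)
  have k7 : ‖χ‖ = 1 := by
    have h1 := congrArg norm k6
    rw [norm_mul, norm_star, norm_one] at h1
    nlinarith [norm_nonneg χ]
  have k8 : (g * U * g') (Sum.inl i) (Sum.inr (ng P i)) = χ * U (Sum.inl i) (Sum.inr (ng P i)) := by
    have hng : P.root (ng P (i : ι)) = -P.root i := by
      exact l117_root_ng _
    have hE : X (Sum.inl i) (Sum.inr (ng P i)) = 1 := by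
      rw [hXE]
      have h1 := E_simple_entry (b := b) i i
      rw [if_pos rfl] at h1
      change ((E b (i : ι) (Sum.inl i) (Sum.inr (ng P i)) : ℤ) : F) = 1
      rw [h1, Int.cast_one]
    have h1 : (g * U * g') (Sum.inl i) (Sum.inr (ng P i)) =
        cf b (i : ι) U * (g * X * g') (Sum.inl i) (Sum.inr (ng P i)) := by
      rw [Matrix.mul_apply, Matrix.mul_apply, Finset.mul_sum]
      refine Finset.sum_congr rfl fun c _ => ?_
      rw [Matrix.mul_apply, Matrix.mul_apply, Finset.sum_mul, Finset.sum_mul, Finset.mul_sum]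
      refine Finset.sum_congr rfl fun r _ => ?_
      by_cases h2 : g (Sum.inl i) r = 0
      · rw [h2]
        ring
      by_cases h3 : g' c (Sum.inr (ng P i)) = 0
      · rw [h3]
        ring
      have h4 := hw _ _ h2
      have h5 := hw' _ _ h3
      rw [add_zero] at h4 h5
      have h6 : wt b r = wt b c + P.root i := by
        rw [← h4, h5]
        change (0 : M) = P.root (ng P (i : ι)) + P.root i
        rw [hng, neg_add_cancel]
      have h7 := ig10b_entry hu i r c h6
      rw [← hU, ← hXE] at h7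
      rw [h7]
      ring
    have h8 : U (Sum.inl i) (Sum.inr (ng P i)) = cf b (i : ι) U := by
      have h6 : wt b (Sum.inl i) = wt b (Sum.inr (ng P i)) + P.root i := by
        change (0 : M) = P.root (ng P (i : ι)) + P.root i
        rw [hng, neg_add_cancel]
      have h7 := ig10b_entry hu i _ _ h6
      rw [← hU, ← hXE, hE, mul_one] at h7
      exact h7
    rw [h1, k1, Matrix.smul_apply, hE, smul_eq_mul, mul_one, h8, mul_comm]
  have k9 : (m * u * m⁻¹).1.1 = g * U * g' := by
    rw [hg, hU, hg']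
    rfl
  rw [k9, k8, norm_mul, k7, one_mul, hU]

end

end Pool.Agent.Lib.L8
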