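import Pool.Agent.Lib.L8.IG9
import Pool.Agent.Lib.L8.IG10B

/-! # L8, module I, chunk IG11: coordinates, conjugation by `n_i` -/

namespace Pool.Agent.Lib.L8

open Matrix Pool.Agent.Lib.L1S

noncomputable section

set_option linter.unusedSectionVars false

variable {ι M N : Type} [Fintype ι] [DecidableEq ι] [AddCommGroup M] [Module ℚ M] [AddCommGroup N] [Module ℚ N]
  {P : RootPairing ι ℚ M N} [P.IsCrystallographic] [P.IsReduced] [P.IsIrreducible] [P.IsRootSystem] {b : P.Base} {F : Type} [RCLike F]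

/-- The Cartan integers `⟨α_i, α_k^∨⟩`. -/
def cA (b : P.Base) (i k : b.support) : ℤ := b.cartanMatrix i k

/-- PROOF: `xx_UTk` (L1S/L21), `UTk_mono`. -/
theorem gx_U {β : ι} (hβ : 0 < b.height β) (t : F) : gx b F β t ∈ gU b F := by
  exact UTk_mono (by omega) (xx_UTk b β hβ t)

/-- PROOF: `gst` reverses the weights (`stM_wt`, `dvp_wt`): the entries of `gst (x_β(t)) - 1` are at `(r, c)` with `wt c = wt r + k β`, `k ≥ 1`, so `ht r ≥ ht c + 1`. -/
theorem gx_V {β : ι} (hβ : b.height β < 0) (t : F) : gx b F β t ∈ gV b F := by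
  rw [mem_gV, mem_gU]
  intro r c hrc
  by_contra hne
  have e1 : (gst b F (gx b F β t)).1.1 = stM b (xx b β t) := rfl
  rw [e1] at hne
  have e2 : stM b (xx b β t) = stM b (xx b β t - 1) + 1 := by
    have e3 := stM_add (b := b) (xx b β t - 1) (1 : Matrix (I b) (I b) F)
    rw [sub_add_cancel, stM_one] at e3
    exact e3
  have h1 : stM b (xx b β t - 1) r c ≠ 0 := by
    intro h0
    apply hne
    rw [e2, Matrix.add_apply, h0, zero_add]
  obtain ⟨r', c', hr, hc, h2⟩ := stM_wt h1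
  have h3 : ∃ k : ℕ, k ≠ 0 ∧ dvp (E b β) k c' r' ≠ 0 := by
    by_contra hno
    push Not at hno
    apply h2
    rw [Matrix.sub_apply, sub_eq_zero]
    simp only [xx, ex, Matrix.sum_apply, Matrix.smul_apply, Matrix.map_apply, smul_eq_mul]
    rw [Finset.sum_eq_single 0]
    · rw [dvp_zero, pow_zero, one_mul]
      by_cases h : c' = r'
      · rw [h, Matrix.one_apply_eq, Matrix.one_apply_eq, Int.cast_one]
      · rw [Matrix.one_apply_ne h, Matrix.one_apply_ne h, Int.cast_zero]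
    · intro k _ hk
      rw [hno k hk, Int.cast_zero, mul_zero]
    · intro h
      exact absurd (Finset.mem_range.2 (by norm_num)) h
  obtain ⟨k, hk, h4⟩ := h3
  have h5 := ht_of_wt b c' r' k β (dvp_wt b β k c' r' h4)
  obtain ⟨l, hl⟩ := exists_lht b
  have h6 : ht b r' = ht b r := by
    have := congrArg l hr
    rw [hl, hl] at this
    exact_mod_cast this
  have h7 : ht b c' = ht b c := by
    have := congrArg l hc
    rw [hl, hl] at this
    exact_mod_cast this
  have h8 : (1 : ℤ) ≤ k := by exact_mod_cast Nat.one_le_iff_ne_zero.2 hk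
  nlinarith

/-- PROOF: `c_add` (L1S/L28). -/
theorem gc_mul (i : b.support) {u u' : GF b F} (hu : u ∈ gU b F) (hu' : u' ∈ gU b F) : gc b F i (u * u') = gc b F i u + gc b F i u' := by
  exact c_add b _ _ hu hu' i

/-- PROOF: `c_xx` (L1S/L28). -/
theorem gc_gx (i : b.support) (t : F) : gc b F i (gx b F (i : ι) t) = t := by
  have hi : 0 < b.height (i : ι) := by
    rw [b.height_one_of_mem_support i.2]
    exact one_pos
  have h1 := c_xx b (i : ι) hi t i
  rw [if_pos rfl] at h1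
  exact h1

/-- PROOF: `exM_xx`, `pry_simple`. -/
theorem gx_gex (y : b.support → ℝ) (i : b.support) (t : F) : gex b F y * gx b F (i : ι) t * (gex b F y)⁻¹ = gx b F (i : ι) ((Real.exp (al (cA b) i y) : ℝ) • t) := by
  refine Subtype.ext (Units.ext ?_)
  have h1 := exM_xx (b := b) (F := F) y (i : ι) t
  have h2 : pry b y (Sum.inr (i : ι)) = al (cA b) i y := pry_simple y i
  rw [h2] at h1
  have h3 : ((Real.exp (al (cA b) i y) : ℝ) • t : F) = ((Real.exp (al (cA b) i y) : ℝ) : F) * t := RCLike.real_smul_eq_coe_mul _ _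
  rw [h3]
  exact h1

/-- PROOF: `exM_conj`: `wt (inl i) = 0`, `wt (inr (-i)) = -α_i`. -/
theorem gc_gex (i : b.support) (y : b.support → ℝ) (u : GF b F) : gc b F i (gex b F y * u * (gex b F y)⁻¹) = (Real.exp (al (cA b) i y) : ℝ) • gc b F i u := by
  have h1 := exM_conj (b := b) (F := F) y u.1.1 (Sum.inl i) (Sum.inr (ng P i))
  have h2 : wt b (Sum.inl i : I b) = wt b (Sum.inr (ng P i)) + ((1 : ℕ) : ℚ) • P.root i := by
    change (0 : M) = P.root (ng P i) + ((1 : ℕ) : ℚ) • P.root i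
    rw [b2_root_neg, Nat.cast_one, one_smul, neg_add_cancel]
  have h3 := pry_root y h2
  rw [Nat.cast_one, one_mul] at h3
  have h4 : pry b y (Sum.inr (i : ι)) = al (cA b) i y := pry_simple y i
  have h5 : pry b y (Sum.inl i) - pry b y (Sum.inr (ng P i)) = al (cA b) i y := by
    rw [h3, ← h4]
    ring
  rw [h5] at h1
  rw [RCLike.real_smul_eq_coe_mul]
  exact h1

/-- PROOF: `mG_val`, `mm_eZ` (L1S/L110) with `s = 1`: `m e = (-1) f m`; `DP.conj` (L1S/L103), `E_simple`, `E_neg_simple`. -/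
theorem gn_gx (i : b.support) (t : F) : gn b F i * gx b F (i : ι) t * (gn b F i)⁻¹ = gx b F (ng P i) (-t) := by
  rw [mul_inv_eq_iff_eq_mul]
  refine Subtype.ext (Units.ext ?_)
  have h1 := mm_eZ (b := b) (A := F) i 1
  rw [inv_one, Units.val_one, one_pow] at h1
  have h2 := (DP_eZ (b := b) i).conj (DP_fZ (b := b) i) (mm b i (1 : Fˣ)) (-1) t h1
  rw [neg_one_mul, ← mG_val, ← E_simple, ← E_neg_simple] at h2
  exact h2

/-- PROOF: the same with `mm_fZ`. -/
theorem gn_gy (i : b.support) (t : F) : gn b F i * gx b F (ng P i) t * (gn b F i)⁻¹ = gx b F (i : ι) (-t) := by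
  rw [mul_inv_eq_iff_eq_mul]
  refine Subtype.ext (Units.ext ?_)
  have h1 := mm_fZ (b := b) (A := F) i 1
  rw [Units.val_one, one_pow] at h1
  have h2 := (DP_fZ (b := b) i).conj (DP_eZ (b := b) i) (mm b i (1 : Fˣ)) (-1) t h1
  rw [neg_one_mul, ← mG_val, ← E_simple, ← E_neg_simple] at h2
  exact h2

/-- PROOF: `g_uav` with `g * ex 0 * 1 = 1 * ex 0 * g`. -/
theorem gUV {g : GF b F} (hu : g ∈ gU b F) (hv : g ∈ gV b F) : g = 1 := by
  have h1 : g * gex b F 0 * 1 = 1 * gex b F 0 * g := by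
    rw [gex_zero, mul_one, mul_one, mul_one, one_mul]
  exact (g_uav hu (one_mem _) (one_mem _) hv h1).1

/-- PROOF: `m_exM`. -/
theorem gn_gex (i : b.support) (y : b.support → ℝ) : gn b F i * gex b F y * (gn b F i)⁻¹ = gex b F (sr (cA b) i y) := by
  rw [mul_inv_eq_iff_eq_mul]
  exact Subtype.ext (Units.ext (m_exM i y))

/-- PROOF: `al A i (sr A i y) = -al A i y` because `A i i = 2`. -/
theorem sr_sr (i : b.support) (y : b.support → ℝ) : sr (cA b) i (sr (cA b) i y) = y := by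
  have h2 : cA b i i = 2 := b.cartanMatrix_apply_same i
  have h1 : al (cA b) i (sr (cA b) i y) = -al (cA b) i y := by
    have e1 : al (cA b) i (sr (cA b) i y) = ∑ k, ((cA b i k : ℝ) * y k - al (cA b) i y * ((cA b i k : ℝ) * (Pi.single i (1 : ℝ) : b.support → ℝ) k)) := by
      unfold al sr
      refine Finset.sum_congr rfl fun k _ => ?_
      simp only [Pi.sub_apply, Pi.smul_apply, smul_eq_mul]
      unfold al
      ring
    rw [e1, Finset.sum_sub_distrib, ← Finset.mul_sum, Finset.sum_eq_single_of_mem i (Finset.mem_univ i) (f := fun k => (cA b i k : ℝ) * (Pi.single i (1 : ℝ) : b.support → ℝ) k)]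
    · rw [Pi.single_eq_same, h2]
      unfold al
      push_cast
      ring
    · intro k _ hk
      rw [Pi.single_eq_of_ne hk, mul_zero]
  rw [sr, h1, sr, neg_smul, sub_neg_eq_add, sub_add_cancel]

/-- PROOF: `gn_gex` twice, `sr_sr`, `gn_mem`. -/
theorem gn_sq (i : b.support) : gn b F i * gn b F i ∈ gM b F := by
  refine ⟨mul_mem (gn_mem b F i) (gn_mem b F i), fun y => ?_⟩
  have h1 : ∀ z, gn b F i * gex b F z = gex b F (sr (cA b) i z) * gn b F i := fun z => mul_inv_eq_iff_eq_mul.1 (gn_gex i z)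
  rw [mul_assoc, h1, ← mul_assoc, h1, sr_sr, mul_assoc]

/-- PROOF: `n m n⁻¹ ex(y) = n m ex(s_i y) n⁻¹`. -/
theorem gn_M (i : b.support) {m : GF b F} (hm : m ∈ gM b F) : gn b F i * m * (gn b F i)⁻¹ ∈ gM b F := by
  refine ⟨mul_mem (mul_mem (gn_mem b F i) hm.1) (inv_mem (gn_mem b F i)), fun y => ?_⟩
  have h1 : ∀ z, gn b F i * gex b F z = gex b F (sr (cA b) i z) * gn b F i := fun z => mul_inv_eq_iff_eq_mul.1 (gn_gex i z)
  have h2 : (gn b F i)⁻¹ * gex b F y = gex b F (sr (cA b) i y) * (gn b F i)⁻¹ := by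
    rw [inv_mul_eq_iff_eq_mul, ← mul_assoc, h1, sr_sr, mul_inv_cancel_right]
  calc gn b F i * m * (gn b F i)⁻¹ * gex b F y = gn b F i * (m * gex b F (sr (cA b) i y)) * (gn b F i)⁻¹ := by
        rw [mul_assoc, h2]
        simp only [mul_assoc]
    _ = (gn b F i * gex b F (sr (cA b) i y)) * m * (gn b F i)⁻¹ := by
        rw [hm.2]
        simp only [mul_assoc]
    _ = gex b F y * (gn b F i * m * (gn b F i)⁻¹) := by
        rw [h1, sr_sr]
        simp only [mul_assoc]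

theorem gn_M' (i : b.support) {m : GF b F} (hm : m ∈ gM b F) : (gn b F i)⁻¹ * m * gn b F i ∈ gM b F := by
  refine ⟨mul_mem (mul_mem (inv_mem (gn_mem b F i)) hm.1) (gn_mem b F i), fun y => ?_⟩
  have h1 : ∀ z, gn b F i * gex b F z = gex b F (sr (cA b) i z) * gn b F i := fun z => mul_inv_eq_iff_eq_mul.1 (gn_gex i z)
  have h2 : (gn b F i)⁻¹ * gex b F (sr (cA b) i y) = gex b F y * (gn b F i)⁻¹ := by
    rw [inv_mul_eq_iff_eq_mul, ← mul_assoc, h1, mul_inv_cancel_right]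
  calc (gn b F i)⁻¹ * m * gn b F i * gex b F y = (gn b F i)⁻¹ * (m * gex b F (sr (cA b) i y)) * gn b F i := by
        rw [mul_assoc, h1]
        simp only [mul_assoc]
    _ = ((gn b F i)⁻¹ * gex b F (sr (cA b) i y)) * m * gn b F i := by
        rw [hm.2]
        simp only [mul_assoc]
    _ = gex b F y * ((gn b F i)⁻¹ * m * gn b F i) := by
        rw [h2]
        simp only [mul_assoc]

/-- `n_i` normalises `{u ∈ U : c_i(u) = 0}`.
PROOF: the first part is `m_conj` (L1S/L29) with `GF_Nmz`. Second: `w = n u n⁻¹ ∈ U`, `t = c_i(w)`, `w = x_i(t) w'` with `w' = x_i(-t) w ∈ U`, `c_i(w') = 0`. `n⁻¹ w' n = n (n⁻² w' n²) n⁻¹` and `n⁻² w' n² ∈ U` has `|c_i| = |c_i(w')| = 0` (`gM_U`, `gM_c`), so `n⁻¹ w' n ∈ U` by the first part.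
So `n⁻¹ x_i(t) n = u (n⁻¹ w' n)⁻¹ ∈ U`, but it is `x_(-i)(-t)` (`gn_gy`), in `V` (`gx_V`); by `gUV` it is `1`, so `x_i(t) = 1`, `t = c_i(1) = 0`. -/
theorem gn_U (i : b.support) {u : GF b F} (hu : u ∈ gU b F) (h0 : gc b F i u = 0) :
    gn b F i * u * (gn b F i)⁻¹ ∈ gU b F ∧ gc b F i (gn b F i * u * (gn b F i)⁻¹) = 0 := by
  have h1 : ∀ {u : GF b F}, u ∈ gU b F → gc b F i u = 0 → gn b F i * u * (gn b F i)⁻¹ ∈ gU b F := by
    intro u hu h0
    exact m_conj b i (1 : Fˣ) (GF_Nmz u.2) hu h0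
  have hi : 0 < b.height (i : ι) := by
    rw [b.height_one_of_mem_support i.2]
    exact one_pos
  have hw := h1 hu h0
  refine ⟨hw, ?_⟩
  obtain ⟨w, hwd⟩ : ∃ w, w = gn b F i * u * (gn b F i)⁻¹ := ⟨_, rfl⟩
  rw [← hwd] at hw ⊢
  obtain ⟨t, ht⟩ : ∃ t, t = gc b F i w := ⟨_, rfl⟩
  obtain ⟨w', hw'd⟩ : ∃ w', w' = gx b F (i : ι) (-t) * w := ⟨_, rfl⟩
  have hx : ∀ t : F, gx b F (i : ι) t ∈ gU b F := fun t => gx_U hi t
  have hw' : w' ∈ gU b F := by
    rw [hw'd]
    exact mul_mem (hx _) hw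
  have hc' : gc b F i w' = 0 := by
    rw [hw'd, gc_mul i (hx _) hw, gc_gx, ← ht, neg_add_cancel]
  have hM : (gn b F i * gn b F i)⁻¹ ∈ gM b F := inv_mem (gn_sq i)
  have h2 := gM_U hM hw'
  have h3 := gM_c hM i hw'
  have h4 : gc b F i ((gn b F i * gn b F i)⁻¹ * w' * ((gn b F i * gn b F i)⁻¹)⁻¹) = 0 := by
    rw [← norm_eq_zero]
    refine Eq.trans h3 ?_
    rw [norm_eq_zero]
    exact hc'
  have h5 := h1 h2 h4
  have e1 : gn b F i * ((gn b F i * gn b F i)⁻¹ * w' * ((gn b F i * gn b F i)⁻¹)⁻¹) * (gn b F i)⁻¹ = (gn b F i)⁻¹ * w' * gn b F i := by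
    group
  rw [e1] at h5
  have h6 : (gn b F i)⁻¹ * gx b F (i : ι) t * gn b F i = gx b F (ng P i) (-t) := by
    have h7 := gn_gy (b := b) (F := F) i (-t)
    rw [neg_neg] at h7
    rw [← h7]
    group
  have h8 : u = (gx b F (ng P i) (-t)) * ((gn b F i)⁻¹ * w' * gn b F i) := by
    rw [← h6, hw'd, hwd, gx_neg]
    group
  have h9 : gx b F (ng P i) (-t) ∈ gU b F := by
    have h10 : gx b F (ng P i) (-t) = u * ((gn b F i)⁻¹ * w' * gn b F i)⁻¹ := eq_mul_inv_of_mul_eq h8.symm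
    rw [h10]
    exact mul_mem hu (inv_mem h5)
  have hneg : b.height (ng P i) < 0 := by
    have h2 : b.height (ng P i) = - b.height i := b.height_reflectionPerm_self i
    rw [h2, b.height_one_of_mem_support i.2]
    norm_num
  have h11 := gUV h9 (gx_V hneg (-t))
  have h12 : gx b F (i : ι) t = 1 := by
    have h13 : gx b F (i : ι) t = gn b F i * ((gn b F i)⁻¹ * gx b F (i : ι) t * gn b F i) * (gn b F i)⁻¹ := by group
    rw [h13, h6, h11, mul_one, mul_inv_cancel]
  rw [← ht, ← gc_gx i t, h12]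
  have h14 : (1 : Matrix (I b) (I b) F) (Sum.inl i) (Sum.inr (ng P i)) = 0 := Matrix.one_apply_ne (by simp)
  exact h14

end

end Pool.Agent.Lib.L8
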