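import Pool.Agent.Lib.L8.BR0
import Pool.Agent.Lib.L8.IG11

/-!
# L8, version 2, bridge, BRG: linear algebra of words
-/

namespace Pool.Agent.Lib.L8

open MeasureTheory Filter
open scoped ENNReal Topology

noncomputable section

set_option linter.unusedSectionVars false
set_option linter.unusedVariables false

variable {J F G : Type} [Fintype J] [DecidableEq J] [RCLike F] [Group G] [TopologicalSpace G] [IsTopologicalGroup G] [SecondCountableTopology G] [LocallyCompactSpace G] [T2Space G] [MeasurableSpace G] [BorelSpace G] (I : Iw J F G)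

theorem brg_wl_append (A : J → J → ℤ) (l l' : List J) (v : J → ℝ) : wl A (l ++ l') v = wl A l (wl A l' v) := by
  induction l with
  | nil => rfl
  | cons i l ih =>
    rw [List.cons_append, wl, wl, ih]

theorem brg_al_add (A : J → J → ℤ) (i : J) (v v' : J → ℝ) : al A i (v + v') = al A i v + al A i v' := by
  unfold al
  rw [← Finset.sum_add_distrib]
  exact Finset.sum_congr rfl fun k _ => by rw [Pi.add_apply]; ring

theorem brg_al_smul (A : J → J → ℤ) (i : J) (c : ℝ) (v : J → ℝ) : al A i (c • v) = c * al A i v := by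
  unfold al
  rw [Finset.mul_sum]
  exact Finset.sum_congr rfl fun k _ => by rw [Pi.smul_apply, smul_eq_mul]; ring

theorem brg_al_single (A : J → J → ℤ) (i k : J) : al A i (Pi.single k 1) = A i k := by
  unfold al
  rw [Finset.sum_eq_single k]
  · rw [Pi.single_eq_same, mul_one]
  · intro j _ hj
    rw [Pi.single_eq_of_ne hj, mul_zero]
  · intro h
    exact absurd (Finset.mem_univ k) h

theorem brg_wl_add (A : J → J → ℤ) (l : List J) (v v' : J → ℝ) : wl A l (v + v') = wl A l v + wl A l v' := by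
  induction l with
  | nil => rfl
  | cons i l ih =>
    rw [wl, wl, wl, ih, sr, sr, sr, brg_al_add, add_smul]
    abel

theorem brg_wl_smul (A : J → J → ℤ) (l : List J) (c : ℝ) (v : J → ℝ) : wl A l (c • v) = c • wl A l v := by
  induction l with
  | nil => rfl
  | cons i l ih =>
    rw [wl, wl, ih, sr, sr, brg_al_smul, smul_sub, smul_smul]

theorem brg_sr_sr (i : J) (v : J → ℝ) : sr I.A i (sr I.A i v) = v := by
  have h : al I.A i (sr I.A i v) = -al I.A i v := by
    have h1 : sr I.A i v = v + (-al I.A i v) • Pi.single i 1 := by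
      rw [sr, neg_smul, sub_eq_add_neg]
    rw [h1, brg_al_add, brg_al_smul, brg_al_single, I.A_diag]
    push_cast
    ring
  rw [sr, h, sr, neg_smul]
  abel

/-- PROOF. `s_i s_i = 1` (`A_diag`), reverse the word. -/
theorem brg_wl_surj (l : List J) (v : J → ℝ) : ∃ v', wl I.A l v' = v := by
  induction l generalizing v with
  | nil => exact ⟨v, rfl⟩
  | cons i l ih =>
    obtain ⟨v', hv'⟩ := ih (sr I.A i v)
    refine ⟨v', ?_⟩
    rw [wl, hv', brg_sr_sr]

/-- The nonnegativity: `wl l` maps `e_i` to a nonnegative vector for positive roots. PROOF. `pos_coroot`, `z > 0`. -/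
theorem brg_pos {l : List J} {i : J} (h : I.Pos l i) {z : J → ℝ} (hz : ∀ j, 0 < z j) : 0 < ∑ j, z j * wl I.A l (Pi.single i 1) j := by
  obtain ⟨h1, k, hk⟩ := I.pos_coroot l i h
  exact Finset.sum_pos' (fun j _ => mul_nonneg (hz j).le (h1 j)) ⟨k, Finset.mem_univ k, mul_pos (hz k) hk⟩

/-- PROOF. `al A i` is injective by `dom_nonneg` (if `al_i Z = 0` for all `i` then `Z ≥ 0` and `-Z ≥ 0`), so `v ↦ (al_i v)_i` is an injective linear endomorphism of `J → ℝ`, hence surjective (`LinearMap.injective_iff_surjective`). -/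
theorem brg_dom : ∃ v : J → ℝ, ∀ i, 0 < al I.A i v := by
  let L : (J → ℝ) →ₗ[ℝ] (J → ℝ) :=
    { toFun := fun v i => al I.A i v
      map_add' := fun v v' => funext fun i => brg_al_add I.A i v v'
      map_smul' := fun c v => funext fun i => brg_al_smul I.A i c v }
  have hinj : Function.Injective L := by
    rw [← LinearMap.ker_eq_bot, LinearMap.ker_eq_bot']
    intro v hv
    have h1 : ∀ i, al I.A i v = 0 := fun i => congrFun hv i
    have h2 := I.dom_nonneg v fun i => (h1 i).ge
    have h3 := I.dom_nonneg ((-1 : ℝ) • v) fun i => by rw [brg_al_smul, h1 i, mul_zero]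
    funext j
    have h4 := h3 j
    rw [Pi.smul_apply, smul_eq_mul] at h4
    have h5 : v j ≤ 0 := by linarith
    exact le_antisymm h5 (h2 j)
  obtain ⟨v, hv⟩ := (LinearMap.injective_iff_surjective.1 hinj) fun _ => 1
  refine ⟨v, fun i => ?_⟩
  have h1 : al I.A i v = 1 := congrFun hv i
  rw [h1]
  exact one_pos

/-- The matrices of the words are integral. PROOF. Induction. -/
theorem brg_int (A : J → J → ℤ) (l : List J) (i j : J) : ∃ a : ℤ, wl A l (Pi.single i 1) j = a := by
  induction l generalizing j with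
  | nil =>
    rw [wl]
    by_cases h : j = i
    · exact ⟨1, by rw [h, Pi.single_eq_same, Int.cast_one]⟩
    · exact ⟨0, by rw [Pi.single_eq_of_ne h, Int.cast_zero]⟩
  | cons k l ih =>
    choose a ha using ih
    have h1 : al A k (wl A l (Pi.single i 1)) = ((∑ m, A k m * a m : ℤ) : ℝ) := by
      unfold al
      push_cast
      exact Finset.sum_congr rfl fun m _ => by rw [ha m]
    rw [wl, sr, h1, Pi.sub_apply, Pi.smul_apply, ha j, smul_eq_mul]
    by_cases h : j = k
    · refine ⟨a j - ∑ m, A k m * a m, ?_⟩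
      rw [h, Pi.single_eq_same, mul_one]
      push_cast
      ring
    · refine ⟨a j, ?_⟩
      rw [Pi.single_eq_of_ne h, mul_zero, sub_zero]

theorem brg_nl_ex (l : List J) (y : J → ℝ) : I.nl l * I.ex y = I.ex (wl I.A l y) * I.nl l := by
  induction l generalizing y with
  | nil =>
    show (List.map I.n []).prod * I.ex y = I.ex y * (List.map I.n []).prod
    simp
  | cons i l ih =>
    have h1 : I.nl (i :: l) = I.n i * I.nl l := by
      show (List.map I.n (i :: l)).prod = I.n i * (List.map I.n l).prod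
      rw [List.map_cons, List.prod_cons]
    have h2 := I.n_ex i (wl I.A l y)
    rw [h1, mul_assoc, ih, wl, ← h2]
    group

theorem brg_nl_K (l : List J) : I.nl l ∈ I.K := by
  induction l with
  | nil =>
    show (List.map I.n []).prod ∈ I.K
    simp
  | cons i l ih =>
    have h1 : I.nl (i :: l) = I.n i * I.nl l := by
      show (List.map I.n (i :: l)).prod = I.n i * (List.map I.n l).prod
      rw [List.map_cons, List.prod_cons]
    rw [h1]
    exact I.K.mul_mem (I.n_K i) ih

theorem brg_Hp_nl (l : List J) (y : J → ℝ) : I.Hp (I.nl l * I.ex y) = wl I.A l y + I.Hp 1 := by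
  rw [brg_nl_ex, I.Hp_ex]
  congr 1
  have h := I.Hp_K (I.nl l) (brg_nl_K I l) 1
  rwa [one_mul] at h

/-- They are bounded. PROOF. `wl l e_i = Hp(n_l ex(e_i) n_l⁻¹) = Hp(n_l ex(e_i))` (`n_ex` along the word, `Hp_ex`, `Hp 1 = 0`, `Hp_K`), `n_l ∈ K`, and `k ↦ Hp(k ex(e_i))` is continuous, bounded on the compact set `K`. -/
theorem brg_bdd : ∃ B : ℝ, ∀ (l : List J) (i j : J), |wl I.A l (Pi.single i 1) j| ≤ B := by
  have h1 : ∀ i j : J, ∃ B : ℝ, ∀ k ∈ (I.K : Set G), ‖(fun k => I.Hp (k * I.ex (Pi.single i 1)) j) k‖ ≤ B := by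
    intro i j
    refine I.K_compact.exists_bound_of_continuousOn ?_
    refine Continuous.continuousOn ?_
    exact (continuous_apply j).comp (I.Hp_cont.comp (continuous_mul_const _))
  choose B hB using h1
  refine ⟨∑ i, ∑ j, (|B i j| + |I.Hp 1 j|), fun l i j => ?_⟩
  have h2 : |wl I.A l (Pi.single i 1) j| ≤ |B i j| + |I.Hp 1 j| := by
    have h3 := congrFun (brg_Hp_nl I l (Pi.single i 1)) j
    rw [Pi.add_apply] at h3
    have h4 := hB i j (I.nl l) (brg_nl_K I l)
    have h5 : wl I.A l (Pi.single i 1) j = I.Hp (I.nl l * I.ex (Pi.single i 1)) j - I.Hp 1 j := by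
      rw [h3]
      ring
    rw [h5]
    refine (abs_sub _ _).trans (add_le_add ?_ le_rfl)
    exact (h4.trans (le_abs_self _))
  refine h2.trans ?_
  refine le_trans ?_ (Finset.single_le_sum (f := fun i => ∑ j, (|B i j| + |I.Hp 1 j|))
    (fun i _ => Finset.sum_nonneg fun j _ => by positivity) (Finset.mem_univ i))
  exact Finset.single_le_sum (f := fun j => |B i j| + |I.Hp 1 j|)
    (fun j _ => by positivity) (Finset.mem_univ j)

/-- The word as a linear map. -/
def brg_lin (A : J → J → ℤ) (l : List J) : (J → ℝ) →ₗ[ℝ] (J → ℝ) where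
  toFun := wl A l
  map_add' := brg_wl_add A l
  map_smul' := brg_wl_smul A l

theorem brg_expand (A : J → J → ℤ) (l : List J) (v : J → ℝ) :
    wl A l v = fun j => ∑ i, v i * wl A l (Pi.single i 1) j := by
  have h := LinearMap.pi_apply_eq_sum_univ (brg_lin A l) v
  funext j
  have h1 := congrFun h j
  rw [Finset.sum_apply] at h1
  change wl A l v j = _ at h1
  rw [h1]
  refine Finset.sum_congr rfl fun i _ => ?_
  rw [Pi.smul_apply, smul_eq_mul]
  have h2 : (fun k => if i = k then (1 : ℝ) else 0) = Pi.single i 1 := by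
    funext k
    by_cases hk : k = i
    · rw [hk, Pi.single_eq_same, if_pos rfl]
    · rw [Pi.single_eq_of_ne hk, if_neg (fun h => hk h.symm)]
  rw [h2]
  rfl

/-- **The orbits are finite.** PROOF. `wl l v = ∑_i v_i wl l e_i` (linear), and the vectors `(wl l e_i j)_(i, j)` are integral (`brg_int`) and bounded (`brg_bdd`): they lie in a finite set (`Set.Finite.pi`, integers in `[-B, B]`). -/
theorem brg_fin (v : J → ℝ) : {v' : J → ℝ | ∃ l, v' = wl I.A l v}.Finite := by
  obtain ⟨B, hB⟩ := brg_bdd I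
  let T : Set ℝ := (fun n : ℤ => (n : ℝ)) '' Set.Icc (-⌈B⌉) ⌈B⌉
  have hT : T.Finite := (Set.finite_Icc _ _).image _
  have hS : (Set.pi Set.univ fun _ : J => Set.pi Set.univ fun _ : J => T).Finite :=
    Set.Finite.pi fun _ => Set.Finite.pi fun _ => hT
  refine (hS.image fun f : J → J → ℝ => fun j => ∑ i, v i * f i j).subset ?_
  rintro v' ⟨l, rfl⟩
  refine ⟨fun i j => wl I.A l (Pi.single i 1) j, ?_, (brg_expand I.A l v).symm⟩
  intro i _ j _
  obtain ⟨a, ha⟩ := brg_int I.A l i j
  refine ⟨a, ?_, ha.symm⟩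
  have h1 := hB l i j
  rw [ha, abs_le] at h1
  constructor
  · have h2 : (-(⌈B⌉ : ℤ) : ℝ) ≤ a := by
      have h3 := Int.le_ceil B
      linarith [h1.1]
    exact_mod_cast h2
  · have h2 : (a : ℝ) ≤ (⌈B⌉ : ℤ) := h1.2.trans (Int.le_ceil B)
    exact_mod_cast h2

theorem brg_Hp_one : I.Hp 1 = 0 := by
  obtain ⟨u, hu, k, hk, h⟩ := I.dec 1
  have h1 : I.Hp 1 = I.Hp 1 + I.Hp 1 := by
    have h2 : I.Hp (u * (I.ex (I.Hp 1) * (1 * k))) = I.Hp 1 + I.Hp 1 := by
      rw [I.Hp_U u hu, I.Hp_ex, I.Hp_K k hk]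
    rw [one_mul, ← mul_assoc, ← h] at h2
    exact h2
  exact (left_eq_add.1 h1)

theorem brg_long_le {l l' : List J} (h : I.Long l) {Z : J → ℝ} (hZ : ∀ i, 0 ≤ al I.A i Z) (j : J) :
    wl I.A l Z j ≤ wl I.A l' Z j := by
  have h1 := (I.kostant l h Z hZ (I.nl l') (brg_nl_K I l') j).1
  rwa [brg_Hp_nl, brg_Hp_one, add_zero] at h1

/-- **Longest words have the same action.** PROOF. `kostant` for `l` and `k = n_(l')`: `wl l Z_j ≤ Hp(n_(l') ex Z)_j = wl l' Z_j` for `Z` dominant (`Hp(n_(l') ex Z) = Hp(ex(wl l' Z) n_(l')) = wl l' Z`), and vice versa; so equality for dominant `Z`. Every `v` is a difference of dominant vectors (`brg_dom`: `v = (v + c v0) - c v0`, `c` large), linearity. -/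
theorem brg_long {l l' : List J} (h : I.Long l) (h' : I.Long l') (v : J → ℝ) : wl I.A l v = wl I.A l' v := by
  have hdom : ∀ Z : J → ℝ, (∀ i, 0 ≤ al I.A i Z) → wl I.A l Z = wl I.A l' Z := fun Z hZ =>
    funext fun j => le_antisymm (brg_long_le I h hZ j) (brg_long_le I h' hZ j)
  obtain ⟨v0, hv0⟩ := brg_dom I
  let c : ℝ := ∑ i, |al I.A i v| / al I.A i v0
  have hc : ∀ i, |al I.A i v| ≤ c * al I.A i v0 := by
    intro i
    have h1 : |al I.A i v| / al I.A i v0 ≤ c :=
      Finset.single_le_sum (f := fun i => |al I.A i v| / al I.A i v0)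
        (fun i _ => div_nonneg (abs_nonneg _) (hv0 i).le) (Finset.mem_univ i)
    exact (div_le_iff₀ (hv0 i)).1 h1
  have h1 : ∀ i, 0 ≤ al I.A i (c • v0) := fun i => by
    rw [brg_al_smul]
    exact (abs_nonneg _).trans (hc i)
  have h2 : ∀ i, 0 ≤ al I.A i (v + c • v0) := fun i => by
    rw [brg_al_add, brg_al_smul]
    have := hc i
    have := neg_abs_le (al I.A i v)
    linarith
  have h3 := hdom _ h1
  have h4 := hdom _ h2
  rw [brg_wl_add, brg_wl_add, h3] at h4
  exact add_right_cancel h4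

end

end Pool.Agent.Lib.L8
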