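import Pool.Agent.Lib.L8.BRF

/-!
# L8, version 2, bridge, BRH: more on the longest element
-/

namespace Pool.Agent.Lib.L8

open MeasureTheory Filter
open scoped ENNReal Topology

noncomputable section

set_option linter.unusedSectionVars false
set_option linter.unusedVariables false

variable {J F G : Type} [Fintype J] [DecidableEq J] [RCLike F] [Group G] [TopologicalSpace G] [IsTopologicalGroup G] [SecondCountableTopology G] [LocallyCompactSpace G] [T2Space G] [MeasurableSpace G] [BorelSpace G] (I : Iw J F G)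

/-- PROOF. `nl (l ++ l') = nl l * nl l'` (`List.prod_append`). -/
theorem brh_nl_append (l l' : List J) : I.nl (l ++ l') = I.nl l * I.nl l' := by
  show (List.map I.n (l ++ l')).prod = (List.map I.n l).prod * (List.map I.n l').prod
  rw [List.map_append, List.prod_append]

theorem brh_cj1 (l : List J) (i : J) (g : G) :
    I.nl (l ++ [i]) * g * (I.nl (l ++ [i]))⁻¹ =
      I.nl l * (I.n i * g * (I.n i)⁻¹) * (I.nl l)⁻¹ := by
  have h1 : I.nl [i] = I.n i := by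
    show (List.map I.n [i]).prod = I.n i
    simp
  rw [brh_nl_append, h1]
  group

theorem brh_al_add (A : J → J → ℤ) (i : J) (y z : J → ℝ) : al A i (y + z) = al A i y + al A i z := by
  unfold al
  rw [← Finset.sum_add_distrib]
  refine Finset.sum_congr rfl fun k _ => ?_
  rw [Pi.add_apply, mul_add]

theorem brh_al_smul (A : J → J → ℤ) (i : J) (c : ℝ) (y : J → ℝ) : al A i (c • y) = c * al A i y := by
  unfold al
  rw [Finset.mul_sum]
  refine Finset.sum_congr rfl fun k _ => ?_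
  rw [Pi.smul_apply, smul_eq_mul]
  ring

theorem brh_wl_add (A : J → J → ℤ) (l : List J) (y z : J → ℝ) :
    wl A l (y + z) = wl A l y + wl A l z := by
  induction l with
  | nil => rfl
  | cons i l ih =>
    show sr A i (wl A l (y + z)) = sr A i (wl A l y) + sr A i (wl A l z)
    rw [ih]
    unfold sr
    rw [brh_al_add, add_smul]
    abel

theorem brh_wl_smul (A : J → J → ℤ) (l : List J) (c : ℝ) (y : J → ℝ) :
    wl A l (c • y) = c • wl A l y := by
  induction l with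
  | nil => rfl
  | cons i l ih =>
    show sr A i (wl A l (c • y)) = c • sr A i (wl A l y)
    rw [ih]
    unfold sr
    rw [brh_al_smul, smul_sub, smul_smul]

theorem brh_wl_append (A : J → J → ℤ) (l l' : List J) (v : J → ℝ) :
    wl A (l ++ l') v = wl A l (wl A l' v) := by
  induction l with
  | nil => rfl
  | cons i l ih =>
    show sr A i (wl A (l ++ l') v) = sr A i (wl A l (wl A l' v))
    rw [ih]

/-- The linear map of a word. -/
def brh_L (A : J → J → ℤ) (l : List J) : (J → ℝ) →ₗ[ℝ] (J → ℝ) where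
  toFun := wl A l
  map_add' := brh_wl_add A l
  map_smul' := brh_wl_smul A l

theorem brh_wl_sum (A : J → J → ℤ) (l : List J) (v : J → ℝ) :
    wl A l v = ∑ i, v i • wl A l (Pi.single i 1) := by
  have h1 : v = ∑ i, v i • (Pi.single i 1 : J → ℝ) := by
    ext j
    rw [Finset.sum_apply]
    simp [Pi.single_apply]
  have h2 : brh_L A l v = ∑ i, v i • brh_L A l (Pi.single i 1) := by
    conv_lhs => rw [h1]
    rw [map_sum]
    refine Finset.sum_congr rfl fun i _ => ?_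
    rw [map_smul]
  exact h2

/-- PROOF. `Red (l ++ l')`: the prefixes of `l` are prefixes of `l ++ l'`. -/
theorem brh_red_left {l l' : List J} (h : I.Red (l ++ l')) : I.Red l := by
  intro l₁ i l₂ hl
  refine h l₁ i (l₂ ++ l') ?_
  rw [hl, List.append_assoc, List.cons_append]

theorem brh_red_concat {l : List J} {i : J} (h : I.Red (l ++ [i])) : I.Red l ∧ I.Pos l i := by
  exact ⟨brh_red_left I h, h l i [] rfl⟩

/-- PROOF. With `st`: `st(n v n⁻¹) = n st(v) n⁻¹` for `n ∈ K` (`st_mul`, `st_K`), `st v ∈ U` (`st_V`), `n0 st(v) n0⁻¹ ∈ V` (`Long`), `st` of it is in `U`. -/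
theorem brh_V {l : List J} (h : I.Long l) {v : G} (hv : v ∈ I.V) : I.nl l * v * (I.nl l)⁻¹ ∈ I.U := by
  have hK : I.st (I.nl l) = (I.nl l)⁻¹ := (I.st_K _).1 (brf_nlK I l)
  have h1 : I.st ((I.nl l)⁻¹) = I.nl l := by rw [← hK, I.st_st]
  have h2 : I.st (I.nl l * v * (I.nl l)⁻¹) = I.nl l * I.st v * (I.nl l)⁻¹ := by
    rw [I.st_mul, I.st_mul, h1, hK, mul_assoc]
  have h3 := h.2.1 (I.st v) (I.st_V v hv)
  have h4 := I.st_V _ h3
  have h5 : I.st (I.nl l * I.st v * (I.nl l)⁻¹) = I.nl l * v * (I.nl l)⁻¹ := by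
    rw [← h2, I.st_st]
  rw [← h5]
  exact h4

/-- PROOF. For `v = n_i x_i(t) n_i⁻¹ ∈ V` (`n_x`): `n0 v n0⁻¹ ∈ U` (`brh_V`), which is `Pos (l ++ [i]) i`. So `wl (l ++ [i]) e_i ≥ 0` (`pos_coroot`), and `wl (l ++ [i]) e_i = wl l (s_i e_i) = - wl l e_i` (`A_diag`). Then for `v ≥ 0`: `wl l v = ∑ v_i wl l e_i ≤ 0` (linearity of `wl`, induction). -/
theorem brh_neg {l : List J} (h : I.Long l) {v : J → ℝ} (hv : ∀ j, 0 ≤ v j) (j : J) : wl I.A l v j ≤ 0 := by
  have hpos : ∀ i, I.Pos (l ++ [i]) i := by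
    intro i t
    have h1 := brh_V I h (I.n_x i t)
    have h2 := brh_cj1 I l i (I.x i t)
    show I.nl (l ++ [i]) * I.x i t * (I.nl (l ++ [i]))⁻¹ ∈ I.U
    rw [h2]
    exact h1
  have h1 : ∀ i, ∀ k, wl I.A l (Pi.single i 1) k ≤ 0 := by
    intro i k
    have h2 := (I.pos_coroot (l ++ [i]) i (hpos i)).1 k
    rw [brh_wl_append] at h2
    have h3 : wl I.A [i] (Pi.single i 1) = (-1 : ℝ) • (Pi.single i 1 : J → ℝ) := by
      show sr I.A i (Pi.single i 1) = _
      unfold sr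
      have h4 : al I.A i (Pi.single i 1) = 2 := by
        unfold al
        rw [Finset.sum_eq_single i]
        · rw [I.A_diag, Pi.single_eq_same]
          norm_num
        · intro b _ hb
          rw [Pi.single_eq_of_ne hb, mul_zero]
        · intro hi
          exact absurd (Finset.mem_univ i) hi
      rw [h4]
      ext j
      simp only [Pi.sub_apply, Pi.smul_apply, smul_eq_mul]
      ring
    rw [h3, brh_wl_smul, Pi.smul_apply, smul_eq_mul] at h2
    linarith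
  rw [brh_wl_sum, Finset.sum_apply]
  refine Finset.sum_nonpos fun i _ => ?_
  rw [Pi.smul_apply, smul_eq_mul]
  exact mul_nonpos_of_nonneg_of_nonpos (hv i) (h1 i j)

/-- PROOF. `contr0` gives `y`; by `norm_mono` for `t y` (`t ≥ 0`, `al` linear) `Hp(n0 u)_j ≤ Hp(n0 (ex(t y) u ex(t y)⁻¹))_j`, the right side tends to `Hp(n0)_j = 0` (`Hp_cont`, `Hp_K`, `Hp 1 = 0`). -/
theorem brh_low {l : List J} (h : I.Long l) {u : G} (hu : u ∈ I.U) (j : J) : I.Hp (I.nl l * u) j ≤ 0 := by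
  obtain ⟨y, hy, hlim⟩ := I.contr0
  have h0 : I.Hp (I.nl l * 1) j = 0 := by
    have h1 := I.Hp_K (I.nl l) (brf_nlK I l) 1
    rw [one_mul] at h1
    rw [mul_one, h1, brf_Hp1]
    rfl
  have h1 : Tendsto (fun t : ℝ => I.Hp (I.nl l * (I.ex (t • y) * u * (I.ex (t • y))⁻¹)) j) atTop
      (𝓝 (I.Hp (I.nl l * 1) j)) := by
    have hc : Continuous fun g : G => I.Hp (I.nl l * g) j :=
      (continuous_apply j).comp (I.Hp_cont.comp (continuous_const.mul continuous_id))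
    exact (hc.tendsto 1).comp (hlim u hu)
  rw [h0] at h1
  refine ge_of_tendsto h1 ?_
  filter_upwards [eventually_ge_atTop (0 : ℝ)] with t ht
  refine I.norm_mono l h (t • y) (fun i => ?_) u hu j
  rw [brh_al_smul]
  exact mul_nonpos_of_nonneg_of_nonpos ht (hy i)

/-- **`U_w ⊆ U^i` if `w α_i > 0`.** PROOF. `y` from `contri i`. For `u ∈ U_w` the elements `ex(t y) u ex(t y)⁻¹` are in `U_w` (`ex_U`; `n_w ex(t y) u ex(t y)⁻¹ n_w⁻¹ = ex(w t y) (n_w u n_w⁻¹) ex(w t y)⁻¹ ∈ V`, `brf_exl`, `ex_V`), `U_w` is closed (`brf_Uw_closed`), so the limit `x_i(c_i(u))` is in `U_w`: `n_w x_i(c) n_w⁻¹ ∈ V`, and it is in `U` by `Pos`,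
so it is `1` (`brf_UV`), `x_i(c) = 1`, `c = c_i(x_i(c)) = c_i(1) = 0` (`brf_c1`). -/
theorem brh_UwUc {l : List J} {i : J} (h : I.Pos l i) : I.Uw l ≤ I.Uc i := by
  intro u hu
  obtain ⟨y, hlim⟩ := I.contri i
  have hu1 : u ∈ I.U := hu.1
  have hu2 : I.nl l * u * (I.nl l)⁻¹ ∈ I.V := hu.2
  have h1 : I.x i (I.c i u) ∈ (I.Uw l : Set G) := by
    refine (brf_Uw_closed I l).mem_of_tendsto (hlim u hu1) (Eventually.of_forall fun t => ?_)
    show I.ex (t • y) * u * (I.ex (t • y))⁻¹ ∈ I.U ∧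
      I.nl l * (I.ex (t • y) * u * (I.ex (t • y))⁻¹) * (I.nl l)⁻¹ ∈ I.V
    refine ⟨I.ex_U _ u hu1, ?_⟩
    have h2 := I.ex_V (wl I.A l (t • y)) _ hu2
    rw [← brf_exl] at h2
    have h3 : I.nl l * I.ex (t • y) * (I.nl l)⁻¹ * (I.nl l * u * (I.nl l)⁻¹) *
        (I.nl l * I.ex (t • y) * (I.nl l)⁻¹)⁻¹ =
        I.nl l * (I.ex (t • y) * u * (I.ex (t • y))⁻¹) * (I.nl l)⁻¹ := by group
    rw [h3] at h2
    exact h2
  have h2 : I.nl l * I.x i (I.c i u) * (I.nl l)⁻¹ ∈ I.V := h1.2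
  have h3 := brf_UV I (h (I.c i u)) h2
  have h4 : I.x i (I.c i u) = 1 := by
    have h5 := congrArg (fun g => (I.nl l)⁻¹ * g * I.nl l) h3
    beta_reduce at h5
    have h6 : (I.nl l)⁻¹ * (I.nl l * I.x i (I.c i u) * (I.nl l)⁻¹) * I.nl l =
        I.x i (I.c i u) := by group
    rw [h6] at h5
    rw [h5]
    group
  refine ⟨hu1, ?_⟩
  rw [← I.c_x i (I.c i u), h4, brf_c1]

/-- PROOF. `pos_neg` (`n_w n_i x_i(t) n_i⁻¹ n_w⁻¹ ∈ V`), `x_U`. -/
theorem brh_Ui_le {l : List J} {i : J} (h : I.Pos l i) : I.Ui i ≤ I.Uw (l ++ [i]) := by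
  rintro _ ⟨t, rfl⟩
  refine ⟨I.x_U i t, ?_⟩
  rw [brh_cj1]
  exact I.pos_neg l i h t

/-- PROOF. `x ∈ U_(l i)`, `c_i(x) = 0`: `n_i x n_i⁻¹ ∈ U^i ⊆ U` and `n_w (n_i x n_i⁻¹) n_w⁻¹ ∈ V`. Conversely, `y = n_i x n_i⁻¹ ∈ U_w ⊆ U^i` (`brh_UwUc`), `x = n_i⁻¹ y n_i ∈ U^i` (`brf_nc'`). -/
theorem brh_V1 {l : List J} {i : J} (h : I.Pos l i) (x : G) : x ∈ I.Uw (l ++ [i]) ⊓ I.Uc i ↔ I.n i * x * (I.n i)⁻¹ ∈ I.Uw l := by
  constructor
  · rintro ⟨h1, h2⟩
    have h3 := brf_nc I i h2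
    refine ⟨h3.1, ?_⟩
    rw [← brh_cj1]
    exact h1.2
  · intro h1
    have h2 := brh_UwUc I h h1
    have h3 := brf_nc' I i h2
    have h4 : (I.n i)⁻¹ * (I.n i * x * (I.n i)⁻¹) * I.n i = x := by group
    rw [h4] at h3
    refine ⟨⟨h3.1, ?_⟩, h3⟩
    rw [brh_cj1]
    exact h1.2

end

end Pool.Agent.Lib.L8
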