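import Pool.Agent.Lib.L8.BRA
import Pool.Agent.Lib.L8.BRB
import Pool.Agent.Lib.L8.BRC
import Pool.Agent.Lib.L8.BRE
import Pool.Agent.Lib.L8.BRF

/-!
# L8, version 2, bridge, BRI: right Haar measures of the simple root groups; the moduli
-/

namespace Pool.Agent.Lib.L8

open MeasureTheory Filter
open scoped ENNReal Topology

noncomputable section

set_option linter.unusedSectionVars false
set_option linter.unusedVariables false

variable {J F G : Type} [Fintype J] [DecidableEq J] [RCLike F] [Group G] [TopologicalSpace G] [IsTopologicalGroup G] [SecondCountableTopology G] [LocallyCompactSpace G] [T2Space G] [MeasurableSpace G] [BorelSpace G] (I : Iw J F G)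

theorem bri_sq {c : ℝ≥0∞} (h : c * c = 1) : c = 1 := by
  have h1 := congrArg ENNReal.toReal h
  rw [ENNReal.toReal_mul, ENNReal.toReal_one] at h1
  have h2 : 0 ≤ c.toReal := ENNReal.toReal_nonneg
  have h3 : c.toReal = 1 := by nlinarith
  exact (ENNReal.toReal_eq_one_iff c).1 h3

theorem bri_al (i : J) (r : ℝ) : al I.A i (r • Pi.single i 1) = 2 * r := by
  unfold al
  rw [Finset.sum_eq_single i]
  · rw [I.A_diag, Pi.smul_apply, Pi.single_eq_same, smul_eq_mul, mul_one]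
    norm_num
  · intro j _ hj
    rw [Pi.smul_apply, Pi.single_apply, if_neg hj, smul_zero, mul_zero]
  · intro h
    exact absurd (Finset.mem_univ _) h

/-- Conjugations compose. -/
theorem bri_comp (ν : Measure G) (a b : G) :
    (ν.map fun x => a * x * a⁻¹).map (fun x => b * x * b⁻¹) = ν.map fun x => (b * a) * x * (b * a)⁻¹ := by
  rw [Measure.map_map (by fun_prop) (by fun_prop)]
  congr 1
  funext x
  show b * (a * x * a⁻¹) * b⁻¹ = (b * a) * x * (b * a)⁻¹
  group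

theorem bri_inv' (ν : Measure G) (a : G) : (ν.map fun x => a⁻¹ * x * a) = ν.map fun x => a⁻¹ * x * a⁻¹⁻¹ := by
  rw [inv_inv]

theorem bri_id (ν : Measure G) : (ν.map fun x => (1 : G) * x * (1 : G)⁻¹) = ν := by
  have : (fun x => (1 : G) * x * (1 : G)⁻¹) = id := by
    funext x
    show (1 : G) * x * (1 : G)⁻¹ = x
    group
  rw [this, Measure.map_id]

/-- Conjugation by the elements of `M`. -/
theorem bri_M {V : Subgroup G} (hV : IsClosed (V : Set G)) (hn : ∀ m ∈ I.M, ∀ v ∈ V, m * v * m⁻¹ ∈ V) {ν : Measure G}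
    (h : RH V ν) {m : G} (hm : m ∈ I.M) : (ν.map fun x => m * x * m⁻¹) = ν := by
  refine rh_cpt hV h I.K_compact (I.M_le hm) fun x => ⟨fun hx => ?_, fun hx => ?_⟩
  · have := hn m⁻¹ (I.M.inv_mem hm) x hx
    rwa [inv_inv] at this
  · have := hn m hm _ hx
    have e : m * (m⁻¹ * x * m) * m⁻¹ = x := by group
    rwa [e] at this

/-- PROOF. `ae`: `x_i(t) ∈ U_i`. `fin`: for compact `C`, `x_i⁻¹(C) ⊆ c_i(C ∩ U)` (compact: `brf`-type continuity of `c_i` on the closed group `U`), finite volume. `ne`: the total mass is that of `F`. `inv`: translation invariance of `volume`, `x_add`. -/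
theorem bri_Ui (i : J) : RH (I.Ui i) (I.νi i) := by
  have hx := I.x_cont i
  refine ⟨?_, fun C hC => ?_, ?_, ?_⟩
  · refine (ae_map_iff hx.measurable.aemeasurable (brf_Ui_closed I i).measurableSet).2 ?_
    exact Eventually.of_forall fun t => ⟨t, rfl⟩
  · unfold Iw.νi
    rw [Measure.map_apply hx.measurable hC.isClosed.measurableSet]
    have h1 : IsCompact ((fun u : I.U => I.c i u) '' (Subtype.val ⁻¹' C)) :=
      (I.U_closed.isClosedEmbedding_subtypeVal.isCompact_preimage hC).image (I.c_cont i)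
    refine lt_of_le_of_lt (measure_mono ?_) h1.measure_lt_top
    intro t ht
    exact ⟨⟨I.x i t, I.x_U i t⟩, ht, I.c_x i t⟩
  · unfold Iw.νi
    intro h
    rw [Measure.map_eq_zero_iff hx.measurable.aemeasurable] at h
    exact NeZero.ne (volume : Measure F) h
  · rintro _ ⟨s, rfl⟩
    unfold Iw.νi
    rw [Measure.map_map (by fun_prop) hx.measurable]
    have e : ((fun x => x * I.x i s) ∘ I.x i) = I.x i ∘ (fun t => t + s) := by
      funext t
      exact (I.x_add i t s).symm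
    rw [e, ← Measure.map_map hx.measurable (measurable_add_const s), map_add_right_eq_self]

/-- **`U = U^i U_i`.** PROOF. `rh_ex` for `U^i` (`brf_Uc_closed`), `rh_prod` with `V = U`, `V1 = U^i`, `V2 = U_i`, `π(u) = x_i(c_i(u))` (`brf_dec`, `brf_xc`, `brf_pi_cont`), `bri_Ui`; `rh_uniq` gives the constant, absorbed in `ν_c` (`rh_smul`, `Measure.prod_smul_left`, `Measure.map_smul`). -/
theorem bri_prod {ν : Measure G} (h : RH I.U ν) (i : J) : ∃ νc, RH (I.Uc i) νc ∧ ν = (νc.prod (I.νi i)).map fun p => p.1 * p.2 := by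
  obtain ⟨ν0, h0⟩ := rh_ex (brf_Uc_closed I i)
  have hsig0 := rh_sigma h0
  have hsigi := rh_sigma (bri_Ui I i)
  have h1 := rh_prod (V := I.U) (V1 := I.Uc i) (V2 := I.Ui i) I.U_closed (fun u hu => hu.1)
    (by
      rintro _ ⟨t, rfl⟩
      exact I.x_U i t)
    (fun v hv => ⟨v * (I.x i (I.c i v))⁻¹, brf_dec I i hv, I.x i (I.c i v), ⟨_, rfl⟩, by group⟩)
    (fun b hb a ha => by
      obtain ⟨t, rfl⟩ := hb
      exact brf_xc I i t ha)
    (π := fun u => I.x i (I.c i u)) (brf_pi_cont I i)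
    (fun a ha b hb => by
      obtain ⟨t, rfl⟩ := hb
      show I.x i (I.c i (a * I.x i t)) = I.x i t
      rw [I.c_mul i a ha.1 _ (I.x_U i t), I.c_x, ha.2, zero_add])
    h0 (bri_Ui I i)
  obtain ⟨c, hc0, hc1, hc⟩ := rh_uniq I.U_closed h h1
  refine ⟨c • ν0, rh_smul h0 hc0 hc1, ?_⟩
  rw [Measure.prod_smul_left, Measure.map_smul, hc]

/-- PROOF. `t = m ex y`, `t⁻¹ x t = m⁻¹ (ex(-y) x ex y) m` (`M_ex`). For `m`: `rh_cpt` (`M ≤ K`, `brf_tx`). For `ex y`: `ex(-y) x_i(s) ex(y) = x_i(e^(-al) s)` (`x_ex`), `bre_smul` with `r = e^(-al_i y)`: `r^(-d) = e^(d al_i(y))`. -/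
theorem bri_modi (i : J) {m : G} (hm : m ∈ I.M) (y : J → ℝ) : (I.νi i).map (fun x => (m * I.ex y)⁻¹ * x * (m * I.ex y)) = ENNReal.ofReal (Real.exp (dF F * al I.A i y)) • I.νi i := by
  have hx := I.x_cont i
  have hM : ∀ m ∈ I.M, ∀ v ∈ I.Ui i, m * v * m⁻¹ ∈ I.Ui i := by
    rintro m hm _ ⟨t, rfl⟩
    exact I.M_x m hm i t
  have h1 : (I.νi i).map (fun x => (m * I.ex y)⁻¹ * x * (m * I.ex y)) =
      ((I.νi i).map fun x => (I.ex y)⁻¹ * x * (I.ex y)⁻¹⁻¹).map fun x => m⁻¹ * x * m⁻¹⁻¹ := by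
    rw [bri_comp, ← mul_inv_rev, ← I.M_ex m hm y, inv_inv]
  have h2 : ((I.νi i).map fun x => (I.ex y)⁻¹ * x * (I.ex y)⁻¹⁻¹) =
      ENNReal.ofReal (Real.exp (dF F * al I.A i y)) • I.νi i := by
    unfold Iw.νi
    rw [Measure.map_map (by fun_prop) hx.measurable]
    have hal : al I.A i (-y) = -al I.A i y := by
      unfold al
      rw [← Finset.sum_neg_distrib]
      refine Finset.sum_congr rfl fun k _ => ?_
      rw [Pi.neg_apply, mul_neg]
    have e : ((fun x => (I.ex y)⁻¹ * x * (I.ex y)⁻¹⁻¹) ∘ I.x i) =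
        I.x i ∘ (fun t : F => (Real.exp (-al I.A i y) : ℝ) • t) := by
      funext t
      show (I.ex y)⁻¹ * I.x i t * (I.ex y)⁻¹⁻¹ = I.x i ((Real.exp (-al I.A i y) : ℝ) • t)
      rw [← brf_exneg, I.x_ex, hal]
    have hm2 : Measurable (fun t : F => (Real.exp (-al I.A i y) : ℝ) • t) :=
      (continuous_const_smul _).measurable
    rw [e, ← Measure.map_map hx.measurable hm2, bre_smul (Real.exp_pos _), Measure.map_smul]
    congr 2
    rw [← Real.exp_mul]
    congr 1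
    ring
  rw [h1, h2, Measure.map_smul, bri_M I (brf_Ui_closed I i) hM (bri_Ui I i) (I.M.inv_mem hm)]

/-- PROOF. `rh_cpt` for `k = n_i` or its inverse (`brf_nc`, `brf_nc'`, `n_K`, `K_compact`). -/
theorem bri_n (i : J) {ν : Measure G} (h : RH (I.Uc i) ν) : (ν.map fun v => (I.n i)⁻¹ * v * I.n i) = ν := by
  have h1 := rh_cpt (brf_Uc_closed I i) h I.K_compact (k := (I.n i)⁻¹) (I.K.inv_mem (I.n_K i))
    fun x => ⟨fun hx => by rw [inv_inv]; exact brf_nc I i hx, fun hx => by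
      rw [inv_inv] at hx
      have := brf_nc' I i hx
      have e : (I.n i)⁻¹ * (I.n i * x * (I.n i)⁻¹) * I.n i = x := by group
      rwa [e] at this⟩
  rw [bri_inv']
  exact h1

theorem bri_n2 (i : J) {ν : Measure G} (h : RH (I.Uc i) ν) : (ν.map fun v => I.n i * v * (I.n i)⁻¹) = ν := by
  have h1 := bri_comp ν (I.n i)⁻¹ (I.n i)
  rw [mul_inv_cancel, bri_id, ← bri_inv', bri_n I i h] at h1
  exact h1

/-- PROOF. `rh_uni` with `x = x_i`, `t = ex(log 2 e_i / 2)`: `al_i(e_i) = 2`, so `t x_i(s) t⁻¹ = x_i(2 s)` (`x_ex`, `A_diag`); `brf_xc`, `brf_tc`. -/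
theorem bri_x (i : J) {ν : Measure G} (h : RH (I.Uc i) ν) (s : F) : (ν.map fun v => I.x i s * v * (I.x i s)⁻¹) = ν := by
  refine rh_uni (brf_Uc_closed I i) h (I.x i) (I.x_add i) (fun s v hv => brf_xc I i s hv)
    (I.ex ((Real.log 2 / 2) • Pi.single i 1)) (fun v => ⟨fun hv => ?_, fun hv => ?_⟩) (fun s => ?_) s
  · have := brf_tc I i (t := (I.ex ((Real.log 2 / 2) • Pi.single i 1))⁻¹)
      (Subgroup.inv_mem _ ⟨1, I.M.one_mem, _, (one_mul _).symm⟩) hv
    rwa [inv_inv] at this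
  · have := brf_tc I i (t := I.ex ((Real.log 2 / 2) • Pi.single i 1))
      ⟨1, I.M.one_mem, _, (one_mul _).symm⟩ hv
    have e : ∀ g : G, g * (g⁻¹ * v * g) * g⁻¹ = v := fun g => by group
    rwa [e] at this
  · rw [I.x_ex, bri_al, show 2 * (Real.log 2 / 2) = Real.log 2 by ring, Real.exp_log (by norm_num), two_smul]

/-- **The modulus of `exp(r α_i^∨)` on `U^i` is one.** PROOF. `ν.map(ex(y)⁻¹ v ex(y)) = c(y) ν` (`rh_mod`, `brf_tc`). For `y = r e_i`: `n_i ex(y) n_i⁻¹ = ex(-y)` (`n_ex`, `A_diag`), and conjugation by `n_i` preserves `ν` (`bri_n`), so `c(-y) = c(y)`, and `c(y) c(-y) = 1` (composition, `rh_cst`), so `c(y) = 1`. -/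
theorem bri_one (i : J) {ν : Measure G} (h : RH (I.Uc i) ν) (r : ℝ) : (ν.map fun v => (I.ex (r • Pi.single i 1))⁻¹ * v * I.ex (r • Pi.single i 1)) = ν := by
  set a := I.ex (r • Pi.single i 1) with ha
  have hT : a ∈ I.TT := ⟨1, I.M.one_mem, _, (one_mul _).symm⟩
  have hT' : a⁻¹ ∈ I.TT := Subgroup.inv_mem _ hT
  have hn : ∀ x, x ∈ I.Uc i ↔ a⁻¹ * x * a ∈ I.Uc i := fun x => ⟨fun hx => by
    have := brf_tc I i hT' hx
    rwa [inv_inv] at this, fun hx => by
    have := brf_tc I i hT hx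
    have e : a * (a⁻¹ * x * a) * a⁻¹ = x := by group
    rwa [e] at this⟩
  obtain ⟨c, -, -, hc⟩ := rh_mod (brf_Uc_closed I i) h a hn
  have hsr : sr I.A i (r • Pi.single i 1) = -(r • Pi.single i 1) := by
    unfold sr
    rw [bri_al, ← sub_smul, ← neg_smul]
    congr 1
    ring
  have hna : I.n i * a * (I.n i)⁻¹ = a⁻¹ := by
    rw [ha, I.n_ex, hsr, brf_exneg]
  -- the inverse has the same constant
  have hc' : (ν.map fun x => a⁻¹ * x * a⁻¹⁻¹) = c • ν := by
    have h1 : (((ν.map fun x => (I.n i)⁻¹ * x * (I.n i)⁻¹⁻¹).map fun x => a * x * a⁻¹).map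
        fun x => I.n i * x * (I.n i)⁻¹) = ν.map fun x => a⁻¹ * x * a⁻¹⁻¹ := by
      rw [bri_comp, bri_comp, hna]
    rw [← h1, ← bri_inv', bri_n I i h, hc, Measure.map_smul, bri_n2 I i h]
  have h3 := bri_comp ν a a⁻¹
  rw [inv_mul_cancel, bri_id, hc, Measure.map_smul, hc', smul_smul] at h3
  have h4 : c * c = 1 := rh_cst h (by rw [h3, one_smul])
  rw [bri_inv', hc', bri_sq h4, one_smul]

/-- The same with an element of `M`. PROOF. `bri_one`, `rh_cpt`, `M_ex`. -/
theorem bri_one' (i : J) {ν : Measure G} (h : RH (I.Uc i) ν) {m : G} (hm : m ∈ I.M) (r : ℝ) :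
    (ν.map fun v => (m * I.ex (r • Pi.single i 1))⁻¹ * v * (m * I.ex (r • Pi.single i 1))) = ν := by
  set a := I.ex (r • Pi.single i 1) with ha
  have hM : ∀ m ∈ I.M, ∀ v ∈ I.Uc i, m * v * m⁻¹ ∈ I.Uc i := fun m hm v hv => brf_mc I i hm hv
  have h1 : (ν.map fun v => (m * a)⁻¹ * v * (m * a)) =
      (ν.map fun x => m⁻¹ * x * m⁻¹⁻¹).map fun x => a⁻¹ * x * a⁻¹⁻¹ := by
    rw [bri_comp, ← mul_inv_rev, inv_inv]
  rw [h1, bri_M I (brf_Uc_closed I i) hM h (I.M.inv_mem hm), ← bri_inv', ha, bri_one I i h r]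

/-- One coordinate. -/
theorem bri_mod1 {ν : Measure G} (h : RH I.U ν) (i : J) (r : ℝ) :
    ν.map (fun u => (I.ex (r • Pi.single i 1))⁻¹ * u * I.ex (r • Pi.single i 1)) =
      ENNReal.ofReal (Real.exp (2 * (dF F * r))) • ν := by
  obtain ⟨νc, hc, hν⟩ := bri_prod I h i
  have hsig0 := rh_sigma hc
  have hsigi := rh_sigma (bri_Ui I i)
  set a := I.ex (r • Pi.single i 1) with ha
  have hm1 : Measurable fun u : G => a⁻¹ * u * a := by fun_prop
  have h1 : (νc.map fun u => a⁻¹ * u * a) = νc := bri_one I i hc r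
  have h2 : ((I.νi i).map fun u => a⁻¹ * u * a) = ENNReal.ofReal (Real.exp (2 * (dF F * r))) • I.νi i := by
    have := bri_modi I i I.M.one_mem (r • Pi.single i 1)
    rw [one_mul, bri_al, ← ha] at this
    rw [this]
    congr 3
    ring
  have h3 : ν.map (fun u => a⁻¹ * u * a) =
      ((νc.prod (I.νi i)).map (Prod.map (fun u => a⁻¹ * u * a) (fun u => a⁻¹ * u * a))).map fun p => p.1 * p.2 := by
    rw [hν, Measure.map_map hm1 (by fun_prop), Measure.map_map (by fun_prop) (hm1.prodMap hm1)]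
    congr 1
    funext p
    show a⁻¹ * (p.1 * p.2) * a = (a⁻¹ * p.1 * a) * (a⁻¹ * p.2 * a)
    group
  rw [h3, ← Measure.map_prod_map _ _ hm1 hm1, h1, h2, Measure.prod_smul_right, Measure.map_smul, ← hν]

/-- **The modulus of the torus on `U` is `e^(2 ρ)`.** PROOF. `M`: `rh_cpt`. For `y = r e_i`: `bri_prod`, `bri_one`, `bri_modi`: the conjugation acts on both factors of the product (`Measure.map_prod_map`), modulus `1` on `U^i` and `e^(d al_i(r e_i)) = e^(2 d r)` on `U_i`. The constants `c(y)` are multiplicative in `y` (`ex_add`, `rh_cst`), `y = ∑ y_i e_i`: `Finset.induction` on the support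
or on `Finset.univ` (`c(∑_(i ∈ s) y_i e_i) = e^(2 d ∑_(i ∈ s) y_i)`). -/
theorem bri_mod {ν : Measure G} (h : RH I.U ν) {m : G} (hm : m ∈ I.M) (y : J → ℝ) :
    ν.map (fun u => (m * I.ex y)⁻¹ * u * (m * I.ex y)) = ENNReal.ofReal (Real.exp (2 * ∑ j, dF F * y j)) • ν := by
  have hM : ∀ m ∈ I.M, ∀ v ∈ I.U, m * v * m⁻¹ ∈ I.U := fun m hm v hv => I.M_U m hm v hv
  have h1 : (ν.map fun v => (m * I.ex y)⁻¹ * v * (m * I.ex y)) =
      (ν.map fun x => m⁻¹ * x * m⁻¹⁻¹).map fun x => (I.ex y)⁻¹ * x * (I.ex y)⁻¹⁻¹ := by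
    rw [bri_comp, ← mul_inv_rev, inv_inv]
  rw [h1, bri_M I I.U_closed hM h (I.M.inv_mem hm)]
  have key : ∀ s : Finset J, (ν.map fun x => (I.ex (∑ j ∈ s, y j • Pi.single j 1))⁻¹ * x *
      (I.ex (∑ j ∈ s, y j • Pi.single j 1))⁻¹⁻¹) = ENNReal.ofReal (Real.exp (2 * ∑ j ∈ s, dF F * y j)) • ν := by
    intro s
    induction s using Finset.induction_on with
    | empty =>
      rw [Finset.sum_empty, Finset.sum_empty, brf_ex0, inv_one, bri_id, mul_zero, Real.exp_zero, ENNReal.ofReal_one, one_smul]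
    | insert i s hi ih =>
      rw [Finset.sum_insert hi, Finset.sum_insert hi, I.ex_add]
      have h2 : (ν.map fun x => (I.ex (y i • Pi.single i 1) * I.ex (∑ j ∈ s, y j • Pi.single j 1))⁻¹ * x *
          (I.ex (y i • Pi.single i 1) * I.ex (∑ j ∈ s, y j • Pi.single j 1))⁻¹⁻¹) =
          (ν.map fun x => (I.ex (y i • Pi.single i 1))⁻¹ * x * (I.ex (y i • Pi.single i 1))⁻¹⁻¹).map
            fun x => (I.ex (∑ j ∈ s, y j • Pi.single j 1))⁻¹ * x * (I.ex (∑ j ∈ s, y j • Pi.single j 1))⁻¹⁻¹ := by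
        rw [bri_comp, ← mul_inv_rev]
      rw [h2, ← bri_inv' ν (I.ex (y i • Pi.single i 1)), bri_mod1 I h i (y i), Measure.map_smul, ih, smul_smul, ← ENNReal.ofReal_mul (Real.exp_pos _).le,
        ← Real.exp_add, mul_add]
  have hy : ∑ j, y j • (Pi.single j 1 : J → ℝ) = y := by
    funext k
    rw [Finset.sum_apply, Finset.sum_eq_single k]
    · simp
    · intro j _ hj
      rw [Pi.smul_apply, Pi.single_apply, if_neg (Ne.symm hj), smul_zero]
    · intro h
      exact absurd (Finset.mem_univ _) h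
  have h3 := key Finset.univ
  rw [hy] at h3
  exact h3

end

end Pool.Agent.Lib.L8
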