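import Mathlib

/-!
# L8, version 2 (explicit exponents at the archimedean places): E0, the abstract data of the analysis (helper56)

`G` is a group with an Iwasawa decomposition `G = U T K`; the real vector space `𝔞` is `J → ℝ` (coordinates with respect to the simple coroots `c_j`, so that the `j`-th coordinate is the fundamental weight `ϖ_j`).
All measures are measures on `G` (push-forwards of Haar measures of subgroups). Spherical parameters are vectors `z : J → ℂ`, `z_j = ⟨z, c_j⟩`; `ρ` is the vector `m` (`m_j = ρ(c_j)`).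
Conventions as in `Iw.lean` (helper33): `n_i ∈ K`, the operator of a simple step is `M_i F(g) = ∫ F(n_i x g) dx`, `x` in the root group `U_i`.
-/

namespace Pool.Agent.Lib.L8

open MeasureTheory Filter
open scoped ENNReal Topology

noncomputable section

/-- The pairing of a parameter with a vector of `𝔞`. -/
def pa {J : Type} [Fintype J] (z : J → ℂ) (v : J → ℝ) : ℂ := ∑ j, z j * (v j : ℂ)

/-- The pairing for real parameters. -/
def par {J : Type} [Fintype J] (z : J → ℝ) (v : J → ℝ) : ℝ := ∑ j, z j * v j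

/-- The real part of a parameter. -/
def zre {J : Type} (z : J → ℂ) : J → ℝ := fun j => (z j).re

/-- A real parameter as a complex parameter. -/
def zof {J : Type} (z : J → ℝ) : J → ℂ := fun j => (z j : ℂ)

/-- **Iwasawa data.** `G = U T K`; `Hp` is the Iwasawa projection to `𝔞`, `lg` its restriction to the torus `T`; `νU` is a Haar measure of `U` and `κ` the normalised Haar measure of `K`. -/
structure AnD (G J : Type) [Group G] [TopologicalSpace G] [MeasurableSpace G] [Fintype J] where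
  /-- The unipotent group. -/
  U : Subgroup G
  /-- The torus. -/
  T : Subgroup G
  /-- The compact group. -/
  K : Subgroup G
  /-- The Iwasawa projection. -/
  Hp : G → J → ℝ
  /-- The logarithm of a torus element. -/
  lg : G → J → ℝ
  /-- `ρ(c_j)`. -/
  m : J → ℝ
  /-- The Haar measure of `U`. -/
  νU : Measure G
  /-- The normalised Haar measure of `K`. -/
  κ : Measure G
  m_pos : ∀ j, 0 < m j
  cont : Continuous Hp
  compK : IsCompact (K : Set G)
  hp1 : Hp 1 = 0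
  hpU : ∀ u ∈ U, ∀ g, Hp (u * g) = Hp g
  hpK : ∀ k ∈ K, ∀ g, Hp (g * k) = Hp g
  hpT : ∀ t ∈ T, ∀ g, Hp (t * g) = lg t + Hp g
  iw : ∀ g, ∃ u ∈ U, ∃ t ∈ T, ∃ k ∈ K, g = u * t * k
  sf : SFinite νU
  pr : IsProbabilityMeasure κ
  aeU : ∀ᵐ u ∂νU, u ∈ U
  aeK : ∀ᵐ k ∂κ, k ∈ K
  nU : ∀ t ∈ T, ∀ u ∈ U, t * u * t⁻¹ ∈ U
  rU : ∀ u ∈ U, νU.map (fun x => x * u) = νU
  rK : ∀ k ∈ K, κ.map (fun x => x * k) = κ
  lK : ∀ k ∈ K, κ.map (fun x => k * x) = κ
  /-- The modulus of `T` on `U` is `e ^ (2 ρ)`. -/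
  mod : ∀ t ∈ T, νU.map (fun u => t⁻¹ * u * t) = ENNReal.ofReal (Real.exp (2 * par m (lg t))) • νU

attribute [instance] AnD.sf AnD.pr

section

variable {G J : Type} [Group G] [TopologicalSpace G] [MeasurableSpace G] [Fintype J] [DecidableEq J] (D : AnD G J)

/-- `h_z(g) = e ^ ((z + ρ)(H(g)))`. -/
def AnD.hs (z : J → ℂ) (g : G) : ℂ := Complex.exp (pa z (D.Hp g) + (par D.m (D.Hp g) : ℝ))

/-- The real form of `h_z`. -/
def AnD.hr (z : J → ℝ) (g : G) : ℝ := Real.exp (par z (D.Hp g) + par D.m (D.Hp g))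

/-- **The spherical function** `Φ_z(g) = ∫_K h_z(k g) dk`. -/
def AnD.Ph (z : J → ℂ) (g : G) : ℂ := ∫ k, D.hs z (k * g) ∂D.κ

/-- The spherical function with a real parameter. -/
def AnD.Pr (z : J → ℝ) (g : G) : ℝ := ∫ k, D.hr z (k * g) ∂D.κ

/-- Harish-Chandra's function `Ξ = Φ_0`. -/
def AnD.Xi (g : G) : ℝ := D.Pr 0 g

/-- **The simple steps** (simple reflections): `n i ∈ K` represents the reflection `v ↦ v - α_i(v) c_i`, `α_i(v) = ∑_j C i j v_j`; `Ui i` is the root group, `Uc i` the unipotent radical of the minimal parabolic group of `i`. -/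
structure Steps where
  /-- The coefficients of the simple root `α_i`. -/
  C : J → J → ℝ
  /-- The representatives of the simple reflections. -/
  n : J → G
  /-- The root groups. -/
  Ui : J → Subgroup G
  /-- The complements. -/
  Uc : J → Subgroup G
  /-- The Haar measures of the root groups. -/
  νi : J → Measure G
  /-- The Haar measures of the complements. -/
  νc : J → Measure G
  /-- `H(n_i x) = - q_i(x) c_i`. -/
  q : J → G → ℝ
  Cii : ∀ i, C i i = 2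
  Cij : ∀ i j, i ≠ j → C i j ≤ 0
  n_mem : ∀ i, n i ∈ D.K
  Ui_le : ∀ i, Ui i ≤ D.U
  Uc_le : ∀ i, Uc i ≤ D.U
  sfi : ∀ i, SFinite (νi i)
  sfc : ∀ i, SFinite (νc i)
  aei : ∀ i, ∀ᵐ x ∂νi i, x ∈ Ui i
  aec : ∀ i, ∀ᵐ x ∂νc i, x ∈ Uc i
  /-- `U = U^i U_i`. -/
  prod : ∀ i, D.νU = ((νc i).prod (νi i)).map (fun p => p.1 * p.2)
  dec : ∀ i, ∀ u ∈ D.U, ∃ v ∈ Uc i, ∃ x ∈ Ui i, u = v * x
  /-- `n_i` normalises `U^i`. -/
  nc : ∀ i, ∀ v ∈ Uc i, n i * v * (n i)⁻¹ ∈ Uc i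
  /-- `U_i` normalises `U^i`. -/
  xc : ∀ i, ∀ x ∈ Ui i, ∀ v ∈ Uc i, x * v * x⁻¹ ∈ Uc i
  ri : ∀ i, ∀ x ∈ Ui i, (νi i).map (fun y => y * x) = νi i
  /-- `n_i` normalises the torus. -/
  cj : ∀ i, ∀ t ∈ D.T, n i * t * (n i)⁻¹ ∈ D.T ∧ D.lg (n i * t * (n i)⁻¹) = fun j => D.lg t j - if j = i then ∑ k, C i k * D.lg t k else 0
  /-- The torus normalises `U_i`, the modulus is `e ^ (m_i α_i)`. -/
  ti : ∀ i, ∀ t ∈ D.T, ∀ x ∈ Ui i, t * x * t⁻¹ ∈ Ui i
  modi : ∀ i, ∀ t ∈ D.T, (νi i).map (fun x => t⁻¹ * x * t) = ENNReal.ofReal (Real.exp (D.m i * ∑ k, C i k * D.lg t k)) • νi i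
  hpq : ∀ i, ∀ x ∈ Ui i, D.Hp (n i * x) = fun j => if j = i then -q i x else 0
  qm : ∀ i, Measurable (q i)
  /-- Convergence of the rank one integral. -/
  cv : ∀ i, ∀ z : ℝ, 0 < z → Integrable (fun x => Real.exp (-((z + D.m i) * q i x))) (νi i)
  /-- The rank one integral is not zero. -/
  ne : ∀ i, ∀ z : ℂ, 0 < z.re → ∫ x, Complex.exp (-((z + D.m i) * q i x)) ∂νi i ≠ 0

variable {D}

instance (S : Steps D) (i : J) : SFinite (S.νi i) := S.sfi i

instance (S : Steps D) (i : J) : SFinite (S.νc i) := S.sfc i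

variable (S : Steps D)

/-- The value of the simple root `α_i`. -/
def Steps.al (i : J) (v : J → ℝ) : ℝ := ∑ k, S.C i k * v k

/-- The action of the simple reflection on parameters: `(z ∘ s_i)_j = z_j - z_i C i j`. -/
def Steps.rd (i : J) (z : J → ℂ) : J → ℂ := fun j => z j - z i * (S.C i j : ℂ)

/-- The action of the simple reflection on real parameters. -/
def Steps.rdr (i : J) (z : J → ℝ) : J → ℝ := fun j => z j - z i * S.C i j

/-- `n_(i_1) ⋯ n_(i_k)` for the list `[i_k, …, i_1]`. -/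
def Steps.gL : List J → G
  | [] => 1
  | i :: L => Steps.gL L * S.n i

/-- The parameter `z ∘ s_(i_1) ∘ ⋯ ∘ s_(i_k)` for the list `[i_k, …, i_1]`. -/
def Steps.zL (z : J → ℂ) : List J → J → ℂ
  | [] => z
  | i :: L => S.rd i (Steps.zL z L)

/-- The real form of `zL`. -/
def Steps.zLr (z : J → ℝ) : List J → J → ℝ
  | [] => z
  | i :: L => S.rdr i (Steps.zLr z L)

/-- The measure of the group `{u ∈ U : g u g⁻¹ ∈ V}`, `g = n_(i_1) ⋯ n_(i_k)`, for the list `[i_k, …, i_1]`: the law of `(n_i⁻¹ u n_i) x`. -/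
def Steps.μL : List J → Measure G
  | [] => Measure.dirac 1
  | i :: L => ((Steps.μL L).prod (S.νi i)).map fun p => (S.n i)⁻¹ * p.1 * S.n i * p.2

/-- The rank one `c`-function. -/
def Steps.cf (i : J) (z : ℂ) : ℂ := ∫ x, Complex.exp (-((z + D.m i) * S.q i x)) ∂S.νi i

/-- The `c`-function of a chain of simple steps. -/
def Steps.cL (z : J → ℂ) : List J → ℂ
  | [] => 1
  | i :: L => S.cf i (S.zL z L i) * Steps.cL z L

/-- The positivity along the chain. -/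
def Steps.PosL (z : J → ℝ) : List J → Prop
  | [] => True
  | i :: L => 0 < S.zLr z L i ∧ Steps.PosL z L

/-- **The opposition data**: the representative `n0 = gL L0` of the longest element (which acts on `𝔞` by `w0`), the inversion in the root groups, generation. -/
structure OppD where
  /-- A word of the longest element. -/
  L0 : List J
  /-- The constant of the Haar measure. -/
  C0 : ℝ≥0∞
  /-- The longest element on `𝔞`. -/
  w0 : (J → ℝ) → J → ℝ
  /-- The section of `lg`. -/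
  ex : (J → ℝ) → G
  /-- `x n_i = y(x) h(x) ι(x)`. -/
  y : J → G → G
  /-- The torus part. -/
  h : J → G → G
  /-- The inversion. -/
  ι : J → G → G
  /-- `lg (h x) = l(x) c_i`. -/
  l : J → G → ℝ
  C0_ne : C0 ≠ 0
  C0_top : C0 ≠ ∞
  meas : D.νU = C0 • S.μL L0
  pos : ∀ z : J → ℝ, (∀ j, 0 < z j) → S.PosL z L0
  w0_m : ∀ v, par D.m (w0 v) = -par D.m v
  w0_neg : ∀ v, (∀ j, 0 ≤ v j) → ∀ j, w0 v j ≤ 0
  w0_sub : ∀ v v', w0 (v - v') = w0 v - w0 v'
  w0_smul : ∀ (c : ℝ) v, w0 (c • v) = c • w0 v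
  /-- `n0` normalises the torus. -/
  cj0 : ∀ t ∈ D.T, S.gL L0 * t * (S.gL L0)⁻¹ ∈ D.T ∧ D.lg (S.gL L0 * t * (S.gL L0)⁻¹) = w0 (D.lg t)
  w0_surj : ∀ v, ∃ v', w0 v' = v
  w0_z : ∀ (z v : J → ℝ), par z (w0 v) = par (S.zLr z L0) v
  ex_mem : ∀ v, ex v ∈ D.T
  ex_lg : ∀ v, D.lg (ex v) = v
  ex_add : ∀ v v', ex (v + v') = ex v * ex v'
  exn : ∀ v, S.gL L0 * ex v * (S.gL L0)⁻¹ = ex (w0 v)
  /-- The inversion. -/
  inv : ∀ i, ∀ᵐ x ∂S.νi i, x * S.n i = y i x * h i x * ι i x ∧ h i x ∈ D.T ∧ D.lg (h i x) = (fun j => if j = i then l i x else 0) ∧ ι i x ∈ S.Ui i ∧ S.gL L0 * y i x * (S.gL L0)⁻¹ ∈ D.U ∧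
    (S.νc i).map (fun v => (y i x)⁻¹ * v * y i x) = S.νc i ∧ (S.νc i).map (fun v => (h i x)⁻¹ * v * h i x) = S.νc i
  ιm : ∀ i, Measurable (ι i)
  lm : ∀ i, Measurable (l i)
  invm : ∀ i, ((S.νi i).withDensity fun x => ENNReal.ofReal (Real.exp (-(2 * D.m i * l i x)))).map (ι i) = S.νi i
  /-- `G` is topologically generated by `U` and the `n_i`. -/
  gen : Dense (Subgroup.closure ((D.U : Set G) ∪ Set.range S.n) : Set G)
  /-- `H(n0 u) ≤ 0`. -/
  low : ∀ u ∈ D.U, ∀ j, D.Hp (S.gL L0 * u) j ≤ 0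
  /-- `H(n0 u)` increases when `u` is contracted. -/
  mono : ∀ v, (∀ i, S.al i v ≤ 0) → ∀ u ∈ D.U, ∀ j, D.Hp (S.gL L0 * u) j ≤ D.Hp (S.gL L0 * (ex v * u * (ex v)⁻¹)) j
  /-- The easy half of Kostant's theorem. -/
  kos : ∀ v : J → ℝ, (∀ i, 0 ≤ S.al i v) → ∀ k ∈ D.K, ∀ j, w0 v j ≤ D.Hp (k * ex v) j
  /-- The orbits of the Weyl group in `𝔞` are finite. -/
  fin : ∀ v : J → ℝ, {v' : J → ℝ | ∃ L, ∀ z : J → ℝ, par (S.zLr z L) v = par z v'}.Finite
  /-- There is a strictly dominant vector. -/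
  dom : ∃ v : J → ℝ, ∀ i, 0 < S.al i v
  /-- A dominant vector has nonnegative coordinates. -/
  dom_nonneg : ∀ v : J → ℝ, (∀ i, 0 ≤ S.al i v) → ∀ j, 0 ≤ v j

variable {S}

/-- **The data of the parabolic group of a dominant vector `Z`** (`Z = w0 Z'`, `Z'` antidominant): `U = U_P U_M`, `n0 = gL L * nM`, `U_P = nM⁻¹ U_L nM`, `U_M` the centraliser of `exp(Z')` in `U`. -/
structure ParD (O : OppD S) (Z : J → ℝ) where
  /-- The antidominant vector. -/
  Z' : J → ℝ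
  /-- The word. -/
  L : List J
  /-- The representative in `M`. -/
  nM : G
  /-- The Haar measure of `U_P`. -/
  νP : Measure G
  /-- The Haar measure of `U_M`. -/
  νM : Measure G
  /-- The constant. -/
  CP : ℝ≥0∞
  sfP : SFinite νP
  sfM : SFinite νM
  CP_ne : CP ≠ 0
  CP_top : CP ≠ ∞
  w0Z : O.w0 Z' = Z
  nM_mem : nM ∈ D.K
  n0 : S.gL O.L0 = S.gL L * nM
  prod : D.νU = (νP.prod νM).map fun p => p.1 * p.2
  measP : νP = CP • (S.μL L).map fun u => nM⁻¹ * u * nM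
  pos : ∀ z : J → ℝ, (∀ j, 0 ≤ z j) → (∀ j, S.al j Z ≠ 0 → 0 < z j) → S.PosL z L
  /-- `H(g_L m) = w H(m)`, `m = nM u`, `u ∈ U_M`. -/
  hpM : ∀ᵐ u ∂νM, ∀ z : J → ℂ, pa z (D.Hp (S.gL L * (nM * u))) = pa (S.zL z L) (D.Hp (nM * u))
  anti : ∀ i, S.al i Z' ≤ 0
  /-- The contraction of `U_P`. -/
  lim : ∀ᵐ p ∂(νP.prod νM), Tendsto (fun t : ℝ => D.Hp (S.gL O.L0 * (O.ex (t • Z') * (p.1 * p.2) * (O.ex (t • Z'))⁻¹))) atTop (𝓝 (D.Hp (S.gL O.L0 * p.2)))

end

end

end Pool.Agent.Lib.L8
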