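import Pool.Agent.Lib.L8.BRI
import Pool.Agent.Lib.L8.BRD
import Pool.Agent.Lib.L8.E0

/-!
# L8, version 2, bridge, BRJ: the Iwasawa data and the simple steps of `Iw`
-/

namespace Pool.Agent.Lib.L8

open MeasureTheory Filter
open scoped ENNReal Topology

noncomputable section

set_option linter.unusedSectionVars false
set_option linter.unusedVariables false

variable {J F G : Type} [Fintype J] [DecidableEq J] [RCLike F] [Group G] [TopologicalSpace G] [IsTopologicalGroup G] [SecondCountableTopology G] [LocallyCompactSpace G] [T2Space G] [MeasurableSpace G] [BorelSpace G] (I : Iw J F G)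

/-- The Haar measure of `U`. -/
def Iw.νU : Measure G := Classical.choose (rh_ex I.U_closed)

theorem brj_U : RH I.U I.νU := Classical.choose_spec (rh_ex I.U_closed)

/-- The normalised Haar measure of `K`. -/
def Iw.κ : Measure G := Classical.choose (rh_prob I.K_compact)

theorem brj_K : RH I.K I.κ ∧ IsProbabilityMeasure I.κ := Classical.choose_spec (rh_prob I.K_compact)

/-- PROOF. `finrank > 0`. -/
theorem brj_d : 0 < dF F := by
  unfold dF
  exact_mod_cast Module.finrank_pos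

/-- PROOF. `t = m ex y`: `Hp_M`, `Hp_ex`, `brf_HpT`. -/
theorem brj_T {t : G} (ht : t ∈ I.TT) (g : G) : I.Hp (t * g) = I.Hp t + I.Hp g := by
  obtain ⟨m, hm, y, rfl⟩ := ht
  rw [brf_HpT I hm y, mul_assoc, I.Hp_M m hm, I.Hp_ex]

/-- PROOF. `dec`. -/
theorem brj_iw (g : G) : ∃ u ∈ I.U, ∃ t ∈ I.TT, ∃ k ∈ I.K, g = u * t * k := by
  obtain ⟨u, hu, k, hk, h⟩ := I.dec g
  exact ⟨u, hu, I.ex (I.Hp g), ⟨1, I.M.one_mem, I.Hp g, (one_mul _).symm⟩, k, hk, h⟩

/-- PROOF. `bri_mod`, `brf_HpT`; `par m y = ∑ d y_j`. -/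
theorem brj_mod {t : G} (ht : t ∈ I.TT) : I.νU.map (fun u => t⁻¹ * u * t) = ENNReal.ofReal (Real.exp (2 * par (fun _ => dF F) (I.Hp t))) • I.νU := by
  obtain ⟨m, hm, y, rfl⟩ := ht
  rw [brf_HpT I hm y]
  exact bri_mod I (brj_U I) hm y

/-- **The Iwasawa data.** -/
def Iw.AD : AnD G J where
  U := I.U
  T := I.TT
  K := I.K
  Hp := I.Hp
  lg := I.Hp
  m := fun _ => dF F
  νU := I.νU
  κ := I.κ
  m_pos := fun _ => brj_d
  cont := I.Hp_cont
  compK := I.K_compact
  hp1 := brf_Hp1 I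
  hpU := fun u hu g => I.Hp_U u hu g
  hpK := fun k hk g => I.Hp_K k hk g
  hpT := fun t ht g => brj_T I ht g
  iw := fun g => brj_iw I g
  sf := by
    haveI := rh_sigma (brj_U I)
    infer_instance
  pr := (brj_K I).2
  aeU := (brj_U I).ae
  aeK := (brj_K I).1.ae
  nU := fun t ht u hu => brf_tU I ht hu
  rU := (brj_U I).inv
  rK := (brj_K I).1.inv
  lK := fun k hk => rh_left I.K_compact (brj_K I).1 hk
  mod := fun t ht => brj_mod I ht

/-- The Haar measure of `U^i`. -/
def Iw.νc (i : J) : Measure G := Classical.choose (bri_prod I (brj_U I) i)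

theorem brj_c (i : J) : RH (I.Uc i) (I.νc i) ∧ I.νU = ((I.νc i).prod (I.νi i)).map fun p => p.1 * p.2 :=
  Classical.choose_spec (bri_prod I (brj_U I) i)

/-- PROOF. `t = m ex y`, `brf_cj`, `brf_HpT`, `sr`, `al`. -/
theorem brj_cj (i : J) {t : G} (ht : t ∈ I.TT) : I.n i * t * (I.n i)⁻¹ ∈ I.TT ∧
    I.Hp (I.n i * t * (I.n i)⁻¹) = fun j => I.Hp t j - if j = i then ∑ k, (I.A i k : ℝ) * I.Hp t k else 0 := by
  obtain ⟨m, hm, y, rfl⟩ := ht
  obtain ⟨m', hm', h⟩ := brf_cj I i hm y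
  rw [h]
  refine ⟨⟨m', hm', _, rfl⟩, ?_⟩
  rw [brf_HpT I hm' _, brf_HpT I hm y]
  funext j
  unfold sr al
  rw [Pi.sub_apply, Pi.smul_apply, Pi.single_apply, smul_eq_mul]
  split_ifs
  · rw [mul_one]
  · rw [mul_zero]

/-- PROOF. `bri_modi`, `brf_HpT`. -/
theorem brj_modi (i : J) {t : G} (ht : t ∈ I.TT) : (I.νi i).map (fun x => t⁻¹ * x * t) = ENNReal.ofReal (Real.exp (dF F * ∑ k, (I.A i k : ℝ) * I.Hp t k)) • I.νi i := by
  obtain ⟨m, hm, y, rfl⟩ := ht
  rw [brf_HpT I hm y]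
  exact bri_modi I i hm y

/-- PROOF. `rk_H`: all coordinates except `i` vanish. -/
theorem brj_hpq (i : J) {x : G} (hx : x ∈ I.Ui i) : I.Hp (I.n i * x) = fun j => if j = i then -(-(I.Hp (I.n i * x) i)) else 0 := by
  obtain ⟨t, rfl⟩ := hx
  funext j
  rw [I.rk_H, Pi.smul_apply, Pi.smul_apply, Pi.single_apply, Pi.single_apply, if_pos rfl, neg_neg]
  split_ifs
  · rfl
  · rw [smul_zero]

theorem brj_q (i : J) (t : F) : -(I.Hp (I.n i * I.x i t) i) = 1 / 2 * Real.log (1 + ‖t‖ ^ 2) := by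
  rw [I.rk_H, Pi.smul_apply, Pi.single_apply, if_pos rfl, smul_eq_mul]
  ring

theorem brj_qc (i : J) : Continuous fun x : G => -(I.Hp (I.n i * x) i) :=
  ((continuous_apply i).comp (I.Hp_cont.comp (continuous_const.mul continuous_id))).neg

/-- PROOF. `νi = map x_i volume`, `-(Hp(n_i x_i(t)) i) = (1/2) log(1 + ‖t‖²)` (`rk_H`), `brd_int`, `integrable_map_measure`. -/
theorem brj_cv (i : J) {z : ℝ} (hz : 0 < z) : Integrable (fun x => Real.exp (-((z + dF F) * -(I.Hp (I.n i * x) i)))) (I.νi i) := by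
  have hc : Continuous fun x : G => Real.exp (-((z + dF F) * -(I.Hp (I.n i * x) i))) :=
    Real.continuous_exp.comp (continuous_const.mul (brj_qc I i)).neg
  have hx : Measurable (I.x i) := (I.x_cont i).measurable
  unfold Iw.νi
  rw [integrable_map_measure hc.measurable.aestronglyMeasurable hx.aemeasurable]
  have he : ((fun x : G => Real.exp (-((z + dF F) * -(I.Hp (I.n i * x) i)))) ∘ I.x i) =
      fun t : F => Real.exp (-((z + dF F) * (1 / 2 * Real.log (1 + ‖t‖ ^ 2)))) := by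
    funext t
    show Real.exp (-((z + dF F) * -(I.Hp (I.n i * I.x i t) i))) = _
    rw [brj_q]
  rw [he]
  exact brd_int hz

/-- PROOF. The same with `brd_ne`, `integral_map`. -/
theorem brj_ne (i : J) {z : ℂ} (hz : 0 < z.re) : ∫ x, Complex.exp (-((z + (dF F : ℝ)) * ((-(I.Hp (I.n i * x) i) : ℝ) : ℂ))) ∂I.νi i ≠ 0 := by
  have hc : Continuous fun x : G => Complex.exp (-((z + (dF F : ℝ)) * ((-(I.Hp (I.n i * x) i) : ℝ) : ℂ))) :=
    Complex.continuous_exp.comp (continuous_const.mul (Complex.continuous_ofReal.comp (brj_qc I i))).neg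
  have hx : Measurable (I.x i) := (I.x_cont i).measurable
  unfold Iw.νi
  rw [integral_map hx.aemeasurable hc.measurable.aestronglyMeasurable]
  simp only [brj_q]
  exact brd_ne hz

/-- **The simple steps.** -/
def Iw.ST : Steps I.AD where
  C := fun i j => (I.A i j : ℝ)
  n := I.n
  Ui := I.Ui
  Uc := I.Uc
  νi := I.νi
  νc := I.νc
  q := fun i g => -(I.Hp (I.n i * g) i)
  Cii := fun i => by rw [I.A_diag i]; norm_num
  Cij := fun i j h => by exact_mod_cast I.A_off i j h
  n_mem := I.n_K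
  Ui_le := by
    rintro i _ ⟨t, rfl⟩
    exact I.x_U i t
  Uc_le := fun i u hu => hu.1
  sfi := fun i => by
    haveI := rh_sigma (bri_Ui I i)
    infer_instance
  sfc := fun i => by
    haveI := rh_sigma (brj_c I i).1
    infer_instance
  aei := fun i => (bri_Ui I i).ae
  aec := fun i => (brj_c I i).1.ae
  prod := fun i => (brj_c I i).2
  dec := fun i u hu => ⟨u * (I.x i (I.c i u))⁻¹, brf_dec I i hu, I.x i (I.c i u), ⟨_, rfl⟩, by group⟩
  nc := fun i v hv => brf_nc I i hv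
  xc := by
    rintro i _ ⟨t, rfl⟩ v hv
    exact brf_xc I i t hv
  ri := fun i => (bri_Ui I i).inv
  cj := fun i t ht => brj_cj I i ht
  ti := fun i t ht x hx => brf_tx I i ht hx
  modi := fun i t ht => brj_modi I i ht
  hpq := fun i x hx => brj_hpq I i hx
  qm := fun i => ((continuous_apply i).comp (I.Hp_cont.comp (continuous_const.mul continuous_id))).neg.measurable
  cv := fun i z hz => brj_cv I i hz
  ne := fun i z hz => brj_ne I i hz

end

end Pool.Agent.Lib.L8
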