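import Pool.Agent.Lib.L8.E2A

/-!
# L8, version 2, E3A: the formula of Gindikin and Karpelevich
-/

namespace Pool.Agent.Lib.L8

open MeasureTheory Filter
open scoped ENNReal Topology

noncomputable section

set_option linter.unusedSectionVars false
set_option linter.unusedVariables false

variable {G J : Type} [Group G] [TopologicalSpace G] [IsTopologicalGroup G] [SecondCountableTopology G] [MeasurableSpace G] [BorelSpace G] [Fintype J] [DecidableEq J] {D : AnD G J}


instance e3_sf (S : Steps D) : ∀ L : List J, SFinite (S.μL L)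
  | [] => by
    unfold Steps.μL
    infer_instance
  | i :: L => by
    haveI := e3_sf S L
    unfold Steps.μL
    infer_instance

theorem e3a_aux (S : Steps D) : ∀ L : List J, ∀ z : J → ℂ, S.PosL (zre z) L → ∀ y,
    Integrable (fun u => D.hs z (S.gL L * u * y)) (S.μL L) ∧ ∫ u, D.hs z (S.gL L * u * y) ∂S.μL L = S.cL z L * D.hs (S.zL z L) y := by
  intro L
  induction L with
  | nil =>
    intro z _ y
    have hc : Continuous fun u => D.hs z (S.gL [] * u * y) := (e1_hs_cont z).comp (by fun_prop)
    have h1 : S.μL [] = Measure.dirac 1 := rfl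
    have h2 : S.gL [] * 1 * y = y := by
      show (1 : G) * 1 * y = y
      rw [one_mul, one_mul]
    rw [h1]
    refine ⟨integrable_dirac' hc.stronglyMeasurable enorm_lt_top, ?_⟩
    rw [integral_dirac' _ _ hc.stronglyMeasurable, h2]
    show D.hs z y = 1 * D.hs z y
    rw [one_mul]
  | cons i L ih =>
    intro z hz y
    obtain ⟨hz1, hz2⟩ := hz
    have hsf : SFinite (S.μL L) := e3_sf S L
    have hμ : S.μL (i :: L) = ((S.μL L).prod (S.νi i)).map fun p => (S.n i)⁻¹ * p.1 * S.n i * p.2 := rfl
    have hg : S.gL (i :: L) = S.gL L * S.n i := rfl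
    have hΦ : Continuous fun p : G × G => (S.n i)⁻¹ * p.1 * S.n i * p.2 := by fun_prop
    have hf : Continuous fun u => D.hs z (S.gL (i :: L) * u * y) := (e1_hs_cont z).comp (by fun_prop)
    have hcomp : (fun u => D.hs z (S.gL (i :: L) * u * y)) ∘ (fun p : G × G => (S.n i)⁻¹ * p.1 * S.n i * p.2) =
        fun p : G × G => D.hs z (S.gL L * p.1 * (S.n i * p.2 * y)) := by
      funext p
      show D.hs z (S.gL (i :: L) * ((S.n i)⁻¹ * p.1 * S.n i * p.2) * y) = _
      rw [hg]
      congr 1
      group
    have hf2 : Continuous fun p : G × G => D.hs z (S.gL L * p.1 * (S.n i * p.2 * y)) := (e1_hs_cont z).comp (by fun_prop)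
    -- the real case
    have hzr : zre (zof (zre z)) = zre z := rfl
    have hnorm : ∀ x : G, ∫ u, ‖D.hs z (S.gL L * u * (S.n i * x * y))‖ ∂S.μL L =
        (S.cL (zof (zre z)) L * D.hs (S.zL (zof (zre z)) L) (S.n i * x * y)).re := by
      intro x
      have h1 := (ih (zof (zre z)) (by rw [hzr]; exact hz2) (S.n i * x * y)).2
      rw [← h1]
      have h2 : ∀ u, D.hs (zof (zre z)) (S.gL L * u * (S.n i * x * y)) = ((‖D.hs z (S.gL L * u * (S.n i * x * y))‖ : ℝ) : ℂ) := by
        intro u
        rw [e1_hs_of, e1_norm]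
      rw [integral_congr_ae (Eventually.of_forall h2), integral_complex_ofReal, Complex.ofReal_re]
    have hpos' : 0 < (S.zL (zof (zre z)) L i).re := by
      have h1 := congrFun (e2_zre_zL S (zof (zre z)) L) i
      rw [hzr] at h1
      have h2 : (S.zL (zof (zre z)) L i).re = S.zLr (zre z) L i := h1
      rw [h2]
      exact hz1
    have hpos : 0 < (S.zL z L i).re := by
      have h1 := congrFun (e2_zre_zL S z L) i
      have h2 : (S.zL z L i).re = S.zLr (zre z) L i := h1
      rw [h2]
      exact hz1
    have hint : Integrable (fun p : G × G => D.hs z (S.gL L * p.1 * (S.n i * p.2 * y))) ((S.μL L).prod (S.νi i)) := by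
      rw [integrable_prod_iff' hf2.aestronglyMeasurable]
      refine ⟨Eventually.of_forall fun x => (ih z hz2 (S.n i * x * y)).1, ?_⟩
      have h1 : (fun x => ∫ u, ‖D.hs z (S.gL L * u * (S.n i * x * y))‖ ∂S.μL L) =
          fun x => (S.cL (zof (zre z)) L * D.hs (S.zL (zof (zre z)) L) (S.n i * x * y)).re := funext hnorm
      show Integrable (fun x => ∫ u, ‖D.hs z (S.gL L * u * (S.n i * x * y))‖ ∂S.μL L) (S.νi i)
      rw [h1]
      exact ((e2_step S i _ hpos' y).1.const_mul _).re
    rw [hμ]
    constructor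
    · rw [integrable_map_measure hf.aestronglyMeasurable hΦ.measurable.aemeasurable, hcomp]
      exact hint
    · rw [integral_map hΦ.measurable.aemeasurable hf.aestronglyMeasurable]
      have h1 : ∀ p : G × G, D.hs z (S.gL (i :: L) * ((S.n i)⁻¹ * p.1 * S.n i * p.2) * y) =
          D.hs z (S.gL L * p.1 * (S.n i * p.2 * y)) := fun p => congrFun hcomp p
      rw [integral_congr_ae (Eventually.of_forall h1), integral_prod_symm _ hint]
      have h2 : ∀ x : G, ∫ u, D.hs z (S.gL L * u * (S.n i * x * y)) ∂S.μL L = S.cL z L * D.hs (S.zL z L) (S.n i * x * y) :=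
        fun x => (ih z hz2 (S.n i * x * y)).2
      rw [integral_congr_ae (Eventually.of_forall h2), integral_const_mul, (e2_step S i _ hpos y).2]
      show S.cL z L * (S.cf i (S.zL z L i) * D.hs (S.rd i (S.zL z L)) y) =
        S.cf i (S.zL z L i) * S.cL z L * D.hs (S.rd i (S.zL z L)) y
      ring

/-- PROOF. Induction. `μ_(i :: L)` is the image of `μ_L × ν_i` under `(u, x) ↦ n⁻¹ u n x`; `h_z(g_(i :: L) n⁻¹ u n x y) = h_z(g_L u (n x y))`; `integral_map` (the map is continuous, hence measurable), `integral_prod`, `integrable_prod_iff`: the inner integral over `u` is `c_L h_(z_L)(n x y)` by induction, and the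
integral of the norm is `c_L(Re z) h_(Re z_L)(n x y)` (apply the induction to `zof (zre z)`: `e1_norm`, `e1_hs_of`, `e2_zre_zL`), integrable in `x` by `e2_step`. Then `e2_step` for the outer integral. -/
theorem e3_gk (S : Steps D) (z : J → ℂ) : ∀ L : List J, S.PosL (zre z) L → ∀ y,
    Integrable (fun u => D.hs z (S.gL L * u * y)) (S.μL L) ∧ ∫ u, D.hs z (S.gL L * u * y) ∂S.μL L = S.cL z L * D.hs (S.zL z L) y := by
  intro L hL y
  exact e3a_aux S L z hL y

/-- PROOF. `S.ne`, `e2_zre_zL`. -/
theorem e3_cL_ne (S : Steps D) (z : J → ℂ) : ∀ L : List J, S.PosL (zre z) L → S.cL z L ≠ 0 := by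
  intro L
  induction L with
  | nil =>
    intro _
    exact one_ne_zero
  | cons i L ih =>
    intro hz
    obtain ⟨hz1, hz2⟩ := hz
    have hpos : 0 < (S.zL z L i).re := by
      have h1 := congrFun (e2_zre_zL S z L) i
      have h2 : (S.zL z L i).re = S.zLr (zre z) L i := h1
      rw [h2]
      exact hz1
    exact mul_ne_zero (S.ne i (S.zL z L i) hpos) (ih hz2)

end

end Pool.Agent.Lib.L8
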