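import Pool.Agent.Lib.L8.BRJ
import Pool.Agent.Lib.L8.BRG
import Pool.Agent.Lib.L8.BRH
import Pool.Agent.Lib.L8.E3A

/-!
# L8, version 2, bridge, BRK: words, the chain of right Haar measures
-/

namespace Pool.Agent.Lib.L8

open MeasureTheory Filter
open scoped ENNReal Topology

noncomputable section

set_option linter.unusedSectionVars false
set_option linter.unusedVariables false

variable {J F G : Type} [Fintype J] [DecidableEq J] [RCLike F] [Group G] [TopologicalSpace G] [IsTopologicalGroup G] [SecondCountableTopology G] [LocallyCompactSpace G] [T2Space G] [MeasurableSpace G] [BorelSpace G] (I : Iw J F G)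

theorem brk_al (i : J) (v : J → ℝ) : I.ST.al i v = al I.A i v := rfl

/-- PROOF. Induction on `l` from the end (`List.reverseRecOn`), `brh_nl_append`. -/
theorem brk_gL (l : List J) : I.ST.gL l.reverse = I.nl l := by
  induction l using List.reverseRecOn with
  | nil => rfl
  | append_singleton l i ih =>
    rw [List.reverse_append, List.reverse_singleton, List.singleton_append]
    show I.ST.gL l.reverse * I.n i = I.nl (l ++ [i])
    rw [ih, brh_nl_append]
    congr 1
    unfold IwD.nl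
    simp

theorem brk_par_sub (z : J → ℝ) (v : J → ℝ) (c : ℝ) (i : J) :
    par z (v - c • Pi.single i 1) = par z v - z i * c := by
  unfold par
  have h : ∀ j, z j * (v - c • Pi.single i 1 : J → ℝ) j = z j * v j - (if j = i then z i * c else 0) := by
    intro j
    rw [Pi.sub_apply, Pi.smul_apply, Pi.single_apply, smul_eq_mul]
    split_ifs with h
    · subst h
      ring
    · ring
  rw [Finset.sum_congr rfl fun j _ => h j, Finset.sum_sub_distrib, Finset.sum_ite_eq' Finset.univ i, if_pos (Finset.mem_univ i)]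

theorem brk_pa_sub (z : J → ℂ) (v : J → ℝ) (c : ℝ) (i : J) :
    pa z (v - c • Pi.single i 1) = pa z v - z i * (c : ℝ) := by
  unfold pa
  have h : ∀ j, z j * (((v - c • Pi.single i 1 : J → ℝ) j : ℝ) : ℂ) = z j * (v j : ℝ) - (if j = i then z i * (c : ℝ) else 0) := by
    intro j
    rw [Pi.sub_apply, Pi.smul_apply, Pi.single_apply, smul_eq_mul]
    split_ifs with h
    · subst h
      push_cast
      ring
    · push_cast
      ring
  rw [Finset.sum_congr rfl fun j _ => h j, Finset.sum_sub_distrib, Finset.sum_ite_eq' Finset.univ i, if_pos (Finset.mem_univ i)]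

theorem brk_single (z : J → ℝ) (i : J) : par z (Pi.single i 1) = z i := by
  unfold par
  rw [Finset.sum_eq_single i]
  · simp
  · intro j _ hj
    rw [Pi.single_apply, if_neg hj, mul_zero]
  · intro h
    exact absurd (Finset.mem_univ _) h

/-- PROOF. Induction from the end: `zLr z (i :: L) = rdr i (zLr z L)`, `e2_par_rdr`, `wl (l ++ [i]) v = wl l (s_i v)` (`brg_wl_append`), `par z' (s_i v) = par z' v - al_i(v) z'_i`. -/
theorem brk_zLr (z : J → ℝ) (l : List J) (v : J → ℝ) : par (I.ST.zLr z l.reverse) v = par z (wl I.A l v) := by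
  induction l using List.reverseRecOn generalizing v with
  | nil => rfl
  | append_singleton l i ih =>
    rw [List.reverse_append, List.reverse_singleton, List.singleton_append, brg_wl_append]
    have h1 : wl I.A [i] v = v - al I.A i v • Pi.single i 1 := rfl
    have h2 : I.ST.zLr z (i :: l.reverse) = I.ST.rdr i (I.ST.zLr z l.reverse) := rfl
    rw [h2, h1, e2_par_rdr, ← ih, brk_par_sub]
    rfl

theorem brk_zL (z : J → ℂ) (l : List J) (v : J → ℝ) : pa (I.ST.zL z l.reverse) v = pa z (wl I.A l v) := by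
  induction l using List.reverseRecOn generalizing v with
  | nil => rfl
  | append_singleton l i ih =>
    rw [List.reverse_append, List.reverse_singleton, List.singleton_append, brg_wl_append]
    have h1 : wl I.A [i] v = v - al I.A i v • Pi.single i 1 := rfl
    have h2 : I.ST.zL z (i :: l.reverse) = I.ST.rd i (I.ST.zL z l.reverse) := rfl
    rw [h2, h1, e2_pa_rd, ← ih, brk_pa_sub]
    rfl

theorem brk_gL_append (L L' : List J) : I.ST.gL (L ++ L') = I.ST.gL L' * I.ST.gL L := by
  induction L with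
  | nil =>
    show I.ST.gL L' = I.ST.gL L' * 1
    rw [mul_one]
  | cons i L ih =>
    show I.ST.gL (L ++ L') * I.n i = I.ST.gL L' * (I.ST.gL L * I.n i)
    rw [ih, mul_assoc]

/-- **The chain.** PROOF. Induction on `L2`: `μ_(i :: (L2 ++ L1))` is the law of `n_i⁻¹ (g2⁻¹ u g2 x) n_i y = ((g2 n_i)⁻¹ u (g2 n_i)) (n_i⁻¹ x n_i y)`, `(u, x, y)` with law `μ_(L1) × μ_(L2) × ν_i`; `Measure.map_map`, `Measure.map_prod_map`, associativity of the product (`MeasureTheory.Measure.prod_assoc`-type lemma `measurePreserving_prodAssoc` / `Measure.prodAssoc_prod`). `L2 = []`: `prod (dirac 1)`. -/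
theorem brk_chain (L2 L1 : List J) : I.ST.μL (L2 ++ L1) = ((I.ST.μL L1).prod (I.ST.μL L2)).map fun p => (I.ST.gL L2)⁻¹ * p.1 * I.ST.gL L2 * p.2 := by
  induction L2 with
  | nil =>
    have h0 : I.ST.μL [] = Measure.dirac 1 := rfl
    have h1 : I.ST.gL [] = 1 := rfl
    rw [h0, h1, Measure.prod_dirac, Measure.map_map (by fun_prop) (by fun_prop)]
    have h2 : ((fun p : G × G => (1 : G)⁻¹ * p.1 * 1 * p.2) ∘ fun x => (x, (1 : G))) = id := by
      funext x
      show (1 : G)⁻¹ * x * 1 * 1 = x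
      group
    rw [h2, Measure.map_id]
    rfl
  | cons i L2 ih =>
    have := e3_sf I.ST L1
    have := e3_sf I.ST L2
    have : SFinite (I.ST.νi i) := I.ST.sfi i
    have h1 : I.ST.μL (i :: L2 ++ L1) = ((I.ST.μL (L2 ++ L1)).prod (I.ST.νi i)).map
        fun p => (I.n i)⁻¹ * p.1 * I.n i * p.2 := rfl
    have h2 : I.ST.μL (i :: L2) = ((I.ST.μL L2).prod (I.ST.νi i)).map
        fun p => (I.n i)⁻¹ * p.1 * I.n i * p.2 := rfl
    have hg : I.ST.gL (i :: L2) = I.ST.gL L2 * I.n i := rfl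
    have hm1 : Measurable fun p : G × G => (I.n i)⁻¹ * p.1 * I.n i * p.2 := by fun_prop
    have hm2 : Measurable fun p : G × G => (I.ST.gL L2)⁻¹ * p.1 * I.ST.gL L2 * p.2 := by fun_prop
    have hm3 : Measurable fun p : G × G => (I.ST.gL (i :: L2))⁻¹ * p.1 * I.ST.gL (i :: L2) * p.2 := by fun_prop
    have e1 : (((I.ST.μL L1).prod (I.ST.μL L2)).map fun p => (I.ST.gL L2)⁻¹ * p.1 * I.ST.gL L2 * p.2).prod (I.ST.νi i) =
        (((I.ST.μL L1).prod (I.ST.μL L2)).prod (I.ST.νi i)).map
          (Prod.map (fun p => (I.ST.gL L2)⁻¹ * p.1 * I.ST.gL L2 * p.2) id) := by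
      rw [← Measure.map_prod_map _ _ hm2 measurable_id, Measure.map_id]
    have e2 : (I.ST.μL L1).prod (((I.ST.μL L2).prod (I.ST.νi i)).map fun p => (I.n i)⁻¹ * p.1 * I.n i * p.2) =
        ((I.ST.μL L1).prod ((I.ST.μL L2).prod (I.ST.νi i))).map
          (Prod.map id (fun p => (I.n i)⁻¹ * p.1 * I.n i * p.2)) := by
      rw [← Measure.map_prod_map _ _ measurable_id hm1, Measure.map_id]
    have e3 := Measure.prodAssoc_prod (μ := I.ST.μL L1) (ν := I.ST.μL L2) (τ := I.ST.νi i)
    rw [h1, ih, e1, h2, e2, ← e3, Measure.map_map hm1 (hm2.prodMap measurable_id),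
      Measure.map_map (measurable_id.prodMap hm1) MeasurableEquiv.prodAssoc.measurable,
      Measure.map_map hm3 ((measurable_id.prodMap hm1).comp MeasurableEquiv.prodAssoc.measurable)]
    congr 1
    funext p
    obtain ⟨⟨a, b⟩, c⟩ := p
    show (I.n i)⁻¹ * ((I.ST.gL L2)⁻¹ * a * I.ST.gL L2 * b) * I.n i * c =
      (I.ST.gL (i :: L2))⁻¹ * a * I.ST.gL (i :: L2) * ((I.n i)⁻¹ * b * I.n i * c)
    rw [hg]
    group

/-- **The chain of right Haar measures.** PROOF. Induction on `l` from the end. `l = []`: `U_w = {1}` (`brf_UV`), `dirac 1`. Step `l ++ [i]` (`brh_red_concat`): `V = U_(l i)`, `V1 = U_(l i) ⊓ U^i`, `V2 = U_i` (`brh_Ui_le`), `π(u) = x_i(c_i(u))`: every `v ∈ V` is `(v x_i(c)⁻¹) x_i(c)` (`brf_dec`), `V2` normalises `V1` (`brf_xc`).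
`RH V1 ((μ_l).map (n_i⁻¹ · n_i))` by `rh_conj` with `g = n_i⁻¹` and `brh_V1`, `RH V2 ν_i` (`bri_Ui`), `rh_prod`; the law of the product is `μ_(i :: l.reverse)` (`(l ++ [i]).reverse = i :: l.reverse`; `Measure.map_prod_map`, `Measure.map_map`). -/
theorem brk_RH {l : List J} (h : I.Red l) : RH (I.Uw l) (I.ST.μL l.reverse) := by
  induction l using List.reverseRecOn with
  | nil =>
    have hU : ∀ v, v ∈ I.Uw [] ↔ v = 1 := by
      intro v
      constructor
      · rintro ⟨h1, h2⟩
        have e : I.nl [] * v * (I.nl [])⁻¹ = v := by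
          show 1 * v * (1 : G)⁻¹ = v
          group
        rw [e] at h2
        exact brf_UV I h1 h2
      · rintro rfl
        exact Subgroup.one_mem _
    have h0 : I.ST.μL ([] : List J).reverse = Measure.dirac 1 := rfl
    rw [h0]
    refine ⟨?_, fun C _ => ?_, ?_, fun v hv => ?_⟩
    · have h1 := (ae_dirac_iff (a := (1 : G)) (p := fun x => x ∈ I.Uw []) (brf_Uw_closed I []).measurableSet).2
        (Subgroup.one_mem _)
      exact h1
    · exact measure_lt_top _ _
    · intro h1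
      have h2 := congrArg (fun m : Measure G => m Set.univ) h1
      simp at h2
    · rw [(hU v).1 hv]
      simp
  | append_singleton l i ih =>
    obtain ⟨hl, hi⟩ := brh_red_concat I h
    have h1 := ih hl
    have hcl := brf_Uw_closed I (l ++ [i])
    have := e3_sf I.ST l.reverse
    have : SFinite (I.νi i) := I.ST.sfi i
    have h2 : RH (I.Uw (l ++ [i]) ⊓ I.Uc i) ((I.ST.μL l.reverse).map fun x => (I.n i)⁻¹ * x * (I.n i)⁻¹⁻¹) := by
      refine rh_conj ((I.n i)⁻¹) (fun x => ?_) h1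
      rw [brh_V1 I hi x, inv_inv]
    have hsub : I.Uw (l ++ [i]) ≤ I.U := fun u hu => hu.1
    have hUi := brh_Ui_le I hi
    have h3 := rh_prod (V := I.Uw (l ++ [i])) (V1 := I.Uw (l ++ [i]) ⊓ I.Uc i) (V2 := I.Ui i)
      hcl inf_le_left hUi (fun v hv => by
        refine ⟨v * (I.x i (I.c i v))⁻¹, ⟨?_, brf_dec I i (hsub hv)⟩, I.x i (I.c i v), ⟨_, rfl⟩, by group⟩
        exact Subgroup.mul_mem _ hv (Subgroup.inv_mem _ (hUi ⟨_, rfl⟩)))
      (fun b hb a ha => by
        refine ⟨Subgroup.mul_mem _ (Subgroup.mul_mem _ (hUi hb) ha.1) (Subgroup.inv_mem _ (hUi hb)), ?_⟩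
        obtain ⟨t, rfl⟩ := hb
        exact brf_xc I i t ha.2)
      (π := fun u => I.x i (I.c i u)) ((brf_pi_cont I i).mono hsub)
      (fun a ha b hb => by
        obtain ⟨t, rfl⟩ := hb
        show I.x i (I.c i (a * I.x i t)) = I.x i t
        rw [I.c_mul i a ha.2.1 _ (I.x_U i t), I.c_x, ha.2.2, zero_add])
      h2 (bri_Ui I i)
    have hμ : I.ST.μL (l ++ [i]).reverse = ((I.ST.μL l.reverse).prod (I.νi i)).map
        fun p => (I.n i)⁻¹ * p.1 * I.n i * p.2 := by
      rw [List.reverse_append, List.reverse_singleton, List.singleton_append]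
      rfl
    have hm1 : Measurable fun x : G => (I.n i)⁻¹ * x * (I.n i)⁻¹⁻¹ := by fun_prop
    have e1 : ((I.ST.μL l.reverse).map fun x => (I.n i)⁻¹ * x * (I.n i)⁻¹⁻¹).prod (I.νi i) =
        ((I.ST.μL l.reverse).prod (I.νi i)).map (Prod.map (fun x => (I.n i)⁻¹ * x * (I.n i)⁻¹⁻¹) id) := by
      rw [← Measure.map_prod_map _ _ hm1 measurable_id, Measure.map_id]
    rw [e1, Measure.map_map (by fun_prop) (hm1.prodMap measurable_id)] at h3
    rw [hμ]
    have e2 : ((fun p : G × G => p.1 * p.2) ∘ Prod.map (fun x => (I.n i)⁻¹ * x * (I.n i)⁻¹⁻¹) id) =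
        fun p : G × G => (I.n i)⁻¹ * p.1 * I.n i * p.2 := by
      funext p
      show (I.n i)⁻¹ * p.1 * (I.n i)⁻¹⁻¹ * p.2 = _
      rw [inv_inv]
    rwa [e2] at h3

/-- PROOF. `zLr z l'.reverse i = par (zLr ..) e_i = par z (wl l' e_i)` (`brk_zLr`), positive by `brg_pos`-type arguments: a nonnegative vector (`pos_coroot`) paired with `z`. Induction from the end over the prefixes of `l`. General form: if for all `l₁ i l₂` with `l = l₁ ++ i :: l₂` one has `0 < par z (wl l₁ e_i)` then `PosL z l.reverse`. -/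
theorem brk_Pos (z : J → ℝ) (l : List J) (h : ∀ l₁ i l₂, l = l₁ ++ i :: l₂ → 0 < par z (wl I.A l₁ (Pi.single i 1))) : I.ST.PosL z l.reverse := by
  induction l using List.reverseRecOn with
  | nil => exact trivial
  | append_singleton l i ih =>
    rw [List.reverse_append, List.reverse_singleton, List.singleton_append]
    refine ⟨?_, ih fun l₁ j l₂ e => ?_⟩
    · rw [← brk_single (I.ST.zLr z l.reverse) i, brk_zLr]
      exact h l i [] rfl
    · exact h l₁ j (l₂ ++ [i]) (by rw [e]; simp)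

/-- PROOF. Elements of `U_l` commute with `ex Y` if `al_i Y = 0` for all letters of `l`. Induction from the end: `u ∈ U_(l i)`, `u = v x_i(c)`, `v ∈ U_(l i) ⊓ U^i`, `n_i v n_i⁻¹ ∈ U_l` (`brh_V1`) commutes with `ex Y`, `n_i` commutes with `ex Y` (`n_ex`, `sr Y = Y`) and `x_i(c)` commutes (`x_ex`, `e^0 = 1`). -/
theorem brk_comm {l : List J} (h : I.Red l) {Y : J → ℝ} (hY : ∀ i ∈ l, al I.A i Y = 0) {u : G} (hu : u ∈ I.Uw l) : I.ex Y * u * (I.ex Y)⁻¹ = u := by
  induction l using List.reverseRecOn generalizing u with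
  | nil =>
    obtain ⟨h1, h2⟩ := hu
    have e : I.nl [] * u * (I.nl [])⁻¹ = u := by
      show 1 * u * (1 : G)⁻¹ = u
      group
    rw [e] at h2
    rw [brf_UV I h1 h2]
    group
  | append_singleton l i ih =>
    obtain ⟨hl, hi⟩ := brh_red_concat I h
    have hY' : ∀ j ∈ l, al I.A j Y = 0 := fun j hj => hY j (by simp [hj])
    have hYi : al I.A i Y = 0 := hY i (by simp)
    have hUi := brh_Ui_le I hi
    have hv : u * (I.x i (I.c i u))⁻¹ ∈ I.Uw (l ++ [i]) ⊓ I.Uc i :=
      ⟨Subgroup.mul_mem _ hu (Subgroup.inv_mem _ (hUi ⟨_, rfl⟩)), brf_dec I i hu.1⟩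
    have h1 := ih hl hY' ((brh_V1 I hi _).1 hv)
    have h2 : I.n i * I.ex Y * (I.n i)⁻¹ = I.ex Y := by
      rw [I.n_ex]
      unfold sr
      rw [hYi, zero_smul, sub_zero]
    have h3 : I.ex Y * I.x i (I.c i u) * (I.ex Y)⁻¹ = I.x i (I.c i u) := by
      rw [I.x_ex, hYi, Real.exp_zero, one_smul]
    generalize hvv : u * (I.x i (I.c i u))⁻¹ = v at h1 hv
    have h4 : I.n i * I.ex Y = I.ex Y * I.n i := by
      have := congrArg (fun g => g * I.n i) h2
      simpa [mul_assoc] using this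
    have h5 : I.ex Y * v * (I.ex Y)⁻¹ = v := by
      have e : I.ex Y * (I.n i * v * (I.n i)⁻¹) * (I.ex Y)⁻¹ = I.n i * (I.ex Y * v * (I.ex Y)⁻¹) * (I.n i)⁻¹ := by
        calc I.ex Y * (I.n i * v * (I.n i)⁻¹) * (I.ex Y)⁻¹ = (I.ex Y * I.n i) * v * (I.ex Y * I.n i)⁻¹ := by group
          _ = (I.n i * I.ex Y) * v * (I.n i * I.ex Y)⁻¹ := by rw [h4]
          _ = I.n i * (I.ex Y * v * (I.ex Y)⁻¹) * (I.n i)⁻¹ := by group
      rw [e] at h1
      have := congrArg (fun g => (I.n i)⁻¹ * g * I.n i) h1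
      simpa [mul_assoc] using this
    have h6 : u = v * I.x i (I.c i u) := by
      rw [← hvv]
      group
    have e7 : I.ex Y * (v * I.x i (I.c i u)) * (I.ex Y)⁻¹ = (I.ex Y * v * (I.ex Y)⁻¹) * (I.ex Y * I.x i (I.c i u) * (I.ex Y)⁻¹) := by group
    calc I.ex Y * u * (I.ex Y)⁻¹ = I.ex Y * (v * I.x i (I.c i u)) * (I.ex Y)⁻¹ := by rw [← h6]
      _ = v * I.x i (I.c i u) := by rw [e7, h5, h3]
      _ = u := h6.symm

/-- PROOF. `n_i` commutes with `ex Y`. -/
theorem brk_commn {l : List J} {Y : J → ℝ} (hY : ∀ i ∈ l, al I.A i Y = 0) : I.ex Y * I.nl l * (I.ex Y)⁻¹ = I.nl l := by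
  induction l with
  | nil =>
    show I.ex Y * 1 * (I.ex Y)⁻¹ = 1
    group
  | cons i l ih =>
    have h1 := ih fun j hj => hY j (List.mem_cons_of_mem _ hj)
    have hYi : al I.A i Y = 0 := hY i List.mem_cons_self
    have h2 : I.n i * I.ex Y * (I.n i)⁻¹ = I.ex Y := by
      rw [I.n_ex]
      unfold sr
      rw [hYi, zero_smul, sub_zero]
    have h4 : I.n i * I.ex Y = I.ex Y * I.n i := by
      have := congrArg (fun g => g * I.n i) h2
      simpa [mul_assoc] using this
    have e : I.nl (i :: l) = I.n i * I.nl l := by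
      unfold IwD.nl
      rw [List.map_cons, List.prod_cons]
    rw [e]
    calc I.ex Y * (I.n i * I.nl l) * (I.ex Y)⁻¹ = (I.ex Y * I.n i) * I.nl l * (I.ex Y)⁻¹ := by group
      _ = (I.n i * I.ex Y) * I.nl l * (I.ex Y)⁻¹ := by rw [h4]
      _ = I.n i * (I.ex Y * I.nl l * (I.ex Y)⁻¹) := by group
      _ = I.n i * I.nl l := by rw [h1]

end

end Pool.Agent.Lib.L8
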