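import Pool.Agent.Lib.L8.BRK

/-!
# L8, version 2, bridge, BRL: the opposition data
-/

namespace Pool.Agent.Lib.L8

open MeasureTheory Filter
open scoped ENNReal Topology

noncomputable section

set_option linter.unusedSectionVars false
set_option linter.unusedVariables false

variable {J F G : Type} [Fintype J] [DecidableEq J] [RCLike F] [Group G] [TopologicalSpace G] [IsTopologicalGroup G] [SecondCountableTopology G] [LocallyCompactSpace G] [T2Space G] [MeasurableSpace G] [BorelSpace G] (I : Iw J F G)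

open Classical in
/-- The inversion. -/
def Iw.iot (i : J) (g : G) : G := if g ∈ I.U then I.x i (-(I.c i g)⁻¹) else 1

open Classical in
/-- The logarithm of the coordinate. -/
def Iw.ll (i : J) (g : G) : ℝ := if g ∈ I.U then Real.log ‖I.c i g‖ else 0

/-- The lower triangular part. -/
def Iw.yy (i : J) (g : G) : G := I.n i * I.iot i g * (I.n i)⁻¹

/-- The torus part. -/
def Iw.hh (i : J) (g : G) : G := (I.yy i g)⁻¹ * (g * I.n i) * (I.iot i g)⁻¹

/-- PROOF. `U_l = U` for a longest word (`Uw`, `Long`), `brk_RH`, `rh_uniq`. -/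
theorem brl_C0 {l : List J} (h : I.Long l) : ∃ c : ℝ≥0∞, c ≠ 0 ∧ c ≠ ∞ ∧ I.νU = c • I.ST.μL l.reverse := by
  have e : I.Uw l = I.U := by
    ext u
    exact ⟨fun hu => hu.1, fun hu => ⟨hu, h.2.1 u hu⟩⟩
  have h1 := brk_RH I h.1
  rw [e] at h1
  exact rh_uniq I.U_closed (brj_U I) h1

theorem brl_iot (i : J) (t : F) : I.iot i (I.x i t) = I.x i (-t⁻¹) := by
  unfold Iw.iot
  rw [if_pos (I.x_U i t), I.c_x]

theorem brl_ll (i : J) (t : F) : I.ll i (I.x i t) = Real.log ‖t‖ := by
  unfold Iw.ll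
  rw [if_pos (I.x_U i t), I.c_x]

/-- PROOF. `g = x_i(t)`, `t ≠ 0`: `rk_inv`: `iot = x_i(-t⁻¹)`, `hh = m ex(log ‖t‖ e_i)`. -/
theorem brl_hh (i : J) {t : F} (ht : t ≠ 0) : ∃ m ∈ I.M, I.hh i (I.x i t) = m * I.ex (Real.log ‖t‖ • Pi.single i 1) := by
  obtain ⟨m, hm, h⟩ := I.rk_inv i t ht
  refine ⟨m, hm, ?_⟩
  unfold Iw.hh Iw.yy
  rw [brl_iot, h]
  group

/-- PROOF. Almost every `g` is `x_i(t)` with `t ≠ 0` (`ae_map_iff` or `ae_of_ae_map`; `{0}` is a null set of `F`). `g n_i = y h ι` by the definition of `hh`. `h ∈ T`, `lg h = log ‖t‖ e_i` (`brl_hh`, `brf_HpT`). `ι ∈ U_i`. `y = n_i x_i(s) n_i⁻¹ ∈ V` (`n_x`), so `n0 y n0⁻¹ ∈ U` (`brh_V`). Conjugation by `y` preserves `ν_c`: it is the composition of the conjugations by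
`n_i⁻¹`, `x_i(-s)`, `n_i` (`bri_n`, `bri_x`; the conjugation by `n_i` preserves `ν_c` because its inverse does). Conjugation by `h`: `bri_one'`. -/
theorem brl_inv {l : List J} (h : I.Long l) (i : J) : ∀ᵐ x ∂I.νi i, x * I.n i = I.yy i x * I.hh i x * I.iot i x ∧ I.hh i x ∈ I.TT ∧
    I.Hp (I.hh i x) = (fun j => if j = i then I.ll i x else 0) ∧ I.iot i x ∈ I.Ui i ∧ I.nl l * I.yy i x * (I.nl l)⁻¹ ∈ I.U ∧
    (I.νc i).map (fun v => (I.yy i x)⁻¹ * v * I.yy i x) = I.νc i ∧ (I.νc i).map (fun v => (I.hh i x)⁻¹ * v * I.hh i x) = I.νc i := by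
  have hx := I.x_cont i
  have hmeas : MeasurableSet {g : G | g ∈ I.Ui i ∧ g ≠ 1} :=
    (brf_Ui_closed I i).measurableSet.inter (measurableSet_singleton (1 : G)).compl
  have hae : ∀ᵐ g ∂I.νi i, g ∈ I.Ui i ∧ g ≠ 1 := by
    refine (ae_map_iff hx.measurable.aemeasurable hmeas).2 ?_
    have h0 : ∀ᵐ t ∂(volume : Measure F), t ≠ 0 := by
      have h1 : (volume : Measure F) {(0 : F)} = 0 := measure_singleton 0
      exact compl_mem_ae_iff.2 h1
    filter_upwards [h0] with t ht
    refine ⟨⟨t, rfl⟩, fun h1 => ht ?_⟩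
    have h2 := I.c_x i t
    rw [h1, brf_c1] at h2
    exact h2.symm
  filter_upwards [hae] with g hg
  obtain ⟨⟨t, rfl⟩, hg1⟩ := hg
  have ht : t ≠ 0 := by
    rintro rfl
    exact hg1 (brf_x0 I i)
  obtain ⟨m, hm, hhh⟩ := brl_hh I i ht
  have hyy : I.yy i (I.x i t) = I.n i * I.x i (-t⁻¹) * (I.n i)⁻¹ := by
    unfold Iw.yy
    rw [brl_iot]
  refine ⟨?_, ?_, ?_, ?_, ?_, ?_, ?_⟩
  · unfold Iw.hh
    group
  · rw [hhh]
    exact ⟨m, hm, _, rfl⟩
  · rw [hhh, brf_HpT I hm, brl_ll]
    funext j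
    rw [Pi.smul_apply, Pi.single_apply]
    split_ifs <;> simp
  · rw [brl_iot]
    exact ⟨_, rfl⟩
  · rw [hyy]
    exact brh_V I h (I.n_x i _)
  · rw [hyy]
    have hc := (brj_c I i).1
    have h1 : ((I.νc i).map fun v => (I.n i * I.x i (-t⁻¹) * (I.n i)⁻¹)⁻¹ * v * (I.n i * I.x i (-t⁻¹) * (I.n i)⁻¹)) =
        (((I.νc i).map fun v => (I.n i)⁻¹ * v * (I.n i)⁻¹⁻¹).map fun v => (I.x i (- -t⁻¹)) * v * (I.x i (- -t⁻¹))⁻¹).map
          fun v => I.n i * v * (I.n i)⁻¹ := by
      rw [bri_comp, bri_comp, brf_xneg I i (-t⁻¹)]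
      congr 1
      funext v
      group
    rw [h1, ← bri_inv', bri_n I i hc, bri_x I i hc, bri_n2 I i hc]
  · rw [hhh]
    exact bri_one' I i (brj_c I i).1 hm _

/-- PROOF. `U` is closed, hence measurable; on `U` the function is continuous (`c_cont`) composed with the measurable function `t ↦ -t⁻¹`; `Measurable.ite`-type argument through the subtype (`measurable_of_restrict_of_restrict_compl`, `MeasurableEmbedding`). -/
theorem brl_im (i : J) : Measurable (I.iot i) := by
  refine measurable_of_restrict_of_restrict_compl I.U_closed.measurableSet ?_ ?_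
  · have h1 : (I.U : Set G).domRestrict (I.iot i) = fun u : (I.U : Set G) => I.x i (-(I.c i u)⁻¹) := by
      funext u
      show I.iot i u = _
      unfold Iw.iot
      exact if_pos u.2
    rw [h1]
    have h2 : Measurable fun u : (I.U : Set G) => I.c i u := (I.c_cont i).measurable
    exact (I.x_cont i).measurable.comp h2.inv.neg
  · have h1 : (I.U : Set G)ᶜ.domRestrict (I.iot i) = fun _ => 1 := by
      funext u
      show I.iot i u = _
      unfold Iw.iot
      exact if_neg u.2
    rw [h1]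
    exact measurable_const

theorem brl_lm (i : J) : Measurable (I.ll i) := by
  refine measurable_of_restrict_of_restrict_compl I.U_closed.measurableSet ?_ ?_
  · have h1 : (I.U : Set G).domRestrict (I.ll i) = fun u : (I.U : Set G) => Real.log ‖I.c i u‖ := by
      funext u
      show I.ll i u = _
      unfold Iw.ll
      exact if_pos u.2
    rw [h1]
    have h2 : Measurable fun u : (I.U : Set G) => I.c i u := (I.c_cont i).measurable
    exact Real.measurable_log.comp h2.norm
  · have h1 : (I.U : Set G)ᶜ.domRestrict (I.ll i) = fun _ => 0 := by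
      funext u
      show I.ll i u = _
      unfold Iw.ll
      exact if_neg u.2
    rw [h1]
    exact measurable_const

/-- PROOF. `νi = map x_i volume`; `iot(x_i(t)) = x_i(-t⁻¹)`, `ll(x_i(t)) = log ‖t‖` (`c_x`); `bre_inv` (`Measure.map_map`; `withDensity` of a `map`: `withDensity_map`-type lemma, or test with measurable sets: `lintegral_map`). -/
theorem brl_invm (i : J) : ((I.νi i).withDensity fun x => ENNReal.ofReal (Real.exp (-(2 * dF F * I.ll i x)))).map (I.iot i) = I.νi i := by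
  have hx := (I.x_cont i).measurable
  have hg : Measurable fun x => ENNReal.ofReal (Real.exp (-(2 * dF F * I.ll i x))) :=
    ((Real.measurable_exp.comp ((brl_lm I i).const_mul _).neg)).ennreal_ofReal
  have h1 : ((I.νi i).withDensity fun x => ENNReal.ofReal (Real.exp (-(2 * dF F * I.ll i x)))) =
      ((volume : Measure F).withDensity fun t => ENNReal.ofReal (Real.exp (-(2 * dF F * Real.log ‖t‖)))).map (I.x i) := by
    ext A hA
    rw [withDensity_apply _ hA, Measure.map_apply hx hA, withDensity_apply _ (hx hA)]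
    unfold Iw.νi
    rw [setLIntegral_map hA hg hx]
    refine lintegral_congr fun t => ?_
    rw [brl_ll]
  rw [h1, Measure.map_map (brl_im I i) hx]
  have h2 : I.iot i ∘ I.x i = I.x i ∘ fun t => -t⁻¹ := by
    funext t
    exact brl_iot I i t
  have h3 : Measurable fun t : F => -t⁻¹ := measurable_inv.neg
  rw [h2, ← Measure.map_map hx h3, bre_inv]
  rfl

/-- PROOF. `wl l (Hp t)`, `brf_cjl`. -/
theorem brl_cj0 (l : List J) {t : G} (ht : t ∈ I.TT) : I.nl l * t * (I.nl l)⁻¹ ∈ I.TT ∧ I.Hp (I.nl l * t * (I.nl l)⁻¹) = wl I.A l (I.Hp t) := by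
  obtain ⟨m, hm, y, rfl⟩ := ht
  obtain ⟨m', hm', h⟩ := brf_cjl I l hm y
  rw [h, brf_HpT I hm', brf_HpT I hm]
  exact ⟨⟨m', hm', _, rfl⟩, rfl⟩

/-- PROOF. `long_rho`, `par m v = d ∑ v_j`. -/
theorem brl_w0m {l : List J} (h : I.Long l) (v : J → ℝ) : par (fun _ => dF F) (wl I.A l v) = -par (fun _ => dF F) v := by
  unfold par
  rw [← Finset.mul_sum, ← Finset.mul_sum, I.long_rho l h, mul_neg]

/-- PROOF. `brk_zLr`: every word `L` is `l.reverse`; if `par (zLr z L) v = par z v'` for all `z` then `v' = wl l v` (test with `z = e_j`); `brg_fin`. -/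
theorem brl_fin (v : J → ℝ) : {v' : J → ℝ | ∃ L, ∀ z : J → ℝ, par (I.ST.zLr z L) v = par z v'}.Finite := by
  refine (brg_fin I v).subset ?_
  rintro v' ⟨L, hL⟩
  refine ⟨L.reverse, ?_⟩
  funext j
  have h1 := hL (Pi.single j 1)
  have h2 := brk_zLr I (Pi.single j 1) L.reverse v
  rw [List.reverse_reverse] at h2
  rw [h2] at h1
  have h3 : ∀ w : J → ℝ, par (Pi.single j 1) w = w j := by
    intro w
    unfold par
    rw [Finset.sum_eq_single j]
    · simp
    · intro k _ hk
      rw [Pi.single_apply, if_neg hk, zero_mul]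
    · intro h
      exact absurd (Finset.mem_univ _) h
  rw [h3, h3] at h1
  exact h1.symm

/-- **The opposition data of a longest word.** -/
def Iw.OP (l : List J) (h : I.Long l) : OppD I.ST where
  L0 := l.reverse
  C0 := Classical.choose (brl_C0 I h)
  w0 := wl I.A l
  ex := I.ex
  y := I.yy
  h := I.hh
  ι := I.iot
  l := I.ll
  C0_ne := (Classical.choose_spec (brl_C0 I h)).1
  C0_top := (Classical.choose_spec (brl_C0 I h)).2.1
  meas := (Classical.choose_spec (brl_C0 I h)).2.2
  pos := fun z hz => brk_Pos I z l fun l₁ i l₂ e => brg_pos I (h.1 l₁ i l₂ e) hz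
  w0_m := fun v => brl_w0m I h v
  w0_neg := fun v hv j => brh_neg I h hv j
  w0_sub := fun v v' => by
    have e : v - v' = v + (-1 : ℝ) • v' := by
      funext j
      simp [sub_eq_add_neg]
    rw [e, brg_wl_add, brg_wl_smul]
    funext j
    simp [sub_eq_add_neg]
  w0_smul := fun c v => brg_wl_smul I.A l c v
  cj0 := fun t ht => by
    rw [brk_gL]
    exact brl_cj0 I l ht
  w0_surj := fun v => brg_wl_surj I l v
  w0_z := fun z v => (brk_zLr I z l v).symm
  ex_mem := fun v => ⟨1, I.M.one_mem, v, (one_mul _).symm⟩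
  ex_lg := fun v => by
    have := brf_HpT I I.M.one_mem v
    rwa [one_mul] at this
  ex_add := I.ex_add
  exn := fun v => by
    rw [brk_gL]
    exact brf_exl I l v
  inv := fun i => by
    rw [brk_gL]
    exact brl_inv I h i
  ιm := fun i => brl_im I i
  lm := fun i => brl_lm I i
  invm := fun i => brl_invm I i
  gen := I.gen
  low := fun u hu j => by
    rw [brk_gL]
    exact brh_low I h hu j
  mono := fun v hv u hu j => by
    rw [brk_gL]
    exact I.norm_mono l h v hv u hu j
  kos := fun v hv k hk j => (I.kostant l h v hv k hk j).1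
  fin := fun v => brl_fin I v
  dom := brg_dom I
  dom_nonneg := I.dom_nonneg

end

end Pool.Agent.Lib.L8
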