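import Pool.Agent.Lib.L8.BRL

/-!
# L8, version 2, bridge, BRM: the parabolic data
-/

namespace Pool.Agent.Lib.L8

open MeasureTheory Filter
open scoped ENNReal Topology

noncomputable section

set_option linter.unusedSectionVars false
set_option linter.unusedVariables false

variable {J F G : Type} [Fintype J] [DecidableEq J] [RCLike F] [Group G] [TopologicalSpace G] [IsTopologicalGroup G] [SecondCountableTopology G] [LocallyCompactSpace G] [T2Space G] [MeasurableSpace G] [BorelSpace G] (I : Iw J F G)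

variable {lw lM : List J} {Z Z' : J → ℝ}

/-- PROOF. `brl_C0` (the constant is `Classical.choose (brl_C0 I h)`), `(lw ++ lM).reverse = lM.reverse ++ lw.reverse`, `brk_chain` with `L2 = lM.reverse`, `brk_gL`; `((c • μ.map f).prod ν).map (x y) = c • ((μ.prod ν).map (f x y))`: `Measure.map_prod_map`, `Measure.map_map`, `Measure.prod_smul_left`, `Measure.map_smul`. -/
theorem brm_prod (h : I.Long (lw ++ lM)) : I.νU = (((Classical.choose (brl_C0 I h)) • (I.ST.μL lw.reverse).map fun u => (I.nl lM)⁻¹ * u * I.nl lM).prod (I.ST.μL lM.reverse)).map fun p => p.1 * p.2 := by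
  have h1 := (Classical.choose_spec (brl_C0 I h)).2.2
  have hsf1 : SFinite (I.ST.μL lw.reverse) := e3_sf I.ST _
  have hsf2 : SFinite (I.ST.μL lM.reverse) := e3_sf I.ST _
  have hf : Measurable fun u : G => (I.nl lM)⁻¹ * u * I.nl lM := by fun_prop
  have hm : Measurable fun p : G × G => p.1 * p.2 := by fun_prop
  rw [Measure.prod_smul_left, Measure.map_smul]
  conv_lhs => rw [h1]
  refine congrArg (fun μ : Measure G => Classical.choose (brl_C0 I h) • μ) ?_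
  rw [List.reverse_append, brk_chain, brk_gL]
  have h2 := Measure.map_prod_map (f := fun u : G => (I.nl lM)⁻¹ * u * I.nl lM) (g := id)
    (I.ST.μL lw.reverse) (I.ST.μL lM.reverse) hf measurable_id
  rw [Measure.map_id] at h2
  rw [h2, Measure.map_map hm (hf.prodMap measurable_id)]
  rfl

/-- PROOF. `brk_Pos`; for `lw = l₁ ++ i :: l₂`: `wl l₁ e_i ≥ 0` (`pos_coroot`, `Pos l₁ i` from the reduced word `lw ++ lM`), and for some `k`: `al_k Z > 0`, `(wl l₁ e_i)_k > 0`, `z_k > 0`. -/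
theorem brm_pos (h : I.Red (lw ++ lM)) (hp : ∀ l₁ i l₂, lw = l₁ ++ i :: l₂ → ∃ k, 0 < al I.A k Z ∧ 0 < wl I.A l₁ (Pi.single i 1) k) (z : J → ℝ) (h0 : ∀ j, 0 ≤ z j) (h1 : ∀ j, al I.A j Z ≠ 0 → 0 < z j) :
    I.ST.PosL z lw.reverse := by
  refine brk_Pos I z lw ?_
  intro l₁ i l₂ e
  have hP : I.Pos l₁ i := h l₁ i (l₂ ++ lM) (by rw [e, List.append_assoc, List.cons_append])
  obtain ⟨hc, -⟩ := I.pos_coroot l₁ i hP
  obtain ⟨k, hk, hk'⟩ := hp l₁ i l₂ e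
  unfold par
  exact Finset.sum_pos' (fun j _ => mul_nonneg (h0 j) (hc j)) ⟨k, Finset.mem_univ k, mul_pos (h1 k hk.ne') hk'⟩

/-- **`H(n_w m) = w H(m)`.** PROOF. Almost every `u` is in `U_(lM)` (`brk_RH`). `m = n_M u` commutes with `ex Z'` (`brk_comm`, `brk_commn`), so does `st m` (`st_mul`, `st_ex`). `m = u' ex(y) k` (`dec`), `y = Hp m`, `m (st m) = u' ex(y) k st(k) ex(y) st(u') = u' ex(y + y) st(u')` (`st_K`: `k st k = 1`; `st_ex`, `ex_add`). Conjugate by `ex Z'`: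
`m (st m) = (ex Z' u' ex(-Z')) ex(y + y) (ex Z' st(u') ex(-Z'))`, both with first factor in `U` and last factor in `V` (`st_U`, `ex_U`, `ex_V`), so by `uav`: `ex Z' u' ex(-Z') = u'`, hence `n_w u' n_w⁻¹ ∈ U` (`hc`), and `Hp(n_w m) = Hp((n_w u' n_w⁻¹) (n_w ex(y) n_w⁻¹) n_w k) = wl lw y` (`Hp_U`, `brf_exl`, `Hp_ex`, `Hp_K`, `brf_Hp1`).
Then `pa z (wl lw y) = pa (zL z lw.reverse) y` (`brk_zL`). -/
theorem brm_hpM (hM : I.Red lM) (h0 : ∀ i ∈ lM, al I.A i Z' = 0) (hc : ∀ u ∈ I.U, I.ex Z' * u * (I.ex Z')⁻¹ = u → I.nl lw * u * (I.nl lw)⁻¹ ∈ I.U) :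
    ∀ᵐ u ∂I.ST.μL lM.reverse, ∀ z : J → ℂ, pa z (I.Hp (I.nl lw * (I.nl lM * u))) = pa (I.ST.zL z lw.reverse) (I.Hp (I.nl lM * u)) := by
  filter_upwards [(brk_RH I hM).ae] with u hu z
  have e1 : I.ex Z' * u * (I.ex Z')⁻¹ = u := brk_comm I hM h0 hu
  have e2 : I.ex Z' * I.nl lM * (I.ex Z')⁻¹ = I.nl lM := brk_commn I h0
  have e1' : I.ex Z' * u = u * I.ex Z' := mul_inv_eq_iff_eq_mul.1 e1
  have e2' : I.ex Z' * I.nl lM = I.nl lM * I.ex Z' := mul_inv_eq_iff_eq_mul.1 e2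
  obtain ⟨m, hm⟩ : ∃ m, m = I.nl lM * u := ⟨_, rfl⟩
  have e3 : I.ex Z' * m = m * I.ex Z' := by
    rw [hm, ← mul_assoc, e2', mul_assoc, e1', mul_assoc]
  have e4 : I.ex Z' * I.st m = I.st m * I.ex Z' := by
    have h1 := congrArg I.st e3
    rw [I.st_mul, I.st_mul, I.st_ex] at h1
    exact h1.symm
  obtain ⟨u', hu', k, hk, hdec⟩ := I.dec m
  obtain ⟨y, hy⟩ : ∃ y, y = I.Hp m := ⟨_, rfl⟩
  rw [← hy] at hdec
  have e5 : m * I.st m = u' * I.ex (y + y) * I.st u' := by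
    conv_lhs => rw [hdec]
    rw [I.st_mul, I.st_mul, I.st_ex, (I.st_K k).1 hk, I.ex_add]
    group
  have e6 : I.ex Z' * (m * I.st m) * (I.ex Z')⁻¹ = m * I.st m := by
    rw [mul_inv_eq_iff_eq_mul, ← mul_assoc, e3, mul_assoc, e4, mul_assoc]
  have e7 : I.ex Z' * I.ex (y + y) * (I.ex Z')⁻¹ = I.ex (y + y) := by
    rw [mul_inv_eq_iff_eq_mul, ← I.ex_add, ← I.ex_add, add_comm]
  have e8 : (I.ex Z' * u' * (I.ex Z')⁻¹) * I.ex (y + y) * (I.ex Z' * I.st u' * (I.ex Z')⁻¹) = u' * I.ex (y + y) * I.st u' := by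
    rw [← e5, ← e6, e5]
    conv_lhs => rw [← e7]
    group
  have e9 := (I.uav _ (I.ex_U Z' u' hu') u' hu' _ _ _ (I.ex_V Z' _ (I.st_U u' hu')) _ (I.st_U u' hu') e8).1
  have e10 := hc u' hu' e9
  have e11 : I.Hp (I.nl lw * m) = wl I.A lw y := by
    have h1 : I.nl lw * m = (I.nl lw * u' * (I.nl lw)⁻¹) * (I.ex (wl I.A lw y) * (1 * (I.nl lw * k))) := by
      rw [hdec, ← brf_exl I lw y]
      group
    rw [h1, I.Hp_U _ e10, I.Hp_ex, I.Hp_K _ (I.K.mul_mem (brf_nlK I lw) hk), brf_Hp1, add_zero]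
  rw [← hm, e11, ← hy]
  exact (brk_zL I z lw y).symm

/-- PROOF. Almost every `p.1` is `n_M⁻¹ u n_M` with `u ∈ U_(lw)` (`brk_RH`, `Red lw`), almost every `p.2 ∈ U_(lM)`. `ex(t Z')` commutes with `n_M` and `p.2` (`brk_comm`, `brk_commn` for `Y = t Z'`): `ex(t Z') p.1 p.2 ex(t Z')⁻¹ = n_M⁻¹ (ex(t Z') u ex(t Z')⁻¹) n_M p.2 → n_M⁻¹ 1 n_M p.2 = p.2` (`hc`); `Hp` is continuous.
(Almost everywhere for the product: `Measure.ae_prod_mem_iff_ae_ae_mem`, or the preimages of the sets of full measure under `Prod.fst`, `Prod.snd`: `Measure.quasiMeasurePreserving_fst.ae`.) -/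
theorem brm_lim (hw : I.Red lw) (hM : I.Red lM) (h0 : ∀ i ∈ lM, al I.A i Z' = 0)
    (hc : ∀ u ∈ I.U, I.nl lw * u * (I.nl lw)⁻¹ ∈ I.V → Tendsto (fun t : ℝ => I.ex (t • Z') * u * (I.ex (t • Z'))⁻¹) atTop (𝓝 1)) (c : ℝ≥0∞) (g : G) :
    ∀ᵐ p ∂((c • (I.ST.μL lw.reverse).map fun u => (I.nl lM)⁻¹ * u * I.nl lM).prod (I.ST.μL lM.reverse)),
      Tendsto (fun t : ℝ => I.Hp (g * (I.ex (t • Z') * (p.1 * p.2) * (I.ex (t • Z'))⁻¹))) atTop (𝓝 (I.Hp (g * p.2))) := by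
  have hsf1 : SFinite (I.ST.μL lw.reverse) := e3_sf I.ST _
  have hsf2 : SFinite (I.ST.μL lM.reverse) := e3_sf I.ST _
  have hf : Measurable fun u : G => (I.nl lM)⁻¹ * u * I.nl lM := by fun_prop
  have hS : MeasurableSet {x : G | I.nl lM * x * (I.nl lM)⁻¹ ∈ I.Uw lw} := by
    refine IsClosed.measurableSet ?_
    exact (brf_Uw_closed I lw).preimage (by fun_prop : Continuous fun x : G => I.nl lM * x * (I.nl lM)⁻¹)
  have h1 : ∀ᵐ x ∂(c • (I.ST.μL lw.reverse).map fun u => (I.nl lM)⁻¹ * u * I.nl lM), I.nl lM * x * (I.nl lM)⁻¹ ∈ I.Uw lw := by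
    refine Measure.ae_smul_measure ?_ c
    rw [ae_map_iff hf.aemeasurable hS]
    filter_upwards [(brk_RH I hw).ae] with u hu
    have e : I.nl lM * ((I.nl lM)⁻¹ * u * I.nl lM) * (I.nl lM)⁻¹ = u := by group
    rw [e]
    exact hu
  filter_upwards [Measure.quasiMeasurePreserving_fst.ae h1, Measure.quasiMeasurePreserving_snd.ae (brk_RH I hM).ae] with p hp1 hp2
  obtain ⟨u, hu⟩ : ∃ u, u = I.nl lM * p.1 * (I.nl lM)⁻¹ := ⟨_, rfl⟩
  rw [← hu] at hp1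
  have hY : ∀ t : ℝ, ∀ i ∈ lM, al I.A i (t • Z') = 0 := by
    intro t i hi
    have h2 : al I.A i (t • Z') = t * al I.A i Z' := by
      unfold al
      rw [Finset.mul_sum]
      refine Finset.sum_congr rfl fun k _ => ?_
      rw [Pi.smul_apply, smul_eq_mul]
      ring
    rw [h2, h0 i hi, mul_zero]
  have key : ∀ t : ℝ, I.ex (t • Z') * (p.1 * p.2) * (I.ex (t • Z'))⁻¹ =
      (I.nl lM)⁻¹ * (I.ex (t • Z') * u * (I.ex (t • Z'))⁻¹) * I.nl lM * p.2 := by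
    intro t
    have e1 := brk_comm I hM (hY t) hp2
    have e2 := brk_commn I (hY t)
    have e3 : p.1 = (I.nl lM)⁻¹ * u * I.nl lM := by
      rw [hu]
      group
    have e4 : (I.nl lM)⁻¹ = I.ex (t • Z') * (I.nl lM)⁻¹ * (I.ex (t • Z'))⁻¹ := by
      conv_lhs => rw [← e2]
      group
    calc I.ex (t • Z') * (p.1 * p.2) * (I.ex (t • Z'))⁻¹
        = (I.ex (t • Z') * (I.nl lM)⁻¹ * (I.ex (t • Z'))⁻¹) * (I.ex (t • Z') * u * (I.ex (t • Z'))⁻¹) *
          (I.ex (t • Z') * I.nl lM * (I.ex (t • Z'))⁻¹) * (I.ex (t • Z') * p.2 * (I.ex (t • Z'))⁻¹) := by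
          rw [e3]
          group
      _ = _ := by rw [← e4, e1, e2]
  have hlim := hc u hp1.1 hp1.2
  have hcont : Continuous fun x : G => I.Hp (g * ((I.nl lM)⁻¹ * x * I.nl lM * p.2)) :=
    I.Hp_cont.comp (by fun_prop)
  have h3 := (hcont.tendsto 1).comp hlim
  have e5 : g * ((I.nl lM)⁻¹ * 1 * I.nl lM * p.2) = g * p.2 := by group
  rw [e5] at h3
  refine h3.congr fun t => ?_
  show I.Hp (g * ((I.nl lM)⁻¹ * (I.ex (t • Z') * u * (I.ex (t • Z'))⁻¹) * I.nl lM * p.2)) = _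
  rw [key t]

end

end Pool.Agent.Lib.L8
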