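import Pool.Agent.Lib.L8.E1D

/-!
# L8, version 2, E1G: powers
-/

namespace Pool.Agent.Lib.L8

open MeasureTheory Filter
open scoped ENNReal Topology

noncomputable section

set_option linter.unusedSectionVars false
set_option linter.unusedVariables false

variable {G J : Type} [Group G] [TopologicalSpace G] [IsTopologicalGroup G] [SecondCountableTopology G] [MeasurableSpace G] [BorelSpace G] [Fintype J] [DecidableEq J] {D : AnD G J}


/-- Cauchy-Schwarz with a weight. -/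
theorem e1g_cs (f w : G → ℝ) (hf : Continuous f) (hw : Continuous w) (hw0 : ∀ x, 0 < w x) (hf0 : ∀ x, 0 ≤ f x) :
    (∫ x, f x ∂D.κ) ^ 2 ≤ (∫ x, f x ^ 2 / w x ∂D.κ) * ∫ x, w x ∂D.κ := by
  have hq : Continuous fun x => f x ^ 2 / w x := (hf.pow 2).div hw fun x => (hw0 x).ne'
  have hfi : Integrable f D.κ := e1_intr f hf
  have hwi : Integrable w D.κ := e1_intr w hw
  have hqi : Integrable (fun x => f x ^ 2 / w x) D.κ := e1_intr _ hq
  have hA0 : 0 ≤ ∫ x, f x ^ 2 / w x ∂D.κ := integral_nonneg fun x => div_nonneg (sq_nonneg _) (hw0 x).le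
  have hI0 : 0 ≤ ∫ x, f x ∂D.κ := integral_nonneg hf0
  have hW0 : 0 < ∫ x, w x ∂D.κ := by
    rw [integral_pos_iff_support_of_nonneg (fun x => (hw0 x).le) hwi]
    have h1 : Function.support w = Set.univ := by
      ext x
      simp only [Function.mem_support, Set.mem_univ, iff_true]
      exact (hw0 x).ne'
    rw [h1, measure_univ]
    exact one_pos
  have key : ∀ t : ℝ, 0 < t → 2 * ∫ x, f x ∂D.κ ≤ t * (∫ x, f x ^ 2 / w x ∂D.κ) + t⁻¹ * ∫ x, w x ∂D.κ := by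
    intro t ht
    have h1 : ∀ x, 2 * f x ≤ t * (f x ^ 2 / w x) + t⁻¹ * w x := by
      intro x
      have h5 := hw0 x
      have h6 := hf0 x
      have h8 : (t * (f x ^ 2 / w x)) * (t⁻¹ * w x) = f x ^ 2 := by field_simp
      have h9 : 0 ≤ t * (f x ^ 2 / w x) := mul_nonneg ht.le (div_nonneg (sq_nonneg _) h5.le)
      have h10 : 0 < t⁻¹ * w x := mul_pos (inv_pos.2 ht) h5
      nlinarith [sq_nonneg (t * (f x ^ 2 / w x) - t⁻¹ * w x)]
    have h11 : ∫ x, 2 * f x ∂D.κ ≤ ∫ x, (t * (f x ^ 2 / w x) + t⁻¹ * w x) ∂D.κ :=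
      integral_mono (hfi.const_mul 2) ((hqi.const_mul t).add (hwi.const_mul t⁻¹)) h1
    rw [integral_const_mul, integral_add (hqi.const_mul t) (hwi.const_mul t⁻¹), integral_const_mul, integral_const_mul] at h11
    exact h11
  rcases hI0.eq_or_lt with hI | hI
  · rw [← hI]
    have := mul_nonneg hA0 hW0.le
    nlinarith
  · have h12 := key ((∫ x, w x ∂D.κ) / ∫ x, f x ∂D.κ) (div_pos hW0 hI)
    have h13 : ((∫ x, w x ∂D.κ) / ∫ x, f x ∂D.κ)⁻¹ * ∫ x, w x ∂D.κ = ∫ x, f x ∂D.κ := by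
      rw [inv_div]
      exact div_mul_cancel₀ _ hW0.ne'
    rw [h13] at h12
    generalize (∫ x, w x ∂D.κ) = W at *
    generalize (∫ x, f x ∂D.κ) = I at *
    generalize (∫ x, f x ^ 2 / w x ∂D.κ) = A at *
    have h14 : I ≤ W / I * A := by linarith
    have h15 : I * I ≤ I * (W / I * A) := mul_le_mul_of_nonneg_left h14 hI.le
    have h16 : I * (W / I * A) = A * W := by field_simp
    rw [pow_two]
    linarith

/-- **Powers.** If `∑ |Φ_l(y)|² a_l ≤ B Ξ(y)²` for all `y` with `H(k y) ≥ m H0` (all `k ∈ K`) then the same holds for `|Φ_l(g0)|^(2m)`, `H(k g0) ≥ H0`.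
PROOF. Induction on `i`: for `i ≤ n` and all `y` with `H(k y)_j ≥ (n - i) H0_j` (`k ∈ K`): `∑ |Φ_l(g0)|^(2i) |Φ_l(y)|² a_l ≤ B Ξ(g0)^(2i) Ξ(y)²`. `i = 0`: hypothesis. Step: `Φ_l(g0) Φ_l(y) = ∫ Φ_l(g0 k y) dk` (`e1_mul`), so by Cauchy-Schwarz with the weight
`Ξ(g0 k y)`: `|Φ_l(g0)|² |Φ_l(y)|² ≤ ∫ |Φ_l(g0 k y)|² / Ξ(g0 k y) dk * ∫ Ξ(g0 k y) dk`, the last factor is `Ξ(g0) Ξ(y)` (`e1_mulr` with `z = 0`). Sum over `l`: the hypothesis of the induction at `g0 k y` gives `∑ |Φ_l(g0)|^(2i) |Φ_l(g0 k y)|² a_l / Ξ(g0 k y) ≤ B Ξ(g0)^(2i) Ξ(g0 k y)`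
for `k ∈ K`, because `H(k' g0 k y) = H(k' g0) + H(k'' y)`, `k'' ∈ K` (`k' g0 = u t k1`, `H(k' g0 k y) = lg t + H(k1 k y)`, `lg t = H(k' g0)`) so the condition holds with `n - i`. Integrate. At the end `i = n`, `y = 1` (`Ξ(1) = 1`, `Φ_l(1) = 1`; for `y = 1` the condition is `0 ≥ 0`). -/
theorem e1_pow [LocallyCompactSpace G] {r : ℕ} (z : Fin r → J → ℂ) (a : Fin r → ℝ) (ha : ∀ l, 0 ≤ a l) {B : ℝ} (hB : 0 ≤ B) (H0 : J → ℝ) (n : ℕ)
    (h : ∀ y, (∀ k ∈ D.K, ∀ j, n * H0 j ≤ D.Hp (k * y) j) → ∑ l, ‖D.Ph (z l) y‖ ^ 2 * a l ≤ B * D.Xi y ^ 2)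
    {g0 : G} (hg : ∀ k ∈ D.K, ∀ j, H0 j ≤ D.Hp (k * g0) j) : ∑ l, ‖D.Ph (z l) g0‖ ^ (2 * n) * a l ≤ B * D.Xi g0 ^ (2 * n) := by
  have key : ∀ i : ℕ, i ≤ n → ∀ y, (∀ k ∈ D.K, ∀ j, ((n : ℝ) - i) * H0 j ≤ D.Hp (k * y) j) →
      ∑ l, ‖D.Ph (z l) g0‖ ^ (2 * i) * (‖D.Ph (z l) y‖ ^ 2 * a l) ≤ B * (D.Xi g0 ^ (2 * i) * D.Xi y ^ 2) := by
    intro i
    induction i with
    | zero =>
      intro _ y hy
      have h1 := h y fun k hk j => by
        have := hy k hk j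
        rwa [Nat.cast_zero, sub_zero] at this
      simpa using h1
    | succ i ih =>
      intro hi y hy
      have hX0 : 0 < D.Xi g0 := e1_Pr_pos 0 g0
      have hXy : 0 < D.Xi y := e1_Pr_pos 0 y
      have hcy : Continuous fun k : G => g0 * k * y := (continuous_const.mul continuous_id).mul continuous_const
      have hw : Continuous fun k : G => D.Xi (g0 * k * y) := (e1_Pr_cont (D := D) 0).comp hcy
      have hw0 : ∀ k : G, 0 < D.Xi (g0 * k * y) := fun k => e1_Pr_pos 0 _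
      have hf : ∀ l, Continuous fun k : G => ‖D.Ph (z l) (g0 * k * y)‖ := fun l => ((e1_Ph_cont (D := D) (z l)).comp hcy).norm
      have hW : ∫ k, D.Xi (g0 * k * y) ∂D.κ = D.Xi g0 * D.Xi y := e1_mulr 0 g0 y
      have h1 : ∀ l, ‖D.Ph (z l) g0‖ ^ 2 * ‖D.Ph (z l) y‖ ^ 2 ≤ (∫ k, ‖D.Ph (z l) (g0 * k * y)‖ ^ 2 / D.Xi (g0 * k * y) ∂D.κ) * (D.Xi g0 * D.Xi y) := by
        intro l
        have h2 := e1g_cs (D := D) (fun k => ‖D.Ph (z l) (g0 * k * y)‖) (fun k => D.Xi (g0 * k * y)) (hf l) hw hw0 fun k => norm_nonneg _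
        rw [hW] at h2
        refine le_trans ?_ h2
        rw [← mul_pow, ← norm_mul, ← e1_mul (z l) g0 y]
        exact pow_le_pow_left₀ (norm_nonneg _) (norm_integral_le_integral_norm _) 2
      have hqi : ∀ l, Integrable (fun k => ‖D.Ph (z l) (g0 * k * y)‖ ^ 2 / D.Xi (g0 * k * y)) D.κ := fun l =>
        e1_intr _ (((hf l).pow 2).div hw fun k => (hw0 k).ne')
      have h3 : ∀ k ∈ D.K, ∑ l, (‖D.Ph (z l) g0‖ ^ (2 * i) * a l) * (‖D.Ph (z l) (g0 * k * y)‖ ^ 2 / D.Xi (g0 * k * y)) ≤ B * D.Xi g0 ^ (2 * i) * D.Xi (g0 * k * y) := by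
        intro k hk
        have h4 := ih (by omega) (g0 * k * y) fun k' hk' j => by
          obtain ⟨u, hu, t, ht, k1, hk1, e⟩ := D.iw (k' * g0)
          have e1 : D.Hp (k' * g0) = D.lg t := by
            rw [e, mul_assoc, D.hpU u hu, D.hpT t ht, e1_Hp_K hk1, add_zero]
          have e2 : D.Hp (k' * (g0 * k * y)) = D.lg t + D.Hp (k1 * k * y) := by
            have e3 : k' * (g0 * k * y) = u * (t * (k1 * k * y)) := by
              calc k' * (g0 * k * y) = (k' * g0) * (k * y) := by simp only [mul_assoc]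
                _ = u * (t * (k1 * k * y)) := by rw [e]; simp only [mul_assoc]
            rw [e3, D.hpU u hu, D.hpT t ht]
          have h5 := hg k' hk' j
          have h6 := hy (k1 * k) (mul_mem hk1 hk) j
          rw [e2, Pi.add_apply, ← e1]
          push_cast at h6
          nlinarith
        have h7 : ∑ l, (‖D.Ph (z l) g0‖ ^ (2 * i) * a l) * (‖D.Ph (z l) (g0 * k * y)‖ ^ 2 / D.Xi (g0 * k * y)) =
            (∑ l, ‖D.Ph (z l) g0‖ ^ (2 * i) * (‖D.Ph (z l) (g0 * k * y)‖ ^ 2 * a l)) / D.Xi (g0 * k * y) := by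
          rw [Finset.sum_div]
          refine Finset.sum_congr rfl fun l _ => ?_
          ring
        rw [h7, div_le_iff₀ (hw0 k)]
        refine h4.trans (le_of_eq ?_)
        ring
      have h8 : ∑ l, (‖D.Ph (z l) g0‖ ^ (2 * i) * a l) * (∫ k, ‖D.Ph (z l) (g0 * k * y)‖ ^ 2 / D.Xi (g0 * k * y) ∂D.κ) ≤ B * D.Xi g0 ^ (2 * i) * (D.Xi g0 * D.Xi y) := by
        have h9 : ∑ l, (‖D.Ph (z l) g0‖ ^ (2 * i) * a l) * (∫ k, ‖D.Ph (z l) (g0 * k * y)‖ ^ 2 / D.Xi (g0 * k * y) ∂D.κ) =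
            ∫ k, ∑ l, (‖D.Ph (z l) g0‖ ^ (2 * i) * a l) * (‖D.Ph (z l) (g0 * k * y)‖ ^ 2 / D.Xi (g0 * k * y)) ∂D.κ := by
          rw [integral_finsetSum _ fun l _ => (hqi l).const_mul _]
          refine Finset.sum_congr rfl fun l _ => ?_
          rw [integral_const_mul]
        rw [h9, ← hW, ← integral_const_mul]
        refine integral_mono_ae (integrable_finsetSum _ fun l _ => (hqi l).const_mul _) ((e1_intr _ hw).const_mul _) ?_
        filter_upwards [D.aeK] with k hk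
        exact h3 k hk
      calc ∑ l, ‖D.Ph (z l) g0‖ ^ (2 * (i + 1)) * (‖D.Ph (z l) y‖ ^ 2 * a l)
          = ∑ l, (‖D.Ph (z l) g0‖ ^ (2 * i) * a l) * (‖D.Ph (z l) g0‖ ^ 2 * ‖D.Ph (z l) y‖ ^ 2) := by
            refine Finset.sum_congr rfl fun l _ => ?_
            ring
        _ ≤ ∑ l, (‖D.Ph (z l) g0‖ ^ (2 * i) * a l) * ((∫ k, ‖D.Ph (z l) (g0 * k * y)‖ ^ 2 / D.Xi (g0 * k * y) ∂D.κ) * (D.Xi g0 * D.Xi y)) := by
            refine Finset.sum_le_sum fun l _ => mul_le_mul_of_nonneg_left (h1 l) ?_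
            exact mul_nonneg (pow_nonneg (norm_nonneg _) _) (ha l)
        _ = (∑ l, (‖D.Ph (z l) g0‖ ^ (2 * i) * a l) * (∫ k, ‖D.Ph (z l) (g0 * k * y)‖ ^ 2 / D.Xi (g0 * k * y) ∂D.κ)) * (D.Xi g0 * D.Xi y) := by
            rw [Finset.sum_mul]
            refine Finset.sum_congr rfl fun l _ => ?_
            ring
        _ ≤ (B * D.Xi g0 ^ (2 * i) * (D.Xi g0 * D.Xi y)) * (D.Xi g0 * D.Xi y) := mul_le_mul_of_nonneg_right h8 (mul_pos hX0 hXy).le
        _ = B * (D.Xi g0 ^ (2 * (i + 1)) * D.Xi y ^ 2) := by ring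
  have hone : ∀ w : J → ℂ, D.Ph w 1 = 1 := by
    intro w
    unfold AnD.Ph
    have h2 : ∫ k, D.hs w (k * 1) ∂D.κ = ∫ k, (1 : ℂ) ∂D.κ := by
      refine integral_congr_ae ?_
      filter_upwards [D.aeK] with k hk
      rw [mul_one, e1_hs_one w hk]
    rw [h2, integral_const]
    simp
  have hX1 : D.Xi 1 = 1 := by
    have h3 := e1_Ph_of (D := D) 0 1
    rw [hone] at h3
    exact Complex.ofReal_injective h3.symm
  have h4 := key n le_rfl 1 fun k hk j => by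
    rw [sub_self, zero_mul, mul_one, e1_Hp_K hk]
    rfl
  rw [hX1, one_pow, mul_one] at h4
  refine le_trans (le_of_eq ?_) h4
  refine Finset.sum_congr rfl fun l _ => ?_
  rw [hone, norm_one, one_pow, one_mul]

end

end Pool.Agent.Lib.L8
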