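import Pool.Agent.Lib.L8.E2A

/-!
# L8, version 2, E6B: linear algebra: dominant representatives
-/

namespace Pool.Agent.Lib.L8

open MeasureTheory Filter
open scoped ENNReal Topology

noncomputable section

set_option linter.unusedSectionVars false
set_option linter.unusedVariables false

variable {G J : Type} [Group G] [TopologicalSpace G] [IsTopologicalGroup G] [SecondCountableTopology G] [MeasurableSpace G] [BorelSpace G] [Fintype J] [DecidableEq J] {D : AnD G J}


variable {S : Steps D}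

theorem e6b_single (z : J → ℝ) (j : J) : par z (Pi.single j 1) = z j := by
  unfold par
  rw [Finset.sum_eq_single j]
  · rw [Pi.single_eq_same, mul_one]
  · intro k _ hk
    rw [Pi.single_eq_of_ne hk, mul_zero]
  · intro h
    exact absurd (Finset.mem_univ j) h

theorem e6b_sub (z : J → ℝ) (v : J → ℝ) (c : ℝ) (i : J) : par z (v - c • Pi.single i 1) = par z v - z i * c := by
  have h1 : v - c • Pi.single i (1:ℝ) = v + (-c) • Pi.single i (1:ℝ) := by
    rw [neg_smul, sub_eq_add_neg]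
  rw [h1, e1_par_add, e1_par_smul, e6b_single]
  ring

/-- The transposed action. PROOF. Induction on `L` for all `v`: `par (rdr i z') v = par z' (v - al_i(v) e_i)`. -/
theorem e6_tr (S : Steps D) (L : List J) : ∀ v : J → ℝ, ∃ v' : J → ℝ, ∀ z : J → ℝ, par (S.zLr z L) v = par z v' := by
  induction L with
  | nil => exact fun v => ⟨v, fun z => rfl⟩
  | cons i L ih =>
    intro v
    obtain ⟨v', hv'⟩ := ih (v - S.al i v • Pi.single i 1)
    refine ⟨v', fun z => ?_⟩
    show par (S.rdr i (S.zLr z L)) v = _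
    rw [e2_par_rdr, ← hv', e6b_sub]

theorem e6b_fin (O : OppD S) (σ : J → ℝ) : (Set.range fun L => S.zLr σ L).Finite := by
  have h1 : ∀ j : J, {r : ℝ | ∃ L, r = S.zLr σ L j}.Finite := by
    intro j
    refine ((O.fin (Pi.single j 1)).image (fun v' => par σ v')).subset ?_
    rintro r ⟨L, rfl⟩
    obtain ⟨v', hv'⟩ := e6_tr S L (Pi.single j 1)
    refine ⟨v', ⟨L, hv'⟩, ?_⟩
    show par σ v' = _
    rw [← hv', e6b_single]
  refine (Set.Finite.pi' (t := fun j => {r : ℝ | ∃ L, r = S.zLr σ L j}) h1).subset ?_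
  rintro _ ⟨L, rfl⟩ j
  exact ⟨L, rfl⟩

/-- **Dominant representatives.** PROOF. The set of the values `par (zLr σ L) v` (`L` a word) is finite for every `v` (`e6_tr`, `O.fin`: image of a finite set). Let `v0` be strictly dominant (`O.dom`). Choose `L` with maximal `par (zLr σ L) Λ` and, among these, with maximal `par (zLr σ L) v0`. If `(zLr σ L)_i < 0` then `i :: L` has
the value `par (zLr σ L) Λ - (zLr σ L)_i al_i Λ ≥ ...` (`e2_par_rdr`), so it is also maximal at `Λ`, and its value at `v0` is strictly larger: contradiction. -/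
theorem e6_max (O : OppD S) {Λ : J → ℝ} (hΛ : ∀ i, 0 ≤ S.al i Λ) (σ : J → ℝ) :
    ∃ L, (∀ j, 0 ≤ S.zLr σ L j) ∧ ∀ L', par (S.zLr σ L') Λ ≤ par (S.zLr σ L) Λ := by
  obtain ⟨v0, hv0⟩ := O.dom
  have hF := e6b_fin O σ
  obtain ⟨w1, hw1, hmax1⟩ := Set.exists_max_image _ (fun w => par w Λ) hF ⟨_, ⟨[], rfl⟩⟩
  have hF2 : {w | w ∈ (Set.range fun L => S.zLr σ L) ∧ par w Λ = par w1 Λ}.Finite := hF.subset fun w hw => hw.1
  obtain ⟨w, ⟨hw, hwΛ⟩, hmax2⟩ := Set.exists_max_image _ (fun w => par w v0) hF2 ⟨w1, hw1, rfl⟩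
  obtain ⟨L, rfl⟩ := hw
  refine ⟨L, fun j => ?_, fun L' => ?_⟩
  · by_contra hneg
    push Not at hneg
    have h2 : S.zLr σ (j :: L) ∈ (Set.range fun L => S.zLr σ L) := ⟨_, rfl⟩
    have h3 : par (S.zLr σ (j :: L)) Λ = par (S.zLr σ L) Λ - S.zLr σ L j * S.al j Λ := e2_par_rdr S j (S.zLr σ L) Λ
    have h4 : par (S.zLr σ (j :: L)) v0 = par (S.zLr σ L) v0 - S.zLr σ L j * S.al j v0 := e2_par_rdr S j (S.zLr σ L) v0
    have h5 := hmax1 _ h2
    have h6 : S.zLr σ L j * S.al j Λ ≤ 0 := mul_nonpos_of_nonpos_of_nonneg hneg.le (hΛ j)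
    have h7 : S.zLr σ L j * S.al j v0 < 0 := mul_neg_of_neg_of_pos hneg (hv0 j)
    beta_reduce at h5 hwΛ
    have h8 : par (S.zLr σ (j :: L)) Λ = par w1 Λ := by linarith
    have h9 := hmax2 _ ⟨h2, h8⟩
    beta_reduce at h9
    linarith
  · have h5 := hmax1 _ (⟨L', rfl⟩ : S.zLr σ L' ∈ (Set.range fun L => S.zLr σ L))
    beta_reduce at h5 hwΛ
    linarith

theorem e6b_smul (S : Steps D) (c : ℂ) (z : J → ℂ) (L : List J) : S.zL (c • z) L = c • S.zL z L := by
  induction L with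
  | nil => rfl
  | cons i L ih =>
    show S.rd i (S.zL (c • z) L) = c • S.rd i (S.zL z L)
    rw [ih]
    funext j
    unfold Steps.rd
    simp only [Pi.smul_apply, smul_eq_mul]
    ring

theorem e6b_real (O : OppD S) (T : ℝ) : ∃ M : ℝ, 0 ≤ M ∧ ∀ z : J → ℝ, (∀ j, |z j| ≤ T) → ∀ L j, |S.zLr z L j| ≤ M := by
  refine ⟨∑ j : J, ∑ v' ∈ (O.fin (Pi.single j 1)).toFinset, |T| * ∑ k, |v' k|, by positivity, fun z hz L j => ?_⟩
  obtain ⟨v', hv'⟩ := e6_tr S L (Pi.single j 1)
  have h1 : v' ∈ (O.fin (Pi.single j 1)).toFinset := by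
    rw [Set.Finite.mem_toFinset]
    exact ⟨L, hv'⟩
  have h2 : S.zLr z L j = par z v' := by rw [← hv', e6b_single]
  rw [h2]
  have h3 : |par z v'| ≤ |T| * ∑ k, |v' k| := by
    unfold par
    refine (Finset.abs_sum_le_sum_abs _ _).trans ?_
    rw [Finset.mul_sum]
    refine Finset.sum_le_sum fun k _ => ?_
    rw [abs_mul]
    exact mul_le_mul_of_nonneg_right ((hz k).trans (le_abs_self _)) (abs_nonneg _)
  refine h3.trans ?_
  have h4 : |T| * ∑ k, |v' k| ≤ ∑ v' ∈ (O.fin (Pi.single j 1)).toFinset, |T| * ∑ k, |v' k| :=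
    Finset.single_le_sum (f := fun v' : J → ℝ => |T| * ∑ k, |v' k|) (fun _ _ => by positivity) h1
  refine h4.trans ?_
  exact Finset.single_le_sum (f := fun j : J => ∑ v' ∈ (O.fin (Pi.single j 1)).toFinset, |T| * ∑ k, |v' k|)
    (fun _ _ => by positivity) (Finset.mem_univ j)

/-- PROOF. `(zLr z L)_j = par (zLr z L) e_j = par z v'` with `v'` in the finite set `O.fin` at `e_j`; so for a complex `z`: the real part and the imaginary part of `zL z L` are `zLr` of the real part and of the imaginary part of `z` (induction), and `|par z v'| ≤ T ∑ |v'_k|`. -/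
theorem e6_bdd (O : OppD S) (T : ℝ) : ∃ M : ℝ, 0 ≤ M ∧ ∀ z : J → ℂ, (∀ j, ‖z j‖ ≤ T) → ∀ L j, ‖S.zL z L j‖ ≤ M := by
  obtain ⟨M, hM, h⟩ := e6b_real O T
  refine ⟨M + M, by positivity, fun z hz L j => ?_⟩
  have h1 : |(S.zL z L j).re| ≤ M := by
    have e : (S.zL z L j).re = S.zLr (zre z) L j := by
      rw [← e2_zre_zL]
      rfl
    rw [e]
    exact h _ (fun k => (Complex.abs_re_le_norm _).trans (hz k)) L j
  have h2 : |(S.zL z L j).im| ≤ M := by
    have e : (S.zL z L j).im = S.zLr (zre ((-Complex.I) • z)) L j := by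
      rw [← e2_zre_zL, e6b_smul]
      show _ = ((-Complex.I) * S.zL z L j).re
      simp
    rw [e]
    refine h _ (fun k => ?_) L j
    show |((-Complex.I) * z k).re| ≤ T
    refine (Complex.abs_re_le_norm _).trans ?_
    rw [norm_mul, norm_neg, Complex.norm_I, one_mul]
    exact hz k
  exact (Complex.norm_le_abs_re_add_abs_im _).trans (add_le_add h1 h2)

end

end Pool.Agent.Lib.L8
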