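import Pool.Agent.Lib.L8.E7B
import Pool.Agent.Lib.L8.E6B
import Pool.Agent.Lib.L8.E1G

/-!
# L8, version 2, E7C: the final theorem of the analysis
-/

namespace Pool.Agent.Lib.L8

open MeasureTheory Filter
open scoped ENNReal Topology

noncomputable section

set_option linter.unusedSectionVars false
set_option linter.unusedVariables false

variable {G J : Type} [Group G] [TopologicalSpace G] [IsTopologicalGroup G] [SecondCountableTopology G] [MeasurableSpace G] [BorelSpace G] [Fintype J] [DecidableEq J] {D : AnD G J}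


variable {S : Steps D}

/-- **From the geometric bound to the density.** PROOF. `M` from `e6_bdd` (`O` from `hO` at `Z = 0`); `s` from `e7_fin` with `ε / 2` and `T := M`; `P = ∑ M Λ_j` (`Λ_j ≥ 0`: `O.dom_nonneg`), so `0 ≤ par (Re z') Λ ≤ P` for `Re z' ≥ 0`, `‖z'‖ ≤ M`; `C = ∑_(p ∈ s) exp(2 p.1 P)` (`+ 1`). Given the data: for every `l` choose `L_l` by `e6_max` for `σ = Re (z l)`,
`z'_l = zL (z l) L_l` (`e2_zre_zL`), `p_l ∈ s` by `e7_fin`, `q_l = par (Re z'_l) Λ`; `Φ_(z'_l) = Φ_(z_l)` (`e2_invL`). For `p ∈ s` let `n = ⌊R / p.1⌋₊`: `n p.1 ≤ R < (n + 1) p.1`. `w0 Λ ≤ 0` (`O.w0_neg`), so `n p.1 w0(Λ)_j ≥ R w0(Λ)_j`, and `e1_pow` with `H0 = p.1 w0 Λ`, `g0 = p.2` gives `∑ ‖Φ_(z_l)(g0)‖^(2 n) a_l ≤ B Ξ(g0)^(2 n)`. For the `l` with `p_l = p`: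
`exp(2 n p.1 (q_l - ε / 2)) Ξ(g0)^(2 n) ≤ ‖Φ_(z_l)(g0)‖^(2 n)`, `Ξ(g0) > 0` (`e1_Pr_pos`). So `∑_(l : p_l = p) exp(2 n p.1 (q_l - ε / 2)) a_l ≤ B`. Finally `2 R (q_l - ε) ≤ 2 n p.1 (q_l - ε / 2) + 2 p.1 P` because `R - n p.1 ≤ p.1`, `n p.1 ≤ R`, `0 ≤ q_l ≤ P`, and `par (Re (zL (z l) (L l))) Λ ≤ q_l` by `e6_max`. Sum over `p ∈ s` (`Finset.sum_fiberwise_of_maps_to` or bound
every `l` by the sum over `p`). -/
theorem e7_main [LocallyCompactSpace G] (S : Steps D) (w0 : (J → ℝ) → J → ℝ) (hO : ∀ Z : J → ℝ, (∀ i, 0 ≤ S.al i Z) → ∃ O : OppD S, O.w0 = w0 ∧ Nonempty (ParD O Z))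
    {Λ : J → ℝ} (hΛ : ∀ i, 0 ≤ S.al i Λ) {ε : ℝ} (hε : 0 < ε) (T : ℝ) :
    ∃ C : ℝ, 0 < C ∧ ∀ R : ℝ, 0 ≤ R → ∀ (r : ℕ) (z : Fin r → J → ℂ) (a : Fin r → ℝ), (∀ l, 0 ≤ a l) → (∀ l j, ‖z l j‖ ≤ T) → ∀ B : ℝ, 0 ≤ B →
      (∀ y, (∀ k ∈ D.K, ∀ j, R * w0 Λ j ≤ D.Hp (k * y) j) → ∑ l, ‖D.Ph (z l) y‖ ^ 2 * a l ≤ B * D.Xi y ^ 2) →
      ∀ L : Fin r → List J, ∑ l, Real.exp (2 * (R * (par (zre (S.zL (z l) (L l))) Λ - ε))) * a l ≤ C * B := by
  classical
  have h00 : ∀ i, 0 ≤ S.al i (0 : J → ℝ) := by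
    intro i
    unfold Steps.al
    simp
  obtain ⟨O, hOw, -⟩ := hO 0 h00
  obtain ⟨M, hM0, hM⟩ := e6_bdd O T
  obtain ⟨s, hs1, hs2⟩ := e7_fin S w0 hO hΛ (half_pos hε) M
  have hΛ0 : ∀ j, 0 ≤ Λ j := O.dom_nonneg Λ hΛ
  have hw0 : ∀ j, w0 Λ j ≤ 0 := by
    intro j
    rw [← hOw]
    exact O.w0_neg Λ hΛ0 j
  obtain ⟨P, hPd⟩ : ∃ P : ℝ, P = ∑ j, M * Λ j := ⟨_, rfl⟩
  have hsum0 : 0 ≤ ∑ p ∈ s, Real.exp (2 * (p.1 * P)) := Finset.sum_nonneg fun p _ => (Real.exp_pos _).le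
  refine ⟨∑ p ∈ s, Real.exp (2 * (p.1 * P)) + 1, by linarith, ?_⟩
  intro R hR r z a ha hz B hB h L
  have hmax : ∀ l, ∃ L', (∀ j, 0 ≤ S.zLr (zre (z l)) L' j) ∧ ∀ L'', par (S.zLr (zre (z l)) L'') Λ ≤ par (S.zLr (zre (z l)) L') Λ := fun l => e6_max O hΛ _
  choose L' hL1 hL2 using hmax
  have hz' : ∀ l j, ‖S.zL (z l) (L' l) j‖ ≤ M := fun l j => hM (z l) (hz l) (L' l) j
  have hre : ∀ l j, 0 ≤ (S.zL (z l) (L' l) j).re := by
    intro l j
    have h1 := hL1 l j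
    rw [← e2_zre_zL] at h1
    exact h1
  have hp : ∀ l, ∃ p ∈ s, D.Xi p.2 * Real.exp (p.1 * (par (zre (S.zL (z l) (L' l))) Λ - ε / 2)) ≤ ‖D.Ph (S.zL (z l) (L' l)) p.2‖ :=
    fun l => hs2 _ (hz' l) (hre l)
  choose p hps hp2 using hp
  obtain ⟨q, hqd⟩ : ∃ q : Fin r → ℝ, ∀ l, q l = par (zre (S.zL (z l) (L' l))) Λ := ⟨_, fun _ => rfl⟩
  have hq0 : ∀ l, 0 ≤ q l := by
    intro l
    rw [hqd]
    exact Finset.sum_nonneg fun j _ => mul_nonneg (hre l j) (hΛ0 j)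
  have hqP : ∀ l, q l ≤ P := by
    intro l
    rw [hqd, hPd]
    exact Finset.sum_le_sum fun j _ => mul_le_mul_of_nonneg_right ((Complex.re_le_norm _).trans (hz' l j)) (hΛ0 j)
  have hfib : ∀ p0 ∈ s, ∑ l with p l = p0, Real.exp (2 * (R * (par (zre (S.zL (z l) (L l))) Λ - ε))) * a l ≤ Real.exp (2 * (p0.1 * P)) * B := by
    intro p0 hp0
    obtain ⟨hp01, hp02⟩ := hs1 p0 hp0
    obtain ⟨n, hn⟩ : ∃ n : ℕ, n = ⌊R / p0.1⌋₊ := ⟨_, rfl⟩
    have hn1 : (n : ℝ) * p0.1 ≤ R := by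
      have h1 : (n : ℝ) ≤ R / p0.1 := by
        rw [hn]
        exact Nat.floor_le (div_nonneg hR hp01.le)
      rwa [le_div_iff₀ hp01] at h1
    have hn2 : R ≤ ((n : ℝ) + 1) * p0.1 := by
      have h1 : R / p0.1 < n + 1 := by
        rw [hn]
        exact Nat.lt_floor_add_one _
      rw [div_lt_iff₀ hp01] at h1
      exact h1.le
    have h2 := e1_pow (D := D) z a ha hB (fun j => p0.1 * w0 Λ j) n (fun y hy => h y fun k hk j => by
      refine le_trans ?_ (hy k hk j)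
      have := hw0 j
      nlinarith) (g0 := p0.2) hp02
    have hX : 0 < D.Xi p0.2 := e1_Pr_pos 0 p0.2
    have h3 : ∀ l, p l = p0 → D.Xi p0.2 ^ (2 * n) * Real.exp (2 * (n * p0.1 * (q l - ε / 2))) ≤ ‖D.Ph (z l) p0.2‖ ^ (2 * n) := by
      intro l hl
      have h4 := hp2 l
      rw [hl, e2_invL, ← hqd] at h4
      have h5 := pow_le_pow_left₀ (mul_pos hX (Real.exp_pos _)).le h4 (2 * n)
      rw [mul_pow, ← Real.exp_nat_mul] at h5
      refine le_trans (le_of_eq ?_) h5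
      congr 2
      push_cast
      ring
    have h6 : ∑ l with p l = p0, Real.exp (2 * (n * p0.1 * (q l - ε / 2))) * a l ≤ B := by
      have h7 : D.Xi p0.2 ^ (2 * n) * ∑ l with p l = p0, Real.exp (2 * (n * p0.1 * (q l - ε / 2))) * a l ≤ D.Xi p0.2 ^ (2 * n) * B := by
        calc D.Xi p0.2 ^ (2 * n) * ∑ l with p l = p0, Real.exp (2 * (n * p0.1 * (q l - ε / 2))) * a l
            = ∑ l with p l = p0, (D.Xi p0.2 ^ (2 * n) * Real.exp (2 * (n * p0.1 * (q l - ε / 2)))) * a l := by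
              rw [Finset.mul_sum]
              exact Finset.sum_congr rfl fun l _ => by ring
          _ ≤ ∑ l with p l = p0, ‖D.Ph (z l) p0.2‖ ^ (2 * n) * a l := by
              refine Finset.sum_le_sum fun l hl => mul_le_mul_of_nonneg_right (h3 l ?_) (ha l)
              exact (Finset.mem_filter.1 hl).2
          _ ≤ ∑ l, ‖D.Ph (z l) p0.2‖ ^ (2 * n) * a l := by
              refine Finset.sum_le_sum_of_subset_of_nonneg (Finset.filter_subset _ _) fun l _ _ => ?_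
              exact mul_nonneg (pow_nonneg (norm_nonneg _) _) (ha l)
          _ ≤ D.Xi p0.2 ^ (2 * n) * B := by
              exact h2.trans (le_of_eq (mul_comm _ _))
      exact le_of_mul_le_mul_left h7 (pow_pos hX _)
    calc ∑ l with p l = p0, Real.exp (2 * (R * (par (zre (S.zL (z l) (L l))) Λ - ε))) * a l
        ≤ ∑ l with p l = p0, Real.exp (2 * (p0.1 * P)) * (Real.exp (2 * (n * p0.1 * (q l - ε / 2))) * a l) := by
          refine Finset.sum_le_sum fun l _ => ?_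
          have e7 : Real.exp (2 * (p0.1 * P)) * (Real.exp (2 * (n * p0.1 * (q l - ε / 2))) * a l) = Real.exp (2 * (p0.1 * P) + 2 * (n * p0.1 * (q l - ε / 2))) * a l := by
            rw [Real.exp_add]
            ring
          rw [e7]
          refine mul_le_mul_of_nonneg_right (Real.exp_le_exp.2 ?_) (ha l)
          have h8 : par (zre (S.zL (z l) (L l))) Λ ≤ q l := by
            rw [hqd, e2_zre_zL, e2_zre_zL]
            exact hL2 l (L l)
          have h9 := hq0 l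
          have h10 := hqP l
          have h11 : R * (par (zre (S.zL (z l) (L l))) Λ - ε) ≤ R * (q l - ε) := mul_le_mul_of_nonneg_left (by linarith) hR
          have h12 : (R - n * p0.1) * q l ≤ p0.1 * P := by
            have h13 : R - n * p0.1 ≤ p0.1 := by linarith
            have h14 : 0 ≤ R - n * p0.1 := by linarith
            exact mul_le_mul h13 h10 h9 hp01.le
          have h15 : (n : ℝ) * p0.1 * ε ≤ R * ε := mul_le_mul_of_nonneg_right hn1 hε.le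
          have h16 : 0 ≤ R * ε := mul_nonneg hR hε.le
          nlinarith
      _ = Real.exp (2 * (p0.1 * P)) * ∑ l with p l = p0, Real.exp (2 * (n * p0.1 * (q l - ε / 2))) * a l := by rw [Finset.mul_sum]
      _ ≤ Real.exp (2 * (p0.1 * P)) * B := mul_le_mul_of_nonneg_left h6 (Real.exp_pos _).le
  calc ∑ l, Real.exp (2 * (R * (par (zre (S.zL (z l) (L l))) Λ - ε))) * a l
      = ∑ p0 ∈ s, ∑ l with p l = p0, Real.exp (2 * (R * (par (zre (S.zL (z l) (L l))) Λ - ε))) * a l :=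
        (Finset.sum_fiberwise_of_maps_to (fun l _ => hps l) _).symm
    _ ≤ ∑ p0 ∈ s, Real.exp (2 * (p0.1 * P)) * B := Finset.sum_le_sum hfib
    _ = (∑ p0 ∈ s, Real.exp (2 * (p0.1 * P))) * B := by rw [Finset.sum_mul]
    _ ≤ (∑ p ∈ s, Real.exp (2 * (p.1 * P)) + 1) * B := mul_le_mul_of_nonneg_right (by linarith) hB

end

end Pool.Agent.Lib.L8
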