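import Pool.Agent.Lib.L8.BRM
import Pool.Agent.Lib.L8.E7C

/-!
# L8, version 2, bridge, BRN: the final statement of the bridge
-/

namespace Pool.Agent.Lib.L8

open MeasureTheory Filter
open scoped ENNReal Topology

noncomputable section

set_option linter.unusedSectionVars false
set_option linter.unusedVariables false

variable {J F G : Type} [Fintype J] [DecidableEq J] [RCLike F] [Group G] [TopologicalSpace G] [IsTopologicalGroup G] [SecondCountableTopology G] [LocallyCompactSpace G] [T2Space G] [MeasurableSpace G] [BorelSpace G] (I : Iw J F G)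

/-- **The parabolic data of a dominant vector.** -/
theorem brn_par {Z : J → ℝ} (hZ : ∀ i, 0 ≤ al I.A i Z) : ∃ l, ∃ h : I.Long l, Nonempty (ParD (I.OP l h) Z) := by
  obtain ⟨lw, lM, Z', hL, hM, hwZ, hanti, h0, hp, hc1, hc2, hc3⟩ := I.words Z hZ
  refine ⟨lw ++ lM, hL, ⟨{
    Z' := Z'
    L := lw.reverse
    nM := I.nl lM
    νP := (Classical.choose (brl_C0 I hL)) • (I.ST.μL lw.reverse).map (fun u => (I.nl lM)⁻¹ * u * I.nl lM)
    νM := I.ST.μL lM.reverse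
    CP := Classical.choose (brl_C0 I hL)
    sfP := inferInstance
    sfM := inferInstance
    CP_ne := (Classical.choose_spec (brl_C0 I hL)).1
    CP_top := (Classical.choose_spec (brl_C0 I hL)).2.1
    w0Z := hwZ
    nM_mem := brf_nlK I lM
    n0 := ?_
    prod := brm_prod I hL
    measP := rfl
    pos := fun z h0 h1 => brm_pos I hL.1 hp z h0 h1
    hpM := ?_
    anti := hanti
    lim := ?_ }⟩⟩
  · show I.ST.gL (lw ++ lM).reverse = I.ST.gL lw.reverse * I.nl lM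
    rw [brk_gL, brk_gL, brh_nl_append]
  · rw [brk_gL]
    exact brm_hpM I hM h0 fun u hu e => (hc1 u hu e).1
  · exact brm_lim I (brh_red_left I hL.1) hM h0 hc3 _ _

/-- **The bridge.** -/
theorem brn_main {l0 : List J} (h : I.Long l0) : ∀ Z : J → ℝ, (∀ i, 0 ≤ I.ST.al i Z) → ∃ O : OppD I.ST, O.w0 = wl I.A l0 ∧ Nonempty (ParD O Z) := by
  intro Z hZ
  obtain ⟨l, hl, hP⟩ := brn_par I hZ
  exact ⟨I.OP l hl, funext fun v => brg_long I hl h v, hP⟩

/-- **The density theorem for the structure `Iw`.** -/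
theorem brn_density {l0 : List J} (h : I.Long l0) {Λ : J → ℝ} (hΛ : ∀ i, 0 ≤ al I.A i Λ) {ε : ℝ} (hε : 0 < ε) (T : ℝ) :
    ∃ C : ℝ, 0 < C ∧ ∀ R : ℝ, 0 ≤ R → ∀ (r : ℕ) (z : Fin r → J → ℂ) (a : Fin r → ℝ), (∀ l, 0 ≤ a l) → (∀ l j, ‖z l j‖ ≤ T) → ∀ B : ℝ, 0 ≤ B →
      (∀ y, (∀ k ∈ I.K, ∀ j, R * wl I.A l0 Λ j ≤ I.Hp (k * y) j) → ∑ l, ‖I.AD.Ph (z l) y‖ ^ 2 * a l ≤ B * I.AD.Xi y ^ 2) →
      ∀ L : Fin r → List J, ∑ l, Real.exp (2 * (R * (par (zre (I.ST.zL (z l) (L l))) Λ - ε))) * a l ≤ C * B :=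
  e7_main I.ST (wl I.A l0) (brn_main I h) hΛ hε T

end

end Pool.Agent.Lib.L8
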