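import Mathlib

/-!
# L8: common definitions (helper43)
-/

namespace Pool.Agent.Lib.L8

open MeasureTheory
open scoped ENNReal

noncomputable section

variable {G : Type} [Group G] [MeasurableSpace G]

/-- The convolution `f * τ` with the complex measure `w τ`: `x ↦ ∫ f (x y) w(y) dτ(y)`. -/
def Cv (τ : Measure G) (w : G → ℂ) (f : G → ℂ) (x : G) : ℂ := ∫ y, f (x * y) * w y ∂τ

/-- `Λ` bounds the operator norm of `f ↦ f * τ` on `L²(G, μ)`. -/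
def OpB (μ τ : Measure G) (w : G → ℂ) (Λ : ℝ) : Prop :=
  ∀ f : G → ℂ, Measurable f → ∫⁻ x, ‖f x‖ₑ ^ 2 ∂μ ≠ ⊤ → ∫⁻ x, ‖Cv τ w f x‖ₑ ^ 2 ∂μ ≤ ENNReal.ofReal (Λ ^ 2) * ∫⁻ x, ‖f x‖ₑ ^ 2 ∂μ

end

end Pool.Agent.Lib.L8
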