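import Pool.Agent.Lib.L8.E0

/-!
# L8, version 2, E1A: elementary properties of `h_z`
-/

namespace Pool.Agent.Lib.L8

open MeasureTheory Filter
open scoped ENNReal Topology

noncomputable section

set_option linter.unusedSectionVars false
set_option linter.unusedVariables false

variable {G J : Type} [Group G] [TopologicalSpace G] [IsTopologicalGroup G] [SecondCountableTopology G] [MeasurableSpace G] [BorelSpace G] [Fintype J] [DecidableEq J] {D : AnD G J}


/-- PROOF. Unfold (`Finset.mul_sum`, `Finset.sum_add_distrib`). -/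
theorem e1_pa_add (z : J → ℂ) (v w : J → ℝ) : pa z (v + w) = pa z v + pa z w := by
  unfold pa
  rw [← Finset.sum_add_distrib]
  refine Finset.sum_congr rfl fun j _ => ?_
  rw [Pi.add_apply, Complex.ofReal_add, mul_add]

theorem e1_par_add (z : J → ℝ) (v w : J → ℝ) : par z (v + w) = par z v + par z w := by
  unfold par
  rw [← Finset.sum_add_distrib]
  refine Finset.sum_congr rfl fun j _ => ?_
  rw [Pi.add_apply, mul_add]

theorem e1_par_smul (z : J → ℝ) (c : ℝ) (v : J → ℝ) : par z (c • v) = c * par z v := by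
  unfold par
  rw [Finset.mul_sum]
  refine Finset.sum_congr rfl fun j _ => ?_
  rw [Pi.smul_apply, smul_eq_mul]
  ring

theorem e1_pa_re (z : J → ℂ) (v : J → ℝ) : (pa z v).re = par (zre z) v := by
  unfold pa par zre
  rw [Complex.re_sum]
  refine Finset.sum_congr rfl fun j _ => ?_
  rw [Complex.re_mul_ofReal]

theorem e1_pa_of (z : J → ℝ) (v : J → ℝ) : pa (zof z) v = (par z v : ℂ) := by
  unfold pa par zof
  rw [Complex.ofReal_sum]
  refine Finset.sum_congr rfl fun j _ => ?_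
  rw [Complex.ofReal_mul]

theorem e1_pa_neg (z : J → ℂ) (v : J → ℝ) : pa (-z) v = -pa z v := by
  unfold pa
  rw [← Finset.sum_neg_distrib]
  refine Finset.sum_congr rfl fun j _ => ?_
  rw [Pi.neg_apply, neg_mul]

theorem e1_pa_cont (z : J → ℂ) : Continuous fun v : J → ℝ => pa z v := by
  unfold pa
  exact continuous_finset_sum _ fun j _ => continuous_const.mul (Complex.continuous_ofReal.comp (continuous_apply j))

theorem e1_par_cont (z : J → ℝ) : Continuous fun v : J → ℝ => par z v := by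
  unfold par
  exact continuous_finset_sum _ fun j _ => continuous_const.mul (continuous_apply j)

/-- PROOF. `D.cont`. -/
theorem e1_hs_cont (z : J → ℂ) : Continuous (D.hs z) := by
  unfold AnD.hs
  exact Complex.continuous_exp.comp (((e1_pa_cont z).comp D.cont).add
    (Complex.continuous_ofReal.comp ((e1_par_cont D.m).comp D.cont)))

theorem e1_hr_cont (z : J → ℝ) : Continuous (D.hr z) := by
  unfold AnD.hr
  exact Real.continuous_exp.comp (((e1_par_cont z).comp D.cont).add ((e1_par_cont D.m).comp D.cont))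

theorem e1_hr_pos (z : J → ℝ) (g : G) : 0 < D.hr z g := Real.exp_pos _

/-- PROOF. `Complex.norm_exp`, `e1_pa_re`. -/
theorem e1_norm (z : J → ℂ) (g : G) : ‖D.hs z g‖ = D.hr (zre z) g := by
  unfold AnD.hs AnD.hr
  rw [Complex.norm_exp, Complex.add_re, Complex.ofReal_re, e1_pa_re]

theorem e1_hs_of (z : J → ℝ) (g : G) : D.hs (zof z) g = (D.hr z g : ℂ) := by
  unfold AnD.hs AnD.hr
  rw [e1_pa_of, ← Complex.ofReal_add, Complex.ofReal_exp]

theorem e1_hs_U (z : J → ℂ) {u : G} (hu : u ∈ D.U) (g : G) : D.hs z (u * g) = D.hs z g := by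
  unfold AnD.hs
  rw [D.hpU u hu g]

theorem e1_hs_K (z : J → ℂ) {k : G} (hk : k ∈ D.K) (g : G) : D.hs z (g * k) = D.hs z g := by
  unfold AnD.hs
  rw [D.hpK k hk g]

theorem e1_hs_T (z : J → ℂ) {t : G} (ht : t ∈ D.T) (g : G) : D.hs z (t * g) = Complex.exp (pa z (D.lg t) + (par D.m (D.lg t) : ℝ)) * D.hs z g := by
  unfold AnD.hs
  rw [D.hpT t ht g, e1_pa_add, e1_par_add, ← Complex.exp_add, Complex.ofReal_add]
  congr 1
  ring

theorem e1_hr_U (z : J → ℝ) {u : G} (hu : u ∈ D.U) (g : G) : D.hr z (u * g) = D.hr z g := by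
  unfold AnD.hr
  rw [D.hpU u hu g]

theorem e1_hr_K (z : J → ℝ) {k : G} (hk : k ∈ D.K) (g : G) : D.hr z (g * k) = D.hr z g := by
  unfold AnD.hr
  rw [D.hpK k hk g]

theorem e1_hr_T (z : J → ℝ) {t : G} (ht : t ∈ D.T) (g : G) : D.hr z (t * g) = Real.exp (par z (D.lg t) + par D.m (D.lg t)) * D.hr z g := by
  unfold AnD.hr
  rw [D.hpT t ht g, e1_par_add, e1_par_add, ← Real.exp_add]
  congr 1
  ring

/-- PROOF. `hpK` with `g = 1`, `hp1`. -/
theorem e1_Hp_K {k : G} (hk : k ∈ D.K) : D.Hp k = 0 := by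
  have h := D.hpK k hk 1
  rwa [one_mul, D.hp1] at h

theorem e1_hs_one (z : J → ℂ) {k : G} (hk : k ∈ D.K) : D.hs z k = 1 := by
  unfold AnD.hs
  rw [e1_Hp_K hk]
  simp [pa, par]

/-- PROOF. `hpT` at `t * t'`, `g = 1`. -/
theorem e1_lg_mul {t t' : G} (ht : t ∈ D.T) (ht' : t' ∈ D.T) : D.lg (t * t') = D.lg t + D.lg t' := by
  have h1 := D.hpT (t * t') (D.T.mul_mem ht ht') 1
  have h2 := D.hpT t ht (t' * 1)
  have h3 := D.hpT t' ht' 1
  rw [D.hp1, add_zero] at h1 h3
  rw [mul_assoc] at h1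
  rw [← h1, h2, h3]

theorem e1_lg_inv {t : G} (ht : t ∈ D.T) : D.lg t⁻¹ = -D.lg t := by
  have h1 := e1_lg_mul (D := D) (D.T.inv_mem ht) ht
  have h2 := D.hpT 1 D.T.one_mem 1
  rw [one_mul, D.hp1, add_zero] at h2
  rw [inv_mul_cancel, ← h2] at h1
  exact eq_neg_of_add_eq_zero_left h1.symm

theorem e1_hs_neg (z : J → ℂ) (g : G) : D.hs z g * D.hs (-z) g = (D.hr D.m g : ℂ) := by
  unfold AnD.hs AnD.hr
  rw [e1_pa_neg, ← Complex.exp_add, Complex.ofReal_exp, Complex.ofReal_add]
  congr 1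
  ring

end

end Pool.Agent.Lib.L8
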