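import Pool.Agent.Lib.L8.E1A

/-!
# L8, version 2, E1B: bounds on compact sets
-/

namespace Pool.Agent.Lib.L8

open MeasureTheory Filter
open scoped ENNReal Topology

noncomputable section

set_option linter.unusedSectionVars false
set_option linter.unusedVariables false

variable {G J : Type} [Group G] [TopologicalSpace G] [IsTopologicalGroup G] [SecondCountableTopology G] [MeasurableSpace G] [BorelSpace G] [Fintype J] [DecidableEq J] {D : AnD G J}


/-- PROOF. `g = u t k` (`D.iw`): `Hp (g x) = lg t + Hp (k x)`, `Hp g = lg t` (`e1_Hp_K`), so the difference is `Hp (k x)`, bounded on the compact set `K × X` (continuous image under `(k, x) ↦ Hp (k x)`; each coordinate). -/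
theorem e1_bdd {X : Set G} (hX : IsCompact X) : ∃ B : ℝ, 0 ≤ B ∧ ∀ x ∈ X, ∀ g j, |D.Hp (g * x) j - D.Hp g j| ≤ B := by
  have hc : Continuous fun p : G × G => D.Hp (p.1 * p.2) := D.cont.comp (continuous_fst.mul continuous_snd)
  obtain ⟨C, hC⟩ := (D.compK.prod hX).exists_bound_of_continuousOn hc.continuousOn
  refine ⟨max C 0, le_max_right _ _, ?_⟩
  intro x hx g j
  obtain ⟨u, hu, t, ht, k, hk, rfl⟩ := D.iw g
  have h1 : D.Hp (u * t * k * x) = D.lg t + D.Hp (k * x) := by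
    rw [mul_assoc, mul_assoc, D.hpU u hu, D.hpT t ht]
  have h2 : D.Hp (u * t * k) = D.lg t := by
    rw [mul_assoc, D.hpU u hu, D.hpT t ht, e1_Hp_K hk, add_zero]
  rw [h1, h2, Pi.add_apply, add_sub_cancel_left]
  refine le_trans ?_ (le_max_left _ _)
  have h3 := hC (k, x) ⟨hk, hx⟩
  exact (norm_le_pi_norm (D.Hp (k * x)) j).trans h3

theorem e1b_harnack' {X : Set G} (hX : IsCompact X) (T : ℝ) : ∃ B : ℝ, 0 < B ∧ ∀ z : J → ℝ, (∀ j, |z j| ≤ T) → ∀ x ∈ X, ∀ g, D.hr z (g * x) ≤ B * D.hr z g := by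
  obtain ⟨B, hB0, hB⟩ := e1_bdd (D := D) hX
  refine ⟨Real.exp (∑ j, (T + |D.m j|) * B), Real.exp_pos _, ?_⟩
  intro z hz x hx g
  unfold AnD.hr
  rw [← Real.exp_add, Real.exp_le_exp]
  have h1 : par z (D.Hp (g * x)) + par D.m (D.Hp (g * x)) - (par z (D.Hp g) + par D.m (D.Hp g)) =
      ∑ j, (z j + D.m j) * (D.Hp (g * x) j - D.Hp g j) := by
    unfold par
    rw [← Finset.sum_add_distrib, ← Finset.sum_add_distrib, ← Finset.sum_sub_distrib]
    refine Finset.sum_congr rfl fun j _ => ?_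
    ring
  have h2 : ∑ j, (z j + D.m j) * (D.Hp (g * x) j - D.Hp g j) ≤ ∑ j, (T + |D.m j|) * B := by
    refine Finset.sum_le_sum fun j _ => ?_
    refine (le_abs_self _).trans ?_
    rw [abs_mul]
    refine mul_le_mul ?_ (hB x hx g j) (abs_nonneg _) ((abs_nonneg _).trans ((abs_add_le _ _).trans (add_le_add (hz j) le_rfl)))
    exact (abs_add_le _ _).trans (add_le_add (hz j) le_rfl)
  linarith

/-- PROOF. `e1_bdd`; the exponent changes by at most `(∑ |z_j| + ∑ |m_j|) B`. -/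
theorem e1_harnack {X : Set G} (hX : IsCompact X) (z : J → ℝ) : ∃ B : ℝ, 0 < B ∧ ∀ x ∈ X, ∀ g, D.hr z (g * x) ≤ B * D.hr z g := by
  obtain ⟨B, hB, h⟩ := e1b_harnack' (D := D) hX (∑ j, |z j|)
  exact ⟨B, hB, h z fun j => Finset.single_le_sum (f := fun j => |z j|) (fun i _ => abs_nonneg _) (Finset.mem_univ j)⟩

/-- The same, uniformly for the parameters in a bounded set. -/
theorem e1_harnack' {X : Set G} (hX : IsCompact X) (T : ℝ) : ∃ B : ℝ, 0 < B ∧ ∀ z : J → ℝ, (∀ j, |z j| ≤ T) → ∀ x ∈ X, ∀ g, D.hr z (g * x) ≤ B * D.hr z g :=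
  e1b_harnack' hX T

end

end Pool.Agent.Lib.L8
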