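import Pool.Agent.Lib.L8.E1A

/-!
# L8, version 2, E1C: the mean value property
-/

namespace Pool.Agent.Lib.L8

open MeasureTheory Filter
open scoped ENNReal Topology

noncomputable section

set_option linter.unusedSectionVars false
set_option linter.unusedVariables false

variable {G J : Type} [Group G] [TopologicalSpace G] [IsTopologicalGroup G] [SecondCountableTopology G] [MeasurableSpace G] [BorelSpace G] [Fintype J] [DecidableEq J] {D : AnD G J}


/-- PROOF. `k ↦ h_z(y k x)` is continuous, and bounded on the compact set `K`, which has full measure (`D.aeK`); `κ` is finite. (`IsCompact.exists_bound_of_continuousOn`, `Integrable.of_bound`, `Filter.Eventually.mono`.) -/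
theorem e1_int (f : G → ℂ) (hf : Continuous f) : Integrable f D.κ := by
  obtain ⟨C, hC⟩ := D.compK.exists_bound_of_continuousOn hf.continuousOn
  exact Integrable.of_bound hf.aestronglyMeasurable C (D.aeK.mono fun k hk => hC k hk)

theorem e1_intr (f : G → ℝ) (hf : Continuous f) : Integrable f D.κ := by
  obtain ⟨C, hC⟩ := D.compK.exists_bound_of_continuousOn hf.continuousOn
  exact Integrable.of_bound hf.aestronglyMeasurable C (D.aeK.mono fun k hk => hC k hk)

/-- PROOF. `y = u t k0` (`D.iw`): `h_z(u t k0 k x) = exp(..) h_z(k0 k x)` (`e1_hs_U`, `e1_hs_T`), `∫ h_z(k0 k x) dκ = ∫ h_z(k x) dκ` (`D.lK`, `integral_map`), and `h_z(y) = exp(..) h_z(k0) = exp(..)` (`e1_hs_one`). -/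
theorem e1_avg (z : J → ℂ) (x y : G) : ∫ k, D.hs z (y * k * x) ∂D.κ = D.Ph z x * D.hs z y := by
  obtain ⟨u, hu, t, ht, k0, hk0, rfl⟩ := D.iw y
  have h1 : ∀ k, D.hs z (u * t * k0 * k * x) =
      Complex.exp (pa z (D.lg t) + (par D.m (D.lg t) : ℝ)) * D.hs z ((k0 * k) * x) := by
    intro k
    have e1 : u * t * k0 * k * x = u * (t * ((k0 * k) * x)) := by group
    rw [e1, e1_hs_U z hu, e1_hs_T z ht]
  have h2 : D.hs z (u * t * k0) = Complex.exp (pa z (D.lg t) + (par D.m (D.lg t) : ℝ)) := by
    rw [mul_assoc, e1_hs_U z hu, e1_hs_T z ht, e1_hs_one z hk0, mul_one]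
  simp_rw [h1]
  rw [integral_const_mul, h2, mul_comm]
  congr 1
  unfold AnD.Ph
  have hcx : Continuous fun k : G => D.hs z (k * x) := (e1_hs_cont z).comp (continuous_id.mul continuous_const)
  have h3 := integral_map (μ := D.κ) (φ := fun k => k0 * k) (continuous_const.mul continuous_id).measurable.aemeasurable
    (f := fun k => D.hs z (k * x)) hcx.aestronglyMeasurable
  rw [D.lK k0 hk0] at h3
  exact h3.symm

/-- The real form. -/
theorem e1_avgr (z : J → ℝ) (x y : G) : ∫ k, D.hr z (y * k * x) ∂D.κ = D.Pr z x * D.hr z y := by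
  obtain ⟨u, hu, t, ht, k0, hk0, rfl⟩ := D.iw y
  have h0 : D.hr z k0 = 1 := by
    unfold AnD.hr
    rw [e1_Hp_K hk0]
    simp [par]
  have h1 : ∀ k, D.hr z (u * t * k0 * k * x) =
      Real.exp (par z (D.lg t) + par D.m (D.lg t)) * D.hr z ((k0 * k) * x) := by
    intro k
    have e1 : u * t * k0 * k * x = u * (t * ((k0 * k) * x)) := by group
    rw [e1, e1_hr_U z hu, e1_hr_T z ht]
  have h2 : D.hr z (u * t * k0) = Real.exp (par z (D.lg t) + par D.m (D.lg t)) := by
    rw [mul_assoc, e1_hr_U z hu, e1_hr_T z ht, h0, mul_one]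
  simp_rw [h1]
  rw [integral_const_mul, h2, mul_comm]
  congr 1
  unfold AnD.Pr
  have hcx : Continuous fun k : G => D.hr z (k * x) := (e1_hr_cont z).comp (continuous_id.mul continuous_const)
  have h3 := integral_map (μ := D.κ) (φ := fun k => k0 * k) (continuous_const.mul continuous_id).measurable.aemeasurable
    (f := fun k => D.hr z (k * x)) hcx.aestronglyMeasurable
  rw [D.lK k0 hk0] at h3
  exact h3.symm

end

end Pool.Agent.Lib.L8
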