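import Pool.Agent.Lib.L8.E1B
import Pool.Agent.Lib.L8.E1C

/-!
# L8, version 2, E1D: the functional equation of the spherical function
-/

namespace Pool.Agent.Lib.L8

open MeasureTheory Filter
open scoped ENNReal Topology

noncomputable section

set_option linter.unusedSectionVars false
set_option linter.unusedVariables false

variable {G J : Type} [Group G] [TopologicalSpace G] [IsTopologicalGroup G] [SecondCountableTopology G] [MeasurableSpace G] [BorelSpace G] [Fintype J] [DecidableEq J] {D : AnD G J}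


/-- PROOF. `D.rK`, `integral_map`. -/
theorem e1_Ph_left (z : J → ℂ) {k : G} (hk : k ∈ D.K) (g : G) : D.Ph z (k * g) = D.Ph z g := by
  have h1 : ∫ x, D.hs z (x * g) ∂(D.κ.map fun x => x * k) = ∫ x, D.hs z (x * k * g) ∂D.κ :=
    integral_map (continuous_mul_const k).measurable.aemeasurable ((e1_hs_cont z).comp (continuous_mul_const g)).aestronglyMeasurable
  rw [D.rK k hk] at h1
  unfold AnD.Ph
  rw [h1]
  simp only [mul_assoc]

theorem e1_Ph_right (z : J → ℂ) {k : G} (hk : k ∈ D.K) (g : G) : D.Ph z (g * k) = D.Ph z g := by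
  unfold AnD.Ph
  refine integral_congr_ae (Eventually.of_forall fun k' => ?_)
  show D.hs z (k' * (g * k)) = D.hs z (k' * g)
  rw [← mul_assoc, e1_hs_K z hk]

theorem e1_Pr_left (z : J → ℝ) {k : G} (hk : k ∈ D.K) (g : G) : D.Pr z (k * g) = D.Pr z g := by
  have h1 : ∫ x, D.hr z (x * g) ∂(D.κ.map fun x => x * k) = ∫ x, D.hr z (x * k * g) ∂D.κ :=
    integral_map (continuous_mul_const k).measurable.aemeasurable ((e1_hr_cont z).comp (continuous_mul_const g)).aestronglyMeasurable
  rw [D.rK k hk] at h1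
  unfold AnD.Pr
  rw [h1]
  simp only [mul_assoc]

theorem e1_Pr_right (z : J → ℝ) {k : G} (hk : k ∈ D.K) (g : G) : D.Pr z (g * k) = D.Pr z g := by
  unfold AnD.Pr
  refine integral_congr_ae (Eventually.of_forall fun k' => ?_)
  show D.hr z (k' * (g * k)) = D.hr z (k' * g)
  rw [← mul_assoc, e1_hr_K z hk]

theorem e1_Ph_of (z : J → ℝ) (g : G) : D.Ph (zof z) g = (D.Pr z g : ℂ) := by
  unfold AnD.Ph AnD.Pr
  rw [← integral_complex_ofReal]
  exact integral_congr_ae (Eventually.of_forall fun k => e1_hs_of z (k * g))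

theorem e1_Pr_pos (z : J → ℝ) (g : G) : 0 < D.Pr z g := by
  unfold AnD.Pr
  rw [integral_pos_iff_support_of_nonneg (fun k => (e1_hr_pos z (k * g)).le) (e1_intr _ ((e1_hr_cont z).comp (continuous_mul_const g)))]
  have h1 : Function.support (fun k => D.hr z (k * g)) = Set.univ := by
    ext k
    simp only [Function.mem_support, Set.mem_univ, iff_true]
    exact (e1_hr_pos z (k * g)).ne'
  rw [h1, measure_univ]
  exact one_pos

/-- PROOF. `continuous_of_dominated` locally: for `g` in a compact neighbourhood (or: sequences, `g_n → g`, the set `{g_n} ∪ {g}` is compact, `e1_harnack`). `κ` lives on the compact set `K`. -/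
theorem e1_Ph_cont [LocallyCompactSpace G] (z : J → ℂ) : Continuous (D.Ph z) := by
  rw [continuous_iff_continuousAt]
  intro g0
  obtain ⟨X, hX, hX0⟩ := exists_compact_mem_nhds g0
  obtain ⟨B, hB, h1⟩ := e1_harnack (D := D) hX (zre z)
  refine continuousAt_of_dominated (F := fun g k => D.hs z (k * g)) (bound := fun k => B * D.hr (zre z) k) ?_ ?_ ?_ ?_
  · exact Eventually.of_forall fun g => ((e1_hs_cont z).comp (continuous_mul_const g)).aestronglyMeasurable
  · filter_upwards [hX0] with g hg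
    refine Eventually.of_forall fun k => ?_
    rw [e1_norm]
    exact h1 g hg k
  · exact (e1_intr _ (e1_hr_cont (zre z))).const_mul B
  · exact Eventually.of_forall fun k => ((e1_hs_cont z).comp (continuous_const_mul k)).continuousAt

theorem e1_Pr_cont [LocallyCompactSpace G] (z : J → ℝ) : Continuous (D.Pr z) := by
  have h1 : D.Pr z = fun g => (D.Ph (zof z) g).re := by
    funext g
    rw [e1_Ph_of, Complex.ofReal_re]
  rw [h1]
  exact Complex.continuous_re.comp (e1_Ph_cont (zof z))

/-- PROOF. `Φ_z(x k y) = ∫ h_z(k' x k y) dk'`; exchange the integrals (the function is bounded on `K × K`, continuous), `e1_avg` with `y := k' x`, and `∫ h_z(k' x) dk' = Φ_z(x)`. -/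
theorem e1_mul (z : J → ℂ) (x y : G) : ∫ k, D.Ph z (x * k * y) ∂D.κ = D.Ph z x * D.Ph z y := by
  have hc : Continuous fun p : G × G => D.hs z (p.2 * (x * p.1 * y)) := by
    refine (e1_hs_cont z).comp ?_
    exact continuous_snd.mul ((continuous_const.mul continuous_fst).mul continuous_const)
  obtain ⟨C, hC⟩ := (D.compK.prod D.compK).exists_bound_of_continuousOn hc.continuousOn
  have hi : Integrable (Function.uncurry fun k k' : G => D.hs z (k' * (x * k * y))) (D.κ.prod D.κ) := by
    refine Integrable.of_bound hc.aestronglyMeasurable C ?_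
    filter_upwards [Measure.quasiMeasurePreserving_fst.ae D.aeK, Measure.quasiMeasurePreserving_snd.ae D.aeK] with p h1 h2
    exact hC p ⟨h1, h2⟩
  calc ∫ k, D.Ph z (x * k * y) ∂D.κ = ∫ k', ∫ k, D.hs z (k' * (x * k * y)) ∂D.κ ∂D.κ := integral_integral_swap hi
    _ = ∫ k', D.Ph z y * D.hs z (k' * x) ∂D.κ := by
        refine integral_congr_ae (Eventually.of_forall fun k' => ?_)
        show ∫ k, D.hs z (k' * (x * k * y)) ∂D.κ = D.Ph z y * D.hs z (k' * x)
        rw [← e1_avg z y (k' * x)]
        simp only [mul_assoc]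
    _ = D.Ph z x * D.Ph z y := by
        rw [integral_const_mul, mul_comm]
        rfl

theorem e1_mulr (z : J → ℝ) (x y : G) : ∫ k, D.Pr z (x * k * y) ∂D.κ = D.Pr z x * D.Pr z y := by
  have h1 := e1_mul (D := D) (zof z) x y
  simp only [e1_Ph_of] at h1
  rw [integral_complex_ofReal, ← Complex.ofReal_mul] at h1
  exact Complex.ofReal_injective h1

/-- PROOF. `norm_integral_le_integral_norm`, `e1_norm`. -/
theorem e1_le (z : J → ℂ) (g : G) : ‖D.Ph z g‖ ≤ D.Pr (zre z) g := by
  unfold AnD.Ph AnD.Pr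
  refine (norm_integral_le_integral_norm _).trans (le_of_eq ?_)
  exact integral_congr_ae (Eventually.of_forall fun k => e1_norm z (k * g))

/-- PROOF. Cauchy-Schwarz for `exp(ρ) = (exp(z + ρ))^(1/2) (exp(-z + ρ))^(1/2)`; or: for every `t > 0`, `2 h_0 ≤ t h_z + t⁻¹ h_(-z)`, integrate, optimise `t = (Φ_(-z) / Φ_z)^(1/2)`. -/
theorem e1_cs (z : J → ℝ) (g : G) : D.Xi g ^ 2 ≤ D.Pr z g * D.Pr (-z) g := by
  have hX : 0 < D.Xi g := e1_Pr_pos 0 g
  have hA : 0 < D.Pr z g := e1_Pr_pos z g
  have hc : ∀ z : J → ℝ, Integrable (fun k => D.hr z (k * g)) D.κ := fun z => e1_intr _ ((e1_hr_cont z).comp (continuous_mul_const g))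
  have key : ∀ t : ℝ, 0 < t → 2 * D.Xi g ≤ t * D.Pr z g + t⁻¹ * D.Pr (-z) g := by
    intro t ht
    have h1 : ∀ x, 2 * D.hr 0 x ≤ t * D.hr z x + t⁻¹ * D.hr (-z) x := by
      intro x
      have h2 : D.hr z x * D.hr (-z) x = D.hr 0 x ^ 2 := by
        unfold AnD.hr
        rw [← Real.exp_add, pow_two, ← Real.exp_add]
        congr 1
        have h3 : par (-z) (D.Hp x) = -par z (D.Hp x) := by
          unfold par
          rw [← Finset.sum_neg_distrib]
          refine Finset.sum_congr rfl fun j _ => ?_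
          rw [Pi.neg_apply, neg_mul]
        have h4 : par (0 : J → ℝ) (D.Hp x) = 0 := by
          unfold par
          simp
        rw [h3, h4]
        ring
      have h5 : 0 < D.hr 0 x := e1_hr_pos 0 x
      have h6 : 0 < D.hr z x := e1_hr_pos z x
      have h7 : 0 < D.hr (-z) x := e1_hr_pos (-z) x
      have h8 : (t * D.hr z x) * (t⁻¹ * D.hr (-z) x) = D.hr 0 x ^ 2 := by
        rw [← h2]
        field_simp
      have h9 : 0 < t * D.hr z x := mul_pos ht h6
      have h10 : 0 < t⁻¹ * D.hr (-z) x := mul_pos (inv_pos.2 ht) h7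
      nlinarith [sq_nonneg (t * D.hr z x - t⁻¹ * D.hr (-z) x)]
    have h11 : ∫ k, 2 * D.hr 0 (k * g) ∂D.κ ≤ ∫ k, (t * D.hr z (k * g) + t⁻¹ * D.hr (-z) (k * g)) ∂D.κ :=
      integral_mono ((hc 0).const_mul 2) (((hc z).const_mul t).add ((hc (-z)).const_mul t⁻¹)) fun k => h1 (k * g)
    rw [integral_const_mul, integral_add ((hc z).const_mul t) ((hc (-z)).const_mul t⁻¹), integral_const_mul, integral_const_mul] at h11
    exact h11
  have h12 := key (D.Xi g / D.Pr z g) (div_pos hX hA)
  have h13 : D.Xi g / D.Pr z g * D.Pr z g = D.Xi g := div_mul_cancel₀ _ hA.ne'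
  rw [h13, inv_div] at h12
  have h14 : D.Xi g ≤ D.Pr z g / D.Xi g * D.Pr (-z) g := by linarith
  have h15 : D.Xi g * D.Xi g ≤ D.Xi g * (D.Pr z g / D.Xi g * D.Pr (-z) g) := mul_le_mul_of_nonneg_left h14 hX.le
  have h16 : D.Xi g * (D.Pr z g / D.Xi g * D.Pr (-z) g) = D.Pr z g * D.Pr (-z) g := by field_simp
  rw [pow_two]
  linarith

end

end Pool.Agent.Lib.L8
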