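import Pool.Agent.Lib.L8.E1D

/-!
# L8, version 2, E1F: continuity in the parameter
-/

namespace Pool.Agent.Lib.L8

open MeasureTheory Filter
open scoped ENNReal Topology

noncomputable section

set_option linter.unusedSectionVars false
set_option linter.unusedVariables false

variable {G J : Type} [Group G] [TopologicalSpace G] [IsTopologicalGroup G] [SecondCountableTopology G] [MeasurableSpace G] [BorelSpace G] [Fintype J] [DecidableEq J] {D : AnD G J}


/-- PROOF. `h_z(k g)` is continuous in `z`, and for `k ∈ K` (full measure) and `z` in a ball, `‖h_z(k g)‖ = h_(Re z)(k g) ≤ B h_(Re z)(k) = B` (`e1_harnack'` with `X = {g}`); `continuous_of_dominated` near every point (`continuousAt_of_dominated`). -/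
theorem e1_Ph_contz (g : G) : Continuous fun z : J → ℂ => D.Ph z g := by
  rw [continuous_iff_continuousAt]
  intro z0
  obtain ⟨B, hB, hb⟩ := e1_harnack' (D := D) (isCompact_singleton (x := g)) (‖z0‖ + 1)
  unfold AnD.Ph
  refine continuousAt_of_dominated (bound := fun _ => B) ?_ ?_ (integrable_const B) ?_
  · refine Eventually.of_forall fun z => ?_
    exact ((e1_hs_cont z).comp (continuous_mul_const g)).aestronglyMeasurable
  · filter_upwards [Metric.ball_mem_nhds z0 one_pos] with z hz
    filter_upwards [D.aeK] with k hk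
    have h1 : ∀ j, |zre z j| ≤ ‖z0‖ + 1 := by
      intro j
      have h2 : |(z j).re| ≤ ‖z j‖ := Complex.abs_re_le_norm _
      have h3 : ‖z j‖ ≤ ‖z‖ := norm_le_pi_norm z j
      have h4 : ‖z‖ ≤ ‖z0‖ + 1 := by
        have h5 : ‖z - z0‖ < 1 := by
          rw [← dist_eq_norm]
          exact hz
        have h6 : z = z0 + (z - z0) := by ring
        calc ‖z‖ = ‖z0 + (z - z0)‖ := by rw [← h6]
          _ ≤ ‖z0‖ + ‖z - z0‖ := norm_add_le _ _
          _ ≤ ‖z0‖ + 1 := by linarith
      exact h2.trans (h3.trans h4)
    have h2 := hb (zre z) h1 g (Set.mem_singleton g) k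
    have h3 : D.hr (zre z) k = 1 := by
      rw [← e1_norm, e1_hs_one z hk, norm_one]
    rw [h3, mul_one] at h2
    rw [e1_norm]
    exact h2
  · refine Eventually.of_forall fun k => ?_
    apply Continuous.continuousAt
    unfold AnD.hs pa
    fun_prop

end

end Pool.Agent.Lib.L8
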