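import Pool.Agent.Lib.L8.E1A

/-!
# L8, version 2, E2A: the operator of a simple step
-/

namespace Pool.Agent.Lib.L8

open MeasureTheory Filter
open scoped ENNReal Topology

noncomputable section

set_option linter.unusedSectionVars false
set_option linter.unusedVariables false

variable {G J : Type} [Group G] [TopologicalSpace G] [IsTopologicalGroup G] [SecondCountableTopology G] [MeasurableSpace G] [BorelSpace G] [Fintype J] [DecidableEq J] {D : AnD G J}


/-- PROOF. `e1_pa` is linear: `∑ (z_j - z_i C i j) v_j`. -/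
theorem e2_pa_rd (S : Steps D) (i : J) (z : J → ℂ) (v : J → ℝ) : pa (S.rd i z) v = pa z v - z i * (S.al i v : ℝ) := by
  unfold pa Steps.rd Steps.al
  push_cast
  rw [Finset.mul_sum, ← Finset.sum_sub_distrib]
  refine Finset.sum_congr rfl fun j _ => ?_
  ring

theorem e2_par_rdr (S : Steps D) (i : J) (z : J → ℝ) (v : J → ℝ) : par (S.rdr i z) v = par z v - z i * S.al i v := by
  unfold par Steps.rdr Steps.al
  rw [Finset.mul_sum, ← Finset.sum_sub_distrib]
  refine Finset.sum_congr rfl fun j _ => ?_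
  ring

theorem e2_rd_i (S : Steps D) (i : J) (z : J → ℂ) : S.rd i z i = -z i := by
  unfold Steps.rd
  rw [S.Cii]
  push_cast
  ring

/-- PROOF. `C i i = 2`: `(rd i z) i = - z i`, so `rd i (rd i z) = z`. -/
theorem e2_rd_rd (S : Steps D) (i : J) (z : J → ℂ) : S.rd i (S.rd i z) = z := by
  funext j
  have h1 := e2_rd_i S i z
  have h2 : S.rd i (S.rd i z) j = S.rd i z j - S.rd i z i * (S.C i j : ℂ) := rfl
  have h3 : S.rd i z j = z j - z i * (S.C i j : ℂ) := rfl
  rw [h2, h1, h3]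
  ring

theorem e2_zre_rd (S : Steps D) (i : J) (z : J → ℂ) : zre (S.rd i z) = S.rdr i (zre z) := by
  funext j
  unfold zre Steps.rd Steps.rdr
  rw [Complex.sub_re, Complex.mul_re, Complex.ofReal_re, Complex.ofReal_im, mul_zero, sub_zero]

theorem e2_zof_rd (S : Steps D) (i : J) (z : J → ℝ) : zof (S.rdr i z) = S.rd i (zof z) := by
  funext j
  unfold zof Steps.rd Steps.rdr
  push_cast
  ring

theorem e2_zre_zL (S : Steps D) (z : J → ℂ) (L : List J) : zre (S.zL z L) = S.zLr (zre z) L := by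
  induction L with
  | nil => rfl
  | cons i L ih =>
    show zre (S.rd i (S.zL z L)) = S.rdr i (S.zLr (zre z) L)
    rw [e2_zre_rd, ih]

theorem e2_zof_zL (S : Steps D) (z : J → ℝ) (L : List J) : zof (S.zLr z L) = S.zL (zof z) L := by
  induction L with
  | nil => rfl
  | cons i L ih =>
    show zof (S.rdr i (S.zLr z L)) = S.rd i (S.zL (zof z) L)
    rw [e2_zof_rd, ih]

/-- PROOF. `‖exp(-(z + m) q)‖ = exp(-(Re z + m) q)`: `S.cv`. -/
theorem e2_cint (S : Steps D) (i : J) {z : ℂ} (hz : 0 < z.re) : Integrable (fun x => Complex.exp (-((z + D.m i) * S.q i x))) (S.νi i) := by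
  have hq : Measurable fun x => ((S.q i x : ℝ) : ℂ) := Complex.measurable_ofReal.comp (S.qm i)
  refine Integrable.mono' (S.cv i z.re hz) ?_ ?_
  · exact (Complex.measurable_exp.comp (hq.const_mul (z + D.m i)).neg).aestronglyMeasurable
  · refine Filter.Eventually.of_forall fun x => ?_
    rw [Complex.norm_exp]
    refine le_of_eq ?_
    congr 1
    rw [Complex.neg_re, Complex.mul_re, Complex.add_re, Complex.ofReal_re, Complex.ofReal_re, Complex.ofReal_im,
      mul_zero, sub_zero]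

theorem e2a_pa_single (i : J) (z : J → ℂ) (c : ℝ) : pa z (fun j => if j = i then c else 0) = z i * (c : ℂ) := by
  unfold pa
  rw [Finset.sum_eq_single i]
  · beta_reduce
    rw [if_pos rfl]
  · intro j _ hj
    beta_reduce
    rw [if_neg hj, Complex.ofReal_zero, mul_zero]
  · intro h
    exact absurd (Finset.mem_univ i) h

theorem e2a_par_single (i : J) (z : J → ℝ) (c : ℝ) : par z (fun j => if j = i then c else 0) = z i * c := by
  unfold par
  rw [Finset.sum_eq_single i]
  · beta_reduce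
    rw [if_pos rfl]
  · intro j _ hj
    beta_reduce
    rw [if_neg hj, mul_zero]
  · intro h
    exact absurd (Finset.mem_univ i) h

/-- The value at `n_i w`, `w` in the root group. -/
theorem e2a_root (S : Steps D) (i : J) (z : J → ℂ) {w : G} (hw : w ∈ S.Ui i) :
    D.hs z (S.n i * w) = Complex.exp (-((z i + D.m i) * S.q i w)) := by
  unfold AnD.hs
  rw [S.hpq i w hw, e2a_pa_single, e2a_par_single]
  congr 1
  push_cast
  ring

theorem e2a_lg (S : Steps D) (i : J) (z : J → ℂ) (v : J → ℝ) :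
    pa z (fun j => v j - if j = i then ∑ k, S.C i k * v k else 0) = pa z v - z i * (S.al i v : ℝ) ∧
    par D.m (fun j => v j - if j = i then ∑ k, S.C i k * v k else 0) = par D.m v - D.m i * S.al i v := by
  constructor
  · have h1 : (fun j => v j - if j = i then ∑ k, S.C i k * v k else 0) =
        v + fun j => if j = i then -(S.al i v) else 0 := by
      funext j
      rw [Pi.add_apply]
      split_ifs
      · rw [Steps.al]
        ring
      · ring
    rw [h1, e1_pa_add, e2a_pa_single]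
    push_cast
    ring
  · have h1 : (fun j => v j - if j = i then ∑ k, S.C i k * v k else 0) =
        v + fun j => if j = i then -(S.al i v) else 0 := by
      funext j
      rw [Pi.add_apply]
      split_ifs
      · rw [Steps.al]
        ring
      · ring
    rw [h1, e1_par_add, e2a_par_single]
    ring

/-- The function `x ↦ h_z(n_i x y)` (up to a translation and a conjugation it is `exp(-(z_i + m_i) q(x))`).
PROOF. `y = u t k` (`D.iw`), `u = v x0` (`S.dec`). For `x ∈ Ui`: `n x v x0 t k = [n (x v x⁻¹) n⁻¹] n x x0 t k`, the bracket is in `Uc ≤ U` (`S.xc`, `S.nc`), so `h_z = h_z(n (x x0) t)` (`e1_hs_U`, `e1_hs_K`). By right invariance (`S.ri`, `integral_map`; the map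
`x ↦ x x0` is a homeomorphism: `(Homeomorph.mulRight x0).measurableEmbedding`) replace `x x0` by `x`. `n x t = (n t n⁻¹) n (t⁻¹ x t)`, `h_z = exp(pa z v' + par m v') h_z(n (t⁻¹ x t))`, `v' = lg(n t n⁻¹)` (`S.cj`, `e1_hs_T`). `S.modi` (`integral_map` with the homeomorphism
`x ↦ t⁻¹ x t`): `∫ f(t⁻¹ x t) = exp(m_i α_i(lg t)) ∫ f(x)`. `h_z(n x) = exp(-(z_i + m_i) q x)` for `x ∈ Ui` (`S.hpq`). The exponents: `pa z v' + par m v' + m_i α_i = pa z (lg t) - z_i α_i + par m (lg t) = pa (rd i z) (lg t) + par m (lg t)` (`e2_pa_rd`), which is the exponent of `h_(rd i z)(y)`. -/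
theorem e2_step (S : Steps D) (i : J) (z : J → ℂ) (hz : 0 < (z i).re) (y : G) :
    Integrable (fun x => D.hs z (S.n i * x * y)) (S.νi i) ∧ ∫ x, D.hs z (S.n i * x * y) ∂S.νi i = S.cf i (z i) * D.hs (S.rd i z) y := by
  obtain ⟨u, hu, t, ht, k, hk, hy⟩ := D.iw y
  obtain ⟨v, hv, x0, hx0, huv⟩ := S.dec i u hu
  have hti : t⁻¹ ∈ D.T := D.T.inv_mem ht
  obtain ⟨ht', hlg⟩ := S.cj i t ht
  obtain ⟨E, hE⟩ : ∃ E, E = Complex.exp (pa z (D.lg (S.n i * t * (S.n i)⁻¹)) + (par D.m (D.lg (S.n i * t * (S.n i)⁻¹)) : ℝ)) :=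
    ⟨_, rfl⟩
  obtain ⟨f, hf⟩ : ∃ f : G → ℂ, f = fun x => Complex.exp (-((z i + D.m i) * S.q i x)) := ⟨_, rfl⟩
  have hfi : Integrable f (S.νi i) := by
    rw [hf]
    exact e2_cint S i hz
  obtain ⟨e1, he1⟩ : ∃ e1 : G ≃ₜ G, e1 = (Homeomorph.mulLeft t⁻¹).trans (Homeomorph.mulRight t) := ⟨_, rfl⟩
  have he1a : ∀ x, e1 x = t⁻¹ * x * t := by
    intro x
    rw [he1]
    rfl
  have he1f : (fun x => t⁻¹ * x * t) = ⇑e1 := by
    funext x
    rw [he1a]
  have hm1 := S.modi i t ht
  rw [he1f] at hm1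
  have hm2 := S.ri i x0 hx0
  have he2f : (fun x : G => x * x0) = ⇑(Homeomorph.mulRight x0) := rfl
  rw [he2f] at hm2
  -- the conjugated function
  have hg1 : Integrable (f ∘ ⇑e1) (S.νi i) := by
    rw [← e1.measurableEmbedding.integrable_map_iff, hm1]
    exact hfi.smul_measure ENNReal.ofReal_ne_top
  have hg1i : ∫ x, f (e1 x) ∂S.νi i = (Real.exp (D.m i * S.al i (D.lg t)) : ℝ) * S.cf i (z i) := by
    rw [← e1.measurableEmbedding.integral_map, hm1, integral_smul_measure, ENNReal.toReal_ofReal (Real.exp_pos _).le,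
      Complex.real_smul, hf]
    rfl
  have hg2 : Integrable (fun x => f (e1 (x * x0))) (S.νi i) := by
    have h1 := (Homeomorph.mulRight x0).measurableEmbedding.integrable_map_iff (μ := S.νi i) (g := f ∘ ⇑e1)
    rw [hm2] at h1
    exact h1.1 hg1
  have hg2i : ∫ x, f (e1 (x * x0)) ∂S.νi i = ∫ x, f (e1 x) ∂S.νi i := by
    have h1 := (Homeomorph.mulRight x0).measurableEmbedding.integral_map (μ := S.νi i) (f ∘ ⇑e1)
    rw [hm2] at h1
    exact h1.symm
  have key : ∀ᵐ x ∂S.νi i, D.hs z (S.n i * x * y) = E * f (e1 (x * x0)) := by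
    filter_upwards [S.aei i] with x hx
    have hxx0 : x * x0 ∈ S.Ui i := (S.Ui i).mul_mem hx hx0
    have hw : e1 (x * x0) ∈ S.Ui i := by
      rw [he1a]
      have h1 := S.ti i t⁻¹ hti (x * x0) hxx0
      rwa [inv_inv] at h1
    have hb : S.n i * (x * v * x⁻¹) * (S.n i)⁻¹ ∈ D.U := S.Uc_le i (S.nc i _ (S.xc i x hx v hv))
    have h1 : S.n i * x * y = (S.n i * (x * v * x⁻¹) * (S.n i)⁻¹) *
        ((S.n i * t * (S.n i)⁻¹) * (S.n i * e1 (x * x0))) * k := by
      rw [he1a, hy, huv]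
      group
    rw [h1, e1_hs_K z hk, e1_hs_U z hb, e1_hs_T z ht', e2a_root S i z hw, hE, hf]
  have key2 : (fun x => D.hs z (S.n i * x * y)) =ᵐ[S.νi i] fun x => E * f (e1 (x * x0)) := key
  refine ⟨(hg2.const_mul E).congr key2.symm, ?_⟩
  rw [integral_congr_ae key2, integral_const_mul, hg2i, hg1i]
  have hHp : D.Hp y = D.lg t := by
    rw [hy, D.hpK k hk, D.hpU u hu]
    have h1 := D.hpT t ht 1
    rw [mul_one, D.hp1, add_zero] at h1
    exact h1
  have hys : D.hs (S.rd i z) y = Complex.exp (pa z (D.lg t) - z i * (S.al i (D.lg t) : ℝ) + (par D.m (D.lg t) : ℝ)) := by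
    unfold AnD.hs
    rw [hHp, e2_pa_rd]
  obtain ⟨h3, h4⟩ := e2a_lg S i z (D.lg t)
  rw [hys, hE, hlg, h3, h4]
  have h5 : ((Real.exp (D.m i * S.al i (D.lg t)) : ℝ) : ℂ) = Complex.exp ((D.m i * S.al i (D.lg t) : ℝ) : ℂ) :=
    Complex.ofReal_exp _
  rw [h5]
  have h6 : Complex.exp (pa z (D.lg t) - z i * (S.al i (D.lg t) : ℝ) + ((par D.m (D.lg t) - D.m i * S.al i (D.lg t) : ℝ) : ℂ)) *
      (Complex.exp ((D.m i * S.al i (D.lg t) : ℝ) : ℂ) * S.cf i (z i)) = S.cf i (z i) *
      (Complex.exp (pa z (D.lg t) - z i * (S.al i (D.lg t) : ℝ) + ((par D.m (D.lg t) - D.m i * S.al i (D.lg t) : ℝ) : ℂ)) *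
        Complex.exp ((D.m i * S.al i (D.lg t) : ℝ) : ℂ)) := by ring
  rw [h6, ← Complex.exp_add]
  congr 2
  push_cast
  ring

end

end Pool.Agent.Lib.L8
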