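import Pool.Agent.Lib.L8.E2A
import Pool.Agent.Lib.L8.E1F

/-!
# L8, version 2, E2B: invariance of the spherical functions under the Weyl group
-/

namespace Pool.Agent.Lib.L8

open MeasureTheory Filter
open scoped ENNReal Topology

noncomputable section

set_option linter.unusedSectionVars false
set_option linter.unusedVariables false

variable {G J : Type} [Group G] [TopologicalSpace G] [IsTopologicalGroup G] [SecondCountableTopology G] [MeasurableSpace G] [BorelSpace G] [Fintype J] [DecidableEq J] {D : AnD G J}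


/-- PROOF. `S.ne`. -/
theorem e2_cf_ne (S : Steps D) (i : J) {z : ℂ} (hz : 0 < z.re) : S.cf i z ≠ 0 := S.ne i z hz

/-- PROOF. Apply the operator of the step (in `y`) to `∫ h_z(y k x) dk = Φ_z(x) h_z(y)` (`e1_avg`): the right side gives `Φ_z(x) c h_(rd z)(y)`, the left side `∫_k ∫_x' h_z(n x' y k x) = ∫_k c h_(rd z)(y k x) = c Φ_(rd z)(x) h_(rd z)(y)` (exchange of the integrals: `∫_k ∫_x' |h_z(n x' y k x)| < ∞` by `e2_step`
for the real part, continuous in `k`); at `y = 1`, `c ≠ 0`. -/
theorem e2_inv_pos (S : Steps D) (i : J) (z : J → ℂ) (hz : 0 < (z i).re) (x : G) : D.Ph (S.rd i z) x = D.Ph z x := by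
  have hc := e2_cf_ne S i hz
  have hcont : Continuous fun p : G × G => D.hs z (S.n i * p.1 * p.2 * x) :=
    (e1_hs_cont z).comp (((continuous_const.mul continuous_fst).mul continuous_snd).mul continuous_const)
  have h1 : Integrable (fun x' => D.hs z (S.n i * x')) (S.νi i) := by
    have h := (e2_step S i z hz 1).1
    simpa only [mul_one] using h
  have hint : Integrable (Function.uncurry fun x' k : G => D.hs z (S.n i * x' * k * x)) ((S.νi i).prod D.κ) := by
    refine (integrable_prod_iff hcont.aestronglyMeasurable).2 ⟨Filter.Eventually.of_forall fun x' => ?_, ?_⟩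
    · exact e1_int _ (hcont.comp (Continuous.prodMk continuous_const continuous_id))
    · have e : (fun x' => ∫ k, ‖D.hs z (S.n i * x' * k * x)‖ ∂D.κ)
          = fun x' => D.Pr (zre z) x * ‖D.hs z (S.n i * x')‖ := by
        funext x'
        rw [e1_norm, ← e1_avgr]
        refine integral_congr_ae (Filter.Eventually.of_forall fun k => ?_)
        exact e1_norm z _
      exact (h1.norm.const_mul (D.Pr (zre z) x)).congr (Filter.Eventually.of_forall fun x' => (congrFun e x').symm)
  have hswap := integral_integral_swap hint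
  have hL : ∫ x', ∫ k, D.hs z (S.n i * x' * k * x) ∂D.κ ∂S.νi i = D.Ph z x * S.cf i (z i) := by
    have e : (fun x' => ∫ k, D.hs z (S.n i * x' * k * x) ∂D.κ) = fun x' => D.Ph z x * D.hs z (S.n i * x') := by
      funext x'
      exact e1_avg z x (S.n i * x')
    rw [e, integral_const_mul]
    have h2 := (e2_step S i z hz 1).2
    rw [e1_hs_one _ D.K.one_mem, mul_one] at h2
    simp only [mul_one] at h2
    rw [h2]
  have hR : ∫ k, ∫ x', D.hs z (S.n i * x' * k * x) ∂S.νi i ∂D.κ = S.cf i (z i) * D.Ph (S.rd i z) x := by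
    have e : (fun k => ∫ x', D.hs z (S.n i * x' * k * x) ∂S.νi i) = fun k => S.cf i (z i) * D.hs (S.rd i z) (k * x) := by
      funext k
      rw [← (e2_step S i z hz (k * x)).2]
      refine integral_congr_ae (Filter.Eventually.of_forall fun x' => ?_)
      show D.hs z (S.n i * x' * k * x) = D.hs z (S.n i * x' * (k * x))
      rw [mul_assoc (S.n i * x')]
    rw [e, integral_const_mul]
    rfl
  rw [hL, hR, mul_comm] at hswap
  exact (mul_left_cancel₀ hc hswap).symm

/-- PROOF. `Re z_i > 0`: `e2_inv_pos`. `Re z_i < 0`: apply it to `rd i z` (`e2_rd_i`, `e2_rd_rd`). `Re z_i = 0`: limit of `z + ε e_i`, `ε → 0+` (`e1_Ph_contz`, `rd i` is continuous). -/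
theorem e2_inv (S : Steps D) (i : J) (z : J → ℂ) (x : G) : D.Ph (S.rd i z) x = D.Ph z x := by
  rcases lt_trichotomy 0 (z i).re with h | h | h
  · exact e2_inv_pos S i z h x
  · have hrd : Continuous (S.rd i) := by
      refine continuous_pi fun j => ?_
      exact (continuous_apply j).sub ((continuous_apply i).mul continuous_const)
    have hze : Continuous fun ε : ℝ => z + (ε : ℂ) • (Pi.single i 1 : J → ℂ) :=
      continuous_const.add (Complex.continuous_ofReal.smul continuous_const)
    have hf : Continuous fun ε : ℝ => D.Ph (S.rd i (z + (ε : ℂ) • (Pi.single i 1 : J → ℂ))) x :=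
      (e1_Ph_contz x).comp (hrd.comp hze)
    have hg : Continuous fun ε : ℝ => D.Ph (z + (ε : ℂ) • (Pi.single i 1 : J → ℂ)) x :=
      (e1_Ph_contz x).comp hze
    have heq : Set.EqOn (fun ε : ℝ => D.Ph (S.rd i (z + (ε : ℂ) • (Pi.single i 1 : J → ℂ))) x)
        (fun ε : ℝ => D.Ph (z + (ε : ℂ) • (Pi.single i 1 : J → ℂ)) x) (Set.Ioi 0) := by
      intro ε hε
      refine e2_inv_pos S i _ ?_ x
      have e : (z + (ε : ℂ) • (Pi.single i 1 : J → ℂ)) i = z i + ε := by
        simp
      rw [e, Complex.add_re, ← h, Complex.ofReal_re, zero_add]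
      exact hε
    have hcl := heq.closure hf hg
    rw [closure_Ioi] at hcl
    have h0 := hcl (Set.self_mem_Ici (a := (0:ℝ)))
    simpa using h0
  · have h1 : 0 < (S.rd i z i).re := by
      rw [e2_rd_i, Complex.neg_re]
      linarith
    have h2 := e2_inv_pos S i (S.rd i z) h1 x
    rw [e2_rd_rd] at h2
    exact h2.symm

theorem e2_invL (S : Steps D) (z : J → ℂ) (L : List J) (x : G) : D.Ph (S.zL z L) x = D.Ph z x := by
  induction L with
  | nil => rfl
  | cons i L ih =>
    show D.Ph (S.rd i (S.zL z L)) x = _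
    rw [e2_inv, ih]

end

end Pool.Agent.Lib.L8
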