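import Pool.Agent.Lib.L8.E3A

/-!
# L8, version 2, E3B: the integral over `U`
-/

namespace Pool.Agent.Lib.L8

open MeasureTheory Filter
open scoped ENNReal Topology

noncomputable section

set_option linter.unusedSectionVars false
set_option linter.unusedVariables false

variable {G J : Type} [Group G] [TopologicalSpace G] [IsTopologicalGroup G] [SecondCountableTopology G] [MeasurableSpace G] [BorelSpace G] [Fintype J] [DecidableEq J] {D : AnD G J}


variable {S : Steps D}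

/-- The constant `c(ρ)`. -/
def OppD.c0 (O : OppD S) : ℝ := ∫ u, D.hr D.m (S.gL O.L0 * u) ∂D.νU

/-- PROOF. `O.meas`, `O.pos`, `e3_gk` with `z := zof z` (`zre (zof z) = z`), `y := 1`, `Integrable.smul_measure`, `e1_hs_of` (`Complex.ofReal` of a real function: `Integrable.re` or `integrable_ofReal`). -/
theorem e3_int (O : OppD S) {z : J → ℝ} (hz : ∀ j, 0 < z j) : Integrable (fun u => D.hr z (S.gL O.L0 * u)) D.νU := by
  have hp : S.PosL (zre (zof z)) O.L0 := by
    have hzz : zre (zof z) = z := by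
      funext j
      simp [zre, zof]
    rw [hzz]
    exact O.pos z hz
  have h := (e3_gk S (zof z) O.L0 hp 1).1
  rw [O.meas]
  refine Integrable.smul_measure ?_ O.C0_top
  have h2 : Integrable (fun u => ((D.hr z (S.gL O.L0 * u) : ℝ) : ℂ)) (S.μL O.L0) := by
    refine h.congr (Filter.Eventually.of_forall fun u => ?_)
    show D.hs (zof z) (S.gL O.L0 * u * 1) = _
    rw [mul_one, e1_hs_of]
  have h3 := h2.re
  exact h3.congr (Filter.Eventually.of_forall fun u => by simp)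

/-- PROOF. `D.m_pos`, `e3_int`. -/
theorem e3_c0_int (O : OppD S) : Integrable (fun u => D.hr D.m (S.gL O.L0 * u)) D.νU :=
  e3_int O D.m_pos

/-- PROOF. `c0 ≥ 0` (`integral_nonneg`), and `(c0 : ℂ) = C0.toReal * cL (zof m) L0 * h(1) ≠ 0` by `O.meas`, `integral_smul_measure`, `e3_gk`, `e3_cL_ne`. -/
theorem e3_c0_pos (O : OppD S) : 0 < O.c0 := by
  have h0 : 0 ≤ O.c0 := integral_nonneg fun u => (e1_hr_pos _ _).le
  have hp : S.PosL (zre (zof D.m)) O.L0 := by
    have hzz : zre (zof D.m) = D.m := by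
      funext j
      simp [zre, zof]
    rw [hzz]
    exact O.pos D.m D.m_pos
  have h := (e3_gk S (zof D.m) O.L0 hp 1).2
  have e1 : O.c0 = O.C0.toReal * ∫ u, D.hr D.m (S.gL O.L0 * u) ∂(S.μL O.L0) := by
    unfold OppD.c0
    rw [O.meas, integral_smul_measure, smul_eq_mul]
  have e2 : ((∫ u, D.hr D.m (S.gL O.L0 * u) ∂(S.μL O.L0) : ℝ) : ℂ) = ∫ u, D.hs (zof D.m) (S.gL O.L0 * u * 1) ∂(S.μL O.L0) := by
    refine (integral_ofReal (𝕜 := ℂ) (μ := S.μL O.L0) (f := fun u => D.hr D.m (S.gL O.L0 * u))).symm.trans ?_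
    refine integral_congr_ae (Filter.Eventually.of_forall fun u => ?_)
    show ((D.hr D.m (S.gL O.L0 * u) : ℝ) : ℂ) = D.hs (zof D.m) (S.gL O.L0 * u * 1)
    rw [mul_one, e1_hs_of]
  have h3 : (∫ u, D.hr D.m (S.gL O.L0 * u) ∂(S.μL O.L0)) ≠ 0 := by
    intro hc
    rw [hc, h] at e2
    have h4 : S.cL (zof D.m) O.L0 * D.hs (S.zL (zof D.m) O.L0) 1 ≠ 0 :=
      mul_ne_zero (e3_cL_ne S _ _ hp) (Complex.exp_ne_zero _)
    exact h4 (by rw [← e2]; simp)
  have h5 : O.C0.toReal ≠ 0 := ENNReal.toReal_ne_zero.2 ⟨O.C0_ne, O.C0_top⟩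
  refine lt_of_le_of_ne h0 ?_
  rw [e1]
  exact (mul_ne_zero h5 h3).symm

end

end Pool.Agent.Lib.L8
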