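import Pool.Agent.Lib.L8.E3B
import Pool.Agent.Lib.L8.E1B

/-!
# L8, version 2, E4A: the functional `J` of an induced function
-/

namespace Pool.Agent.Lib.L8

open MeasureTheory Filter
open scoped ENNReal Topology

noncomputable section

set_option linter.unusedSectionVars false
set_option linter.unusedVariables false

variable {G J : Type} [Group G] [TopologicalSpace G] [IsTopologicalGroup G] [SecondCountableTopology G] [MeasurableSpace G] [BorelSpace G] [Fintype J] [DecidableEq J] {D : AnD G J}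


variable {S : Steps D}

/-- `F(u t g) = e ^ (2 ρ(lg t)) F(g)`. -/
structure IndF (D : AnD G J) (F : G → ℂ) (B : ℝ) : Prop where
  cont : Continuous F
  U : ∀ u ∈ D.U, ∀ g, F (u * g) = F g
  T : ∀ t ∈ D.T, ∀ g, F (t * g) = (Real.exp (2 * par D.m (D.lg t)) : ℝ) * F g
  bd : ∀ g, ‖F g‖ ≤ B * D.hr D.m g

/-- `J(g) = ∫_U F(n0 u g) du`. -/
def OppD.Jf (O : OppD S) (F : G → ℂ) (g : G) : ℂ := ∫ u, F (S.gL O.L0 * u * g) ∂D.νU

theorem e4a_bd {F : G → ℂ} {B : ℝ} (hF : IndF D F B) (g : G) : ‖F g‖ ≤ |B| * D.hr D.m g :=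
  (hF.bd g).trans (mul_le_mul_of_nonneg_right (le_abs_self B) (e1_hr_pos D.m g).le)

/-- PROOF. `‖F(n0 u g)‖ ≤ B h_m(n0 u g) ≤ B B' h_m(n0 u)` (`IndF.bd`, `e1_harnack` with `X = {g}`), `e3_c0_int`; measurable because continuous. (`B` may be negative: then `F = 0`; or use `|B|`.) -/
theorem e4_int (O : OppD S) {F : G → ℂ} {B : ℝ} (hF : IndF D F B) (g : G) : Integrable (fun u => F (S.gL O.L0 * u * g)) D.νU := by
  obtain ⟨B', hB', hh⟩ := e1_harnack (D := D) (isCompact_singleton (x := g)) D.m
  refine Integrable.mono' ((e3_c0_int O).const_mul (|B| * B')) ?_ (Eventually.of_forall fun u => ?_)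
  · have hc : Continuous fun u : G => S.gL O.L0 * u * g := by fun_prop
    exact (hF.cont.comp hc).aestronglyMeasurable
  · have h1 := hh g (Set.mem_singleton g) (S.gL O.L0 * u)
    rw [mul_assoc |B|]
    exact (e4a_bd hF _).trans (mul_le_mul_of_nonneg_left h1 (abs_nonneg B))

/-- PROOF. `D.rU`, `integral_map` (the map `u ↦ u u'` is measurable). -/
theorem e4_U (O : OppD S) {F : G → ℂ} {B : ℝ} (hF : IndF D F B) {u : G} (hu : u ∈ D.U) (g : G) : O.Jf F (u * g) = O.Jf F g := by
  unfold OppD.Jf
  have hc : Continuous fun x : G => S.gL O.L0 * x * g := by fun_prop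
  have h1 : ∫ x, F (S.gL O.L0 * x * g) ∂(D.νU.map (fun x => x * u)) =
      ∫ x, F (S.gL O.L0 * (x * u) * g) ∂D.νU :=
    integral_map (continuous_mul_const u).measurable.aemeasurable (hF.cont.comp hc).aestronglyMeasurable
  rw [D.rU u hu] at h1
  rw [h1]
  refine integral_congr_ae (Eventually.of_forall fun x => ?_)
  simp only [mul_assoc]

/-- PROOF. Sequences (`G` is first countable: `continuous_iff_seqContinuous`): if `g_n → g` then `X = {g_n} ∪ {g}` is compact (`Filter.Tendsto.isCompact_insert_range`), `‖F(n0 u g_n)‖ ≤ |B| B' h_m(n0 u)` (`e1_harnack`), `tendsto_integral_of_dominated_convergence`. -/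
theorem e4_cont (O : OppD S) {F : G → ℂ} {B : ℝ} (hF : IndF D F B) : Continuous (O.Jf F) := by
  rw [continuous_iff_seqContinuous]
  intro x p hx
  have hX := hx.isCompact_insert_range
  obtain ⟨B', hB', hh⟩ := e1_harnack (D := D) hX D.m
  have hc : ∀ g : G, Continuous fun u : G => S.gL O.L0 * u * g := fun g => by fun_prop
  refine tendsto_integral_of_dominated_convergence
    (fun u => |B| * B' * D.hr D.m (S.gL O.L0 * u)) (fun n => ?_) ((e3_c0_int O).const_mul _) (fun n => ?_) ?_
  · exact (hF.cont.comp (hc _)).aestronglyMeasurable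
  · refine Eventually.of_forall fun u => ?_
    have h1 := hh (x n) (Set.mem_insert_of_mem _ (Set.mem_range_self n)) (S.gL O.L0 * u)
    rw [mul_assoc |B|]
    exact (e4a_bd hF _).trans (mul_le_mul_of_nonneg_left h1 (abs_nonneg B))
  · refine Eventually.of_forall fun u => ?_
    have hc2 : Continuous fun g : G => F (S.gL O.L0 * u * g) := hF.cont.comp (by fun_prop)
    exact (hc2.tendsto p).comp hx

end

end Pool.Agent.Lib.L8
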