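import Pool.Agent.Lib.L8.E4A

/-!
# L8, version 2, E4B: invariance of `J` under the simple reflections
-/

namespace Pool.Agent.Lib.L8

open MeasureTheory Filter
open scoped ENNReal Topology

noncomputable section

set_option linter.unusedSectionVars false
set_option linter.unusedVariables false

variable {G J : Type} [Group G] [TopologicalSpace G] [IsTopologicalGroup G] [SecondCountableTopology G] [MeasurableSpace G] [BorelSpace G] [Fintype J] [DecidableEq J] {D : AnD G J}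


variable {S : Steps D}

theorem e4b_prod (O : OppD S) {F : G → ℂ} {B : ℝ} (hF : IndF D F B) (i : J) (g : G) :
    Integrable (fun p : G × G => F (S.gL O.L0 * (p.1 * p.2) * g)) ((S.νc i).prod (S.νi i)) ∧
    O.Jf F g = ∫ x, ∫ v, F (S.gL O.L0 * (v * x) * g) ∂S.νc i ∂S.νi i := by
  have hm : Measurable (fun p : G × G => p.1 * p.2) := (continuous_fst.mul continuous_snd).measurable
  have hc : Continuous (fun u : G => F (S.gL O.L0 * u * g)) :=
    hF.cont.comp ((continuous_const.mul continuous_id).mul continuous_const)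
  have h1 := e4_int O hF g
  rw [S.prod i] at h1
  have h2 := (integrable_map_measure hc.aestronglyMeasurable hm.aemeasurable).1 h1
  refine ⟨h2, ?_⟩
  have h3 : O.Jf F g = ∫ p, F (S.gL O.L0 * (p.1 * p.2) * g) ∂((S.νc i).prod (S.νi i)) := by
    show ∫ u, F (S.gL O.L0 * u * g) ∂D.νU = _
    rw [S.prod i]
    exact integral_map hm.aemeasurable hc.aestronglyMeasurable
  rw [h3]
  exact integral_prod_symm _ h2

theorem e4b_conj (O : OppD S) {f : G → ℂ} (hf : Continuous f) {ν : Measure G} {y : G}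
    (hy : ν.map (fun v => y⁻¹ * v * y) = ν) : ∫ v, f (y⁻¹ * v * y) ∂ν = ∫ v, f v ∂ν := by
  conv_rhs => rw [← hy]
  exact (integral_map ((continuous_const.mul continuous_id).mul continuous_const).measurable.aemeasurable
    hf.aestronglyMeasurable).symm

theorem e4b_inner (O : OppD S) {F : G → ℂ} {B : ℝ} (hF : IndF D F B) (i : J) (g : G) {x : G}
    (hx : x * S.n i = O.y i x * O.h i x * O.ι i x ∧ O.h i x ∈ D.T ∧ D.lg (O.h i x) = (fun j => if j = i then O.l i x else 0) ∧ O.ι i x ∈ S.Ui i ∧ S.gL O.L0 * O.y i x * (S.gL O.L0)⁻¹ ∈ D.U ∧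
    (S.νc i).map (fun v => (O.y i x)⁻¹ * v * O.y i x) = S.νc i ∧ (S.νc i).map (fun v => (O.h i x)⁻¹ * v * O.h i x) = S.νc i) :
    ∫ v, F (S.gL O.L0 * (v * x) * (S.n i * g)) ∂S.νc i =
      (Real.exp (-(2 * D.m i * O.l i x)) : ℝ) * ∫ v, F (S.gL O.L0 * (v * O.ι i x) * g) ∂S.νc i := by
  obtain ⟨hx1, hT, hlg, -, hU, hy, hh⟩ := hx
  obtain ⟨n0, hn0⟩ : ∃ n0, n0 = S.gL O.L0 := ⟨_, rfl⟩
  obtain ⟨y, hy'⟩ : ∃ y, y = O.y i x := ⟨_, rfl⟩
  obtain ⟨h, hh'⟩ : ∃ h, h = O.h i x := ⟨_, rfl⟩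
  obtain ⟨z, hz⟩ : ∃ z, z = O.ι i x := ⟨_, rfl⟩
  have hcj := O.cj0 _ hT
  rw [hlg] at hcj
  rw [← hn0, ← hh'] at hcj
  rw [← hy', ← hh', ← hz] at hx1
  rw [← hn0, ← hy'] at hU
  rw [← hy'] at hy
  rw [← hh'] at hh
  rw [← hn0, ← hz]
  have e1 : ∀ v, F (n0 * (v * x) * (S.n i * g)) = F (n0 * v * y * h * z * g) := by
    intro v
    congr 1
    calc n0 * (v * x) * (S.n i * g) = n0 * v * (x * S.n i) * g := by group
      _ = _ := by rw [hx1]; group
  have e2 : ∫ v, F (n0 * v * y * h * z * g) ∂S.νc i = ∫ v, F (n0 * v * h * z * g) ∂S.νc i := by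
    have h1 := e4b_conj O (f := fun v => F (n0 * y * v * h * z * g))
      (hF.cont.comp (by fun_prop)) hy
    have h2 : ∀ v, F (n0 * y * (y⁻¹ * v * y) * h * z * g) = F (n0 * v * y * h * z * g) := by
      intro v
      congr 1
      group
    have h3 : ∀ v, F (n0 * y * v * h * z * g) = F (n0 * v * h * z * g) := by
      intro v
      rw [← hF.U _ hU (n0 * v * h * z * g)]
      congr 1
      group
    simp only [h2, h3] at h1
    exact h1
  have e3 : ∫ v, F (n0 * v * h * z * g) ∂S.νc i =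
      (Real.exp (-(2 * D.m i * O.l i x)) : ℝ) * ∫ v, F (n0 * (v * z) * g) ∂S.νc i := by
    have h1 := e4b_conj O (f := fun v => F (n0 * h * v * z * g))
      (hF.cont.comp (by fun_prop)) hh
    have h2 : ∀ v, F (n0 * h * (h⁻¹ * v * h) * z * g) = F (n0 * v * h * z * g) := by
      intro v
      congr 1
      group
    have h3 : ∀ v, F (n0 * h * v * z * g) = (Real.exp (-(2 * D.m i * O.l i x)) : ℝ) * F (n0 * (v * z) * g) := by
      intro v
      have h4 := hF.T _ hcj.1 (n0 * (v * z) * g)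
      rw [hcj.2, O.w0_m] at h4
      have h5 : par D.m (fun j => if j = i then O.l i x else 0) = D.m i * O.l i x := by
        unfold par
        rw [Finset.sum_eq_single i]
        · simp
        · intro j _ hj
          simp [hj]
        · intro hi
          exact absurd (Finset.mem_univ i) hi
      rw [h5] at h4
      have h6 : (2 : ℝ) * -(D.m i * O.l i x) = -(2 * D.m i * O.l i x) := by ring
      rw [h6] at h4
      rw [← h4]
      congr 1
      group
    simp only [h2, h3] at h1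
    rw [h1, integral_const_mul]
  simp only [e1]
  rw [e2, e3]

/-- PROOF. `J(n_i g) = ∫_x ∫_v F(n0 v x n_i g)` (`S.prod`, `integral_map`, `integral_prod_symm`; integrable by `e4_int`), `x n_i = y h ι` for almost every `x` (`O.inv`). For such an `x`: `F(n0 v y h ι g) = f(y⁻¹ v y)` with `f(v) = F(n0 y v h ι g) = F((n0 y n0⁻¹) n0 v h ι g) = F(n0 v h ι g)`, so by the invariance of `ν_c`
under `v ↦ y⁻¹ v y` the inner integral is `∫_v F(n0 v h ι g)`; again `F(n0 v h ι g) = f(h⁻¹ v h)` with `f(v) = F(n0 h v ι g) = F((n0 h n0⁻¹) n0 v ι g) = exp(2 ρ(w0(lg h))) F(n0 v ι g)` (`O.cj0`, `IndF.T`), `ρ(w0(lg h)) = -ρ(lg h) = -m_i l(x)` (`O.w0_m`), so the inner integral is `exp(-2 m_i l(x)) Ψ(ι(x))`,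
`Ψ(x) = ∫_v F(n0 v x g)`. By `O.invm` (`integral_map`, `integral_withDensity_eq_integral_toReal_smul`) the integral over `x` is `∫ Ψ(x) = J(g)` (`Ψ` is almost everywhere strongly measurable: `Integrable.integral_prod_right` for the integrable function `(v, x) ↦ F(n0 v x g)` with respect to `ν_c × ν_i`, by `e4_int` and `S.prod`). -/
theorem e4_n (O : OppD S) {F : G → ℂ} {B : ℝ} (hF : IndF D F B) (i : J) (g : G) : O.Jf F (S.n i * g) = O.Jf F g := by
  obtain ⟨hint, hJ⟩ := e4b_prod O hF i g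
  rw [(e4b_prod O hF i (S.n i * g)).2, hJ]
  have h1 : (fun x => ∫ v, F (S.gL O.L0 * (v * x) * (S.n i * g)) ∂S.νc i) =ᵐ[S.νi i]
      fun x => (Real.exp (-(2 * D.m i * O.l i x)) : ℝ) * ∫ v, F (S.gL O.L0 * (v * O.ι i x) * g) ∂S.νc i := by
    filter_upwards [O.inv i] with x hx
    exact e4b_inner O hF i g hx
  rw [integral_congr_ae h1]
  obtain ⟨Ψ, hΨ⟩ : ∃ Ψ : G → ℂ, Ψ = fun x => ∫ v, F (S.gL O.L0 * (v * x) * g) ∂S.νc i := ⟨_, rfl⟩
  have hΨm : AEStronglyMeasurable Ψ (S.νi i) := by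
    rw [hΨ]
    exact hint.integral_prod_right.aestronglyMeasurable
  have h2 : ∫ x, Ψ x ∂S.νi i = ∫ x, (Real.exp (-(2 * D.m i * O.l i x)) : ℝ) • Ψ (O.ι i x) ∂S.νi i := by
    have hd : Measurable fun x => ENNReal.ofReal (Real.exp (-(2 * D.m i * O.l i x))) := by
      have := O.lm i
      fun_prop
    conv_lhs => rw [← O.invm i]
    rw [integral_map (O.ιm i).aemeasurable (by rw [O.invm i]; exact hΨm)]
    rw [integral_withDensity_eq_integral_toReal_smul hd (by
      filter_upwards with x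
      exact ENNReal.ofReal_lt_top)]
    refine integral_congr_ae ?_
    filter_upwards with x
    rw [ENNReal.toReal_ofReal (Real.exp_pos _).le]
  have h3 : ∫ x, ∫ v, F (S.gL O.L0 * (v * x) * g) ∂S.νc i ∂S.νi i = ∫ x, Ψ x ∂S.νi i := by rw [hΨ]
  rw [h3, h2]
  refine integral_congr_ae ?_
  filter_upwards with x
  rw [hΨ, Complex.real_smul]

end

end Pool.Agent.Lib.L8
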