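import Pool.Agent.Lib.L8.E4B
import Pool.Agent.Lib.L8.E1C

/-!
# L8, version 2, E4C: `J` is constant
-/

namespace Pool.Agent.Lib.L8

open MeasureTheory Filter
open scoped ENNReal Topology

noncomputable section

set_option linter.unusedSectionVars false
set_option linter.unusedVariables false

variable {G J : Type} [Group G] [TopologicalSpace G] [IsTopologicalGroup G] [SecondCountableTopology G] [MeasurableSpace G] [BorelSpace G] [Fintype J] [DecidableEq J] {D : AnD G J}


variable {S : Steps D}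

/-- PROOF. The set of the `h` with `J(h g) = J(g)` for all `g` contains `U` (`e4_U`), the `n_i` (`e4_n`) and is a subgroup (define it as a `Subgroup`; `Subgroup.closure_le`); `h ↦ J(h g)` is continuous (`e4_cont`) and constant on a dense set (`O.gen`): `Continuous.ext_on`. -/
theorem e4_const (O : OppD S) {F : G → ℂ} {B : ℝ} (hF : IndF D F B) (g : G) : O.Jf F g = O.Jf F 1 := by
  let H : Subgroup G :=
    { carrier := {h | ∀ g, O.Jf F (h * g) = O.Jf F g}
      mul_mem' := fun {a b} ha hb g => by rw [mul_assoc, ha, hb]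
      one_mem' := fun g => by rw [one_mul]
      inv_mem' := fun {a} ha g => by rw [← ha (a⁻¹ * g), mul_inv_cancel_left] }
  have hle : Subgroup.closure ((D.U : Set G) ∪ Set.range S.n) ≤ H := by
    rw [Subgroup.closure_le]
    rintro h (hh | ⟨i, rfl⟩)
    · exact fun g => e4_U O hF hh g
    · exact fun g => e4_n O hF i g
  have h1 : (fun h => O.Jf F h) = fun _ => O.Jf F 1 := by
    refine Continuous.ext_on O.gen (e4_cont O hF) continuous_const fun h hh => ?_
    have h2 := hle hh 1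
    rwa [mul_one] at h2
  exact congrFun h1 g

/-- PROOF. `y = u t k0` (`D.iw`): `F(y k) = exp(2 ρ(lg t)) F(k0 k)` (`IndF.U`, `IndF.T`), `∫ F(k0 k) dk = ∫ F(k) dk` (`D.lK`, `integral_map`), `Hp y = lg t` (`D.hpU`, `D.hpT`, `e1_Hp_K`), `D.hr D.m y = exp(2 ρ(Hp y))`. -/
theorem e4_avgK {F : G → ℂ} {B : ℝ} (hF : IndF D F B) (y : G) : ∫ k, F (y * k) ∂D.κ = (D.hr D.m y : ℝ) * ∫ k, F k ∂D.κ := by
  obtain ⟨u, hu, t, ht, k0, hk0, rfl⟩ := D.iw y
  have h1 : ∀ k : G, F (u * t * k0 * k) = (Real.exp (2 * par D.m (D.lg t)) : ℝ) * F (k0 * k) := by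
    intro k
    have e1 : u * t * k0 * k = u * (t * (k0 * k)) := by group
    rw [e1, hF.U u hu, hF.T t ht]
  have h2 : ∫ k, F (k0 * k) ∂D.κ = ∫ k, F k ∂D.κ := by
    have h3 : ∫ k, F k ∂(D.κ.map (fun x => k0 * x)) = ∫ k, F (k0 * k) ∂D.κ :=
      integral_map (continuous_const_mul k0).measurable.aemeasurable hF.cont.aestronglyMeasurable
    rw [← h3, D.lK k0 hk0]
  have h4 : D.hr D.m (u * t * k0) = Real.exp (2 * par D.m (D.lg t)) := by
    have h5 : D.hr D.m k0 = 1 := by
      unfold AnD.hr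
      rw [e1_Hp_K hk0]
      simp [par]
    rw [mul_assoc, e1_hr_U _ hu, e1_hr_T _ ht, h5, mul_one, two_mul]
  rw [integral_congr_ae (Eventually.of_forall h1), integral_const_mul, h2, h4]

/-- PROOF. `J(1) = ∫_K J(k) dk` (`e4_const`, `κ` is a probability measure) `= ∫_K ∫_U F(n0 u k) = ∫_U ∫_K F(n0 u k)` (`integral_integral_swap`; the function is integrable on the product: `‖F(n0 u k)‖ ≤ |B| h_m(n0 u k) = |B| h_m(n0 u)` for `k ∈ K`, `D.aeK`, `e1_hr_K`, `Integrable.mono'` and `Integrable.comp_fst` / `comp_snd`;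
continuous, `G` second countable) `= ∫_U h_m(n0 u) ∫_K F` (`e4_avgK`). -/
theorem e4_one (O : OppD S) {F : G → ℂ} {B : ℝ} (hF : IndF D F B) : O.Jf F 1 = (O.c0 : ℂ) * ∫ k, F k ∂D.κ := by
  have h1 : O.Jf F 1 = ∫ k, O.Jf F k ∂D.κ := by
    rw [integral_congr_ae (Eventually.of_forall fun k => e4_const O hF k)]
    simp
  have hint : Integrable (Function.uncurry fun (k u : G) => F (S.gL O.L0 * u * k)) (D.κ.prod D.νU) := by
    refine Integrable.mono' (((e3_c0_int O).const_mul |B|).comp_snd D.κ) ?_ ?_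
    · have hc : Continuous (Function.uncurry fun (k u : G) => F (S.gL O.L0 * u * k)) :=
        hF.cont.comp ((continuous_const.mul continuous_snd).mul continuous_fst)
      exact hc.aestronglyMeasurable
    · have h2 : ∀ᵐ p ∂(D.κ.prod D.νU), p.1 ∈ D.K := Measure.quasiMeasurePreserving_fst.ae D.aeK
      filter_upwards [h2] with p hp
      have h3 := e4a_bd hF (S.gL O.L0 * p.2 * p.1)
      rw [e1_hr_K _ hp] at h3
      exact h3
  have h2 : ∫ k, O.Jf F k ∂D.κ = ∫ u, ∫ k, F (S.gL O.L0 * u * k) ∂D.κ ∂D.νU := by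
    unfold OppD.Jf
    exact integral_integral_swap hint
  rw [h1, h2, integral_congr_ae (Eventually.of_forall fun u => e4_avgK hF (S.gL O.L0 * u)),
    integral_mul_const]
  congr 1
  exact integral_ofReal (𝕜 := ℂ) (f := fun u => D.hr D.m (S.gL O.L0 * u))

end

end Pool.Agent.Lib.L8
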