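import Pool.Agent.Lib.L8.E4C

/-!
# L8, version 2, E4D: the spherical function as an integral over `U`
-/

namespace Pool.Agent.Lib.L8

open MeasureTheory Filter
open scoped ENNReal Topology

noncomputable section

set_option linter.unusedSectionVars false
set_option linter.unusedVariables false

variable {G J : Type} [Group G] [TopologicalSpace G] [IsTopologicalGroup G] [SecondCountableTopology G] [MeasurableSpace G] [BorelSpace G] [Fintype J] [DecidableEq J] {D : AnD G J}


variable {S : Steps D}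

/-- PROOF. Continuity: `e1_hs_cont`. `U`: `e1_hs_U`. `T`: `e1_hs_T`, the exponents add up to `2 ρ(lg t)` (`e1_pa_neg`). Bound: `‖F g‖ = h_σ(g x) h_(-σ)(g) ≤ B h_σ(g) h_(-σ)(g) = B h_m(g)`, `σ = Re z`, `e1_harnack` with `X = {x}`, `e1_norm`. -/
theorem e4_ind (z : J → ℂ) (x : G) : ∃ B : ℝ, IndF D (fun g => D.hs z (g * x) * D.hs (-z) g) B := by
  obtain ⟨B, hB0, hB⟩ := e1_harnack (D := D) (X := {x}) isCompact_singleton (zre z)
  refine ⟨B, ⟨?_, ?_, ?_, ?_⟩⟩
  · exact ((e1_hs_cont z).comp (continuous_id.mul continuous_const)).mul (e1_hs_cont (-z))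
  · intro u hu g
    show D.hs z (u * g * x) * D.hs (-z) (u * g) = _
    rw [mul_assoc, e1_hs_U z hu, e1_hs_U (-z) hu]
  · intro t ht g
    show D.hs z (t * g * x) * D.hs (-z) (t * g) = _
    rw [mul_assoc t g x, e1_hs_T z ht, e1_hs_T (-z) ht, e1_pa_neg]
    have h1 : Complex.exp (pa z (D.lg t) + (par D.m (D.lg t) : ℝ)) *
        Complex.exp (-pa z (D.lg t) + (par D.m (D.lg t) : ℝ)) = ((Real.exp (2 * par D.m (D.lg t)) : ℝ) : ℂ) := by
      rw [← Complex.exp_add, Complex.ofReal_exp]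
      congr 1
      push_cast
      ring
    rw [← h1]
    ring
  · intro g
    have h1 : ‖D.hs z (g * x)‖ ≤ B * ‖D.hs z g‖ := by
      rw [e1_norm, e1_norm]
      exact hB x rfl g
    calc ‖D.hs z (g * x) * D.hs (-z) g‖ = ‖D.hs z (g * x)‖ * ‖D.hs (-z) g‖ := norm_mul _ _
      _ ≤ B * ‖D.hs z g‖ * ‖D.hs (-z) g‖ := mul_le_mul_of_nonneg_right h1 (norm_nonneg _)
      _ = B * ‖D.hs z g * D.hs (-z) g‖ := by rw [norm_mul, mul_assoc]
      _ = B * D.hr D.m g := by
        rw [e1_hs_neg, Complex.norm_real, Real.norm_eq_abs, abs_of_pos (e1_hr_pos _ _)]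

/-- **The spherical function as an integral over `U`.** PROOF. `e4_ind`, `e4_one`; `∫_K F(k) dk = Φ_z(x)` because `h_(-z)(k) = 1` (`e1_hs_one`, `D.aeK`); the integrability is `e4_int` with `g = 1`. -/
theorem e4_main (O : OppD S) (z : J → ℂ) (x : G) : Integrable (fun u => D.hs z (S.gL O.L0 * u * x) * D.hs (-z) (S.gL O.L0 * u)) D.νU ∧
    ∫ u, D.hs z (S.gL O.L0 * u * x) * D.hs (-z) (S.gL O.L0 * u) ∂D.νU = (O.c0 : ℂ) * D.Ph z x := by
  obtain ⟨B, hF⟩ := e4_ind (D := D) z x
  have h1 := e4_int O hF 1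
  have h2 := e4_one O hF
  constructor
  · simpa only [mul_one] using h1
  · have h3 : ∫ k, D.hs z (k * x) * D.hs (-z) k ∂D.κ = D.Ph z x := by
      unfold AnD.Ph
      refine integral_congr_ae ?_
      filter_upwards [D.aeK] with k hk
      rw [e1_hs_one (-z) hk, mul_one]
    rw [← h3, ← h2]
    unfold OppD.Jf
    simp only [mul_one]

end

end Pool.Agent.Lib.L8
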