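import Pool.Agent.Lib.L8.E4D
import Pool.Agent.Lib.L8.E1D

/-!
# L8, version 2, E5A: the spherical function at the points of the torus
-/

namespace Pool.Agent.Lib.L8

open MeasureTheory Filter
open scoped ENNReal Topology

noncomputable section

set_option linter.unusedSectionVars false
set_option linter.unusedVariables false

variable {G J : Type} [Group G] [TopologicalSpace G] [IsTopologicalGroup G] [SecondCountableTopology G] [MeasurableSpace G] [BorelSpace G] [Fintype J] [DecidableEq J] {D : AnD G J}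


variable {S : Steps D}

theorem e5_gL (L : List J) : S.gL L ∈ D.K := by
  induction L with
  | nil => exact D.K.one_mem
  | cons i L ih => exact D.K.mul_mem ih (S.n_mem i)

/-- PROOF. `O.exn`, `gL L0 ∈ K` (induction, `S.n_mem`), `e1_Ph_left`, `e1_Ph_right`. -/
theorem e5_ex (O : OppD S) (z : J → ℂ) (v : J → ℝ) : D.Ph z (O.ex (O.w0 v)) = D.Ph z (O.ex v) := by
  rw [← O.exn, e1_Ph_right z (D.K.inv_mem (e5_gL _)), e1_Ph_left z (e5_gL _)]

theorem e5_exr (O : OppD S) (z : J → ℝ) (v : J → ℝ) : D.Pr z (O.ex (O.w0 v)) = D.Pr z (O.ex v) := by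
  rw [← O.exn, e1_Pr_right z (D.K.inv_mem (e5_gL _)), e1_Pr_left z (e5_gL _)]

/-- PROOF. `e4_main` with `x = ex v =: t`. With `φ(u) = t⁻¹ u t` the integrand is `Ψ(φ(u))`, `Ψ(w) = h_z(n0 t w) h_(-z)(n0 (t w t⁻¹))`, and `∫ Ψ(φ(u)) du = ∫ Ψ d(map φ) = exp(2 ρ(v)) ∫ Ψ` (`D.mod`, `O.ex_mem`, `O.ex_lg`, `integral_map` or `MeasurableEmbedding.integral_map` / `integral_smul_measure`).
`n0 t w = (n0 t n0⁻¹) (n0 w)`: `h_z(n0 t w) = exp(z(w0 v) + ρ(w0 v)) h_z(n0 w)` (`O.cj0`, `e1_hs_T`). The exponent: `z(w0 v) + ρ(w0 v) + 2 ρ(v) = z(w0 v) - ρ(w0 v)` (`O.w0_m`). -/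
theorem e5_main (O : OppD S) (z : J → ℂ) (v : J → ℝ) :
    Integrable (fun u => D.hs z (S.gL O.L0 * u) * D.hs (-z) (S.gL O.L0 * (O.ex v * u * (O.ex v)⁻¹))) D.νU ∧
    (O.c0 : ℂ) * D.Ph z (O.ex v) = Complex.exp (pa z (O.w0 v) - (par D.m (O.w0 v) : ℝ)) *
      ∫ u, D.hs z (S.gL O.L0 * u) * D.hs (-z) (S.gL O.L0 * (O.ex v * u * (O.ex v)⁻¹)) ∂D.νU := by
  obtain ⟨h1, h2⟩ := e4_main O z (O.ex v)
  have ht := O.ex_mem v
  have hlg := O.ex_lg v
  obtain ⟨hc1, hc2⟩ := O.cj0 _ ht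
  have hmod := D.mod _ ht
  rw [hlg] at hmod hc2
  generalize hte : O.ex v = t at *
  generalize hne : S.gL O.L0 = n0 at *
  have hφ : MeasurableEmbedding (fun u : G => t⁻¹ * u * t) :=
    ((Homeomorph.mulLeft t⁻¹).trans (Homeomorph.mulRight t)).measurableEmbedding
  obtain ⟨E, hE⟩ : ∃ E : ℂ, E = Complex.exp (pa z (O.w0 v) + (par D.m (O.w0 v) : ℝ)) := ⟨_, rfl⟩
  have hE0 : E ≠ 0 := by
    rw [hE]
    exact Complex.exp_ne_zero _
  obtain ⟨Θ, hΘ⟩ : ∃ Θ : G → ℂ, Θ = fun u => D.hs z (n0 * u) * D.hs (-z) (n0 * (t * u * t⁻¹)) := ⟨_, rfl⟩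
  have hΨ : ∀ u : G, D.hs z (n0 * u * t) * D.hs (-z) (n0 * u) = E * Θ (t⁻¹ * u * t) := by
    intro u
    have e1 : n0 * u * t = (n0 * t * n0⁻¹) * (n0 * (t⁻¹ * u * t)) := by group
    have e2 : n0 * (t * (t⁻¹ * u * t) * t⁻¹) = n0 * u := by group
    rw [hΘ]
    beta_reduce
    rw [e2, e1, e1_hs_T z hc1, hc2, ← hE]
    ring
  have hfun : (fun u : G => D.hs z (n0 * u * t) * D.hs (-z) (n0 * u)) = (fun u => E * Θ u) ∘ (fun u : G => t⁻¹ * u * t) := by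
    funext u
    exact hΨ u
  rw [hfun, ← hφ.integrable_map_iff, hmod] at h1
  have hc0 : ENNReal.ofReal (Real.exp (2 * par D.m v)) ≠ 0 := by
    rw [Ne, ENNReal.ofReal_eq_zero, not_le]
    exact Real.exp_pos _
  rw [integrable_smul_measure hc0 ENNReal.ofReal_ne_top] at h1
  have h3 : Integrable Θ D.νU := by
    have h4 := h1.const_mul E⁻¹
    refine h4.congr (Filter.Eventually.of_forall fun u => ?_)
    show E⁻¹ * (E * Θ u) = Θ u
    rw [← mul_assoc, inv_mul_cancel₀ hE0, one_mul]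
  have h5 : ∫ u, D.hs z (n0 * u * t) * D.hs (-z) (n0 * u) ∂D.νU = ∫ u, E * Θ (t⁻¹ * u * t) ∂D.νU :=
    integral_congr_ae (Filter.Eventually.of_forall hΨ)
  have h6 : ∫ u, E * Θ (t⁻¹ * u * t) ∂D.νU = ∫ u, E * Θ u ∂(D.νU.map fun u => t⁻¹ * u * t) :=
    (hφ.integral_map (fun u => E * Θ u)).symm
  rw [h5, h6, hmod, integral_smul_measure, ENNReal.toReal_ofReal (Real.exp_pos _).le, integral_const_mul,
    Complex.real_smul] at h2
  rw [hΘ] at h3 h2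
  refine ⟨h3, ?_⟩
  rw [← h2, ← mul_assoc]
  congr 1
  rw [hE, Complex.ofReal_exp, ← Complex.exp_add]
  congr 1
  have h7 := O.w0_m v
  rw [h7]
  push_cast
  ring

end

end Pool.Agent.Lib.L8
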