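import Pool.Agent.Lib.L8.E3B

/-!
# L8, version 2, E5B: the limit integral
-/

namespace Pool.Agent.Lib.L8

open MeasureTheory Filter
open scoped ENNReal Topology

noncomputable section

set_option linter.unusedSectionVars false
set_option linter.unusedVariables false

variable {G J : Type} [Group G] [TopologicalSpace G] [IsTopologicalGroup G] [SecondCountableTopology G] [MeasurableSpace G] [BorelSpace G] [Fintype J] [DecidableEq J] {D : AnD G J}


variable {S : Steps D} {O : OppD S} {Z : J → ℝ}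

instance (P : ParD O Z) : SFinite P.νP := P.sfP

instance (P : ParD O Z) : SFinite P.νM := P.sfM

/-- The density of the integral over `U_M`. -/
def ParD.gM (P : ParD O Z) (u : G) : ℝ := Real.exp (par D.m (D.Hp (P.nM * u)) + par (S.zLr D.m P.L) (D.Hp (P.nM * u)))

/-- The integral over `U_M`. -/
def ParD.IM (P : ParD O Z) : ℝ := P.CP.toReal * ∫ u, P.gM u ∂P.νM

theorem e5b_negm (g : G) : D.hs (-(zof D.m)) g = 1 := by
  unfold AnD.hs
  rw [e1_pa_neg, e1_pa_of, neg_add_cancel, Complex.exp_zero]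

theorem e5b_zre_neg (z : J → ℂ) : zof (zre (-z)) = -(zof (zre z)) := by
  funext j
  show (((-z) j).re : ℂ) = -(((z j).re : ℝ) : ℂ)
  rw [Pi.neg_apply, Complex.neg_re, Complex.ofReal_neg]

/-- The inner integral. PROOF. `P.measP`, `Integrable.smul_measure`, `integral_smul_measure`, `integral_map` (the map is a homeomorphism): `h_z(n0 (nM⁻¹ u nM) y) = h_z(g_L u (nM y))` by `P.n0`; `e3_gk` with the point `nM y`. -/
theorem e5b_inner (P : ParD O Z) {z : J → ℂ} (hz : S.PosL (zre z) P.L) (y : G) :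
    Integrable (fun x => D.hs z (S.gL O.L0 * (x * y))) P.νP ∧ ∫ x, D.hs z (S.gL O.L0 * (x * y)) ∂P.νP = (P.CP.toReal : ℂ) * (S.cL z P.L * D.hs (S.zL z P.L) (P.nM * y)) := by
  have hφ : Continuous fun u : G => (P.nM)⁻¹ * u * P.nM := by fun_prop
  have hf : Continuous fun x => D.hs z (S.gL O.L0 * (x * y)) := (e1_hs_cont z).comp (by fun_prop)
  have hcomp : ∀ u : G, D.hs z (S.gL O.L0 * ((P.nM)⁻¹ * u * P.nM * y)) = D.hs z (S.gL P.L * u * (P.nM * y)) := by
    intro u
    rw [P.n0]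
    congr 1
    group
  obtain ⟨h1, h2⟩ := e3_gk S z P.L hz (P.nM * y)
  rw [P.measP]
  constructor
  · refine Integrable.smul_measure ?_ P.CP_top
    rw [integrable_map_measure hf.aestronglyMeasurable hφ.measurable.aemeasurable]
    have h3 : (fun x => D.hs z (S.gL O.L0 * (x * y))) ∘ (fun u : G => (P.nM)⁻¹ * u * P.nM) =
        fun u => D.hs z (S.gL P.L * u * (P.nM * y)) := funext hcomp
    rw [h3]
    exact h1
  · rw [integral_smul_measure, integral_map hφ.measurable.aemeasurable hf.aestronglyMeasurable,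
      integral_congr_ae (Eventually.of_forall hcomp), h2, Complex.real_smul]

/-- PROOF. `P.hpM` for `z` and for `zof m` (`e1_pa_of`, `e2_zof_zL`): the exponent of `h_(z_L)(nM u) h_(-z)(g_L nM u)` is `z_L(H) + ρ(H) - z_L(H) + ρ_L(H)`, `H = H(nM u)`. -/
theorem e5b_gM (P : ParD O Z) : ∀ᵐ u ∂P.νM, ∀ z : J → ℂ, D.hs (S.zL z P.L) (P.nM * u) * D.hs (-z) (S.gL O.L0 * u) = (P.gM u : ℂ) := by
  filter_upwards [P.hpM] with u hu z
  have e0 : S.gL O.L0 * u = S.gL P.L * (P.nM * u) := by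
    rw [P.n0, mul_assoc]
  rw [e0]
  have h1 := hu z
  have h2 := hu (zof D.m)
  rw [← e2_zof_zL, e1_pa_of, e1_pa_of] at h2
  unfold AnD.hs ParD.gM
  rw [e1_pa_neg, h1, ← Complex.exp_add]
  push_cast
  congr 1
  rw [h2]
  ring

/-- PROOF. `c0 < ∞` (`e3_c0_int`) and `P.prod`: `(x, y) ↦ h_m(n0 x y)` is integrable with respect to `ν_P × ν_M` (`integrable_map_measure`), so `y ↦ ∫ h_m(n0 x y) dx = CP c_L(m) h_(m_L)(nM y)` is integrable (`Integrable.integral_prod_right`), `e5b_inner` for `zof m` (`P.pos` with `D.m_pos`), and `h_(-m)(g) = 1`: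
`e5b_gM` for `zof m` says `h_(m_L)(nM y) = gM(y)`. `CP ≠ 0, ∞`, `c_L(m) ≠ 0` (`e3_cL_ne`). -/
theorem e5b_int (P : ParD O Z) : Integrable P.gM P.νM := by
  have hz : S.PosL (zre (zof D.m)) P.L := P.pos D.m (fun j => (D.m_pos j).le) (fun j _ => D.m_pos j)
  have h0 := e3_c0_int O
  rw [P.prod] at h0
  have hm : Continuous fun p : G × G => p.1 * p.2 := by fun_prop
  have hr : Continuous fun u => D.hr D.m (S.gL O.L0 * u) := (e1_hr_cont D.m).comp (by fun_prop)
  rw [integrable_map_measure hr.aestronglyMeasurable hm.measurable.aemeasurable] at h0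
  have h1 : Integrable (fun p : G × G => D.hs (zof D.m) (S.gL O.L0 * (p.1 * p.2))) (P.νP.prod P.νM) := by
    have h2 := h0.ofReal (𝕜 := ℂ)
    refine h2.congr (Eventually.of_forall fun p => ?_)
    show ((D.hr D.m (S.gL O.L0 * (p.1 * p.2)) : ℝ) : ℂ) = _
    rw [← e1_hs_of]
  have h3 := h1.integral_prod_right
  have hc : (P.CP.toReal : ℂ) * S.cL (zof D.m) P.L ≠ 0 := by
    refine mul_ne_zero ?_ (e3_cL_ne S _ P.L hz)
    rw [Ne, Complex.ofReal_eq_zero]
    exact (ENNReal.toReal_pos P.CP_ne P.CP_top).ne'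
  have h4 : Integrable (fun y : G => ((P.CP.toReal : ℂ) * S.cL (zof D.m) P.L)⁻¹ *
      ∫ x, D.hs (zof D.m) (S.gL O.L0 * (x * y)) ∂P.νP) P.νM := h3.const_mul _
  have h5 : Integrable (fun u : G => ((P.gM u : ℝ) : ℂ)) P.νM := by
    refine h4.congr ?_
    filter_upwards [e5b_gM P] with u hu
    rw [(e5b_inner P hz u).2, ← hu (zof D.m), e5b_negm, mul_one, ← mul_assoc (P.CP.toReal : ℂ), ← mul_assoc,
      inv_mul_cancel₀ hc, one_mul]
  exact h5.re

/-- **The limit integral.** PROOF. `integrable_prod_iff'` (inner integral over the first variable): for every `y` integrable in `x` (`e5b_inner`, a constant factor), and the integral of the norm is the real case (`e1_norm`, `e1_hs_of`, `e5b_inner` for `zof (zre z)`) `= CP c_L(Re z) gM(y)` for almost every `y` (`e5b_gM`), integrable by `e5b_int`. The value: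
`integral_prod_symm`, `e5b_inner`, `e5b_gM`. -/
theorem e5b_main (P : ParD O Z) {z : J → ℂ} (h0 : ∀ j, 0 ≤ (z j).re) (h1 : ∀ j, S.al j Z ≠ 0 → 0 < (z j).re) :
    Integrable (fun p : G × G => D.hs z (S.gL O.L0 * (p.1 * p.2)) * D.hs (-z) (S.gL O.L0 * p.2)) (P.νP.prod P.νM) ∧
    ∫ p, D.hs z (S.gL O.L0 * (p.1 * p.2)) * D.hs (-z) (S.gL O.L0 * p.2) ∂(P.νP.prod P.νM) = S.cL z P.L * (P.IM : ℂ) := by
  have hz : S.PosL (zre z) P.L := P.pos (zre z) h0 h1
  have hzr : zre (zof (zre z)) = zre z := rfl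
  have hz' : S.PosL (zre (zof (zre z))) P.L := by
    rw [hzr]
    exact hz
  have hf : Continuous fun p : G × G => D.hs z (S.gL O.L0 * (p.1 * p.2)) * D.hs (-z) (S.gL O.L0 * p.2) :=
    ((e1_hs_cont z).comp (by fun_prop)).mul ((e1_hs_cont (-z)).comp (by fun_prop))
  have hnorm : ∀ y : G, ∫ x, ‖D.hs z (S.gL O.L0 * (x * y)) * D.hs (-z) (S.gL O.L0 * y)‖ ∂P.νP =
      ((P.CP.toReal : ℂ) * (S.cL (zof (zre z)) P.L * D.hs (S.zL (zof (zre z)) P.L) (P.nM * y)) *
        D.hs (-(zof (zre z))) (S.gL O.L0 * y)).re := by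
    intro y
    rw [← (e5b_inner P hz' y).2, ← integral_mul_const]
    have h2 : ∀ x, D.hs (zof (zre z)) (S.gL O.L0 * (x * y)) * D.hs (-(zof (zre z))) (S.gL O.L0 * y) =
        ((‖D.hs z (S.gL O.L0 * (x * y)) * D.hs (-z) (S.gL O.L0 * y)‖ : ℝ) : ℂ) := by
      intro x
      rw [norm_mul, e1_norm, e1_norm, Complex.ofReal_mul, ← e1_hs_of, ← e1_hs_of, e5b_zre_neg]
    rw [integral_congr_ae (Eventually.of_forall h2), integral_complex_ofReal, Complex.ofReal_re]
  have hint : Integrable (fun p : G × G => D.hs z (S.gL O.L0 * (p.1 * p.2)) * D.hs (-z) (S.gL O.L0 * p.2)) (P.νP.prod P.νM) := by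
    rw [integrable_prod_iff' hf.aestronglyMeasurable]
    refine ⟨Eventually.of_forall fun y => (e5b_inner P hz y).1.mul_const (D.hs (-z) (S.gL O.L0 * y)), ?_⟩
    show Integrable (fun y => ∫ x, ‖D.hs z (S.gL O.L0 * (x * y)) * D.hs (-z) (S.gL O.L0 * y)‖ ∂P.νP) P.νM
    rw [funext hnorm]
    have h3 : Integrable (fun y => (((P.CP.toReal : ℂ) * S.cL (zof (zre z)) P.L) * ((P.gM y : ℝ) : ℂ)).re) P.νM :=
      (((e5b_int P).ofReal (𝕜 := ℂ)).const_mul _).re
    refine h3.congr ?_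
    filter_upwards [e5b_gM P] with y hy
    rw [← hy (zof (zre z))]
    congr 1
    ring
  refine ⟨hint, ?_⟩
  rw [integral_prod_symm _ hint]
  have h4 : ∀ᵐ y ∂P.νM, ∫ x, D.hs z (S.gL O.L0 * (x * y)) * D.hs (-z) (S.gL O.L0 * y) ∂P.νP =
      ((P.CP.toReal : ℂ) * S.cL z P.L) * ((P.gM y : ℝ) : ℂ) := by
    filter_upwards [e5b_gM P] with y hy
    rw [integral_mul_const, (e5b_inner P hz y).2, ← hy z]
    ring
  rw [integral_congr_ae h4, integral_const_mul, integral_complex_ofReal]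
  unfold ParD.IM
  push_cast
  ring

/-- PROOF. `e5b_main` for `z = zof m`: `h_(-m) = 1` and `P.prod` (`integral_map`). -/
theorem e5b_c0 (P : ParD O Z) : (O.c0 : ℂ) = S.cL (zof D.m) P.L * (P.IM : ℂ) := by
  have h1 := (e5b_main P (z := zof D.m) (fun j => (D.m_pos j).le) (fun j _ => D.m_pos j)).2
  rw [← h1]
  have hm : Continuous fun p : G × G => p.1 * p.2 := by fun_prop
  have hr : Continuous fun u => D.hr D.m (S.gL O.L0 * u) := (e1_hr_cont D.m).comp (by fun_prop)
  unfold OppD.c0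
  rw [P.prod, integral_map hm.measurable.aemeasurable hr.aestronglyMeasurable, ← integral_complex_ofReal]
  refine integral_congr_ae (Eventually.of_forall fun p => ?_)
  show ((D.hr D.m (S.gL O.L0 * (p.1 * p.2)) : ℝ) : ℂ) = D.hs (zof D.m) (S.gL O.L0 * (p.1 * p.2)) * D.hs (-(zof D.m)) (S.gL O.L0 * p.2)
  rw [e5b_negm, mul_one, e1_hs_of]

end

end Pool.Agent.Lib.L8
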