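import Pool.Agent.Lib.L8.E5B

/-!
# L8, version 2, E5C: domination
-/

namespace Pool.Agent.Lib.L8

open MeasureTheory Filter
open scoped ENNReal Topology

noncomputable section

set_option linter.unusedSectionVars false
set_option linter.unusedVariables false

variable {G J : Type} [Group G] [TopologicalSpace G] [IsTopologicalGroup G] [SecondCountableTopology G] [MeasurableSpace G] [BorelSpace G] [Fintype J] [DecidableEq J] {D : AnD G J}


variable {S : Steps D} {O : OppD S} {Z : J → ℝ}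

/-- PROOF. `P.prod`, `D.aeU` (`ae_map_iff` or `ae_of_ae_map`). -/
theorem e5c_U (P : ParD O Z) : ∀ᵐ p ∂(P.νP.prod P.νM), p.1 * p.2 ∈ D.U := by
  have h := D.aeU
  rw [P.prod] at h
  exact ae_of_ae_map (continuous_fst.mul continuous_snd).measurable.aemeasurable h

/-- PROOF. For `p` with `p.1 p.2 ∈ U` (`e5c_U`) and `P.lim`: the first inequality is `O.mono` for `v = t Z'`, `S.al` is linear. The second: for `s ≥ t`, `ex(s Z') = ex((s - t) Z') ex(t Z')` (`O.ex_add`), so by `O.mono` (applied to `ex(t Z') u ex(t Z')⁻¹ ∈ U`, `D.nU`) the function is increasing; `P.lim`, `ge_of_tendsto'` / `ge_of_tendsto`. The third is `O.low`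
(`p.2 ∈ U` is not needed: the limit of numbers `≤ 0`). -/
theorem e5c_mono (P : ParD O Z) : ∀ᵐ p ∂(P.νP.prod P.νM), ∀ t : ℝ, 0 ≤ t → ∀ j,
    D.Hp (S.gL O.L0 * (p.1 * p.2)) j ≤ D.Hp (S.gL O.L0 * (O.ex (t • P.Z') * (p.1 * p.2) * (O.ex (t • P.Z'))⁻¹)) j ∧
    D.Hp (S.gL O.L0 * (O.ex (t • P.Z') * (p.1 * p.2) * (O.ex (t • P.Z'))⁻¹)) j ≤ D.Hp (S.gL O.L0 * p.2) j ∧ D.Hp (S.gL O.L0 * p.2) j ≤ 0 := by
  filter_upwards [e5c_U P, P.lim] with p hU hl
  intro t ht j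
  have hal : ∀ (c : ℝ), 0 ≤ c → ∀ i, S.al i (c • P.Z') ≤ 0 := by
    intro c hc i
    have h1 : S.al i (c • P.Z') = c * S.al i P.Z' := by
      simp only [Steps.al, Pi.smul_apply, smul_eq_mul, Finset.mul_sum]
      exact Finset.sum_congr rfl fun k _ => by ring
    rw [h1]
    exact mul_nonpos_of_nonneg_of_nonpos hc (P.anti i)
  have hlj : Tendsto (fun s : ℝ => D.Hp (S.gL O.L0 * (O.ex (s • P.Z') * (p.1 * p.2) * (O.ex (s • P.Z'))⁻¹)) j) atTop (𝓝 (D.Hp (S.gL O.L0 * p.2) j)) :=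
    (tendsto_pi_nhds.1 hl) j
  have hmem : ∀ s : ℝ, O.ex (s • P.Z') * (p.1 * p.2) * (O.ex (s • P.Z'))⁻¹ ∈ D.U := fun s => D.nU _ (O.ex_mem _) _ hU
  refine ⟨O.mono _ (hal t ht) _ hU j, ?_, ?_⟩
  · refine ge_of_tendsto hlj ?_
    filter_upwards [eventually_ge_atTop t] with s hs
    have h1 := O.mono ((s - t) • P.Z') (hal (s - t) (by linarith)) _ (hmem t) j
    have h2 : O.ex (s • P.Z') = O.ex ((s - t) • P.Z') * O.ex (t • P.Z') := by
      rw [← O.ex_add, ← add_smul, sub_add_cancel]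
    have h3 : O.ex ((s - t) • P.Z') * (O.ex (t • P.Z') * (p.1 * p.2) * (O.ex (t • P.Z'))⁻¹) * (O.ex ((s - t) • P.Z'))⁻¹
        = O.ex (s • P.Z') * (p.1 * p.2) * (O.ex (s • P.Z'))⁻¹ := by
      rw [h2, mul_inv_rev]
      simp only [mul_assoc]
    rw [h3] at h1
    exact h1
  · exact le_of_tendsto' hlj fun s => O.low _ (hmem s) j

/-- **Domination.** PROOF. `a ≤ b ≤ c ≤ 0` (coordinates of the three vectors of `e5c_mono`), `σ = Re z`, `τ_j = min(σ_j, m_j)`. The exponent on the left is `∑ (σ_j (a_j - b_j) + m_j (a_j + b_j))`, `σ_j (a_j - b_j) ≤ τ_j (a_j - b_j)`, `(m_j - τ_j) b_j ≤ (m_j - τ_j) c_j`; the exponent on the right is `∑ ((τ_j + m_j) a_j + (m_j - τ_j) c_j)`. -/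
theorem e5c_dom (P : ParD O Z) (z : J → ℂ) : ∀ᵐ p ∂(P.νP.prod P.νM), ∀ t : ℝ, 0 ≤ t →
    ‖D.hs z (S.gL O.L0 * (p.1 * p.2)) * D.hs (-z) (S.gL O.L0 * (O.ex (t • P.Z') * (p.1 * p.2) * (O.ex (t • P.Z'))⁻¹))‖ ≤
      D.hr (fun j => min (z j).re (D.m j)) (S.gL O.L0 * (p.1 * p.2)) * D.hr (-fun j => min (z j).re (D.m j)) (S.gL O.L0 * p.2) := by
  filter_upwards [e5c_mono P] with p hp
  intro t ht
  rw [norm_mul, e1_norm, e1_norm]
  unfold AnD.hr
  rw [← Real.exp_add, ← Real.exp_add]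
  apply Real.exp_le_exp.2
  unfold par
  rw [← Finset.sum_add_distrib, ← Finset.sum_add_distrib, ← Finset.sum_add_distrib, ← Finset.sum_add_distrib, ← Finset.sum_add_distrib,
    ← Finset.sum_add_distrib]
  apply Finset.sum_le_sum
  intro j _
  obtain ⟨h1, h2, h3⟩ := hp t ht j
  simp only [zre, Pi.neg_apply, Complex.neg_re]
  have hs : min (z j).re (D.m j) ≤ (z j).re := min_le_left _ _
  have hm : min (z j).re (D.m j) ≤ D.m j := min_le_right _ _
  have k1 := mul_nonneg (sub_nonneg.2 hs) (sub_nonneg.2 h1)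
  have k2 := mul_nonneg (sub_nonneg.2 hm) (sub_nonneg.2 h2)
  nlinarith [k1, k2]

/-- PROOF. `P.lim`, `hs` is a continuous function of `Hp` (`e1_pa_cont`, `e1_par_cont`). -/
theorem e5c_lim (P : ParD O Z) (z : J → ℂ) : ∀ᵐ p ∂(P.νP.prod P.νM), Tendsto
    (fun t : ℝ => D.hs z (S.gL O.L0 * (p.1 * p.2)) * D.hs (-z) (S.gL O.L0 * (O.ex (t • P.Z') * (p.1 * p.2) * (O.ex (t • P.Z'))⁻¹))) atTop
    (𝓝 (D.hs z (S.gL O.L0 * (p.1 * p.2)) * D.hs (-z) (S.gL O.L0 * p.2))) := by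
  filter_upwards [P.lim] with p hl
  refine Tendsto.const_mul _ ?_
  have hc : Continuous fun v : J → ℝ => Complex.exp (pa (-z) v + (par D.m v : ℝ)) :=
    Complex.continuous_exp.comp ((e1_pa_cont (-z)).add (Complex.continuous_ofReal.comp (e1_par_cont D.m)))
  exact (hc.tendsto _).comp hl

end

end Pool.Agent.Lib.L8
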