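import Pool.Agent.Lib.L8.E5C
import Pool.Agent.Lib.L8.E5A

/-!
# L8, version 2, E5D: the asymptotic behaviour of the spherical functions
-/

namespace Pool.Agent.Lib.L8

open MeasureTheory Filter
open scoped ENNReal Topology

noncomputable section

set_option linter.unusedSectionVars false
set_option linter.unusedVariables false

variable {G J : Type} [Group G] [TopologicalSpace G] [IsTopologicalGroup G] [SecondCountableTopology G] [MeasurableSpace G] [BorelSpace G] [Fintype J] [DecidableEq J] {D : AnD G J}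


variable {S : Steps D} {O : OppD S} {Z : J → ℝ}

/-- PROOF. The integral of `e5_main` for `v = t Z'` is an integral over `ν_P × ν_M` (`P.prod`, `integral_map`); `tendsto_integral_filter_of_dominated_convergence` (`atTop` on `ℝ` is countably generated; `eventually_ge_atTop 0`), `e5c_dom`, `e5c_lim`; the bound is integrable by `e5b_main` for `zof τ` (`τ_j ≥ 0`, and `> 0` if `al j Z ≠ 0`; `e1_hs_of`,
`integrable_ofReal` or `Integrable.re`); measurability: continuous functions of `p` (`t` fixed). The value of the limit: `e5b_main` for `z`. -/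
theorem e5d_int (P : ParD O Z) {z : J → ℂ} (h0 : ∀ j, 0 ≤ (z j).re) (h1 : ∀ j, S.al j Z ≠ 0 → 0 < (z j).re) :
    Tendsto (fun t : ℝ => ∫ u, D.hs z (S.gL O.L0 * u) * D.hs (-z) (S.gL O.L0 * (O.ex (t • P.Z') * u * (O.ex (t • P.Z'))⁻¹)) ∂D.νU) atTop (𝓝 (S.cL z P.L * (P.IM : ℂ))) := by
  have hm : Continuous fun p : G × G => p.1 * p.2 := by fun_prop
  have hg : ∀ t : ℝ, Continuous fun u : G => D.hs z (S.gL O.L0 * u) *
      D.hs (-z) (S.gL O.L0 * (O.ex (t • P.Z') * u * (O.ex (t • P.Z'))⁻¹)) :=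
    fun t => ((e1_hs_cont z).comp (by fun_prop)).mul ((e1_hs_cont (-z)).comp (by fun_prop))
  have h2 : ∀ t : ℝ, ∫ u, D.hs z (S.gL O.L0 * u) *
      D.hs (-z) (S.gL O.L0 * (O.ex (t • P.Z') * u * (O.ex (t • P.Z'))⁻¹)) ∂D.νU =
      ∫ p : G × G, D.hs z (S.gL O.L0 * (p.1 * p.2)) *
        D.hs (-z) (S.gL O.L0 * (O.ex (t • P.Z') * (p.1 * p.2) * (O.ex (t • P.Z'))⁻¹)) ∂(P.νP.prod P.νM) := by
    intro t
    rw [P.prod]
    exact integral_map hm.measurable.aemeasurable (hg t).aestronglyMeasurable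
  refine Tendsto.congr (fun t => (h2 t).symm) ?_
  rw [← (e5b_main P h0 h1).2]
  have hz' : Integrable (fun p : G × G => D.hr (fun j => min (z j).re (D.m j)) (S.gL O.L0 * (p.1 * p.2)) *
      D.hr (-fun j => min (z j).re (D.m j)) (S.gL O.L0 * p.2)) (P.νP.prod P.νM) := by
    have h3 := (e5b_main P (z := zof fun j => min (z j).re (D.m j))
      (fun j => le_min (h0 j) (D.m_pos j).le) (fun j hj => lt_min (h1 j hj) (D.m_pos j))).1.re
    refine h3.congr (Eventually.of_forall fun p => ?_)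
    have h4 : -(zof fun j => min (z j).re (D.m j)) = zof (-fun j => min (z j).re (D.m j)) := by
      funext j
      simp [zof]
    beta_reduce
    rw [h4, e1_hs_of, e1_hs_of, ← Complex.ofReal_mul]
    exact Complex.ofReal_re _
  refine tendsto_integral_filter_of_dominated_convergence _ ?_ ?_ hz' (e5c_lim P z)
  · exact Eventually.of_forall fun t => ((hg t).comp hm).aestronglyMeasurable
  · filter_upwards [eventually_ge_atTop (0 : ℝ)] with t ht
    filter_upwards [e5c_dom P z] with p hp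
    exact hp t ht

/-- **The lower bound of the spherical functions.** PROOF. By `e5_main` (`v = t Z'`, `w0(t Z') = t Z` by `O.w0_smul`, `P.w0Z`) and `e5_ex` (`ex(t Z) = ex(w0(t Z'))`): `c0 ‖Φ_z(ex(t Z))‖ = exp(Re z(t Z) - ρ(t Z)) ‖I(t)‖`, `I(t) → c_L(z) IM ≠ 0` (`e5d_int`, `e3_cL_ne`, `P.pos`; `IM ≠ 0` by `e5b_c0` and `e3_c0_pos`). So `‖I(t)‖ ≥ ‖c_L(z) IM‖ / 2` for large `t`. -/
theorem e5d_low (P : ParD O Z) {z : J → ℂ} (h0 : ∀ j, 0 ≤ (z j).re) (h1 : ∀ j, S.al j Z ≠ 0 → 0 < (z j).re) :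
    ∃ c : ℝ, 0 < c ∧ ∃ t0 : ℝ, ∀ t, t0 ≤ t → c * Real.exp (t * (par (zre z) Z - par D.m Z)) ≤ ‖D.Ph z (O.ex (t • Z))‖ := by
  have hc0 := e3_c0_pos O
  have hL : S.cL z P.L * (P.IM : ℂ) ≠ 0 := by
    refine mul_ne_zero (e3_cL_ne S _ _ (P.pos (zre z) h0 h1)) ?_
    intro h
    have h2 := e5b_c0 P
    rw [h, mul_zero] at h2
    exact hc0.ne' (Complex.ofReal_eq_zero.1 h2)
  have hLp : 0 < ‖S.cL z P.L * (P.IM : ℂ)‖ := norm_pos_iff.2 hL
  have hlim := (e5d_int P h0 h1).norm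
  have hev := hlim.eventually (eventually_ge_nhds (half_lt_self hLp))
  obtain ⟨t0, ht0⟩ := eventually_atTop.1 hev
  refine ⟨‖S.cL z P.L * (P.IM : ℂ)‖ / 2 / O.c0, by positivity, t0, fun t ht => ?_⟩
  have h3 := (e5_main O z (t • P.Z')).2
  rw [← e5_ex, O.w0_smul, P.w0Z] at h3
  have h4 := congrArg norm h3
  rw [norm_mul, norm_mul, Complex.norm_exp, Complex.sub_re, e1_pa_re, Complex.ofReal_re, Complex.norm_real,
    Real.norm_of_nonneg hc0.le, e1_par_smul, e1_par_smul, ← mul_sub] at h4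
  have h5 := ht0 t ht
  rw [div_mul_eq_mul_div, div_le_iff₀ hc0, mul_comm _ O.c0, h4, mul_comm]
  exact mul_le_mul_of_nonneg_left h5 (Real.exp_pos _).le

end

end Pool.Agent.Lib.L8
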