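import Pool.Agent.Lib.L8.E5A
import Pool.Agent.Lib.L8.E2B
import Pool.Agent.Lib.L8.E3B

/-!
# L8, version 2, E5E: the upper bound for `Ξ`
-/

namespace Pool.Agent.Lib.L8

open MeasureTheory Filter
open scoped ENNReal Topology

noncomputable section

set_option linter.unusedSectionVars false
set_option linter.unusedVariables false

variable {G J : Type} [Group G] [TopologicalSpace G] [IsTopologicalGroup G] [SecondCountableTopology G] [MeasurableSpace G] [BorelSpace G] [Fintype J] [DecidableEq J] {D : AnD G J}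


variable {S : Steps D}

/-- PROOF. `v = w0 v'` (`O.w0_surj`), `Φ(ex v) = Φ(ex v')` (`e5_exr`). `e5_main` for `z = zof (δ m)` (`e1_Ph_of`; take norms or real parts), the integrand is `h_(δ m)(n0 u) h_(-δ m)(n0 u')`, `u' = ex v' u (ex v')⁻¹ ∈ U`, and `h_(-δ m)(n0 u') = exp((1 - δ) ρ(H(n0 u'))) ≤ 1` by `O.low`, `m_j > 0`. So `c0 Φ ≤ exp(-(1 - δ) ρ(v)) ∫ h_(δ m)(n0 u) du` (`e3_int`), `e3_c0_pos`. -/
theorem e5e_up (O : OppD S) {δ : ℝ} (h0 : 0 < δ) (h1 : δ < 1) : ∃ C : ℝ, 0 < C ∧ ∀ v : J → ℝ,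
    D.Pr (fun j => δ * D.m j) (O.ex v) ≤ C * Real.exp (-((1 - δ) * par D.m v)) := by
  classical
  have hzp : ∀ j, 0 < (fun j => δ * D.m j) j := fun j => mul_pos h0 (D.m_pos j)
  have hint := e3_int O hzp
  have hc0 := e3_c0_pos O
  have hpar : ∀ w : J → ℝ, par (fun j => δ * D.m j) w = δ * par D.m w := by
    intro w
    unfold par
    rw [Finset.mul_sum]
    exact Finset.sum_congr rfl fun j _ => by ring
  have hIn : 0 ≤ ∫ u, D.hr (fun j => δ * D.m j) (S.gL O.L0 * u) ∂D.νU :=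
    integral_nonneg fun u => (e1_hr_pos _ _).le
  refine ⟨(∫ u, D.hr (fun j => δ * D.m j) (S.gL O.L0 * u) ∂D.νU) / O.c0 + 1,
    by have := div_nonneg hIn hc0.le; linarith, fun v => ?_⟩
  obtain ⟨v', hv'⟩ := O.w0_surj v
  have hE : D.Pr (fun j => δ * D.m j) (O.ex v) = D.Pr (fun j => δ * D.m j) (O.ex v') := by
    rw [← hv', e5_exr]
  obtain ⟨_, hmain⟩ := e5_main O (zof (fun j => δ * D.m j)) v'
  rw [hv'] at hmain
  have hnorm := congrArg norm hmain
  rw [norm_mul, norm_mul, e1_Ph_of, Complex.norm_real, Complex.norm_real, Real.norm_eq_abs, Real.norm_eq_abs,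
    abs_of_pos hc0, abs_of_pos (e1_Pr_pos _ _), Complex.norm_exp, e1_pa_of] at hnorm
  have hre : ((par (fun j => δ * D.m j) v : ℝ) - (par D.m v : ℝ) : ℂ).re = -((1 - δ) * par D.m v) := by
    rw [← Complex.ofReal_sub, Complex.ofReal_re, hpar]
    ring
  rw [hre] at hnorm
  have hb : ‖∫ u, D.hs (zof (fun j => δ * D.m j)) (S.gL O.L0 * u) *
      D.hs (-zof (fun j => δ * D.m j)) (S.gL O.L0 * (O.ex v' * u * (O.ex v')⁻¹)) ∂D.νU‖ ≤
      ∫ u, D.hr (fun j => δ * D.m j) (S.gL O.L0 * u) ∂D.νU := by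
    refine norm_integral_le_of_norm_le hint ?_
    filter_upwards [D.aeU] with u hu
    have hu' := D.nU _ (O.ex_mem v') u hu
    have hlow := O.low _ hu'
    rw [norm_mul, e1_hs_of, Complex.norm_real, Real.norm_eq_abs, abs_of_pos (e1_hr_pos _ _)]
    have h2 : ‖D.hs (-zof (fun j => δ * D.m j)) (S.gL O.L0 * (O.ex v' * u * (O.ex v')⁻¹))‖ ≤ 1 := by
      unfold AnD.hs
      rw [Complex.norm_exp, e1_pa_neg, e1_pa_of, Complex.add_re, Complex.neg_re, Complex.ofReal_re, Complex.ofReal_re,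
        hpar, Real.exp_le_one_iff]
      have h3 : par D.m (D.Hp (S.gL O.L0 * (O.ex v' * u * (O.ex v')⁻¹))) ≤ 0 := by
        unfold par
        exact Finset.sum_nonpos fun j _ => mul_nonpos_of_nonneg_of_nonpos (D.m_pos j).le (hlow j)
      have h4 : (1 - δ) * par D.m (D.Hp (S.gL O.L0 * (O.ex v' * u * (O.ex v')⁻¹))) ≤ 0 :=
        mul_nonpos_of_nonneg_of_nonpos (by linarith) h3
      linarith
    calc _ ≤ D.hr (fun j => δ * D.m j) (S.gL O.L0 * u) * 1 :=
          mul_le_mul_of_nonneg_left h2 (e1_hr_pos _ _).le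
      _ = _ := mul_one _
  rw [hE]
  have hexp := Real.exp_pos (-((1 - δ) * par D.m v))
  have h5 : O.c0 * D.Pr (fun j => δ * D.m j) (O.ex v') ≤
      Real.exp (-((1 - δ) * par D.m v)) * ∫ u, D.hr (fun j => δ * D.m j) (S.gL O.L0 * u) ∂D.νU := by
    rw [hnorm]
    exact mul_le_mul_of_nonneg_left hb hexp.le
  have h6 : D.Pr (fun j => δ * D.m j) (O.ex v') ≤
      (Real.exp (-((1 - δ) * par D.m v)) * ∫ u, D.hr (fun j => δ * D.m j) (S.gL O.L0 * u) ∂D.νU) / O.c0 := by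
    rw [le_div_iff₀ hc0, mul_comm]
    exact h5
  calc _ ≤ _ := h6
    _ = (∫ u, D.hr (fun j => δ * D.m j) (S.gL O.L0 * u) ∂D.νU) / O.c0 * Real.exp (-((1 - δ) * par D.m v)) := by ring
    _ ≤ _ := by
      refine mul_le_mul_of_nonneg_right ?_ hexp.le
      linarith

/-- PROOF. `zLr (δ m) L0 = - δ m` (test with the vectors `v = Pi.single j 1`: `O.w0_z`, `O.w0_m`, `par` is linear in the first variable), so `Φ_(-δ m) = Φ_(δ m)` (`e2_invL`, `e2_zof_zL`, `e1_Ph_of`). -/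
theorem e5e_neg (O : OppD S) (δ : ℝ) (g : G) : D.Pr (-fun j => δ * D.m j) g = D.Pr (fun j => δ * D.m j) g := by
  classical
  have hpar : ∀ w : J → ℝ, par (fun j => δ * D.m j) w = δ * par D.m w := by
    intro w
    unfold par
    rw [Finset.mul_sum]
    exact Finset.sum_congr rfl fun j _ => by ring
  have hsing : ∀ (z : J → ℝ) (j : J), par z (Pi.single j 1) = z j := by
    intro z j
    unfold par
    rw [Finset.sum_eq_single j]
    · rw [Pi.single_eq_same, mul_one]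
    · intro b _ hb
      rw [Pi.single_eq_of_ne hb, mul_zero]
    · intro h
      exact absurd (Finset.mem_univ j) h
  have hz : S.zLr (fun j => δ * D.m j) O.L0 = -fun j => δ * D.m j := by
    funext j
    rw [← hsing (S.zLr (fun j => δ * D.m j) O.L0) j, ← O.w0_z, hpar, O.w0_m, hsing]
    show δ * -D.m j = -(δ * D.m j)
    ring
  rw [← hz]
  have h1 : (D.Pr (S.zLr (fun j => δ * D.m j) O.L0) g : ℂ) = (D.Pr (fun j => δ * D.m j) g : ℂ) := by
    rw [← e1_Ph_of, ← e1_Ph_of, e2_zof_zL, e2_invL]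
  exact Complex.ofReal_injective h1

/-- PROOF. `e1_cs`, `e5e_neg`, `e5e_up`: `Ξ² ≤ Φ_(δ m) Φ_(-δ m) = Φ_(δ m)²`, all positive. -/
theorem e5e_Xi (O : OppD S) {δ : ℝ} (h0 : 0 < δ) (h1 : δ < 1) : ∃ C : ℝ, 0 < C ∧ ∀ v : J → ℝ,
    D.Xi (O.ex v) ≤ C * Real.exp (-((1 - δ) * par D.m v)) := by
  obtain ⟨C, hC, h⟩ := e5e_up O h0 h1
  refine ⟨C, hC, fun v => le_trans ?_ (h v)⟩
  have h2 := e1_cs (D := D) (fun j => δ * D.m j) (O.ex v)
  rw [e5e_neg O δ (O.ex v), ← sq] at h2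
  exact le_of_sq_le_sq h2 (e1_Pr_pos _ _).le

end

end Pool.Agent.Lib.L8
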