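import Pool.Agent.Lib.L8.E0

/-!
# L8, version 2, E6A: linear algebra: the face of a parameter
-/

namespace Pool.Agent.Lib.L8

open MeasureTheory Filter
open scoped ENNReal Topology

noncomputable section

set_option linter.unusedSectionVars false
set_option linter.unusedVariables false

variable {G J : Type} [Group G] [TopologicalSpace G] [IsTopologicalGroup G] [SecondCountableTopology G] [MeasurableSpace G] [BorelSpace G] [Fintype J] [DecidableEq J] {D : AnD G J}


/-- **The face.** PROOF. `A = {v : v_j = Λ_j if σ_j > 0, v_j ≤ Λ_j for all j, al_j v ≥ 0 if σ_j = 0}`. For `v ∈ A` and `σ_i > 0`: `al_i v = al_i Λ + ∑_(j ≠ i) C i j (v_j - Λ_j) ≥ al_i Λ ≥ 0` (`S.Cij`), so `v` is dominant and `v ≥ 0` (`hd`). `A` is closed and contained in the box `[0, Λ]`, compact, and contains `Λ`. Let `v` be a point of `A` with minimal `∑ v_j`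
(`IsCompact.exists_isMinOn`). If `σ_j = 0` and `t = al_j v / 2 > 0` then `v' = v - t e_j` is in `A` (`al_j v' = al_j v - 2 t = 0`, `al_i v' = al_i v - C i j t ≥ al_i v`), with a smaller sum: contradiction. -/
theorem e6_face (S : Steps D) (hd : ∀ v : J → ℝ, (∀ i, 0 ≤ S.al i v) → ∀ j, 0 ≤ v j) {Λ : J → ℝ} (hΛ : ∀ i, 0 ≤ S.al i Λ) {σ : J → ℝ} (hσ : ∀ j, 0 ≤ σ j) :
    ∃ Z : J → ℝ, (∀ i, 0 ≤ S.al i Z) ∧ (∀ j, Z j ≤ Λ j) ∧ (∀ j, 0 < σ j → Z j = Λ j) ∧ ∀ j, S.al j Z ≠ 0 → 0 < σ j := by
  classical
  set A : Set (J → ℝ) := {v | (∀ j, 0 < σ j → v j = Λ j) ∧ (∀ j, v j ≤ Λ j) ∧ ∀ j, σ j = 0 → 0 ≤ S.al j v} with hA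
  have hdom : ∀ v ∈ A, ∀ i, 0 ≤ S.al i v := by
    rintro v ⟨h1, h2, h3⟩ i
    rcases (hσ i).eq_or_lt with h | h
    · exact h3 i h.symm
    · refine le_trans (hΛ i) ?_
      unfold Steps.al
      refine Finset.sum_le_sum fun k _ => ?_
      by_cases hk : k = i
      · rw [hk, h1 i h]
      · exact mul_le_mul_of_nonpos_left (h2 k) (S.Cij i k (Ne.symm hk))
  have halc : ∀ i, Continuous fun v : J → ℝ => S.al i v := by
    intro i
    unfold Steps.al
    exact continuous_finsetSum _ fun k _ => continuous_const.mul (continuous_apply k)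
  have hcl : IsClosed A := by
    have e : A = (⋂ j, {v : J → ℝ | 0 < σ j → v j = Λ j}) ∩ ((⋂ j, {v : J → ℝ | v j ≤ Λ j}) ∩ ⋂ j, {v : J → ℝ | σ j = 0 → 0 ≤ S.al j v}) := by
      ext v
      simp [hA]
    rw [e]
    refine IsClosed.inter (isClosed_iInter fun j => ?_) (IsClosed.inter (isClosed_iInter fun j => ?_) (isClosed_iInter fun j => ?_))
    · by_cases h : 0 < σ j
      · have e1 : {v : J → ℝ | 0 < σ j → v j = Λ j} = {v : J → ℝ | v j = Λ j} := by
          ext v
          simp [h]
        rw [e1]
        exact isClosed_eq (continuous_apply j) continuous_const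
      · have e1 : {v : J → ℝ | 0 < σ j → v j = Λ j} = Set.univ := by
          ext v
          simp [h]
        rw [e1]
        exact isClosed_univ
    · exact isClosed_le (continuous_apply j) continuous_const
    · by_cases h : σ j = 0
      · have e1 : {v : J → ℝ | σ j = 0 → 0 ≤ S.al j v} = {v : J → ℝ | 0 ≤ S.al j v} := by
          ext v
          simp [h]
        rw [e1]
        exact isClosed_le continuous_const (halc j)
      · have e1 : {v : J → ℝ | σ j = 0 → 0 ≤ S.al j v} = Set.univ := by
          ext v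
          simp [h]
        rw [e1]
        exact isClosed_univ
  have hsub : A ⊆ Set.Icc 0 Λ := fun v hv => ⟨fun j => hd v (hdom v hv) j, fun j => hv.2.1 j⟩
  have hK : IsCompact A := isCompact_Icc.of_isClosed_subset hcl hsub
  have hne : A.Nonempty := ⟨Λ, fun j _ => rfl, fun j => le_rfl, fun j _ => hΛ j⟩
  have hcont : Continuous fun v : J → ℝ => ∑ j, v j := continuous_finsetSum _ fun k _ => continuous_apply k
  obtain ⟨v, hv, hmin⟩ := hK.exists_isMinOn hne hcont.continuousOn
  refine ⟨v, hdom v hv, hv.2.1, hv.1, fun j hj => ?_⟩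
  rcases (hσ j).eq_or_lt with h | h
  · exfalso
    have hpos : 0 < S.al j v := lt_of_le_of_ne (hdom v hv j) (Ne.symm hj)
    have ht : 0 < S.al j v / 2 := half_pos hpos
    have hal : ∀ i, S.al i (fun k => v k - if k = j then S.al j v / 2 else 0) = S.al i v - S.C i j * (S.al j v / 2) := by
      intro i
      have e : ∀ k, S.C i k * (v k - if k = j then S.al j v / 2 else 0) = S.C i k * v k - if k = j then S.C i k * (S.al j v / 2) else 0 := by
        intro k
        by_cases hk : k = j
        · simp only [hk, if_true]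
          ring
        · simp only [hk, if_false]
          ring
      show ∑ k, S.C i k * (v k - if k = j then S.al j v / 2 else 0) = _
      rw [Finset.sum_congr rfl fun k _ => e k, Finset.sum_sub_distrib, Finset.sum_ite_eq' Finset.univ j (fun k => S.C i k * (S.al j v / 2))]
      simp [Steps.al]
    have hmem : (fun k => v k - if k = j then S.al j v / 2 else 0) ∈ A := by
      refine ⟨fun k hk => ?_, fun k => ?_, fun k hk => ?_⟩
      · have hkj : k ≠ j := by
          rintro rfl
          rw [← h] at hk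
          exact lt_irrefl _ hk
        show (v k - if k = j then S.al j v / 2 else 0) = Λ k
        rw [if_neg hkj, sub_zero]
        exact hv.1 k hk
      · show (v k - if k = j then S.al j v / 2 else 0) ≤ Λ k
        by_cases hkj : k = j
        · rw [if_pos hkj]
          linarith [hv.2.1 k]
        · rw [if_neg hkj, sub_zero]
          exact hv.2.1 k
      · rw [hal k]
        by_cases hkj : k = j
        · rw [hkj, S.Cii]
          linarith
        · have h1 : S.C k j * (S.al j v / 2) ≤ 0 := mul_nonpos_of_nonpos_of_nonneg (S.Cij k j hkj) ht.le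
          linarith [hdom v hv k]
    have h2 := hmin hmem
    have h3 : ∑ k, (v k - if k = j then S.al j v / 2 else 0) = ∑ k, v k - S.al j v / 2 := by
      rw [Finset.sum_sub_distrib, Finset.sum_ite_eq' Finset.univ j (fun _ => S.al j v / 2)]
      simp
    have h4 : ∑ k, v k ≤ ∑ k, (v k - if k = j then S.al j v / 2 else 0) := h2
    rw [h3] at h4
    linarith
  · exact h

end

end Pool.Agent.Lib.L8
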