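import Pool.Agent.Lib.L8.E5D
import Pool.Agent.Lib.L8.E5E
import Pool.Agent.Lib.L8.E6A

/-!
# L8, version 2, E7A: the local statement
-/

namespace Pool.Agent.Lib.L8

open MeasureTheory Filter
open scoped ENNReal Topology

noncomputable section

set_option linter.unusedSectionVars false
set_option linter.unusedVariables false

variable {G J : Type} [Group G] [TopologicalSpace G] [IsTopologicalGroup G] [SecondCountableTopology G] [MeasurableSpace G] [BorelSpace G] [Fintype J] [DecidableEq J] {D : AnD G J}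


variable {S : Steps D}

/-- PROOF. `e6_face` for `σ = Re z` (`hd := O.dom_nonneg` for some `O`, from `hO` at `Z = 0`) gives `Z`; `hO Z` gives `O` (`O.w0 = w0`) and `P`. `par σ Z = par σ Λ` (termwise). `e5d_low` gives `c`, `t0`, and `e5e_Xi` with `δ` such that `δ par m Z ≤ ε / 2`, `0 < δ < 1` (`par m Z ≥ 0` because `Z ≥ 0`) gives `C`. For `g0 = O.ex (t Z)`, `t = R0` large:
`Ξ(g0) exp(t (par σ Λ - ε)) ≤ C exp(t (par σ Λ - ε - (1 - δ) par m Z)) < c exp(t (par σ Z - par m Z)) ≤ ‖Φ_z(g0)‖`, because `t (δ par m Z - ε) ≤ - t ε / 2 < log (c / C)` for large `t`. The range: `H(k g0)_j ≥ w0(t Z)_j = t w0(Z)_j ≥ t w0(Λ)_j` (`O.kos`, `O.w0_smul`, `O.w0_sub`, `O.w0_neg` for `Λ - Z ≥ 0`). -/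
theorem e7_loc (S : Steps D) (w0 : (J → ℝ) → J → ℝ) (hO : ∀ Z : J → ℝ, (∀ i, 0 ≤ S.al i Z) → ∃ O : OppD S, O.w0 = w0 ∧ Nonempty (ParD O Z))
    {Λ : J → ℝ} (hΛ : ∀ i, 0 ≤ S.al i Λ) {ε : ℝ} (hε : 0 < ε) (z : J → ℂ) (hz : ∀ j, 0 ≤ (z j).re) :
    ∃ R0 : ℝ, 0 < R0 ∧ ∃ g0 : G, (∀ k ∈ D.K, ∀ j, R0 * w0 Λ j ≤ D.Hp (k * g0) j) ∧ D.Xi g0 * Real.exp (R0 * (par (zre z) Λ - ε)) < ‖D.Ph z g0‖ := by
  have hal0 : ∀ i, 0 ≤ S.al i 0 := by
    intro i
    unfold Steps.al
    simp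
  obtain ⟨O0, hO0, -⟩ := hO 0 hal0
  obtain ⟨Z, hZ1, hZ2, hZ3, hZ4⟩ := e6_face S O0.dom_nonneg hΛ (σ := zre z) (fun j => hz j)
  obtain ⟨O, hOw, ⟨P⟩⟩ := hO Z hZ1
  have hZ0 : ∀ j, 0 ≤ Z j := O.dom_nonneg Z hZ1
  have hQ : par (zre z) Λ = par (zre z) Z := by
    unfold par
    refine Finset.sum_congr rfl fun j _ => ?_
    rcases (hz j).lt_or_eq with h | h
    · rw [hZ3 j h]
    · have h1 : zre z j = 0 := h.symm
      rw [h1, zero_mul, zero_mul]
  obtain ⟨c, hc, t0, hlow⟩ := e5d_low P hz (fun j hj => hZ4 j hj)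
  obtain ⟨M, hM⟩ : ∃ M : ℝ, M = par D.m Z := ⟨_, rfl⟩
  have hM0 : 0 ≤ M := by
    rw [hM]
    unfold par
    exact Finset.sum_nonneg fun j _ => mul_nonneg (D.m_pos j).le (hZ0 j)
  obtain ⟨δ, hδ⟩ : ∃ δ : ℝ, δ = min (1 / 2) (ε / (2 * (M + 1))) := ⟨_, rfl⟩
  have hδ0 : 0 < δ := by
    rw [hδ]
    exact lt_min (by norm_num) (by positivity)
  have hδ1 : δ < 1 := by
    rw [hδ]
    exact lt_of_le_of_lt (min_le_left _ _) (by norm_num)
  have hδM : δ * M ≤ ε / 2 := by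
    have h1 : δ ≤ ε / (2 * (M + 1)) := by
      rw [hδ]
      exact min_le_right _ _
    have h2 : δ * (M + 1) ≤ ε / (2 * (M + 1)) * (M + 1) := mul_le_mul_of_nonneg_right h1 (by linarith)
    have h3 : ε / (2 * (M + 1)) * (M + 1) = ε / 2 := by
      have h4 : M + 1 ≠ 0 := by linarith
      field_simp
    rw [h3] at h2
    nlinarith
  obtain ⟨C, hC, hXi⟩ := e5e_Xi O hδ0 hδ1
  obtain ⟨t, ht⟩ : ∃ t : ℝ, t = max (max t0 1) (2 * Real.log (C / c) / ε + 1) := ⟨_, rfl⟩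
  have ht1 : t0 ≤ t := by
    rw [ht]
    exact (le_max_left _ _).trans (le_max_left _ _)
  have ht2 : 1 ≤ t := by
    rw [ht]
    exact (le_max_right _ _).trans (le_max_left _ _)
  have ht3 : 2 * Real.log (C / c) / ε + 1 ≤ t := by
    rw [ht]
    exact le_max_right _ _
  have htpos : 0 < t := by linarith
  have hlog : Real.log (C / c) < t * (ε / 2) := by
    have h1 : 2 * Real.log (C / c) / ε < t := by linarith
    rw [div_lt_iff₀ hε] at h1
    linarith
  have hCc : C * Real.exp (-(t * (ε / 2))) < c := by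
    have h1 : C / c < Real.exp (t * (ε / 2)) := (Real.log_lt_iff_lt_exp (div_pos hC hc)).1 hlog
    rw [div_lt_iff₀ hc] at h1
    have h2 := Real.exp_pos (-(t * (ε / 2)))
    have h3 : Real.exp (t * (ε / 2)) * Real.exp (-(t * (ε / 2))) = 1 := by
      rw [← Real.exp_add, add_neg_cancel, Real.exp_zero]
    calc C * Real.exp (-(t * (ε / 2))) < Real.exp (t * (ε / 2)) * c * Real.exp (-(t * (ε / 2))) :=
          mul_lt_mul_of_pos_right h1 h2
      _ = c * (Real.exp (t * (ε / 2)) * Real.exp (-(t * (ε / 2)))) := by ring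
      _ = c := by rw [h3, mul_one]
  have hparm : par D.m (t • Z) = t * M := by
    rw [hM]
    unfold par
    rw [Finset.mul_sum]
    refine Finset.sum_congr rfl fun j _ => ?_
    rw [Pi.smul_apply, smul_eq_mul]
    ring
  refine ⟨t, htpos, O.ex (t • Z), ?_, ?_⟩
  · intro k hk j
    have h1 : ∀ i, 0 ≤ S.al i (t • Z) := by
      intro i
      have h2 : S.al i (t • Z) = t * S.al i Z := by
        unfold Steps.al
        rw [Finset.mul_sum]
        refine Finset.sum_congr rfl fun k _ => ?_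
        rw [Pi.smul_apply, smul_eq_mul]
        ring
      rw [h2]
      exact mul_nonneg htpos.le (hZ1 i)
    have h3 := O.kos (t • Z) h1 k hk j
    rw [O.w0_smul, Pi.smul_apply, smul_eq_mul] at h3
    refine le_trans ?_ h3
    have h4 := O.w0_neg (Λ - Z) (fun j => sub_nonneg.2 (hZ2 j)) j
    rw [O.w0_sub, Pi.sub_apply] at h4
    rw [← hOw]
    exact mul_le_mul_of_nonneg_left (by linarith) htpos.le
  · have h1 := hlow t ht1
    have h2 := hXi (t • Z)
    rw [hparm] at h2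
    refine lt_of_lt_of_le ?_ h1
    rw [hQ, ← hM]
    obtain ⟨Q, hQ'⟩ : ∃ Q : ℝ, Q = par (zre z) Z := ⟨_, rfl⟩
    rw [← hQ']
    have h3 : D.Xi (O.ex (t • Z)) * Real.exp (t * (Q - ε)) ≤
        C * Real.exp (-((1 - δ) * (t * M))) * Real.exp (t * (Q - ε)) :=
      mul_le_mul_of_nonneg_right h2 (Real.exp_pos _).le
    refine lt_of_le_of_lt h3 ?_
    have h4 : C * Real.exp (-((1 - δ) * (t * M))) * Real.exp (t * (Q - ε)) =
        C * Real.exp (t * (δ * M - ε)) * Real.exp (t * (Q - M)) := by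
      rw [mul_assoc, mul_assoc, ← Real.exp_add, ← Real.exp_add]
      congr 2
      ring
    rw [h4]
    refine mul_lt_mul_of_pos_right ?_ (Real.exp_pos _)
    refine lt_of_le_of_lt (mul_le_mul_of_nonneg_left (Real.exp_le_exp.2 ?_) hC.le) hCc
    nlinarith

end

end Pool.Agent.Lib.L8
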