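import Pool.Agent.Lib.L8.E7A
import Pool.Agent.Lib.L8.E1F

/-!
# L8, version 2, E7B: compactness
-/

namespace Pool.Agent.Lib.L8

open MeasureTheory Filter
open scoped ENNReal Topology

noncomputable section

set_option linter.unusedSectionVars false
set_option linter.unusedVariables false

variable {G J : Type} [Group G] [TopologicalSpace G] [IsTopologicalGroup G] [SecondCountableTopology G] [MeasurableSpace G] [BorelSpace G] [Fintype J] [DecidableEq J] {D : AnD G J}


variable {S : Steps D}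

/-- PROOF. `e7_loc`; both sides of the strict inequality are continuous in `z` (`e1_Ph_contz`, `e1_par_cont` in the parameter), so it holds in a neighbourhood of `z`. The set of the `z` with `‖z_j‖ ≤ T`, `Re z_j ≥ 0` is compact (closed subset of a product of closed balls, `isCompact_univ_pi`, `isCompact_closedBall`): finite subcover (`IsCompact.elim_nhds_subcover'` or
`elim_nhds_subcover` with neighbourhoods chosen by `e7_loc`; for `z` outside the set choose anything). -/
theorem e7_fin (S : Steps D) (w0 : (J → ℝ) → J → ℝ) (hO : ∀ Z : J → ℝ, (∀ i, 0 ≤ S.al i Z) → ∃ O : OppD S, O.w0 = w0 ∧ Nonempty (ParD O Z))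
    {Λ : J → ℝ} (hΛ : ∀ i, 0 ≤ S.al i Λ) {ε : ℝ} (hε : 0 < ε) (T : ℝ) :
    ∃ s : Finset (ℝ × G), (∀ p ∈ s, 0 < p.1 ∧ ∀ k ∈ D.K, ∀ j, p.1 * w0 Λ j ≤ D.Hp (k * p.2) j) ∧
      ∀ z : J → ℂ, (∀ j, ‖z j‖ ≤ T) → (∀ j, 0 ≤ (z j).re) → ∃ p ∈ s, D.Xi p.2 * Real.exp (p.1 * (par (zre z) Λ - ε)) ≤ ‖D.Ph z p.2‖ := by
  classical
  set Ks : Set (J → ℂ) := {z | (∀ j, ‖z j‖ ≤ T) ∧ ∀ j, 0 ≤ (z j).re} with hKs
  have hcomp : IsCompact Ks := by
    have h1 : IsCompact (Set.univ.pi fun _ : J => Metric.closedBall (0:ℂ) T) :=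
      isCompact_univ_pi fun _ => isCompact_closedBall _ _
    refine h1.of_isClosed_subset ?_ ?_
    · rw [hKs, Set.setOf_and]
      refine IsClosed.inter ?_ ?_
      · rw [Set.setOf_forall]
        exact isClosed_iInter fun j => isClosed_le (continuous_apply j).norm continuous_const
      · rw [Set.setOf_forall]
        exact isClosed_iInter fun j => isClosed_le continuous_const (Complex.continuous_re.comp (continuous_apply j))
    · intro z hz j _
      rw [mem_closedBall_zero_iff]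
      exact hz.1 j
  choose R0 hR0 g0 hk hlt using fun (z : J → ℂ) (hz : z ∈ Ks) => e7_loc S w0 hO hΛ hε z hz.2
  have hcre : Continuous fun z : J → ℂ => par (zre z) Λ := by
    unfold par zre
    exact continuous_finset_sum _ fun j _ => (Complex.continuous_re.comp (continuous_apply j)).mul continuous_const
  obtain ⟨t, ht⟩ := hcomp.elim_nhds_subcover' (fun z hz => {z' : J → ℂ |
      D.Xi (g0 z hz) * Real.exp (R0 z hz * (par (zre z') Λ - ε)) < ‖D.Ph z' (g0 z hz)‖}) (fun z hz => by
    refine IsOpen.mem_nhds (isOpen_lt ?_ ?_) (hlt z hz)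
    · exact continuous_const.mul (Real.continuous_exp.comp (continuous_const.mul (hcre.sub continuous_const)))
    · exact (e1_Ph_contz (g0 z hz)).norm)
  refine ⟨t.image fun x : Ks => (R0 x.1 x.2, g0 x.1 x.2), ?_, ?_⟩
  · intro p hp
    obtain ⟨x, _, rfl⟩ := Finset.mem_image.1 hp
    exact ⟨hR0 x.1 x.2, hk x.1 x.2⟩
  · intro z hz1 hz2
    obtain ⟨x, hx, hzx⟩ := Set.mem_iUnion₂.1 (ht (⟨hz1, hz2⟩ : z ∈ Ks))
    exact ⟨_, Finset.mem_image_of_mem _ hx, le_of_lt hzx⟩

end

end Pool.Agent.Lib.L8
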