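import Pool.Agent.Lib.L8.IG19

/-! # L8, module I, chunk IG19B: adapted words -/

namespace Pool.Agent.Lib.L8

open Matrix Pool.Agent.Lib.L1S

noncomputable section

set_option linter.unusedSectionVars false

variable {ι M N : Type} [Fintype ι] [DecidableEq ι] [AddCommGroup M] [Module ℚ M] [AddCommGroup N] [Module ℚ N]
  {P : RootPairing ι ℚ M N} [P.IsCrystallographic] [P.IsReduced] [P.IsIrreducible] [P.IsRootSystem] {b : P.Base}

/-- PROOF: induction. -/
theorem wl_append' (l l' : List b.support) (y : b.support → ℝ) : wl (cA b) (l ++ l') y = wl (cA b) l (wl (cA b) l' y) := by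
  induction l with
  | nil => rfl
  | cons i l ih =>
    show sr (cA b) i (wl (cA b) (l ++ l') y) = sr (cA b) i (wl (cA b) l (wl (cA b) l' y))
    rw [ih]

/-- PROOF: `sr_sr`, induction. -/
theorem wl_reverse (l : List b.support) (y : b.support → ℝ) : wl (cA b) l (wl (cA b) l.reverse y) = y := by
  induction l generalizing y with
  | nil => rfl
  | cons i l ih =>
    rw [List.reverse_cons, wl_append']
    show sr (cA b) i (wl (cA b) l (wl (cA b) l.reverse (sr (cA b) i y))) = y
    rw [ih, sr_sr]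

/-- PROOF: `sr A i y = y - al A i y • e_i`, induction. -/
theorem wl_fix {l : List b.support} {y : b.support → ℝ} (h : ∀ i ∈ l, al (cA b) i y = 0) : wl (cA b) l y = y := by
  induction l with
  | nil => rfl
  | cons i l ih =>
    have h1 : wl (cA b) l y = y := ih fun j hj => h j (List.mem_cons_of_mem _ hj)
    show sr (cA b) i (wl (cA b) l y) = y
    rw [h1]
    unfold sr
    rw [h i List.mem_cons_self, zero_smul, sub_zero]

/-- The coefficients outside the letters do not change. PROOF: `s_i β = β - ⟨β, α_i^∨⟩ α_i`, induction. -/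
theorem wq_fix {l : List b.support} {k : b.support} (h : k ∉ l) (β : ι) : wq b (Sum.inr (wL b l β)) k = wq b (Sum.inr β) k := by
  induction l with
  | nil => rfl
  | cons i l ih =>
    have h1 : k ∉ l := fun h' => h (List.mem_cons_of_mem _ h')
    have h2 : i ≠ k := fun h' => h (h' ▸ List.mem_cons_self)
    rw [← ih h1, l117_cons]
    show b.toWeightBasis.repr (P.root (P.reflectionPerm i (wL b l β))) k = b.toWeightBasis.repr (P.root (wL b l β)) k
    rw [P.root_reflectionPerm, P.reflection_apply, map_sub, map_smul, b.toWeightBasis_repr_root i, Finsupp.sub_apply, Finsupp.smul_apply,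
      Finsupp.single_apply, if_neg h2, smul_zero, sub_zero]

theorem ig19b_simple (i k : b.support) : wq b (Sum.inr (i : ι)) k = if i = k then 1 else 0 := by
  show b.toWeightBasis.repr (P.root i) k = _
  rw [b.toWeightBasis_repr_root i, Finsupp.single_apply]

theorem ig19b_ng (y : b.support → ℝ) (β : ι) : pry b y (Sum.inr (ng P β)) = -pry b y (Sum.inr β) := by
  unfold pry
  rw [← Finset.sum_neg_distrib]
  refine Finset.sum_congr rfl fun j _ => ?_
  have h1 : ((pj b j (Sum.inr (ng P β)) : ℤ) : ℚ) = ((-(pj b j (Sum.inr β)) : ℤ) : ℚ) := by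
    rw [Int.cast_neg, de_pj, de_pj]
    show P.coroot' j (P.root (ng P β)) = -P.coroot' j (P.root β)
    rw [l117_root_ng, map_neg]
  have h2 : pj b j (Sum.inr (ng P β)) = -(pj b j (Sum.inr β)) := by exact_mod_cast h1
  rw [h2]
  push_cast
  ring

theorem ig19b_htng (β : ι) : b.height (ng P β) = -b.height β := b.height_reflectionPerm_self β

theorem ig19b_al (y : b.support → ℝ) (i : b.support) : pry b y (Sum.inr (i : ι)) = al (cA b) i y := pry_simple y i

/-- **Adapted words.**
PROOF. `lw` from `stage1`, `Z' = wl lw.reverse Z`, so `wl lw Z' = Z` (`wl_reverse`) and `al i Z' = pry Z' (inr i) = pry Z (inr (w α_i))` (`pry_simple`, `pry_wl`). It is `≤ 0`: if `w α_i > 0` it is `0` (`stage1`), if `w α_i < 0` it is `≤ 0` (`pry_dom` for `-w α_i`, `pry` of the negative root is the negative).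
`lM` from `stage2` with `J i := al i Z' = 0`. `wl (lw ++ lM) Z' = wl lw (wl lM Z') = wl lw Z' = Z` (`wl_fix`).
All `wL (lw ++ lM) i` are negative: if `al i Z' = 0` by `stage2`; otherwise `pry Z (inr (wL (lw ++ lM) i)) = pry Z' (inr i) = al i Z' < 0` (`pry_wl`), and a positive root has `pry ≥ 0`.
If `al i Z' = 0`: `wL lw i` is positive: otherwise `β = -α_i < 0` has `wL lw β > 0`, so by `word_inv` `wL lw β = wL l₁ j` with `pry Z > 0` (`stage1`), but `pry Z (wL lw β) = pry Z' (inr β) = -al i Z' = 0`.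
`wL lM i` is negative for `al i Z' = 0`: its coefficients outside `J` are zero (`wq_fix`), so if it were positive, then `wL lw (wL lM i)` would be a combination with nonnegative coefficients (`wq_wL`) of the positive roots `wL lw j`, `j ∈ J`, so it would be positive, but `wL (lw ++ lM) i` is negative. -/
theorem adapted {Z : b.support → ℝ} (hZ : ∀ i, 0 ≤ al (cA b) i Z) : ∃ (lw lM : List b.support) (Z' : b.support → ℝ),
    (∀ (l₁ : List b.support) (i : b.support) (l₂ : List b.support), lw ++ lM = l₁ ++ i :: l₂ → 0 < b.height (wL b l₁ (i : ι))) ∧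
    (∀ i : b.support, b.height (wL b (lw ++ lM) (i : ι)) < 0) ∧
    wl (cA b) lw Z' = Z ∧ wl (cA b) (lw ++ lM) Z' = Z ∧ (∀ i, al (cA b) i Z' ≤ 0) ∧ (∀ i ∈ lM, al (cA b) i Z' = 0) ∧
    (∀ (l₁ : List b.support) (i : b.support) (l₂ : List b.support), lw = l₁ ++ i :: l₂ → 0 < pry b Z (Sum.inr (wL b l₁ (i : ι)))) ∧
    ∀ i : b.support, al (cA b) i Z' = 0 → 0 < b.height (wL b lw (i : ι)) ∧ b.height (wL b lM (i : ι)) < 0 := by
  obtain ⟨lw, h1, h2⟩ := stage1 (b := b) hZ
  have hZ' : wl (cA b) lw (wl (cA b) lw.reverse Z) = Z := wl_reverse lw Z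
  set Z' := wl (cA b) lw.reverse Z with hZdef
  have key1 : ∀ β : ι, pry b Z (Sum.inr (wL b lw β)) = pry b Z' (Sum.inr β) := by
    intro β
    have h := pry_wl lw Z' β
    rw [hZ'] at h
    exact h
  have key2 : ∀ i : b.support, al (cA b) i Z' = pry b Z (Sum.inr (wL b lw (i : ι))) := by
    intro i
    rw [key1, ig19b_al]
  have hle : ∀ i : b.support, al (cA b) i Z' ≤ 0 := by
    intro i
    rw [key2]
    rcases lt_or_gt_of_ne (height_ne b (wL b lw (i : ι))) with h | h
    · by_contra hc
      have h3 := pry_pos hZ (not_le.1 hc)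
      omega
    · exact (h2 i h).le
  obtain ⟨lM, h3, h4, h5⟩ := stage2 lw (fun l₁ i l₂ h => (h1 l₁ i l₂ h).1) (fun i => al (cA b) i Z' = 0)
  have hd : wl (cA b) (lw ++ lM) Z' = Z := by
    rw [wl_append', wl_fix h3, hZ']
  have hb : ∀ i : b.support, b.height (wL b (lw ++ lM) (i : ι)) < 0 := by
    intro i
    by_cases hi : al (cA b) i Z' = 0
    · exact h5 i hi
    · have h6 := pry_wl (lw ++ lM) Z' (i : ι)
      rw [hd, ig19b_al] at h6
      have h7 : pry b Z (Sum.inr (wL b (lw ++ lM) (i : ι))) < 0 := by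
        rw [h6]
        exact lt_of_le_of_ne (hle i) hi
      rcases lt_or_gt_of_ne (height_ne b (wL b (lw ++ lM) (i : ι))) with h | h
      · exact h
      · exact absurd (pry_dom hZ h) (not_le.2 h7)
  have hfst : ∀ i : b.support, al (cA b) i Z' = 0 → 0 < b.height (wL b lw (i : ι)) := by
    intro i hi
    rcases lt_or_gt_of_ne (height_ne b (wL b lw (i : ι))) with h | h
    · exfalso
      have h6 : b.height (ng P (i : ι)) < 0 := by
        rw [ig19b_htng, RootPairing.Base.height_one_of_mem_support i.2]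
        norm_num
      have h7 : 0 < b.height (wL b lw (ng P (i : ι))) := by
        rw [l117_ng, ig19b_htng]
        omega
      obtain ⟨l₁, j, l₂, e1, e2⟩ := word_inv lw h6 h7
      have h8 := (h1 l₁ j l₂ e1).2
      rw [← e2, key1, ig19b_ng, ig19b_al, hi, neg_zero] at h8
      exact lt_irrefl _ h8
    · exact h
  refine ⟨lw, lM, Z', h4, hb, hZ', hd, hle, h3, fun l₁ i l₂ h => (h1 l₁ i l₂ h).2, fun i hi => ⟨hfst i hi, ?_⟩⟩
  rcases lt_or_gt_of_ne (height_ne b (wL b lM (i : ι))) with h | h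
  · exact h
  · exfalso
    have h6 : ∀ m : b.support, 0 ≤ wq b (Sum.inr (wL b lw (wL b lM (i : ι)))) m := by
      intro m
      rw [wq_wL]
      refine Finset.sum_nonneg fun k _ => ?_
      by_cases hk : wq b (Sum.inr (wL b lM (i : ι))) k = 0
      · rw [hk, zero_mul]
      · have h7 : al (cA b) k Z' = 0 := by
          by_cases hkl : k ∈ lM
          · exact h3 k hkl
          · rw [wq_fix hkl, ig19b_simple] at hk
            by_cases hik : i = k
            · rw [← hik]
              exact hi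
            · rw [if_neg hik] at hk
              exact absurd rfl hk
        exact mul_nonneg (wq_nonneg h k) (wq_nonneg (hfst k h7) m)
    have h8 := hb i
    rw [wL_append, Equiv.Perm.mul_apply] at h8
    have h9 := height_wq (b := b) (wL b lw (wL b lM (i : ι)))
    have h10 : (0 : ℚ) ≤ ((b.height (wL b lw (wL b lM (i : ι))) : ℤ) : ℚ) := by
      rw [h9]
      exact Finset.sum_nonneg fun m _ => h6 m
    have h11 : (0 : ℤ) ≤ b.height (wL b lw (wL b lM (i : ι))) := by exact_mod_cast h10
    omega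

/-- PROOF: `pry Z β = ∑_k wq (inr β) k * al k Z` (`pry_wq`) is positive, so some `wq (inr β) k > 0` and `al k Z > 0` (all `al k Z ≥ 0`); then `wl_coroot`, `lenq_pos`. -/
theorem adapted_k {Z : b.support → ℝ} (hZ : ∀ i, 0 ≤ al (cA b) i Z) {l : List b.support} {i : b.support} (h : 0 < pry b Z (Sum.inr (wL b l (i : ι)))) :
    ∃ k, 0 < al (cA b) k Z ∧ 0 < wl (cA b) l (Pi.single i 1) k := by
  have h1 := pry_wq (b := b) Z (Sum.inr (wL b l (i : ι)))
  rw [h1] at h
  obtain ⟨k, -, hk⟩ : ∃ k ∈ (Finset.univ : Finset b.support), 0 < ((wq b (Sum.inr (wL b l (i : ι))) k : ℚ) : ℝ) * al (cA b) k Z := by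
    by_contra hc
    push Not at hc
    exact absurd h (not_lt.2 (Finset.sum_nonpos hc))
  have hk' : 0 < ((wq b (Sum.inr (wL b l (i : ι))) k : ℚ) : ℝ) * al (cA b) k Z := hk
  have h2 : 0 < al (cA b) k Z := by
    refine lt_of_le_of_ne (hZ k) fun h3 => ?_
    rw [← h3, mul_zero] at hk'
    exact lt_irrefl _ hk'
  have h4 : 0 < ((wq b (Sum.inr (wL b l (i : ι))) k : ℚ) : ℝ) := (pos_iff_pos_of_mul_pos hk').2 h2
  have h5 : 0 < wq b (Sum.inr (wL b l (i : ι))) k := by exact_mod_cast h4
  refine ⟨k, h2, ?_⟩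
  rw [wl_coroot]
  have h6 : 0 < wq b (Sum.inr (wL b l (i : ι))) k * lenq P i / lenq P k := div_pos (mul_pos h5 (lenq_pos _)) (lenq_pos _)
  exact_mod_cast h6

theorem ig19b_two (b : P.Base) (j : b.support) : ∑ β ∈ Pos b, P.pairingIn ℤ β j = 2 := by
  have h1 := dc2_sum b j.2 (fun β => P.pairingIn ℤ β j)
  have h2 : ∀ β : ι, P.pairingIn ℤ (P.reflectionPerm j β) j = -P.pairingIn ℤ β j := by
    intro β
    have h3 : ((P.pairingIn ℤ (P.reflectionPerm j β) j : ℤ) : ℚ) = ((-P.pairingIn ℤ β j : ℤ) : ℚ) := by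
      have h4 := de_pj b j (Sum.inr (P.reflectionPerm j β))
      have h5 := de_pj b j (Sum.inr β)
      have h6 : ((P.pairingIn ℤ (P.reflectionPerm j β) j : ℤ) : ℚ) = P.coroot' j (P.root (P.reflectionPerm j β)) := h4
      have h7 : ((P.pairingIn ℤ β j : ℤ) : ℚ) = P.coroot' j (P.root β) := h5
      rw [h6, Int.cast_neg, h7, P.root_reflectionPerm, P.reflection_apply, map_sub, map_smul, P.root_coroot'_eq_pairing (i := j) (j := j), P.pairing_same, smul_eq_mul]
      ring
    exact_mod_cast h3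
  have h3 : P.pairingIn ℤ j j = 2 := P.pairingIn_same ℤ j
  simp only [h2, h3] at h1
  rw [Finset.sum_neg_distrib] at h1
  omega

theorem ig19b_sum (y : b.support → ℝ) : ∑ β ∈ Pos b, pry b y (Sum.inr β) = 2 * ∑ j, y j := by
  unfold pry
  rw [Finset.sum_comm, Finset.mul_sum]
  refine Finset.sum_congr rfl fun j _ => ?_
  rw [← Finset.sum_mul]
  have h1 : ∑ β ∈ Pos b, ((pj b j (Sum.inr β) : ℤ) : ℝ) = ((∑ β ∈ Pos b, P.pairingIn ℤ β j : ℤ) : ℝ) := by
    rw [Int.cast_sum]
    rfl
  rw [h1, ig19b_two]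
  norm_num

/-- **`w_0 ρ = -ρ`.**
PROOF: `2 ∑_j y_j = ∑_(β > 0) pry y (inr β)`: for every `k`, `∑_(β > 0) ⟨β, α_k^∨⟩ = 2`: `dc2_sum` (L1S/DC2) with `f β = P.pairingIn ℤ β k`: `∑ f (s_k β) = -∑ f β` and `= ∑ f β - 2 - 2`. And `∑_(β > 0) pry (w y) (inr β) = ∑_(γ < 0) pry y (inr γ)` (`β = w γ`, `pry_wl`; `w` maps the negative roots onto the positive ones: `wL_neg`, `wL_neg'`)
`= -∑_(β > 0) pry y (inr β)`. -/
theorem long_rho {l : List b.support} (h : ∀ i : b.support, b.height (wL b l (i : ι)) < 0) (y : b.support → ℝ) : ∑ j, wl (cA b) l y j = -∑ j, y j := by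
  have h1 := ig19b_sum (b := b) (wl (cA b) l y)
  have h2 := ig19b_sum (b := b) y
  have h3 : ∑ β ∈ Pos b, pry b (wl (cA b) l y) (Sum.inr β) = ∑ β ∈ Pos b, -pry b y (Sum.inr β) := by
    refine Finset.sum_bij' (fun β _ => ng P ((wL b l).symm β)) (fun γ _ => wL b l (ng P γ)) ?_ ?_ ?_ ?_ ?_
    · intro β hβ
      unfold Pos at hβ ⊢
      rw [Finset.mem_filter] at hβ ⊢
      refine ⟨Finset.mem_univ _, ?_⟩
      have h4 : b.height ((wL b l).symm β) < 0 := by
        refine wL_neg' h ?_
        rw [Equiv.apply_symm_apply]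
        exact hβ.2
      rw [ig19b_htng]
      omega
    · intro γ hγ
      unfold Pos at hγ ⊢
      rw [Finset.mem_filter] at hγ ⊢
      refine ⟨Finset.mem_univ _, ?_⟩
      have h4 := wL_neg h hγ.2
      rw [l117_ng, ig19b_htng]
      omega
    · intro β _
      have h5 : ng P (ng P ((wL b l).symm β)) = (wL b l).symm β := by
        refine P.root.injective ?_
        rw [l117_root_ng, l117_root_ng, neg_neg]
      show wL b l (ng P (ng P ((wL b l).symm β))) = β
      rw [h5, Equiv.apply_symm_apply]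
    · intro γ _
      have h5 : ng P (ng P γ) = γ := by
        refine P.root.injective ?_
        rw [l117_root_ng, l117_root_ng, neg_neg]
      show ng P ((wL b l).symm (wL b l (ng P γ))) = γ
      rw [Equiv.symm_apply_apply, h5]
    · intro β _
      have h6 := pry_wl l y ((wL b l).symm β)
      rw [Equiv.apply_symm_apply] at h6
      rw [h6, ig19b_ng, neg_neg]
  rw [Finset.sum_neg_distrib, h1, h2] at h3
  linarith

end

end Pool.Agent.Lib.L8
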