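import Pool.Agent.Lib.L8.FV4
import Pool.Agent.Lib.L8.IG19B

/-!
# The size condition at a finite place for types with the inequality `D y_i ≤ 2 r_i ∑ y_j`
-/

namespace Pool.Agent.Lib.L8.EX2

open Matrix Pool.Agent.Lib.L1S

noncomputable section

set_option linter.unusedSectionVars false

variable {ι M N : Type} [Fintype ι] [DecidableEq ι] [AddCommGroup M] [Module ℚ M] [AddCommGroup N] [Module ℚ N]
  {P : RootPairing ι ℚ M N} [P.IsCrystallographic] [P.IsRootSystem] [P.IsReduced] [P.IsIrreducible] {b : P.Base}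

/-- The Cartan matrix of the base `b` is `A`. -/
def Typ (b : P.Base) {n : ℕ} (A : Matrix (Fin n) (Fin n) ℤ) : Prop := ∃ e : b.support ≃ Fin n, ∀ i j : b.support, P.pairingIn ℤ i j = A (e i) (e j)

/-- The numbers `r` with `α_i(r) = 1` and the inequality `D y_i ≤ 2 r_i ∑ y_j` for dominant `y`. -/
def HasR (b : P.Base) (D : ℕ) : Prop :=
  ∃ r : b.support → ℝ, (∀ i, 0 ≤ r i) ∧ (∀ i, al (cA b) i r = 1) ∧ ∀ y : b.support → ℝ, (∀ i, 0 ≤ al (cA b) i y) → ∀ i, (D : ℝ) * y i ≤ 2 * r i * ∑ j, y j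

theorem hasR_of {n : ℕ} {A : Matrix (Fin n) (Fin n) ℤ} (h : Typ b A) {D : ℕ} {r : Fin n → ℝ} (h0 : ∀ k, 0 ≤ r k) (h1 : ∀ k, ∑ j, ((A k j : ℤ) : ℝ) * r j = 1)
    (h2 : ∀ y : Fin n → ℝ, (∀ k, 0 ≤ ∑ j, ((A k j : ℤ) : ℝ) * y j) → ∀ i, (D : ℝ) * y i ≤ 2 * r i * ∑ j, y j) : HasR b D := by
  obtain ⟨e, he⟩ := h
  have key : ∀ (y : b.support → ℝ) (i : b.support), al (cA b) i y = ∑ j, ((A (e i) j : ℤ) : ℝ) * y (e.symm j) := by
    intro y i
    unfold al
    rw [← Equiv.sum_comp e]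
    refine Finset.sum_congr rfl fun j _ => ?_
    rw [Equiv.symm_apply_apply, ← he i j]
    rfl
  refine ⟨fun i => r (e i), fun i => h0 _, fun i => ?_, fun y hy i => ?_⟩
  · rw [key]
    simp only [Equiv.apply_symm_apply]
    exact h1 _
  · have h3 := h2 (fun k => y (e.symm k)) (fun k => by
      have h4 := hy (e.symm k)
      rw [key, Equiv.apply_symm_apply] at h4
      exact h4) (e i)
    rw [Equiv.symm_apply_apply, Equiv.sum_comp e.symm y] at h3
    exact h3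

theorem ht_r {r : b.support → ℝ} (hr : ∀ i, al (cA b) i r = 1) (β : ι) : pry b r (Sum.inr β) = ((b.height β : ℤ) : ℝ) := by
  have h1 : pry b r (Sum.inr β) = ∑ k, ((L1S.wq b (Sum.inr β) k : ℚ) : ℝ) * al (cA b) k r := pry_wq r (Sum.inr β)
  rw [h1]
  simp only [hr, mul_one]
  have h2 := height_wq (b := b) β
  have h3 := congrArg (fun q : ℚ => (q : ℝ)) h2
  push_cast at h3
  exact h3.symm

/-- `∑_(β ∈ Φ_i) ht β = c_i r_i`. -/
theorem sum_ht {r : b.support → ℝ} (hr : ∀ i, al (cA b) i r = 1) (i : b.support) : ((∑ β ∈ Phi b i, b.height β : ℤ) : ℝ) = ((cw b i : ℤ) : ℝ) * r i := by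
  rw [← sum_phi i r]
  push_cast
  exact Finset.sum_congr rfl fun β _ => (ht_r hr β).symm

/-- The value of an integral coweight on a root. -/
def pz (b : P.Base) (c : b.support → ℤ) (β : ι) : ℤ := ∑ j, c j * P.pairingIn ℤ β j

theorem pz_pry (c : b.support → ℤ) (β : ι) : ((pz b c β : ℤ) : ℝ) = pry b (fun j => (c j : ℝ)) (Sum.inr β) := by
  unfold pz pry
  push_cast
  exact Finset.sum_congr rfl fun j _ => mul_comm _ _

theorem pz_sum (c : b.support → ℤ) (i : b.support) : ((∑ β ∈ Phi b i, pz b c β : ℤ) : ℝ) = ((cw b i : ℤ) : ℝ) * c i := by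
  rw [← sum_phi i (fun j => (c j : ℝ))]
  push_cast
  exact Finset.sum_congr rfl fun β _ => pz_pry c β

theorem pz_rho (c : b.support → ℤ) : ((∑ β with 0 < b.height β, pz b c β : ℤ) : ℝ) = 2 * ∑ j, (c j : ℝ) := by
  rw [← ig19b_sum (fun j => (c j : ℝ))]
  push_cast
  refine Finset.sum_congr ?_ fun β _ => pz_pry c β
  ext β
  simp [Pos]

/-- **The size condition.** -/
theorem sz_int {D : ℕ} (hD : HasR b D) (D0 : 0 < D) {q N : ℝ} (hq : 1 ≤ q) (hN : 1 ≤ N) {c : b.support → ℤ} (hc : ∀ i : b.support, 0 ≤ pz b c i)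
    (h : q ^ (∑ β with 0 < b.height β, pz b c β) ≤ N ^ D) (i : b.support) : q ^ (∑ β ∈ Phi b i, pz b c β) ≤ N ^ (∑ β ∈ Phi b i, b.height β) := by
  obtain ⟨r, r0, hr, hy⟩ := hD
  have hD0 : (0 : ℝ) < D := by exact_mod_cast D0
  have hq0 : (0 : ℝ) < q := lt_of_lt_of_le one_pos hq
  have hN0 : (0 : ℝ) < N := lt_of_lt_of_le one_pos hN
  have y1 : ∀ i, 0 ≤ al (cA b) i fun j => (c j : ℝ) := by
    intro i
    rw [← ig19b_al, ← pz_pry]
    exact_mod_cast hc i
  have l1 : Real.log q * (2 * ∑ j, (c j : ℝ)) ≤ D * Real.log N := by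
    have h1 := Real.log_le_log (zpow_pos hq0 _) h
    rw [Real.log_zpow, Real.log_pow, pz_rho, mul_comm] at h1
    exact h1
  have l2 : Real.log q * (((cw b i : ℤ) : ℝ) * c i) ≤ Real.log N * (((cw b i : ℤ) : ℝ) * r i) := by
    have ci : (0 : ℝ) ≤ ((cw b i : ℤ) : ℝ) := by exact_mod_cast (cw_pos i).le
    have h1 := mul_le_mul_of_nonneg_left (hy _ y1 i) (Real.log_nonneg hq)
    have h2 := mul_le_mul_of_nonneg_left l1 (r0 i)
    have h3 : (D : ℝ) * (Real.log q * c i) ≤ D * (Real.log N * r i) := by nlinarith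
    have h4 := mul_le_mul_of_nonneg_left (le_of_mul_le_mul_left h3 hD0) ci
    nlinarith
  have l3 : Real.log (q ^ (∑ β ∈ Phi b i, pz b c β)) ≤ Real.log (N ^ (∑ β ∈ Phi b i, b.height β)) := by
    rw [Real.log_zpow, Real.log_zpow, pz_sum, sum_ht hr, mul_comm, mul_comm _ (Real.log N)]
    exact l2
  exact (Real.log_le_log_iff (zpow_pos hq0 _) (zpow_pos hN0 _)).1 l3

end

end Pool.Agent.Lib.L8.EX2
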