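import Pool.Agent.Lib.L8.PD1

/-!
# L8, module P4, file PD2 (helper29): the minors are zero, with growth at the infinite places and for all `A`
-/

namespace Pool.Agent.Lib.L8

set_option linter.unusedSectionVars false

open MeasureTheory Matrix NumberField NumberField.InfinitePlace IsDedekindDomain Pool.Agent.Lib.H89N Pool.Agent.Lib.H33W Pool.Agent.Lib.L1S

noncomputable section

variable {ι M N : Type} [Fintype ι] [DecidableEq ι] [AddCommGroup M] [Module ℚ M] [AddCommGroup N] [Module ℚ N]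
  {P : RootPairing ι ℚ M N} [P.IsCrystallographic] [P.IsReduced] [P.IsIrreducible] [P.IsRootSystem]

/-- The diagonal matrix with the entries `a_β` (and `1` in the Cartan part). -/
def dgz (b : P.Base) {L : Type} [Field L] [NumberField L] (a : ι → (EE L)ˣ) : Matrix (I b) (I b) (EE L) := Matrix.diagonal (Sum.elim (fun _ => 1) fun β => (a β : EE L))

/-- `γ = u' a (ω₁ Y ω₂) a⁻¹ u` with `ω₁, ω₂ ∈ Ω`, the row sums of the `k_i`-th compound matrix of `Y` at the place `w` at most `X i w`; `a` any element of the torus. -/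
def Mv4 (b : P.Base) {L : Type} [Field L] [NumberField L] (Ω : Set (GL (I b) (EE L))) (a : ι → (EE L)ˣ) (X : b.support → InfinitePlace L → ℝ) (γ : GR b L) : Prop :=
  ∃ u ∈ UR b L, ∃ u' ∈ UR b L, ∃ ω₁ ∈ Ω, ∃ ω₂ ∈ Ω, ∃ Y : Matrix (I b) (I b) (EE L), (∀ i w, CB (Phi b i).card w Y (X i w)) ∧
    γ.1.1 = u'.1.1 * (dgz b a * (ω₁.1 * Y * ω₂.1) * dgz b a⁻¹) * u.1.1

/-- `γ = u' a (ω₁ Y ω₂) a⁻¹ u` with `ω₁, ω₂ ∈ Ω`, the row sums of the `k_i`-th compound matrix of `Y` at the place `w` at most `X i w`; `a = exp(A)`. -/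
def Mv3 (b : P.Base) {L : Type} [Field L] [NumberField L] (Ω : Set (GL (I b) (EE L))) (A : M →ₗ[ℚ] ℝ) (X : b.support → InfinitePlace L → ℝ) (γ : GR b L) : Prop :=
  ∃ u ∈ UR b L, ∃ u' ∈ UR b L, ∃ ω₁ ∈ Ω, ∃ ω₂ ∈ Ω, ∃ Y : Matrix (I b) (I b) (EE L), (∀ i w, CB (Phi b i).card w Y (X i w)) ∧
    γ.1.1 = u'.1.1 * (dg b L A * (ω₁.1 * Y * ω₂.1) * dg b L (-A)) * u.1.1

/-- `exp(A)` as an element of the torus. -/
def aA (P : RootPairing ι ℚ M N) (L : Type) [Field L] [NumberField L] (A : M →ₗ[ℚ] ℝ) (β : ι) : (EE L)ˣ := Units.map (algebraMap ℝ (EE L)).toMonoidHom (Units.mk0 (Real.exp (A (P.root β))) (Real.exp_ne_zero _))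

theorem pd_dg (b : P.Base) (L : Type) [Field L] [NumberField L] (A : M →ₗ[ℚ] ℝ) : dg b L A = dgz b (aA P L A) := rfl

theorem pd_aA_neg (L : Type) [Field L] [NumberField L] (A : M →ₗ[ℚ] ℝ) : aA P L (-A) = (aA P L A)⁻¹ := by
  funext β
  show aA P L (-A) β = (aA P L A β)⁻¹
  unfold aA
  rw [← map_inv]
  congr 1
  ext
  simp [Real.exp_neg]

theorem pd_aA_refl (L : Type) [Field L] [NumberField L] (A : M →ₗ[ℚ] ℝ) (β : ι) : aA P L A (P.reflectionPerm β β) = (aA P L A β)⁻¹ := by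
  unfold aA
  rw [← map_inv]
  congr 1
  ext
  simp [Real.exp_neg]

theorem Mv3.mv4 {b : P.Base} {L : Type} [Field L] [NumberField L] {Ω : Set (GL (I b) (EE L))} {A : M →ₗ[ℚ] ℝ} {X : b.support → InfinitePlace L → ℝ} {γ : GR b L} (h : Mv3 b Ω A X γ) :
    Mv4 b Ω (aA P L A) X γ := by
  obtain ⟨u, hu, u', hu', ω₁, h1, ω₂, h2, Y, hY, e⟩ := h
  refine ⟨u, hu, u', hu', ω₁, h1, ω₂, h2, Y, hY, ?_⟩
  rw [← pd_aA_neg, ← pd_dg, ← pd_dg]
  exact e

/-- The size condition for real numbers `q`, `n`, the exponent `e` of the level, the factors `R i` (infinite places) and `E i j` (the point). -/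
def Szx (b : P.Base) (q n : ℝ) (e : ℕ) (c c' : b.support → ℤ) (R : b.support → ℝ) (E : b.support → b.support → ℝ) : Prop :=
  ∀ i j, Opp b i j →
    q ^ (Sl b i c + Sl b j c') * R i ≤ (n * q ^ e) ^ (Phi b i).card * E i j ∨
    ∃ (l : b.support) (T : ℕ), (∀ β, mc b l (Sum.inr β) ≤ T) ∧
      (q ^ (Sl b i c + Sl b j c') * R i) ^ T ≤ (n * q ^ e) ^ (SM b i l + SM b j l) * E i j ^ T

variable {L : Type} [Field L] [NumberField L]

/-- The archimedean factor of the size condition. -/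
def Rf (b : P.Base) (X : b.support → InfinitePlace L → ℝ) (i : b.support) : ℝ := ∏ w, X i w ^ mult w

theorem rf_nonneg {b : P.Base} {X : b.support → InfinitePlace L → ℝ} (hX : ∀ i w, 0 ≤ X i w) (i : b.support) : 0 ≤ Rf b X i :=
  Finset.prod_nonneg fun w _ => pow_nonneg (hX i w) _

/-- The factor of the point in the size condition: `∏_{β ∈ Φ_i} |a_β| ∏_{β ∈ Φ_j} |a_β|`, `|z| = ∏ |z|_w ^ n_w` the norm on `L ⊗ ℝ`. -/
def Ea (b : P.Base) (a : ι → (EE L)ˣ) (i j : b.support) : ℝ := (∏ β ∈ Phi b i, mixedEmbedding.norm (a β : EE L)) * ∏ β ∈ Phi b j, mixedEmbedding.norm (a β : EE L)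

theorem pd_norm_unit (z : (EE L)ˣ) : 0 < mixedEmbedding.norm (z : EE L) := by
  refine lt_of_le_of_ne (mixedEmbedding.norm_nonneg _) fun h => ?_
  have h1 : mixedEmbedding.norm (z : EE L) * mixedEmbedding.norm ((z⁻¹ : (EE L)ˣ) : EE L) = 1 := by
    rw [← map_mul, Units.mul_inv, map_one]
  rw [← h, zero_mul] at h1
  exact zero_ne_one h1

theorem pd_norm_inv (z : (EE L)ˣ) : mixedEmbedding.norm ((z⁻¹ : (EE L)ˣ) : EE L) = (mixedEmbedding.norm (z : EE L))⁻¹ := by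
  refine eq_inv_of_mul_eq_one_left ?_
  rw [← map_mul, Units.inv_mul, map_one]

theorem ea_pos (b : P.Base) (a : ι → (EE L)ˣ) (i j : b.support) : 0 < Ea b a i j :=
  mul_pos (Finset.prod_pos fun _ _ => pd_norm_unit _) (Finset.prod_pos fun _ _ => pd_norm_unit _)

theorem ea_aA (b : P.Base) (A : M →ₗ[ℚ] ℝ) (i j : b.support) : Ea b (aA P L A) i j = Real.exp (Module.finrank ℚ L * (AA b A i + AA b A j)) := by
  have h1 : ∀ β, mixedEmbedding.norm (aA P L A β : EE L) = Real.exp (Module.finrank ℚ L * A (P.root β)) := by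
    intro β
    have e : (aA P L A β : EE L) = Real.exp (A (P.root β)) • (1 : EE L) := by
      rw [← Algebra.algebraMap_eq_smul_one]
      rfl
    rw [e, mixedEmbedding.norm_smul, map_one, mul_one, Real.abs_exp, ← Real.exp_nat_mul]
  unfold Ea
  simp only [h1]
  rw [← Real.exp_sum, ← Real.exp_sum, ← Real.exp_add, ← Finset.mul_sum, ← Finset.mul_sum, ← mul_add]
  rfl

/-- The minor of `a κ a⁻¹`. -/
theorem pd_dm {b : P.Base} {i j : b.support} {w : Equiv.Perm ι} (hw : OppW b i j w) {a : ι → (EE L)ˣ} (ha : ∀ β, a (P.reflectionPerm β β) = (a β)⁻¹) (κ : Matrix (I b) (I b) (EE L)) :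
    mixedEmbedding.norm (Dm b i w (dgz b a * κ * dgz b a⁻¹)) = (Ea b a i j)⁻¹ * mixedEmbedding.norm (Dm b i w κ) := by
  have e : (Matrix.of fun β β' : Phi b i => (dgz b a * κ * dgz b a⁻¹) (Sum.inr (w β.1)) (Sum.inr β'.1)) =
      Matrix.of fun β β' : Phi b i => (((a β'.1)⁻¹ : (EE L)ˣ) : EE L) *
        (Matrix.of fun β β' : Phi b i => (a (w β.1) : EE L) *
          (Matrix.of fun β β' : Phi b i => κ (Sum.inr (w β.1)) (Sum.inr β'.1)) β β') β β' := by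
    ext1 β β'
    simp only [Matrix.of_apply]
    unfold dgz
    rw [Matrix.mul_diagonal, Matrix.diagonal_mul]
    simp only [Sum.elim_inr, Pi.inv_apply]
    ring
  have h1 : ∏ β : Phi b i, mixedEmbedding.norm (((a β.1)⁻¹ : (EE L)ˣ) : EE L) = (∏ β ∈ Phi b i, mixedEmbedding.norm (a β : EE L))⁻¹ := by
    rw [← Finset.prod_inv_distrib, ← Finset.prod_coe_sort (Phi b i)]
    exact Finset.prod_congr rfl fun β _ => pd_norm_inv _
  have h2 : ∏ β : Phi b i, mixedEmbedding.norm (a (w β.1) : EE L) = (∏ β ∈ Phi b j, mixedEmbedding.norm (a β : EE L))⁻¹ := by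
    have h3 := d2_bij hw (S := Additive ℝ) (fun β => Additive.ofMul (mixedEmbedding.norm (a β : EE L)))
    have h4 : ∏ β ∈ Phi b i, mixedEmbedding.norm (a (P.reflectionPerm (w β) (w β)) : EE L) = ∏ β ∈ Phi b j, mixedEmbedding.norm (a β : EE L) := h3
    rw [← h4, ← Finset.prod_inv_distrib, ← Finset.prod_coe_sort (Phi b i)]
    refine Finset.prod_congr rfl fun β _ => ?_
    rw [ha, pd_norm_inv, inv_inv]
  unfold Dm
  rw [e, Matrix.det_mul_row, Matrix.det_mul_column, map_mul, map_mul, map_prod, map_prod, h1, h2, ← mul_assoc]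
  congr 1
  unfold Ea
  rw [mul_inv]

/-- **The size of the minors at the infinite places.** -/
theorem pd_arch (b : P.Base) (L : Type) [Field L] [NumberField L] {Ω : Set (GL (I b) (EE L))} (hΩ : IsCompact Ω) :
    ∃ C : ℝ, 0 < C ∧ ∀ a : ι → (EE L)ˣ, (∀ β, a (P.reflectionPerm β β) = (a β)⁻¹) → ∀ X : b.support → InfinitePlace L → ℝ, (∀ i w, 0 ≤ X i w) → ∀ γ : GK b L, Mv4 b Ω a X (emb b L γ) →
      ∀ (i j : b.support) (w : Equiv.Perm ι), OppW b i j w →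
      mixedEmbedding.norm (mixedEmbedding L (Dm b i w γ.1.1)) ≤ C * Rf b X i * (Ea b a i j)⁻¹ := by
  have h1 : ∀ i : b.support, ∃ C : ℝ, 1 ≤ C ∧ ∀ s ∈ Ω, ∀ w : InfinitePlace L, CB (Phi b i).card w s.1 C := fun i =>
    cb_compact (L := L) (Phi b i).card hΩ (F := fun s : GL (I b) (EE L) => s.1) Units.continuous_val
  choose C hC1 hC using h1
  set B : b.support → ℝ := fun i => ((Phi b i).card.factorial * (C i * C i)) ^ Module.finrank ℚ L with hB
  have hB0 : ∀ i, 0 ≤ B i := fun i => pow_nonneg (mul_nonneg (Nat.cast_nonneg _) (mul_self_nonneg _)) _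
  refine ⟨∑ i, B i + 1, by
    have := Finset.sum_nonneg fun i (_ : i ∈ Finset.univ) => hB0 i
    linarith, fun a ha X hX γ hγ i j w hw => ?_⟩
  obtain ⟨u, hu, u', hu', ω₁, h1, ω₂, h2, Y, hY, e3⟩ := hγ
  have e1 : (emb b L γ).1.1 = γ.1.1.map (mixedEmbedding L) := rfl
  rw [← dm_map, ← e1, e3, dm_uni hw (uni_UR b hu') (uni_UR b hu), pd_dm hw ha, mul_comm]
  refine mul_le_mul_of_nonneg_right ?_ (inv_pos.2 (ea_pos b a i j)).le
  have h3 : ∀ w' : InfinitePlace L, mixedEmbedding.normAtPlace w' (Dm b i w (ω₁.1 * Y * ω₂.1)) ≤ ((Phi b i).card.factorial * (C i * C i)) * X i w' := by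
    intro w'
    have h4 : CB (Fintype.card (Phi b i)) w' (ω₁.1 * Y * ω₂.1) (C i * X i w' * C i) := by
      rw [Fintype.card_coe]
      exact ((hC i ω₁ h1 w').mul (hY i w') (hX i w')).mul (hC i ω₂ h2 w') (zero_le_one.trans (hC1 i))
    have h5 := h4.minor' (fun β : Phi b i => Sum.inr (w β.1)) (fun β : Phi b i => Sum.inr β.1)
    rw [Fintype.card_coe] at h5
    refine h5.trans (le_of_eq (by ring))
  rw [mixedEmbedding.norm_apply]
  calc ∏ w', mixedEmbedding.normAtPlace w' (Dm b i w (ω₁.1 * Y * ω₂.1)) ^ mult w' ≤ ∏ w', (((Phi b i).card.factorial * (C i * C i)) * X i w') ^ mult w' :=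
        Finset.prod_le_prod (fun w' _ => pow_nonneg (mixedEmbedding.normAtPlace_nonneg _ _) _) fun w' _ => pow_le_pow_left₀ (mixedEmbedding.normAtPlace_nonneg _ _) (h3 w') _
    _ = B i * Rf b X i := by
        simp only [mul_pow, Finset.prod_mul_distrib, hB, Rf]
        rw [Finset.prod_pow_eq_pow_sum, Finset.prod_pow_eq_pow_sum, InfinitePlace.sum_mult_eq]
    _ ≤ (∑ i, B i + 1) * Rf b X i := by
        refine mul_le_mul_of_nonneg_right ?_ (rf_nonneg hX i)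
        have := Finset.single_le_sum (f := B) (fun i _ => hB0 i) (Finset.mem_univ i)
        linarith

theorem pd_pow {X Y : ℝ} (hX : 0 ≤ X) (hY : 1 ≤ Y) {T T' : ℕ} (hT : T' ≤ T) (h : X ^ T ≤ Y) : X ^ T' ≤ Y := by
  rcases le_or_gt X 1 with h1 | h1
  · exact (pow_le_one₀ hX h1).trans hY
  · exact (pow_le_pow_right₀ h1.le hT).trans h

/-- The final comparison. -/
theorem pd_real {m n q C D R E : ℝ} {d k T e : ℕ} {S s : ℤ} (hm : 1 ≤ m) (hn : 0 < n) (hq : 0 < q) (hC : 0 ≤ C) (hD : 0 ≤ D) (hd : 1 ≤ d) (hk : 1 ≤ k)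
    (h1 : (m ^ d * n) ^ k ≤ D ^ T * q ^ s) (h2 : D ≤ C * R * E⁻¹) (h3 : (q ^ S * R * E⁻¹) ^ T ≤ (n * q ^ e) ^ k) (hs : s = T * S - e * k) : m ≤ C ^ T := by
  have h4 : (q ^ S) ^ T = q ^ s * (q ^ e) ^ k := by
    rw [← pow_mul, ← zpow_natCast q, ← zpow_natCast (q ^ S), ← _root_.zpow_mul, ← zpow_add₀ hq.ne', hs]
    congr 1
    push_cast
    ring
  have h5 : 0 < (q ^ e) ^ k := pow_pos (pow_pos hq _) _
  have h6 : (m ^ d * n) ^ k * (q ^ e) ^ k ≤ (C ^ T * n ^ k) * (q ^ e) ^ k := by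
    calc (m ^ d * n) ^ k * (q ^ e) ^ k ≤ D ^ T * q ^ s * (q ^ e) ^ k := mul_le_mul_of_nonneg_right h1 h5.le
      _ = D ^ T * (q ^ S) ^ T := by rw [h4]; ring
      _ ≤ (C * R * E⁻¹) ^ T * (q ^ S) ^ T := mul_le_mul_of_nonneg_right (pow_le_pow_left₀ hD h2 T) (pow_nonneg (zpow_pos hq _).le _)
      _ = C ^ T * (q ^ S * R * E⁻¹) ^ T := by rw [mul_pow, mul_pow, mul_pow, mul_pow]; ring
      _ ≤ C ^ T * (n * q ^ e) ^ k := mul_le_mul_of_nonneg_left h3 (pow_nonneg hC T)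
      _ = _ := by rw [mul_pow]; ring
  have h7 := le_of_mul_le_mul_right h6 h5
  rw [mul_pow] at h7
  have h8 : (m ^ d) ^ k ≤ C ^ T := le_of_mul_le_mul_right h7 (pow_pos hn k)
  refine le_trans ?_ h8
  rw [← pow_mul]
  exact le_self_pow₀ hm (by positivity)

/-- **The minors are zero**, over the splitting field, with growth at the infinite places. -/
theorem pd_zero (b : P.Base) (L : Type) [Field L] [NumberField L] {Ω : Set (GL (I b) (EE L))} (hΩ : IsCompact Ω) : ∃ m₀ : ℕ, ∀ m : ℕ, m₀ ≤ m → ∀ 𝔫 𝔳 : Ideal (𝓞 L), 𝔫 ≠ ⊥ → 𝔳 ≠ ⊥ →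
    ∀ (e : ℕ) (c c' : b.support → ℤ) (π : L) (a : ι → (EE L)ˣ), (∀ β, a (P.reflectionPerm β β) = (a β)⁻¹) → ∀ X : b.support → InfinitePlace L → ℝ, (∀ i w, 0 ≤ X i w) →
    Szx b (Ideal.absNorm 𝔳) (Ideal.absNorm 𝔫) e c c' (Rf b X) (Ea b a) →
    ∀ γ : GK b L, Qloc b (Ideal.span {(m : 𝓞 L)} * 𝔫) 𝔳 e c c' π γ → Mv4 b Ω a X (emb b L γ) →
    ∀ (i j : b.support) (w : Equiv.Perm ι), w ∈ Subgroup.closure (Set.range P.reflectionPerm) → OppW b i j w → Dm b i w γ.1.1 = 0 := by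
  obtain ⟨C0, hC0, hC⟩ := pd_arch b L hΩ
  set C : ℝ := max C0 1 with hCdef
  have hC1 : 1 ≤ C := le_max_right _ _
  refine ⟨⌈C ^ (mB b + 1)⌉₊ + 1, fun m hm 𝔫 𝔳 h𝔫 h𝔳 e c c' π a ha X hX hS γ hγ hM i j w hw hO => ?_⟩
  by_contra hD
  set q : ℝ := (Ideal.absNorm 𝔳 : ℝ) with hq
  set n : ℝ := (Ideal.absNorm 𝔫 : ℝ) with hn
  have hN1 : ∀ J : Ideal (𝓞 L), J ≠ ⊥ → (1 : ℝ) ≤ (Ideal.absNorm J : ℝ) := by
    intro J hJ
    have := Ideal.absNorm_ne_zero_iff_mem_nonZeroDivisors.2 (mem_nonZeroDivisors_of_ne_zero hJ)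
    exact_mod_cast Nat.pos_of_ne_zero this
  have hq1 : 1 ≤ q := hN1 𝔳 h𝔳
  have hq0 : 0 < q := zero_lt_one.trans_le hq1
  have hn1 : 1 ≤ n := hN1 𝔫 h𝔫
  have hn0 : 0 < n := zero_lt_one.trans_le hn1
  have hm1' : 1 ≤ m := (Nat.le_add_left 1 _).trans hm
  have hm1 : (1 : ℝ) ≤ m := by exact_mod_cast hm1'
  have hmC : C ^ (mB b + 1) < m := by
    have h14 : C ^ (mB b + 1) ≤ ⌈C ^ (mB b + 1)⌉₊ := Nat.le_ceil _
    have h15 : ((⌈C ^ (mB b + 1)⌉₊ + 1 : ℕ) : ℝ) ≤ m := by exact_mod_cast hm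
    push_cast at h15
    linarith
  have h0 : Ideal.span {(m : 𝓞 L)} * 𝔫 ≠ ⊥ := by
    refine mul_ne_zero ?_ h𝔫
    rw [Ne, Ideal.zero_eq_bot, Ideal.span_singleton_eq_bot]
    have : m ≠ 0 := by omega
    exact_mod_cast this
  obtain ⟨h1, h2⟩ := qd_ab h0 h𝔳 hγ hO hD
  have h4 := hC a ha X hX γ hM i j w hO
  have hnorm : (Ideal.absNorm (Ideal.span {(m : 𝓞 L)} * 𝔫) : ℝ) = (m : ℝ) ^ Module.finrank ℤ (𝓞 L) * n := by
    rw [map_mul, Ideal.absNorm_span_natCast, hn]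
    push_cast
    rfl
  rw [hnorm] at h1
  have hf1 : 1 ≤ Module.finrank ℤ (𝓞 L) := Module.finrank_pos
  set E : ℝ := Ea b a i j with hE
  have hE0 : 0 < E := ea_pos b a i j
  have hR0 : 0 ≤ Rf b X i := rf_nonneg hX i
  have hDC : mixedEmbedding.norm (mixedEmbedding L (Dm b i w γ.1.1)) ≤ C * Rf b X i * E⁻¹ := by
    refine h4.trans ?_
    exact mul_le_mul_of_nonneg_right (mul_le_mul_of_nonneg_right (le_max_left _ _) hR0) (inv_pos.2 hE0).le
  have hD0 : 0 ≤ mixedEmbedding.norm (mixedEmbedding L (Dm b i w γ.1.1)) := mixedEmbedding.norm_nonneg _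
  have hCn : ∀ T ≤ mB b + 1, C ^ T ≤ C ^ (mB b + 1) := fun T hT => pow_le_pow_right₀ hC1 hT
  have hX0 : 0 ≤ q ^ (Sl b i c + Sl b j c') * Rf b X i * E⁻¹ := mul_nonneg (mul_nonneg (zpow_pos hq0 _).le hR0) (inv_pos.2 hE0).le
  rcases hS i j ⟨w, hw, hO⟩ with h5 | ⟨l, T, hT, h5⟩
  · have h8 := pd_real (T := 1) (e := e) (S := Sl b i c + Sl b j c') hm1 hn0 hq0 (zero_le_one.trans hC1) hD0 hf1 (d4_card i) (by
      rw [pow_one]
      exact h1) hDC (by
      rw [pow_one, mul_inv_le_iff₀ hE0]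
      exact h5) (by
      push_cast
      ring)
    exact absurd (h8.trans (hCn 1 (by omega))) (not_le.2 hmC)
  · set T' := min T (mB b) with hT'
    have hTc : ∀ β, mc b l (Sum.inr β) ≤ T' := by
      intro β
      rw [hT']
      push_cast
      exact le_min (hT β) (d8_mB b l β)
    have hP1 : 1 ≤ SM b i l + SM b j l := by
      have := d7_SM_pos i l
      have := d7_SM_nonneg j l
      omega
    have hP2 : SM b i l + SM b j l = ((SM b i l + SM b j l).toNat : ℤ) := (Int.toNat_of_nonneg (by omega)).symm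
    have hk1 : 1 ≤ (SM b i l + SM b j l).toNat := by omega
    have h9 := h2 l T' hTc
    rw [hnorm] at h9
    have hY : 1 ≤ (n * q ^ e) ^ (SM b i l + SM b j l).toNat := one_le_pow₀ (one_le_mul_of_one_le_of_one_le hn1 (one_le_pow₀ hq1))
    have h10 : (q ^ (Sl b i c + Sl b j c') * Rf b X i * E⁻¹) ^ T' ≤ (n * q ^ e) ^ (SM b i l + SM b j l).toNat := by
      refine pd_pow hX0 hY (min_le_left T (mB b)) ?_
      rw [mul_pow _ E⁻¹, inv_pow, mul_inv_le_iff₀ (pow_pos hE0 _)]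
      rw [hP2, zpow_natCast] at h5
      exact h5
    have h11 := pd_real (T := T') (e := e) (k := (SM b i l + SM b j l).toNat) (S := Sl b i c + Sl b j c') hm1 hn0 hq0 (zero_le_one.trans hC1) hD0 hf1 hk1 h9 hDC h10 (by
      rw [← hP2])
    exact absurd (h11.trans (hCn T' ((min_le_right T (mB b)).trans (Nat.le_succ _)))) (not_le.2 hmC)

end

end Pool.Agent.Lib.L8
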