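import Pool.Agent.Lib.L8.IG24
import Pool.Agent.Lib.L8.PD2

/-!
# L8, version 2, module F (helper67), FV4: linear algebra: the sums over `Φ_i`, opposite pairs and the longest element
-/

namespace Pool.Agent.Lib.L8

open Matrix NumberField Pool.Agent.Lib.H89N Pool.Agent.Lib.L1S

noncomputable section

set_option linter.unusedSectionVars false

variable {ι M N : Type} [Fintype ι] [DecidableEq ι] [AddCommGroup M] [Module ℚ M] [AddCommGroup N] [Module ℚ N]
  {P : RootPairing ι ℚ M N} [P.IsCrystallographic] [P.IsReduced] [P.IsIrreducible] [P.IsRootSystem] {b : P.Base}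

/-- A nonzero dominant element has positive coordinates. -/
theorem dom_pos {Λ : b.support → ℝ} (h : ∀ i, 0 ≤ al (cA b) i Λ) (h0 : Λ ≠ 0) (j : b.support) : 0 < Λ j := by
  by_contra hcon
  have hd : ∀ j, 0 ≤ Λ j := ig_dom h
  have hj : Λ j = 0 := le_antisymm (not_lt.1 hcon) (hd j)
  refine h0 (funext fun k => ?_)
  refine b.induction_on_cartanMatrix (p := fun k => Λ k = 0) hj (fun i k' hi hA => ?_)
  have hA' : b.cartanMatrix i k' ≠ 0 := by
    rwa [ne_eq, b.cartanMatrix_apply_eq_zero_iff_symm] at hA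
  have h1 : ∀ k ∈ Finset.univ, ((cA b i k : ℤ) : ℝ) * Λ k ≤ 0 := fun k _ => by
    by_cases hk : i = k
    · rw [← hk]
      have h2 : Λ i = 0 := hi
      rw [h2, mul_zero]
    · exact mul_nonpos_of_nonpos_of_nonneg (by exact_mod_cast cA_off i k hk) (hd k)
  have h3 : ∑ k, ((cA b i k : ℤ) : ℝ) * Λ k = 0 := le_antisymm (Finset.sum_nonpos h1) (h i)
  have h4 := (Finset.sum_eq_zero_iff_of_nonpos h1).1 h3 k' (Finset.mem_univ _)
  rcases mul_eq_zero.1 h4 with h5 | h5
  · exact absurd (by exact_mod_cast h5) hA'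
  · exact h5

theorem wl_zero (A : b.support → b.support → ℤ) (l : List b.support) : wl A l 0 = 0 := by
  induction l with
  | nil => rfl
  | cons i l ih =>
    show sr A i (wl A l 0) = 0
    rw [ih]
    unfold sr al
    simp

/-- `-w₀ Λ` is dominant. -/
theorem dom_opp {l : List b.support} (hl : ∀ i : b.support, b.height (wL b l (i : ι)) < 0) {Λ : b.support → ℝ} (h : ∀ i, 0 ≤ al (cA b) i Λ) (i : b.support) :
    0 ≤ al (cA b) i (-(wl (cA b) l Λ)) := by
  have h1 : al (cA b) i (-(wl (cA b) l Λ)) = -pry b (wl (cA b) l Λ) (Sum.inr (i : ι)) := by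
    rw [ig19b_al]
    unfold al
    rw [← Finset.sum_neg_distrib]
    refine Finset.sum_congr rfl fun k _ => ?_
    rw [Pi.neg_apply, mul_neg]
  obtain ⟨β, hβ⟩ : ∃ β, wL b l β = (i : ι) := (wL b l).surjective i
  have h2 : pry b (wl (cA b) l Λ) (Sum.inr (i : ι)) = pry b Λ (Sum.inr β) := by
    rw [← hβ]
    exact pry_wl l Λ β
  rw [h1, h2]
  have hi : 0 < b.height (wL b l β) := by
    rw [hβ, b.height_one_of_mem_support i.2]
    exact one_pos
  have h3 := wL_neg' hl hi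
  by_contra hcon
  have h4 := pry_pos h (by linarith : 0 < pry b Λ (Sum.inr β))
  omega

/-- `w₀ Λ < 0` for `Λ` dominant, `Λ ≠ 0`. -/
theorem w0_lt {l : List b.support} (hl : ∀ i : b.support, b.height (wL b l (i : ι)) < 0) {Λ : b.support → ℝ} (h : ∀ i, 0 ≤ al (cA b) i Λ) : Λ = 0 ∨ ∀ j, wl (cA b) l Λ j < 0 := by
  by_cases h0 : Λ = 0
  · exact Or.inl h0
  refine Or.inr fun j => ?_
  have h1 : -(wl (cA b) l Λ) ≠ 0 := by
    intro h2
    have h3 : wl (cA b) l Λ = 0 := neg_eq_zero.1 h2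
    have h4 := wl_reverse l.reverse Λ
    rw [List.reverse_reverse, h3, wl_zero] at h4
    exact h0 h4.symm
  have h5 := dom_pos (dom_opp hl h) h1 j
  rw [Pi.neg_apply] at h5
  linarith

/-- `w Λ ≤ Λ` for `Λ` dominant. -/
theorem wl_le {Λ : b.support → ℝ} (h : ∀ i, 0 ≤ al (cA b) i Λ) (l : List b.support) (j : b.support) : wl (cA b) l Λ j ≤ Λ j := by
  obtain ⟨lw, lM, Z', h1, h2, _⟩ := adapted h
  have h3 := g_kos2 (F := ℝ) (l := lw ++ lM) h2 h (k := gnl b ℝ l) (gnl_K l) j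
  have h4 : gnl b ℝ l * gex b ℝ Λ = gex b ℝ (wl (cA b) l Λ) * gnl b ℝ l := by
    rw [← gnl_gex, inv_mul_cancel_right]
  have h5 : gH b ℝ (gnl b ℝ l) = 0 := by
    have h6 := gH_K (gnl_K l) (1 : GF b ℝ)
    rwa [one_mul, gH_one] at h6
  rw [h4, gH_ex, h5, add_zero] at h3
  exact h3

theorem ng_ng' (β : ι) : ng P (ng P β) = β := P.root.injective (by rw [l117_root_ng, l117_root_ng, neg_neg])

theorem mem_Phi_ng {i : b.support} {β : ι} : β ∈ Phi b i ↔ wq b (Sum.inr (ng P β)) i < 0 := by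
  unfold Phi
  rw [Finset.mem_filter]
  have h1 : wq b (Sum.inr (ng P β)) i = -b.toWeightBasis.repr (P.root β) i := by
    show b.toWeightBasis.repr (P.root (ng P β)) i = _
    rw [l117_root_ng, map_neg, Finsupp.neg_apply]
  rw [h1, neg_lt_zero]
  exact ⟨fun h => h.2, fun h => ⟨Finset.mem_univ _, h⟩⟩

/-- `∑_(β ∈ Φ_i) β(y) = c_i y_i`. -/
theorem sum_phi (i : b.support) (y : b.support → ℝ) : ∑ β ∈ Phi b i, pry b y (Sum.inr β) = ((cw b i : ℤ) : ℝ) * y i := by
  classical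
  have h1 : ∑ r : Tn b i, pry b y r.1 = -∑ β ∈ Phi b i, pry b y (Sum.inr β) := by
    have e1 : ∑ r : Tn b i, pry b y r.1 = ∑ r ∈ Finset.univ.filter (fun r : I b => wq b r i < 0), pry b y r :=
      (Finset.sum_subtype (Finset.univ.filter fun r : I b => wq b r i < 0) (fun r => by rw [Finset.mem_filter]; exact ⟨fun h => h.2, fun h => ⟨Finset.mem_univ _, h⟩⟩) (fun r => pry b y r)).symm
    rw [e1, Finset.sum_filter, Fintype.sum_sum_type, Finset.sum_eq_zero (s := Finset.univ) (fun k _ => ?_), zero_add, ← Finset.sum_neg_distrib]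
    · have e2 : ∑ β : ι, (if wq b (Sum.inr β) i < 0 then pry b y (Sum.inr β) else 0) = ∑ β : ι, if wq b (Sum.inr (ng P β)) i < 0 then pry b y (Sum.inr (ng P β)) else 0 :=
        (Equiv.sum_comp (Function.Involutive.toPerm (ng P) ng_ng') (fun β => if wq b (Sum.inr β) i < 0 then pry b y (Sum.inr β) else 0)).symm
      rw [e2, ← Finset.sum_filter]
      have e3 : (Finset.univ.filter fun β : ι => wq b (Sum.inr (ng P β)) i < 0) = Phi b i := by
        ext β
        rw [Finset.mem_filter, mem_Phi_ng]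
        exact ⟨fun h => h.2, fun h => ⟨Finset.mem_univ _, h⟩⟩
      rw [e3]
      exact Finset.sum_congr rfl fun β _ => ig19b_ng y β
    · have h2 : ¬wq b (Sum.inl k : I b) i < 0 := by
        show ¬(0 : ℚ) < 0
        exact lt_irrefl _
      exact if_neg h2
  have h2 := sum_pry i y
  rw [h1] at h2
  linarith

theorem lift_list (l : List ι) (h : ∀ i ∈ l, i ∈ b.support) : ∃ l' : List b.support, l'.map (fun i : b.support => (i : ι)) = l := by
  induction l with
  | nil => exact ⟨[], rfl⟩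
  | cons i l ih =>
    obtain ⟨l', h1⟩ := ih fun j hj => h j (List.mem_cons_of_mem _ hj)
    exact ⟨⟨i, h i List.mem_cons_self⟩ :: l', by rw [List.map_cons, h1]⟩

theorem opp_word {i j : b.support} (h : Opp b i j) : ∃ l : List b.support, ∀ β, β ∈ Phi b i ↔ ng P (wL b l β) ∈ Phi b j := by
  obtain ⟨w, hw, h1⟩ := h
  obtain ⟨l, hl, rfl⟩ := b2_gen b hw
  obtain ⟨l', rfl⟩ := lift_list l hl
  refine ⟨l', fun β => ?_⟩
  have h2 : L1S.wl P (l'.map (fun i : b.support => (i : ι))) = wL b l' := by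
    unfold L1S.wl wL
    rw [List.map_map]
    rfl
  rw [h1 β, h2]

theorem opp_sum {i j : b.support} {l : List b.support} (h : ∀ β, β ∈ Phi b i ↔ ng P (wL b l β) ∈ Phi b j) (y : b.support → ℝ) :
    ((cw b j : ℤ) : ℝ) * wl (cA b) l y j = -(((cw b i : ℤ) : ℝ) * y i) := by
  rw [← sum_phi, ← sum_phi, ← Finset.sum_neg_distrib]
  symm
  refine Finset.sum_bij (fun β _ => ng P (wL b l β)) (fun β hβ => (h β).1 hβ) (fun β _ β' _ e => ?_) (fun γ hγ => ?_) (fun β _ => ?_)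
  · have e1 := congrArg (ng P) e
    rw [ng_ng', ng_ng'] at e1
    exact (wL b l).injective e1
  · obtain ⟨β, hβ⟩ := (wL b l).surjective (ng P γ)
    refine ⟨β, ?_, ?_⟩
    · rw [h β, hβ, ng_ng']
      exact hγ
    · rw [hβ, ng_ng']
  · rw [ig19b_ng, pry_wl]

/-- `c_i (w₀ Λ)_i ≥ -c_j Λ_j` for `w Φ_i = -Φ_j`. -/
theorem opp_w0 {i j : b.support} (h : Opp b i j) {Λ : b.support → ℝ} (hΛ : ∀ i, 0 ≤ al (cA b) i Λ) (l : List b.support) :
    -(((cw b j : ℤ) : ℝ) * Λ j) ≤ ((cw b i : ℤ) : ℝ) * wl (cA b) l Λ i := by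
  obtain ⟨l', hl'⟩ := opp_word h
  have h1 := opp_sum hl' (wl (cA b) l Λ)
  have h2 := wl_le hΛ (l' ++ l) j
  rw [wl_append'] at h2
  have h3 : (0 : ℝ) ≤ ((cw b j : ℤ) : ℝ) := by exact_mod_cast (cw_pos j).le
  have h4 := mul_le_mul_of_nonneg_left h2 h3
  linarith

theorem opp_symm {i j : b.support} (h : Opp b i j) : Opp b j i := by
  obtain ⟨w, hw, h1⟩ := h
  refine ⟨w⁻¹, inv_mem hw, fun γ => ?_⟩
  obtain ⟨l, hl, e⟩ := b2_gen b hw
  obtain ⟨l', rfl⟩ := lift_list l hl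
  have h2 : L1S.wl P (l'.map (fun i : b.support => (i : ι))) = wL b l' := by
    unfold L1S.wl wL
    rw [List.map_map]
    rfl
  have h3 : w = wL b l' := e.trans h2
  obtain ⟨β, hβ⟩ := w.surjective γ
  have h4 : w⁻¹ γ = β := by rw [← hβ]; exact w.symm_apply_apply β
  have h5 : P.reflectionPerm (w⁻¹ γ) (w⁻¹ γ) = ng P β := by rw [h4]
  rw [h5, h1 (ng P β)]
  have h6 : P.reflectionPerm (w (ng P β)) (w (ng P β)) = γ := by
    show ng P (w (ng P β)) = γ
    rw [h3, l117_ng, ng_ng', ← h3, hβ]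
  rw [h6]

variable {L : Type} [Field L] [NumberField L]

/-- The factor `E_ij` at the point `a a'`. -/
theorem ea_mul {a a' : ι → (EE L)ˣ} {d : ℝ} {y : b.support → ℝ} (h : ∀ β, mixedEmbedding.norm (a' β : EE L) = Real.exp (d * pry b y (Sum.inr β))) (i j : b.support) :
    Ea b (a * a') i j = Ea b a i j * Real.exp (d * (((cw b i : ℤ) : ℝ) * y i + ((cw b j : ℤ) : ℝ) * y j)) := by
  have h1 : ∀ i : b.support, ∏ β ∈ Phi b i, mixedEmbedding.norm ((a * a') β : EE L) = (∏ β ∈ Phi b i, mixedEmbedding.norm (a β : EE L)) * Real.exp (d * (((cw b i : ℤ) : ℝ) * y i)) := fun i => by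
    rw [← sum_phi, Finset.mul_sum, Real.exp_sum, ← Finset.prod_mul_distrib]
    refine Finset.prod_congr rfl fun β _ => ?_
    rw [← h β, Pi.mul_apply, Units.val_mul, map_mul]
  unfold Ea
  rw [h1, h1, mul_add, Real.exp_add]
  ring

/-- The modulus at the point `a a'`. -/
theorem mod_mul {a a' : ι → (EE L)ˣ} {e : ℕ} (he : e ≠ 0) {d : ℝ} {y : b.support → ℝ} (h : ∀ β, mixedEmbedding.norm (a' β : EE L) = Real.exp (e * (d * pry b y (Sum.inr β)))) :
    (∏ β ∈ Pos b, mixedEmbedding.norm ((a * a') β : EE L)) ^ ((e : ℝ)⁻¹) = (∏ β ∈ Pos b, mixedEmbedding.norm (a β : EE L)) ^ ((e : ℝ)⁻¹) * Real.exp (2 * (d * ∑ j, y j)) := by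
  have h1 : ∏ β ∈ Pos b, mixedEmbedding.norm ((a * a') β : EE L) = (∏ β ∈ Pos b, mixedEmbedding.norm (a β : EE L)) * Real.exp (e * (2 * (d * ∑ j, y j))) := by
    have h2 : (e : ℝ) * (2 * (d * ∑ j, y j)) = ∑ β ∈ Pos b, e * (d * pry b y (Sum.inr β)) := by
      rw [← Finset.mul_sum, ← Finset.mul_sum, ig19b_sum]
      ring
    rw [h2, Real.exp_sum, ← Finset.prod_mul_distrib]
    refine Finset.prod_congr rfl fun β _ => ?_
    rw [← h β, Pi.mul_apply, Units.val_mul, map_mul]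
  have he' : (e : ℝ) ≠ 0 := by exact_mod_cast he
  rw [h1, Real.mul_rpow (Finset.prod_nonneg fun _ _ => mixedEmbedding.norm_nonneg _) (Real.exp_pos _).le, ← Real.exp_mul]
  congr 2
  field_simp

end

end Pool.Agent.Lib.L8
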