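import Pool.Agent.Lib.L8.IG8
import Pool.Agent.Lib.L1S.T4

/-!
# L8, version 2, module F (helper67), FV1: the archimedean place `v`, the embedding `G(F) → G(K ⊗ ℝ)` and the projection
-/

namespace Pool.Agent.Lib.L8

open Matrix NumberField Pool.Agent.Lib.H89N Pool.Agent.Lib.H33W Pool.Agent.Lib.L1S Topology

noncomputable section

set_option linter.unusedSectionVars false

/-- An archimedean place of `K` with the completion `F` (`ℝ` or `ℂ`): the projection `K ⊗ ℝ → F` and the inclusion of the factor. -/
structure Plc (K F : Type) [Field K] [NumberField K] [RCLike F] where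
  /-- The projection. -/
  p : EE K →+* F
  /-- The inclusion of the factor. -/
  i : F →ₙ+* EE K
  p_i : ∀ t, p (i t) = t
  i_x : ∀ t x, i t * x = i (t * p x)
  p_cont : Continuous p
  i_cont : Continuous i
  /-- The norm of the element which is `t` at `v` and `1` elsewhere. -/
  nrm : ∀ t : F, mixedEmbedding.norm (1 + i (t - 1)) = ‖t‖ ^ Module.finrank ℝ F

section mat

variable {K F : Type} [Field K] [NumberField K] [RCLike F] (v : Plc K F) {n : Type} [Fintype n] [DecidableEq n]

/-- The matrix with the entries of `g` at `v` and of `1` elsewhere. -/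
def jM (g : Matrix n n F) : Matrix n n (EE K) := 1 + (g - 1).map v.i

theorem jM_one : jM v (1 : Matrix n n F) = 1 := by
  rw [jM, sub_self]
  refine Matrix.ext fun r c => ?_
  rw [Matrix.add_apply, Matrix.map_apply, Matrix.zero_apply, map_zero, add_zero]

theorem fv_map_mul (A B : Matrix n n F) : (A * B).map v.i = A.map v.i * B.map v.i := by
  refine Matrix.ext fun r c => ?_
  simp only [Matrix.map_apply, Matrix.mul_apply, map_sum, map_mul]

theorem fv_map_add (A B : Matrix n n F) : (A + B).map v.i = A.map v.i + B.map v.i := by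
  refine Matrix.ext fun r c => ?_
  simp only [Matrix.map_apply, Matrix.add_apply, map_add]

theorem jM_mul (g h : Matrix n n F) : jM v (g * h) = jM v g * jM v h := by
  obtain ⟨A, hA⟩ : ∃ A, A = g - 1 := ⟨_, rfl⟩
  obtain ⟨B, hB⟩ : ∃ B, B = h - 1 := ⟨_, rfl⟩
  have e1 : g * h - 1 = A + B + A * B := by
    rw [hA, hB]
    noncomm_ring
  rw [jM, jM, jM, e1, ← hA, ← hB, fv_map_add, fv_map_add, fv_map_mul]
  noncomm_ring

theorem p_jM (g : Matrix n n F) : (jM v g).map v.p = g := by
  ext r c
  rw [Matrix.map_apply, jM, Matrix.add_apply, Matrix.map_apply, map_add, v.p_i, Matrix.sub_apply]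
  by_cases h : r = c
  · rw [h, Matrix.one_apply_eq, Matrix.one_apply_eq, map_one]
    ring
  · rw [Matrix.one_apply_ne h, Matrix.one_apply_ne h, map_zero]
    ring

theorem jM_cont : Continuous fun g : Matrix n n F => jM v g := by
  unfold jM
  exact continuous_const.add (Continuous.matrix_map (continuous_id.sub continuous_const) v.i_cont)

/-- The embedding on `GL`. -/
def jGL : GL n F →* GL n (EE K) where
  toFun g := ⟨jM v g.1, jM v g⁻¹.1, by rw [← jM_mul, g.mul_inv, jM_one], by rw [← jM_mul, g.inv_mul, jM_one]⟩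
  map_one' := Units.ext (jM_one v)
  map_mul' g h := Units.ext (jM_mul v g.1 h.1)

theorem jGL_cont : Continuous fun g : GL n F => jGL v g := by
  rw [Units.continuous_iff]
  exact ⟨(jM_cont v).comp Units.continuous_val, (jM_cont v).comp (Units.continuous_val.comp continuous_inv)⟩

/-- The projection on `GL`. -/
def pGL : GL n (EE K) →* GL n F := GeneralLinearGroup.map v.p

theorem pGL_cont : Continuous fun g : GL n (EE K) => pGL v g := by
  rw [Units.continuous_iff]
  refine ⟨?_, ?_⟩
  · exact Continuous.matrix_map Units.continuous_val v.p_cont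
  · exact Continuous.matrix_map (Units.continuous_val.comp continuous_inv) v.p_cont

theorem pGL_jGL (g : GL n F) : pGL v (jGL v g) = g := Units.ext (p_jM v g.1)

end mat

section grp

variable {ι M N : Type} [Fintype ι] [DecidableEq ι] [AddCommGroup M] [Module ℚ M] [AddCommGroup N] [Module ℚ N]
  {P : RootPairing ι ℚ M N} [P.IsCrystallographic] [P.IsReduced] [P.IsIrreducible] [P.IsRootSystem] {b : P.Base}
  {K F : Type} [Field K] [NumberField K] [RCLike F] (v : Plc K F)

theorem fv_pow (t : F) (k : ℕ) : v.i (t ^ (k + 1)) = v.i t ^ (k + 1) := by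
  induction k with
  | zero => rw [zero_add, pow_one, pow_one]
  | succ k ih => rw [pow_succ, map_mul, ih, ← pow_succ]

theorem fv_int (t : F) (z : ℤ) : v.i (t * (z : F)) = v.i t * (z : EE K) := by
  rw [v.i_x, map_intCast]

theorem jM_xx (β : ι) (t : F) : jM v (xx b β t) = xx b β (v.i t) := by
  refine Matrix.ext fun r c => ?_
  have e0 : ∀ (A : Type) [CommRing A] (t : A), xx b β t r c = ∑ k ∈ Finset.range 3, t ^ (k + 1) * ((dvp (E b β) (k + 1) r c : ℤ) : A) + (1 : Matrix (I b) (I b) A) r c := by
    intro A _ t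
    rw [xx, ex, Matrix.sum_apply, Finset.sum_range_succ']
    have e1 : (t ^ 0 • toA A (dvp (E b β) 0)) r c = (1 : Matrix (I b) (I b) A) r c := by
      rw [pow_zero, one_smul, dvp_zero]
      change (((1 : Matrix (I b) (I b) ℤ) r c : ℤ) : A) = _
      by_cases h : r = c
      · rw [h, Matrix.one_apply_eq, Matrix.one_apply_eq, Int.cast_one]
      · rw [Matrix.one_apply_ne h, Matrix.one_apply_ne h, Int.cast_zero]
    rw [e1]
    rfl
  rw [jM, Matrix.add_apply, Matrix.map_apply, Matrix.sub_apply, e0 F t, e0 (EE K) (v.i t), add_sub_cancel_right, map_sum, add_comm]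
  congr 1
  refine Finset.sum_congr rfl fun k _ => ?_
  rw [fv_int, fv_pow]

theorem jGL_mem {g : GL (I b) F} (hg : g ∈ GFs b F) : jGL v g ∈ GE b K := by
  have h1 : (GQ b F) ≤ (GE b K).comap (jGL v) := by
    rw [GQ_eq, Subgroup.closure_le]
    rintro _ ⟨i, t, rfl | rfl⟩
    · show jGL v (xG b (i : ι) t) ∈ GE b K
      have e : jGL v (xG b (i : ι) t) = xG b (i : ι) (v.i t) := Units.ext (jM_xx v _ t)
      rw [e]
      exact t4_mem b K _ _
    · show jGL v (xG b (ng P i) t) ∈ GE b K
      have e : jGL v (xG b (ng P i) t) = xG b (ng P i) (v.i t) := Units.ext (jM_xx v _ t)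
      rw [e]
      exact t4_mem b K _ _
  have h2 : IsClosed ((fun g : GL (I b) F => jGL v g) ⁻¹' (GE b K : Set (GL (I b) (EE K)))) :=
    (Subgroup.isClosed_topologicalClosure _).preimage (jGL_cont v)
  exact closure_minimal (fun g hg => h1 hg) h2 hg

theorem pGL_mem {g : GL (I b) (EE K)} (hg : g ∈ GE b K) : pGL v g ∈ GFs b F := by
  have h0 : GQ b K ≤ (GFs b F).comap ((pGL v).comp (embGL b K)) := by
    rw [GQ_eq, Subgroup.closure_le]
    have e : ∀ β : ι, ∀ t : K, pGL v (embGL b K (xG b β t)) = xG b β (v.p (mixedEmbedding K t)) := fun β t => by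
      have e1 : embGL b K (xG b β t) = xG b β (mixedEmbedding K t) := xG_map b β _ t
      rw [e1]
      exact xG_map b β v.p _
    rintro _ ⟨i, t, rfl | rfl⟩
    · show pGL v (embGL b K (xG b (i : ι) t)) ∈ GFs b F
      rw [e]
      exact Subgroup.le_topologicalClosure _ (xG_mem b _ _)
    · show pGL v (embGL b K (xG b (ng P i) t)) ∈ GFs b F
      rw [e]
      exact Subgroup.le_topologicalClosure _ (xG_mem b _ _)
  have h1 : ((GQ b K).map (embGL b K)) ≤ (GFs b F).comap (pGL v) := by
    rw [Subgroup.map_le_iff_le_comap, Subgroup.comap_comap]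
    exact h0
  have h2 : IsClosed ((fun g : GL (I b) (EE K) => pGL v g) ⁻¹' (GFs b F : Set (GL (I b) F))) :=
    (Subgroup.isClosed_topologicalClosure _).preimage (pGL_cont v)
  exact closure_minimal (fun g hg => h1 hg) h2 hg

/-- **The embedding of the local group.** -/
def jv (b : P.Base) {K F : Type} [Field K] [NumberField K] [RCLike F] (v : Plc K F) : GF b F →* GR b K where
  toFun g := ⟨jGL v g.1, jGL_mem v g.2⟩
  map_one' := Subtype.ext (map_one _)
  map_mul' g h := Subtype.ext (map_mul _ _ _)

/-- **The projection to the local group.** -/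
def pv (b : P.Base) {K F : Type} [Field K] [NumberField K] [RCLike F] (v : Plc K F) : GR b K →* GF b F where
  toFun g := ⟨pGL v g.1, pGL_mem v g.2⟩
  map_one' := Subtype.ext (map_one _)
  map_mul' g h := Subtype.ext (map_mul _ _ _)

theorem jv_cont : Continuous (jv b v) := ((jGL_cont v).comp continuous_subtype_val).subtype_mk _

theorem pv_cont : Continuous (pv b v) := ((pGL_cont v).comp continuous_subtype_val).subtype_mk _

theorem pv_jv (g : GF b F) : pv b v (jv b v g) = g := Subtype.ext (pGL_jGL v g.1)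

theorem fv_mul_i (A : Matrix (I b) (I b) (EE K)) (X : Matrix (I b) (I b) F) : A * X.map v.i = (A.map v.p * X).map v.i := by
  refine Matrix.ext fun r c => ?_
  simp only [Matrix.map_apply, Matrix.mul_apply, map_sum]
  refine Finset.sum_congr rfl fun k _ => ?_
  rw [mul_comm, v.i_x, mul_comm]

theorem fv_i_mul (A : Matrix (I b) (I b) (EE K)) (X : Matrix (I b) (I b) F) : X.map v.i * A = (X * A.map v.p).map v.i := by
  refine Matrix.ext fun r c => ?_
  simp only [Matrix.map_apply, Matrix.mul_apply, map_sum]
  refine Finset.sum_congr rfl fun k _ => ?_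
  rw [v.i_x]

/-- Elements with trivial component at `v` commute with the local group. -/
theorem jv_comm {ω : GR b K} (h : pv b v ω = 1) (g : GF b F) : ω * jv b v g = jv b v g * ω := by
  have e1 : ω.1.1.map v.p = 1 := congrArg (fun g : GF b F => g.1.1) h
  refine Subtype.ext (Units.ext ?_)
  show ω.1.1 * (1 + (g.1.1 - 1).map v.i) = (1 + (g.1.1 - 1).map v.i) * ω.1.1
  rw [mul_add, add_mul, fv_mul_i, fv_i_mul, e1, one_mul, mul_one, mul_one, one_mul]

/-- The decomposition `ω = ω' j(p(ω))`, `ω'` with trivial component at `v`. -/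
theorem jv_dec (ω : GR b K) : ∃ ω' : GR b K, pv b v ω' = 1 ∧ ω = ω' * jv b v (pv b v ω) := by
  refine ⟨ω * (jv b v (pv b v ω))⁻¹, ?_, by rw [inv_mul_cancel_right]⟩
  rw [map_mul, map_inv, pv_jv, mul_inv_cancel]

end grp

end

end Pool.Agent.Lib.L8
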