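import Pool.Agent.Lib.L8.IG8

/-! # L8, module I, chunk IG9: topology -/

namespace Pool.Agent.Lib.L8

open Matrix Pool.Agent.Lib.L1S

noncomputable section

set_option linter.unusedSectionVars false

variable {ι M N : Type} [Fintype ι] [DecidableEq ι] [AddCommGroup M] [Module ℚ M] [AddCommGroup N] [Module ℚ N]
  {P : RootPairing ι ℚ M N} [P.IsCrystallographic] [P.IsReduced] [P.IsIrreducible] [P.IsRootSystem] {b : P.Base} {F : Type} [RCLike F]

theorem ig9_ent (r c : I b) : Continuous fun g : GF b F => g.1.1 r c :=
  (Units.continuous_val.comp continuous_subtype_val).matrix_elem r c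

/-- PROOF: `UTk` is a closed condition on the entries. -/
theorem gU_closed : IsClosed (gU b F : Set (GF b F)) := by
  have e : (gU b F : Set (GF b F)) = ⋂ (r : I b) (c : I b) (_ : ht b r < ht b c + 1), {g : GF b F | g.1.1 r c = (1 : Matrix (I b) (I b) F) r c} := by
    ext g
    simp only [Set.mem_iInter]
    exact Iff.rfl
  rw [e]
  exact isClosed_iInter fun r => isClosed_iInter fun c => isClosed_iInter fun _ => isClosed_eq (ig9_ent r c) continuous_const

/-- PROOF: preimage of `gU` under `gst`. -/
theorem gV_closed : IsClosed (gV b F : Set (GF b F)) := by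
  exact gU_closed.preimage (gst_cont b F)

/-- PROOF: `exGL_cont`. -/
theorem gex_cont : Continuous (gex b F) := by
  exact exGL_cont.subtype_mk _

/-- PROOF: entries of `xx b β t` are polynomials in `t` (`ex`); the inverse is `xx b β (-t)`. -/
theorem gx_cont (β : ι) : Continuous (gx b F β) := by
  have h : Continuous fun t : F => xx b β t := by
    have e : (fun t : F => xx b β t) = fun t : F => ∑ k ∈ Finset.range 4, t ^ k • toA F (dvp (E b β) k) := rfl
    rw [e]
    exact continuous_finsetSum _ fun k _ => (continuous_pow k).smul continuous_const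
  have h1 : Continuous fun t : F => xG b β t := by
    refine Units.continuous_iff.2 ⟨h, ?_⟩
    have h2 : Continuous fun t : F => xx b β (-t) := h.comp continuous_neg
    exact h2
  exact h1.subtype_mk _

/-- The coordinate of a simple root. -/
def gc (b : P.Base) (F : Type) [RCLike F] (i : b.support) (g : GF b F) : F := g.1.1 (Sum.inl i) (Sum.inr (ng P i))

theorem gc_cont (i : b.support) : Continuous (gc b F i) := by
  exact ig9_ent _ _

/-- `U` and the `n_i` generate a dense subgroup.
PROOF: the closure subgroup contains `gx i t` (in `U`: `xx_UTk`) and `gx (ng P i) t = n_i gx i (-t) n_i⁻¹` (`mG_E` or `DP.ex_conjW`, `fZ_eq`), hence the image of `GQ b F` (`GQ_eq`), which is dense in its closure. -/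
theorem gF_dense : Dense (Subgroup.closure ((gU b F : Set (GF b F)) ∪ Set.range (gn b F)) : Set (GF b F)) := by
  have hx : ∀ (i : b.support) (t : F), gx b F (i : ι) t ∈ Subgroup.closure ((gU b F : Set (GF b F)) ∪ Set.range (gn b F)) := by
    intro i t
    refine Subgroup.subset_closure (Or.inl ?_)
    have hi : b.height (i : ι) = 1 := b.height_one_of_mem_support i.2
    have h1 := xx_UTk b (i : ι) (by rw [hi]; norm_num) t
    rw [hi] at h1
    exact h1
  have hy : ∀ (i : b.support) (t : F), gx b F (ng P i) t ∈ Subgroup.closure ((gU b F : Set (GF b F)) ∪ Set.range (gn b F)) := by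
    intro i t
    obtain ⟨c, -, h2⟩ := mG_E b i (1 : Fˣ) (i : ι)
    have h3 := h2 ((c⁻¹ : Fˣ) * t)
    rw [← mul_assoc, Units.mul_inv, one_mul] at h3
    have h4 : gx b F (ng P i) t = gn b F i * gx b F (i : ι) ((c⁻¹ : Fˣ) * t) * (gn b F i)⁻¹ := Subtype.ext h3.symm
    rw [h4]
    have h5 : gn b F i ∈ Subgroup.closure ((gU b F : Set (GF b F)) ∪ Set.range (gn b F)) := Subgroup.subset_closure (Or.inr ⟨i, rfl⟩)
    exact Subgroup.mul_mem _ (Subgroup.mul_mem _ h5 (hx i _)) (Subgroup.inv_mem _ h5)
  have key : ∀ g ∈ GQ b F, ∀ g' : GF b F, g'.1 = g → g' ∈ Subgroup.closure ((gU b F : Set (GF b F)) ∪ Set.range (gn b F)) := by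
    intro g hg
    rw [GQ_eq] at hg
    induction hg using Subgroup.closure_induction with
    | mem g hg =>
      intro g' e
      obtain ⟨i, t, rfl | rfl⟩ := hg
      · have h : g' = gx b F (i : ι) t := Subtype.ext e
        rw [h]
        exact hx i t
      · have h : g' = gx b F (ng P i) t := Subtype.ext e
        rw [h]
        exact hy i t
    | one =>
      intro g' e
      have h : g' = 1 := Subtype.ext e
      rw [h]
      exact Subgroup.one_mem _
    | mul x y hx' hy' hx1 hy1 =>
      intro g' e
      rw [← GQ_eq] at hx' hy'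
      have h : g' = (⟨x, Subgroup.le_topologicalClosure _ hx'⟩ : GF b F) * ⟨y, Subgroup.le_topologicalClosure _ hy'⟩ := Subtype.ext e
      rw [h]
      exact Subgroup.mul_mem _ (hx1 _ rfl) (hy1 _ rfl)
    | inv x hx' hx1 =>
      intro g' e
      rw [← GQ_eq] at hx'
      have h : g' = (⟨x, Subgroup.le_topologicalClosure _ hx'⟩ : GF b F)⁻¹ := Subtype.ext e
      rw [h]
      exact Subgroup.inv_mem _ (hx1 _ rfl)
  intro x
  have h1 : x ∈ closure {g : GF b F | g.1 ∈ GQ b F} := by
    rw [closure_subtype]
    have e : ((↑) : GF b F → GL (I b) F) '' {g : GF b F | g.1 ∈ GQ b F} = (GQ b F : Set (GL (I b) F)) := by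
      ext g
      constructor
      · rintro ⟨g', h2, rfl⟩
        exact h2
      · intro h2
        exact ⟨⟨g, Subgroup.le_topologicalClosure _ h2⟩, h2, rfl⟩
    rw [e]
    exact x.2
  exact closure_mono (fun g hg => key g.1 hg g rfl) h1

end

end Pool.Agent.Lib.L8
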