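import Pool.Agent.Lib.L8.IG10B
import Pool.Agent.Lib.L8.IG9

/-! # L8, module I, chunk IG10C: `M` normalises the root groups of the simple roots -/

namespace Pool.Agent.Lib.L8

open Matrix Pool.Agent.Lib.L1S

noncomputable section

set_option linter.unusedSectionVars false

variable {ι M N : Type} [Fintype ι] [DecidableEq ι] [AddCommGroup M] [Module ℚ M] [AddCommGroup N] [Module ℚ N]
  {P : RootPairing ι ℚ M N} [P.IsCrystallographic] [P.IsReduced] [P.IsIrreducible] [P.IsRootSystem] {b : P.Base} {F : Type} [RCLike F]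

/-- PROOF: as in `gM_c` (L8/IG10B, auxiliary lemmas there may be imported): `m` preserves the weight spaces (`gex_comm_wt`) and the Lie algebra (`GF_Nmz`), so `m E_i m⁻¹ = χ E_i` (`gR_root`) and `m x_i(t) = x_i(χ t) m` (`DP.conj` in L1S/L103, `DP_E`). -/
theorem gM_x {m : GF b F} (hm : m ∈ gM b F) (i : b.support) : ∃ χ : F, ∀ s : F, m * gx b F (i : ι) s * m⁻¹ = gx b F (i : ι) (χ * s) := by
  classical
  have hm' : m⁻¹ ∈ gM b F := inv_mem hm
  obtain ⟨g, hg⟩ : ∃ g, g = m.1.1 := ⟨_, rfl⟩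
  obtain ⟨g', hg'⟩ : ∃ g', g' = (m⁻¹).1.1 := ⟨_, rfl⟩
  have e2 : g' * g = 1 := by
    rw [hg, hg']
    exact m.1.inv_mul
  have hw : HasWt b (0 : M) g := by
    intro r c h
    rw [add_zero]
    rw [hg] at h
    exact gex_comm_wt hm.2 r c h
  have hw' : HasWt b (0 : M) g' := by
    intro r c h
    rw [add_zero]
    rw [hg'] at h
    exact gex_comm_wt hm'.2 r c h
  have hN : Nmz b g g' := by
    rw [hg, hg']
    exact GF_Nmz m.2
  have hXg : toA F (E b (i : ι)) ∈ gR b F := Submodule.subset_span (Or.inr ⟨(i : ι), rfl⟩)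
  have hXw : HasWt b (P.root i) (toA F (E b (i : ι))) := HasWt.toA (hasWt_E b (i : ι))
  have hZw : HasWt b (P.root i) (g * toA F (E b (i : ι)) * g') := by
    have h1 := (hw.mul hXw).mul hw'
    rwa [zero_add, add_zero] at h1
  obtain ⟨χ, hχ⟩ : ∃ χ, χ = cf b (i : ι) (g * toA F (E b (i : ι)) * g') := ⟨_, rfl⟩
  have k1 : g * toA F (E b (i : ι)) * g' = χ • toA F (E b (i : ι)) := by
    have h1 := gR_root b (hN.2.2 _ hXg).1 (i : ι) hZw
    rw [← hχ] at h1
    exact h1
  refine ⟨χ, fun s => ?_⟩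
  have h1 : g * toA F (E b (i : ι)) = (χ • toA F (E b (i : ι))) * g := by
    rw [← k1, mul_assoc (g * toA F (E b (i : ι))), e2, mul_one]
  have h2 := (DP_E b (i : ι)).conj (DP_E b (i : ι)) g χ s h1
  have h3 : m * gx b F (i : ι) s = gx b F (i : ι) (χ * s) * m := by
    apply Subtype.ext
    apply Units.ext
    show m.1.1 * xx b (i : ι) s = xx b (i : ι) (χ * s) * m.1.1
    rw [← hg]
    exact h2
  rw [h3, mul_assoc, mul_inv_cancel, mul_one]

end

end Pool.Agent.Lib.L8
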