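import Pool.Agent.Lib.L8.IG21

/-! # L8, module I, chunk IG21B: adapted words in the group -/

namespace Pool.Agent.Lib.L8

open Matrix Pool.Agent.Lib.L1S

noncomputable section

set_option linter.unusedSectionVars false

variable {ι M N : Type} [Fintype ι] [DecidableEq ι] [AddCommGroup M] [Module ℚ M] [AddCommGroup N] [Module ℚ N]
  {P : RootPairing ι ℚ M N} [P.IsCrystallographic] [P.IsReduced] [P.IsIrreducible] [P.IsRootSystem] {b : P.Base} {F : Type} [RCLike F]

open Filter Topology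

/-- PROOF: `exM_conj` on the entries: `e^(pry r - pry c) u r c = u r c`. -/
theorem comm_pry {y : b.support → ℝ} {u : GF b F} (h : gex b F y * u * (gex b F y)⁻¹ = u) {r c : I b} (hrc : u.1.1 r c ≠ 0) : pry b y r = pry b y c := by
  have h1 : (exM b F y * u.1.1 * exM b F (-y)) r c = u.1.1 r c :=
    congrFun (congrFun (congrArg (fun g : GF b F => g.1.1) h) r) c
  rw [exM_conj] at h1
  have h2 : ((Real.exp (pry b y r - pry b y c) : ℝ) : F) = 1 := mul_right_cancel₀ hrc (by rw [h1, one_mul])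
  have h3 : Real.exp (pry b y r - pry b y c) = 1 := by
    rw [← RCLike.ofReal_one, RCLike.ofReal_inj] at h2
    exact h2
  have h4 := Real.exp_eq_one_iff _ |>.1 h3
  linarith

/-- PROOF: entries (`exM_conj`), `Subtype.ext`, `Units.ext`. -/
theorem pry_comm {y : b.support → ℝ} {u : GF b F} (h : ∀ r c, u.1.1 r c ≠ 0 → pry b y r = pry b y c) : gex b F y * u * (gex b F y)⁻¹ = u := by
  refine Subtype.ext (Units.ext (Matrix.ext fun r c => ?_))
  show (exM b F y * u.1.1 * exM b F (-y)) r c = u.1.1 r c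
  rw [exM_conj]
  by_cases h0 : u.1.1 r c = 0
  · rw [h0, mul_zero]
  · rw [h r c h0, sub_self, Real.exp_zero, RCLike.ofReal_one, one_mul]

theorem ig21b_ht (l : List b.support) {r c : I b} (h : wt b r = sL b l (wt b c)) :
    ((ht b r : ℤ) : ℚ) = ∑ i : b.support, wq b c i * ((b.height (wL b l (i : ι)) : ℤ) : ℚ) := by
  rw [dc3_ht]
  simp_rw [wq_sL l h, height_wq, Finset.mul_sum]
  rw [Finset.sum_comm]

theorem ig21b_diff (l : List b.support) {r c r' c' : I b} (hr : wt b r = sL b l (wt b r')) (hc : wt b c = sL b l (wt b c')) :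
    ((ht b r : ℤ) : ℚ) - ((ht b c : ℤ) : ℚ) =
      ∑ i : b.support, (wq b r' i - wq b c' i) * ((b.height (wL b l (i : ι)) : ℤ) : ℚ) := by
  rw [ig21b_ht l hr, ig21b_ht l hc, ← Finset.sum_sub_distrib]
  exact Finset.sum_congr rfl fun i _ => (sub_mul _ _ _).symm

theorem ig21b_d {r' c' : I b} (h1 : ht b c' < ht b r') : 0 < ∑ i : b.support, (wq b r' i - wq b c' i) := by
  rw [Finset.sum_sub_distrib, ← dc3_ht, ← dc3_ht, sub_pos]
  exact_mod_cast h1

theorem ig21b_pos {l : List b.support} {Z' : b.support → ℝ} (hJ : ∀ i : b.support, al (cA b) i Z' = 0 → 0 < b.height (wL b l (i : ι)))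
    {r c r' c' : I b} (hr : wt b r = sL b l (wt b r')) (hc : wt b c = sL b l (wt b c')) (h1 : ht b c' < ht b r')
    (h2 : ∀ k, wq b c' k ≤ wq b r' k) (h3 : ∀ k, al (cA b) k Z' ≠ 0 → wq b r' k = wq b c' k) : ht b c < ht b r := by
  have h4 := ig21b_diff l hr hc
  have h5 : ∑ i : b.support, (wq b r' i - wq b c' i) ≤
      ∑ i : b.support, (wq b r' i - wq b c' i) * ((b.height (wL b l (i : ι)) : ℤ) : ℚ) := by
    refine Finset.sum_le_sum fun i _ => ?_
    by_cases hi : al (cA b) i Z' = 0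
    · have h6 : (1 : ℚ) ≤ ((b.height (wL b l (i : ι)) : ℤ) : ℚ) := by
        have h7 := hJ i hi
        exact_mod_cast (by omega : (1 : ℤ) ≤ b.height (wL b l (i : ι)))
      exact le_mul_of_one_le_right (sub_nonneg.2 (h2 i)) h6
    · rw [h3 i hi, sub_self, zero_mul]
  have h6 := ig21b_d h1
  have h7 : ((ht b c : ℤ) : ℚ) < ((ht b r : ℤ) : ℚ) := by linarith
  exact_mod_cast h7

theorem ig21b_neg {l : List b.support} {Z' : b.support → ℝ} (hJ : ∀ i : b.support, al (cA b) i Z' = 0 → b.height (wL b l (i : ι)) < 0)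
    {r c r' c' : I b} (hr : wt b r = sL b l (wt b r')) (hc : wt b c = sL b l (wt b c')) (h1 : ht b c' < ht b r')
    (h2 : ∀ k, wq b c' k ≤ wq b r' k) (h3 : ∀ k, al (cA b) k Z' ≠ 0 → wq b r' k = wq b c' k) : ht b r < ht b c := by
  have h4 := ig21b_diff l hr hc
  have h5 : ∑ i : b.support, (wq b r' i - wq b c' i) * ((b.height (wL b l (i : ι)) : ℤ) : ℚ) ≤
      -∑ i : b.support, (wq b r' i - wq b c' i) := by
    rw [← Finset.sum_neg_distrib]
    refine Finset.sum_le_sum fun i _ => ?_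
    by_cases hi : al (cA b) i Z' = 0
    · have h6 : ((b.height (wL b l (i : ι)) : ℤ) : ℚ) ≤ -1 := by
        have h7 := hJ i hi
        exact_mod_cast (by omega : b.height (wL b l (i : ι)) ≤ -1)
      have h8 := sub_nonneg.2 (h2 i)
      nlinarith
    · rw [h3 i hi, sub_self, zero_mul, neg_zero]
  have h6 := ig21b_d h1
  have h7 : ((ht b r : ℤ) : ℚ) < ((ht b c : ℤ) : ℚ) := by linarith
  exact_mod_cast h7

theorem ig21b_sub (g u : GF b F) : (g * u * g⁻¹).1.1 - 1 = g.1.1 * (u.1.1 - 1) * (g⁻¹).1.1 := by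
  have h1 : g.1.1 * (g⁻¹).1.1 = 1 := g.1.mul_inv
  have h2 : (g * u * g⁻¹).1.1 = g.1.1 * u.1.1 * (g⁻¹).1.1 := rfl
  rw [h2, Matrix.mul_sub, Matrix.sub_mul, Matrix.mul_one, h1]

/-- An entry of `g u g⁻¹ - 1` comes from one of `u - 1`. -/
theorem ig21b_entry {l : List b.support} {Z' : b.support → ℝ} (hZ : ∀ i, al (cA b) i Z' ≤ 0) {u : GF b F} (hu : u ∈ gU b F)
    (hc : gex b F Z' * u * (gex b F Z')⁻¹ = u) {r c : I b}
    (h : (gnl b F l * u * (gnl b F l)⁻¹).1.1 r c ≠ (1 : Matrix (I b) (I b) F) r c) :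
    ∃ r' c', wt b r = sL b l (wt b r') ∧ wt b c = sL b l (wt b c') ∧ ht b c' < ht b r' ∧ (∀ k, wq b c' k ≤ wq b r' k) ∧
      ∀ k, al (cA b) k Z' ≠ 0 → wq b r' k = wq b c' k := by
  have h1 : (gnl b F l).1.1 * (u.1.1 - 1) * ((gnl b F l)⁻¹).1.1 = (gnl b F l * u * (gnl b F l)⁻¹).1.1 - 1 :=
    (ig21b_sub (gnl b F l) u).symm
  have h2 : ((gnl b F l).1.1 * (u.1.1 - 1) * ((gnl b F l)⁻¹).1.1) r c ≠ 0 := by
    rw [h1, Matrix.sub_apply]
    exact sub_ne_zero.2 h
  obtain ⟨r', c', h3, h4, h5⟩ := conj_entry l (u.1.1 - 1) h2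
  rw [Matrix.sub_apply] at h5
  have h6 : u.1.1 r' c' ≠ (1 : Matrix (I b) (I b) F) r' c' := sub_ne_zero.1 h5
  rcases gU_uni hu r' c' with h7 | ⟨h7, h8⟩
  · exact absurd h7 h6
  · have h9 : u.1.1 r' c' ≠ 0 := by
      have h10 : r' ≠ c' := by
        rintro rfl
        exact lt_irrefl _ h7
      rw [Matrix.one_apply_ne h10] at h6
      exact h6
    exact ⟨r', c', h3, h4, h7, h8, fun k hk => pry_eq hZ h8 (comm_pry hc h9) k hk⟩

/-- PROOF. If `(u - 1) r' c' ≠ 0` then `ht c' < ht r'`, `wq c' ≤ wq r'` (`gU_uni`) and `pry Z' r' = pry Z' c'` (`comm_pry`), so `wq r' k = wq c' k` for all `k` with `al k Z' ≠ 0` (`pry_eq`): `δ = wt r' - wt c'` is a combination of the `α_k`, `al k Z' = 0`, with nonnegative coefficients and positive height.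
A nonzero entry of `g u g⁻¹ - 1`, `g = gnl lw`, at `(r, c)` comes from one at `(r', c')` (`conj_entry`) and `wq r k - wq c k = ∑_i (wq r' i - wq c' i) wq (w α_i) k ≥ 0` (`wq_sL`, `w α_i > 0` for the `i` which occur) with positive height: `g u g⁻¹` is upper unitriangular. The same for `lM` with the negative roots and `gV_iff`. -/
theorem ad_U {lw lM : List b.support} {Z' : b.support → ℝ} (hZ : ∀ i, al (cA b) i Z' ≤ 0) (hJ : ∀ i : b.support, al (cA b) i Z' = 0 → 0 < b.height (wL b lw (i : ι)) ∧ b.height (wL b lM (i : ι)) < 0) {u : GF b F} (hu : u ∈ gU b F)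
    (hc : gex b F Z' * u * (gex b F Z')⁻¹ = u) : gnl b F lw * u * (gnl b F lw)⁻¹ ∈ gU b F ∧ gnl b F lM * u * (gnl b F lM)⁻¹ ∈ gV b F := by
  constructor
  · rw [mem_gU]
    intro r c hrc
    by_contra hne
    obtain ⟨r', c', h1, h2, h3, h4, h5⟩ := ig21b_entry hZ hu hc hne
    have h6 := ig21b_pos (fun i hi => (hJ i hi).1) h1 h2 h3 h4 h5
    omega
  · rw [gV_iff]
    intro r c hrc
    by_contra hne
    obtain ⟨r', c', h1, h2, h3, h4, h5⟩ := ig21b_entry hZ hu hc hne
    have h6 := ig21b_neg (fun i hi => (hJ i hi).2) h1 h2 h3 h4 h5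
    omega

theorem ig21b_back (g u : GF b F) : u.1.1 = (g⁻¹).1.1 * (g * u * g⁻¹).1.1 * g.1.1 := by
  have h1 : u = g⁻¹ * (g * u * g⁻¹) * g := by group
  exact congrArg (fun x : GF b F => x.1.1) h1

/-- PROOF. `g = gnl lM`, `v = g u g⁻¹ ∈ V`, `u = g⁻¹ v g`. If `u r c ≠ 0`: `conj_entry'` gives `r'`, `c'` with `v r' c' ≠ 0`, `wt r' = w wt r`, `wt c' = w wt c`. The word `lM` does not change the coefficients of the `α_k` with `al k Z' ≠ 0` (`wq_fix` for the simple roots and `wq_sL`, or directly by induction), so `wq r k = wq r' k ≤ wq c' k = wq c k`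
for those `k` (`gV_lo`), and `wq c k ≤ wq r k` for all `k` (`gU_uni`), so they are equal and `pry Z' r = pry Z' c` (`pry_wq`). `pry_comm`. -/
theorem ad_V {lM : List b.support} {Z' : b.support → ℝ} (hM : ∀ i ∈ lM, al (cA b) i Z' = 0) {u : GF b F} (hu : u ∈ gU b F) (h : gnl b F lM * u * (gnl b F lM)⁻¹ ∈ gV b F) : gex b F Z' * u * (gex b F Z')⁻¹ = u := by
  refine pry_comm fun r c hrc => ?_
  rcases gU_uni hu r c with h1 | ⟨-, h2⟩
  · rw [h1] at hrc
    have h3 : r = c := by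
      by_contra hne
      exact hrc (Matrix.one_apply_ne hne)
    rw [h3]
  · have h3 : (((gnl b F lM)⁻¹).1.1 * (gnl b F lM * u * (gnl b F lM)⁻¹).1.1 * (gnl b F lM).1.1) r c ≠ 0 := by
      rw [← ig21b_back]
      exact hrc
    obtain ⟨r', c', h4, h5, h6⟩ := conj_entry' lM _ h3
    have hfix : ∀ {s s' : I b}, wt b s' = sL b lM (wt b s) → ∀ k, al (cA b) k Z' ≠ 0 → wq b s' k = wq b s k := by
      intro s s' hs k hk
      have hkl : k ∉ lM := fun h' => hk (hM k h')
      rw [wq_sL lM hs k, Finset.sum_eq_single k]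
      · rw [wq_fix hkl, ig19b_simple, if_pos rfl, mul_one]
      · intro i _ hik
        rw [wq_fix hkl, ig19b_simple, if_neg hik, mul_zero]
      · intro h'
        exact absurd (Finset.mem_univ _) h'
    rw [pry_wq, pry_wq]
    refine Finset.sum_congr rfl fun k _ => ?_
    by_cases hk : al (cA b) k Z' = 0
    · have hk' : al (fun i k : b.support => b.cartanMatrix i k) k Z' = 0 := hk
      rw [hk', mul_zero, mul_zero]
    · have h7 : wq b r k = wq b c k := by
        refine le_antisymm ?_ (h2 k)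
        rcases gV_lo h r' c' with h8 | ⟨-, h8⟩
        · rw [h8] at h6
          have h9 : r' = c' := by
            by_contra hne
            exact h6 (Matrix.one_apply_ne hne)
          rw [← hfix h4 k hk, ← hfix h5 k hk, h9]
        · rw [← hfix h4 k hk, ← hfix h5 k hk]
          exact h8 k
      rw [h7]

theorem ig21b_lim {lw : List b.support} {Z' : b.support → ℝ} (hZ : ∀ i, al (cA b) i Z' ≤ 0)
    (hJ : ∀ i : b.support, al (cA b) i Z' = 0 → 0 < b.height (wL b lw (i : ι))) {u : GF b F} (hu : u ∈ gU b F)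
    (h : gnl b F lw * u * (gnl b F lw)⁻¹ ∈ gV b F) (r c : I b) :
    (u.1.1 r c = 0 ∧ (1 : GF b F).1.1 r c = 0) ∨ (pry b Z' r = pry b Z' c ∧ (1 : GF b F).1.1 r c = u.1.1 r c) ∨
      (pry b Z' r < pry b Z' c ∧ (1 : GF b F).1.1 r c = 0) := by
  have hone : (1 : GF b F).1.1 r c = (1 : Matrix (I b) (I b) F) r c := rfl
  rw [hone]
  by_cases h0 : u.1.1 r c = (1 : Matrix (I b) (I b) F) r c
  · by_cases hrc : r = c
    · right
      left
      exact ⟨by rw [hrc], h0.symm⟩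
    · left
      rw [h0, Matrix.one_apply_ne hrc]
      exact ⟨rfl, rfl⟩
  · right
    right
    rcases gU_uni hu r c with h1 | ⟨h1, h2⟩
    · exact absurd h1 h0
    have hrc : r ≠ c := by
      rintro rfl
      exact lt_irrefl _ h1
    rw [Matrix.one_apply_ne hrc] at h0 ⊢
    refine ⟨lt_of_le_of_ne (pry_le hZ h2) fun he => ?_, rfl⟩
    have h3 : (((gnl b F lw)⁻¹).1.1 * (gnl b F lw * u * (gnl b F lw)⁻¹).1.1 * (gnl b F lw).1.1) r c ≠ 0 := by
      rw [← ig21b_back]
      exact h0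
    obtain ⟨r', c', h4, h5, h6⟩ := conj_entry' lw _ h3
    have h7 := ig21b_pos hJ h4 h5 h1 h2 fun k hk => pry_eq hZ h2 he k hk
    rcases gV_lo h r' c' with h8 | ⟨h8, -⟩
    · rw [h8] at h6
      have h9 : r' = c' := by
        by_contra hne
        exact h6 (Matrix.one_apply_ne hne)
      rw [h9] at h7
      exact lt_irrefl _ h7
    · exact lt_asymm h7 h8

/-- PROOF. `lim_grp` with `g0 = 1`. Let `u r c ≠ 0`, not an entry of `1`: `ht c < ht r`, `wq c ≤ wq r`, so `pry Z' r ≤ pry Z' c` (`pry_le`). If they were equal, then `wq r k = wq c k` for all `k` with `al k Z' ≠ 0` (`pry_eq`). With `v = g u g⁻¹ ∈ V`, `g = gnl lw`: `conj_entry'` gives `r'`, `c'` with `v r' c' ≠ 0`, `wt r' = w wt r`, `wt c' = w wt c`, and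
`ht r' - ht c' = ∑_i (wq r i - wq c i) ht(w α_i) > 0` (only `i` with `al i Z' = 0` occur, `w α_i > 0`), but `ht r' ≤ ht c'` by `gV_lo`. The same for `u⁻¹` (`g u⁻¹ g⁻¹ = v⁻¹ ∈ V`). -/
theorem ad_lim {lw lM : List b.support} {Z' : b.support → ℝ} (hZ : ∀ i, al (cA b) i Z' ≤ 0) (hJ : ∀ i : b.support, al (cA b) i Z' = 0 → 0 < b.height (wL b lw (i : ι)) ∧ b.height (wL b lM (i : ι)) < 0) {u : GF b F} (hu : u ∈ gU b F)
    (h : gnl b F lw * u * (gnl b F lw)⁻¹ ∈ gV b F) : Tendsto (fun t : ℝ => gex b F (t • Z') * u * (gex b F (t • Z'))⁻¹) atTop (𝓝 1) := by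
  have hJ' : ∀ i : b.support, al (cA b) i Z' = 0 → 0 < b.height (wL b lw (i : ι)) := fun i hi => (hJ i hi).1
  refine lim_grp Z' (g0 := 1) (ig21b_lim hZ hJ' hu h) ?_
  intro r c
  rw [inv_one]
  refine ig21b_lim hZ hJ' (inv_mem hu) ?_ r c
  have h1 : gnl b F lw * u⁻¹ * (gnl b F lw)⁻¹ = (gnl b F lw * u * (gnl b F lw)⁻¹)⁻¹ := by group
  rw [h1]
  exact inv_mem h

end

end Pool.Agent.Lib.L8
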