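import Pool.Agent.Lib.L8.IG8

/-! # L8, module I, chunk IGT: topology of the local group -/

namespace Pool.Agent.Lib.L8

open Matrix Pool.Agent.Lib.L1S

noncomputable section

set_option linter.unusedSectionVars false

variable {ι M N : Type} [Fintype ι] [DecidableEq ι] [AddCommGroup M] [Module ℚ M] [AddCommGroup N] [Module ℚ N]
  {P : RootPairing ι ℚ M N} [P.IsCrystallographic] [P.IsReduced] [P.IsIrreducible] [P.IsRootSystem] {b : P.Base} {F : Type} [RCLike F]

theorem igt_mat_lc : LocallyCompactSpace (Matrix (I b) (I b) F) :=
  inferInstanceAs (LocallyCompactSpace (I b → I b → F))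

theorem igt_mat_sc : SecondCountableTopology (Matrix (I b) (I b) F) :=
  inferInstanceAs (SecondCountableTopology (I b → I b → F))

theorem igt_mat_t2 : T2Space (Matrix (I b) (I b) F) :=
  inferInstanceAs (T2Space (I b → I b → F))

/-- PROOF: `Units.embedProd` is a closed embedding of `GL` into `Mat × Matᵐᵒᵖ` (image `{(x, y) : x y = 1 = y x}` closed), `Matrix (I b) (I b) F` is a finite product of copies of `F`: locally compact (`Pi.locallyCompactSpace_of_finite`), second countable; the instances pass to closed subspaces. See the instances for `GL (I b) (EE K)` /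
`GR b K` in Lib/H89N and Lib/H33W for the same argument. -/
instance igt_gl_lc : LocallyCompactSpace (GL (I b) F) := by
  have h1 : LocallyCompactSpace (Matrix (I b) (I b) F) := igt_mat_lc
  have h2 : T2Space (Matrix (I b) (I b) F) := igt_mat_t2
  exact inferInstanceAs (LocallyCompactSpace (Matrix (I b) (I b) F)ˣ)

instance igt_gl_sc : SecondCountableTopology (GL (I b) F) := by
  have h1 : SecondCountableTopology (Matrix (I b) (I b) F) := igt_mat_sc
  have h2 : SecondCountableTopology (Matrix (I b) (I b) F)ᵐᵒᵖ := MulOpposite.opHomeomorph.symm.secondCountableTopology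
  exact (Units.isEmbedding_embedProduct (M := Matrix (I b) (I b) F)).secondCountableTopology

instance igt_gl_t2 : T2Space (GL (I b) F) := by
  have h2 : T2Space (Matrix (I b) (I b) F) := igt_mat_t2
  exact inferInstanceAs (T2Space (Matrix (I b) (I b) F)ˣ)

/-- PROOF: closed subgroup (`Subgroup.isClosed_topologicalClosure`). -/
instance igt_lc : LocallyCompactSpace (GF b F) := by
  have h : IsClosed ((GFs b F : Subgroup (GL (I b) F)) : Set (GL (I b) F)) := Subgroup.isClosed_topologicalClosure _
  exact h.isClosedEmbedding_subtypeVal.locallyCompactSpace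

instance igt_sc : SecondCountableTopology (GF b F) :=
  Topology.IsEmbedding.subtypeVal.secondCountableTopology

instance igt_t2 : T2Space (GF b F) :=
  Topology.IsEmbedding.subtypeVal.t2Space

end

end Pool.Agent.Lib.L8
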