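import Pool.Agent.Lib.L8.IG23
import Pool.Agent.Lib.L8.IG21B
import Pool.Agent.Lib.L8.IG10C
import Pool.Agent.Lib.L8.IGT

/-! # L8, module I, IG24: the local group is an instance of the structure `Iw` -/

namespace Pool.Agent.Lib.L8

open Matrix Pool.Agent.Lib.L1S Filter Topology

noncomputable section

set_option linter.unusedSectionVars false

variable {ι M N : Type} [Fintype ι] [DecidableEq ι] [AddCommGroup M] [Module ℚ M] [AddCommGroup N] [Module ℚ N]
  {P : RootPairing ι ℚ M N} [P.IsCrystallographic] [P.IsReduced] [P.IsIrreducible] [P.IsRootSystem]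

/-- The data of the local group. -/
def iwD (b : P.Base) (F : Type) [RCLike F] : IwD b.support F (GF b F) where
  U := gU b F
  V := gV b F
  K := gK b F
  M := gM b F
  ex := gex b F
  Hp := gH b F
  x := fun i t => gx b F (i : ι) t
  c := gc b F
  n := gn b F
  st := gst b F
  A := cA b

variable {b : P.Base} {F : Type} [RCLike F]

theorem iw_nl (l : List b.support) : (iwD b F).nl l = gnl b F l := rfl

theorem iw_pos {l : List b.support} {i : b.support} : (iwD b F).Pos l i ↔ 0 < b.height (wL b l (i : ι)) := gPos_iff l i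

theorem iw_red {l : List b.support} : (iwD b F).Red l ↔ ∀ (l₁ : List b.support) (i : b.support) (l₂ : List b.support), l = l₁ ++ i :: l₂ → 0 < b.height (wL b l₁ (i : ι)) :=
  ⟨fun h l₁ i l₂ e => iw_pos.1 (h l₁ i l₂ e), fun h l₁ i l₂ e => iw_pos.2 (h l₁ i l₂ e)⟩

theorem iw_long_neg {l : List b.support} (h : (iwD b F).Long l) (i : b.support) : b.height (wL b l (i : ι)) < 0 := long_neg (fun u hu => h.2.1 u hu) i

theorem iw_long {l : List b.support} (h1 : ∀ (l₁ : List b.support) (i : b.support) (l₂ : List b.support), l = l₁ ++ i :: l₂ → 0 < b.height (wL b l₁ (i : ι)))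
    (h2 : ∀ i : b.support, b.height (wL b l (i : ι)) < 0) : (iwD b F).Long l :=
  ⟨iw_red.2 h1, fun _ hu => long_U h2 hu, fun _ hv => long_V h2 hv⟩

/-- PROOF: suppose `lM = l₁ ++ i :: l₂` and `β = wL b l₁ i` is negative. `wL b (lw ++ l₁) i = wL b lw β` is positive (`h1` for the factorisation `(lw ++ l₁) ++ i :: l₂`). `wq β k = 0` for all `k` with `al k Z' ≠ 0` (`wq_fix` for `l₁`: its letters satisfy `al i Z' = 0`, and `i` itself: `wq (inr i) k = 0` for `k ≠ i`),
`wq β k ≤ 0` (`wq_nonpos`), so `wq (wL b lw β) k = ∑_i wq β i wq (wL b lw i) k ≤ 0` (`wq_wL`, `wL b lw i > 0` for the `i` with `al i Z' = 0`): the height is `≤ 0` (`height_wq`), a contradiction. -/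
theorem adapted_red {lw lM : List b.support} {Z' : b.support → ℝ} (h1 : ∀ (l₁ : List b.support) (i : b.support) (l₂ : List b.support), lw ++ lM = l₁ ++ i :: l₂ → 0 < b.height (wL b l₁ (i : ι)))
    (hM : ∀ i ∈ lM, al (cA b) i Z' = 0) (hJ : ∀ i : b.support, al (cA b) i Z' = 0 → 0 < b.height (wL b lw (i : ι)))
    (l₁ : List b.support) (i : b.support) (l₂ : List b.support) (e : lM = l₁ ++ i :: l₂) : 0 < b.height (wL b l₁ (i : ι)) := by
  by_contra hcon
  have hneg : b.height (wL b l₁ (i : ι)) < 0 := lt_of_le_of_ne (not_lt.1 hcon) (height_ne b _)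
  have hpos : 0 < b.height (wL b (lw ++ l₁) (i : ι)) := h1 (lw ++ l₁) i l₂ (by rw [e, List.append_assoc])
  have hmem : ∀ k : b.support, al (cA b) k Z' ≠ 0 → k ∉ l₁ := fun k hk hkl => hk (hM k (by rw [e]; exact List.mem_append_left _ hkl))
  have hi : al (cA b) i Z' = 0 := hM i (by rw [e]; simp)
  have hz : ∀ k : b.support, al (cA b) k Z' ≠ 0 → wq b (Sum.inr (wL b l₁ (i : ι))) k = 0 := by
    intro k hk
    rw [wq_fix (hmem k hk)]
    have hki : k ≠ i := by
      rintro rfl
      exact hk hi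
    show b.toWeightBasis.repr (P.root (i : ι)) k = 0
    have h2 : P.root (i : ι) = b.toWeightBasis i := by simp
    rw [h2, Module.Basis.repr_self, Finsupp.single_eq_of_ne hki]
  have h3 : ((b.height (wL b (lw ++ l₁) (i : ι)) : ℤ) : ℚ) ≤ 0 := by
    rw [wL_append, Equiv.Perm.mul_apply, height_wq]
    refine Finset.sum_nonpos fun k _ => ?_
    rw [wq_wL]
    refine Finset.sum_nonpos fun j _ => ?_
    by_cases hj : al (cA b) j Z' = 0
    · exact mul_nonpos_of_nonpos_of_nonneg (wq_nonpos hneg j) (wq_nonneg (hJ j hj) k)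
    · rw [hz j hj, zero_mul]
  have h4 : (0 : ℚ) < ((b.height (wL b (lw ++ l₁) (i : ι)) : ℤ) : ℚ) := by exact_mod_cast hpos
  exact absurd h3 (not_le.2 h4)

/-- PROOF: `b.cartanMatrix i i = 2` (`RootPairing.Base.cartanMatrix_apply_same` or `P.pairingIn_same`). -/
theorem cA_diag (i : b.support) : cA b i i = 2 := by
  show P.pairingIn ℤ (i : ι) (i : ι) = 2
  exact P.pairingIn_same ℤ (i : ι)

/-- PROOF: `RootPairing.Base.cartanMatrix_le_zero_of_ne`. -/
theorem cA_off (i k : b.support) (h : i ≠ k) : cA b i k ≤ 0 := b.cartanMatrix_le_zero_of_ne i k h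

/-- **The instance.** -/
def iwG (b : P.Base) (F : Type) [RCLike F] : Iw b.support F (GF b F) where
  toIwD := iwD b F
  U_closed := gU_closed
  V_closed := gV_closed
  K_compact := gK_compact
  M_le := fun _ h => h.1
  ex_cont := gex_cont
  x_cont := fun i => gx_cont (i : ι)
  c_cont := fun i => (gc_cont i).comp continuous_subtype_val
  Hp_cont := gH_cont
  st_cont := gst_cont b F
  gen := gF_dense
  ex_add := gex_add b F
  ex_U := fun y _ hu => gex_U y hu
  ex_V := fun y _ hv => gex_V y hv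
  M_U := fun _ hm _ hu => gM_U hm hu
  M_V := fun _ hm _ hv => gM_V hm hv
  M_ex := fun _ hm y => hm.2 y
  M_c := fun _ hm i _ hu => gM_c hm i hu
  M_x := fun m hm i s => by
    obtain ⟨χ, h⟩ := gM_x hm i
    exact ⟨χ * s, h s⟩
  dec := g_dec
  Hp_U := fun _ hu g => gH_U hu g
  Hp_ex := gH_ex
  Hp_M := fun _ hm g => gH_M hm g
  Hp_K := fun _ hk g => gH_K hk g
  st_mul := gst_mul b F
  st_st := gst_gst b F
  st_K := fun g => mem_gK b F g
  st_ex := gst_gex b F
  st_U := fun u hu => by
    show gst b F (gst b F u) ∈ gU b F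
    rw [gst_gst]
    exact hu
  st_V := fun _ hv => hv
  uav := fun _ hu _ hu' _ _ _ hv _ hv' h => g_uav hu hu' hv hv' h
  x_U := fun i t => gx_U (by rw [b.height_one_of_mem_support i.2]; exact one_pos) t
  x_add := fun i s t => gx_add b F (i : ι) s t
  c_mul := fun i _ hu _ hu' => gc_mul i hu hu'
  c_x := gc_gx
  x_ex := fun i y t => gx_gex y i t
  c_ex := fun i y u _ => gc_gex i y u
  contr0 := g_contr0
  contri := g_contri
  n_K := gn_mem b F
  n_ex := gn_gex
  n_M := fun i _ hm => gn_M i hm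
  n_M' := fun i _ hm => gn_M' i hm
  n_sq := gn_sq
  n_U := fun i _ hu h0 => gn_U i hu h0
  n_x := fun i t => by
    show gn b F i * gx b F (i : ι) t * (gn b F i)⁻¹ ∈ gV b F
    rw [gn_gx]
    refine gx_V ?_ _
    have h2 : b.height (ng P (i : ι)) = - b.height (i : ι) := b.height_reflectionPerm_self i
    rw [h2, b.height_one_of_mem_support i.2]
    norm_num
  rk_H := rk_H
  rk_inv := rk_inv
  A_diag := cA_diag
  A_off := cA_off
  dom_nonneg := fun _ h j => ig_dom h j
  pos_neg := fun l i h t => g_pos_neg l i (iw_pos.1 h) t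
  pos_coroot := fun l i h => g_pos_coroot l i (iw_pos.1 h)
  long_rho := fun _ h y => long_rho (iw_long_neg h) y
  words := fun Z hZ => by
    obtain ⟨lw, lM, Z', h1, h2, h3, h4, h5, h6, h7, h8⟩ := adapted hZ
    refine ⟨lw, lM, Z', iw_long h1 h2, iw_red.2 (adapted_red h1 h6 fun i hi => (h8 i hi).1), h4, h5, h6, fun l₁ i l₂ e => adapted_k hZ (h7 l₁ i l₂ e), fun u hu hc => ad_U h5 h8 hu hc, fun u hu h => ad_V h6 hu h, fun u hu h => ad_lim h5 h8 hu h⟩
  norm_mono := fun l _ Z' hZ u hu j => g_mono l hZ hu j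
  kostant := fun _ h Z hZ k hk j => ⟨g_kos1 (iw_long_neg h) hZ hk j, g_kos2 (iw_long_neg h) hZ hk j⟩

end

end Pool.Agent.Lib.L8
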