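import Pool.Agent.Lib.L8.IG13

/-! # L8, module I, chunk IG14: the Iwasawa decomposition of `G(F)` -/

namespace Pool.Agent.Lib.L8

open Matrix Pool.Agent.Lib.L1S

noncomputable section

set_option linter.unusedSectionVars false

variable {ι M N : Type} [Fintype ι] [DecidableEq ι] [AddCommGroup M] [Module ℚ M] [AddCommGroup N] [Module ℚ N]
  {P : RootPairing ι ℚ M N} [P.IsCrystallographic] [P.IsReduced] [P.IsIrreducible] [P.IsRootSystem] {b : P.Base} {F : Type} [RCLike F]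

/-- `g ∈ U A K`. -/
def UAK (b : P.Base) (F : Type) [RCLike F] (g : GF b F) : Prop := ∃ u ∈ gU b F, ∃ y, ∃ k ∈ gK b F, g = u * gex b F y * k

theorem UAK_U {u g : GF b F} (hu : u ∈ gU b F) (h : UAK b F g) : UAK b F (u * g) := by
  obtain ⟨u', hu', y, k, hk, rfl⟩ := h
  exact ⟨u * u', mul_mem hu hu', y, k, hk, by group⟩

/-- PROOF: `m u ex(y) k = (m u m⁻¹) ex(y) (m k)`. -/
theorem UAK_M {m g : GF b F} (hm : m ∈ gM b F) (h : UAK b F g) : UAK b F (m * g) := by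
  obtain ⟨u, hu, y, k, hk, rfl⟩ := h
  refine ⟨m * u * m⁻¹, gM_U hm hu, y, m * k, mul_mem hm.1 hk, ?_⟩
  calc m * (u * gex b F y * k) = m * u * m⁻¹ * (m * gex b F y) * k := by group
    _ = m * u * m⁻¹ * (gex b F y * m) * k := by rw [hm.2 y]
    _ = _ := by group

/-- PROOF: `u = u' x_i(t)`, `t = c_i(u)`, `u' = u x_i(-t) ∈ U` with `c_i(u') = 0` (`gc_mul`, `gc_gx`). `n u ex(y) k = (n u' n⁻¹) n x_i(t) ex(y) k`, `x_i(t) ex(y) = ex(y) x_i(t')` (`gx_gex` for `-y`), `n ex(y) = ex(s_i y) n` (`gn_gex`), `n x_i(t') = x_i(r) ex(z) k'` (`rk_K`),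
`ex(s_i y) x_i(r) = x_i(r') ex(s_i y)`. So the product is `(n u' n⁻¹) x_i(r') ex(s_i y + z) (k' k)` (`gn_U`, `gx_U`). -/
theorem UAK_n (i : b.support) {g : GF b F} (h : UAK b F g) : UAK b F (gn b F i * g) := by
  obtain ⟨u, hu, y, k, hk, rfl⟩ := h
  have hi : 0 < b.height (i : ι) := by
    rw [RootPairing.Base.height_one_of_mem_support i.2]
    exact one_pos
  obtain ⟨t, ht⟩ : ∃ t, t = gc b F i u := ⟨_, rfl⟩
  have hu' : u * gx b F (i : ι) (-t) ∈ gU b F := mul_mem hu (gx_U hi _)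
  have hc : gc b F i (u * gx b F (i : ι) (-t)) = 0 := by
    rw [gc_mul i hu (gx_U hi _), gc_gx, ht, add_neg_cancel]
  obtain ⟨h1, _⟩ := gn_U i hu' hc
  obtain ⟨t', ht'⟩ : ∃ t', t' = (Real.exp (al (cA b) i (-y)) : ℝ) • t := ⟨_, rfl⟩
  have e1 : gx b F (i : ι) t * gex b F y = gex b F y * gx b F (i : ι) t' := by
    have h2 := gx_gex (b := b) (F := F) (-y) i t
    rw [gex_neg, inv_inv, ← ht'] at h2
    rw [← h2]
    group
  obtain ⟨k', hk', e2⟩ := rk_K (b := b) (F := F) i t'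
  obtain ⟨r, hr⟩ : ∃ r, r = -(star t') * (((1 + ‖t'‖ ^ 2)⁻¹ : ℝ) : F) := ⟨_, rfl⟩
  obtain ⟨z, hz⟩ : ∃ z : b.support → ℝ, z = (-(1 / 2 : ℝ) * Real.log (1 + ‖t'‖ ^ 2)) • Pi.single i 1 := ⟨_, rfl⟩
  rw [← hr, ← hz] at e2
  have e3 := gn_gex (b := b) (F := F) i y
  have e4 := gx_gex (b := b) (F := F) (sr (cA b) i y) i r
  obtain ⟨r', hr'⟩ : ∃ r', r' = (Real.exp (al (cA b) i (sr (cA b) i y)) : ℝ) • r := ⟨_, rfl⟩
  rw [← hr'] at e4
  refine ⟨gn b F i * (u * gx b F (i : ι) (-t)) * (gn b F i)⁻¹ * gx b F (i : ι) r', mul_mem h1 (gx_U hi _), sr (cA b) i y + z, k' * k, mul_mem hk' hk, ?_⟩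
  calc gn b F i * (u * gex b F y * k) = gn b F i * (u * gx b F (i : ι) (-t)) * (gn b F i)⁻¹ * (gn b F i * ((gx b F (i : ι) (-t))⁻¹ * gex b F y)) * k := by group
    _ = gn b F i * (u * gx b F (i : ι) (-t)) * (gn b F i)⁻¹ * (gn b F i * (gex b F y * gx b F (i : ι) t')) * k := by
        rw [← gx_neg, neg_neg, e1]
    _ = gn b F i * (u * gx b F (i : ι) (-t)) * (gn b F i)⁻¹ * (gn b F i * gex b F y * (gn b F i)⁻¹) * (gn b F i * gx b F (i : ι) t') * k := by group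
    _ = gn b F i * (u * gx b F (i : ι) (-t)) * (gn b F i)⁻¹ * gex b F (sr (cA b) i y) * (gx b F (i : ι) r * gex b F z * k') * k := by rw [e3, e2]
    _ = gn b F i * (u * gx b F (i : ι) (-t)) * (gn b F i)⁻¹ * (gex b F (sr (cA b) i y) * gx b F (i : ι) r * (gex b F (sr (cA b) i y))⁻¹) * (gex b F (sr (cA b) i y) * gex b F z) * (k' * k) := by group
    _ = _ := by rw [e4, gex_add]

/-- PROOF: `n⁻¹ g = n (n²)⁻¹ g`: `UAK_n`, `UAK_M`, `gn_sq`. -/
theorem UAK_n' (i : b.support) {g : GF b F} (h : UAK b F g) : UAK b F ((gn b F i)⁻¹ * g) := by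
  have h1 := UAK_n i (UAK_M (inv_mem (gn_sq (b := b) (F := F) i)) h)
  have e : gn b F i * ((gn b F i * gn b F i)⁻¹ * g) = (gn b F i)⁻¹ * g := by group
  rw [e] at h1
  exact h1

/-- **`G(F) ⊆ U A K`.** PROOF: `GQ_eq` (L1S/L122): `G(F)` is generated by `x_i(t)`, `x_(-i)(t) = n_i x_i(-t) n_i⁻¹` (`gn_gx`). `Subgroup.closure_induction` for the statement: for all `h` with `UAK h`: `UAK (g h)` and `UAK (g⁻¹ h)`. Then `h = 1`. -/
theorem UAK_GQ {g : GF b F} (hg : g.1 ∈ GQ b F) : UAK b F g := by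
  have hi : ∀ i : b.support, 0 < b.height (i : ι) := fun i => by
    rw [RootPairing.Base.height_one_of_mem_support i.2]
    exact one_pos
  have key : ∀ x : GL (I b) F, x ∈ GQ b F → ∀ hx : x ∈ GFs b F, ∀ h : GF b F, UAK b F h → UAK b F ((⟨x, hx⟩ : GF b F) * h) ∧ UAK b F ((⟨x, hx⟩ : GF b F)⁻¹ * h) := by
    intro x hx
    rw [GQ_eq] at hx
    induction hx using Subgroup.closure_induction with
    | mem x hx =>
      obtain ⟨i, t, rfl | rfl⟩ := hx
      · intro hx h hh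
        have e1 : (⟨xG b (i : ι) t, hx⟩ : GF b F) = gx b F (i : ι) t := rfl
        rw [e1, ← gx_neg]
        exact ⟨UAK_U (gx_U (hi i) _) hh, UAK_U (gx_U (hi i) _) hh⟩
      · intro hx h hh
        have e1 : (⟨xG b (ng P i) t, hx⟩ : GF b F) = gx b F (ng P i) t := rfl
        have e2 : ∀ s : F, gx b F (ng P i) s = gn b F i * gx b F (i : ι) (-s) * (gn b F i)⁻¹ := fun s => by
          rw [gn_gx, neg_neg]
        have e3 : ∀ s : F, UAK b F (gx b F (ng P i) s * h) := fun s => by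
          rw [e2, mul_assoc, mul_assoc]
          exact UAK_n i (UAK_U (gx_U (hi i) _) (UAK_n' i hh))
        rw [e1, ← gx_neg]
        exact ⟨e3 t, e3 (-t)⟩
    | one =>
      intro hx h hh
      have e1 : (⟨1, hx⟩ : GF b F) = 1 := rfl
      rw [e1, inv_one, one_mul]
      exact ⟨hh, hh⟩
    | mul x y hx hy ihx ihy =>
      intro hxy h hh
      rw [← GQ_eq] at hx hy
      have hx' : x ∈ GFs b F := Subgroup.le_topologicalClosure _ hx
      have hy' : y ∈ GFs b F := Subgroup.le_topologicalClosure _ hy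
      have e1 : (⟨x * y, hxy⟩ : GF b F) = ⟨x, hx'⟩ * ⟨y, hy'⟩ := rfl
      rw [e1, _root_.mul_inv_rev, mul_assoc, mul_assoc]
      exact ⟨(ihx hx' _ (ihy hy' _ hh).1).1, (ihy hy' _ (ihx hx' _ hh).2).2⟩
    | inv x hx ihx =>
      intro hxi h hh
      rw [← GQ_eq] at hx
      have hx' : x ∈ GFs b F := Subgroup.le_topologicalClosure _ hx
      have e1 : (⟨x⁻¹, hxi⟩ : GF b F) = (⟨x, hx'⟩ : GF b F)⁻¹ := rfl
      rw [e1, inv_inv]
      exact ⟨(ihx hx' _ hh).2, (ihx hx' _ hh).1⟩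
  have h1 : UAK b F (1 : GF b F) := ⟨1, one_mem _, 0, 1, one_mem _, by rw [gex_zero, one_mul, one_mul]⟩
  have h2 := (key g.1 hg g.2 1 h1).1
  rw [mul_one] at h2
  exact h2

end

end Pool.Agent.Lib.L8
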