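import Pool.Agent.Lib.L8.IG15
import Pool.Agent.Lib.L1S.D1

/-! # L8, module I, chunk IG16: the norm functions -/

namespace Pool.Agent.Lib.L8

open Matrix Pool.Agent.Lib.L1S

noncomputable section

set_option linter.unusedSectionVars false

variable {ι M N : Type} [Fintype ι] [DecidableEq ι] [AddCommGroup M] [Module ℚ M] [AddCommGroup N] [Module ℚ N]
  {P : RootPairing ι ℚ M N} [P.IsCrystallographic] [P.IsReduced] [P.IsIrreducible] [P.IsRootSystem]

/-- `N_j(X) = det (X S⁻¹ Xᴴ)_(T_j T_j)`. -/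
def Nj (b : P.Base) (F : Type) [RCLike F] (j : b.support) (X : Matrix (I b) (I b) F) : F :=
  ((X * (SF b F)⁻¹ * Xᴴ).submatrix (fun r : Tn b j => r.1) (fun r : Tn b j => r.1)).det

variable {b : P.Base} {F : Type} [RCLike F]

theorem ig16_sum {α R : Type} [Fintype α] [AddCommMonoid R] (p : α → Prop) [Fintype {a // p a}] (f : α → R) (h : ∀ a, ¬p a → f a = 0) :
    ∑ a, f a = ∑ a : {a // p a}, f a.1 := by
  classical
  rw [← Finset.sum_subtype (Finset.univ.filter p) (by simp) f]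
  refine (Finset.sum_filter_of_ne ?_).symm
  intro a _ ha
  by_contra hp
  exact ha (h a hp)

/-- The rows in `T` of a product with a matrix `u` which does not mix `T` and its complement. -/
theorem ig16_mul {α : Type} [Fintype α] (p : α → Prop) [Fintype {a // p a}] (u Z : Matrix α α F) (h : ∀ r c, p r → ¬p c → u r c = 0) :
    (u * Z).submatrix (fun r : {a // p a} => r.1) (fun r : {a // p a} => r.1) =
      u.submatrix (fun r : {a // p a} => r.1) (fun r : {a // p a} => r.1) * Z.submatrix (fun r : {a // p a} => r.1) (fun r : {a // p a} => r.1) := by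
  ext r c
  rw [Matrix.submatrix_apply, Matrix.mul_apply, Matrix.mul_apply]
  exact ig16_sum p _ fun a ha => by rw [h r.1 a r.2 ha, zero_mul]

theorem ig16_mul' {α : Type} [Fintype α] (p : α → Prop) [Fintype {a // p a}] (u Z : Matrix α α F) (h : ∀ r c, p r → ¬p c → u r c = 0) :
    (Z * uᴴ).submatrix (fun r : {a // p a} => r.1) (fun r : {a // p a} => r.1) =
      Z.submatrix (fun r : {a // p a} => r.1) (fun r : {a // p a} => r.1) * (u.submatrix (fun r : {a // p a} => r.1) (fun r : {a // p a} => r.1))ᴴ := by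
  ext r c
  rw [Matrix.submatrix_apply, Matrix.mul_apply, Matrix.mul_apply]
  exact ig16_sum p _ fun a ha => by rw [Matrix.conjTranspose_apply, h c.1 a c.2 ha, star_zero, mul_zero]

/-- `N_j` of a product with a matrix `u` which does not mix `T` and its complement. -/
theorem ig16_N (j : b.support) (u X : Matrix (I b) (I b) F) (h : ∀ r c, wq b r j < 0 → ¬wq b c j < 0 → u r c = 0) :
    Nj b F j (u * X) = (u.submatrix (fun r : Tn b j => r.1) (fun r : Tn b j => r.1)).det * Nj b F j X *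
      star (u.submatrix (fun r : Tn b j => r.1) (fun r : Tn b j => r.1)).det := by
  unfold Nj
  have h1 : u * X * (SF b F)⁻¹ * (u * X)ᴴ = u * ((X * (SF b F)⁻¹ * Xᴴ) * uᴴ) := by
    rw [Matrix.conjTranspose_mul]
    simp only [Matrix.mul_assoc]
  rw [h1, ig16_mul (fun r => wq b r j < 0) u _ h, ig16_mul' (fun r => wq b r j < 0) u _ h, Matrix.det_mul, Matrix.det_mul, Matrix.det_conjTranspose]
  exact (mul_assoc _ _ _).symm

/-- PROOF: `(u Y uᴴ)_(TT) = u_(TT) Y_(TT) (u_(TT))ᴴ` because `u r c = 0` for `r ∈ T`, `c ∉ T` (`gU_uni`: otherwise `wq c j ≤ wq r j < 0`): sums over `I b` reduce to the subtype; `det (u_(TT)) = 1` (`d1_det_one` in L1S/D1 with `f = ht`), `det_conjTranspose`. -/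
theorem Nj_U (j : b.support) {u : GF b F} (hu : u ∈ gU b F) (X : Matrix (I b) (I b) F) : Nj b F j (u.1.1 * X) = Nj b F j X := by
  have hun := gU_uni hu
  rw [ig16_N]
  · have h1 : (u.1.1.submatrix (fun r : Tn b j => r.1) (fun r : Tn b j => r.1)).det = 1 := by
      refine d1_det_one (fun r : Tn b j => ht b r.1) _ ?_
      intro r c
      rw [Matrix.submatrix_apply]
      rcases hun r.1 c.1 with h2 | ⟨h2, -⟩
      · left
        rw [h2]
        by_cases hrc : r = c
        · subst hrc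
          rw [Matrix.one_apply_eq, Matrix.one_apply_eq]
        · rw [Matrix.one_apply_ne hrc, Matrix.one_apply_ne fun h5 => hrc (Subtype.ext h5)]
      · right
        exact h2
    rw [h1, star_one, one_mul, mul_one]
  · intro r c hr hc
    rcases hun r c with h2 | ⟨-, h2⟩
    · rw [h2, Matrix.one_apply_ne]
      rintro rfl
      exact hc hr
    · exact absurd (lt_of_le_of_lt (h2 j) hr) hc

/-- PROOF: the rows and columns are multiplied by real numbers `e^(pry y r)`: the submatrix is `D Y D` with `D` diagonal, `det D = ∏ e^(pry y r) = e^(-c_j y_j)` (`sum_pry`). -/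
theorem Nj_ex (j : b.support) (y : b.support → ℝ) (X : Matrix (I b) (I b) F) : Nj b F j (exM b F y * X) = ((Real.exp (-2 * ((cw b j : ℤ) : ℝ) * y j) : ℝ) : F) * Nj b F j X := by
  rw [ig16_N]
  · have h1 : ((exM b F y).submatrix (fun r : Tn b j => r.1) (fun r : Tn b j => r.1)).det = ((Real.exp (-((cw b j : ℤ) : ℝ) * y j) : ℝ) : F) := by
      have h2 : (exM b F y).submatrix (fun r : Tn b j => r.1) (fun r : Tn b j => r.1) = Matrix.diagonal fun r : Tn b j => ((Real.exp (pry b y r.1) : ℝ) : F) := by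
        unfold exM
        exact Matrix.submatrix_diagonal _ _ Subtype.val_injective
      rw [h2, Matrix.det_diagonal, ← sum_pry, Real.exp_sum, RCLike.ofReal_prod]
    rw [h1]
    have h3 : star ((Real.exp (-((cw b j : ℤ) : ℝ) * y j) : ℝ) : F) = ((Real.exp (-((cw b j : ℤ) : ℝ) * y j) : ℝ) : F) := RCLike.conj_ofReal _
    rw [h3]
    have h4 : Real.exp (-2 * ((cw b j : ℤ) : ℝ) * y j) = Real.exp (-((cw b j : ℤ) : ℝ) * y j) * Real.exp (-((cw b j : ℤ) : ℝ) * y j) := by
      rw [← Real.exp_add]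
      congr 1
      ring
    rw [h4, RCLike.ofReal_mul]
    ring
  · intro r c hr hc
    unfold exM
    rw [Matrix.diagonal_apply_ne]
    rintro rfl
    exact hc hr

/-- PROOF: `k* = k⁻¹` gives `k S⁻¹ kᴴ = S⁻¹`. -/
theorem Nj_K (j : b.support) (X : Matrix (I b) (I b) F) {k : GF b F} (hk : k ∈ gK b F) : Nj b F j (X * k.1.1) = Nj b F j X := by
  have h1 : (SF b F)⁻¹ * (k.1.1)ᴴ * SF b F = (k⁻¹).1.1 := by
    have h2 : gst b F k = k⁻¹ := hk
    have h3 : (gst b F k).1.1 = (SF b F)⁻¹ * (k.1.1)ᴴ * SF b F := rfl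
    rw [← h3, h2]
  have hS : SF b F * (SF b F)⁻¹ = 1 := Matrix.mul_nonsing_inv _ (SF_det F b)
  have hkk : k.1.1 * (k⁻¹).1.1 = 1 := k.1.mul_inv
  have h4 : k.1.1 * (SF b F)⁻¹ * (k.1.1)ᴴ = (SF b F)⁻¹ := by
    calc k.1.1 * (SF b F)⁻¹ * (k.1.1)ᴴ = k.1.1 * ((SF b F)⁻¹ * (k.1.1)ᴴ * SF b F) * (SF b F)⁻¹ := by
          simp only [Matrix.mul_assoc, hS, Matrix.mul_one]
      _ = (SF b F)⁻¹ := by rw [h1, hkk, Matrix.one_mul]
  unfold Nj
  have h5 : X * k.1.1 * (SF b F)⁻¹ * (X * k.1.1)ᴴ = X * (k.1.1 * (SF b F)⁻¹ * (k.1.1)ᴴ) * Xᴴ := by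
    rw [Matrix.conjTranspose_mul]
    simp only [Matrix.mul_assoc]
  rw [h5, h4]

/-- **`N_j(g) ≠ 0`.** PROOF: `A = g S⁻¹ gᴴ` is positive definite in the sense of `SF_pos`: for `x ≠ 0`: `x* A x = (S⁻¹ gᴴ x)* S (S⁻¹ gᴴ x)` has positive real part. If the determinant of the submatrix is `0` there is `z ≠ 0` on `T_j` with `A_(TT) z = 0` (`Matrix.exists_mulVec_eq_zero_iff`); extend `z` by zero to `x`: `x* A x = z* A_(TT) z = 0`,
a contradiction. -/
theorem Nj_ne (j : b.support) (g : GL (I b) F) : Nj b F j g.1 ≠ 0 := by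
  classical
  intro h0
  unfold Nj at h0
  set A : Matrix (I b) (I b) F := g.1 * (SF b F)⁻¹ * (g.1)ᴴ with hA
  obtain ⟨z, hz, hAz⟩ := Matrix.exists_mulVec_eq_zero_iff.2 h0
  set x : I b → F := fun r => if h : wq b r j < 0 then z ⟨r, h⟩ else 0 with hx
  have hxT : ∀ r : Tn b j, x r.1 = z r := fun r => by rw [hx]; exact dif_pos r.2
  have hx0 : ∀ r, ¬wq b r j < 0 → x r = 0 := fun r hr => by rw [hx]; exact dif_neg hr
  have hxne : x ≠ 0 := by
    intro h
    apply hz
    funext r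
    rw [← hxT r, h]
    rfl
  have hS : SF b F * (SF b F)⁻¹ = 1 := Matrix.mul_nonsing_inv _ (SF_det F b)
  set y : I b → F := (SF b F)⁻¹ *ᵥ ((g.1)ᴴ *ᵥ x) with hy
  have hSy : SF b F *ᵥ y = (g.1)ᴴ *ᵥ x := by
    rw [hy, Matrix.mulVec_mulVec, hS, Matrix.one_mulVec]
  have hyne : y ≠ 0 := by
    intro h
    rw [h, Matrix.mulVec_zero] at hSy
    have hgg : (g⁻¹.1)ᴴ * (g.1)ᴴ = 1 := by
      rw [← Matrix.conjTranspose_mul, show g.1 * g⁻¹.1 = 1 from g.mul_inv, Matrix.conjTranspose_one]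
    have h1 : x = (g⁻¹.1)ᴴ *ᵥ ((g.1)ᴴ *ᵥ x) := by rw [Matrix.mulVec_mulVec, hgg, Matrix.one_mulVec]
    rw [← hSy, Matrix.mulVec_zero] at h1
    exact hxne h1
  have hpos := SF_pos F b y hyne
  have h1 : star x ⬝ᵥ (A *ᵥ x) = star (star y ⬝ᵥ (SF b F *ᵥ y)) := by
    have h2 : A *ᵥ x = g.1 *ᵥ y := by
      rw [hA, hy, Matrix.mulVec_mulVec, Matrix.mulVec_mulVec, Matrix.mul_assoc]
    have h3 : star x ⬝ᵥ (g.1 *ᵥ y) = star ((g.1)ᴴ *ᵥ x) ⬝ᵥ y := by
      rw [Matrix.star_mulVec, Matrix.conjTranspose_conjTranspose, Matrix.dotProduct_mulVec]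
    rw [h2, h3, ← hSy]
    simp only [dotProduct, Pi.star_apply, star_sum, star_mul, star_star]
  have h2 : star x ⬝ᵥ (A *ᵥ x) = 0 := by
    have h3 : star x ⬝ᵥ (A *ᵥ x) = ∑ r : Tn b j, star (z r) * (A *ᵥ x) r.1 := by
      simp only [dotProduct, Pi.star_apply]
      rw [ig16_sum (fun r => wq b r j < 0) (fun r => star (x r) * (A *ᵥ x) r) (fun a ha => by rw [hx0 a ha, star_zero, zero_mul])]
      exact Finset.sum_congr rfl fun r _ => by rw [hxT r]
    rw [h3]
    refine Finset.sum_eq_zero fun r _ => ?_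
    have h4 : (A *ᵥ x) r.1 = ((A.submatrix (fun r : Tn b j => r.1) (fun r : Tn b j => r.1)) *ᵥ z) r := by
      simp only [Matrix.mulVec, dotProduct]
      rw [ig16_sum (fun c => wq b c j < 0) (fun c => A r.1 c * x c) (fun a ha => by rw [hx0 a ha, mul_zero])]
      exact Finset.sum_congr rfl fun c _ => by rw [hxT c]; rfl
    rw [h4, hAz]
    exact mul_zero _
  rw [h2] at h1
  have h3 : star y ⬝ᵥ (SF b F *ᵥ y) = 0 := by
    have := congrArg star h1
    rw [star_star, star_zero] at this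
    exact this.symm
  rw [h3, map_zero] at hpos
  exact lt_irrefl _ hpos

/-- PROOF: continuity of the matrix operations. -/
theorem Nj_cont (j : b.support) : Continuous fun X : Matrix (I b) (I b) F => Nj b F j X := by
  unfold Nj
  refine Continuous.matrix_det ?_
  refine Continuous.matrix_submatrix ?_ _ _
  exact (continuous_id.matrix_mul continuous_const).matrix_mul continuous_id.matrix_conjTranspose

end

end Pool.Agent.Lib.L8
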