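import Pool.Agent.Lib.L8.IG8

/-! # L8, module I, chunk IG9B: `K` is compact -/

namespace Pool.Agent.Lib.L8

open Matrix Pool.Agent.Lib.L1S

noncomputable section

set_option linter.unusedSectionVars false

variable {ι M N : Type} [Fintype ι] [DecidableEq ι] [AddCommGroup M] [Module ℚ M] [AddCommGroup N] [Module ℚ N]
  {P : RootPairing ι ℚ M N} [P.IsCrystallographic] [P.IsReduced] [P.IsIrreducible] [P.IsRootSystem] {b : P.Base} {F : Type} [RCLike F]

theorem ig9b_lower {n F : Type} [Fintype n] [RCLike F] (S : Matrix n n F) (hS : ∀ x : n → F, x ≠ 0 → 0 < RCLike.re (star x ⬝ᵥ (S *ᵥ x))) :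
    ∃ c : ℝ, 0 < c ∧ ∀ x : n → F, c * ‖x‖ ^ 2 ≤ RCLike.re (star x ⬝ᵥ (S *ᵥ x)) := by
  have : ProperSpace F := FiniteDimensional.proper_rclike F F
  have hcont : Continuous fun x : n → F => RCLike.re (star x ⬝ᵥ (S *ᵥ x)) := by
    refine RCLike.continuous_re.comp ?_
    exact Continuous.dotProduct continuous_star (Continuous.matrix_mulVec continuous_const continuous_id)
  rcases isEmpty_or_nonempty n with he | hne
  · refine ⟨1, one_pos, fun x => ?_⟩
    have hx : x = 0 := Subsingleton.elim _ _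
    rw [hx]
    simp
  · have hc : IsCompact (Metric.sphere (0 : n → F) 1) := isCompact_sphere _ _
    have hn : (Metric.sphere (0 : n → F) 1).Nonempty := by
      refine ⟨fun _ => 1, ?_⟩
      rw [mem_sphere_zero_iff_norm]
      rw [pi_norm_const, norm_one]
    obtain ⟨x0, hx0, hmin⟩ := hc.exists_isMinOn hn hcont.continuousOn
    have hx00 : x0 ≠ 0 := by
      rintro rfl
      simp at hx0
    refine ⟨RCLike.re (star x0 ⬝ᵥ (S *ᵥ x0)), hS x0 hx00, fun x => ?_⟩
    by_cases hx : x = 0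
    · rw [hx]
      simp
    have hxn : 0 < ‖x‖ := norm_pos_iff.2 hx
    set t : ℝ := ‖x‖ with ht
    have h1 : x = ((t : ℝ) : F) • (((t⁻¹ : ℝ) : F) • x) := by
      rw [smul_smul, ← RCLike.ofReal_mul, mul_inv_cancel₀ hxn.ne', RCLike.ofReal_one, one_smul]
    set u : n → F := ((t⁻¹ : ℝ) : F) • x with hu
    have hu1 : u ∈ Metric.sphere (0 : n → F) 1 := by
      rw [mem_sphere_zero_iff_norm, hu, norm_smul, RCLike.norm_ofReal, abs_of_pos (inv_pos.2 hxn), ← ht, inv_mul_cancel₀ hxn.ne']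
    have h2 := hmin hu1
    have h3 : RCLike.re (star x ⬝ᵥ (S *ᵥ x)) = t ^ 2 * RCLike.re (star u ⬝ᵥ (S *ᵥ u)) := by
      rw [h1, Matrix.mulVec_smul, star_smul, smul_dotProduct, dotProduct_smul]
      rw [smul_smul, RCLike.star_def, RCLike.conj_ofReal, ← RCLike.ofReal_mul, smul_eq_mul, RCLike.re_ofReal_mul]
      ring
    rw [h3, mul_comm]
    exact mul_le_mul_of_nonneg_left h2 (sq_nonneg _)

theorem ig9b_bound {n F : Type} [Fintype n] [DecidableEq n] [RCLike F] (S : Matrix n n F) (hS : ∀ x : n → F, x ≠ 0 → 0 < RCLike.re (star x ⬝ᵥ (S *ᵥ x))) :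
    ∃ C : ℝ, ∀ k : Matrix n n F, kᴴ * S * k = S → ∀ r c, ‖k r c‖ ≤ C := by
  obtain ⟨a, ha, hl⟩ := ig9b_lower S hS
  refine ⟨Real.sqrt (∑ c, ‖S c c‖ / a), fun k hk r c => ?_⟩
  apply Real.le_sqrt_of_sq_le
  have h1 : ‖k r c‖ ≤ ‖fun i => k i c‖ := norm_le_pi_norm (fun i => k i c) r
  have h2 := hl fun i => k i c
  have h3 : star (fun i => k i c) ⬝ᵥ (S *ᵥ fun i => k i c) = S c c := by
    have e1 : (kᴴ * S * k) c c = star (fun i => k i c) ⬝ᵥ (S *ᵥ fun i => k i c) := by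
      rw [Matrix.mul_assoc, Matrix.mul_apply]
      rfl
    rw [← e1, hk]
  rw [h3] at h2
  have h4 : ‖k r c‖ ^ 2 ≤ ‖S c c‖ / a := by
    rw [le_div_iff₀ ha]
    have h5 : ‖k r c‖ ^ 2 ≤ ‖fun i => k i c‖ ^ 2 := by gcongr
    calc ‖k r c‖ ^ 2 * a ≤ ‖fun i => k i c‖ ^ 2 * a := by gcongr
      _ = a * ‖fun i => k i c‖ ^ 2 := mul_comm _ _
      _ ≤ RCLike.re (S c c) := h2
      _ ≤ ‖S c c‖ := RCLike.re_le_norm _
  exact h4.trans (Finset.single_le_sum (f := fun c => ‖S c c‖ / a) (fun i _ => div_nonneg (norm_nonneg _) ha.le) (Finset.mem_univ c))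

theorem ig9b_cpt {n F : Type} [RCLike F] (C : ℝ) : IsCompact {X : Matrix n n F | ∀ r c, ‖X r c‖ ≤ C} := by
  have : ProperSpace F := FiniteDimensional.proper_rclike F F
  have h1 : IsCompact (Set.pi Set.univ fun _ : n => Set.pi Set.univ fun _ : n => Metric.closedBall (0 : F) C) :=
    isCompact_univ_pi fun _ => isCompact_univ_pi fun _ => isCompact_closedBall _ _
  have e : {X : Matrix n n F | ∀ r c, ‖X r c‖ ≤ C} = (Set.pi Set.univ fun _ : n => Set.pi Set.univ fun _ : n => Metric.closedBall (0 : F) C) := by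
    ext X
    constructor
    · intro h r _ c _
      exact mem_closedBall_zero_iff.2 (h r c)
    · intro h r c
      exact mem_closedBall_zero_iff.1 (h r (Set.mem_univ _) c (Set.mem_univ _))
  rw [e]
  exact h1

theorem ig9b_group {n F : Type} [Fintype n] [DecidableEq n] [RCLike F] (H : Subgroup (GL n F)) (hH : IsClosed (H : Set (GL n F))) (C : ℝ) :
    IsCompact {g : ↥H | (∀ r c, ‖g.1.1 r c‖ ≤ C) ∧ ∀ r c, ‖g.1⁻¹.1 r c‖ ≤ C} := by
  have h1 : IsCompact ({X : Matrix n n F | ∀ r c, ‖X r c‖ ≤ C} ×ˢ (MulOpposite.op '' {X : Matrix n n F | ∀ r c, ‖X r c‖ ≤ C})) :=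
    (ig9b_cpt C).prod ((ig9b_cpt C).image MulOpposite.continuous_op)
  have h2 : Topology.IsClosedEmbedding fun g : ↥H => Units.embedProduct (Matrix n n F) g.1 :=
    Units.isClosedEmbedding_embedProduct.comp hH.isClosedEmbedding_subtypeVal
  have h3 := h2.isCompact_preimage h1
  have e : {g : ↥H | (∀ r c, ‖g.1.1 r c‖ ≤ C) ∧ ∀ r c, ‖g.1⁻¹.1 r c‖ ≤ C} = (fun g : ↥H => Units.embedProduct (Matrix n n F) g.1) ⁻¹'
      ({X : Matrix n n F | ∀ r c, ‖X r c‖ ≤ C} ×ˢ (MulOpposite.op '' {X : Matrix n n F | ∀ r c, ‖X r c‖ ≤ C})) := by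
    ext g
    constructor
    · rintro ⟨h4, h5⟩
      exact ⟨h4, g.1⁻¹.1, h5, rfl⟩
    · rintro ⟨h4, X, hX, hX2⟩
      refine ⟨h4, ?_⟩
      have h6 : X = g.1⁻¹.1 := MulOpposite.op_injective hX2
      rw [← h6]
      exact hX
  rw [e]
  exact h3

/-- **`K` is compact.**
PROOF: `K` is closed in `GF`, and `GFs` is closed in `GL`. For `k ∈ K`: `kᴴ S k = S` (from `k* = k⁻¹`), so for every vector `x`: `re ((k x)* S (k x)) = re (x* S x)`. By `SF_pos` and compactness of the unit sphere there are `0 < c ≤ C` with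
`c |x|² ≤ re (x* S x) ≤ C |x|²`; hence the entries of `k` and of `k⁻¹ ∈ K` are bounded. The map `GL → Mat × Mat, g ↦ (g, g⁻¹)` is a closed embedding (`Units.embedProd`, its image `{(x, y) : x y = 1 = y x}` is closed), so `K` is homeomorphic to a closed bounded subset of the finite
dimensional space `Mat × Mat`: compact (`Metric.isCompact_of_isClosed_isBounded`, entries: `Matrix` as a pi type). -/
theorem gK_compact : IsCompact (gK b F : Set (GF b F)) := by
  obtain ⟨C, hC⟩ := ig9b_bound (SF b F) (SF_pos F b)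
  have h1 := ig9b_group (GFs b F) (Subgroup.isClosed_topologicalClosure _) C
  have hcl : IsClosed (gK b F : Set (GF b F)) := isClosed_eq (gst_cont b F) continuous_inv
  have key : ∀ g : GF b F, g ∈ gK b F → g.1.1ᴴ * SF b F * g.1.1 = SF b F := by
    intro g hg
    have h2 : gst b F g = g⁻¹ := hg
    have h3 : stM b g.1.1 = g.1⁻¹.1 := congrArg (fun x : GF b F => x.1.1) h2
    have h4 : SF b F * stM b g.1.1 = g.1.1ᴴ * SF b F := by
      rw [stM, Matrix.mul_assoc, ← Matrix.mul_assoc (SF b F), Matrix.mul_nonsing_inv _ (SF_det F b), Matrix.one_mul]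
    rw [← h4, h3, Matrix.mul_assoc]
    have h5 : g.1⁻¹.1 * g.1.1 = 1 := g.1.inv_mul
    rw [h5, Matrix.mul_one]
  exact h1.of_isClosed_subset hcl fun g hg => ⟨hC _ (key g hg), hC _ (key g⁻¹ (inv_mem hg))⟩

end

end Pool.Agent.Lib.L8
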