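import Pool.Agent.Lib.L8.IG9
import Pool.Agent.Lib.L8.IG9B
import Pool.Agent.Lib.L8.IG14
import Pool.Agent.Lib.L8.IG16

/-! # L8, module I, chunk IG17: the Iwasawa projection -/

namespace Pool.Agent.Lib.L8

open Matrix Pool.Agent.Lib.L1S

noncomputable section

set_option linter.unusedSectionVars false

variable {ι M N : Type} [Fintype ι] [DecidableEq ι] [AddCommGroup M] [Module ℚ M] [AddCommGroup N] [Module ℚ N]
  {P : RootPairing ι ℚ M N} [P.IsCrystallographic] [P.IsReduced] [P.IsIrreducible] [P.IsRootSystem]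

/-- The Iwasawa projection: `|N_j(g)| = e^(-2 c_j Hp(g)_j) |N_j(1)|`. -/
def gH (b : P.Base) (F : Type) [RCLike F] (g : GF b F) (j : b.support) : ℝ :=
  -(1 / (2 * ((cw b j : ℤ) : ℝ))) * (Real.log ‖Nj b F j g.1.1‖ - Real.log ‖Nj b F j (1 : Matrix (I b) (I b) F)‖)

variable {b : P.Base} {F : Type} [RCLike F]

/-- PROOF: `Nj_U`. -/
theorem gH_U {u : GF b F} (hu : u ∈ gU b F) (g : GF b F) : gH b F (u * g) = gH b F g := by
  funext j
  have h1 : (u * g).1.1 = u.1.1 * g.1.1 := rfl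
  unfold gH
  rw [h1, Nj_U j hu]

/-- PROOF: `Nj_ex`, `Nj_ne`, `cw_pos`. -/
theorem gH_ex (y : b.support → ℝ) (g : GF b F) : gH b F (gex b F y * g) = y + gH b F g := by
  funext j
  have h1 : (gex b F y * g).1.1 = exM b F y * g.1.1 := rfl
  rw [Pi.add_apply]
  unfold gH
  rw [h1, Nj_ex, norm_mul, RCLike.norm_ofReal, Real.abs_exp, Real.log_mul (Real.exp_ne_zero _) (norm_ne_zero_iff.2 (Nj_ne j g.1)), Real.log_exp]
  have h3 : (0 : ℝ) < ((cw b j : ℤ) : ℝ) := by exact_mod_cast cw_pos j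
  field_simp
  ring

/-- PROOF: `Nj_K`. -/
theorem gH_K {k : GF b F} (hk : k ∈ gK b F) (g : GF b F) : gH b F (g * k) = gH b F g := by
  funext j
  have h1 : (g * k).1.1 = g.1.1 * k.1.1 := rfl
  unfold gH
  rw [h1, Nj_K j _ hk]

theorem gH_one : gH b F 1 = 0 := by
  funext j
  show -(1 / (2 * ((cw b j : ℤ) : ℝ))) * (Real.log ‖Nj b F j (1 : Matrix (I b) (I b) F)‖ - Real.log ‖Nj b F j (1 : Matrix (I b) (I b) F)‖) = 0
  rw [sub_self, mul_zero]

/-- PROOF: `Nj_cont`, `Nj_ne`, continuity of `log` away from `0`. -/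
theorem gH_cont : Continuous (gH b F) := by
  refine continuous_pi fun j => ?_
  unfold gH
  have h1 : Continuous fun g : GF b F => Nj b F j g.1.1 := (Nj_cont j).comp (Units.continuous_val.comp continuous_subtype_val)
  have h2 : Continuous fun g : GF b F => Real.log ‖Nj b F j g.1.1‖ :=
    h1.norm.log fun g => norm_ne_zero_iff.2 (Nj_ne j g.1)
  exact continuous_const.mul (h2.sub continuous_const)

theorem ig17_uak {u k : GF b F} (hu : u ∈ gU b F) (hk : k ∈ gK b F) (y : b.support → ℝ) : gH b F (u * gex b F y * k) = y := by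
  rw [gH_K hk, gH_U hu]
  have h1 := gH_ex (F := F) y (1 : GF b F)
  rw [mul_one, gH_one, add_zero] at h1
  exact h1

/-- **The Iwasawa decomposition of the local group.**
PROOF: `g` is in the closure of the image `S` of `G(F)` (`Subgroup.topologicalClosure_coe`; `GF` is a subtype: `closure_subtype`): an ultrafilter `𝒰 ≤ 𝓝 g` with `S ∈ 𝒰` (`mem_closure_iff_ultrafilter`). For `s ∈ S`: `s = u(s) ex(y(s)) k(s)` (`UAK_GQ`, choice) and `y(s) = gH s` (`gH_U`, `gH_ex`, `gH_K`, `gH_one`),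
so `y(s) → gH g` along `𝒰` (`gH_cont`). `k(s) ∈ K` compact: `k(s) → k` in `K` along `𝒰` (`IsCompact.ultrafilter_le_nhds` for `𝒰.map k`). So `u(s) = s k(s)⁻¹ ex(y(s))⁻¹ → g k⁻¹ ex(gH g)⁻¹`, which is in `U` (`gU_closed`, `IsClosed.mem_of_tendsto`, continuity of the group operations, `gex_cont`). -/
theorem g_dec (g : GF b F) : ∃ u ∈ gU b F, ∃ k ∈ gK b F, g = u * gex b F (gH b F g) * k := by
  classical
  set S : Set (GF b F) := {s | s.1 ∈ GQ b F} with hS
  have hcl : g ∈ closure S := by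
    rw [closure_subtype]
    have h1 : (fun x : GF b F => (x : GL (I b) F)) '' S = (GQ b F : Set (GL (I b) F)) := by
      ext x
      constructor
      · rintro ⟨s, hs, rfl⟩
        exact hs
      · intro hx
        exact ⟨⟨x, Subgroup.le_topologicalClosure _ hx⟩, hx, rfl⟩
    rw [h1]
    exact g.2
  obtain ⟨𝒰, hSU, hU⟩ := mem_closure_iff_ultrafilter.1 hcl
  have hex : ∀ s : GF b F, ∃ k ∈ gK b F, s ∈ S → s * k⁻¹ * (gex b F (gH b F s))⁻¹ ∈ gU b F := by
    intro s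
    by_cases hs : s ∈ S
    · obtain ⟨u, hu, y, k, hk, h⟩ := UAK_GQ hs
      refine ⟨k, hk, fun _ => ?_⟩
      have h2 : gH b F s = y := by rw [h]; exact ig17_uak hu hk y
      rw [h2, h]
      have h3 : u * gex b F y * k * k⁻¹ * (gex b F y)⁻¹ = u := by group
      rw [h3]
      exact hu
    · exact ⟨1, one_mem _, fun h => absurd h hs⟩
  choose κ hκK hκ using hex
  have hmem : (gK b F : Set (GF b F)) ∈ 𝒰.map κ := by
    rw [Ultrafilter.mem_map]
    exact Filter.univ_mem' fun s => hκK s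
  obtain ⟨k, hk, hkU⟩ := gK_compact.ultrafilter_le_nhds (𝒰.map κ) (Filter.le_principal_iff.2 hmem)
  have t1 : Filter.Tendsto κ 𝒰 (nhds k) := hkU
  have t2 : Filter.Tendsto (fun s : GF b F => s) 𝒰 (nhds g) := hU
  have t3 : Filter.Tendsto (fun s : GF b F => gex b F (gH b F s)) 𝒰 (nhds (gex b F (gH b F g))) :=
    ((gex_cont.comp gH_cont).tendsto g).comp t2
  have t4 : Filter.Tendsto (fun s : GF b F => s * (κ s)⁻¹ * (gex b F (gH b F s))⁻¹) 𝒰 (nhds (g * k⁻¹ * (gex b F (gH b F g))⁻¹)) :=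
    (t2.mul t1.inv).mul t3.inv
  have hmemU : g * k⁻¹ * (gex b F (gH b F g))⁻¹ ∈ (gU b F : Set (GF b F)) := by
    refine gU_closed.mem_of_tendsto t4 ?_
    filter_upwards [hSU] with s hs
    exact hκ s hs
  refine ⟨g * k⁻¹ * (gex b F (gH b F g))⁻¹, hmemU, k, hk, ?_⟩
  group

/-- PROOF: `m g = m u ex(y) k = (m u m⁻¹) ex(y) (m k)` with `g_dec`; `gH_U`, `gH_ex`, `gH_K`. -/
theorem gH_M {m : GF b F} (hm : m ∈ gM b F) (g : GF b F) : gH b F (m * g) = gH b F g := by
  obtain ⟨u, hu, k, hk, h⟩ := g_dec g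
  obtain ⟨y, hy⟩ : ∃ y, y = gH b F g := ⟨_, rfl⟩
  rw [← hy] at h
  rw [← hy, h]
  have h1 : m * (u * gex b F y * k) = (m * u * m⁻¹) * gex b F y * (m * k) := by
    calc m * (u * gex b F y * k) = m * u * m⁻¹ * (m * gex b F y) * k := by group
      _ = m * u * m⁻¹ * (gex b F y * m) * k := by rw [hm.2 y]
      _ = _ := by group
  rw [h1]
  exact ig17_uak (gM_U hm hu) (mul_mem hm.1 hk) y

/-- PROOF: `rk_K`, `gH_U`, `gH_ex`, `gH_K`, `gH_one`. -/
theorem rk_H (i : b.support) (t : F) : gH b F (gn b F i * gx b F (i : ι) t) = (-(1 / 2 : ℝ) * Real.log (1 + ‖t‖ ^ 2)) • Pi.single i 1 := by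
  obtain ⟨k, hk, h⟩ := rk_K (b := b) (F := F) i t
  have hi : 0 < b.height (i : ι) := by
    rw [RootPairing.Base.height_one_of_mem_support i.2]
    exact one_pos
  rw [h]
  exact ig17_uak (gx_U hi _) hk _

end

end Pool.Agent.Lib.L8
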