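import Mathlib

/-!
# L8, module PE, file PE3 (helper29): the modulus of an automorphism of an extension by a vector group
-/

namespace Pool.Agent.Lib.L8

open MeasureTheory
open scoped ENNReal

noncomputable section

/-- Let `G ≅ V × N` as a space, `V` a real vector space, `e(v, n) = e(v, 1) j(n)`, `κ : G → V` the homomorphism with `κ(e(v, n)) = v`. For an endomorphism `α` of `G` with `α(j n) = j(β n)`, `κ(α g) = T κ(g)`:
if `β` maps the Haar measure of `N` to its `c`-fold, then `α` maps the Haar measure of `G` to its `c / |det T|`-fold. -/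
theorem pe_skew {G N V : Type} [Group G] [TopologicalSpace G] [IsTopologicalGroup G] [T2Space G] [LocallyCompactSpace G] [SecondCountableTopology G] [MeasurableSpace G] [BorelSpace G]
    [Group N] [TopologicalSpace N] [IsTopologicalGroup N] [LocallyCompactSpace N] [SecondCountableTopology N] [MeasurableSpace N] [BorelSpace N]
    [NormedAddCommGroup V] [NormedSpace ℝ V] [FiniteDimensional ℝ V] [MeasurableSpace V] [BorelSpace V]
    (μ : Measure G) [μ.IsHaarMeasure] (μN : Measure N) [μN.IsHaarMeasure] (e : V × N ≃ₜ G) (j : N →* G) (κ : G → V) (hκ : ∀ g g', κ (g * g') = κ g + κ g')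
    (he : ∀ v n, e (v, n) = e (v, 1) * j n) (hκe : ∀ v n, κ (e (v, n)) = v)
    {α : G → G} (hα : ∀ g g', α (g * g') = α g * α g') (hαc : Continuous α) {β : N → N} (hβc : Continuous β) (hβ : ∀ n, α (j n) = j (β n))
    {T : V →ₗ[ℝ] V} (hT : LinearMap.det T ≠ 0) (hκT : ∀ g, κ (α g) = T (κ g)) {c : ℝ≥0∞} (hc : μN.map β = c • μN) :
    μ.map α = (ENNReal.ofReal |(LinearMap.det T)⁻¹| * c) • μ := by
  have : SecondCountableTopology V := inferInstance
  obtain ⟨μV, hμV⟩ : ∃ μV : Measure V, μV.IsAddHaarMeasure := ⟨Measure.addHaar, inferInstance⟩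
  -- the form of an element
  have key : ∀ x : G, x = e (κ x, 1) * j (e.symm x).2 := by
    intro x
    obtain ⟨⟨v, n⟩, rfl⟩ := e.surjective x
    rw [hκe, e.symm_apply_apply]
    exact he v n
  have e1 : ∀ v n n', e (v, n) * j n' = e (v, n * n') := by
    intro v n n'
    rw [he v n, he v (n * n'), map_mul, mul_assoc]
  have ce1 : Continuous fun v : V => e (v, 1) := e.continuous.comp (continuous_id.prodMk continuous_const)
  set m : Measure (V × N) := μV.prod μN with hm
  set μ' : Measure G := m.map e with hμ'
  have hem : Measurable e := e.continuous.measurable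
  -- left invariance
  have hinv : μ'.IsMulLeftInvariant := by
    constructor
    intro g
    set cg : V → N := fun v => (e.symm (g * e (v, 1))).2 with hcg
    have ccg : Continuous cg := continuous_snd.comp (e.symm.continuous.comp (continuous_const.mul ce1))
    have h1 : ∀ p : V × N, g * e p = e (κ g + p.1, cg p.1 * p.2) := by
      rintro ⟨v, n⟩
      have h2 : g * e (v, 1) = e (κ g + v, 1) * j (cg v) := by
        conv_lhs => rw [key (g * e (v, 1))]
        rw [hκ, hκe]
      rw [he v n, ← mul_assoc, h2, mul_assoc, ← map_mul, e1, one_mul]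
    have h3 : MeasurePreserving (fun p : V × N => (κ g + p.1, cg p.1 * p.2)) m m := by
      refine MeasurePreserving.skew_product (f := fun v => κ g + v) (g := fun v n => cg v * n) (measurePreserving_add_left μV (κ g)) ?_ ?_
      · exact ((ccg.comp continuous_fst).mul continuous_snd).measurable
      · exact Filter.Eventually.of_forall fun v => map_mul_left_eq_self μN (cg v)
    have h4 : (fun x : G => g * x) ∘ e = e ∘ fun p : V × N => (κ g + p.1, cg p.1 * p.2) := funext h1
    rw [hμ', Measure.map_map (measurable_const_mul g) hem, h4, ← Measure.map_map hem h3.measurable, h3.map_eq]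
  have hfin : IsFiniteMeasureOnCompacts μ' := by
    constructor
    intro K hK
    rw [hμ', Measure.map_apply hem hK.measurableSet]
    exact (e.isCompact_preimage.2 hK).measure_lt_top
  have hne : μ' ≠ 0 := by
    rw [hμ', Ne, Measure.map_eq_zero_iff hem.aemeasurable]
    exact (inferInstance : NeZero m).out
  have hs := Measure.isMulLeftInvariant_eq_smul μ' μ
  set c₀ := μ'.haarScalarFactor μ with hc₀
  have hc0 : (c₀ : ℝ≥0∞) ≠ 0 := by
    intro h
    apply hne
    have h2 : c₀ = 0 := by exact_mod_cast h
    rw [hs, h2, zero_smul]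
  -- the automorphism
  set d : V → N := fun v => (e.symm (α (e (v, 1)))).2 with hd
  have cd : Continuous d := continuous_snd.comp (e.symm.continuous.comp (hαc.comp ce1))
  have h1 : ∀ p : V × N, α (e p) = e (T p.1, d p.1 * β p.2) := by
    rintro ⟨v, n⟩
    have h2 : α (e (v, 1)) = e (T v, 1) * j (d v) := by
      conv_lhs => rw [key (α (e (v, 1)))]
      rw [hκT, hκe]
    rw [he v n, hα, h2, hβ, mul_assoc, ← map_mul, e1, one_mul]
  have hTc : Continuous T := LinearMap.continuous_of_finiteDimensional T
  have h3 : MeasurePreserving (fun p : V × N => (T p.1, d p.1 * β p.2)) m ((ENNReal.ofReal |(LinearMap.det T)⁻¹| • μV).prod (c • μN)) := by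
    refine MeasurePreserving.skew_product (f := T) (g := fun v n => d v * β n) ⟨hTc.measurable, Measure.map_linearMap_addHaar_eq_smul_addHaar μV hT⟩ ?_ ?_
    · exact ((cd.comp continuous_fst).mul (hβc.comp continuous_snd)).measurable
    · refine Filter.Eventually.of_forall fun v => ?_
      have h4 : (fun n => d v * β n) = (fun n => d v * n) ∘ β := rfl
      rw [h4, ← Measure.map_map (measurable_const_mul _) hβc.measurable, hc, Measure.map_smul, map_mul_left_eq_self]
  have h4 : α ∘ e = e ∘ fun p : V × N => (T p.1, d p.1 * β p.2) := funext h1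
  have h5 : μ'.map α = (ENNReal.ofReal |(LinearMap.det T)⁻¹| * c) • μ' := by
    rw [hμ', Measure.map_map hαc.measurable hem, h4, ← Measure.map_map hem h3.measurable, h3.map_eq, Measure.prod_smul_left, Measure.prod_smul_right, smul_smul, Measure.map_smul]
  have h6 : μ' = (c₀ : ℝ≥0∞) • μ := hs
  rw [h6, Measure.map_smul, smul_comm] at h5
  have h7 : (c₀ : ℝ≥0∞)⁻¹ • (c₀ : ℝ≥0∞) • μ.map α = (c₀ : ℝ≥0∞)⁻¹ • (c₀ : ℝ≥0∞) • ((ENNReal.ofReal |(LinearMap.det T)⁻¹| * c) • μ) := by rw [h5]
  rw [smul_smul, smul_smul, ENNReal.inv_mul_cancel hc0 ENNReal.coe_ne_top, one_smul, one_smul] at h7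
  exact h7

end

end Pool.Agent.Lib.L8
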