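import Pool.Agent.Lib.L8.PE5
import Pool.Agent.Lib.L8.PE3
import Pool.Agent.Lib.L1S.RH2E
import Pool.Agent.Lib.L1S.R1B

/-!
# L8, module PE, file PE6 (helper29): the coordinates of the filtration of `U` and the action of the torus
-/

namespace Pool.Agent.Lib.L8

set_option linter.unusedSectionVars false

open MeasureTheory Matrix NumberField NumberField.InfinitePlace IsDedekindDomain Pool.Agent.Lib.H89N Pool.Agent.Lib.H33W Pool.Agent.Lib.L1S

noncomputable section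

variable {ι M N : Type} [Fintype ι] [DecidableEq ι] [AddCommGroup M] [Module ℚ M] [AddCommGroup N] [Module ℚ N]
  {P : RootPairing ι ℚ M N} [P.IsCrystallographic] [P.IsReduced] [P.IsIrreducible] [P.IsRootSystem] {b : P.Base}
  {K L : Type} [Field K] [NumberField K] [Field L] [NumberField L] [Algebra K L] {Q : QS b K L} [IsGalois K L] (J : LID Q)

/-- The coordinate `β`. -/
def kapE (β : ι) (u : UHR (HQ Q)) : KR K L := (J.c0 : ℝ)⁻¹ • ⟨fcM (FE J β) u.1.1.1.1, li7_inKR Q (J.Ffix β) u.1.2⟩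

theorem kapE_coe (β : ι) (u : UHR (HQ Q)) : (kapE J β u : EE L) = (J.c0 : ℝ)⁻¹ • fcM (FE J β) u.1.1.1.1 := rfl

theorem kapE_cont (β : ι) : Continuous (kapE J β) := by
  refine Continuous.subtype_mk ?_ _
  exact ((li7_cont (FE J β)).comp (continuous_subtype_val.comp continuous_subtype_val)).const_smul ((J.c0 : ℝ)⁻¹)

theorem pe6_YE {β : ι} (hβ : β ∈ Pos b) : J.lieH.YE β = (J.c0 : ℝ) • YM J β := by
  have h1 : J.lieH.YE β = (J.c0 : EE L) • (J.Y β).map (mixedEmbedding L) := J.DP_E hβ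
  rw [h1]
  ext1 r c
  rw [Matrix.smul_apply, Matrix.smul_apply]
  have e1 : (J.c0 : EE L) = (J.c0 : ℝ) • (1 : EE L) := by
    rw [Nat.cast_smul_eq_nsmul, nsmul_eq_mul, mul_one]
  rw [e1, smul_eq_mul, smul_mul_assoc, one_mul]
  rfl

theorem pe6_c0 : (J.c0 : ℝ) ≠ 0 := by exact_mod_cast J.c0_ne

theorem fcM_rsmul (F X : Matrix (I b) (I b) (EE L)) (r : ℝ) : fcM F (r • X) = r • fcM F X := by
  unfold fcM
  rw [Finset.smul_sum]
  refine Finset.sum_congr rfl fun i _ => ?_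
  rw [Finset.smul_sum]
  refine Finset.sum_congr rfl fun j _ => ?_
  rw [Matrix.smul_apply, mul_smul_comm]

/-- The coordinates from the degree `k` part. -/
theorem kapE_of {k : ℕ} {u : UHR (HQ Q)} {y : ι → KR K L} (h : dgk b k u.1.1.1.1 = ∑ β ∈ Posk b k, (y β : EE L) • J.lieH.YE β) {β : ι} (hβ : β ∈ Posk b k) : kapE J β u = y β := by
  apply Subtype.ext
  rw [kapE_coe, ← pe5_F_dgk J hβ, h, fcM_sum, Finset.sum_eq_single β]
  · rw [fcM_smul, pe6_YE J (li10_Posk_Pos hβ), fcM_rsmul, pe5_FY, if_pos rfl, mul_smul_comm, mul_one, smul_smul, inv_mul_cancel₀ (pe6_c0 J), one_smul]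
  · intro γ hγ hne
    rw [fcM_smul, pe6_YE J (li10_Posk_Pos hγ), fcM_rsmul, pe5_FY, if_neg (Ne.symm hne), smul_zero, mul_zero]
  · intro h
    exact absurd hβ h

theorem kapE_dgk {k : ℕ} (hk : 1 ≤ k) {u : UHR (HQ Q)} (hu : u ∈ FH (HQ Q) k) : dgk b k u.1.1.1.1 = ∑ β ∈ Posk b k, (kapE J β u : EE L) • J.lieH.YE β := by
  obtain ⟨y, hy⟩ := J.lieH.degR (toUR (HQ Q) u) u.1.2 k hk hu
  have h1 : dgk b k u.1.1.1.1 = ∑ β ∈ Posk b k, (y β : EE L) • J.lieH.YE β := hy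
  rw [h1]
  refine Finset.sum_congr rfl fun β hβ => ?_
  rw [kapE_of J h1 hβ]

theorem kapE_prE {k : ℕ} (hk : 1 ≤ k) (s : ι → KR K L) {β : ι} (hβ : β ∈ Posk b k) : kapE J β (J.lieH.prE k s) = s β :=
  kapE_of J (rh2_prE_dgk J.lieH hk s) hβ

theorem kapE_mul {k : ℕ} (hk : 1 ≤ k) {u u' : UHR (HQ Q)} (hu : u ∈ FH (HQ Q) k) (hu' : u' ∈ FH (HQ Q) k) {β : ι} (hβ : β ∈ Posk b k) : kapE J β (u * u') = kapE J β u + kapE J β u' := by
  apply Subtype.ext
  rw [Submodule.coe_add, kapE_coe, kapE_coe, kapE_coe, ← smul_add, ← pe5_F_dgk J hβ, ← pe5_F_dgk J hβ u.1.1.1.1, ← pe5_F_dgk J hβ u'.1.1.1.1]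
  have h1 : Rs b k u.1.1.1.1 := (Subgroup.mem_comap.1 hu).1
  have h2 : Rs b k u'.1.1.1.1 := (Subgroup.mem_comap.1 hu').1
  have e : (u * u').1.1.1.1 = u.1.1.1.1 * u'.1.1.1.1 := rfl
  rw [e, dgk_mul hk h1 h2, fcM_add]

theorem kapE_one {k : ℕ} (hk : 1 ≤ k) {β : ι} (hβ : β ∈ Posk b k) : kapE J β 1 = 0 := by
  have h := kapE_mul J hk (one_mem (FH (HQ Q) k)) (one_mem _) hβ
  rw [mul_one] at h
  exact left_eq_add.1 h

theorem kapE_inv {k : ℕ} (hk : 1 ≤ k) {u : UHR (HQ Q)} (hu : u ∈ FH (HQ Q) k) {β : ι} (hβ : β ∈ Posk b k) : kapE J β u⁻¹ = -kapE J β u := by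
  have h := kapE_mul J hk hu (inv_mem hu) hβ
  rw [mul_inv_cancel, kapE_one J hk hβ] at h
  exact (neg_eq_of_add_eq_zero_right h.symm).symm

/-- The next step of the filtration. -/
theorem kapE_succ {k : ℕ} (hk : 1 ≤ k) {u : UHR (HQ Q)} : u ∈ FH (HQ Q) (k + 1) ↔ u ∈ FH (HQ Q) k ∧ ∀ β ∈ Posk b k, kapE J β u = 0 := by
  have h1 : u ∈ FH (HQ Q) (k + 1) ↔ u ∈ FH (HQ Q) k ∧ dgk b k u.1.1.1.1 = 0 := r1_succR hk (toUR (HQ Q) u)
  rw [h1]
  constructor
  · rintro ⟨h2, h3⟩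
    refine ⟨h2, fun β hβ => ?_⟩
    apply Subtype.ext
    rw [kapE_coe, ← pe5_F_dgk J hβ, h3, fcM_zero, smul_zero]
    rfl
  · rintro ⟨h2, h3⟩
    refine ⟨h2, ?_⟩
    rw [kapE_dgk J hk h2]
    refine Finset.sum_eq_zero fun β hβ => ?_
    rw [h3 β hβ, Submodule.coe_zero, zero_smul]

/-- The extension by zero. -/
def exK {k : ℕ} (v : {β // β ∈ Posk b k} → KR K L) (β : ι) : KR K L := if h : β ∈ Posk b k then v ⟨β, h⟩ else 0

theorem exK_mem {k : ℕ} (v : {β // β ∈ Posk b k} → KR K L) (β : {β // β ∈ Posk b k}) : exK v β.1 = v β := by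
  unfold exK
  rw [dif_pos β.2]

theorem exK_cont {k : ℕ} : Continuous (exK (b := b) (K := K) (L := L) (k := k)) := by
  refine continuous_pi fun β => ?_
  unfold exK
  by_cases h : β ∈ Posk b k
  · simp only [dif_pos h]
    exact continuous_apply _
  · simp only [dif_neg h]
    exact continuous_const

/-- The coordinates of degree `k`. -/
def kaV (k : ℕ) (u : UHR (HQ Q)) (β : {β // β ∈ Posk b k}) : KR K L := kapE J β.1 u

theorem kaV_cont (k : ℕ) : Continuous (kaV J k) := continuous_pi fun β => kapE_cont J β.1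

/-- The section. -/
def seV (k : ℕ) (v : {β // β ∈ Posk b k} → KR K L) : UHR (HQ Q) := J.lieH.prE k (exK v)

theorem seV_cont (k : ℕ) : Continuous (seV J k) := (rh2_prE_cont J.lieH k).comp exK_cont

theorem seV_mem (k : ℕ) (v : {β // β ∈ Posk b k} → KR K L) : seV J k v ∈ FH (HQ Q) k := rh2_prE_FH J.lieH k _

theorem kaV_seV {k : ℕ} (hk : 1 ≤ k) (v : {β // β ∈ Posk b k} → KR K L) : kaV J k (seV J k v) = v := by
  funext β
  unfold kaV seV
  rw [kapE_prE J hk _ β.2, exK_mem]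

theorem fh_mono {H : Subgroup (GK b L)} (k : ℕ) : FH H (k + 1) ≤ FH H k := fun _ h => ⟨h.1.mono (Nat.le_succ k), h.2.mono (Nat.le_succ k)⟩

/-- **The coordinates of the filtration.** -/
def eK {k : ℕ} (hk : 1 ≤ k) : ({β // β ∈ Posk b k} → KR K L) × ↥(FH (HQ Q) (k + 1)) ≃ₜ ↥(FH (HQ Q) k) where
  toFun p := ⟨seV J k p.1 * p.2.1, mul_mem (seV_mem J k p.1) (fh_mono k p.2.2)⟩
  invFun g := (kaV J k g.1, ⟨(seV J k (kaV J k g.1))⁻¹ * g.1, by
    rw [kapE_succ J hk]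
    have h1 := inv_mem (seV_mem J k (kaV J k g.1))
    refine ⟨mul_mem h1 g.2, fun β hβ => ?_⟩
    rw [kapE_mul J hk h1 g.2 hβ, kapE_inv J hk (seV_mem J k _) hβ]
    have h2 := congrFun (kaV_seV J hk (kaV J k g.1)) ⟨β, hβ⟩
    have h3 : kapE J β (seV J k (kaV J k g.1)) = kapE J β g.1 := h2
    rw [h3, neg_add_cancel]⟩)
  left_inv := by
    rintro ⟨v, n⟩
    have h1 : kaV J k (seV J k v * n.1) = v := by
      funext β
      unfold kaV
      rw [kapE_mul J hk (seV_mem J k v) (fh_mono k n.2) β.2, ((kapE_succ J hk).1 n.2).2 β.1 β.2, add_zero]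
      exact congrFun (kaV_seV J hk v) β
    refine Prod.ext h1 (Subtype.ext ?_)
    show (seV J k (kaV J k (seV J k v * n.1)))⁻¹ * (seV J k v * n.1) = n.1
    rw [h1, inv_mul_cancel_left]
  right_inv := by
    intro g
    apply Subtype.ext
    show seV J k (kaV J k g.1) * ((seV J k (kaV J k g.1))⁻¹ * g.1) = g.1
    rw [mul_inv_cancel_left]
  continuous_toFun := by
    refine Continuous.subtype_mk ?_ _
    exact ((seV_cont J k).comp continuous_fst).mul (continuous_subtype_val.comp continuous_snd)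
  continuous_invFun := by
    have h1 : Continuous fun g : ↥(FH (HQ Q) k) => kaV J k g.1 := (kaV_cont J k).comp continuous_subtype_val
    refine h1.prodMk (Continuous.subtype_mk ?_ _)
    exact ((seV_cont J k).comp h1).inv.mul continuous_subtype_val

/-! ## The torus -/

section torus

variable {H : Subgroup (GK b L)}

theorem pe6_ent {a : ι → (EE L)ˣ} {X : Matrix (I b) (I b) (EE L)} {r c : I b} (h : X r c = (1 : Matrix (I b) (I b) (EE L)) r c) : (dgz b a * X * dgz b a⁻¹) r c = (1 : Matrix (I b) (I b) (EE L)) r c := by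
  rw [pe_conj_entry, h]
  by_cases hrc : r = c
  · subst hrc
    rw [Matrix.one_apply_eq, mul_one]
    rcases r with j | β
    · simp
    · simp
  · rw [Matrix.one_apply_ne hrc, mul_zero, zero_mul]

/-- The matrix of `t u t⁻¹`. -/
theorem pe6_mat {t : HRt H} {a : ι → (EE L)ˣ} (ht : t.1.1.1 = dgz b a) (u : HRt H) : (t * u * t⁻¹).1.1.1 = dgz b a * u.1.1.1 * dgz b a⁻¹ := by
  have e : t⁻¹.1.1.1 = dgz b a⁻¹ := pe_inv_mat ht
  show t.1.1.1 * u.1.1.1 * t⁻¹.1.1.1 = _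
  rw [ht, e]

theorem pe6_mem {t : HRt H} {a : ι → (EE L)ˣ} (ht : t.1.1.1 = dgz b a) (u : UHR H) : t * u.1 * t⁻¹ ∈ UHR H := by
  intro r c hrc
  have h1 := u.2 r c hrc
  have e1 : (t * u.1 * t⁻¹)⁻¹ = t * u.1⁻¹ * t⁻¹ := by group
  refine ⟨?_, ?_⟩
  · have h2 : (t * u.1 * t⁻¹).1.1.1 r c = (1 : Matrix (I b) (I b) (EE L)) r c := by
      rw [pe6_mat ht]
      exact pe6_ent h1.1
    exact h2
  · have h2 : (t * u.1 * t⁻¹)⁻¹.1.1.1 r c = (1 : Matrix (I b) (I b) (EE L)) r c := by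
      rw [e1, pe6_mat ht]
      exact pe6_ent h1.2
    exact h2

/-- **Conjugation by `t` on `U`.** -/
def cU (t : HRt H) {a : ι → (EE L)ˣ} (ht : t.1.1.1 = dgz b a) : UHR H →* UHR H where
  toFun u := ⟨t * u.1 * t⁻¹, pe6_mem ht u⟩
  map_one' := Subtype.ext (by
    show t * 1 * t⁻¹ = 1
    group)
  map_mul' u v := Subtype.ext (by
    show t * (u.1 * v.1) * t⁻¹ = t * u.1 * t⁻¹ * (t * v.1 * t⁻¹)
    group)

theorem cU_mat {t : HRt H} {a : ι → (EE L)ˣ} (ht : t.1.1.1 = dgz b a) (u : UHR H) : (cU t ht u).1.1.1.1 = dgz b a * u.1.1.1.1 * dgz b a⁻¹ := pe6_mat ht u.1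

theorem cU_cont {t : HRt H} {a : ι → (EE L)ˣ} (ht : t.1.1.1 = dgz b a) : Continuous (cU t ht) :=
  Continuous.subtype_mk ((continuous_const.mul continuous_subtype_val).mul continuous_const) _

theorem cU_FH {t : HRt H} {a : ι → (EE L)ˣ} (ht : t.1.1.1 = dgz b a) {k : ℕ} {u : UHR H} (hu : u ∈ FH H k) : cU t ht u ∈ FH H k := by
  have h1 : Rs b k u.1.1.1.1 := (Subgroup.mem_comap.1 hu).1
  have h2 : Rs b k u⁻¹.1.1.1.1 := (Subgroup.mem_comap.1 hu).2
  have h3 : Rs b k (cU t ht u).1.1.1.1 := by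
    intro r c hrc
    rw [cU_mat]
    exact pe6_ent (h1 r c hrc)
  have h4 : Rs b k (cU t ht u)⁻¹.1.1.1.1 := by
    intro r c hrc
    rw [← map_inv, cU_mat]
    exact pe6_ent (h2 r c hrc)
  exact Subgroup.mem_comap.2 ⟨h3, h4⟩

end torus

variable {t : HRt (HQ Q)} {a : ι → (EE L)ˣ} (ht : t.1.1.1 = dgz b a)

/-- The coordinates of `t u t⁻¹`. -/
theorem kapE_cU {k : ℕ} (hk : 1 ≤ k) {u : UHR (HQ Q)} (hu : u ∈ FH (HQ Q) k) (β : {β // β ∈ Posk b k}) :
    (kapE J β.1 (cU t ht u) : EE L) = ∑ γ : {β // β ∈ Posk b k}, Mk J k a β γ * (kapE J γ.1 u : EE L) := by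
  rw [kapE_coe, cU_mat, ← pe5_F_dgk J β.2, pe5_conj_dgk, kapE_dgk J hk hu, Finset.mul_sum, Finset.sum_mul, fcM_sum, Finset.smul_sum, ← Finset.sum_coe_sort (Posk b k)]
  refine Finset.sum_congr rfl fun γ _ => ?_
  rw [Matrix.mul_smul, Matrix.smul_mul, fcM_smul, pe6_YE J (li10_Posk_Pos γ.2), Matrix.mul_smul, Matrix.smul_mul, fcM_rsmul, mul_smul_comm, smul_smul, inv_mul_cancel₀ (pe6_c0 J), one_smul, mul_comm]
  rfl

/-- The linear map of `t` on the degree `k` part. -/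
def TV {k : ℕ} (hk : 1 ≤ k) : ({β // β ∈ Posk b k} → KR K L) →ₗ[ℝ] ({β // β ∈ Posk b k} → KR K L) where
  toFun v := kaV J k (cU t ht (seV J k v))
  map_add' v w := by
    funext β
    apply Subtype.ext
    have h : ∀ v : {β // β ∈ Posk b k} → KR K L, ((kaV J k (cU t ht (seV J k v)) β : KR K L) : EE L) = ∑ γ : {β // β ∈ Posk b k}, Mk J k a β γ * (v γ : EE L) := by
      intro v
      have h1 := kapE_cU J ht hk (seV_mem J k v) β
      have h2 : ∀ γ : {β // β ∈ Posk b k}, kapE J γ.1 (seV J k v) = v γ := fun γ => congrFun (kaV_seV J hk v) γ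
      simp only [h2] at h1
      exact h1
    rw [Pi.add_apply, Submodule.coe_add, h, h, h, ← Finset.sum_add_distrib]
    refine Finset.sum_congr rfl fun γ _ => ?_
    rw [Pi.add_apply, Submodule.coe_add, mul_add]
  map_smul' r v := by
    funext β
    apply Subtype.ext
    have h : ∀ v : {β // β ∈ Posk b k} → KR K L, ((kaV J k (cU t ht (seV J k v)) β : KR K L) : EE L) = ∑ γ : {β // β ∈ Posk b k}, Mk J k a β γ * (v γ : EE L) := by
      intro v
      have h1 := kapE_cU J ht hk (seV_mem J k v) β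
      have h2 : ∀ γ : {β // β ∈ Posk b k}, kapE J γ.1 (seV J k v) = v γ := fun γ => congrFun (kaV_seV J hk v) γ
      simp only [h2] at h1
      exact h1
    rw [RingHom.id_apply, Pi.smul_apply, Submodule.coe_smul, h, h, Finset.smul_sum]
    refine Finset.sum_congr rfl fun γ _ => ?_
    rw [Pi.smul_apply, Submodule.coe_smul, mul_smul_comm]

theorem tv_coe {k : ℕ} (hk : 1 ≤ k) (v : {β // β ∈ Posk b k} → KR K L) (β : {β // β ∈ Posk b k}) : ((TV J ht hk v β : KR K L) : EE L) = ∑ γ : {β // β ∈ Posk b k}, Mk J k a β γ * (v γ : EE L) := by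
  have h1 := kapE_cU J ht hk (seV_mem J k v) β
  have h2 : ∀ γ : {β // β ∈ Posk b k}, kapE J γ.1 (seV J k v) = v γ := fun γ => congrFun (kaV_seV J hk v) γ
  simp only [h2] at h1
  exact h1

theorem tv_kaV {k : ℕ} (hk : 1 ≤ k) {u : UHR (HQ Q)} (hu : u ∈ FH (HQ Q) k) : kaV J k (cU t ht u) = TV J ht hk (kaV J k u) := by
  funext β
  apply Subtype.ext
  rw [tv_coe]
  exact kapE_cU J ht hk hu β

theorem tv_det {k : ℕ} (hk : 1 ≤ k) : |LinearMap.det (TV J ht hk)| ^ Module.finrank K L = ∏ β ∈ Posk b k, mixedEmbedding.norm (a β : EE L) :=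
  pe5_det J hk (g := t.1) ht (tv_coe J ht hk)

end

end Pool.Agent.Lib.L8
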