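import Pool.Agent.Lib.L8.IGT
import Pool.Agent.Lib.L8.IG17
import Pool.Agent.Lib.L8.PE6

/-!
# L8, version 2, module F (helper67), FV2: the local group at one place inside the real group, and the points `x j(g)`
-/

namespace Pool.Agent.Lib.L8

open MeasureTheory Matrix NumberField IsDedekindDomain Pool.Agent.Lib.H89N Pool.Agent.Lib.H33W Pool.Agent.Lib.L1S Topology
open scoped ENNReal Pointwise

noncomputable section

set_option linter.unusedSectionVars false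

variable {ι M N : Type} [Fintype ι] [DecidableEq ι] [AddCommGroup M] [Module ℚ M] [AddCommGroup N] [Module ℚ N]
  {P : RootPairing ι ℚ M N} [P.IsCrystallographic] [P.IsReduced] [P.IsIrreducible] [P.IsRootSystem] {b : P.Base}
  {L : Type} [Field L] [NumberField L]

/-- **A split archimedean place of the real group**: `G(F)`, `F = ℝ` or `ℂ`, is a factor of the real group `HRt H` (embedding `j`, projection `p`), compatible with the unipotent groups and with the tori; the torus element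
`exp(y)` has the norms `exp(d β(e(y)))`, `d = [F : ℝ]` (`e = trQ Q` is the trace over the Galois group). -/
structure PlH (H : Subgroup (GK b L)) (F : Type) [RCLike F] (e : (b.support → ℝ) → b.support → ℝ) where
  /-- The embedding. -/
  j : GF b F →* HRt H
  /-- The projection. -/
  p : HRt H →* GF b F
  j_cont : Continuous j
  p_cont : Continuous p
  p_j : ∀ g, p (j g) = g
  comm : ∀ ω, p ω = 1 → ∀ g, ω * j g = j g * ω
  j_U : ∀ u ∈ gU b F, j u ∈ UHR H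
  /-- The entries of `exp(y)`. -/
  ja : (b.support → ℝ) → ι → (EE L)ˣ
  j_ex : ∀ y, (j (gex b F y)).1.1.1 = dgz b (ja y)
  ja_norm : ∀ y β, mixedEmbedding.norm (ja y β : EE L) = Real.exp (Module.finrank ℝ F * pry b (e y) (Sum.inr β))

variable {H : Subgroup (GK b L)} {F : Type} [RCLike F] {e : (b.support → ℝ) → b.support → ℝ} (V : PlH H F e)

theorem dgz_mul (a a' : ι → (EE L)ˣ) : dgz b a * dgz b a' = dgz b (a * a') := by
  unfold dgz
  rw [Matrix.diagonal_mul_diagonal]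
  congr 1
  funext r
  rcases r with i | β
  · exact mul_one _
  · rfl

/-- The torus element `t j(exp y)`. -/
theorem PlH.torus {t : HRt H} {a : ι → (EE L)ˣ} (ht : t.1.1.1 = dgz b a) (y : b.support → ℝ) : (t * V.j (gex b F y)).1.1.1 = dgz b (a * V.ja y) := by
  show t.1.1.1 * (V.j (gex b F y)).1.1.1 = _
  rw [ht, V.j_ex, dgz_mul]

/-- The compact set of the elements of the real group with the matrix in `Ω`. -/
theorem pl_compact (H : Subgroup (GK b L)) {Ω : Set (GL (I b) (EE L))} (hΩ : IsCompact Ω) : IsCompact {ω : HRt H | ω.1.1 ∈ Ω} := by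
  have h1 : Topology.IsClosedEmbedding fun ω : HRt H => ω.1.1 :=
    (Subgroup.isClosed_topologicalClosure (s := (GQ b L).map (embGL b L))).isClosedEmbedding_subtypeVal.comp
      (Subgroup.isClosed_topologicalClosure (s := H.map (emb b L))).isClosedEmbedding_subtypeVal
  exact h1.isCompact_preimage hΩ

/-- The compact set `{ω j(p(ω))⁻¹ j(k)}`. -/
def PlH.Om (V : PlH H F e) (Ω : Set (GL (I b) (EE L))) : Set (GL (I b) (EE L)) :=
  (fun q : HRt H × GF b F => (q.1 * V.j ((V.p q.1)⁻¹ * q.2)).1.1) '' ({ω : HRt H | ω.1.1 ∈ Ω} ×ˢ (gK b F : Set (GF b F)))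

theorem PlH.om_compact {Ω : Set (GL (I b) (EE L))} (hΩ : IsCompact Ω) : IsCompact (V.Om Ω) := by
  refine ((pl_compact H hΩ).prod gK_compact).image ?_
  refine continuous_subtype_val.comp (continuous_subtype_val.comp ?_)
  exact continuous_fst.mul (V.j_cont.comp ((V.p_cont.comp continuous_fst).inv.mul continuous_snd))

/-- `ω j(g) = j(u') j(exp(Y)) ω'`, `Y = Hp(p(ω) g)`. -/
theorem PlH.dec {Ω : Set (GL (I b) (EE L))} {ω : HRt H} (hω : ω.1.1 ∈ Ω) (g : GF b F) :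
    ∃ u ∈ gU b F, ∃ ω' : HRt H, ω'.1.1 ∈ V.Om Ω ∧ ω * V.j g = V.j u * V.j (gex b F (gH b F (V.p ω * g))) * ω' := by
  obtain ⟨u, hu, k, hk, he⟩ := g_dec (V.p ω * g)
  refine ⟨u, hu, ω * V.j ((V.p ω)⁻¹ * k), ⟨(ω, k), ⟨hω, hk⟩, rfl⟩, ?_⟩
  obtain ⟨ω₁, hω₁⟩ : ∃ ω₁, ω₁ = ω * (V.j (V.p ω))⁻¹ := ⟨_, rfl⟩
  have h1 : V.p ω₁ = 1 := by rw [hω₁, map_mul, map_inv, V.p_j, mul_inv_cancel]
  have h2 : ω = ω₁ * V.j (V.p ω) := by rw [hω₁, inv_mul_cancel_right]
  have h3 : ω * V.j g = ω₁ * V.j (V.p ω * g) := by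
    rw [map_mul, ← mul_assoc, ← h2]
  have h4 : ω * V.j ((V.p ω)⁻¹ * k) = ω₁ * V.j k := by
    rw [map_mul, map_inv, ← mul_assoc, ← hω₁]
  have h5 : ω₁ * V.j u * V.j (gex b F (gH b F (V.p ω * g))) = V.j u * V.j (gex b F (gH b F (V.p ω * g))) * ω₁ := by
    rw [V.comm ω₁ h1 u, mul_assoc, V.comm ω₁ h1, mul_assoc]
  rw [h3, h4, ← mul_assoc, ← h5]
  have h6 : V.j (V.p ω * g) = V.j u * V.j (gex b F (gH b F (V.p ω * g))) * V.j k := by
    rw [← map_mul, ← map_mul, ← he]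
  rw [h6]
  simp only [mul_assoc]

/-- **The points `x j(g)`**: for `x = u t ω` the point `x j(g)` is in `U (t j(exp(Y))) Ω'`, `Y = Hp(p(ω) g)`. -/
theorem PlH.pt {Ω : Set (GL (I b) (EE L))} {t : HRt H} {a : ι → (EE L)ˣ} (ht : t.1.1.1 = dgz b a) {x ω : HRt H} {u : UHR H} (hx : x = u.1 * t * ω) (hω : ω.1.1 ∈ Ω) (g : GF b F) :
    ∃ u' : UHR H, ∃ ω' ∈ V.Om Ω, (x * V.j g).1.1.1 = u'.1.1.1.1 * (t * V.j (gex b F (gH b F (V.p ω * g)))).1.1.1 * ω'.1 := by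
  obtain ⟨u₁, hu₁, ω', hω', he⟩ := V.dec hω g
  refine ⟨u * cU t ht ⟨V.j u₁, V.j_U u₁ hu₁⟩, ω'.1.1, hω', ?_⟩
  have h0 : (cU t ht ⟨V.j u₁, V.j_U u₁ hu₁⟩).1 = t * V.j u₁ * t⁻¹ := rfl
  have h1 : x * V.j g = (u * cU t ht ⟨V.j u₁, V.j_U u₁ hu₁⟩).1 * (t * V.j (gex b F (gH b F (V.p ω * g)))) * ω' := by
    show x * V.j g = u.1 * (cU t ht ⟨V.j u₁, V.j_U u₁ hu₁⟩).1 * (t * V.j (gex b F (gH b F (V.p ω * g)))) * ω'
    rw [h0, hx, mul_assoc (u.1 * t) ω, he]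
    simp only [mul_assoc, inv_mul_cancel_left]
  rw [h1]
  rfl

/-- `x = u t ω` in the real group. -/
theorem pl_x {Ω : Set (GL (I b) (EE L))} {t x : HRt H} (hx : ∃ u : UHR H, ∃ ω ∈ Ω, x.1.1.1 = u.1.1.1.1 * t.1.1.1 * ω.1) : ∃ u : UHR H, ∃ ω : HRt H, ω.1.1 ∈ Ω ∧ x = u.1 * t * ω := by
  obtain ⟨u, ω, hω, he⟩ := hx
  refine ⟨u, (u.1 * t)⁻¹ * x, ?_, by rw [mul_inv_cancel_left]⟩
  have h1 : ((u.1 * t)⁻¹ * x).1.1 = ω := by
    have h2 : x.1.1 = (u.1 * t).1.1 * ω := Units.ext he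
    show ((u.1 * t)⁻¹).1.1 * x.1.1 = ω
    rw [h2]
    show ((u.1 * t).1.1)⁻¹ * ((u.1 * t).1.1 * ω) = ω
    rw [inv_mul_cancel_left]
  rw [h1]
  exact hω

/-- The Iwasawa projections of `p(ω) k`, `ω ∈ Ω`, `k ∈ K` are bounded, and `Hp(p(ω) k y) = Hp(p(ω)) + Hp(k' k y)`. -/
theorem gH_split (g : GF b F) : ∃ k' ∈ gK b F, ∀ y : GF b F, gH b F (g * y) = gH b F g + gH b F (k' * y) := by
  obtain ⟨u, hu, k, hk, he⟩ := g_dec g
  refine ⟨k, hk, fun y => ?_⟩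
  have h1 : g * y = u * (gex b F (gH b F g) * (k * y)) := by
    conv_lhs => rw [he]
    simp only [mul_assoc]
  rw [h1, gH_U hu, gH_ex]

theorem PlH.bd {Ω : Set (GL (I b) (EE L))} (hΩ : IsCompact Ω) : ∃ c : ℝ, 0 ≤ c ∧ ∀ ω : HRt H, ω.1.1 ∈ Ω → ∀ j, |gH b F (V.p ω) j| ≤ c := by
  have h1 : Continuous fun ω : HRt H => gH b F (V.p ω) := gH_cont.comp V.p_cont
  obtain ⟨C, hC⟩ := (pl_compact H hΩ).exists_bound_of_continuousOn h1.continuousOn
  refine ⟨max C 0, le_max_right _ _, fun ω hω j => ?_⟩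
  exact (norm_le_pi_norm (gH b F (V.p ω)) j).trans ((hC ω hω).trans (le_max_left _ _))

end

end Pool.Agent.Lib.L8
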