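import Pool.Agent.Lib.L8.FV4
import Pool.Agent.Lib.L1S.QX3

/-!
# L8, version 2, module F (helper67), FV4B: diagram automorphisms and the trace of a vector
-/

namespace Pool.Agent.Lib.L8

open Matrix NumberField Pool.Agent.Lib.H89N Pool.Agent.Lib.L1S

noncomputable section

set_option linter.unusedSectionVars false

variable {ι M N : Type} [Fintype ι] [DecidableEq ι] [AddCommGroup M] [Module ℚ M] [AddCommGroup N] [Module ℚ N]
  {P : RootPairing ι ℚ M N} [P.IsCrystallographic] [P.IsReduced] [P.IsIrreducible] [P.IsRootSystem] {b : P.Base}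

theorem phi_sp {σ : Equiv.Perm ι} (hσ : DA b σ) (i : b.support) (β : ι) : σ β ∈ Phi b (hσ.sp i) ↔ β ∈ Phi b i := by
  unfold Phi
  rw [Finset.mem_filter, Finset.mem_filter, ← hσ.L_root, hσ.repr]
  exact ⟨fun h => ⟨Finset.mem_univ _, h.2⟩, fun h => ⟨Finset.mem_univ _, h.2⟩⟩

theorem pry_sp {σ : Equiv.Perm ι} (hσ : DA b σ) (y : b.support → ℝ) (β : ι) : pry b y (Sum.inr (σ β)) = pry b (fun j => y (hσ.sp j)) (Sum.inr β) := by
  unfold pry
  refine (Fintype.sum_equiv hσ.sp _ _ fun j => ?_).symm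
  have h : pj b (hσ.sp j) (Sum.inr (σ β)) = pj b j (Sum.inr β) := hσ.pair β j
  rw [h]

theorem cw_sp {σ : Equiv.Perm ι} (hσ : DA b σ) (i : b.support) : cw b (hσ.sp i) = cw b i := by
  have h1 := sum_phi (b := b) (hσ.sp i) (fun _ => (1 : ℝ))
  have h2 := sum_phi (b := b) i (fun _ => (1 : ℝ))
  have h3 : ∑ β ∈ Phi b (hσ.sp i), pry b (fun _ => (1 : ℝ)) (Sum.inr β) = ∑ β ∈ Phi b i, pry b (fun _ => (1 : ℝ)) (Sum.inr β) := by
    symm
    refine Finset.sum_bij (fun β _ => σ β) (fun β hβ => (phi_sp hσ i β).2 hβ) (fun β _ β' _ e => σ.injective e) (fun γ hγ => ?_) (fun β _ => (pry_sp hσ (fun _ => (1 : ℝ)) β).symm)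
    obtain ⟨β, rfl⟩ := σ.surjective γ
    exact ⟨β, (phi_sp hσ i β).1 hγ, rfl⟩
  rw [h1, h2, mul_one, mul_one] at h3
  exact_mod_cast h3

theorem wL_mem (l : List b.support) : wL b l ∈ Subgroup.closure (Set.range P.reflectionPerm) := by
  unfold wL
  refine Subgroup.list_prod_mem _ fun x hx => ?_
  obtain ⟨i, _, rfl⟩ := List.mem_map.1 hx
  exact Subgroup.subset_closure ⟨_, rfl⟩

theorem opp_sp {σ : Equiv.Perm ι} (hσ : DA b σ) {i j : b.support} (h : Opp b i j) : Opp b (hσ.sp i) (hσ.sp j) := by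
  obtain ⟨l, hl⟩ := opp_word h
  refine ⟨wL b (l.map hσ.sp), wL_mem _, fun γ => ?_⟩
  obtain ⟨β, rfl⟩ := σ.surjective γ
  have h1 : P.reflectionPerm (wL b (l.map hσ.sp) (σ β)) (wL b (l.map hσ.sp) (σ β)) = σ (ng P (wL b l β)) := by
    rw [hσ.ng, ← hσ.wL_map]
  rw [h1, phi_sp, phi_sp]
  exact hl β

variable {K L : Type} [Field K] [NumberField K] [Field L] [NumberField L] [Algebra K L]

/-- **The trace of a vector** over the Galois group: `(tr y)_i = ∑_s y_(s i)`. -/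
def trQ (Q : QS b K L) (y : b.support → ℝ) (i : b.support) : ℝ := ∑ s : L ≃ₐ[K] L, y ((Q.da s).sp i)

theorem trQ_sum (Q : QS b K L) (y : b.support → ℝ) : ∑ i, trQ Q y i = (Fintype.card (L ≃ₐ[K] L) : ℝ) * ∑ i, y i := by
  unfold trQ
  rw [Finset.sum_comm]
  have h : ∀ s : L ≃ₐ[K] L, ∑ i, y ((Q.da s).sp i) = ∑ i, y i := fun s => Equiv.sum_comp (Q.da s).sp y
  rw [Finset.sum_congr rfl fun s _ => h s, Finset.sum_const, nsmul_eq_mul]
  rfl

/-- `(tr y)(β) = ∑_s (s β)(y)`. -/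
theorem trQ_pry (Q : QS b K L) (y : b.support → ℝ) (β : ι) : pry b (trQ Q y) (Sum.inr β) = ∑ s : L ≃ₐ[K] L, pry b y (Sum.inr (Q.act s β)) := by
  rw [Finset.sum_congr rfl fun s _ => pry_sp (Q.da s) y β]
  unfold pry trQ
  rw [Finset.sum_comm]
  exact Finset.sum_congr rfl fun j _ => Finset.mul_sum _ _ _

/-- `c_i (tr y)_i + c_j (tr y)_j ≥ - R (c_i (tr Λ)_i + c_j (tr Λ)_j)`, if `w Φ_i = -Φ_j` and `y ≥ R w₀ Λ`. -/
theorem trQ_opp (Q : QS b K L) {i j : b.support} (hO : Opp b i j) {Λ y : b.support → ℝ} (hΛ : ∀ i, 0 ≤ al (cA b) i Λ) {R : ℝ} (hR : 0 ≤ R) (l : List b.support) (hy : ∀ i, R * wl (cA b) l Λ i ≤ y i) :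
    -(R * (((cw b i : ℤ) : ℝ) * trQ Q Λ i + ((cw b j : ℤ) : ℝ) * trQ Q Λ j)) ≤ ((cw b i : ℤ) : ℝ) * trQ Q y i + ((cw b j : ℤ) : ℝ) * trQ Q y j := by
  unfold trQ
  rw [Finset.mul_sum, Finset.mul_sum, Finset.mul_sum, Finset.mul_sum, ← Finset.sum_add_distrib, ← Finset.sum_add_distrib, Finset.mul_sum, ← Finset.sum_neg_distrib]
  refine Finset.sum_le_sum fun s _ => ?_
  have hO' := opp_sp (Q.da s) hO
  have e1 := opp_w0 hO' hΛ l
  have e2 := opp_w0 (opp_symm hO') hΛ l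
  rw [cw_sp, cw_sp] at e1 e2
  have e3 : (0 : ℝ) ≤ ((cw b i : ℤ) : ℝ) := by exact_mod_cast (cw_pos i).le
  have e4 : (0 : ℝ) ≤ ((cw b j : ℤ) : ℝ) := by exact_mod_cast (cw_pos j).le
  have e5 := mul_le_mul_of_nonneg_left (hy ((Q.da s).sp i)) e3
  have e6 := mul_le_mul_of_nonneg_left (hy ((Q.da s).sp j)) e4
  have e7 := mul_le_mul_of_nonneg_left e1 hR
  have e8 := mul_le_mul_of_nonneg_left e2 hR
  linarith

end

end Pool.Agent.Lib.L8
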