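import Pool.Agent.Lib.L8.StmM
import Pool.Agent.Lib.L8.FV2
import Pool.Agent.Lib.L8.FV4B

/-!
# V: the hybrid density theorem with explicit exponents at the archimedean places (helper67): the statement in terms of the definitions of M

Notation of `Pool.Agent.Lib.L1S.QStm` and of `StmM`: `G = HRt (HQ Q)` is the real group of the quasi-split group of type `(P, Q)` over `K`. A split archimedean place of `G` is a structure `PlH (HQ Q) F (trQ Q)` (`FV2`, `FV4B`): `F = ℝ` or `ℂ`,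
`j : G(F) → G`, `p : G → G(F)` with `p j = 1`. `G(F) = GF b F` (the closure in `GL(F)` of the group generated by the root elements), with the subgroups `U = gU b F` (unipotent upper triangular), `K = gK b F` (the fixed points of
the Cartan involution), and `exp(y) = gex b F y`, the diagonal element with the entries `exp(β(y))`; vectors `y` of the real vector space `𝔞` are written in coroot coordinates `y = ∑ y_j α_j^∨`.
-/

namespace Pool.Agent.Lib.L8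

open MeasureTheory Matrix NumberField NumberField.InfinitePlace IsDedekindDomain Pool.Agent.Lib.H89N Pool.Agent.Lib.H33W Pool.Agent.Lib.L1S
open scoped ENNReal

noncomputable section

set_option linter.unusedSectionVars false

variable {ι M N : Type} [Fintype ι] [DecidableEq ι] [AddCommGroup M] [Module ℚ M] [AddCommGroup N] [Module ℚ N]
  {P : RootPairing ι ℚ M N} [P.IsCrystallographic] {b : P.Base}

instance gfMeas (b : P.Base) (F : Type) [RCLike F] : MeasurableSpace (GF b F) := borel _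

instance gfBorel (b : P.Base) (F : Type) [RCLike F] : BorelSpace (GF b F) := ⟨rfl⟩

variable [P.IsReduced] [P.IsIrreducible] [P.IsRootSystem]

/-- `κ` is the normalised Haar measure of `K ⊆ G(F)`. -/
def IsHK (b : P.Base) (F : Type) [RCLike F] (κ : Measure (GF b F)) : Prop :=
  IsProbabilityMeasure κ ∧ κ ((gK b F : Set (GF b F))ᶜ) = 0 ∧ ∀ k ∈ gK b F, κ.map (fun x => x * k) = κ

/-- `Hp` is the Iwasawa projection: `g ∈ U exp(Hp(g)) K`. -/
def IsIw (b : P.Base) (F : Type) [RCLike F] (Hp : GF b F → b.support → ℝ) : Prop := ∀ g, ∃ u ∈ gU b F, ∃ k ∈ gK b F, g = u * gex b F (Hp g) * k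

/-- **The spherical function** `Φ_z(g) = ∫_K exp((z + ρ_F)(Hp(k g))) dk`, `ρ_F(y) = d ∑ y_j`, `d = [F : ℝ]`, `2 ρ_F` the modulus character; `z = 0` is tempered, `z = ρ_F` the trivial representation. -/
def Sph (b : P.Base) (F : Type) [RCLike F] (κ : Measure (GF b F)) (Hp : GF b F → b.support → ℝ) (z : b.support → ℂ) (g : GF b F) : ℂ :=
  ∫ k, Complex.exp (∑ j, (z j + Module.finrank ℝ F) * (Hp (k * g) j : ℂ)) ∂κ

/-- **Spherical eigenfunctions** with the parameter `z` at the place `V`: `∫_K f(x k g) dk = Φ_z(g) f(x)` for all `x ∈ G`, `g ∈ G(F)`. -/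
def SphV {L : Type} [Field L] [NumberField L] {H : Subgroup (GK b L)} {F : Type} [RCLike F] {e : (b.support → ℝ) → b.support → ℝ} (V : PlH H F e) (z : b.support → ℂ) (f : HRt H → ℂ) : Prop :=
  ∃ κ Hp, IsHK b F κ ∧ IsIw b F Hp ∧ ∀ x g, ∫ k, f (x * V.j (k * g)) ∂κ = Sph b F κ Hp z g * f x

/-- `S_i(Λ) = ∑_{β ∈ Φ_i} β(Λ)`. -/
def SR (b : P.Base) (i : b.support) (Λ : b.support → ℝ) : ℝ := ∑ β ∈ Phi b i, pry b Λ (Sum.inr β)

variable {K L : Type} [Field K] [NumberField K] [Field L] [NumberField L] [Algebra K L]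

/-- **The statement**: the hybrid density theorem with explicit exponents at the archimedean places `V_1, …, V_p` over which the group is split.
Let `Λ_k` be dominant, `ε > 0` and `T`. For compact sets `Ω`, `K₀` there is `C` such that for all the data of `StatementM`, `R_k ≥ 0`, the size condition `Sz4` with `E_ij` replaced by
`E_ij exp(- ∑_k d_k R_k (S_i(tr Λ_k) + S_j(tr Λ_k)))` (`tr` the trace over the Galois group, `d_k = [F_k : ℝ]`), and `F_l` as in `StatementM` which are spherical at `V_k` with the parameter `z_{k,l}`, `|z_{k,l}| ≤ T`: for all elements `w_{k,l}` of the Weyl group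
`∑_l exp(2 ∑_k R_k (Re z_{k,l}(w_{k,l} Λ_k) - ε)) |c_l κ_l ^ m t_l W_l(x)|² ≤ C Λ ^ (2 m) q ^ (∑_{β > 0} ⟨β, λ⟩) ‖φ‖₂² δ(t) N ^ (-#Φ⁺)`. -/
def StatementV (Q : QS b K L) : Prop :=
  ∀ (p : ℕ) (Fv : Fin p → Type) [∀ k, RCLike (Fv k)] (V : ∀ k, PlH (HQ Q) (Fv k) (trQ Q)) (Λ : Fin p → b.support → ℝ), (∀ k i, 0 ≤ al (fun i j => b.cartanMatrix i j) i (Λ k)) →
    ∀ ε : ℝ, 0 < ε → ∀ (T : ℝ) (Ω : Set (GL (I b) (EE L))) (K₀ : Set (HRt (HQ Q))), IsCompact Ω → IsCompact K₀ → ∃ C : ℝ,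
    ∀ (v : HeightOneSpectrum (𝓞 K)) (𝔫 : Ideal (𝓞 K)), 𝔫 ≠ ⊥ → ¬𝔫 ≤ v.asIdeal → ∀ (r s : ℕ) (c : b.support → ℤ), InvC Q c → (∀ i : b.support, 0 ≤ pr b c (Sum.inr i)) → (1 ≤ r + s ∨ c = 0) →
    ∀ π : K, v.valuation K π = WithZero.exp (-1 : ℤ) → ∀ h : HQ Q, h.1 ∈ HGL b L 𝔫 v → AtVL b v r s π c h.1 →
    ∀ θ : b.support → (EE L →ₗ[ℝ] ℝ), GenQ Q 𝔫 v r s θ →
    ∀ (t : HRt (HQ Q)) (a : ι → (EE L)ˣ), t.1.1.1 = dgz b a → ∀ x : HRt (HQ Q), (∃ u : UHR (HQ Q), ∃ ω ∈ Ω, x.1.1.1 = u.1.1.1.1 * t.1.1.1 * ω.1) →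
    ∀ (μ τ : Measure (HRt (HQ Q))) [μ.IsHaarMeasure] (w : HRt (HQ Q) → ℂ) (Lm : ℝ) (B : b.support → InfinitePlace L → ℝ), (∀ i w, 0 ≤ B i w) → MeaM Q μ τ w Lm B →
    ∀ R : Fin p → ℝ, (∀ k, 0 ≤ R k) →
    ∀ m : ℕ, Sz4 b L 𝔫 v r s c c (fun i => ∏ w, B i w ^ (2 * m * mult w))
      (fun i j => Ea b a i j * Real.exp (-∑ k, Module.finrank ℝ (Fv k) * R k * (SR b i (trQ Q (Λ k)) + SR b j (trQ Q (Λ k))))) →
    ∀ φ : HRt (HQ Q) → ℂ, Continuous φ → tsupport φ ⊆ K₀ →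
    ∀ (ν : Measure (UHR (HQ Q))) [ν.IsHaarMeasure] (D : Set (HRt (HQ Q))), IsFundamentalDomain (GamHR (HQ Q) 𝔫 v r s) D μ →
    ∀ (n : ℕ) (F : Fin n → HRt (HQ Q) → ℂ) (c' κ t' : Fin n → ℂ), (∀ l, AutM Q 𝔫 v r s μ D φ τ w h (F l) (c' l) (κ l) (t' l)) → (∀ l k, ∫ x in D, star (F l x) * F k x ∂μ = if l = k then 1 else 0) →
    ∀ z : Fin p → Fin n → b.support → ℂ, (∀ k l j, ‖z k l j‖ ≤ T) → (∀ k l, SphV (V k) (z k l) (F l)) →
    ∀ D' : Set (UHR (HQ Q)), IsFundamentalDomain (GamUH (HQ Q) 𝔫 v r s) D' ν →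
    ∀ g : Fin p → Fin n → List b.support,
      ∑ l, Real.exp (2 * ∑ k, R k * (∑ j, (z k l j).re * wl (fun i j => b.cartanMatrix i j) (g k l) (Λ k) j - ε)) * ‖c' l * κ l ^ m * t' l * WhH (HQ Q) ν D' θ (F l) x‖ ^ 2 ≤
        C * Lm ^ (2 * m) * (Ideal.absNorm v.asIdeal : ℝ) ^ (∑ β ∈ Pos b, pr b c (Sum.inr β)) * (∫ y, ‖φ y‖ ^ 2 ∂μ) *
          ((∏ β ∈ Pos b, mixedEmbedding.norm (a β : EE L)) ^ ((Module.finrank K L : ℝ)⁻¹) / (Ideal.absNorm 𝔫 : ℝ) ^ (Pos b).card)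

end

end Pool.Agent.Lib.L8
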