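import Pool.Agent.Lib.L8.PA4
import Pool.Agent.Lib.L1S.TH3
import Pool.Agent.Lib.L1S.Q0

/-!
# L8, file PA5 (helper43): the Folner property of the groups `h⁻¹ Γ h ∩ U`
-/

namespace Pool.Agent.Lib.L8

open NumberField Matrix IsDedekindDomain Pool.Agent.Lib.L1S Pool.Agent.Lib.H89N

noncomputable section

variable {ι M N : Type} [Fintype ι] [DecidableEq ι] [AddCommGroup M] [Module ℚ M] [AddCommGroup N] [Module ℚ N]
  {P : RootPairing ι ℚ M N} [P.IsCrystallographic] {b : P.Base}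
  {K L : Type} [Field K] [NumberField K] [Field L] [NumberField L] [Algebra K L] (H : Subgroup (GK b L))

/-- The matrices with a common denominator. -/
theorem pa5_den (X : Matrix (I b) (I b) L) : ∃ κ : 𝓞 L, κ ≠ 0 ∧ ∀ r c, ∃ y : 𝓞 L, (y : L) = κ * X r c := by
  classical
  have h1 : ∀ p : I b × I b, ∃ d : 𝓞 L, d ≠ 0 ∧ ∃ y : 𝓞 L, (y : L) = d * X p.1 p.2 := by
    intro p
    obtain ⟨d, hd⟩ := IsLocalization.exists_integer_multiple (nonZeroDivisors (𝓞 L)) (X p.1 p.2)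
    obtain ⟨y, hy⟩ := hd
    refine ⟨d, nonZeroDivisors.coe_ne_zero d, y, hy.trans ?_⟩
    exact Algebra.smul_def _ _
  choose d hd y hy using h1
  refine ⟨∏ p, d p, Finset.prod_ne_zero_iff.2 fun p _ => hd p, fun r c => ⟨(∏ p ∈ Finset.univ.erase (r, c), d p) * y (r, c), ?_⟩⟩
  have h2 : algebraMap (𝓞 L) L (y (r, c)) = algebraMap (𝓞 L) L (d (r, c)) * X r c := hy (r, c)
  show algebraMap (𝓞 L) L ((∏ p ∈ Finset.univ.erase (r, c), d p) * y (r, c)) = algebraMap (𝓞 L) L (∏ p, d p) * X r c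
  rw [map_mul, h2, ← mul_assoc, ← map_mul, mul_comm _ (d (r, c)), Finset.mul_prod_erase _ _ (Finset.mem_univ _)]

/-- **The groups `h⁻¹ Γ h ∩ U` have the Folner property.** -/
theorem fol_gu (𝔫 : Ideal (𝓞 K)) (v : HeightOneSpectrum (𝓞 K)) (r s : ℕ) (g : H) : Fol ↥((cjG (GamQ H 𝔫 v r s) g).subgroupOf (HUH H)) := by
  obtain ⟨κ, hκ, h1⟩ := pa5_den (b := b) (L := L) (g⁻¹ : H).1.1.1
  obtain ⟨κ', hκ', h2⟩ := pa5_den (b := b) (L := L) g.1.1.1
  apply fol_of_pgr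
  refine pa4_pgr (L := L) (J := I b) ?_ ?_ (ht b) ?_ (κ * κ') (mul_ne_zero hκ hκ') ?_
  · exact (Units.coeHom _).comp ((Subgroup.subtype _).comp ((Subgroup.subtype H).comp ((Subgroup.subtype (HUH H)).comp (Subgroup.subtype _))))
  · intro x y h
    apply Subtype.ext
    apply Subtype.ext
    apply Subtype.ext
    apply Subtype.ext
    exact Units.ext h
  · intro γ i j hij
    have h3 : mixedEmbedding L (γ.1.1.1.1.1 i j) = (1 : Matrix (I b) (I b) (EE L)) i j := (γ.1.2 i j hij).1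
    apply mixedEmbedding_injective L
    refine h3.trans ?_
    rw [Matrix.one_apply, Matrix.one_apply]
    split_ifs <;> simp
  · intro γ i j
    have h3 : ∀ i j, InI (up L 𝔫) (((g * γ.1.1 * g⁻¹ : H).1.1.1 - 1) i j) := fun i j => (γ.2 i j).1.1
    have h4 : ∀ i j, ∃ z : 𝓞 L, (z : L) = (g * γ.1.1 * g⁻¹ : H).1.1.1 i j := by
      intro i j
      obtain ⟨y, _, hy⟩ := h3 i j
      by_cases e : i = j
      · refine ⟨y + 1, ?_⟩
        have h5 : (y : L) = (g * γ.1.1 * g⁻¹ : H).1.1.1 i j - 1 := by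
          rw [hy, Matrix.sub_apply, e, Matrix.one_apply_eq]
        show algebraMap (𝓞 L) L (y + 1) = _
        rw [map_add, map_one]
        have h6 : algebraMap (𝓞 L) L y = (g * γ.1.1 * g⁻¹ : H).1.1.1 i j - 1 := h5
        rw [h6]
        ring
      · refine ⟨y, ?_⟩
        rw [hy, Matrix.sub_apply, Matrix.one_apply_ne e, sub_zero]
    choose z hz using h4
    choose x hx using h1
    choose x' hx' using h2
    have h5 : γ.1.1.1.1.1 = (g⁻¹ : H).1.1.1 * (g * γ.1.1 * g⁻¹ : H).1.1.1 * g.1.1.1 := by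
      have h6 : (γ.1.1 : H) = g⁻¹ * (g * γ.1.1 * g⁻¹) * g := by group
      have h7 : (γ.1.1 : H).1.1.1 = (g⁻¹ * (g * γ.1.1 * g⁻¹) * g : H).1.1.1 := by rw [← h6]
      exact h7
    refine ⟨∑ k, (∑ l, x i l * z l k) * x' k j, ?_⟩
    show algebraMap (𝓞 L) L (∑ k, (∑ l, x i l * z l k) * x' k j) = algebraMap (𝓞 L) L (κ * κ') * γ.1.1.1.1.1 i j
    rw [h5, Matrix.mul_apply, map_sum, Finset.mul_sum]
    refine Finset.sum_congr rfl fun k _ => ?_
    rw [map_mul, map_sum, Matrix.mul_apply, map_mul, Finset.sum_mul, Finset.sum_mul, Finset.mul_sum]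
    refine Finset.sum_congr rfl fun l _ => ?_
    have h8 : algebraMap (𝓞 L) L (x i l) = algebraMap (𝓞 L) L κ * (g⁻¹ : H).1.1.1 i l := hx i l
    have h9 : algebraMap (𝓞 L) L (x' k j) = algebraMap (𝓞 L) L κ' * g.1.1.1 k j := hx' k j
    have h10 : algebraMap (𝓞 L) L (z l k) = (g * γ.1.1 * g⁻¹ : H).1.1.1 l k := hz l k
    rw [map_mul, h8, h9, h10]
    ring

end

end Pool.Agent.Lib.L8
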