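import Pool.Agent.Lib.L8.PD4
import Pool.Agent.Lib.L1S.TX5

/-!
# L8, file QA1 (helper43): the volume of `U ∩ x C C⁻¹ x⁻¹` and of `U ∩ a Ω a⁻¹`
-/

namespace Pool.Agent.Lib.L8

open MeasureTheory Matrix NumberField NumberField.InfinitePlace IsDedekindDomain Pool.Agent.Lib.H89N Pool.Agent.Lib.H33W Pool.Agent.Lib.H67G Pool.Agent.Lib.L1S
open scoped ENNReal

noncomputable section

set_option linter.unusedSectionVars false

variable {ι M N : Type} [Fintype ι] [DecidableEq ι] [AddCommGroup M] [Module ℚ M] [AddCommGroup N] [Module ℚ N]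
  {P : RootPairing ι ℚ M N} [P.IsCrystallographic] [P.IsReduced] [P.IsIrreducible] [P.IsRootSystem] {b : P.Base} {L : Type} [Field L] [NumberField L] (H : Subgroup (GK b L))

/-- **The volume** at a point `x ∈ U a Ω`. -/
theorem qa8_P {ν : Measure (UHR H)} [ν.IsHaarMeasure] (hr : ∀ s : UHR H, MeasurePreserving (fun t : UHR H => t * s) ν ν) {C : Set (HRt H)}
    {Ω : Set (GL (I b) (EE L))} {a : ι → (EE L)ˣ} {x : HRt H} (hx : InRz H Ω a x) :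
    ν {t : UHR H | ∃ y ∈ C, ∃ y' ∈ C, (t : HRt H) = x * y * (x * y')⁻¹} ≤ ν {u : UHR H | ∃ κ ∈ Om2 b Ω (CG H C), u.1.1.1.1 = dgz b a * κ.1 * dgz b a⁻¹} := by
  obtain ⟨u, ω, hω, hxu'⟩ := hx
  have hxu : x.1.1 = u.1.1.1 * dgU b a * ω := Units.ext hxu'
  have hmp : MeasurePreserving (fun s : UHR H => u⁻¹ * (s * u)) ν ν := (measurePreserving_mul_left ν u⁻¹).comp (hr u)
  have hsub : {t : UHR H | ∃ y ∈ C, ∃ y' ∈ C, (t : HRt H) = x * y * (x * y')⁻¹} ⊆ (fun s : UHR H => u⁻¹ * (s * u)) ⁻¹'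
      {u : UHR H | ∃ κ ∈ Om2 b Ω (CG H C), u.1.1.1.1 = dgz b a * κ.1 * dgz b a⁻¹} := by
    rintro s ⟨y, hy, y', hy', h1⟩
    refine ⟨ω * y.1.1 * (ω * y'.1.1)⁻¹, ⟨ω, hω, y.1, ⟨y, hy, rfl⟩, ω, hω, y'.1, ⟨y', hy', rfl⟩, rfl⟩, ?_⟩
    have e1 : s.1.1.1 = x.1.1 * y.1.1 * (x.1.1 * y'.1.1)⁻¹ := congrArg (fun w : HRt H => w.1.1) h1
    have e3 : u.1.1.1⁻¹ * (s.1.1.1 * u.1.1.1) = dgU b a * (ω * y.1.1 * (ω * y'.1.1)⁻¹) * (dgU b a)⁻¹ := by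
      rw [e1, hxu]
      group
    exact congrArg Units.val e3
  calc ν {t : UHR H | ∃ y ∈ C, ∃ y' ∈ C, (t : HRt H) = x * y * (x * y')⁻¹} ≤ ν ((fun s : UHR H => u⁻¹ * (s * u)) ⁻¹'
      {u : UHR H | ∃ κ ∈ Om2 b Ω (CG H C), u.1.1.1.1 = dgz b a * κ.1 * dgz b a⁻¹}) := measure_mono hsub
    _ ≤ (ν.map (fun s : UHR H => u⁻¹ * (s * u))) {u : UHR H | ∃ κ ∈ Om2 b Ω (CG H C), u.1.1.1.1 = dgz b a * κ.1 * dgz b a⁻¹} :=
        Measure.le_map_apply hmp.measurable.aemeasurable _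
    _ = _ := by rw [hmp.map_eq]

end

end Pool.Agent.Lib.L8
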