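import Pool.Agent.Lib.L8.Stm
import Pool.Agent.Lib.L8.QA1
import Pool.Agent.Lib.L8.PA5
import Pool.Agent.Lib.L8.PCT
import Pool.Agent.Lib.L1S.QMain

/-!
# L8, assembly (helper43)
-/

namespace Pool.Agent.Lib.L8

open MeasureTheory Matrix NumberField NumberField.InfinitePlace IsDedekindDomain Pool.Agent.Lib.H89N Pool.Agent.Lib.H33W Pool.Agent.Lib.H67G Pool.Agent.Lib.L1S
open scoped ENNReal Pointwise

noncomputable section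

set_option linter.unusedSectionVars false

variable {ι M N : Type} [Fintype ι] [DecidableEq ι] [AddCommGroup M] [Module ℚ M] [AddCommGroup N] [Module ℚ N]
  {P : RootPairing ι ℚ M N} [P.IsCrystallographic] {b : P.Base}

variable [P.IsRootSystem] [P.IsReduced] [P.IsIrreducible] {K L : Type} [Field K] [NumberField K] [Field L] [NumberField L] [Algebra K L]

/-- The trivial Hecke element. -/
theorem qm8_LvL {𝔫 : Ideal (𝓞 K)} (h0 : 𝔫 ≠ ⊥) {v : HeightOneSpectrum (𝓞 K)} (hv : ¬𝔫 ≤ v.asIdeal) (r s : ℕ) {π : K} (hπ : v.valuation K π = WithZero.exp (-1 : ℤ)) :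
    LvL b 𝔫 v r s (0 : b.support → ℤ) π (1 : GK b L) := by
  have e0 : ∀ i : I b, pr b (0 : b.support → ℤ) i = 0 := fun i => by rcases i with i | i <;> simp [pr]
  have e1 : ((1 : GK b L)⁻¹).1.1 = (1 : Matrix (I b) (I b) L) := by rw [inv_one]; rfl
  have e2 : (1 : GK b L).1.1 = (1 : Matrix (I b) (I b) L) := rfl
  have hi0 : IntV v (0 : L) := ⟨1, fun h => v.isPrime.ne_top ((Ideal.eq_top_iff_one _).2 h), by rw [mul_zero]; exact InI.zero _⟩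
  have hi1 : IntV v (1 : L) := ⟨1, fun h => v.isPrime.ne_top ((Ideal.eq_top_iff_one _).2 h), ⟨1, Submodule.mem_top, by simp⟩⟩
  have hI : IwV b v r s π (1 : Matrix (I b) (I b) L) := by
    intro i j
    refine ⟨?_, fun h => ?_, fun _ => ?_⟩
    · rw [Matrix.one_apply]
      split_ifs
      · exact hi1
      · exact hi0
    · have hij : i ≠ j := by
        rintro rfl
        exact absurd h (lt_irrefl _)
      rw [Matrix.one_apply_ne hij, mul_zero]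
      exact hi0
    · rw [sub_self, Matrix.zero_apply, mul_zero]
      exact hi0
  refine ⟨h0, hv, fun i => by rw [e0], hπ, ⟨0, fun i j => ?_⟩, ?_, ?_⟩
  · rw [e1, e2, sub_self, Matrix.zero_apply]
    have h1 : DenL 𝔫 v 0 (0 : L) := fun a _ => by
      rw [mul_zero]
      exact InI.zero _
    exact ⟨h1, h1⟩
  · have e3 : (1 : GK b L).1.1 * Matrix.diagonal (fun i => algebraMap K L π ^ pr b (0 : b.support → ℤ) i) = 1 := by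
      simp only [e2, e0, zpow_zero, Matrix.diagonal_one, mul_one]
    rw [e3]
    exact hI
  · have e3 : Matrix.diagonal (fun i => algebraMap K L π ^ (-pr b (0 : b.support → ℤ) i)) * ((1 : GK b L)⁻¹).1.1 = 1 := by
      simp only [e1, e0, neg_zero, zpow_zero, Matrix.diagonal_one, mul_one]
    rw [e3]
    exact hI

/-- **The core**: the inequality at a point of `U a Ω`, the volume is a hypothesis. -/
theorem qm8_core (Q : QS b K L) [IsGalois K L] {μ : Measure (HRt (HQ Q))} [μ.IsHaarMeasure] {φ : HRt (HQ Q) → ℂ} (cφ : Continuous φ) (sφ : HasCompactSupport φ) {Ω : Set (GL (I b) (EE L))} (hΩ : IsCompact Ω) :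
    ∃ c₁ : ℝ, 0 ≤ c₁ ∧ ∀ (v : HeightOneSpectrum (𝓞 K)) (𝔫 : Ideal (𝓞 K)), 𝔫 ≠ ⊥ → ¬𝔫 ≤ v.asIdeal → ∀ r s : ℕ,
    ∀ θ : b.support → (EE L →ₗ[ℝ] ℝ), GenQ Q 𝔫 v r s θ →
    ∀ a : ι → (EE L)ˣ, (∀ β, a (P.reflectionPerm β β) = (a β)⁻¹) → ∀ x : HRt (HQ Q), InRz (HQ Q) Ω a x →
    ∀ (τ : Measure (HRt (HQ Q))) (w : HRt (HQ Q) → ℂ) (Kt : Set (HRt (HQ Q))) (Λ : ℝ), CvD μ τ w Kt Λ →
    ∀ B : b.support → InfinitePlace L → ℝ, (∀ i w, 0 ≤ B i w) → KB (HQ Q) B Kt →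
    ∀ m : ℕ, Sz4 b L 𝔫 v r s 0 0 (Rf b fun i w => B i w ^ (2 * m)) (Ea b a) →
    ∀ (ν : Measure (UHR (HQ Q))) [ν.IsHaarMeasure] (X : ℝ), 0 ≤ X → (∀ D₁ : Set (UHR (HQ Q)), SF ((GamQ (HQ Q) 𝔫 v r s).subgroupOf (HUH (HQ Q))) D₁ →
      ν {u : UHR (HQ Q) | ∃ κ ∈ Om2 b Ω (CG (HQ Q) (tsupport φ)), u.1.1.1.1 = dgz b a * κ.1 * dgz b a⁻¹} ≤ ENNReal.ofReal X * ν D₁) →
    ∀ D : Set (HRt (HQ Q)), IsFundamentalDomain (GamHR (HQ Q) 𝔫 v r s) D μ →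
    ∀ (n : ℕ) (F : Fin n → HRt (HQ Q) → ℂ), (∀ l, AutH (HQ Q) 𝔫 v r s μ D φ (F l)) → (∀ l k, ∫ x in D, star (F l x) * F k x ∂μ = if l = k then 1 else 0) →
    ∀ κ : Fin n → ℂ, (∀ l x, Cv τ w (F l) x = κ l * F l x) →
    ∀ D' : Set (UHR (HQ Q)), IsFundamentalDomain (GamUH (HQ Q) 𝔫 v r s) D' ν →
      ∑ l, ‖κ l‖ ^ (2 * m) * ‖WhH (HQ Q) ν D' θ (F l) x‖ ^ 2 ≤ c₁ * X * Λ ^ (2 * m) := by
  classical
  have ci : Countable (HQ Q) := th_count (HQ Q)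
  obtain ⟨m₀, hm₀⟩ := qb_star4 Q (om3_compact hΩ (cg_compact (HQ Q) sφ.isCompact))
  refine ⟨((6 ^ m₀ : ℕ) ^ Module.finrank ℚ L : ℝ) ^ (Fintype.card (I b) ^ 2) * (∫⁻ y, ‖φ y‖ₑ ^ 2 ∂μ).toReal, by positivity, ?_⟩
  intro v 𝔫 h0 hv r s θ hθ a ha x hx τ w Kt Λ hτ B hB hKB m hsz ν _ X hX hVol D hD n F hF hort κ hκ D' hD'
  obtain ⟨π, hπ⟩ : ∃ π : K, v.valuation K π = WithZero.exp (-1 : ℤ) := v.valuation_exists_uniformizer K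
  -- the auxiliary level
  obtain ⟨m₁, hm1, hm2, hm3, hm4⟩ := aux_level m₀ v
  have h1 : Ideal.span {(m₁ : 𝓞 K)} * 𝔫 ≠ ⊥ := by
    rw [Ne, Ideal.mul_eq_bot, not_or, Ideal.span_singleton_eq_bot]
    exact ⟨Nat.cast_ne_zero.2 hm2, h0⟩
  have h1v : ¬Ideal.span {(m₁ : 𝓞 K)} * 𝔫 ≤ v.asIdeal := (de_m h0 hv hm3).2
  -- fundamental domains
  have hdΓ : Dsc (HQ Q) (GamQ (HQ Q) 𝔫 v r s) := dsc_Gam (HQ Q) 𝔫 v r s
  obtain ⟨D₁, hD₁⟩ := hdΓ.sfU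
  have hcc0 : CCH (HQ Q) (GamQ (HQ Q) 𝔫 v r s) := by
    have h2 : CCH (HQ Q) (cjG (GamQ (HQ Q) 𝔫 v r s) 1) := qa_cc Q h0 v r s 1
    rw [cjG_one] at h2
    exact h2
  have hcc1 : ∀ g : HQ Q, CCH (HQ Q) (cjG (GamQ (HQ Q) (Ideal.span {(m₁ : 𝓞 K)} * 𝔫) v r s) g) := fun g => qa_cc Q h1 v r s g
  have hG := th2_gd (HQ Q) hcc0 hD₁ μ ν θ (psT_mul' (HQ Q) θ)
  have hone : ∀ w : HUH (HQ Q), (w : HQ Q) ∈ GamQ (HQ Q) 𝔫 v r s → psT (HQ Q) θ (kUH (HQ Q) w) = 1 := fun w hw =>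
    hθ.2 _ ((th2_mem_imU (HQ Q) (GamQ (HQ Q) 𝔫 v r s) _).2 ⟨w, hw, rfl⟩)
  -- the auxiliary group
  have hm5 : GamQ (HQ Q) (Ideal.span {(m₁ : 𝓞 K)} * 𝔫) v r s ≤ GamQ (HQ Q) 𝔫 v r s := by
    have hle : L1S.up L (Ideal.span {(m₁ : 𝓞 K)} * 𝔫) ≤ L1S.up L 𝔫 := L1S.up_mono L Ideal.mul_le_right
    have key : ∀ y : L, L1S.InI (L1S.up L (Ideal.span {(m₁ : 𝓞 K)} * 𝔫)) y → L1S.InI (L1S.up L 𝔫) y := fun y ⟨z, hz, e⟩ => ⟨z, hle hz, e⟩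
    intro γ hγ
    have h2 : γ.1 ∈ GamL b L (Ideal.span {(m₁ : 𝓞 K)} * 𝔫) v r s := hγ
    show γ.1 ∈ GamL b L 𝔫 v r s
    intro i j
    obtain ⟨⟨a1, a2⟩, a3, a4⟩ := h2 i j
    exact ⟨⟨key _ a1, a2⟩, key _ a3, a4⟩
  have hcomm : ∀ h h' : HQ Q, (cjG (GamQ (HQ Q) (Ideal.span {(m₁ : 𝓞 K)} * 𝔫) v r s) h).relIndex (cjG (GamQ (HQ Q) (Ideal.span {(m₁ : 𝓞 K)} * 𝔫) v r s) h') ≠ 0 := fun h h' =>
    qa_comm Q h1 v v r s r s h h'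
  have hidx0 : (GamQ (HQ Q) (Ideal.span {(m₁ : 𝓞 K)} * 𝔫) v r s).relIndex (GamQ (HQ Q) 𝔫 v r s) ≠ 0 := by
    have h2 : (cjG (GamQ (HQ Q) (Ideal.span {(m₁ : 𝓞 K)} * 𝔫) v r s) 1).relIndex (cjG (GamQ (HQ Q) 𝔫 v r s) 1) ≠ 0 := qa_comm Q h1 (𝔪 := 𝔫) v v r s r s 1 1
    rw [cjG_one, cjG_one] at h2
    exact h2
  have hfol : Fol ↥((GamQ (HQ Q) (Ideal.span {(m₁ : 𝓞 K)} * 𝔫) v r s).subgroupOf (HUH (HQ Q))) := by
    have h2 := fol_gu (HQ Q) (Ideal.span {(m₁ : 𝓞 K)} * 𝔫) v r s 1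
    rw [cjG_one] at h2
    exact h2
  have hy : THyp (HQ Q) (GamQ (HQ Q) 𝔫 v r s) (GamQ (HQ Q) (Ideal.span {(m₁ : 𝓞 K)} * 𝔫) v r s) (fun _ : Unit => (1 : HQ Q)) θ x (tsupport φ * Kt ^ m) := by
    refine ⟨hdΓ, hm5, fun g => ?_, hidx0, ?_, fun _ => hcc1 1, fun _ => ?_, hone, fun i j γ hγ hmv => ?_⟩
    · have h2 := hcomm g 1
      rw [cjG_one] at h2
      exact h2
    · have h2 := hcc1 1
      rw [cjG_one] at h2
      exact h2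
    · rw [cjG_one]
      exact inf_le_left
    · obtain ⟨u, u', y, hy1, y', hy2, e⟩ := hmv
      have h2 := pd_mv4 hx hB hKB hy1 hy2 e
      rcases hm₀ m₁ hm1 v hm3 𝔫 r s 0 0 π 1 1 (qm8_LvL h1 h1v r s hπ) (qm8_LvL h1 h1v r s hπ) a ha _ (fun i w => pow_nonneg (hB i w) _) hsz θ hθ.1 γ hγ h2 with h3 | h3
      · exact Or.inl ⟨rfl, h3.1⟩
      · exact Or.inr h3
  have hF' : ∀ l, AuT (HQ Q) (GamQ (HQ Q) 𝔫 v r s) μ D φ (F l) := fun l => ⟨(hF l).cont, (hF l).inv, (hF l).l2, (hF l).eig⟩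
  have hV := (qa8_P (HQ Q) (fun s => hG.rT s) (C := tsupport φ) hx).trans (hVol D₁ hD₁)
  have hc : (((GamQ (HQ Q) (Ideal.span {(m₁ : 𝓞 K)} * 𝔫) v r s).relIndex (GamQ (HQ Q) 𝔫 v r s) : ℕ) : ℝ) ≤ ((6 ^ m₀ : ℕ) ^ Module.finrank ℚ L : ℝ) ^ (Fintype.card (I b) ^ 2) := by
    have h2 : (cjG (GamQ (HQ Q) (Ideal.span {(m₁ : 𝓞 K)} * 𝔫) v r s) 1).relIndex (cjG (GamQ (HQ Q) 𝔫 v r s) 1) ≤ (m₁ ^ Module.finrank ℚ L) ^ (Fintype.card (I b) ^ 2) :=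
      qa_m Q h0 v r s m₁ hm2 1
    rw [cjG_one, cjG_one] at h2
    have h3 : (m₁ ^ Module.finrank ℚ L) ^ (Fintype.card (I b) ^ 2) ≤ ((6 ^ m₀) ^ Module.finrank ℚ L) ^ (Fintype.card (I b) ^ 2) :=
      Nat.pow_le_pow_left (Nat.pow_le_pow_left hm4 _) _
    exact_mod_cast h2.trans h3
  have key := th5_spec (HQ Q) cφ sφ hτ hfol hy hD₁ hX hV hc hD hF' hκ hort (D' := D') hD'
  refine key.trans (le_of_eq ?_)
  ring

/-- The archimedean factor. -/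
theorem qm8_Rf (B : b.support → InfinitePlace L → ℝ) (m : ℕ) (i : b.support) : Rf b (fun i w => B i w ^ (2 * m)) i = ∏ w, B i w ^ (2 * m * mult w) := by
  unfold Rf
  refine Finset.prod_congr rfl fun w _ => ?_
  rw [← pow_mul]

theorem qm8_Sl (i : b.support) : Sl b i (0 : b.support → ℤ) = 0 := by
  unfold Sl
  refine Finset.sum_eq_zero fun β _ => ?_
  simp [pr]

/-- **The density theorem at the archimedean places**, at the points `x ∈ U exp(A) Ω`, `A ≥ 0`. -/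
theorem statementA (Q : QS b K L) [IsGalois K L] : StatementA Q := by
  classical
  intro μ _ φ cφ sφ Ω hΩ
  obtain ⟨c₁, hc1, hcore⟩ := qm8_core Q (μ := μ) cφ sφ hΩ
  obtain ⟨CV, hCV0, hCV⟩ := qa_vol Q (om2_compact b hΩ (cg_compact (HQ Q) sφ.isCompact))
  refine ⟨c₁ * CV, ?_⟩
  intro v 𝔫 h0 hv r s θ hθ A hAQ hA x hx τ _ Kt cK tK w mw bw Λ hop B hB hKB m hsz ν _ D hD n F hF hort κ hκ D' hD'
  have hX0 : 0 ≤ ∏ β ∈ Pos b, Real.exp (Module.finrank ℚ K * A (P.root β)) / (Ideal.absNorm 𝔫 : ℝ) :=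
    Finset.prod_nonneg fun β _ => div_nonneg (Real.exp_pos _).le (Nat.cast_nonneg _)
  have hsz' : Sz4 b L 𝔫 v r s 0 0 (Rf b fun i w => B i w ^ (2 * m)) (Ea b (aA P L A)) := by
    refine Sz3.sz4 ?_
    intro i j hO
    simp only [qm8_Rf, qm8_Sl, add_zero, zpow_zero, one_pow, one_mul]
    exact hsz i j hO
  refine (hcore v 𝔫 h0 hv r s θ hθ (aA P L A) (fun β => pd_aA_refl L A β) x (pd_inRz hx) τ w Kt Λ ⟨inferInstance, mw, bw, cK, tK, hop⟩ B hB hKB m hsz' ν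
    (CV * ∏ β ∈ Pos b, Real.exp (Module.finrank ℚ K * A (P.root β)) / (Ideal.absNorm 𝔫 : ℝ)) (mul_nonneg hCV0 hX0) (fun D₁ hD₁ => ?_) D hD n F hF hort κ hκ D' hD').trans (le_of_eq (by ring))
  have h1 := hCV ν 𝔫 h0 v r s D₁ hD₁ A hAQ hA
  rw [← pd_aA_neg, ← pd_dg, ← pd_dg]
  exact h1

end

end Pool.Agent.Lib.L8
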