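import Pool.Agent.Lib.L8.StmM
import Pool.Agent.Lib.L8.QMain8

/-!
# M: the hybrid density theorem, assembly (helper43)
-/

namespace Pool.Agent.Lib.L8

open MeasureTheory Matrix NumberField NumberField.InfinitePlace IsDedekindDomain Pool.Agent.Lib.H89N Pool.Agent.Lib.H33W Pool.Agent.Lib.H67G Pool.Agent.Lib.L1S
open scoped ENNReal Pointwise

noncomputable section

set_option linter.unusedSectionVars false

variable {ι M N : Type} [Fintype ι] [DecidableEq ι] [AddCommGroup M] [Module ℚ M] [AddCommGroup N] [Module ℚ N]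
  {P : RootPairing ι ℚ M N} [P.IsCrystallographic] {b : P.Base}

variable [P.IsRootSystem] [P.IsReduced] [P.IsIrreducible] {K L : Type} [Field K] [NumberField K] [Field L] [NumberField L] [Algebra K L]

/-- The inequality with a real number `X` as in `th5_main5` and the double integral. -/
theorem mm_real {S C : ℝ} {J n : ℝ≥0∞} (hn : n ≠ 0) (hn' : n ≠ ⊤) (hJ : J ≠ ⊤) (hC : 0 ≤ C) (h : S ≤ C * (J / n).toReal) : ENNReal.ofReal S * n ≤ ENNReal.ofReal C * J := by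
  have h1 : J / n ≠ ⊤ := ENNReal.div_ne_top hJ hn
  calc ENNReal.ofReal S * n ≤ ENNReal.ofReal (C * (J / n).toReal) * n := mul_le_mul_left (ENNReal.ofReal_le_ofReal h) _
    _ = ENNReal.ofReal C * ((J / n) * n) := by
        rw [ENNReal.ofReal_mul hC, ENNReal.ofReal_toReal h1, mul_assoc]
    _ = _ := by rw [ENNReal.div_mul_cancel hn hn']

/-- An element of `Γ_v` over `𝓞_L[1/v]` which is congruent to `1` modulo `𝔫` is in `Γ`. -/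
theorem mm_gam [IsGalois K L] (Q : QS b K L) {𝔫 : Ideal (𝓞 K)} (h0 : 𝔫 ≠ ⊥) {v : HeightOneSpectrum (𝓞 K)} (hv : ¬𝔫 ≤ v.asIdeal) {r s : ℕ} {π : K} (hπ : v.valuation K π = WithZero.exp (-1 : ℤ)) {h : HQ Q}
    (hh : h.1 ∈ HGL b L 𝔫 v) (ha : AtVL b v r s π 0 h.1) : h ∈ GamQ (HQ Q) 𝔫 v r s := by
  have h1 := qm8_LvL (b := b) (L := L) h0 hv r s hπ
  have h2 := qa_quot Q h0 hv hπ (h := h) (h1 := 1) hh ha h1.hh h1.hv
  rw [inv_one, mul_one] at h2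
  exact h2

/-- The Hecke operator of the trivial double coset. -/
theorem mm_triv {H : Subgroup (GK b L)} {Γ : Subgroup H} {h : H} (hh : h ∈ Γ) {F : HRt H → ℂ} (iF : ∀ γ ∈ imH H Γ, ∀ x, F (γ * x) = F x) {t : ℂ} (hT : IsTT H Γ h F t) (x : HRt H) : t * F x = F x := by
  obtain ⟨S, h1, h2, h3⟩ := hT
  have hin : ∀ w, InTT H Γ h w → w ∈ imH H Γ := by
    rintro w ⟨γ, hγ, γ', hγ', rfl⟩
    exact mul_mem (mul_mem hγ ⟨h, hh, rfl⟩) hγ'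
  have h1in : InTT H Γ h 1 := ⟨1, one_mem _, (embH H h)⁻¹, inv_mem ⟨h, hh, rfl⟩, by group⟩
  obtain ⟨w', ⟨hw', hw1⟩, hu⟩ := h2 1 h1in
  have hS : S = {w'} := by
    ext w
    rw [Finset.mem_singleton]
    constructor
    · intro hw
      refine hu w ⟨hw, ?_⟩
      rw [one_mul]
      exact inv_mem (hin w (h1 w hw))
    · rintro rfl
      exact hw'
  rw [← h3 x, hS, Finset.sum_singleton]
  exact iF w' (hin w' (h1 w' hw')) x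

/-- The double integral is finite. -/
theorem mm_Jfin {H : Subgroup (GK b L)} {Γ : Subgroup H} (hcc : CCH H Γ) {D : Set (UHR H)} (hD : SF (Γ.subgroupOf (HUH H)) D) {μ : Measure (HRt H)} [μ.IsHaarMeasure] {ν : Measure (UHR H)} [ν.IsHaarMeasure]
    {φ : HRt H → ℂ} (cφ : Continuous φ) (sφ : HasCompactSupport φ) (x : HRt H) : Jf (UHR H).subtype μ ν φ x ≠ ⊤ := by
  have hG := th2_gd H hcc hD μ ν 0 (psT_mul' H 0)
  have h1 : IsCompact ((fun p : HRt H × HRt H => x * p.1 * (x * p.2)⁻¹) '' (tsupport φ ×ˢ tsupport φ)) := by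
    refine (sφ.isCompact.prod sφ.isCompact).image ?_
    fun_prop
  have h2 : IsCompact ((Subtype.val : UHR H → HRt H) ⁻¹' ((fun p : HRt H × HRt H => x * p.1 * (x * p.2)⁻¹) '' (tsupport φ ×ˢ tsupport φ))) :=
    (UHR_closed H).isClosedEmbedding_subtypeVal.isCompact_preimage h1
  have h3 := jf_vol hG cφ.measurable x (V := (Subtype.val : UHR H → HRt H) ⁻¹' ((fun p : HRt H × HRt H => x * p.1 * (x * p.2)⁻¹) '' (tsupport φ ×ˢ tsupport φ))) (by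
    rintro t ⟨y, hy, y', hy', e⟩
    exact ⟨(y, y'), ⟨subset_tsupport _ hy, subset_tsupport _ hy'⟩, e.symm⟩)
  refine ne_top_of_le_ne_top (ENNReal.mul_ne_top ?_ h2.measure_lt_top.ne) h3
  have h4 : MemLp φ 2 μ := cφ.memLp_of_hasCompactSupport sφ
  have h5 := h4.eLpNorm_lt_top
  rw [eLpNorm_lt_top_iff_lintegral_rpow_enorm_lt_top (by norm_num) (by norm_num)] at h5
  simpa using h5.ne

/-- **The core of M.** -/
theorem mm_core (Q : QS b K L) [IsGalois K L] {Ω : Set (GL (I b) (EE L))} (hΩ : IsCompact Ω) {K₀ : Set (HRt (HQ Q))} (hK₀ : IsCompact K₀) :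
    ∃ C : ℝ, 0 ≤ C ∧ ∀ (v : HeightOneSpectrum (𝓞 K)) (𝔫 : Ideal (𝓞 K)), 𝔫 ≠ ⊥ → ¬𝔫 ≤ v.asIdeal → ∀ (r s : ℕ) (c : b.support → ℤ), InvC Q c → (∀ i : b.support, 0 ≤ pr b c (Sum.inr i)) → (1 ≤ r + s ∨ c = 0) →
    ∀ π : K, v.valuation K π = WithZero.exp (-1 : ℤ) → ∀ h : HQ Q, h.1 ∈ HGL b L 𝔫 v → AtVL b v r s π c h.1 →
    ∀ θ : b.support → (EE L →ₗ[ℝ] ℝ), GenQ Q 𝔫 v r s θ →
    ∀ a : ι → (EE L)ˣ, (∀ β, a (P.reflectionPerm β β) = (a β)⁻¹) → ∀ x : HRt (HQ Q), InRz (HQ Q) Ω a x →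
    ∀ (μ τ : Measure (HRt (HQ Q))) [μ.IsHaarMeasure] (w : HRt (HQ Q) → ℂ) (Kt : Set (HRt (HQ Q))) (Λ : ℝ), CvD μ τ w Kt Λ →
    ∀ B : b.support → InfinitePlace L → ℝ, (∀ i w, 0 ≤ B i w) → KB (HQ Q) B Kt →
    ∀ m : ℕ, Sz4 b L 𝔫 v r s c c (Rf b fun i w => B i w ^ (2 * m)) (Ea b a) →
    ∀ φ : HRt (HQ Q) → ℂ, Continuous φ → tsupport φ ⊆ K₀ →
    ∀ (ν : Measure (UHR (HQ Q))) [ν.IsHaarMeasure] (D : Set (HRt (HQ Q))), IsFundamentalDomain (GamHR (HQ Q) 𝔫 v r s) D μ →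
    ∀ (n : ℕ) (F : Fin n → HRt (HQ Q) → ℂ) (c' κ t' : Fin n → ℂ), (∀ l, AutM Q 𝔫 v r s μ D φ τ w h (F l) (c' l) (κ l) (t' l)) → (∀ l k, ∫ x in D, star (F l x) * F k x ∂μ = if l = k then 1 else 0) →
    ∀ D' : Set (UHR (HQ Q)), IsFundamentalDomain (GamUH (HQ Q) 𝔫 v r s) D' ν →
      ENNReal.ofReal (∑ l, ‖c' l * κ l ^ m * t' l * WhH (HQ Q) ν D' θ (F l) x‖ ^ 2) * ν D' ≤
        ENNReal.ofReal (C * Λ ^ (2 * m) * (Ideal.absNorm v.asIdeal : ℝ) ^ (∑ β ∈ Pos b, pr b c (Sum.inr β))) * Jf (UHR (HQ Q)).subtype μ ν φ x := by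
  classical
  have ci : Countable (HQ Q) := th_count (HQ Q)
  obtain ⟨m₀, hm₀⟩ := qb_star4 Q (om3_compact hΩ (cg_compact (HQ Q) hK₀))
  obtain ⟨CI, hCI0, hCI⟩ := qa_idx Q
  refine ⟨((6 ^ m₀ : ℕ) ^ Module.finrank ℚ L : ℝ) ^ (Fintype.card (I b) ^ 2) * CI, by positivity, ?_⟩
  intro v 𝔫 h0 hv r s c hcQ hc hrs π hπ h hh1 hh2 θ hθ a ha x hx μ τ _ w Kt Λ hτ B hB hKB m hsz φ cφ sφ' ν _ D hD n F c' κ t' hF hort D' hD'
  have sφ : HasCompactSupport φ := HasCompactSupport.intro hK₀ fun x hx => by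
    by_contra hne
    exact hx (sφ' (subset_tsupport _ hne))
  have hq1 : (0 : ℝ) < Ideal.absNorm v.asIdeal := Nat.cast_pos.2 (Nat.pos_of_ne_zero (by
    rw [Ne, Ideal.absNorm_eq_zero_iff]
    exact v.ne_bot))
  have hq0 : (0 : ℝ) < (Ideal.absNorm v.asIdeal : ℝ) ^ (∑ β ∈ Pos b, pr b c (Sum.inr β)) := zpow_pos hq1 _
  -- the auxiliary level
  obtain ⟨m₁, hm1, hm2, hm3, hm4⟩ := aux_level m₀ v
  have h1 : Ideal.span {(m₁ : 𝓞 K)} * 𝔫 ≠ ⊥ := by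
    rw [Ne, Ideal.mul_eq_bot, not_or, Ideal.span_singleton_eq_bot]
    exact ⟨Nat.cast_ne_zero.2 hm2, h0⟩
  have h1v : ¬Ideal.span {(m₁ : 𝓞 K)} * 𝔫 ≤ v.asIdeal := (de_m h0 hv hm3).2
  -- replacement of the Hecke element
  obtain ⟨g', hg'H, hg1, hg2⟩ := qa_exists Q h1v r s hcQ hπ
  obtain ⟨g, hg⟩ : ∃ g : HQ Q, g = ⟨g', hg'H⟩ := ⟨_, rfl⟩
  have hg1 : g.1 ∈ HGL b L (Ideal.span {(m₁ : 𝓞 K)} * 𝔫) v := by rw [hg]; exact hg1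
  have hg2 : AtVL b v r s π c g.1 := by rw [hg]; exact hg2
  have hle : L1S.up L (Ideal.span {(m₁ : 𝓞 K)} * 𝔫) ≤ L1S.up L 𝔫 := L1S.up_mono L Ideal.mul_le_right
  have hg4 : g.1 ∈ HGL b L 𝔫 v := by
    obtain ⟨j, hj⟩ := hg1
    have key : ∀ y : L, DenL (Ideal.span {(m₁ : 𝓞 K)} * 𝔫) v j y → DenL 𝔫 v j y := fun y hy a ha => by
      obtain ⟨z, hz, e⟩ := hy a ha
      exact ⟨z, hle hz, e⟩
    exact ⟨j, fun i i' => ⟨key _ (hj i i').1, key _ (hj i i').2⟩⟩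
  have hg3 : h * g⁻¹ ∈ GamQ (HQ Q) 𝔫 v r s := qa_quot Q h0 hv hπ hh1 hh2 hg4 hg2
  have hL : LvL b 𝔫 v r s c π g.1 := ⟨h0, hv, hc, hπ, hg4, hg2⟩
  have hL1 : LvL b (Ideal.span {(m₁ : 𝓞 K)} * 𝔫) v r s c π g.1 := ⟨h1, h1v, hc, hπ, hg1, hg2⟩
  -- fundamental domains
  have hdΓ : Dsc (HQ Q) (GamQ (HQ Q) 𝔫 v r s) := dsc_Gam (HQ Q) 𝔫 v r s
  obtain ⟨D₁, hD₁⟩ := hdΓ.sfU
  have hcc0 : CCH (HQ Q) (GamQ (HQ Q) 𝔫 v r s) := by
    have h2 : CCH (HQ Q) (cjG (GamQ (HQ Q) 𝔫 v r s) 1) := qa_cc Q h0 v r s 1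
    rw [cjG_one] at h2
    exact h2
  have hcc1 : ∀ g : HQ Q, CCH (HQ Q) (cjG (GamQ (HQ Q) (Ideal.span {(m₁ : 𝓞 K)} * 𝔫) v r s) g) := fun g => qa_cc Q h1 v r s g
  have hG := th2_gd (HQ Q) hcc0 hD₁ μ ν θ (psT_mul' (HQ Q) θ)
  have hone : ∀ w : HUH (HQ Q), (w : HQ Q) ∈ GamQ (HQ Q) 𝔫 v r s → psT (HQ Q) θ (kUH (HQ Q) w) = 1 := fun w hw =>
    hθ.2 _ ((th2_mem_imU (HQ Q) (GamQ (HQ Q) 𝔫 v r s) _).2 ⟨w, hw, rfl⟩)
  -- the auxiliary group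
  have hm5 : GamQ (HQ Q) (Ideal.span {(m₁ : 𝓞 K)} * 𝔫) v r s ≤ GamQ (HQ Q) 𝔫 v r s := by
    have key : ∀ y : L, L1S.InI (L1S.up L (Ideal.span {(m₁ : 𝓞 K)} * 𝔫)) y → L1S.InI (L1S.up L 𝔫) y := fun y ⟨z, hz, e⟩ => ⟨z, hle hz, e⟩
    intro γ hγ
    have h2 : γ.1 ∈ GamL b L (Ideal.span {(m₁ : 𝓞 K)} * 𝔫) v r s := hγ
    show γ.1 ∈ GamL b L 𝔫 v r s
    intro i j
    obtain ⟨⟨a1, a2⟩, a3, a4⟩ := h2 i j
    exact ⟨⟨key _ a1, a2⟩, key _ a3, a4⟩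
  have hcomm : ∀ h h' : HQ Q, (cjG (GamQ (HQ Q) (Ideal.span {(m₁ : 𝓞 K)} * 𝔫) v r s) h).relIndex (cjG (GamQ (HQ Q) (Ideal.span {(m₁ : 𝓞 K)} * 𝔫) v r s) h') ≠ 0 := fun h h' =>
    qa_comm Q h1 v v r s r s h h'
  have hidx0 : (GamQ (HQ Q) (Ideal.span {(m₁ : 𝓞 K)} * 𝔫) v r s).relIndex (GamQ (HQ Q) 𝔫 v r s) ≠ 0 := by
    have h2 : (cjG (GamQ (HQ Q) (Ideal.span {(m₁ : 𝓞 K)} * 𝔫) v r s) 1).relIndex (cjG (GamQ (HQ Q) 𝔫 v r s) 1) ≠ 0 := qa_comm Q h1 (𝔪 := 𝔫) v v r s r s 1 1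
    rw [cjG_one, cjG_one] at h2
    exact h2
  have hfol := fol_gu (HQ Q) (Ideal.span {(m₁ : 𝓞 K)} * 𝔫) v r s g
  have hy : THyp (HQ Q) (GamQ (HQ Q) 𝔫 v r s) (GamQ (HQ Q) (Ideal.span {(m₁ : 𝓞 K)} * 𝔫) v r s) (fun _ : Unit => g) θ x (tsupport φ * Kt ^ m) := by
    refine ⟨hdΓ, hm5, fun g => ?_, hidx0, ?_, fun _ => hcc1 g, fun _ => ?_, hone, fun i j γ hγ hmv => ?_⟩
    · have h2 := hcomm g 1
      rw [cjG_one] at h2
      exact h2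
    · have h2 := hcc1 1
      rw [cjG_one] at h2
      exact h2
    · exact qa_le Q hcQ hL
    · obtain ⟨u, u', y, hy1, y', hy2, e⟩ := hmv
      have h2 := pd_mv4 hx hB hKB (C := K₀) (Set.mul_subset_mul_right sφ' hy1) (Set.mul_subset_mul_right sφ' hy2) e
      rcases hm₀ m₁ hm1 v hm3 𝔫 r s c c π g g hL1 hL1 a ha _ (fun i w => pow_nonneg (hB i w) _) hsz θ hθ.1 γ hγ h2 with h3 | h3
      · exact Or.inl ⟨rfl, h3.1⟩
      · exact Or.inr h3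
  have hcN : (((GamQ (HQ Q) (Ideal.span {(m₁ : 𝓞 K)} * 𝔫) v r s).relIndex (GamQ (HQ Q) 𝔫 v r s) : ℕ) : ℝ) ≤ ((6 ^ m₀ : ℕ) ^ Module.finrank ℚ L : ℝ) ^ (Fintype.card (I b) ^ 2) := by
    have h2 : (cjG (GamQ (HQ Q) (Ideal.span {(m₁ : 𝓞 K)} * 𝔫) v r s) 1).relIndex (cjG (GamQ (HQ Q) 𝔫 v r s) 1) ≤ (m₁ ^ Module.finrank ℚ L) ^ (Fintype.card (I b) ^ 2) :=
      qa_m Q h0 v r s m₁ hm2 1
    rw [cjG_one, cjG_one] at h2
    have h3 : (m₁ ^ Module.finrank ℚ L) ^ (Fintype.card (I b) ^ 2) ≤ ((6 ^ m₀) ^ Module.finrank ℚ L) ^ (Fintype.card (I b) ^ 2) :=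
      Nat.pow_le_pow_left (Nat.pow_le_pow_left hm4 _) _
    exact_mod_cast h2.trans h3
  have hidxR := hCI 𝔫 v r s c π g hcQ hL
  have hq0' : (0 : ℝ) < (((cjG (GamQ (HQ Q) 𝔫 v r s) g).subgroupOf (HUH (HQ Q))).relIndex ((GamQ (HQ Q) 𝔫 v r s).subgroupOf (HUH (HQ Q))) : ℝ) := by
    have h3 : 0 < CI * (((cjG (GamQ (HQ Q) 𝔫 v r s) g).subgroupOf (HUH (HQ Q))).relIndex ((GamQ (HQ Q) 𝔫 v r s).subgroupOf (HUH (HQ Q))) : ℝ) := hq0.trans_le hidxR.1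
    exact (pos_iff_pos_of_mul_pos h3).1 hCI0
  -- the numbers
  have pD : ν D₁ ≠ 0 := th2_pos (HQ Q) hD₁ ν
  have fD : ν D₁ ≠ ⊤ := th2_fin (HQ Q) hcc0 hD₁ ν
  have hvD : ν D' = ν D₁ := th2_volU (HQ Q) ν hD₁ hD'
  have hJt : Jf (UHR (HQ Q)).subtype μ ν φ x ≠ ⊤ := mm_Jfin hcc0 hD₁ cφ sφ x
  obtain ⟨X, hX⟩ : ∃ X : ℝ, X = (Jf (UHR (HQ Q)).subtype μ ν φ x / ν D₁).toReal := ⟨_, rfl⟩
  have hX0 : 0 ≤ X := by rw [hX]; exact ENNReal.toReal_nonneg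
  have hJ : Jf (UHR (HQ Q)).subtype μ ν φ x ≤ ENNReal.ofReal X * ν D₁ := by
    rw [hX, ENNReal.ofReal_toReal (ENNReal.div_ne_top hJt pD), ENNReal.div_mul_cancel pD fD]
  have hF' : ∀ l, AuE (HQ Q) (GamQ (HQ Q) 𝔫 v r s) μ D φ (c' l) (F l) := fun l => ⟨(hF l).cont, (hF l).inv, (hF l).l2, (hF l).eig⟩
  have key := th5_main5 (HQ Q) cφ sφ (μ := μ) (ν := ν) hτ (fun _ => hfol) hy hD₁ hX0 hJ hcN (q := fun _ => (((cjG (GamQ (HQ Q) 𝔫 v r s) g).subgroupOf (HUH (HQ Q))).relIndex ((GamQ (HQ Q) 𝔫 v r s).subgroupOf (HUH (HQ Q))) : ℝ))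
    (fun _ => rfl) (fun _ => hq0') hD hF' (fun l => (hF l).cv) hort (fun _ => 1)
  have fin : ∑ l, ‖c' l * κ l ^ m * t' l * WhH (HQ Q) ν D' θ (F l) x‖ ^ 2 ≤
      ((((6 ^ m₀ : ℕ) ^ Module.finrank ℚ L : ℝ) ^ (Fintype.card (I b) ^ 2) * CI) * Λ ^ (2 * m) * (Ideal.absNorm v.asIdeal : ℝ) ^ (∑ β ∈ Pos b, pr b c (Sum.inr β))) * X := by
    have hc1 : (0 : ℝ) ≤ ((6 ^ m₀ : ℕ) ^ Module.finrank ℚ L : ℝ) ^ (Fintype.card (I b) ^ 2) := by positivity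
    have hΛ : 0 ≤ (Λ ^ 2) ^ m := by positivity
    rcases hrs with hrs | rfl
    · -- the Hecke operator
      have hU : ∀ (l : Fin n) (i : Unit), IsUT (HQ Q) (GamQ (HQ Q) 𝔫 v r s) g (F l) ((fun l (_ : Unit) => t' l) l i) := fun l _ =>
        qa_isU Q hrs hcQ hL (hF l).inv (qm_isT_congr (HQ Q) hg3 (hF l).hec)
      have h2 := key.2 (fun l _ => t' l) hU D' hD'
      simp only [Finset.univ_unique, Finset.sum_singleton, one_mul, norm_one, one_pow] at h2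
      refine le_trans (le_of_eq ?_) (h2.trans ?_)
      · refine Finset.sum_congr rfl fun l _ => ?_
        show ‖c' l * κ l ^ m * t' l * WhT (HQ Q) ν D' θ (F l) x‖ ^ 2 = _
        simp only [norm_mul]
        ring
      · calc _ ≤ ((6 ^ m₀ : ℕ) ^ Module.finrank ℚ L : ℝ) ^ (Fintype.card (I b) ^ 2) * (X * (Λ ^ 2) ^ m) * (CI * (Ideal.absNorm v.asIdeal : ℝ) ^ (∑ β ∈ Pos b, pr b c (Sum.inr β))) :=
              mul_le_mul_of_nonneg_left hidxR.2 (mul_nonneg hc1 (mul_nonneg hX0 hΛ))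
          _ = _ := by
              rw [← pow_mul]
              ring
    · -- the trivial double coset
      have hhΓ : h ∈ GamQ (HQ Q) 𝔫 v r s := mm_gam Q h0 hv hπ hh1 hh2
      have hgΓ : g ∈ GamQ (HQ Q) 𝔫 v r s := mm_gam Q h0 hv hπ hg4 hg2
      have h2 := key.1 (fun _ => 1) (fun _ => by
        rw [one_mul]
        exact Subgroup.inv_mem _ hgΓ) (fun _ => D') (fun _ => by
        have h1 := imUh_eq (HQ Q) (GamQ (HQ Q) 𝔫 v r s) 1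
        rw [cjG_one] at h1
        show IsFundamentalDomain (imUh (HQ Q) (GamQ (HQ Q) 𝔫 v r s) 1) D' ν
        rw [h1]
        exact hD')
      simp only [Finset.univ_unique, Finset.sum_singleton, one_mul, map_one, norm_one, one_pow] at h2
      have hidx1 : (((cjG (GamQ (HQ Q) 𝔫 v r s) g).subgroupOf (HUH (HQ Q))).relIndex ((GamQ (HQ Q) 𝔫 v r s).subgroupOf (HUH (HQ Q))) : ℝ) = 1 := by
        have e1 : cjG (GamQ (HQ Q) 𝔫 v r s) g = GamQ (HQ Q) 𝔫 v r s := by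
          rw [cjG_congr (g := 1) (by rw [inv_one, mul_one]; exact hgΓ), cjG_one]
        rw [e1, Subgroup.relIndex_self, Nat.cast_one]
      rw [hidx1, inv_one, mul_one] at h2
      have h3 := hidxR.2
      rw [show ((((GhQ (HQ Q) 𝔫 v r s g).subgroupOf (HUH (HQ Q))).relIndex ((GamQ (HQ Q) 𝔫 v r s).subgroupOf (HUH (HQ Q))) : ℕ) : ℝ) = 1 from hidx1] at h3
      refine le_trans (Finset.sum_le_sum fun l _ => ?_) (h2.trans ?_)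
      · show ‖c' l * κ l ^ m * t' l * WhT (HQ Q) ν D' θ (F l) x‖ ^ 2 ≤ _
        have e2 : t' l * WhT (HQ Q) ν D' θ (F l) x = WhT (HQ Q) ν D' θ (F l) x := by
          unfold WhT
          rw [setAverage_eq, mul_smul_comm, ← integral_const_mul]
          congr 1
          refine integral_congr_ae (Filter.Eventually.of_forall fun u => ?_)
          show t' l * (F l (u.1 * x) * star (psT (HQ Q) θ u)) = F l (u.1 * x) * star (psT (HQ Q) θ u)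
          rw [← mul_assoc, mm_triv hhΓ (hF l).inv (hF l).hec]
        rw [mul_assoc, e2, norm_mul, mul_pow, mul_comm (c' l)]
      · calc _ ≤ ((6 ^ m₀ : ℕ) ^ Module.finrank ℚ L : ℝ) ^ (Fintype.card (I b) ^ 2) * (X * (Λ ^ 2) ^ m) * (CI * (Ideal.absNorm v.asIdeal : ℝ) ^ (∑ β ∈ Pos b, pr b (0 : b.support → ℤ) (Sum.inr β))) :=
              le_mul_of_one_le_right (mul_nonneg hc1 (mul_nonneg hX0 hΛ)) h3
          _ = _ := by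
              rw [← pow_mul]
              ring
  have hΛ : 0 ≤ Λ ^ (2 * m) := by
    rw [pow_mul]
    positivity
  rw [hvD]
  exact mm_real pD fD hJt (by positivity) (by rw [← hX]; exact fin)

/-- The two forms of the square of the norm of a continuous function with compact support. -/
theorem mm_sq {G : Type} [TopologicalSpace G] [MeasurableSpace G] [OpensMeasurableSpace G] (μ : Measure G) [IsFiniteMeasureOnCompacts μ] {φ : G → ℂ} (cφ : Continuous φ) (sφ : HasCompactSupport φ) :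
    ∫⁻ y, ‖φ y‖ₑ ^ 2 ∂μ = ENNReal.ofReal (∫ y, ‖φ y‖ ^ 2 ∂μ) := by
  have h1 : HasCompactSupport (fun y => ‖φ y‖ ^ 2) := sφ.comp_left (g := fun z : ℂ => ‖z‖ ^ 2) (by simp)
  have h2 : Continuous (fun y => ‖φ y‖ ^ 2) := by fun_prop
  have i1 : Integrable (fun y => ‖φ y‖ ^ 2) μ := h2.integrable_of_hasCompactSupport h1
  rw [ofReal_integral_eq_lintegral_ofReal i1 (Filter.Eventually.of_forall fun y => by positivity)]
  refine lintegral_congr fun y => ?_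
  rw [ENNReal.ofReal_pow (norm_nonneg _), ofReal_norm]

/-- The volume of `U ∩ t Ω t⁻¹` (module PE). -/
def PeVol (Q : QS b K L) : Prop :=
  ∀ Ω : Set (GL (I b) (EE L)), IsCompact Ω → ∃ C : ℝ, 0 ≤ C ∧ ∀ (ν : Measure (UHR (HQ Q))) [ν.IsHaarMeasure] (𝔫 : Ideal (𝓞 K)), 𝔫 ≠ ⊥ → ∀ (v : HeightOneSpectrum (𝓞 K)) (r s : ℕ) (D : Set (UHR (HQ Q))),
    SF ((GamQ (HQ Q) 𝔫 v r s).subgroupOf (HUH (HQ Q))) D → ∀ (t : HRt (HQ Q)) (a : ι → (EE L)ˣ), t.1.1.1 = dgz b a →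
    ν {u : UHR (HQ Q) | ∃ κ ∈ Ω, u.1.1.1.1 = dgz b a * κ.1 * dgz b a⁻¹} ≤
      ENNReal.ofReal (C * ((∏ β ∈ Pos b, mixedEmbedding.norm (a β : EE L)) ^ ((Module.finrank K L : ℝ)⁻¹) / (Ideal.absNorm 𝔫 : ℝ) ^ (Pos b).card)) * ν D

/-- **The hybrid density theorem.** -/
theorem statementM_of (Q : QS b K L) [IsGalois K L] (hvol : PeVol Q) (hinv : ∀ (t : HRt (HQ Q)) (a : ι → (EE L)ˣ), t.1.1.1 = dgz b a → ∀ β, a (P.reflectionPerm β β) = (a β)⁻¹) : StatementM Q := by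
  classical
  intro Ω K₀ hΩ hK₀
  obtain ⟨C₁, hC1, h1⟩ := mm_core Q hΩ hK₀
  obtain ⟨C₂, hC2, h2⟩ := hvol _ (om2_compact b hΩ (cg_compact (HQ Q) hK₀))
  refine ⟨max C₁ C₂, ?_⟩
  intro v 𝔫 h0 hv r s c hcQ hc hrs π hπ h hh1 hh2 θ hθ t a hta x hx μ τ _ w Λ B hB hM m hsz φ cφ sφ ν _ D hD n F c' κ t' hF hort D' hD'
  obtain ⟨i1, mw, bw, hop, Kt, cK, tK, hKB⟩ := hM
  have hx' : InRz (HQ Q) Ω a x := by
    obtain ⟨u, ω, hω, e⟩ := hx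
    exact ⟨u, ω, hω, by rw [e, hta]⟩
  have hsz' : Sz4 b L 𝔫 v r s c c (Rf b fun i w => B i w ^ (2 * m)) (Ea b a) := by
    have e : (Rf b fun i w => B i w ^ (2 * m)) = fun i => ∏ w, B i w ^ (2 * m * mult w) := funext fun i => qm8_Rf B m i
    rw [e]
    exact hsz
  have key := h1 v 𝔫 h0 hv r s c hcQ hc hrs π hπ h hh1 hh2 θ hθ a (hinv t a hta) x hx' μ τ w Kt Λ ⟨i1, mw, bw, cK, tK, hop⟩ B hB hKB m hsz' φ cφ sφ ν D hD n F c' κ t' hF hort D' hD'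
  have hq1 : (0 : ℝ) < Ideal.absNorm v.asIdeal := Nat.cast_pos.2 (Nat.pos_of_ne_zero (by
    rw [Ne, Ideal.absNorm_eq_zero_iff]
    exact v.ne_bot))
  have hq0 : (0 : ℝ) < (Ideal.absNorm v.asIdeal : ℝ) ^ (∑ β ∈ Pos b, pr b c (Sum.inr β)) := zpow_pos hq1 _
  have hΛ : 0 ≤ Λ ^ (2 * m) := by
    rw [pow_mul]
    positivity
  refine ⟨key.trans (mul_le_mul_left (ENNReal.ofReal_le_ofReal ?_) _), ?_⟩
  · exact mul_le_mul_of_nonneg_right (mul_le_mul_of_nonneg_right (le_max_left _ _) hΛ) hq0.le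
  · have sφ' : HasCompactSupport φ := HasCompactSupport.intro hK₀ fun x hx => by
      by_contra hne
      exact hx (sφ (subset_tsupport _ hne))
    obtain ⟨D₁, hD₁⟩ := (dsc_Gam (HQ Q) 𝔫 v r s).sfU
    have hcc0 : CCH (HQ Q) (GamQ (HQ Q) 𝔫 v r s) := by
      have h2 : CCH (HQ Q) (cjG (GamQ (HQ Q) 𝔫 v r s) 1) := qa_cc Q h0 v r s 1
      rw [cjG_one] at h2
      exact h2
    have hG := th2_gd (HQ Q) hcc0 hD₁ μ ν θ (psT_mul' (HQ Q) θ)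
    have hvD : ν D' = ν D₁ := th2_volU (HQ Q) ν hD₁ hD'
    have e1 : ∫⁻ y, ‖φ y‖ₑ ^ 2 ∂μ = ENNReal.ofReal (∫ y, ‖φ y‖ ^ 2 ∂μ) := mm_sq μ cφ sφ'
    have h3 := jf_vol hG cφ.measurable x (V := {t : UHR (HQ Q) | ∃ y ∈ K₀, ∃ y' ∈ K₀, (t : HRt (HQ Q)) = x * y * (x * y')⁻¹}) (by
      rintro t ⟨y, hy, y', hy', e⟩
      exact ⟨y, sφ (subset_tsupport _ hy), y', sφ (subset_tsupport _ hy'), e⟩)
    have h4 := (qa8_P (HQ Q) (fun s => hG.rT s) (C := K₀) hx').trans (h2 ν 𝔫 h0 v r s D₁ hD₁ t a hta)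
    have hX0 : 0 ≤ (∏ β ∈ Pos b, mixedEmbedding.norm (a β : EE L)) ^ ((Module.finrank K L : ℝ)⁻¹) / (Ideal.absNorm 𝔫 : ℝ) ^ (Pos b).card :=
      div_nonneg (Real.rpow_nonneg (Finset.prod_nonneg fun β _ => mixedEmbedding.norm_nonneg _) _) (pow_nonneg (Nat.cast_nonneg _) _)
    have hφ0 : 0 ≤ ∫ y, ‖φ y‖ ^ 2 ∂μ := integral_nonneg fun y => by positivity
    calc ∫⁻ u : UHR (HQ Q), ∫⁻ z, ‖φ (x⁻¹ * z)‖ₑ * ‖φ (x⁻¹ * (u * z))‖ₑ ∂μ ∂ν ≤ (∫⁻ y, ‖φ y‖ₑ ^ 2 ∂μ) * ν {t : UHR (HQ Q) | ∃ y ∈ K₀, ∃ y' ∈ K₀, (t : HRt (HQ Q)) = x * y * (x * y')⁻¹} := h3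
      _ ≤ ENNReal.ofReal (∫ y, ‖φ y‖ ^ 2 ∂μ) * (ENNReal.ofReal (C₂ * ((∏ β ∈ Pos b, mixedEmbedding.norm (a β : EE L)) ^ ((Module.finrank K L : ℝ)⁻¹) / (Ideal.absNorm 𝔫 : ℝ) ^ (Pos b).card)) * ν D₁) := by
          rw [e1]
          exact mul_le_mul_right h4 _
      _ = ENNReal.ofReal (C₂ * (∫ y, ‖φ y‖ ^ 2 ∂μ) * (∏ β ∈ Pos b, mixedEmbedding.norm (a β : EE L)) ^ ((Module.finrank K L : ℝ)⁻¹) / (Ideal.absNorm 𝔫 : ℝ) ^ (Pos b).card) * ν D₁ := by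
          rw [← mul_assoc, ← ENNReal.ofReal_mul hφ0]
          congr 2
          ring
      _ ≤ _ := by
          rw [hvD]
          refine mul_le_mul_left (ENNReal.ofReal_le_ofReal ?_) _
          rw [mul_div_assoc, mul_div_assoc]
          exact mul_le_mul_of_nonneg_right (mul_le_mul_of_nonneg_right (le_max_right _ _) hφ0) hX0

end

end Pool.Agent.Lib.L8
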