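import Pool.Agent.Lib.L8.PD4
import Pool.Agent.Lib.L1S.ApiL2

/-!
# L8, module PE, file PE1 (helper29): the diagonal elements of `G(L ⊗ ℝ)`
-/

namespace Pool.Agent.Lib.L8

set_option linter.unusedSectionVars false

open MeasureTheory Matrix NumberField NumberField.InfinitePlace IsDedekindDomain Pool.Agent.Lib.H89N Pool.Agent.Lib.H33W Pool.Agent.Lib.L1S

noncomputable section

variable {ι M N : Type} [Fintype ι] [DecidableEq ι] [AddCommGroup M] [Module ℚ M] [AddCommGroup N] [Module ℚ N]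
  {P : RootPairing ι ℚ M N} [P.IsCrystallographic] [P.IsReduced] [P.IsIrreducible] [P.IsRootSystem] {b : P.Base} {L : Type} [Field L] [NumberField L]

/-- `E_β` does not vanish on the zero weight space. -/
theorem pe_entry (b : P.Base) (β : ι) : ∃ j : b.support, E b β (Sum.inr β) (Sum.inl j) ≠ 0 := by
  obtain ⟨l, i, ε, hε, hw, hE⟩ := E_word b β
  by_contra hcon
  push Not at hcon
  have hroot : P.root β = sL b l (P.root i) := by rw [← hw, root_wL]
  have hε0 : ε ≠ 0 := by rcases hε with rfl | rfl <;> norm_num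
  -- the entries of `w e_i w'`
  have h1 : ∀ j : b.support, (nL b l * eZ b i * nL' b l) (Sum.inr β) (Sum.inl j) = 0 := by
    intro j
    have h2 := hcon j
    rw [hE, Matrix.smul_apply, smul_eq_mul] at h2
    exact (mul_eq_zero.1 h2).resolve_left hε0
  have hrow : ∀ k : I b, nL b l (Sum.inr β) k ≠ 0 → k = Sum.inr (i : ι) := by
    intro k hk
    have h2 : P.root β = sL b l (wt b k) := nL_over l _ k hk
    rw [hroot] at h2
    have h3 := (sL b l).injective h2
    rcases k with j | γ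
    · exact absurd (show P.root i = (0 : M) from h3) (P.ne_zero _)
    · have h4 : P.root i = P.root γ := h3
      rw [P.root.injective h4]
  have hcol : ∀ (j : b.support) (k : I b), nL' b l k (Sum.inl j) ≠ 0 → ∃ m, k = Sum.inl m := by
    intro j k hk
    have h2 : wt b k = (sL b l).symm (0 : M) := nL_over' l k _ hk
    rw [map_zero] at h2
    rcases k with m | γ
    · exact ⟨m, rfl⟩
    · exact absurd (show P.root γ = 0 from h2) (P.ne_zero _)
  -- the row `(e_i w')(inr i, inl j)`
  have h2 : ∀ j : b.support, (eZ b i * nL' b l) (Sum.inr (i : ι)) (Sum.inl j) = 0 := by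
    intro j
    have h3 := h1 j
    rw [Matrix.mul_assoc, Matrix.mul_apply, Finset.sum_eq_single (Sum.inr (i : ι))] at h3
    · rcases mul_eq_zero.1 h3 with h4 | h4
      · exfalso
        have h5 : (nL b l * nL' b l) (Sum.inr β) (Sum.inr β) = 0 := by
          rw [Matrix.mul_apply]
          refine Finset.sum_eq_zero fun k _ => ?_
          by_cases hk : nL b l (Sum.inr β) k = 0
          · rw [hk, zero_mul]
          · rw [hrow k hk, h4, zero_mul]
        rw [nL_mul, Matrix.one_apply_eq] at h5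
        exact one_ne_zero h5
      · exact h4
    · intro k _ hk
      have : nL b l (Sum.inr β) k = 0 := by
        by_contra hne
        exact hk (hrow k hne)
      rw [this, zero_mul]
    · intro h
      exact absurd (Finset.mem_univ _) h
  have h3 : (eZ b i * nL' b l * nL b l) (Sum.inr (i : ι)) (Sum.inl i) = 0 := by
    rw [Matrix.mul_apply]
    refine Finset.sum_eq_zero fun k _ => ?_
    rcases k with j | γ
    · rw [h2, zero_mul]
    · have : nL b l (Sum.inr γ) (Sum.inl i) = 0 := by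
        by_contra hne
        have h4 : P.root γ = sL b l (0 : M) := nL_over l _ _ hne
        rw [map_zero] at h4
        exact P.ne_zero _ h4
      rw [this, mul_zero]
  rw [Matrix.mul_assoc, nL_mul', Matrix.mul_one] at h3
  have h4 : eZ b i (Sum.inr (i : ι)) (Sum.inl i) = |b.cartanMatrix i i| := by
    unfold eZ
    rw [Matrix.fromBlocks_apply₂₁, Matrix.of_apply, if_pos rfl]
  rw [h4, RootPairing.Base.cartanMatrix_apply_same] at h3
  norm_num at h3

/-- A nonzero integer is a unit in `L ⊗ ℝ`. -/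
theorem pe_int {z : ℤ} (hz : z ≠ 0) {x y : EE L} (h : x * (z : EE L) = y * (z : EE L)) : x = y := by
  have h1 : ((z : ℤ) : EE L) * ((z : ℝ)⁻¹ • (1 : EE L)) = 1 := by
    have e : ((z : ℤ) : EE L) = (z : ℝ) • (1 : EE L) := by rw [Int.cast_smul_eq_zsmul, zsmul_one]
    rw [e, smul_mul_smul_comm, mul_inv_cancel₀ (by exact_mod_cast hz), mul_one, one_smul]
  calc x = x * (z : EE L) * ((z : ℝ)⁻¹ • (1 : EE L)) := by rw [mul_assoc, h1, mul_one]
    _ = y * (z : EE L) * ((z : ℝ)⁻¹ • (1 : EE L)) := by rw [h]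
    _ = y := by rw [mul_assoc, h1, mul_one]

/-- The entries of `a X a⁻¹`. -/
theorem pe_conj_entry (a : ι → (EE L)ˣ) (X : Matrix (I b) (I b) (EE L)) (r c : I b) :
    (dgz b a * X * dgz b a⁻¹) r c = Sum.elim (fun _ => 1) (fun β => (a β : EE L)) r * X r c * Sum.elim (fun _ => 1) (fun β => (((a β)⁻¹ : (EE L)ˣ) : EE L)) c := by
  unfold dgz
  rw [Matrix.mul_diagonal, Matrix.diagonal_mul]
  rfl

/-- The inverse of a diagonal element of the group. -/
theorem pe_inv_mat {g : GR b L} {a : ι → (EE L)ˣ} (h : g.1.1 = dgz b a) : g⁻¹.1.1 = dgz b a⁻¹ := by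
  have h1 : g.1 = dgU b a := Units.ext h
  have h2 : g⁻¹.1 = (dgU b a)⁻¹ := by
    rw [← h1]
    rfl
  exact congrArg Units.val h2

/-- `t E_β t⁻¹ = a(-β)⁻¹ E_β`. -/
theorem pe_conj_E' {g : GR b L} {a : ι → (EE L)ˣ} (h : g.1.1 = dgz b a) (β : ι) : dgz b a * toA (EE L) (E b β) * dgz b a⁻¹ = (((a (ng P β))⁻¹ : (EE L)ˣ) : EE L) • toA (EE L) (E b β) := by
  have h1 : dgz b a * toA (EE L) (E b β) * dgz b a⁻¹ ∈ gR b (EE L) := by
    have h2 := (GE_Nmz b g.2).2.2 (toA (EE L) (E b β)) ((gR_iff b _).2 ⟨0, Pi.single β 1, by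
      rw [Finset.sum_eq_zero fun i _ => by rw [Pi.zero_apply, zero_smul], zero_add, Finset.sum_eq_single β]
      · rw [Pi.single_eq_same, one_smul]
      · intro γ _ hγ
        rw [Pi.single_eq_of_ne hγ, zero_smul]
      · intro h
        exact absurd (Finset.mem_univ _) h⟩)
    have h3 := h2.1
    have e : g.1⁻¹.1 = dgz b a⁻¹ := pe_inv_mat h
    rw [h, e] at h3
    exact h3
  have hw : HasWt b (P.root β) (dgz b a * toA (EE L) (E b β) * dgz b a⁻¹) := by
    intro r c hrc
    rw [pe_conj_entry] at hrc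
    have h2 : toA (EE L) (E b β) r c ≠ 0 := by
      intro h0
      rw [h0, mul_zero, zero_mul] at hrc
      exact hrc rfl
    exact (HasWt.toA (hasWt_E b β)) r c h2
  rw [gR_root b h1 β hw]
  congr 1
  have h2 : cf b β (dgz b a * toA (EE L) (E b β) * dgz b a⁻¹) = (((a (ng P β))⁻¹ : (EE L)ˣ) : EE L) * cf b β (toA (EE L) (E b β)) := by
    unfold cf
    rw [Finset.mul_sum]
    refine Finset.sum_congr rfl fun j _ => ?_
    rw [pe_conj_entry]
    simp only [Sum.elim_inl, Sum.elim_inr]
    ring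
  rw [h2, cf_E, if_pos rfl, mul_one]

/-- **A diagonal element of the group**: `a(-β) = a(β)⁻¹`. -/
theorem pe_inv {g : GR b L} {a : ι → (EE L)ˣ} (h : g.1.1 = dgz b a) (β : ι) : a (P.reflectionPerm β β) = (a β)⁻¹ := by
  obtain ⟨j, hj⟩ := pe_entry b β
  have h1 := congrFun (congrFun (pe_conj_E' h β) (Sum.inr β)) (Sum.inl j)
  rw [pe_conj_entry, Matrix.smul_apply, smul_eq_mul] at h1
  simp only [Sum.elim_inr, Sum.elim_inl, mul_one] at h1
  have h2 : toA (EE L) (E b β) (Sum.inr β) (Sum.inl j) = ((E b β (Sum.inr β) (Sum.inl j) : ℤ) : EE L) := rfl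
  rw [h2] at h1
  have h3 := pe_int hj h1
  have h4 : a β = (a (ng P β))⁻¹ := Units.ext h3
  rw [h4, inv_inv]

/-- `t E_β t⁻¹ = a(β) E_β`. -/
theorem pe_conj_E {g : GR b L} {a : ι → (EE L)ˣ} (h : g.1.1 = dgz b a) (β : ι) : dgz b a * toA (EE L) (E b β) * dgz b a⁻¹ = (a β : EE L) • toA (EE L) (E b β) := by
  rw [pe_conj_E' h β]
  congr 2
  have h1 := pe_inv h β
  show (a (ng P β))⁻¹ = a β
  rw [show a (ng P β) = (a β)⁻¹ from h1, inv_inv]

end

end Pool.Agent.Lib.L8
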