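import Pool.Agent.Lib.L8.FV5
import Pool.Agent.Lib.L8.MainM

/-!
# L8, version 2, module F (helper67), FV6: the hybrid density theorem with explicit exponents, from `StatementM`
-/

namespace Pool.Agent.Lib.L8

open MeasureTheory Matrix NumberField NumberField.InfinitePlace IsDedekindDomain Pool.Agent.Lib.H89N Pool.Agent.Lib.L1S Topology
open scoped ENNReal Pointwise

noncomputable section

set_option linter.unusedSectionVars false
set_option linter.unusedVariables false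

variable {ι M N : Type} [Fintype ι] [DecidableEq ι] [AddCommGroup M] [Module ℚ M] [AddCommGroup N] [Module ℚ N]
  {P : RootPairing ι ℚ M N} [P.IsCrystallographic] [P.IsReduced] [P.IsIrreducible] [P.IsRootSystem] {b : P.Base}

theorem isHK_eq {F : Type} [RCLike F] {κ : Measure (GF b F)} (h : IsHK b F κ) : κ = (gAD b F).κ := by
  obtain ⟨h1, h2, h3⟩ := h
  have hr : RH (gK b F) κ := ⟨by rw [ae_iff]; exact h2, fun C _ => measure_lt_top κ C, IsProbabilityMeasure.ne_zero κ, h3⟩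
  obtain ⟨c, hc0, hc1, e⟩ := rh_uniq gK_compact.isClosed hr (brj_K (iwG b F)).1
  have h5 : IsProbabilityMeasure (iwG b F).κ := (brj_K (iwG b F)).2
  have h4 : c = 1 := by
    have h6 := congrArg (fun m : Measure (GF b F) => m Set.univ) e
    simp only [Measure.smul_apply, smul_eq_mul] at h6
    rw [measure_univ, measure_univ, mul_one] at h6
    exact h6.symm
  rw [e, h4, one_smul]
  rfl

theorem isIw_eq {F : Type} [RCLike F] {Hp : GF b F → b.support → ℝ} (h : IsIw b F Hp) : Hp = gH b F := by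
  funext g
  obtain ⟨u, hu, k, hk, e⟩ := h g
  have h1 : gH b F g = Hp g + gH b F k := by
    conv_lhs => rw [e]
    rw [mul_assoc, gH_U hu, gH_ex]
  have h2 : gH b F k = 0 := by
    have h3 := gH_K hk (1 : GF b F)
    rwa [one_mul, gH_one] at h3
  rw [h1, h2, add_zero]

theorem sph_eq (F : Type) [RCLike F] (z : b.support → ℂ) (g : GF b F) : Sph b F (gAD b F).κ (gH b F) z g = (gAD b F).Ph z g := by
  unfold Sph AnD.Ph
  refine integral_congr_ae (Filter.Eventually.of_forall fun k => ?_)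
  show Complex.exp (∑ j, (z j + Module.finrank ℝ F) * (gH b F (k * g) j : ℂ)) = Complex.exp (pa z (gH b F (k * g)) + (par (fun _ => dF F) (gH b F (k * g)) : ℝ))
  congr 1
  unfold pa par dF
  push_cast
  rw [← Finset.sum_add_distrib]
  exact Finset.sum_congr rfl fun j _ => by ring

theorem sphV_iff {L : Type} [Field L] [NumberField L] {H : Subgroup (GK b L)} {F : Type} [RCLike F] {e : (b.support → ℝ) → b.support → ℝ} {V : PlH H F e} {z : b.support → ℂ} {f : HRt H → ℂ} (h : SphV V z f) (x : HRt H) (g : GF b F) :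
    ∫ k, f (x * V.j (k * g)) ∂(gAD b F).κ = (gAD b F).Ph z g * f x := by
  obtain ⟨κ, Hp, h1, h2, h3⟩ := h
  have h4 := h3 x g
  rw [isHK_eq h1, isIw_eq h2, sph_eq] at h4
  exact h4

theorem sr_eq (i : b.support) (Λ : b.support → ℝ) : SR b i Λ = ((cw b i : ℤ) : ℝ) * Λ i := sum_phi i Λ

variable {K L : Type} [Field K] [NumberField K] [Field L] [NumberField L] [Algebra K L]

theorem ea_many {a a' : ι → (EE L)ˣ} {p : ℕ} {d : Fin p → ℝ} {Y : Fin p → b.support → ℝ}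
    (h : ∀ β, mixedEmbedding.norm (a' β : EE L) = mixedEmbedding.norm (a β : EE L) * Real.exp (∑ k, d k * pry b (Y k) (Sum.inr β))) (i j : b.support) :
    Ea b a' i j = Ea b a i j * Real.exp (∑ k, d k * (((cw b i : ℤ) : ℝ) * Y k i + ((cw b j : ℤ) : ℝ) * Y k j)) := by
  have h1 : ∀ i : b.support, ∏ β ∈ Phi b i, mixedEmbedding.norm (a' β : EE L) = (∏ β ∈ Phi b i, mixedEmbedding.norm (a β : EE L)) * Real.exp (∑ k, d k * (((cw b i : ℤ) : ℝ) * Y k i)) := fun i => by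
    have h2 : ∑ k, d k * (((cw b i : ℤ) : ℝ) * Y k i) = ∑ β ∈ Phi b i, ∑ k, d k * pry b (Y k) (Sum.inr β) := by
      rw [Finset.sum_comm]
      refine Finset.sum_congr rfl fun k _ => ?_
      rw [← Finset.mul_sum, sum_phi]
    rw [h2, Real.exp_sum, ← Finset.prod_mul_distrib]
    exact Finset.prod_congr rfl fun β _ => h β
  unfold Ea
  rw [h1, h1]
  have h3 : ∑ k, d k * (((cw b i : ℤ) : ℝ) * Y k i + ((cw b j : ℤ) : ℝ) * Y k j) =
      ∑ k, d k * (((cw b i : ℤ) : ℝ) * Y k i) + ∑ k, d k * (((cw b j : ℤ) : ℝ) * Y k j) := by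
    rw [← Finset.sum_add_distrib]
    exact Finset.sum_congr rfl fun k _ => by ring
  rw [h3, Real.exp_add]
  ring

theorem mod_many {a a' : ι → (EE L)ˣ} {e p : ℕ} (he : e ≠ 0) {d : Fin p → ℝ} {Y Z : Fin p → b.support → ℝ} (hZ : ∀ k, ∑ j, Y k j = e * ∑ j, Z k j)
    (h : ∀ β, mixedEmbedding.norm (a' β : EE L) = mixedEmbedding.norm (a β : EE L) * Real.exp (∑ k, d k * pry b (Y k) (Sum.inr β))) :
    (∏ β ∈ Pos b, mixedEmbedding.norm (a' β : EE L)) ^ ((e : ℝ)⁻¹) = (∏ β ∈ Pos b, mixedEmbedding.norm (a β : EE L)) ^ ((e : ℝ)⁻¹) * Real.exp (2 * ∑ k, d k * ∑ j, Z k j) := by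
  have h1 : ∏ β ∈ Pos b, mixedEmbedding.norm (a' β : EE L) = (∏ β ∈ Pos b, mixedEmbedding.norm (a β : EE L)) * Real.exp (e * (2 * ∑ k, d k * ∑ j, Z k j)) := by
    have h2 : (e : ℝ) * (2 * ∑ k, d k * ∑ j, Z k j) = ∑ β ∈ Pos b, ∑ k, d k * pry b (Y k) (Sum.inr β) := by
      rw [Finset.sum_comm, Finset.mul_sum, Finset.mul_sum]
      refine Finset.sum_congr rfl fun k _ => ?_
      rw [← Finset.mul_sum, ig19b_sum, hZ]
      ring
    rw [h2, Real.exp_sum, ← Finset.prod_mul_distrib]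
    exact Finset.prod_congr rfl fun β _ => h β
  have he' : (e : ℝ) ≠ 0 := by exact_mod_cast he
  rw [h1, Real.mul_rpow (Finset.prod_nonneg fun _ _ => mixedEmbedding.norm_nonneg _) (Real.exp_pos _).le, ← Real.exp_mul]
  congr 2
  field_simp

theorem sz4_mono {𝔫 : Ideal (𝓞 K)} {v : HeightOneSpectrum (𝓞 K)} {r s : ℕ} {c c' : b.support → ℤ} {R : b.support → ℝ} {E E' : b.support → b.support → ℝ} (h : Sz4 b L 𝔫 v r s c c' R E)
    (h0 : ∀ i j, 0 ≤ E i j) (h1 : ∀ i j, Opp b i j → E i j ≤ E' i j) : Sz4 b L 𝔫 v r s c c' R E' := by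
  intro i j hO
  rcases h i j hO with h2 | ⟨l, T, hT, h2⟩
  · left
    exact h2.trans (mul_le_mul_of_nonneg_left (h1 i j hO) (by positivity))
  · right
    refine ⟨l, T, hT, h2.trans (mul_le_mul_of_nonneg_left (pow_le_pow_left₀ (h0 i j) (h1 i j hO) T) ?_)⟩
    exact pow_nonneg (zpow_nonneg (by positivity) _) _

/-- From the two inequalities of M to the real inequality. -/
theorem fv_enn {S X Y : ℝ} {J n : ℝ≥0∞} (hn : n ≠ 0) (hn' : n ≠ ⊤) (hX : 0 ≤ X) (hY : 0 ≤ Y) (h1 : ENNReal.ofReal S * n ≤ ENNReal.ofReal X * J) (h2 : J ≤ ENNReal.ofReal Y * n) : S ≤ X * Y := by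
  have h3 : ENNReal.ofReal S * n ≤ ENNReal.ofReal (X * Y) * n := by
    refine h1.trans ((mul_le_mul_right h2 _).trans (le_of_eq ?_))
    rw [ENNReal.ofReal_mul hX, mul_assoc]
  have h4 : ENNReal.ofReal S ≤ ENNReal.ofReal (X * Y) := (ENNReal.mul_le_mul_iff_left hn hn').1 h3
  exact (ENNReal.ofReal_le_ofReal_iff (mul_nonneg hX hY)).1 h4

/-- **The hybrid density theorem with explicit exponents**, from `StatementM`. -/
theorem statementV_of (Q : QS b K L) [IsGalois K L] (hM : StatementM Q) : StatementV Q := by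
  intro p Fv _ V Λ hΛ ε hε T Ω K₀ hΩ hK₀
  have he : Module.finrank K L ≠ 0 := by
    have : FiniteDimensional K L := Module.Finite.of_restrictScalars_finite ℚ K L
    exact Module.finrank_pos.ne'
  have htr : ∀ y : b.support → ℝ, ∑ j, trQ Q y j = (Module.finrank K L : ℝ) * ∑ j, y j := fun y => by
    have : FiniteDimensional K L := Module.Finite.of_restrictScalars_finite ℚ K L
    rw [trQ_sum, ← Nat.card_eq_fintype_card, IsGalois.card_aut_eq_finrank]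
  obtain ⟨lw, lM, Z', h1, h2, _⟩ := adapted (b := b) (Z := 0) (fun i => by unfold al; simp)
  obtain ⟨Ω', hΩ', C₁, hC₁, hmany⟩ := fv_many h1 h2 hε T p Fv V Λ hΛ Ω hΩ
  obtain ⟨C₂, hC₂⟩ := hM Ω' K₀ hΩ' hK₀
  refine ⟨C₁ * (|C₂| * |C₂|), ?_⟩
  intro v 𝔫 h0 hv r s c hcQ hc hrs π hπ h hh1 hh2 θ hθ t a ht x hx μ τ _ w Lm B hB hMea R hR m hsz φ cφ sφ ν _ D hD n F c' κ t' hF hort z hzT hz D' hD' g
  have ci : Countable (HQ Q) := th_count (HQ Q)
  have hdΓ : Dsc (HQ Q) (GamQ (HQ Q) 𝔫 v r s) := dsc_Gam (HQ Q) 𝔫 v r s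
  obtain ⟨D₁, hD₁⟩ := hdΓ.sfU
  have hcc0 : CCH (HQ Q) (GamQ (HQ Q) 𝔫 v r s) := by
    have h2 : CCH (HQ Q) (cjG (GamQ (HQ Q) 𝔫 v r s) 1) := qa_cc Q h0 v r s 1
    rw [cjG_one] at h2
    exact h2
  have hone : ∀ w : HUH (HQ Q), (w : HQ Q) ∈ GamQ (HQ Q) 𝔫 v r s → psT (HQ Q) θ (kUH (HQ Q) w) = 1 := fun w hw =>
    hθ.2 _ ((th2_mem_imU (HQ Q) (GamQ (HQ Q) 𝔫 v r s) _).2 ⟨w, hw, rfl⟩)
  have pD : ν D₁ ≠ 0 := th2_pos (HQ Q) hD₁ ν
  have fD : ν D₁ ≠ ⊤ := th2_fin (HQ Q) hcc0 hD₁ ν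
  have hvD : ν D' = ν D₁ := th2_volU (HQ Q) ν hD₁ hD'
  have hq : (0 : ℝ) ≤ (Ideal.absNorm v.asIdeal : ℝ) ^ (∑ β ∈ Pos b, pr b c (Sum.inr β)) := zpow_nonneg (Nat.cast_nonneg _) _
  have hLm : 0 ≤ Lm ^ (2 * m) := by
    rw [pow_mul]
    positivity
  have hI : 0 ≤ ∫ y, ‖φ y‖ ^ 2 ∂μ := integral_nonneg fun y => sq_nonneg _
  obtain ⟨dl, hdl⟩ : ∃ dl : (ι → (EE L)ˣ) → ℝ, dl = fun a => (∏ β ∈ Pos b, mixedEmbedding.norm (a β : EE L)) ^ ((Module.finrank K L : ℝ)⁻¹) := ⟨_, rfl⟩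
  have hdl0 : ∀ a, 0 ≤ dl a := fun a => by
    rw [hdl]
    exact Real.rpow_nonneg (Finset.prod_nonneg fun β _ => mixedEmbedding.norm_nonneg _) _
  have hN : (0 : ℝ) ≤ (Ideal.absNorm 𝔫 : ℝ) ^ (Pos b).card := by positivity
  have key := hmany (GamQ (HQ Q) 𝔫 v r s) hcc0 θ hone ν D₁ hD₁ D' hD' t a ht x hx R hR n F (fun l => (hF l).cont) (fun l => (hF l).inv) z hzT (fun k l y g => sphV_iff (hz k l) y g)
    (fun l => ‖c' l * κ l ^ m * t' l‖ ^ 2) (fun l => sq_nonneg _)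
    ((|C₂| * |C₂|) * Lm ^ (2 * m) * (Ideal.absNorm v.asIdeal : ℝ) ^ (∑ β ∈ Pos b, pr b c (Sum.inr β)) * (∫ y, ‖φ y‖ ^ 2 ∂μ) * (dl a / (Ideal.absNorm 𝔫 : ℝ) ^ (Pos b).card))
    (by
      have := hdl0 a
      positivity) (fun Y hY t₁ a₁ ht₁ hn x₁ hx₁ => by
      have hsz' : Sz4 b L 𝔫 v r s c c (fun i => ∏ w, B i w ^ (2 * m * mult w)) (Ea b a₁) := by
        refine sz4_mono hsz (fun i j => mul_nonneg ?_ (Real.exp_pos _).le) fun i j hO => ?_
        · exact mul_nonneg (Finset.prod_nonneg fun β _ => mixedEmbedding.norm_nonneg _) (Finset.prod_nonneg fun β _ => mixedEmbedding.norm_nonneg _)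
        · rw [ea_many hn]
          refine mul_le_mul_of_nonneg_left (Real.exp_le_exp.2 ?_) (mul_nonneg (Finset.prod_nonneg fun β _ => mixedEmbedding.norm_nonneg _) (Finset.prod_nonneg fun β _ => mixedEmbedding.norm_nonneg _))
          rw [← Finset.sum_neg_distrib]
          refine Finset.sum_le_sum fun k _ => ?_
          rw [sr_eq, sr_eq]
          have e9 := trQ_opp Q hO (hΛ k) (hR k) (lw ++ lM) (hY k)
          have e10 : (0 : ℝ) ≤ dF (Fv k) := Nat.cast_nonneg _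
          have e11 := mul_le_mul_of_nonneg_left e9 e10
          refine le_trans (le_of_eq ?_) e11
          unfold dF
          ring
      obtain ⟨A1, A2⟩ := hC₂ v 𝔫 h0 hv r s c hcQ hc hrs π hπ h hh1 hh2 θ hθ t₁ a₁ ht₁ x₁ hx₁ μ τ w Lm B hB hMea m hsz' φ cφ sφ ν D hD n F c' κ t' hF hort D' hD'
      have hX : 0 ≤ |C₂| * Lm ^ (2 * m) * (Ideal.absNorm v.asIdeal : ℝ) ^ (∑ β ∈ Pos b, pr b c (Sum.inr β)) := by positivity
      have hY' : 0 ≤ |C₂| * (∫ y, ‖φ y‖ ^ 2 ∂μ) * dl a₁ / (Ideal.absNorm 𝔫 : ℝ) ^ (Pos b).card := by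
        have := hdl0 a₁
        positivity
      have B1 : ENNReal.ofReal (∑ l, ‖c' l * κ l ^ m * t' l * WhH (HQ Q) ν D' θ (F l) x₁‖ ^ 2) * ν D' ≤ ENNReal.ofReal (|C₂| * Lm ^ (2 * m) * (Ideal.absNorm v.asIdeal : ℝ) ^ (∑ β ∈ Pos b, pr b c (Sum.inr β))) *
          ∫⁻ u : UHR (HQ Q), ∫⁻ z, ‖φ (x₁⁻¹ * z)‖ₑ * ‖φ (x₁⁻¹ * (u * z))‖ₑ ∂μ ∂ν := by
        refine A1.trans (mul_le_mul_left (ENNReal.ofReal_le_ofReal ?_) _)
        exact mul_le_mul_of_nonneg_right (mul_le_mul_of_nonneg_right (le_abs_self C₂) hLm) hq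
      have B2 : ∫⁻ u : UHR (HQ Q), ∫⁻ z, ‖φ (x₁⁻¹ * z)‖ₑ * ‖φ (x₁⁻¹ * (u * z))‖ₑ ∂μ ∂ν ≤ ENNReal.ofReal (|C₂| * (∫ y, ‖φ y‖ ^ 2 ∂μ) * dl a₁ / (Ideal.absNorm 𝔫 : ℝ) ^ (Pos b).card) * ν D' := by
        refine A2.trans (mul_le_mul_left (ENNReal.ofReal_le_ofReal ?_) _)
        rw [hdl]
        refine div_le_div_of_nonneg_right ?_ hN
        have h3 := hdl0 a₁
        rw [hdl] at h3
        exact mul_le_mul_of_nonneg_right (mul_le_mul_of_nonneg_right (le_abs_self C₂) hI) h3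
      have B3 := fv_enn (by rw [hvD]; exact pD) (by rw [hvD]; exact fD) hX hY' B1 B2
      have e0 : dl a₁ = dl a * Real.exp (2 * ∑ k, dF (Fv k) * ∑ j, Y k j) := by
        rw [hdl]
        exact mod_many he (fun k => htr (Y k)) hn
      rw [e0] at B3
      refine le_trans (le_of_eq (Finset.sum_congr rfl fun l _ => ?_)) (B3.trans (le_of_eq ?_))
      · rw [norm_mul (c' l * κ l ^ m * t' l), mul_pow]
        rfl
      · ring) g
  refine le_trans (le_of_eq (Finset.sum_congr rfl fun l _ => ?_)) (key.trans (le_of_eq ?_))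
  · rw [norm_mul (c' l * κ l ^ m * t' l), mul_pow]
    rfl
  · rw [hdl]
    ring

end

end Pool.Agent.Lib.L8
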