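import Pool.Agent.Lib.L8.SA1

/-!
# L8, file SA2 (helper67): spherical eigenfunctions, module (S), with the average over a compact set `K`
-/

namespace Pool.Agent.Lib.L8

open MeasureTheory Matrix NumberField IsDedekindDomain Pool.Agent.Lib.H89N Pool.Agent.Lib.H33W Pool.Agent.Lib.H67G Pool.Agent.Lib.L1S Topology
open scoped ENNReal Pointwise

noncomputable section

variable {ι M N : Type} [Fintype ι] [DecidableEq ι] [AddCommGroup M] [Module ℚ M] [AddCommGroup N] [Module ℚ N]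
  {P : RootPairing ι ℚ M N} [P.IsCrystallographic] {b : P.Base} {L : Type} [Field L] [NumberField L] (H : Subgroup (GK b L))

/-- **Module (S)**: `F_l` continuous and invariant under `Γ`, `∫_K F_l(x k y) dk = ω_l F_l(x)`. If the inequality `∑ |W_l|² ≤ β²` holds at the points `x k_1 y k_2 y .. k_M y`, and `∫_K β(x k y) dk ≤ Ξ β(x)`, then
`∑ |ω_l|^(2M) |W_l(x)|² ≤ (Ξ^M β(x))²`. -/
theorem sp_K {Γ : Subgroup H} (hcc : CCH H Γ) {θ : b.support → (EE L →ₗ[ℝ] ℝ)} (one : ∀ w : HUH H, (w : H) ∈ Γ → psT H θ (kUH H w) = 1) {ν : Measure (UHR H)} [ν.IsHaarMeasure]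
    {D₁ : Set (UHR H)} (hD₁ : SF (Γ.subgroupOf (HUH H)) D₁) {D' : Set (UHR H)} (hD' : IsFundamentalDomain (imU H Γ) D' ν)
    {κ : Measure (HRt H)} [IsFiniteMeasure κ] {K : Set (HRt H)} (cK : IsCompact K) (tK : κ Kᶜ = 0) (y : HRt H) {m : ℕ} {F : Fin m → HRt H → ℂ} (cF : ∀ l, Continuous (F l))
    (iF : ∀ l, ∀ γ ∈ imH H Γ, ∀ x, F l (γ * x) = F l x) {om : Fin m → ℂ} (hκ : ∀ l x, ∫ k, F l (x * k * y) ∂κ = om l * F l x)
    {β : HRt H → ℝ} (mb : Measurable β) (b0 : ∀ x, 0 ≤ β x) {Ξ : ℝ} (hΞ : 0 ≤ Ξ) (ib : ∀ x, Integrable (fun k => β (x * k * y)) κ) (hb : ∀ x, ∫ k, β (x * k * y) ∂κ ≤ Ξ * β x) (Mc : ℕ)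
    {x : HRt H} (hx : ∀ z ∈ (K * {y}) ^ Mc, ∑ l, ‖WhT H ν D' θ (F l) (x * z)‖ ^ 2 ≤ β (x * z) ^ 2) :
    ∑ l, ‖om l‖ ^ (2 * Mc) * ‖WhT H ν D' θ (F l) x‖ ^ 2 ≤ (Ξ ^ Mc * β x) ^ 2 := by
  have mt : Measurable fun k : HRt H => k * y := measurable_mul_const y
  have hc : IsCompact (K * {y}) := cK.mul isCompact_singleton
  have mx : ∀ x : HRt H, Measurable fun k : HRt H => x * k := fun x => measurable_const_mul x
  have e0 : ∀ {g : HRt H → ℂ}, Measurable g → ∀ x, ∫ k, g (x * k) ∂(κ.map fun k => k * y) = ∫ k, g (x * k * y) ∂κ := fun {g} mg x => by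
    have h1 : Measurable fun k => g (x * k) := mg.comp (mx x)
    rw [integral_map mt.aemeasurable h1.aestronglyMeasurable]
    exact integral_congr_ae (Filter.Eventually.of_forall fun k => by
      show g (x * (k * y)) = g (x * k * y)
      rw [mul_assoc])
  have mβ : ∀ x, Measurable fun k => β (x * k) := fun x => mb.comp (mx x)
  refine sp_TH H hcc one hD₁ hD' (τ := κ.map fun k => k * y) hc ?_ cF iF (fun l x => ?_) b0 hΞ (fun x => ?_) (fun x => ?_) Mc hx
  · rw [Measure.map_apply mt hc.measurableSet.compl]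
    refine measure_mono_null (fun k hk => ?_) tK
    intro hk'
    exact hk (Set.mul_mem_mul hk' rfl)
  · rw [e0 (cF l).measurable x, hκ l x]
  · rw [integrable_map_measure (mβ x).aestronglyMeasurable mt.aemeasurable]
    refine (ib x).congr (Filter.Eventually.of_forall fun k => ?_)
    show β (x * k * y) = β (x * (k * y))
    rw [mul_assoc]
  · rw [integral_map mt.aemeasurable (mβ x).aestronglyMeasurable]
    refine le_trans (le_of_eq ?_) (hb x)
    exact integral_congr_ae (Filter.Eventually.of_forall fun k => by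
      show β (x * (k * y)) = β (x * k * y)
      rw [mul_assoc])

end

end Pool.Agent.Lib.L8
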