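import Pool.Agent.Lib.L8.FV2
import Pool.Agent.Lib.L8.SA2
import Pool.Agent.Lib.L8.E7C

/-!
# L8, version 2, module F (helper67), FV3: explicit exponents at one place, the core
-/

namespace Pool.Agent.Lib.L8

open MeasureTheory Matrix NumberField IsDedekindDomain Pool.Agent.Lib.H89N Pool.Agent.Lib.L1S Topology
open scoped ENNReal Pointwise

noncomputable section

set_option linter.unusedSectionVars false
set_option linter.unusedVariables false

variable {ι M N : Type} [Fintype ι] [DecidableEq ι] [AddCommGroup M] [Module ℚ M] [AddCommGroup N] [Module ℚ N]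
  {P : RootPairing ι ℚ M N} [P.IsCrystallographic] [P.IsReduced] [P.IsIrreducible] [P.IsRootSystem] {b : P.Base}
  {L : Type} [Field L] [NumberField L]

theorem fv_scale {H : Subgroup (GK b L)} (ν : Measure (UHR H)) (D : Set (UHR H)) (θ : b.support → (EE L →ₗ[ℝ] ℝ)) (c : ℂ) (f : HRt H → ℂ) (x : HRt H) :
    WhT H ν D θ (fun y => c * f y) x = c * WhT H ν D θ f x := by
  unfold WhT
  rw [setAverage_eq, setAverage_eq]
  simp only [mul_assoc]
  rw [integral_const_mul, mul_smul_comm]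

variable {H : Subgroup (GK b L)} {F : Type} [RCLike F] {e : (b.support → ℝ) → b.support → ℝ} (V : PlH H F e) [MeasurableSpace (GF b F)] [BorelSpace (GF b F)]

/-- `∫_K e^(ρ(Hp(g k y))) dk = e^(ρ(Hp(g))) Ξ(y)`. -/
theorem fv_xi (D : AnD (GF b F) b.support) (g y : GF b F) : ∫ k, Real.exp (par D.m (D.Hp (g * k * y))) ∂D.κ = Real.exp (par D.m (D.Hp g)) * D.Xi y := by
  obtain ⟨u, hu, t, ht, k₀, hk₀, he⟩ := D.iw g
  have h1 : ∀ k, D.Hp (g * k * y) = D.Hp g + D.Hp (k₀ * k * y) := fun k => by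
    have e1 : g * k * y = u * (t * (k₀ * k * y)) := by rw [he]; simp only [mul_assoc]
    have e2 : D.Hp g = D.lg t := by
      rw [he, mul_assoc, D.hpU u hu, D.hpT t ht, e1_Hp_K hk₀, add_zero]
    rw [e1, D.hpU u hu, D.hpT t ht, e2]
  have h2 : Continuous fun k : GF b F => Real.exp (par D.m (D.Hp (k * y))) := Real.continuous_exp.comp ((e1_par_cont D.m).comp (D.cont.comp (continuous_mul_const y)))
  have h3 : ∫ k, Real.exp (par D.m (D.Hp (k₀ * k * y))) ∂D.κ = ∫ k, Real.exp (par D.m (D.Hp (k * y))) ∂D.κ := by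
    conv_rhs => rw [← D.lK k₀ hk₀]
    rw [integral_map (measurable_const_mul k₀).aemeasurable h2.measurable.aestronglyMeasurable]
  have h4 : D.Xi y = ∫ k, Real.exp (par D.m (D.Hp (k * y))) ∂D.κ := by
    unfold AnD.Xi AnD.Pr AnD.hr
    refine integral_congr_ae (Filter.Eventually.of_forall fun k => ?_)
    have h5 : par (0 : b.support → ℝ) (D.Hp (k * y)) = 0 := by
      unfold par
      simp
    show Real.exp (par 0 (D.Hp (k * y)) + par D.m (D.Hp (k * y))) = _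
    rw [h5, zero_add]
  rw [h4, ← h3, ← integral_const_mul]
  refine integral_congr_ae (Filter.Eventually.of_forall fun k => ?_)
  show Real.exp (par D.m (D.Hp (g * k * y))) = Real.exp (par D.m (D.Hp g)) * Real.exp (par D.m (D.Hp (k₀ * k * y)))
  rw [h1, e1_par_add, Real.exp_add]

/-- **One step**: the inequality for the spherical functions, at `y ∈ G(F)`. -/
theorem fv_step (D : AnD (GF b F) b.support) (hK : D.K = gK b F) (hHp : D.Hp = gH b F) {Ω : Set (GL (I b) (EE L))} {Γ : Subgroup H} (hcc : CCH H Γ) {θ : b.support → (EE L →ₗ[ℝ] ℝ)}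
    (one : ∀ w : HUH H, (w : H) ∈ Γ → psT H θ (kUH H w) = 1) {ν : Measure (UHR H)} [ν.IsHaarMeasure] {D₁ : Set (UHR H)} (hD₁ : H33W.SF (Γ.subgroupOf (HUH H)) D₁)
    {D' : Set (UHR H)} (hD' : IsFundamentalDomain (imU H Γ) D' ν) {t : HRt H} {a : ι → (EE L)ˣ} (ht : t.1.1.1 = dgz b a) {x ω : HRt H} {u : UHR H} (hx : x = u.1 * t * ω) (hω : ω.1.1 ∈ Ω)
    {n : ℕ} {f : Fin n → HRt H → ℂ} (cf : ∀ l, Continuous (f l)) (inf : ∀ l, ∀ γ ∈ imH H Γ, ∀ y, f l (γ * y) = f l y)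
    {z : Fin n → b.support → ℂ} (hz : ∀ l y g, ∫ k, f l (y * V.j (k * g)) ∂D.κ = D.Ph (z l) g * f l y) {c : Fin n → ℝ} (hc : ∀ l, 0 ≤ c l) {B : ℝ} (hB : 0 ≤ B) (y : GF b F)
    (hb : ∀ k ∈ gK b F, ∑ l, c l * ‖WhT H ν D' θ (f l) (x * V.j (k * y))‖ ^ 2 ≤ B * Real.exp (2 * par D.m (gH b F (V.p ω * (k * y))))) :
    ∑ l, ‖D.Ph (z l) y‖ ^ 2 * (c l * ‖WhT H ν D' θ (f l) x‖ ^ 2) ≤ B * Real.exp (2 * par D.m (gH b F (V.p ω))) * D.Xi y ^ 2 := by
  obtain ⟨β, hβ⟩ : ∃ β : HRt H → ℝ, β = fun x' => √B * Real.exp (par D.m (D.Hp (V.p ((u.1 * t)⁻¹ * x')))) := ⟨_, rfl⟩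
  have cβ : Continuous β := by
    rw [hβ]
    exact continuous_const.mul (Real.continuous_exp.comp ((e1_par_cont D.m).comp (D.cont.comp (V.p_cont.comp (continuous_const_mul _)))))
  have β0 : ∀ x', 0 ≤ β x' := fun x' => by
    rw [hβ]
    positivity
  have hΞ : 0 ≤ D.Xi y := (e1_Pr_pos 0 y).le
  have mj : Measurable V.j := V.j_cont.measurable
  have cK : IsCompact (V.j '' (gK b F : Set (GF b F))) := gK_compact.image V.j_cont
  have hprob : IsProbabilityMeasure (D.κ.map V.j) := Measure.isProbabilityMeasure_map mj.aemeasurable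
  have tK : (D.κ.map V.j) (V.j '' (gK b F : Set (GF b F)))ᶜ = 0 := by
    rw [Measure.map_apply mj cK.measurableSet.compl]
    refine measure_mono_null (fun k hk => ?_) (ae_iff.1 D.aeK)
    show k ∉ D.K
    rw [hK]
    exact fun hk' => hk ⟨k, hk', rfl⟩
  have cβ' : ∀ x', Continuous fun k : HRt H => β (x' * k * V.j y) := fun x' => cβ.comp ((continuous_const_mul x').mul continuous_const)
  have ib : ∀ x', Integrable (fun k => β (x' * k * V.j y)) (D.κ.map V.j) := fun x' => by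
    obtain ⟨C, hC⟩ := cK.exists_bound_of_continuousOn (cβ' x').continuousOn
    refine (integrable_const C).mono' (cβ' x').measurable.aestronglyMeasurable ?_
    have h1 : ∀ᵐ k ∂(D.κ.map V.j), k ∈ V.j '' (gK b F : Set (GF b F)) := by
      rw [ae_iff]
      exact tK
    filter_upwards [h1] with k hk
    exact hC k hk
  have eβ : ∀ x', ∫ k, β (x' * k * V.j y) ∂(D.κ.map V.j) = D.Xi y * β x' := fun x' => by
    rw [integral_map mj.aemeasurable (cβ' x').measurable.aestronglyMeasurable, hβ]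
    show ∫ k, √B * Real.exp (par D.m (D.Hp (V.p ((u.1 * t)⁻¹ * (x' * V.j k * V.j y))))) ∂D.κ = D.Xi y * (√B * Real.exp (par D.m (D.Hp (V.p ((u.1 * t)⁻¹ * x')))))
    rw [integral_const_mul]
    have h1 : ∀ k, V.p ((u.1 * t)⁻¹ * (x' * V.j k * V.j y)) = V.p ((u.1 * t)⁻¹ * x') * k * y := fun k => by
      rw [← mul_assoc, ← mul_assoc, map_mul, map_mul, V.p_j, V.p_j]
    simp only [h1]
    rw [fv_xi]
    ring
  have key := sp_K H hcc one hD₁ hD' (κ := D.κ.map V.j) cK tK (V.j y) (F := fun l x' => ((√(c l) : ℝ) : ℂ) * f l x') (fun l => continuous_const.mul (cf l))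
    (fun l γ hγ x' => by rw [inf l γ hγ x']) (om := fun l => D.Ph (z l) y) (fun l x' => ?_) cβ.measurable β0 hΞ ib (fun x' => (eβ x').le) 1 (x := x) ?_
  · have e1 : ∀ l, ‖D.Ph (z l) y‖ ^ (2 * 1) * ‖WhT H ν D' θ (fun x' => ((√(c l) : ℝ) : ℂ) * f l x') x‖ ^ 2 = ‖D.Ph (z l) y‖ ^ 2 * (c l * ‖WhT H ν D' θ (f l) x‖ ^ 2) := fun l => by
      rw [fv_scale, norm_mul, mul_pow, Complex.norm_real, Real.norm_of_nonneg (Real.sqrt_nonneg _), Real.sq_sqrt (hc l), mul_one]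
    simp only [e1] at key
    refine key.trans (le_of_eq ?_)
    have e2 : V.p ((u.1 * t)⁻¹ * x) = V.p ω := by
      rw [hx, inv_mul_cancel_left]
    rw [pow_one, hβ]
    show (D.Xi y * (√B * Real.exp (par D.m (D.Hp (V.p ((u.1 * t)⁻¹ * x)))))) ^ 2 = _
    rw [e2, mul_pow, mul_pow, Real.sq_sqrt hB, ← Real.exp_nat_mul, hHp]
    push_cast
    ring
  · have c1 : Continuous fun k : HRt H => ((√(c l) : ℝ) : ℂ) * f l (x' * k * V.j y) := continuous_const.mul ((cf l).comp ((continuous_const_mul x').mul continuous_const))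
    rw [integral_map mj.aemeasurable c1.measurable.aestronglyMeasurable, integral_const_mul]
    have h1 : ∀ k, x' * V.j k * V.j y = x' * V.j (k * y) := fun k => by rw [map_mul, mul_assoc]
    simp only [h1]
    rw [hz l x' y]
    ring
  · intro z' hz'
    rw [pow_one] at hz'
    obtain ⟨k', ⟨k, hk, rfl⟩, y', hy', rfl⟩ := Set.mem_mul.1 hz'
    rw [Set.mem_singleton_iff.1 hy']
    have h1 : V.j k * V.j y = V.j (k * y) := (map_mul _ _ _).symm
    have e1 : ∀ l, ‖WhT H ν D' θ (fun x' => ((√(c l) : ℝ) : ℂ) * f l x') (x * (V.j k * V.j y))‖ ^ 2 = c l * ‖WhT H ν D' θ (f l) (x * V.j (k * y))‖ ^ 2 := fun l => by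
      rw [fv_scale, norm_mul, mul_pow, Complex.norm_real, Real.norm_of_nonneg (Real.sqrt_nonneg _), Real.sq_sqrt (hc l), h1]
    simp only [e1]
    refine (hb k hk).trans (le_of_eq ?_)
    have e2 : V.p ((u.1 * t)⁻¹ * (x * (V.j k * V.j y))) = V.p ω * (k * y) := by
      rw [hx, h1, mul_assoc, inv_mul_cancel_left, map_mul, V.p_j]
    rw [hβ]
    show _ = (√B * Real.exp (par D.m (D.Hp (V.p ((u.1 * t)⁻¹ * (x * (V.j k * V.j y))))))) ^ 2
    rw [e2, mul_pow, Real.sq_sqrt hB, ← Real.exp_nat_mul, hHp]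
    push_cast
    ring

/-- **Explicit exponents at one place, the core**: if the inequality holds at the points of `U (t j(exp(Y))) Ω'` with the bound `B e^(2 ρ(Y))`, for `Y ≥ R w₀(Λ)`, then it holds at `x ∈ U t Ω` with the weights
`exp(2 R (Re(w z_l)(Λ) - ε))`. -/
theorem fv_core (D : AnD (GF b F) b.support) (hK : D.K = gK b F) (hHp : D.Hp = gH b F)
    (S : Steps D) (w0 : (b.support → ℝ) → b.support → ℝ) (hO : ∀ Z : b.support → ℝ, (∀ i, 0 ≤ S.al i Z) → ∃ O : OppD S, O.w0 = w0 ∧ Nonempty (ParD O Z))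
    {Λ : b.support → ℝ} (hΛ : ∀ i, 0 ≤ S.al i Λ) (h0 : Λ = 0 ∨ ∀ j, w0 Λ j < 0) {ε : ℝ} (hε : 0 < ε) (T : ℝ) {Ω : Set (GL (I b) (EE L))} (hΩ : IsCompact Ω) :
    ∃ C : ℝ, 0 < C ∧ ∀ (Γ : Subgroup H), CCH H Γ → ∀ θ : b.support → (EE L →ₗ[ℝ] ℝ), (∀ w : HUH H, (w : H) ∈ Γ → psT H θ (kUH H w) = 1) → ∀ (ν : Measure (UHR H)) [ν.IsHaarMeasure]
      (D₁ : Set (UHR H)), H33W.SF (Γ.subgroupOf (HUH H)) D₁ → ∀ D' : Set (UHR H), IsFundamentalDomain (imU H Γ) D' ν →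
      ∀ (t : HRt H) (a : ι → (EE L)ˣ), t.1.1.1 = dgz b a → ∀ x : HRt H, (∃ u : UHR H, ∃ ω ∈ Ω, x.1.1.1 = u.1.1.1.1 * t.1.1.1 * ω.1) →
      ∀ R : ℝ, 0 ≤ R → ∀ (n : ℕ) (f : Fin n → HRt H → ℂ), (∀ l, Continuous (f l)) → (∀ l, ∀ γ ∈ imH H Γ, ∀ y, f l (γ * y) = f l y) →
      ∀ z : Fin n → b.support → ℂ, (∀ l j, ‖z l j‖ ≤ T) → (∀ l y g, ∫ k, f l (y * V.j (k * g)) ∂D.κ = D.Ph (z l) g * f l y) →
      ∀ c : Fin n → ℝ, (∀ l, 0 ≤ c l) → ∀ B : ℝ, 0 ≤ B →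
      (∀ Y : b.support → ℝ, (∀ j, R * w0 Λ j ≤ Y j) → ∀ x' : HRt H, (∃ u : UHR H, ∃ ω ∈ Ω ∪ V.Om Ω, x'.1.1.1 = u.1.1.1.1 * (t * V.j (gex b F Y)).1.1.1 * ω.1) →
        ∑ l, c l * ‖WhT H ν D' θ (f l) x'‖ ^ 2 ≤ B * Real.exp (2 * par D.m Y)) →
      ∀ w : Fin n → List b.support, ∑ l, Real.exp (2 * (R * (par (zre (S.zL (z l) (w l))) Λ - ε))) * (c l * ‖WhT H ν D' θ (f l) x‖ ^ 2) ≤ C * B := by
  have hlc : LocallyCompactSpace (GF b F) := inferInstance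
  have hsc : SecondCountableTopology (GF b F) := inferInstance
  obtain ⟨O, hO0, _⟩ := hO 0 (fun i => by unfold Steps.al; simp)
  obtain ⟨c₀, hc₀, hbd⟩ := V.bd hΩ
  obtain ⟨C₁, hC₁, hmain⟩ := e7_main S w0 hO hΛ hε T
  obtain ⟨M₁, hM₁, hbz⟩ := e6_bdd O T
  have hΛ0 : ∀ j, 0 ≤ Λ j := O.dom_nonneg Λ hΛ
  have hw0 : ∀ j, w0 Λ j ≤ 0 := by
    rw [← hO0]
    exact O.w0_neg Λ hΛ0
  obtain ⟨Q, hQ⟩ : ∃ Q : ℝ, Q = ∑ j, M₁ * Λ j := ⟨_, rfl⟩
  have hQ0 : 0 ≤ Q := by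
    rw [hQ]
    exact Finset.sum_nonneg fun j _ => mul_nonneg hM₁ (hΛ0 j)
  have hp : ∀ z : b.support → ℂ, (∀ j, ‖z j‖ ≤ T) → ∀ w, par (zre (S.zL z w)) Λ ≤ Q := fun z hz w => by
    rw [hQ]
    unfold par
    refine Finset.sum_le_sum fun j _ => mul_le_mul_of_nonneg_right ?_ (hΛ0 j)
    exact (Complex.re_le_norm _).trans (hbz z hz w j)
  obtain ⟨m₁, hm₁⟩ : ∃ m₁ : ℝ, m₁ = ∑ j, |D.m j| * c₀ := ⟨_, rfl⟩
  -- the shift
  obtain ⟨c₁, hc₁, hsh⟩ : ∃ c₁ : ℝ, 0 ≤ c₁ ∧ (Λ ≠ 0 → ∀ j, c₀ ≤ c₁ * (-w0 Λ j)) := by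
    by_cases hΛ1 : Λ = 0
    · exact ⟨0, le_rfl, fun h => absurd hΛ1 h⟩
    have h1 : ∀ j, w0 Λ j < 0 := h0.resolve_left hΛ1
    refine ⟨∑ j, c₀ / (-w0 Λ j), Finset.sum_nonneg fun j _ => div_nonneg hc₀ (by linarith [h1 j]), fun _ j => ?_⟩
    have h2 : c₀ / (-w0 Λ j) ≤ ∑ j, c₀ / (-w0 Λ j) := Finset.single_le_sum (f := fun j => c₀ / (-w0 Λ j)) (fun j _ => div_nonneg hc₀ (by linarith [h1 j])) (Finset.mem_univ j)
    have h3 : 0 < -w0 Λ j := by linarith [h1 j]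
    calc c₀ = c₀ / (-w0 Λ j) * (-w0 Λ j) := (div_mul_cancel₀ _ h3.ne').symm
      _ ≤ _ := mul_le_mul_of_nonneg_right h2 h3.le
  refine ⟨Real.exp (2 * (c₁ * Q)) * (C₁ * Real.exp (2 * m₁) + 1), by positivity, ?_⟩
  intro Γ hcc θ one ν _ D₁ hD₁ D' hD' t a ht x hx R hR n f cf inf z hzT hz c hc B hB hyp w
  obtain ⟨u, ω, hω, hxe⟩ := pl_x hx
  -- the inequality at `x`
  have hat : ∑ l, c l * ‖WhT H ν D' θ (f l) x‖ ^ 2 ≤ B := by
    have h1 := hyp 0 (fun j => mul_nonpos_of_nonneg_of_nonpos hR (hw0 j)) x (by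
      obtain ⟨u', ω', hω', hx'⟩ := hx
      refine ⟨u', ω', Or.inl hω', ?_⟩
      rw [gex_zero, map_one, mul_one]
      exact hx')
    have h2 : par D.m (0 : b.support → ℝ) = 0 := by
      unfold par
      simp
    rwa [h2, mul_zero, Real.exp_zero, mul_one] at h1
  have W0 : ∀ l, 0 ≤ c l * ‖WhT H ν D' θ (f l) x‖ ^ 2 := fun l => mul_nonneg (hc l) (sq_nonneg _)
  -- the trivial bound
  have htriv : ∀ q : ℝ, (∀ l, R * (par (zre (S.zL (z l) (w l))) Λ - ε) ≤ q) →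
      ∑ l, Real.exp (2 * (R * (par (zre (S.zL (z l) (w l))) Λ - ε))) * (c l * ‖WhT H ν D' θ (f l) x‖ ^ 2) ≤ Real.exp (2 * q) * B := fun q hq => by
    refine le_trans (Finset.sum_le_sum fun l _ => mul_le_mul_of_nonneg_right (Real.exp_le_exp.2 (mul_le_mul_of_nonneg_left (hq l) zero_le_two)) (W0 l)) ?_
    rw [← Finset.mul_sum]
    exact mul_le_mul_of_nonneg_left hat (Real.exp_pos _).le
  have hE1 : 1 ≤ C₁ * Real.exp (2 * m₁) + 1 := by
    have := mul_pos hC₁ (Real.exp_pos (2 * m₁))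
    linarith
  by_cases hcase : Λ ≠ 0 ∧ c₁ ≤ R
  · obtain ⟨hΛ1, hcR⟩ := hcase
    have hR' : 0 ≤ R - c₁ := sub_nonneg.2 hcR
    have hB' : 0 ≤ B * Real.exp (2 * m₁) := mul_nonneg hB (Real.exp_pos _).le
    have hΩm : Real.exp (2 * par D.m (gH b F (V.p ω))) ≤ Real.exp (2 * m₁) := by
      refine Real.exp_le_exp.2 (mul_le_mul_of_nonneg_left ?_ zero_le_two)
      rw [hm₁]
      unfold par
      refine Finset.sum_le_sum fun j _ => ?_
      calc D.m j * gH b F (V.p ω) j ≤ |D.m j * gH b F (V.p ω) j| := le_abs_self _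
        _ = |D.m j| * |gH b F (V.p ω) j| := abs_mul _ _
        _ ≤ |D.m j| * c₀ := mul_le_mul_of_nonneg_left (hbd ω hω j) (abs_nonneg _)
    have key := hmain (R - c₁) hR' n z (fun l => c l * ‖WhT H ν D' θ (f l) x‖ ^ 2) W0 hzT (B * Real.exp (2 * m₁)) hB' (fun y hy => by
      refine (fv_step V D hK hHp hcc one hD₁ hD' ht hxe hω cf inf hz hc hB y fun k hk => ?_).trans ?_
      · obtain ⟨u', ω', hω', hx'⟩ := V.pt ht hxe hω (k * y)
        refine hyp (gH b F (V.p ω * (k * y))) (fun j => ?_) _ ⟨u', ω', Or.inr hω', hx'⟩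
        obtain ⟨k', hk', hsp⟩ := gH_split (V.p ω * k)
        have h1 : gH b F (V.p ω * (k * y)) j = gH b F (V.p ω) j + gH b F (k' * y) j := by
          rw [← mul_assoc, hsp y, gH_K hk]
          rfl
        have h2 := hy k' (by rw [hK]; exact hk') j
        rw [hHp] at h2
        have h3 := abs_le.1 (hbd ω hω j)
        have h4 := hsh hΛ1 j
        rw [h1]
        nlinarith
      · exact mul_le_mul_of_nonneg_right (mul_le_mul_of_nonneg_left hΩm hB) (sq_nonneg _)) w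
    have h5 : ∀ l, Real.exp (2 * (R * (par (zre (S.zL (z l) (w l))) Λ - ε))) ≤ Real.exp (2 * (c₁ * Q)) * Real.exp (2 * ((R - c₁) * (par (zre (S.zL (z l) (w l))) Λ - ε))) := fun l => by
      rw [← Real.exp_add]
      refine Real.exp_le_exp.2 ?_
      have h6 := hp (z l) (hzT l) (w l)
      nlinarith
    calc ∑ l, Real.exp (2 * (R * (par (zre (S.zL (z l) (w l))) Λ - ε))) * (c l * ‖WhT H ν D' θ (f l) x‖ ^ 2)
        ≤ ∑ l, Real.exp (2 * (c₁ * Q)) * (Real.exp (2 * ((R - c₁) * (par (zre (S.zL (z l) (w l))) Λ - ε))) * (c l * ‖WhT H ν D' θ (f l) x‖ ^ 2)) :=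
          Finset.sum_le_sum fun l _ => (mul_le_mul_of_nonneg_right (h5 l) (W0 l)).trans (le_of_eq (mul_assoc _ _ _))
      _ = Real.exp (2 * (c₁ * Q)) * ∑ l, Real.exp (2 * ((R - c₁) * (par (zre (S.zL (z l) (w l))) Λ - ε))) * (c l * ‖WhT H ν D' θ (f l) x‖ ^ 2) := by rw [Finset.mul_sum]
      _ ≤ Real.exp (2 * (c₁ * Q)) * (C₁ * (B * Real.exp (2 * m₁))) := mul_le_mul_of_nonneg_left key (Real.exp_pos _).le
      _ ≤ Real.exp (2 * (c₁ * Q)) * (C₁ * Real.exp (2 * m₁) + 1) * B := by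
        have h7 : 0 ≤ Real.exp (2 * (c₁ * Q)) * B := mul_nonneg (Real.exp_pos _).le hB
        nlinarith
  · refine (htriv (c₁ * Q) fun l => ?_).trans ?_
    · by_cases hΛ1 : Λ = 0
      · have h1 : par (zre (S.zL (z l) (w l))) Λ = 0 := by
          rw [hΛ1]
          unfold par
          simp
        rw [h1]
        have h2 := mul_nonneg hc₁ hQ0
        nlinarith
      · have hRc : R < c₁ := by
          by_contra hcon
          exact hcase ⟨hΛ1, not_lt.1 hcon⟩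
        have h6 := hp (z l) (hzT l) (w l)
        calc R * (par (zre (S.zL (z l) (w l))) Λ - ε) ≤ R * Q := mul_le_mul_of_nonneg_left (by linarith) hR
          _ ≤ c₁ * Q := mul_le_mul_of_nonneg_right hRc.le hQ0
    · have h7 : 0 ≤ Real.exp (2 * (c₁ * Q)) * B := mul_nonneg (Real.exp_pos _).le hB
      nlinarith

end

end Pool.Agent.Lib.L8
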