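import Pool.Agent.Lib.L8.FV3
import Pool.Agent.Lib.L8.FV4
import Pool.Agent.Lib.L8.BRN
import Pool.Agent.Lib.L8.StmV

/-!
# L8, version 2, module F (helper67), FV5: one place in terms of the local group, several places
-/

namespace Pool.Agent.Lib.L8

open MeasureTheory Matrix NumberField IsDedekindDomain Pool.Agent.Lib.H89N Pool.Agent.Lib.L1S Topology
open scoped ENNReal Pointwise

noncomputable section

set_option linter.unusedSectionVars false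
set_option linter.unusedVariables false

variable {ι M N : Type} [Fintype ι] [DecidableEq ι] [AddCommGroup M] [Module ℚ M] [AddCommGroup N] [Module ℚ N]
  {P : RootPairing ι ℚ M N} [P.IsCrystallographic] [P.IsReduced] [P.IsIrreducible] [P.IsRootSystem] {b : P.Base}
  {L : Type} [Field L] [NumberField L]

/-- The analytic data of the local group. -/
abbrev gAD (b : P.Base) (F : Type) [RCLike F] : AnD (GF b F) b.support := (iwG b F).AD

/-- The action on the parameters and on the vectors. -/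
theorem fv_zL (F : Type) [RCLike F] (z : b.support → ℝ) (l : List b.support) : ∀ y : b.support → ℝ, par ((iwG b F).ST.zLr z l) y = par z (wl (cA b) l.reverse y) := by
  induction l with
  | nil => exact fun y => rfl
  | cons i l ih =>
    intro y
    show par ((iwG b F).ST.rdr i ((iwG b F).ST.zLr z l)) y = _
    have h1 : wl (cA b) (i :: l).reverse y = wl (cA b) l.reverse (sr (cA b) i y) := by
      rw [List.reverse_cons, wl_append']
      rfl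
    rw [h1, ← ih, e2_par_rdr]
    unfold sr
    rw [e6b_sub]
    ring_nf
    rfl

/-- **One place.** -/
theorem fv_one {H : Subgroup (GK b L)} {F : Type} [RCLike F] {e : (b.support → ℝ) → b.support → ℝ} (V : PlH H F e) {l0 : List b.support} (hl0 : (iwD b F).Long l0)
    {Λ : b.support → ℝ} (hΛ : ∀ i, 0 ≤ al (cA b) i Λ) {ε : ℝ} (hε : 0 < ε) (T : ℝ) {Ω : Set (GL (I b) (EE L))} (hΩ : IsCompact Ω) :
    ∃ C : ℝ, 0 < C ∧ ∀ (Γ : Subgroup H), CCH H Γ → ∀ θ : b.support → (EE L →ₗ[ℝ] ℝ), (∀ w : HUH H, (w : H) ∈ Γ → psT H θ (kUH H w) = 1) → ∀ (ν : Measure (UHR H)) [ν.IsHaarMeasure]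
      (D₁ : Set (UHR H)), H33W.SF (Γ.subgroupOf (HUH H)) D₁ → ∀ D' : Set (UHR H), IsFundamentalDomain (imU H Γ) D' ν →
      ∀ (t : HRt H) (a : ι → (EE L)ˣ), t.1.1.1 = dgz b a → ∀ x : HRt H, (∃ u : UHR H, ∃ ω ∈ Ω, x.1.1.1 = u.1.1.1.1 * t.1.1.1 * ω.1) →
      ∀ R : ℝ, 0 ≤ R → ∀ (n : ℕ) (f : Fin n → HRt H → ℂ), (∀ l, Continuous (f l)) → (∀ l, ∀ γ ∈ imH H Γ, ∀ y, f l (γ * y) = f l y) →
      ∀ z : Fin n → b.support → ℂ, (∀ l j, ‖z l j‖ ≤ T) → (∀ l y g, ∫ k, f l (y * V.j (k * g)) ∂(gAD b F).κ = (gAD b F).Ph (z l) g * f l y) →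
      ∀ c : Fin n → ℝ, (∀ l, 0 ≤ c l) → ∀ B : ℝ, 0 ≤ B →
      (∀ Y : b.support → ℝ, (∀ j, R * wl (cA b) l0 Λ j ≤ Y j) → ∀ x' : HRt H, (∃ u : UHR H, ∃ ω ∈ Ω ∪ V.Om Ω, x'.1.1.1 = u.1.1.1.1 * (t * V.j (gex b F Y)).1.1.1 * ω.1) →
        ∑ l, c l * ‖WhT H ν D' θ (f l) x'‖ ^ 2 ≤ B * Real.exp (2 * (dF F * ∑ j, Y j))) →
      ∀ w : Fin n → List b.support, ∑ l, Real.exp (2 * (R * (par (zre (z l)) (wl (cA b) (w l) Λ) - ε))) * (c l * ‖WhT H ν D' θ (f l) x‖ ^ 2) ≤ C * B := by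
  have hl : ∀ i : b.support, b.height (wL b l0 (i : ι)) < 0 := iw_long_neg hl0
  obtain ⟨C, hC, h⟩ := fv_core V (gAD b F) rfl rfl (iwG b F).ST (wl (cA b) l0) (brn_main (iwG b F) hl0) hΛ (w0_lt hl hΛ) hε T hΩ
  refine ⟨C, hC, ?_⟩
  intro Γ hcc θ one ν _ D₁ hD₁ D' hD' t a ht x hx R hR n f cf inf z hzT hz c hc B hB hyp w
  have hm : ∀ Y : b.support → ℝ, par (gAD b F).m Y = dF F * ∑ j, Y j := fun Y => by
    rw [Finset.mul_sum]
    rfl
  have key := h Γ hcc θ one ν D₁ hD₁ D' hD' t a ht x hx R hR n f cf inf z hzT hz c hc B hB (fun Y hY x' hx' => by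
    rw [hm]
    exact hyp Y hY x' hx') fun l => (w l).reverse
  refine le_trans (le_of_eq (Finset.sum_congr rfl fun l _ => ?_)) key
  rw [e2_zre_zL, fv_zL, List.reverse_reverse]

/-- **Several places.** -/
theorem fv_many {H : Subgroup (GK b L)} {e : (b.support → ℝ) → b.support → ℝ} {l0 : List b.support} (hl0 : ∀ (l₁ : List b.support) (i : b.support) (l₂ : List b.support), l0 = l₁ ++ i :: l₂ → 0 < b.height (wL b l₁ (i : ι)))
    (hl1 : ∀ i : b.support, b.height (wL b l0 (i : ι)) < 0) {ε : ℝ} (hε : 0 < ε) (T : ℝ) (p : ℕ) :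
    ∀ (Fv : Fin p → Type) [∀ k, RCLike (Fv k)] (V : ∀ k, PlH H (Fv k) e) (Λ : Fin p → b.support → ℝ), (∀ k i, 0 ≤ al (cA b) i (Λ k)) → ∀ Ω : Set (GL (I b) (EE L)), IsCompact Ω →
    ∃ Ω' : Set (GL (I b) (EE L)), IsCompact Ω' ∧ ∃ C : ℝ, 0 < C ∧ ∀ (Γ : Subgroup H), CCH H Γ → ∀ θ : b.support → (EE L →ₗ[ℝ] ℝ), (∀ w : HUH H, (w : H) ∈ Γ → psT H θ (kUH H w) = 1) →
      ∀ (ν : Measure (UHR H)) [ν.IsHaarMeasure]
      (D₁ : Set (UHR H)), H33W.SF (Γ.subgroupOf (HUH H)) D₁ → ∀ D' : Set (UHR H), IsFundamentalDomain (imU H Γ) D' ν →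
      ∀ (t : HRt H) (a : ι → (EE L)ˣ), t.1.1.1 = dgz b a → ∀ x : HRt H, (∃ u : UHR H, ∃ ω ∈ Ω, x.1.1.1 = u.1.1.1.1 * t.1.1.1 * ω.1) →
      ∀ R : Fin p → ℝ, (∀ k, 0 ≤ R k) → ∀ (n : ℕ) (f : Fin n → HRt H → ℂ), (∀ l, Continuous (f l)) → (∀ l, ∀ γ ∈ imH H Γ, ∀ y, f l (γ * y) = f l y) →
      ∀ z : Fin p → Fin n → b.support → ℂ, (∀ k l j, ‖z k l j‖ ≤ T) → (∀ k l y g, ∫ k', f l (y * (V k).j (k' * g)) ∂(gAD b (Fv k)).κ = (gAD b (Fv k)).Ph (z k l) g * f l y) →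
      ∀ c : Fin n → ℝ, (∀ l, 0 ≤ c l) → ∀ B : ℝ, 0 ≤ B →
      (∀ Y : Fin p → b.support → ℝ, (∀ k j, R k * wl (cA b) l0 (Λ k) j ≤ Y k j) → ∀ (t' : HRt H) (a' : ι → (EE L)ˣ), t'.1.1.1 = dgz b a' →
        (∀ β, mixedEmbedding.norm (a' β : EE L) = mixedEmbedding.norm (a β : EE L) * Real.exp (∑ k, dF (Fv k) * pry b (e (Y k)) (Sum.inr β))) →
        ∀ x' : HRt H, (∃ u : UHR H, ∃ ω ∈ Ω', x'.1.1.1 = u.1.1.1.1 * t'.1.1.1 * ω.1) →
        ∑ l, c l * ‖WhT H ν D' θ (f l) x'‖ ^ 2 ≤ B * Real.exp (2 * ∑ k, dF (Fv k) * ∑ j, Y k j)) →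
      ∀ w : Fin p → Fin n → List b.support, ∑ l, Real.exp (2 * ∑ k, R k * (par (zre (z k l)) (wl (cA b) (w k l) (Λ k)) - ε)) * (c l * ‖WhT H ν D' θ (f l) x‖ ^ 2) ≤ C * B := by
  induction p with
  | zero =>
    intro Fv _ V Λ _ Ω hΩ
    refine ⟨Ω, hΩ, 1, one_pos, ?_⟩
    intro Γ hcc θ one ν _ D₁ hD₁ D' hD' t a ht x hx R hR n f cf inf z hzT hz c hc B hB hyp w
    have h1 := hyp (fun k => k.elim0) (fun k => k.elim0) t a ht (fun β => by simp) x hx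
    simpa using h1
  | succ p ih =>
    intro Fv _ V Λ hΛ Ω hΩ
    obtain ⟨C₀, hC₀, h0⟩ := fv_one (V 0) (iw_long hl0 hl1) (hΛ 0) hε T hΩ
    obtain ⟨Ω', hΩ', C₁, hC₁, h1⟩ := ih (fun k => Fv k.succ) (fun k => V k.succ) (fun k => Λ k.succ) (fun k => hΛ k.succ) (Ω ∪ (V 0).Om Ω) (hΩ.union ((V 0).om_compact hΩ))
    refine ⟨Ω', hΩ', C₀ * C₁, mul_pos hC₀ hC₁, ?_⟩
    intro Γ hcc θ one ν _ D₁ hD₁ D' hD' t a ht x hx R hR n f cf inf z hzT hz c hc B hB hyp w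
    have key := h0 Γ hcc θ one ν D₁ hD₁ D' hD' t a ht x hx (R 0) (hR 0) n f cf inf (z 0) (hzT 0) (hz 0)
      (fun l => Real.exp (2 * ∑ k : Fin p, R k.succ * (par (zre (z k.succ l)) (wl (cA b) (w k.succ l) (Λ k.succ)) - ε)) * c l) (fun l => mul_nonneg (Real.exp_pos _).le (hc l))
      (C₁ * B) (mul_nonneg hC₁.le hB) (fun Y₀ hY₀ x' hx' => by
        have h2 := h1 Γ hcc θ one ν D₁ hD₁ D' hD' (t * (V 0).j (gex b (Fv 0) Y₀)) (a * (V 0).ja Y₀) ((V 0).torus ht Y₀) x' hx' (fun k => R k.succ) (fun k => hR k.succ) n f cf inf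
          (fun k => z k.succ) (fun k => hzT k.succ) (fun k => hz k.succ) c hc (B * Real.exp (2 * (dF (Fv 0) * ∑ j, Y₀ j))) (mul_nonneg hB (Real.exp_pos _).le)
          (fun Y hY t' a' ht' hn x'' hx'' => by
            have h3 := hyp (Fin.cons Y₀ Y) (fun k => by
              refine Fin.cases ?_ ?_ k
              · exact hY₀
              · exact hY) t' a' ht' (fun β => by
                rw [hn β, Fin.sum_univ_succ, Fin.cons_zero, Pi.mul_apply, Units.val_mul, map_mul, (V 0).ja_norm, Real.exp_add]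
                simp only [Fin.cons_succ]
                rw [mul_assoc]
                rfl) x'' hx''
            refine h3.trans (le_of_eq ?_)
            rw [Fin.sum_univ_succ, Fin.cons_zero, mul_add, Real.exp_add]
            simp only [Fin.cons_succ]
            ring) (fun k => w k.succ)
        refine le_trans (le_of_eq (Finset.sum_congr rfl fun l _ => ?_)) (h2.trans (le_of_eq ?_))
        · ring
        · ring) (w 0)
    refine le_trans (le_of_eq (Finset.sum_congr rfl fun l _ => ?_)) (key.trans (le_of_eq ?_))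
    · rw [Fin.sum_univ_succ, mul_add, Real.exp_add]
      ring
    · ring

end

end Pool.Agent.Lib.L8
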