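import Pool.Agent.Lib.L8.FV1
import Pool.Agent.Lib.L8.FV2
import Pool.Agent.Lib.L8.FV4B
import Pool.Agent.Lib.L8.IG11

/-!
# L8, version 2, module F (helper67), FV7: split groups: every archimedean place is a split place
-/

namespace Pool.Agent.Lib.L8

open MeasureTheory Matrix NumberField IsDedekindDomain Pool.Agent.Lib.H89N Pool.Agent.Lib.L1S Topology

noncomputable section

set_option linter.unusedSectionVars false

section plc

variable {K : Type} [Field K] [NumberField K]

/-- The elements of `K ⊗ ℝ` which are `1` outside of one place. -/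
theorem plc_norm (x : EE K) (w₀ : InfinitePlace K) (h : ∀ w, w ≠ w₀ → mixedEmbedding.normAtPlace w x = 1) : mixedEmbedding.norm x = mixedEmbedding.normAtPlace w₀ x ^ w₀.mult := by
  classical
  rw [mixedEmbedding.norm_apply]
  refine Finset.prod_eq_single w₀ (fun w _ hw => ?_) fun h => absurd (Finset.mem_univ _) h
  rw [h w hw, one_pow]

/-- The vector with one entry. -/
def s1 {X A : Type} [DecidableEq X] [Zero A] (x : X) (t : A) : X → A := Pi.single x t

section s1

variable {X A : Type} [DecidableEq X]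

theorem s1_same [Zero A] (x : X) (t : A) : s1 x t x = t := by
  unfold s1
  exact Pi.single_eq_same (M := fun _ => A) x t

theorem s1_ne [Zero A] {x y : X} (h : y ≠ x) (t : A) : s1 x t y = 0 := by
  unfold s1
  exact Pi.single_eq_of_ne (M := fun _ => A) h t

theorem s1_zero [Zero A] (x : X) : s1 x (0 : A) = 0 := by
  funext y
  by_cases h : y = x
  · rw [h, s1_same]; rfl
  · rw [s1_ne h]; rfl

theorem s1_add [AddZeroClass A] (x : X) (s t : A) : s1 x (s + t) = s1 x s + s1 x t := by
  funext y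
  rw [Pi.add_apply]
  by_cases h : y = x
  · rw [h, s1_same, s1_same, s1_same]
  · rw [s1_ne h, s1_ne h, s1_ne h, add_zero]

theorem s1_mul [MulZeroClass A] (x : X) (s : A) (f : X → A) : s1 x s * f = s1 x (s * f x) := by
  funext y
  rw [Pi.mul_apply]
  by_cases h : y = x
  · rw [h, s1_same, s1_same]
  · rw [s1_ne h, s1_ne h, zero_mul]

theorem s1_cont [Zero A] [TopologicalSpace A] (x : X) : Continuous (s1 x : A → X → A) := by
  refine continuous_pi fun y => ?_
  by_cases h : y = x
  · subst h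
    have e : (fun t : A => s1 y t y) = id := funext fun t => s1_same y t
    rw [e]
    exact continuous_id
  · have e : (fun t : A => s1 x t y) = fun _ => 0 := funext fun t => s1_ne h t
    rw [e]
    exact continuous_const

end s1

open scoped Classical in
/-- **A real place.** -/
def plcR (w₀ : InfinitePlace K) (h : w₀.IsReal) : Plc K ℝ where
  p := (Pi.evalRingHom (fun _ : {w : InfinitePlace K // w.IsReal} => ℝ) ⟨w₀, h⟩).comp (RingHom.fst _ _)
  i := {
    toFun := fun t => (s1 ⟨w₀, h⟩ t, 0)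
    map_zero' := by rw [s1_zero]; rfl
    map_add' := fun s t => by
      rw [s1_add]
      exact Prod.ext rfl (add_zero _).symm
    map_mul' := fun s t => by
      refine Prod.ext ?_ (mul_zero _).symm
      show s1 _ (s * t) = s1 _ s * s1 _ t
      rw [s1_mul, s1_same] }
  p_i := fun t => s1_same _ t
  i_x := fun t x => Prod.ext (s1_mul _ t x.1) (zero_mul _)
  p_cont := (continuous_apply _).comp continuous_fst
  i_cont := (s1_cont _).prodMk continuous_const
  nrm := fun t => by
    rw [plc_norm _ w₀ fun w hw => ?_]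
    · have h1 : w₀.mult = 1 := by
        unfold InfinitePlace.mult
        rw [if_pos h]
      rw [h1, pow_one, Module.finrank_self, pow_one, mixedEmbedding.normAtPlace_apply_of_isReal h]
      show ‖(1 : ℝ) + s1 (⟨w₀, h⟩ : {w : InfinitePlace K // w.IsReal}) (t - 1) ⟨w₀, h⟩‖ = ‖t‖
      rw [s1_same, add_sub_cancel]
    · by_cases hr : w.IsReal
      · rw [mixedEmbedding.normAtPlace_apply_of_isReal hr]
        show ‖(1 : ℝ) + s1 (⟨w₀, h⟩ : {w : InfinitePlace K // w.IsReal}) (t - 1) ⟨w, hr⟩‖ = 1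
        rw [s1_ne (fun e => hw (congrArg Subtype.val e)), add_zero, norm_one]
      · rw [mixedEmbedding.normAtPlace_apply_of_isComplex (InfinitePlace.not_isReal_iff_isComplex.1 hr)]
        show ‖(1 : ℂ) + 0‖ = 1
        rw [add_zero, norm_one]

open scoped Classical in
/-- **A complex place.** -/
def plcC (w₀ : InfinitePlace K) (h : w₀.IsComplex) : Plc K ℂ where
  p := (Pi.evalRingHom (fun _ : {w : InfinitePlace K // w.IsComplex} => ℂ) ⟨w₀, h⟩).comp (RingHom.snd _ _)
  i := {
    toFun := fun t => (0, s1 ⟨w₀, h⟩ t)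
    map_zero' := by rw [s1_zero]; rfl
    map_add' := fun s t => by
      rw [s1_add]
      exact Prod.ext (add_zero _).symm rfl
    map_mul' := fun s t => by
      refine Prod.ext (mul_zero _).symm ?_
      show s1 _ (s * t) = s1 _ s * s1 _ t
      rw [s1_mul, s1_same] }
  p_i := fun t => s1_same _ t
  i_x := fun t x => Prod.ext (zero_mul _) (s1_mul _ t x.2)
  p_cont := (continuous_apply _).comp continuous_snd
  i_cont := continuous_const.prodMk (s1_cont _)
  nrm := fun t => by
    rw [plc_norm _ w₀ fun w hw => ?_]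
    · have h1 : w₀.mult = 2 := by
        unfold InfinitePlace.mult
        rw [if_neg (InfinitePlace.not_isReal_iff_isComplex.2 h)]
      rw [h1, Complex.finrank_real_complex, mixedEmbedding.normAtPlace_apply_of_isComplex h]
      show ‖(1 : ℂ) + s1 (⟨w₀, h⟩ : {w : InfinitePlace K // w.IsComplex}) (t - 1) ⟨w₀, h⟩‖ ^ 2 = ‖t‖ ^ 2
      rw [s1_same, add_sub_cancel]
    · by_cases hr : w.IsReal
      · rw [mixedEmbedding.normAtPlace_apply_of_isReal hr]
        show ‖(1 : ℝ) + 0‖ = 1
        rw [add_zero, norm_one]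
      · rw [mixedEmbedding.normAtPlace_apply_of_isComplex (InfinitePlace.not_isReal_iff_isComplex.1 hr)]
        show ‖(1 : ℂ) + s1 (⟨w₀, h⟩ : {w : InfinitePlace K // w.IsComplex}) (t - 1) ⟨w, InfinitePlace.not_isReal_iff_isComplex.1 hr⟩‖ = 1
        rw [s1_ne (fun e => hw (congrArg Subtype.val e)), add_zero, norm_one]

end plc

section grp

variable {ι M N : Type} [Fintype ι] [DecidableEq ι] [AddCommGroup M] [Module ℚ M] [AddCommGroup N] [Module ℚ N]
  {P : RootPairing ι ℚ M N} [P.IsCrystallographic] [P.IsReduced] [P.IsIrreducible] [P.IsRootSystem] {b : P.Base}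
  {K : Type} [Field K] [NumberField K]

theorem split_act (Q : QS b K K) (s : K ≃ₐ[K] K) : Q.act s = 1 := by
  have h : s = 1 := by
    ext x
    exact s.commutes x
  rw [h, map_one]

theorem split_Fx (Q : QS b K K) (X : Matrix (I b) (I b) K) : Fx Q X := by
  intro s r c
  have h1 : ∀ x : K, s x = x := fun x => s.commutes x
  have h2 : ∀ r : I b, (Q.da s).pI r = r := by
    intro r
    rcases r with i | β
    · rw [DA.pI_inl]
      congr 1
      refine Subtype.ext ?_
      rw [DA.sp_coe, split_act]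
      rfl
    · rw [DA.pI_inr, split_act]
      rfl
  rw [h2, h2, h1]

theorem xx_LT {A : Type} [CommRing A] {β : ι} (hβ : b.height β < 0) (t : A) : LT b (xx b β t) := by
  intro r c hrc
  have h1 : ∀ k : ℕ, 1 ≤ k → dvp (E b β) k r c = 0 := by
    intro k hk
    by_contra hne
    have h2 := ht_of_wt b r c k β (dvp_wt b β k r c hne)
    have h3 : (k : ℤ) * b.height β ≤ b.height β := by
      have h4 : (1 : ℤ) ≤ k := by exact_mod_cast hk
      nlinarith
    omega
  simp only [xx, ex, Matrix.sum_apply, Matrix.smul_apply, Matrix.map_apply, smul_eq_mul]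
  rw [Finset.sum_eq_single 0]
  · rw [dvp_zero, pow_zero, one_mul]
    by_cases h : r = c
    · subst h
      rw [Matrix.one_apply_eq, Matrix.one_apply_eq, Int.cast_one]
    · rw [Matrix.one_apply_ne h, Matrix.one_apply_ne h, Int.cast_zero]
  · intro k _ hk
    rw [h1 k (Nat.pos_of_ne_zero hk), Int.cast_zero, mul_zero]
  · intro h
    exact absurd (Finset.mem_range.2 (by norm_num)) h

/-- For `L = K` the group is `G(K)`. -/
theorem split_HQ (Q : QS b K K) : HQ Q = ⊤ := by
  have h1 : ∀ (β : ι) (t : K), (⟨xG b β t, xG_mem b β t⟩ : GK b K) ∈ HQ Q := fun β t => by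
    refine Subgroup.subset_closure ⟨split_Fx Q _, ?_⟩
    rcases lt_or_gt_of_ne (b.height_ne_zero β) with h | h
    · exact Or.inr (xx_LT h t)
    · left
      intro r c hrc
      exact xx_UTk b β h t r c (by omega)
  have h2 : GQ b K ≤ (HQ Q).map (GQ b K).subtype := by
    conv_lhs => rw [GQ_eq]
    rw [Subgroup.closure_le]
    rintro _ ⟨i, t, rfl | rfl⟩
    · exact ⟨_, h1 (i : ι) t, rfl⟩
    · exact ⟨_, h1 (ng P i) t, rfl⟩
  rw [eq_top_iff]
  intro g _
  obtain ⟨g', hg', e⟩ := h2 g.2
  have e' : g' = g := Subtype.ext e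
  rw [← e']
  exact hg'

theorem split_HRs (Q : QS b K K) (g : GR b K) : g ∈ HRs (HQ Q) := by
  rw [split_HQ]
  have h1 : (g : GR b K) ∈ closure (((⊤ : Subgroup (GK b K)).map (emb b K) : Subgroup (GR b K)) : Set (GR b K)) := by
    rw [closure_subtype]
    have h2 : (fun g : GR b K => g.1) '' (((⊤ : Subgroup (GK b K)).map (emb b K) : Subgroup (GR b K)) : Set (GR b K)) = (((GQ b K).map (embGL b K) : Subgroup (GL (I b) (EE K))) : Set (GL (I b) (EE K))) := by
      ext x
      constructor
      · rintro ⟨_, ⟨y, _, rfl⟩, rfl⟩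
        exact ⟨y.1, y.2, rfl⟩
      · rintro ⟨y, hy, rfl⟩
        exact ⟨emb b K ⟨y, hy⟩, ⟨⟨y, hy⟩, Subgroup.mem_top _, rfl⟩, rfl⟩
    rw [h2]
    exact g.2
  exact h1

variable {F : Type} [RCLike F]

/-- The entries of `exp(y)` at the place `v`. -/
def splitA (b : P.Base) (v : Plc K F) (y : b.support → ℝ) (β : ι) : (EE K)ˣ where
  val := 1 + v.i (((Real.exp (pry b y (Sum.inr β)) : ℝ) : F) - 1)
  inv := 1 + v.i (((Real.exp (-pry b y (Sum.inr β)) : ℝ) : F) - 1)
  val_inv := by
    have h1 : ((Real.exp (pry b y (Sum.inr β)) : ℝ) : F) * ((Real.exp (-pry b y (Sum.inr β)) : ℝ) : F) = 1 := by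
      rw [← RCLike.ofReal_mul, ← Real.exp_add, add_neg_cancel, Real.exp_zero, RCLike.ofReal_one]
    obtain ⟨s, hs⟩ : ∃ s : F, s = ((Real.exp (pry b y (Sum.inr β)) : ℝ) : F) := ⟨_, rfl⟩
    obtain ⟨t, ht⟩ : ∃ t : F, t = ((Real.exp (-pry b y (Sum.inr β)) : ℝ) : F) := ⟨_, rfl⟩
    rw [← hs, ← ht] at h1 ⊢
    have e1 : (1 + v.i (s - 1)) * (1 + v.i (t - 1)) = 1 + (v.i (s - 1) + v.i (t - 1) + v.i (s - 1) * v.i (t - 1)) := by ring
    rw [e1, ← map_mul, ← map_add, ← map_add]
    have e2 : s - 1 + (t - 1) + (s - 1) * (t - 1) = 0 := by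
      have : s - 1 + (t - 1) + (s - 1) * (t - 1) = s * t - 1 := by ring
      rw [this, h1, sub_self]
    rw [e2, map_zero, add_zero]
  inv_val := by
    have h1 : ((Real.exp (-pry b y (Sum.inr β)) : ℝ) : F) * ((Real.exp (pry b y (Sum.inr β)) : ℝ) : F) = 1 := by
      rw [← RCLike.ofReal_mul, ← Real.exp_add, neg_add_cancel, Real.exp_zero, RCLike.ofReal_one]
    obtain ⟨s, hs⟩ : ∃ s : F, s = ((Real.exp (-pry b y (Sum.inr β)) : ℝ) : F) := ⟨_, rfl⟩
    obtain ⟨t, ht⟩ : ∃ t : F, t = ((Real.exp (pry b y (Sum.inr β)) : ℝ) : F) := ⟨_, rfl⟩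
    rw [← hs, ← ht] at h1 ⊢
    have e1 : (1 + v.i (s - 1)) * (1 + v.i (t - 1)) = 1 + (v.i (s - 1) + v.i (t - 1) + v.i (s - 1) * v.i (t - 1)) := by ring
    rw [e1, ← map_mul, ← map_add, ← map_add]
    have e2 : s - 1 + (t - 1) + (s - 1) * (t - 1) = 0 := by
      have : s - 1 + (t - 1) + (s - 1) * (t - 1) = s * t - 1 := by ring
      rw [this, h1, sub_self]
    rw [e2, map_zero, add_zero]

theorem jM_gex (v : Plc K F) (y : b.support → ℝ) : jM v (exM b F y) = dgz b (splitA b v y) := by
  refine Matrix.ext fun r c => ?_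
  rw [jM, Matrix.add_apply, Matrix.map_apply, Matrix.sub_apply]
  unfold exM dgz
  by_cases h : r = c
  · rw [h, Matrix.diagonal_apply_eq, Matrix.diagonal_apply_eq, Matrix.one_apply_eq, Matrix.one_apply_eq]
    rcases c with i | β
    · have h0 : pry b y (Sum.inl i) = 0 := by
        unfold pry
        refine Finset.sum_eq_zero fun j _ => ?_
        have : pj b j (Sum.inl i) = 0 := rfl
        rw [this, Int.cast_zero, zero_mul]
      rw [h0, Real.exp_zero, RCLike.ofReal_one, sub_self, map_zero, add_zero]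
      rfl
    · rfl
  · rw [Matrix.diagonal_apply_ne _ h, Matrix.diagonal_apply_ne _ h, Matrix.one_apply_ne h, Matrix.one_apply_ne h, sub_self, map_zero, add_zero]

theorem jM_U (v : Plc K F) {u : Matrix (I b) (I b) F} (hu : UTk b 1 u) (r c : I b) (hrc : ht b r ≤ ht b c) : jM v u r c = (1 : Matrix (I b) (I b) (EE K)) r c := by
  rw [jM, Matrix.add_apply, Matrix.map_apply, Matrix.sub_apply, hu r c (by omega), sub_self, map_zero, add_zero]

theorem split_tr (Q : QS b K K) (y : b.support → ℝ) : trQ Q y = y := by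
  funext i
  have h1 : ∀ s : K ≃ₐ[K] K, s = 1 := fun s => by
    ext x
    exact s.commutes x
  have h2 : ∀ s : K ≃ₐ[K] K, y ((Q.da s).sp i) = y i := fun s => by
    congr 1
    refine Subtype.ext ?_
    rw [DA.sp_coe, split_act]
    rfl
  unfold trQ
  rw [Finset.sum_congr rfl fun s _ => h2 s, Finset.sum_const, Finset.card_univ, Fintype.card_eq_one_iff.2 ⟨1, h1⟩, one_smul]

/-- **Split groups: every archimedean place is a split place.** -/
def plSplit (Q : QS b K K) (v : Plc K F) : PlH (HQ Q) F (trQ Q) where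
  j := {
    toFun := fun g => ⟨jv b v g, split_HRs Q _⟩
    map_one' := Subtype.ext (map_one _)
    map_mul' := fun g h => Subtype.ext (map_mul _ _ _) }
  p := (pv b v).comp (Subgroup.subtype _)
  j_cont := (jv_cont v).subtype_mk _
  p_cont := (pv_cont v).comp continuous_subtype_val
  p_j := fun g => pv_jv v g
  comm := fun ω hω g => Subtype.ext (jv_comm v hω g)
  j_U := fun u hu => by
    have hu' : u⁻¹ ∈ gU b F := inv_mem hu
    show jv b v u ∈ UR b K
    intro r c hrc
    refine ⟨jM_U v hu r c hrc, ?_⟩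
    have e : (jv b v u)⁻¹.1.1 = jM v u⁻¹.1.1 := rfl
    rw [e]
    exact jM_U v hu' r c hrc
  ja := splitA b v
  j_ex := fun y => jM_gex v y
  ja_norm := fun y β => by
    have h1 := v.nrm ((Real.exp (pry b y (Sum.inr β)) : ℝ) : F)
    have h2 : mixedEmbedding.norm (splitA b v y β : EE K) = ‖((Real.exp (pry b y (Sum.inr β)) : ℝ) : F)‖ ^ Module.finrank ℝ F := h1
    rw [h2, RCLike.norm_ofReal, abs_of_pos (Real.exp_pos _), ← Real.exp_nat_mul, split_tr]

end grp

end

end Pool.Agent.Lib.L8
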