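import Pool.Agent.Lib.L8.PE6
import Pool.Agent.Lib.L1S.RHFin
import Pool.Agent.Lib.L1S.LI11

/-!
# L8, module PE, file PE7 (helper29): the modulus of the torus on `U`, the volume of `U ∩ a Ω a⁻¹`
-/

namespace Pool.Agent.Lib.L8

set_option linter.unusedSectionVars false

open MeasureTheory Matrix NumberField NumberField.InfinitePlace IsDedekindDomain Pool.Agent.Lib.H89N Pool.Agent.Lib.H33W Pool.Agent.Lib.L1S
open scoped ENNReal

noncomputable section

variable {ι M N : Type} [Fintype ι] [DecidableEq ι] [AddCommGroup M] [Module ℚ M] [AddCommGroup N] [Module ℚ N]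
  {P : RootPairing ι ℚ M N} [P.IsCrystallographic] [P.IsReduced] [P.IsIrreducible] [P.IsRootSystem] {b : P.Base}

section top

variable {L : Type} [Field L] [NumberField L] (H : Subgroup (GK b L))

theorem fh_closed (k : ℕ) : IsClosed (FH H k : Set (UHR H)) := by
  have e : (FH H k : Set (UHR H)) = ⋂ (r : I b) (c : I b) (_ : ht b r < ht b c + k),
      ({u : UHR H | u.1.1.1.1 r c = (1 : Matrix (I b) (I b) (EE L)) r c} ∩ {u : UHR H | u⁻¹.1.1.1.1 r c = (1 : Matrix (I b) (I b) (EE L)) r c}) := by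
    ext u
    simp only [Set.mem_iInter, Set.mem_inter_iff, Set.mem_ofPred_eq]
    constructor
    · intro h r c hrc
      exact ⟨(Subgroup.mem_comap.1 h).1 r c hrc, (Subgroup.mem_comap.1 h).2 r c hrc⟩
    · intro h
      exact Subgroup.mem_comap.2 ⟨fun r c hrc => (h r c hrc).1, fun r c hrc => (h r c hrc).2⟩
  rw [e]
  have c1 : Continuous fun u : UHR H => u.1.1.1.1 := Units.continuous_val.comp (continuous_subtype_val.comp (continuous_subtype_val.comp continuous_subtype_val))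
  have c2 : Continuous fun u : UHR H => u⁻¹.1.1.1.1 := c1.comp continuous_inv
  refine isClosed_iInter fun r => isClosed_iInter fun c => isClosed_iInter fun _ => ?_
  exact (isClosed_eq (c1.matrix_elem r c) continuous_const).inter (isClosed_eq (c2.matrix_elem r c) continuous_const)

instance fh_lc (k : ℕ) : LocallyCompactSpace ↥(FH H k) := (fh_closed H k).isClosedEmbedding_subtypeVal.locallyCompactSpace

instance fh_sc (k : ℕ) : SecondCountableTopology ↥(FH H k) := TopologicalSpace.Subtype.secondCountableTopology _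

end top

variable {K L : Type} [Field K] [NumberField K] [Field L] [NumberField L] [Algebra K L] {Q : QS b K L} [IsGalois K L] (J : LID Q)
  {t : HRt (HQ Q)} {a : ι → (EE L)ˣ} (ht : t.1.1.1 = dgz b a)

theorem pe7_g : 0 < Module.finrank K L := by
  have : FiniteDimensional K L := Module.Finite.of_restrictScalars_finite ℚ K L
  exact Module.finrank_pos

/-- The modulus on the degree `k` part. -/
def rh (K : Type) {L : Type} [Field K] [NumberField K] [Field L] [NumberField L] [Algebra K L] (b : P.Base) (a : ι → (EE L)ˣ) (k : ℕ) : ℝ :=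
  (∏ β ∈ Posk b k, mixedEmbedding.norm (a β : EE L)) ^ ((Module.finrank K L : ℝ)⁻¹)

theorem pe7_rh_pos (a : ι → (EE L)ˣ) (k : ℕ) : 0 < rh K b a k := Real.rpow_pos_of_pos (Finset.prod_pos fun _ _ => pd_norm_unit _) _

theorem tv_det' {k : ℕ} (hk : 1 ≤ k) : |LinearMap.det (TV J ht hk)| = rh K b a k := by
  unfold rh
  rw [← tv_det J ht hk, Real.pow_rpow_inv_natCast (abs_nonneg _) (pe7_g (K := K) (L := L)).ne']

/-- Conjugation by `t` on `FH k`. -/
def cF (k : ℕ) (u : ↥(FH (HQ Q) k)) : ↥(FH (HQ Q) k) := ⟨cU t ht u.1, cU_FH ht u.2⟩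

theorem cF_cont (k : ℕ) : Continuous (cF ht k) := Continuous.subtype_mk ((cU_cont ht).comp continuous_subtype_val) _

include J in
/-- The chain. -/
theorem pe7_chain (d : ℕ) : ∀ k, k + d = HM b + 1 → 1 ≤ k → ∀ (ν : Measure ↥(FH (HQ Q) k)) [ν.IsHaarMeasure],
    ν.map (cF ht k) = (∏ l ∈ Finset.Ico k (HM b + 1), ENNReal.ofReal (rh K b a l)⁻¹) • ν := by
  induction d with
  | zero =>
    intro k hk _ ν _
    rw [add_zero] at hk
    subst hk
    have h1 : cF ht (HM b + 1) = id := by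
      funext u
      have h2 : toUR (HQ Q) (cF ht (HM b + 1) u).1 = 1 := by
        have h3 : toUR (HQ Q) (cF ht (HM b + 1) u).1 ∈ FR b L (HM b + 1) := (cF ht (HM b + 1) u).2
        rwa [r1_FR_bot, Subgroup.mem_bot] at h3
      have h4 : toUR (HQ Q) u.1 = 1 := by
        have h3 : toUR (HQ Q) u.1 ∈ FR b L (HM b + 1) := u.2
        rwa [r1_FR_bot, Subgroup.mem_bot] at h3
      have h5 : (cF ht (HM b + 1) u).1.1.1 = u.1.1.1 := congrArg (fun x : UR b L => x.1) (h2.trans h4.symm)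
      exact Subtype.ext (Subtype.ext (Subtype.ext h5))
    rw [h1, Measure.map_id, Finset.Ico_self, Finset.prod_empty, one_smul]
  | succ d ih =>
    intro k hk hk1 ν _
    have hlt : k < HM b + 1 := by omega
    obtain ⟨ν', hν'⟩ : ∃ ν' : Measure ↥(FH (HQ Q) (k + 1)), ν'.IsHaarMeasure := ⟨Measure.haar, inferInstance⟩
    have h1 := ih (k + 1) (by omega) (by omega) ν'
    have hdet : LinearMap.det (TV J ht hk1) ≠ 0 := by
      have h2 := tv_det' J ht hk1
      have h3 := pe7_rh_pos (K := K) (b := b) a k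
      intro h0
      rw [h0, abs_zero] at h2
      exact h3.ne h2
    have key := pe_skew ν ν' (eK J hk1) (Subgroup.inclusion (fh_mono (H := HQ Q) k)) (fun g => kaV J k g.1)
      (fun g g' => funext fun β => kapE_mul J hk1 g.2 g'.2 β.2)
      (fun v n => Subtype.ext (by
        show seV J k v * n.1 = seV J k v * 1 * n.1
        rw [mul_one]))
      (fun v n => congrArg Prod.fst ((eK J hk1).left_inv (v, n)))
      (α := cF ht k) (fun g g' => Subtype.ext (map_mul (cU t ht) g.1 g'.1)) (cF_cont ht k) (β := cF ht (k + 1)) (cF_cont ht (k + 1)) (fun n => rfl)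
      (T := TV J ht hk1) hdet (fun g => tv_kaV J ht hk1 g.2) h1
    rw [key, abs_inv, tv_det' J ht hk1, Finset.prod_eq_prod_Ico_succ_bot hlt]

/-- **The modulus of the torus on `U`.** -/
theorem pe_mod (ν : Measure (UHR (HQ Q))) [ν.IsHaarMeasure] :
    ν.map (cU t ht) = ENNReal.ofReal ((∏ β ∈ Pos b, mixedEmbedding.norm (a β : EE L)) ^ ((Module.finrank K L : ℝ)⁻¹))⁻¹ • ν := by
  obtain ⟨J⟩ := exists_LID Q
  obtain ⟨ν', hν'⟩ : ∃ ν' : Measure ↥(FH (HQ Q) 1), ν'.IsHaarMeasure := ⟨Measure.haar, inferInstance⟩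
  have h1 := pe7_chain J ht (HM b) 1 (by omega) le_rfl ν'
  have hmem : ∀ u : UHR (HQ Q), u ∈ FH (HQ Q) 1 := by
    intro u
    show toUR (HQ Q) u ∈ FR b L 1
    rw [r1_FR_top]
    exact Subgroup.mem_top _
  let e : (Fin 0 → ℝ) × ↥(FH (HQ Q) 1) ≃ₜ UHR (HQ Q) :=
    { toFun := fun p => p.2.1
      invFun := fun u => (0, ⟨u, hmem u⟩)
      left_inv := fun p => Prod.ext (Subsingleton.elim _ _) rfl
      right_inv := fun u => rfl
      continuous_toFun := continuous_subtype_val.comp continuous_snd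
      continuous_invFun := continuous_const.prodMk (Continuous.subtype_mk continuous_id _) }
  have hd : LinearMap.det (LinearMap.id : (Fin 0 → ℝ) →ₗ[ℝ] (Fin 0 → ℝ)) = 1 := LinearMap.det_id
  have key := pe_skew ν ν' e (FH (HQ Q) 1).subtype (fun _ => 0) (fun _ _ => (add_zero _).symm) (fun v n => by
      show n.1 = 1 * n.1
      rw [one_mul]) (fun v n => Subsingleton.elim _ _) (α := cU t ht) (fun g g' => map_mul _ g g') (cU_cont ht) (β := cF ht 1) (cF_cont ht 1) (fun n => rfl)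
      (T := LinearMap.id) (by rw [hd]; exact one_ne_zero) (fun g => Subsingleton.elim _ _) h1
  rw [key, hd]
  congr 1
  rw [inv_one, abs_one, ENNReal.ofReal_one, one_mul, ← ENNReal.ofReal_prod_of_nonneg fun l _ => (inv_pos.2 (pe7_rh_pos a l)).le, Finset.prod_inv_distrib]
  congr 2
  unfold rh
  rw [Real.finsetProd_rpow _ _ fun l _ => (Finset.prod_pos fun _ _ => pd_norm_unit _).le]
  congr 1
  have h2 : Finset.Ico 1 (HM b + 1) = Finset.Icc 1 (HM b) := by
    ext l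
    simp only [Finset.mem_Ico, Finset.mem_Icc]
    omega
  rw [h2, r1_prod]

include ht in
/-- `t⁻¹` is diagonal. -/
theorem pe7_inv : t⁻¹.1.1.1 = dgz b a⁻¹ := pe_inv_mat ht

/-- **The volume of `U ∩ a Ω a⁻¹`** compared with the covolume of `Γ ∩ U`, for every element `a` of the torus. -/
theorem pe_vol (Q : QS b K L) {Ω : Set (GL (I b) (EE L))} (hΩ : IsCompact Ω) : ∃ C : ℝ, 0 ≤ C ∧ ∀ (ν : Measure (UHR (HQ Q))) [ν.IsHaarMeasure] (𝔫 : Ideal (𝓞 K)), 𝔫 ≠ ⊥ →
    ∀ (v : HeightOneSpectrum (𝓞 K)) (r s : ℕ) (D : Set (UHR (HQ Q))), SF ((GamQ (HQ Q) 𝔫 v r s).subgroupOf (HUH (HQ Q))) D →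
    ∀ (t : HRt (HQ Q)) (a : ι → (EE L)ˣ), t.1.1.1 = dgz b a →
    ν {u : UHR (HQ Q) | ∃ κ ∈ Ω, u.1.1.1.1 = dgz b a * κ.1 * dgz b a⁻¹} ≤
      ENNReal.ofReal (C * ((∏ β ∈ Pos b, mixedEmbedding.norm (a β : EE L)) ^ ((Module.finrank K L : ℝ)⁻¹) / (Ideal.absNorm 𝔫 : ℝ) ^ (Pos b).card)) * ν D := by
  obtain ⟨J⟩ := lieH_exists Q
  obtain ⟨C, hC, h⟩ := q_vol J (fun v => (dsc_Gam (HQ Q) ⊤ v 0 0).sfU) hΩ
  refine ⟨C, hC, fun ν _ 𝔫 h0 v r s D hD t a ht => ?_⟩
  have h1 := h ν 𝔫 h0 v r s D hD 0 (fun _ _ _ => rfl) (fun _ => le_rfl)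
  have hS : {u : UHR (HQ Q) | ∃ κ ∈ Ω, u.1.1.1.1 = dgz b a * κ.1 * dgz b a⁻¹} =
      cU t⁻¹ (pe7_inv ht) ⁻¹' {u : UHR (HQ Q) | ∃ κ ∈ Ω, u.1.1.1.1 = L1S.dg b L 0 * κ.1 * L1S.dg b L (-0)} := by
    ext u
    have e0 : ∀ κ : GL (I b) (EE L), L1S.dg b L (0 : M →ₗ[ℚ] ℝ) * κ.1 * L1S.dg b L (-0) = κ.1 := by
      intro κ
      have e1 : L1S.dg b L (0 : M →ₗ[ℚ] ℝ) = 1 := by
        unfold L1S.dg
        rw [← Matrix.diagonal_one]
        congr 1
        funext r
        rcases r with j | β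
        · rfl
        · simp
      rw [neg_zero, e1, Matrix.one_mul, Matrix.mul_one]
    have e2 : (cU t⁻¹ (pe7_inv ht) u).1.1.1.1 = dgz b a⁻¹ * u.1.1.1.1 * dgz b a := by
      rw [cU_mat, inv_inv]
    have i1 : dgz b a⁻¹ * dgz b a = 1 := (dgU b a).inv_val
    have i2 : dgz b a * dgz b a⁻¹ = 1 := (dgU b a).val_inv
    simp only [Set.mem_preimage, Set.mem_ofPred_eq, e0, e2]
    refine exists_congr fun κ => and_congr_right fun _ => ?_
    constructor
    · intro h2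
      rw [h2]
      calc dgz b a⁻¹ * (dgz b a * κ.1 * dgz b a⁻¹) * dgz b a = (dgz b a⁻¹ * dgz b a) * κ.1 * (dgz b a⁻¹ * dgz b a) := by simp only [Matrix.mul_assoc]
        _ = κ.1 := by rw [i1, Matrix.one_mul, Matrix.mul_one]
    · intro h2
      rw [← h2]
      calc u.1.1.1.1 = (dgz b a * dgz b a⁻¹) * u.1.1.1.1 * (dgz b a * dgz b a⁻¹) := by rw [i2, Matrix.one_mul, Matrix.mul_one]
        _ = _ := by simp only [Matrix.mul_assoc]
  have hmod := pe_mod (pe7_inv ht) ν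
  have hme : MeasurableSet {u : UHR (HQ Q) | ∃ κ ∈ Ω, u.1.1.1.1 = L1S.dg b L (0 : M →ₗ[ℚ] ℝ) * κ.1 * L1S.dg b L (-0)} := rh13_meas hΩ 0
  have h2 : ν {u : UHR (HQ Q) | ∃ κ ∈ Ω, u.1.1.1.1 = dgz b a * κ.1 * dgz b a⁻¹} =
      ENNReal.ofReal ((∏ β ∈ Pos b, mixedEmbedding.norm (a β : EE L)) ^ ((Module.finrank K L : ℝ)⁻¹)) * ν {u : UHR (HQ Q) | ∃ κ ∈ Ω, u.1.1.1.1 = L1S.dg b L (0 : M →ₗ[ℚ] ℝ) * κ.1 * L1S.dg b L (-0)} := by
    rw [hS, ← Measure.map_apply (cU_cont _).measurable hme, hmod, Measure.smul_apply, smul_eq_mul]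
    congr 2
    have e3 : ∀ β, mixedEmbedding.norm ((a⁻¹ β : (EE L)ˣ) : EE L) = (mixedEmbedding.norm (a β : EE L))⁻¹ := fun β => pd_norm_inv (a β)
    simp only [e3, Finset.prod_inv_distrib]
    rw [Real.inv_rpow (Finset.prod_nonneg fun _ _ => mixedEmbedding.norm_nonneg _), inv_inv]
  rw [h2]
  have h3 : ∏ β ∈ Pos b, Real.exp (Module.finrank ℚ K * (0 : M →ₗ[ℚ] ℝ) (P.root β)) / (Ideal.absNorm 𝔫 : ℝ) = ((Ideal.absNorm 𝔫 : ℝ) ^ (Pos b).card)⁻¹ := by
    have h4 : ∀ β ∈ Pos b, Real.exp (Module.finrank ℚ K * (0 : M →ₗ[ℚ] ℝ) (P.root β)) / (Ideal.absNorm 𝔫 : ℝ) = (Ideal.absNorm 𝔫 : ℝ)⁻¹ := by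
      intro β _
      rw [LinearMap.zero_apply, mul_zero, Real.exp_zero, one_div]
    rw [Finset.prod_congr rfl h4, Finset.prod_const, inv_pow]
  rw [h3] at h1
  have hR : 0 ≤ (∏ β ∈ Pos b, mixedEmbedding.norm (a β : EE L)) ^ ((Module.finrank K L : ℝ)⁻¹) := Real.rpow_nonneg (Finset.prod_nonneg fun _ _ => mixedEmbedding.norm_nonneg _) _
  calc _ ≤ ENNReal.ofReal ((∏ β ∈ Pos b, mixedEmbedding.norm (a β : EE L)) ^ ((Module.finrank K L : ℝ)⁻¹)) * (ENNReal.ofReal (C * ((Ideal.absNorm 𝔫 : ℝ) ^ (Pos b).card)⁻¹) * ν D) := mul_le_mul_right h1 _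
    _ = _ := by
      rw [← mul_assoc, ← ENNReal.ofReal_mul hR]
      congr 2
      rw [div_eq_mul_inv]
      ring

end

end Pool.Agent.Lib.L8
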