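import Pool.Agent.Lib.L8.QMain8
import Pool.Agent.Lib.L8.PE1
import Pool.Agent.Lib.L8.PE7

/-!
# L8, file PE8 (helper29): the statement at every torus point, from `qm8_core` and `pe_vol`
-/

namespace Pool.Agent.Lib.L8

open MeasureTheory Matrix NumberField NumberField.InfinitePlace IsDedekindDomain Pool.Agent.Lib.H89N Pool.Agent.Lib.H33W Pool.Agent.Lib.H67G Pool.Agent.Lib.L1S
open scoped ENNReal Pointwise

noncomputable section

set_option linter.unusedSectionVars false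

variable {ι M N : Type} [Fintype ι] [DecidableEq ι] [AddCommGroup M] [Module ℚ M] [AddCommGroup N] [Module ℚ N]
  {P : RootPairing ι ℚ M N} [P.IsCrystallographic] {b : P.Base}

variable [P.IsRootSystem] [P.IsReduced] [P.IsIrreducible] {K L : Type} [Field K] [NumberField K] [Field L] [NumberField L] [Algebra K L]

/-- **The density theorem at the archimedean places**, at the points `x ∈ U t Ω`, `t` an arbitrary element of the torus. -/
theorem statementT (Q : QS b K L) [IsGalois K L] : StatementT Q := by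
  classical
  intro μ _ φ cφ sφ Ω hΩ
  obtain ⟨c₁, hc1, hcore⟩ := qm8_core Q (μ := μ) cφ sφ hΩ
  obtain ⟨CV, hCV0, hCV⟩ := pe_vol Q (om2_compact b hΩ (cg_compact (HQ Q) sφ.isCompact))
  refine ⟨c₁ * CV, ?_⟩
  intro v 𝔫 h0 hv r s θ hθ t a ht x hx τ _ Kt cK tK w mw bw Λ hop B hB hKB m hsz ν _ D hD n F hF hort κ hκ D' hD'
  have hP0 : 0 ≤ ∏ β ∈ Pos b, mixedEmbedding.norm (a β : EE L) := Finset.prod_nonneg fun β _ => mixedEmbedding.norm_nonneg _
  have hX0 : 0 ≤ (∏ β ∈ Pos b, mixedEmbedding.norm (a β : EE L)) ^ ((Module.finrank K L : ℝ)⁻¹) / (Ideal.absNorm 𝔫 : ℝ) ^ (Pos b).card := by positivity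
  have hsz' : Sz4 b L 𝔫 v r s 0 0 (Rf b fun i w => B i w ^ (2 * m)) (Ea b a) := by
    intro i j hO
    simp only [qm8_Rf, qm8_Sl, add_zero, zpow_zero, one_pow, one_mul]
    exact hsz i j hO
  have hx' : InRz (HQ Q) Ω a x := by
    obtain ⟨u, ω, hω, e⟩ := hx
    exact ⟨u, ω, hω, by rw [e, ht]⟩
  exact (hcore v 𝔫 h0 hv r s θ hθ a (fun β => pe_inv (g := t.1) ht β) x hx' τ w Kt Λ ⟨inferInstance, mw, bw, cK, tK, hop⟩ B hB hKB m hsz' ν
    (CV * ((∏ β ∈ Pos b, mixedEmbedding.norm (a β : EE L)) ^ ((Module.finrank K L : ℝ)⁻¹) / (Ideal.absNorm 𝔫 : ℝ) ^ (Pos b).card)) (mul_nonneg hCV0 hX0)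
    (fun D₁ hD₁ => hCV ν 𝔫 h0 v r s D₁ hD₁ t a ht) D hD n F hF hort κ hκ D' hD').trans (le_of_eq (by ring))

end

end Pool.Agent.Lib.L8
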