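import Pool.Agent.Lib.L8.MainM
import Pool.Agent.Lib.L8.PE8

/-!
# M: the hybrid density theorem (helper43): final file
-/

namespace Pool.Agent.Lib.L8

open MeasureTheory Matrix NumberField NumberField.InfinitePlace IsDedekindDomain Pool.Agent.Lib.H89N Pool.Agent.Lib.H33W Pool.Agent.Lib.H67G Pool.Agent.Lib.L1S

noncomputable section

set_option linter.unusedSectionVars false

variable {ι M N : Type} [Fintype ι] [DecidableEq ι] [AddCommGroup M] [Module ℚ M] [AddCommGroup N] [Module ℚ N]
  {P : RootPairing ι ℚ M N} [P.IsCrystallographic] {b : P.Base}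

variable [P.IsRootSystem] [P.IsReduced] [P.IsIrreducible] {K L : Type} [Field K] [NumberField K] [Field L] [NumberField L] [Algebra K L]

/-- **The hybrid density theorem**, at a finite place and at the archimedean places, at every torus point. -/
theorem statementM (Q : QS b K L) [IsGalois K L] : StatementM Q :=
  statementM_of Q (fun _ hΩ => pe_vol Q hΩ) fun t _ ht β => pe_inv (g := t.1) ht β

end

end Pool.Agent.Lib.L8
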