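import Pool.Agent.Lib.L8.FV6
import Pool.Agent.Lib.L8.FV7
import Pool.Agent.Lib.L8.MFinal

/-!
# L8, version 2, module F (helper67), FV8: the final theorem
-/

namespace Pool.Agent.Lib.L8

open MeasureTheory Matrix NumberField IsDedekindDomain Pool.Agent.Lib.H89N Pool.Agent.Lib.L1S Topology

noncomputable section

section grp

variable {ι M N : Type} [Fintype ι] [DecidableEq ι] [AddCommGroup M] [Module ℚ M] [AddCommGroup N] [Module ℚ N]
  {P : RootPairing ι ℚ M N} [P.IsCrystallographic] [P.IsReduced] [P.IsIrreducible] [P.IsRootSystem] {b : P.Base}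
  {K L : Type} [Field K] [NumberField K] [Field L] [NumberField L] [Algebra K L]

/-- **Version 2 of L8: explicit exponents at a split archimedean place.** -/
theorem statementV (Q : QS b K L) [IsGalois K L] : StatementV Q := statementV_of Q (statementM Q)

end grp

end

end Pool.Agent.Lib.L8
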