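import Pool.Agent.Lib.L8.FV7
import Pool.Agent.Lib.L1S.QE
import Pool.Agent.Lib.L1S.QX5

/-!
# L8, version 2, module F (helper67), FVQ1: the action of the Galois group on `L ⊗ ℝ`, places of `L` which are unramified over `K`
-/

namespace Pool.Agent.Lib.L8

open Matrix NumberField Pool.Agent.Lib.H89N Pool.Agent.Lib.H33W Pool.Agent.Lib.L1S Topology

noncomputable section

set_option linter.unusedSectionVars false

section act

variable {K L : Type} [Field K] [NumberField K] [Field L] [NumberField L] [Algebra K L]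

/-- `s` as a `ℚ`-linear map. -/
def sL (s : L ≃ₐ[K] L) : L →ₗ[ℚ] L := (s : L ≃+* L).toAddEquiv.toAddMonoidHom.toRatLinearMap

theorem sL_apply (s : L ≃ₐ[K] L) (x : L) : sL s x = s x := rfl

/-- **The action of the Galois group on `L ⊗ ℝ`.** -/
def sE (s : L ≃ₐ[K] L) : EE L →+* EE L where
  toFun := qe1 (sL s)
  map_one' := by
    rw [← map_one (mixedEmbedding L), qe1_emb, sL_apply, map_one]
  map_zero' := map_zero _
  map_add' := map_add _
  map_mul' x y := by
    have hd := t3_dense L
    have c := qe1_cont (sL s)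
    refine hd.induction_on₂ (p := fun x y => qe1 (sL s) (x * y) = qe1 (sL s) x * qe1 (sL s) y)
      (isClosed_eq (c.comp (continuous_fst.mul continuous_snd)) ((c.comp continuous_fst).mul (c.comp continuous_snd))) (fun x y => ?_) x y
    rw [← map_mul (mixedEmbedding L), qe1_emb, qe1_emb, qe1_emb, ← map_mul (mixedEmbedding L), sL_apply, sL_apply, sL_apply, map_mul]

theorem sE_emb (s : L ≃ₐ[K] L) (x : L) : sE s (mixedEmbedding L x) = mixedEmbedding L (s x) := qe1_emb _ _

theorem sE_cont (s : L ≃ₐ[K] L) : Continuous (sE s) := qe1_cont _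

theorem sE_mul (s t : L ≃ₐ[K] L) (x : EE L) : sE (s * t) x = sE s (sE t x) := by
  have h := (t3_dense L).equalizer (sE_cont (s * t)) ((sE_cont s).comp (sE_cont t)) (funext fun x => by
    show sE (s * t) (mixedEmbedding L x) = sE s (sE t (mixedEmbedding L x))
    rw [sE_emb, sE_emb, sE_emb]
    rfl)
  exact congrFun h x

theorem sE_one (x : EE L) : sE (1 : L ≃ₐ[K] L) x = x := by
  have h := (t3_dense L).equalizer (sE_cont (1 : L ≃ₐ[K] L)) continuous_id (funext fun x => by
    show sE (1 : L ≃ₐ[K] L) (mixedEmbedding L x) = mixedEmbedding L x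
    rw [sE_emb]
    rfl)
  exact congrFun h x

theorem sE_norm (s : L ≃ₐ[K] L) (w : InfinitePlace L) (x : EE L) : mixedEmbedding.normAtPlace w (sE s x) = mixedEmbedding.normAtPlace (w.comap (s : L →+* L)) x := by
  have h := (t3_dense L).equalizer ((mixedEmbedding.continuous_normAtPlace w).comp (sE_cont s)) (mixedEmbedding.continuous_normAtPlace (w.comap (s : L →+* L))) (funext fun x => by
    show mixedEmbedding.normAtPlace w (sE s (mixedEmbedding L x)) = mixedEmbedding.normAtPlace (w.comap (s : L →+* L)) (mixedEmbedding L x)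
    rw [sE_emb, mixedEmbedding.normAtPlace_apply, mixedEmbedding.normAtPlace_apply]
    rfl)
  exact congrFun h x

/-- The norm is invariant. -/
theorem sE_nrm (s : L ≃ₐ[K] L) (x : EE L) : mixedEmbedding.norm (sE s x) = mixedEmbedding.norm x := by
  have h := (t3_dense L).equalizer ((mixedEmbedding.continuous_norm L).comp (sE_cont s)) (mixedEmbedding.continuous_norm L) (funext fun x => by
    show mixedEmbedding.norm (sE s (mixedEmbedding L x)) = mixedEmbedding.norm (mixedEmbedding L x)
    rw [sE_emb, mixedEmbedding.norm_eq_norm, mixedEmbedding.norm_eq_norm]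
    congr 2
    exact Algebra.norm_eq_of_algEquiv (AlgEquiv.restrictScalars ℚ s) x)
  exact congrFun h x

variable {F : Type} [RCLike F]

/-- The places `s(v)` are distinct. -/
def Orth (K : Type) {L F : Type} [Field K] [NumberField K] [Field L] [NumberField L] [Algebra K L] [RCLike F] (v : Plc L F) : Prop := ∀ s : L ≃ₐ[K] L, s ≠ 1 → ∀ t t' : F, sE s (v.i t) * v.i t' = 0

theorem Orth.ne {v : Plc L F} (h : Orth K v) {s s' : L ≃ₐ[K] L} (hs : s ≠ s') (t t' : F) : sE s (v.i t) * sE s' (v.i t') = 0 := by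
  have h1 : s'⁻¹ * s ≠ 1 := fun e => hs (inv_mul_eq_one.1 e).symm
  have h2 := congrArg (sE s') (h (s'⁻¹ * s) h1 t t')
  rw [map_mul, map_zero, ← sE_mul, mul_inv_cancel_left] at h2
  exact h2

theorem Orth.p {v : Plc L F} (h : Orth K v) {s : L ≃ₐ[K] L} (hs : s ≠ 1) (t : F) : v.p (sE s (v.i t)) = 0 := by
  have h1 := congrArg v.p (h s hs t 1)
  rw [map_mul, v.p_i, mul_one, map_zero] at h1
  exact h1

/-- A place of `L` which is unramified over `K`. -/
theorem orth_of [IsGalois K L] (v : Plc L F) {w₀ : InfinitePlace L} (hv : ∀ w, w ≠ w₀ → ∀ t, mixedEmbedding.normAtPlace w (v.i t) = 0) (hw : w₀.IsUnramified K) : Orth K v := by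
  intro s hs t t'
  rw [← mixedEmbedding.forall_normAtPlace_eq_zero_iff]
  intro w
  rw [map_mul]
  by_cases h : w = w₀
  · rw [h, sE_norm, hv _ (fun e => ?_), zero_mul]
    have h1 := (InfinitePlace.isUnramified_iff_stabilizer_eq_bot (k := K)).1 hw
    have h2 : s ∈ MulAction.stabilizer (L ≃ₐ[K] L) w₀ := by
      rw [MulAction.mem_stabilizer_iff]
      have h3 : s⁻¹ • w₀ = w₀ := e
      conv_lhs => rw [← h3]
      rw [smul_inv_smul]
    rw [h1] at h2
    exact hs h2
  · rw [hv w h, mul_zero]

end act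

section plc

variable {K : Type} [Field K] [NumberField K]

open scoped Classical in
theorem plcR_at (w₀ : InfinitePlace K) (h : w₀.IsReal) (w : InfinitePlace K) (hw : w ≠ w₀) (t : ℝ) : mixedEmbedding.normAtPlace w ((plcR w₀ h).i t) = 0 := by
  by_cases hr : w.IsReal
  · rw [mixedEmbedding.normAtPlace_apply_of_isReal hr]
    show ‖s1 (⟨w₀, h⟩ : {w : InfinitePlace K // w.IsReal}) t ⟨w, hr⟩‖ = 0
    rw [s1_ne (fun e => hw (congrArg Subtype.val e)), norm_zero]
  · rw [mixedEmbedding.normAtPlace_apply_of_isComplex (InfinitePlace.not_isReal_iff_isComplex.1 hr)]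
    show ‖(0 : ℂ)‖ = 0
    rw [norm_zero]

open scoped Classical in
theorem plcC_at (w₀ : InfinitePlace K) (h : w₀.IsComplex) (w : InfinitePlace K) (hw : w ≠ w₀) (t : ℂ) : mixedEmbedding.normAtPlace w ((plcC w₀ h).i t) = 0 := by
  by_cases hr : w.IsReal
  · rw [mixedEmbedding.normAtPlace_apply_of_isReal hr]
    show ‖(0 : ℝ)‖ = 0
    rw [norm_zero]
  · rw [mixedEmbedding.normAtPlace_apply_of_isComplex (InfinitePlace.not_isReal_iff_isComplex.1 hr)]
    show ‖s1 (⟨w₀, h⟩ : {w : InfinitePlace K // w.IsComplex}) t ⟨w, InfinitePlace.not_isReal_iff_isComplex.1 hr⟩‖ = 0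
    rw [s1_ne (fun e => hw (congrArg Subtype.val e)), norm_zero]

end plc

end

end Pool.Agent.Lib.L8
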