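import Pool.Agent.Lib.L8.FVQ1

/-!
# L8, version 2, module F (helper67), FVQ2: quasi-split groups: the embedding of the local group at a place of `L` which is unramified over `K`
-/

namespace Pool.Agent.Lib.L8

open Matrix NumberField Pool.Agent.Lib.H89N Pool.Agent.Lib.H33W Pool.Agent.Lib.L1S Topology

noncomputable section

set_option linter.unusedSectionVars false

variable {ι M N : Type} [Fintype ι] [DecidableEq ι] [AddCommGroup M] [Module ℚ M] [AddCommGroup N] [Module ℚ N]
  {P : RootPairing ι ℚ M N} [P.IsCrystallographic] [P.IsReduced] [P.IsIrreducible] [P.IsRootSystem] {b : P.Base}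
  {K L F : Type} [Field K] [NumberField K] [Field L] [NumberField L] [Algebra K L] [RCLike F] (Q : QS b K L) (v : Plc L F)

/-- `J(A) = ∑_s D_s s(i(A)) D_s⁻¹`. -/
def Jq (A : Matrix (I b) (I b) F) : Matrix (I b) (I b) (EE L) := ∑ s : L ≃ₐ[K] L, (Q.da s).cj ((A.map v.i).map (sE s))

theorem Jq_add (A B : Matrix (I b) (I b) F) : Jq Q v (A + B) = Jq Q v A + Jq Q v B := by
  unfold Jq
  rw [← Finset.sum_add_distrib]
  refine Finset.sum_congr rfl fun s _ => ?_
  rw [← DA.cj_add]
  congr 1
  refine Matrix.ext fun r c => ?_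
  simp only [Matrix.map_apply, Matrix.add_apply, map_add]

/-- `J` as a homomorphism of additive groups. -/
def JqA : Matrix (I b) (I b) F →+ Matrix (I b) (I b) (EE L) where
  toFun := Jq Q v
  map_zero' := by
    unfold Jq
    refine Finset.sum_eq_zero fun s _ => ?_
    have h : ((0 : Matrix (I b) (I b) F).map v.i).map (sE s) = 0 := by
      refine Matrix.ext fun r c => ?_
      simp only [Matrix.map_apply, Matrix.zero_apply, map_zero]
    rw [h, DA.cj_zero]
  map_add' := Jq_add Q v

theorem JqA_apply (A : Matrix (I b) (I b) F) : JqA Q v A = Jq Q v A := rfl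

theorem Jq_cont : Continuous (Jq Q v) := by
  unfold Jq
  refine continuous_finsetSum _ fun s _ => ?_
  have h1 : Continuous fun A : Matrix (I b) (I b) F => (A.map v.i).map (sE s) := (Continuous.matrix_map continuous_id v.i_cont).matrix_map (sE_cont s)
  exact h1.matrix_submatrix _ _

variable {Q v}

theorem Jq_mul (h : Orth K v) (A B : Matrix (I b) (I b) F) : Jq Q v (A * B) = Jq Q v A * Jq Q v B := by
  unfold Jq
  rw [Finset.sum_mul]
  refine Finset.sum_congr rfl fun s _ => ?_
  rw [Finset.mul_sum, Finset.sum_eq_single s]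
  · rw [← DA.cj_mul, fv_map_mul]
    congr 1
    refine Matrix.ext fun r c => ?_
    simp only [Matrix.map_apply, Matrix.mul_apply, map_sum, map_mul]
  · intro s' _ hs
    refine Matrix.ext fun r c => ?_
    rw [Matrix.mul_apply, Matrix.zero_apply]
    exact Finset.sum_eq_zero fun k _ => h.ne hs.symm _ _
  · exact fun hn => absurd (Finset.mem_univ _) hn

theorem p_Jq (h : Orth K v) (A : Matrix (I b) (I b) F) : (Jq Q v A).map v.p = A := by
  refine Matrix.ext fun r c => ?_
  unfold Jq
  rw [Matrix.map_apply, Matrix.sum_apply, map_sum, Finset.sum_eq_single 1]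
  · show v.p (sE 1 (v.i (A ((Q.da 1).pI.symm r) ((Q.da 1).pI.symm c)))) = A r c
    rw [sE_one, v.p_i]
    have h1 : ∀ r : I b, (Q.da 1).pI.symm r = r := fun r => by
      rw [Equiv.symm_apply_eq]
      rcases r with i | β
      · rw [DA.pI_inl, qx_sp_one]
      · rw [DA.pI_inr, map_one]
        rfl
    rw [h1, h1]
  · intro s _ hs
    exact h.p hs _
  · exact fun hn => absurd (Finset.mem_univ _) hn

variable (Q v) in
/-- The matrix of `j(g)`. -/
def jqM (g : Matrix (I b) (I b) F) : Matrix (I b) (I b) (EE L) := 1 + Jq Q v (g - 1)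

theorem jqM_one : jqM Q v 1 = 1 := by
  unfold jqM
  rw [sub_self, ← JqA_apply, map_zero, add_zero]

theorem jqM_mul (h : Orth K v) (g g' : Matrix (I b) (I b) F) : jqM Q v (g * g') = jqM Q v g * jqM Q v g' := by
  obtain ⟨A, hA⟩ : ∃ A, A = g - 1 := ⟨_, rfl⟩
  obtain ⟨B, hB⟩ : ∃ B, B = g' - 1 := ⟨_, rfl⟩
  have e1 : g * g' - 1 = A + B + A * B := by
    rw [hA, hB]
    noncomm_ring
  rw [jqM, jqM, jqM, e1, ← hA, ← hB, Jq_add, Jq_add, Jq_mul h]
  noncomm_ring

theorem p_jqM (h : Orth K v) (g : Matrix (I b) (I b) F) : (jqM Q v g).map v.p = g := by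
  have h1 : (jqM Q v g).map v.p = (1 : Matrix (I b) (I b) (EE L)).map v.p + (Jq Q v (g - 1)).map v.p := by
    unfold jqM
    refine Matrix.ext fun r c => ?_
    simp only [Matrix.map_apply, Matrix.add_apply, map_add]
  rw [h1, p_Jq h, Matrix.map_one _ (map_zero _) (map_one _), add_sub_cancel]

theorem jqM_cont : Continuous (jqM Q v) := by
  unfold jqM
  exact continuous_const.add ((Jq_cont Q v).comp (continuous_id.sub continuous_const))

variable (Q) in
/-- The embedding on `GL`. -/
def jqGL (h : Orth K v) : GL (I b) F →* GL (I b) (EE L) where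
  toFun g := ⟨jqM Q v g.1, jqM Q v g⁻¹.1, by rw [← jqM_mul h, g.mul_inv, jqM_one], by rw [← jqM_mul h, g.inv_mul, jqM_one]⟩
  map_one' := Units.ext jqM_one
  map_mul' g g' := Units.ext (jqM_mul h g.1 g'.1)

theorem jqGL_cont (h : Orth K v) : Continuous (jqGL Q h) := by
  rw [Units.continuous_iff]
  exact ⟨jqM_cont.comp Units.continuous_val, jqM_cont.comp (Units.continuous_val.comp continuous_inv)⟩

/-! ## The elements of the real group are fixed by the Galois group -/

theorem hr_fix (Q : QS b K L) {g : GR b L} (hg : g ∈ HRs (HQ Q)) (s : L ≃ₐ[K] L) : (Q.da s).cj (g.1.1.map (sE s)) = g.1.1 := by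
  have c1 : Continuous fun g : GR b L => g.1.1 := Units.continuous_val.comp continuous_subtype_val
  have c2 : Continuous fun g : GR b L => (Q.da s).cj (g.1.1.map (sE s)) := (c1.matrix_map (sE_cont s)).matrix_submatrix _ _
  have hc : IsClosed {g : GR b L | (Q.da s).cj (g.1.1.map (sE s)) = g.1.1} := isClosed_eq c2 c1
  have h1 : ((HQ Q).map (emb b L) : Set (GR b L)) ⊆ {g : GR b L | (Q.da s).cj (g.1.1.map (sE s)) = g.1.1} := by
    rintro _ ⟨h, hh, rfl⟩
    have e : (emb b L h).1.1 = h.1.1.map (mixedEmbedding L) := rfl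
    show (Q.da s).cj ((emb b L h).1.1.map (sE s)) = (emb b L h).1.1
    rw [e]
    have e2 : (h.1.1.map (mixedEmbedding L)).map (sE s) = (h.1.1.map s).map (mixedEmbedding L) := by
      refine Matrix.ext fun r c => ?_
      simp only [Matrix.map_apply]
      exact sE_emb s _
    rw [e2]
    have e3 : (Q.da s).cj ((h.1.1.map s).map (mixedEmbedding L)) = ((Q.da s).cj (h.1.1.map s)).map (mixedEmbedding L) := DA.cj_map _ _ _
    rw [e3]
    have e4 : (Q.da s).cj (h.1.1.map s) = h.1.1 := li7_HQ Q hh s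
    rw [e4]
  exact closure_minimal h1 hc hg

/-- Elements of the real group which are trivial at `v` act trivially on `J(A)`. -/
theorem hr_Jq {ω : GR b L} (hω : ω ∈ HRs (HQ Q)) (hp : ω.1.1.map v.p = 1) (A : Matrix (I b) (I b) F) : ω.1.1 * Jq Q v A = Jq Q v A ∧ Jq Q v A * ω.1.1 = Jq Q v A := by
  unfold Jq
  rw [Finset.mul_sum, Finset.sum_mul]
  constructor
  · refine Finset.sum_congr rfl fun s _ => ?_
    conv_lhs => rw [← hr_fix Q hω s]
    rw [← DA.cj_mul]
    congr 1
    have e1 : ω.1.1.map (sE s) * (A.map v.i).map (sE s) = (ω.1.1 * A.map v.i).map (sE s) := by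
      refine Matrix.ext fun r c => ?_
      simp only [Matrix.map_apply, Matrix.mul_apply, map_sum, map_mul]
    rw [e1, fv_mul_i, hp, one_mul]
  · refine Finset.sum_congr rfl fun s _ => ?_
    conv_lhs => rw [← hr_fix Q hω s]
    rw [← DA.cj_mul]
    congr 1
    have e1 : (A.map v.i).map (sE s) * ω.1.1.map (sE s) = (A.map v.i * ω.1.1).map (sE s) := by
      refine Matrix.ext fun r c => ?_
      simp only [Matrix.map_apply, Matrix.mul_apply, map_sum, map_mul]
    rw [e1, fv_i_mul, hp, mul_one]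

/-! ## Membership -/

/-- The closure of `H` in `GL(L ⊗ ℝ)`. -/
def TQ (Q : QS b K L) : Subgroup (GL (I b) (EE L)) := ((HQ Q).map ((embGL b L).comp (Subgroup.subtype _))).topologicalClosure

theorem TQ_mem {g : GL (I b) (EE L)} (hg : g ∈ TQ Q) : ∃ h : g ∈ GE b L, (⟨g, h⟩ : GR b L) ∈ HRs (HQ Q) := by
  have h1 : g ∈ closure (((HQ Q).map ((embGL b L).comp (Subgroup.subtype _)) : Subgroup (GL (I b) (EE L))) : Set (GL (I b) (EE L))) := hg
  have h2 : (((HQ Q).map ((embGL b L).comp (Subgroup.subtype _)) : Subgroup (GL (I b) (EE L))) : Set (GL (I b) (EE L))) ⊆ ((GQ b L).map (embGL b L) : Set (GL (I b) (EE L))) := by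
    rintro _ ⟨g, _, rfl⟩
    exact ⟨g.1, g.2, rfl⟩
  have h3 : g ∈ GE b L := closure_mono h2 h1
  refine ⟨h3, ?_⟩
  show _ ∈ closure (((HQ Q).map (emb b L) : Subgroup (GR b L)) : Set (GR b L))
  rw [closure_subtype]
  refine closure_mono ?_ h1
  rintro _ ⟨g, hg, rfl⟩
  exact ⟨emb b L g, ⟨g, hg, rfl⟩, rfl⟩

theorem ne_toA_map {A B : Type} [CommRing A] [CommRing B] (f : A →+* B) (X : Matrix (I b) (I b) ℤ) : (toA A X).map f = toA B X := by
  refine Matrix.ext fun r c => ?_
  simp only [toA, Matrix.map_apply, map_intCast]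

/-- **The one parameter groups.** -/
theorem jq_one (h : Orth K v) {c : b.support → Matrix (I b) (I b) ℤ} (hc : ∀ (s : L ≃ₐ[K] L) i, (Q.da s).cj (c i) = c ((Q.da s).sp i)) {B : ℕ}
    (hB : ∀ (A : Type) [CommRing A] (a : (L ≃ₐ[K] L) → A) (i : b.support), (∑ s, a s • toA A (c ((Q.da s).sp i))) ^ (B + 1) = 0)
    (hL : ∀ (i : b.support) (t : L), ∃ g ∈ HQ Q, g.1.1 = IsNilpotent.exp (∑ s : L ≃ₐ[K] L, s t • toA L (c ((Q.da s).sp i)))) (i : b.support) (t₀ : F) {g : GL (I b) F}
    (hg : g.1 = IsNilpotent.exp (t₀ • toA F (c i))) : jqGL Q h g ∈ TQ Q := by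
  obtain ⟨X, hX⟩ : ∃ X : EE L → Matrix (I b) (I b) (EE L), X = fun t => ∑ s : L ≃ₐ[K] L, sE s t • toA (EE L) (c ((Q.da s).sp i)) := ⟨_, rfl⟩
  have hX0 : ∀ t, X t ^ (B + 1) = 0 := fun t => by
    rw [hX]
    exact hB _ _ _
  have hXn : ∀ t, IsNilpotent (X t) := fun t => ⟨_, hX0 t⟩
  obtain ⟨E, hE⟩ : ∃ E : EE L → GL (I b) (EE L), E = fun t => ⟨IsNilpotent.exp (X t), IsNilpotent.exp (-X t), IsNilpotent.exp_mul_exp_neg_self (hXn t), IsNilpotent.exp_neg_mul_exp_self (hXn t)⟩ := ⟨_, rfl⟩
  have cX : Continuous X := by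
    rw [hX]
    refine continuous_finsetSum _ fun s _ => ?_
    exact (sE_cont s).smul continuous_const
  have qc : ∀ (q : ℚ) {f : EE L → Matrix (I b) (I b) (EE L)}, Continuous f → Continuous fun t => q • f t := fun q f hf => by
    have e : (fun t => q • f t) = fun t => (q : ℝ) • f t := funext fun t => (Rat.cast_smul_eq_qsmul ℝ q (f t)).symm
    rw [e]
    exact hf.const_smul (q : ℝ)
  have cE : Continuous E := by
    have h1 : Continuous fun t => IsNilpotent.exp (X t) := by
      have e : (fun t => IsNilpotent.exp (X t)) = fun t => ∑ k ∈ Finset.range (B + 1), ((k.factorial : ℚ)⁻¹) • X t ^ k := funext fun t => IsNilpotent.exp_eq_sum (hX0 t)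
      rw [e]
      exact continuous_finsetSum _ fun k _ => qc _ (cX.pow k)
    have h2 : Continuous fun t => IsNilpotent.exp (-X t) := by
      have e : (fun t => IsNilpotent.exp (-X t)) = fun t => ∑ k ∈ Finset.range (B + 1), ((k.factorial : ℚ)⁻¹) • (-X t) ^ k := funext fun t => IsNilpotent.exp_eq_sum (by rw [neg_pow, hX0, mul_zero])
      rw [e]
      exact continuous_finsetSum _ fun k _ => qc _ (cX.neg.pow k)
    rw [hE, Units.continuous_iff]
    exact ⟨h1, h2⟩
  have hmem : ∀ t, E t ∈ TQ Q := by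
    have hcl : IsClosed {t : EE L | E t ∈ TQ Q} := (Subgroup.isClosed_topologicalClosure _).preimage cE
    intro t
    refine (t3_dense L).induction_on (p := fun t => E t ∈ TQ Q) t hcl fun t => ?_
    obtain ⟨g, hg, hge⟩ := hL i t
    refine Subgroup.le_topologicalClosure _ ⟨g, hg, ?_⟩
    rw [hE]
    refine Units.ext ?_
    show g.1.1.map (mixedEmbedding L) = IsNilpotent.exp (X (mixedEmbedding L t))
    have hn : IsNilpotent (∑ s : L ≃ₐ[K] L, s t • toA L (c ((Q.da s).sp i))) := ⟨_, hB L _ _⟩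
    have e1 := IsNilpotent.map_exp hn (RingHom.mapMatrix (m := I b) (mixedEmbedding L))
    rw [hge]
    refine e1.trans ?_
    congr 1
    rw [hX, map_sum]
    refine Finset.sum_congr rfl fun s _ => ?_
    refine Matrix.ext fun r c => ?_
    rw [RingHom.mapMatrix_apply, Matrix.map_apply, Matrix.smul_apply, Matrix.smul_apply, smul_eq_mul, smul_eq_mul, map_mul, sE_emb]
    congr 1
    exact map_intCast _ _
  have h1 : ∀ A : Matrix (I b) (I b) F, ∀ k : ℕ, Jq Q v (A ^ (k + 1)) = Jq Q v A ^ (k + 1) := fun A k => by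
    induction k with
    | zero => rw [zero_add, pow_one, pow_one]
    | succ k ih => rw [pow_succ, Jq_mul h, ih, ← pow_succ]
  have h2 : Jq Q v (t₀ • toA F (c i)) = X (v.i t₀) := by
    rw [hX]
    unfold Jq
    refine Finset.sum_congr rfl fun s _ => ?_
    rw [← hc s i]
    refine Matrix.ext fun r k => ?_
    show sE s (v.i (t₀ * ((c i ((Q.da s).pI.symm r) ((Q.da s).pI.symm k) : ℤ) : F))) = sE s (v.i t₀) * ((c i ((Q.da s).pI.symm r) ((Q.da s).pI.symm k) : ℤ) : EE L)
    rw [fv_int, map_mul, map_intCast]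
  have h3 : (t₀ • toA F (c i)) ^ (B + 1) = 0 := by
    rw [← p_Jq (Q := Q) h ((t₀ • toA F (c i)) ^ (B + 1)), h1, h2, hX0]
    refine Matrix.ext fun r k => ?_
    rw [Matrix.map_apply, Matrix.zero_apply, Matrix.zero_apply, map_zero]
  have h4 : jqGL Q h g = E (v.i t₀) := by
    rw [hE]
    refine Units.ext ?_
    show 1 + Jq Q v (g.1 - 1) = IsNilpotent.exp (X (v.i t₀))
    rw [hg, IsNilpotent.exp_eq_sum h3, IsNilpotent.exp_eq_sum (hX0 _), Finset.sum_range_succ', Finset.sum_range_succ']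
    rw [pow_zero, pow_zero, Nat.factorial_zero, Nat.cast_one, inv_one, one_smul, one_smul, add_sub_cancel_right, ← JqA_apply, map_sum, add_comm]
    congr 1
    refine Finset.sum_congr rfl fun k _ => ?_
    rw [map_rat_smul, JqA_apply, h1, h2]
  rw [h4]
  exact hmem _

end

end Pool.Agent.Lib.L8
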