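import Pool.Agent.Lib.L8.FVQ2

/-!
# L8, version 2, module F (helper67), FVQ3: quasi-split groups: the places of `L` which are unramified over `K` are split places
-/

namespace Pool.Agent.Lib.L8

open Matrix NumberField Pool.Agent.Lib.H89N Pool.Agent.Lib.H33W Pool.Agent.Lib.L1S Topology

noncomputable section

set_option linter.unusedSectionVars false

variable {ι M N : Type} [Fintype ι] [DecidableEq ι] [AddCommGroup M] [Module ℚ M] [AddCommGroup N] [Module ℚ N]
  {P : RootPairing ι ℚ M N} [P.IsCrystallographic] [P.IsReduced] [P.IsIrreducible] [P.IsRootSystem] {b : P.Base}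
  {K L F : Type} [Field K] [NumberField K] [Field L] [NumberField L] [Algebra K L] [RCLike F]

/-- A uniform bound for the nilpotency. -/
theorem fvq_nil (b : P.Base) : ∃ B : ℕ, ∀ (A : Type) [CommRing A] (X : Matrix (I b) (I b) A), RaiseBy (ht b) 1 X → X ^ (B + 1) = 0 := by
  refine ⟨∑ r : I b, ∑ c : I b, (ht b r - ht b c).natAbs, fun A _ X hX => ?_⟩
  refine Matrix.ext fun r c => ?_
  have h1 : (ht b r - ht b c).natAbs ≤ ∑ c : I b, (ht b r - ht b c).natAbs := Finset.single_le_sum (f := fun c : I b => (ht b r - ht b c).natAbs) (fun _ _ => Nat.zero_le _) (Finset.mem_univ c)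
  have h2 : (∑ c : I b, (ht b r - ht b c).natAbs) ≤ ∑ r : I b, ∑ c : I b, (ht b r - ht b c).natAbs :=
    Finset.single_le_sum (f := fun r : I b => ∑ c : I b, (ht b r - ht b c).natAbs) (fun _ _ => Nat.zero_le _) (Finset.mem_univ r)
  have h3 : (ht b r - ht b c) ≤ ((ht b r - ht b c).natAbs : ℤ) := Int.le_natAbs
  have h4 : ((ht b r - ht b c).natAbs : ℤ) ≤ ((∑ r : I b, ∑ c : I b, (ht b r - ht b c).natAbs : ℕ) : ℤ) := by exact_mod_cast h1.trans h2
  refine b3_pow hX _ r c ?_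
  rw [mul_one, Nat.cast_succ]
  linarith

variable (Q : QS b K L)

/-- `∑_s s(t) e_(s i)` is fixed by the Galois group. -/
theorem fvq_fx {c : b.support → Matrix (I b) (I b) ℤ} (hc : ∀ (s : L ≃ₐ[K] L) i, (Q.da s).cj (c i) = c ((Q.da s).sp i)) (i : b.support) (t : L) :
    Fx Q (∑ s : L ≃ₐ[K] L, s t • toA L (c ((Q.da s).sp i))) := by
  rw [fx_iff]
  intro s
  rw [qta_sum]
  refine Fintype.sum_equiv (Equiv.mulLeft s) _ _ fun s' => ?_
  rw [qta_smul, qta_toA, hc]
  show s (s' t) • toA L (c ((Q.da s).sp ((Q.da s').sp i))) = (s * s') t • toA L (c ((Q.da (s * s')).sp i))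
  rw [qx_sp_mul]
  rfl

variable {Q} {v : Plc L F}

theorem jq_mem (h : Orth K v) {g : GL (I b) F} (hg : g ∈ GFs b F) : jqGL Q h g ∈ TQ Q := by
  obtain ⟨B, hB⟩ := fvq_nil b
  have r1 : ∀ (A : Type) [CommRing A] (a : (L ≃ₐ[K] L) → A) (i : b.support), RaiseBy (ht b) 1 (∑ s, a s • toA A (eZ b ((Q.da s).sp i))) := fun A _ a i =>
    b3_sum _ _ fun s _ => b3_smul _ (eA_raise (A := A) _)
  have o1 : ∀ (A : Type) [CommRing A] (a : (L ≃ₐ[K] L) → A) (i : b.support), om b A * (∑ s, a s • toA A (fZ b ((Q.da s).sp i))) * om b A = ∑ s, a s • toA A (eZ b ((Q.da s).sp i)) := fun A _ a i => by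
    rw [Finset.mul_sum, Finset.sum_mul]
    refine Finset.sum_congr rfl fun s _ => ?_
    rw [mul_smul_comm, smul_mul_assoc]
    congr 1
    exact om_fA _
  have m1 : ∀ (i : b.support) (t : L), ∑ s : L ≃ₐ[K] L, s t • toA L (eZ b ((Q.da s).sp i)) ∈ gR b L := fun i t => Submodule.sum_mem _ fun s _ => Submodule.smul_mem _ _ (eA_mem _)
  have k1 : ∀ (i : b.support) (t₀ : F) {g : GL (I b) F}, g.1 = IsNilpotent.exp (t₀ • toA F (eZ b i)) → jqGL Q h g ∈ TQ Q := fun i t₀ g hg =>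
    jq_one h (fun s i => (Q.da s).cj_eZ i) (fun A _ a i => hB A _ (r1 A a i)) (fun i t => by
      obtain ⟨u, hu⟩ := qb2_exists Q (m1 i t) (r1 L _ i) (fvq_fx Q (fun s i => (Q.da s).cj_eZ i) i t)
      exact ⟨u.1.1, u.1.2, hu⟩) i t₀ hg
  have k2 : ∀ (i : b.support) (t₀ : F) {g : GL (I b) F}, g.1 = IsNilpotent.exp (t₀ • toA F (fZ b i)) → jqGL Q h g ∈ TQ Q := fun i t₀ g hg =>
    jq_one h (fun s i => (Q.da s).cj_fZ i) (fun A _ a i => by
      have h2 := hB A _ (r1 A a i)
      rw [← o1, om_pow] at h2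
      rw [← om_om ((∑ s, a s • toA A (fZ b ((Q.da s).sp i))) ^ (B + 1)), h2, mul_zero, zero_mul]) (fun i t => by
      refine qx_low Q ?_ ?_ (fvq_fx Q (fun s i => (Q.da s).cj_fZ i) i t)
      · rw [o1]
        exact m1 i t
      · rw [o1]
        exact r1 L _ i) i t₀ hg
  have h1 : (GQ b F) ≤ (TQ Q).comap (jqGL Q h) := by
    unfold GQ
    rw [Subgroup.closure_le]
    rintro g ⟨i, t, hg | hg⟩
    · exact k1 i t (by rw [hg, eM_eq])
    · exact k2 i t (by rw [hg, fM_eq])
  have h2 : IsClosed ((fun g : GL (I b) F => jqGL Q h g) ⁻¹' (TQ Q : Set (GL (I b) (EE L)))) :=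
    (Subgroup.isClosed_topologicalClosure _).preimage (jqGL_cont h)
  exact closure_minimal (fun g hg => h1 hg) h2 hg

/-- Sums of pairwise orthogonal elements. -/
theorem fvq_prod {A α : Type} [CommRing A] [DecidableEq α] (S : Finset α) (a : α → A) (h : ∀ s t, s ≠ t → a s * a t = 0) : ∏ s ∈ S, (1 + a s) = 1 + ∑ s ∈ S, a s := by
  induction S using Finset.induction_on with
  | empty => rw [Finset.prod_empty, Finset.sum_empty, add_zero]
  | insert s S hs ih =>
    rw [Finset.prod_insert hs, Finset.sum_insert hs, ih]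
    have e : a s * ∑ t ∈ S, a t = 0 := by
      rw [Finset.mul_sum]
      exact Finset.sum_eq_zero fun t ht => h s t fun e => hs (e ▸ ht)
    linear_combination e

theorem pI_symm_inr (Q : QS b K L) (s : L ≃ₐ[K] L) (β : ι) : (Q.da s).pI.symm (Sum.inr β) = Sum.inr (Q.act s⁻¹ β) := by
  rw [Equiv.symm_apply_eq, DA.pI_inr, ← Equiv.Perm.mul_apply, ← map_mul, mul_inv_cancel, map_one]
  rfl

theorem Jq_diag (d : I b → F) {r c : I b} (hrc : r ≠ c) : Jq Q v (Matrix.diagonal d) r c = 0 := by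
  unfold Jq
  rw [Matrix.sum_apply]
  refine Finset.sum_eq_zero fun s _ => ?_
  show sE s (v.i (Matrix.diagonal d ((Q.da s).pI.symm r) ((Q.da s).pI.symm c))) = 0
  rw [Matrix.diagonal_apply_ne _ fun e => hrc ((Q.da s).pI.symm.injective e), map_zero, map_zero]

theorem jqM_ex (y : b.support → ℝ) {r c : I b} (hrc : r ≠ c) : jqM Q v (exM b F y) r c = 0 := by
  unfold jqM exM
  rw [Matrix.add_apply, Matrix.one_apply_ne hrc, zero_add, ← Matrix.diagonal_one, Matrix.diagonal_sub]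
  exact Jq_diag _ hrc

/-- The diagonal entries of `j(exp y)`. -/
theorem jqM_ex_inr (y : b.support → ℝ) (β : ι) : jqM Q v (exM b F y) (Sum.inr β) (Sum.inr β) = 1 + ∑ s : L ≃ₐ[K] L, sE s (v.i (((Real.exp (pry b y (Sum.inr (Q.act s⁻¹ β))) : ℝ) : F) - 1)) := by
  unfold jqM Jq exM
  rw [Matrix.add_apply, Matrix.one_apply_eq, Matrix.sum_apply]
  congr 1
  refine Finset.sum_congr rfl fun s _ => ?_
  show sE s (v.i ((Matrix.diagonal (fun r => ((Real.exp (pry b y r) : ℝ) : F)) - 1) ((Q.da s).pI.symm (Sum.inr β)) ((Q.da s).pI.symm (Sum.inr β)))) = _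
  rw [pI_symm_inr, Matrix.sub_apply, Matrix.diagonal_apply_eq, Matrix.one_apply_eq]

theorem jqM_ex_inl (y : b.support → ℝ) (i : b.support) : jqM Q v (exM b F y) (Sum.inl i) (Sum.inl i) = 1 := by
  unfold jqM Jq exM
  rw [Matrix.add_apply, Matrix.one_apply_eq, Matrix.sum_apply, Finset.sum_eq_zero, add_zero]
  intro s _
  show sE s (v.i ((Matrix.diagonal (fun r => ((Real.exp (pry b y r) : ℝ) : F)) - 1) ((Q.da s).pI.symm (Sum.inl i)) ((Q.da s).pI.symm (Sum.inl i)))) = 0
  have h1 : ∃ j : b.support, (Q.da s).pI.symm (Sum.inl i) = Sum.inl j := by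
    refine ⟨(Q.da s).sp.symm i, ?_⟩
    rw [Equiv.symm_apply_eq, DA.pI_inl, Equiv.apply_symm_apply]
  obtain ⟨j, hj⟩ := h1
  rw [hj, Matrix.sub_apply, Matrix.diagonal_apply_eq, Matrix.one_apply_eq]
  have h0 : pry b y (Sum.inl j) = 0 := by
    unfold pry
    refine Finset.sum_eq_zero fun k _ => ?_
    have : pj b k (Sum.inl j) = 0 := rfl
    rw [this, Int.cast_zero, zero_mul]
  rw [h0, Real.exp_zero, RCLike.ofReal_one, sub_self, map_zero, map_zero]

variable (Q) in
/-- The entries of `j(exp y)` as units. -/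
def qA (h : Orth K v) (y : b.support → ℝ) (β : ι) : (EE L)ˣ where
  val := jqM Q v (exM b F y) (Sum.inr β) (Sum.inr β)
  inv := jqM Q v (exM b F (-y)) (Sum.inr β) (Sum.inr β)
  val_inv := by
    have h1 : jqM Q v (exM b F y) * jqM Q v (exM b F (-y)) = 1 := by rw [← jqM_mul h, ← exM_add, add_neg_cancel, exM_zero, jqM_one]
    have h2 := congrFun (congrFun h1 (Sum.inr β)) (Sum.inr β)
    rw [Matrix.mul_apply, Finset.sum_eq_single (Sum.inr β), Matrix.one_apply_eq] at h2
    · exact h2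
    · intro k _ hk
      rw [jqM_ex y (Ne.symm hk), zero_mul]
    · exact fun hn => absurd (Finset.mem_univ _) hn
  inv_val := by
    have h1 : jqM Q v (exM b F (-y)) * jqM Q v (exM b F y) = 1 := by rw [← jqM_mul h, ← exM_add, neg_add_cancel, exM_zero, jqM_one]
    have h2 := congrFun (congrFun h1 (Sum.inr β)) (Sum.inr β)
    rw [Matrix.mul_apply, Finset.sum_eq_single (Sum.inr β), Matrix.one_apply_eq] at h2
    · exact h2
    · intro k _ hk
      rw [jqM_ex (-y) (Ne.symm hk), zero_mul]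
    · exact fun hn => absurd (Finset.mem_univ _) hn

theorem qA_dgz (h : Orth K v) (y : b.support → ℝ) : jqM Q v (exM b F y) = dgz b (qA Q h y) := by
  refine Matrix.ext fun r c => ?_
  by_cases hrc : r = c
  · subst hrc
    unfold dgz
    rw [Matrix.diagonal_apply_eq]
    rcases r with i | β
    · exact jqM_ex_inl y i
    · rfl
  · unfold dgz
    rw [Matrix.diagonal_apply_ne _ hrc, jqM_ex y hrc]

theorem qA_norm (h : Orth K v) (y : b.support → ℝ) (β : ι) : mixedEmbedding.norm (qA Q h y β : EE L) = Real.exp (Module.finrank ℝ F * pry b (trQ Q y) (Sum.inr β)) := by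
  classical
  have h1 : (qA Q h y β : EE L) = ∏ s : L ≃ₐ[K] L, sE s (1 + v.i (((Real.exp (pry b y (Sum.inr (Q.act s⁻¹ β))) : ℝ) : F) - 1)) := by
    have h2 := fvq_prod Finset.univ (fun s : L ≃ₐ[K] L => sE s (v.i (((Real.exp (pry b y (Sum.inr (Q.act s⁻¹ β))) : ℝ) : F) - 1))) fun s t hst => h.ne hst _ _
    rw [← jqM_ex_inr] at h2
    refine h2.symm.trans (Finset.prod_congr rfl fun s _ => ?_)
    rw [map_add, map_one]
  rw [h1, map_prod]
  have h3 : ∀ s : L ≃ₐ[K] L, mixedEmbedding.norm (sE s (1 + v.i (((Real.exp (pry b y (Sum.inr (Q.act s⁻¹ β))) : ℝ) : F) - 1))) = Real.exp (Module.finrank ℝ F * pry b y (Sum.inr (Q.act s⁻¹ β))) := fun s => by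
    rw [sE_nrm, v.nrm, RCLike.norm_ofReal, abs_of_pos (Real.exp_pos _), ← Real.exp_nat_mul]
  rw [Finset.prod_congr rfl fun s _ => h3 s, ← Real.exp_sum, trQ_pry, Finset.mul_sum]
  congr 1
  exact Fintype.sum_equiv (Equiv.inv (L ≃ₐ[K] L)) _ _ fun s => rfl

theorem jqM_U {u : Matrix (I b) (I b) F} (hu : UTk b 1 u) (r c : I b) (hrc : ht b r ≤ ht b c) : jqM Q v u r c = (1 : Matrix (I b) (I b) (EE L)) r c := by
  unfold jqM Jq
  rw [Matrix.add_apply, Matrix.sum_apply, Finset.sum_eq_zero, add_zero]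
  intro s _
  show sE s (v.i ((u - 1) ((Q.da s).pI.symm r) ((Q.da s).pI.symm c))) = 0
  obtain ⟨r, rfl⟩ := (Q.da s).pI.surjective r
  obtain ⟨c, rfl⟩ := (Q.da s).pI.surjective c
  rw [(Q.da s).ht_pI, (Q.da s).ht_pI] at hrc
  rw [Equiv.symm_apply_apply, Equiv.symm_apply_apply, Matrix.sub_apply, hu r c (by omega), sub_self, map_zero, map_zero]

/-- **Quasi-split groups: the places of `L` which are unramified over `K` are split places.** -/
def plQ (Q : QS b K L) (h : Orth K v) : PlH (HQ Q) F (trQ Q) where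
  j := {
    toFun := fun g => ⟨⟨jqGL Q h g.1, (TQ_mem (jq_mem h g.2)).choose⟩, (TQ_mem (jq_mem h g.2)).choose_spec⟩
    map_one' := Subtype.ext (Subtype.ext (map_one (jqGL Q h)))
    map_mul' := fun g g' => Subtype.ext (Subtype.ext (map_mul (jqGL Q h) g.1 g'.1)) }
  p := (pv b v).comp (Subgroup.subtype _)
  j_cont := (((jqGL_cont h).comp continuous_subtype_val).subtype_mk _).subtype_mk _
  p_cont := (pv_cont v).comp continuous_subtype_val
  p_j := fun g => Subtype.ext (Units.ext (p_jqM h g.1.1))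
  comm := fun ω hω g => by
    have h1 : ω.1.1.1.map v.p = 1 := congrArg (fun g : GF b F => g.1.1) hω
    obtain ⟨h2, h3⟩ := hr_Jq (Q := Q) ω.2 h1 (g.1.1 - 1)
    refine Subtype.ext (Subtype.ext (Units.ext ?_))
    show ω.1.1.1 * (1 + Jq Q v (g.1.1 - 1)) = (1 + Jq Q v (g.1.1 - 1)) * ω.1.1.1
    rw [mul_add, add_mul, h2, h3, mul_one, one_mul]
  j_U := fun u hu => by
    have hu' : u⁻¹ ∈ gU b F := inv_mem hu
    intro r c hrc
    exact ⟨jqM_U hu r c hrc, jqM_U hu' r c hrc⟩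
  ja := qA Q h
  j_ex := fun y => qA_dgz h y
  ja_norm := fun y β => qA_norm h y β

/-- Every real place of `L` which is unramified over `K`. -/
theorem plQ_real (Q : QS b K L) [IsGalois K L] {w : InfinitePlace L} (hw : w.IsUnramified K) (hr : w.IsReal) : Nonempty (PlH (HQ Q) ℝ (trQ Q)) :=
  ⟨plQ Q (orth_of (plcR w hr) (fun w' hw' t => plcR_at w hr w' hw' t) hw)⟩

/-- Every complex place of `L` which is unramified over `K`. -/
theorem plQ_complex (Q : QS b K L) [IsGalois K L] {w : InfinitePlace L} (hw : w.IsUnramified K) (hc : w.IsComplex) : Nonempty (PlH (HQ Q) ℂ (trQ Q)) :=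
  ⟨plQ Q (orth_of (plcC w hc) (fun w' hw' t => plcC_at w hc w' hw' t) hw)⟩

end

end Pool.Agent.Lib.L8
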