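import Pool.Agent.Lib.L1S.DE
import Pool.Agent.Lib.L8.Iw

/-!
# L8, module I: the group of the `F`-points (`F = ℝ` or `ℂ`), definitions (helper33)

`P` irreducible reduced crystallographic root system, `b` a base, all matrices indexed by `I b = b.support ⊕ ι` (Geck's adjoint module). Coroot coordinates: `y : b.support → ℝ` is `∑ y_j α_j^∨`.
-/

namespace Pool.Agent.Lib.L8

open Matrix Pool.Agent.Lib.L1S

noncomputable section

set_option linter.unusedSectionVars false

variable {ι M N : Type} [Fintype ι] [DecidableEq ι] [AddCommGroup M] [Module ℚ M] [AddCommGroup N] [Module ℚ N]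
  {P : RootPairing ι ℚ M N} [P.IsCrystallographic]

/-- `1 / (β, β)` for the invariant form `P.RootForm`. -/
def lenq (P : RootPairing ι ℚ M N) (β : ι) : ℚ := (P.RootForm (P.root β) (P.root β))⁻¹

/-- The invariant form of Geck's module: `1 / (β, β)` on the root vectors, `|⟨α_i, α_k^∨⟩| / (α_i, α_i)` on the zero weight space. -/
def SQ (b : P.Base) : Matrix (I b) (I b) ℚ :=
  .fromBlocks (.of fun i k => lenq P i * |((b.cartanMatrix i k : ℤ) : ℚ)|) 0 0 (.diagonal (lenq P))

/-- The invariant form over `F`. -/
def SF (b : P.Base) (F : Type) [RCLike F] : Matrix (I b) (I b) F := (SQ b).map fun q : ℚ => (q : F)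

/-- The adjoint matrix `X* = S⁻¹ (conjugate transpose of X) S`. -/
def stM (b : P.Base) {F : Type} [RCLike F] (X : Matrix (I b) (I b) F) : Matrix (I b) (I b) F := (SF b F)⁻¹ * Xᴴ * SF b F

/-- **The local group**: the closure of `G(F)`. -/
def GFs (b : P.Base) (F : Type) [RCLike F] : Subgroup (GL (I b) F) := (GQ b F).topologicalClosure

/-- The local group as a type. -/
abbrev GF (b : P.Base) (F : Type) [RCLike F] : Type := ↥(GFs b F)

section

variable [P.IsReduced] [P.IsIrreducible] [P.IsRootSystem]

/-- `⟨r, y⟩` for a weight `r` of the adjoint module, `y` in coroot coordinates. -/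
def pry (b : P.Base) (y : b.support → ℝ) (r : I b) : ℝ := ∑ j, (pj b j r : ℝ) * y j

/-- The torus element `exp(y)` as a matrix. -/
def exM (b : P.Base) (F : Type) [RCLike F] (y : b.support → ℝ) : Matrix (I b) (I b) F := Matrix.diagonal fun r => ((Real.exp (pry b y r) : ℝ) : F)

theorem pry_zero (b : P.Base) (r : I b) : pry b 0 r = 0 := by simp [pry]

theorem pry_add (b : P.Base) (y z : b.support → ℝ) (r : I b) : pry b (y + z) r = pry b y r + pry b z r := by
  simp only [pry, Pi.add_apply, mul_add, Finset.sum_add_distrib]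

theorem pry_smul (b : P.Base) (t : ℝ) (y : b.support → ℝ) (r : I b) : pry b (t • y) r = t * pry b y r := by
  simp only [pry, Pi.smul_apply, smul_eq_mul, Finset.mul_sum]
  exact Finset.sum_congr rfl fun j _ => by ring

theorem pry_neg (b : P.Base) (y : b.support → ℝ) (r : I b) : pry b (-y) r = -pry b y r := by
  simp only [pry, Pi.neg_apply, mul_neg, Finset.sum_neg_distrib]

theorem exM_add (b : P.Base) (F : Type) [RCLike F] (y z : b.support → ℝ) : exM b F (y + z) = exM b F y * exM b F z := by
  rw [exM, exM, exM, Matrix.diagonal_mul_diagonal]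
  congr 1
  funext r
  rw [pry_add, Real.exp_add, RCLike.ofReal_mul]

theorem exM_zero (b : P.Base) (F : Type) [RCLike F] : exM b F 0 = 1 := by
  rw [exM, ← Matrix.diagonal_one]
  congr 1
  funext r
  rw [pry_zero, Real.exp_zero, RCLike.ofReal_one]

theorem exM_mul_neg (b : P.Base) (F : Type) [RCLike F] (y : b.support → ℝ) : exM b F y * exM b F (-y) = 1 := by
  rw [← exM_add, add_neg_cancel, exM_zero]

theorem exM_neg_mul (b : P.Base) (F : Type) [RCLike F] (y : b.support → ℝ) : exM b F (-y) * exM b F y = 1 := by
  rw [← exM_add, neg_add_cancel, exM_zero]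

/-- The torus element `exp(y)`. -/
def exGL (b : P.Base) (F : Type) [RCLike F] (y : b.support → ℝ) : GL (I b) F := ⟨exM b F y, exM b F (-y), exM_mul_neg b F y, exM_neg_mul b F y⟩

end

end

end Pool.Agent.Lib.L8
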