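import Pool.Agent.Lib.L8.IG0

/-! # L8, module I, chunk IG1: lengths of roots -/

namespace Pool.Agent.Lib.L8

open Matrix Pool.Agent.Lib.L1S

noncomputable section

set_option linter.unusedSectionVars false

variable {ι M N : Type} [Fintype ι] [DecidableEq ι] [AddCommGroup M] [Module ℚ M] [AddCommGroup N] [Module ℚ N]
  {P : RootPairing ι ℚ M N} [P.IsCrystallographic] [P.IsReduced] [P.IsIrreducible] [P.IsRootSystem]

/-- PROOF: `form_pos` (L1S/L115) for the root, which is not zero (`P.ne_zero`). -/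
theorem lenq_pos (β : ι) : 0 < lenq P β :=
  inv_pos.2 (form_pos (P.ne_zero β))

/-- PROOF: `two_form` (L1S/L115): `2 (μ, i) = ⟨μ, i^∨⟩ (i, i)`, for `μ = j` and with `i`, `j` exchanged, and the symmetry of `P.RootForm` (`P.rootForm_symmetric` or similar); `P.root_coroot'_eq_pairing`, `P.algebraMap_pairingIn` (see `de_pj` in L1S/DE for the
cast). So `⟨i, j^∨⟩ / (i, i) = 2 (i, j) / ((i, i) (j, j))`. -/
theorem lenq_pair (i j : ι) : lenq P i * ((P.pairingIn ℤ i j : ℤ) : ℚ) = lenq P j * ((P.pairingIn ℤ j i : ℤ) : ℚ) := by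
  have h1 : P.coroot' j (P.root i) = ((P.pairingIn ℤ i j : ℤ) : ℚ) := by
    rw [P.root_coroot'_eq_pairing, ← P.algebraMap_pairingIn ℤ]
    rfl
  have h2 : P.coroot' i (P.root j) = ((P.pairingIn ℤ j i : ℤ) : ℚ) := by
    rw [P.root_coroot'_eq_pairing, ← P.algebraMap_pairingIn ℤ]
    rfl
  have h3 := two_form (P := P) j (P.root i)
  have h4 := two_form (P := P) i (P.root j)
  have h5 : P.RootForm (P.root i) (P.root j) = P.RootForm (P.root j) (P.root i) := by
    have := P.rootForm_symmetric.eq (P.root i) (P.root j)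
    simpa using this
  rw [h1] at h3
  rw [h2] at h4
  have h6 : P.RootForm (P.root i) (P.root i) ≠ 0 := (form_pos (P.ne_zero i)).ne'
  have h7 : P.RootForm (P.root j) (P.root j) ≠ 0 := (form_pos (P.ne_zero j)).ne'
  unfold lenq
  rw [inv_mul_eq_div, inv_mul_eq_div, div_eq_div_iff h6 h7, ← h3, ← h4, h5]

/-- PROOF: the form is invariant under reflections (`P.rootForm_reflection_reflection_apply` or similar), `P.root_reflectionPerm`. -/
theorem lenq_refl (i β : ι) : lenq P (P.reflectionPerm i β) = lenq P β := by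
  unfold lenq
  rw [P.root_reflectionPerm, P.rootForm_reflection_reflection_apply]

end

end Pool.Agent.Lib.L8
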