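import Pool.Agent.Lib.L8.IG8
import Pool.Agent.Lib.L1S.L126

/-! # L8, module I, chunk IG10: the torus and `M` normalise `U` and `V` -/

namespace Pool.Agent.Lib.L8

open Matrix Pool.Agent.Lib.L1S

noncomputable section

set_option linter.unusedSectionVars false

variable {ι M N : Type} [Fintype ι] [DecidableEq ι] [AddCommGroup M] [Module ℚ M] [AddCommGroup N] [Module ℚ N]
  {P : RootPairing ι ℚ M N} [P.IsCrystallographic] [P.IsReduced] [P.IsIrreducible] [P.IsRootSystem] {b : P.Base} {F : Type} [RCLike F]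

theorem ig10_ht {r c : I b} (h : wt b r = wt b c) : ht b r = ht b c := by
  obtain ⟨l, hl⟩ := exists_lht (b := b)
  have h1 : (ht b r : ℚ) = (ht b c : ℚ) := by rw [← hl, ← hl, h]
  exact_mod_cast h1

/-- PROOF: `exM_conj`. -/
theorem gex_U (y : b.support → ℝ) {u : GF b F} (hu : u ∈ gU b F) : gex b F y * u * (gex b F y)⁻¹ ∈ gU b F := by
  intro r c hrc
  have e1 : (gex b F y * u * (gex b F y)⁻¹).1.1 = exM b F y * u.1.1 * exM b F (-y) := rfl
  rw [e1, exM_conj, hu r c hrc]
  by_cases h : r = c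
  · rw [h, sub_self, Real.exp_zero, RCLike.ofReal_one, one_mul]
  · rw [Matrix.one_apply_ne h, mul_zero]

/-- PROOF: apply `gst`, `gex_U` for `-y`. -/
theorem gex_V (y : b.support → ℝ) {v : GF b F} (hv : v ∈ gV b F) : gex b F y * v * (gex b F y)⁻¹ ∈ gV b F := by
  show gst b F (gex b F y * v * (gex b F y)⁻¹) ∈ gU b F
  rw [gst_mul, gst_mul, gst_inv, gst_gex]
  have h1 := gex_U (-y) hv
  rw [gex_neg, inv_inv, mul_assoc] at h1
  exact h1

/-- Elements which commute with the torus preserve the weight spaces. PROOF: `m * gex y = gex y * m` on entries: `m r c (e^(pry y c) - e^(pry y r)) = 0` for all `y`, so `pry y r = pry y c` for all `y`; with `y = e_j`: `pj b j r = pj b j c`, so `P.coroot' j (wt r - wt c) = 0` for all `j` (`de_pj`), so `wt r = wt c`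
(`l126_sep` in L1S/L126). -/
theorem gex_comm_wt {m : GF b F} (h : ∀ y, m * gex b F y = gex b F y * m) (r c : I b) (hrc : m.1.1 r c ≠ 0) : wt b r = wt b c := by
  have h1 : ∀ y, pry b y c = pry b y r := by
    intro y
    have e1 : (m.1.1 * exM b F y) r c = (exM b F y * m.1.1) r c := congrFun (congrFun (congrArg (fun g : GF b F => g.1.1) (h y)) r) c
    rw [exM, Matrix.mul_diagonal, Matrix.diagonal_mul, mul_comm] at e1
    have e2 := mul_right_cancel₀ hrc e1
    rw [RCLike.ofReal_inj] at e2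
    exact Real.exp_injective e2
  have h2 : ∀ j : b.support, pj b j r = pj b j c := by
    intro j
    have e1 : ∀ r : I b, pry b (Pi.single j 1) r = (pj b j r : ℝ) := fun r => by
      rw [pry, Finset.sum_eq_single j]
      · rw [Pi.single_eq_same, mul_one]
      · intro j' _ hj
        rw [Pi.single_eq_of_ne hj, mul_zero]
      · intro h1
        exact absurd (Finset.mem_univ j) h1
    have e2 := h1 (Pi.single j 1)
    rw [e1, e1] at e2
    exact_mod_cast e2.symm
  have h3 : wt b r - wt b c = 0 := by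
    refine l126_sep (b := b) fun i hi => ?_
    rw [map_sub, ← de_pj b ⟨i, hi⟩, ← de_pj b ⟨i, hi⟩, h2 ⟨i, hi⟩, sub_self]
  exact sub_eq_zero.1 h3

/-- PROOF: `gex_comm_wt` for `m` and `m⁻¹`: `(m u m⁻¹ - 1) = m (u - 1) m⁻¹`, and `ht b` is a function of `wt b` (`exists_lht` in L1S/L21). -/
theorem gM_U {m : GF b F} (hm : m ∈ gM b F) {u : GF b F} (hu : u ∈ gU b F) : m * u * m⁻¹ ∈ gU b F := by
  intro r c hrc
  have e1 : (m * u * m⁻¹).1.1 = m.1.1 * u.1.1 * (m⁻¹).1.1 := rfl
  have e2 : m.1.1 * (m⁻¹).1.1 = 1 := m.1.mul_inv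
  have e3 : m.1.1 * u.1.1 * (m⁻¹).1.1 = m.1.1 * (u.1.1 - 1) * (m⁻¹).1.1 + 1 := by
    rw [mul_sub, sub_mul, mul_one, e2, sub_add_cancel]
  have hm' : m⁻¹ ∈ gM b F := inv_mem hm
  rw [e1, e3, Matrix.add_apply]
  have e4 : (m.1.1 * (u.1.1 - 1) * (m⁻¹).1.1) r c = 0 := by
    rw [Matrix.mul_apply]
    refine Finset.sum_eq_zero fun c' _ => ?_
    by_cases h1 : (m⁻¹).1.1 c' c = 0
    · rw [h1, mul_zero]
    have w1 := ig10_ht (gex_comm_wt hm'.2 c' c h1)
    rw [Matrix.mul_apply, Finset.sum_mul]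
    refine Finset.sum_eq_zero fun r' _ => ?_
    by_cases h2 : m.1.1 r r' = 0
    · rw [h2, zero_mul, zero_mul]
    have w2 := ig10_ht (gex_comm_wt hm.2 r r' h2)
    rw [Matrix.sub_apply, hu r' c' (by rw [← w2, w1]; exact hrc), sub_self, mul_zero, zero_mul]
  rw [e4, zero_add]

/-- PROOF: apply `gst` (`gst m = m⁻¹`). -/
theorem gM_V {m : GF b F} (hm : m ∈ gM b F) {v : GF b F} (hv : v ∈ gV b F) : m * v * m⁻¹ ∈ gV b F := by
  show gst b F (m * v * m⁻¹) ∈ gU b F
  have h1 : gst b F m = m⁻¹ := hm.1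
  rw [gst_mul, gst_mul, gst_inv, h1, inv_inv, ← mul_assoc]
  exact gM_U hm hv

theorem ig10_V {q : GF b F} (hq : q ∈ gV b F) (r c : I b) (h : ht b c < ht b r + 1) : q.1.1 r c = (1 : Matrix (I b) (I b) F) r c := by
  have h1 : UTk b 1 (gst b F q).1.1 := hq
  obtain ⟨X, hX⟩ : ∃ X, X = (gst b F q).1.1 := ⟨_, rfl⟩
  have e1 : q.1.1 = stM b X := by
    rw [hX]
    exact congrArg (fun g : GF b F => g.1.1) (gst_gst b F q).symm
  have e2 : stM b X = stM b (X - 1) + 1 := by
    rw [← stM_one (b := b) (F := F), ← stM_add, stM_one, sub_add_cancel]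
  rw [e1, e2, Matrix.add_apply]
  have e3 : stM b (X - 1) r c = 0 := by
    by_contra h0
    obtain ⟨r', c', w1, w2, h2⟩ := stM_wt h0
    refine h2 ?_
    rw [Matrix.sub_apply, hX, h1 c' r' (by rw [ig10_ht w1, ig10_ht w2]; exact h), sub_self]
  rw [e3, zero_add]

/-- **`U × A × V → G` is injective.**
PROOF: `p := u'⁻¹ u`, `q := v' v⁻¹`: `p * gex y = gex y' * q`. `p` is upper unipotent (`UTk 1`), `q* ` is upper unipotent, so `q - 1` lowers the height (`stM_wt` applied to `stM (q* )= q`). Entries: for `ht r < ht c`: the left side is `0`, for `ht r > ht c` the right side is `0`, for `ht r = ht c`: `δ_rc e^(pry y c) = δ_rc e^(pry y' r)`.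
So `pry y = pry y'`, `y = y'` (`pry_inj`), and `p`, `q` have the entries of `1`. -/
theorem g_uav {u u' : GF b F} (hu : u ∈ gU b F) (hu' : u' ∈ gU b F) {y y' : b.support → ℝ} {v v' : GF b F} (hv : v ∈ gV b F) (hv' : v' ∈ gV b F)
    (h : u * gex b F y * v = u' * gex b F y' * v') : u = u' ∧ y = y' ∧ v = v' := by
  have hp : u'⁻¹ * u ∈ gU b F := mul_mem (inv_mem hu') hu
  have hq : v' * v⁻¹ ∈ gV b F := mul_mem hv' (inv_mem hv)
  obtain ⟨p, hpp⟩ : ∃ p, p = u'⁻¹ * u := ⟨_, rfl⟩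
  obtain ⟨q, hqq⟩ : ∃ q, q = v' * v⁻¹ := ⟨_, rfl⟩
  rw [← hpp] at hp
  rw [← hqq] at hq
  have e1 : p * gex b F y = gex b F y' * q := by
    rw [hpp, hqq]
    calc u'⁻¹ * u * gex b F y = u'⁻¹ * (u * gex b F y * v) * v⁻¹ := by group
      _ = u'⁻¹ * (u' * gex b F y' * v') * v⁻¹ := by rw [h]
      _ = _ := by group
  have e2 : ∀ r c, p.1.1 r c * ((Real.exp (pry b y c) : ℝ) : F) = ((Real.exp (pry b y' r) : ℝ) : F) * q.1.1 r c := by
    intro r c
    have e3 : (p.1.1 * exM b F y) r c = (exM b F y' * q.1.1) r c := congrFun (congrFun (congrArg (fun g : GF b F => g.1.1) e1) r) c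
    rw [exM, exM, Matrix.mul_diagonal, Matrix.diagonal_mul] at e3
    exact e3
  have hne : ∀ t : ℝ, ((Real.exp t : ℝ) : F) ≠ 0 := fun t => by
    rw [Ne, RCLike.ofReal_eq_zero]
    exact (Real.exp_pos t).ne'
  have hy : ∀ r, pry b y r = pry b y' r := by
    intro r
    have h1 := e2 r r
    rw [hp r r (by omega), ig10_V hq r r (by omega), Matrix.one_apply_eq, one_mul, mul_one, RCLike.ofReal_inj] at h1
    exact Real.exp_injective h1
  have hyy : y = y' := pry_inj fun i => hy _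
  have p1 : p = 1 := by
    refine Subtype.ext (Units.ext ?_)
    ext r c
    show p.1.1 r c = (1 : Matrix (I b) (I b) F) r c
    rcases lt_or_ge (ht b c) (ht b r) with h1 | h1
    · have h2 := e2 r c
      have hrc : r ≠ c := fun h3 => by
        rw [h3] at h1
        exact lt_irrefl _ h1
      rw [ig10_V hq r c (by omega), Matrix.one_apply_ne hrc, mul_zero] at h2
      rw [Matrix.one_apply_ne hrc]
      exact (mul_eq_zero.1 h2).resolve_right (hne _)
    · exact hp r c (by omega)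
  have q1 : q = 1 := by
    rw [p1, hyy, one_mul] at e1
    exact (mul_eq_left.1 e1.symm)
  refine ⟨?_, hyy, ?_⟩
  · rw [hpp, inv_mul_eq_one] at p1
    exact p1.symm
  · rw [hqq, mul_inv_eq_one] at q1
    exact q1.symm

end

end Pool.Agent.Lib.L8
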