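import Pool.Agent.Lib.L8.IG6

/-! # L8, module I, chunk IG12: rank one relations in `GL` -/

namespace Pool.Agent.Lib.L8

open Matrix Pool.Agent.Lib.L1S

noncomputable section

set_option linter.unusedSectionVars false

variable {ι M N : Type} [Fintype ι] [DecidableEq ι] [AddCommGroup M] [Module ℚ M] [AddCommGroup N] [Module ℚ N]
  {P : RootPairing ι ℚ M N} [P.IsCrystallographic] [P.IsReduced] [P.IsIrreducible] [P.IsRootSystem]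

variable (b : P.Base) {F : Type} [Field F] [CharZero F]

/-- `α_i^∨(s) = m_i(s) m_i(1)⁻¹`. -/
def hG (i : b.support) (s : Fˣ) : GL (I b) F := mG b i s * (mG b i (1 : Fˣ))⁻¹

/-- PROOF: `de_mG` (L1S/DE). -/
theorem hG_val (i : b.support) (s : Fˣ) : (hG b i s).1 = tj b i (s : F) := by
  have e1 : (hG b i s).1 = (mG b i s).1 * (mG b i (1 : Fˣ))⁻¹.1 := rfl
  have e2 : (mG b i (1 : Fˣ)).1 * (mG b i (1 : Fˣ))⁻¹.1 = 1 := (mG b i (1 : Fˣ)).mul_inv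
  rw [e1, de_mG b i s, Matrix.mul_assoc, e2, Matrix.mul_one]

/-- PROOF: `hG_val`, diagonal matrices. -/
theorem hG_mul (i : b.support) (s t : Fˣ) : hG b i (s * t) = hG b i s * hG b i t := by
  refine Units.ext ?_
  have e1 : (hG b i s * hG b i t).1 = (hG b i s).1 * (hG b i t).1 := rfl
  rw [e1, hG_val, hG_val, hG_val, tj, tj, tj, Matrix.diagonal_mul_diagonal]
  congr 1
  funext r
  rw [Units.val_mul, mul_zpow]

theorem ig12_h1 (i : b.support) : hG b i (1 : Fˣ) = 1 := by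
  rw [hG, mul_inv_cancel]

/-- PROOF: `DP.conj` with `de_pj_add` (as `h1` in the proof of `de_sq` in L1S/DE). -/
theorem hG_x (i : b.support) (s : Fˣ) (t : F) : hG b i s * xG b (i : ι) t = xG b (i : ι) ((s : F) ^ 2 * t) * hG b i s := by
  have hz : (s : F) ≠ 0 := s.ne_zero
  refine Units.ext ?_
  have e1 : (hG b i s * xG b (i : ι) t).1 = (hG b i s).1 * xx b (i : ι) t := rfl
  have e2 : (xG b (i : ι) ((s : F) ^ 2 * t) * hG b i s).1 = xx b (i : ι) ((s : F) ^ 2 * t) * (hG b i s).1 := rfl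
  rw [e1, e2, hG_val]
  refine (DP_E b (i : ι)).conj (DP_E b (i : ι)) (tj b i (s : F)) ((s : F) ^ 2) t ?_
  ext r c
  rw [tj, Matrix.diagonal_mul, Matrix.mul_diagonal, Matrix.smul_apply, smul_eq_mul]
  by_cases h : toA F (E b (i : ι)) r c = 0
  · rw [h]
    ring
  · have h2 : E b (i : ι) r c ≠ 0 := by
      intro h0
      apply h
      change ((E b (i : ι) r c : ℤ) : F) = 0
      rw [h0, Int.cast_zero]
    rw [de_pj_add (hasWt_E b (i : ι) r c h2), zpow_add₀ hz, zpow_ofNat]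
    ring

/-- PROOF: `de_pj_sub`. -/
theorem hG_y (i : b.support) (s : Fˣ) (t : F) : hG b i s * xG b (ng P i) t = xG b (ng P i) (((s⁻¹ : Fˣ) : F) ^ 2 * t) * hG b i s := by
  have hz : (s : F) ≠ 0 := s.ne_zero
  refine Units.ext ?_
  have e1 : (hG b i s * xG b (ng P i) t).1 = (hG b i s).1 * xx b (ng P i) t := rfl
  have e2 : (xG b (ng P i) (((s⁻¹ : Fˣ) : F) ^ 2 * t) * hG b i s).1 = xx b (ng P i) (((s⁻¹ : Fˣ) : F) ^ 2 * t) * (hG b i s).1 := rfl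
  rw [e1, e2, hG_val]
  refine (DP_E b (ng P i)).conj (DP_E b (ng P i)) (tj b i (s : F)) (((s⁻¹ : Fˣ) : F) ^ 2) t ?_
  ext r c
  rw [tj, Matrix.diagonal_mul, Matrix.mul_diagonal, Matrix.smul_apply, smul_eq_mul]
  by_cases h : toA F (E b (ng P i)) r c = 0
  · rw [h]
    ring
  · have h2 : E b (ng P i) r c ≠ 0 := by
      intro h0
      apply h
      change ((E b (ng P i) r c : ℤ) : F) = 0
      rw [h0, Int.cast_zero]
    rw [de_pj_sub (hasWt_E b (ng P i) r c h2), zpow_sub₀ hz, zpow_ofNat, Units.val_inv_eq_inv_val]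
    ring

/-- PROOF: `n h(s) = h(s⁻¹) n` by entries: `mG_over`, `de_pj_refl`. -/
theorem hG_n (i : b.support) (s : Fˣ) : mG b i (1 : Fˣ) * hG b i s = hG b i s⁻¹ * mG b i (1 : Fˣ) := by
  refine Units.ext ?_
  have e1 : (mG b i (1 : Fˣ) * hG b i s).1 = (mG b i (1 : Fˣ)).1 * (hG b i s).1 := rfl
  have e2 : (hG b i s⁻¹ * mG b i (1 : Fˣ)).1 = (hG b i s⁻¹).1 * (mG b i (1 : Fˣ)).1 := rfl
  rw [e1, e2, hG_val, hG_val]
  ext r c
  rw [tj, tj, Matrix.mul_diagonal, Matrix.diagonal_mul]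
  by_cases h : (mG b i (1 : Fˣ)).1 r c = 0
  · rw [h]
    ring
  · rw [de_pj_refl (mG_over b i (1 : Fˣ) r c h), Units.val_inv_eq_inv_val, _root_.inv_zpow', neg_neg, mul_comm]

/-- PROOF: `m(-1) = m(1)⁻¹` (definition of `mG`, `xG_inv`), so `h(-1) = n⁻²`, and `h(-1)² = h(1) = 1`. -/
theorem hG_sq (i : b.support) : mG b i (1 : Fˣ) * mG b i (1 : Fˣ) = hG b i (-1) := by
  have e1 : mG b i (-1 : Fˣ) = (mG b i (1 : Fˣ))⁻¹ := by
    unfold mG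
    rw [_root_.mul_inv_rev, _root_.mul_inv_rev, xG_inv, xG_inv, inv_neg, inv_one, Units.val_neg, Units.val_one, neg_neg, mul_assoc]
  have e2 : hG b i (-1 : Fˣ) = (mG b i (1 : Fˣ) * mG b i (1 : Fˣ))⁻¹ := by
    rw [hG, e1, _root_.mul_inv_rev]
  have e3 : hG b i (-1 : Fˣ) * hG b i (-1 : Fˣ) = 1 := by
    rw [← hG_mul, neg_mul_neg, one_mul, ig12_h1]
  have e4 : hG b i (-1 : Fˣ) = (hG b i (-1 : Fˣ))⁻¹ := eq_inv_of_mul_eq_one_left e3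
  rw [e4, e2, inv_inv]

/-- `n x(t) = x_(-)(-t) n`. PROOF: `mG_val`, `mm_eZ` (L1S/L110), `DP.conj`. -/
theorem nG_x (i : b.support) (t : F) : mG b i (1 : Fˣ) * xG b (i : ι) t = xG b (ng P i) (-t) * mG b i (1 : Fˣ) := by
  refine Units.ext ?_
  have e1 : (mG b i (1 : Fˣ) * xG b (i : ι) t).1 = (mG b i (1 : Fˣ)).1 * ex (E b (i : ι)) t := rfl
  have e2 : (xG b (ng P i) (-t) * mG b i (1 : Fˣ)).1 = ex (E b (ng P i)) (-t) * (mG b i (1 : Fˣ)).1 := rfl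
  have e3 := (DP_eZ i).conj (DP_fZ i) (mm b i (1 : Fˣ)) (-((((1 : Fˣ)⁻¹ : Fˣ) : F) ^ 2)) t (mm_eZ i (1 : Fˣ))
  rw [inv_one, Units.val_one, one_pow, neg_one_mul] at e3
  rw [e1, e2, E_simple, E_neg_simple, mG_val, e3]

/-- PROOF: `mm_fZ`. -/
theorem nG_y (i : b.support) (t : F) : mG b i (1 : Fˣ) * xG b (ng P i) t = xG b (i : ι) (-t) * mG b i (1 : Fˣ) := by
  refine Units.ext ?_
  have e1 : (mG b i (1 : Fˣ) * xG b (ng P i) t).1 = (mG b i (1 : Fˣ)).1 * ex (E b (ng P i)) t := rfl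
  have e2 : (xG b (i : ι) (-t) * mG b i (1 : Fˣ)).1 = ex (E b (i : ι)) (-t) * (mG b i (1 : Fˣ)).1 := rfl
  have e3 := (DP_fZ i).conj (DP_eZ i) (mm b i (1 : Fˣ)) (-(((1 : Fˣ) : F) ^ 2)) t (mm_fZ i (1 : Fˣ))
  rw [Units.val_one, one_pow, neg_one_mul] at e3
  rw [e1, e2, E_simple, E_neg_simple, mG_val, e3]

theorem ig12_m (i : b.support) (s : Fˣ) : mG b i s = hG b i s * mG b i (1 : Fˣ) := by
  rw [hG, inv_mul_cancel_right]

theorem ig12_hinv (i : b.support) (s : Fˣ) : hG b i s⁻¹ = (hG b i s)⁻¹ := by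
  refine eq_inv_of_mul_eq_one_left ?_
  rw [← hG_mul, inv_mul_cancel, ig12_h1]

/-- `x(t) = y(1/t) h(t) n y(1/t)`.
PROOF: `xG_neg_eq` (L1S/L122) for `-t`: `y(-t) = x(-1/t) m(1/t) x(-1/t)`; multiply by `n` on the left and use `nG_y`, `nG_x`, `m(1/t) = h(1/t) n`, `hG_n`: `x(t) n = n y(-t) = y(1/t) n m(1/t) x(-1/t) = y(1/t) n h(1/t) n x(-1/t) = y(1/t) h(t) n n x(-1/t)
= y(1/t) h(t) n y(1/t) n`. Cancel `n`. -/
theorem xG_eq (i : b.support) (t : Fˣ) : xG b (i : ι) (t : F) = xG b (ng P i) ((t⁻¹ : Fˣ) : F) * hG b i t * mG b i (1 : Fˣ) * xG b (ng P i) ((t⁻¹ : Fˣ) : F) := by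
  have e1 := xG_neg_eq b (A := F) i (-t)
  rw [inv_neg, neg_neg, Units.val_neg, Units.val_neg] at e1
  -- `x(t) n = n y(-t)`
  have e2 : xG b (i : ι) (t : F) * mG b i (1 : Fˣ) = mG b i (1 : Fˣ) * xG b (ng P i) (-(t : F)) := by
    rw [nG_y, neg_neg]
  have e3 : mG b i (1 : Fˣ) * xG b (i : ι) (-((t⁻¹ : Fˣ) : F)) = xG b (ng P i) ((t⁻¹ : Fˣ) : F) * mG b i (1 : Fˣ) := by
    rw [nG_x, neg_neg]
  have e4 : mG b i (1 : Fˣ) * mG b i (t⁻¹ : Fˣ) = hG b i t * (mG b i (1 : Fˣ) * mG b i (1 : Fˣ)) := by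
    rw [ig12_m b i (t⁻¹), ← mul_assoc, hG_n, inv_inv, mul_assoc]
  have e5 : xG b (i : ι) (t : F) * mG b i (1 : Fˣ) = (xG b (ng P i) ((t⁻¹ : Fˣ) : F) * hG b i t * mG b i (1 : Fˣ) * xG b (ng P i) ((t⁻¹ : Fˣ) : F)) * mG b i (1 : Fˣ) := by
    calc xG b (i : ι) (t : F) * mG b i (1 : Fˣ) = mG b i (1 : Fˣ) * (xG b (i : ι) (-((t⁻¹ : Fˣ) : F)) * mG b i (t⁻¹ : Fˣ) * xG b (i : ι) (-((t⁻¹ : Fˣ) : F))) := by rw [e2, e1]
      _ = (mG b i (1 : Fˣ) * xG b (i : ι) (-((t⁻¹ : Fˣ) : F))) * mG b i (t⁻¹ : Fˣ) * xG b (i : ι) (-((t⁻¹ : Fˣ) : F)) := by simp only [mul_assoc]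
      _ = xG b (ng P i) ((t⁻¹ : Fˣ) : F) * (mG b i (1 : Fˣ) * mG b i (t⁻¹ : Fˣ)) * xG b (i : ι) (-((t⁻¹ : Fˣ) : F)) := by
        rw [e3]
        simp only [mul_assoc]
      _ = xG b (ng P i) ((t⁻¹ : Fˣ) : F) * hG b i t * mG b i (1 : Fˣ) * (mG b i (1 : Fˣ) * xG b (i : ι) (-((t⁻¹ : Fˣ) : F))) := by
        rw [e4]
        simp only [mul_assoc]
      _ = _ := by
        rw [e3]
        simp only [mul_assoc]
  exact mul_right_cancel e5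

/-- **`y(a) x(c) = x(c / (1 + a c)) h(1 / (1 + a c)) y(a / (1 + a c))`.**
PROOF. `a = 0`: trivial (`xG_zero`, `h(1) = 1`). `a ≠ 0`: `y(a) = x(1/a) m(-1/a) x(1/a)` (`xG_neg_eq`), `b' = 1/a + c = (1 + a c)/a ≠ 0`, `x(1/a) x(c) = x(b') = y(1/b') h(b') n y(1/b')` (`xG_eq`), `m(-1/a) = h(-1/a) n`. So
`y(a) x(c) = x(1/a) h(-1/a) n y(1/b') h(b') n y(1/b') = x(1/a) h(-1/a) x(-1/b') n h(b') n y(1/b') = x(1/a - 1/(a² b')) h(-1/a) h(1/b') n n y(1/b') = x(c/(1 + a c)) h(-1/(a b')) h(-1) y(a/(1 + a c))` (`nG_y`, `hG_x`, `hG_n`, `hG_sq`), `a b' = 1 + a c`. -/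
theorem rk_yx (i : b.support) (a c : F) (q : Fˣ) (hq : (q : F) = 1 + a * c) :
    xG b (ng P i) a * xG b (i : ι) c = xG b (i : ι) (c * ((q⁻¹ : Fˣ) : F)) * hG b i q⁻¹ * xG b (ng P i) (a * ((q⁻¹ : Fˣ) : F)) := by
  by_cases ha : a = 0
  · have hq1 : q = 1 := Units.ext (by rw [hq, ha, zero_mul, add_zero, Units.val_one])
    rw [ha, hq1, inv_one, Units.val_one, mul_one, mul_one, ig12_h1, xG_zero, mul_one, one_mul, mul_one]
  obtain ⟨u, hu⟩ : ∃ u : Fˣ, (u : F) = a := ⟨Units.mk0 a ha, rfl⟩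
  -- `b' = q / a`
  have hb : ((q * u⁻¹ : Fˣ) : F) = ((u⁻¹ : Fˣ) : F) + c := by
    rw [Units.val_mul, hq, Units.val_inv_eq_inv_val, hu]
    field_simp
  have hq0 : (q : F) ≠ 0 := q.ne_zero
  have e1 := xG_neg_eq b (A := F) i u
  have e2 : xG b (i : ι) ((u⁻¹ : Fˣ) : F) * xG b (i : ι) c = xG b (i : ι) ((q * u⁻¹ : Fˣ) : F) := by
    rw [← xG_add, hb]
  have e3 := xG_eq b i (q * u⁻¹)
  have e4 : mG b i (-u⁻¹ : Fˣ) = hG b i (-u⁻¹) * mG b i (1 : Fˣ) := ig12_m b i _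
  have hbi : (((q * u⁻¹)⁻¹ : Fˣ) : F) = a * ((q⁻¹ : Fˣ) : F) := by
    rw [_root_.mul_inv_rev, inv_inv, Units.val_mul, hu]
  rw [hbi] at e3
  -- `h(-1/a) x(- a / q) = x(- 1 / (a q)) h(-1/a)`
  have e5 : hG b i (-u⁻¹) * xG b (i : ι) (-(a * ((q⁻¹ : Fˣ) : F))) = xG b (i : ι) (-((u⁻¹ : Fˣ) : F) * ((q⁻¹ : Fˣ) : F)) * hG b i (-u⁻¹) := by
    rw [hG_x]
    congr 2
    rw [Units.val_neg, Units.val_inv_eq_inv_val, hu]
    field_simp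
  have e6 : xG b (i : ι) ((u⁻¹ : Fˣ) : F) * xG b (i : ι) (-((u⁻¹ : Fˣ) : F) * ((q⁻¹ : Fˣ) : F)) = xG b (i : ι) (c * ((q⁻¹ : Fˣ) : F)) := by
    rw [← xG_add]
    congr 1
    rw [Units.val_inv_eq_inv_val, Units.val_inv_eq_inv_val, hu]
    field_simp
    rw [hq]
    ring
  have e7 : hG b i (-u⁻¹) * (hG b i (q * u⁻¹)⁻¹ * (mG b i (1 : Fˣ) * mG b i (1 : Fˣ))) = hG b i q⁻¹ := by
    rw [hG_sq, ← hG_mul, ← hG_mul]
    congr 1
    rw [_root_.mul_inv_rev, inv_inv]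
    refine Units.ext ?_
    simp only [Units.val_mul, Units.val_neg, Units.val_inv_eq_inv_val, Units.val_one, hu]
    field_simp
  have e8 : mG b i (1 : Fˣ) * (xG b (ng P i) (a * ((q⁻¹ : Fˣ) : F)) * hG b i (q * u⁻¹)) = xG b (i : ι) (-(a * ((q⁻¹ : Fˣ) : F))) * (hG b i (q * u⁻¹)⁻¹ * mG b i (1 : Fˣ)) := by
    rw [← mul_assoc, nG_y, mul_assoc, hG_n]
  calc xG b (ng P i) a * xG b (i : ι) c
      = xG b (i : ι) ((u⁻¹ : Fˣ) : F) * (hG b i (-u⁻¹) * mG b i (1 : Fˣ)) * (xG b (i : ι) ((u⁻¹ : Fˣ) : F) * xG b (i : ι) c) := by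
        rw [← hu, e1, e4]
        simp only [mul_assoc]
    _ = xG b (i : ι) ((u⁻¹ : Fˣ) : F) * hG b i (-u⁻¹) * (mG b i (1 : Fˣ) * (xG b (ng P i) (a * ((q⁻¹ : Fˣ) : F)) * hG b i (q * u⁻¹))) * mG b i (1 : Fˣ) * xG b (ng P i) (a * ((q⁻¹ : Fˣ) : F)) := by
        rw [e2, e3]
        simp only [mul_assoc]
    _ = xG b (i : ι) ((u⁻¹ : Fˣ) : F) * (hG b i (-u⁻¹) * xG b (i : ι) (-(a * ((q⁻¹ : Fˣ) : F)))) * (hG b i (q * u⁻¹)⁻¹ * (mG b i (1 : Fˣ) * mG b i (1 : Fˣ))) * xG b (ng P i) (a * ((q⁻¹ : Fˣ) : F)) := by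
        rw [e8]
        simp only [mul_assoc]
    _ = (xG b (i : ι) ((u⁻¹ : Fˣ) : F) * xG b (i : ι) (-((u⁻¹ : Fˣ) : F) * ((q⁻¹ : Fˣ) : F))) * (hG b i (-u⁻¹) * (hG b i (q * u⁻¹)⁻¹ * (mG b i (1 : Fˣ) * mG b i (1 : Fˣ)))) * xG b (ng P i) (a * ((q⁻¹ : Fˣ) : F)) := by
        rw [e5]
        simp only [mul_assoc]
    _ = _ := by rw [e6, e7]

/-- **The inversion**: `x(t) n = y(1/t) h(-t) x(-1/t)`.
PROOF: `xG_eq`: `x(t) n = y(1/t) h(t) n y(1/t) n = y(1/t) h(t) x(-1/t) n n = y(1/t) h(t) x(-1/t) h(-1)`, and `h(-1)` commutes with `x(-1/t)` (`hG_x`), `h(t) h(-1) = h(-t)`. -/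
theorem rk_xn (i : b.support) (t : Fˣ) : xG b (i : ι) (t : F) * mG b i (1 : Fˣ) = xG b (ng P i) ((t⁻¹ : Fˣ) : F) * hG b i (-t) * xG b (i : ι) (-((t⁻¹ : Fˣ) : F)) := by
  have e1 := xG_eq b i t
  have e2 : mG b i (1 : Fˣ) * (xG b (ng P i) ((t⁻¹ : Fˣ) : F) * mG b i (1 : Fˣ)) = hG b i (-1) * xG b (i : ι) (-((t⁻¹ : Fˣ) : F)) := by
    rw [← mul_assoc, nG_y, mul_assoc, hG_sq, hG_x, Units.val_neg, Units.val_one, neg_one_sq, one_mul]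
  have e3 : hG b i t * hG b i (-1 : Fˣ) = hG b i (-t) := by
    rw [← hG_mul, mul_neg, mul_one]
  calc xG b (i : ι) (t : F) * mG b i (1 : Fˣ)
      = xG b (ng P i) ((t⁻¹ : Fˣ) : F) * hG b i t * (mG b i (1 : Fˣ) * (xG b (ng P i) ((t⁻¹ : Fˣ) : F) * mG b i (1 : Fˣ))) := by
        conv_lhs => rw [e1]
        simp only [mul_assoc]
    _ = xG b (ng P i) ((t⁻¹ : Fˣ) : F) * (hG b i t * hG b i (-1 : Fˣ)) * xG b (i : ι) (-((t⁻¹ : Fˣ) : F)) := by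
        rw [e2]
        simp only [mul_assoc]
    _ = _ := by rw [e3]

end

end Pool.Agent.Lib.L8
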