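import Pool.Agent.Lib.L8.IG11
import Pool.Agent.Lib.L8.IG12
import Pool.Agent.Lib.L8.IG9B

/-! # L8, module I, chunk IG13: rank one in the local group -/

namespace Pool.Agent.Lib.L8

open Matrix Pool.Agent.Lib.L1S

noncomputable section

set_option linter.unusedSectionVars false

variable {ι M N : Type} [Fintype ι] [DecidableEq ι] [AddCommGroup M] [Module ℚ M] [AddCommGroup N] [Module ℚ N]
  {P : RootPairing ι ℚ M N} [P.IsCrystallographic] [P.IsReduced] [P.IsIrreducible] [P.IsRootSystem] {b : P.Base} {F : Type} [RCLike F]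

/-- `α_i^∨(s)` in the local group. -/
def gh (b : P.Base) (F : Type) [RCLike F] (i : b.support) (s : Fˣ) : GF b F :=
  ⟨hG b i s, Subgroup.le_topologicalClosure _ (mul_mem (mG_mem b i s) (inv_mem (mG_mem b i 1)))⟩

theorem ig13_inv (i : b.support) (s : Fˣ) : (hG b i s)⁻¹ = hG b i s⁻¹ := by
  rw [inv_eq_iff_mul_eq_one, ← hG_mul, mul_inv_cancel]
  exact mul_inv_cancel _

theorem ig13_pj {i : b.support} {r c : I b} (h : wt b r = wt b c) : pj b i r = pj b i c := by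
  have h1 : ((pj b i r : ℤ) : ℚ) = ((pj b i c : ℤ) : ℚ) := by
    rw [de_pj, de_pj, h]
  exact_mod_cast h1

/-- `h(e^a) = exp(a α_i^∨)`. PROOF: `hG_val`, diagonal entries: `(e^a)^(pj) = e^(a pj)`. -/
theorem gh_exp (i : b.support) (s : Fˣ) (a : ℝ) (h : (s : F) = ((Real.exp a : ℝ) : F)) : gh b F i s = gex b F (a • Pi.single i 1) := by
  refine Subtype.ext (Units.ext ?_)
  show (hG b i s).1 = exM b F (a • Pi.single i 1)
  rw [hG_val, tj, exM]
  congr 1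
  funext r
  have e1 : pry b (a • Pi.single i 1) r = (pj b i r : ℝ) * a := by
    rw [pry, Finset.sum_eq_single i]
    · rw [Pi.smul_apply, Pi.single_eq_same, smul_eq_mul, mul_one]
    · intro j _ hj
      rw [Pi.smul_apply, Pi.single_eq_of_ne hj, smul_zero, mul_zero]
    · intro h1
      exact absurd (Finset.mem_univ i) h1
  rw [e1, mul_comm, Real.exp_mul, Real.rpow_intCast, h, RCLike.ofReal_zpow]

/-- `h(s) ∈ M` for `|s| = 1`. PROOF: diagonal matrices commute; `stM` of the diagonal matrix `tj b i s` is `tj b i (star s)` (as `stM_exM`), and `star s = s⁻¹`. -/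
theorem gh_M (i : b.support) (s : Fˣ) (h : ‖(s : F)‖ = 1) : gh b F i s ∈ gM b F := by
  have hs : star (s : F) = ((s⁻¹ : Fˣ) : F) := by
    rw [Units.val_inv_eq_inv_val, RCLike.star_def, ← RCLike.inv_eq_conj h]
  refine ⟨?_, fun y => ?_⟩
  · refine Subtype.ext (Units.ext ?_)
    show stM b (hG b i s).1 = ((hG b i s)⁻¹).1
    rw [ig13_inv, hG_val, hG_val, ← hs]
    have e1 : (tj b i (s : F))ᴴ = tj b i (star (s : F)) := by
      rw [tj, tj, Matrix.diagonal_conjTranspose]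
      congr 1
      funext r
      exact star_zpow₀ _ _
    have e2 : tj b i (star (s : F)) * SF b F = SF b F * tj b i (star (s : F)) := by
      ext r c
      rw [tj, Matrix.diagonal_mul, Matrix.mul_diagonal]
      by_cases h0 : SF b F r c = 0
      · rw [h0, mul_zero, zero_mul]
      · rw [ig13_pj (SF_wt F b r c h0), mul_comm]
    rw [stM, e1, mul_assoc, e2, ← mul_assoc, Matrix.nonsing_inv_mul _ (SF_det F b), one_mul]
  · refine Subtype.ext (Units.ext ?_)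
    show (hG b i s).1 * exM b F y = exM b F y * (hG b i s).1
    rw [hG_val, tj, exM, Matrix.diagonal_mul_diagonal, Matrix.diagonal_mul_diagonal]
    congr 1
    funext r
    exact mul_comm _ _

theorem ig13_yx (i : b.support) (a c : F) (q : Fˣ) (hq : (q : F) = 1 + a * c) :
    gx b F (ng P i) a * gx b F (i : ι) c = gx b F (i : ι) (c * ((q⁻¹ : Fˣ) : F)) * gh b F i q⁻¹ * gx b F (ng P i) (a * ((q⁻¹ : Fˣ) : F)) :=
  Subtype.ext (rk_yx b i a c q hq)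

/-- **The Iwasawa decomposition of `n x(t)`**: with `D = 1 + |t|²`: `n x(t) = x(-t̄/D) exp(-½ log D α_i^∨) k`.
PROOF. `k := exp(-z) x(-r) n x(t)`, `r = -t̄/D`, `z = -½ log D e_i`. `k k* = exp(-z) x(-r) n x(t) y(t̄) n⁻¹ y(-r̄) exp(-z)` (`gst_mul`, `gst_gx`, `gst_gn`, `gst_gex`) `= exp(-z) x(-r) y(-t) x(-t̄) y(-r̄) exp(-z)` (`gn_gx`, `gn_gy`). By `rk_yx` with `a = -t`, `c = -t̄`, `q = D`:
`y(-t) x(-t̄) = x(-t̄/D) h(1/D) y(-t/D) = x(r) exp(2 z) y(r̄)` (`gh_exp`), so `k k* = 1` and `k* = k⁻¹`. -/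
theorem rk_K (i : b.support) (t : F) : ∃ k ∈ gK b F, gn b F i * gx b F (i : ι) t =
    gx b F (i : ι) (-(star t) * (((1 + ‖t‖ ^ 2)⁻¹ : ℝ) : F)) * gex b F ((-(1 / 2 : ℝ) * Real.log (1 + ‖t‖ ^ 2)) • Pi.single i 1) * k := by
  have hD : 0 < 1 + ‖t‖ ^ 2 := by positivity
  obtain ⟨D, hDD⟩ : ∃ D : ℝ, D = 1 + ‖t‖ ^ 2 := ⟨_, rfl⟩
  rw [← hDD] at hD ⊢
  obtain ⟨r, hr⟩ : ∃ r, r = -(star t) * ((D⁻¹ : ℝ) : F) := ⟨_, rfl⟩
  obtain ⟨z, hz⟩ : ∃ z : b.support → ℝ, z = (-(1 / 2 : ℝ) * Real.log D) • Pi.single i 1 := ⟨_, rfl⟩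
  rw [← hr, ← hz]
  have hD0 : ((D : ℝ) : F) ≠ 0 := by
    rw [Ne, RCLike.ofReal_eq_zero]
    exact hD.ne'
  obtain ⟨q, hq⟩ : ∃ q : Fˣ, (q : F) = ((D : ℝ) : F) := ⟨Units.mk0 _ hD0, rfl⟩
  have hqi : ((q⁻¹ : Fˣ) : F) = ((D⁻¹ : ℝ) : F) := by
    rw [Units.val_inv_eq_inv_val, hq, RCLike.ofReal_inv]
  have hq1 : (q : F) = 1 + (-t) * (-star t) := by
    rw [hq, hDD, neg_mul_neg, RCLike.star_def, RCLike.mul_conj]
    push_cast
    rfl
  have sr : star r = (-t) * ((q⁻¹ : Fˣ) : F) := by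
    rw [hr, hqi, star_mul, star_neg, star_star, RCLike.star_def, RCLike.conj_ofReal, mul_comm]
  have e1 := ig13_yx i (-t) (-star t) q hq1
  have e2 : gh b F i q⁻¹ = gex b F (z + z) := by
    rw [gh_exp i q⁻¹ (-Real.log D) (by rw [hqi, Real.exp_neg, Real.exp_log hD]), hz, ← add_smul]
    congr 2
    ring
  rw [e2, ← sr, hqi, ← hr] at e1
  refine ⟨(gex b F z)⁻¹ * (gx b F (i : ι) r)⁻¹ * (gn b F i * gx b F (i : ι) t), ?_, by group⟩
  obtain ⟨k, hk⟩ : ∃ k, k = (gex b F z)⁻¹ * (gx b F (i : ι) r)⁻¹ * (gn b F i * gx b F (i : ι) t) := ⟨_, rfl⟩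
  rw [← hk, mem_gK]
  refine eq_inv_of_mul_eq_one_right ?_
  have e3 : gst b F k = gx b F (ng P i) (star t) * (gn b F i)⁻¹ * (gx b F (ng P i) (star r))⁻¹ * (gex b F z)⁻¹ := by
    rw [hk, gst_mul, gst_mul, gst_mul, gst_gn, gst_gx, gst_inv, gst_inv, gst_gex, gst_gx]
    group
  have e4 : gn b F i * gx b F (i : ι) t * (gn b F i)⁻¹ = gx b F (ng P i) (-t) := gn_gx i t
  have e5 : gn b F i * gx b F (ng P i) (star t) * (gn b F i)⁻¹ = gx b F (i : ι) (-star t) := gn_gy i _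
  calc k * gst b F k = (gex b F z)⁻¹ * (gx b F (i : ι) r)⁻¹ * ((gn b F i * gx b F (i : ι) t * (gn b F i)⁻¹) * (gn b F i * gx b F (ng P i) (star t) * (gn b F i)⁻¹)) *
        (gx b F (ng P i) (star r))⁻¹ * (gex b F z)⁻¹ := by
          rw [e3, hk]
          group
    _ = (gex b F z)⁻¹ * (gx b F (i : ι) r)⁻¹ * (gx b F (i : ι) r * gex b F (z + z) * gx b F (ng P i) (star r)) * (gx b F (ng P i) (star r))⁻¹ * (gex b F z)⁻¹ := by
          rw [e4, e5, e1]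
    _ = 1 := by
          rw [gex_add]
          group

/-- **The inversion.** PROOF: `rk_xn`; `n x(-1/t) n⁻¹ = y(1/t)` (`gn_gx`); `h(-t) = h(-t/|t|) h(|t|)`, `gh_M`, `gh_exp`. -/
theorem rk_inv (i : b.support) (t : F) (ht : t ≠ 0) : ∃ m ∈ gM b F, gx b F (i : ι) t * gn b F i =
    (gn b F i * gx b F (i : ι) (-t⁻¹) * (gn b F i)⁻¹) * m * gex b F (Real.log ‖t‖ • Pi.single i 1) * gx b F (i : ι) (-t⁻¹) := by
  have hn : 0 < ‖t‖ := norm_pos_iff.2 ht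
  have hn0 : ((‖t‖ : ℝ) : F) ≠ 0 := by
    rw [Ne, RCLike.ofReal_eq_zero]
    exact hn.ne'
  obtain ⟨v, hv⟩ : ∃ v : Fˣ, (v : F) = ((‖t‖ : ℝ) : F) := ⟨Units.mk0 _ hn0, rfl⟩
  obtain ⟨u, hu⟩ : ∃ u : Fˣ, (u : F) = t := ⟨Units.mk0 _ ht, rfl⟩
  have e1 : gx b F (i : ι) t * gn b F i = gx b F (ng P i) t⁻¹ * gh b F i (-u) * gx b F (i : ι) (-t⁻¹) := by
    have h1 := rk_xn b i u
    rw [Units.val_inv_eq_inv_val, hu] at h1
    exact Subtype.ext h1
  have e2 : gh b F i (-u) = gh b F i (-u * v⁻¹) * gex b F (Real.log ‖t‖ • Pi.single i 1) := by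
    rw [← gh_exp i v (Real.log ‖t‖) (by rw [hv, Real.exp_log hn])]
    refine Subtype.ext ?_
    show hG b i (-u) = hG b i (-u * v⁻¹) * hG b i v
    rw [← hG_mul, inv_mul_cancel_right]
  refine ⟨gh b F i (-u * v⁻¹), gh_M i _ ?_, ?_⟩
  · rw [Units.val_mul, Units.val_neg, Units.val_inv_eq_inv_val, hu, hv, norm_mul, norm_neg, norm_inv, RCLike.norm_ofReal, abs_of_pos hn, mul_inv_cancel₀ hn.ne']
  · rw [e1, e2, gn_gx, neg_neg]
    group

end

end Pool.Agent.Lib.L8
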