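import Pool.Agent.Lib.L8.IG10
import Pool.Agent.Lib.L1S.ApiL2
import Pool.Agent.Lib.L1S.D3
import Pool.Agent.Lib.L1S.DC3

/-! # L8, module I, chunk IG15: weights of the elements of `U` and `V`, sums over `Φ_j` -/

namespace Pool.Agent.Lib.L8

open Matrix Pool.Agent.Lib.L1S

noncomputable section

set_option linter.unusedSectionVars false

variable {ι M N : Type} [Fintype ι] [DecidableEq ι] [AddCommGroup M] [Module ℚ M] [AddCommGroup N] [Module ℚ N]
  {P : RootPairing ι ℚ M N} [P.IsCrystallographic] [P.IsReduced] [P.IsIrreducible] [P.IsRootSystem] {b : P.Base} {F : Type} [RCLike F]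

/-- PROOF: as `uni_UR` (L1S/ApiL2): `prod_exists` with `GF_Nmz`, `PL_Uni`. -/
theorem gU_uni {u : GF b F} (hu : u ∈ gU b F) : Uni b u.1.1 := by
  obtain ⟨t, ht⟩ := prod_exists b (GF_Nmz u.2) hu
  rw [ht]
  exact PL_Uni b _ (fun β hβ => (posL_mem b β).1 hβ) t

theorem ig15_ht {r c : I b} (h : wt b r = wt b c) : ht b r = ht b c := by
  obtain ⟨l, hl⟩ := exists_lht b
  have h1 := hl r
  rw [h, hl c] at h1
  exact_mod_cast h1.symm

theorem ig15_wq {r c : I b} (h : wt b r = wt b c) (k : b.support) : wq b r k = wq b c k := by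
  rw [dc3_wq, dc3_wq, h]

theorem ig15_st (X : Matrix (I b) (I b) F) : stM b (X - 1) = stM b X - 1 := by
  have h1 : X - 1 = X + (-1 : F) • (1 : Matrix (I b) (I b) F) := by rw [neg_one_smul, sub_eq_add_neg]
  rw [h1, stM_add, stM_smul, stM_one]
  have h2 : star (-1 : F) = -1 := by rw [star_neg, star_one]
  rw [h2, neg_one_smul, sub_eq_add_neg]

theorem ig15_wt {X : Matrix (I b) (I b) F} {r c : I b} (h : stM b X r c ≠ (1 : Matrix (I b) (I b) F) r c) :
    ∃ r' c', wt b r' = wt b r ∧ wt b c' = wt b c ∧ X c' r' ≠ (1 : Matrix (I b) (I b) F) c' r' := by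
  have h1 : stM b (X - 1) r c ≠ 0 := by
    rw [ig15_st, Matrix.sub_apply]
    exact sub_ne_zero.2 h
  obtain ⟨r', c', hr, hc, h2⟩ := stM_wt h1
  rw [Matrix.sub_apply] at h2
  exact ⟨r', c', hr, hc, sub_ne_zero.1 h2⟩

/-- PROOF: `w = gst v ∈ U`, `v = gst w`: `v - 1 = stM (w - 1)` (`stM_add`, `stM_one`, `stM_smul` with `-1`), `stM_wt`, `gU_uni`, and `ht`, `wq` depend only on `wt` (`exists_lht`, `dc3_wq`). -/
theorem gV_lo {v : GF b F} (hv : v ∈ gV b F) (r c : I b) : v.1.1 r c = (1 : Matrix (I b) (I b) F) r c ∨ (ht b r < ht b c ∧ ∀ k, wq b r k ≤ wq b c k) := by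
  by_cases h : v.1.1 r c = (1 : Matrix (I b) (I b) F) r c
  · exact Or.inl h
  right
  have hw : gst b F v ∈ gU b F := hv
  have h1 : v.1.1 = stM b (gst b F v).1.1 := by
    have h2 : gst b F (gst b F v) = v := gst_gst b F v
    have h3 : (gst b F (gst b F v)).1.1 = stM b (gst b F v).1.1 := rfl
    rw [← h3, h2]
  rw [h1] at h
  obtain ⟨r', c', hr, hc, h2⟩ := ig15_wt h
  rcases gU_uni hw c' r' with h3 | ⟨h3, h4⟩
  · exact absurd h3 h2
  · rw [ig15_ht hr, ig15_ht hc] at h3
    refine ⟨h3, fun k => ?_⟩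
    have := h4 k
    rwa [ig15_wq hr, ig15_wq hc] at this

/-- `V` is the group of the lower unitriangular elements. PROOF: `gV_lo`; conversely if `v` is lower unitriangular, `gst v - 1 = stM (v - 1)` is strictly upper triangular for the height (`stM_wt`). -/
theorem gV_iff {v : GF b F} : v ∈ gV b F ↔ ∀ r c, ht b c < ht b r + 1 → v.1.1 r c = (1 : Matrix (I b) (I b) F) r c := by
  constructor
  · intro hv r c h
    rcases gV_lo hv r c with h1 | ⟨h1, -⟩
    · exact h1
    · omega
  · intro hv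
    show UTk b 1 (gst b F v).1.1
    intro r c h
    by_contra hne
    have h3 : (gst b F v).1.1 = stM b v.1.1 := rfl
    rw [h3] at hne
    obtain ⟨r', c', hr, hc, h2⟩ := ig15_wt hne
    refine h2 (hv c' r' ?_)
    rw [ig15_ht hr, ig15_ht hc]
    exact h

/-- The rows `-Φ_j`. -/
abbrev Tn (b : P.Base) (j : b.support) : Type := {r : I b // wq b r j < 0}

/-- `c_j = ∑_(β ∈ Φ_j) ⟨β, α_j^∨⟩`. -/
def cw (b : P.Base) (j : b.support) : ℤ := -∑ r : Tn b j, pj b j r.1

/-- `∑_(β ∈ Φ_j) ⟨β, α_k^∨⟩ = 0` for `k ≠ j`.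
PROOF: the reflection `s_k` preserves `T_j = -Φ_j` (it changes only the coefficient of `α_k`) and changes the sign of `pj b k` (`de_pj_refl`): `Finset.sum_bij'` / `Equiv.sum_comp`, so the sum is equal to its negative. -/
theorem cw_off {j k : b.support} (h : k ≠ j) : ∑ r : Tn b j, pj b k r.1 = 0 := by
  classical
  set σ : I b → I b := Sum.map id (P.reflectionPerm k) with hσ
  have hσσ : ∀ r, σ (σ r) = r := by
    rintro (i | β)
    · rfl
    · show (Sum.inr (P.reflectionPerm k (P.reflectionPerm k β)) : I b) = Sum.inr β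
      rw [l125_perm2]
  have hwt : ∀ r, wt b (σ r) = P.reflection k (wt b r) := by
    rintro (i | β)
    · show (0 : M) = P.reflection k (0 : M)
      rw [map_zero]
    · exact l125_perm (k : ι) β
  have hwq : ∀ r, wq b (σ r) j = wq b r j := by
    intro r
    rw [dc3_wq, dc3_wq, hwt, P.reflection_apply, map_sub, map_smul, Finsupp.sub_apply, Finsupp.smul_apply, b.toWeightBasis_repr_root k,
      Finsupp.single_eq_of_ne (Ne.symm h), smul_zero, sub_zero]
  let e : Tn b j ≃ Tn b j :=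
    { toFun := fun r => ⟨σ r.1, by rw [hwq]; exact r.2⟩
      invFun := fun r => ⟨σ r.1, by rw [hwq]; exact r.2⟩
      left_inv := fun r => Subtype.ext (hσσ r.1)
      right_inv := fun r => Subtype.ext (hσσ r.1) }
  have h1 : ∑ r : Tn b j, pj b k r.1 = ∑ r : Tn b j, pj b k (e r).1 := (Equiv.sum_comp e (fun r : Tn b j => pj b k r.1)).symm
  have h2 : ∀ r : Tn b j, pj b k (e r).1 = -pj b k r.1 := fun r => de_pj_refl (hwt r.1)
  rw [Finset.sum_congr rfl fun r _ => h2 r, Finset.sum_neg_distrib] at h1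
  omega

/-- PROOF. `σ = -∑_(r ∈ T_j) wt r = ∑_(β ∈ Φ_j) β`. `P.coroot' k σ = 0` for `k ≠ j` (`cw_off`, `de_pj`), so by `two_form` (L1S/L115) `(σ, α_k) = 0` for `k ≠ j` and `2 (σ, α_j) = c_j (α_j, α_j)`. `σ = ∑_k s_k α_k`, `s_j > 0` (a sum of positive numbers, the set contains `α_j`), `0 < (σ, σ) = s_j (σ, α_j)` (`form_pos`). -/
theorem cw_pos (j : b.support) : 0 < cw b j := by
  classical
  set σ : M := ∑ r : Tn b j, wt b r.1 with hσ
  have hc : ∀ k : b.support, P.coroot' k σ = ((∑ r : Tn b j, pj b k r.1 : ℤ) : ℚ) := by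
    intro k
    rw [hσ, map_sum, Int.cast_sum]
    exact Finset.sum_congr rfl fun r _ => (de_pj b k r.1).symm
  have hsj : b.toWeightBasis.repr σ j < 0 := by
    rw [hσ, map_sum, Finsupp.finsetSum_apply]
    refine Finset.sum_neg (fun r _ => ?_) ⟨⟨Sum.inr (ng P j), ?_⟩, Finset.mem_univ _⟩
    · rw [← dc3_wq]
      exact r.2
    · have h1 : wq b (Sum.inr (ng P (j : ι))) j = b.toWeightBasis.repr (P.root (ng P (j : ι))) j := rfl
      rw [h1, b2_root_neg, map_neg, Finsupp.neg_apply, b.toWeightBasis_repr_root j, Finsupp.single_eq_same]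
      norm_num
  have hσ0 : σ ≠ 0 := by
    intro h0
    rw [h0, map_zero, Finsupp.zero_apply] at hsj
    exact lt_irrefl _ hsj
  have hpos := form_pos (P := P) hσ0
  have hexp : σ = ∑ k : b.support, b.toWeightBasis.repr σ k • P.root k := by
    refine (b.toWeightBasis.sum_repr σ).symm.trans ?_
    refine Finset.sum_congr rfl fun k _ => ?_
    congr 1
    simp
  have h2 : 2 * P.RootForm σ σ = b.toWeightBasis.repr σ j * (P.coroot' j σ * P.RootForm (P.root j) (P.root j)) := by
    have h3 : P.RootForm σ σ = ∑ k : b.support, b.toWeightBasis.repr σ k * P.RootForm σ (P.root k) := by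
      have h4 : P.RootForm σ σ = P.RootForm σ (∑ k : b.support, b.toWeightBasis.repr σ k • P.root k) := congrArg (fun x => P.RootForm σ x) hexp
      rw [h4, map_sum]
      refine Finset.sum_congr rfl fun k _ => ?_
      rw [map_smul, smul_eq_mul]
    rw [h3, Finset.mul_sum, Finset.sum_eq_single j]
    · rw [← two_form (P := P) (j : ι) σ]
      ring
    · intro k _ hk
      have h4 := two_form (P := P) (k : ι) σ
      have h5 : P.coroot' k σ = 0 := by
        rw [hc k, cw_off hk, Int.cast_zero]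
      rw [h5, zero_mul] at h4
      have h6 : P.RootForm σ (P.root k) = 0 := by linarith
      rw [h6, mul_zero, mul_zero]
    · intro h
      exact absurd (Finset.mem_univ j) h
  have hjj := form_pos (P := P) (P.ne_zero (j : ι))
  have hcj : P.coroot' j σ = -((cw b j : ℤ) : ℚ) := by
    rw [hc j]
    unfold cw
    push_cast
    ring
  rw [hcj] at h2
  have h7 : (0 : ℚ) < (cw b j : ℤ) := by
    by_contra hneg
    push Not at hneg
    have h8 : b.toWeightBasis.repr σ j * (-((cw b j : ℤ) : ℚ) * P.RootForm (P.root j) (P.root j)) ≤ 0 := by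
      apply mul_nonpos_of_nonpos_of_nonneg hsj.le
      apply mul_nonneg (by linarith) hjj.le
    linarith
  exact_mod_cast h7

/-- PROOF: `pry = ∑_k pj b k r * y_k`, `cw_off`. -/
theorem sum_pry (j : b.support) (y : b.support → ℝ) : ∑ r : Tn b j, pry b y r = -((cw b j : ℤ) : ℝ) * y j := by
  classical
  unfold pry
  rw [Finset.sum_comm, Finset.sum_eq_single j]
  · rw [← Finset.sum_mul]
    have h1 : ∑ r : Tn b j, (pj b j r.1 : ℝ) = -((cw b j : ℤ) : ℝ) := by
      unfold cw
      push_cast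
      ring
    rw [h1]
  · intro k _ hk
    rw [← Finset.sum_mul]
    have h1 : ∑ r : Tn b j, (pj b k r.1 : ℝ) = ((∑ r : Tn b j, pj b k r.1 : ℤ) : ℝ) := by push_cast; rfl
    rw [h1, cw_off hk, Int.cast_zero, zero_mul]
  · intro h
    exact absurd (Finset.mem_univ j) h

/-- PROOF: as `dc_pr` (L1S/DC) with the linear form over `ℝ`: for every `j`: `pj b j r = ∑_k wq b r k * pj b j (inr k)` (`de_pj`, `wt b r = ∑_k wq b r k • root k`), then multiply by `y_j` and sum; `pry_simple`. -/
theorem pry_wq (y : b.support → ℝ) (r : I b) : pry b y r = ∑ k, ((wq b r k : ℚ) : ℝ) * al (fun i k : b.support => b.cartanMatrix i k) k y := by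
  have e1 : wt b r = ∑ k, wq b r k • P.root k := by
    refine (b.toWeightBasis.sum_repr (wt b r)).symm.trans ?_
    refine Finset.sum_congr rfl fun k _ => ?_
    rw [dc3_wq]
    congr 1
    simp
  have h1 : ∀ j : b.support, ((pj b j r : ℤ) : ℚ) = ∑ k, wq b r k * ((b.cartanMatrix k j : ℤ) : ℚ) := by
    intro j
    rw [de_pj, e1, map_sum]
    refine Finset.sum_congr rfl fun k _ => ?_
    rw [map_smul, smul_eq_mul]
    congr 1
    exact (de_pj b j (Sum.inr (k : ι))).symm
  have h2 : ∀ j : b.support, ((pj b j r : ℤ) : ℝ) = ∑ k, ((wq b r k : ℚ) : ℝ) * ((b.cartanMatrix k j : ℤ) : ℝ) := by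
    intro j
    have h3 : ((((pj b j r : ℤ) : ℚ)) : ℝ) = ((∑ k, wq b r k * ((b.cartanMatrix k j : ℤ) : ℚ) : ℚ) : ℝ) := by rw [h1 j]
    rw [Rat.cast_intCast, Rat.cast_sum] at h3
    rw [h3]
    refine Finset.sum_congr rfl fun k _ => ?_
    rw [Rat.cast_mul, Rat.cast_intCast]
  have h3 : pry b y r = ∑ j : b.support, ∑ k : b.support, ((wq b r k : ℚ) : ℝ) * ((b.cartanMatrix k j : ℤ) : ℝ) * y j := by
    unfold pry
    refine Finset.sum_congr rfl fun j _ => ?_
    rw [h2 j, Finset.sum_mul]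
  rw [h3, Finset.sum_comm]
  refine Finset.sum_congr rfl fun k _ => ?_
  unfold al
  rw [Finset.mul_sum]
  refine Finset.sum_congr rfl fun j _ => ?_
  exact mul_assoc _ _ _

/-- A dominant element has nonnegative coordinates. PROOF: `sum_pry`: `c_j y_j = -∑_(r ∈ T_j) pry y r`, and each `pry b y r ≤ 0` for `r ∈ T_j` (a negative root: `wq b r k ≤ 0` for all `k`, `b2_nonpos` (L1S/B2), `pry_wq`). -/
theorem ig_dom {y : b.support → ℝ} (h : ∀ i, 0 ≤ al (fun i k : b.support => b.cartanMatrix i k) i y) (j : b.support) : 0 ≤ y j := by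
  have h1 := sum_pry j y
  have h2 : ∑ r : Tn b j, pry b y r ≤ 0 := by
    refine Finset.sum_nonpos fun r _ => ?_
    rw [pry_wq]
    refine Finset.sum_nonpos fun k _ => mul_nonpos_of_nonpos_of_nonneg ?_ (h k)
    obtain ⟨r, hr⟩ := r
    rcases r with i | β
    · exact absurd hr (lt_irrefl _)
    · have hneg : ¬b.IsPos β := fun hp => absurd (b2_nonneg b hp j) (not_le.2 hr)
      have h3 : wq b (Sum.inr β) k ≤ 0 := b2_nonpos b hneg k
      exact_mod_cast h3
  rw [h1] at h2
  have h3 : (0 : ℝ) < ((cw b j : ℤ) : ℝ) := by exact_mod_cast cw_pos j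
  by_contra hneg
  push Not at hneg
  nlinarith

end

end Pool.Agent.Lib.L8
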