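import Pool.Agent.Lib.L8.IG11
import Pool.Agent.Lib.L8.IG15

/-! # L8, module I, chunk IG18: words and root elements -/

namespace Pool.Agent.Lib.L8

open Matrix Pool.Agent.Lib.L1S

noncomputable section

set_option linter.unusedSectionVars false

variable {ι M N : Type} [Fintype ι] [DecidableEq ι] [AddCommGroup M] [Module ℚ M] [AddCommGroup N] [Module ℚ N]
  {P : RootPairing ι ℚ M N} [P.IsCrystallographic] [P.IsReduced] [P.IsIrreducible] [P.IsRootSystem]

/-- The representative of a word. -/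
def gnl (b : P.Base) (F : Type) [RCLike F] (l : List b.support) : GF b F := (l.map (gn b F)).prod

variable {b : P.Base} {F : Type} [RCLike F]

theorem gnl_nil : gnl b F [] = 1 := rfl

theorem gnl_cons (i : b.support) (l : List b.support) : gnl b F (i :: l) = gn b F i * gnl b F l := rfl

theorem gnl_append (l l' : List b.support) : gnl b F (l ++ l') = gnl b F l * gnl b F l' := by
  unfold gnl
  rw [List.map_append, List.prod_append]

/-- PROOF: `gn_mem`. -/
theorem gnl_K (l : List b.support) : gnl b F l ∈ gK b F := by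
  unfold gnl
  refine Subgroup.list_prod_mem _ ?_
  intro x hx
  obtain ⟨i, -, rfl⟩ := List.mem_map.1 hx
  exact gn_mem b F i

theorem ig18_val (i : b.support) : (gn b F i).1.1 = toA F (nZ b i) := mG_one b i

theorem ig18_inv_val (i : b.support) : ((gn b F i)⁻¹).1.1 = toA F (nZ' b i) := mG_one_inv b i

/-- PROOF: `mG_one`, `mG_one_inv` (L1S/L122), induction (`l114_cons`, `toA_mul`). -/
theorem gnl_val (l : List b.support) : (gnl b F l).1.1 = toA F (nL b l) := by
  induction l with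
  | nil => exact toA_one.symm
  | cons j l ih =>
    have h1 : (gnl b F (j :: l)).1.1 = (gn b F j).1.1 * (gnl b F l).1.1 := rfl
    rw [h1, ih, ig18_val, ← toA_mul, l114_cons]

/-- PROOF: the same with `nL'`. -/
theorem gnl_inv_val (l : List b.support) : ((gnl b F l)⁻¹).1.1 = toA F (nL' b l) := by
  induction l with
  | nil =>
    have h1 : (gnl b F [])⁻¹ = (1 : GF b F) := by rw [gnl_nil, inv_one]
    rw [h1]
    exact toA_one.symm
  | cons j l ih =>
    have h1 : (gnl b F (j :: l))⁻¹ = (gnl b F l)⁻¹ * (gn b F j)⁻¹ := by rw [gnl_cons, _root_.mul_inv_rev]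
    have h2 : ((gnl b F l)⁻¹ * (gn b F j)⁻¹).1.1 = ((gnl b F l)⁻¹).1.1 * ((gn b F j)⁻¹).1.1 := rfl
    rw [h1, h2, ih, ig18_inv_val, ← toA_mul, l114_cons']

theorem ig18_gn (i : b.support) (β : ι) : ∃ ε : F, (ε = 1 ∨ ε = -1) ∧ ∀ t : F, gn b F i * gx b F β t * (gn b F i)⁻¹ = gx b F (P.reflectionPerm i β) (ε * t) := by
  obtain ⟨ε, hε, h⟩ := nZ_E (b := b) i β
  refine ⟨(ε : F), ?_, fun t => ?_⟩
  · rcases hε with rfl | rfl
    · left; simp
    · right; simp
  · refine Subtype.ext (Units.ext ?_)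
    have h1 : (gn b F i * gx b F β t * (gn b F i)⁻¹).1.1 = (gn b F i).1.1 * xx b β t * ((gn b F i)⁻¹).1.1 := rfl
    have h2 : (gx b F (P.reflectionPerm i β) ((ε : F) * t)).1.1 = xx b (P.reflectionPerm i β) ((ε : F) * t) := rfl
    rw [h1, h2, ig18_val, ig18_inv_val]
    unfold xx
    rw [← DP.ex_smul hε (DP_E b _), ← h, DP.ex_conjW (nZ_mul' b i) (nZ_mul b i) (DP_E b β)]

/-- PROOF: induction on the word: `nZ_E` (L1S/L121) gives `n_i x_γ(t) n_i⁻¹ = x_(s_i γ)(ε t)` (`mG_E` in L1S/L125 or `DP.ex_conjW`, `DP.ex_smul`). -/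
theorem gnl_gx (l : List b.support) (β : ι) : ∃ ε : F, (ε = 1 ∨ ε = -1) ∧ ∀ t : F, gnl b F l * gx b F β t * (gnl b F l)⁻¹ = gx b F (wL b l β) (ε * t) := by
  induction l with
  | nil =>
    refine ⟨1, Or.inl rfl, fun t => ?_⟩
    rw [gnl_nil, one_mul, inv_one, mul_one, one_mul]
    rfl
  | cons j l ih =>
    obtain ⟨ε, hε, h⟩ := ih
    obtain ⟨ε', hε', h'⟩ := ig18_gn (F := F) j (wL b l β)
    refine ⟨ε' * ε, ?_, fun t => ?_⟩
    · rcases hε with rfl | rfl <;> rcases hε' with rfl | rfl <;> simp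
    · have h1 : gnl b F (j :: l) * gx b F β t * (gnl b F (j :: l))⁻¹ = gn b F j * (gnl b F l * gx b F β t * (gnl b F l)⁻¹) * (gn b F j)⁻¹ := by
        rw [gnl_cons]
        group
      rw [h1, h, h', mul_assoc, l117_cons]

/-- The same for the inverse. -/
theorem gnl_gx' (l : List b.support) (β : ι) : ∃ ε : F, (ε = 1 ∨ ε = -1) ∧ ∀ t : F, (gnl b F l)⁻¹ * gx b F (wL b l β) t * gnl b F l = gx b F β (ε * t) := by
  obtain ⟨ε, hε, h⟩ := gnl_gx (F := F) l β
  refine ⟨ε, hε, fun t => ?_⟩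
  have h1 : ε * (ε * t) = t := by rcases hε with rfl | rfl <;> simp
  have h2 := h (ε * t)
  rw [h1] at h2
  rw [← h2]
  group

/-- PROOF: if `wL b l i > 0`: `gnl_gx`, `gx_U`. If it is negative (`height ≠ 0`, `b.pos_or_neg` or similar): for `t = 1` the element is in `U` and in `V` (`gx_V`), so it is `1` (`gUV`), so `x_i(1) = 1`, but `c_i(x_i(1)) = 1`. -/
theorem gPos_iff (l : List b.support) (i : b.support) : (∀ t : F, gnl b F l * gx b F (i : ι) t * (gnl b F l)⁻¹ ∈ gU b F) ↔ 0 < b.height (wL b l (i : ι)) := by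
  obtain ⟨ε, hε, h⟩ := gnl_gx (F := F) l (i : ι)
  constructor
  · intro hU
    by_contra hneg
    have h0 : b.height (wL b l (i : ι)) < 0 := lt_of_le_of_ne (not_lt.1 hneg) (b.height_ne_zero _)
    have h1 := hU 1
    have h2 : gnl b F l * gx b F (i : ι) 1 * (gnl b F l)⁻¹ ∈ gV b F := by
      rw [h]
      exact gx_V h0 _
    have h3 := gUV h1 h2
    have h4 : gx b F (i : ι) (1 : F) = 1 := by
      have h5 : gx b F (i : ι) (1 : F) = (gnl b F l)⁻¹ * (gnl b F l * gx b F (i : ι) 1 * (gnl b F l)⁻¹) * gnl b F l := by group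
      rw [h5, h3]
      group
    have h6 := gc_gx (b := b) i (1 : F)
    rw [h4] at h6
    have h7 : gc b F i (1 : GF b F) = 0 := by
      show (1 : Matrix (I b) (I b) F) (Sum.inl i) (Sum.inr (ng P i)) = 0
      exact Matrix.one_apply_ne (by simp)
    rw [h7] at h6
    exact zero_ne_one h6
  · intro h0 t
    rw [h]
    exact gx_U h0 _

/-- PROOF: `n x_i(t) n⁻¹ = x_(-i)(-t)` (`gn_gx`), `gnl_gx`, `wL b l (-i) = -(wL b l i)` (`l117_ng`), `gx_V`. -/
theorem g_pos_neg (l : List b.support) (i : b.support) (h : 0 < b.height (wL b l (i : ι))) (t : F) : gnl b F l * (gn b F i * gx b F (i : ι) t * (gn b F i)⁻¹) * (gnl b F l)⁻¹ ∈ gV b F := by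
  rw [gn_gx]
  obtain ⟨ε, -, h1⟩ := gnl_gx (F := F) l (ng P i)
  rw [h1, l117_ng]
  refine gx_V ?_ _
  have h2 : b.height (ng P (wL b l (i : ι))) = -b.height (wL b l (i : ι)) := b.height_reflectionPerm_self _
  rw [h2]
  omega

/-- PROOF: `gn_gex`, induction (`wl` in L8/Iw). -/
theorem gnl_gex (l : List b.support) (y : b.support → ℝ) : gnl b F l * gex b F y * (gnl b F l)⁻¹ = gex b F (wl (cA b) l y) := by
  induction l with
  | nil =>
    rw [gnl_nil, one_mul, inv_one, mul_one]
    rfl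
  | cons j l ih =>
    have h1 : gnl b F (j :: l) * gex b F y * (gnl b F (j :: l))⁻¹ = gn b F j * (gnl b F l * gex b F y * (gnl b F l)⁻¹) * (gn b F j)⁻¹ := by
      rw [gnl_cons]
      group
    rw [h1, ih, gn_gex]
    rfl

/-- `⟨w β, w y⟩ = ⟨β, y⟩`. PROOF: `pry_sr`, induction (`l125_perm`: `P.root (P.reflectionPerm i β) = P.reflection i (P.root β)`). -/
theorem pry_wl (l : List b.support) (y : b.support → ℝ) (β : ι) : pry b (wl (cA b) l y) (Sum.inr (wL b l β)) = pry b y (Sum.inr β) := by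
  induction l with
  | nil => rfl
  | cons j l ih =>
    rw [← ih]
    exact pry_sr (c := Sum.inr (wL b l β)) j (wl (cA b) l y) (l125_perm (j : ι) (wL b l β))

theorem ig18_sum (γ : ι) : P.root γ = ∑ k : b.support, wq b (Sum.inr γ) k • P.root k := by
  have h := (b.toWeightBasis.sum_repr (P.root γ)).symm
  refine h.trans ?_
  refine Finset.sum_congr rfl fun k _ => ?_
  have h1 : wq b (Sum.inr γ) k = b.toWeightBasis.repr (P.root γ) k := rfl
  rw [h1]
  congr 1
  simp

theorem ig18_refl (j : b.support) (γ : ι) (k : b.support) :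
    wq b (Sum.inr (P.reflectionPerm j γ)) k = wq b (Sum.inr γ) k - (if j = k then P.coroot' j (P.root γ) else 0) := by
  have h1 : wq b (Sum.inr (P.reflectionPerm j γ)) k = b.toWeightBasis.repr (P.root (P.reflectionPerm j γ)) k := rfl
  have h2 : wq b (Sum.inr γ) k = b.toWeightBasis.repr (P.root γ) k := rfl
  rw [h1, h2, P.root_reflectionPerm, P.reflection_apply, map_sub, map_smul, Finsupp.sub_apply, Finsupp.smul_apply, b.toWeightBasis_repr_root j]
  congr 1
  by_cases hk : j = k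
  · simp [hk]
  · simp [hk]

theorem ig18_al (i : ι) (j : b.support) (γ : ι) :
    ∑ k : b.support, ((b.cartanMatrix j k : ℤ) : ℚ) * (wq b (Sum.inr γ) k * lenq P i / lenq P k) = lenq P i / lenq P j * P.coroot' j (P.root γ) := by
  conv_rhs => rw [ig18_sum (b := b) γ]
  rw [map_sum, Finset.mul_sum]
  refine Finset.sum_congr rfl fun k _ => ?_
  rw [map_smul, smul_eq_mul, P.root_coroot'_eq_pairing, ← P.algebraMap_pairingIn ℤ]
  have h1 := lenq_pair (P := P) (j : ι) (k : ι)
  have hj := (lenq_pos (P := P) (j : ι)).ne'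
  have hk := (lenq_pos (P := P) (k : ι)).ne'
  have h2 : ((b.cartanMatrix j k : ℤ) : ℚ) = ((P.pairingIn ℤ j k : ℤ) : ℚ) := rfl
  have h3 : (algebraMap ℤ ℚ) (P.pairingIn ℤ (k : ι) (j : ι)) = ((P.pairingIn ℤ (k : ι) (j : ι) : ℤ) : ℚ) := rfl
  rw [h2, h3]
  field_simp
  linear_combination (wq b (Sum.inr γ) k * lenq P i) * h1

/-- The coroot of `w α_i`: `(w α_i^∨)_k = n_k (α_k, α_k) / (α_i, α_i)`, `w α_i = ∑ n_k α_k`.
PROOF: induction on `l`. `[]`: `wq (inr i) k = δ_ik`. `j :: l`: `sr A j y = y - al A j y e_j`, `wq (inr (s_j γ)) k = wq (inr γ) k - δ_jk ⟨γ, α_j^∨⟩`; with `y_k = wq (inr γ) k * lenq i / lenq k`: `al A j y = ∑_k ⟨α_j, α_k^∨⟩ y_k = (lenq i / lenq j) ∑_k wq (inr γ) k ⟨α_k, α_j^∨⟩ = (lenq i / lenq j) ⟨γ, α_j^∨⟩`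
by `lenq_pair` (L8/IG1). -/
theorem wl_coroot (l : List b.support) (i k : b.support) : wl (cA b) l (Pi.single i 1) k = ((wq b (Sum.inr (wL b l (i : ι))) k * lenq P i / lenq P k : ℚ) : ℝ) := by
  induction l generalizing k with
  | nil =>
    have h1 : wq b (Sum.inr (wL b [] (i : ι))) k = b.toWeightBasis.repr (P.root i) k := rfl
    rw [h1, b.toWeightBasis_repr_root i]
    show (Pi.single i 1 : b.support → ℝ) k = _
    by_cases hk : i = k
    · subst hk
      have hi := (lenq_pos (P := P) (i : ι)).ne'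
      rw [Pi.single_eq_same, Finsupp.single_eq_same, one_mul, div_self hi]
      simp
    · rw [Pi.single_eq_of_ne (Ne.symm hk), Finsupp.single_eq_of_ne (Ne.symm hk)]
      simp
  | cons j l ih =>
    have h1 : wl (cA b) (j :: l) (Pi.single i 1) k = wl (cA b) l (Pi.single i 1) k - al (cA b) j (wl (cA b) l (Pi.single i 1)) * (Pi.single j 1 : b.support → ℝ) k := rfl
    have h2 : al (cA b) j (wl (cA b) l (Pi.single i 1)) = ((lenq P i / lenq P j * P.coroot' j (P.root (wL b l (i : ι))) : ℚ) : ℝ) := by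
      rw [← ig18_al (i : ι) j (wL b l (i : ι))]
      unfold al
      push_cast
      refine Finset.sum_congr rfl fun m _ => ?_
      rw [ih m]
      push_cast
      rfl
    rw [h1, ih k, h2, l117_cons, ig18_refl]
    by_cases hk : j = k
    · subst hk
      rw [Pi.single_eq_same, if_pos rfl]
      push_cast
      ring
    · rw [Pi.single_eq_of_ne (Ne.symm hk), if_neg hk]
      push_cast
      ring

/-- PROOF: `wl_coroot`, `b2_nonneg` (L1S/B2), `lenq_pos`; the coefficients are not all zero. -/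
theorem g_pos_coroot (l : List b.support) (i : b.support) (h : 0 < b.height (wL b l (i : ι))) : (∀ k, 0 ≤ wl (cA b) l (Pi.single i 1) k) ∧ ∃ k, 0 < wl (cA b) l (Pi.single i 1) k := by
  have hi := lenq_pos (P := P) (i : ι)
  have h0 : ∀ k : b.support, 0 ≤ wq b (Sum.inr (wL b l (i : ι))) k := fun k => b2_nonneg b h k
  have h1 : ∀ k, 0 ≤ wl (cA b) l (Pi.single i 1) k := by
    intro k
    rw [wl_coroot]
    have hk := lenq_pos (P := P) (k : ι)
    have := h0 k
    have h3 : (0 : ℚ) ≤ wq b (Sum.inr (wL b l (i : ι))) k * lenq P i / lenq P k := by positivity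
    exact_mod_cast h3
  refine ⟨h1, ?_⟩
  by_contra hno
  push Not at hno
  have h2 : ∀ k : b.support, wq b (Sum.inr (wL b l (i : ι))) k = 0 := by
    intro k
    have hk := lenq_pos (P := P) (k : ι)
    have h3 := le_antisymm (hno k) (h1 k)
    rw [wl_coroot] at h3
    have h4 : wq b (Sum.inr (wL b l (i : ι))) k * lenq P i / lenq P k = 0 := by exact_mod_cast h3
    rw [div_eq_zero_iff, mul_eq_zero] at h4
    rcases h4 with (h4 | h4) | h4
    · exact h4
    · exact absurd h4 hi.ne'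
    · exact absurd h4 hk.ne'
  have h3 := ig18_sum (b := b) (wL b l (i : ι))
  rw [Finset.sum_eq_zero (fun k _ => by rw [h2 k, zero_smul])] at h3
  exact P.ne_zero _ h3

end

end Pool.Agent.Lib.L8
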