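import Pool.Agent.Lib.L8.IG18
import Pool.Agent.Lib.L1S.DC2

/-! # L8, module I, chunk IG19: combinatorics of words -/

namespace Pool.Agent.Lib.L8

open Matrix Pool.Agent.Lib.L1S

noncomputable section

set_option linter.unusedSectionVars false

variable {ι M N : Type} [Fintype ι] [DecidableEq ι] [AddCommGroup M] [Module ℚ M] [AddCommGroup N] [Module ℚ N]
  {P : RootPairing ι ℚ M N} [P.IsCrystallographic] [P.IsReduced] [P.IsIrreducible] [P.IsRootSystem] {b : P.Base}

/-- `wq` is linear along words: `(w β)_k = ∑_i β_i (w α_i)_k`. PROOF: `root_wL` (L1S/L117): `P.root (wL b l β) = sL b l (P.root β)`, `P.root β = ∑_i wq b (inr β) i • P.root i` (`b.toWeightBasis.sum_repr`, see `dc_pr`), `sL` is linear. -/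
theorem wq_wL (l : List b.support) (β : ι) (k : b.support) : wq b (Sum.inr (wL b l β)) k = ∑ i : b.support, wq b (Sum.inr β) i * wq b (Sum.inr (wL b l (i : ι))) k := by
  have h1 : P.root β = ∑ i : b.support, b.toWeightBasis.repr (P.root β) i • P.root i := by
    have h2 := b.toWeightBasis.sum_repr (P.root β)
    simp only [RootPairing.Base.toWeightBasis_apply] at h2
    exact h2.symm
  have h3 : P.root (wL b l β) = ∑ i : b.support, b.toWeightBasis.repr (P.root β) i • P.root (wL b l (i : ι)) := by
    rw [root_wL]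
    conv_lhs => rw [h1]
    rw [map_sum]
    refine Finset.sum_congr rfl fun i _ => ?_
    rw [map_smul, root_wL]
  show b.toWeightBasis.repr (P.root (wL b l β)) k = ∑ i : b.support, b.toWeightBasis.repr (P.root β) i * b.toWeightBasis.repr (P.root (wL b l (i : ι))) k
  rw [h3, map_sum, Finsupp.finsetSum_apply]
  refine Finset.sum_congr rfl fun i _ => ?_
  rw [map_smul, Finsupp.smul_apply, smul_eq_mul]

/-- PROOF: `b2_nonneg` (L1S/B2). -/
theorem wq_nonneg {β : ι} (h : 0 < b.height β) (k : b.support) : 0 ≤ wq b (Sum.inr β) k :=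
  b2_nonneg b h k

/-- PROOF: `b2_nonpos`. -/
theorem wq_nonpos {β : ι} (h : b.height β < 0) (k : b.support) : wq b (Sum.inr β) k ≤ 0 :=
  b2_nonpos b (fun h' => lt_asymm h h') k

/-- PROOF: `RootPairing.Base.height` is not zero (see the proofs in L1S/B2, `IsPos`). -/
theorem height_ne (b : P.Base) (β : ι) : b.height β ≠ 0 :=
  b.height_ne_zero β

/-- The height is the sum of the coefficients. PROOF: `exists_lht` (L1S/L21), or the definition of `height`. -/
theorem height_wq (β : ι) : ((b.height β : ℤ) : ℚ) = ∑ k, wq b (Sum.inr β) k := by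
  obtain ⟨l, hl⟩ := exists_lht b
  have h1 : l (P.root β) = (b.height β : ℚ) := hl (Sum.inr β)
  have h2 : ∀ i : b.support, l (P.root i) = 1 := by
    intro i
    have h3 : l (P.root i) = (b.height i : ℚ) := hl (Sum.inr i)
    rw [h3, b.height_one_of_mem_support i.2, Int.cast_one]
  have h4 : P.root β = ∑ i : b.support, b.toWeightBasis.repr (P.root β) i • P.root i := by
    have h5 := b.toWeightBasis.sum_repr (P.root β)
    simp only [RootPairing.Base.toWeightBasis_apply] at h5
    exact h5.symm
  rw [← h1]
  conv_lhs => rw [h4]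
  rw [map_sum]
  refine Finset.sum_congr rfl fun i _ => ?_
  rw [map_smul, h2, smul_eq_mul, mul_one]
  rfl

/-- If all `w α_i` are negative then `w` maps positive roots to negative roots. PROOF: `wq_wL`, `height_wq`, `height_ne`. -/
theorem wL_neg {l : List b.support} (h : ∀ i : b.support, b.height (wL b l (i : ι)) < 0) {β : ι} (hβ : 0 < b.height β) : b.height (wL b l β) < 0 := by
  have h1 : ((b.height (wL b l β) : ℤ) : ℚ) = ∑ i : b.support, wq b (Sum.inr β) i * ((b.height (wL b l (i : ι)) : ℤ) : ℚ) := by
    rw [height_wq]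
    simp_rw [wq_wL l β, height_wq, Finset.mul_sum]
    rw [Finset.sum_comm]
  have h2 : ((b.height (wL b l β) : ℤ) : ℚ) ≤ -((b.height β : ℤ) : ℚ) := by
    rw [h1, height_wq β, ← Finset.sum_neg_distrib]
    refine Finset.sum_le_sum fun i _ => ?_
    have h3 := wq_nonneg hβ i
    have h4 : ((b.height (wL b l (i : ι)) : ℤ) : ℚ) ≤ -1 := by
      have h5 := h i
      exact_mod_cast (by omega : b.height (wL b l (i : ι)) ≤ -1)
    nlinarith
  have h3 : b.height (wL b l β) ≤ -b.height β := by exact_mod_cast h2
  omega

/-- The inverse too. PROOF: if `γ > 0` and `β = w⁻¹ γ > 0` then `γ = w β < 0`. -/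
theorem wL_neg' {l : List b.support} (h : ∀ i : b.support, b.height (wL b l (i : ι)) < 0) {β : ι} (hβ : 0 < b.height (wL b l β)) : b.height β < 0 := by
  by_contra hcon
  have h1 : 0 < b.height β := lt_of_le_of_ne (not_lt.1 hcon) (height_ne b β).symm
  have h2 := wL_neg h h1
  omega

/-- PROOF: `pry_wq`, `wq_nonneg`. -/
theorem pry_dom {Z : b.support → ℝ} (hZ : ∀ i, 0 ≤ al (cA b) i Z) {β : ι} (h : 0 < b.height β) : 0 ≤ pry b Z (Sum.inr β) := by
  rw [pry_wq]
  refine Finset.sum_nonneg fun k _ => mul_nonneg ?_ (hZ k)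
  exact_mod_cast wq_nonneg h k

/-- PROOF: `pry_wq`, `wq_nonpos`: otherwise `β` is negative and the value is `≤ 0`. -/
theorem pry_pos {Z : b.support → ℝ} (hZ : ∀ i, 0 ≤ al (cA b) i Z) {β : ι} (h : 0 < pry b Z (Sum.inr β)) : 0 < b.height β := by
  by_contra hcon
  have h1 : b.height β < 0 := lt_of_le_of_ne (not_lt.1 hcon) (height_ne b β)
  rw [pry_wq] at h
  have h2 : ∑ k, ((wq b (Sum.inr β) k : ℚ) : ℝ) * al (fun i k : b.support => b.cartanMatrix i k) k Z ≤ 0 := by
    refine Finset.sum_nonpos fun k _ => mul_nonpos_of_nonpos_of_nonneg ?_ (hZ k)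
    exact_mod_cast wq_nonpos h1 k
  exact absurd h (not_lt.2 h2)

theorem ig19_rr (i : b.support) (β : ι) : P.reflectionPerm i (P.reflectionPerm i β) = β := by
  apply P.root.injective
  rw [P.root_reflectionPerm, P.root_reflectionPerm, P.reflection_same]

theorem ig19_split {α : Type} {l : List α} {i : α} {l₁ : List α} {j : α} {l₂ : List α} (h : l ++ [i] = l₁ ++ j :: l₂) :
    (l₁ = l ∧ j = i) ∨ ∃ l₃, l = l₁ ++ j :: l₃ := by
  rcases List.eq_nil_or_concat l₂ with rfl | ⟨l₃, x, rfl⟩
  · left
    obtain ⟨h1, h2⟩ := List.append_inj' h rfl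
    exact ⟨h1.symm, (List.cons.inj h2).1.symm⟩
  · right
    refine ⟨l₃, ?_⟩
    rw [List.concat_eq_append, ← List.cons_append, ← List.append_assoc] at h
    exact (List.append_inj' h rfl).1

/-- The simple reflection maps the negative roots other than `-α_i` to negative roots. -/
theorem ig19_refl (i : b.support) {β : ι} (hβ : b.height β < 0) (hne : β ≠ ng P i) : b.height (P.reflectionPerm i β) < 0 := by
  let := P.indexNeg
  have h1 : b.IsPos (-β) := by
    rw [RootPairing.Base.IsPos.neg_iff_not]
    exact fun h => lt_asymm hβ h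
  have h2 : -β ≠ (i : ι) := by
    intro h
    apply hne
    have h3 : β = -(i : ι) := by rw [← h, neg_neg]
    exact h3
  have h3 := h1.reflectionPerm i.2 h2
  have h4 : P.reflectionPerm (i : ι) (-β) = -(P.reflectionPerm (i : ι) β) := l117_ng [i] β
  rw [h4, RootPairing.Base.IsPos.neg_iff_not] at h3
  have h5 : ¬ 0 < b.height (P.reflectionPerm i β) := h3
  exact lt_of_le_of_ne (not_lt.1 h5) (height_ne b _)

theorem ig19_neg (i : b.support) : b.height (ng P i) < 0 := by
  have h1 := b.height_reflectionPerm_self (i : ι)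
  have h2 := b.height_one_of_mem_support i.2
  have h3 : b.height (ng P i) = -b.height (i : ι) := h1
  omega

theorem ig19_app (l : List b.support) (i : b.support) (β : ι) : wL b (l ++ [i]) β = wL b l (P.reflectionPerm i β) := by
  rw [wL_append]
  rfl

theorem ig19_ng (i : b.support) : P.reflectionPerm i (ng P i) = (i : ι) := by
  have h1 : ng P i = P.reflectionPerm i (i : ι) := rfl
  rw [h1]
  exact ig19_rr i (i : ι)

theorem ig19_wng (l : List b.support) (i : b.support) (h : 0 < b.height (wL b l (i : ι))) : b.height (wL b l (ng P i)) < 0 := by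
  rw [l117_ng]
  let := P.indexNeg
  have h1 := b.height_reflectionPerm_self (wL b l (i : ι))
  have h3 : b.height (ng P (wL b l (i : ι))) = -b.height (wL b l (i : ι)) := h1
  omega

/-- Reduced words are short: the number of the negative roots `β` with `w β > 0` is the length.
PROOF: induction from the right (`List.reverseRecOn` / `List.eq_nil_or_concat`): for `l ++ [i]` with `w α_i > 0` (`w = wL b l`): `wL b (l ++ [i]) β = w (s_i β)`; `β ↦ s_i β` permutes the negative roots other than `-α_i` (`IsPos.reflectionPerm` for `-β`), `-α_i` is counted for `l ++ [i]` (`w s_i (-α_i) = w α_i > 0`)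
and not for `l` (`w (-α_i) < 0`). -/
theorem red_len (l : List b.support) (h : ∀ (l₁ : List b.support) (i : b.support) (l₂ : List b.support), l = l₁ ++ i :: l₂ → 0 < b.height (wL b l₁ (i : ι))) : l.length = (Finset.univ.filter fun β : ι => b.height β < 0 ∧ 0 < b.height (wL b l β)).card := by
  induction l using List.reverseRecOn with
  | nil =>
    symm
    rw [List.length_nil, Finset.card_eq_zero, Finset.filter_eq_empty_iff]
    rintro β - ⟨h1, h2⟩
    have h3 : wL b [] β = β := rfl
    rw [h3] at h2
    exact lt_asymm h1 h2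
  | append_singleton l i ih =>
    have h0 : 0 < b.height (wL b l (i : ι)) := h l i [] rfl
    have h1 := ih fun l₁ j l₂ hl => h l₁ j (l₂ ++ [i]) (by rw [hl, List.append_assoc, List.cons_append])
    have h2 : (Finset.univ.filter fun β : ι => b.height β < 0 ∧ 0 < b.height (wL b (l ++ [i]) β)) =
        insert (ng P i) ((Finset.univ.filter fun β : ι => b.height β < 0 ∧ 0 < b.height (wL b l β)).image (P.reflectionPerm i)) := by
      ext β
      rw [Finset.mem_insert, Finset.mem_image, Finset.mem_filter, ig19_app]
      constructor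
      · rintro ⟨-, h3, h4⟩
        by_cases h5 : β = ng P i
        · exact Or.inl h5
        · refine Or.inr ⟨P.reflectionPerm i β, ?_, ig19_rr i β⟩
          rw [Finset.mem_filter]
          exact ⟨Finset.mem_univ _, ig19_refl i h3 h5, h4⟩
      · rintro (rfl | ⟨γ, h3, rfl⟩)
        · refine ⟨Finset.mem_univ _, ig19_neg i, ?_⟩
          rw [ig19_ng]
          exact h0
        · rw [Finset.mem_filter] at h3
          have h5 : γ ≠ ng P i := by
            rintro rfl
            exact lt_asymm (ig19_wng l i h0) h3.2.2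
          refine ⟨Finset.mem_univ _, ig19_refl i h3.2.1 h5, ?_⟩
          rw [ig19_rr]
          exact h3.2.2
    rw [h2, Finset.card_insert_of_notMem, Finset.card_image_of_injective _ (P.reflectionPerm i).injective, ← h1, List.length_append, List.length_singleton]
    intro h3
    rw [Finset.mem_image] at h3
    obtain ⟨γ, h4, h5⟩ := h3
    rw [Finset.mem_filter] at h4
    have h6 : γ = (i : ι) := by
      rw [← ig19_ng i, ← h5, ig19_rr]
    rw [h6, b.height_one_of_mem_support i.2] at h4
    omega

theorem red_le (l : List b.support) (h : ∀ (l₁ : List b.support) (i : b.support) (l₂ : List b.support), l = l₁ ++ i :: l₂ → 0 < b.height (wL b l₁ (i : ι))) : l.length ≤ Fintype.card ι := by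
  rw [red_len l h]
  exact Finset.card_le_univ _

/-- The inversions of a word: if `β < 0` and `w β > 0` then `w β = wL b l₁ i` for a factorisation `l = l₁ ++ i :: l₂`.
PROOF: induction on `l` from the right: `l ++ [i]`: `w (s_i β) > 0`; if `s_i β < 0`: the induction hypothesis for `s_i β`; if `s_i β > 0` then `β = -α_i` (`β < 0`, `IsPos.reflectionPerm`), `w (s_i β) = w α_i`: the factorisation `l ++ i :: []`. -/
theorem word_inv (l : List b.support) {β : ι} (hβ : b.height β < 0) (h : 0 < b.height (wL b l β)) : ∃ (l₁ : List b.support) (i : b.support) (l₂ : List b.support), l = l₁ ++ i :: l₂ ∧ wL b l β = wL b l₁ (i : ι) := by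
  induction l using List.reverseRecOn generalizing β with
  | nil =>
    have h3 : wL b [] β = β := rfl
    rw [h3] at h
    exact absurd h (lt_asymm hβ)
  | append_singleton l i ih =>
    rw [ig19_app] at h
    by_cases h1 : β = ng P i
    · refine ⟨l, i, [], rfl, ?_⟩
      rw [ig19_app, h1, ig19_ng]
    · obtain ⟨l₁, j, l₂, h2, h3⟩ := ih (ig19_refl i hβ h1) h
      refine ⟨l₁, j, l₂ ++ [i], ?_, ?_⟩
      · rw [h2, List.append_assoc, List.cons_append]
      · rw [ig19_app, h3]

/-- **First stage.** PROOF: among the words with the first property (the empty word has it) take one of maximal length (`red_le`). If `w α_i > 0` and `pry Z (w α_i) ≠ 0` then it is `> 0` (`pry_dom`), and `l ++ [i]` has the first property too (a factorisation `l ++ [i] = l₁ ++ j :: l₂` has `l₂ = []`, `l₁ = l`, `j = i` or comes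
from one of `l`). -/
theorem stage1 {Z : b.support → ℝ} (hZ : ∀ i, 0 ≤ al (cA b) i Z) : ∃ l : List b.support,
    (∀ (l₁ : List b.support) (i : b.support) (l₂ : List b.support), l = l₁ ++ i :: l₂ → 0 < b.height (wL b l₁ (i : ι)) ∧ 0 < pry b Z (Sum.inr (wL b l₁ (i : ι)))) ∧
    ∀ i : b.support, 0 < b.height (wL b l (i : ι)) → pry b Z (Sum.inr (wL b l (i : ι))) = 0 := by
  have key : ∀ (m : ℕ) (l : List b.support), (∀ (l₁ : List b.support) (i : b.support) (l₂ : List b.support), l = l₁ ++ i :: l₂ →
      0 < b.height (wL b l₁ (i : ι)) ∧ 0 < pry b Z (Sum.inr (wL b l₁ (i : ι)))) → Fintype.card ι ≤ l.length + m →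
      ∃ l : List b.support, (∀ (l₁ : List b.support) (i : b.support) (l₂ : List b.support), l = l₁ ++ i :: l₂ →
        0 < b.height (wL b l₁ (i : ι)) ∧ 0 < pry b Z (Sum.inr (wL b l₁ (i : ι)))) ∧
        ∀ i : b.support, 0 < b.height (wL b l (i : ι)) → pry b Z (Sum.inr (wL b l (i : ι))) = 0 := by
    intro m
    induction m with
    | zero =>
      intro l h1 h2
      refine ⟨l, h1, fun i hi => ?_⟩
      by_contra hne
      have h3 : 0 < pry b Z (Sum.inr (wL b l (i : ι))) := lt_of_le_of_ne (pry_dom hZ hi) (Ne.symm hne)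
      have h4 := red_le (b := b) (l ++ [i]) fun l₁ j l₂ h5 => by
        rcases ig19_split h5 with ⟨rfl, rfl⟩ | ⟨l₃, h6⟩
        · exact hi
        · exact (h1 l₁ j l₃ h6).1
      rw [List.length_append, List.length_singleton] at h4
      omega
    | succ m ih =>
      intro l h1 h2
      by_cases hgood : ∀ i : b.support, 0 < b.height (wL b l (i : ι)) → pry b Z (Sum.inr (wL b l (i : ι))) = 0
      · exact ⟨l, h1, hgood⟩
      · push Not at hgood
        obtain ⟨i, hi, hne⟩ := hgood
        have h3 : 0 < pry b Z (Sum.inr (wL b l (i : ι))) := lt_of_le_of_ne (pry_dom hZ hi) (Ne.symm hne)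
        refine ih (l ++ [i]) ?_ ?_
        · intro l₁ j l₂ h5
          rcases ig19_split h5 with ⟨rfl, rfl⟩ | ⟨l₃, h6⟩
          · exact ⟨hi, h3⟩
          · exact h1 l₁ j l₃ h6
        · rw [List.length_append, List.length_singleton]
          omega
  refine key (Fintype.card ι) [] ?_ (by simp)
  intro l₁ i l₂ h
  exact absurd h (by simp)

/-- **Second stage.** PROOF: the same with the letters in `J`. -/
theorem stage2 (l : List b.support) (hl : ∀ (l₁ : List b.support) (i : b.support) (l₂ : List b.support), l = l₁ ++ i :: l₂ → 0 < b.height (wL b l₁ (i : ι))) (J : b.support → Prop) : ∃ m : List b.support,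
    (∀ i ∈ m, J i) ∧ (∀ (l₁ : List b.support) (i : b.support) (l₂ : List b.support), l ++ m = l₁ ++ i :: l₂ → 0 < b.height (wL b l₁ (i : ι))) ∧ ∀ i : b.support, J i → b.height (wL b (l ++ m) (i : ι)) < 0 := by
  have key : ∀ (t : ℕ) (m : List b.support), (∀ i ∈ m, J i) → (∀ (l₁ : List b.support) (i : b.support) (l₂ : List b.support), l ++ m = l₁ ++ i :: l₂ →
      0 < b.height (wL b l₁ (i : ι))) → Fintype.card ι ≤ (l ++ m).length + t →
      ∃ m : List b.support, (∀ i ∈ m, J i) ∧ (∀ (l₁ : List b.support) (i : b.support) (l₂ : List b.support), l ++ m = l₁ ++ i :: l₂ →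
        0 < b.height (wL b l₁ (i : ι))) ∧ ∀ i : b.support, J i → b.height (wL b (l ++ m) (i : ι)) < 0 := by
    intro t
    induction t with
    | zero =>
      intro m h0 h1 h2
      refine ⟨m, h0, h1, fun i hi => ?_⟩
      by_contra hne
      have h3 : 0 < b.height (wL b (l ++ m) (i : ι)) := lt_of_le_of_ne (not_lt.1 hne) (height_ne b _).symm
      have h4 := red_le (b := b) ((l ++ m) ++ [i]) fun l₁ j l₂ h5 => by
        rcases ig19_split h5 with ⟨rfl, rfl⟩ | ⟨l₃, h6⟩
        · exact h3
        · exact h1 l₁ j l₃ h6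
      rw [List.length_append, List.length_singleton] at h4
      omega
    | succ t ih =>
      intro m h0 h1 h2
      by_cases hgood : ∀ i : b.support, J i → b.height (wL b (l ++ m) (i : ι)) < 0
      · exact ⟨m, h0, h1, hgood⟩
      · push Not at hgood
        obtain ⟨i, hi, hne⟩ := hgood
        have h3 : 0 < b.height (wL b (l ++ m) (i : ι)) := lt_of_le_of_ne hne (height_ne b _).symm
        refine ih (m ++ [i]) ?_ ?_ ?_
        · intro j hj
          rw [List.mem_append, List.mem_singleton] at hj
          rcases hj with hj | rfl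
          · exact h0 j hj
          · exact hi
        · intro l₁ j l₂ h5
          rw [← List.append_assoc] at h5
          rcases ig19_split h5 with ⟨rfl, rfl⟩ | ⟨l₃, h6⟩
          · exact h3
          · exact h1 l₁ j l₃ h6
        · rw [← List.append_assoc, List.length_append, List.length_singleton]
          omega
  refine key (Fintype.card ι) [] (fun i hi => absurd hi (by simp)) ?_ (by omega)
  intro l₁ i l₂ h
  rw [List.append_nil] at h
  exact hl l₁ i l₂ h

end

end Pool.Agent.Lib.L8
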