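import Pool.Agent.Lib.L8.IG1

/-! # L8, module I, chunk IG2: the length identity in a root string -/

namespace Pool.Agent.Lib.L8

open Matrix Pool.Agent.Lib.L1S

noncomputable section

set_option linter.unusedSectionVars false

variable {ι M N : Type} [Fintype ι] [DecidableEq ι] [AddCommGroup M] [Module ℚ M] [AddCommGroup N] [Module ℚ N]
  {P : RootPairing ι ℚ M N} [P.IsCrystallographic] [P.IsReduced] [P.IsIrreducible] [P.IsRootSystem]

/-- The length identity in a root string: for `k = i + j`: `(j, j) (r + 1) = (k, k) q`, `r = chainBotCoeff i j`, `q = chainTopCoeff i j = chainTopCoeff i k + 1`.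
PROOF. `i`, `j` are linearly independent (otherwise `j = ± i` and `i + j` is `0` or `2 i`, not a root: `P.IsReduced`). Let `γ` be the bottom of the string (`P.chainBotIdx i j`), `n = r + q` its length (`≤ 3`, `chainBotCoeff_add_chainTopCoeff_le_three`), `⟨γ, i^∨⟩ = -n`,
`j = γ + r i`, `k = γ + (r + 1) i`, `1 ≤ n`. The form (two_form): `2 (γ, i) = -n (i, i)`, so `(γ + m i, γ + m i) = (γ, γ) - m (n - m) (i, i)`.
If `n = 1`: `r = 0`, `k = s_i j`, equal lengths. If `n = 2, 3`: `⟨γ, i^∨⟩ ⟨i, γ^∨⟩ ∈ {1, 2, 3}` (Mathlib: `pairingIn_pairingIn_mem_set_of_isCrystallographic`, the product is < 4 by linear independence) so `⟨i, γ^∨⟩ = -1` and `(γ, γ) = n (i, i)` (lenq_pair). Then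
`(r + 1) (n - r (n - r)) = (n - r) (n - (r + 1) (n - r - 1))` for `0 ≤ r < n`, `n = 2, 3`: five cases, each by computation. (Alternative: use `lenq_pair` for the pairs `(j, i)`, `(k, i)` and the values of the pairings in the string.) -/
theorem ig_len {i j k : ι} (h : P.root k = P.root i + P.root j) :
    lenq P k * ((P.chainBotCoeff i j : ℚ) + 1) = lenq P j * ((P.chainTopCoeff i k : ℚ) + 1) := by
  have hmem : P.root i + P.root j ∈ Set.range P.root := ⟨k, h⟩
  have hli := P.linearIndependent_of_add_mem_range_root' hmem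
  have hk : P.root k = P.root j + P.root i := by rw [h, add_comm]
  have htop := P.chainTopCoeff_of_add hli hk
  obtain ⟨r, hr⟩ : ∃ r, r = P.chainBotCoeff i j := ⟨_, rfl⟩
  obtain ⟨q, hq⟩ : ∃ q, q = P.chainTopCoeff i j := ⟨_, rfl⟩
  obtain ⟨τ, hτ⟩ : ∃ τ, τ = P.chainTopIdx i j := ⟨_, rfl⟩
  have hq1 : 1 ≤ q := by omega
  have hqk : (P.chainTopCoeff i k : ℚ) + 1 = q := by
    rw [hq, htop]
    push_cast
    ring
  have h3 : r + q ≤ 3 := by
    rw [hr, hq]
    exact P.chainBotCoeff_add_chainTopCoeff_le_three
  have hm : (r : ℤ) - q = P.pairingIn ℤ j i := by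
    rw [hr, hq]
    exact P.chainBotCoeff_sub_chainTopCoeff hli
  have hn : (r : ℤ) + q = P.pairingIn ℤ τ i := by
    rw [hr, hq, hτ]
    exact P.chainBotCoeff_add_chainTopCoeff_eq_pairingIn_chainTopIdx hli
  have hroot : P.root τ = P.root j + (q : ℤ) • P.root i := by
    rw [hτ, P.root_chainTopIdx, hq, natCast_zsmul]
  -- the forms
  have hcor : ∀ a c : ι, P.coroot' c (P.root a) = ((P.pairingIn ℤ a c : ℤ) : ℚ) := by
    intro a c
    rw [P.root_coroot'_eq_pairing, ← P.algebraMap_pairingIn ℤ]
    rfl
  have hsym : ∀ x y : M, P.RootForm x y = P.RootForm y x := by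
    intro x y
    have := P.rootForm_symmetric.eq x y
    simpa using this
  have hadd : ∀ x y z : M, P.RootForm (x + y) z = P.RootForm x z + P.RootForm y z := by
    intro x y z
    rw [map_add, LinearMap.add_apply]
  obtain ⟨A, hA⟩ : ∃ A, A = P.RootForm (P.root i) (P.root i) := ⟨_, rfl⟩
  obtain ⟨B, hB⟩ : ∃ B, B = P.RootForm (P.root j) (P.root j) := ⟨_, rfl⟩
  obtain ⟨K, hK⟩ : ∃ K, K = P.RootForm (P.root k) (P.root k) := ⟨_, rfl⟩
  obtain ⟨D, hD⟩ : ∃ D, D = P.RootForm (P.root j) (P.root i) := ⟨_, rfl⟩
  have hA0 : 0 < A := by rw [hA]; exact form_pos (P.ne_zero i)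
  have hB0 : 0 < B := by rw [hB]; exact form_pos (P.ne_zero j)
  have hK0 : 0 < K := by rw [hK]; exact form_pos (P.ne_zero k)
  have hD2 : 2 * D = ((r : ℚ) - q) * A := by
    have h5 := two_form (P := P) i (P.root j)
    rw [hcor, ← hm, ← hD, ← hA] at h5
    rw [h5]
    push_cast
    ring
  have hKe : K = B + 2 * D + A := by
    rw [hK, hk, hadd, map_add, map_add, hsym (P.root i) (P.root j), ← hA, ← hB, ← hD]
    ring
  have key : ((r : ℚ) + 1 - q) * (B - q * A) = 0 := by
    rcases Nat.lt_or_ge (r + q) 2 with hlt | hge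
    · have hr0 : r = 0 := by omega
      have hq0 : q = 1 := by omega
      rw [hr0, hq0]
      push_cast
      ring
    · have hliτ : LinearIndependent ℚ ![P.root i, P.root τ] := by
        rw [hroot, add_comm (P.root j), LinearIndependent.pair_add_smul_right_iff]
        exact hli
      have hne : P.root i ≠ P.root τ := by
        intro he
        rw [he, LinearIndependent.pair_iff] at hliτ
        have h8 := hliτ 1 (-1) (by rw [one_smul, neg_smul, one_smul, add_neg_cancel])
        exact one_ne_zero h8.1
      have hne' : P.root i ≠ -P.root τ := by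
        intro he
        rw [he, LinearIndependent.pair_iff] at hliτ
        have h8 := hliτ 1 1 (by rw [one_smul, one_smul, neg_add_cancel])
        exact one_ne_zero h8.1
      have hset := P.pairingIn_pairingIn_mem_set_of_isCrystal_of_isRed' i τ hne hne'
      have h1 : P.pairingIn ℤ i τ = 1 := by
        have hn2 : 2 ≤ P.pairingIn ℤ τ i := by rw [← hn]; exact_mod_cast hge
        simp only [Set.mem_insert_iff, Set.mem_singleton_iff, Prod.mk.injEq] at hset
        omega
      -- the length of the top root
      have h5 := two_form (P := P) τ (P.root i)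
      rw [hcor, h1, Int.cast_one, one_mul] at h5
      have h6 : P.RootForm (P.root i) (P.root τ) = D + q * A := by
        rw [hroot, map_add, map_zsmul, hsym (P.root i) (P.root j), ← hD, ← hA, zsmul_eq_mul]
        push_cast
        ring
      have h7 : P.RootForm (P.root τ) (P.root τ) = B + 2 * (q * D) + q ^ 2 * A := by
        have e1 : P.RootForm (P.root τ) (P.root τ) =
            P.RootForm (P.root j) (P.root τ) + (q : ℚ) * P.RootForm (P.root i) (P.root τ) := by
          have e0 : P.RootForm (P.root j + (q : ℤ) • P.root i) (P.root τ) =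
              P.RootForm (P.root j) (P.root τ) + (q : ℚ) * P.RootForm (P.root i) (P.root τ) := by
            rw [hadd, map_zsmul, LinearMap.smul_apply, zsmul_eq_mul]
            push_cast
            ring
          rw [← hroot] at e0
          exact e0
        have e2 : P.RootForm (P.root j) (P.root τ) = B + q * D := by
          rw [hroot, map_add, map_zsmul, ← hD, ← hB, zsmul_eq_mul]
          push_cast
          ring
        rw [e1, e2, h6]
        ring
      rw [h6, h7] at h5
      have h8 : B = ((r : ℚ) + q - q * r) * A := by linear_combination (-1 : ℚ) * h5 + (1 - q) * hD2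
      rw [h8]
      have h9 : (r : ℚ) * (1 - q) * (r + 1 - q) = 0 := by
        have h10 : r = 0 ∨ q = 1 ∨ (r = 1 ∧ q = 2) := by omega
        rcases h10 with h10 | h10 | ⟨h10, h11⟩
        · rw [h10]
          push_cast
          ring
        · rw [h10]
          push_cast
          ring
        · rw [h10, h11]
          push_cast
          ring
      linear_combination A * h9
  have goal : ((r : ℚ) + 1) * B = q * K := by
    rw [hKe]
    linear_combination key + (-(q : ℚ)) * hD2
  unfold lenq
  rw [← hB, ← hK, hqk, ← hr, inv_mul_eq_div, inv_mul_eq_div, div_eq_div_iff hK0.ne' hB0.ne', goal]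

end

end Pool.Agent.Lib.L8
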