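import Pool.Agent.Lib.L8.IG18
import Pool.Agent.Lib.L8.IG19

/-! # L8, module I, chunk IG20: conjugation by the representative of a word -/

namespace Pool.Agent.Lib.L8

open Matrix Pool.Agent.Lib.L1S

noncomputable section

set_option linter.unusedSectionVars false

variable {ι M N : Type} [Fintype ι] [DecidableEq ι] [AddCommGroup M] [Module ℚ M] [AddCommGroup N] [Module ℚ N]
  {P : RootPairing ι ℚ M N} [P.IsCrystallographic] [P.IsReduced] [P.IsIrreducible] [P.IsRootSystem] {b : P.Base} {F : Type} [RCLike F]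

theorem ig20_over (l : List b.support) : OverW b (sL b l) (gnl b F l).1.1 := by
  rw [gnl_val]
  exact (nL_over l).toA

theorem ig20_over' (l : List b.support) : OverW b (sL b l).symm ((gnl b F l)⁻¹).1.1 := by
  rw [gnl_inv_val]
  exact (nL_over' l).toA

theorem ig20_pry {r c : I b} (y : b.support → ℝ) (h : wt b r = wt b c) : pry b y r = pry b y c := by
  unfold pry
  refine Finset.sum_congr rfl fun j _ => ?_
  have hj : pj b j r = pj b j c := by
    have h3 : ((pj b j r : ℤ) : ℚ) = ((pj b j c : ℤ) : ℚ) := by rw [de_pj, de_pj, h]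
    exact_mod_cast h3
  rw [hj]

theorem ig20_ex (l : List b.support) (c : I b) : ∃ r : I b, wt b r = sL b l (wt b c) := by
  rcases c with j | β
  · refine ⟨Sum.inl j, ?_⟩
    show (0 : M) = sL b l 0
    rw [map_zero]
  · exact ⟨Sum.inr (wL b l β), root_wL l β⟩

theorem ig20_lin (r : I b) (f : M →ₗ[ℚ] ℚ) : f (wt b r) = ∑ k : b.support, wq b r k * f (P.root k) := by
  have h2 := b.toWeightBasis.sum_repr (wt b r)
  simp only [RootPairing.Base.toWeightBasis_apply] at h2
  conv_lhs => rw [← h2]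
  rw [map_sum]
  refine Finset.sum_congr rfl fun i _ => ?_
  rw [map_smul, smul_eq_mul, dc3_wq]

theorem ig20_neg {r c : I b} (h : ht b c < ht b r) (hk : ∀ k, wq b c k ≤ wq b r k) (f : M →ₗ[ℚ] ℚ)
    (hf : ∀ k : b.support, f (P.root k) ≤ -1) : f (wt b r) < f (wt b c) := by
  have h1 : ((ht b c : ℤ) : ℚ) < ((ht b r : ℤ) : ℚ) := by exact_mod_cast h
  rw [dc3_ht, dc3_ht] at h1
  rw [ig20_lin, ig20_lin]
  have h3 : ∑ k : b.support, wq b r k * f (P.root k) - ∑ k : b.support, wq b c k * f (P.root k) ≤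
      -(∑ k : b.support, wq b r k - ∑ k : b.support, wq b c k) := by
    rw [← Finset.sum_sub_distrib, ← Finset.sum_sub_distrib, ← Finset.sum_neg_distrib]
    refine Finset.sum_le_sum fun k _ => ?_
    have h4 := hk k
    have h5 := hf k
    have h6 : 0 ≤ (wq b r k - wq b c k) * (-1 - f (P.root k)) :=
      mul_nonneg (by linarith) (by linarith)
    linarith
  linarith

theorem ig20_one (g n : GF b F) (r c : I b) (h : (n * g * n⁻¹).1.1 r c ≠ (1 : Matrix (I b) (I b) F) r c) :
    (n.1.1 * (g.1.1 - 1) * (n⁻¹).1.1) r c ≠ 0 := by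
  intro h0
  apply h
  have e1 : (n * g * n⁻¹).1.1 = n.1.1 * g.1.1 * (n⁻¹).1.1 := rfl
  have e2 : n.1.1 * (n⁻¹).1.1 = 1 := n.1.mul_inv
  have e3 : n.1.1 * g.1.1 * (n⁻¹).1.1 = n.1.1 * (g.1.1 - 1) * (n⁻¹).1.1 + 1 := by
    rw [mul_sub, sub_mul, mul_one, e2, sub_add_cancel]
  rw [e1, e3, Matrix.add_apply, h0, zero_add]

/-- PROOF: `gnl_val`, `gnl_inv_val`, `nL_over`, `nL_over'` (L1S/L117), as in `OverW.conj` (L1S/L105). -/
theorem conj_entry (l : List b.support) (X : Matrix (I b) (I b) F) {r c : I b} (h : ((gnl b F l).1.1 * X * ((gnl b F l)⁻¹).1.1) r c ≠ 0) :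
    ∃ r' c', wt b r = sL b l (wt b r') ∧ wt b c = sL b l (wt b c') ∧ X r' c' ≠ 0 := by
  rw [Matrix.mul_apply] at h
  obtain ⟨j, -, hj⟩ := Finset.exists_ne_zero_of_sum_ne_zero h
  have h1 := left_ne_zero_of_mul hj
  have h2 := ig20_over' l j c (right_ne_zero_of_mul hj)
  rw [Matrix.mul_apply] at h1
  obtain ⟨i, -, hi⟩ := Finset.exists_ne_zero_of_sum_ne_zero h1
  have h3 := ig20_over l r i (left_ne_zero_of_mul hi)
  refine ⟨i, j, h3, ?_, right_ne_zero_of_mul hi⟩
  rw [h2, LinearEquiv.apply_symm_apply]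

/-- The same for the inverse. -/
theorem conj_entry' (l : List b.support) (X : Matrix (I b) (I b) F) {r c : I b} (h : (((gnl b F l)⁻¹).1.1 * X * (gnl b F l).1.1) r c ≠ 0) :
    ∃ r' c', wt b r' = sL b l (wt b r) ∧ wt b c' = sL b l (wt b c) ∧ X r' c' ≠ 0 := by
  rw [Matrix.mul_apply] at h
  obtain ⟨j, -, hj⟩ := Finset.exists_ne_zero_of_sum_ne_zero h
  have h1 := left_ne_zero_of_mul hj
  have h2 := ig20_over l j c (right_ne_zero_of_mul hj)
  rw [Matrix.mul_apply] at h1
  obtain ⟨i, -, hi⟩ := Finset.exists_ne_zero_of_sum_ne_zero h1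
  have h3 := ig20_over' l r i (left_ne_zero_of_mul hi)
  refine ⟨i, j, ?_, h2, right_ne_zero_of_mul hi⟩
  rw [h3, LinearEquiv.apply_symm_apply]

/-- PROOF: induction on the word with `pry_sr` (L8/IG7). -/
theorem pry_sL (l : List b.support) (y : b.support → ℝ) {r c : I b} (h : wt b r = sL b l (wt b c)) : pry b (wl (cA b) l y) r = pry b y c := by
  induction l generalizing r with
  | nil => exact ig20_pry y h
  | cons i l ih =>
    obtain ⟨r', hr'⟩ := ig20_ex l c
    have h1 : wt b r = P.reflection i (wt b r') := by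
      rw [hr', h]
      rfl
    rw [← ih hr']
    exact pry_sr i (wl (cA b) l y) h1

/-- The coefficients of `w μ`: `(w μ)_k = ∑_i μ_i (w α_i)_k`. PROOF: `dc3_wq` (L1S/DC3), `sL` is linear, `wq_wL` for the simple roots (`root_wL`). -/
theorem wq_sL (l : List b.support) {r c : I b} (h : wt b r = sL b l (wt b c)) (k : b.support) : wq b r k = ∑ i : b.support, wq b c i * wq b (Sum.inr (wL b l (i : ι))) k := by
  have h1 : wt b c = ∑ i : b.support, b.toWeightBasis.repr (wt b c) i • P.root i := by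
    have h2 := b.toWeightBasis.sum_repr (wt b c)
    simp only [RootPairing.Base.toWeightBasis_apply] at h2
    exact h2.symm
  have h3 : sL b l (wt b c) = ∑ i : b.support, wq b c i • P.root (wL b l (i : ι)) := by
    conv_lhs => rw [h1]
    rw [map_sum]
    refine Finset.sum_congr rfl fun i _ => ?_
    rw [map_smul, root_wL, dc3_wq]
  rw [dc3_wq, h, h3, map_sum, Finsupp.finsetSum_apply]
  refine Finset.sum_congr rfl fun i _ => ?_
  rw [map_smul, Finsupp.smul_apply, smul_eq_mul]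
  rfl

/-- PROOF: a nonzero entry of `n u n⁻¹ - 1 = n (u - 1) n⁻¹` at `(r, c)` comes from one of `u - 1` at `(r', c')` (`conj_entry`) with `wq c' ≤ wq r'`, `ht c' < ht r'` (`gU_uni`); so `wq r k - wq c k = ∑_i (wq r' i - wq c' i) wq (w α_i) k ≤ 0` and `ht r < ht c`: `ht r - ht c = ∑_i (wq r' i - wq c' i) ht(w α_i) < 0` (`dc3_ht`,
`height_wq`). `gV_iff`. -/
theorem long_U {l : List b.support} (hl : ∀ i : b.support, b.height (wL b l (i : ι)) < 0) {u : GF b F} (hu : u ∈ gU b F) : gnl b F l * u * (gnl b F l)⁻¹ ∈ gV b F := by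
  obtain ⟨lf, hlf⟩ := exists_lht b
  rw [gV_iff]
  intro r c hrc
  by_contra hne
  obtain ⟨r', c', h1, h2, h3⟩ := conj_entry l _ (ig20_one u (gnl b F l) r c hne)
  rw [Matrix.sub_apply] at h3
  rcases gU_uni hu r' c' with h4 | ⟨h4, h5⟩
  · exact h3 (sub_eq_zero.2 h4)
  · have h6 := ig20_neg h4 h5 (lf ∘ₗ (sL b l : M →ₗ[ℚ] M)) fun k => by
      show lf (sL b l (P.root k)) ≤ -1
      rw [← root_wL]
      have h7 : lf (P.root (wL b l (k : ι))) = ((b.height (wL b l (k : ι)) : ℤ) : ℚ) := hlf (Sum.inr _)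
      rw [h7]
      have h8 := hl k
      exact_mod_cast (by omega : b.height (wL b l (k : ι)) ≤ -1)
    have h7 : lf (sL b l (wt b r')) < lf (sL b l (wt b c')) := h6
    rw [← h1, ← h2, hlf, hlf] at h7
    have h8 : ht b r < ht b c := by exact_mod_cast h7
    omega

/-- PROOF: the same with `conj_entry'` and `gV_lo`; the inverse of `w` maps the negative roots to positive ones (`wL_neg'`): if `wt r' = w wt r`, `wt c' = w wt c`, `ht r' < ht c'`, `wq r' ≤ wq c'` then with `δ = wt r - wt c` and `w δ ≤ 0`. For every `k`: `α_k = w β_k` with a negative root `β_k` (`wL b l` is a permutation; `wL_neg'`),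
so `δ = ∑_k (wq r' k - wq c' k) β_k` has nonnegative coefficients and positive height. -/
theorem long_V {l : List b.support} (hl : ∀ i : b.support, b.height (wL b l (i : ι)) < 0) {v : GF b F} (hv : v ∈ gV b F) : (gnl b F l)⁻¹ * v * gnl b F l ∈ gU b F := by
  obtain ⟨lf, hlf⟩ := exists_lht b
  intro r c hrc
  by_contra hne
  have hne' : ((gnl b F l)⁻¹ * v * ((gnl b F l)⁻¹)⁻¹).1.1 r c ≠ (1 : Matrix (I b) (I b) F) r c := by
    rw [inv_inv]
    exact hne
  have h0 := ig20_one v (gnl b F l)⁻¹ r c hne'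
  rw [inv_inv] at h0
  obtain ⟨r', c', h1, h2, h3⟩ := conj_entry' l _ h0
  rw [Matrix.sub_apply] at h3
  rcases gV_lo hv r' c' with h4 | ⟨h4, h5⟩
  · exact h3 (sub_eq_zero.2 h4)
  · have h6 := ig20_neg h4 h5 (lf ∘ₗ ((sL b l).symm : M →ₗ[ℚ] M)) fun k => by
      show lf ((sL b l).symm (P.root k)) ≤ -1
      obtain ⟨β, hβ⟩ := (wL b l).surjective (k : ι)
      have h7 : (sL b l).symm (P.root k) = P.root β := by
        rw [← hβ, root_wL, LinearEquiv.symm_apply_apply]
      have h8 : lf (P.root β) = ((b.height β : ℤ) : ℚ) := hlf (Sum.inr _)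
      rw [h7, h8]
      have h9 : b.height β < 0 := wL_neg' hl (by
        rw [hβ, b.height_one_of_mem_support k.2]
        exact one_pos)
      exact_mod_cast (by omega : b.height β ≤ -1)
    have h7 : lf ((sL b l).symm (wt b c')) < lf ((sL b l).symm (wt b r')) := h6
    rw [h1, h2, LinearEquiv.symm_apply_apply, LinearEquiv.symm_apply_apply, hlf, hlf] at h7
    have h8 : ht b c < ht b r := by exact_mod_cast h7
    omega

/-- PROOF: `n x_i(1) n⁻¹ = x_(w α_i)(± 1)` (`gnl_gx`) is in `V`; if `w α_i` were positive it would be in `U`, so `1` (`gUV`), so `x_i(1) = 1`, but `c_i(x_i(1)) = 1` (`gc_gx`). -/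
theorem long_neg {l : List b.support} (h : ∀ u ∈ gU b F, gnl b F l * u * (gnl b F l)⁻¹ ∈ gV b F) (i : b.support) : b.height (wL b l (i : ι)) < 0 := by
  by_contra hneg
  have h0 : 0 < b.height (wL b l (i : ι)) := lt_of_le_of_ne (not_lt.1 hneg) (height_ne b _).symm
  have hi : 0 < b.height (i : ι) := by
    rw [b.height_one_of_mem_support i.2]
    exact one_pos
  have h1 := (gPos_iff (F := F) l i).2 h0 1
  have h2 := h _ (gx_U hi (1 : F))
  have h3 := gUV h1 h2
  have h4 : gx b F (i : ι) (1 : F) = 1 := by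
    have h5 : gx b F (i : ι) (1 : F) = (gnl b F l)⁻¹ * (gnl b F l * gx b F (i : ι) 1 * (gnl b F l)⁻¹) * gnl b F l := by group
    rw [h5, h3]
    group
  have h6 := gc_gx (b := b) i (1 : F)
  rw [h4] at h6
  have h7 : gc b F i (1 : GF b F) = 0 := by
    show (1 : Matrix (I b) (I b) F) (Sum.inl i) (Sum.inr (ng P i)) = 0
    exact Matrix.one_apply_ne (by simp)
  rw [h7] at h6
  exact zero_ne_one h6

end

end Pool.Agent.Lib.L8
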