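import Pool.Agent.Lib.L8.IG20
import Pool.Agent.Lib.L8.IG19B

/-! # L8, module I, chunk IG21: contractions -/

namespace Pool.Agent.Lib.L8

open Matrix Pool.Agent.Lib.L1S

noncomputable section

set_option linter.unusedSectionVars false

variable {ι M N : Type} [Fintype ι] [DecidableEq ι] [AddCommGroup M] [Module ℚ M] [AddCommGroup N] [Module ℚ N]
  {P : RootPairing ι ℚ M N} [P.IsCrystallographic] [P.IsReduced] [P.IsIrreducible] [P.IsRootSystem] {b : P.Base} {F : Type} [RCLike F]

open Filter Topology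

/-- `y` antidominant: `pry y r ≤ pry y c` if `wq c ≤ wq r`. PROOF: `pry_wq`. -/
theorem pry_le {y : b.support → ℝ} (hy : ∀ i, al (cA b) i y ≤ 0) {r c : I b} (h : ∀ k, wq b c k ≤ wq b r k) : pry b y r ≤ pry b y c := by
  have h1 : pry b y r = ∑ k, ((wq b r k : ℚ) : ℝ) * al (cA b) k y := pry_wq y r
  have h2 : pry b y c = ∑ k, ((wq b c k : ℚ) : ℝ) * al (cA b) k y := pry_wq y c
  rw [h1, h2]
  refine Finset.sum_le_sum fun k _ => ?_
  exact mul_le_mul_of_nonpos_right (by exact_mod_cast h k) (hy k)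

/-- Equality only if `wq r k = wq c k` for all `k` with `al k y < 0`. PROOF: `pry_wq`: a sum of nonnegative terms. -/
theorem pry_eq {y : b.support → ℝ} (hy : ∀ i, al (cA b) i y ≤ 0) {r c : I b} (h : ∀ k, wq b c k ≤ wq b r k) (he : pry b y r = pry b y c) (k : b.support) (hk : al (cA b) k y ≠ 0) : wq b r k = wq b c k := by
  have h1 : pry b y r = ∑ k, ((wq b r k : ℚ) : ℝ) * al (cA b) k y := pry_wq y r
  have h2 : pry b y c = ∑ k, ((wq b c k : ℚ) : ℝ) * al (cA b) k y := pry_wq y c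
  rw [h1, h2] at he
  have h3 := (Finset.sum_eq_sum_iff_of_le (fun k _ =>
    mul_le_mul_of_nonpos_right (show ((wq b c k : ℚ) : ℝ) ≤ ((wq b r k : ℚ) : ℝ) by exact_mod_cast h k) (hy k))).1 he k (Finset.mem_univ k)
  have h4 := mul_right_cancel₀ hk h3
  exact_mod_cast h4

/-- Convergence of `exp(t y) X exp(-t y)` entry by entry. PROOF: `exM_conj`, `pry_smul`; `tendsto_pi_nhds`; `e^(t (pry r - pry c)) → 0` if `pry r < pry c`. -/
theorem lim_mat (y : b.support → ℝ) {X X0 : Matrix (I b) (I b) F} (h : ∀ r c, (X r c = 0 ∧ X0 r c = 0) ∨ (pry b y r = pry b y c ∧ X0 r c = X r c) ∨ (pry b y r < pry b y c ∧ X0 r c = 0)) :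
    Tendsto (fun t : ℝ => exM b F (t • y) * X * exM b F (-(t • y))) atTop (𝓝 X0) := by
  refine tendsto_pi_nhds.2 fun r => tendsto_pi_nhds.2 fun c => ?_
  have e : (fun t : ℝ => (exM b F (t • y) * X * exM b F (-(t • y))) r c) =
      fun t : ℝ => ((Real.exp (t * (pry b y r - pry b y c)) : ℝ) : F) * X r c := by
    funext t
    rw [exM_conj, pry_smul, pry_smul, ← mul_sub]
  rw [e]
  rcases h r c with ⟨h1, h2⟩ | ⟨h1, h2⟩ | ⟨h1, h2⟩
  · rw [h1, h2]
    simp only [mul_zero]
    exact tendsto_const_nhds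
  · rw [h1, h2, sub_self]
    simp only [mul_zero, Real.exp_zero, RCLike.ofReal_one, one_mul]
    exact tendsto_const_nhds
  · rw [h2]
    have h3 : Tendsto (fun t : ℝ => t * (pry b y r - pry b y c)) atTop atBot :=
      tendsto_id.atTop_mul_const_of_neg (sub_neg.2 h1)
    have h4 : Tendsto (fun t : ℝ => ((Real.exp (t * (pry b y r - pry b y c)) : ℝ) : F)) atTop (𝓝 ((0 : ℝ) : F)) :=
      (RCLike.continuous_ofReal.tendsto 0).comp (Real.tendsto_exp_atBot.comp h3)
    have h5 := h4.mul_const (X r c)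
    rw [RCLike.ofReal_zero, zero_mul] at h5
    exact h5

theorem ig21_tend {α : Type} {l : Filter α} {f : α → GF b F} {g0 : GF b F} (h1 : Tendsto (fun t => (f t).1.1) l (𝓝 g0.1.1))
    (h2 : Tendsto (fun t => ((f t)⁻¹).1.1) l (𝓝 (g0⁻¹).1.1)) : Tendsto f l (𝓝 g0) := by
  refine tendsto_subtype_rng.2 ?_
  refine (Units.isInducing_embedProduct (M := Matrix (I b) (I b) F)).tendsto_nhds_iff.2 ?_
  exact h1.prodMk_nhds ((MulOpposite.continuous_op.tendsto _).comp h2)

/-- The same in the group. PROOF: `lim_mat` for `g` and `g⁻¹` (the topology of the units: `Units.embedProd`, `Units.continuous_iff`-style: `Filter.Tendsto` into units is the convergence of the value and of the inverse; subtype: `tendsto_subtype_rng`). -/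
theorem lim_grp (y : b.support → ℝ) {g g0 : GF b F}
    (h : ∀ r c, (g.1.1 r c = 0 ∧ g0.1.1 r c = 0) ∨ (pry b y r = pry b y c ∧ g0.1.1 r c = g.1.1 r c) ∨ (pry b y r < pry b y c ∧ g0.1.1 r c = 0))
    (h' : ∀ r c, ((g⁻¹).1.1 r c = 0 ∧ (g0⁻¹).1.1 r c = 0) ∨ (pry b y r = pry b y c ∧ (g0⁻¹).1.1 r c = (g⁻¹).1.1 r c) ∨ (pry b y r < pry b y c ∧ (g0⁻¹).1.1 r c = 0)) :
    Tendsto (fun t : ℝ => gex b F (t • y) * g * (gex b F (t • y))⁻¹) atTop (𝓝 g0) := by
  refine ig21_tend ?_ ?_
  · have e : (fun t : ℝ => (gex b F (t • y) * g * (gex b F (t • y))⁻¹).1.1) = fun t : ℝ => exM b F (t • y) * g.1.1 * exM b F (-(t • y)) := by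
      funext t
      rfl
    rw [e]
    exact lim_mat y h
  · have e : (fun t : ℝ => ((gex b F (t • y) * g * (gex b F (t • y))⁻¹)⁻¹).1.1) = fun t : ℝ => exM b F (t • y) * (g⁻¹).1.1 * exM b F (-(t • y)) := by
      funext t
      have e1 : (gex b F (t • y) * g * (gex b F (t • y))⁻¹)⁻¹ = gex b F (t • y) * g⁻¹ * (gex b F (t • y))⁻¹ := by group
      rw [e1]
      rfl
    rw [e]
    exact lim_mat y h'

/-- A strictly antidominant vector. PROOF: the Cartan matrix is invertible (see the proof of `pry_inj` in L8/IG7): solve `al i y = -1` for all `i`. -/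
theorem ex_anti (b : P.Base) (a : b.support → ℝ) : ∃ y : b.support → ℝ, ∀ i, al (cA b) i y = a i := by
  have hdet : b.cartanMatrix.det ≠ 0 := Matrix.nondegenerate_iff_det_ne_zero.1 b.cartanMatrix_nondegenerate
  have hdet' : (b.cartanMatrix.map (Int.castRingHom ℝ)).det ≠ 0 := by
    rw [← RingHom.mapMatrix_apply, ← RingHom.map_det]
    intro h0
    apply hdet
    have h00 : ((b.cartanMatrix.det : ℤ) : ℝ) = 0 := h0
    exact_mod_cast h00
  refine ⟨(b.cartanMatrix.map (Int.castRingHom ℝ))⁻¹ *ᵥ a, fun i => ?_⟩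
  have h1 : (b.cartanMatrix.map (Int.castRingHom ℝ)) *ᵥ ((b.cartanMatrix.map (Int.castRingHom ℝ))⁻¹ *ᵥ a) = a := by
    rw [Matrix.mulVec_mulVec, Matrix.mul_nonsing_inv _ (isUnit_iff_ne_zero.2 hdet'), Matrix.one_mulVec]
  exact congrFun h1 i

theorem ig21_ent {y : b.support → ℝ} (hy : ∀ i, al (cA b) i y = -1) {u : GF b F} (hu : u ∈ gU b F) (r c : I b) :
    (u.1.1 r c = 0 ∧ (1 : Matrix (I b) (I b) F) r c = 0) ∨ (pry b y r = pry b y c ∧ (1 : Matrix (I b) (I b) F) r c = u.1.1 r c) ∨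
      (pry b y r < pry b y c ∧ (1 : Matrix (I b) (I b) F) r c = 0) := by
  have hy' : ∀ i, al (cA b) i y ≤ 0 := fun i => by rw [hy i]; norm_num
  rcases gU_uni hu r c with h | ⟨h1, h2⟩
  · by_cases hrc : r = c
    · right; left
      exact ⟨by rw [hrc], h.symm⟩
    · left
      rw [h, Matrix.one_apply_ne hrc]
      exact ⟨rfl, rfl⟩
  · right; right
    have hrc : r ≠ c := by
      rintro rfl
      exact lt_irrefl _ h1
    refine ⟨lt_of_le_of_ne (pry_le hy' h2) ?_, Matrix.one_apply_ne hrc⟩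
    intro he
    have h3 : ∀ k, wq b r k = wq b c k := fun k => pry_eq hy' h2 he k (by rw [hy k]; norm_num)
    have h4 : ((ht b r : ℤ) : ℚ) = ((ht b c : ℤ) : ℚ) := by
      rw [dc3_ht, dc3_ht]
      exact Finset.sum_congr rfl fun k _ => h3 k
    have h5 : ht b r = ht b c := by exact_mod_cast h4
    exact absurd h1 (by rw [h5]; exact lt_irrefl _)

/-- PROOF: `ex_anti` with `a = -1`; `lim_grp` with `g0 = 1`: for `u ∈ U` an entry `(r, c)` of `u` is one of `1` or `ht c < ht r`, `wq c ≤ wq r` (`gU_uni`) and then `pry y r < pry y c` (`pry_le`, `pry_eq`: equality would give `wq r = wq c`, `ht r = ht c` by `dc3_ht`). The same for `u⁻¹ ∈ U`. -/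
theorem g_contr0 : ∃ y, (∀ i, al (cA b) i y ≤ 0) ∧ ∀ u ∈ gU b F, Tendsto (fun t : ℝ => gex b F (t • y) * u * (gex b F (t • y))⁻¹) atTop (𝓝 1) := by
  obtain ⟨y, hy⟩ := ex_anti b (fun _ => (-1 : ℝ))
  refine ⟨y, fun i => by rw [hy i]; norm_num, fun u hu => ?_⟩
  refine lim_grp y (fun r c => ig21_ent hy hu r c) (fun r c => ?_)
  rw [inv_one]
  exact ig21_ent hy (inv_mem hu) r c

theorem ig21_ne (i : b.support) {β : ι} (hβ : 0 < b.height β) (hne : β ≠ (i : ι)) : ∃ k, k ≠ i ∧ wq b (Sum.inr β) k ≠ 0 := by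
  by_contra hcon
  push Not at hcon
  have h1 : P.root β = (b.toWeightBasis.repr (P.root β) i) • P.root i := by
    have h2 := b.toWeightBasis.sum_repr (P.root β)
    rw [Finset.sum_eq_single i] at h2
    · rw [b.toWeightBasis_apply] at h2
      exact h2.symm
    · intro k _ hk
      have h3 : b.toWeightBasis.repr (P.root β) k = 0 := hcon k hk
      rw [h3, zero_smul]
    · intro h
      exact absurd (Finset.mem_univ i) h
  have h2 : ¬ LinearIndependent ℚ ![P.root β, P.root (i : ι)] := by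
    intro h
    rw [LinearIndependent.pair_iff] at h
    have h3 := (h 1 (-(b.toWeightBasis.repr (P.root β) i)) (by rw [one_smul, neg_smul, ← h1, add_neg_cancel])).1
    exact one_ne_zero h3
  rcases RootPairing.IsReduced.eq_or_eq_neg β (i : ι) h2 with h | h
  · exact hne (P.root.injective h)
  · have h4 : ((b.height β : ℤ) : ℚ) = -((b.height (i : ι) : ℤ) : ℚ) := by
      rw [b1_height b β, b1_height b (i : ι), h, map_neg, ← Finset.sum_neg_distrib]
      rfl
    have h5 : b.height β = -b.height (i : ι) := by exact_mod_cast h4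
    rw [b.height_one_of_mem_support i.2] at h5
    omega

theorem ig21_neg {y : b.support → ℝ} {i : b.support} (hi : al (cA b) i y = 0) (hy : ∀ k, k ≠ i → al (cA b) k y = -1) {β : ι}
    (hβ : 0 < b.height β) (hne : β ≠ (i : ι)) : pry b y (Sum.inr β) < 0 := by
  have h1 : pry b y (Sum.inr β) = ∑ k, ((wq b (Sum.inr β) k : ℚ) : ℝ) * al (cA b) k y := pry_wq y _
  obtain ⟨k, hk, hk0⟩ := ig21_ne i hβ hne
  have h2 : 0 < wq b (Sum.inr β) k := lt_of_le_of_ne (wq_nonneg hβ k) (Ne.symm hk0)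
  rw [h1]
  refine Finset.sum_neg' (fun j _ => ?_) ⟨k, Finset.mem_univ k, ?_⟩
  · by_cases hj : j = i
    · rw [hj, hi, mul_zero]
    · rw [hy j hj]
      have h3 : (0 : ℝ) ≤ ((wq b (Sum.inr β) j : ℚ) : ℝ) := by exact_mod_cast wq_nonneg hβ j
      linarith
  · rw [hy k hk]
    have h3 : (0 : ℝ) < ((wq b (Sum.inr β) k : ℚ) : ℝ) := by exact_mod_cast h2
    linarith

/-- the ordered product in the group -/
def ig21_PL (b : P.Base) (F : Type) [RCLike F] (L : List ι) (t : ι → F) : GF b F := (L.map fun β => gx b F β (t β)).prod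

theorem ig21_PL_val (L : List ι) (t : ι → F) : (ig21_PL b F L t).1.1 = PL b L t := by
  induction L with
  | nil => rfl
  | cons β L ih =>
    have e1 : ig21_PL b F (β :: L) t = gx b F β (t β) * ig21_PL b F L t := by
      unfold ig21_PL
      rw [List.map_cons, List.prod_cons]
    have e2 : PL b (β :: L) t = xx b β (t β) * PL b L t := by
      unfold PL
      rw [List.map_cons, List.prod_cons]
    rw [e1, e2, ← ih]
    rfl

theorem ig21_PL_cont (L : List ι) : Continuous fun t : ι → F => ig21_PL b F L t := by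
  induction L with
  | nil => exact continuous_const
  | cons β L ih =>
    have e1 : (fun t : ι → F => ig21_PL b F (β :: L) t) = fun t => gx b F β (t β) * ig21_PL b F L t := by
      funext t
      unfold ig21_PL
      rw [List.map_cons, List.prod_cons]
    rw [e1]
    exact ((gx_cont β).comp (continuous_apply β)).mul ih

theorem ig21_PL_zero (L : List ι) : ig21_PL b F L (fun _ => 0) = 1 := by
  induction L with
  | nil => rfl
  | cons β L ih =>
    have e1 : ig21_PL b F (β :: L) (fun _ => 0) = gx b F β 0 * ig21_PL b F L (fun _ => 0) := by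
      unfold ig21_PL
      rw [List.map_cons, List.prod_cons]
    rw [e1, ih, gx_zero, one_mul]

theorem ig21_gx (y : b.support → ℝ) (β : ι) (t : F) :
    gex b F y * gx b F β t * (gex b F y)⁻¹ = gx b F β (((Real.exp (pry b y (Sum.inr β)) : ℝ) : F) * t) :=
  Subtype.ext (Units.ext (exM_xx y β t))

theorem ig21_PL_conj (y : b.support → ℝ) (L : List ι) (t : ι → F) :
    gex b F y * ig21_PL b F L t * (gex b F y)⁻¹ = ig21_PL b F L (fun β => ((Real.exp (pry b y (Sum.inr β)) : ℝ) : F) * t β) := by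
  induction L with
  | nil =>
    have e1 : ig21_PL b F [] t = 1 := rfl
    have e2 : ig21_PL b F [] (fun β => ((Real.exp (pry b y (Sum.inr β)) : ℝ) : F) * t β) = 1 := rfl
    rw [e1, e2, mul_one, mul_inv_cancel]
  | cons β L ih =>
    have e1 : ∀ t : ι → F, ig21_PL b F (β :: L) t = gx b F β (t β) * ig21_PL b F L t := by
      intro t
      unfold ig21_PL
      rw [List.map_cons, List.prod_cons]
    rw [e1, e1, ← ih, ← ig21_gx]
    group

theorem ig21_PL_congr (L : List ι) {t t' : ι → F} (h : ∀ β ∈ L, t β = t' β) : ig21_PL b F L t = ig21_PL b F L t' := by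
  unfold ig21_PL
  congr 1
  exact List.map_congr_left fun β hβ => by rw [h β hβ]

theorem ig21_one {y : b.support → ℝ} {i : b.support} (hi : al (cA b) i y = 0) (hy : ∀ k, k ≠ i → al (cA b) k y = -1)
    {u : GF b F} (hu : u ∈ gU b F) (h0 : gc b F i u = 0) :
    Tendsto (fun t : ℝ => gex b F (t • y) * u * (gex b F (t • y))⁻¹) atTop (𝓝 1) := by
  obtain ⟨τ, hτ⟩ := prod_exists b (GF_Nmz u.2) ((mem_gU b F u).1 hu)
  have hi0 : 0 < b.height (i : ι) := by
    rw [b.height_one_of_mem_support i.2]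
    exact one_pos
  have hτi : τ (i : ι) = 0 := by
    have h1 := c_PL b (posL b) (fun β hβ => (posL_mem b β).mp hβ) (posL_nodup b) τ i
    rw [← hτ, if_pos ((posL_mem b (i : ι)).mpr hi0)] at h1
    rw [← h1]
    exact h0
  have hu1 : u = ig21_PL b F (posL b) τ := Subtype.ext (Units.ext (by rw [hτ, ig21_PL_val]))
  obtain ⟨τ0, hτ0⟩ : ∃ τ0 : ι → F, τ0 = fun β => if 0 < b.height β ∧ β ≠ (i : ι) then τ β else 0 := ⟨_, rfl⟩
  have hu2 : u = ig21_PL b F (posL b) τ0 := by
    rw [hu1]
    refine ig21_PL_congr _ fun β hβ => ?_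
    rw [hτ0]
    simp only
    by_cases h : β = (i : ι)
    · rw [h, hτi, if_neg (by simp)]
    · rw [if_pos ⟨(posL_mem b β).1 hβ, h⟩]
  have e : (fun t : ℝ => gex b F (t • y) * u * (gex b F (t • y))⁻¹) =
      fun t : ℝ => ig21_PL b F (posL b) (fun β => ((Real.exp (pry b (t • y) (Sum.inr β)) : ℝ) : F) * τ0 β) := by
    funext t
    rw [hu2, ig21_PL_conj]
  rw [e]
  have h3 : Tendsto (fun t : ℝ => (fun β => ((Real.exp (pry b (t • y) (Sum.inr β)) : ℝ) : F) * τ0 β : ι → F)) atTop (𝓝 (fun _ => 0)) := by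
    refine tendsto_pi_nhds.2 fun β => ?_
    by_cases h : 0 < b.height β ∧ β ≠ (i : ι)
    · have h1 := ig21_neg hi hy h.1 h.2
      have h4 : Tendsto (fun t : ℝ => pry b (t • y) (Sum.inr β)) atTop atBot := by
        have e1 : (fun t : ℝ => pry b (t • y) (Sum.inr β)) = fun t => t * pry b y (Sum.inr β) := funext fun t => pry_smul b t y _
        rw [e1]
        exact tendsto_id.atTop_mul_const_of_neg h1
      have h5 : Tendsto (fun t : ℝ => ((Real.exp (pry b (t • y) (Sum.inr β)) : ℝ) : F)) atTop (𝓝 ((0 : ℝ) : F)) :=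
        (RCLike.continuous_ofReal.tendsto 0).comp (Real.tendsto_exp_atBot.comp h4)
      have h6 := h5.mul_const (τ0 β)
      rw [RCLike.ofReal_zero, zero_mul] at h6
      exact h6
    · have h1 : τ0 β = 0 := by
        rw [hτ0]
        simp only
        rw [if_neg h]
      rw [h1]
      simp only [mul_zero]
      exact tendsto_const_nhds
  have h4 := ((ig21_PL_cont (b := b) (F := F) (posL b)).tendsto (fun _ => 0)).comp h3
  rw [ig21_PL_zero] at h4
  exact h4

/-- PROOF: `ex_anti` with `a i = 0`, `a k = -1` for `k ≠ i`. `u = x_i(s) u'`, `s = c_i(u)`, `u' = x_i(-s) u ∈ U`, `c_i(u') = 0`; `exp(t y)` commutes with `x_i(s)` (`gx_gex`), so it is enough that `exp(t y) u' exp(-t y) → 1`. `u' = ∏ x_β(t_β)` (`prod_exists`, `GF_Nmz`), `t_(α_i) = c_i(u') = 0` (`c_PL`), and for a positive root `β ≠ α_i`: `pry y β < 0`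
(`pry_wq`; if `wq β k = 0` for all `k ≠ i` then `β` is a multiple of `α_i`), so `exp(t y) x_β(s) exp(-t y) = x_β(e^(t β(y)) s) → 1` (`exM_xx`, `gx_cont`); finite product (`tendsto_list_prod` or induction on the list). -/
theorem g_contri (i : b.support) : ∃ y, ∀ u ∈ gU b F, Tendsto (fun t : ℝ => gex b F (t • y) * u * (gex b F (t • y))⁻¹) atTop (𝓝 (gx b F (i : ι) (gc b F i u))) := by
  obtain ⟨y, hy⟩ := ex_anti b (fun k => if k = i then (0 : ℝ) else -1)
  have hi : al (cA b) i y = 0 := by rw [hy i, if_pos rfl]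
  have hk : ∀ k, k ≠ i → al (cA b) k y = -1 := fun k h => by rw [hy k, if_neg h]
  have hi0 : 0 < b.height (i : ι) := by
    rw [b.height_one_of_mem_support i.2]
    exact one_pos
  refine ⟨y, fun u hu => ?_⟩
  have hx : gx b F (i : ι) (-(gc b F i u)) ∈ gU b F := gx_U hi0 _
  have h1 := ig21_one hi hk (mul_mem hx hu) (by rw [gc_mul i hx hu, gc_gx, neg_add_cancel])
  have e : (fun t : ℝ => gex b F (t • y) * u * (gex b F (t • y))⁻¹) = fun t : ℝ =>
      gx b F (i : ι) (gc b F i u) * (gex b F (t • y) * (gx b F (i : ι) (-(gc b F i u)) * u) * (gex b F (t • y))⁻¹) := by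
    funext t
    have h2 : gex b F (t • y) * gx b F (i : ι) (gc b F i u) * (gex b F (t • y))⁻¹ = gx b F (i : ι) (gc b F i u) := by
      rw [ig21_gx, pry_smul, pry_simple]
      have h3 : al (fun i k : b.support => b.cartanMatrix i k) i y = 0 := hi
      rw [h3, mul_zero, Real.exp_zero, RCLike.ofReal_one, one_mul]
    calc gex b F (t • y) * u * (gex b F (t • y))⁻¹ = (gex b F (t • y) * gx b F (i : ι) (gc b F i u) * (gex b F (t • y))⁻¹) *
          (gex b F (t • y) * (gx b F (i : ι) (-(gc b F i u)) * u) * (gex b F (t • y))⁻¹) := by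
          rw [gx_neg]
          group
      _ = _ := by rw [h2]
  rw [e]
  have h2 := h1.const_mul (gx b F (i : ι) (gc b F i u))
  rw [mul_one] at h2
  exact h2

end

end Pool.Agent.Lib.L8
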