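import Pool.Agent.Lib.L1S.QB4

/-!
# L8, module P4, file PD1 (helper29): the row sums of the compound matrices
-/

namespace Pool.Agent.Lib.L8

set_option linter.unusedSectionVars false

open Matrix NumberField NumberField.InfinitePlace Pool.Agent.Lib.H89N

noncomputable section

section binet

variable {J R : Type} [Fintype J] [DecidableEq J] [CommRing R] {k : ℕ}

/-- The first expansion of the minor of a product. -/
theorem pd_exp (X Y : Matrix J J R) (f h : Fin k → J) :
    ((X * Y).submatrix f h).det = ∑ g : Fin k → J, (X.submatrix f g).det * ∏ t, Y (g t) (h t) := by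
  have e1 : ∀ σ : Equiv.Perm (Fin k), ∏ t, ((X * Y).submatrix f h) (σ t) t = ∑ g : Fin k → J, ∏ t, (X (f (σ t)) (g t) * Y (g t) (h t)) := by
    intro σ
    simp only [Matrix.submatrix_apply, Matrix.mul_apply]
    rw [Finset.prod_univ_sum, Fintype.piFinset_univ]
  rw [Matrix.det_apply]
  simp only [e1, Finset.smul_sum]
  rw [Finset.sum_comm]
  refine Finset.sum_congr rfl fun g _ => ?_
  rw [Matrix.det_apply, Finset.sum_mul]
  refine Finset.sum_congr rfl fun σ _ => ?_
  rw [Finset.prod_mul_distrib, smul_mul_assoc]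
  rfl

/-- **The Cauchy–Binet formula.** -/
theorem pd_binet (X Y : Matrix J J R) (f h : Fin k → J) :
    (k.factorial : R) * ((X * Y).submatrix f h).det = ∑ g : Fin k → J, (X.submatrix f g).det * (Y.submatrix g h).det := by
  have e1 : ∀ σ : Equiv.Perm (Fin k), ((X * Y).submatrix f h).det = ∑ g : Fin k → J, (X.submatrix f g).det * (σ.sign • ∏ t, Y (g (σ t)) (h t)) := by
    intro σ
    rw [pd_exp, ← Equiv.sum_comp (Equiv.arrowCongr σ.symm (Equiv.refl J))]
    refine Finset.sum_congr rfl fun g _ => ?_
    have e2 : (X.submatrix f ((Equiv.arrowCongr σ.symm (Equiv.refl J)) g)).det = σ.sign • (X.submatrix f g).det := by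
      have e3 : X.submatrix f ((Equiv.arrowCongr σ.symm (Equiv.refl J)) g) = (X.submatrix f g).submatrix id σ := by
        ext i j
        rfl
      rw [e3, Matrix.det_permute']
      rw [Units.smul_def, zsmul_eq_mul]
    rw [e2]
    simp only [smul_mul_assoc, mul_smul_comm]
    rfl
  have e2 : (k.factorial : R) * ((X * Y).submatrix f h).det = ∑ _σ : Equiv.Perm (Fin k), ((X * Y).submatrix f h).det := by
    rw [Finset.sum_const, Finset.card_univ, Fintype.card_perm, Fintype.card_fin, nsmul_eq_mul]
  rw [e2]
  conv_lhs =>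
    enter [2, σ]
    rw [e1 σ]
  rw [Finset.sum_comm]
  refine Finset.sum_congr rfl fun g _ => ?_
  rw [← Finset.mul_sum, Matrix.det_apply (Y.submatrix g h)]
  rfl

end binet

section norm

variable {L : Type} [Field L] [NumberField L]

theorem pd_sum_le (w : InfinitePlace L) {T : Type} (s : Finset T) (f : T → mixedEmbedding.mixedSpace L) :
    mixedEmbedding.normAtPlace w (∑ t ∈ s, f t) ≤ ∑ t ∈ s, mixedEmbedding.normAtPlace w (f t) :=
  Finset.le_sum_of_subadditive _ (map_zero _).le (fun x y => mixedEmbedding.normAtPlace_add_le w x y) s f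

theorem pd_nat (w : InfinitePlace L) (n : ℕ) : mixedEmbedding.normAtPlace w ((n : ℕ) : mixedEmbedding.mixedSpace L) = n := by
  have e : ((n : ℕ) : mixedEmbedding.mixedSpace L) = (n : ℝ) • 1 := by
    rw [Nat.cast_smul_eq_nsmul, nsmul_one]
  rw [e, mixedEmbedding.normAtPlace_smul, map_one, mul_one, Nat.abs_cast]

theorem pd_sign (w : InfinitePlace L) (u : ℤˣ) (x : mixedEmbedding.mixedSpace L) : mixedEmbedding.normAtPlace w (u • x) = mixedEmbedding.normAtPlace w x := by
  rcases Int.units_eq_one_or u with rfl | rfl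
  · rw [one_smul]
  · rw [Units.neg_smul, one_smul, mixedEmbedding.normAtPlace_neg]

variable {J : Type} [Fintype J] [DecidableEq J] {k : ℕ}

/-- The row sums of the `k`-th compound matrix (the matrix of the `k × k` minors) of `Y` at the place `w` are at most `B`: for all rows `f_1, …, f_k`, the sum over all `g_1, …, g_k` of the absolute values of the
minors `det (Y_{f_i, g_j})` (every set of `k` columns is counted `k!` times) is at most `k! B`. -/
def CB (k : ℕ) (w : InfinitePlace L) (Y : Matrix J J (mixedEmbedding.mixedSpace L)) (B : ℝ) : Prop :=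
  ∀ f : Fin k → J, ∑ g : Fin k → J, mixedEmbedding.normAtPlace w (Y.submatrix f g).det ≤ k.factorial * B

theorem CB.mono {w : InfinitePlace L} {Y : Matrix J J (mixedEmbedding.mixedSpace L)} {B B' : ℝ} (h : CB k w Y B) (hB : B ≤ B') : CB k w Y B' := fun f =>
  (h f).trans (mul_le_mul_of_nonneg_left hB (Nat.cast_nonneg _))

/-- **The row sum norm of the compound matrices is submultiplicative.** -/
theorem CB.mul {w : InfinitePlace L} {X Y : Matrix J J (mixedEmbedding.mixedSpace L)} {B B' : ℝ} (h : CB k w X B) (h' : CB k w Y B') (hB : 0 ≤ B') : CB k w (X * Y) (B * B') := by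
  intro f
  have hk : (0 : ℝ) < k.factorial := Nat.cast_pos.2 (Nat.factorial_pos k)
  have h1 : ∀ g' : Fin k → J, k.factorial * mixedEmbedding.normAtPlace w ((X * Y).submatrix f g').det ≤
      ∑ g : Fin k → J, mixedEmbedding.normAtPlace w (X.submatrix f g).det * mixedEmbedding.normAtPlace w (Y.submatrix g g').det := by
    intro g'
    rw [← pd_nat w, ← map_mul, pd_binet]
    refine (pd_sum_le w _ _).trans (le_of_eq ?_)
    refine Finset.sum_congr rfl fun g _ => ?_
    rw [map_mul]
  have h2 : k.factorial * ∑ g' : Fin k → J, mixedEmbedding.normAtPlace w ((X * Y).submatrix f g').det ≤ k.factorial * (k.factorial * (B * B')) := by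
    rw [Finset.mul_sum]
    calc ∑ g' : Fin k → J, k.factorial * mixedEmbedding.normAtPlace w ((X * Y).submatrix f g').det
        ≤ ∑ g' : Fin k → J, ∑ g : Fin k → J, mixedEmbedding.normAtPlace w (X.submatrix f g).det * mixedEmbedding.normAtPlace w (Y.submatrix g g').det :=
          Finset.sum_le_sum fun g' _ => h1 g'
      _ = ∑ g : Fin k → J, mixedEmbedding.normAtPlace w (X.submatrix f g).det * ∑ g' : Fin k → J, mixedEmbedding.normAtPlace w (Y.submatrix g g').det := by
          rw [Finset.sum_comm]
          refine Finset.sum_congr rfl fun g _ => ?_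
          rw [Finset.mul_sum]
      _ ≤ ∑ g : Fin k → J, mixedEmbedding.normAtPlace w (X.submatrix f g).det * (k.factorial * B') :=
          Finset.sum_le_sum fun g _ => mul_le_mul_of_nonneg_left (h' g) (mixedEmbedding.normAtPlace_nonneg _ _)
      _ = (∑ g : Fin k → J, mixedEmbedding.normAtPlace w (X.submatrix f g).det) * (k.factorial * B') := by rw [Finset.sum_mul]
      _ ≤ (k.factorial * B) * (k.factorial * B') := mul_le_mul_of_nonneg_right (h f) (mul_nonneg hk.le hB)
      _ = _ := by ring
  exact le_of_mul_le_mul_left h2 hk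

/-- The identity matrix. -/
theorem cb_one (w : InfinitePlace L) : CB k w (1 : Matrix J J (mixedEmbedding.mixedSpace L)) 1 := by
  intro f
  rw [mul_one]
  have h1 : ∀ g : Fin k → J, mixedEmbedding.normAtPlace w ((1 : Matrix J J (mixedEmbedding.mixedSpace L)).submatrix f g).det ≤
      ∑ σ : Equiv.Perm (Fin k), if (fun t => f (σ t)) = g then (1 : ℝ) else 0 := by
    intro g
    rw [Matrix.det_apply]
    refine (pd_sum_le w _ _).trans (Finset.sum_le_sum fun σ _ => ?_)
    rw [pd_sign, map_prod]
    split_ifs with h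
    · subst h
      refine le_of_eq (Finset.prod_eq_one fun t _ => ?_)
      rw [Matrix.submatrix_apply, Matrix.one_apply_eq, map_one]
    · obtain ⟨t, ht⟩ : ∃ t, f (σ t) ≠ g t := by
        by_contra hc
        push Not at hc
        exact h (funext hc)
      refine le_of_eq (Finset.prod_eq_zero (Finset.mem_univ t) ?_)
      rw [Matrix.submatrix_apply, Matrix.one_apply_ne ht, map_zero]
  refine (Finset.sum_le_sum fun g _ => h1 g).trans (le_of_eq ?_)
  rw [Finset.sum_comm]
  simp only [Finset.sum_ite_eq, Finset.mem_univ, if_true]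
  rw [Finset.sum_const, Finset.card_univ, Fintype.card_perm, Fintype.card_fin, nsmul_eq_mul, mul_one]

/-- A minor. -/
theorem CB.minor {w : InfinitePlace L} {Y : Matrix J J (mixedEmbedding.mixedSpace L)} {B : ℝ} (h : CB k w Y B) (f g : Fin k → J) :
    mixedEmbedding.normAtPlace w (Y.submatrix f g).det ≤ k.factorial * B :=
  (Finset.single_le_sum (f := fun g : Fin k → J => mixedEmbedding.normAtPlace w (Y.submatrix f g).det) (fun _ _ => mixedEmbedding.normAtPlace_nonneg _ _) (Finset.mem_univ g)).trans (h f)

theorem CB.minor' {w : InfinitePlace L} {Y : Matrix J J (mixedEmbedding.mixedSpace L)} {B : ℝ} {T : Type} [Fintype T] [DecidableEq T] (h : CB (Fintype.card T) w Y B) (f g : T → J) :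
    mixedEmbedding.normAtPlace w (Y.submatrix f g).det ≤ (Fintype.card T).factorial * B := by
  have e := (Fintype.equivFin T).symm
  have h1 : (Y.submatrix f g).det = (Y.submatrix (f ∘ e) (g ∘ e)).det := by
    rw [← Matrix.det_submatrix_equiv_self e (Y.submatrix f g)]
    rfl
  rw [h1]
  exact h.minor _ _

/-- A bound on a compact set. -/
theorem cb_compact (k : ℕ) {S : Type} [TopologicalSpace S] {Ω : Set S} (hΩ : IsCompact Ω) {F : S → Matrix J J (mixedEmbedding.mixedSpace L)} (hF : Continuous F) :
    ∃ C : ℝ, 1 ≤ C ∧ ∀ s ∈ Ω, ∀ w : InfinitePlace L, CB k w (F s) C := by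
  have h1 : ∀ p : (Fin k → J) × InfinitePlace L, ∃ C : ℝ, ∀ s ∈ Ω, ∑ g : Fin k → J, mixedEmbedding.normAtPlace p.2 ((F s).submatrix p.1 g).det ≤ C := by
    intro p
    have hc : Continuous fun s => ∑ g : Fin k → J, mixedEmbedding.normAtPlace p.2 ((F s).submatrix p.1 g).det := by
      refine continuous_finsetSum _ fun g _ => (mixedEmbedding.continuous_normAtPlace p.2).comp ?_
      refine Continuous.matrix_det ?_
      exact hF.matrix_submatrix _ _
    obtain ⟨C, hC⟩ := hΩ.exists_bound_of_continuousOn hc.continuousOn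
    exact ⟨C, fun s hs => (le_abs_self _).trans (hC s hs)⟩
  choose C hC using h1
  refine ⟨∑ p : (Fin k → J) × InfinitePlace L, |C p| + 1, by
    have : 0 ≤ ∑ p : (Fin k → J) × InfinitePlace L, |C p| := Finset.sum_nonneg fun _ _ => abs_nonneg _
    linarith, fun s hs w f => ?_⟩
  have hk : (1 : ℝ) ≤ k.factorial := Nat.one_le_cast.2 (Nat.factorial_pos k)
  have h2 := Finset.single_le_sum (f := fun p : (Fin k → J) × InfinitePlace L => |C p|) (fun p _ => abs_nonneg (C p)) (Finset.mem_univ (f, w))
  have h3 := hC (f, w) s hs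
  have h4 := le_abs_self (C (f, w))
  have h5 : 0 ≤ ∑ p : (Fin k → J) × InfinitePlace L, |C p| := Finset.sum_nonneg fun _ _ => abs_nonneg _
  simp only at h2 h3
  nlinarith [mul_le_mul_of_nonneg_right hk (by linarith : (0 : ℝ) ≤ ∑ p : (Fin k → J) × InfinitePlace L, |C p| + 1)]

/-- The product of `m` elements. -/
theorem cb_pow {G : Type} [Monoid G] (F : G →* Matrix J J (mixedEmbedding.mixedSpace L)) {w : InfinitePlace L} {S : Set G} {B : ℝ} (hB : 0 ≤ B) (h : ∀ g ∈ S, CB k w (F g) B) (m : ℕ) (l : Fin m → G) (hl : ∀ i, l i ∈ S) :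
    CB k w (F (List.ofFn l).prod) (B ^ m) := by
  induction m with
  | zero =>
    rw [List.ofFn_zero, List.prod_nil, map_one, pow_zero]
    exact cb_one w
  | succ m ih =>
    rw [List.ofFn_succ, List.prod_cons, map_mul, pow_succ']
    exact (h _ (hl 0)).mul (ih _ fun i => hl _) (pow_nonneg hB m)

end norm

end

end Pool.Agent.Lib.L8
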