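import Pool.Agent.Lib.L8.IG17
import Pool.Agent.Lib.L8.IG21
import Pool.Agent.Lib.L8.PD1

/-! # L8, module I, chunk IG22: monotonicity of the Iwasawa projection -/

namespace Pool.Agent.Lib.L8

open Matrix Pool.Agent.Lib.L1S

noncomputable section

set_option linter.unusedSectionVars false

variable {ι M N : Type} [Fintype ι] [DecidableEq ι] [AddCommGroup M] [Module ℚ M] [AddCommGroup N] [Module ℚ N]
  {P : RootPairing ι ℚ M N} [P.IsCrystallographic] [P.IsReduced] [P.IsIrreducible] [P.IsRootSystem] {b : P.Base} {F : Type} [RCLike F]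

section

open scoped MatrixOrder

theorem ig22_sqrt {n : Type} [Fintype n] [DecidableEq n] {A : Matrix n n ℝ} (hA : A.PosSemidef) : ∃ Q : Matrix n n ℝ, A = Qᴴ * Q :=
  CStarAlgebra.nonneg_iff_eq_star_mul_self.mp hA.nonneg

end

/-- The real case. -/
theorem ig22_R (b : P.Base) : ∃ R : Matrix (I b) (I b) ℝ, ((SQ b).map (fun q : ℚ => (q : ℝ))) * (R * Rᵀ) = 1 ∧ ∀ r c, R r c ≠ 0 → wt b r = wt b c := by
  obtain ⟨B, hB⟩ : ∃ B : Matrix b.support b.support ℝ, B = ((SQ b).map (fun q : ℚ => (q : ℝ))).submatrix Sum.inl Sum.inl := ⟨_, rfl⟩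
  have hBp : B.PosDef := by
    rw [hB]
    exact (SQ_pos b).submatrix Sum.inl_injective
  obtain ⟨Q, hQ⟩ := ig22_sqrt hBp.inv.posSemidef
  have hS : (SQ b).map (fun q : ℚ => (q : ℝ)) = Matrix.fromBlocks B 0 0 (Matrix.diagonal fun β : ι => ((lenq P β : ℚ) : ℝ)) := by
    ext r c
    rcases r with r | r <;> rcases c with c | c
    · rw [hB]
      rfl
    · simp [SQ]
    · simp [SQ]
    · by_cases hrc : r = c
      · rw [hrc]
        simp [SQ]
      · simp [SQ, Matrix.diagonal_apply_ne _ hrc]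
  have hQ' : Qᴴ = Qᵀ := Matrix.conjTranspose_eq_transpose_of_trivial Q
  rw [hQ'] at hQ
  refine ⟨Matrix.fromBlocks Qᵀ 0 0 (Matrix.diagonal fun β : ι => Real.sqrt (((lenq P β : ℚ) : ℝ)⁻¹)), ?_, ?_⟩
  · rw [hS, Matrix.fromBlocks_transpose, Matrix.fromBlocks_multiply, Matrix.fromBlocks_multiply]
    simp only [Matrix.transpose_zero, Matrix.mul_zero, Matrix.zero_mul, add_zero, zero_add, Matrix.transpose_transpose, Matrix.diagonal_transpose,
      Matrix.diagonal_mul_diagonal]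
    rw [← hQ, Matrix.mul_nonsing_inv _ (isUnit_iff_ne_zero.2 hBp.det_pos.ne'), ← Matrix.fromBlocks_one]
    congr 1
    rw [← Matrix.diagonal_one]
    congr 1
    funext β
    have h1 : (0 : ℝ) < ((lenq P β : ℚ) : ℝ) := ig4_len β
    rw [Real.mul_self_sqrt (inv_nonneg.2 h1.le), mul_inv_cancel₀ h1.ne']
  · intro r c h
    rcases r with r | r <;> rcases c with c | c
    · rfl
    · exact absurd rfl h
    · exact absurd rfl h
    · by_cases hrc : r = c
      · rw [hrc]
      · exfalso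
        apply h
        rw [Matrix.fromBlocks_apply₂₂, Matrix.diagonal_apply_ne _ hrc]

/-- PROOF: `S = fromBlocks B 0 0 (diagonal lenq)`, so `S⁻¹ = fromBlocks B⁻¹ 0 0 (diagonal lenq⁻¹)` (`Matrix.inv_fromBlocks..` or check the product), `B⁻¹` is positive definite (`SQ_pos` restricted), real; `B⁻¹ = R₁ R₁ᵀ` with a real matrix `R₁` (`Matrix.posSemidef_iff_eq_conjTranspose_mul_self`), `R = fromBlocks R₁ 0 0 (diagonal (√lenq)⁻¹)` (mapped to `F`).
(All rows and columns of the first block have the weight `0`.) Alternatively: `R` = the positive square root of `S⁻¹`, which commutes with the matrices that commute with `S`. -/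
theorem ig_R (b : P.Base) (F : Type) [RCLike F] : ∃ R : Matrix (I b) (I b) F, (SF b F)⁻¹ = R * Rᴴ ∧ ∀ r c, R r c ≠ 0 → wt b r = wt b c := by
  obtain ⟨R, h1, h2⟩ := ig22_R b
  refine ⟨R.map (algebraMap ℝ F), ?_, ?_⟩
  · have h3 : (R.map (algebraMap ℝ F))ᴴ = Rᵀ.map (algebraMap ℝ F) := by
      ext r c
      show star ((algebraMap ℝ F) (R c r)) = (algebraMap ℝ F) (R c r)
      exact RCLike.conj_ofReal (K := F) (R c r)
    have h4 : SF b F = ((SQ b).map (fun q : ℚ => (q : ℝ))).map (algebraMap ℝ F) := by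
      ext r c
      show (((SQ b) r c : ℚ) : F) = (algebraMap ℝ F) (((SQ b) r c : ℚ) : ℝ)
      rw [map_ratCast]
    rw [h3, ← Matrix.map_mul]
    refine Matrix.inv_eq_right_inv ?_
    rw [h4, ← Matrix.map_mul, h1, Matrix.map_one _ (map_zero _) (map_one _)]
  · intro r c h
    refine h2 r c fun h0 => h ?_
    show (algebraMap ℝ F) (R r c) = 0
    rw [h0, map_zero]

/-- **Cauchy–Binet.** PROOF: `X S⁻¹ Xᴴ = (X R) (X R)ᴴ`, `det_reindex_self` / `det_submatrix_equiv_self` for `e`, `pd_binet` (L8/PD1) with `f = fun t => (e t).1`; `((X R)ᴴ).submatrix g f = ((X R).submatrix f g)ᴴ`, `det_conjTranspose`, `z * star z = ‖z‖²` (`RCLike.mul_conj`); the norm of a sum of nonnegative real numbers. -/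
theorem Nj_binet {R : Matrix (I b) (I b) F} (hR : (SF b F)⁻¹ = R * Rᴴ) (j : b.support) (e : Fin (Fintype.card (Tn b j)) ≃ Tn b j) (X : Matrix (I b) (I b) F) :
    ((Fintype.card (Tn b j)).factorial : ℝ) * ‖Nj b F j X‖ = ∑ g : Fin (Fintype.card (Tn b j)) → I b, ‖((X * R).submatrix (fun t => (e t).1) g).det‖ ^ 2 := by
  have h1 : X * (SF b F)⁻¹ * Xᴴ = (X * R) * (X * R)ᴴ := by
    rw [hR, Matrix.conjTranspose_mul]
    simp only [Matrix.mul_assoc]
  have h2 : Nj b F j X = (((X * R) * (X * R)ᴴ).submatrix (fun t => (e t).1) (fun t => (e t).1)).det := by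
    unfold Nj
    rw [← Matrix.det_submatrix_equiv_self e, h1]
    rfl
  have h3 := pd_binet (X * R) ((X * R)ᴴ) (fun t => (e t).1) (fun t => (e t).1)
  rw [← h2] at h3
  have h4 : ∀ g : Fin (Fintype.card (Tn b j)) → I b, ((X * R).submatrix (fun t => (e t).1) g).det * (((X * R)ᴴ).submatrix g (fun t => (e t).1)).det =
      ((‖((X * R).submatrix (fun t => (e t).1) g).det‖ ^ 2 : ℝ) : F) := by
    intro g
    have h5 : ((X * R)ᴴ).submatrix g (fun t => (e t).1) = ((X * R).submatrix (fun t => (e t).1) g)ᴴ := rfl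
    rw [h5, Matrix.det_conjTranspose, RCLike.star_def, RCLike.mul_conj, RCLike.ofReal_pow]
  simp only [h4] at h3
  rw [← RCLike.ofReal_sum] at h3
  have h6 := congrArg (fun z : F => ‖z‖) h3
  simp only [norm_mul, RCLike.norm_natCast] at h6
  rw [h6, RCLike.norm_ofReal, abs_of_nonneg (Finset.sum_nonneg fun g _ => sq_nonneg _)]

theorem ig22_pry {y : b.support → ℝ} {r c : I b} (h : wt b r = wt b c) : pry b y r = pry b y c := by
  unfold pry
  refine Finset.sum_congr rfl fun j _ => ?_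
  rw [ig13_pj h]

theorem ig22_comm {R : Matrix (I b) (I b) F} (hR : ∀ r c, R r c ≠ 0 → wt b r = wt b c) (y : b.support → ℝ) : exM b F y * R = R * exM b F y := by
  ext r c
  rw [exM, Matrix.diagonal_mul, Matrix.mul_diagonal]
  by_cases h : R r c = 0
  · rw [h, mul_zero, zero_mul]
  · rw [ig22_pry (y := y) (hR r c h), mul_comm]

theorem ig22_mul {X Y : Matrix (I b) (I b) F} {r c : I b} (h : (X * Y) r c ≠ 0) : ∃ s, X r s ≠ 0 ∧ Y s c ≠ 0 := by
  rw [Matrix.mul_apply] at h
  obtain ⟨s, -, hs⟩ := Finset.exists_ne_zero_of_sum_ne_zero h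
  exact ⟨s, left_ne_zero_of_mul hs, right_ne_zero_of_mul hs⟩

/-- PROOF: `gnl l * (ex(y) u ex(-y)) * R = ex(w y) (gnl l * u * R) ex(-y)` (`gnl_gex`; `ex(-y)` commutes with `R`: `pry` depends only on `wt`), so the minor with the rows `f` and the columns `g` is multiplied by `exp(∑_t pry (w y) (f t) - ∑_t pry y (g t))` (diagonal matrices on both sides: `det_mul_row`, `det_mul_column`). If the minor of
`gnl l * u * R` is not zero there is a permutation `σ` with nonzero entries at `(f (σ t), g t)` for all `t` (`det_apply`), so (`gnl_val`, `nL_over`; `gU_uni`; the property of `R`) there is `r'` with `wt (f (σ t)) = w wt r'`, `wq (g t) ≤ wq r'`, and `pry (w y) (f (σ t)) = pry y r' ≤ pry y (g t)` (`pry_sL`, `pry_le`). Sum over `t`. -/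
theorem minor_le {R : Matrix (I b) (I b) F} (hR : ∀ r c, R r c ≠ 0 → wt b r = wt b c) (l : List b.support) {y : b.support → ℝ} (hy : ∀ i, al (cA b) i y ≤ 0) {u : GF b F} (hu : u ∈ gU b F) {k : ℕ} (f g : Fin k → I b) :
    ‖(((gnl b F l * (gex b F y * u * (gex b F y)⁻¹)).1.1 * R).submatrix f g).det‖ ≤ ‖(((gnl b F l * u).1.1 * R).submatrix f g).det‖ := by
  obtain ⟨A, hA⟩ : ∃ A, A = (gnl b F l * u).1.1 * R := ⟨_, rfl⟩
  have h1 : gnl b F l * (gex b F y * u * (gex b F y)⁻¹) = gex b F (wl (cA b) l y) * (gnl b F l * u) * gex b F (-y) := by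
    rw [← gnl_gex, gex_neg]
    group
  have h2 : (gnl b F l * (gex b F y * u * (gex b F y)⁻¹)).1.1 * R = exM b F (wl (cA b) l y) * A * exM b F (-y) := by
    rw [h1]
    have h3 : (gex b F (wl (cA b) l y) * (gnl b F l * u) * gex b F (-y)).1.1 = exM b F (wl (cA b) l y) * (gnl b F l * u).1.1 * exM b F (-y) := rfl
    rw [h3, hA, Matrix.mul_assoc, ig22_comm hR, ← Matrix.mul_assoc, ← Matrix.mul_assoc]
  have h3 : ((exM b F (wl (cA b) l y) * A * exM b F (-y)).submatrix f g).det =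
      (∏ t, ((Real.exp (pry b (wl (cA b) l y) (f t)) : ℝ) : F)) * ((∏ t, ((Real.exp (pry b (-y) (g t)) : ℝ) : F)) * (A.submatrix f g).det) := by
    rw [← Matrix.det_mul_row, ← Matrix.det_mul_column]
    congr 1
    ext s t
    rw [Matrix.submatrix_apply, exM, exM, Matrix.mul_diagonal, Matrix.diagonal_mul, Matrix.of_apply, Matrix.of_apply, Matrix.submatrix_apply]
    ring
  rw [h2, h3, ← hA]
  by_cases h0 : (A.submatrix f g).det = 0
  · rw [h0, mul_zero, mul_zero, norm_zero]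
  have h4 : ∃ σ : Equiv.Perm (Fin k), ∀ t, A (f (σ t)) (g t) ≠ 0 := by
    rw [Matrix.det_apply] at h0
    obtain ⟨σ, -, hσ⟩ := Finset.exists_ne_zero_of_sum_ne_zero h0
    refine ⟨σ, fun t ht => hσ ?_⟩
    rw [Finset.prod_eq_zero (Finset.mem_univ t) ht, smul_zero]
  obtain ⟨σ, hσ⟩ := h4
  have h5 : ∀ t, pry b (wl (cA b) l y) (f (σ t)) ≤ pry b y (g t) := by
    intro t
    have h6 := hσ t
    rw [hA] at h6
    obtain ⟨c', h7, h8⟩ := ig22_mul h6
    have h9 : (gnl b F l * u).1.1 = (gnl b F l).1.1 * u.1.1 := rfl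
    rw [h9] at h7
    obtain ⟨r', h10, h11⟩ := ig22_mul h7
    rw [gnl_val] at h10
    have h12 : nL b l (f (σ t)) r' ≠ 0 := by
      intro h13
      apply h10
      show ((nL b l (f (σ t)) r' : ℤ) : F) = 0
      rw [h13, Int.cast_zero]
    rw [pry_sL l y (nL_over l _ _ h12), ← ig22_pry (y := y) (hR _ _ h8)]
    rcases gU_uni hu r' c' with h14 | h14
    · rw [h14] at h11
      have h15 : r' = c' := by
        by_contra hne
        exact h11 (Matrix.one_apply_ne hne)
      rw [h15]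
    · exact pry_le hy h14.2
  have h6 : ∑ t, pry b (wl (cA b) l y) (f t) ≤ ∑ t, pry b y (g t) := by
    rw [← Equiv.sum_comp σ]
    exact Finset.sum_le_sum fun t _ => h5 t
  have h7 : ‖∏ t, ((Real.exp (pry b (wl (cA b) l y) (f t)) : ℝ) : F)‖ = Real.exp (∑ t, pry b (wl (cA b) l y) (f t)) := by
    rw [norm_prod, Real.exp_sum]
    refine Finset.prod_congr rfl fun t _ => ?_
    rw [RCLike.norm_ofReal, abs_of_pos (Real.exp_pos _)]
  have h8 : ‖∏ t, ((Real.exp (pry b (-y) (g t)) : ℝ) : F)‖ = Real.exp (-∑ t, pry b y (g t)) := by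
    rw [norm_prod, ← Finset.sum_neg_distrib, Real.exp_sum]
    refine Finset.prod_congr rfl fun t _ => ?_
    rw [RCLike.norm_ofReal, abs_of_pos (Real.exp_pos _), pry_neg]
  rw [norm_mul, norm_mul, h7, h8, ← mul_assoc, ← Real.exp_add]
  refine mul_le_of_le_one_left (norm_nonneg _) ?_
  rw [← Real.exp_zero]
  exact Real.exp_le_exp.2 (by linarith)

/-- **Monotonicity.** PROOF: `ig_R`, `Nj_binet`, `minor_le`: `‖N_j(gnl l u')‖ ≤ ‖N_j(gnl l u)‖`; `gH` is a decreasing function of `‖N_j‖` (`cw_pos`, `Nj_ne`, `Real.log_le_log`). -/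
theorem g_mono (l : List b.support) {y : b.support → ℝ} (hy : ∀ i, al (cA b) i y ≤ 0) {u : GF b F} (hu : u ∈ gU b F) (j : b.support) :
    gH b F (gnl b F l * u) j ≤ gH b F (gnl b F l * (gex b F y * u * (gex b F y)⁻¹)) j := by
  obtain ⟨R, hR, hR'⟩ := ig_R b F
  have e : Fin (Fintype.card (Tn b j)) ≃ Tn b j := (Fintype.equivFin _).symm
  have h1 : ‖Nj b F j (gnl b F l * (gex b F y * u * (gex b F y)⁻¹)).1.1‖ ≤ ‖Nj b F j (gnl b F l * u).1.1‖ := by
    have hk : (0 : ℝ) < ((Fintype.card (Tn b j)).factorial : ℝ) := by exact_mod_cast Nat.factorial_pos _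
    refine le_of_mul_le_mul_left ?_ hk
    rw [Nj_binet hR j e, Nj_binet hR j e]
    refine Finset.sum_le_sum fun g _ => ?_
    exact pow_le_pow_left₀ (norm_nonneg _) (minor_le hR' l hy hu _ g) 2
  have h2 : Real.log ‖Nj b F j (gnl b F l * (gex b F y * u * (gex b F y)⁻¹)).1.1‖ ≤ Real.log ‖Nj b F j (gnl b F l * u).1.1‖ :=
    Real.log_le_log (norm_pos_iff.2 (Nj_ne j _)) h1
  have h3 : (0 : ℝ) ≤ 1 / (2 * ((cw b j : ℤ) : ℝ)) := by
    have h4 : (0 : ℝ) < ((cw b j : ℤ) : ℝ) := by exact_mod_cast cw_pos j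
    positivity
  unfold gH
  have h5 := mul_le_mul_of_nonneg_left (sub_le_sub_right h2 (Real.log ‖Nj b F j (1 : Matrix (I b) (I b) F)‖)) h3
  linarith

end

end Pool.Agent.Lib.L8
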