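import Pool.Agent.Lib.L8.IG22
import Pool.Agent.Lib.L8.IG19B

/-! # L8, module I, chunk IG23: the big cell is dense, Kostant's inequality -/

namespace Pool.Agent.Lib.L8

open Matrix Pool.Agent.Lib.L1S

noncomputable section

set_option linter.unusedSectionVars false

variable {ι M N : Type} [Fintype ι] [DecidableEq ι] [AddCommGroup M] [Module ℚ M] [AddCommGroup N] [Module ℚ N]
  {P : RootPairing ι ℚ M N} [P.IsCrystallographic] [P.IsReduced] [P.IsIrreducible] [P.IsRootSystem] {b : P.Base} {F : Type} [RCLike F]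

open Filter Topology

/-- The big cell `U A M n_l U`. -/
def Big (b : P.Base) (F : Type) [RCLike F] (l : List b.support) : Set (GF b F) := {g | ∃ u ∈ gU b F, ∃ y, ∃ m ∈ gM b F, ∃ u' ∈ gU b F, g = u * gex b F y * m * gnl b F l * u'}

theorem big_U {l : List b.support} {u g : GF b F} (hu : u ∈ gU b F) (hg : g ∈ Big b F l) : u * g ∈ Big b F l := by
  obtain ⟨u1, hu1, y, m, hm, u', hu', rfl⟩ := hg
  exact ⟨u * u1, mul_mem hu hu1, y, m, hm, u', hu', by group⟩

/-- PROOF: `m u ex(y) m' = (m u m⁻¹) ex(y) (m m')`. -/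
theorem big_M {l : List b.support} {m g : GF b F} (hm : m ∈ gM b F) (hg : g ∈ Big b F l) : m * g ∈ Big b F l := by
  obtain ⟨u1, hu1, y, m1, hm1, u', hu', rfl⟩ := hg
  refine ⟨m * u1 * m⁻¹, gM_U hm hu1, y, m * m1, mul_mem hm hm1, u', hu', ?_⟩
  calc m * (u1 * gex b F y * m1 * gnl b F l * u') = m * u1 * m⁻¹ * (m * gex b F y) * m1 * gnl b F l * u' := by group
    _ = m * u1 * m⁻¹ * (gex b F y * m) * m1 * gnl b F l * u' := by rw [hm.2]
    _ = m * u1 * m⁻¹ * gex b F y * (m * m1) * gnl b F l * u' := by group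

/-- PROOF: `g = u ex(y) m n u'`, `u = u'' x_i(s)`, `s = c_i(u)`. If `s ≠ 0`: `n_i u'' x_i(s) = (n_i u'' n_i⁻¹) n_i x_i(s)`, and `rk_inv` for `t = -1/s`, so `-1/t = s`: `x_i(t) n_i = (n_i x_i(s) n_i⁻¹) m' ex(a) x_i(s)`, hence `n_i x_i(s) = x_i(t) n_i x_i(s)⁻¹ ex(a)⁻¹ m'⁻¹ n_i`; here `n_i x_i(s)⁻¹ ex(a)⁻¹ m'⁻¹ n_i
= (n_i x_i(-s) n_i⁻¹) (n_i (ex(a)⁻¹ m'⁻¹) n_i⁻¹) n_i²` is in `V · A M` (`gn_gx`, `gx_V`, `gn_gex`, `gn_M`, `gn_sq`): `n_i x_i(s) = x_i(t) v a'`, `v ∈ V`, `a' ∈ A M`. Moving `v` to the right: `v a' ex(y) m n u' = a'' n (n⁻¹ v' n) u'` with `v' ∈ V` (`gex_V`, `gM_V`) and `n⁻¹ v' n ∈ U` (`long_V`).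
So `n_i g ∈ Big` (`gn_U`). -/
theorem big_n {l : List b.support} (hl : ∀ i : b.support, b.height (wL b l (i : ι)) < 0) (i : b.support) {u g : GF b F} (hu : u ∈ gU b F) (hs : gc b F i u ≠ 0) {y : b.support → ℝ} {m : GF b F} (hm : m ∈ gM b F) {u' : GF b F} (hu' : u' ∈ gU b F)
    (hg : g = u * gex b F y * m * gnl b F l * u') : gn b F i * g ∈ Big b F l := by
  have hi : 0 < b.height (i : ι) := by
    rw [b.height_one_of_mem_support i.2]
    exact one_pos
  obtain ⟨s, hsd⟩ : ∃ s, s = gc b F i u := ⟨_, rfl⟩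
  rw [← hsd] at hs
  have hx : ∀ t : F, gx b F (i : ι) t ∈ gU b F := fun t => gx_U hi t
  have hu2 : u * gx b F (i : ι) (-s) ∈ gU b F := mul_mem hu (hx _)
  have hc2 : gc b F i (u * gx b F (i : ι) (-s)) = 0 := by
    rw [gc_mul i hu (hx _), gc_gx, ← hsd, add_neg_cancel]
  have h1 := (gn_U i hu2 hc2).1
  have ht : -s⁻¹ ≠ 0 := neg_ne_zero.2 (inv_ne_zero hs)
  obtain ⟨m', hm', h2⟩ := rk_inv (b := b) i (-s⁻¹) ht
  have e0 : -(-s⁻¹)⁻¹ = s := by
    rw [inv_neg, inv_inv, neg_neg]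
  rw [e0] at h2
  obtain ⟨a, ha⟩ : ∃ a : b.support → ℝ, a = Real.log ‖-s⁻¹‖ • Pi.single i 1 := ⟨_, rfl⟩
  rw [← ha] at h2
  obtain ⟨v, hv⟩ : ∃ v, v = gn b F i * gx b F (i : ι) (-s) * (gn b F i)⁻¹ := ⟨_, rfl⟩
  have hneg : b.height (ng P i) < 0 := by
    have h3 : b.height (ng P i) = - b.height i := b.height_reflectionPerm_self i
    rw [h3]
    omega
  have hvV : v ∈ gV b F := by
    rw [hv, gn_gx]
    exact gx_V hneg _
  obtain ⟨m1, hm1⟩ : ∃ m1, m1 = gn b F i * m'⁻¹ * (gn b F i)⁻¹ * (gn b F i * gn b F i) := ⟨_, rfl⟩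
  have hm1M : m1 ∈ gM b F := by
    rw [hm1]
    exact mul_mem (gn_M i (inv_mem hm')) (gn_sq i)
  have h4 : gn b F i * gx b F (i : ι) s = gx b F (i : ι) (-s⁻¹) * v * gex b F (sr (cA b) i (-a)) * m1 := by
    rw [← gn_gex, gex_neg, hv, gx_neg b F (i : ι) s, hm1]
    have h5 : gn b F i * gx b F (i : ι) s = (gx b F (i : ι) (-s⁻¹) * gn b F i) * (gx b F (i : ι) s)⁻¹ * (gex b F a)⁻¹ * m'⁻¹ * gn b F i := by
      rw [h2]
      group
    rw [h5]
    group
  obtain ⟨w, hw⟩ : ∃ w : b.support → ℝ, w = sr (cA b) i (-a) + y := ⟨_, rfl⟩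
  obtain ⟨m2, hm2⟩ : ∃ m2, m2 = m1 * m := ⟨_, rfl⟩
  have hm2M : m2 ∈ gM b F := by
    rw [hm2]
    exact mul_mem hm1M hm
  obtain ⟨v2, hv2⟩ : ∃ v2, v2 = m2⁻¹ * (gex b F (-w) * v * (gex b F (-w))⁻¹) * (m2⁻¹)⁻¹ := ⟨_, rfl⟩
  have hv2V : v2 ∈ gV b F := by
    rw [hv2]
    exact gM_V (inv_mem hm2M) (gex_V _ hvV)
  have h6 : gn b F i * g = (gn b F i * (u * gx b F (i : ι) (-s)) * (gn b F i)⁻¹) *
      (gx b F (i : ι) (-s⁻¹) * gex b F w * m2 * gnl b F l * ((gnl b F l)⁻¹ * v2 * gnl b F l * u')) := by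
    have h7 : gn b F i * g = (gn b F i * (u * gx b F (i : ι) (-s)) * (gn b F i)⁻¹) * (gn b F i * gx b F (i : ι) s) * gex b F y * m * gnl b F l * u' := by
      rw [hg, gx_neg b F (i : ι) s]
      group
    have h8 : gex b F (sr (cA b) i (-a)) * m1 * gex b F y * m = gex b F w * m2 := by
      rw [hw, hm2, gex_add]
      calc gex b F (sr (cA b) i (-a)) * m1 * gex b F y * m = gex b F (sr (cA b) i (-a)) * (m1 * gex b F y) * m := by group
        _ = gex b F (sr (cA b) i (-a)) * gex b F y * (m1 * m) := by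
          rw [hm1M.2]
          group
    have h9 : v * (gex b F w * m2) = gex b F w * m2 * v2 := by
      rw [hv2, gex_neg]
      group
    calc gn b F i * g = (gn b F i * (u * gx b F (i : ι) (-s)) * (gn b F i)⁻¹) * gx b F (i : ι) (-s⁻¹) * v * (gex b F (sr (cA b) i (-a)) * m1 * gex b F y * m) * gnl b F l * u' := by
          rw [h7, h4]
          group
      _ = (gn b F i * (u * gx b F (i : ι) (-s)) * (gn b F i)⁻¹) * gx b F (i : ι) (-s⁻¹) * (v * (gex b F w * m2)) * gnl b F l * u' := by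
          rw [h8]
          group
      _ = _ := by
          rw [h9]
          group
  rw [h6]
  exact big_U h1 ⟨_, hx _, w, m2, hm2M, _, mul_mem (long_V hl hv2V) hu', rfl⟩

/-- PROOF: if `c_i(u) = 0` replace `u` by `u x_i(s)`, `s → 0`, `s ≠ 0`: the points `n_i (u x_i(s)) ex(y) m n u'` are in `Big` (`big_n`, `gc_mul`, `gc_gx`) and converge to `n_i g` (`gx_cont`, `gx_zero`; e.g. `s = 1/(k+1)`, `mem_closure_of_tendsto`). -/
theorem big_cl {l : List b.support} (hl : ∀ i : b.support, b.height (wL b l (i : ι)) < 0) (i : b.support) {g : GF b F} (hg : g ∈ Big b F l) : gn b F i * g ∈ closure (Big b F l) := by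
  obtain ⟨u, hu, y, m, hm, u', hu', hgd⟩ := hg
  have hi : 0 < b.height (i : ι) := by
    rw [b.height_one_of_mem_support i.2]
    exact one_pos
  by_cases hs : gc b F i u = 0
  swap
  · exact subset_closure (big_n hl i hu hs hm hu' hgd)
  have hs0 : Tendsto (fun k : ℕ => ((1 / ((k : ℝ) + 1) : ℝ) : F)) atTop (𝓝 0) := by
    have h1 := (RCLike.continuous_ofReal (K := F)).tendsto 0
    rw [RCLike.ofReal_zero] at h1
    exact h1.comp tendsto_one_div_add_atTop_nhds_zero_nat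
  have h2 : Tendsto (fun k : ℕ => gn b F i * ((u * gx b F (i : ι) ((1 / ((k : ℝ) + 1) : ℝ) : F)) * gex b F y * m * gnl b F l * u')) atTop (𝓝 (gn b F i * g)) := by
    have h3 : Continuous fun t : F => gn b F i * ((u * gx b F (i : ι) t) * gex b F y * m * gnl b F l * u') := by
      have h4 := gx_cont (b := b) (F := F) (i : ι)
      fun_prop
    have h5 := (h3.tendsto 0).comp hs0
    have h6 : gn b F i * ((u * gx b F (i : ι) 0) * gex b F y * m * gnl b F l * u') = gn b F i * g := by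
      rw [gx_zero, mul_one, hgd]
    rw [h6] at h5
    exact h5
  refine mem_closure_of_tendsto h2 (Eventually.of_forall fun k => ?_)
  have h7 : u * gx b F (i : ι) ((1 / ((k : ℝ) + 1) : ℝ) : F) ∈ gU b F := mul_mem hu (gx_U hi _)
  refine big_n hl i h7 ?_ hm hu' rfl
  rw [gc_mul i hu (gx_U hi _), gc_gx, hs, zero_add]
  have h8 : (1 / ((k : ℝ) + 1) : ℝ) ≠ 0 := by positivity
  exact RCLike.ofReal_ne_zero.2 h8

/-- **The big cell is dense.** PROOF: `C = closure Big` satisfies `u C ⊆ C` (`u ∈ U`), `n_i C ⊆ C` (`big_cl` and continuity: `map_mem_closure` / `closure_minimal`), `n_i⁻¹ C ⊆ C` (`n_i⁻¹ = n_i (n_i²)⁻¹`, `gn_sq`, `big_M`). By `Subgroup.closure_induction` `h C ⊆ C` for all `h` in the subgroup generated by `U` and the `n_i`,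
in particular `h n ∈ C` (`n = gnl l ∈ Big`); that subgroup is dense (`gF_dense`) and `h ↦ h n` is a homeomorphism, so `C` is everything. -/
theorem big_dense {l : List b.support} (hl : ∀ i : b.support, b.height (wL b l (i : ι)) < 0) : Dense (Big b F l) := by
  have hU : ∀ u ∈ gU b F, ∀ c ∈ closure (Big b F l), u * c ∈ closure (Big b F l) := fun u hu c hc =>
    map_mem_closure (continuous_const_mul u) hc fun g hg => big_U hu hg
  have hM : ∀ m ∈ gM b F, ∀ c ∈ closure (Big b F l), m * c ∈ closure (Big b F l) := fun m hm c hc =>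
    map_mem_closure (continuous_const_mul m) hc fun g hg => big_M hm hg
  have hn : ∀ i, ∀ c ∈ closure (Big b F l), gn b F i * c ∈ closure (Big b F l) := by
    intro i c hc
    have h1 := map_mem_closure (continuous_const_mul (gn b F i)) hc fun g hg => big_cl hl i hg
    rw [closure_closure] at h1
    exact h1
  have key : ∀ h ∈ Subgroup.closure ((gU b F : Set (GF b F)) ∪ Set.range (gn b F)),
      (∀ c ∈ closure (Big b F l), h * c ∈ closure (Big b F l)) ∧ ∀ c ∈ closure (Big b F l), h⁻¹ * c ∈ closure (Big b F l) := by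
    intro h hh
    induction hh using Subgroup.closure_induction with
    | mem x hx =>
      rcases hx with hx | ⟨i, rfl⟩
      · exact ⟨hU x hx, hU x⁻¹ (inv_mem hx)⟩
      · refine ⟨hn i, fun c hc => ?_⟩
        have h1 : (gn b F i)⁻¹ * c = (gn b F i * gn b F i)⁻¹ * (gn b F i * c) := by group
        rw [h1]
        exact hM _ (inv_mem (gn_sq i)) _ (hn i c hc)
    | one =>
      rw [inv_one]
      refine ⟨fun c hc => ?_, fun c hc => ?_⟩ <;> rwa [one_mul]
    | mul x y _ _ hx hy =>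
      refine ⟨fun c hc => ?_, fun c hc => ?_⟩
      · rw [mul_assoc]
        exact hx.1 _ (hy.1 c hc)
      · rw [_root_.mul_inv_rev, mul_assoc]
        exact hy.2 _ (hx.2 c hc)
    | inv x _ hx =>
      refine ⟨hx.2, fun c hc => ?_⟩
      rw [inv_inv]
      exact hx.1 c hc
  have h0 : gnl b F l ∈ closure (Big b F l) := subset_closure ⟨1, one_mem _, 0, 1, one_mem _, 1, one_mem _, by
    rw [gex_zero]
    group⟩
  intro g
  have h1 := map_mem_closure (continuous_mul_const (gnl b F l)) (gF_dense (b := b) (F := F) (g * (gnl b F l)⁻¹)) fun h hh => (key h hh).1 _ h0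
  rw [closure_closure, inv_mul_cancel_right] at h1
  exact h1

/-- **The easy half of Kostant's inequality.**
PROOF: for `g = u ex(y) m n u' ∈ Big`: `gH g = y + gH(n u')` (`gH_U`, `gH_ex`, `gH_M`), `gH(g ex Z) = y + gH(n ex(Z) u'_Z) = y + w Z + gH(n u'_Z)`, `u'_Z = ex(-Z) u' ex(Z)` (`gnl_gex`), and `gH(n u')_j ≤ gH(n u'_Z)_j` (`g_mono` for `-Z`, which is antidominant). So `(w Z)_j + gH(g)_j ≤ gH(g ex Z)_j` on a dense set, hence
everywhere (`gH_cont`, `isClosed_le`, `Dense`). For `g = k`: `gH k = 0` (`gH_K`, `gH_one`). -/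
theorem g_kos1 {l : List b.support} (hl : ∀ i : b.support, b.height (wL b l (i : ι)) < 0) {Z : b.support → ℝ} (hZ : ∀ i, 0 ≤ al (cA b) i Z) {k : GF b F} (hk : k ∈ gK b F) (j : b.support) :
    wl (cA b) l Z j ≤ gH b F (k * gex b F Z) j := by
  have hc1 : Continuous fun g : GF b F => wl (cA b) l Z j + gH b F g j := continuous_const.add ((continuous_apply j).comp gH_cont)
  have hc2 : Continuous fun g : GF b F => gH b F (g * gex b F Z) j := (continuous_apply j).comp (gH_cont.comp (continuous_mul_const _))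
  have hcl : IsClosed {g : GF b F | wl (cA b) l Z j + gH b F g j ≤ gH b F (g * gex b F Z) j} := isClosed_le hc1 hc2
  have hsub : Big b F l ⊆ {g : GF b F | wl (cA b) l Z j + gH b F g j ≤ gH b F (g * gex b F Z) j} := by
    rintro g ⟨u, hu, y, m, hm, u', hu', rfl⟩
    show wl (cA b) l Z j + gH b F (u * gex b F y * m * gnl b F l * u') j ≤ gH b F (u * gex b F y * m * gnl b F l * u' * gex b F Z) j
    have e1 : u * gex b F y * m * gnl b F l * u' = u * (gex b F y * (m * (gnl b F l * u'))) := by group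
    have e2 : u * gex b F y * m * gnl b F l * u' * gex b F Z = u * (gex b F y * (m * (gex b F (wl (cA b) l Z) * (gnl b F l * (gex b F (-Z) * u' * (gex b F (-Z))⁻¹))))) := by
      rw [← gnl_gex, gex_neg]
      group
    have h1 := g_mono (b := b) (F := F) l (y := -Z) (fun i => by
      have h2 : al (cA b) i (-Z) = -al (cA b) i Z := by
        unfold al
        rw [← Finset.sum_neg_distrib]
        exact Finset.sum_congr rfl fun k _ => by rw [Pi.neg_apply, mul_neg]
      rw [h2]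
      exact neg_nonpos.2 (hZ i)) hu' j
    rw [e2, e1, gH_U hu, gH_U hu, gH_ex, gH_ex, gH_M hm, gH_M hm, gH_ex]
    simp only [Pi.add_apply]
    linarith
  have h3 : k ∈ {g : GF b F | wl (cA b) l Z j + gH b F g j ≤ gH b F (g * gex b F Z) j} := by
    have h4 := closure_minimal hsub hcl
    exact h4 (big_dense hl k)
  have h5 : gH b F k = 0 := by
    have h6 := gH_K hk (1 : GF b F)
    rw [one_mul, gH_one] at h6
    exact h6
  have h7 : wl (cA b) l Z j + gH b F k j ≤ gH b F (k * gex b F Z) j := h3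
  rw [h5] at h7
  simpa using h7

/-- PROOF: `h = gH(k ex Z)`, `k ex Z = u ex(h) k'` (`g_dec`), so `k' ex(-Z) = ex(-h) u⁻¹ k` up to the order: `k' ex(-Z) = (ex(-h) u⁻¹ ex(h)) ex(-h) k` has `gH = -h`. With `Z₁ = wl l.reverse Z`, `wl l Z₁ = Z` (`wl_reverse`): `n ex(-Z₁) n⁻¹ = ex(-Z)` (`gnl_gex`), so `gH(k' n ex(-Z₁)) = gH(k' ex(-Z) n) = -h`. `-Z₁` is dominant:
`al i (-Z₁) = -pry Z₁ (inr i) = -pry Z (inr (w α_i)) ≥ 0` (`pry_simple`, `pry_wl`, `pry_dom` for the positive root `-w α_i`). `g_kos1` for `-Z₁` and `k' n ∈ K`: `(w (-Z₁))_j = -Z_j ≤ -h_j`. -/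
theorem g_kos2 {l : List b.support} (hl : ∀ i : b.support, b.height (wL b l (i : ι)) < 0) {Z : b.support → ℝ} (hZ : ∀ i, 0 ≤ al (cA b) i Z) {k : GF b F} (hk : k ∈ gK b F) (j : b.support) :
    gH b F (k * gex b F Z) j ≤ Z j := by
  have hwneg : ∀ (l : List b.support) (y : b.support → ℝ), wl (cA b) l (-y) = -wl (cA b) l y := by
    intro l y
    induction l with
    | nil => rfl
    | cons i l ih =>
      show sr (cA b) i (wl (cA b) l (-y)) = -sr (cA b) i (wl (cA b) l y)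
      rw [ih]
      have h2 : al (cA b) i (-wl (cA b) l y) = -al (cA b) i (wl (cA b) l y) := by
        unfold al
        rw [← Finset.sum_neg_distrib]
        exact Finset.sum_congr rfl fun k _ => by rw [Pi.neg_apply, mul_neg]
      unfold sr
      rw [h2, neg_smul]
      abel
  obtain ⟨u, hu, k', hk', e1⟩ := g_dec (b := b) (F := F) (k * gex b F Z)
  obtain ⟨h, hh⟩ : ∃ h, h = gH b F (k * gex b F Z) := ⟨_, rfl⟩
  rw [← hh] at e1 ⊢
  have hk0 : gH b F k = 0 := by
    have h6 := gH_K hk (1 : GF b F)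
    rw [one_mul, gH_one] at h6
    exact h6
  have h1 : gH b F (k' * gex b F (-Z)) = -h := by
    have e2 : k' * gex b F (-Z) = gex b F (-h) * (u⁻¹ * k) := by
      have e3 : k' = (gex b F h)⁻¹ * u⁻¹ * (k * gex b F Z) := by
        rw [e1]
        group
      rw [e3, gex_neg, gex_neg]
      group
    rw [e2, gH_ex, gH_U (inv_mem hu), hk0, add_zero]
  obtain ⟨Z1, hZ1⟩ : ∃ Z1, Z1 = wl (cA b) l.reverse Z := ⟨_, rfl⟩
  have hw1 : wl (cA b) l Z1 = Z := by
    rw [hZ1]
    exact wl_reverse l Z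
  have h2 : gH b F (k' * gnl b F l * gex b F (-Z1)) = -h := by
    have e4 : k' * gnl b F l * gex b F (-Z1) = k' * gex b F (-Z) * gnl b F l := by
      have e5 := gnl_gex (b := b) (F := F) l (-Z1)
      rw [hwneg, hw1] at e5
      rw [← e5]
      group
    rw [e4, gH_K (gnl_K l), h1]
  have h3 : ∀ i, 0 ≤ al (cA b) i (-Z1) := by
    intro i
    have e6 : al (cA b) i (-Z1) = -al (cA b) i Z1 := by
      unfold al
      rw [← Finset.sum_neg_distrib]
      exact Finset.sum_congr rfl fun k _ => by rw [Pi.neg_apply, mul_neg]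
    have e7 := pry_wl l Z1 (i : ι)
    rw [hw1, ig19b_al] at e7
    have e8 := pry_dom hZ (β := ng P (wL b l (i : ι))) (by
      rw [ig19b_htng]
      have := hl i
      omega)
    rw [ig19b_ng, e7] at e8
    rw [e6]
    exact e8
  have h4 := g_kos1 (b := b) (F := F) hl h3 (mul_mem hk' (gnl_K l)) j
  rw [h2, hwneg, hw1, Pi.neg_apply, Pi.neg_apply] at h4
  linarith

end

end Pool.Agent.Lib.L8
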