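import Pool.Agent.Lib.L8.IG2

/-! # L8, module I, chunk IG3: `S e_i = f_iᵀ S` -/

namespace Pool.Agent.Lib.L8

open Matrix Pool.Agent.Lib.L1S

noncomputable section

set_option linter.unusedSectionVars false

variable {ι M N : Type} [Fintype ι] [DecidableEq ι] [AddCommGroup M] [Module ℚ M] [AddCommGroup N] [Module ℚ N]
  {P : RootPairing ι ℚ M N} [P.IsCrystallographic] [P.IsReduced] [P.IsIrreducible] [P.IsRootSystem]

theorem ig3_C (b : P.Base) (i k : b.support) :
    lenq P i * |((b.cartanMatrix i k : ℤ) : ℚ)| = lenq P k * |((b.cartanMatrix k i : ℤ) : ℚ)| := by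
  have h := lenq_pair (P := P) (i : ι) (k : ι)
  have h1 : lenq P (i : ι) * |((P.pairingIn ℤ (i : ι) (k : ι) : ℤ) : ℚ)| =
      |lenq P (i : ι) * ((P.pairingIn ℤ (i : ι) (k : ι) : ℤ) : ℚ)| := by
    rw [abs_mul, abs_of_pos (lenq_pos (P := P) (i : ι))]
  have h2 : lenq P (k : ι) * |((P.pairingIn ℤ (k : ι) (i : ι) : ℤ) : ℚ)| =
      |lenq P (k : ι) * ((P.pairingIn ℤ (k : ι) (i : ι) : ℤ) : ℚ)| := by
    rw [abs_mul, abs_of_pos (lenq_pos (P := P) (k : ι))]
  show lenq P (i : ι) * |((P.pairingIn ℤ (i : ι) (k : ι) : ℤ) : ℚ)| =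
    lenq P (k : ι) * |((P.pairingIn ℤ (k : ι) (i : ι) : ℤ) : ℚ)|
  rw [h1, h2, h]

/-- PROOF: `lenq_pair`, `b.cartanMatrix i k = P.pairingIn ℤ i k` (`rfl` or `cartanMatrix_def`), absolute values (`abs_mul`, `lenq_pos`). -/
theorem SQ_symm (b : P.Base) : (SQ b)ᵀ = SQ b := by
  ext r c
  rcases r with k | β
  · rcases c with l | γ
    · show lenq P (l : ι) * |((b.cartanMatrix l k : ℤ) : ℚ)| =
        lenq P (k : ι) * |((b.cartanMatrix k l : ℤ) : ℚ)|
      exact ig3_C b l k
    · rfl
  · rcases c with l | γ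
    · rfl
    · show Matrix.diagonal (lenq P) γ β = Matrix.diagonal (lenq P) β γ
      rw [Matrix.diagonal_apply, Matrix.diagonal_apply]
      by_cases h : γ = β
      · subst h
        rfl
      · rw [if_neg h, if_neg (fun h' => h h'.symm)]

/-- `S e_i = f_iᵀ S`.
PROOF: entry `(r, c)`, four cases (`Sum.inl` / `Sum.inr`), definitions of `eZ`, `fZ` in L1S/L10, `Matrix.mul_apply`, `Fintype.sum_sum_type`.
`(inl k, inl l)`: both sides `0` . `(inl k, inr β)`: `S e = B k i [β = -i]`, `fᵀ S = [β = -i] |C i k| lenq (-i)`, `B k i = lenq k |C k i| = lenq i |C i k|` (`SQ_symm`), `lenq (-i) = lenq i` (`lenq_refl`).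
`(inr β, inl k)`: `S e = lenq β [β = i] |C i k|`, `fᵀ S = [β = i] B i k`. `(inr β, inr γ)`: `S e = lenq β [β = i + γ] (chainBot i γ + 1)`, `fᵀ S = [γ = β - i] (chainTop i β + 1) lenq γ`: `ig_len`. -/
theorem SQ_e (b : P.Base) (i : b.support) : SQ b * toA ℚ (eZ b i) = (toA ℚ (fZ b i))ᵀ * SQ b := by
  classical
  ext r c
  rw [Matrix.mul_apply, Matrix.mul_apply, Fintype.sum_sum_type, Fintype.sum_sum_type]
  rcases r with k | β
  · rcases c with l | γ
    · have h1 : ∀ j : b.support, SQ b (Sum.inl k) (Sum.inl j) * toA ℚ (eZ b i) (Sum.inl j) (Sum.inl l) = 0 := by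
        intro j
        have : toA ℚ (eZ b i) (Sum.inl j) (Sum.inl l) = 0 := by
          simp [toA, eZ]
        rw [this, mul_zero]
      have h2 : ∀ δ : ι, SQ b (Sum.inl k) (Sum.inr δ) * toA ℚ (eZ b i) (Sum.inr δ) (Sum.inl l) = 0 := by
        intro δ
        have : SQ b (Sum.inl k) (Sum.inr δ) = 0 := rfl
        rw [this, zero_mul]
      have h3 : ∀ j : b.support, (toA ℚ (fZ b i))ᵀ (Sum.inl k) (Sum.inl j) * SQ b (Sum.inl j) (Sum.inl l) = 0 := by
        intro j
        have : (toA ℚ (fZ b i))ᵀ (Sum.inl k) (Sum.inl j) = 0 := by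
          simp [toA, fZ]
        rw [this, zero_mul]
      have h4 : ∀ δ : ι, (toA ℚ (fZ b i))ᵀ (Sum.inl k) (Sum.inr δ) * SQ b (Sum.inr δ) (Sum.inl l) = 0 := by
        intro δ
        have : SQ b (Sum.inr δ) (Sum.inl l) = 0 := rfl
        rw [this, mul_zero]
      simp only [h1, h2, h3, h4, Finset.sum_const_zero]
    · -- (inl k, inr γ)
      have h2 : ∀ δ : ι, SQ b (Sum.inl k) (Sum.inr δ) * toA ℚ (eZ b i) (Sum.inr δ) (Sum.inr γ) = 0 := by
        intro δ
        have : SQ b (Sum.inl k) (Sum.inr δ) = 0 := rfl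
        rw [this, zero_mul]
      have h3 : ∀ j : b.support, (toA ℚ (fZ b i))ᵀ (Sum.inl k) (Sum.inl j) * SQ b (Sum.inl j) (Sum.inr γ) = 0 := by
        intro j
        have : SQ b (Sum.inl j) (Sum.inr γ) = 0 := rfl
        rw [this, mul_zero]
      have h1 : ∀ j : b.support, SQ b (Sum.inl k) (Sum.inl j) * toA ℚ (eZ b i) (Sum.inl j) (Sum.inr γ) =
          if j = i then (if γ = ng P i then lenq P (k : ι) * |((b.cartanMatrix k i : ℤ) : ℚ)| else 0) else 0 := by
        intro j
        have e1 : SQ b (Sum.inl k) (Sum.inl j) = lenq P (k : ι) * |((b.cartanMatrix k j : ℤ) : ℚ)| := rfl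
        have e2 : toA ℚ (eZ b i) (Sum.inl j) (Sum.inr γ) =
            (((if j = i ∧ γ = ng P i then 1 else 0 : ℤ)) : ℚ) := rfl
        rw [e1, e2]
        by_cases hj : j = i
        · subst hj
          by_cases hγ : γ = ng P j
          · simp [hγ]
          · simp [hγ]
        · simp [hj]
      have h4 : ∀ δ : ι, (toA ℚ (fZ b i))ᵀ (Sum.inl k) (Sum.inr δ) * SQ b (Sum.inr δ) (Sum.inr γ) =
          if δ = γ then (if γ = ng P i then |((b.cartanMatrix i k : ℤ) : ℚ)| * lenq P γ else 0) else 0 := by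
        intro δ
        have e1 : SQ b (Sum.inr δ) (Sum.inr γ) = Matrix.diagonal (lenq P) δ γ := rfl
        have e2 : (toA ℚ (fZ b i))ᵀ (Sum.inl k) (Sum.inr δ) =
            (((if δ = ng P i then |b.cartanMatrix i k| else 0 : ℤ)) : ℚ) := rfl
        rw [e1, e2, Matrix.diagonal_apply]
        by_cases hδ : δ = γ
        · subst hδ
          by_cases hγ : δ = ng P i
          · rw [if_pos rfl, if_pos rfl, if_pos hγ, if_pos hγ, Int.cast_abs]
          · rw [if_pos rfl, if_pos rfl, if_neg hγ, if_neg hγ, Int.cast_zero, zero_mul]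
        · rw [if_neg hδ, if_neg hδ, mul_zero]
      simp only [h1, h2, h3, h4, Finset.sum_const_zero, add_zero, zero_add, Finset.sum_ite_eq',
        Finset.mem_univ, if_true]
      by_cases hγ : γ = ng P i
      · rw [if_pos hγ, if_pos hγ, hγ]
        have e3 : lenq P (ng P (i : ι)) = lenq P (i : ι) := lenq_refl (P := P) (i : ι) (i : ι)
        rw [e3, ig3_C b k i, mul_comm]
      · rw [if_neg hγ, if_neg hγ]
  · rcases c with l | γ
    · -- (inr β, inl l)
      have h1 : ∀ j : b.support, SQ b (Sum.inr β) (Sum.inl j) * toA ℚ (eZ b i) (Sum.inl j) (Sum.inl l) = 0 := by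
        intro j
        have : SQ b (Sum.inr β) (Sum.inl j) = 0 := rfl
        rw [this, zero_mul]
      have h4 : ∀ δ : ι, (toA ℚ (fZ b i))ᵀ (Sum.inr β) (Sum.inr δ) * SQ b (Sum.inr δ) (Sum.inl l) = 0 := by
        intro δ
        have : SQ b (Sum.inr δ) (Sum.inl l) = 0 := rfl
        rw [this, mul_zero]
      have h2 : ∀ δ : ι, SQ b (Sum.inr β) (Sum.inr δ) * toA ℚ (eZ b i) (Sum.inr δ) (Sum.inl l) =
          if β = δ then (if β = i then lenq P β * |((b.cartanMatrix i l : ℤ) : ℚ)| else 0) else 0 := by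
        intro δ
        have e1 : SQ b (Sum.inr β) (Sum.inr δ) = Matrix.diagonal (lenq P) β δ := rfl
        have e2 : toA ℚ (eZ b i) (Sum.inr δ) (Sum.inl l) =
            (((if δ = i then |b.cartanMatrix i l| else 0 : ℤ)) : ℚ) := rfl
        rw [e1, e2, Matrix.diagonal_apply]
        by_cases hδ : β = δ
        · subst hδ
          by_cases hγ : β = i
          · rw [if_pos rfl, if_pos rfl, if_pos hγ, if_pos hγ, Int.cast_abs]
          · rw [if_pos rfl, if_pos rfl, if_neg hγ, if_neg hγ, Int.cast_zero, mul_zero]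
        · rw [if_neg hδ, if_neg hδ, zero_mul]
      have h3 : ∀ j : b.support, (toA ℚ (fZ b i))ᵀ (Sum.inr β) (Sum.inl j) * SQ b (Sum.inl j) (Sum.inl l) =
          if j = i then (if β = i then lenq P (i : ι) * |((b.cartanMatrix i l : ℤ) : ℚ)| else 0) else 0 := by
        intro j
        have e1 : SQ b (Sum.inl j) (Sum.inl l) = lenq P (j : ι) * |((b.cartanMatrix j l : ℤ) : ℚ)| := rfl
        have e2 : (toA ℚ (fZ b i))ᵀ (Sum.inr β) (Sum.inl j) =
            (((if j = i ∧ β = i then 1 else 0 : ℤ)) : ℚ) := rfl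
        rw [e1, e2]
        by_cases hj : j = i
        · subst hj
          by_cases hγ : β = j
          · simp [hγ]
          · simp [hγ]
        · simp [hj]
      simp only [h1, h2, h3, h4, Finset.sum_const_zero, add_zero, zero_add, Finset.sum_ite_eq',
        Finset.sum_ite_eq, Finset.mem_univ, if_true]
      by_cases hβ : β = i
      · rw [if_pos hβ, if_pos hβ, hβ]
      · rw [if_neg hβ, if_neg hβ]
    · -- (inr β, inr γ)
      have h1 : ∀ j : b.support, SQ b (Sum.inr β) (Sum.inl j) * toA ℚ (eZ b i) (Sum.inl j) (Sum.inr γ) = 0 := by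
        intro j
        have : SQ b (Sum.inr β) (Sum.inl j) = 0 := rfl
        rw [this, zero_mul]
      have h3 : ∀ j : b.support, (toA ℚ (fZ b i))ᵀ (Sum.inr β) (Sum.inl j) * SQ b (Sum.inl j) (Sum.inr γ) = 0 := by
        intro j
        have : SQ b (Sum.inl j) (Sum.inr γ) = 0 := rfl
        rw [this, mul_zero]
      have h2 : ∀ δ : ι, SQ b (Sum.inr β) (Sum.inr δ) * toA ℚ (eZ b i) (Sum.inr δ) (Sum.inr γ) =
          if β = δ then (if P.root β = P.root i + P.root γ then lenq P β * ((P.chainBotCoeff i γ : ℚ) + 1) else 0) else 0 := by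
        intro δ
        have e1 : SQ b (Sum.inr β) (Sum.inr δ) = Matrix.diagonal (lenq P) β δ := rfl
        have e2 : toA ℚ (eZ b i) (Sum.inr δ) (Sum.inr γ) =
            (((if P.root δ = P.root i + P.root γ then (P.chainBotCoeff i γ + 1 : ℤ) else 0 : ℤ)) : ℚ) := rfl
        rw [e1, e2, Matrix.diagonal_apply]
        by_cases hδ : β = δ
        · subst hδ
          by_cases hγ : P.root β = P.root i + P.root γ
          · rw [if_pos rfl, if_pos rfl, if_pos hγ, if_pos hγ]
            push_cast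
            rfl
          · rw [if_pos rfl, if_pos rfl, if_neg hγ, if_neg hγ, Int.cast_zero, mul_zero]
        · rw [if_neg hδ, if_neg hδ, zero_mul]
      have h4 : ∀ δ : ι, (toA ℚ (fZ b i))ᵀ (Sum.inr β) (Sum.inr δ) * SQ b (Sum.inr δ) (Sum.inr γ) =
          if δ = γ then (if P.root β = P.root i + P.root γ then ((P.chainTopCoeff i β : ℚ) + 1) * lenq P γ else 0) else 0 := by
        intro δ
        have e1 : SQ b (Sum.inr δ) (Sum.inr γ) = Matrix.diagonal (lenq P) δ γ := rfl
        have e2 : (toA ℚ (fZ b i))ᵀ (Sum.inr β) (Sum.inr δ) =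
            (((if P.root δ = P.root β - P.root i then (P.chainTopCoeff i β + 1 : ℤ) else 0 : ℤ)) : ℚ) := rfl
        rw [e1, e2, Matrix.diagonal_apply]
        by_cases hδ : δ = γ
        · subst hδ
          by_cases hγ : P.root β = P.root i + P.root δ
          · have hγ' : P.root δ = P.root β - P.root i := by rw [hγ, add_sub_cancel_left]
            rw [if_pos rfl, if_pos rfl, if_pos hγ, if_pos hγ']
            push_cast
            rfl
          · have hγ' : ¬ P.root δ = P.root β - P.root i := fun h => hγ (by rw [h, add_sub_cancel])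
            rw [if_pos rfl, if_pos rfl, if_neg hγ, if_neg hγ', Int.cast_zero, zero_mul]
        · rw [if_neg hδ, if_neg hδ, mul_zero]
      simp only [h1, h2, h3, h4, Finset.sum_const_zero, add_zero, zero_add, Finset.sum_ite_eq',
        Finset.sum_ite_eq, Finset.mem_univ, if_true]
      by_cases hβ : P.root β = P.root i + P.root γ
      · rw [if_pos hβ, if_pos hβ, ig_len hβ, mul_comm]
      · rw [if_neg hβ, if_neg hβ]

/-- PROOF: transpose of `SQ_e`. -/
theorem SQ_f (b : P.Base) (i : b.support) : SQ b * toA ℚ (fZ b i) = (toA ℚ (eZ b i))ᵀ * SQ b := by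
  have h := congrArg Matrix.transpose (SQ_e b i)
  rw [Matrix.transpose_mul, Matrix.transpose_mul, Matrix.transpose_transpose, SQ_symm] at h
  exact h.symm

end

end Pool.Agent.Lib.L8
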