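import Pool.Agent.Lib.L8.IG3

/-! # L8, module I, chunk IG4: the form is positive definite -/

namespace Pool.Agent.Lib.L8

open Matrix Pool.Agent.Lib.L1S

noncomputable section

set_option linter.unusedSectionVars false

variable {ι M N : Type} [Fintype ι] [DecidableEq ι] [AddCommGroup M] [Module ℚ M] [AddCommGroup N] [Module ℚ N]
  {P : RootPairing ι ℚ M N} [P.IsCrystallographic] [P.IsReduced] [P.IsIrreducible] [P.IsRootSystem]

theorem ig4_cor (a c : ι) : P.coroot' c (P.root a) = ((P.pairingIn ℤ a c : ℤ) : ℚ) := by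
  rw [P.root_coroot'_eq_pairing, ← P.algebraMap_pairingIn ℤ]
  rfl

/-- `lenq i * C i k = 2 * lenq i * lenq k * ∑_β ⟨α_i, β^∨⟩ ⟨α_k, β^∨⟩`. -/
theorem ig4_C (b : P.Base) (i k : b.support) : lenq P i * ((b.cartanMatrix i k : ℤ) : ℚ) =
    2 * (lenq P i * lenq P k * ∑ β : ι, ((P.pairingIn ℤ i β : ℤ) : ℚ) * ((P.pairingIn ℤ k β : ℤ) : ℚ)) := by
  have h1 := two_form (P := P) (k : ι) (P.root i)
  have h2 : P.coroot' (k : ι) (P.root i) = ((b.cartanMatrix i k : ℤ) : ℚ) := ig4_cor _ _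
  rw [h2, P.rootForm_apply_apply] at h1
  have h3 : P.RootForm (P.root k) (P.root k) ≠ 0 := (form_pos (P.ne_zero (k : ι))).ne'
  have h4 : ((b.cartanMatrix i k : ℤ) : ℚ) = 2 * (∑ β : ι, ((P.pairingIn ℤ i β : ℤ) : ℚ) *
      ((P.pairingIn ℤ k β : ℤ) : ℚ)) * lenq P k := by
    have h5 : ∑ β : ι, P.coroot' β (P.root i) * P.coroot' β (P.root k) =
        ∑ β : ι, ((P.pairingIn ℤ i β : ℤ) : ℚ) * ((P.pairingIn ℤ k β : ℤ) : ℚ) :=
      Finset.sum_congr rfl fun β _ => by rw [ig4_cor, ig4_cor]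
    rw [← h5, h1]
    unfold lenq
    rw [mul_assoc, mul_inv_cancel₀ h3, mul_one]
  rw [h4]
  ring

/-- The Cartan form is a sum of squares. -/
theorem ig4_sq (b : P.Base) (z : b.support → ℝ) :
    ∑ i, ∑ k, z i * ((lenq P i : ℝ) * ((b.cartanMatrix i k : ℤ) : ℝ)) * z k =
      2 * ∑ β : ι, (∑ i : b.support, z i * (lenq P i : ℝ) * ((P.pairingIn ℤ i β : ℤ) : ℝ)) ^ 2 := by
  have h1 : ∀ i k : b.support, (lenq P i : ℝ) * ((b.cartanMatrix i k : ℤ) : ℝ) =
      2 * ((lenq P i : ℝ) * (lenq P k : ℝ) * ∑ β : ι, ((P.pairingIn ℤ i β : ℤ) : ℝ) *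
        ((P.pairingIn ℤ k β : ℤ) : ℝ)) := by
    intro i k
    have := congrArg (fun q : ℚ => (q : ℝ)) (ig4_C b i k)
    push_cast at this
    exact this
  simp only [h1]
  have h2 : ∀ β : ι, (∑ i : b.support, z i * (lenq P i : ℝ) * ((P.pairingIn ℤ i β : ℤ) : ℝ)) ^ 2 =
      ∑ i : b.support, ∑ k : b.support, (z i * (lenq P i : ℝ) * ((P.pairingIn ℤ i β : ℤ) : ℝ)) *
        (z k * (lenq P k : ℝ) * ((P.pairingIn ℤ k β : ℤ) : ℝ)) := by
    intro β
    rw [sq, Finset.sum_mul_sum]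
  simp only [h2]
  rw [Finset.sum_comm (s := (Finset.univ : Finset ι)), Finset.mul_sum]
  refine Finset.sum_congr rfl fun i _ => ?_
  rw [Finset.sum_comm (s := (Finset.univ : Finset ι)), Finset.mul_sum]
  refine Finset.sum_congr rfl fun k _ => ?_
  rw [Finset.mul_sum, Finset.mul_sum, Finset.mul_sum, Finset.sum_mul, Finset.mul_sum]
  refine Finset.sum_congr rfl fun β _ => ?_
  ring

theorem ig4_len (β : ι) : (0 : ℝ) < (lenq P β : ℝ) := by exact_mod_cast lenq_pos β

/-- The Cartan form is definite. -/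
theorem ig4_def (b : P.Base) (z : b.support → ℝ) (hz : z ≠ 0) :
    0 < ∑ i, ∑ k, z i * ((lenq P i : ℝ) * ((b.cartanMatrix i k : ℤ) : ℝ)) * z k := by
  rw [ig4_sq]
  have h0 : 0 ≤ ∑ β : ι, (∑ i : b.support, z i * (lenq P i : ℝ) * ((P.pairingIn ℤ i β : ℤ) : ℝ)) ^ 2 :=
    Finset.sum_nonneg fun β _ => sq_nonneg _
  refine mul_pos two_pos (lt_of_le_of_ne h0 fun h1 => hz ?_)
  have h2 := (Finset.sum_eq_zero_iff_of_nonneg fun β _ => sq_nonneg _).1 h1.symm
  obtain ⟨w, hw⟩ : ∃ w : b.support → ℝ, w = fun i => z i * (lenq P i : ℝ) := ⟨_, rfl⟩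
  have h3 : w ᵥ* (b.cartanMatrix.map (fun n : ℤ => (n : ℝ))) = 0 := by
    funext k
    have h4 := h2 (k : ι) (Finset.mem_univ _)
    have h5 := pow_eq_zero_iff two_ne_zero |>.1 h4
    rw [Matrix.vecMul, dotProduct, Pi.zero_apply, ← h5, hw]
    rfl
  have hdet : b.cartanMatrix.det ≠ 0 := by
    have := b.cartanMatrix_nondegenerate
    exact Matrix.nondegenerate_iff_det_ne_zero.1 this
  have hdet2 : (b.cartanMatrix.map (fun n : ℤ => (n : ℝ))).det ≠ 0 := by
    have h6 : (b.cartanMatrix.map (fun n : ℤ => (n : ℝ))).det = ((b.cartanMatrix.det : ℤ) : ℝ) := by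
      have := (Int.castRingHom ℝ).map_det b.cartanMatrix
      exact this.symm
    rw [h6]
    exact_mod_cast hdet
  have h7 : w = 0 := Matrix.eq_zero_of_vecMul_eq_zero hdet2 h3
  funext i
  have h8 := congrFun h7 i
  rw [hw] at h8
  exact (mul_eq_zero.1 h8).resolve_right (ig4_len _).ne'

/-- The form in coordinates. -/
theorem ig4_form (b : P.Base) (x : I b → ℝ) : x ⬝ᵥ (((SQ b).map (fun q : ℚ => (q : ℝ))) *ᵥ x) =
    ∑ i : b.support, ∑ k : b.support, x (Sum.inl i) * ((lenq P i : ℝ) * |((b.cartanMatrix i k : ℤ) : ℝ)|) *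
      x (Sum.inl k) + ∑ β : ι, (lenq P β : ℝ) * x (Sum.inr β) ^ 2 := by
  rw [dotProduct, Fintype.sum_sum_type]
  congr 1
  · refine Finset.sum_congr rfl fun i _ => ?_
    rw [Matrix.mulVec, dotProduct, Fintype.sum_sum_type]
    have h1 : ∑ β : ι, ((SQ b).map (fun q : ℚ => (q : ℝ))) (Sum.inl i) (Sum.inr β) * x (Sum.inr β) = 0 := by
      refine Finset.sum_eq_zero fun β _ => ?_
      have : ((SQ b).map (fun q : ℚ => (q : ℝ))) (Sum.inl i) (Sum.inr β) = ((0 : ℚ) : ℝ) := rfl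
      rw [this, Rat.cast_zero, zero_mul]
    rw [h1, add_zero, Finset.mul_sum]
    refine Finset.sum_congr rfl fun k _ => ?_
    have h2 : ((SQ b).map (fun q : ℚ => (q : ℝ))) (Sum.inl i) (Sum.inl k) =
        ((lenq P i * |((b.cartanMatrix i k : ℤ) : ℚ)| : ℚ) : ℝ) := rfl
    rw [h2]
    push_cast
    ring
  · refine Finset.sum_congr rfl fun β _ => ?_
    rw [Matrix.mulVec, dotProduct, Fintype.sum_sum_type]
    have h1 : ∑ k : b.support, ((SQ b).map (fun q : ℚ => (q : ℝ))) (Sum.inr β) (Sum.inl k) * x (Sum.inl k) = 0 := by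
      refine Finset.sum_eq_zero fun k _ => ?_
      have : ((SQ b).map (fun q : ℚ => (q : ℝ))) (Sum.inr β) (Sum.inl k) = ((0 : ℚ) : ℝ) := rfl
      rw [this, Rat.cast_zero, zero_mul]
    rw [h1, zero_add, Finset.sum_eq_single β]
    · have h2 : ((SQ b).map (fun q : ℚ => (q : ℝ))) (Sum.inr β) (Sum.inr β) =
          (((Matrix.diagonal (lenq P)) β β : ℚ) : ℝ) := rfl
      rw [h2, Matrix.diagonal_apply_eq]
      ring
    · intro γ _ hγ
      have h2 : ((SQ b).map (fun q : ℚ => (q : ℝ))) (Sum.inr β) (Sum.inr γ) =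
          (((Matrix.diagonal (lenq P)) β γ : ℚ) : ℝ) := rfl
      rw [h2, Matrix.diagonal_apply_ne _ hγ.symm, Rat.cast_zero, zero_mul]
    · intro h
      exact absurd (Finset.mem_univ β) h

/-- Positivity. -/
theorem ig4_pos (b : P.Base) (x : I b → ℝ) (hx : x ≠ 0) :
    0 < x ⬝ᵥ (((SQ b).map (fun q : ℚ => (q : ℝ))) *ᵥ x) := by
  rw [ig4_form]
  obtain ⟨z, hz⟩ : ∃ z : b.support → ℝ, z = fun i => |x (Sum.inl i)| := ⟨_, rfl⟩
  have h1 : ∑ i, ∑ k, z i * ((lenq P i : ℝ) * ((b.cartanMatrix i k : ℤ) : ℝ)) * z k ≤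
      ∑ i : b.support, ∑ k : b.support, x (Sum.inl i) * ((lenq P i : ℝ) * |((b.cartanMatrix i k : ℤ) : ℝ)|) *
        x (Sum.inl k) := by
    refine Finset.sum_le_sum fun i _ => Finset.sum_le_sum fun k _ => ?_
    have hl := ig4_len (P := P) (i : ι)
    rw [hz]
    simp only
    by_cases hik : i = k
    · subst hik
      rw [b.cartanMatrix_apply_same]
      have h2 : |x (Sum.inl i)| * |x (Sum.inl i)| = x (Sum.inl i) * x (Sum.inl i) := abs_mul_abs_self _
      have h3 : |(((2 : ℤ)) : ℝ)| = 2 := by norm_num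
      rw [h3]
      push_cast
      refine le_of_eq ?_
      linear_combination (2 * (lenq P i : ℝ)) * h2
    · have h2 : ((b.cartanMatrix i k : ℤ) : ℝ) ≤ 0 := by
        exact_mod_cast b.cartanMatrix_le_zero_of_ne i k hik
      rw [abs_of_nonpos h2]
      have h3 : -(|x (Sum.inl i)| * |x (Sum.inl k)|) ≤ x (Sum.inl i) * x (Sum.inl k) := by
        rw [← abs_mul]
        exact neg_abs_le _
      have h4 : 0 ≤ (lenq P i : ℝ) * -((b.cartanMatrix i k : ℤ) : ℝ) := by
        have : 0 ≤ -((b.cartanMatrix i k : ℤ) : ℝ) := by linarith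
        positivity
      have h5 := mul_le_mul_of_nonneg_right h3 h4
      linarith [h5]
  have h6 : 0 ≤ ∑ β : ι, (lenq P β : ℝ) * x (Sum.inr β) ^ 2 :=
    Finset.sum_nonneg fun β _ => mul_nonneg (ig4_len β).le (sq_nonneg _)
  by_cases hzz : z = 0
  · have h7 : ∃ β : ι, x (Sum.inr β) ≠ 0 := by
      by_contra hcon
      push Not at hcon
      apply hx
      funext r
      rcases r with i | β
      · have h8 := congrFun hzz i
        rw [hz] at h8
        exact abs_eq_zero.1 h8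
      · exact hcon β
    obtain ⟨β, hβ⟩ := h7
    have h9 : 0 < ∑ β : ι, (lenq P β : ℝ) * x (Sum.inr β) ^ 2 :=
      Finset.sum_pos' (fun β _ => mul_nonneg (ig4_len β).le (sq_nonneg _))
        ⟨β, Finset.mem_univ _, mul_pos (ig4_len β) (by positivity)⟩
    have h10 : ∑ i, ∑ k, z i * ((lenq P i : ℝ) * ((b.cartanMatrix i k : ℤ) : ℝ)) * z k = 0 := by
      rw [hzz]
      simp
    linarith
  · have h7 := ig4_def b z hzz
    linarith

/-- **The invariant form is positive definite.**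
PROOF: `xᵀ S x = ∑_β lenq β x_β² + ∑_(i, k) lenq i |C i k| x_i x_k`. First part `≥ 0`, `> 0` if some `x_β ≠ 0`. Second part: `C i i = 2`, `C i k ≤ 0` for `i ≠ k` (`b.cartanMatrix_le_zero_of_ne`), so it is `≥ ∑_(i, k) lenq i (C i k) |x_i| |x_k|` (compare the terms:
`i = k` equal, `i ≠ k`: `|C i k| x_i x_k ≥ -|C i k| |x_i| |x_k|`), and with `z_i = |x_i|`: `∑ lenq i (C i k) z_i z_k = 2 (v, v)`, `v = ∑ z_i lenq i α_i` over `ℝ`. To stay over `ℚ`: `lenq i * C i k = 2 (i, k) lenq i lenq k` (two_form). The real positive definiteness of the Gram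
matrix of a basis for a rational positive definite form: the symmetric rational matrix `G i k = (α_i, α_k)` has `xᵀ G x > 0` for rational `x ≠ 0` (`form_pos`); for real `x`: `xᵀ G x ≥ 0` by density, and `det G ≠ 0` (rational), so the real form is nondegenerate and
semidefinite, hence definite. (Alternative: `(v, v) = ∑_β ⟨v, β^∨⟩²` is by definition of `P.RootForm` a sum of squares of linear forms with rational coefficients, which separate the real vectors: `xᵀ G x = ∑_β (∑_i x_i ⟨α_i, β^∨⟩)²`, zero only if all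
`∑_i x_i ⟨α_i, α_k^∨⟩ = 0`, and the Cartan matrix is invertible: `cartanMatrix_nondegenerate`.) -/
theorem SQ_pos (b : P.Base) : ((SQ b).map (fun q : ℚ => (q : ℝ))).PosDef := by
  rw [Matrix.posDef_iff_dotProduct_mulVec]
  refine ⟨?_, fun x hx => ?_⟩
  · rw [Matrix.IsHermitian, Matrix.conjTranspose_eq_transpose_of_trivial, ← Matrix.transpose_map, SQ_symm]
  · rw [star_trivial]
    exact ig4_pos b x hx

/-- PROOF: `SQ_pos`, `det` of the map is the cast of the determinant. -/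
theorem SQ_det (b : P.Base) : (SQ b).det ≠ 0 := by
  intro h
  have h1 := (SQ_pos b).det_pos
  have h2 : ((SQ b).map (fun q : ℚ => (q : ℝ))).det = (((SQ b).det : ℚ) : ℝ) := by
    have := (Rat.castHom ℝ).map_det (SQ b)
    exact this.symm
  rw [h2, h, Rat.cast_zero] at h1
  exact lt_irrefl _ h1

variable (F : Type) [RCLike F]

/-- PROOF: `SQ_det`, `RingHom.map_det` for `algebraMap ℚ F`. -/
theorem SF_det (b : P.Base) : IsUnit (SF b F).det := by
  have h2 : (SF b F).det = (((SQ b).det : ℚ) : F) := by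
    have := (Rat.castHom F).map_det (SQ b)
    exact this.symm
  rw [h2, isUnit_iff_ne_zero]
  exact_mod_cast SQ_det b

/-- PROOF: real entries, `SQ_symm`. -/
theorem SF_herm (b : P.Base) : (SF b F)ᴴ = SF b F := by
  have h1 : (SF b F)ᴴ = ((SQ b)ᵀ).map fun q : ℚ => (q : F) := by
    ext r c
    show star (((SQ b) c r : ℚ) : F) = (((SQ b) c r : ℚ) : F)
    have := map_ratCast (starRingEnd F) ((SQ b) c r)
    exact this
  rw [h1, SQ_symm]
  rfl

/-- PROOF: `SQ_pos` for the real and the imaginary part of the vector (`F = ℝ` or `ℂ`: `x* S x = (Re x)ᵀ S Re x + (Im x)ᵀ S Im x`, the cross terms cancel by symmetry). -/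
theorem SF_pos (b : P.Base) (x : I b → F) (hx : x ≠ 0) : 0 < RCLike.re (star x ⬝ᵥ (SF b F *ᵥ x)) := by
  obtain ⟨u, hu⟩ : ∃ u : I b → ℝ, u = fun r => RCLike.re (x r) := ⟨_, rfl⟩
  obtain ⟨v, hv⟩ : ∃ v : I b → ℝ, v = fun r => RCLike.im (x r) := ⟨_, rfl⟩
  have h1 : RCLike.re (star x ⬝ᵥ (SF b F *ᵥ x)) =
      u ⬝ᵥ (((SQ b).map (fun q : ℚ => (q : ℝ))) *ᵥ u) + v ⬝ᵥ (((SQ b).map (fun q : ℚ => (q : ℝ))) *ᵥ v) := by
    simp only [dotProduct, Matrix.mulVec, map_sum, Finset.mul_sum, ← Finset.sum_add_distrib]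
    refine Finset.sum_congr rfl fun r _ => Finset.sum_congr rfl fun c _ => ?_
    have h2 : SF b F r c = ((((SQ b) r c : ℚ) : ℝ) : F) := by
      show (((SQ b) r c : ℚ) : F) = _
      push_cast
      rfl
    have h3 : ((SQ b).map (fun q : ℚ => (q : ℝ))) r c = (((SQ b) r c : ℚ) : ℝ) := rfl
    rw [h2, h3, hu, hv]
    simp only [Pi.star_apply, RCLike.star_def, RCLike.mul_re, RCLike.mul_im, RCLike.conj_re, RCLike.conj_im,
      RCLike.ofReal_re, RCLike.ofReal_im]
    ring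
  have h4 : u ≠ 0 ∨ v ≠ 0 := by
    by_contra hcon
    push Not at hcon
    apply hx
    funext r
    have h5 := congrFun hcon.1 r
    have h6 := congrFun hcon.2 r
    rw [hu] at h5
    rw [hv] at h6
    exact RCLike.ext (by simpa using h5) (by simpa using h6)
  have h7 : ∀ y : I b → ℝ, 0 ≤ y ⬝ᵥ (((SQ b).map (fun q : ℚ => (q : ℝ))) *ᵥ y) := by
    intro y
    by_cases hy : y = 0
    · rw [hy, zero_dotProduct]
    · exact (ig4_pos b y hy).le
  rw [h1]
  rcases h4 with h4 | h4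
  · have := ig4_pos b u h4
    linarith [h7 v]
  · have := ig4_pos b v h4
    linarith [h7 u]

end

end Pool.Agent.Lib.L8
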