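import Pool.Agent.Lib.L8.IG4

/-! # L8, module I, chunk IG4B: the form and the weight spaces -/

namespace Pool.Agent.Lib.L8

open Matrix Pool.Agent.Lib.L1S

noncomputable section

set_option linter.unusedSectionVars false

variable {ι M N : Type} [Fintype ι] [DecidableEq ι] [AddCommGroup M] [Module ℚ M] [AddCommGroup N] [Module ℚ N]
  {P : RootPairing ι ℚ M N} [P.IsCrystallographic] [P.IsReduced] [P.IsIrreducible] [P.IsRootSystem]

variable (F : Type) [RCLike F]

/-- `S` preserves the weight spaces. PROOF: `fromBlocks`: cases. -/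
theorem SF_wt (b : P.Base) (r c : I b) (h : SF b F r c ≠ 0) : wt b r = wt b c := by
  rcases r with r | r <;> rcases c with c | c
  · rfl
  · exfalso
    apply h
    simp [SF, SQ]
  · exfalso
    apply h
    simp [SF, SQ]
  · by_cases hrc : r = c
    · rw [hrc]
    · exfalso
      apply h
      simp [SF, SQ, Matrix.diagonal_apply_ne _ hrc]

/-- The inverse of `S` preserves the weight spaces.
PROOF: `S` commutes with all diagonal matrices `D = diag(l(wt r))`, `l : M →ₗ[ℚ] ℚ` (`SF_wt`), so does the inverse: `(l(wt r) - l(wt c)) S⁻¹ r c = 0` for all `l`; linear forms separate points (`Module.exists_dual_forall_apply_eq_zero_iff` / `Module.forall_dual_apply_eq_zero_iff`). -/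
theorem SFi_wt (b : P.Base) (r c : I b) (h : (SF b F)⁻¹ r c ≠ 0) : wt b r = wt b c := by
  have hl : ∀ l : M →ₗ[ℚ] ℚ, l (wt b r) = l (wt b c) := by
    intro l
    have h1 : Matrix.diagonal (fun x : I b => ((l (wt b x) : ℚ) : F)) * SF b F =
        SF b F * Matrix.diagonal (fun x : I b => ((l (wt b x) : ℚ) : F)) := by
      ext x y
      rw [Matrix.diagonal_mul, Matrix.mul_diagonal]
      by_cases hx : SF b F x y = 0
      · rw [hx, mul_zero, zero_mul]
      · rw [SF_wt F b x y hx, mul_comm]
    have hdet := SF_det F b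
    have h2 : (SF b F)⁻¹ * Matrix.diagonal (fun x : I b => ((l (wt b x) : ℚ) : F)) =
        Matrix.diagonal (fun x : I b => ((l (wt b x) : ℚ) : F)) * (SF b F)⁻¹ := by
      calc (SF b F)⁻¹ * Matrix.diagonal (fun x : I b => ((l (wt b x) : ℚ) : F))
          = (SF b F)⁻¹ * (Matrix.diagonal (fun x : I b => ((l (wt b x) : ℚ) : F)) *
              (SF b F * (SF b F)⁻¹)) := by
            rw [Matrix.mul_nonsing_inv _ hdet, Matrix.mul_one]
        _ = (SF b F)⁻¹ * (Matrix.diagonal (fun x : I b => ((l (wt b x) : ℚ) : F)) * SF b F) *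
              (SF b F)⁻¹ := by
            simp only [Matrix.mul_assoc]
        _ = (SF b F)⁻¹ * (SF b F * Matrix.diagonal (fun x : I b => ((l (wt b x) : ℚ) : F))) *
              (SF b F)⁻¹ := by rw [h1]
        _ = ((SF b F)⁻¹ * SF b F) * (Matrix.diagonal (fun x : I b => ((l (wt b x) : ℚ) : F)) *
              (SF b F)⁻¹) := by
            simp only [Matrix.mul_assoc]
        _ = _ := by rw [Matrix.nonsing_inv_mul _ hdet, Matrix.one_mul]
    have h3 := congrFun (congrFun h2 r) c
    rw [Matrix.diagonal_mul, Matrix.mul_diagonal, mul_comm] at h3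
    have h4 := mul_right_cancel₀ h h3
    exact (Rat.cast_injective h4).symm
  have h5 : wt b r - wt b c = 0 := by
    rw [← Module.forall_dual_apply_eq_zero_iff ℚ]
    intro l
    rw [map_sub, hl l, sub_self]
  exact sub_eq_zero.mp h5

end

end Pool.Agent.Lib.L8
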