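import Pool.Agent.Lib.L8.IG4B

/-! # L8, module I, chunk IG5: the adjoint `X ↦ X*` -/

namespace Pool.Agent.Lib.L8

open Matrix Pool.Agent.Lib.L1S

noncomputable section

set_option linter.unusedSectionVars false

variable {ι M N : Type} [Fintype ι] [DecidableEq ι] [AddCommGroup M] [Module ℚ M] [AddCommGroup N] [Module ℚ N]
  {P : RootPairing ι ℚ M N} [P.IsCrystallographic] [P.IsReduced] [P.IsIrreducible] [P.IsRootSystem] {b : P.Base} {F : Type} [RCLike F]

/-- PROOF: `S S⁻¹ = 1` (`SF_det`). -/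
theorem stM_mul (X Y : Matrix (I b) (I b) F) : stM b (X * Y) = stM b Y * stM b X := by
  unfold stM
  rw [Matrix.conjTranspose_mul]
  have h := Matrix.mul_nonsing_inv (SF b F) (SF_det F b)
  calc (SF b F)⁻¹ * (Yᴴ * Xᴴ) * SF b F = (SF b F)⁻¹ * Yᴴ * 1 * (Xᴴ * SF b F) := by
        rw [mul_one]
        simp only [mul_assoc]
    _ = (SF b F)⁻¹ * Yᴴ * SF b F * ((SF b F)⁻¹ * Xᴴ * SF b F) := by
        rw [← h]
        simp only [mul_assoc]

theorem stM_one : stM b (1 : Matrix (I b) (I b) F) = 1 := by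
  unfold stM
  rw [Matrix.conjTranspose_one, mul_one]
  exact Matrix.nonsing_inv_mul (SF b F) (SF_det F b)

/-- PROOF: `SF_herm`, `conjTranspose_nonsing_inv`. -/
theorem stM_stM (X : Matrix (I b) (I b) F) : stM b (stM b X) = X := by
  unfold stM
  have h := Matrix.mul_nonsing_inv (SF b F) (SF_det F b)
  have h' := Matrix.nonsing_inv_mul (SF b F) (SF_det F b)
  rw [Matrix.conjTranspose_mul, Matrix.conjTranspose_mul, Matrix.conjTranspose_conjTranspose, Matrix.conjTranspose_nonsing_inv, SF_herm F b]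
  calc (SF b F)⁻¹ * (SF b F * (X * (SF b F)⁻¹)) * SF b F = ((SF b F)⁻¹ * SF b F) * X * ((SF b F)⁻¹ * SF b F) := by
        simp only [mul_assoc]
    _ = X := by rw [h', one_mul, mul_one]

theorem stM_add (X Y : Matrix (I b) (I b) F) : stM b (X + Y) = stM b X + stM b Y := by
  unfold stM
  rw [Matrix.conjTranspose_add, mul_add, add_mul]

theorem stM_smul (t : F) (X : Matrix (I b) (I b) F) : stM b (t • X) = star t • stM b X := by
  unfold stM
  rw [Matrix.conjTranspose_smul, Matrix.mul_smul, Matrix.smul_mul]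

/-- PROOF: induction with `stM_mul`. -/
theorem stM_pow (X : Matrix (I b) (I b) F) (k : ℕ) : stM b (X ^ k) = stM b X ^ k := by
  induction k with
  | zero => rw [pow_zero, pow_zero, stM_one]
  | succ k ih => rw [pow_succ, stM_mul, ih, pow_succ']

/-- PROOF: continuity of the matrix operations. -/
theorem stM_cont : Continuous fun X : Matrix (I b) (I b) F => stM b X := by
  unfold stM
  exact (continuous_const.matrix_mul (continuous_id.matrix_conjTranspose)).matrix_mul continuous_const

/-- The weights of `X*`: if `X* r c ≠ 0` there are `r'`, `c'` of the same weights with `X c' r' ≠ 0`. PROOF: `SF_wt`, `SFi_wt`, `Matrix.mul_apply`, `Finset.exists_ne_zero_of_sum_ne_zero`. -/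
theorem stM_wt {X : Matrix (I b) (I b) F} {r c : I b} (h : stM b X r c ≠ 0) : ∃ r' c', wt b r' = wt b r ∧ wt b c' = wt b c ∧ X c' r' ≠ 0 := by
  unfold stM at h
  rw [Matrix.mul_apply] at h
  obtain ⟨c', -, h1⟩ := Finset.exists_ne_zero_of_sum_ne_zero h
  have h2 := left_ne_zero_of_mul h1
  have h3 := right_ne_zero_of_mul h1
  rw [Matrix.mul_apply] at h2
  obtain ⟨r', -, h4⟩ := Finset.exists_ne_zero_of_sum_ne_zero h2
  have h5 := left_ne_zero_of_mul h4
  have h6 := right_ne_zero_of_mul h4
  refine ⟨r', c', (SFi_wt F b r r' h5).symm, SF_wt F b c' c h3, ?_⟩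
  intro h0
  apply h6
  rw [Matrix.conjTranspose_apply, h0, star_zero]

end

end Pool.Agent.Lib.L8
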