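import Pool.Agent.Lib.L8.IG5

/-! # L8, module I, chunk IG5B: the adjoint of the root elements -/

namespace Pool.Agent.Lib.L8

open Matrix Pool.Agent.Lib.L1S

noncomputable section

set_option linter.unusedSectionVars false

variable {ι M N : Type} [Fintype ι] [DecidableEq ι] [AddCommGroup M] [Module ℚ M] [AddCommGroup N] [Module ℚ N]
  {P : RootPairing ι ℚ M N} [P.IsCrystallographic] [P.IsReduced] [P.IsIrreducible] [P.IsRootSystem] {b : P.Base} {F : Type} [RCLike F]

theorem ig5b_rel {X Y : Matrix (I b) (I b) ℤ} (h : SQ b * toA ℚ X = (toA ℚ Y)ᵀ * SQ b) :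
    SF b F * toA F X = (toA F Y)ᴴ * SF b F := by
  ext r c
  have h1 := congrFun (congrFun h r) c
  rw [Matrix.mul_apply, Matrix.mul_apply] at h1
  have h2 := congrArg (fun q : ℚ => (q : F)) h1
  simp only [Rat.cast_sum, Rat.cast_mul] at h2
  rw [Matrix.mul_apply, Matrix.mul_apply]
  have e1 : ∀ j, SF b F r j * toA F X j c = ((SQ b r j : ℚ) : F) * ((toA ℚ X j c : ℚ) : F) := by
    intro j
    have e : ((toA ℚ X j c : ℚ) : F) = toA F X j c := by
      show (((X j c : ℤ) : ℚ) : F) = ((X j c : ℤ) : F)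
      exact Rat.cast_intCast _
    rw [e]
    rfl
  have e2 : ∀ j, (toA F Y)ᴴ r j * SF b F j c = (((toA ℚ Y)ᵀ r j : ℚ) : F) * ((SQ b j c : ℚ) : F) := by
    intro j
    have e : (((toA ℚ Y)ᵀ r j : ℚ) : F) = (toA F Y)ᴴ r j := by
      show (((Y j r : ℤ) : ℚ) : F) = star ((Y j r : ℤ) : F)
      rw [Rat.cast_intCast, star_intCast]
    rw [e]
    rfl
  rw [Finset.sum_congr rfl fun j _ => e1 j, Finset.sum_congr rfl fun j _ => e2 j]
  exact h2

theorem ig5b_st {X Y : Matrix (I b) (I b) ℤ} (h : SQ b * toA ℚ X = (toA ℚ Y)ᵀ * SQ b) :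
    stM b (toA F Y) = toA F X := by
  unfold stM
  rw [Matrix.mul_assoc, ← ig5b_rel h, Matrix.nonsing_inv_mul_cancel_left _ _ (SF_det F b)]

theorem ig5b_dvp {X Y : Matrix (I b) (I b) ℤ} (hX : DP X) (hY : DP Y) (h : stM b (toA F X) = toA F Y) (k : ℕ) :
    stM b (toA F (dvp X k)) = toA F (dvp Y k) := by
  have h1 : (k.factorial : F) • stM b (toA F (dvp X k)) = (k.factorial : F) • toA F (dvp Y k) := by
    have h2 : stM b ((k.factorial : F) • toA F (dvp X k)) = (k.factorial : F) • stM b (toA F (dvp X k)) := by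
      rw [stM_smul, star_natCast]
    rw [← h2, hX.factA, stM_pow, h, hY.factA]
  have h0 : (k.factorial : F) ≠ 0 := Nat.cast_ne_zero.2 (Nat.factorial_ne_zero k)
  exact smul_right_injective _ h0 h1

theorem ig5b_ex {X Y : Matrix (I b) (I b) ℤ} (hX : DP X) (hY : DP Y) (h : stM b (toA F X) = toA F Y) (t : F) :
    stM b (ex X t) = ex Y (star t) := by
  unfold ex
  rw [Finset.sum_range_succ, Finset.sum_range_succ, Finset.sum_range_succ, Finset.sum_range_succ,
    Finset.sum_range_succ, Finset.sum_range_succ, Finset.sum_range_succ, Finset.sum_range_succ,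
    Finset.sum_range_zero, Finset.sum_range_zero, zero_add, zero_add, stM_add, stM_add, stM_add,
    stM_smul, stM_smul, stM_smul, stM_smul, star_pow, star_pow, star_pow, star_pow,
    ig5b_dvp hX hY h, ig5b_dvp hX hY h, ig5b_dvp hX hY h, ig5b_dvp hX hY h]

/-- PROOF: `SQ_e` mapped to `F`: `S e = fᵀ S`, transposed and conjugated (real entries): `eᴴ S = S f`. -/
theorem stM_e (i : b.support) : stM b (toA F (eZ b i)) = toA F (fZ b i) := by
  exact ig5b_st (SQ_f b i)

theorem stM_f (i : b.support) : stM b (toA F (fZ b i)) = toA F (eZ b i) := by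
  exact ig5b_st (SQ_e b i)

/-- PROOF: `xx b i t = ex (eZ b i) t = IsNilpotent.exp (t • toA F (eZ b i))` (`E_simple`, `DP.ex_eq_exp`) or directly: `ex X t = ∑ t^k dvp X k` and `k! dvp X k = X ^ k` (`DP.factA`), `stM_smul`, `stM_pow`, `stM_e`, cancel `k!` in `F`. -/
theorem stM_x (i : b.support) (t : F) : stM b (xx b (i : ι) t) = xx b (ng P i) (star t) := by
  have h := ig5b_ex (F := F) (DP_eZ i) (DP_fZ i) (stM_e i) t
  rw [← E_simple b i, ← E_neg_simple b i] at h
  exact h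

/-- The same (`E_neg_simple`). -/
theorem stM_y (i : b.support) (t : F) : stM b (xx b (ng P i) t) = xx b (i : ι) (star t) := by
  have h := ig5b_ex (F := F) (DP_fZ i) (DP_eZ i) (stM_f i) t
  rw [← E_simple b i, ← E_neg_simple b i] at h
  exact h

/-- PROOF: `S` commutes with `exM` (`SF_wt`: `pry` depends only on the weight; `de_pj`), real diagonal. -/
theorem stM_exM (y : b.support → ℝ) : stM b (exM b F y) = exM b F y := by
  have h1 : (exM b F y)ᴴ = exM b F y := by
    unfold exM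
    rw [Matrix.diagonal_conjTranspose]
    congr 1
    funext r
    show star ((Real.exp (pry b y r) : ℝ) : F) = ((Real.exp (pry b y r) : ℝ) : F)
    exact RCLike.conj_ofReal _
  have h2 : exM b F y * SF b F = SF b F * exM b F y := by
    ext r c
    unfold exM
    rw [Matrix.diagonal_mul, Matrix.mul_diagonal]
    by_cases h : SF b F r c = 0
    · rw [h, mul_zero, zero_mul]
    · have hw := SF_wt F b r c h
      have hp : pry b y r = pry b y c := by
        unfold pry
        refine Finset.sum_congr rfl fun j _ => ?_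
        have hj : pj b j r = pj b j c := by
          have h3 : ((pj b j r : ℤ) : ℚ) = ((pj b j c : ℤ) : ℚ) := by rw [de_pj, de_pj, hw]
          exact_mod_cast h3
        rw [hj]
      rw [hp, mul_comm]
  unfold stM
  rw [h1, Matrix.mul_assoc, h2, Matrix.nonsing_inv_mul_cancel_left _ _ (SF_det F b)]

/-- PROOF: `m = x(1) y(-1) x(1)`, `m⁻¹ = x(-1) y(1) x(-1)`; `m* = y(1) x(-1) y(1)`: this is `m⁻¹` by the relation `x(1) y(-1) x(1) = y(-1) x(1) y(-1)` (from `xG_neg_eq`: `y(t) = x(1/t) m(-1/t) x(1/t)`, `t = -1`: `y(-1) = x(-1) m(1) x(-1)`,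
so `y(-1) x(1) y(-1) = x(-1) m x(-1) x(1) x(-1) m x(-1) = x(-1) m x(-1) m x(-1)`, and `m x(-1) m⁻¹ = y(1)` (`mm_eZ`, or the formula `mG_E`), so it is `x(-1) y(1) m m x(-1) ..`.) Simpler: `y(-1) = x(-1) m x(-1)` gives `m = x(1) y(-1) x(1)`; apply it to the
opposite: by `mm_eZ` `m x(t) m⁻¹ = y(-t)`: `m = x(1) y(-1) x(1)`, so `m = m m m⁻¹ = (m x(1) m⁻¹) (m y(-1) m⁻¹) (m x(1) m⁻¹) = y(-1) x(1) y(-1)` (`mm_fZ`: `m y(t) m⁻¹ = x(-t)`). Hence `m⁻¹ = y(1) x(-1) y(1) = m*`. -/
theorem stM_m (i : b.support) : stM b (mG b i (1 : Fˣ)).1 = (mG b i (1 : Fˣ))⁻¹.1 := by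
  have e1 : mG b i (1 : Fˣ) = xG b (i : ι) (1 : F) * xG b (ng P i) (-1 : F) * xG b (i : ι) (1 : F) := by
    unfold mG
    rw [inv_one, Units.val_one]
  have k1 : mG b i (1 : Fˣ) * xG b (i : ι) (1 : F) = xG b (ng P i) (-1 : F) * mG b i (1 : Fˣ) := by
    refine Units.ext ?_
    have h := mm_eZ (b := b) (A := F) i 1
    rw [inv_one, Units.val_one, one_pow] at h
    have h2 := DP.conj (DP_eZ (b := b) i) (DP_fZ (b := b) i) (mm b i (1 : Fˣ)) (-1 : F) (1 : F) h
    rw [mul_one, ← E_simple b i, ← E_neg_simple b i] at h2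
    rw [Units.val_mul, Units.val_mul, mG_val]
    exact h2
  have k2 : mG b i (1 : Fˣ) * xG b (ng P i) (-1 : F) = xG b (i : ι) (1 : F) * mG b i (1 : Fˣ) := by
    refine Units.ext ?_
    have h := mm_fZ (b := b) (A := F) i 1
    rw [Units.val_one, one_pow] at h
    have h2 := DP.conj (DP_fZ (b := b) i) (DP_eZ (b := b) i) (mm b i (1 : Fˣ)) (-1 : F) (-1 : F) h
    rw [neg_mul_neg, one_mul, ← E_simple b i, ← E_neg_simple b i] at h2
    rw [Units.val_mul, Units.val_mul, mG_val]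
    exact h2
  have e2 : mG b i (1 : Fˣ) = xG b (ng P i) (-1 : F) * xG b (i : ι) (1 : F) * xG b (ng P i) (-1 : F) := by
    have h : mG b i (1 : Fˣ) * mG b i (1 : Fˣ) =
        xG b (ng P i) (-1 : F) * xG b (i : ι) (1 : F) * xG b (ng P i) (-1 : F) * mG b i (1 : Fˣ) := by
      calc mG b i (1 : Fˣ) * mG b i (1 : Fˣ)
          = mG b i (1 : Fˣ) * (xG b (i : ι) (1 : F) * xG b (ng P i) (-1 : F) * xG b (i : ι) (1 : F)) := by rw [← e1]
        _ = (mG b i (1 : Fˣ) * xG b (i : ι) (1 : F)) * xG b (ng P i) (-1 : F) * xG b (i : ι) (1 : F) := by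
          simp only [mul_assoc]
        _ = xG b (ng P i) (-1 : F) * (mG b i (1 : Fˣ) * xG b (ng P i) (-1 : F)) * xG b (i : ι) (1 : F) := by
          rw [k1]
          simp only [mul_assoc]
        _ = xG b (ng P i) (-1 : F) * xG b (i : ι) (1 : F) * (mG b i (1 : Fˣ) * xG b (i : ι) (1 : F)) := by
          rw [k2]
          simp only [mul_assoc]
        _ = _ := by
          rw [k1]
          simp only [mul_assoc]
    exact mul_right_cancel h
  have e3 : (mG b i (1 : Fˣ))⁻¹ = xG b (ng P i) (1 : F) * xG b (i : ι) (-1 : F) * xG b (ng P i) (1 : F) := by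
    rw [e2, _root_.mul_inv_rev, _root_.mul_inv_rev, xG_inv, xG_inv, neg_neg, mul_assoc]
  have e4 : (mG b i (1 : Fˣ)).1 = xx b (i : ι) (1 : F) * xx b (ng P i) (-1 : F) * xx b (i : ι) (1 : F) := by
    rw [e1]
    rfl
  have e5 : (mG b i (1 : Fˣ))⁻¹.1 = xx b (ng P i) (1 : F) * xx b (i : ι) (-1 : F) * xx b (ng P i) (1 : F) := by
    rw [e3]
    rfl
  rw [e4, e5, stM_mul, stM_mul, stM_x, stM_y, star_neg, star_one, ← mul_assoc]

end

end Pool.Agent.Lib.L8
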