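import Pool.Agent.Lib.L8.IG5B
import Pool.Agent.Lib.L1S.L2G
import Pool.Agent.Lib.L1S.L26

/-! # L8, module I, chunk IG6: the adjoint on the group, the normaliser of the Lie algebra -/

namespace Pool.Agent.Lib.L8

open Matrix Pool.Agent.Lib.L1S

noncomputable section

set_option linter.unusedSectionVars false

variable {ι M N : Type} [Fintype ι] [DecidableEq ι] [AddCommGroup M] [Module ℚ M] [AddCommGroup N] [Module ℚ N]
  {P : RootPairing ι ℚ M N} [P.IsCrystallographic] [P.IsReduced] [P.IsIrreducible] [P.IsRootSystem] {b : P.Base} {F : Type} [RCLike F]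

/-- The adjoint on `GL`. -/
def stG (b : P.Base) {F : Type} [RCLike F] (g : GL (I b) F) : GL (I b) F :=
  ⟨stM b g.1, stM b g⁻¹.1, by rw [← stM_mul, g.inv_mul, stM_one], by rw [← stM_mul, g.mul_inv, stM_one]⟩

theorem stG_mul (g h : GL (I b) F) : stG b (g * h) = stG b h * stG b g := Units.ext (stM_mul _ _)

theorem stG_stG (g : GL (I b) F) : stG b (stG b g) = g := Units.ext (stM_stM _)

/-- PROOF: `Units.continuous_iff`, `stM_cont`. -/
theorem stG_cont : Continuous fun g : GL (I b) F => stG b g := by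
  refine Units.continuous_iff.2 ⟨?_, ?_⟩
  · exact stM_cont.comp Units.continuous_val
  · have h : Continuous fun g : GL (I b) F => stM b g⁻¹.1 :=
      stM_cont.comp (Units.continuous_val.comp continuous_inv)
    exact h

/-- PROOF: `GQ_eq` (generators `xG b i t`, `xG b (ng P i) t`), `Subgroup.closure_induction`, `stM_x`, `stM_y`; `stG` of an inverse is the inverse of `stG`. -/
theorem stG_GQ {g : GL (I b) F} (hg : g ∈ GQ b F) : stG b g ∈ GQ b F := by
  rw [GQ_eq] at hg
  induction hg using Subgroup.closure_induction with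
  | mem g hg =>
    obtain ⟨i, t, rfl | rfl⟩ := hg
    · have h : stG b (xG b (i : ι) t) = xG b (ng P i) (star t) := Units.ext (stM_x i t)
      rw [h]
      exact xG_mem b _ _
    · have h : stG b (xG b (ng P i) t) = xG b (i : ι) (star t) := Units.ext (stM_y i t)
      rw [h]
      exact xG_mem b _ _
  | one =>
    have h : stG b (1 : GL (I b) F) = 1 := Units.ext stM_one
    rw [h]
    exact Subgroup.one_mem _
  | mul x y _ _ hx hy =>
    rw [stG_mul]
    exact Subgroup.mul_mem _ hy hx
  | inv x _ hx =>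
    have h : stG b x⁻¹ = (stG b x)⁻¹ := Units.ext rfl
    rw [h]
    exact Subgroup.inv_mem _ hx

/-- PROOF: `stG_GQ`, `stG_cont`, `map_mem_closure` / `closure` argument (`Subgroup.topologicalClosure_coe`). -/
theorem stG_mem {g : GL (I b) F} (hg : g ∈ GFs b F) : stG b g ∈ GFs b F := by
  exact map_mem_closure stG_cont hg fun x hx => stG_GQ hx

/-- **The local group normalises the Lie algebra**: copy of `GE_Nmz` (L1S/L2G) with `GQ_Nmz`; `gR b F` is closed (finite dimensional over `F`). -/
theorem GF_Nmz {g : GL (I b) F} (hg : g ∈ GFs b F) : Nmz b g.1 g⁻¹.1 := by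
  have hcl : IsClosed (gR b F : Set (Matrix (I b) (I b) F)) :=
    Submodule.closed_of_finiteDimensional (gR b F)
  have key : (GFs b F : Set (GL (I b) F)) ⊆
      {g | ∀ X ∈ gR b F, g.1 * X * g⁻¹.1 ∈ gR b F ∧ g⁻¹.1 * X * g.1 ∈ gR b F} := by
    refine closure_minimal ?_ ?_
    · intro g hg X hX
      exact (GQ_Nmz b hg).2.2 X hX
    · have e : {g : GL (I b) F | ∀ X ∈ gR b F, g.1 * X * g⁻¹.1 ∈ gR b F ∧ g⁻¹.1 * X * g.1 ∈ gR b F} =
          ⋂ (X : Matrix (I b) (I b) F) (_ : X ∈ gR b F),
            ((fun g : GL (I b) F => g.1 * X * g⁻¹.1) ⁻¹' (gR b F : Set (Matrix (I b) (I b) F)) ∩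
              (fun g : GL (I b) F => g⁻¹.1 * X * g.1) ⁻¹' (gR b F : Set (Matrix (I b) (I b) F))) := by
        ext g
        simp only [Set.mem_iInter]
        rfl
      rw [e]
      have c1 : Continuous fun g : GL (I b) F => g.1 := Units.continuous_val
      have c2 : Continuous fun g : GL (I b) F => g⁻¹.1 := Units.continuous_val.comp continuous_inv
      refine isClosed_iInter fun X => isClosed_iInter fun _ => ?_
      exact (hcl.preimage ((c1.mul continuous_const).mul c2)).inter (hcl.preimage ((c2.mul continuous_const).mul c1))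
  exact ⟨g.mul_inv, g.inv_mul, fun X hX => key hg X hX⟩

/-- Upper unipotent elements of the local group are in `G(F)`: `prod_exists` (L1S/L26), `xG_mem`, `PL` is a product of `xG`. -/
theorem GF_UT {g : GL (I b) F} (hg : g ∈ GFs b F) (hu : UTk b 1 g.1) : g ∈ GQ b F := by
  obtain ⟨t, ht⟩ := prod_exists b (GF_Nmz hg) hu
  have key : ∀ L : List ι, ∃ h ∈ GQ b F, h.1 = PL b L t := by
    intro L
    induction L with
    | nil => exact ⟨1, Subgroup.one_mem _, rfl⟩
    | cons β L ih =>
      obtain ⟨h, hh, e⟩ := ih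
      refine ⟨xG b β (t β) * h, Subgroup.mul_mem _ (xG_mem b β (t β)) hh, ?_⟩
      have e2 : PL b (β :: L) t = xx b β (t β) * PL b L t := by
        unfold PL
        rw [List.map_cons, List.prod_cons]
      rw [e2, ← e]
      rfl
  obtain ⟨h, hh, e⟩ := key (posL b)
  have h1 : g = h := Units.ext (by rw [ht, e])
  rw [h1]
  exact hh

end

end Pool.Agent.Lib.L8
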