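import Pool.Agent.Lib.L8.IG6

/-! # L8, module I, chunk IG7: the torus -/

namespace Pool.Agent.Lib.L8

open Matrix Pool.Agent.Lib.L1S

noncomputable section

set_option linter.unusedSectionVars false

variable {ι M N : Type} [Fintype ι] [DecidableEq ι] [AddCommGroup M] [Module ℚ M] [AddCommGroup N] [Module ℚ N]
  {P : RootPairing ι ℚ M N} [P.IsCrystallographic] [P.IsReduced] [P.IsIrreducible] [P.IsRootSystem] {b : P.Base} {F : Type} [RCLike F]

/-- PROOF: `tj b j s = m_j(s) m_j(1)⁻¹` (`de_mG`), `exM b F y = ∏_j tj b j (exp(y_j))`: as in `de_lam` (L1S/DE). -/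
theorem exGL_mem (y : b.support → ℝ) : exGL b F y ∈ GQ b F := by
  have key : ∀ S : Finset b.support, ∃ d ∈ GQ b F, d.1 = Matrix.diagonal fun r => ((Real.exp (∑ j ∈ S, (pj b j r : ℝ) * y j) : ℝ) : F) := by
    intro S
    induction S using Finset.induction_on with
    | empty =>
      refine ⟨1, Subgroup.one_mem _, ?_⟩
      simp
    | insert j S hj ih =>
      obtain ⟨d, hd, e⟩ := ih
      have h0 : ((Real.exp (y j) : ℝ) : F) ≠ 0 := by
        rw [ne_eq, RCLike.ofReal_eq_zero]
        exact (Real.exp_pos _).ne'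
      refine ⟨mG b j (Units.mk0 _ h0) * (mG b j (1 : Fˣ))⁻¹ * d, Subgroup.mul_mem _ (Subgroup.mul_mem _ (mG_mem b j _) (Subgroup.inv_mem _ (mG_mem b j _))) hd, ?_⟩
      have e1 : (mG b j (Units.mk0 _ h0) * (mG b j (1 : Fˣ))⁻¹ * d).1 = (mG b j (Units.mk0 _ h0)).1 * (mG b j (1 : Fˣ))⁻¹.1 * d.1 := rfl
      have e2 : (mG b j (1 : Fˣ)).1 * (mG b j (1 : Fˣ))⁻¹.1 = 1 := (mG b j (1 : Fˣ)).mul_inv
      rw [e1, de_mG b j, Matrix.mul_assoc (tj b j _), e2, Matrix.mul_one, e, Units.val_mk0, tj, Matrix.diagonal_mul_diagonal]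
      congr 1
      funext r
      rw [Finset.sum_insert hj, Real.exp_add, mul_comm ((pj b j r : ℤ) : ℝ) (y j), Real.exp_mul, Real.rpow_intCast, RCLike.ofReal_mul, RCLike.ofReal_zpow]
  obtain ⟨d, hd, e⟩ := key Finset.univ
  have h : exGL b F y = d := Units.ext e.symm
  rw [h]
  exact hd

/-- PROOF: entries. -/
theorem exGL_cont : Continuous fun y : b.support → ℝ => exGL b F y := by
  have h : ∀ r, Continuous fun y : b.support → ℝ => pry b y r := by
    intro r
    unfold pry
    exact continuous_finsetSum _ fun j _ => continuous_const.mul (continuous_apply j)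
  have h1 : Continuous fun y : b.support → ℝ => exM b F y := by
    unfold exM
    exact Continuous.matrix_diagonal (continuous_pi fun r => RCLike.continuous_ofReal.comp (Real.continuous_exp.comp (h r)))
  refine Units.continuous_iff.2 ⟨h1, ?_⟩
  have h2 : Continuous fun y : b.support → ℝ => exM b F (-y) := h1.comp continuous_neg
  exact h2

/-- Conjugation by the torus: PROOF: entries of diagonal matrices. -/
theorem exM_conj (y : b.support → ℝ) (X : Matrix (I b) (I b) F) (r c : I b) :
    (exM b F y * X * exM b F (-y)) r c = ((Real.exp (pry b y r - pry b y c) : ℝ) : F) * X r c := by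
  rw [exM, exM, Matrix.mul_diagonal, Matrix.diagonal_mul, sub_eq_add_neg, Real.exp_add, RCLike.ofReal_mul, pry_neg]
  ring

/-- PROOF: `pry b y` is the value at the weight of a linear form: `(pj b j r : ℚ) = P.coroot' j (wt b r)` (`de_pj`); `wt r = wt c + root i` gives `pry y r = pry y c + pry y (inr i)`; `pj b k (inr i) = P.pairingIn ℤ i k = b.cartanMatrix i k`. -/
theorem pry_root {r c : I b} {β : ι} {k : ℕ} (y : b.support → ℝ) (h : wt b r = wt b c + (k : ℚ) • P.root β) : pry b y r = pry b y c + k * pry b y (Sum.inr β) := by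
  have h1 : ∀ j, (pj b j r : ℝ) = (pj b j c : ℝ) + (k : ℝ) * (pj b j (Sum.inr β) : ℝ) := by
    intro j
    have h2 : ((pj b j r : ℤ) : ℚ) = ((pj b j c : ℤ) : ℚ) + (k : ℚ) * ((pj b j (Sum.inr β) : ℤ) : ℚ) := by
      rw [de_pj, de_pj, de_pj, h, map_add, map_smul, smul_eq_mul]
      rfl
    exact_mod_cast h2
  unfold pry
  rw [Finset.mul_sum, ← Finset.sum_add_distrib]
  refine Finset.sum_congr rfl fun j _ => ?_
  rw [h1]
  ring

theorem pry_simple (y : b.support → ℝ) (i : b.support) : pry b y (Sum.inr (i : ι)) = al (fun i k : b.support => b.cartanMatrix i k) i y := by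
  unfold pry al
  rfl

/-- `exp(y) x_β(t) exp(-y) = x_β(e^β(y) t)`. PROOF: `DP.conj` (L1S/L103) for `DP_E`, `hasWt_E` (so `exM y * E_β = e^β(y) E_β * exM y` by entries, `pry_root` with `k = 1`). -/
theorem exM_xx (y : b.support → ℝ) (β : ι) (t : F) : exM b F y * xx b β t * exM b F (-y) = xx b β (((Real.exp (pry b y (Sum.inr β)) : ℝ) : F) * t) := by
  have h1 : exM b F y * xx b β t = xx b β (((Real.exp (pry b y (Sum.inr β)) : ℝ) : F) * t) * exM b F y := by
    refine (DP_E b β).conj (DP_E b β) (exM b F y) _ t ?_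
    ext r c
    rw [exM, Matrix.diagonal_mul, Matrix.mul_diagonal, Matrix.smul_apply, smul_eq_mul]
    by_cases h : toA F (E b β) r c = 0
    · rw [h]
      ring
    · have h2 : E b β r c ≠ 0 := by
        intro h0
        apply h
        change ((E b β r c : ℤ) : F) = 0
        rw [h0, Int.cast_zero]
      have h3 : pry b y r = pry b y c + ((1 : ℕ) : ℝ) * pry b y (Sum.inr β) := by
        refine pry_root y ?_
        rw [Nat.cast_one, one_smul]
        exact hasWt_E b β r c h2
      rw [Nat.cast_one, one_mul] at h3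
      rw [h3, Real.exp_add, RCLike.ofReal_mul]
      ring
  rw [h1, Matrix.mul_assoc, exM_mul_neg, Matrix.mul_one]

/-- `s_i` on `𝔞`: `⟨s_i r, s_i y⟩ = ⟨r, y⟩`. PROOF: `wt r = s_i (wt c)`, `de_pj`, `P.reflection_apply`; `sr A i y = y - al A i y • e_i`, `⟨r, e_i⟩ = ⟨wt r, α_i^∨⟩`. -/
theorem pry_sr {r c : I b} (i : b.support) (y : b.support → ℝ) (h : wt b r = P.reflection i (wt b c)) : pry b (sr (fun i k : b.support => b.cartanMatrix i k) i y) r = pry b y c := by
  have h1 : ∀ j : b.support, (pj b j r : ℝ) = (pj b j c : ℝ) - (pj b i c : ℝ) * ((b.cartanMatrix i j : ℤ) : ℝ) := by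
    intro j
    have h2 : ((pj b j r : ℤ) : ℚ) = ((pj b j c : ℤ) : ℚ) - ((pj b i c : ℤ) : ℚ) * ((b.cartanMatrix i j : ℤ) : ℚ) := by
      have h3 : ((b.cartanMatrix i j : ℤ) : ℚ) = P.pairing i j := b.algebraMap_cartanMatrixIn_apply ℤ i j
      rw [h3, de_pj, de_pj, de_pj, h, P.reflection_apply, map_sub, map_smul, P.root_coroot'_eq_pairing, smul_eq_mul]
    exact_mod_cast h2
  have h4 : (pj b i r : ℝ) = -(pj b i c : ℝ) := by
    rw [de_pj_refl h, Int.cast_neg]
  have h5 : pry b y r = pry b y c - (pj b i c : ℝ) * al (fun i k : b.support => b.cartanMatrix i k) i y := by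
    unfold pry al
    rw [Finset.mul_sum, ← Finset.sum_sub_distrib]
    refine Finset.sum_congr rfl fun j _ => ?_
    rw [h1 j]
    ring
  have h6 : pry b (sr (fun i k : b.support => b.cartanMatrix i k) i y) r = pry b y r - al (fun i k : b.support => b.cartanMatrix i k) i y * (pj b i r : ℝ) := by
    unfold sr
    rw [sub_eq_add_neg, pry_add, pry_neg, pry_smul]
    have h7 : pry b (Pi.single i 1) r = (pj b i r : ℝ) := by
      unfold pry
      rw [Finset.sum_eq_single i]
      · rw [Pi.single_eq_same, mul_one]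
      · intro j _ hj
        rw [Pi.single_eq_of_ne hj, mul_zero]
      · intro h8
        exact absurd (Finset.mem_univ i) h8
    rw [h7, ← sub_eq_add_neg]
  rw [h6, h5, h4]
  ring

/-- `n_i exp(y) n_i⁻¹ = exp(s_i y)`. PROOF: `mG_over` (L1S/L125), `pry_sr`, entries: `n_i * exM y = exM (s_i y) * n_i`. -/
theorem m_exM (i : b.support) (y : b.support → ℝ) : (mG b i (1 : Fˣ)).1 * exM b F y = exM b F (sr (fun i k : b.support => b.cartanMatrix i k) i y) * (mG b i (1 : Fˣ)).1 := by
  ext r c
  rw [exM, exM, Matrix.mul_diagonal, Matrix.diagonal_mul]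
  by_cases h : (mG b i (1 : Fˣ)).1 r c = 0
  · rw [h, zero_mul, mul_zero]
  · rw [pry_sr i y (mG_over b i (1 : Fˣ) r c h), mul_comm]

/-- `⟨β, y⟩ = 0` for all simple `β` implies `y = 0`; even for all `y`, `y'` with equal values at all roots. PROOF: the Cartan matrix is invertible (`b.cartanMatrix_nondegenerate` or similar), `pry_simple`. -/
theorem pry_inj {y y' : b.support → ℝ} (h : ∀ i : b.support, pry b y (Sum.inr (i : ι)) = pry b y' (Sum.inr (i : ι))) : y = y' := by
  have hdet : b.cartanMatrix.det ≠ 0 := Matrix.nondegenerate_iff_det_ne_zero.1 b.cartanMatrix_nondegenerate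
  have hdet' : (b.cartanMatrix.map (Int.castRingHom ℝ)).det ≠ 0 := by
    rw [← RingHom.mapMatrix_apply, ← RingHom.map_det]
    intro h0
    apply hdet
    have h00 : ((b.cartanMatrix.det : ℤ) : ℝ) = 0 := h0
    exact_mod_cast h00
  have h1 : (b.cartanMatrix.map (Int.castRingHom ℝ)) *ᵥ (y - y') = 0 := by
    funext i
    have h2 := h i
    rw [pry_simple, pry_simple] at h2
    rw [Matrix.mulVec_sub, Pi.sub_apply, Pi.zero_apply, sub_eq_zero]
    exact h2
  have h3 := Matrix.eq_zero_of_mulVec_eq_zero hdet' h1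
  exact sub_eq_zero.1 h3

end

end Pool.Agent.Lib.L8
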