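import Pool.Agent.Lib.L8.IG7

/-! # L8, module I, IG8: the subgroups `U`, `V`, `K`, `M` of the local group (definitions) -/

namespace Pool.Agent.Lib.L8

open Matrix Pool.Agent.Lib.L1S

noncomputable section

set_option linter.unusedSectionVars false

variable {ι M N : Type} [Fintype ι] [DecidableEq ι] [AddCommGroup M] [Module ℚ M] [AddCommGroup N] [Module ℚ N]
  {P : RootPairing ι ℚ M N} [P.IsCrystallographic] [P.IsReduced] [P.IsIrreducible] [P.IsRootSystem]

variable (b : P.Base) (F : Type) [RCLike F]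

/-- The adjoint on the local group. -/
def gst (g : GF b F) : GF b F := ⟨stG b g.1, stG_mem g.2⟩

theorem gst_mul (g h : GF b F) : gst b F (g * h) = gst b F h * gst b F g := Subtype.ext (stG_mul _ _)

theorem gst_gst (g : GF b F) : gst b F (gst b F g) = g := Subtype.ext (stG_stG _)

theorem gst_one : gst b F 1 = 1 := by
  have h : gst b F 1 * gst b F 1 = gst b F 1 := by rw [← gst_mul, mul_one]
  exact mul_eq_left.1 h

theorem gst_inv (g : GF b F) : gst b F g⁻¹ = (gst b F g)⁻¹ := by
  rw [eq_inv_iff_mul_eq_one, ← gst_mul, mul_inv_cancel, gst_one]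

theorem gst_cont : Continuous (gst b F) := (stG_cont.comp continuous_subtype_val).subtype_mk _

/-- `exp(y)`. -/
def gex (y : b.support → ℝ) : GF b F := ⟨exGL b F y, Subgroup.le_topologicalClosure _ (exGL_mem y)⟩

theorem gex_add (y z : b.support → ℝ) : gex b F (y + z) = gex b F y * gex b F z := Subtype.ext (Units.ext (exM_add b F y z))

theorem gex_zero : gex b F 0 = 1 := Subtype.ext (Units.ext (exM_zero b F))

theorem gex_neg (y : b.support → ℝ) : gex b F (-y) = (gex b F y)⁻¹ := by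
  rw [eq_inv_iff_mul_eq_one, ← gex_add, neg_add_cancel, gex_zero]

theorem gst_gex (y : b.support → ℝ) : gst b F (gex b F y) = gex b F y := Subtype.ext (Units.ext (stM_exM y))

/-- `x_β(t)`. -/
def gx (β : ι) (t : F) : GF b F := ⟨xG b β t, Subgroup.le_topologicalClosure _ (xG_mem b β t)⟩

theorem gx_add (β : ι) (s t : F) : gx b F β (s + t) = gx b F β s * gx b F β t := Subtype.ext (xG_add b β s t)

theorem gx_zero (β : ι) : gx b F β 0 = 1 := Subtype.ext (xG_zero b β)

theorem gx_neg (β : ι) (t : F) : gx b F β (-t) = (gx b F β t)⁻¹ := Subtype.ext (xG_inv b β t).symm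

/-- `n_i`. -/
def gn (i : b.support) : GF b F := ⟨mG b i (1 : Fˣ), Subgroup.le_topologicalClosure _ (mG_mem b i 1)⟩

theorem gst_gn (i : b.support) : gst b F (gn b F i) = (gn b F i)⁻¹ := Subtype.ext (Units.ext (stM_m i))

theorem gst_gx (i : b.support) (t : F) : gst b F (gx b F (i : ι) t) = gx b F (ng P i) (star t) := Subtype.ext (Units.ext (stM_x i t))

theorem gst_gy (i : b.support) (t : F) : gst b F (gx b F (ng P i) t) = gx b F (i : ι) (star t) := Subtype.ext (Units.ext (stM_y i t))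

/-- `U`. -/
def gU : Subgroup (GF b F) where
  carrier := {g | UTk b 1 g.1.1}
  one_mem' := fun _ _ _ => rfl
  mul_mem' := fun {g h} hg hh => UTk_mul b zero_le_one hg hh
  inv_mem' := fun {g} hg => UTk_inv b le_rfl g.1.mul_inv hg

theorem mem_gU (g : GF b F) : g ∈ gU b F ↔ UTk b 1 g.1.1 := Iff.rfl

/-- `V = U*`. -/
def gV : Subgroup (GF b F) where
  carrier := {g | gst b F g ∈ gU b F}
  one_mem' := by
    show gst b F 1 ∈ gU b F
    rw [gst_one]
    exact one_mem _
  mul_mem' := fun {g h} hg hh => by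
    show gst b F (g * h) ∈ gU b F
    rw [gst_mul]
    exact mul_mem hh hg
  inv_mem' := fun {g} hg => by
    show gst b F g⁻¹ ∈ gU b F
    rw [gst_inv]
    exact inv_mem hg

theorem mem_gV (g : GF b F) : g ∈ gV b F ↔ gst b F g ∈ gU b F := Iff.rfl

/-- `K`. -/
def gK : Subgroup (GF b F) where
  carrier := {g | gst b F g = g⁻¹}
  one_mem' := by
    show gst b F 1 = 1⁻¹
    rw [gst_one, inv_one]
  mul_mem' := fun {g h} (hg : gst b F g = g⁻¹) (hh : gst b F h = h⁻¹) => by
    show gst b F (g * h) = (g * h)⁻¹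
    rw [gst_mul, hg, hh, _root_.mul_inv_rev]
  inv_mem' := fun {g} (hg : gst b F g = g⁻¹) => by
    show gst b F g⁻¹ = g⁻¹⁻¹
    rw [gst_inv, hg]

theorem mem_gK (g : GF b F) : g ∈ gK b F ↔ gst b F g = g⁻¹ := Iff.rfl

/-- `M`, the centraliser of the torus `exp(𝔞)` in `K`. -/
def gM : Subgroup (GF b F) where
  carrier := {g | g ∈ gK b F ∧ ∀ y, g * gex b F y = gex b F y * g}
  one_mem' := ⟨one_mem _, fun y => by rw [one_mul, mul_one]⟩
  mul_mem' := fun {g h} hg hh => ⟨mul_mem hg.1 hh.1, fun y => by rw [mul_assoc, hh.2, ← mul_assoc, hg.2, mul_assoc]⟩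
  inv_mem' := fun {g} hg => ⟨inv_mem hg.1, fun y => by
    rw [inv_mul_eq_iff_eq_mul, ← mul_assoc, hg.2, mul_assoc, mul_inv_cancel, mul_one]⟩

theorem gn_mem (i : b.support) : gn b F i ∈ gK b F := gst_gn b F i

end

end Pool.Agent.Lib.L8
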