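import Pool.Agent.Lib.L8.MainM

/-!
# M, family form: the core with an abstract dichotomy (helper85, after MainA of helper43)
-/

namespace Pool.Agent.Lib.L8

open MeasureTheory Matrix NumberField NumberField.InfinitePlace IsDedekindDomain Pool.Agent.Lib.H89N Pool.Agent.Lib.H33W Pool.Agent.Lib.H67G Pool.Agent.Lib.L1S
open scoped ENNReal Pointwise

noncomputable section

set_option linter.unusedSectionVars false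

variable {ι M N : Type} [Fintype ι] [DecidableEq ι] [AddCommGroup M] [Module ℚ M] [AddCommGroup N] [Module ℚ N]
  {P : RootPairing ι ℚ M N} [P.IsCrystallographic] {b : P.Base}

/-- Continuous functions in `L²(Γ \ G)` (`D` a fundamental domain) which are eigenfunctions of the convolution operator of `φ` (eigenvalue `c`) and of the convolution operator of `w τ` (eigenvalue `κ`). -/
structure AutF {K L : Type} [Field K] [NumberField K] [Field L] [NumberField L] [Algebra K L] (Q : QS b K L) (𝔫 : Ideal (𝓞 K)) (v : HeightOneSpectrum (𝓞 K)) (r s : ℕ) (μ : Measure (HRt (HQ Q)))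
    (D : Set (HRt (HQ Q))) (φ : HRt (HQ Q) → ℂ) (τ : Measure (HRt (HQ Q))) (w : HRt (HQ Q) → ℂ) (F : HRt (HQ Q) → ℂ) (c κ : ℂ) : Prop where
  cont : Continuous F
  inv : ∀ γ ∈ GamHR (HQ Q) 𝔫 v r s, ∀ x, F (γ * x) = F x
  l2 : MemLp F 2 (μ.restrict D)
  eig : ∀ x, ∫ y, F (x * y) * φ y ∂μ = c * F x
  cv : ∀ x, ∫ y, F (x * y) * w y ∂τ = κ * F x

variable [P.IsRootSystem] [P.IsReduced] [P.IsIrreducible] {K L : Type} [Field K] [NumberField K] [Field L] [NumberField L] [Algebra K L]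

/-- **The core of M, family form,** with an abstract dichotomy: it is enough that, for all auxiliary levels `m₁ ≥ m₀` prime to `v`, the elements `γ` with `g_i γ g_j⁻¹ ∈ Γ(m₁ 𝔫)` which move a point of `U x supp(φ) Ktᵐ` to
such a point are in `U` (and then `i = j`) or of the second kind. -/
theorem mf_abs (Q : QS b K L) [IsGalois K L] :
    ∃ CI : ℝ, 0 < CI ∧ ∀ (m₀ : ℕ) (v : HeightOneSpectrum (𝓞 K)) (𝔫 : Ideal (𝓞 K)), 𝔫 ≠ ⊥ → ¬𝔫 ≤ v.asIdeal → ∀ (r s k : ℕ) (c : Fin k → b.support → ℤ), (∀ j, InvC Q (c j)) →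
    (∀ j (i : b.support), 0 ≤ pr b (c j) (Sum.inr i)) → ∀ π : K, v.valuation K π = WithZero.exp (-1 : ℤ) → ∀ h : Fin k → HQ Q, (∀ j, (h j).1 ∈ HGL b L 𝔫 v ∧ AtVL b v r s π (c j) (h j).1) →
    ∀ θ : b.support → (EE L →ₗ[ℝ] ℝ), GenQ Q 𝔫 v r s θ →
    ∀ x : HRt (HQ Q),
    ∀ (μ τ : Measure (HRt (HQ Q))) [μ.IsHaarMeasure] (w : HRt (HQ Q) → ℂ) (Kt : Set (HRt (HQ Q))) (Λ : ℝ), CvD μ τ w Kt Λ →
    ∀ (m : ℕ) (φ : HRt (HQ Q) → ℂ), Continuous φ → HasCompactSupport φ →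
    (∀ m₁ : ℕ, m₀ ≤ m₁ → (m₁ : 𝓞 K) ∉ v.asIdeal → ∀ g : Fin k → HQ Q, (∀ j, LvL b (Ideal.span {(m₁ : 𝓞 K)} * 𝔫) v r s (c j) π (g j).1) →
      ∀ i j (γ : HQ Q), g i * γ * (g j)⁻¹ ∈ GamQ (HQ Q) (Ideal.span {(m₁ : 𝓞 K)} * 𝔫) v r s →
      MvT (HQ Q) x (tsupport φ * Kt ^ m) (embH (HQ Q) γ) → (i = j ∧ γ ∈ HUH (HQ Q)) ∨ AltH (HQ Q) θ γ) →
    ∀ (ν : Measure (UHR (HQ Q))) [ν.IsHaarMeasure] (D₀ : Set (UHR (HQ Q))), IsFundamentalDomain (GamUH (HQ Q) 𝔫 v r s) D₀ ν →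
    ∀ D : Set (HRt (HQ Q)), IsFundamentalDomain (GamHR (HQ Q) 𝔫 v r s) D μ →
    ∀ (n : ℕ) (F : Fin n → HRt (HQ Q) → ℂ) (c' κ : Fin n → ℂ), (∀ l, AutF Q 𝔫 v r s μ D φ τ w (F l) (c' l) (κ l)) → (∀ l k, ∫ x in D, star (F l x) * F k x ∂μ = if l = k then 1 else 0) → ∀ α : Fin k → ℂ,
      (∀ D' : Fin k → Set (UHR (HQ Q)), (∀ j, IsFundamentalDomain (GamHH (HQ Q) 𝔫 v r s (h j)) (D' j) ν) →
        ∑ l, ‖c' l * κ l ^ m * ∑ j, α j * WhH (HQ Q) ν (D' j) θ (fun y => F l (embH (HQ Q) (h j) * y)) x‖ ^ 2 ≤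
          ((6 ^ m₀ : ℕ) ^ Module.finrank ℚ L : ℝ) ^ (Fintype.card (I b) ^ 2) * CI * Λ ^ (2 * m) * (Jf (UHR (HQ Q)).subtype μ ν φ x / ν D₀).toReal *
            ∑ j, ‖α j‖ ^ 2 * ((Ideal.absNorm v.asIdeal : ℝ) ^ (∑ β ∈ Pos b, pr b (c j) (Sum.inr β)))⁻¹) ∧
      (1 ≤ r + s → ∀ t' : Fin n → Fin k → ℂ, (∀ l j, IsTH (HQ Q) 𝔫 v r s (h j) (F l) (t' l j)) →
        ∑ l, ‖c' l * κ l ^ m * (∑ j, α j * t' l j) * WhH (HQ Q) ν D₀ θ (F l) x‖ ^ 2 ≤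
          ((6 ^ m₀ : ℕ) ^ Module.finrank ℚ L : ℝ) ^ (Fintype.card (I b) ^ 2) * CI * Λ ^ (2 * m) * (Jf (UHR (HQ Q)).subtype μ ν φ x / ν D₀).toReal *
            ∑ j, ‖α j‖ ^ 2 * (Ideal.absNorm v.asIdeal : ℝ) ^ (∑ β ∈ Pos b, pr b (c j) (Sum.inr β))) := by
  classical
  have ci : Countable (HQ Q) := th_count (HQ Q)
  obtain ⟨CI, hCI0, hCI⟩ := qa_idx Q
  refine ⟨CI, hCI0, ?_⟩
  intro m₀ v 𝔫 h0 hv r s k c hcQ hc π hπ h hh θ hθ x μ τ _ w Kt Λ hτ m φ cφ sφ hdich ν _ D' hD' D hD n F c' κ hF hort α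
  have hq1 : (0 : ℝ) < Ideal.absNorm v.asIdeal := Nat.cast_pos.2 (Nat.pos_of_ne_zero (by
    rw [Ne, Ideal.absNorm_eq_zero_iff]
    exact v.ne_bot))
  have hq0 : ∀ j, (0 : ℝ) < (Ideal.absNorm v.asIdeal : ℝ) ^ (∑ β ∈ Pos b, pr b (c j) (Sum.inr β)) := fun j => zpow_pos hq1 _
  -- the auxiliary level
  obtain ⟨m₁, hm1, hm2, hm3, hm4⟩ := aux_level m₀ v
  have h1 : Ideal.span {(m₁ : 𝓞 K)} * 𝔫 ≠ ⊥ := by
    rw [Ne, Ideal.mul_eq_bot, not_or, Ideal.span_singleton_eq_bot]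
    exact ⟨Nat.cast_ne_zero.2 hm2, h0⟩
  have h1v : ¬Ideal.span {(m₁ : 𝓞 K)} * 𝔫 ≤ v.asIdeal := (de_m h0 hv hm3).2
  -- replacement of the Hecke elements
  have hrep : ∀ j, ∃ h1 : HQ Q, h1.1 ∈ HGL b L (Ideal.span {(m₁ : 𝓞 K)} * 𝔫) v ∧ AtVL b v r s π (c j) h1.1 := fun j => by
    obtain ⟨h2, h3, h4, h5⟩ := qa_exists Q h1v r s (hcQ j) hπ
    exact ⟨⟨h2, h3⟩, h4, h5⟩
  choose g hg1 hg2 using hrep
  have hle : L1S.up L (Ideal.span {(m₁ : 𝓞 K)} * 𝔫) ≤ L1S.up L 𝔫 := L1S.up_mono L Ideal.mul_le_right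
  have hg4 : ∀ j, (g j).1 ∈ HGL b L 𝔫 v := by
    intro j
    obtain ⟨i, hi⟩ := hg1 j
    have key : ∀ y : L, DenL (Ideal.span {(m₁ : 𝓞 K)} * 𝔫) v i y → DenL 𝔫 v i y := fun y hy a ha => by
      obtain ⟨z, hz, e⟩ := hy a ha
      exact ⟨z, hle hz, e⟩
    exact ⟨i, fun i' i'' => ⟨key _ (hi i' i'').1, key _ (hi i' i'').2⟩⟩
  have hg3 : ∀ j, h j * (g j)⁻¹ ∈ GamQ (HQ Q) 𝔫 v r s := fun j => qa_quot Q h0 hv hπ (hh j).1 (hh j).2 (hg4 j) (hg2 j)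
  have hL : ∀ j, LvL b 𝔫 v r s (c j) π (g j).1 := fun j => ⟨h0, hv, hc j, hπ, hg4 j, hg2 j⟩
  have hL1 : ∀ j, LvL b (Ideal.span {(m₁ : 𝓞 K)} * 𝔫) v r s (c j) π (g j).1 := fun j => ⟨h1, h1v, hc j, hπ, hg1 j, hg2 j⟩
  -- fundamental domains
  have hdΓ : Dsc (HQ Q) (GamQ (HQ Q) 𝔫 v r s) := dsc_Gam (HQ Q) 𝔫 v r s
  obtain ⟨D₁, hD₁⟩ := hdΓ.sfU
  have hcc0 : CCH (HQ Q) (GamQ (HQ Q) 𝔫 v r s) := by
    have h2 : CCH (HQ Q) (cjG (GamQ (HQ Q) 𝔫 v r s) 1) := qa_cc Q h0 v r s 1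
    rw [cjG_one] at h2
    exact h2
  have hcc1 : ∀ g : HQ Q, CCH (HQ Q) (cjG (GamQ (HQ Q) (Ideal.span {(m₁ : 𝓞 K)} * 𝔫) v r s) g) := fun g => qa_cc Q h1 v r s g
  have hG := th2_gd (HQ Q) hcc0 hD₁ μ ν θ (psT_mul' (HQ Q) θ)
  have hone : ∀ w : HUH (HQ Q), (w : HQ Q) ∈ GamQ (HQ Q) 𝔫 v r s → psT (HQ Q) θ (kUH (HQ Q) w) = 1 := fun w hw =>
    hθ.2 _ ((th2_mem_imU (HQ Q) (GamQ (HQ Q) 𝔫 v r s) _).2 ⟨w, hw, rfl⟩)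
  -- the auxiliary group
  have hm5 : GamQ (HQ Q) (Ideal.span {(m₁ : 𝓞 K)} * 𝔫) v r s ≤ GamQ (HQ Q) 𝔫 v r s := by
    have key : ∀ y : L, L1S.InI (L1S.up L (Ideal.span {(m₁ : 𝓞 K)} * 𝔫)) y → L1S.InI (L1S.up L 𝔫) y := fun y ⟨z, hz, e⟩ => ⟨z, hle hz, e⟩
    intro γ hγ
    have h2 : γ.1 ∈ GamL b L (Ideal.span {(m₁ : 𝓞 K)} * 𝔫) v r s := hγ
    show γ.1 ∈ GamL b L 𝔫 v r s
    intro i j
    obtain ⟨⟨a1, a2⟩, a3, a4⟩ := h2 i j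
    exact ⟨⟨key _ a1, a2⟩, key _ a3, a4⟩
  have hcomm : ∀ h h' : HQ Q, (cjG (GamQ (HQ Q) (Ideal.span {(m₁ : 𝓞 K)} * 𝔫) v r s) h).relIndex (cjG (GamQ (HQ Q) (Ideal.span {(m₁ : 𝓞 K)} * 𝔫) v r s) h') ≠ 0 := fun h h' =>
    qa_comm Q h1 v v r s r s h h'
  have hidx0 : (GamQ (HQ Q) (Ideal.span {(m₁ : 𝓞 K)} * 𝔫) v r s).relIndex (GamQ (HQ Q) 𝔫 v r s) ≠ 0 := by
    have h2 : (cjG (GamQ (HQ Q) (Ideal.span {(m₁ : 𝓞 K)} * 𝔫) v r s) 1).relIndex (cjG (GamQ (HQ Q) 𝔫 v r s) 1) ≠ 0 := qa_comm Q h1 (𝔪 := 𝔫) v v r s r s 1 1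
    rw [cjG_one, cjG_one] at h2
    exact h2
  have hy : THyp (HQ Q) (GamQ (HQ Q) 𝔫 v r s) (GamQ (HQ Q) (Ideal.span {(m₁ : 𝓞 K)} * 𝔫) v r s) g θ x (tsupport φ * Kt ^ m) := by
    refine ⟨hdΓ, hm5, fun g => ?_, hidx0, ?_, fun j => hcc1 (g j), fun j => qa_le Q (hcQ j) (hL j), hone, fun i j γ hγ hmv => ?_⟩
    · have h2 := hcomm g 1
      rw [cjG_one] at h2
      exact h2
    · have h2 := hcc1 1
      rw [cjG_one] at h2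
      exact h2
    · exact hdich m₁ hm1 hm3 g hL1 i j γ hγ hmv
  have hcN : (((GamQ (HQ Q) (Ideal.span {(m₁ : 𝓞 K)} * 𝔫) v r s).relIndex (GamQ (HQ Q) 𝔫 v r s) : ℕ) : ℝ) ≤ ((6 ^ m₀ : ℕ) ^ Module.finrank ℚ L : ℝ) ^ (Fintype.card (I b) ^ 2) := by
    have h2 : (cjG (GamQ (HQ Q) (Ideal.span {(m₁ : 𝓞 K)} * 𝔫) v r s) 1).relIndex (cjG (GamQ (HQ Q) 𝔫 v r s) 1) ≤ (m₁ ^ Module.finrank ℚ L) ^ (Fintype.card (I b) ^ 2) :=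
      qa_m Q h0 v r s m₁ hm2 1
    rw [cjG_one, cjG_one] at h2
    have h3 : (m₁ ^ Module.finrank ℚ L) ^ (Fintype.card (I b) ^ 2) ≤ ((6 ^ m₀) ^ Module.finrank ℚ L) ^ (Fintype.card (I b) ^ 2) :=
      Nat.pow_le_pow_left (Nat.pow_le_pow_left hm4 _) _
    exact_mod_cast h2.trans h3
  have hidxR := fun j => hCI 𝔫 v r s (c j) π (g j) (hcQ j) (hL j)
  have hq0' : ∀ j, (0 : ℝ) < (((cjG (GamQ (HQ Q) 𝔫 v r s) (g j)).subgroupOf (HUH (HQ Q))).relIndex ((GamQ (HQ Q) 𝔫 v r s).subgroupOf (HUH (HQ Q))) : ℝ) := by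
    intro j
    have h3 : 0 < CI * (((cjG (GamQ (HQ Q) 𝔫 v r s) (g j)).subgroupOf (HUH (HQ Q))).relIndex ((GamQ (HQ Q) 𝔫 v r s).subgroupOf (HUH (HQ Q))) : ℝ) := (hq0 j).trans_le (hidxR j).1
    exact (pos_iff_pos_of_mul_pos h3).1 hCI0
  -- the numbers
  have pD : ν D₁ ≠ 0 := th2_pos (HQ Q) hD₁ ν
  have fD : ν D₁ ≠ ⊤ := th2_fin (HQ Q) hcc0 hD₁ ν
  have hvD : ν D' = ν D₁ := th2_volU (HQ Q) ν hD₁ hD'
  have hJt : Jf (UHR (HQ Q)).subtype μ ν φ x ≠ ⊤ := mm_Jfin hcc0 hD₁ cφ sφ x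
  rw [hvD]
  obtain ⟨X, hX⟩ : ∃ X : ℝ, X = (Jf (UHR (HQ Q)).subtype μ ν φ x / ν D₁).toReal := ⟨_, rfl⟩
  rw [← hX]
  have hX0 : 0 ≤ X := by rw [hX]; exact ENNReal.toReal_nonneg
  have hJ : Jf (UHR (HQ Q)).subtype μ ν φ x ≤ ENNReal.ofReal X * ν D₁ := by
    rw [hX, ENNReal.ofReal_toReal (ENNReal.div_ne_top hJt pD), ENNReal.div_mul_cancel pD fD]
  have hF' : ∀ l, AuE (HQ Q) (GamQ (HQ Q) 𝔫 v r s) μ D φ (c' l) (F l) := fun l => ⟨(hF l).cont, (hF l).inv, (hF l).l2, (hF l).eig⟩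
  have key := th5_main5 (HQ Q) cφ sφ (μ := μ) (ν := ν) hτ (fun j => fol_gu (HQ Q) (Ideal.span {(m₁ : 𝓞 K)} * 𝔫) v r s (g j)) hy hD₁ hX0 hJ hcN
    (q := fun j => (((cjG (GamQ (HQ Q) 𝔫 v r s) (g j)).subgroupOf (HUH (HQ Q))).relIndex ((GamQ (HQ Q) 𝔫 v r s).subgroupOf (HUH (HQ Q))) : ℝ))
    (fun _ => rfl) hq0' hD hF' (fun l => (hF l).cv) hort α
  have hc1 : (0 : ℝ) ≤ ((6 ^ m₀ : ℕ) ^ Module.finrank ℚ L : ℝ) ^ (Fintype.card (I b) ^ 2) := by positivity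
  have hΛ : 0 ≤ (Λ ^ 2) ^ m := by positivity
  refine ⟨fun D'' hD'' => ?_, fun hrs t' ht' => ?_⟩
  · -- form (A)
    have h2 := key.1 h hg3 D'' hD''
    refine le_trans (le_of_eq ?_) (h2.trans ?_)
    · refine Finset.sum_congr rfl fun l _ => ?_
      show ‖c' l * κ l ^ m * ∑ j, α j * WhT (HQ Q) ν (D'' j) θ (fun y => F l (embH (HQ Q) (h j) * y)) x‖ ^ 2 = _
      simp only [norm_mul]
      ring
    · have h3 : ∑ j, ‖α j‖ ^ 2 * (((((cjG (GamQ (HQ Q) 𝔫 v r s) (g j)).subgroupOf (HUH (HQ Q))).relIndex ((GamQ (HQ Q) 𝔫 v r s).subgroupOf (HUH (HQ Q))) : ℕ) : ℝ))⁻¹ ≤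
          CI * ∑ j, ‖α j‖ ^ 2 * ((Ideal.absNorm v.asIdeal : ℝ) ^ (∑ β ∈ Pos b, pr b (c j) (Sum.inr β)))⁻¹ := by
        rw [Finset.mul_sum]
        refine Finset.sum_le_sum fun j _ => ?_
        rw [mul_left_comm]
        refine mul_le_mul_of_nonneg_left ?_ (by positivity)
        have h4 : (Ideal.absNorm v.asIdeal : ℝ) ^ (∑ β ∈ Pos b, pr b (c j) (Sum.inr β)) ≤
            CI * ((((cjG (GamQ (HQ Q) 𝔫 v r s) (g j)).subgroupOf (HUH (HQ Q))).relIndex ((GamQ (HQ Q) 𝔫 v r s).subgroupOf (HUH (HQ Q))) : ℕ) : ℝ) := (hidxR j).1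
        rw [← div_eq_mul_inv, inv_le_comm₀ (hq0' j) (div_pos hCI0 (hq0 j)), inv_div, div_le_iff₀ hCI0, mul_comm]
        exact h4
      calc _ ≤ ((6 ^ m₀ : ℕ) ^ Module.finrank ℚ L : ℝ) ^ (Fintype.card (I b) ^ 2) * (X * (Λ ^ 2) ^ m) * (CI * ∑ j, ‖α j‖ ^ 2 * ((Ideal.absNorm v.asIdeal : ℝ) ^ (∑ β ∈ Pos b, pr b (c j) (Sum.inr β)))⁻¹) :=
            mul_le_mul_of_nonneg_left h3 (mul_nonneg hc1 (mul_nonneg hX0 hΛ))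
        _ = _ := by
            rw [← pow_mul]
            ring
  · -- form (B)
    have hU : ∀ (l : Fin n) (j : Fin k), IsUT (HQ Q) (GamQ (HQ Q) 𝔫 v r s) (g j) (F l) (t' l j) := fun l j =>
      qa_isU Q hrs (hcQ j) (hL j) (hF l).inv (qm_isT_congr (HQ Q) (hg3 j) (ht' l j))
    have h2 := key.2 t' hU D' hD'
    refine le_trans (le_of_eq ?_) (h2.trans ?_)
    · refine Finset.sum_congr rfl fun l _ => ?_
      show ‖c' l * κ l ^ m * (∑ j, α j * t' l j) * WhT (HQ Q) ν D' θ (F l) x‖ ^ 2 = _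
      simp only [norm_mul]
      ring
    · have h3 : ∑ j, ‖α j‖ ^ 2 * ((((cjG (GamQ (HQ Q) 𝔫 v r s) (g j)).subgroupOf (HUH (HQ Q))).relIndex ((GamQ (HQ Q) 𝔫 v r s).subgroupOf (HUH (HQ Q))) : ℕ) : ℝ) ≤
          CI * ∑ j, ‖α j‖ ^ 2 * (Ideal.absNorm v.asIdeal : ℝ) ^ (∑ β ∈ Pos b, pr b (c j) (Sum.inr β)) := by
        rw [Finset.mul_sum]
        refine Finset.sum_le_sum fun j _ => ?_
        rw [mul_left_comm]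
        exact mul_le_mul_of_nonneg_left (hidxR j).2 (by positivity)
      calc _ ≤ ((6 ^ m₀ : ℕ) ^ Module.finrank ℚ L : ℝ) ^ (Fintype.card (I b) ^ 2) * (X * (Λ ^ 2) ^ m) * (CI * ∑ j, ‖α j‖ ^ 2 * (Ideal.absNorm v.asIdeal : ℝ) ^ (∑ β ∈ Pos b, pr b (c j) (Sum.inr β))) :=
            mul_le_mul_of_nonneg_left h3 (mul_nonneg hc1 (mul_nonneg hX0 hΛ))
        _ = _ := by
            rw [← pow_mul]
            ring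

end

end Pool.Agent.Lib.L8
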