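import Pool.Agent.Lib.L8.PF7

/-!
# L8, conductor aspect, file PF8 (helper29): the ingredients in the final form (test measure and `φ` near `1` at some of the infinite places of `K`)
-/

namespace Pool.Agent.Lib.L8

set_option linter.unusedSectionVars false

open MeasureTheory Matrix NumberField NumberField.InfinitePlace IsDedekindDomain Pool.Agent.Lib.H89N Pool.Agent.Lib.H33W Pool.Agent.Lib.H67G Pool.Agent.Lib.L1S
open scoped ENNReal Pointwise

noncomputable section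

variable {ι M N : Type} [Fintype ι] [DecidableEq ι] [AddCommGroup M] [Module ℚ M] [AddCommGroup N] [Module ℚ N]
  {P : RootPairing ι ℚ M N} [P.IsCrystallographic] [P.IsReduced] [P.IsIrreducible] [P.IsRootSystem] {b : P.Base}
  {K L : Type} [Field K] [NumberField K] [Field L] [NumberField L] [Algebra K L]

/-- At every infinite place `δ_w = 1` or the entries of `y - 1` and `y⁻¹ - 1` are at most `δ_w`. -/
def NearE {H : Subgroup (GK b L)} (δ : InfinitePlace K → ℝ) (y : HRt H) : Prop :=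
  ∀ w : InfinitePlace L, δ (w.comap (algebraMap K L)) = 1 ∨
    ((∀ i j, mixedEmbedding.normAtPlace w ((y.1.1.1 - 1) i j) ≤ δ (w.comap (algebraMap K L))) ∧ ∀ i j, mixedEmbedding.normAtPlace w ((y⁻¹.1.1.1 - 1) i j) ≤ δ (w.comap (algebraMap K L)))

/-- In a compact set. -/
theorem nearE_nearD {H : Subgroup (GK b L)} {S₀ : Set (HRt H)} (hS : IsCompact S₀) : ∃ c₀ : ℝ, 0 ≤ c₀ ∧ ∀ y ∈ S₀, ∀ δ : InfinitePlace K → ℝ, (∀ y, 0 < δ y ∧ δ y ≤ 1) → NearE δ y → NearD c₀ δ y := by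
  have c1 : Continuous fun u : HRt H => u.1.1.1 := Units.continuous_val.comp (continuous_subtype_val.comp continuous_subtype_val)
  have c2 : Continuous fun u : HRt H => u⁻¹.1.1.1 := c1.comp continuous_inv
  obtain ⟨C₁, hC1, h1⟩ := nb_compact (L := L) hS (F := fun u : HRt H => u.1.1.1 - 1) (c1.sub continuous_const)
  obtain ⟨C₂, hC2, h2⟩ := nb_compact (L := L) hS (F := fun u : HRt H => u⁻¹.1.1.1 - 1) (c2.sub continuous_const)
  refine ⟨max C₁ C₂, (zero_le_one.trans hC1).trans (le_max_left _ _), fun y hy δ hδ h w => ?_⟩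
  have hδ' := hδ (w.comap (algebraMap K L))
  rcases h w with h3 | ⟨h3, h4⟩
  · rw [h3, mul_one]
    exact ⟨(h1 y hy w).mono (le_max_left _ _), (h2 y hy w).mono (le_max_right _ _)⟩
  · have h5 : δ (w.comap (algebraMap K L)) ≤ max C₁ C₂ * δ (w.comap (algebraMap K L)) := le_mul_of_one_le_left hδ'.1.le (hC1.trans (le_max_left _ _))
    exact ⟨fun i j => (h3 i j).trans h5, fun i j => (h4 i j).trans h5⟩

/-- **The moved points**, final form. -/
theorem pf_mv7 (b : P.Base) (K L : Type) [Field K] [NumberField K] [Field L] [NumberField L] [Algebra K L] (H : Subgroup (GK b L)) {Ω : Set (GL (I b) (EE L))} (hΩ : IsCompact Ω) {S₀ : Set (HRt H)} (hS₀ : IsCompact S₀) :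
    ∃ c : ℝ, 0 ≤ c ∧ ∀ (a : ι → (EE L)ˣ) (x : HRt H), InRz H Ω a x → ∀ (C S : Set (HRt H)) (δ : InfinitePlace K → ℝ), (∀ y, 0 < δ y ∧ δ y ≤ 1) → C ⊆ S₀ → (∀ y ∈ C, NearE δ y) → (∀ y ∈ S, NearE δ y) →
      ∀ B : b.support → InfinitePlace L → ℝ, (∀ i w, 0 ≤ B i w) → KB H B S →
      ∀ γ : HRt H, MvT H x (C * S) γ → Mv5 b c a (fun i w => B i w ^ 2 * δ (w.comap (algebraMap K L)) ^ (Phi b i).card) γ.1 := by
  classical
  obtain ⟨c₀, hc₀, hN0⟩ := nearE_nearD (K := K) hS₀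
  obtain ⟨C₂, hC2, hN2⟩ := nb_compact (L := L) hΩ (F := fun s : GL (I b) (EE L) => s.1) Units.continuous_val
  obtain ⟨C₃, hC3, hN3⟩ := nb_compact (L := L) hΩ (F := fun s : GL (I b) (EE L) => (s⁻¹ : GL (I b) (EE L)).1) (Units.continuous_val.comp continuous_inv)
  have hC20 : 0 ≤ C₂ := zero_le_one.trans hC2
  have hC30 : 0 ≤ C₃ := zero_le_one.trans hC3
  set n : ℝ := (Fintype.card (I b) : ℝ) with hn
  have hn0 : 0 ≤ n := Nat.cast_nonneg _
  set A₁ : ℝ := n * (C₂ * (c₀ + 1)) with hA1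
  have hA10 : 0 ≤ A₁ := by positivity
  set A₂ : ℝ := n * ((c₀ + 1) * C₃) with hA2
  have hA20 : 0 ≤ A₂ := by positivity
  set c₂ : ℝ := n * (1 * (1 + 1)) + 1 with hc2
  have hc20 : 0 ≤ c₂ := by positivity
  set D : ℝ := n * (n * (A₁ * c₂) * A₂) + n * (n * (C₂ * (2 * c₀)) * A₂) with hD
  have hD0 : 0 ≤ D := by positivity
  set k : b.support → ℕ := fun i => (Phi b i).card with hk
  set c₁ : b.support → ℝ := fun i => (n ^ k i * A₁ ^ k i) * (n ^ k i * A₂ ^ k i) with hc1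
  have hc10 : ∀ i, 0 ≤ c₁ i := fun i => by
    rw [hc1]
    positivity
  have hB0 : ∀ i, 0 ≤ ((k i).factorial : ℝ) * c₁ i + ((k i).factorial : ℝ) * D ^ k i * (k i).factorial := fun i => by
    have := hc10 i
    positivity
  refine ⟨∑ i, (((k i).factorial : ℝ) * c₁ i + ((k i).factorial : ℝ) * D ^ k i * (k i).factorial), Finset.sum_nonneg fun i _ => hB0 i, ?_⟩
  intro a x hx Cs S δ hδ hCs hCδ hSδ B hB hKB γ hmv
  obtain ⟨t, t', y, hy, y', hy', h⟩ := hmv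
  obtain ⟨u, ω, hω, hxu'⟩ := hx
  have hxu : x.1.1 = u.1.1.1 * dgU b a * ω := Units.ext hxu'
  obtain ⟨p, hp, s, hs, rfl⟩ := Set.mem_mul.1 hy
  obtain ⟨p', hp', s', hs', rfl⟩ := Set.mem_mul.1 hy'
  have hnp := hN0 p (hCs hp) δ hδ (hCδ p hp)
  have hnp' := hN0 p' (hCs hp') δ hδ (hCδ p' hp')
  have hq' : ∀ w : InfinitePlace L, NB w (ω * p'.1.1).1 A₁ := fun w =>
    (hN2 ω hω w).mul (nb_of_near hc₀ (hδ _).2 (hnp' w).1) hC20
  have hq : ∀ w : InfinitePlace L, NB w ((ω * p.1.1)⁻¹ : GL (I b) (EE L)).1 A₂ := fun w => by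
    have e : ((ω * p.1.1)⁻¹ : GL (I b) (EE L)).1 = p⁻¹.1.1.1 * (ω⁻¹ : GL (I b) (EE L)).1 := by
      rw [_root_.mul_inv_rev]
      rfl
    rw [e]
    exact (nb_of_near hc₀ (hδ _).2 (hnp w).2).mul (hN3 ω hω w) (by positivity)
  have h3 : γ.1.1 = (t'.1.1.1 * u.1.1.1) * (dgU b a * ((ω * p'.1.1) * (s'.1.1 * s.1.1⁻¹) * (ω * p.1.1)⁻¹) * (dgU b a)⁻¹) * (t.1.1.1 * u.1.1.1)⁻¹ := by
    have h1 : γ = t'.1 * (x * (p' * s')) * (t.1 * (x * (p * s)))⁻¹ := by
      rw [← h, mul_inv_cancel_right]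
    have h2 : γ.1.1 = t'.1.1.1 * (x.1.1 * (p'.1.1 * s'.1.1)) * (t.1.1.1 * (x.1.1 * (p.1.1 * s.1.1)))⁻¹ := congrArg (fun w : HRt H => w.1.1) h1
    rw [h2, hxu]
    group
  refine ⟨(t.1.1 * u.1.1)⁻¹, inv_mem (mul_mem t.2 u.2), t'.1.1 * u.1.1, mul_mem t'.2 u.2, (ω * p'.1.1).1 * (s' * s⁻¹).1.1.1 * ((ω * p.1.1)⁻¹ : GL (I b) (EE L)).1, fun i j w hw w' => ?_, congrArg Units.val h3⟩
  have h6 := Finset.single_le_sum (f := fun i => ((k i).factorial : ℝ) * c₁ i + ((k i).factorial : ℝ) * D ^ k i * (k i).factorial) (fun i _ => hB0 i) (Finset.mem_univ i)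
  have hδ' := hδ (w'.comap (algebraMap K L))
  have hX0 : 0 ≤ B i w' ^ 2 * δ (w'.comap (algebraMap K L)) ^ k i := mul_nonneg (sq_nonneg _) (pow_nonneg hδ'.1.le _)
  refine le_trans ?_ (mul_le_mul_of_nonneg_right h6 hX0)
  show mixedEmbedding.normAtPlace w' _ ≤ (((k i).factorial : ℝ) * c₁ i + ((k i).factorial : ℝ) * D ^ k i * (k i).factorial) * (B i w' ^ 2 * δ (w'.comap (algebraMap K L)) ^ k i)
  by_cases hS : δ (w'.comap (algebraMap K L)) = 1
  · rw [hS, one_pow, mul_one]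
    have hY : CB (k i) w' (s' * s⁻¹).1.1.1 (B i w' ^ 2) := by
      have e : (s' * s⁻¹).1.1.1 = s'.1.1.1 * s⁻¹.1.1.1 := rfl
      rw [e, sq]
      exact (hKB s' hs' i w').1.mul (hKB s hs i w').2 (hB i w')
    have h4 : CB (Fintype.card (Phi b i)) w' ((ω * p'.1.1).1 * (s' * s⁻¹).1.1.1 * ((ω * p.1.1)⁻¹ : GL (I b) (EE L)).1) ((n ^ k i * A₁ ^ k i) * B i w' ^ 2 * (n ^ k i * A₂ ^ k i)) := by
      rw [Fintype.card_coe]
      exact ((nb_cb (hq' w') (k i)).mul hY (sq_nonneg _)).mul (nb_cb (hq w') (k i)) (by positivity)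
    have h5 := h4.minor' (fun β : Phi b i => Sum.inr (w β.1)) (fun β : Phi b i => Sum.inr β.1)
    rw [Fintype.card_coe] at h5
    refine h5.trans ?_
    have h7 : 0 ≤ ((k i).factorial : ℝ) * D ^ k i * (k i).factorial := by positivity
    calc ((k i).factorial : ℝ) * ((n ^ k i * A₁ ^ k i) * B i w' ^ 2 * (n ^ k i * A₂ ^ k i)) = ((k i).factorial : ℝ) * c₁ i * B i w' ^ 2 := by ring
      _ ≤ _ := mul_le_mul_of_nonneg_right (by linarith) (sq_nonneg _)
  · -- near 1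
    have hs1 := (hSδ s hs w').resolve_left hS
    have hs2 := (hSδ s' hs' w').resolve_left hS
    have g0 : NB w' ((s' * s⁻¹).1.1.1 - 1) (c₂ * δ (w'.comap (algebraMap K L))) := by
      have e : (s' * s⁻¹).1.1.1 = s'.1.1.1 * s⁻¹.1.1.1 := rfl
      rw [e]
      exact nb_near_mul zero_le_one zero_le_one hδ'.1.le hδ'.2 (fun i j => by
        rw [one_mul]
        exact hs2.1 i j) (fun i j => by
        rw [one_mul]
        exact hs1.2 i j)
    have g1 : NB w' ((ω * p'.1.1).1 * (s' * s⁻¹).1.1.1 * ((ω * p.1.1)⁻¹ : GL (I b) (EE L)).1 - 1) (D * δ (w'.comap (algebraMap K L))) := by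
      have e1 : (ω * p.1.1).1 * ((ω * p.1.1)⁻¹ : GL (I b) (EE L)).1 = 1 := Units.mul_inv _
      have e2 : (ω * p'.1.1).1 * (s' * s⁻¹).1.1.1 * ((ω * p.1.1)⁻¹ : GL (I b) (EE L)).1 - 1 =
          (ω * p'.1.1).1 * ((s' * s⁻¹).1.1.1 - 1) * ((ω * p.1.1)⁻¹ : GL (I b) (EE L)).1 + ω.1 * ((p'.1.1.1 - 1) - (p.1.1.1 - 1)) * ((ω * p.1.1)⁻¹ : GL (I b) (EE L)).1 := by
        have e3 : ω.1 * ((p'.1.1.1 - 1) - (p.1.1.1 - 1)) = (ω * p'.1.1).1 - (ω * p.1.1).1 := by
          rw [sub_sub_sub_cancel_right, mul_sub]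
          rfl
        have e4 : ∀ A Y Z W : Matrix (I b) (I b) (EE L), A * (Y - 1) * Z + (A - W) * Z = A * Y * Z - W * Z := by
          intro A Y Z W
          rw [mul_sub, mul_one, sub_mul, sub_mul]
          abel
        rw [e3, e4, e1]
      rw [e2]
      have k1 := ((hq' w').mul g0 hA10).mul (hq w') (by
        have := hδ'.1.le
        positivity)
      have k2 := ((hN2 _ hω w').mul ((hnp' w').1.sub (hnp w').1) hC20).mul (hq w') (by
        have := hδ'.1.le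
        positivity)
      refine (k1.add k2).mono (le_of_eq ?_)
      rw [hD]
      ring
    have k3 : mixedEmbedding.normAtPlace w' (Dm b i w ((ω * p'.1.1).1 * (s' * s⁻¹).1.1.1 * ((ω * p.1.1)⁻¹ : GL (I b) (EE L)).1)) ≤ ((k i).factorial : ℝ) * (D * δ (w'.comap (algebraMap K L))) ^ k i := by
      have k4 := NB.minor (w := w') (X := D * δ (w'.comap (algebraMap K L))) (A := (ω * p'.1.1).1 * (s' * s⁻¹).1.1.1 * ((ω * p.1.1)⁻¹ : GL (I b) (EE L)).1) (fun β : Phi b i => Sum.inr (w β.1)) (fun β : Phi b i => Sum.inr β.1) (by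
        intro β β'
        have hne : (Sum.inr (w β.1) : I b) ≠ Sum.inr β'.1 := by
          intro he
          have h7 := Sum.inr.inj he
          have h8 := d3_pos β'.2
          have h9 := d3_neg ((hw β.1).1 β.2)
          rw [h7] at h9
          omega
        have k5 := g1 (Sum.inr (w β.1)) (Sum.inr β'.1)
        rw [Matrix.sub_apply, Matrix.one_apply_ne hne, sub_zero] at k5
        exact k5)
      rw [Fintype.card_coe] at k4
      exact k4
    -- the compounds of `s s⁻¹ = 1`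
    have hBB : 1 ≤ ((k i).factorial : ℝ) * B i w' ^ 2 := by
      have h8 : CB (Fintype.card (Phi b i)) w' (1 : Matrix (I b) (I b) (EE L)) (B i w' ^ 2) := by
        have h9 := (hKB s hs i w').1.mul (hKB s hs i w').2 (hB i w')
        have e : s.1.1.1 * s⁻¹.1.1.1 = 1 := s.1.1.mul_inv
        rw [e, ← sq] at h9
        rw [Fintype.card_coe]
        exact h9
      have h10 := h8.minor' (fun β : Phi b i => Sum.inr β.1) (fun β : Phi b i => Sum.inr β.1)
      have e : (1 : Matrix (I b) (I b) (EE L)).submatrix (fun β : Phi b i => Sum.inr β.1) (fun β : Phi b i => Sum.inr β.1) = 1 := by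
        ext1 β β'
        rw [Matrix.submatrix_apply, Matrix.one_apply, Matrix.one_apply]
        by_cases h11 : β = β'
        · rw [if_pos h11, if_pos (by rw [h11])]
        · rw [if_neg h11, if_neg fun h12 => h11 (Subtype.ext (Sum.inr.inj h12))]
      rw [e, Matrix.det_one, map_one, Fintype.card_coe] at h10
      exact h10
    have hpos : 0 ≤ ((k i).factorial : ℝ) * D ^ k i * δ (w'.comap (algebraMap K L)) ^ k i := by
      have := hδ'.1.le
      positivity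
    calc mixedEmbedding.normAtPlace w' (Dm b i w ((ω * p'.1.1).1 * (s' * s⁻¹).1.1.1 * ((ω * p.1.1)⁻¹ : GL (I b) (EE L)).1)) ≤ ((k i).factorial : ℝ) * (D * δ (w'.comap (algebraMap K L))) ^ k i := k3
      _ = (((k i).factorial : ℝ) * D ^ k i * δ (w'.comap (algebraMap K L)) ^ k i) * 1 := by
          rw [mul_pow]
          ring
      _ ≤ (((k i).factorial : ℝ) * D ^ k i * δ (w'.comap (algebraMap K L)) ^ k i) * (((k i).factorial : ℝ) * B i w' ^ 2) := mul_le_mul_of_nonneg_left hBB hpos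
      _ = ((k i).factorial : ℝ) * D ^ k i * (k i).factorial * (B i w' ^ 2 * δ (w'.comap (algebraMap K L)) ^ k i) := by ring
      _ ≤ _ := by
          refine mul_le_mul_of_nonneg_right ?_ hX0
          have : 0 ≤ ((k i).factorial : ℝ) * c₁ i := mul_nonneg (Nat.cast_nonneg _) (hc10 i)
          linarith

/-- **The double integral**, final form. -/
theorem pf_J' (Q : QS b K L) [IsGalois K L] {Ω : Set (GL (I b) (EE L))} (hΩ : IsCompact Ω) {S₀ : Set (HRt (HQ Q))} (hS₀ : IsCompact S₀) : ∃ C : ℝ, 0 ≤ C ∧ ∀ (𝔫 : Ideal (𝓞 K)), 𝔫 ≠ ⊥ → ∀ (v : HeightOneSpectrum (𝓞 K)) (r s : ℕ)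
    (t : HRt (HQ Q)) (a : ι → (EE L)ˣ), t.1.1.1 = dgz b a → ∀ x : HRt (HQ Q), InRz (HQ Q) Ω a x → ∀ δ : InfinitePlace K → ℝ, (∀ y, 0 < δ y ∧ δ y ≤ 1) →
    ∀ (μ : Measure (HRt (HQ Q))) [μ.IsHaarMeasure] (φ : HRt (HQ Q) → ℂ), Continuous φ → tsupport φ ⊆ S₀ → (∀ y ∈ tsupport φ, NearE δ y) →
    ∀ (ν : Measure (UHR (HQ Q))) [ν.IsHaarMeasure] (D' : Set (UHR (HQ Q))), IsFundamentalDomain (GamUH (HQ Q) 𝔫 v r s) D' ν →
      Jf (UHR (HQ Q)).subtype μ ν φ x ≤ ENNReal.ofReal (C * (∫ y, ‖φ y‖ ^ 2 ∂μ) * (∏ β ∈ Pos b, mixedEmbedding.norm (a β : EE L)) ^ ((Module.finrank K L : ℝ)⁻¹) * Dk L δ ^ (Pos b).card / (Ideal.absNorm 𝔫 : ℝ) ^ (Pos b).card) * ν D' := by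
  obtain ⟨c₀, hc₀, hN0⟩ := nearE_nearD (K := K) hS₀
  obtain ⟨C, hC, h⟩ := pf_J Q hΩ hc₀
  refine ⟨C, hC, fun 𝔫 h0 v r s t a ht x hx δ hδ μ _ φ cφ hφ hn ν _ D' hD' => ?_⟩
  have sφ : HasCompactSupport φ := HasCompactSupport.intro hS₀ fun x hx => by
    by_contra hne
    exact hx (hφ (subset_tsupport _ hne))
  exact h 𝔫 h0 v r s t a ht x hx δ hδ μ φ cφ sφ (fun y hy => hN0 y (hφ (subset_tsupport _ hy)) δ hδ (hn y (subset_tsupport _ hy))) ν D' hD'

end

end Pool.Agent.Lib.L8
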