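import Pool.Agent.Lib.L8.MF
import Pool.Agent.Lib.L8.PF8

/-!
# M, final form (helper85): hybrid density theorem, family of Hecke operators at `v`, test measure at the archimedean places, conductor aspect
-/

namespace Pool.Agent.Lib.L8

open MeasureTheory Matrix NumberField NumberField.InfinitePlace IsDedekindDomain Pool.Agent.Lib.H89N Pool.Agent.Lib.H33W Pool.Agent.Lib.H67G Pool.Agent.Lib.L1S
open scoped ENNReal Pointwise

noncomputable section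

set_option linter.unusedSectionVars false

variable {ι M N : Type} [Fintype ι] [DecidableEq ι] [AddCommGroup M] [Module ℚ M] [AddCommGroup N] [Module ℚ N]
  {P : RootPairing ι ℚ M N} [P.IsCrystallographic] {b : P.Base}

/-- **The statement**: the hybrid density theorem for the globally generic spectrum of the quasi-split group `(P, Q)` over `K`, at a finite place `v` and at the archimedean places, in the aspects of the level and of the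
archimedean conductor.
For compact sets `Ω`, `S₀` there is `C` such that for every level `𝔫`, `v`, `r`, `s`, distinct dominant coweights `λ_j` fixed by the Galois group with Hecke elements `h_j ∈ Γ_v λ_j(π)⁻¹` (`r + s ≥ 1` or all `λ_j = 0`), every
nondegenerate character `ψ`, every torus element `t = diag(a_β)` of `G` and `x ∈ U t Ω`, every complex measure `w τ` with support in a compact set `Kt` and norm at most `Λ` as a convolution operator on `L²(G)`, numbers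
`0 < δ_w ≤ 1` for the archimedean places `w` of `L` which depend only on the place of `K` below `w`, numbers `B i w` which bound the row sums of the `k_i`-th compound matrices of `g^(±1)`, `g ∈ Kt`, at `w`, such that
`δ_w = 1` or `|g^(±1) - 1|_w ≤ δ_w` for `g` in `Kt` and in the support of `φ`, all pairs `λ_j`, `λ_j'` satisfy the size condition `Sz4` with `R_i = ∏_w (B i w ^ 2 δ_w ^ k_i) ^ n_w`, `E_ij = ∏_{Φ_i} |a_β| ∏_{Φ_j} |a_β|`,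
every continuous `φ` with support in `S₀`, orthonormal `F_1, …, F_n` in `L²(Γ \ G)` with `F_l * φ = c_l F_l`, `F_l * (w τ) = κ_l F_l` and the eigenvalues `t_lj` of `Γ h_j Γ`, and complex numbers `α_j`:
`∑_l |c_l κ_l (∑_j α_j t_lj) W_l(x)|² ≤ C Λ² (∑_j |α_j|² q ^ (∑_{β > 0} ⟨β, λ_j⟩)) ‖φ‖₂² (∏_{β > 0} δ |a_β|) ^ (1 / [L : K]) N ^ (-#Φ⁺)`, `δ = ∏_w δ_w ^ n_w`. -/
def StatementG [P.IsRootSystem] {K L : Type} [Field K] [NumberField K] [Field L] [NumberField L] [Algebra K L] (Q : QS b K L) : Prop :=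
  ∀ (Ω : Set (GL (I b) (EE L))) (S₀ : Set (HRt (HQ Q))), IsCompact Ω → IsCompact S₀ → ∃ C : ℝ,
    ∀ (v : HeightOneSpectrum (𝓞 K)) (𝔫 : Ideal (𝓞 K)), 𝔫 ≠ ⊥ → ¬𝔫 ≤ v.asIdeal → ∀ (r s k : ℕ) (c : Fin k → b.support → ℤ), Function.Injective c → (∀ j, InvC Q (c j)) →
    (∀ j (i : b.support), 0 ≤ pr b (c j) (Sum.inr i)) → (1 ≤ r + s ∨ ∀ j, c j = 0) →
    ∀ π : K, v.valuation K π = WithZero.exp (-1 : ℤ) → ∀ h : Fin k → HQ Q, (∀ j, (h j).1 ∈ HGL b L 𝔫 v ∧ AtVL b v r s π (c j) (h j).1) →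
    ∀ θ : b.support → (EE L →ₗ[ℝ] ℝ), GenQ Q 𝔫 v r s θ →
    ∀ (t : HRt (HQ Q)) (a : ι → (EE L)ˣ), t.1.1.1 = dgz b a → ∀ x : HRt (HQ Q), (∃ u : UHR (HQ Q), ∃ ω ∈ Ω, x.1.1.1 = u.1.1.1.1 * t.1.1.1 * ω.1) →
    ∀ (μ τ : Measure (HRt (HQ Q))) [μ.IsHaarMeasure] (w : HRt (HQ Q) → ℂ) (Kt : Set (HRt (HQ Q))) (Λ : ℝ), CvD μ τ w Kt Λ →
    ∀ B : b.support → InfinitePlace L → ℝ, (∀ i w, 0 ≤ B i w) → KB (HQ Q) B Kt →
    ∀ φ : HRt (HQ Q) → ℂ, Continuous φ → tsupport φ ⊆ S₀ →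
    ∀ δ : InfinitePlace L → ℝ, (∀ w, 0 < δ w ∧ δ w ≤ 1) → (∀ w w', w.comap (algebraMap K L) = w'.comap (algebraMap K L) → δ w = δ w') →
    (∀ g, g ∈ Kt ∨ g ∈ tsupport φ → ∀ w, δ w = 1 ∨ ∀ i j, mixedEmbedding.normAtPlace w ((g.1.1.1 - 1) i j) ≤ δ w ∧ mixedEmbedding.normAtPlace w ((g⁻¹.1.1.1 - 1) i j) ≤ δ w) →
    (∀ j j', Sz4 b L 𝔫 v r s (c j) (c j') (fun i => ∏ w, (B i w ^ 2 * δ w ^ (Phi b i).card) ^ mult w) (Ea b a)) →
    ∀ (ν : Measure (UHR (HQ Q))) [ν.IsHaarMeasure] (D₀ : Set (UHR (HQ Q))), IsFundamentalDomain (GamUH (HQ Q) 𝔫 v r s) D₀ ν →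
    ∀ D : Set (HRt (HQ Q)), IsFundamentalDomain (GamHR (HQ Q) 𝔫 v r s) D μ →
    ∀ (n : ℕ) (F : Fin n → HRt (HQ Q) → ℂ) (c' κ : Fin n → ℂ), (∀ l, AutF Q 𝔫 v r s μ D φ τ w (F l) (c' l) (κ l)) → (∀ l k, ∫ x in D, star (F l x) * F k x ∂μ = if l = k then 1 else 0) →
    ∀ t' : Fin n → Fin k → ℂ, (∀ l j, IsTH (HQ Q) 𝔫 v r s (h j) (F l) (t' l j)) → ∀ α : Fin k → ℂ,
      ∑ l, ‖c' l * κ l * (∑ j, α j * t' l j) * WhH (HQ Q) ν D₀ θ (F l) x‖ ^ 2 ≤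
        C * Λ ^ 2 * (∑ j, ‖α j‖ ^ 2 * (Ideal.absNorm v.asIdeal : ℝ) ^ (∑ β ∈ Pos b, pr b (c j) (Sum.inr β))) * (∫ y, ‖φ y‖ ^ 2 ∂μ) *
          ((∏ β ∈ Pos b, (∏ w, δ w ^ mult w) * mixedEmbedding.norm (a β : EE L)) ^ ((Module.finrank K L : ℝ)⁻¹) / (Ideal.absNorm 𝔫 : ℝ) ^ (Pos b).card)

variable [P.IsRootSystem] [P.IsReduced] [P.IsIrreducible] {K L : Type} [Field K] [NumberField K] [Field L] [NumberField L] [Algebra K L]

/-- The two forms of the factor of the volume. -/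
theorem mg_X {δ : InfinitePlace L → ℝ} (hδ : ∀ w, 0 < δ w) (a : ι → (EE L)ˣ) :
    (∏ β ∈ Pos b, mixedEmbedding.norm (a β : EE L)) ^ ((Module.finrank K L : ℝ)⁻¹) * ((∏ w, δ w ^ mult w) ^ ((Module.finrank K L : ℝ)⁻¹)) ^ (Pos b).card =
      (∏ β ∈ Pos b, (∏ w, δ w ^ mult w) * mixedEmbedding.norm (a β : EE L)) ^ ((Module.finrank K L : ℝ)⁻¹) := by
  have h0 : (0 : ℝ) ≤ ∏ w, δ w ^ mult w := Finset.prod_nonneg fun w _ => pow_nonneg (hδ w).le _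
  have h1 : (0 : ℝ) ≤ ∏ β ∈ Pos b, mixedEmbedding.norm (a β : EE L) := Finset.prod_nonneg fun β _ => mixedEmbedding.norm_nonneg _
  rw [Finset.prod_mul_distrib, Finset.prod_const, Real.mul_rpow (pow_nonneg h0 _) h1, mul_comm]
  congr 1
  rw [← Real.rpow_natCast, ← Real.rpow_natCast, ← Real.rpow_mul h0, ← Real.rpow_mul h0, mul_comm]

/-- **The hybrid density theorem.** -/
theorem statementG (Q : QS b K L) [IsGalois K L] : StatementG Q := by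
  classical
  intro Ω S₀ hΩ hS₀
  obtain ⟨c₁, hc1, hmv⟩ := pf_mv7 b K L (HQ Q) hΩ hS₀
  obtain ⟨m₀, hm₀⟩ := qb_star5 Q c₁
  obtain ⟨CJ, hCJ0, hCJ⟩ := pf_J' Q hΩ hS₀
  obtain ⟨CI, hCI0, hCI⟩ := mf_abs Q
  refine ⟨((6 ^ m₀ : ℕ) ^ Module.finrank ℚ L : ℝ) ^ (Fintype.card (I b) ^ 2) * CI * CJ, ?_⟩
  intro v 𝔫 h0 hv r s k c hinj hcQ hc hrs π hπ h hh θ hθ t a hta x hx μ τ _ w Kt Λ hτ B hB hKB φ cφ sφ' δ hδ hδK hnear hsz ν _ D₀ hD₀ D hD n F c' κ hF hort t' ht' α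
  have ha : ∀ β, a (P.reflectionPerm β β) = (a β)⁻¹ := fun β => pe_inv (g := t.1) hta β
  have hx' : InRz (HQ Q) Ω a x := by
    obtain ⟨u, ω, hω, e⟩ := hx
    exact ⟨u, ω, hω, by rw [e, hta]⟩
  have sφ : HasCompactSupport φ := HasCompactSupport.intro hS₀ fun x hx => by
    by_contra hne
    exact hx (sφ' (subset_tsupport _ hne))
  -- the numbers `δ` on the places of `K`
  have hfin : Algebra.IsAlgebraic K L := by
    have : FiniteDimensional K L := Module.Finite.of_restrictScalars_finite ℚ K L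
    exact Algebra.IsAlgebraic.of_finite K L
  choose sec hsec using comap_surjective (k := K) (K := L)
  obtain ⟨δ', hδ'⟩ : ∃ δ' : InfinitePlace K → ℝ, δ' = fun y => δ (sec y) := ⟨_, rfl⟩
  have hδw : ∀ w : InfinitePlace L, δ' (w.comap (algebraMap K L)) = δ w := fun w => by
    rw [hδ']
    exact hδK _ _ (hsec _)
  have hδ0 : ∀ y, 0 < δ' y ∧ δ' y ≤ 1 := fun y => by
    rw [hδ']
    exact hδ _
  have hN : ∀ g, g ∈ Kt ∨ g ∈ tsupport φ → NearE δ' g := fun g hg w => by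
    rw [hδw]
    rcases hnear g hg w with h1 | h1
    · exact Or.inl h1
    · exact Or.inr ⟨fun i j => (h1 i j).1, fun i j => (h1 i j).2⟩
  -- the dichotomy
  have hdich : ∀ m₁ : ℕ, m₀ ≤ m₁ → (m₁ : 𝓞 K) ∉ v.asIdeal → ∀ g : Fin k → HQ Q, (∀ j, LvL b (Ideal.span {(m₁ : 𝓞 K)} * 𝔫) v r s (c j) π (g j).1) →
      ∀ i j (γ : HQ Q), g i * γ * (g j)⁻¹ ∈ GamQ (HQ Q) (Ideal.span {(m₁ : 𝓞 K)} * 𝔫) v r s →
      MvT (HQ Q) x (tsupport φ * Kt ^ 1) (embH (HQ Q) γ) → (i = j ∧ γ ∈ HUH (HQ Q)) ∨ AltH (HQ Q) θ γ := by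
    intro m₁ hm1 hm3 g hL i j γ hγ hM
    rw [pow_one] at hM
    have h2 := hmv a x hx' (tsupport φ) Kt δ' hδ0 sφ' (fun y hy => hN y (Or.inr hy)) (fun y hy => hN y (Or.inl hy)) B hB hKB (embH (HQ Q) γ) hM
    have hsz' : Sz4 b L 𝔫 v r s (c j) (c i) (Rf b fun i w => B i w ^ 2 * δ' (w.comap (algebraMap K L)) ^ (Phi b i).card) (Ea b a) := by
      have e : (Rf b fun i w => B i w ^ 2 * δ' (w.comap (algebraMap K L)) ^ (Phi b i).card) = fun i => ∏ w, (B i w ^ 2 * δ w ^ (Phi b i).card) ^ mult w := by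
        funext i
        unfold Rf
        refine Finset.prod_congr rfl fun w _ => ?_
        show (B i w ^ 2 * δ' (w.comap (algebraMap K L)) ^ (Phi b i).card) ^ mult w = _
        rw [hδw]
      rw [e]
      exact hsz j i
    rcases hm₀ m₁ hm1 v hm3 𝔫 r s (c j) (c i) π (g j) (g i) (hL j) (hL i) a ha _ (fun i w => mul_nonneg (sq_nonneg _) (pow_nonneg (hδ0 _).1.le _)) hsz' θ hθ.1 γ hγ h2 with h3 | h3
    · exact Or.inl ⟨(hinj h3.2).symm, h3.1⟩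
    · exact Or.inr h3
  -- the double integral
  have hJ := hCJ 𝔫 h0 v r s t a hta x hx' δ' hδ0 μ φ cφ sφ' (fun y hy => hN y (Or.inr hy)) ν D₀ hD₀
  obtain ⟨D₁, hD₁⟩ := (dsc_Gam (HQ Q) 𝔫 v r s).sfU
  have hcc0 : CCH (HQ Q) (GamQ (HQ Q) 𝔫 v r s) := by
    have h2 : CCH (HQ Q) (cjG (GamQ (HQ Q) 𝔫 v r s) 1) := qa_cc Q h0 v r s 1
    rw [cjG_one] at h2
    exact h2
  have hvD : ν D₀ = ν D₁ := th2_volU (HQ Q) ν hD₁ hD₀
  have pD : ν D₀ ≠ 0 := by rw [hvD]; exact th2_pos (HQ Q) hD₁ ν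
  have fD : ν D₀ ≠ ⊤ := by rw [hvD]; exact th2_fin (HQ Q) hcc0 hD₁ ν
  have hφ0 : 0 ≤ ∫ y, ‖φ y‖ ^ 2 ∂μ := integral_nonneg fun y => by positivity
  have hP0 : 0 ≤ ∏ β ∈ Pos b, (∏ w, δ w ^ mult w) * mixedEmbedding.norm (a β : EE L) :=
    Finset.prod_nonneg fun β _ => mul_nonneg (Finset.prod_nonneg fun w _ => pow_nonneg (hδ w).1.le _) (mixedEmbedding.norm_nonneg _)
  have hX0 : 0 ≤ (∏ β ∈ Pos b, (∏ w, δ w ^ mult w) * mixedEmbedding.norm (a β : EE L)) ^ ((Module.finrank K L : ℝ)⁻¹) / (Ideal.absNorm 𝔫 : ℝ) ^ (Pos b).card :=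
    div_nonneg (Real.rpow_nonneg hP0 _) (pow_nonneg (Nat.cast_nonneg _) _)
  have hJr : (Jf (UHR (HQ Q)).subtype μ ν φ x / ν D₀).toReal ≤
      CJ * (∫ y, ‖φ y‖ ^ 2 ∂μ) * ((∏ β ∈ Pos b, (∏ w, δ w ^ mult w) * mixedEmbedding.norm (a β : EE L)) ^ ((Module.finrank K L : ℝ)⁻¹) / (Ideal.absNorm 𝔫 : ℝ) ^ (Pos b).card) := by
    refine ENNReal.toReal_le_of_le_ofReal (by positivity) ?_
    rw [ENNReal.div_le_iff pD fD]
    refine hJ.trans (le_of_eq ?_)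
    congr 2
    have e1 : Dk L δ' = (∏ w, δ w ^ mult w) ^ ((Module.finrank K L : ℝ)⁻¹) := by
      unfold Dk
      congr 1
      exact Finset.prod_congr rfl fun w _ => by rw [hδw]
    rw [e1, ← mg_X (fun w => (hδ w).1) a]
    ring
  have hq1 : (0 : ℝ) < Ideal.absNorm v.asIdeal := Nat.cast_pos.2 (Nat.pos_of_ne_zero (by
    rw [Ne, Ideal.absNorm_eq_zero_iff]
    exact v.ne_bot))
  have hS0 : 0 ≤ ∑ j, ‖α j‖ ^ 2 * (Ideal.absNorm v.asIdeal : ℝ) ^ (∑ β ∈ Pos b, pr b (c j) (Sum.inr β)) :=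
    Finset.sum_nonneg fun j _ => mul_nonneg (sq_nonneg _) (zpow_pos hq1 _).le
  have hc1' : (0 : ℝ) ≤ ((6 ^ m₀ : ℕ) ^ Module.finrank ℚ L : ℝ) ^ (Fintype.card (I b) ^ 2) := by positivity
  have hΛ : 0 ≤ Λ ^ 2 := sq_nonneg _
  have fin : ∀ {S : ℝ}, S ≤ ((6 ^ m₀ : ℕ) ^ Module.finrank ℚ L : ℝ) ^ (Fintype.card (I b) ^ 2) * CI * Λ ^ (2 * 1) * (Jf (UHR (HQ Q)).subtype μ ν φ x / ν D₀).toReal *
      (∑ j, ‖α j‖ ^ 2 * (Ideal.absNorm v.asIdeal : ℝ) ^ (∑ β ∈ Pos b, pr b (c j) (Sum.inr β))) →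
      S ≤ ((6 ^ m₀ : ℕ) ^ Module.finrank ℚ L : ℝ) ^ (Fintype.card (I b) ^ 2) * CI * CJ * Λ ^ 2 * (∑ j, ‖α j‖ ^ 2 * (Ideal.absNorm v.asIdeal : ℝ) ^ (∑ β ∈ Pos b, pr b (c j) (Sum.inr β))) * (∫ y, ‖φ y‖ ^ 2 ∂μ) *
        ((∏ β ∈ Pos b, (∏ w, δ w ^ mult w) * mixedEmbedding.norm (a β : EE L)) ^ ((Module.finrank K L : ℝ)⁻¹) / (Ideal.absNorm 𝔫 : ℝ) ^ (Pos b).card) := by
    intro S hS
    refine hS.trans ?_
    rw [mul_one]
    have h1 : 0 ≤ ((6 ^ m₀ : ℕ) ^ Module.finrank ℚ L : ℝ) ^ (Fintype.card (I b) ^ 2) * CI * Λ ^ 2 := mul_nonneg (mul_nonneg hc1' hCI0.le) hΛ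
    refine (mul_le_mul_of_nonneg_right (mul_le_mul_of_nonneg_left hJr h1) hS0).trans (le_of_eq ?_)
    ring
  rcases hrs with hrs | hc0
  · -- Hecke operators at `v`
    have key := (hCI m₀ v 𝔫 h0 hv r s k c hcQ hc π hπ h hh θ hθ x μ τ w Kt Λ hτ 1 φ cφ sφ hdich ν D₀ hD₀ D hD n F c' κ hF hort α).2 hrs t' ht'
    refine fin (le_trans (le_of_eq ?_) key)
    simp only [pow_one]
  · -- the trivial coweight
    have hhΓ : ∀ j, h j ∈ GamQ (HQ Q) 𝔫 v r s := fun j => mm_gam Q h0 hv hπ (hh j).1 (by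
      have h2 := (hh j).2
      rwa [hc0 j] at h2)
    have h1L := qm8_LvL (b := b) (L := L) h0 hv r s hπ
    have key := (hCI m₀ v 𝔫 h0 hv r s k c hcQ hc π hπ (fun _ => 1) (fun j => by
      rw [hc0 j]
      exact ⟨h1L.hh, h1L.hv⟩) θ hθ x μ τ w Kt Λ hτ 1 φ cφ sφ hdich ν D₀ hD₀ D hD n F c' κ hF hort α).1 (fun _ => D₀) (fun _ => by
        have h1 := imUh_eq (HQ Q) (GamQ (HQ Q) 𝔫 v r s) 1
        rw [cjG_one] at h1
        show IsFundamentalDomain (imUh (HQ Q) (GamQ (HQ Q) 𝔫 v r s) 1) D₀ ν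
        rw [h1]
        exact hD₀)
    simp only [pow_one, map_one, one_mul] at key
    refine fin (le_trans (le_of_eq ?_) (key.trans (le_of_eq ?_)))
    · refine Finset.sum_congr rfl fun l _ => ?_
      have e2 : ∀ j, t' l j * WhH (HQ Q) ν D₀ θ (F l) x = WhH (HQ Q) ν D₀ θ (F l) x := by
        intro j
        unfold WhH
        rw [setAverage_eq, mul_smul_comm, ← integral_const_mul]
        congr 1
        refine integral_congr_ae (Filter.Eventually.of_forall fun u => ?_)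
        show t' l j * (F l (u.1 * x) * star (psiH (HQ Q) θ u)) = F l (u.1 * x) * star (psiH (HQ Q) θ u)
        rw [← mul_assoc, mm_triv (hhΓ j) (hF l).inv (ht' l j)]
      congr 2
      rw [mul_assoc, Finset.sum_mul]
      congr 1
      exact Finset.sum_congr rfl fun j _ => by rw [mul_assoc, e2 j]
    · congr 1
      refine Finset.sum_congr rfl fun j _ => ?_
      rw [hc0 j]
      have e3 : (∑ β ∈ Pos b, pr b (0 : b.support → ℤ) (Sum.inr β)) = 0 := Finset.sum_eq_zero fun β _ => by simp [pr]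
      rw [e3, zpow_zero, inv_one]

end

end Pool.Agent.Lib.L8
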