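import Pool.Agent.Lib.L8.PD2

/-!
# L8, module P4, file PD3 (helper29): the dichotomy with growth at the infinite places
-/

namespace Pool.Agent.Lib.L8

set_option linter.unusedSectionVars false

open MeasureTheory Matrix NumberField NumberField.InfinitePlace IsDedekindDomain Pool.Agent.Lib.H89N Pool.Agent.Lib.H33W Pool.Agent.Lib.L1S

noncomputable section

variable {ι M N : Type} [Fintype ι] [DecidableEq ι] [AddCommGroup M] [Module ℚ M] [AddCommGroup N] [Module ℚ N]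
  {P : RootPairing ι ℚ M N} [P.IsCrystallographic] [P.IsReduced] [P.IsIrreducible] [P.IsRootSystem] {b : P.Base}

/-- **The size condition** for two coweights `λ`, `λ'`, the point `A` and the archimedean factors `R i`; `q = N(v)`, `N = N(𝔫)`, `d = [K : ℚ]`: for `w Φ_i = - Φ_j` and `k_i = |Φ_i|`:
`q ^ ([L : K] (S_i(λ) + S_j(λ'))) R_i ≤ ((N q ^ (r + s)) ^ k_i exp(d (A(Φ_i) + A(Φ_j)))) ^ [L : K]`, or for some simple root `α_l` and `T ≥ m_l(β)` for all `β`: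
`(q ^ ([L : K] (S_i(λ) + S_j(λ'))) R_i) ^ T ≤ ((N q ^ (r + s)) ^ P exp(T d (A(Φ_i) + A(Φ_j)))) ^ [L : K]`, `P` the sum of the coefficients `m_l` of the roots in `Φ_i` and in `Φ_j`. -/
def Sz3 (b : P.Base) {K : Type} (L : Type) [Field K] [NumberField K] [Field L] [NumberField L] [Algebra K L] (𝔫 : Ideal (𝓞 K)) (v : HeightOneSpectrum (𝓞 K)) (r s : ℕ) (c c' : b.support → ℤ)
    (A : M →ₗ[ℚ] ℝ) (R : b.support → ℝ) : Prop :=
  ∀ i j, Opp b i j →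
    ((Ideal.absNorm v.asIdeal : ℝ) ^ (Sl b i c + Sl b j c')) ^ Module.finrank K L * R i ≤
      (((Ideal.absNorm 𝔫 : ℝ) * (Ideal.absNorm v.asIdeal : ℝ) ^ (r + s)) ^ (Phi b i).card * Real.exp (Module.finrank ℚ K * (AA b A i + AA b A j))) ^ Module.finrank K L ∨
    ∃ (l : b.support) (T : ℕ), (∀ β, mc b l (Sum.inr β) ≤ T) ∧
      (((Ideal.absNorm v.asIdeal : ℝ) ^ (Sl b i c + Sl b j c')) ^ Module.finrank K L * R i) ^ T ≤
        (((Ideal.absNorm 𝔫 : ℝ) * (Ideal.absNorm v.asIdeal : ℝ) ^ (r + s)) ^ (SM b i l + SM b j l) * Real.exp (Module.finrank ℚ K * (AA b A i + AA b A j)) ^ T) ^ Module.finrank K L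

/-- **The size condition** with the factor `E i j` of the point (a power `[L : K]` included in `E` and in `R`). -/
def Sz4 (b : P.Base) {K : Type} (L : Type) [Field K] [NumberField K] [Field L] [NumberField L] [Algebra K L] (𝔫 : Ideal (𝓞 K)) (v : HeightOneSpectrum (𝓞 K)) (r s : ℕ) (c c' : b.support → ℤ)
    (R : b.support → ℝ) (E : b.support → b.support → ℝ) : Prop :=
  ∀ i j, Opp b i j →
    ((Ideal.absNorm v.asIdeal : ℝ) ^ (Sl b i c + Sl b j c')) ^ Module.finrank K L * R i ≤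
      (((Ideal.absNorm 𝔫 : ℝ) * (Ideal.absNorm v.asIdeal : ℝ) ^ (r + s)) ^ (Phi b i).card) ^ Module.finrank K L * E i j ∨
    ∃ (l : b.support) (T : ℕ), (∀ β, mc b l (Sum.inr β) ≤ T) ∧
      (((Ideal.absNorm v.asIdeal : ℝ) ^ (Sl b i c + Sl b j c')) ^ Module.finrank K L * R i) ^ T ≤
        (((Ideal.absNorm 𝔫 : ℝ) * (Ideal.absNorm v.asIdeal : ℝ) ^ (r + s)) ^ (SM b i l + SM b j l)) ^ Module.finrank K L * E i j ^ T

theorem Sz3.sz4 {K L : Type} [Field K] [NumberField K] [Field L] [NumberField L] [Algebra K L] {𝔫 : Ideal (𝓞 K)} {v : HeightOneSpectrum (𝓞 K)} {r s : ℕ} {c c' : b.support → ℤ}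
    {A : M →ₗ[ℚ] ℝ} {R : b.support → ℝ} (h : Sz3 b L 𝔫 v r s c c' A R) : Sz4 b L 𝔫 v r s c c' R (Ea b (aA P L A)) := by
  intro i j hO
  have e2 : Ea b (aA P L A) i j = Real.exp (Module.finrank ℚ K * (AA b A i + AA b A j)) ^ Module.finrank K L := by
    rw [ea_aA, ← Real.exp_nat_mul, ← Module.finrank_mul_finrank ℚ K L, Nat.cast_mul]
    congr 1
    ring
  rcases h i j hO with h1 | ⟨l, T, hT, h1⟩
  · left
    rw [e2, ← mul_pow]
    exact h1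
  · right
    refine ⟨l, T, hT, ?_⟩
    rw [e2, ← pow_mul (Real.exp _), mul_comm (Module.finrank K L) T, pow_mul (Real.exp _), ← mul_pow]
    exact h1

/-- The size condition over the splitting field. -/
theorem pd_szx {q n : ℝ} {e g : ℕ} {c c' : b.support → ℤ} {R : b.support → ℝ} {E : b.support → b.support → ℝ}
    (h : ∀ i j, Opp b i j →
      (q ^ (Sl b i c + Sl b j c')) ^ g * R i ≤ ((n * q ^ e) ^ (Phi b i).card) ^ g * E i j ∨
      ∃ (l : b.support) (T : ℕ), (∀ β, mc b l (Sum.inr β) ≤ T) ∧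
        ((q ^ (Sl b i c + Sl b j c')) ^ g * R i) ^ T ≤ ((n * q ^ e) ^ (SM b i l + SM b j l)) ^ g * E i j ^ T) :
    Szx b (q ^ g) (n ^ g) e c c' R E := by
  intro i j hO
  have e0 : n ^ g * (q ^ g) ^ e = (n * q ^ e) ^ g := by
    rw [mul_pow, ← pow_mul, ← pow_mul, mul_comm g e]
  have e1 : ∀ (x : ℝ) (m : ℤ), (x ^ g) ^ m = (x ^ m) ^ g := by
    intro x m
    rw [← zpow_natCast, ← zpow_natCast, ← _root_.zpow_mul, ← _root_.zpow_mul, mul_comm]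
  rcases h i j hO with h1 | ⟨l, T, hT, h1⟩
  · left
    rw [e0, e1, ← pow_mul (n * q ^ e) g, mul_comm g (Phi b i).card, pow_mul (n * q ^ e)]
    exact h1
  · right
    refine ⟨l, T, hT, ?_⟩
    rw [e0, e1, e1]
    exact h1

variable {K L : Type} [Field K] [NumberField K] [Field L] [NumberField L] [Algebra K L]

/-- **The dichotomy for quasi-split groups with growth at the infinite places and for all points of the torus.** -/
theorem qb_star4 (Q : QS b K L) {Ω : Set (GL (I b) (EE L))} (hΩ : IsCompact Ω) : ∃ m₀ : ℕ, ∀ m : ℕ, m₀ ≤ m → ∀ (v : HeightOneSpectrum (𝓞 K)), (m : 𝓞 K) ∉ v.asIdeal →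
    ∀ (𝔫 : Ideal (𝓞 K)) (r s : ℕ) (c c' : b.support → ℤ) (π : K) (h h' : HQ Q), LvL b (Ideal.span {(m : 𝓞 K)} * 𝔫) v r s c π h.1 →
    LvL b (Ideal.span {(m : 𝓞 K)} * 𝔫) v r s c' π h'.1 →
    ∀ a : ι → (EE L)ˣ, (∀ β, a (P.reflectionPerm β β) = (a β)⁻¹) →
    ∀ X : b.support → InfinitePlace L → ℝ, (∀ i w, 0 ≤ X i w) → Sz4 b L 𝔫 v r s c c' (Rf b X) (Ea b a) →
    ∀ θ : b.support → (EE L →ₗ[ℝ] ℝ), (∀ i, ∃ z : L, ∑ t : L ≃ₐ[K] L, θ ((Q.da t).sp i) (mixedEmbedding L (t z)) ≠ 0) →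
    ∀ γ : HQ Q, h' * γ * h⁻¹ ∈ GamQ (HQ Q) (Ideal.span {(m : 𝓞 K)} * 𝔫) v r s → Mv4 b Ω a X (emb b L γ.1) → (γ ∈ HUH (HQ Q) ∧ c = c') ∨ AltH (HQ Q) θ γ := by
  obtain ⟨m₁, hm₁⟩ := pd_zero b L hΩ
  refine ⟨max m₁ (2 * Fintype.card (I b) + 1), fun m hm v hv 𝔫 r s c c' π h h' hL hL' a ha X hX hS θ hθ γ hγ hM => ?_⟩
  have hm1 : m₁ ≤ m := (le_max_left _ _).trans hm
  have hm2 : 2 * Fintype.card (I b) < m := (le_max_right m₁ (2 * Fintype.card (I b) + 1)).trans hm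
  have hγ' : h'.1 * γ.1 * h.1⁻¹ ∈ GamL b L (Ideal.span {(m : 𝓞 K)} * 𝔫) v r s := hγ
  have hn0 : 𝔫 ≠ ⊥ := by
    rintro rfl
    exact hL.ne (by rw [Ideal.mul_bot])
  have hup : L1S.up L (Ideal.span {(m : 𝓞 K)} * 𝔫) = Ideal.span {(m : 𝓞 L)} * L1S.up L 𝔫 := by
    unfold L1S.up
    rw [Ideal.map_mul, Ideal.map_span, Set.image_singleton, map_natCast]
  have hnv : ∀ J : Ideal (𝓞 K), Ideal.absNorm (L1S.up L J) = Ideal.absNorm J ^ Module.finrank K L := by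
    intro J
    have h1 := Ideal.absNorm_algebraMap (R := 𝓞 K) (S := 𝓞 L) J
    rw [← IsFractionRing.finrank_eq (𝓞 K) K (𝓞 L) L] at h1
    exact h1
  have hS' : Szx b (Ideal.absNorm (L1S.up L v.asIdeal)) (Ideal.absNorm (L1S.up L 𝔫)) (r + s) c c' (Rf b X) (Ea b a) := by
    rw [hnv, hnv, Nat.cast_pow, Nat.cast_pow]
    exact pd_szx hS
  have hq := qb4_qloc hL hL' hγ'
  rw [hup] at hq
  have hD := hm₁ m hm1 (L1S.up L 𝔫) (L1S.up L v.asIdeal) (qb4_ne L hn0) (qb4_ne L v.ne_bot) (r + s) c c' (algebraMap K L π) a ha X hX hS' γ.1 hq hM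
  have hG : γ.1 ∈ HGL b L (Ideal.span {(m : 𝓞 K)} * 𝔫) v := by
    have e : γ.1 = h'.1⁻¹ * (h'.1 * γ.1 * h.1⁻¹) * h.1 := by group
    rw [e]
    exact rh3_HGL_mul (rh3_HGL_mul (rh3_HGL_inv hL'.hh) ((rh3_GamL hL.nv hL.hπ).1 hγ').1) hL.hh
  obtain ⟨j, hj⟩ := hG
  rcases qb3_core hm2 hv Q (θ := θ) hθ (δ := γ) (j := j) (fun i => qb3_den_mono Ideal.mul_le_left (hj i i).1) (fun i j w hw hO => hD i j w hw hO) with h1 | h1
  · left
    refine ⟨h1, bf2_inj fun i => ?_⟩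
    have hU : γ.1 ∈ HU b L := h1
    obtain ⟨g, hg, hg', e1, e2⟩ := qb4_v hL.nv hL.hπ hL.hv hL'.hv hγ'
    have hπ0 : algebraMap K L π ≠ 0 := by
      rw [Ne, map_eq_zero]
      rintro rfl
      have := hL.hπ
      rw [map_zero] at this
      exact WithZero.exp_ne_zero this.symm
    have d1 : γ.1.1.1 i i = 1 := bf2_diag hU i
    have d2 : γ.1⁻¹.1.1 i i = 1 := bf2_diag (inv_mem hU) i
    have f1 : g.1.1 i i = algebraMap K L π ^ (pr b c i - pr b c' i) := by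
      have h2 := e1 i i
      rw [d1] at h2
      have h3 : algebraMap K L π ^ (pr b c i - pr b c' i) * (algebraMap K L π ^ pr b c' i * g.1.1 i i * algebraMap K L π ^ (-pr b c i)) = g.1.1 i i := by
        rw [zpow_sub₀ hπ0, _root_.zpow_neg]
        have h4 := zpow_ne_zero (pr b c i) hπ0
        have h5 := zpow_ne_zero (pr b c' i) hπ0
        field_simp
      rw [← h2, mul_one] at h3
      exact h3.symm
    have f2 : g⁻¹.1.1 i i = algebraMap K L π ^ (pr b c' i - pr b c i) := by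
      have h2 := e2 i i
      rw [d2] at h2
      have h3 : algebraMap K L π ^ (pr b c' i - pr b c i) * (algebraMap K L π ^ pr b c i * g⁻¹.1.1 i i * algebraMap K L π ^ (-pr b c' i)) = g⁻¹.1.1 i i := by
        rw [zpow_sub₀ hπ0, _root_.zpow_neg]
        have h4 := zpow_ne_zero (pr b c i) hπ0
        have h5 := zpow_ne_zero (pr b c' i) hπ0
        field_simp
      rw [← h2, mul_one] at h3
      exact h3.symm
    have g1 := (hg i i).1
    have g2 := (hg' i i).1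
    rw [f1] at g1
    rw [f2] at g2
    have k1 := qb3_pi hL.hπ g1
    have k2 := qb3_pi hL.hπ g2
    lia
  · exact Or.inr h1

/-- **The dichotomy for quasi-split groups with growth at the infinite places**, at the points `exp(A)`. -/
theorem qb_star3 (Q : QS b K L) {Ω : Set (GL (I b) (EE L))} (hΩ : IsCompact Ω) : ∃ m₀ : ℕ, ∀ m : ℕ, m₀ ≤ m → ∀ (v : HeightOneSpectrum (𝓞 K)), (m : 𝓞 K) ∉ v.asIdeal →
    ∀ (𝔫 : Ideal (𝓞 K)) (r s : ℕ) (c c' : b.support → ℤ) (π : K) (h h' : HQ Q), LvL b (Ideal.span {(m : 𝓞 K)} * 𝔫) v r s c π h.1 →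
    LvL b (Ideal.span {(m : 𝓞 K)} * 𝔫) v r s c' π h'.1 →
    ∀ (A : M →ₗ[ℚ] ℝ) (X : b.support → InfinitePlace L → ℝ), (∀ i w, 0 ≤ X i w) → Sz3 b L 𝔫 v r s c c' A (Rf b X) →
    ∀ θ : b.support → (EE L →ₗ[ℝ] ℝ), (∀ i, ∃ z : L, ∑ t : L ≃ₐ[K] L, θ ((Q.da t).sp i) (mixedEmbedding L (t z)) ≠ 0) →
    ∀ γ : HQ Q, h' * γ * h⁻¹ ∈ GamQ (HQ Q) (Ideal.span {(m : 𝓞 K)} * 𝔫) v r s → Mv3 b Ω A X (emb b L γ.1) → (γ ∈ HUH (HQ Q) ∧ c = c') ∨ AltH (HQ Q) θ γ := by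
  obtain ⟨m₁, hm₁⟩ := qb_star4 Q hΩ
  exact ⟨m₁, fun m hm v hv 𝔫 r s c c' π h h' hL hL' A X hX hS θ hθ γ hγ hM =>
    hm₁ m hm v hv 𝔫 r s c c' π h h' hL hL' (aA P L A) (pd_aA_refl L A) X hX hS.sz4 θ hθ γ hγ hM.mv4⟩

end

end Pool.Agent.Lib.L8
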