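import Pool.Agent.Lib.L8.UD2
import Pool.Agent.Lib.L1S.QB3
import Pool.Agent.Lib.L8.PD3

/-!
# U, chunk UD3: the dichotomy for the elements of H'
-/

namespace Pool.Agent.Lib.L8

open MeasureTheory Matrix NumberField NumberField.InfinitePlace IsDedekindDomain Pool.Agent.Lib.H89N Pool.Agent.Lib.H33W Pool.Agent.Lib.H67G Pool.Agent.Lib.L1S
open scoped ENNReal Pointwise

noncomputable section

set_option linter.unusedSectionVars false

variable {ι M N : Type} [Fintype ι] [DecidableEq ι] [AddCommGroup M] [Module ℚ M] [AddCommGroup N] [Module ℚ N]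
  {P : RootPairing ι ℚ M N} [P.IsCrystallographic] {b : P.Base}

variable [P.IsRootSystem] [P.IsReduced] [P.IsIrreducible] {K L : Type} [Field K] [NumberField K] [Field L] [NumberField L] [Algebra K L]

/-- **UD3, from the minors at `v` to the local hypotheses.**
Proof. `cop`: `qb4_cop hw hv`; `aw1`: `qb4_away h0 hw (hl i j).1` (see the proof of `qb4_qloc` in Lib/L1S/QB4.lean). `mv`: let `w` be a place over `v` (`𝔳 = up L v ≤ w`). Choose `a ∈ v` with `v(a) = exp(-1)` (an integral uniformizer,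
`v.intValuation_exists_uniformizer`); `a ^ f i j ∈ v ^ f i j`, and `aw w (a) = nw w (up L v)` (`qb4_pi`, with `π = a`). By `h`, `IntV v (a ^ f i j * Dm)`, so `aw w (a ^ f i j * Dm) ≤ 1` (`IntV.val` / the lemmas of Lib/L1S/QB4.lean), which gives
`aw w Dm ≤ nw w 𝔳 ^ (-f i j)`. -/
theorem qu_loc {v : HeightOneSpectrum (𝓞 K)} {𝔞 : Ideal (𝓞 K)} (h0 : 𝔞 ≠ ⊥) (hv : ¬𝔞 ≤ v.asIdeal) {f : b.support → b.support → ℕ} {γ : GK b L} (hG : γ ∈ HGL b L 𝔞 v)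
    (h : ∀ (i j : b.support) (w : Equiv.Perm ι), OppW b i j w → ∀ a ∈ v.asIdeal ^ f i j, IntV v (algebraMap K L (a : K) * Dm b i w γ.1.1)) :
    QU b (up L 𝔞) (up L v.asIdeal) (fun i j => (f i j : ℤ)) γ := by
  obtain ⟨l, hl⟩ := hG
  refine ⟨fun w hw => qb4_cop hw hv, fun w hw i j => ⟨qb4_away h0 hw (hl i j).1, qb4_away h0 hw (hl i j).2⟩, fun w hw i j w' hO => ?_⟩
  obtain ⟨ϖ, hϖ⟩ := v.intValuation_exists_uniformizer
  have hϖ1 : ϖ ∈ v.asIdeal := by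
    have := (v.intValuation_le_pow_iff_mem ϖ 1).1 (by rw [hϖ]; norm_num)
    rwa [pow_one] at this
  have hπ : v.valuation K (ϖ : K) = WithZero.exp (-1 : ℤ) := by
    have h1 : v.valuation K (algebraMap (𝓞 K) K ϖ) = WithZero.exp (-1 : ℤ) := by
      rw [v.valuation_of_algebraMap]
      exact hϖ
    exact h1
  have h1 := qb4_int hw (h i j w' hO (ϖ ^ f i j) (Ideal.pow_mem_pow hϖ1 _))
  have e1 : algebraMap K L ((ϖ ^ f i j : 𝓞 K) : K) = (algebraMap K L (ϖ : K)) ^ f i j := by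
    rw [← map_pow]
    rfl
  rw [map_mul, e1, map_pow, qb4_pi hπ hw] at h1
  have h2 := nw_pos w (up L v.asIdeal)
  rw [_root_.zpow_neg, zpow_natCast, ← one_div, le_div_iff₀ (pow_pos h2 _), mul_comm]
  exact h1

/-- **UD3, the dichotomy** (model: `qb_star4` / `qb_star5` in Lib/L8/PD3.lean, PF1.lean).
Proof. `m₀ = max m₁ (2 |I| + 1)` with `m₁` of `qu_zero b L c₀`. As in `qb_star4`: `hup : up L (span {m} * 𝔫) = span {m} * up L 𝔫`, `hnv : absNorm (up L J) = absNorm J ^ [L : K]`; the hypothesis `SzU` gives the condition of `qu_zero` (compare `pd_szx`: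
`(x ^ g) ^ m = (x ^ m) ^ g`). `qu_loc` (rewritten with `hup`) and `qu_zero` show that the minors are zero; then `qb3_core hm2 hv Q hθ (fun i => qb3_den_mono Ideal.mul_le_left (hj i i).1) ..` as in `qb_star4`. -/
theorem qu_star (Q : QS b K L) (c₀ : ℝ) : ∃ m₀ : ℕ, ∀ m : ℕ, m₀ ≤ m → ∀ (v : HeightOneSpectrum (𝓞 K)), (m : 𝓞 K) ∉ v.asIdeal → ∀ 𝔫 : Ideal (𝓞 K), 𝔫 ≠ ⊥ → ¬(Ideal.span {(m : 𝓞 K)} * 𝔫) ≤ v.asIdeal →
    ∀ (f : b.support → b.support → ℕ) (a : ι → (EE L)ˣ), (∀ β, a (P.reflectionPerm β β) = (a β)⁻¹) →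
    ∀ X : b.support → InfinitePlace L → ℝ, (∀ i w, 0 ≤ X i w) → SzU b L 𝔫 v (fun i j => (f i j : ℤ)) (Rf b X) (Ea b a) →
    ∀ θ : b.support → (EE L →ₗ[ℝ] ℝ), (∀ i, ∃ z : L, ∑ t : L ≃ₐ[K] L, θ ((Q.da t).sp i) (mixedEmbedding L (t z)) ≠ 0) →
    ∀ γ : HQ Q, γ.1 ∈ HGL b L (Ideal.span {(m : 𝓞 K)} * 𝔫) v →
    (∀ (i j : b.support) (w : Equiv.Perm ι), OppW b i j w → ∀ a ∈ v.asIdeal ^ f i j, IntV v (algebraMap K L (a : K) * Dm b i w γ.1.1.1)) →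
    Mv5 b c₀ a X (emb b L γ.1) → γ ∈ HUH (HQ Q) ∨ AltH (HQ Q) θ γ := by
  obtain ⟨m₁, hm₁⟩ := qu_zero b L c₀
  refine ⟨max m₁ (2 * Fintype.card (I b) + 1), fun m hm v hv 𝔫 h𝔫 hn f a ha X hX hS θ hθ γ hG hmin hM => ?_⟩
  have hm1 : m₁ ≤ m := (le_max_left _ _).trans hm
  have hm2 : 2 * Fintype.card (I b) < m := (le_max_right m₁ (2 * Fintype.card (I b) + 1)).trans hm
  have h0 : Ideal.span {(m : 𝓞 K)} * 𝔫 ≠ ⊥ := by
    refine mul_ne_zero ?_ h𝔫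
    rw [Ne, Ideal.zero_eq_bot, Ideal.span_singleton_eq_bot]
    have : m ≠ 0 := by omega
    exact_mod_cast this
  have hup : L1S.up L (Ideal.span {(m : 𝓞 K)} * 𝔫) = Ideal.span {(m : 𝓞 L)} * L1S.up L 𝔫 := by
    unfold L1S.up
    rw [Ideal.map_mul, Ideal.map_span, Set.image_singleton, map_natCast]
  have hnv : ∀ J : Ideal (𝓞 K), Ideal.absNorm (L1S.up L J) = Ideal.absNorm J ^ Module.finrank K L := by
    intro J
    have h1 := Ideal.absNorm_algebraMap (R := 𝓞 K) (S := 𝓞 L) J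
    rw [← IsFractionRing.finrank_eq (𝓞 K) K (𝓞 L) L] at h1
    exact h1
  have e1 : ∀ (x : ℝ) (k : ℤ), (x ^ Module.finrank K L) ^ k = (x ^ k) ^ Module.finrank K L := by
    intro x k
    rw [← zpow_natCast, ← zpow_natCast, ← _root_.zpow_mul, ← _root_.zpow_mul, mul_comm]
  have e2 : ∀ (x : ℝ) (k : ℕ), (x ^ Module.finrank K L) ^ k = (x ^ k) ^ Module.finrank K L := by
    intro x k
    rw [← pow_mul, ← pow_mul, mul_comm]
  have hS' : ∀ i j, Opp b i j → (Ideal.absNorm (L1S.up L v.asIdeal) : ℝ) ^ ((fun i j => (f i j : ℤ)) i j) * Rf b X i ≤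
      (Ideal.absNorm (L1S.up L 𝔫) : ℝ) ^ (Phi b i).card * Ea b a i j ∨
      ∃ (l : b.support) (T : ℕ), (∀ β, mc b l (Sum.inr β) ≤ T) ∧ ((Ideal.absNorm (L1S.up L v.asIdeal) : ℝ) ^ ((fun i j => (f i j : ℤ)) i j) * Rf b X i) ^ T ≤
        (Ideal.absNorm (L1S.up L 𝔫) : ℝ) ^ (SM b i l + SM b j l) * Ea b a i j ^ T := by
    intro i j hO
    rw [hnv, hnv, Nat.cast_pow, Nat.cast_pow, e1, e2]
    rcases hS i j hO with h1 | ⟨l, T, hT, h1⟩
    · exact Or.inl h1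
    · refine Or.inr ⟨l, T, hT, ?_⟩
      rw [e1]
      exact h1
  have hq := qu_loc h0 hn hG hmin
  rw [hup] at hq
  have hD := hm₁ m hm1 (L1S.up L 𝔫) (L1S.up L v.asIdeal) (qb4_ne L h𝔫) (qb4_ne L v.ne_bot) (fun i j => (f i j : ℤ)) a ha X hX hS' γ.1 hq hM
  obtain ⟨j, hj⟩ := hG
  exact qb3_core hm2 hv Q (θ := θ) hθ (δ := γ) (j := j) (fun i => qb3_den_mono Ideal.mul_le_left (hj i i).1) (fun i j w hw hO => hD i j w hw hO)


end

end Pool.Agent.Lib.L8
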