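import Pool.Agent.Lib.L8.UH1

/-!
# U, file UH2: conjugation of the operator, the point `h` (helper43)
-/

namespace Pool.Agent.Lib.L8

open MeasureTheory Matrix NumberField NumberField.InfinitePlace IsDedekindDomain Pool.Agent.Lib.H89N Pool.Agent.Lib.H33W Pool.Agent.Lib.H67G Pool.Agent.Lib.L1S
open scoped ENNReal Pointwise

noncomputable section

set_option linter.unusedSectionVars false

/-- Conjugation of the operator: `h⁻¹ T h` is an operator of the pair `h⁻¹ Γ h ≤ H'`. -/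
theorem HeOp.conj {H : Type} [Group H] {Γ : Subgroup H} {H' : Subgroup H} {A : Type} [Fintype A] {w : A → H} {e : A → ℂ} {Λ : ℝ} (hT : HeOp Γ (H' : Set H) w e Λ) {h : H} (hh : h ∈ H') :
    HeOp (cjG Γ h) (H' : Set H) (fun a => h⁻¹ * w a * h) e Λ := by
  classical
  have h1 : ∀ f : H → ℂ, (∀ γ ∈ cjG Γ h, ∀ y, f (γ * y) = f y) → ∀ γ ∈ Γ, ∀ y, f (h⁻¹ * (γ * y)) = f (h⁻¹ * y) := fun f hf γ hγ y => by
    have e1 : h⁻¹ * (γ * y) = (h⁻¹ * γ * h) * (h⁻¹ * y) := by group
    rw [e1]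
    refine hf _ ?_ _
    rw [cjG_mem]
    have e2 : h * (h⁻¹ * γ * h) * h⁻¹ = γ := by group
    rw [e2]
    exact hγ
  have h2 : ∀ (f : H → ℂ) (a : A) (y : H), f (h⁻¹ * w a * h * y) = f (h⁻¹ * (w a * (h * y))) := fun f a y => by
    congr 1
    group
  refine ⟨fun a => H'.mul_mem (H'.mul_mem (H'.inv_mem hh) (hT.mem a)) hh, fun f hf γ hγ y hy => ?_, fun f hf B hB R hR hR' => ?_⟩
  · simp only [h2 f]
    have h3 := hT.inv (fun y => f (h⁻¹ * y)) (h1 f hf) (h * γ * h⁻¹) hγ (h * y) (H'.mul_mem hh hy)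
    refine Eq.trans (Finset.sum_congr rfl fun a _ => ?_) h3
    congr 3
    group
  · have h3 := hT.nrm (fun y => f (h⁻¹ * y)) (h1 f hf) B (fun R hR hR' => by
      have h4 := hB (R.image fun y => h⁻¹ * y) (fun x hx => by
        obtain ⟨y, hy, rfl⟩ := Finset.mem_image.1 hx
        exact H'.mul_mem (H'.inv_mem hh) (hR y hy)) (fun x hx y hy hxy => by
        obtain ⟨x', hx', rfl⟩ := Finset.mem_image.1 hx
        obtain ⟨y', hy', rfl⟩ := Finset.mem_image.1 hy
        rw [cjG_mem] at hxy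
        have e2 : h * (h⁻¹ * x' * (h⁻¹ * y')⁻¹) * h⁻¹ = x' * y'⁻¹ := by group
        rw [e2] at hxy
        rw [hR' x' hx' y' hy' hxy])
      rw [Finset.sum_image fun x _ y _ hxy => mul_left_cancel hxy] at h4
      exact h4) (R.image fun y => h * y) (fun x hx => by
        obtain ⟨y, hy, rfl⟩ := Finset.mem_image.1 hx
        exact H'.mul_mem hh (hR y hy)) (fun x hx y hy hxy => by
        obtain ⟨x', hx', rfl⟩ := Finset.mem_image.1 hx
        obtain ⟨y', hy', rfl⟩ := Finset.mem_image.1 hy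
        have h5 : x' * y'⁻¹ ∈ cjG Γ h := by
          rw [cjG_mem]
          have e2 : h * (x' * y'⁻¹) * h⁻¹ = h * x' * (h * y')⁻¹ := by group
          rw [e2]
          exact hxy
        rw [hR' x' hx' y' hy' h5])
    rw [Finset.sum_image fun x _ y _ hxy => mul_left_cancel hxy] at h3
    simp only [h2 f]
    exact h3

variable {ι M N : Type} [Fintype ι] [DecidableEq ι] [AddCommGroup M] [Module ℚ M] [AddCommGroup N] [Module ℚ N]
  {P : RootPairing ι ℚ M N} [P.IsCrystallographic] {b : P.Base}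

variable [P.IsRootSystem] [P.IsReduced] [P.IsIrreducible] {K L : Type} [Field K] [NumberField K] [Field L] [NumberField L] [Algebra K L]

end

end Pool.Agent.Lib.L8
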