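import Pool.Agent.Lib.L8.UG2
import Pool.Agent.Lib.L8.UH2

/-!
# U, file UG3: the inequality at the point `h` (helper43)
-/

namespace Pool.Agent.Lib.L8

open MeasureTheory Matrix NumberField NumberField.InfinitePlace IsDedekindDomain Pool.Agent.Lib.H89N Pool.Agent.Lib.H33W Pool.Agent.Lib.H67G Pool.Agent.Lib.L1S
open scoped ENNReal Pointwise

noncomputable section

set_option linter.unusedSectionVars false

theorem ug_cjcj {G : Type} [Group G] (Γ : Subgroup G) (h a : G) : cjG (cjG Γ h) a = cjG Γ (h * a) := by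
  ext x
  rw [cjG_mul, cjG_mem]

variable {ι M N : Type} [Fintype ι] [DecidableEq ι] [AddCommGroup M] [Module ℚ M] [AddCommGroup N] [Module ℚ N]
  {P : RootPairing ι ℚ M N} [P.IsCrystallographic] {b : P.Base} {L : Type} [Field L] [NumberField L] (H : Subgroup (GK b L))

/-- The translates of the functions. -/
theorem ug_afe {Γ : Subgroup H} {μ : Measure (HRt H)} [μ.IsHaarMeasure] {F₁ : Set (HRt H)} (mF : MeasurableSet F₁) {φ f : HRt H → ℂ} {c : ℂ} (hf : AFe μ Γ F₁ φ c f) (h : H) :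
    AFe μ (cjG Γ h) {y | h • y ∈ F₁} φ c (fun y => f (h • y)) where
  cont := hf.cont.comp (continuous_const.mul continuous_id : Continuous fun y : HRt H => embH H h * y)
  inv := fun γ hγ y => by
    have e : h • (γ • y) = (h * γ * h⁻¹) • (h • y) := by
      rw [← mul_smul, ← mul_smul, inv_mul_cancel_right]
    show f (h • (γ • y)) = f (h • y)
    rw [e]
    exact hf.inv _ hγ _
  l2 := by
    have mp : MeasurePreserving (fun y : HRt H => h • y) μ μ := measurePreserving_mul_left μ (embH H h)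
    exact hf.l2.comp_measurePreserving (mp.restrict_preimage mF)
  eig := fun y => by
    have h1 := hf.eig (h • y)
    have h2 : ∀ z, h • (y * z) = (h • y) * z := fun z => by
      simp only [smulH_def, mul_assoc]
    simp only [h2]
    exact h1

/-- **The inequality for an arbitrary Hecke operator at the point `h`**, abstract form. -/
theorem uk_conj [P.IsRootSystem] [P.IsReduced] [P.IsIrreducible] {Γ Γ₁ H' : Subgroup H} {θ : b.support → (EE L →ₗ[ℝ] ℝ)} (hd : Dsc H Γ) (hcm : ∀ a, (cjG Γ a).relIndex Γ ≠ 0) (hcc : ∀ a, CCH H (cjG Γ a))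
    {h : H} (hh : h ∈ H') (hone : ∀ w : HUH H, (w : H) ∈ cjG Γ h → psT H θ (kUH H w) = 1)
    (hΓ : Γ ≤ H') (hle : Γ₁ ≤ Γ) (hcomm : ∀ a, (cjG Γ₁ a).relIndex Γ₁ ≠ 0) (hidx : Γ₁.relIndex Γ ≠ 0)
    (hcc1 : ∀ a, CCH H (cjG Γ₁ a)) (hfol : ∀ g, Fol ↥((cjG Γ₁ g).subgroupOf (HUH H)))
    (hE : ∀ S S₂ : Finset H, (∀ g ∈ S, g ∈ H') → (∀ u ∈ S₂, u ∈ HUH H ∧ u ∈ H') →
      ∃ E : Subgroup H, E ≤ HUH H ⊓ H' ∧ (∀ u ∈ S₂, u ∈ E) ∧ (∀ g ∈ S, cjG Γ g ⊓ HUH H ≤ E) ∧ ∀ g, (cjG Γ g).relIndex E ≠ 0)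
    {A : Type} [Fintype A] {w : A → H} {e : A → ℂ} {Λv : ℝ} (hT : HeOp Γ (H' : Set H) w e Λv)
    {x : HRt H} {φ : HRt H → ℂ} (cφ : Continuous φ) (sφ : HasCompactSupport φ) {μ : Measure (HRt H)} [μ.IsHaarMeasure] {ν : Measure (UHR H)} [ν.IsHaarMeasure]
    {τ : Measure (HRt H)} {wt : HRt H → ℂ} {Kt : Set (HRt H)} {Λ : ℝ} (hτ : CvD μ τ wt Kt Λ) {Mc : ℕ}
    (dich : ∀ a a' γ, w a * h * γ * (w a' * h)⁻¹ ∈ Γ₁ → MvT H x (tsupport φ * Kt ^ Mc) (embH H γ) → γ ∈ HUH H ∨ AltT H θ γ)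
    {F₁ : Set (HRt H)} (hF₁ : SF Γ F₁) {m : ℕ} {lam : Fin m → ℂ} {F : Fin m → HRt H → ℂ} (hF : ∀ l, AFe μ Γ F₁ φ (lam l) (F l)) {kap : Fin m → ℂ} (hκ : ∀ l y, Cv τ wt (F l) y = kap l * F l y)
    (hort : ∀ l k, ∫ x in F₁, star (F l x) * F k x ∂μ = if l = k then 1 else 0) {t : Fin m → ℂ} (ht : ∀ l y, ∑ a, e a * F l (w a • y) = t l * F l y)
    {D₀ : Set (UHR H)} (hD₀ : SF ((cjG Γ h).subgroupOf (HUH H)) D₀) :
    ∑ l, ‖kap l ^ Mc * lam l * t l * Wm (UHR H).subtype (psT H θ) ν D₀ (fun y => F l (h • y)) x‖ₑ ^ 2 ≤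
      ((Γ₁.relIndex Γ : ℕ) * (Jf (UHR H).subtype μ ν φ x * ENNReal.ofReal (Λ ^ 2) ^ Mc)) * (ENNReal.ofReal (Λv ^ 2) / ν D₀) := by
  classical
  have ci : Countable H := th_count H
  have mp : MeasurePreserving (fun y : HRt H => h • y) μ μ := measurePreserving_mul_left μ (embH H h)
  have i1 : MeasurableConstSMul H (HRt H) := ⟨fun g => (measurePreserving_mul_left μ (embH H g)).measurable⟩
  have hc' : UCx H (cjG Γ h) θ := ⟨dsc_conj H hd h, fun a => by
      rw [ug_cjcj]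
      exact cjG_comm hcm _ _, fun a => by
      rw [ug_cjcj]
      exact hcc _, hone⟩
  have hΓ' : cjG Γ h ≤ H' := fun x hx => by
    have e1 : x = h⁻¹ * (h * x * h⁻¹) * h := by group
    rw [e1]
    exact mul_mem (mul_mem (inv_mem hh) (hΓ hx)) hh
  have hrel : (cjG Γ₁ h).relIndex (cjG Γ h) = Γ₁.relIndex Γ := qg_relIndex_conj Γ₁ Γ h
  have hsm : ∀ y z : HRt H, h • (y * z) = (h • y) * z := fun y z => by
    simp only [smulH_def, mul_assoc]
  have key := uk_main H hc' hΓ' (cjG_mono hle h) (fun a => by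
      rw [ug_cjcj]
      exact cjG_comm hcomm _ _) (by rw [hrel]; exact hidx) (fun a => by
      rw [ug_cjcj]
      exact hcc1 _) (fun g => by
      rw [ug_cjcj]
      exact hfol _) (fun S S₂ hS hS₂ => by
      obtain ⟨E, h1, h2, h3, h4⟩ := hE (S.image fun y => h * y) S₂ (fun g hg => by
        obtain ⟨y, hy, rfl⟩ := Finset.mem_image.1 hg
        exact mul_mem hh (hS y hy)) hS₂
      refine ⟨E, h1, h2, fun g hg => ?_, fun g => ?_⟩
      · rw [ug_cjcj]
        exact h3 _ (Finset.mem_image_of_mem _ hg)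
      · rw [ug_cjcj]
        exact h4 _) (hT.conj hh) (x := x) cφ sφ (μ := μ) (ν := ν) hτ (Mc := Mc) (fun a a' γ hγ hmv => dich a a' γ (by
        rw [cjG_mem] at hγ
        have e1 : h * (h⁻¹ * w a * h * γ * (h⁻¹ * w a' * h)⁻¹) * h⁻¹ = w a * h * γ * (w a' * h)⁻¹ := by group
        rw [e1] at hγ
        exact hγ) hmv)
      (tr_sf (fun g => cjG_mem Γ h g) hF₁) (F := fun l y => F l (h • y)) (fun l => ug_afe H hF₁.meas (hF l) h) (kap := kap) (fun l y => by
        have h1 := hκ l (h • y)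
        show ∫ z, F l (h • (y * z)) * wt z ∂τ = kap l * F l (h • y)
        simp only [hsm]
        exact h1) (fun l k => by
        rw [← hort l k]
        exact mp.setIntegral_preimage_emb (MeasurableEquiv.measurableEmbedding (MeasurableEquiv.mulLeft (embH H h))) (fun y => star (F l y) * F k y) F₁) (t := t) (fun l y => by
        rw [← ht l (h • y)]
        refine Finset.sum_congr rfl fun a _ => ?_
        congr 2
        rw [← mul_smul, ← mul_smul]
        congr 1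
        group) hD₀
  rw [hrel] at key
  exact key

end

end Pool.Agent.Lib.L8
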