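import Pool.Agent.Lib.L8.StmU
import Pool.Agent.Lib.L8.UG3
import Pool.Agent.Lib.L8.UD3

/-!
# U: the universal density theorem (helper43): the proof
-/

namespace Pool.Agent.Lib.L8

open MeasureTheory Matrix NumberField NumberField.InfinitePlace IsDedekindDomain Pool.Agent.Lib.H89N Pool.Agent.Lib.H33W Pool.Agent.Lib.H67G Pool.Agent.Lib.L1S
open scoped ENNReal Pointwise

noncomputable section

set_option linter.unusedSectionVars false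

variable {ι M N : Type} [Fintype ι] [DecidableEq ι] [AddCommGroup M] [Module ℚ M] [AddCommGroup N] [Module ℚ N]
  {P : RootPairing ι ℚ M N} [P.IsCrystallographic] {b : P.Base}

variable [P.IsRootSystem] [P.IsReduced] [P.IsIrreducible] {K L : Type} [Field K] [NumberField K] [Field L] [NumberField L] [Algebra K L]

/-- The final step: from `ℝ≥0∞` to `ℝ`. -/
theorem mu_real {m : ℕ} {z : Fin m → ℂ} {c J n n₀ : ℝ≥0∞} {Λ Λv C : ℝ} {Y : ℝ} (hY : 0 ≤ Y) (hC : 0 ≤ C) (hn : n ≠ 0) (hn' : n ≠ ⊤) (hn0 : n₀ ≠ ⊤) (hc : c ≤ ENNReal.ofReal C) (hJ : J ≤ ENNReal.ofReal Y * n₀)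
    (h : ∑ l, ‖z l‖ₑ ^ 2 ≤ (c * (J * ENNReal.ofReal (Λ ^ 2) ^ 1)) * (ENNReal.ofReal (Λv ^ 2) / n)) : n.toReal * ∑ l, ‖z l‖ ^ 2 ≤ C * (Y * Λ ^ 2) * Λv ^ 2 * n₀.toReal := by
  have h1 : ENNReal.ofReal (∑ l, ‖z l‖ ^ 2) = ∑ l, ‖z l‖ₑ ^ 2 := by
    rw [ENNReal.ofReal_sum_of_nonneg fun l _ => by positivity]
    exact Finset.sum_congr rfl fun l _ => by rw [ENNReal.ofReal_pow (norm_nonneg _), ofReal_norm]
  have hn1 : 0 < n.toReal := ENNReal.toReal_pos hn hn'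
  have h3 : ENNReal.ofReal (n₀.toReal / n.toReal) = n₀ / n := by
    rw [ENNReal.ofReal_div_of_pos hn1, ENNReal.ofReal_toReal hn0, ENNReal.ofReal_toReal hn']
  have h2 : ENNReal.ofReal (∑ l, ‖z l‖ ^ 2) ≤ ENNReal.ofReal (C * (Y * Λ ^ 2) * Λv ^ 2 * (n₀.toReal / n.toReal)) := by
    rw [h1]
    refine h.trans ?_
    rw [pow_one]
    calc (c * (J * ENNReal.ofReal (Λ ^ 2))) * (ENNReal.ofReal (Λv ^ 2) / n) ≤ (ENNReal.ofReal C * (ENNReal.ofReal Y * n₀ * ENNReal.ofReal (Λ ^ 2))) * (ENNReal.ofReal (Λv ^ 2) / n) := by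
          gcongr
      _ = (ENNReal.ofReal C * (ENNReal.ofReal Y * ENNReal.ofReal (Λ ^ 2))) * ENNReal.ofReal (Λv ^ 2) * (n₀ / n) := by
          rw [div_eq_mul_inv, div_eq_mul_inv]
          ring
      _ = _ := by
          rw [← h3, ← ENNReal.ofReal_mul hY, ← ENNReal.ofReal_mul hC, ← ENNReal.ofReal_mul (by positivity), ← ENNReal.ofReal_mul (by positivity)]
  have h4 := mul_le_mul_of_nonneg_left ((ENNReal.ofReal_le_ofReal_iff (by positivity)).1 h2) hn1.le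
  refine h4.trans (le_of_eq ?_)
  field_simp

/-- **The universal density theorem.** -/
theorem statementU (Q : QS b K L) [IsGalois K L] : StatementU Q := by
  classical
  intro Ω S₀ hΩ hS₀
  obtain ⟨c₁, hc1, hmv⟩ := pf_mv7 b K L (HQ Q) hΩ hS₀
  obtain ⟨m₀, hm₀⟩ := qu_star Q c₁
  obtain ⟨CJ, hCJ0, hCJ⟩ := pf_J' Q hΩ hS₀
  refine ⟨((6 ^ m₀ : ℕ) ^ Module.finrank ℚ L : ℝ) ^ (Fintype.card (I b) ^ 2) * CJ, ?_⟩
  intro v 𝔫 h0 hv r s k w' e' Λv hT h hh f hf θ hθ hθ1 t a hta x hx μ τ _ w Kt Λ hτ B hB hKB φ cφ sφ' δ hδ hδK hnear hsz ν _ D₀ hD₀ Dh hDh D hD n F c' κ hF hort t' ht'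
  have ci : Countable (HQ Q) := th_count (HQ Q)
  have ha : ∀ β, a (P.reflectionPerm β β) = (a β)⁻¹ := fun β => pe_inv (g := t.1) hta β
  have hx' : InRz (HQ Q) Ω a x := by
    obtain ⟨u, ω, hω, e⟩ := hx
    exact ⟨u, ω, hω, by rw [e, hta]⟩
  have sφ : HasCompactSupport φ := HasCompactSupport.intro hS₀ fun x hx => by
    by_contra hne
    exact hx (sφ' (subset_tsupport _ hne))
  -- the numbers `δ` on the places of `K`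
  have hfin : Algebra.IsAlgebraic K L := by
    have : FiniteDimensional K L := Module.Finite.of_restrictScalars_finite ℚ K L
    exact Algebra.IsAlgebraic.of_finite K L
  choose sec hsec using comap_surjective (k := K) (K := L)
  obtain ⟨δ', hδ'⟩ : ∃ δ' : InfinitePlace K → ℝ, δ' = fun y => δ (sec y) := ⟨_, rfl⟩
  have hδw : ∀ w : InfinitePlace L, δ' (w.comap (algebraMap K L)) = δ w := fun w => by
    rw [hδ']
    exact hδK _ _ (hsec _)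
  have hδ0 : ∀ y, 0 < δ' y ∧ δ' y ≤ 1 := fun y => by
    rw [hδ']
    exact hδ _
  have hN : ∀ g, g ∈ Kt ∨ g ∈ tsupport φ → NearE δ' g := fun g hg w => by
    rw [hδw]
    rcases hnear g hg w with h1 | h1
    · exact Or.inl h1
    · exact Or.inr ⟨fun i j => (h1 i j).1, fun i j => (h1 i j).2⟩
  -- the auxiliary level
  obtain ⟨m₁, hm1, hm2, hm3, hm4⟩ := aux_level m₀ v
  have h1 : Ideal.span {(m₁ : 𝓞 K)} * 𝔫 ≠ ⊥ := by
    rw [Ne, Ideal.mul_eq_bot, not_or, Ideal.span_singleton_eq_bot]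
    exact ⟨Nat.cast_ne_zero.2 hm2, h0⟩
  have h1v : ¬Ideal.span {(m₁ : 𝓞 K)} * 𝔫 ≤ v.asIdeal := (de_m h0 hv hm3).2
  have hle0 : Ideal.span {(m₁ : 𝓞 K)} * 𝔫 ≤ 𝔫 := Ideal.mul_le_right
  have hle : L1S.up L (Ideal.span {(m₁ : 𝓞 K)} * 𝔫) ≤ L1S.up L 𝔫 := L1S.up_mono L hle0
  have hm5 : GamQ (HQ Q) (Ideal.span {(m₁ : 𝓞 K)} * 𝔫) v r s ≤ GamQ (HQ Q) 𝔫 v r s := by
    have key : ∀ y : L, L1S.InI (L1S.up L (Ideal.span {(m₁ : 𝓞 K)} * 𝔫)) y → L1S.InI (L1S.up L 𝔫) y := fun y ⟨z, hz, e⟩ => ⟨z, hle hz, e⟩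
    intro γ hγ
    have h2 : γ.1 ∈ GamL b L (Ideal.span {(m₁ : 𝓞 K)} * 𝔫) v r s := hγ
    show γ.1 ∈ GamL b L 𝔫 v r s
    intro i j
    obtain ⟨⟨a1, a2⟩, a3, a4⟩ := h2 i j
    exact ⟨⟨key _ a1, a2⟩, key _ a3, a4⟩
  have hcomm : ∀ h : HQ Q, (cjG (GamQ (HQ Q) (Ideal.span {(m₁ : 𝓞 K)} * 𝔫) v r s) h).relIndex (GamQ (HQ Q) (Ideal.span {(m₁ : 𝓞 K)} * 𝔫) v r s) ≠ 0 := fun h => by
    have h2 : (cjG (GamQ (HQ Q) (Ideal.span {(m₁ : 𝓞 K)} * 𝔫) v r s) h).relIndex (cjG (GamQ (HQ Q) (Ideal.span {(m₁ : 𝓞 K)} * 𝔫) v r s) 1) ≠ 0 := qa_comm Q h1 v v r s r s h 1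
    rwa [cjG_one] at h2
  have hidx0 : (GamQ (HQ Q) (Ideal.span {(m₁ : 𝓞 K)} * 𝔫) v r s).relIndex (GamQ (HQ Q) 𝔫 v r s) ≠ 0 := by
    have h2 : (cjG (GamQ (HQ Q) (Ideal.span {(m₁ : 𝓞 K)} * 𝔫) v r s) 1).relIndex (cjG (GamQ (HQ Q) 𝔫 v r s) 1) ≠ 0 := qa_comm Q h1 (𝔪 := 𝔫) v v r s r s 1 1
    rw [cjG_one, cjG_one] at h2
    exact h2
  have hcN : (((GamQ (HQ Q) (Ideal.span {(m₁ : 𝓞 K)} * 𝔫) v r s).relIndex (GamQ (HQ Q) 𝔫 v r s) : ℕ) : ℝ≥0∞) ≤ ENNReal.ofReal (((6 ^ m₀ : ℕ) ^ Module.finrank ℚ L : ℝ) ^ (Fintype.card (I b) ^ 2)) := by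
    have h2 : (cjG (GamQ (HQ Q) (Ideal.span {(m₁ : 𝓞 K)} * 𝔫) v r s) 1).relIndex (cjG (GamQ (HQ Q) 𝔫 v r s) 1) ≤ (m₁ ^ Module.finrank ℚ L) ^ (Fintype.card (I b) ^ 2) :=
      qa_m Q h0 v r s m₁ hm2 1
    rw [cjG_one, cjG_one] at h2
    have h3 : (m₁ ^ Module.finrank ℚ L) ^ (Fintype.card (I b) ^ 2) ≤ ((6 ^ m₀) ^ Module.finrank ℚ L) ^ (Fintype.card (I b) ^ 2) :=
      Nat.pow_le_pow_left (Nat.pow_le_pow_left hm4 _) _
    rw [← ENNReal.ofReal_natCast]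
    exact ENNReal.ofReal_le_ofReal (by exact_mod_cast h2.trans h3)
  -- the new representatives
  have hwh : ∀ j, (w' j * h).1 ∈ HGL b L 𝔫 v := fun j => hgl_mul (hT.mem j) hh
  choose g hg1 hg2 using fun j => uh_rep Q hle0 h1v hv r s (h := w' j * h) (hwh j)
  have hg3 : ∀ j, (g j * h⁻¹) * (w' j)⁻¹ ∈ GamQ (HQ Q) 𝔫 v r s := fun j => by
    have e1 : (g j * h⁻¹) * (w' j)⁻¹ = g j * (w' j * h)⁻¹ := by group
    rw [e1]
    exact hg2 j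
  have hT' := hT.congr (w' := fun j => g j * h⁻¹) (uh_le Q 𝔫 v r s) hg3
  have hmc : ∀ j i, MCl b v i (f i) (g j).1.1.1 ∧ MRl b v i (f i) (g j)⁻¹.1.1.1 := fun j i => uh_mc (hg2 j) (hf j i).1 (hf j i).2
  have ht2 : ∀ l y, ∑ j, e' j * F l ((g j * h⁻¹) • y) = t' l * F l y := fun l y => by
    rw [← ht' l y]
    refine Finset.sum_congr rfl fun j _ => ?_
    congr 1
    have e1 : ((g j * h⁻¹) • y : HRt (HQ Q)) = embH (HQ Q) ((g j * h⁻¹) * (w' j)⁻¹) * (embH (HQ Q) (w' j) * y) := by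
      simp only [smulH_def, map_mul, map_inv]
      group
    rw [e1]
    exact (hF l).inv _ ⟨_, hg3 j, rfl⟩ _
  -- the dichotomy
  have hdich : ∀ (i j : Fin k) (γ : HQ Q), g i * h⁻¹ * h * γ * (g j * h⁻¹ * h)⁻¹ ∈ GamQ (HQ Q) (Ideal.span {(m₁ : 𝓞 K)} * 𝔫) v r s →
      MvT (HQ Q) x (tsupport φ * Kt ^ 1) (embH (HQ Q) γ) → γ ∈ HUH (HQ Q) ∨ AltH (HQ Q) θ γ := by
    intro i j γ hγ hM
    rw [inv_mul_cancel_right, inv_mul_cancel_right] at hγ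
    rw [pow_one] at hM
    have h2 := hmv a x hx' (tsupport φ) Kt δ' hδ0 sφ' (fun y hy => hN y (Or.inr hy)) (fun y hy => hN y (Or.inl hy)) B hB hKB (embH (HQ Q) γ) hM
    have hsz' : SzU b L 𝔫 v (fun i j => ((f i + f j : ℕ) : ℤ)) (Rf b fun i w => B i w ^ 2 * δ' (w.comap (algebraMap K L)) ^ (Phi b i).card) (Ea b a) := by
      have e : (Rf b fun i w => B i w ^ 2 * δ' (w.comap (algebraMap K L)) ^ (Phi b i).card) = fun i => ∏ w, (B i w ^ 2 * δ w ^ (Phi b i).card) ^ mult w := by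
        funext i
        unfold Rf
        refine Finset.prod_congr rfl fun w _ => ?_
        show (B i w ^ 2 * δ' (w.comap (algebraMap K L)) ^ (Phi b i).card) ^ mult w = _
        rw [hδw]
      rw [e]
      simp only [Nat.cast_add]
      exact hsz
    have hγH : γ.1 ∈ HGL b L (Ideal.span {(m₁ : 𝓞 K)} * 𝔫) v := by
      have e1 : γ = (g i)⁻¹ * (g i * γ * (g j)⁻¹) * g j := by group
      have e2 : γ.1 = (g i).1⁻¹ * (g i * γ * (g j)⁻¹).1 * (g j).1 := congrArg Subtype.val e1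
      rw [e2]
      exact hgl_mul (hgl_mul (hgl_inv (hg1 i)) (qc_hg (show _ ∈ GamL b L _ v r s from hγ))) (hg1 j)
    exact hm₀ m₁ hm1 v hm3 𝔫 h0 h1v (fun i j => f i + f j) a ha _ (fun i w => mul_nonneg (sq_nonneg _) (pow_nonneg (hδ0 _).1.le _)) hsz' θ hθ γ hγH
      (fun i' j' w₀ hO => uc_quot (Q := Q) (r := r) (s := s) (𝔫 := Ideal.span {(m₁ : 𝓞 K)} * 𝔫) (g := g i) (g' := g j) (fun i' => (hmc i i').2) (fun i' => (hmc j i').1) hγ hO) h2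
  -- the double integral
  have hJ := hCJ 𝔫 h0 v r s t a hta x hx' δ' hδ0 μ φ cφ sφ' (fun y hy => hN y (Or.inr hy)) ν D₀ hD₀
  obtain ⟨D₁, hD₁⟩ := (dsc_Gam (HQ Q) 𝔫 v r s).sfU
  have hcc0 : CCH (HQ Q) (GamQ (HQ Q) 𝔫 v r s) := by
    have h2 : CCH (HQ Q) (cjG (GamQ (HQ Q) 𝔫 v r s) 1) := qa_cc Q h0 v r s 1
    rw [cjG_one] at h2
    exact h2
  have hvD : ν D₀ = ν D₁ := th2_volU (HQ Q) ν hD₁ hD₀
  have pD : ν D₁ ≠ 0 := th2_pos (HQ Q) hD₁ ν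
  have fD : ν D₁ ≠ ⊤ := th2_fin (HQ Q) hcc0 hD₁ ν
  have hφ0 : 0 ≤ ∫ y, ‖φ y‖ ^ 2 ∂μ := integral_nonneg fun y => by positivity
  have hP0 : 0 ≤ ∏ β ∈ Pos b, (∏ w, δ w ^ mult w) * mixedEmbedding.norm (a β : EE L) :=
    Finset.prod_nonneg fun β _ => mul_nonneg (Finset.prod_nonneg fun w _ => pow_nonneg (hδ w).1.le _) (mixedEmbedding.norm_nonneg _)
  have hX0 : 0 ≤ (∏ β ∈ Pos b, (∏ w, δ w ^ mult w) * mixedEmbedding.norm (a β : EE L)) ^ ((Module.finrank K L : ℝ)⁻¹) / (Ideal.absNorm 𝔫 : ℝ) ^ (Pos b).card :=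
    div_nonneg (Real.rpow_nonneg hP0 _) (pow_nonneg (Nat.cast_nonneg _) _)
  have hJr : Jf (UHR (HQ Q)).subtype μ ν φ x ≤
      ENNReal.ofReal (CJ * (∫ y, ‖φ y‖ ^ 2 ∂μ) * ((∏ β ∈ Pos b, (∏ w, δ w ^ mult w) * mixedEmbedding.norm (a β : EE L)) ^ ((Module.finrank K L : ℝ)⁻¹) / (Ideal.absNorm 𝔫 : ℝ) ^ (Pos b).card)) * ν D₁ := by
    rw [← hvD]
    refine hJ.trans (le_of_eq ?_)
    congr 2
    have e1 : Dk L δ' = (∏ w, δ w ^ mult w) ^ ((Module.finrank K L : ℝ)⁻¹) := by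
      unfold Dk
      congr 1
      exact Finset.prod_congr rfl fun w _ => by rw [hδw]
    rw [e1, ← mg_X (fun w => (hδ w).1) a]
    ring
  -- the translates
  obtain ⟨F₁, hF₁⟩ := (dsc_Gam (HQ Q) 𝔫 v r s).sf
  have hcc2 : ∀ a, CCH (HQ Q) (cjG (GamQ (HQ Q) 𝔫 v r s) a) := fun a => qa_cc Q h0 v r s a
  have hcm : ∀ a, (cjG (GamQ (HQ Q) 𝔫 v r s) a).relIndex (GamQ (HQ Q) 𝔫 v r s) ≠ 0 := fun a => by
    have h2 : (cjG (GamQ (HQ Q) 𝔫 v r s) a).relIndex (cjG (GamQ (HQ Q) 𝔫 v r s) 1) ≠ 0 := qa_comm Q h0 (𝔪 := 𝔫) v v r s r s a 1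
    rwa [cjG_one] at h2
  have hDh' : IsFundamentalDomain (imU (HQ Q) (cjG (GamQ (HQ Q) 𝔫 v r s) h)) Dh ν := by
    rw [← imUh_eq]
    exact hDh
  have hone : ∀ u : HUH (HQ Q), (u : HQ Q) ∈ cjG (GamQ (HQ Q) 𝔫 v r s) h → psT (HQ Q) θ (kUH (HQ Q) u) = 1 := fun u hu => by
    refine hθ1 _ ?_
    show kUH (HQ Q) u ∈ imUh (HQ Q) (GamQ (HQ Q) 𝔫 v r s) h
    rw [imUh_eq]
    exact (th2_mem_imU (HQ Q) (cjG (GamQ (HQ Q) 𝔫 v r s) h) _).2 ⟨u, hu, rfl⟩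
  obtain ⟨D₂, hD₂⟩ := (dsc_conj (HQ Q) (dsc_Gam (HQ Q) 𝔫 v r s) h).sfU
  have hD₂' : SF ((cjG (GamQ (HQ Q) 𝔫 v r s) h).subgroupOf (HUH (HQ Q))) D₂ := hD₂
  have hvDh : ν Dh = ν D₂ := th2_volU (HQ Q) ν hD₂' hDh'
  have pD2 : ν D₂ ≠ 0 := th2_pos (HQ Q) hD₂' ν
  have fD2 : ν D₂ ≠ ⊤ := th2_fin (HQ Q) (hcc2 h) hD₂' ν
  have hF' : ∀ l, AuE (HQ Q) (GamQ (HQ Q) 𝔫 v r s) μ D φ (c' l) (F l) := fun l => ⟨(hF l).cont, (hF l).inv, (hF l).l2, (hF l).eig⟩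
  have hort' : ∀ l k, ∫ x in F₁, star (F l x) * F k x ∂μ = if l = k then 1 else 0 := fun l k => by
    rw [← hort l k]
    exact (th2_intG (HQ Q) μ hF₁ hD (f := fun y => star (F l y) * F k y) fun γ hγ y => by rw [(hF l).inv γ hγ, (hF k).inv γ hγ]).symm
  have key := uk_conj (HQ Q) (dsc_Gam (HQ Q) 𝔫 v r s) hcm hcc2 (h := h) (H' := HvQ Q 𝔫 v) hh hone (uh_le Q 𝔫 v r s) hm5 hcomm hidx0 (fun a => qa_cc Q h1 v r s a)
    (fun g => fol_gu (HQ Q) (Ideal.span {(m₁ : 𝓞 K)} * 𝔫) v r s g)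
    (fun S S₂ hS hS₂ => ue_exists Q h0 v r s S hS S₂ hS₂) hT' (x := x) cφ sφ (μ := μ) (ν := ν) hτ (Mc := 1) hdich hF₁ (fun l => th2_afe (HQ Q) hF₁ hD (hF' l)) (fun l => (hF l).cv) hort' ht2 hD₂'
  have fin := mu_real (by positivity) (by positivity) pD2 fD2 fD hcN hJr key
  rw [hvD, hvDh]
  refine le_trans (le_of_eq ?_) (fin.trans (le_of_eq ?_))
  · congr 1
    refine Finset.sum_congr rfl fun l _ => ?_
    have e1 : WhH (HQ Q) ν Dh θ (fun y => F l (embH (HQ Q) h * y)) x = Wm (UHR (HQ Q)).subtype (psT (HQ Q) θ) ν D₂ (fun y => F l (h • y)) x := by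
      show WhT (HQ Q) ν Dh θ (fun y => F l (embH (HQ Q) h * y)) x = _
      refine th2_Wh (HQ Q) ν hD₂' hDh' θ (fun γ hγ u => by rw [psT_mul' (HQ Q) θ, hone γ hγ, one_mul]) (fun γ hγ y => ?_) x
      obtain ⟨δ₁, hδ₁, rfl⟩ := hγ
      have h3 : embH (HQ Q) h * (embH (HQ Q) δ₁ * y) = embH (HQ Q) (h * δ₁ * h⁻¹) * (embH (HQ Q) h * y) := by
        simp only [map_mul, map_inv]
        group
      rw [h3]
      exact (hF l).inv _ ⟨_, hδ₁, rfl⟩ _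
    rw [e1, pow_one, mul_comm (c' l)]
  · ring

end

end Pool.Agent.Lib.L8
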