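import Pool.Agent.Lib.L8.U00

/-!
# U, chunk UA1: representatives of the double cosets
-/

namespace Pool.Agent.Lib.L8

open MeasureTheory Matrix NumberField NumberField.InfinitePlace IsDedekindDomain Pool.Agent.Lib.H89N Pool.Agent.Lib.H33W Pool.Agent.Lib.H67G Pool.Agent.Lib.L1S
open scoped ENNReal Pointwise

noncomputable section

set_option linter.unusedSectionVars false

variable {H : Type} [Group H] {Γ H' HU : Subgroup H} {χ : HU → ℂ}

/-- **UA1.** Representatives of the double cosets `Γ w_a Δ`, `Δ = HU ∩ H'`, with `χ` trivial on `w_a⁻¹ Γ w_a ∩ HU`.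
Proof. Call `x ∈ H` good if `χ u = 1` for all `u : HU` with `x u x⁻¹ ∈ Γ`. Write `x ~ y` if there is `δ : HU` with `(δ : H) ∈ H'` and `y (x δ)⁻¹ ∈ Γ`. This is an equivalence relation on the elements (of `H'`): reflexive with `δ = 1`;
if `y = γ x δ` then `x = γ⁻¹ y δ⁻¹`; if `y = γ x δ`, `z = γ' y δ'` then `z = γ' γ x (δ δ')`. If `x ~ y` and `x` is good then `y` is good: `y = γ x δ` and `y u y⁻¹ ∈ Γ` give `x (δ u δ⁻¹) x⁻¹ ∈ Γ`, so `χ(δ u δ⁻¹) = 1`, and
`χ(δ u δ⁻¹) = χ(δ) χ(u) χ(δ⁻¹) = χ(u)` because `χ(δ) χ(δ⁻¹) = χ(1) = 1` (`hχ.one` for `1`). Take the setoid on `A` with `a ~ a'` iff `w a ~ w a'`, `κ := {q : Quotient s // (w q.out) is good}` (Fintype by classical logic, `Fintype.ofFinite` or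
`Subtype.fintype`), `g q := w q.1.out`, and `p a := some (⟦a⟧, δ)` with `δ` chosen from `w (⟦a⟧.out) ~ w a` if `w a` is good, else `none`. For `ine`: `g i δ (g j)⁻¹ ∈ Γ` gives `g j ~ g i` (up to symmetry), so the classes of `i.1.out` and
`j.1.out` are equal, i.e. `i = j`. -/
theorem ua_dat (hχ : ChU Γ HU χ) {A : Type} [Fintype A] (w : A → H) : ∃ (κ : Type) (_ : Fintype κ) (_ : DecidableEq κ) (g : κ → H) (p : A → Option (κ × HU)), HDat Γ H' HU χ w g p := by
  classical
  let st : Setoid A :=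
    { r := fun a a' => ∃ δ : HU, (δ : H) ∈ H' ∧ w a' * (w a * δ)⁻¹ ∈ Γ
      iseqv :=
        { refl := fun a => ⟨1, H'.one_mem, by
            rw [OneMemClass.coe_one, mul_one, mul_inv_cancel]
            exact Γ.one_mem⟩
          symm := by
            rintro a a' ⟨δ, h1, h2⟩
            refine ⟨δ⁻¹, H'.inv_mem h1, ?_⟩
            have e : w a * (w a' * ((δ⁻¹ : HU) : H))⁻¹ = (w a' * (w a * (δ : H))⁻¹)⁻¹ := by
              rw [InvMemClass.coe_inv]
              group
            rw [e]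
            exact Γ.inv_mem h2
          trans := by
            rintro a a' a₂ ⟨δ, h1, h2⟩ ⟨δ', h3, h4⟩
            refine ⟨δ * δ', H'.mul_mem h1 h3, ?_⟩
            have e : w a₂ * (w a * ((δ * δ' : HU) : H))⁻¹ = (w a₂ * (w a' * (δ' : H))⁻¹) * (w a' * (w a * (δ : H))⁻¹) := by
              rw [MulMemClass.coe_mul]
              group
            rw [e]
            exact Γ.mul_mem h4 h2 } }
  let Good : H → Prop := fun x => ∀ u : HU, (u : H) ∈ cjG Γ x → χ u = 1
  have hgood : ∀ x y : H, ∀ δ : HU, y * (x * δ)⁻¹ ∈ Γ → Good x → Good y := by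
    intro x y δ h1 h2 u hu
    rw [cjG_mem] at hu
    have h3 : x * ((δ * u * δ⁻¹ : HU) : H) * x⁻¹ ∈ Γ := by
      have e : x * ((δ * u * δ⁻¹ : HU) : H) * x⁻¹ = (y * (x * δ)⁻¹)⁻¹ * (y * u * y⁻¹) * (y * (x * δ)⁻¹) := by
        push_cast
        group
      rw [e]
      exact Γ.mul_mem (Γ.mul_mem (Γ.inv_mem h1) hu) h1
    have h4 := h2 (δ * u * δ⁻¹) ((cjG_mem Γ x _).2 h3)
    rw [hχ.mul, hχ.mul] at h4
    have h5 : χ δ * χ δ⁻¹ = 1 := by
      rw [← hχ.mul, mul_inv_cancel]
      exact hχ.one 1 (by rw [OneMemClass.coe_one]; exact Γ.one_mem)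
    calc χ u = χ u * (χ δ * χ δ⁻¹) := by rw [h5, mul_one]
      _ = χ δ * χ u * χ δ⁻¹ := by ring
      _ = 1 := h4
  have hout : ∀ a : A, ∃ δ : HU, (δ : H) ∈ H' ∧ w a * (w (Quotient.mk st a).out * δ)⁻¹ ∈ Γ := fun a => Quotient.mk_out (s := st) a
  choose dl hd1 hd2 using hout
  have hgo : ∀ a : A, Good (w a) → Good (w (Quotient.mk st a).out) := by
    intro a h1
    obtain ⟨δ, h2, h3⟩ := st.iseqv.symm (Quotient.mk_out (s := st) a)
    exact hgood _ _ δ h3 h1
  refine ⟨{q : Quotient st // Good (w q.out)}, Fintype.ofFinite _, inferInstance, fun q => w q.1.out,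
    fun a => if h : Good (w a) then some (⟨Quotient.mk st a, hgo a h⟩, dl a) else none, ?_⟩
  exact
    { gw := fun i => ⟨i.1.out, rfl⟩
      good := fun i => i.2
      ine := by
        intro i j δ h1 h2
        apply Subtype.ext
        have h3 : st.r j.1.out i.1.out := ⟨δ⁻¹, H'.inv_mem h1, by
          have e : w i.1.out * (w j.1.out * ((δ⁻¹ : HU) : H))⁻¹ = w i.1.out * δ * (w j.1.out)⁻¹ := by
            rw [InvMemClass.coe_inv]
            group
          rw [e]
          exact h2⟩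
        have h4 : Quotient.mk st j.1.out = Quotient.mk st i.1.out := Quotient.sound h3
        rw [Quotient.out_eq, Quotient.out_eq] at h4
        exact h4.symm
      some := by
        intro a i δ h
        by_cases h1 : Good (w a)
        · rw [dif_pos h1, Option.some.injEq, Prod.mk.injEq] at h
          obtain ⟨rfl, rfl⟩ := h
          exact ⟨hd1 a, hd2 a⟩
        · rw [dif_neg h1] at h
          exact absurd h (by simp)
      none := by
        intro a h
        by_cases h1 : Good (w a)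
        · rw [dif_pos h1] at h
          exact absurd h (by simp)
        · by_contra h2
          push Not at h2
          exact h1 h2 }


end

end Pool.Agent.Lib.L8
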