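import Pool.Agent.Lib.L8.U00

/-!
# U, chunk UA2: the sum over the double cosets
-/

namespace Pool.Agent.Lib.L8

open MeasureTheory Matrix NumberField NumberField.InfinitePlace IsDedekindDomain Pool.Agent.Lib.H89N Pool.Agent.Lib.H33W Pool.Agent.Lib.H67G Pool.Agent.Lib.L1S
open scoped ENNReal Pointwise

noncomputable section

set_option linter.unusedSectionVars false

variable {H : Type} [Group H] {Γ H' HU : Subgroup H} {χ : HU → ℂ}

/-- **UA2.** If `Φ` is left invariant under `Γ` and `Φ (h δ) = χ(δ) Φ(h)` for `h ∈ H'`, `δ ∈ HU ∩ H'`, then `∑_a e_a Φ(w_a) = ∑_i a_i Φ(g_i)`.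
Proof. `Φ (w_a) = (p a).elim 0 (fun q => χ q.2 * Φ (g q.1))`: if `p a = some (i, δ)`, then `w_a = γ g_i δ` with `γ ∈ Γ`, so `Φ(w_a) = Φ(g_i δ) = χ(δ) Φ(g_i)` (`g_i ∈ H'` by `gw`); if `p a = none` there is `u` with `w_a u w_a⁻¹ ∈ Γ`, `χ u ≠ 1`;
`u ∈ H'` because `Γ ≤ H'`, `w_a ∈ H'`; `Φ(w_a u) = χ(u) Φ(w_a)` and `w_a u = (w_a u w_a⁻¹) w_a`, so `Φ(w_a u) = Φ(w_a)`, hence `Φ(w_a) = 0`. Now exchange the two sums: `∑_i (∑_a e_a (p a).elim 0 (if q.1 = i then χ q.2 else 0)) Φ(g_i)`. -/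
theorem ua_sum (hΓ : Γ ≤ H') {A κ : Type} [Fintype A] [Fintype κ] [DecidableEq κ] {w : A → H} (hw : ∀ a, w a ∈ H') {g : κ → H} {p : A → Option (κ × HU)} (hD : HDat Γ H' HU χ w g p) (e : A → ℂ) {Φ : H → ℂ}
    (h1 : ∀ γ ∈ Γ, ∀ h ∈ H', Φ (γ * h) = Φ h) (h2 : ∀ h ∈ H', ∀ δ : HU, (δ : H) ∈ H' → Φ (h * δ) = χ δ * Φ h) : ∑ a, e a * Φ (w a) = ∑ i, hac e χ p i * Φ (g i) := by
  have hgm : ∀ i, g i ∈ H' := by
    intro i
    obtain ⟨a, ha⟩ := hD.gw i
    rw [ha]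
    exact hw a
  have key : ∀ a, Φ (w a) = (p a).elim 0 fun q => χ q.2 * Φ (g q.1) := by
    intro a
    rcases hpa : p a with _ | ⟨i, δ⟩
    · obtain ⟨u, hu, hχ⟩ := hD.none a hpa
      rw [cjG_mem] at hu
      have huH : (u : H) ∈ H' := by
        have e1 : (u : H) = (w a)⁻¹ * (w a * u * (w a)⁻¹) * w a := by group
        rw [e1]
        exact H'.mul_mem (H'.mul_mem (H'.inv_mem (hw a)) (hΓ hu)) (hw a)
      have e2 := h2 (w a) (hw a) u huH
      have e3 : w a * u = (w a * u * (w a)⁻¹) * w a := by group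
      have e4 : Φ (w a * u) = Φ (w a) := by
        rw [e3]
        exact h1 _ hu _ (hw a)
      rw [e4] at e2
      have e5 : (χ u - 1) * Φ (w a) = 0 := by
        rw [sub_mul, one_mul, ← e2, sub_self]
      rcases mul_eq_zero.1 e5 with h | h
      · exact absurd (sub_eq_zero.1 h) hχ
      · exact h
    · obtain ⟨hδ, hγ⟩ := hD.some a i δ hpa
      have e1 : w a = (w a * (g i * δ)⁻¹) * (g i * δ) := by group
      show Φ (w a) = χ δ * Φ (g i)
      rw [← h2 (g i) (hgm i) δ hδ]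
      conv_lhs => rw [e1]
      exact h1 _ hγ _ (H'.mul_mem (hgm i) hδ)
  simp only [hac, Finset.sum_mul]
  rw [Finset.sum_comm]
  refine Finset.sum_congr rfl fun a _ => ?_
  rw [key a]
  rcases hpa : p a with _ | ⟨i, δ⟩
  · simp
  · show e a * (χ δ * Φ (g i)) = ∑ x, e a * (if i = x then χ δ else 0) * Φ (g x)
    rw [Finset.sum_eq_single i]
    · rw [if_pos rfl, mul_assoc]
    · intro b _ hb
      rw [if_neg (Ne.symm hb), mul_zero, zero_mul]
    · intro h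
      exact absurd (Finset.mem_univ i) h


end

end Pool.Agent.Lib.L8
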