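import Pool.Agent.Lib.L8.UA5

/-!
# U, chunk UA6: the sum of the weights
-/

namespace Pool.Agent.Lib.L8

open MeasureTheory Matrix NumberField NumberField.InfinitePlace IsDedekindDomain Pool.Agent.Lib.H89N Pool.Agent.Lib.H33W Pool.Agent.Lib.H67G Pool.Agent.Lib.L1S
open scoped ENNReal Pointwise

noncomputable section

set_option linter.unusedSectionVars false

variable {H : Type} [Group H] {Γ H' HU : Subgroup H} {χ : HU → ℂ}

/-- **UA6.** `∑_i |a_i|² / vol_i ≤ Λ² / vol_0`, where `vol_i = [E : g_i⁻¹ Γ g_i ∩ E] V`, `vol_0 = [E : Γ ∩ E] V`.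
Proof. Apply `ua_ineq` with `z_i = conj(a_i) / vol_i`: with `Σ = ∑_i |a_i|² / vol_i` the left side is `(vol_0 / V) Σ²` and the right side is `Λ² ∑_i (vol_i / V) |a_i|² / vol_i² = Λ² Σ / V`. So `vol_0 Σ² ≤ Λ² Σ`; if `Σ = 0` the claim is clear (`Λ² / vol_0 ≥ 0`),
otherwise divide by `Σ > 0` and `vol_0 > 0`. -/
theorem ua_main (hχ : ChU Γ HU χ) {A κ : Type} [Fintype A] [Fintype κ] [DecidableEq κ] {w : A → H} {e : A → ℂ} {Λ : ℝ} (hT : HeOp Γ (H' : Set H) w e Λ) {g : κ → H} {p : A → Option (κ × HU)} (hD : HDat Γ H' HU χ w g p) {E : Subgroup H}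
    (hE : E ≤ HU ⊓ H') (hp : ∀ a i δ, p a = some (i, δ) → (δ : H) ∈ E) (h0 : Γ.relIndex E ≠ 0) (hi : ∀ i, (cjG Γ (g i)).relIndex E ≠ 0) {V v₀ : ℝ} (hV : 0 < V) (e0 : v₀ = (Γ.relIndex E : ℝ) * V) {vol : κ → ℝ}
    (ei : ∀ i, vol i = ((cjG Γ (g i)).relIndex E : ℝ) * V) : ∑ i, ‖hac e χ p i‖ ^ 2 / vol i ≤ Λ ^ 2 / v₀ := by
  have r0 : (0 : ℝ) < (Γ.relIndex E : ℝ) := by exact_mod_cast Nat.pos_of_ne_zero h0
  have ri : ∀ i, (0 : ℝ) < ((cjG Γ (g i)).relIndex E : ℝ) := fun i => by exact_mod_cast Nat.pos_of_ne_zero (hi i)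
  have v0 : 0 < v₀ := by rw [e0]; exact mul_pos r0 hV
  have vi : ∀ i, 0 < vol i := fun i => by rw [ei]; exact mul_pos (ri i) hV
  have h1 := ua_ineq hχ hT hD hE hp h0 hi (fun i => star (hac e χ p i) / ((vol i : ℝ) : ℂ))
  have h2 : ∑ i, hac e χ p i * (star (hac e χ p i) / ((vol i : ℝ) : ℂ)) = ((∑ i, ‖hac e χ p i‖ ^ 2 / vol i : ℝ) : ℂ) := by
    push_cast
    refine Finset.sum_congr rfl fun i _ => ?_
    rw [← mul_div_assoc]
    congr 1
    exact Complex.mul_conj' (hac e χ p i)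
  have hS : 0 ≤ ∑ i, ‖hac e χ p i‖ ^ 2 / vol i := Finset.sum_nonneg fun i _ => div_nonneg (sq_nonneg _) (vi i).le
  have h3 : ∑ i, ((cjG Γ (g i)).relIndex E : ℝ) * ‖star (hac e χ p i) / ((vol i : ℝ) : ℂ)‖ ^ 2 = (∑ i, ‖hac e χ p i‖ ^ 2 / vol i) / V := by
    rw [Finset.sum_div]
    refine Finset.sum_congr rfl fun i _ => ?_
    rw [norm_div, norm_star, Complex.norm_real, Real.norm_of_nonneg (vi i).le, div_pow]
    have h4 : ((cjG Γ (g i)).relIndex E : ℝ) = vol i / V := by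
      rw [ei, mul_div_assoc, div_self hV.ne', mul_one]
    rw [h4]
    have h5 := (vi i).ne'
    have h6 := hV.ne'
    field_simp
  rw [h2, h3, Complex.norm_real, Real.norm_of_nonneg hS] at h1
  set SS := ∑ i, ‖hac e χ p i‖ ^ 2 / vol i with hSS
  have h4 : v₀ * SS ^ 2 ≤ Λ ^ 2 * SS := by
    have h5 := mul_le_mul_of_nonneg_right h1 hV.le
    have h6 : Λ ^ 2 * (SS / V) * V = Λ ^ 2 * SS := by
      rw [mul_assoc, div_mul_cancel₀ _ hV.ne']
    rw [h6] at h5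
    rw [e0]
    calc (Γ.relIndex E : ℝ) * V * SS ^ 2 = (Γ.relIndex E : ℝ) * SS ^ 2 * V := by ring
      _ ≤ _ := h5
  rw [le_div_iff₀ v0]
  rcases hS.eq_or_lt with h5 | h5
  · rw [← h5, zero_mul]
    exact sq_nonneg _
  · have h6 : (SS * v₀) * SS ≤ Λ ^ 2 * SS := by
      calc (SS * v₀) * SS = v₀ * SS ^ 2 := by ring
        _ ≤ _ := h4
    exact le_of_mul_le_mul_right h6 h5


end

end Pool.Agent.Lib.L8
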