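import Pool.Agent.Lib.L8.UE3
import Pool.Agent.Lib.L1S.AN16

/-!
# U, chunk UE4: the common lattice, the volumes
-/

namespace Pool.Agent.Lib.L8

open MeasureTheory Matrix NumberField NumberField.InfinitePlace IsDedekindDomain Pool.Agent.Lib.H89N Pool.Agent.Lib.H33W Pool.Agent.Lib.H67G Pool.Agent.Lib.L1S
open scoped ENNReal Pointwise

noncomputable section

set_option linter.unusedSectionVars false

variable {ι M N : Type} [Fintype ι] [DecidableEq ι] [AddCommGroup M] [Module ℚ M] [AddCommGroup N] [Module ℚ N]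
  {P : RootPairing ι ℚ M N} [P.IsCrystallographic] {b : P.Base}

variable [P.IsRootSystem] [P.IsReduced] [P.IsIrreducible] {K L : Type} [Field K] [NumberField K] [Field L] [NumberField L] [Algebra K L]

/-- **UE4, the common lattice.**
Proof. For every `g ∈ S` take `e` from `ue_cj`, for every `u ∈ S₂` take `e` with `ue_den` (the exponent of `u ∈ HGL b L 𝔫 v`); `E := WE Q 𝔫 v e₀` with `e₀` the maximum (`Finset.sup`). `ue_le`, `ue_idx`. -/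
theorem ue_exists (Q : QS b K L) [IsGalois K L] {𝔫 : Ideal (𝓞 K)} (h0 : 𝔫 ≠ ⊥) (v : HeightOneSpectrum (𝓞 K)) (r s : ℕ) (S : Finset (HQ Q)) (hS : ∀ g ∈ S, g.1 ∈ HGL b L 𝔫 v) (S₂ : Finset (HQ Q)) (hS₂ : ∀ u ∈ S₂, u ∈ HUH (HQ Q) ∧ u.1 ∈ HGL b L 𝔫 v) :
    ∃ E : Subgroup (HQ Q), E ≤ HUH (HQ Q) ⊓ HvQ Q 𝔫 v ∧ (∀ u ∈ S₂, u ∈ E) ∧ (∀ g ∈ S, cjG (GamQ (HQ Q) 𝔫 v r s) g ⊓ HUH (HQ Q) ≤ E) ∧ ∀ g : HQ Q, (cjG (GamQ (HQ Q) 𝔫 v r s) g).relIndex E ≠ 0 := by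
  classical
  have h1 : ∀ g : HQ Q, ∃ e : ℕ, g ∈ S → ∀ e' ≥ e, cjG (GamQ (HQ Q) 𝔫 v r s) g ⊓ HUH (HQ Q) ≤ WE Q 𝔫 v e' := by
    intro g
    by_cases hg : g ∈ S
    · obtain ⟨e, he⟩ := ue_cj Q r s (hS g hg)
      exact ⟨e, fun _ => he⟩
    · exact ⟨0, fun h => absurd h hg⟩
  have h2 : ∀ u : HQ Q, ∃ e : ℕ, u ∈ S₂ → ∀ e' ≥ e, u ∈ WE Q 𝔫 v e' := by
    intro u
    by_cases hu : u ∈ S₂
    · obtain ⟨hU, j, hj⟩ := hS₂ u hu
      exact ⟨j, fun _ e' he' => ue_den Q he' hU hj⟩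
    · exact ⟨0, fun h => absurd h hu⟩
  choose f hf using h1
  choose k hk using h2
  refine ⟨WE Q 𝔫 v (S.sup f ⊔ S₂.sup k), ue_le Q 𝔫 v _, fun u hu => ?_, fun g hg => ?_, fun g => ue_idx Q h0 v r s _ g⟩
  · exact hk u hu _ (le_trans (Finset.le_sup hu) le_sup_right)
  · exact hf g hg _ (le_trans (Finset.le_sup hg) le_sup_left)

/-- **UE4, the volumes.** `Δ ∩ U ⊆ E ⊆ U`, `Δ ∩ E` of finite index in `E`: `vol(Δ_U \ U) = [E : Δ ∩ E] vol(E \ U)`.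
Proof. `u2_vol (th2_hp H ν) (hle) hDE hD` and `an_u2k` as in the proof of `vol_sub` (Lib/L1S/AN16.lean): `(Δ.subgroupOf HUH).relIndex (E.subgroupOf HUH) = Δ.relIndex E` (`Subgroup.relIndex_subgroupOf`, `E ≤ HUH`). -/
theorem ue_vol {L : Type} [Field L] [NumberField L] (H : Subgroup (GK b L)) {Δ E : Subgroup H} (h1 : Δ ⊓ HUH H ≤ E) (h2 : E ≤ HUH H) (h0 : Δ.relIndex E ≠ 0) (ν : Measure (UHR H)) [ν.IsHaarMeasure] {D D₁ : Set (UHR H)}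
    (hD : SF (Δ.subgroupOf (HUH H)) D) (hD₁ : SF (E.subgroupOf (HUH H)) D₁) : ν D = (Δ.relIndex E : ℝ≥0∞) * ν D₁ := by
  have := th_count H
  have hle : Δ.subgroupOf (HUH H) ≤ E.subgroupOf (HUH H) := fun u hu =>
    Subgroup.mem_subgroupOf.2 (h1 ⟨Subgroup.mem_subgroupOf.1 hu, u.2⟩)
  have e1 : (Δ.subgroupOf (HUH H)).relIndex (E.subgroupOf (HUH H)) = Δ.relIndex E :=
    Subgroup.relIndex_subgroupOf h2
  have h3 : (Δ.subgroupOf (HUH H)).relIndex (E.subgroupOf (HUH H)) ≠ 0 := by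
    rw [e1]
    exact h0
  rw [u2_vol (th2_hp H ν) hle hD₁ hD, an_u2k h3, e1]


end

end Pool.Agent.Lib.L8
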