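import Pool.Agent.Lib.L8.UF2

/-!
# U, chunk UF3: the transformation of the means
-/

namespace Pool.Agent.Lib.L8

open MeasureTheory Matrix NumberField NumberField.InfinitePlace IsDedekindDomain Pool.Agent.Lib.H89N Pool.Agent.Lib.H33W Pool.Agent.Lib.H67G Pool.Agent.Lib.L1S
open scoped ENNReal Pointwise

noncomputable section

set_option linter.unusedSectionVars false

variable {ι M N : Type} [Fintype ι] [DecidableEq ι] [AddCommGroup M] [Module ℚ M] [AddCommGroup N] [Module ℚ N]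
  {P : RootPairing ι ℚ M N} [P.IsCrystallographic] {b : P.Base} {L : Type} [Field L] [NumberField L] (H : Subgroup (GK b L))

/-- **UF3, left translations.**
Proof. `cjG Γ (γ * h) = cjG Γ h` for `γ ∈ Γ` (`cjG_congr` or `ext`). Take `D` with `SF ((cjG Γ h ⊓ Γ).subgroupOf (HUH H)) D` (`uf_fin`, `hc.comm h`). `uf_any` for `h` and for `γ * h` (both with `Δ = cjG Γ h ⊓ Γ`, `Δ.relIndex Γ ≠ 0` by `Subgroup.inf_relIndex_right`) and
`f ((γ * h) • y) = f (h • y)` (`mul_smul`, `inv`). -/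
theorem uf_gam {Γ : Subgroup H} {θ : b.support → (EE L →ₗ[ℝ] ℝ)} (hc : UCx H Γ θ) (μ : Measure (HRt H)) [μ.IsHaarMeasure] (ν : Measure (UHR H)) [ν.IsHaarMeasure] {f : HRt H → ℂ} (cf : Continuous f)
    (inv : ∀ γ ∈ Γ, ∀ y, f (γ • y) = f y) (x : HRt H) {γ : H} (hγ : γ ∈ Γ) (h : H) : Phw H Γ ν θ f x (γ * h) = Phw H Γ ν θ f x h := by
  have e1 : cjG Γ (γ * h) = cjG Γ h := cjG_congr (by rwa [mul_inv_cancel_right])
  obtain ⟨D, hD, -⟩ := uf_fin H hc μ ν (hc.comm h)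
  have h3 : (cjG Γ h ⊓ Γ).relIndex Γ ≠ 0 := by
    rw [Subgroup.inf_relIndex_right]
    exact hc.comm h
  have k1 := uf_any H hc μ ν cf inv (h := h) (Δ := cjG Γ h ⊓ Γ) (inf_le_left.trans inf_le_left)
    (fun w hw => hc.one w hw.2) h3 hD x
  have k2 := uf_any H hc μ ν cf inv (h := γ * h) (Δ := cjG Γ h ⊓ Γ) (by rw [e1]; exact inf_le_left.trans inf_le_left)
    (fun w hw => hc.one w hw.2) h3 hD x
  rw [← k1, ← k2]
  have e2 : (fun y => f ((γ * h) • y)) = fun y => f (h • y) := by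
    funext y
    rw [mul_smul, inv γ hγ]
  rw [e2]

/-- **UF3, right translations.**
Proof. Let `Δ = cjG Γ (h * δ) ⊓ Γ` and `D` with `SF (Δ.subgroupOf (HUH H)) D` (`uf_fin`). By `uf_any` the left side is the mean over `D` of `f ((h * δ) • (u x)) ψ(u)⁻¹ = f (h • ((δ u) x)) ψ(u)⁻¹`. Let `D' := {u | δ⁻¹ • u ∈ D}` (the action of `HUH H` on `UHR H`); it is a
fundamental domain of `Δ' := cjG Δ (δ⁻¹ : H)` (`g ∈ Δ' ↔ δ⁻¹ g δ ∈ Δ`; `tr_sf`, used in PC14.lean / AV15.lean, for the group `HUH H`), `ν D' = ν D` and `∫_{D'} G(u) dν = ∫_D G(δ u) dν` (`th2_hp`, `MeasurePreserving.setIntegral_preimage_emb`). With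
`G(u) = ψ(u)⁻¹ f(h • (u x))` and `ψ(δ u) = ψ(δ) ψ(u)`, `|ψ(δ)| = 1`: the left side is `ψ(δ)` times the mean over `D'` of `f (h • ·)`, and this is `Phw .. h` by `uf_any` for `Δ'`: `Δ' ≤ cjG Γ h` (`cjG_mul`), `ψ = 1` on `Δ' ∩ U`: `δ⁻¹ w δ ∈ Γ`, and `ψ(δ⁻¹ w δ) = ψ(w)`,
`Δ'.relIndex Γ ≠ 0`: `Δ' = cjG Γ h ⊓ cjG Γ δ⁻¹` (`Subgroup.relIndex_inf_ne_zero`, `hc.comm`). -/
theorem uf_chi {Γ : Subgroup H} {θ : b.support → (EE L →ₗ[ℝ] ℝ)} (hc : UCx H Γ θ) (μ : Measure (HRt H)) [μ.IsHaarMeasure] (ν : Measure (UHR H)) [ν.IsHaarMeasure] {f : HRt H → ℂ} (cf : Continuous f)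
    (inv : ∀ γ ∈ Γ, ∀ y, f (γ • y) = f y) (x : HRt H) (h : H) (δ : HUH H) : Phw H Γ ν θ f x (h * δ) = psT H θ (kUH H δ) * Phw H Γ ν θ f x h := by
  obtain ⟨D, hD, -⟩ := uf_fin H hc μ ν (hc.comm (h * δ))
  obtain ⟨Δ, hΔ⟩ : ∃ Δ : Subgroup H, Δ = cjG Γ (h * δ) ⊓ Γ := ⟨_, rfl⟩
  rw [← hΔ] at hD
  have mΔ : ∀ g : H, g ∈ Δ ↔ g ∈ cjG Γ (h * δ) ∧ g ∈ Γ := fun g => by rw [hΔ]; exact Subgroup.mem_inf
  have k1 := uf_any H hc μ ν cf inv (h := h * δ) (Δ := Δ) (fun g hg => ((mΔ g).1 hg.1).1)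
    (fun w hw => hc.one w ((mΔ _).1 hw).2) (by
      rw [hΔ, Subgroup.inf_relIndex_right]
      exact hc.comm (h * δ)) hD x
  have cj1 : ∀ g : H, (δ : H)⁻¹ * g * (δ : H)⁻¹⁻¹ ∈ cjG Γ (h * δ) ↔ g ∈ cjG Γ h := by
    intro g
    rw [cjG_mul]
    have e : (δ : H) * ((δ : H)⁻¹ * g * (δ : H)⁻¹⁻¹) * (δ : H)⁻¹ = g := by group
    rw [e]
  have mΔ' : ∀ g : H, g ∈ cjG Δ (δ : H)⁻¹ ↔ g ∈ cjG Γ h ∧ g ∈ cjG Γ (δ : H)⁻¹ := by
    intro g
    rw [cjG_mem Δ, mΔ, cj1]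
    exact Iff.rfl
  have i1 : MeasurableConstSMul (HUH H) (UHR H) := ⟨fun c => (th2_hp H ν c).measurable⟩
  obtain ⟨D', hD'e⟩ : ∃ D' : Set (UHR H), D' = {u : UHR H | (δ⁻¹ : HUH H) • u ∈ D} := ⟨_, rfl⟩
  have hD' : SF ((cjG Δ (δ : H)⁻¹).subgroupOf (HUH H)) D' := by
    rw [hD'e]
    refine tr_sf (fun g => ?_) hD
    rw [Subgroup.mem_subgroupOf, Subgroup.mem_subgroupOf, cjG_mem]
    exact Iff.rfl
  have p1 : psT H θ 1 = 1 := by
    have h1 : psT H θ (1 * 1) = psT H θ 1 * psT H θ 1 := psT_mul' H θ 1 1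
    rw [one_mul] at h1
    have h0 : psT H θ 1 ≠ 0 := by
      intro h2
      have h3 := psT_norm H θ 1
      rw [h2, norm_zero] at h3
      exact zero_ne_one h3
    exact (mul_left_cancel₀ h0 (by rw [mul_one]; exact h1)).symm
  have p2 : psT H θ (kUH H δ⁻¹) * psT H θ (kUH H δ) = 1 := by
    rw [← psT_mul', ← map_mul, inv_mul_cancel, map_one, p1]
  have k2 := uf_any H hc μ ν cf inv (h := h) (Δ := cjG Δ (δ : H)⁻¹) (fun g hg => ((mΔ' g).1 hg.1).1)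
    (fun w hw => by
      have h1 := hc.one (δ⁻¹ * w * δ⁻¹⁻¹) ((mΔ' _).1 hw).2
      rw [inv_inv, map_mul, map_mul, psT_mul', psT_mul'] at h1
      have h2 : psT H θ (kUH H w) * (psT H θ (kUH H δ⁻¹) * psT H θ (kUH H δ)) = 1 := by
        rw [← h1]
        ring
      rwa [p2, mul_one] at h2) (by
      have e : cjG Δ (δ : H)⁻¹ = cjG Γ h ⊓ cjG Γ (δ : H)⁻¹ := by
        ext g
        rw [mΔ', Subgroup.mem_inf]
      rw [e]
      exact Subgroup.relIndex_inf_ne_zero (hc.comm h) (hc.comm _)) hD' x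
  rw [← k1, ← k2]
  have hmp : MeasurePreserving (fun u : UHR H => kUH H δ * u) ν ν := th2_hp H ν δ
  have hpre : (fun u : UHR H => kUH H δ * u) ⁻¹' D' = D := by
    ext u
    rw [hD'e]
    show (δ⁻¹ : HUH H) • (δ • u) ∈ D ↔ u ∈ D
    rw [inv_smul_smul]
  have hvol : ν D' = ν D := by
    rw [← hpre]
    exact (hmp.measure_preimage hD'.meas.nullMeasurableSet).symm
  have hint := hmp.setIntegral_preimage_emb (measurableEmbedding_mulLeft (kUH H δ))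
    (fun u : UHR H => star (psT H θ u) * f (h • ((UHR H).subtype u * x))) D'
  rw [hpre] at hint
  unfold Wm
  rw [setAverage_eq, setAverage_eq, measureReal_def, measureReal_def, hvol, ← hint]
  have e1 : ∀ u : UHR H, star (psT H θ (kUH H δ * u)) * f (h • ((UHR H).subtype (kUH H δ * u) * x)) =
      star (psT H θ (kUH H δ)) * (star (psT H θ u) * f ((h * (δ : H)) • ((UHR H).subtype u * x))) := by
    intro u
    have e2 : (h • ((UHR H).subtype (kUH H δ * u) * x) : HRt H) = (h * (δ : H)) • ((UHR H).subtype u * x) := by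
      rw [smulH_def, smulH_def, map_mul, map_mul, mul_assoc, mul_assoc]
      rfl
    rw [e2, psT_mul', star_mul']
    ring
  simp_rw [e1]
  rw [integral_const_mul, ← smul_eq_mul (a := psT H θ (kUH H δ)), smul_comm, smul_eq_mul (a := psT H θ (kUH H δ)), ← mul_assoc]
  have e3 : psT H θ (kUH H δ) * star (psT H θ (kUH H δ)) = 1 := by
    rw [Complex.star_def, Complex.mul_conj']
    rw [psT_norm]
    norm_num
  rw [e3, one_mul]


end

end Pool.Agent.Lib.L8
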