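import Pool.Agent.Lib.L8.UF2

/-!
# U, chunk UF4: the operator and the means
-/

namespace Pool.Agent.Lib.L8

open MeasureTheory Matrix NumberField NumberField.InfinitePlace IsDedekindDomain Pool.Agent.Lib.H89N Pool.Agent.Lib.H33W Pool.Agent.Lib.H67G Pool.Agent.Lib.L1S
open scoped ENNReal Pointwise

noncomputable section

set_option linter.unusedSectionVars false

variable {ι M N : Type} [Fintype ι] [DecidableEq ι] [AddCommGroup M] [Module ℚ M] [AddCommGroup N] [Module ℚ N]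
  {P : RootPairing ι ℚ M N} [P.IsCrystallographic] {b : P.Base} {L : Type} [Field L] [NumberField L] (H : Subgroup (GK b L))

/-- The mean is linear (`an14_lin` for an arbitrary finite index type). -/
theorem uf4_lin {H G T : Type} [Group H] [Group G] [Group T] [TopologicalSpace G] [MeasurableSpace G] [MeasurableSpace T] [MulAction H G] {HU : Subgroup H} [MulAction HU T]
    {emb : H →* G} {j : T →* G} {k : HU →* T} {μ : Measure G} {ν : Measure T} {ψ : T → ℂ} (hG : GD emb j k μ ν ψ) {D : Set T} (fD : ν D ≠ ⊤) {A : Type} [Fintype A] {g : A → G → ℂ}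
    (mg : ∀ i, Measurable (g i)) (x : G) (bg : ∀ i, ∃ B : ℝ, ∀ t, ‖g i (j t * x)‖ ≤ B) (c : A → ℂ) :
    Wm j ψ ν D (fun y => ∑ i, c i * g i y) x = ∑ i, c i * Wm j ψ ν D (g i) x := by
  have h := an14_lin hG fD (m := Fintype.card A) (g := fun i => g ((Fintype.equivFin A).symm i)) (fun i => mg _) x (fun i => bg _) fun i => c ((Fintype.equivFin A).symm i)
  have e1 : (fun y => ∑ i, c ((Fintype.equivFin A).symm i) * g ((Fintype.equivFin A).symm i) y) = fun y => ∑ i, c i * g i y := funext fun y =>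
    Equiv.sum_comp (Fintype.equivFin A).symm fun i => c i * g i y
  have e2 : ∑ i, c ((Fintype.equivFin A).symm i) * Wm j ψ ν D (g ((Fintype.equivFin A).symm i)) x = ∑ i, c i * Wm j ψ ν D (g i) x :=
    Equiv.sum_comp (Fintype.equivFin A).symm fun i => c i * Wm j ψ ν D (g i) x
  rw [e1, e2] at h
  exact h

/-- **UF4.** Proof. `S` the image of `w`, `Δ := (⨅ g ∈ S, cjG Γ g) ⊓ Γ`, `D` from `uf_fin` and `uf_idx`. By `uf_any` (`Δ.relIndex Γ` by `Subgroup.inf_relIndex_right`) all the means `Phw (w a)` and `Phw 1` (`cjG_one`, `one_smul`) are means over `D`. The mean is linear: as `an14_lin` (Lib/L1S/AN14.lean;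
transport to `Fin m` by `Fintype.equivFin A`, or copy the proof), the functions `y ↦ f (w a • y)` are continuous and bounded on `U x` by `an14_bdd` (`hc.cc (w a)`, `K = {x}`). So `∑_a e_a Phw (w a)` is the mean of `∑_a e_a f (w a • y) = t f(y)`, which is `t Phw 1` (`an14_lin` again or
`integral_const_mul`). -/
theorem uf_sum {Γ : Subgroup H} {θ : b.support → (EE L →ₗ[ℝ] ℝ)} (hc : UCx H Γ θ) (μ : Measure (HRt H)) [μ.IsHaarMeasure] (ν : Measure (UHR H)) [ν.IsHaarMeasure] {f : HRt H → ℂ} (cf : Continuous f)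
    (inv : ∀ γ ∈ Γ, ∀ y, f (γ • y) = f y) {A : Type} [Fintype A] (w : A → H) (e : A → ℂ) {t : ℂ} (hT : ∀ y, ∑ a, e a * f (w a • y) = t * f y) (x : HRt H) :
    ∑ a, e a * Phw H Γ ν θ f x (w a) = t * Phw H Γ ν θ f x 1 := by
  classical
  have hid : (⨅ g ∈ Finset.univ.image w, cjG Γ g).relIndex Γ ≠ 0 := uf_idx H hc _
  obtain ⟨D, hD, fD⟩ := uf_fin H hc μ ν hid
  have hle : ∀ a, (⨅ g ∈ Finset.univ.image w, cjG Γ g) ⊓ Γ ≤ cjG Γ (w a) := fun a =>
    inf_le_left.trans (iInf₂_le (w a) (Finset.mem_image_of_mem w (Finset.mem_univ a)))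
  have hidx : ((⨅ g ∈ Finset.univ.image w, cjG Γ g) ⊓ Γ).relIndex Γ ≠ 0 := by
    rw [Subgroup.inf_relIndex_right]
    exact hid
  have h2 : ∀ u : HUH H, (u : H) ∈ (⨅ g ∈ Finset.univ.image w, cjG Γ g) ⊓ Γ → psT H θ (kUH H u) = 1 := fun u hu => hc.one u hu.2
  have hcc : CCH H Γ := by
    have h := hc.cc 1
    rwa [cjG_one] at h
  obtain ⟨D₀, hD₀⟩ := hc.dsc.sfU
  have hG := th2_gd H hcc hD₀ μ ν θ (psT_mul' H θ)
  have cjj : Continuous ((UHR H).subtype : UHR H →* HRt H) := continuous_subtype_val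
  have e1 : ∀ a, Phw H Γ ν θ f x (w a) = Wm (UHR H).subtype (psT H θ) ν D (fun y => f (w a • y)) x := fun a =>
    (uf_any H hc μ ν cf inv (inf_le_left.trans (hle a)) h2 hidx hD x).symm
  have e2 : Phw H Γ ν θ f x 1 = Wm (UHR H).subtype (psT H θ) ν D (fun y => f ((1 : H) • y)) x := by
    refine (uf_any H hc μ ν cf inv ?_ h2 hidx hD x).symm
    rw [cjG_one]
    exact inf_le_left.trans inf_le_right
  have cg : ∀ a, Continuous fun y : HRt H => f (w a • y) := fun a => by
    have e : (fun y : HRt H => f (w a • y)) = fun y => f (embH H (w a) * y) := rfl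
    rw [e]
    exact cf.comp (continuous_const_mul (embH H (w a)))
  have ig : ∀ a, ∀ γ ∈ cjG Γ (w a), ∀ y : HRt H, f (w a • (γ • y)) = f (w a • y) := fun a γ hγ y => by
    have e : w a • (γ • y) = (w a * γ * (w a)⁻¹) • (w a • y) := by
      rw [← mul_smul, ← mul_smul, inv_mul_cancel_right]
    rw [e]
    exact inv _ ((cjG_mem Γ (w a) γ).1 hγ) _
  have bg : ∀ a, ∃ B : ℝ, ∀ t : UHR H, ‖f (w a • ((UHR H).subtype t * x))‖ ≤ B := fun a => by
    obtain ⟨B, hB⟩ := an14_bdd hG cjj (hc.cc (w a)) (cg a) (ig a) {x} isCompact_singleton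
    exact ⟨B, fun t => hB t x rfl⟩
  have e3 := uf4_lin hG fD (g := fun a y => f (w a • y)) (fun a => (cg a).measurable) x bg e
  have e4 : (fun y : HRt H => ∑ a, e a * f (w a • y)) = fun y => ∑ _i : Unit, t * f ((1 : H) • y) := funext fun y => by
    rw [hT y, one_smul, Fintype.sum_unique]
  have b1 : ∃ B : ℝ, ∀ s : UHR H, ‖f ((1 : H) • ((UHR H).subtype s * x))‖ ≤ B := by
    obtain ⟨B, hB⟩ := an14_bdd hG cjj hcc cf inv {x} isCompact_singleton
    exact ⟨B, fun s => by rw [one_smul]; exact hB s x rfl⟩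
  have m1 : Measurable fun y : HRt H => f ((1 : H) • y) := by
    simp only [one_smul]
    exact cf.measurable
  have e5 := uf4_lin hG fD (A := Unit) (g := fun _ y => f ((1 : H) • y)) (fun _ => m1) x (fun _ => b1) fun _ => t
  calc ∑ a, e a * Phw H Γ ν θ f x (w a) = ∑ a, e a * Wm (UHR H).subtype (psT H θ) ν D (fun y => f (w a • y)) x := Finset.sum_congr rfl fun a _ => by rw [e1 a]
    _ = Wm (UHR H).subtype (psT H θ) ν D (fun y => ∑ a, e a * f (w a • y)) x := e3.symm
    _ = Wm (UHR H).subtype (psT H θ) ν D (fun y => ∑ _i : Unit, t * f ((1 : H) • y)) x := by rw [e4]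
    _ = ∑ _i : Unit, t * Wm (UHR H).subtype (psT H θ) ν D (fun y => f ((1 : H) • y)) x := e5
    _ = _ := by rw [Fintype.sum_unique, e2]


end

end Pool.Agent.Lib.L8
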