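import Pool.Agent.Lib.L8.UG1
import Pool.Agent.Lib.L8.UF3
import Pool.Agent.Lib.L8.UF4
import Pool.Agent.Lib.L8.UA1
import Pool.Agent.Lib.L8.UA2
import Pool.Agent.Lib.L8.UA6
import Pool.Agent.Lib.L8.UE4

/-!
# U, file UG2: the inequality for an arbitrary Hecke operator, abstract form (helper43)
-/

namespace Pool.Agent.Lib.L8

open MeasureTheory Matrix NumberField NumberField.InfinitePlace IsDedekindDomain Pool.Agent.Lib.H89N Pool.Agent.Lib.H33W Pool.Agent.Lib.H67G Pool.Agent.Lib.L1S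
open scoped ENNReal Pointwise

noncomputable section

set_option linter.unusedSectionVars false

variable {ι M N : Type} [Fintype ι] [DecidableEq ι] [AddCommGroup M] [Module ℚ M] [AddCommGroup N] [Module ℚ N]
  {P : RootPairing ι ℚ M N} [P.IsCrystallographic] {b : P.Base} {L : Type} [Field L] [NumberField L] (H : Subgroup (GK b L))

/-- A group which contains a subgroup of finite index of a discrete group is discrete. -/
theorem ug_dsc {Γ E : Subgroup H} (hd : Dsc H Γ) (h0 : Γ.relIndex E ≠ 0) : Dsc H E := by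
  intro Q hQ
  have hfi : (Γ.subgroupOf E).FiniteIndex := ⟨h0⟩
  have hf : Finite (E ⧸ Γ.subgroupOf E) := Subgroup.finite_quotient_of_finiteIndex
  have h1 : ∀ q : E ⧸ Γ.subgroupOf E, {γ : H | γ ∈ Γ ∧ embH H γ ∈ (fun x => (embH H (Quotient.out q : E))⁻¹ * x) '' Q}.Finite := fun q =>
    hd _ (hQ.image (continuous_const.mul continuous_id))
  have h2 : {γ : H | γ ∈ E ∧ embH H γ ∈ Q} ⊆ ⋃ q : E ⧸ Γ.subgroupOf E, (fun γ : H => ((Quotient.out q : E) : H) * γ) '' {γ : H | γ ∈ Γ ∧ embH H γ ∈ (fun x => (embH H (Quotient.out q : E))⁻¹ * x) '' Q} := by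
    rintro γ ⟨hγ, hQγ⟩
    refine Set.mem_iUnion.2 ⟨QuotientGroup.mk (⟨γ, hγ⟩ : E), ?_⟩
    have h3 : (QuotientGroup.mk (Quotient.out (QuotientGroup.mk (⟨γ, hγ⟩ : E) : E ⧸ Γ.subgroupOf E)) : E ⧸ Γ.subgroupOf E) = QuotientGroup.mk (⟨γ, hγ⟩ : E) := QuotientGroup.out_eq' _
    have h4 := QuotientGroup.eq.1 h3
    refine ⟨((Quotient.out (QuotientGroup.mk (⟨γ, hγ⟩ : E) : E ⧸ Γ.subgroupOf E) : E) : H)⁻¹ * γ, ⟨?_, ?_⟩, ?_⟩
    · exact h4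
    · refine ⟨embH H γ, hQγ, ?_⟩
      show (embH H _)⁻¹ * embH H γ = _
      rw [map_mul, map_inv]
    · show _ * (_⁻¹ * γ) = γ
      rw [mul_inv_cancel_left]
  exact (Set.finite_iUnion fun q => (h1 q).image _).subset h2

/-- **The inequality for an arbitrary Hecke operator**, abstract form: `T` an operator of the pair `Γ ≤ H'` with the norm at most `Λv`, the dichotomy for the elements `w_a⁻¹ γ w_a'`, `γ ∈ Γ₁`. -/
theorem uk_main [P.IsRootSystem] [P.IsReduced] [P.IsIrreducible] {Γ Γ₁ H' : Subgroup H} {θ : b.support → (EE L →ₗ[ℝ] ℝ)} (hc : UCx H Γ θ) (hΓ : Γ ≤ H') (hle : Γ₁ ≤ Γ) (hcomm : ∀ a, (cjG Γ₁ a).relIndex Γ₁ ≠ 0) (hidx : Γ₁.relIndex Γ ≠ 0)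
    (hcc1 : ∀ a, CCH H (cjG Γ₁ a)) (hfol : ∀ g, Fol ↥((cjG Γ₁ g).subgroupOf (HUH H)))
    (hE : ∀ S S₂ : Finset H, (∀ g ∈ S, g ∈ H') → (∀ u ∈ S₂, u ∈ HUH H ∧ u ∈ H') →
      ∃ E : Subgroup H, E ≤ HUH H ⊓ H' ∧ (∀ u ∈ S₂, u ∈ E) ∧ (∀ g ∈ S, cjG Γ g ⊓ HUH H ≤ E) ∧ ∀ g, (cjG Γ g).relIndex E ≠ 0)
    {A : Type} [Fintype A] {w : A → H} {e : A → ℂ} {Λv : ℝ} (hT : HeOp Γ (H' : Set H) w e Λv)
    {x : HRt H} {φ : HRt H → ℂ} (cφ : Continuous φ) (sφ : HasCompactSupport φ) {μ : Measure (HRt H)} [μ.IsHaarMeasure] {ν : Measure (UHR H)} [ν.IsHaarMeasure]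
    {τ : Measure (HRt H)} {wt : HRt H → ℂ} {Kt : Set (HRt H)} {Λ : ℝ} (hτ : CvD μ τ wt Kt Λ) {Mc : ℕ}
    (dich : ∀ a a' γ, w a * γ * (w a')⁻¹ ∈ Γ₁ → MvT H x (tsupport φ * Kt ^ Mc) (embH H γ) → γ ∈ HUH H ∨ AltT H θ γ)
    {F₁ : Set (HRt H)} (hF₁ : SF Γ F₁) {m : ℕ} {lam : Fin m → ℂ} {F : Fin m → HRt H → ℂ} (hF : ∀ l, AFe μ Γ F₁ φ (lam l) (F l)) {kap : Fin m → ℂ} (hκ : ∀ l y, Cv τ wt (F l) y = kap l * F l y)
    (hort : ∀ l k, ∫ x in F₁, star (F l x) * F k x ∂μ = if l = k then 1 else 0) {t : Fin m → ℂ} (ht : ∀ l y, ∑ a, e a * F l (w a • y) = t l * F l y)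
    {D₀ : Set (UHR H)} (hD₀ : SF (Γ.subgroupOf (HUH H)) D₀) :
    ∑ l, ‖kap l ^ Mc * lam l * t l * Wm (UHR H).subtype (psT H θ) ν D₀ (F l) x‖ₑ ^ 2 ≤
      ((Γ₁.relIndex Γ : ℕ) * (Jf (UHR H).subtype μ ν φ x * ENNReal.ofReal (Λ ^ 2) ^ Mc)) * (ENNReal.ofReal (Λv ^ 2) / ν D₀) := by
  classical
  have ci : Countable H := th_count H
  have hcc0 : CCH H Γ := by
    have h1 := hc.cc 1
    rwa [cjG_one] at h1
  have hG := th2_gd H hcc0 hD₀ μ ν θ (psT_mul' H θ)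
  obtain ⟨χ, hχ⟩ : ∃ χ : HUH H → ℂ, χ = fun u => psT H θ (kUH H u) := ⟨_, rfl⟩
  have hχu : ∀ u, χ u = psT H θ (kUH H u) := fun u => by rw [hχ]
  have hCh : ChU Γ (HUH H) χ := ⟨fun u v => by rw [hχu, hχu, hχu, map_mul, psT_mul' H θ], fun u => by rw [hχu]; exact hG.nψ _, fun u hu => by rw [hχu]; exact hc.one u hu⟩
  obtain ⟨κ, _, _, g, p, hDat⟩ := ua_dat (H' := H') hCh w
  have hgH : ∀ i, g i ∈ H' := fun i => by
    obtain ⟨a, ha⟩ := hDat.gw i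
    rw [ha]
    exact hT.mem a
  -- the lattice
  obtain ⟨E, hE1, hE2, hE3, hE4⟩ := hE (insert 1 (Finset.univ.image g)) (Finset.univ.biUnion fun a => (p a).elim ∅ fun q => {(q.2 : H)}) (fun y hy => by
      rcases Finset.mem_insert.1 hy with rfl | hy
      · exact one_mem _
      · obtain ⟨i, _, rfl⟩ := Finset.mem_image.1 hy
        exact hgH i) (fun u hu => by
      obtain ⟨a, _, ha⟩ := Finset.mem_biUnion.1 hu
      rcases hp : p a with _ | ⟨i, δ⟩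
      · rw [hp] at ha
        exact absurd ha (Finset.notMem_empty _)
      · rw [hp] at ha
        have h2 : u = (δ : H) := Finset.mem_singleton.1 ha
        rw [h2]
        exact ⟨δ.2, (hDat.some a i δ hp).1⟩)
  have hp2 : ∀ a i δ, p a = some (i, δ) → (δ : H) ∈ E := fun a i δ hp => hE2 _ (Finset.mem_biUnion.2 ⟨a, Finset.mem_univ _, by
    rw [hp]
    exact Finset.mem_singleton.2 rfl⟩)
  have hEU : E ≤ HUH H := hE1.trans inf_le_left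
  have hΓE : Γ ⊓ HUH H ≤ E := by
    have h1 := hE3 1 (Finset.mem_insert_self _ _)
    rwa [cjG_one] at h1
  have hΓi : Γ.relIndex E ≠ 0 := by
    have h1 := hE4 1
    rwa [cjG_one] at h1
  have hgE : ∀ i, cjG Γ (g i) ⊓ HUH H ≤ E := fun i => hE3 _ (Finset.mem_insert_of_mem (Finset.mem_image.2 ⟨i, Finset.mem_univ _, rfl⟩))
  obtain ⟨DE, hDE⟩ := (ug_dsc H hc.dsc hΓi).sfU
  choose D₂ hD₂ using fun i => (dsc_conj H hc.dsc (g i)).sfU
  have hD₂' : ∀ i, SF ((cjG Γ (g i)).subgroupOf (HUH H)) (D₂ i) := fun i => hD₂ i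
  have pD0 : ν D₀ ≠ 0 := th2_pos H hD₀ ν
  have fD0 : ν D₀ ≠ ⊤ := th2_fin H hcc0 hD₀ ν
  have pDE : ν DE ≠ 0 := th2_pos H hDE ν
  have pD2 : ∀ i, ν (D₂ i) ≠ 0 := fun i => th2_pos H (hD₂' i) ν
  have fD2 : ∀ i, ν (D₂ i) ≠ ⊤ := fun i => th2_fin H (hc.cc (g i)) (hD₂' i) ν
  have v0 : ν D₀ = (Γ.relIndex E : ℝ≥0∞) * ν DE := ue_vol H hΓE hEU hΓi ν hD₀ hDE
  have v2 : ∀ i, ν (D₂ i) = ((cjG Γ (g i)).relIndex E : ℝ≥0∞) * ν DE := fun i => ue_vol H (hgE i) hEU (hE4 _) ν (hD₂' i) hDE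
  have fDE : ν DE ≠ ⊤ := by
    intro h1
    rw [h1, ENNReal.mul_top (Nat.cast_ne_zero.2 hΓi)] at v0
    exact fD0 v0
  -- the weights
  have key := ua_main hCh hT hDat hE1 hp2 hΓi (fun i => hE4 (g i)) (V := (ν DE).toReal) (v₀ := (ν D₀).toReal) (vol := fun i => (ν (D₂ i)).toReal) (ENNReal.toReal_pos pDE fDE)
    (by rw [v0, ENNReal.toReal_mul, ENNReal.toReal_natCast]) (fun i => by
      show (ν (D₂ i)).toReal = _
      rw [v2, ENNReal.toReal_mul, ENNReal.toReal_natCast])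
  have hw : ∑ i, ‖hac e χ p i‖ₑ ^ 2 / ν (D₂ i) ≤ ENNReal.ofReal (Λv ^ 2) / ν D₀ := by
    have e1 : ∀ i, ‖hac e χ p i‖ₑ ^ 2 / ν (D₂ i) = ENNReal.ofReal (‖hac e χ p i‖ ^ 2 / (ν (D₂ i)).toReal) := fun i => by
      rw [ENNReal.ofReal_div_of_pos (ENNReal.toReal_pos (pD2 i) (fD2 i)), ENNReal.ofReal_toReal (fD2 i), ENNReal.ofReal_pow (norm_nonneg _), ofReal_norm]
    have e2 : ENNReal.ofReal (Λv ^ 2) / ν D₀ = ENNReal.ofReal (Λv ^ 2 / (ν D₀).toReal) := by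
      rw [ENNReal.ofReal_div_of_pos (ENNReal.toReal_pos pD0 fD0), ENNReal.ofReal_toReal fD0]
    rw [e2, Finset.sum_congr rfl fun i _ => e1 i, ← ENNReal.ofReal_sum_of_nonneg fun i _ => by positivity]
    exact ENNReal.ofReal_le_ofReal key
  -- the means
  have inv : ∀ l, ∀ γ ∈ Γ, ∀ y, F l (γ • y) = F l y := fun l => (hF l).inv
  have hrel1 : Γ.relIndex Γ ≠ 0 := by
    rw [Subgroup.relIndex_self]
    exact one_ne_zero
  have m0 : ∀ l, Wm (UHR H).subtype (psT H θ) ν D₀ (F l) x = Phw H Γ ν θ (F l) x 1 := fun l => by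
    have h1 := uf_any H hc μ ν (hF l).cont (inv l) (h := 1) (Δ := Γ) (by rw [cjG_one]; exact inf_le_left) hc.one hrel1 hD₀ x
    simp only [one_smul] at h1
    exact h1
  have mi : ∀ l i, Wm (UHR H).subtype (psT H θ) ν (D₂ i) (fun y => F l (g i • y)) x = Phw H Γ ν θ (F l) x (g i) := fun l i =>
    uf_any H hc μ ν (hF l).cont (inv l) (Δ := cjG Γ (g i)) inf_le_left (fun u hu => by rw [← hχu]; exact hDat.good i u hu) (hc.comm _) (hD₂' i) x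
  have ms : ∀ l, ∑ i, hac e χ p i * Wm (UHR H).subtype (psT H θ) ν (D₂ i) (fun y => F l (g i • y)) x = t l * Wm (UHR H).subtype (psT H θ) ν D₀ (F l) x := fun l => by
    rw [m0 l, ← uf_sum H hc μ ν (hF l).cont (inv l) w e (ht l) x, ua_sum hΓ hT.mem hDat e (Φ := Phw H Γ ν θ (F l) x) (fun γ hγ h _ => uf_gam H hc μ ν (hF l).cont (inv l) x hγ h)
      (fun h _ δ _ => by rw [hχu]; exact uf_chi H hc μ ν (hF l).cont (inv l) x h δ)]
    exact Finset.sum_congr rfl fun i _ => by rw [mi l i]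
  -- the inequality
  have hmemH : ∀ i j γ, g i * γ * (g j)⁻¹ ∈ Γ₁ → γ ∈ H' := fun i j γ hγ => by
    have e1 : γ = (g i)⁻¹ * (g i * γ * (g j)⁻¹) * g j := by group
    rw [e1]
    exact mul_mem (mul_mem (inv_mem (hgH i)) (hΓ (hle hγ))) (hgH j)
  have h6 := th6_A H (Γ := Γ) (Γ₁ := Γ₁) (g := g) (θ := θ) (x := x) (φ := φ) hc.dsc hle hcomm hidx (by
      have h1 := hcc1 1
      rwa [cjG_one] at h1) (fun i => hcc1 (g i)) (fun i u hu => by rw [← hχu]; exact hDat.good i u hu) cφ sφ (μ := μ) (ν := ν) hτ (fun i => hfol (g i)) (Mc := Mc) (fun i j γ hγ hmv => by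
      obtain ⟨a, ha⟩ := hDat.gw i
      obtain ⟨a', ha'⟩ := hDat.gw j
      rcases dich a a' γ (by rw [← ha, ← ha']; exact hγ) hmv with h1 | h1
      · refine Or.inl ⟨hDat.ine i j ⟨γ, h1⟩ (hmemH i j γ hγ) (hle hγ), h1⟩
      · exact Or.inr h1) hD₂' hF₁ hF hκ hort (hac e χ p)
  calc ∑ l, ‖kap l ^ Mc * lam l * t l * Wm (UHR H).subtype (psT H θ) ν D₀ (F l) x‖ₑ ^ 2
      = ∑ l, ‖kap l ^ Mc * lam l‖ₑ ^ 2 * ‖∑ i, hac e χ p i * Wm (UHR H).subtype (psT H θ) ν (D₂ i) (fun y => F l (g i • y)) x‖ₑ ^ 2 := by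
        refine Finset.sum_congr rfl fun l _ => ?_
        rw [ms l, ← mul_pow, ← enorm_mul]
        congr 2
        ring
    _ ≤ _ := h6
    _ ≤ _ := mul_le_mul_right hw _

end

end Pool.Agent.Lib.L8
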