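import Pool.Agent.Lib.L8.W0
import Pool.Agent.Lib.L8.UG2
import Pool.Agent.Lib.L8.PA5

/-!
# W, chunk W3: arithmetic groups
-/

namespace Pool.Agent.Lib.L8

open MeasureTheory Matrix NumberField NumberField.InfinitePlace IsDedekindDomain Pool.Agent.Lib.H89N Pool.Agent.Lib.H33W Pool.Agent.Lib.H67G Pool.Agent.Lib.L1S
open scoped ENNReal Pointwise

noncomputable section

set_option linter.unusedSectionVars false

variable {ι M N : Type} [Fintype ι] [DecidableEq ι] [AddCommGroup M] [Module ℚ M] [AddCommGroup N] [Module ℚ N]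
  {P : RootPairing ι ℚ M N} [P.IsCrystallographic] {b : P.Base}

variable {K L : Type} [Field K] [NumberField K] [Field L] [NumberField L] [Algebra K L]

variable [P.IsRootSystem] [P.IsReduced] [P.IsIrreducible]

/-- Auxiliary: `up L ⊤ = ⊤`. -/
theorem w3_up : up L (⊤ : Ideal (𝓞 K)) = ⊤ := Ideal.map_top _

/-- Auxiliary: `X - 1` is integral iff `X` is. -/
theorem w3_int {X : Matrix (I b) (I b) L} : IntM b X ↔ ∀ r c, L1S.InI (⊤ : Ideal (𝓞 L)) ((X - 1) r c) := by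
  have h1 : IntM b (1 : Matrix (I b) (I b) L) := IntM.one
  constructor
  · intro h r c
    obtain ⟨x, -, hx⟩ := h r c
    obtain ⟨y, -, hy⟩ := h1 r c
    exact ⟨x - y, Submodule.mem_top, by rw [Matrix.sub_apply, ← hx, ← hy]; simp⟩
  · intro h r c
    obtain ⟨x, -, hx⟩ := h r c
    obtain ⟨y, -, hy⟩ := h1 r c
    refine ⟨x + y, Submodule.mem_top, ?_⟩
    have e : ((x + y : 𝓞 L) : L) = (x : L) + (y : L) := by simp
    rw [e, hx, hy, Matrix.sub_apply]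
    ring

/-- **W3, `G(𝓞)` is the group of level 1.** Proof. `up L ⊤ = ⊤`, `v ^ 0 = ⊤`; `g - 1` is integral iff `g` is. -/
theorem w3_gi (Q : QS b K L) (v : HeightOneSpectrum (𝓞 K)) : GI Q = GamQ (HQ Q) ⊤ v 0 0 := by
  have e1 : up L (⊤ : Ideal (𝓞 K)) = ⊤ := w3_up
  have e2 : up L (v.asIdeal ^ 0) = ⊤ := by rw [pow_zero, Ideal.one_eq_top, e1]
  ext g
  constructor
  · rintro ⟨h1, h2⟩ i j
    rw [e1, e2]
    exact ⟨⟨w3_int.1 h1 i j, fun _ => h1 i j, fun _ => w3_int.1 h1 i j⟩,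
      ⟨w3_int.1 h2 i j, fun _ => h2 i j, fun _ => w3_int.1 h2 i j⟩⟩
  · intro h
    have h' : ∀ i j, L1S.InI (⊤ : Ideal (𝓞 L)) ((g.1.1.1 - 1) i j) ∧ L1S.InI (⊤ : Ideal (𝓞 L)) ((g⁻¹.1.1.1 - 1) i j) := by
      intro i j
      have h1 := h i j
      rw [e1] at h1
      exact ⟨h1.1.1, h1.2.1⟩
    exact ⟨w3_int.2 fun i j => (h' i j).1, w3_int.2 fun i j => (h' i j).2⟩

/-- Auxiliary: there is a place. -/
theorem w3_place (K : Type) [Field K] [NumberField K] : Nonempty (HeightOneSpectrum (𝓞 K)) := by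
  obtain ⟨m, hm, -⟩ := Ideal.exists_le_maximal (⊥ : Ideal (𝓞 K)) bot_ne_top
  refine ⟨⟨m, hm.isPrime, ?_⟩⟩
  rintro rfl
  exact RingOfIntegers.not_isField K (Ring.isField_iff_maximal_bot.2 hm)

/-- Auxiliary: commensurability for `GI`. -/
theorem w3_aux (Q : QS b K L) [IsGalois K L] {Γ : Subgroup (HQ Q)} (h0 : Γ.relIndex (GI Q) ≠ 0) (g g' : HQ Q) : (cjG Γ g).relIndex (cjG (GI Q) g') ≠ 0 := by
  obtain ⟨v⟩ := w3_place K
  have h1 : (cjG (GI Q) g).relIndex (cjG (GI Q) g') ≠ 0 := by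
    rw [w3_gi Q v]
    exact qa_comm Q top_ne_bot v v 0 0 0 0 g g'
  have h2 : (cjG Γ g).relIndex (cjG (GI Q) g) ≠ 0 := by
    have h3 : (cjG Γ g).relIndex (cjG (GI Q) g) = Γ.relIndex (GI Q) := qg_relIndex_conj Γ (GI Q) g
    rw [h3]
    exact h0
  exact Subgroup.relIndex_ne_zero_trans h2 h1

/-- **W3, commensurability.** Proof. `w3_gi`, `qa_comm Q top_ne_bot v v 0 0 0 0 g g'`; `(cjG Γ g).relIndex (cjG (GI Q) g) = Γ.relIndex (GI Q)` (`qg_relIndex_conj`); `Subgroup.relIndex_ne_zero_trans`; `cjG Γ g' ≤ cjG (GI Q) g'`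
(`cjG_mono`, `Subgroup.relIndex_ne_zero` of a smaller group: `Subgroup.relIndex_mul_relIndex` or `relIndex_inf_le`, see the proofs in Lib/L8/UF1.lean, `uf_idx`). A place `v` exists (`𝓞 K` is not a field). -/
theorem w3_comm (Q : QS b K L) [IsGalois K L] {Γ : Subgroup (HQ Q)} (hΓ : Γ ≤ GI Q) (h0 : Γ.relIndex (GI Q) ≠ 0) (g g' : HQ Q) : (cjG Γ g).relIndex (cjG Γ g') ≠ 0 :=
  mt (Subgroup.relIndex_eq_zero_of_le_right (cjG_mono hΓ g')) (w3_aux Q h0 g g')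

/-- **W3, with `G(𝓞)` on the right.** Proof. As `w3_comm`. -/
theorem w3_comm' (Q : QS b K L) [IsGalois K L] {Γ : Subgroup (HQ Q)} (hΓ : Γ ≤ GI Q) (h0 : Γ.relIndex (GI Q) ≠ 0) (g g' : HQ Q) : (cjG Γ g).relIndex (cjG (GI Q) g') ≠ 0 :=
  w3_aux Q h0 g g'

/-- **W3, cocompactness.** Proof. `qa_cc Q top_ne_bot v 0 0 a` (with `w3_gi`) gives a compact set `KT` for `cjG (GI Q) a`. The group `(cjG Γ a).subgroupOf (HUH ..)` has finite index in `(cjG (GI Q) a).subgroupOf (HUH ..)` (`w3_comm'`), so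
there are finitely many `r_i` in the second group with `δ ∈ ⋃ (first group) r_i` for all `δ` in it (right cosets); take `⋃_i kUH r_i • KT` (finite union of compact sets). -/
theorem w3_cc (Q : QS b K L) [IsGalois K L] {Γ : Subgroup (HQ Q)} (hΓ : Γ ≤ GI Q) (h0 : Γ.relIndex (GI Q) ≠ 0) (a : HQ Q) : CCH (HQ Q) (cjG Γ a) := by
  obtain ⟨v⟩ := w3_place K
  obtain ⟨KT, hKT, hcov⟩ := qa_cc Q (top_ne_bot : (⊤ : Ideal (𝓞 K)) ≠ ⊥) v 0 0 a
  set A : Subgroup (HUH (HQ Q)) := (cjG Γ a).subgroupOf (HUH (HQ Q)) with hA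
  set B : Subgroup (HUH (HQ Q)) := (cjG (GI Q) a).subgroupOf (HUH (HQ Q)) with hB
  have h1 : A.relIndex B ≠ 0 := (qg_relIndex (HUH (HQ Q)) (w3_comm' Q hΓ h0 a a)).1
  have h2 : Finite (B ⧸ A.subgroupOf B) := Subgroup.index_ne_zero_iff_finite.1 h1
  refine ⟨⋃ q : B ⧸ A.subgroupOf B, (fun x => kUH (HQ Q) ((q.out : B) : HUH (HQ Q))⁻¹ * x) '' KT,
    isCompact_iUnion fun q => hKT.image (continuous_const.mul continuous_id), fun t => ?_⟩
  obtain ⟨δ, hδ, s, hs, e⟩ := hcov t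
  have hδB : δ ∈ B := by
    have h3 : (δ : HQ Q) ∈ cjG (GI Q) a := by
      rw [w3_gi Q v]
      exact hδ
    exact h3
  obtain ⟨h, hh⟩ := QuotientGroup.mk_out_eq_mul (A.subgroupOf B) (⟨δ⁻¹, B.inv_mem hδB⟩ : B)
  have hhA : ((h : B) : HUH (HQ Q)) ∈ A := h.2
  have hval : (((QuotientGroup.mk (⟨δ⁻¹, B.inv_mem hδB⟩ : B) : B ⧸ A.subgroupOf B).out : B) : HUH (HQ Q)) = δ⁻¹ * ((h : B) : HUH (HQ Q)) := by
    rw [hh]
    rfl
  refine ⟨((h : B) : HUH (HQ Q)), hhA, kUH (HQ Q) (((QuotientGroup.mk (⟨δ⁻¹, B.inv_mem hδB⟩ : B) : B ⧸ A.subgroupOf B).out : B) : HUH (HQ Q))⁻¹ * s,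
    Set.mem_iUnion.2 ⟨QuotientGroup.mk (⟨δ⁻¹, B.inv_mem hδB⟩ : B), s, hs, rfl⟩, ?_⟩
  rw [e, ← mul_assoc, ← map_mul, hval]
  congr 2
  group

/-- **W3, the Folner property.** Proof. As `fol_gu` (Lib/L8/PA5.lean), which uses only that the elements of `Γ` are integral. -/
theorem w3_fol (Q : QS b K L) {Γ : Subgroup (HQ Q)} (hΓ : Γ ≤ GI Q) (g : HQ Q) : Fol ↥((cjG Γ g).subgroupOf (HUH (HQ Q))) := by
  obtain ⟨κ, hκ, h1⟩ := pa5_den (b := b) (L := L) (g⁻¹ : HQ Q).1.1.1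
  obtain ⟨κ', hκ', h2⟩ := pa5_den (b := b) (L := L) g.1.1.1
  apply fol_of_pgr
  refine pa4_pgr (L := L) (J := I b) ?_ ?_ (ht b) ?_ (κ * κ') (mul_ne_zero hκ hκ') ?_
  · exact (Units.coeHom _).comp ((Subgroup.subtype _).comp ((Subgroup.subtype (HQ Q)).comp ((Subgroup.subtype (HUH (HQ Q))).comp (Subgroup.subtype _))))
  · intro x y h
    apply Subtype.ext
    apply Subtype.ext
    apply Subtype.ext
    apply Subtype.ext
    exact Units.ext h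
  · intro γ i j hij
    have h3 : mixedEmbedding L (γ.1.1.1.1.1 i j) = (1 : Matrix (I b) (I b) (EE L)) i j := (γ.1.2 i j hij).1
    apply mixedEmbedding_injective L
    refine h3.trans ?_
    rw [Matrix.one_apply, Matrix.one_apply]
    split_ifs <;> simp
  · intro γ i j
    have h3 : IntM b (g * γ.1.1 * g⁻¹ : HQ Q).1.1.1 := (hΓ γ.2).1
    have h4 : ∀ i j, ∃ z : 𝓞 L, (z : L) = (g * γ.1.1 * g⁻¹ : HQ Q).1.1.1 i j := by
      intro i j
      obtain ⟨y, _, hy⟩ := h3 i j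
      exact ⟨y, hy⟩
    choose z hz using h4
    choose x hx using h1
    choose x' hx' using h2
    have h5 : γ.1.1.1.1.1 = (g⁻¹ : HQ Q).1.1.1 * (g * γ.1.1 * g⁻¹ : HQ Q).1.1.1 * g.1.1.1 := by
      have h6 : (γ.1.1 : HQ Q) = g⁻¹ * (g * γ.1.1 * g⁻¹) * g := by group
      have h7 : (γ.1.1 : HQ Q).1.1.1 = (g⁻¹ * (g * γ.1.1 * g⁻¹) * g : HQ Q).1.1.1 := by rw [← h6]
      exact h7
    refine ⟨∑ k, (∑ l, x i l * z l k) * x' k j, ?_⟩
    show algebraMap (𝓞 L) L (∑ k, (∑ l, x i l * z l k) * x' k j) = algebraMap (𝓞 L) L (κ * κ') * γ.1.1.1.1.1 i j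
    rw [h5, Matrix.mul_apply, map_sum, Finset.mul_sum]
    refine Finset.sum_congr rfl fun k _ => ?_
    rw [map_mul, map_sum, Matrix.mul_apply, map_mul, Finset.sum_mul, Finset.sum_mul, Finset.mul_sum]
    refine Finset.sum_congr rfl fun l _ => ?_
    have h8 : algebraMap (𝓞 L) L (x i l) = algebraMap (𝓞 L) L κ * (g⁻¹ : HQ Q).1.1.1 i l := hx i l
    have h9 : algebraMap (𝓞 L) L (x' k j) = algebraMap (𝓞 L) L κ' * g.1.1.1 k j := hx' k j
    have h10 : algebraMap (𝓞 L) L (z l k) = (g * γ.1.1 * g⁻¹ : HQ Q).1.1.1 l k := hz l k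
    rw [map_mul, h8, h9, h10]
    ring

/-- **W3, discreteness.** Proof. `Γ ≤ GamQ (HQ Q) ⊤ v 0 0` (`w3_gi`), `dsc_Gam (HQ Q) ⊤ v 0 0`, `Dsc.mono`. -/
theorem w3_dsc (Q : QS b K L) {Γ : Subgroup (HQ Q)} (hΓ : Γ ≤ GI Q) : Dsc (HQ Q) Γ := by
  obtain ⟨v⟩ := w3_place K
  have h1 : Dsc (HQ Q) (GamQ (HQ Q) (⊤ : Ideal (𝓞 K)) v 0 0) := dsc_Gam (HQ Q) ⊤ v 0 0
  refine h1.mono ?_
  rw [← w3_gi Q v]
  exact hΓ

end

end Pool.Agent.Lib.L8
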