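import Pool.Agent.Lib.L8.W2
import Pool.Agent.Lib.L8.W3

/-!
# W, chunk W4: the common lattice
-/

namespace Pool.Agent.Lib.L8

open MeasureTheory Matrix NumberField NumberField.InfinitePlace IsDedekindDomain Pool.Agent.Lib.H89N Pool.Agent.Lib.H33W Pool.Agent.Lib.H67G Pool.Agent.Lib.L1S
open scoped ENNReal Pointwise

noncomputable section

set_option linter.unusedSectionVars false

variable {ι M N : Type} [Fintype ι] [DecidableEq ι] [AddCommGroup M] [Module ℚ M] [AddCommGroup N] [Module ℚ N]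
  {P : RootPairing ι ℚ M N} [P.IsCrystallographic] {b : P.Base}

variable {K L : Type} [Field K] [NumberField K] [Field L] [NumberField L] [Algebra K L]

variable [P.IsRootSystem] [P.IsReduced] [P.IsIrreducible]

omit [Algebra K L] [NumberField K] [Field K] in
theorem w4_int {m k : ℕ} (hk : 0 < k) (hm : (m : L) ≠ 0) {a a' : ℤ} (h : a' < a) {x : L} (hx : L1S.InI (⊤ : Ideal (𝓞 L)) ((m : L) * x)) :
    L1S.InI (⊤ : Ideal (𝓞 L)) ((m : L) ^ ((k : ℤ) * a) * x * (m : L) ^ (-((k : ℤ) * a'))) := by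
  obtain ⟨n, hn⟩ : ∃ n : ℕ, (n : ℤ) = (k : ℤ) * (a - a') - 1 := by
    have h1 : 0 ≤ (k : ℤ) * (a - a') - 1 := by
      have h2 : (1 : ℤ) ≤ k := by exact_mod_cast hk
      nlinarith
    exact ⟨((k : ℤ) * (a - a') - 1).toNat, Int.toNat_of_nonneg h1⟩
  have e : (m : L) ^ ((k : ℤ) * a) * x * (m : L) ^ (-((k : ℤ) * a')) = (m : L) ^ n * ((m : L) * x) := by
    have e1 : (m : L) ^ n * ((m : L) * x) = (m : L) ^ ((n : ℤ) + 1) * x := by
      rw [zpow_add₀ hm, zpow_natCast, zpow_one]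
      ring
    rw [e1, hn, mul_right_comm, ← zpow_add₀ hm]
    congr 2
    ring
  rw [e]
  refine L1S.InI.mul' ⟨((m : 𝓞 L)) ^ n, Submodule.mem_top, ?_⟩ hx
  simp

omit [Algebra K L] [NumberField K] [Field K] in
theorem w4_zero (k : ℕ) {m : ℕ} (hm : (m : L) ≠ 0) {r c : I b} {x : L} (hx : x = (1 : Matrix (I b) (I b) L) r c) :
    L1S.InI (⊤ : Ideal (𝓞 L)) ((m : L) ^ ((k : ℤ) * ht b r) * x * (m : L) ^ (-((k : ℤ) * ht b c))) := by
  by_cases h : r = c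
  · subst h
    rw [hx, Matrix.one_apply_eq, mul_one, ← zpow_add₀ hm, add_neg_cancel, zpow_zero]
    exact ⟨1, Submodule.mem_top, by simp⟩
  · rw [hx, Matrix.one_apply_ne h, mul_zero, zero_mul]
    exact L1S.InI.zero _

omit [Algebra K L] [NumberField K] [Field K] in
theorem w4_den0 (X : Matrix (I b) (I b) L) : ∃ κ : 𝓞 L, κ ≠ 0 ∧ ∀ r c, ∃ y : 𝓞 L, (y : L) = κ * X r c := by
  classical
  have h1 : ∀ p : I b × I b, ∃ d : 𝓞 L, d ≠ 0 ∧ ∃ y : 𝓞 L, (y : L) = d * X p.1 p.2 := by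
    intro p
    obtain ⟨d, hd⟩ := IsLocalization.exists_integer_multiple (nonZeroDivisors (𝓞 L)) (X p.1 p.2)
    obtain ⟨y, hy⟩ := hd
    refine ⟨d, nonZeroDivisors.coe_ne_zero d, y, hy.trans ?_⟩
    exact Algebra.smul_def _ _
  choose d hd y hy using h1
  refine ⟨∏ p, d p, Finset.prod_ne_zero_iff.2 fun p _ => hd p, fun r c => ⟨(∏ p ∈ Finset.univ.erase (r, c), d p) * y (r, c), ?_⟩⟩
  have h2 : algebraMap (𝓞 L) L (y (r, c)) = algebraMap (𝓞 L) L (d (r, c)) * X r c := hy (r, c)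
  show algebraMap (𝓞 L) L ((∏ p ∈ Finset.univ.erase (r, c), d p) * y (r, c)) = algebraMap (𝓞 L) L (∏ p, d p) * X r c
  rw [map_mul, h2, ← mul_assoc, ← map_mul, mul_comm _ (d (r, c)), Finset.mul_prod_erase _ _ (Finset.mem_univ _)]

omit [Algebra K L] [NumberField K] [Field K] in
theorem w4_den1 (X : Matrix (I b) (I b) L) : ∃ m : ℕ, m ≠ 0 ∧ ∀ r c, L1S.InI (⊤ : Ideal (𝓞 L)) ((m : L) * X r c) := by
  obtain ⟨κ, hκ, h⟩ := w4_den0 X
  refine ⟨Ideal.absNorm (Ideal.span {κ}), ?_, fun r c => ?_⟩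
  · intro h0
    rw [Ideal.absNorm_eq_zero_iff, Ideal.span_singleton_eq_bot] at h0
    exact hκ h0
  · have h1 := Ideal.absNorm_mem (Ideal.span {κ})
    obtain ⟨z, hz⟩ := Ideal.mem_span_singleton'.1 h1
    obtain ⟨y, hy⟩ := h r c
    refine ⟨z * y, Submodule.mem_top, ?_⟩
    have h2 : ((Ideal.absNorm (Ideal.span {κ}) : ℕ) : L) = (z : L) * (κ : L) := by
      have h3 := congrArg (fun t : 𝓞 L => (t : L)) hz
      have h4 : (((z * κ : 𝓞 L)) : L) = (((Ideal.absNorm (Ideal.span {κ}) : ℕ) : 𝓞 L) : L) := h3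
      have h5 : (((z * κ : 𝓞 L)) : L) = (z : L) * (κ : L) := map_mul (algebraMap (𝓞 L) L) z κ
      have h6 : (((Ideal.absNorm (Ideal.span {κ}) : ℕ) : 𝓞 L) : L) = ((Ideal.absNorm (Ideal.span {κ}) : ℕ) : L) :=
        map_natCast (algebraMap (𝓞 L) L) _
      rw [← h6, ← h4, h5]
    have h5 : (((z * y : 𝓞 L)) : L) = (z : L) * (y : L) := map_mul (algebraMap (𝓞 L) L) z y
    rw [h2, h5, hy, mul_assoc]

omit [Algebra K L] [NumberField K] [Field K] in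
theorem w4_den {α : Type} (S : Finset α) (X : α → Matrix (I b) (I b) L) : ∃ m : ℕ, m ≠ 0 ∧ ∀ g ∈ S, ∀ r c, L1S.InI (⊤ : Ideal (𝓞 L)) ((m : L) * X g r c) := by
  classical
  induction S using Finset.induction_on with
  | empty => exact ⟨1, one_ne_zero, fun g hg => absurd hg (Finset.notMem_empty g)⟩
  | insert a S ha ih =>
    obtain ⟨m, hm, h⟩ := ih
    obtain ⟨m', hm', h'⟩ := w4_den1 (X a)
    refine ⟨m * m', mul_ne_zero hm hm', fun g hg r c => ?_⟩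
    rcases Finset.mem_insert.1 hg with rfl | hg
    · have e : ((m * m' : ℕ) : L) * X g r c = (m : L) * ((m' : L) * X g r c) := by push_cast; ring
      rw [e]
      exact L1S.InI.mul' ⟨(m : 𝓞 L), Submodule.mem_top, by simp⟩ (h' r c)
    · have e : ((m * m' : ℕ) : L) * X g r c = (m' : L) * ((m : L) * X g r c) := by push_cast; ring
      rw [e]
      exact L1S.InI.mul' ⟨(m' : 𝓞 L), Submodule.mem_top, by simp⟩ (h g hg r c)

omit [Algebra K L] [NumberField K] [Field K] in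
theorem w4_tri {m : ℕ} {X Y Z : Matrix (I b) (I b) L} (hX : ∀ r c, L1S.InI (⊤ : Ideal (𝓞 L)) ((m : L) * X r c)) (hY : IntM b Y)
    (hZ : ∀ r c, L1S.InI (⊤ : Ideal (𝓞 L)) ((m : L) * Z r c)) (r c : I b) : L1S.InI (⊤ : Ideal (𝓞 L)) (((m ^ 2 : ℕ) : L) * (X * Y * Z) r c) := by
  have h1 : IntM b ((m : L) • X) := fun r c => by
    rw [Matrix.smul_apply, smul_eq_mul]
    exact hX r c
  have h2 : IntM b ((m : L) • Z) := fun r c => by
    rw [Matrix.smul_apply, smul_eq_mul]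
    exact hZ r c
  have h3 := (h1.mul hY).mul h2 r c
  have e : ((m : L) • X * Y * ((m : L) • Z)) r c = ((m ^ 2 : ℕ) : L) * (X * Y * Z) r c := by
    rw [Matrix.smul_mul, Matrix.smul_mul, Matrix.mul_smul, smul_smul, Matrix.smul_apply, smul_eq_mul]
    push_cast
    ring
  rw [← e]
  exact h3

/-- **W4, the common lattice.**
Proof. Let `c`, `k` be as in `w2_cow` and for `m : ℕ`, `m ≠ 0`, let `d_m ∈ HQ Q` be the element with `d_m = diag(m ^ (k ht r))` (`qx_lam Q (fun i x hx => qx_orb Q i hx) hc (Nat.cast_ne_zero.2 hm)`, Lib/L1S/QX.lean, and `pr b c r = - k ht r`;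
`algebraMap K L (m : K) = m`). Put `E_m := cjG (GI Q) d_m ⊓ HUH (HQ Q)`. (1) For `u ∈ HUH (HQ Q)` (unitriangular: the entries of `u - 1`, `u⁻¹ - 1` with `ht r ≤ ht c` are zero, `qb2_mem_HUH`, `mem_HU`) and `m` such that the entries of `m u`, `m u⁻¹`
are integral: `u ∈ E_m`, because the entries of `d_m u d_m⁻¹` are `m ^ (k (ht r - ht c)) u_rc`, integral for `ht r > ht c` (`k (ht r - ht c) ≥ 1`), the diagonal is `1` and the others are zero; the same for `u⁻¹`. (2) Every matrix over `L` has a common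
denominator in `ℕ`, `m ≠ 0` (`pa5_den` in Lib/L8/PA5.lean gives one in `𝓞 L`; take the absolute norm, or `IsIntegral.exists_multiple_integral_eq_..`/ `exists_integral_multiple`); choose `m` such that `m g`, `m g⁻¹` are integral for
`g ∈ S ∪ S₂`, and take `E := E_(m^2)`: for `x ∈ cjG Γ g ⊓ U`, `γ = g x g⁻¹ ∈ Γ ≤ GI Q`, `m² x = (m g⁻¹) γ (m g)` is integral, and so is `m² x⁻¹`. (3) `(cjG Γ g).relIndex E ≠ 0`: `w3_comm'` for `cjG (GI Q) d`, and `E ≤ cjG (GI Q) d`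
(`Subgroup.relIndex_ne_zero` for smaller groups, as in `w3_comm`). -/
theorem w4_lat (Q : QS b K L) [IsGalois K L] {Γ : Subgroup (HQ Q)} (hΓ : Γ ≤ GI Q) (h0 : Γ.relIndex (GI Q) ≠ 0) (S S₂ : Finset (HQ Q)) (hS₂ : ∀ u ∈ S₂, u ∈ HUH (HQ Q)) :
    ∃ E : Subgroup (HQ Q), E ≤ HUH (HQ Q) ∧ (∀ u ∈ S₂, u ∈ E) ∧ (∀ g ∈ S, cjG Γ g ⊓ HUH (HQ Q) ≤ E) ∧ ∀ g, (cjG Γ g).relIndex E ≠ 0 := by
  classical
  obtain ⟨c, k, hc, hk, hpr⟩ := w2_cow Q
  -- the denominators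
  obtain ⟨m1, hm1, hd1⟩ := w4_den (b := b) (S ∪ S₂) fun g : HQ Q => g.1.1.1
  obtain ⟨m2, hm2, hd2⟩ := w4_den (b := b) (S ∪ S₂) fun g : HQ Q => g⁻¹.1.1.1
  obtain ⟨m, hm⟩ : ∃ m, m = m1 * m2 := ⟨_, rfl⟩
  have hm0 : m ≠ 0 := by rw [hm]; exact mul_ne_zero hm1 hm2
  have hg1 : ∀ g ∈ S ∪ S₂, ∀ r c, L1S.InI (⊤ : Ideal (𝓞 L)) ((m : L) * g.1.1.1 r c) := by
    intro g hg r c
    have e : (m : L) * g.1.1.1 r c = (m2 : L) * ((m1 : L) * g.1.1.1 r c) := by rw [hm]; push_cast; ring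
    rw [e]
    exact L1S.InI.mul' ⟨(m2 : 𝓞 L), Submodule.mem_top, by simp⟩ (hd1 g hg r c)
  have hg2 : ∀ g ∈ S ∪ S₂, ∀ r c, L1S.InI (⊤ : Ideal (𝓞 L)) ((m : L) * g⁻¹.1.1.1 r c) := by
    intro g hg r c
    have e : (m : L) * g⁻¹.1.1.1 r c = (m1 : L) * ((m2 : L) * g⁻¹.1.1.1 r c) := by rw [hm]; push_cast; ring
    rw [e]
    exact L1S.InI.mul' ⟨(m1 : 𝓞 L), Submodule.mem_top, by simp⟩ (hd2 g hg r c)
  -- the torus element
  have hM0 : ((m ^ 2 : ℕ) : K) ≠ 0 := Nat.cast_ne_zero.2 (pow_ne_zero 2 hm0)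
  have hML : ((m ^ 2 : ℕ) : L) ≠ 0 := Nat.cast_ne_zero.2 (pow_ne_zero 2 hm0)
  obtain ⟨d0, hd0, hd⟩ := qx_lam Q (fun i x hx => qx_orb Q i hx) hc hM0
  obtain ⟨d, hdd⟩ : ∃ d : HQ Q, d = ⟨d0, hd0⟩ := ⟨_, rfl⟩
  have hdm : d.1.1.1 = Matrix.diagonal fun r => ((m ^ 2 : ℕ) : L) ^ ((k : ℤ) * ht b r) := by
    rw [hdd]
    have e : d0.1.1 = _ := hd
    rw [e]
    congr 1
    funext r
    rw [hpr, neg_neg, map_natCast]
  have hdi : ∀ r s, d⁻¹.1.1.1 r s = if r = s then ((m ^ 2 : ℕ) : L) ^ (-((k : ℤ) * ht b r)) else 0 := by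
    intro r s
    have h1 : d.1.1.1 * d⁻¹.1.1.1 = 1 := by
      have h2 : d * d⁻¹ = 1 := mul_inv_cancel d
      exact congrArg (fun g : HQ Q => g.1.1.1) h2
    have h2 := congrFun (congrFun h1 r) s
    rw [hdm, Matrix.diagonal_mul] at h2
    have h3 : ((m ^ 2 : ℕ) : L) ^ ((k : ℤ) * ht b r) ≠ 0 := zpow_ne_zero _ hML
    have h4 : d⁻¹.1.1.1 r s = (((m ^ 2 : ℕ) : L) ^ ((k : ℤ) * ht b r))⁻¹ * (1 : Matrix (I b) (I b) L) r s := by
      rw [← h2, inv_mul_cancel_left₀ h3]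
    rw [h4, ← _root_.zpow_neg, Matrix.one_apply]
    by_cases h : r = s
    · rw [if_pos h, if_pos h, mul_one]
    · rw [if_neg h, if_neg h, mul_zero]
  have hconj : ∀ (x : HQ Q) (r s : I b), (d * x * d⁻¹).1.1.1 r s =
      ((m ^ 2 : ℕ) : L) ^ ((k : ℤ) * ht b r) * x.1.1.1 r s * ((m ^ 2 : ℕ) : L) ^ (-((k : ℤ) * ht b s)) := by
    intro x r s
    have e1 : (d * x * d⁻¹).1.1.1 = d.1.1.1 * x.1.1.1 * d⁻¹.1.1.1 := rfl
    have e2 : d⁻¹.1.1.1 = Matrix.diagonal fun r => ((m ^ 2 : ℕ) : L) ^ (-((k : ℤ) * ht b r)) := by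
      ext r s
      rw [hdi, Matrix.diagonal_apply]
    rw [e1, e2, hdm, Matrix.mul_diagonal, Matrix.diagonal_mul]
  have hmem : ∀ x : HQ Q, x ∈ HUH (HQ Q) → (∀ r s, L1S.InI (⊤ : Ideal (𝓞 L)) (((m ^ 2 : ℕ) : L) * x.1.1.1 r s)) →
      (∀ r s, L1S.InI (⊤ : Ideal (𝓞 L)) (((m ^ 2 : ℕ) : L) * x⁻¹.1.1.1 r s)) → x ∈ cjG (GI Q) d ⊓ HUH (HQ Q) := by
    intro x hx h1 h2
    refine ⟨?_, hx⟩
    have hu := (mem_HU b L x.1).1 ((qb2_mem_HUH (HQ Q) x).1 hx)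
    show d * x * d⁻¹ ∈ GI Q
    refine ⟨fun r s => ?_, fun r s => ?_⟩
    · rw [hconj]
      by_cases h : ht b r ≤ ht b s
      · exact w4_zero k hML (hu r s h).1
      · exact w4_int hk hML (not_le.1 h) (h1 r s)
    · have e : (d * x * d⁻¹)⁻¹ = d * x⁻¹ * d⁻¹ := by group
      rw [e, hconj]
      by_cases h : ht b r ≤ ht b s
      · exact w4_zero k hML (hu r s h).2
      · exact w4_int hk hML (not_le.1 h) (h2 r s)
  refine ⟨cjG (GI Q) d ⊓ HUH (HQ Q), inf_le_right, ?_, ?_, ?_⟩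
  · intro u hu
    have hu' : u ∈ S ∪ S₂ := Finset.mem_union_right _ hu
    refine hmem u (hS₂ u hu) (fun r s => ?_) (fun r s => ?_)
    · have e : ((m ^ 2 : ℕ) : L) * u.1.1.1 r s = (m : L) * ((m : L) * u.1.1.1 r s) := by push_cast; ring
      rw [e]
      exact L1S.InI.mul' ⟨(m : 𝓞 L), Submodule.mem_top, by simp⟩ (hg1 u hu' r s)
    · have e : ((m ^ 2 : ℕ) : L) * u⁻¹.1.1.1 r s = (m : L) * ((m : L) * u⁻¹.1.1.1 r s) := by push_cast; ring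
      rw [e]
      exact L1S.InI.mul' ⟨(m : 𝓞 L), Submodule.mem_top, by simp⟩ (hg2 u hu' r s)
  · rintro g hg x ⟨hx1, hx2⟩
    have hg' : g ∈ S ∪ S₂ := Finset.mem_union_left _ hg
    have hγ : g * x * g⁻¹ ∈ GI Q := hΓ hx1
    refine hmem x hx2 (fun r s => ?_) (fun r s => ?_)
    · have e1 : x = g⁻¹ * (g * x * g⁻¹) * g := by group
      have e2 : x.1.1.1 = g⁻¹.1.1.1 * (g * x * g⁻¹).1.1.1 * g.1.1.1 := congrArg (fun g : HQ Q => g.1.1.1) e1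
      rw [e2]
      exact w4_tri (hg2 g hg') hγ.1 (hg1 g hg') r s
    · have e1 : x⁻¹ = g⁻¹ * (g * x * g⁻¹)⁻¹ * g := by group
      have e2 : x⁻¹.1.1.1 = g⁻¹.1.1.1 * (g * x * g⁻¹)⁻¹.1.1.1 * g.1.1.1 := congrArg (fun g : HQ Q => g.1.1.1) e1
      rw [e2]
      exact w4_tri (hg2 g hg') hγ.2 (hg1 g hg') r s
  · intro g
    exact mt (Subgroup.relIndex_eq_zero_of_le_right inf_le_left) (w3_comm' Q hΓ h0 g d)


end

end Pool.Agent.Lib.L8
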