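import Pool.Agent.Lib.L8.W7

/-!
# W, file W8: the inequality for the Whittaker norm of the operator (helper43)
-/

namespace Pool.Agent.Lib.L8

open MeasureTheory Matrix NumberField NumberField.InfinitePlace IsDedekindDomain Pool.Agent.Lib.H89N Pool.Agent.Lib.H33W Pool.Agent.Lib.H67G Pool.Agent.Lib.L1S
open scoped ENNReal Pointwise

noncomputable section

set_option linter.unusedSectionVars false

variable {ι M N : Type} [Fintype ι] [DecidableEq ι] [AddCommGroup M] [Module ℚ M] [AddCommGroup N] [Module ℚ N]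
  {P : RootPairing ι ℚ M N} [P.IsCrystallographic] {b : P.Base} {L : Type} [Field L] [NumberField L] (H : Subgroup (GK b L))

/-- **The inequality** at the point `1` for an arbitrary finite sum of translations: the Whittaker norm (variant of `uk_main`). -/
theorem w8_main [P.IsRootSystem] [P.IsReduced] [P.IsIrreducible] {Γ : Subgroup H} {θ : b.support → (EE L →ₗ[ℝ] ℝ)} (hc : UCx H Γ θ) (hfol : ∀ g, Fol ↥((cjG Γ g).subgroupOf (HUH H)))
    {A : Type} [Fintype A] {w : A → H} {e : A → ℂ} {Λv : ℝ}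
    {x : HRt H} {φ : HRt H → ℂ} (cφ : Continuous φ) (sφ : HasCompactSupport φ) {μ : Measure (HRt H)} [μ.IsHaarMeasure] {ν : Measure (UHR H)} [ν.IsHaarMeasure] (hT : WnH H Γ θ ν w e 1 Λv)
    {τ : Measure (HRt H)} {wt : HRt H → ℂ} {Kt : Set (HRt H)} {Λ : ℝ} (hτ : CvD μ τ wt Kt Λ) {Mc : ℕ}
    (dich : ∀ a a' γ, w a * γ * (w a')⁻¹ ∈ Γ → MvT H x (tsupport φ * Kt ^ Mc) (embH H γ) → γ ∈ HUH H ∨ AltT H θ γ)
    {F₁ : Set (HRt H)} (hF₁ : SF Γ F₁) {m : ℕ} {lam : Fin m → ℂ} {F : Fin m → HRt H → ℂ} (hF : ∀ l, AFe μ Γ F₁ φ (lam l) (F l)) {kap : Fin m → ℂ} (hκ : ∀ l y, Cv τ wt (F l) y = kap l * F l y)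
    (hort : ∀ l k, ∫ x in F₁, star (F l x) * F k x ∂μ = if l = k then 1 else 0) {t : Fin m → ℂ} (ht : ∀ l y, ∑ a, e a * F l (w a • y) = t l * F l y)
    {D₀ : Set (UHR H)} (hD₀ : SF (Γ.subgroupOf (HUH H)) D₀) :
    ∑ l, ‖kap l ^ Mc * lam l * t l * Wm (UHR H).subtype (psT H θ) ν D₀ (F l) x‖ₑ ^ 2 ≤
      ((Γ.relIndex Γ : ℕ) * (Jf (UHR H).subtype μ ν φ x * ENNReal.ofReal (Λ ^ 2) ^ Mc)) * (ENNReal.ofReal (Λv ^ 2) / ν D₀) := by
  classical
  have ci : Countable H := th_count H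
  have hcc0 : CCH H Γ := by
    have h1 := hc.cc 1
    rwa [cjG_one] at h1
  have hG := th2_gd H hcc0 hD₀ μ ν θ (psT_mul' H θ)
  obtain ⟨χ, hχ⟩ : ∃ χ : HUH H → ℂ, χ = fun u => psT H θ (kUH H u) := ⟨_, rfl⟩
  have hχu : ∀ u, χ u = psT H θ (kUH H u) := fun u => by rw [hχ]
  have hCh : ChU Γ (HUH H) χ := ⟨fun u v => by rw [hχu, hχu, hχu, map_mul, psT_mul' H θ], fun u => by rw [hχu]; exact hG.nψ _, fun u hu => by rw [hχu]; exact hc.one u hu⟩
  obtain ⟨κ, _, _, g, p, hDat⟩ := ua_dat (H' := ⊤) hCh w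
  choose D₂ hD₂ using fun i => (dsc_conj H hc.dsc (g i)).sfU
  have hD₂' : ∀ i, SF ((cjG Γ (g i)).subgroupOf (HUH H)) (D₂ i) := fun i => hD₂ i
  have hw : ∑ i, ‖hac e χ p i‖ₑ ^ 2 / ν (D₂ i) ≤ ENNReal.ofReal (Λv ^ 2) / ν D₀ := by
    have h1 := w7_bound H hc ν hT (by rw [← hχ]; exact hCh) (g := g) (p := p) (by rw [← hχ]; exact hDat) hD₀ hD₂'
    rw [← hχ] at h1
    exact h1
  -- the means
  have inv : ∀ l, ∀ γ ∈ Γ, ∀ y, F l (γ • y) = F l y := fun l => (hF l).inv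
  have hrel1 : Γ.relIndex Γ ≠ 0 := by
    rw [Subgroup.relIndex_self]
    exact one_ne_zero
  have m0 : ∀ l, Wm (UHR H).subtype (psT H θ) ν D₀ (F l) x = Phw H Γ ν θ (F l) x 1 := fun l => by
    have h1 := uf_any H hc μ ν (hF l).cont (inv l) (h := 1) (Δ := Γ) (by rw [cjG_one]; exact inf_le_left) hc.one hrel1 hD₀ x
    simp only [one_smul] at h1
    exact h1
  have mi : ∀ l i, Wm (UHR H).subtype (psT H θ) ν (D₂ i) (fun y => F l (g i • y)) x = Phw H Γ ν θ (F l) x (g i) := fun l i =>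
    uf_any H hc μ ν (hF l).cont (inv l) (Δ := cjG Γ (g i)) inf_le_left (fun u hu => by rw [← hχu]; exact hDat.good i u hu) (hc.comm _) (hD₂' i) x
  have ms : ∀ l, ∑ i, hac e χ p i * Wm (UHR H).subtype (psT H θ) ν (D₂ i) (fun y => F l (g i • y)) x = t l * Wm (UHR H).subtype (psT H θ) ν D₀ (F l) x := fun l => by
    rw [m0 l, ← uf_sum H hc μ ν (hF l).cont (inv l) w e (ht l) x, ua_sum (H' := ⊤) le_top (fun a => Subgroup.mem_top _) hDat e (Φ := Phw H Γ ν θ (F l) x) (fun γ hγ h _ => uf_gam H hc μ ν (hF l).cont (inv l) x hγ h)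
      (fun h _ δ _ => by rw [hχu]; exact uf_chi H hc μ ν (hF l).cont (inv l) x h δ)]
    exact Finset.sum_congr rfl fun i _ => by rw [mi l i]
  -- the inequality
  have h6 := th6_A H (Γ := Γ) (Γ₁ := Γ) (g := g) (θ := θ) (x := x) (φ := φ) hc.dsc le_rfl hc.comm hrel1 hcc0 (fun i => hc.cc (g i)) (fun i u hu => by rw [← hχu]; exact hDat.good i u hu) cφ sφ (μ := μ) (ν := ν) hτ
    (fun i => hfol (g i)) (Mc := Mc) (fun i j γ hγ hmv => by
      obtain ⟨a, ha⟩ := hDat.gw i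
      obtain ⟨a', ha'⟩ := hDat.gw j
      rcases dich a a' γ (by rw [← ha, ← ha']; exact hγ) hmv with h1 | h1
      · refine Or.inl ⟨hDat.ine i j ⟨γ, h1⟩ (Subgroup.mem_top _) hγ, h1⟩
      · exact Or.inr h1) hD₂' hF₁ hF hκ hort (hac e χ p)
  calc ∑ l, ‖kap l ^ Mc * lam l * t l * Wm (UHR H).subtype (psT H θ) ν D₀ (F l) x‖ₑ ^ 2
      = ∑ l, ‖kap l ^ Mc * lam l‖ₑ ^ 2 * ‖∑ i, hac e χ p i * Wm (UHR H).subtype (psT H θ) ν (D₂ i) (fun y => F l (g i • y)) x‖ₑ ^ 2 := by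
        refine Finset.sum_congr rfl fun l _ => ?_
        rw [ms l, ← mul_pow, ← enorm_mul]
        congr 2
        ring
    _ ≤ _ := h6
    _ ≤ _ := mul_le_mul_right hw _

/-- **The inequality** at the point `h` (variant of `uk_conj`). -/
theorem w8_conj [P.IsRootSystem] [P.IsReduced] [P.IsIrreducible] {Γ : Subgroup H} {θ : b.support → (EE L →ₗ[ℝ] ℝ)} (hd : Dsc H Γ) (hcm : ∀ a, (cjG Γ a).relIndex Γ ≠ 0) (hcc : ∀ a, CCH H (cjG Γ a))
    {h : H} (hone : ∀ w : HUH H, (w : H) ∈ cjG Γ h → psT H θ (kUH H w) = 1) (hfol : ∀ g, Fol ↥((cjG Γ g).subgroupOf (HUH H)))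
    {A : Type} [Fintype A] {w : A → H} {e : A → ℂ} {Λv : ℝ}
    {x : HRt H} {φ : HRt H → ℂ} (cφ : Continuous φ) (sφ : HasCompactSupport φ) {μ : Measure (HRt H)} [μ.IsHaarMeasure] {ν : Measure (UHR H)} [ν.IsHaarMeasure] (hT : WnH H Γ θ ν w e h Λv)
    {τ : Measure (HRt H)} {wt : HRt H → ℂ} {Kt : Set (HRt H)} {Λ : ℝ} (hτ : CvD μ τ wt Kt Λ) {Mc : ℕ}
    (dich : ∀ a a' γ, w a * h * γ * (w a' * h)⁻¹ ∈ Γ → MvT H x (tsupport φ * Kt ^ Mc) (embH H γ) → γ ∈ HUH H ∨ AltT H θ γ)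
    {F₁ : Set (HRt H)} (hF₁ : SF Γ F₁) {m : ℕ} {lam : Fin m → ℂ} {F : Fin m → HRt H → ℂ} (hF : ∀ l, AFe μ Γ F₁ φ (lam l) (F l)) {kap : Fin m → ℂ} (hκ : ∀ l y, Cv τ wt (F l) y = kap l * F l y)
    (hort : ∀ l k, ∫ x in F₁, star (F l x) * F k x ∂μ = if l = k then 1 else 0) {t : Fin m → ℂ} (ht : ∀ l y, ∑ a, e a * F l (w a • y) = t l * F l y)
    {D₀ : Set (UHR H)} (hD₀ : SF ((cjG Γ h).subgroupOf (HUH H)) D₀) :
    ∑ l, ‖kap l ^ Mc * lam l * t l * Wm (UHR H).subtype (psT H θ) ν D₀ (fun y => F l (h • y)) x‖ₑ ^ 2 ≤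
      ((Γ.relIndex Γ : ℕ) * (Jf (UHR H).subtype μ ν φ x * ENNReal.ofReal (Λ ^ 2) ^ Mc)) * (ENNReal.ofReal (Λv ^ 2) / ν D₀) := by
  classical
  have ci : Countable H := th_count H
  have mp : MeasurePreserving (fun y : HRt H => h • y) μ μ := measurePreserving_mul_left μ (embH H h)
  have i1 : MeasurableConstSMul H (HRt H) := ⟨fun g => (measurePreserving_mul_left μ (embH H g)).measurable⟩
  have hc' : UCx H (cjG Γ h) θ := ⟨dsc_conj H hd h, fun a => by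
      rw [ug_cjcj]
      exact cjG_comm hcm _ _, fun a => by
      rw [ug_cjcj]
      exact hcc _, hone⟩
  have hrel : (cjG Γ h).relIndex (cjG Γ h) = Γ.relIndex Γ := by
    rw [Subgroup.relIndex_self, Subgroup.relIndex_self]
  have hsm : ∀ y z : HRt H, h • (y * z) = (h • y) * z := fun y z => by
    simp only [smulH_def, mul_assoc]
  have key := w8_main H hc' (fun g => by
      rw [ug_cjcj]
      exact hfol _) (x := x) cφ sφ (μ := μ) (ν := ν) (WnH.conj H hT) hτ (Mc := Mc) (fun a a' γ hγ hmv => dich a a' γ (by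
        rw [cjG_mem] at hγ
        have e1 : h * (h⁻¹ * w a * h * γ * (h⁻¹ * w a' * h)⁻¹) * h⁻¹ = w a * h * γ * (w a' * h)⁻¹ := by group
        rw [e1] at hγ
        exact hγ) hmv)
      (tr_sf (fun g => cjG_mem Γ h g) hF₁) (F := fun l y => F l (h • y)) (fun l => ug_afe H hF₁.meas (hF l) h) (kap := kap) (fun l y => by
        have h1 := hκ l (h • y)
        show ∫ z, F l (h • (y * z)) * wt z ∂τ = kap l * F l (h • y)
        simp only [hsm]
        exact h1) (fun l k => by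
        rw [← hort l k]
        exact mp.setIntegral_preimage_emb (MeasurableEquiv.measurableEmbedding (MeasurableEquiv.mulLeft (embH H h))) (fun y => star (F l y) * F k y) F₁) (t := t) (fun l y => by
        rw [← ht l (h • y)]
        refine Finset.sum_congr rfl fun a _ => ?_
        congr 2
        rw [← mul_smul, ← mul_smul]
        congr 1
        group) hD₀
  rw [hrel] at key
  exact key

end

end Pool.Agent.Lib.L8
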