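import Pool.Agent.Lib.L8.StmW
import Pool.Agent.Lib.L8.MainU
import Pool.Agent.Lib.L8.W1B
import Pool.Agent.Lib.L8.W3
import Pool.Agent.Lib.L8.W4
import Pool.Agent.Lib.L8.W8

/-!
# W: the universal density theorem for all finite places (helper43): the proof
-/

namespace Pool.Agent.Lib.L8

open MeasureTheory Matrix NumberField NumberField.InfinitePlace IsDedekindDomain Pool.Agent.Lib.H89N Pool.Agent.Lib.H33W Pool.Agent.Lib.H67G Pool.Agent.Lib.L1S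
open scoped ENNReal Pointwise

noncomputable section

set_option linter.unusedSectionVars false

variable {ι M N : Type} [Fintype ι] [DecidableEq ι] [AddCommGroup M] [Module ℚ M] [AddCommGroup N] [Module ℚ N]
  {P : RootPairing ι ℚ M N} [P.IsCrystallographic] {b : P.Base}

variable [P.IsRootSystem] [P.IsReduced] [P.IsIrreducible] {K L : Type} [Field K] [NumberField K] [Field L] [NumberField L] [Algebra K L]

theorem mw_place (K : Type) [Field K] [NumberField K] : ∃ _v : HeightOneSpectrum (𝓞 K), True := by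
  obtain ⟨m, hm⟩ := Ideal.exists_maximal (𝓞 K)
  exact ⟨⟨m, hm.isPrime, Ring.ne_bot_of_isMaximal_of_not_isField hm (RingOfIntegers.not_isField K)⟩, trivial⟩

/-- The dichotomy from the gap. -/
theorem mw_dich (Q : QS b K L) {c₁ C₀ C : ℝ} (hC₀ : ∀ a : ι → (EE L)ˣ, (∀ β, a (P.reflectionPerm β β) = (a β)⁻¹) → ∀ X : b.support → InfinitePlace L → ℝ, (∀ i w, 0 ≤ X i w) → ∀ γ : GK b L, Mv5 b c₁ a X (emb b L γ) →
      ∀ (i j : b.support) (w : Equiv.Perm ι), OppW b i j w → mixedEmbedding.norm (mixedEmbedding L (Dm b i w γ.1.1)) ≤ C₀ * Rf b X i * (Ea b a i j)⁻¹) (hCC : C₀ ≤ C)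
    {a : ι → (EE L)ˣ} (ha : ∀ β, a (P.reflectionPerm β β) = (a β)⁻¹) {X : b.support → InfinitePlace L → ℝ} (hX : ∀ i w, 0 ≤ X i w) {θ : b.support → (EE L →ₗ[ℝ] ℝ)}
    (hθ : ∀ i, ∃ z : L, ∑ t : L ≃ₐ[K] L, θ ((Q.da t).sp i) (mixedEmbedding L (t z)) ≠ 0) {γ : HQ Q} (hM : Mv5 b c₁ a X (emb b L γ.1))
    (hgap : ∀ (i j : b.support) (w : Equiv.Perm ι), w ∈ WP P → OppW b i j w → Dm b i w γ.1.1.1 = 0 ∨ C * Rf b X i < mixedEmbedding.norm (mixedEmbedding L (Dm b i w γ.1.1.1)) * Ea b a i j) :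
    γ ∈ HUH (HQ Q) ∨ AltH (HQ Q) θ γ := by
  refine w1_core Q hθ fun i j w hw hO => ?_
  rcases hgap i j w hw hO with h | h
  · exact h
  · exfalso
    have h1 := hC₀ a ha X hX γ.1 hM i j w hO
    have hE := ea_pos b a i j
    rw [← div_eq_mul_inv, le_div_iff₀ hE] at h1
    have h2 : C₀ * Rf b X i ≤ C * Rf b X i := mul_le_mul_of_nonneg_right hCC (rf_nonneg hX i)
    linarith

/-- **The universal density theorem.** -/
theorem statementW (Q : QS b K L) [IsGalois K L] : StatementW Q := by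
  classical
  intro Ω S₀ hΩ hS₀
  obtain ⟨c₁, hc1, hmv⟩ := pf_mv7 b K L (HQ Q) hΩ hS₀
  obtain ⟨C₀, hC₀0, hC₀⟩ := pf_arch b L c₁
  obtain ⟨CJ, hCJ0, hCJ⟩ := pf_J' Q hΩ hS₀
  obtain ⟨v, -⟩ := mw_place K
  refine ⟨max C₀ CJ, ?_⟩
  intro Γ hΓ hrel k w' e' Λf h θ hθ hθ1 t a hta x hx μ τ _ w Kt Λ hτ B hB hKB φ cφ sφ' δ hδ hδK hnear hgap ν _ hT D₀ hD₀ Dh hDh D hD n F c' κ hF hcv hort t' ht'
  have ci : Countable (HQ Q) := th_count (HQ Q)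
  have ha : ∀ β, a (P.reflectionPerm β β) = (a β)⁻¹ := fun β => pe_inv (g := t.1) hta β
  have hx' : InRz (HQ Q) Ω a x := by
    obtain ⟨u, ω, hω, e⟩ := hx
    exact ⟨u, ω, hω, by rw [e, hta]⟩
  have sφ : HasCompactSupport φ := HasCompactSupport.intro hS₀ fun x hx => by
    by_contra hne
    exact hx (sφ' (subset_tsupport _ hne))
  -- the numbers `δ` on the places of `K`
  have hfin : Algebra.IsAlgebraic K L := by
    have : FiniteDimensional K L := Module.Finite.of_restrictScalars_finite ℚ K L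
    exact Algebra.IsAlgebraic.of_finite K L
  choose sec hsec using comap_surjective (k := K) (K := L)
  obtain ⟨δ', hδ'⟩ : ∃ δ' : InfinitePlace K → ℝ, δ' = fun y => δ (sec y) := ⟨_, rfl⟩
  have hδw : ∀ w : InfinitePlace L, δ' (w.comap (algebraMap K L)) = δ w := fun w => by
    rw [hδ']
    exact hδK _ _ (hsec _)
  have hδ0 : ∀ y, 0 < δ' y ∧ δ' y ≤ 1 := fun y => by
    rw [hδ']
    exact hδ _
  have hN : ∀ g, g ∈ Kt ∨ g ∈ tsupport φ → NearE δ' g := fun g hg w => by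
    rw [hδw]
    rcases hnear g hg w with h1 | h1
    · exact Or.inl h1
    · exact Or.inr ⟨fun i j => (h1 i j).1, fun i j => (h1 i j).2⟩
  have eR : (Rf b fun i w => B i w ^ 2 * δ' (w.comap (algebraMap K L)) ^ (Phi b i).card) = fun i => ∏ w, (B i w ^ 2 * δ w ^ (Phi b i).card) ^ mult w := by
    funext i
    unfold Rf
    refine Finset.prod_congr rfl fun w _ => ?_
    show (B i w ^ 2 * δ' (w.comap (algebraMap K L)) ^ (Phi b i).card) ^ mult w = _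
    rw [hδw]
  -- the dichotomy
  have hdich : ∀ (i j : Fin k) (γ : HQ Q), w' i * h * γ * (w' j * h)⁻¹ ∈ Γ → MvT (HQ Q) x (tsupport φ * Kt ^ 1) (embH (HQ Q) γ) → γ ∈ HUH (HQ Q) ∨ AltH (HQ Q) θ γ := by
    intro i j γ hγ hM
    rw [pow_one] at hM
    have h2 := hmv a x hx' (tsupport φ) Kt δ' hδ0 sφ' (fun y hy => hN y (Or.inr hy)) (fun y hy => hN y (Or.inl hy)) B hB hKB (embH (HQ Q) γ) hM
    refine mw_dich Q hC₀ (le_max_left C₀ CJ) ha (fun i w => mul_nonneg (sq_nonneg _) (pow_nonneg (hδ0 _).1.le _)) hθ h2 fun i' j' w₀ hw₀ hO => ?_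
    rw [eR]
    exact hgap i' j' w₀ hw₀ hO i j γ hγ
  -- the double integral
  have hD₀' : IsFundamentalDomain (GamUH (HQ Q) ⊤ v 0 0) D₀ ν := by
    rw [w3_gi Q v] at hD₀
    exact hD₀
  have hJ := hCJ ⊤ top_ne_bot v 0 0 t a hta x hx' δ' hδ0 μ φ cφ sφ' (fun y hy => hN y (Or.inr hy)) ν D₀ hD₀'
  obtain ⟨D₁, hD₁⟩ := (dsc_Gam (HQ Q) ⊤ v 0 0).sfU
  have hcc0 : CCH (HQ Q) (GamQ (HQ Q) ⊤ v 0 0) := by
    have h2 : CCH (HQ Q) (cjG (GamQ (HQ Q) ⊤ v 0 0) 1) := qa_cc Q top_ne_bot v 0 0 1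
    rw [cjG_one] at h2
    exact h2
  have hvD : ν D₀ = ν D₁ := th2_volU (HQ Q) ν hD₁ hD₀'
  have fD : ν D₁ ≠ ⊤ := th2_fin (HQ Q) hcc0 hD₁ ν
  have hφ0 : 0 ≤ ∫ y, ‖φ y‖ ^ 2 ∂μ := integral_nonneg fun y => by positivity
  have hP0 : 0 ≤ ∏ β ∈ Pos b, (∏ w, δ w ^ mult w) * mixedEmbedding.norm (a β : EE L) :=
    Finset.prod_nonneg fun β _ => mul_nonneg (Finset.prod_nonneg fun w _ => pow_nonneg (hδ w).1.le _) (mixedEmbedding.norm_nonneg _)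
  have hX0 : 0 ≤ (∏ β ∈ Pos b, (∏ w, δ w ^ mult w) * mixedEmbedding.norm (a β : EE L)) ^ ((Module.finrank K L : ℝ)⁻¹) := Real.rpow_nonneg hP0 _
  have hJr : Jf (UHR (HQ Q)).subtype μ ν φ x ≤
      ENNReal.ofReal (CJ * (∫ y, ‖φ y‖ ^ 2 ∂μ) * (∏ β ∈ Pos b, (∏ w, δ w ^ mult w) * mixedEmbedding.norm (a β : EE L)) ^ ((Module.finrank K L : ℝ)⁻¹)) * ν D₁ := by
    rw [← hvD]
    refine hJ.trans (le_of_eq ?_)
    congr 2
    have e1 : Dk L δ' = (∏ w, δ w ^ mult w) ^ ((Module.finrank K L : ℝ)⁻¹) := by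
      unfold Dk
      congr 1
      exact Finset.prod_congr rfl fun w _ => by rw [hδw]
    rw [e1, ← mg_X (fun w => (hδ w).1) a, Ideal.absNorm_top]
    simp only [Nat.cast_one, one_pow, div_one]
    ring
  -- the translates
  obtain ⟨F₁, hF₁⟩ := (w3_dsc Q hΓ).sf
  have hcc2 : ∀ a, CCH (HQ Q) (cjG Γ a) := fun a => w3_cc Q hΓ hrel a
  have hcm : ∀ a, (cjG Γ a).relIndex Γ ≠ 0 := fun a => by
    have h2 := w3_comm Q hΓ hrel a 1
    rwa [cjG_one] at h2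
  have hidx0 : Γ.relIndex Γ ≠ 0 := by
    rw [Subgroup.relIndex_self]
    exact one_ne_zero
  have hone : ∀ u : HUH (HQ Q), (u : HQ Q) ∈ cjG Γ h → psT (HQ Q) θ (kUH (HQ Q) u) = 1 := fun u hu =>
    hθ1 _ ((th2_mem_imU (HQ Q) (cjG Γ h) _).2 ⟨u, hu, rfl⟩)
  obtain ⟨D₂, hD₂⟩ := (dsc_conj (HQ Q) (w3_dsc Q hΓ) h).sfU
  have hD₂' : SF ((cjG Γ h).subgroupOf (HUH (HQ Q))) D₂ := hD₂
  have hvDh : ν Dh = ν D₂ := th2_volU (HQ Q) ν hD₂' hDh
  have pD2 : ν D₂ ≠ 0 := th2_pos (HQ Q) hD₂' ν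
  have fD2 : ν D₂ ≠ ⊤ := th2_fin (HQ Q) (hcc2 h) hD₂' ν
  have hort' : ∀ l k, ∫ x in F₁, star (F l x) * F k x ∂μ = if l = k then 1 else 0 := fun l k => by
    rw [← hort l k]
    exact (th2_intG (HQ Q) μ hF₁ hD (f := fun y => star (F l y) * F k y) fun γ hγ y => by rw [(hF l).inv γ hγ, (hF k).inv γ hγ]).symm
  have key : ∑ l, ‖κ l ^ 1 * c' l * t' l * Wm (UHR (HQ Q)).subtype (psT (HQ Q) θ) ν D₂ (fun y => F l (h • y)) x‖ₑ ^ 2 ≤
      ((Γ.relIndex Γ : ℕ) * (Jf (UHR (HQ Q)).subtype μ ν φ x * ENNReal.ofReal (Λ ^ 2) ^ 1)) * (ENNReal.ofReal (Λf ^ 2) / ν D₂) := by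
    rcases hT with hT | hT
    · have hT' : HeOp Γ ((⊤ : Subgroup (HQ Q)) : Set (HQ Q)) w' e' Λf := by
        rw [Subgroup.coe_top]
        exact hT
      exact uk_conj (HQ Q) (w3_dsc Q hΓ) hcm hcc2 (h := h) (H' := ⊤) (Subgroup.mem_top h) hone le_top le_rfl hcm hidx0 hcc2 (fun g => w3_fol Q hΓ g)
        (fun S S₂ _ hS₂ => by
          obtain ⟨E, h1, h2, h3, h4⟩ := w4_lat Q hΓ hrel S S₂ fun u hu => (hS₂ u hu).1
          exact ⟨E, le_inf h1 le_top, h2, h3, h4⟩) hT' (x := x) cφ sφ (μ := μ) (ν := ν) hτ (Mc := 1) hdich hF₁ (fun l => th2_afe (HQ Q) hF₁ hD (hF l)) hcv hort' ht' hD₂'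
    · exact w8_conj (HQ Q) (w3_dsc Q hΓ) hcm hcc2 (h := h) hone (fun g => w3_fol Q hΓ g) (x := x) cφ sφ (μ := μ) (ν := ν) hT hτ (Mc := 1) hdich hF₁ (fun l => th2_afe (HQ Q) hF₁ hD (hF l)) hcv hort' ht' hD₂'
  rw [Subgroup.relIndex_self] at key
  have fin := mu_real (c := ((1 : ℕ) : ℝ≥0∞)) (C := 1) (by positivity) zero_le_one pD2 fD2 fD (by simp) hJr key
  rw [hvD, hvDh]
  refine le_trans (le_of_eq ?_) (fin.trans ?_)
  · congr 1
    refine Finset.sum_congr rfl fun l _ => ?_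
    have e1 : WhH (HQ Q) ν Dh θ (fun y => F l (embH (HQ Q) h * y)) x = Wm (UHR (HQ Q)).subtype (psT (HQ Q) θ) ν D₂ (fun y => F l (h • y)) x := by
      show WhT (HQ Q) ν Dh θ (fun y => F l (embH (HQ Q) h * y)) x = _
      refine th2_Wh (HQ Q) ν hD₂' hDh θ (fun γ hγ u => by rw [psT_mul' (HQ Q) θ, hone γ hγ, one_mul]) (fun γ hγ y => ?_) x
      obtain ⟨δ₁, hδ₁, rfl⟩ := hγ
      have h3 : embH (HQ Q) h * (embH (HQ Q) δ₁ * y) = embH (HQ Q) (h * δ₁ * h⁻¹) * (embH (HQ Q) h * y) := by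
        simp only [map_mul, map_inv]
        group
      rw [h3]
      exact (hF l).inv _ ⟨_, hδ₁, rfl⟩ _
    rw [e1, pow_one, mul_comm (c' l)]
  · have hA : 0 ≤ Λ ^ 2 * Λf ^ 2 * (∫ y, ‖φ y‖ ^ 2 ∂μ) * (∏ β ∈ Pos b, (∏ w, δ w ^ mult w) * mixedEmbedding.norm (a β : EE L)) ^ ((Module.finrank K L : ℝ)⁻¹) * (ν D₁).toReal := by
      positivity
    calc _ = CJ * (Λ ^ 2 * Λf ^ 2 * (∫ y, ‖φ y‖ ^ 2 ∂μ) * (∏ β ∈ Pos b, (∏ w, δ w ^ mult w) * mixedEmbedding.norm (a β : EE L)) ^ ((Module.finrank K L : ℝ)⁻¹) * (ν D₁).toReal) := by ring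
      _ ≤ max C₀ CJ * (Λ ^ 2 * Λf ^ 2 * (∫ y, ‖φ y‖ ^ 2 ∂μ) * (∏ β ∈ Pos b, (∏ w, δ w ^ mult w) * mixedEmbedding.norm (a β : EE L)) ^ ((Module.finrank K L : ℝ)⁻¹) * (ν D₁).toReal) :=
        mul_le_mul_of_nonneg_right (le_max_right _ _) hA
      _ = _ := by ring

end

end Pool.Agent.Lib.L8
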