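import Mathlib

/-!
# L8, file PA1 (helper43): polynomial growth implies the Folner property
-/

namespace Pool.Agent.Lib.L8

open Pointwise

/-- The Folner property (right translations). -/
def Fol (Δ : Type) [Group Δ] : Prop :=
  ∀ (Ξ : Finset Δ) (ε : ℝ), 0 < ε → ∃ S : Finset Δ, S.Nonempty ∧ ∃ S' : Finset Δ, S' ⊆ S ∧ (∀ γ ∈ S', ∀ ξ ∈ Ξ, γ * ξ ∈ S) ∧ (1 - ε) * (S.card : ℝ) ≤ (S'.card : ℝ)

/-- Polynomial growth: the products of `n` elements of a finite set. -/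
def PGr (Δ : Type) [Group Δ] : Prop :=
  ∀ Ξ : Finset Δ, ∃ C D : ℕ, ∀ n : ℕ, ∀ S : Finset Δ, (∀ γ ∈ S, ∃ l : List Δ, l.length = n ∧ (∀ ξ ∈ l, ξ ∈ Ξ) ∧ l.prod = γ) → S.card ≤ C * (n + 1) ^ D

theorem pa1_grow (C D : ℕ) {ε : ℝ} (h0 : 0 < ε) (h1 : ε < 1) {a : ℕ → ℕ} (ha : ∀ n, a n ≤ C * (n + 1) ^ D) (ha0 : 0 < a 0) : ∃ n, (1 - ε) * (a (n + 1) : ℝ) ≤ (a n : ℝ) := by
  by_contra hcon
  push Not at hcon
  have hq : 0 < 1 - ε := by linarith
  have hgrow : ∀ n, (a 0 : ℝ) ≤ (1 - ε) ^ n * (a n : ℝ) := by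
    intro n
    induction n with
    | zero => simp
    | succ n ih =>
      refine ih.trans ?_
      rw [pow_succ, mul_assoc]
      exact mul_le_mul_of_nonneg_left (hcon n).le (pow_pos hq n).le
  have hlim : Filter.Tendsto (fun n : ℕ => (n : ℝ) ^ D * (1 - ε) ^ n) Filter.atTop (nhds 0) :=
    tendsto_pow_const_mul_const_pow_of_lt_one D hq.le (by linarith)
  have hlim2 : Filter.Tendsto (fun n : ℕ => (C : ℝ) * ((1 - ε)⁻¹ * (((n + 1 : ℕ) : ℝ) ^ D * (1 - ε) ^ (n + 1)))) Filter.atTop (nhds (C * ((1 - ε)⁻¹ * 0))) :=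
    ((hlim.comp (Filter.tendsto_add_atTop_nat 1)).const_mul _).const_mul _
  rw [mul_zero, mul_zero] at hlim2
  have h3 : (0 : ℝ) < a 0 := by exact_mod_cast ha0
  obtain ⟨n, hn⟩ := (hlim2.eventually (gt_mem_nhds h3)).exists
  have h4 : (a n : ℝ) ≤ C * ((n + 1 : ℕ) : ℝ) ^ D := by exact_mod_cast ha n
  have h5 : (1 - ε) ^ n * (a n : ℝ) ≤ (C : ℝ) * ((1 - ε)⁻¹ * (((n + 1 : ℕ) : ℝ) ^ D * (1 - ε) ^ (n + 1))) := by
    calc (1 - ε) ^ n * (a n : ℝ) ≤ (1 - ε) ^ n * (C * ((n + 1 : ℕ) : ℝ) ^ D) := mul_le_mul_of_nonneg_left h4 (pow_pos hq n).le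
      _ = _ := by
        rw [pow_succ]
        field_simp
  exact absurd ((hgrow n).trans h5) (not_le.2 hn)

theorem pa1_list {Δ : Type} [Group Δ] [DecidableEq Δ] (Ξ : Finset Δ) (n : ℕ) : ∀ γ ∈ Ξ ^ n, ∃ l : List Δ, l.length = n ∧ (∀ ξ ∈ l, ξ ∈ Ξ) ∧ l.prod = γ := by
  induction n with
  | zero =>
    intro γ hγ
    rw [pow_zero, Finset.mem_one] at hγ
    exact ⟨[], rfl, by simp, by simp [hγ]⟩
  | succ n ih =>
    intro γ hγ
    rw [pow_succ', Finset.mem_mul] at hγ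
    obtain ⟨ξ, hξ, δ, hδ, rfl⟩ := hγ
    obtain ⟨l, hl, hl', rfl⟩ := ih δ hδ
    refine ⟨ξ :: l, by simp [hl], ?_, by simp⟩
    intro x hx
    rcases List.mem_cons.1 hx with rfl | hx
    · exact hξ
    · exact hl' x hx

/-- **Polynomial growth implies the Folner property.** -/
theorem fol_of_pgr {Δ : Type} [Group Δ] (h : PGr Δ) : Fol Δ := by
  classical
  intro Ξ ε hε
  by_cases h1 : ε < 1
  · obtain ⟨C, D, hCD⟩ := h (insert 1 Ξ)
    obtain ⟨n, hn⟩ := pa1_grow C D hε h1 (a := fun n => ((insert 1 Ξ) ^ n : Finset Δ).card) (fun n => hCD n _ (pa1_list _ n)) (by simp)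
    have h1m : (1 : Δ) ∈ insert 1 Ξ := Finset.mem_insert_self _ _
    refine ⟨(insert 1 Ξ) ^ (n + 1), ⟨1, by simpa using Finset.pow_mem_pow (n := n + 1) h1m⟩, (insert 1 Ξ) ^ n, Finset.pow_subset_pow_right h1m (Nat.le_succ n), ?_, hn⟩
    intro γ hγ ξ hξ
    rw [pow_succ]
    exact Finset.mul_mem_mul hγ (Finset.mem_insert_of_mem hξ)
  · refine ⟨{1}, Finset.singleton_nonempty _, ∅, Finset.empty_subset _, by simp, ?_⟩
    simp only [Finset.card_singleton, Nat.cast_one, mul_one, Finset.card_empty, Nat.cast_zero]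
    linarith

end Pool.Agent.Lib.L8
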