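import Mathlib

/-!
# L8, file PA2 (helper43): the entries of a product of `n` unitriangular matrices grow polynomially
-/

namespace Pool.Agent.Lib.L8

open Matrix

variable {I : Type} [Fintype I] [DecidableEq I]

theorem pa2_mul (ht : I → ℤ) {t : ℝ} (t0 : 0 < t) {M N : Matrix I I ℂ} {q q' : ℝ} (hq' : 0 ≤ q') (hM : ∀ r, ∑ c, ‖M r c‖ * t ^ (ht c - ht r) ≤ q) (hN : ∀ r, ∑ c, ‖N r c‖ * t ^ (ht c - ht r) ≤ q') (r : I) :
    ∑ c, ‖(M * N) r c‖ * t ^ (ht c - ht r) ≤ q * q' := by
  calc ∑ c, ‖(M * N) r c‖ * t ^ (ht c - ht r) ≤ ∑ c, (∑ s, ‖M r s‖ * ‖N s c‖) * t ^ (ht c - ht r) := by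
        refine Finset.sum_le_sum fun c _ => mul_le_mul_of_nonneg_right ?_ (zpow_pos t0 _).le
        rw [Matrix.mul_apply]
        refine (norm_sum_le _ _).trans (Finset.sum_le_sum fun s _ => ?_)
        rw [norm_mul]
    _ = ∑ s, (‖M r s‖ * t ^ (ht s - ht r)) * ∑ c, ‖N s c‖ * t ^ (ht c - ht s) := by
        simp only [Finset.sum_mul, Finset.mul_sum]
        rw [Finset.sum_comm]
        refine Finset.sum_congr rfl fun s _ => Finset.sum_congr rfl fun c _ => ?_
        have e : t ^ (ht c - ht r) = t ^ (ht s - ht r) * t ^ (ht c - ht s) := by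
          rw [← zpow_add₀ t0.ne']
          congr 1
          ring
        rw [e]
        ring
    _ ≤ ∑ s, (‖M r s‖ * t ^ (ht s - ht r)) * q' := Finset.sum_le_sum fun s _ => mul_le_mul_of_nonneg_left (hN s) (mul_nonneg (norm_nonneg _) (zpow_pos t0 _).le)
    _ = (∑ s, ‖M r s‖ * t ^ (ht s - ht r)) * q' := by rw [Finset.sum_mul]
    _ ≤ q * q' := mul_le_mul_of_nonneg_right (hM r) hq'

theorem pa2_list (ht : I → ℤ) {t : ℝ} (t0 : 0 < t) {q : ℝ} (hq : 0 ≤ q) (l : List (Matrix I I ℂ)) (hl : ∀ M ∈ l, ∀ r, ∑ c, ‖M r c‖ * t ^ (ht c - ht r) ≤ q) (r : I) :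
    ∑ c, ‖l.prod r c‖ * t ^ (ht c - ht r) ≤ q ^ l.length := by
  induction l generalizing r with
  | nil =>
    rw [List.prod_nil, List.length_nil, pow_zero, Finset.sum_eq_single r]
    · simp
    · intro c _ hc
      rw [Matrix.one_apply_ne hc.symm, norm_zero, zero_mul]
    · intro h
      exact absurd (Finset.mem_univ r) h
  | cons M l ih =>
    rw [List.prod_cons, List.length_cons, pow_succ']
    exact pa2_mul ht t0 (pow_nonneg hq _) (hl M List.mem_cons_self) (fun r => ih (fun M' hM' => hl M' (List.mem_cons_of_mem _ hM')) r) r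

/-- **The entries of a product of `n` unitriangular matrices with bounded entries.** -/
theorem pa2_bound (ht : I → ℤ) (H : ℕ) (hH : ∀ r c, |ht r - ht c| ≤ H) {B : ℝ} (hB : 0 ≤ B) (l : List (Matrix I I ℂ)) (hl : ∀ M ∈ l, ∀ r c, ht r ≤ ht c → M r c = (1 : Matrix I I ℂ) r c)
    (hlB : ∀ M ∈ l, ∀ r c, ‖M r c‖ ≤ B) (r c : I) : ‖l.prod r c‖ ≤ 3 * (1 + l.length * Fintype.card I * B) ^ H := by
  obtain ⟨n, hn⟩ : ∃ n : ℕ, n = l.length := ⟨_, rfl⟩
  obtain ⟨t, ht'⟩ : ∃ t : ℝ, t = 1 + n * Fintype.card I * B := ⟨_, rfl⟩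
  have hX : 0 ≤ (n : ℝ) * Fintype.card I * B := by positivity
  have t1 : 1 ≤ t := by rw [ht']; linarith
  have t0 : 0 < t := by linarith
  have key : ∀ M ∈ l, ∀ r, ∑ c, ‖M r c‖ * t ^ (ht c - ht r) ≤ 1 + Fintype.card I * B / t := by
    intro M hM r
    have h1 : ∀ c, ‖M r c‖ * t ^ (ht c - ht r) ≤ (if c = r then 1 else 0) + B / t := by
      intro c
      by_cases hrc : ht r ≤ ht c
      · rw [hl M hM r c hrc]
        by_cases e : c = r
        · subst e
          rw [Matrix.one_apply_eq, if_pos rfl]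
          simp
          positivity
        · rw [Matrix.one_apply_ne (Ne.symm e), if_neg e]
          simp
          positivity
      · push Not at hrc
        have h2 : t ^ (ht c - ht r) ≤ t⁻¹ := by
          rw [← _root_.zpow_neg_one]
          exact zpow_le_zpow_right₀ t1 (by omega)
        have h3 : ‖M r c‖ * t ^ (ht c - ht r) ≤ B * t⁻¹ := mul_le_mul (hlB M hM r c) h2 (zpow_pos t0 _).le hB
        refine h3.trans ?_
        rw [← div_eq_mul_inv]
        split_ifs <;> simp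
    refine (Finset.sum_le_sum fun c _ => h1 c).trans (le_of_eq ?_)
    rw [Finset.sum_add_distrib, Finset.sum_ite_eq' Finset.univ r, if_pos (Finset.mem_univ r), Finset.sum_const, Finset.card_univ, nsmul_eq_mul]
    ring
  have h1 := pa2_list ht t0 (q := 1 + Fintype.card I * B / t) (by positivity) l key r
  have h2 : (1 + Fintype.card I * B / t) ^ l.length ≤ 3 := by
    rw [← hn]
    by_cases hn0 : n = 0
    · rw [hn0, pow_zero]; norm_num
    · have hn1 : (0 : ℝ) < n := by exact_mod_cast Nat.pos_of_ne_zero hn0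
      have h3 : Fintype.card I * B / t ≤ 1 / n := by
        rw [div_le_div_iff₀ t0 hn1, ht']
        nlinarith
      have h4 : (1 + Fintype.card I * B / t) ^ n ≤ (Real.exp (1 / n)) ^ n := by
        refine pow_le_pow_left₀ (by positivity) ?_ n
        have h5 := Real.add_one_le_exp (1 / (n : ℝ))
        linarith
      have h6 : (Real.exp (1 / n)) ^ n = Real.exp 1 := by
        rw [← Real.exp_nat_mul]
        congr 1
        field_simp
      rw [h6] at h4
      exact h4.trans (by linarith [Real.exp_one_lt_d9])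
  have h3 : ‖l.prod r c‖ * t ^ (ht c - ht r) ≤ 3 :=
    (Finset.single_le_sum (f := fun c => ‖l.prod r c‖ * t ^ (ht c - ht r)) (fun c _ => mul_nonneg (norm_nonneg _) (zpow_pos t0 _).le) (Finset.mem_univ c)).trans (h1.trans h2)
  have h4 : ‖l.prod r c‖ = (‖l.prod r c‖ * t ^ (ht c - ht r)) * t ^ (ht r - ht c) := by
    rw [mul_assoc, ← zpow_add₀ t0.ne']
    simp
  rw [h4, ← hn, ← ht']
  have h5 : t ^ (ht r - ht c) ≤ t ^ H := by
    rw [← zpow_natCast]
    exact zpow_le_zpow_right₀ t1 ((le_abs_self _).trans (hH r c))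
  exact mul_le_mul h3 h5 (zpow_pos t0 _).le (by norm_num)

end Pool.Agent.Lib.L8
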