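import Mathlib

/-!
# L8, file PA3 (helper43): the number of algebraic integers of bounded size
-/

namespace Pool.Agent.Lib.L8

open NumberField

/-- **The number of algebraic integers with all conjugates of absolute value at most `T`** grows polynomially. -/
theorem pa3_count (L : Type) [Field L] [NumberField L] : ∃ C D : ℕ, ∀ (T : ℕ) (S : Finset (𝓞 L)), (∀ x ∈ S, ∀ σ : L →+* ℂ, ‖σ (x : L)‖ ≤ T) → S.card ≤ C * (T + 1) ^ D := by
  classical
  obtain ⟨b, hb⟩ : ∃ b : Module.Basis (Module.Free.ChooseBasisIndex ℤ (𝓞 L)) ℂ ((L →+* ℂ) → ℂ), b = canonicalEmbedding.latticeBasis L := ⟨_, rfl⟩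
  obtain ⟨f, hf⟩ : ∃ f : ((L →+* ℂ) → ℂ) →L[ℂ] (Module.Free.ChooseBasisIndex ℤ (𝓞 L) → ℂ), f = LinearMap.toContinuousLinearMap b.equivFun.toLinearMap := ⟨_, rfl⟩
  obtain ⟨M, hM⟩ : ∃ M : ℕ, ‖f‖ ≤ M := exists_nat_ge _
  obtain ⟨zb, hzb⟩ : ∃ zb : Module.Basis (Module.Free.ChooseBasisIndex ℤ (𝓞 L)) ℤ (𝓞 L), zb = RingOfIntegers.basis L := ⟨_, rfl⟩
  have key : ∀ x : 𝓞 L, ∀ i, f (canonicalEmbedding L (x : L)) i = ((zb.repr x i : ℤ) : ℂ) := by
    intro x i
    have h1 : canonicalEmbedding L (x : L) = ∑ j, ((zb.repr x j : ℤ) : ℂ) • b j := by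
      have h2 : (x : L) = ∑ j, ((zb.repr x j : ℤ) : L) * (zb j : L) := by
        have h3 := zb.sum_repr x
        have h4 : algebraMap (𝓞 L) L (∑ j, zb.repr x j • zb j) = ∑ j, ((zb.repr x j : ℤ) : L) * (zb j : L) := by
          rw [map_sum]
          refine Finset.sum_congr rfl fun j _ => ?_
          rw [zsmul_eq_mul, map_mul, map_intCast]
        rw [← h4, h3]
      rw [h2, map_sum]
      refine Finset.sum_congr rfl fun j _ => ?_
      rw [map_mul, map_intCast, hb, canonicalEmbedding.latticeBasis_apply, hzb]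
      rw [integralBasis_apply]
      funext σ
      simp
    rw [hf]
    show b.equivFun (canonicalEmbedding L (x : L)) i = _
    rw [h1, Module.Basis.equivFun_apply]
    simp only [map_sum, map_smul, Module.Basis.repr_self]
    rw [Finsupp.finsetSum_apply, Finset.sum_eq_single i]
    · simp
    · intro j _ hj
      simp [Finsupp.single_eq_of_ne hj.symm]
    · intro h
      exact absurd (Finset.mem_univ i) h
  refine ⟨(2 * M + 1) ^ Fintype.card (Module.Free.ChooseBasisIndex ℤ (𝓞 L)), Fintype.card (Module.Free.ChooseBasisIndex ℤ (𝓞 L)), fun T S hS => ?_⟩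
  have hbd : ∀ x ∈ S, ∀ i, zb.repr x i ∈ Finset.Icc (-(M * T : ℤ)) (M * T) := by
    intro x hx i
    have h1 : ‖f (canonicalEmbedding L (x : L)) i‖ ≤ M * T := by
      have h2 : ‖canonicalEmbedding L (x : L)‖ ≤ T := (pi_norm_le_iff_of_nonneg (Nat.cast_nonneg _)).2 fun σ => hS x hx σ
      calc ‖f (canonicalEmbedding L (x : L)) i‖ ≤ ‖f (canonicalEmbedding L (x : L))‖ := norm_le_pi_norm _ i
        _ ≤ ‖f‖ * ‖canonicalEmbedding L (x : L)‖ := f.le_opNorm _
        _ ≤ M * T := mul_le_mul hM h2 (norm_nonneg _) (Nat.cast_nonneg _)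
    rw [key, Complex.norm_intCast] at h1
    have h3 : |zb.repr x i| ≤ (M * T : ℤ) := by exact_mod_cast h1
    exact Finset.mem_Icc.2 (abs_le.1 h3)
  have hinj : Function.Injective fun x : 𝓞 L => (fun i => zb.repr x i : Module.Free.ChooseBasisIndex ℤ (𝓞 L) → ℤ) := by
    intro x y h
    apply zb.repr.injective
    ext i
    exact congrFun h i
  calc S.card ≤ (Fintype.piFinset fun _ : Module.Free.ChooseBasisIndex ℤ (𝓞 L) => Finset.Icc (-(M * T : ℤ)) (M * T)).card := by
        refine Finset.card_le_card_of_injOn (fun x => fun i => zb.repr x i) (fun x hx => ?_) fun x _ y _ h => hinj h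
        exact Fintype.mem_piFinset.2 fun i => hbd x hx i
    _ = (2 * (M * T) + 1) ^ Fintype.card (Module.Free.ChooseBasisIndex ℤ (𝓞 L)) := by
        rw [Fintype.card_piFinset, Finset.prod_const, Int.card_Icc, Finset.card_univ]
        congr 1
        have : (M * T : ℤ) + 1 - -(M * T : ℤ) = ((2 * (M * T) + 1 : ℕ) : ℤ) := by
          push_cast
          ring
        rw [this, Int.toNat_natCast]
    _ ≤ ((2 * M + 1) * (T + 1)) ^ Fintype.card (Module.Free.ChooseBasisIndex ℤ (𝓞 L)) := by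
        refine Nat.pow_le_pow_left ?_ _
        nlinarith
    _ = _ := mul_pow _ _ _

end Pool.Agent.Lib.L8
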