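import Pool.Agent.Lib.L8.PA1
import Pool.Agent.Lib.L8.PA2
import Pool.Agent.Lib.L8.PA3

/-!
# L8, file PA4 (helper43): groups of unitriangular matrices over a number field with bounded denominators have polynomial growth
-/

namespace Pool.Agent.Lib.L8

open NumberField Matrix

theorem pa4_card {Δ J X : Type} [Fintype J] [DecidableEq J] [DecidableEq X] [DecidableEq Δ] (S : Finset Δ) (e : Δ → J → X) (he : ∀ a ∈ S, ∀ b ∈ S, e a = e b → a = b) (m : ℕ)
    (hm : ∀ j, (S.image fun a => e a j).card ≤ m) : S.card ≤ m ^ Fintype.card J := by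
  calc S.card ≤ (Fintype.piFinset fun j => S.image fun a => e a j).card := by
        refine Finset.card_le_card_of_injOn (fun a => e a) (fun a ha => ?_) fun a ha b hb h => he a ha b hb h
        exact Fintype.mem_piFinset.2 fun j => Finset.mem_image.2 ⟨a, ha, rfl⟩
    _ = ∏ j, (S.image fun a => e a j).card := Fintype.card_piFinset _
    _ ≤ ∏ _j : J, m := Finset.prod_le_prod' fun j _ => hm j
    _ = m ^ Fintype.card J := by rw [Finset.prod_const, Finset.card_univ]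

/-- **A group of unitriangular matrices over a number field with bounded denominators has polynomial growth.** -/
theorem pa4_pgr {J L : Type} [Fintype J] [DecidableEq J] [Field L] [NumberField L] {Δ : Type} [Group Δ] (f : Δ →* Matrix J J L) (hf : Function.Injective f) (ht : J → ℤ)
    (hU : ∀ γ r c, ht r ≤ ht c → f γ r c = (1 : Matrix J J L) r c) (κ : 𝓞 L) (hκ : κ ≠ 0) (hint : ∀ γ r c, ∃ y : 𝓞 L, (y : L) = κ * f γ r c) : PGr Δ := by
  classical
  intro Ξ
  obtain ⟨B, hB⟩ : ∃ B : ℕ, ∀ ξ ∈ Ξ, ∀ r c, ∀ σ : L →+* ℂ, ‖σ (f ξ r c)‖ ≤ B := by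
    obtain ⟨B, hB⟩ := exists_nat_ge (∑ ξ ∈ Ξ, ∑ r, ∑ c, ∑ σ : L →+* ℂ, ‖σ (f ξ r c)‖)
    refine ⟨B, fun ξ hξ r c σ => le_trans ?_ hB⟩
    refine le_trans ?_ (Finset.single_le_sum (f := fun ξ => ∑ r, ∑ c, ∑ σ : L →+* ℂ, ‖σ (f ξ r c)‖) (fun ξ _ => by positivity) hξ)
    refine le_trans ?_ (Finset.single_le_sum (f := fun r => ∑ c, ∑ σ : L →+* ℂ, ‖σ (f ξ r c)‖) (fun r _ => by positivity) (Finset.mem_univ r))
    refine le_trans ?_ (Finset.single_le_sum (f := fun c => ∑ σ : L →+* ℂ, ‖σ (f ξ r c)‖) (fun c _ => by positivity) (Finset.mem_univ c))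
    exact Finset.single_le_sum (f := fun σ : L →+* ℂ => ‖σ (f ξ r c)‖) (fun σ _ => norm_nonneg _) (Finset.mem_univ σ)
  obtain ⟨k, hk⟩ : ∃ k : ℕ, ∀ σ : L →+* ℂ, ‖σ (κ : L)‖ ≤ k := by
    obtain ⟨k, hk⟩ := exists_nat_ge (∑ σ : L →+* ℂ, ‖σ (κ : L)‖)
    exact ⟨k, fun σ => (Finset.single_le_sum (f := fun σ : L →+* ℂ => ‖σ (κ : L)‖) (fun σ _ => norm_nonneg _) (Finset.mem_univ σ)).trans hk⟩
  obtain ⟨H, hH⟩ : ∃ H : ℕ, ∀ r c, |ht r - ht c| ≤ H := by
    refine ⟨(∑ r, ∑ c, |ht r - ht c|).toNat, fun r c => ?_⟩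
    have h0 : (0 : ℤ) ≤ ∑ r, ∑ c, |ht r - ht c| := Finset.sum_nonneg fun _ _ => Finset.sum_nonneg fun _ _ => abs_nonneg _
    rw [Int.toNat_of_nonneg h0]
    refine le_trans ?_ (Finset.single_le_sum (f := fun r => ∑ c, |ht r - ht c|) (fun r _ => Finset.sum_nonneg fun _ _ => abs_nonneg _) (Finset.mem_univ r))
    exact Finset.single_le_sum (f := fun c => |ht r - ht c|) (fun c _ => abs_nonneg _) (Finset.mem_univ c)
  obtain ⟨C, D, hCD⟩ := pa3_count L
  choose y hy using hint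
  refine ⟨(C * ((3 * k + 1) * (1 + Fintype.card J * B) ^ H) ^ D) ^ Fintype.card (J × J), H * D * Fintype.card (J × J), fun n S hS => ?_⟩
  have hent : ∀ γ ∈ S, ∀ r c, ∀ σ : L →+* ℂ, ‖σ (f γ r c)‖ ≤ 3 * (1 + n * Fintype.card J * B) ^ H := by
    intro γ hγ r c σ
    obtain ⟨l, hl, hl', rfl⟩ := hS γ hγ
    have h1 := pa2_bound ht H hH (B := B) (Nat.cast_nonneg _) (l.map fun ξ => (f ξ).map σ) (by
      intro M hM r c hrc
      obtain ⟨ξ, _, rfl⟩ := List.mem_map.1 hM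
      rw [Matrix.map_apply, hU ξ r c hrc, Matrix.one_apply, Matrix.one_apply]
      split_ifs <;> simp) (by
      intro M hM r c
      obtain ⟨ξ, hξ, rfl⟩ := List.mem_map.1 hM
      exact hB ξ (hl' ξ hξ) r c σ) r c
    have e : (l.map fun ξ => (f ξ).map σ).prod = (f l.prod).map σ := by
      have h2 : (l.map fun ξ => (f ξ).map σ) = (l.map f).map (RingHom.mapMatrix σ) := by
        rw [List.map_map]
        rfl
      rw [h2, ← map_list_prod (RingHom.mapMatrix σ), ← map_list_prod f]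
      rfl
    rw [e, List.length_map, hl] at h1
    exact h1
  have hT : ∀ γ ∈ S, ∀ r c, ∀ σ : L →+* ℂ, ‖σ (y γ r c : L)‖ ≤ ((k * (3 * (1 + n * Fintype.card J * B) ^ H) : ℕ) : ℝ) := by
    intro γ hγ r c σ
    rw [hy, map_mul, norm_mul]
    push_cast
    exact mul_le_mul (hk σ) (hent γ hγ r c σ) (norm_nonneg _) (Nat.cast_nonneg _)
  have hc := pa4_card S (fun γ (p : J × J) => y γ p.1 p.2) (fun a _ b _ hab => by
    apply hf
    ext r c
    have h1 : y a r c = y b r c := congrFun hab (r, c)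
    have h2 : (κ : L) * f a r c = κ * f b r c := by rw [← hy, ← hy, h1]
    have h3 : (κ : L) ≠ 0 := by exact_mod_cast hκ
    exact mul_left_cancel₀ h3 h2) (C * (k * (3 * (1 + n * Fintype.card J * B) ^ H) + 1) ^ D) (fun p => hCD _ _ fun x hx σ => by
      obtain ⟨γ, hγ, rfl⟩ := Finset.mem_image.1 hx
      exact hT γ hγ p.1 p.2 σ)
  refine hc.trans ?_
  rw [pow_mul, pow_mul, ← mul_pow]
  refine Nat.pow_le_pow_left ?_ _
  have h1 : (1 + n * Fintype.card J * B) ^ H ≤ (1 + Fintype.card J * B) ^ H * (n + 1) ^ H := by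
    rw [← mul_pow]
    refine Nat.pow_le_pow_left ?_ _
    nlinarith [Nat.zero_le (Fintype.card J * B), Nat.zero_le n]
  have h2 : 1 ≤ (1 + Fintype.card J * B) ^ H * (n + 1) ^ H := Nat.one_le_iff_ne_zero.2 (by positivity)
  have h3 : k * (3 * (1 + n * Fintype.card J * B) ^ H) + 1 ≤ (3 * k + 1) * (1 + Fintype.card J * B) ^ H * (n + 1) ^ H := by
    calc k * (3 * (1 + n * Fintype.card J * B) ^ H) + 1 ≤ k * (3 * ((1 + Fintype.card J * B) ^ H * (n + 1) ^ H)) + (1 + Fintype.card J * B) ^ H * (n + 1) ^ H :=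
          Nat.add_le_add (Nat.mul_le_mul_left _ (Nat.mul_le_mul_left _ h1)) h2
      _ = (3 * k + 1) * (1 + Fintype.card J * B) ^ H * (n + 1) ^ H := by ring
  calc C * (k * (3 * (1 + n * Fintype.card J * B) ^ H) + 1) ^ D ≤ C * ((3 * k + 1) * (1 + Fintype.card J * B) ^ H * (n + 1) ^ H) ^ D := Nat.mul_le_mul_left _ (Nat.pow_le_pow_left h3 _)
    _ = C * ((3 * k + 1) * (1 + Fintype.card J * B) ^ H) ^ D * ((n + 1) ^ H) ^ D := by rw [mul_pow _ ((n + 1) ^ H)]; ring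

end Pool.Agent.Lib.L8
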