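import Pool.Agent.Lib.L8.Df
import Pool.Agent.Lib.L8.PA1
import Pool.Agent.Lib.H67G.B5

/-!
# L8, file PB1 (helper67): the contraction on `L²(Δ \ G)` for a group `Δ` with the Folner property
-/

namespace Pool.Agent.Lib.L8

open MeasureTheory Pool.Agent.Lib.H33W Pool.Agent.Lib.H67G
open scoped ENNReal

noncomputable section

/-- The union of the translates `γ F`, `γ ∈ S`. -/
def pbT {H X : Type} [Group H] [MulAction H X] {Δ : Subgroup H} (F : Set X) (S : Finset Δ) : Set X := {x | ∃ γ ∈ S, γ⁻¹ • x ∈ F}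

section set

variable {H X : Type} [Group H] [MulAction H X] [MeasurableSpace X] [MeasurableConstSMul H X] {μ : Measure X} [SMulInvariantMeasure H X μ] {Δ : Subgroup H} {F : Set X}

theorem pb_tr (γ : H) (hF : MeasurableSet F) {g : X → ℝ≥0∞} (mg : Measurable g) : ∫⁻ x in {x | γ⁻¹ • x ∈ F}, g x ∂μ = ∫⁻ y in F, g (γ • y) ∂μ := by
  have h1 := (measurePreserving_smul γ⁻¹ μ).setLIntegral_comp_preimage hF (f := fun y => g (γ • y)) (mg.comp (measurable_const_smul γ))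
  rw [← h1]
  refine lintegral_congr fun x => ?_
  rw [smul_inv_smul]

theorem pb_dj (hF : SF Δ F) (S : Finset Δ) : Set.PairwiseDisjoint (S : Set Δ) fun γ : Δ => {x : X | (γ : H)⁻¹ • x ∈ F} := by
  intro a _ b _ hab
  refine Set.disjoint_left.2 fun x h3 h4 => hab ?_
  obtain ⟨γ, _, hu⟩ := hF.fd x
  have e1 := hu a⁻¹ h3
  have e2 := hu b⁻¹ h4
  exact inv_injective (e1.trans e2.symm)

theorem pb_union (hF : SF Δ F) {g : X → ℝ≥0∞} (mg : Measurable g) (ig : ∀ u ∈ Δ, ∀ x, g (u • x) = g x) (S : Finset Δ) :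
    ∫⁻ x in pbT F S, g x ∂μ ≤ S.card * ∫⁻ x in F, g x ∂μ := by
  classical
  have h1 : pbT F S = ⋃ γ ∈ S, {x | (γ : H)⁻¹ • x ∈ F} := by
    ext x
    rw [Set.mem_iUnion₂]
    constructor
    · rintro ⟨γ, h1, h2⟩
      exact ⟨γ, h1, h2⟩
    · rintro ⟨γ, h1, h2⟩
      exact ⟨γ, h1, h2⟩
  rw [h1]
  rw [lintegral_biUnion_finset (pb_dj hF S) fun γ _ => (measurable_const_smul (γ : H)⁻¹) hF.meas]
  have h2 : ∀ γ ∈ S, ∫⁻ x in {x | (γ : H)⁻¹ • x ∈ F}, g x ∂μ = ∫⁻ x in F, g x ∂μ := by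
    intro γ _
    rw [pb_tr (γ : H) hF.meas mg]
    exact lintegral_congr fun y => ig γ γ.2 y
  rw [Finset.sum_congr rfl h2, Finset.sum_const, nsmul_eq_mul]

theorem pb_disj (hF : SF Δ F) {g : X → ℝ≥0∞} (mg : Measurable g) (S : Finset Δ) :
    ∑ γ ∈ S, ∫⁻ x in F, g ((γ : H) • x) ∂μ ≤ ∫⁻ x, g x ∂μ := by
  classical
  have h2 : ∀ γ ∈ S, ∫⁻ x in F, g ((γ : H) • x) ∂μ = ∫⁻ x in {x | (γ : H)⁻¹ • x ∈ F}, g x ∂μ := fun γ _ => (pb_tr (γ : H) hF.meas mg).symm
  rw [Finset.sum_congr rfl h2, ← lintegral_biUnion_finset]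
  · exact setLIntegral_le_lintegral _ _
  · exact pb_dj hF S
  · intro γ _
    exact (measurable_const_smul (γ : H)⁻¹) hF.meas

end set

theorem pb_sq {η : ℝ≥0∞} (h0 : η ≠ 0) (h1 : η ≠ ⊤) (a b : ℝ≥0∞) : (a + b) ^ 2 ≤ (1 + η) * a ^ 2 + (1 + η⁻¹) * b ^ 2 := by
  rcases eq_or_ne a ⊤ with ha | ha
  · rw [ha]
    have : (1 + η) * (⊤ : ℝ≥0∞) ^ 2 = ⊤ := by
      rw [ENNReal.top_pow two_ne_zero, ENNReal.mul_top (by positivity)]
    exact le_top.trans_eq (by rw [this, top_add])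
  rcases eq_or_ne b ⊤ with hb | hb
  · rw [hb]
    have : (1 + η⁻¹) * (⊤ : ℝ≥0∞) ^ 2 = ⊤ := by
      rw [ENNReal.top_pow two_ne_zero, ENNReal.mul_top (by positivity)]
    exact le_top.trans_eq (by rw [this, add_top])
  lift a to NNReal using ha
  lift b to NNReal using hb
  lift η to NNReal using h1
  have h0' : η ≠ 0 := by exact_mod_cast h0
  rw [← ENNReal.coe_inv h0']
  norm_cast
  rw [← NNReal.coe_le_coe]
  push_cast
  have hp : (0 : ℝ) < η := lt_of_le_of_ne η.2 (fun h => h0' (by exact_mod_cast h.symm))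
  have h2 : (0 : ℝ) ≤ (η : ℝ) * ((a : ℝ) - (η : ℝ)⁻¹ * b) ^ 2 := by positivity
  have h3 : (η : ℝ) * ((a : ℝ) - (η : ℝ)⁻¹ * b) ^ 2 = (1 + (η : ℝ)) * (a : ℝ) ^ 2 + (1 + (η : ℝ)⁻¹) * (b : ℝ) ^ 2 - ((a : ℝ) + b) ^ 2 := by
    field_simp
    ring
  rw [h3] at h2
  linarith

section main

variable {H G : Type} [Group H] [Group G] [MulAction H G] [MeasurableSpace G] [MeasurableConstSMul H G] {μ : Measure G} [SMulInvariantMeasure H G μ] {Δ : Subgroup H} {F : Set G}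

/-- The error: the part of the integral outside of the translates `ξ F`, `ξ ∈ Ξ`. -/
def pbE (τ : Measure G) (w V : G → ℂ) (A : Set G) (x : G) : ℝ≥0∞ := ∫⁻ y, Aᶜ.indicator (fun z => ‖V z‖ₑ) (x * y) * ‖w y‖ₑ ∂τ

theorem pb_close (hm : ∀ (h : H) (x y : G), (h • x) * y = h • (x * y)) {τ : Measure G} [IsFiniteMeasure τ] {w V : G → ℂ} (mw : Measurable w) (mV : Measurable V)
    (mmul : Measurable fun p : G × G => p.1 * p.2) {Bw B : ℝ} (bw : ∀ y, ‖w y‖ ≤ Bw) (bV : ∀ x, ‖V x‖ ≤ B) (iV : ∀ u ∈ Δ, ∀ x, V (u • x) = V x)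
    (hF : SF Δ F) {S S' Ξ : Finset Δ} (hS : ∀ γ ∈ S', ∀ ξ ∈ Ξ, γ * ξ ∈ S) [Countable H] {γ : Δ} (hγ : γ ∈ S') (x : G) :
    ‖Cv τ w V x‖ₑ ≤ ‖Cv τ w ((pbT F S).indicator V) ((γ : H) • x)‖ₑ + pbE τ w V (pbT F Ξ) x := by
  classical
  have mT : ∀ S : Finset Δ, MeasurableSet (pbT F S) := by
    intro S
    have h1 : pbT F S = ⋃ γ ∈ S, {x | (γ : H)⁻¹ • x ∈ F} := by
      ext x
      rw [Set.mem_iUnion₂]
      constructor
      · rintro ⟨γ, h1, h2⟩
        exact ⟨γ, h1, h2⟩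
      · rintro ⟨γ, h1, h2⟩
        exact ⟨γ, h1, h2⟩
    rw [h1]
    exact Finset.measurableSet_biUnion _ fun γ _ => (measurable_const_smul (γ : H)⁻¹) hF.meas
  have mx : ∀ x : G, Measurable fun y : G => x * y := fun x => mmul.comp (measurable_const.prodMk measurable_id)
  have hB0 : 0 ≤ B := (norm_nonneg _).trans (bV x)
  have int : ∀ {f : G → ℂ}, Measurable f → (∀ z, ‖f z‖ ≤ B) → ∀ x, Integrable (fun y => f (x * y) * w y) τ := by
    intro f mf bf x
    refine Integrable.of_bound (C := B * Bw) ((mf.comp (mx x)).mul mw).aestronglyMeasurable (Filter.Eventually.of_forall fun y => ?_)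
    rw [norm_mul]
    exact mul_le_mul (bf _) (bw _) (norm_nonneg _) hB0
  obtain ⟨f, hf⟩ : ∃ f : G → ℂ, f = (pbT F S).indicator V := ⟨_, rfl⟩
  have mf : Measurable f := by
    rw [hf]
    exact mV.indicator (mT S)
  have bf : ∀ z, ‖f z‖ ≤ B := by
    intro z
    rw [hf]
    by_cases hz : z ∈ pbT F S
    · rw [Set.indicator_of_mem hz]
      exact bV z
    · rw [Set.indicator_of_notMem hz, norm_zero]
      exact hB0
  rw [← hf]
  have e1 : Cv τ w V x = Cv τ w f ((γ : H) • x) + ∫ y, (V (x * y) - f ((γ : H) • (x * y))) * w y ∂τ := by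
    have h1 : Cv τ w f ((γ : H) • x) = ∫ y, f ((γ : H) • (x * y)) * w y ∂τ := by
      unfold Cv
      refine integral_congr_ae (Filter.Eventually.of_forall fun y => ?_)
      show f (((γ : H) • x) * y) * w y = _
      rw [hm]
    have i1 := int mV bV x
    have i2 : Integrable (fun y => f ((γ : H) • (x * y)) * w y) τ := by
      have := int mf bf ((γ : H) • x)
      simp only [hm] at this
      exact this
    rw [h1, ← integral_add i2 (by
      have h3 := i1.sub i2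
      refine h3.congr (Filter.Eventually.of_forall fun y => ?_)
      show V (x * y) * w y - f ((γ : H) • (x * y)) * w y = _
      ring)]
    unfold Cv
    refine integral_congr_ae (Filter.Eventually.of_forall fun y => ?_)
    show V (x * y) * w y = f ((γ : H) • (x * y)) * w y + (V (x * y) - f ((γ : H) • (x * y))) * w y
    ring
  rw [e1]
  refine (enorm_add_le _ _).trans (add_le_add le_rfl ?_)
  refine (enorm_integral_le_lintegral_enorm _).trans (lintegral_mono fun y => ?_)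
  rw [enorm_mul]
  refine mul_le_mul' ?_ le_rfl
  by_cases hy : x * y ∈ pbT F Ξ
  · obtain ⟨ξ, h1, h2⟩ := hy
    have h3 : (γ : H) • (x * y) ∈ pbT F S := by
      refine ⟨γ * ξ, hS γ hγ ξ h1, ?_⟩
      have h4 : (γ * ξ)⁻¹ • ((γ : H) • (x * y)) = ξ⁻¹ • (x * y) := by
        have h5 : ((γ : H) • (x * y)) = γ • (x * y) := rfl
        rw [h5, mul_inv_rev, mul_smul, inv_smul_smul]
      rw [h4]
      exact h2
    rw [hf, Set.indicator_of_mem h3, iV γ γ.2, sub_self, enorm_zero]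
    exact zero_le
  · rw [Set.indicator_of_mem (show x * y ∈ (pbT F Ξ)ᶜ from hy)]
    by_cases h3 : (γ : H) • (x * y) ∈ pbT F S
    · rw [hf, Set.indicator_of_mem h3, iV γ γ.2, sub_self, enorm_zero]
      exact zero_le
    · rw [hf, Set.indicator_of_notMem h3, sub_zero]

end main

end

end Pool.Agent.Lib.L8
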