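import Pool.Agent.Lib.L8.PB1

/-!
# L8, file PB2 (helper67): the contraction on `L²(Δ \ G)`, proof
-/

namespace Pool.Agent.Lib.L8

open MeasureTheory Pool.Agent.Lib.H33W Pool.Agent.Lib.H67G Filter Topology
open scoped ENNReal

noncomputable section

section meas

variable {G : Type} [Group G] [MeasurableSpace G]

theorem pb_cvm (mmul : Measurable fun p : G × G => p.1 * p.2) {τ : Measure G} [IsFiniteMeasure τ] {w V : G → ℂ} (mw : Measurable w) (mV : Measurable V) : Measurable (Cv τ w V) := by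
  have h1 : StronglyMeasurable (Function.uncurry fun x y : G => V (x * y) * w y) := by
    have h2 : Measurable (Function.uncurry fun x y : G => V (x * y) * w y) := (mV.comp mmul).mul (mw.comp measurable_snd)
    exact h2.stronglyMeasurable
  exact h1.integral_prod_right.measurable

theorem pb_cvb {τ : Measure G} [IsFiniteMeasure τ] {w V : G → ℂ} {Bw B : ℝ} (bw : ∀ y, ‖w y‖ ≤ Bw) (bV : ∀ x, ‖V x‖ ≤ B) (x : G) :
    ‖Cv τ w V x‖ ≤ B * Bw * (τ Set.univ).toReal := by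
  have hB0 : 0 ≤ B := (norm_nonneg _).trans (bV x)
  refine (norm_integral_le_of_norm_le_const (Filter.Eventually.of_forall fun y => ?_) (C := B * Bw)).trans le_rfl
  rw [norm_mul]
  exact mul_le_mul (bV _) (bw _) (norm_nonneg _) hB0

theorem pb_em (mmul : Measurable fun p : G × G => p.1 * p.2) {τ : Measure G} [IsFiniteMeasure τ] {w V : G → ℂ} (mw : Measurable w) (mV : Measurable V) {A : Set G} (mA : MeasurableSet A) :
    Measurable (pbE τ w V A) := by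
  have h1 : Measurable fun p : G × G => Aᶜ.indicator (fun z => ‖V z‖ₑ) (p.1 * p.2) * ‖w p.2‖ₑ :=
    ((mV.enorm.indicator mA.compl).comp mmul).mul (mw.enorm.comp measurable_snd)
  exact h1.lintegral_prod_right'

end meas

section main

variable {H G : Type} [Group H] [Countable H] [Group G] [MulAction H G] [MeasurableSpace G] [MeasurableConstSMul H G] {μ : Measure G} [SMulInvariantMeasure H G μ] {Δ : Subgroup H} {F : Set G}

omit [Countable H] [SMulInvariantMeasure H G μ] in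
theorem pb_mT (hF : SF Δ F) (S : Finset Δ) : MeasurableSet (pbT F S) := by
  have h1 : pbT F S = ⋃ γ ∈ S, {x | (γ : H)⁻¹ • x ∈ F} := by
    ext x
    rw [Set.mem_iUnion₂]
    constructor
    · rintro ⟨γ, h1, h2⟩
      exact ⟨γ, h1, h2⟩
    · rintro ⟨γ, h1, h2⟩
      exact ⟨γ, h1, h2⟩
  rw [h1]
  exact Finset.measurableSet_biUnion _ fun γ _ => (measurable_const_smul (γ : H)⁻¹) hF.meas

/-- The inequality for one Folner set. -/
theorem pb_one (hm : ∀ (h : H) (x y : G), (h • x) * y = h • (x * y)) (mmul : Measurable fun p : G × G => p.1 * p.2) (hF : SF Δ F) (hfol : Fol Δ) {τ : Measure G} [IsFiniteMeasure τ]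
    {w : G → ℂ} (mw : Measurable w) {Bw : ℝ} (bw : ∀ y, ‖w y‖ ≤ Bw) {Λ : ℝ} (hop : OpB μ τ w Λ) {V : G → ℂ} (mV : Measurable V) (iV : ∀ u ∈ Δ, ∀ x, V (u • x) = V x)
    {B : ℝ} (bV : ∀ x, ‖V x‖ ≤ B) (hV : ∫⁻ x in F, ‖V x‖ₑ ^ 2 ∂μ ≠ ⊤) {F' : Set G} (mF' : MeasurableSet F') (hF' : F' ⊆ F) (Ξ : Finset Δ) {ε : ℝ} (h0 : 0 < ε) {η : ℝ≥0∞} (e0 : η ≠ 0) (e1 : η ≠ ⊤) :
    ENNReal.ofReal (1 - ε) * ∫⁻ x in F', ‖Cv τ w V x‖ₑ ^ 2 ∂μ ≤
      (1 + η) * (ENNReal.ofReal (Λ ^ 2) * ∫⁻ x in F, ‖V x‖ₑ ^ 2 ∂μ) + (1 + η⁻¹) * ∫⁻ x in F', pbE τ w V (pbT F Ξ) x ^ 2 ∂μ := by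
  classical
  obtain ⟨S, hSn, S', hSS, hS, hcard⟩ := hfol Ξ ε h0
  obtain ⟨a, ha⟩ : ∃ a, a = ∫⁻ x in F', ‖Cv τ w V x‖ₑ ^ 2 ∂μ := ⟨_, rfl⟩
  obtain ⟨b, hb⟩ : ∃ b, b = ∫⁻ x in F, ‖V x‖ₑ ^ 2 ∂μ := ⟨_, rfl⟩
  obtain ⟨d, hd⟩ : ∃ d, d = ∫⁻ x in F', pbE τ w V (pbT F Ξ) x ^ 2 ∂μ := ⟨_, rfl⟩
  obtain ⟨f, hf⟩ : ∃ f : G → ℂ, f = (pbT F S).indicator V := ⟨_, rfl⟩
  have mT := pb_mT (H := H) hF S
  have mf : Measurable f := by
    rw [hf]
    exact mV.indicator mT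
  have mCf : Measurable (Cv τ w f) := pb_cvm mmul mw mf
  have mE : Measurable (pbE τ w V (pbT F Ξ)) := pb_em mmul mw mV (pb_mT hF Ξ)
  -- the norm of `f`
  have nf : ∫⁻ x, ‖f x‖ₑ ^ 2 ∂μ ≤ S.card * b := by
    have h1 : ∀ x, ‖f x‖ₑ ^ 2 = (pbT F S).indicator (fun x => ‖V x‖ₑ ^ 2) x := by
      intro x
      rw [hf]
      by_cases hx : x ∈ pbT F S
      · rw [Set.indicator_of_mem hx, Set.indicator_of_mem hx]
      · rw [Set.indicator_of_notMem hx, Set.indicator_of_notMem hx, enorm_zero]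
        simp
    rw [lintegral_congr h1, lintegral_indicator mT, hb]
    exact pb_union hF (mV.enorm.pow_const 2) (fun u hu x => by rw [iV u hu]) S
  have nf' : ∫⁻ x, ‖f x‖ₑ ^ 2 ∂μ ≠ ⊤ := ne_top_of_le_ne_top (ENNReal.mul_ne_top (ENNReal.natCast_ne_top _) (hb ▸ hV)) nf
  have nCf : ∫⁻ x, ‖Cv τ w f x‖ₑ ^ 2 ∂μ ≤ ENNReal.ofReal (Λ ^ 2) * (S.card * b) := (hop f mf nf').trans (mul_le_mul_right nf _)
  -- the comparison
  have h1 : ∀ γ ∈ S', a ≤ (1 + η) * ∫⁻ x in F, ‖Cv τ w f ((γ : H) • x)‖ₑ ^ 2 ∂μ + (1 + η⁻¹) * d := by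
    intro γ hγ
    have h2 : ∀ x, ‖Cv τ w V x‖ₑ ^ 2 ≤ (1 + η) * ‖Cv τ w f ((γ : H) • x)‖ₑ ^ 2 + (1 + η⁻¹) * pbE τ w V (pbT F Ξ) x ^ 2 := by
      intro x
      refine (pow_le_pow_left' ?_ 2).trans (pb_sq e0 e1 _ _)
      rw [hf]
      exact pb_close hm mw mV mmul bw bV iV hF hS hγ x
    have m1 : Measurable fun x => ‖Cv τ w f ((γ : H) • x)‖ₑ ^ 2 := (mCf.comp (measurable_const_smul (γ : H))).enorm.pow_const 2
    have m2 : Measurable fun x => (1 + η) * ‖Cv τ w f ((γ : H) • x)‖ₑ ^ 2 := m1.const_mul _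
    rw [ha]
    refine (lintegral_mono h2).trans ?_
    rw [lintegral_add_left m2, lintegral_const_mul _ m1, lintegral_const_mul _ (mE.pow_const 2), ← hd]
    refine add_le_add (mul_le_mul_right ?_ _) le_rfl
    exact lintegral_mono_set hF'
  have h2 : (S'.card : ℝ≥0∞) * a ≤ (1 + η) * (ENNReal.ofReal (Λ ^ 2) * (S.card * b)) + S.card * ((1 + η⁻¹) * d) := by
    have h3 : ∑ _γ ∈ S', a ≤ ∑ γ ∈ S', ((1 + η) * ∫⁻ x in F, ‖Cv τ w f ((γ : H) • x)‖ₑ ^ 2 ∂μ + (1 + η⁻¹) * d) := Finset.sum_le_sum h1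
    rw [Finset.sum_const, nsmul_eq_mul, Finset.sum_add_distrib, ← Finset.mul_sum, Finset.sum_const, nsmul_eq_mul] at h3
    refine h3.trans (add_le_add (mul_le_mul_right ?_ _) ?_)
    · exact (pb_disj hF (mCf.enorm.pow_const 2) S').trans nCf
    · exact mul_le_mul_left (by exact_mod_cast Finset.card_le_card hSS) _
  have h3 : ENNReal.ofReal (1 - ε) * (S.card : ℝ≥0∞) ≤ (S'.card : ℝ≥0∞) := by
    rw [← ENNReal.ofReal_natCast, ← ENNReal.ofReal_natCast, ← ENNReal.ofReal_mul' (Nat.cast_nonneg _)]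
    exact ENNReal.ofReal_le_ofReal hcard
  have hn0 : (S.card : ℝ≥0∞) ≠ 0 := by exact_mod_cast (Finset.card_pos.2 hSn).ne'
  have hnt : (S.card : ℝ≥0∞) ≠ ⊤ := ENNReal.natCast_ne_top _
  rw [← ha, ← hb, ← hd]
  refine (ENNReal.mul_le_mul_iff_right hn0 hnt).1 ?_
  calc (S.card : ℝ≥0∞) * (ENNReal.ofReal (1 - ε) * a) = (ENNReal.ofReal (1 - ε) * (S.card : ℝ≥0∞)) * a := by ring
    _ ≤ (S'.card : ℝ≥0∞) * a := mul_le_mul_left h3 _
    _ ≤ _ := h2
    _ = _ := by ring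

/-- The error tends to zero. -/
theorem pb_err (mmul : Measurable fun p : G × G => p.1 * p.2) (hF : SF Δ F) {τ : Measure G} [IsFiniteMeasure τ]
    {w : G → ℂ} (mw : Measurable w) {Bw : ℝ} (bw : ∀ y, ‖w y‖ ≤ Bw) {V : G → ℂ} (mV : Measurable V)
    {B : ℝ} (bV : ∀ x, ‖V x‖ ≤ B) {F' : Set G} (hF' : μ F' ≠ ⊤) {δ : ℝ≥0∞} (hδ : δ ≠ 0) : ∃ Ξ : Finset Δ, ∫⁻ x in F', pbE τ w V (pbT F Ξ) x ^ 2 ∂μ ≤ δ := by
  classical
  obtain ⟨e, he⟩ := exists_surjective_nat Δ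
  obtain ⟨Ξ, hΞ⟩ : ∃ Ξ : ℕ → Finset Δ, Ξ = fun n => (Finset.range n).image e := ⟨_, rfl⟩
  have hcov : ∀ z : G, ∃ n₀, ∀ n ≥ n₀, z ∈ pbT F (Ξ n) := by
    intro z
    obtain ⟨γ, h1, _⟩ := hF.fd z
    obtain ⟨k, hk⟩ := he γ⁻¹
    refine ⟨k + 1, fun n hn => ⟨γ⁻¹, ?_, ?_⟩⟩
    · rw [hΞ]
      exact Finset.mem_image.2 ⟨k, Finset.mem_range.2 (by omega), hk⟩
    · rw [inv_inv]
      exact h1
  have mT : ∀ n, MeasurableSet (pbT F (Ξ n)) := fun n => pb_mT (H := H) hF (Ξ n)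
  obtain ⟨K, hK⟩ : ∃ K : ℝ≥0∞, K = ENNReal.ofReal B * ENNReal.ofReal Bw := ⟨_, rfl⟩
  have hKt : K ≠ ⊤ := by
    rw [hK]
    exact ENNReal.mul_ne_top ENNReal.ofReal_ne_top ENNReal.ofReal_ne_top
  have bd : ∀ (A : Set G) (z y : G), Aᶜ.indicator (fun z => ‖V z‖ₑ) z * ‖w y‖ₑ ≤ K := by
    intro A z y
    rw [hK]
    refine mul_le_mul' ?_ ?_
    · refine (Set.indicator_le_self' (fun _ _ => zero_le) z).trans ?_
      rw [← ofReal_norm]
      exact ENNReal.ofReal_le_ofReal (bV z)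
    · rw [← ofReal_norm]
      exact ENNReal.ofReal_le_ofReal (bw y)
  have lim1 : ∀ x, Tendsto (fun n => pbE τ w V (pbT F (Ξ n)) x) atTop (𝓝 0) := by
    intro x
    have h0 : (0 : ℝ≥0∞) = ∫⁻ _y, 0 ∂τ := by simp
    rw [h0]
    refine tendsto_lintegral_of_dominated_convergence (fun _ => K) (fun n => ?_) (fun n => Filter.Eventually.of_forall fun y => bd _ _ _) ?_ (Filter.Eventually.of_forall fun y => ?_)
    · have mx : Measurable fun y : G => x * y := mmul.comp (measurable_const.prodMk measurable_id)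
      exact ((mV.enorm.indicator (mT n).compl).comp mx).mul mw.enorm
    · rw [lintegral_const]
      exact ENNReal.mul_ne_top hKt (measure_ne_top _ _)
    · obtain ⟨n₀, hn₀⟩ := hcov (x * y)
      refine tendsto_const_nhds.congr' ?_
      filter_upwards [Filter.eventually_ge_atTop n₀] with n hn
      have h2 : x * y ∉ (pbT F (Ξ n))ᶜ := fun h => h (hn₀ n hn)
      rw [Set.indicator_of_notMem h2, zero_mul]
  have bE : ∀ n x, pbE τ w V (pbT F (Ξ n)) x ≤ K * τ Set.univ := by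
    intro n x
    refine (lintegral_mono fun y => bd _ _ y).trans ?_
    rw [lintegral_const]
  have lim2 : Tendsto (fun n => ∫⁻ x in F', pbE τ w V (pbT F (Ξ n)) x ^ 2 ∂μ) atTop (𝓝 0) := by
    have h0 : (0 : ℝ≥0∞) = ∫⁻ _x in F', 0 ∂μ := by simp
    rw [h0]
    refine tendsto_lintegral_of_dominated_convergence (fun _ => (K * τ Set.univ) ^ 2) (fun n => (pb_em mmul mw mV (mT n)).pow_const 2)
      (fun n => Filter.Eventually.of_forall fun x => pow_le_pow_left' (bE n x) 2) ?_ (Filter.Eventually.of_forall fun x => ?_)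
    · rw [lintegral_const, Measure.restrict_apply_univ]
      exact ENNReal.mul_ne_top (ENNReal.pow_ne_top (ENNReal.mul_ne_top hKt (measure_ne_top _ _))) hF'
    · have h1 := ENNReal.Tendsto.pow (n := 2) (lim1 x)
      simpa using h1
  have h1 := (lim2.eventually (gt_mem_nhds (pos_iff_ne_zero.2 hδ))).exists
  obtain ⟨n, hn⟩ := h1
  exact ⟨Ξ n, hn.le⟩

/-- **The contraction.** -/
theorem pb_contr [SigmaFinite μ] (hm : ∀ (h : H) (x y : G), (h • x) * y = h • (x * y)) (mmul : Measurable fun p : G × G => p.1 * p.2) (hF : SF Δ F) (hfol : Fol Δ) {τ : Measure G} [IsFiniteMeasure τ]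
    {w : G → ℂ} (mw : Measurable w) {Bw : ℝ} (bw : ∀ y, ‖w y‖ ≤ Bw) {Λ : ℝ} (hop : OpB μ τ w Λ) {V : G → ℂ} (mV : Measurable V) (iV : ∀ u ∈ Δ, ∀ x, V (u • x) = V x)
    {B : ℝ} (bV : ∀ x, ‖V x‖ ≤ B) (hV : ∫⁻ x in F, ‖V x‖ₑ ^ 2 ∂μ ≠ ⊤) :
    ∫⁻ x in F, ‖Cv τ w V x‖ₑ ^ 2 ∂μ ≤ ENNReal.ofReal (Λ ^ 2) * ∫⁻ x in F, ‖V x‖ₑ ^ 2 ∂μ := by
  have key : ∀ F' : Set G, MeasurableSet F' → F' ⊆ F → μ F' ≠ ⊤ → ∫⁻ x in F', ‖Cv τ w V x‖ₑ ^ 2 ∂μ ≤ ENNReal.ofReal (Λ ^ 2) * ∫⁻ x in F, ‖V x‖ₑ ^ 2 ∂μ := by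
    intro F' mF' hF' ht
    obtain ⟨a, ha⟩ : ∃ a, a = ∫⁻ x in F', ‖Cv τ w V x‖ₑ ^ 2 ∂μ := ⟨_, rfl⟩
    obtain ⟨c, hc⟩ : ∃ c, c = ENNReal.ofReal (Λ ^ 2) * ∫⁻ x in F, ‖V x‖ₑ ^ 2 ∂μ := ⟨_, rfl⟩
    have hct : c ≠ ⊤ := by
      rw [hc]
      exact ENNReal.mul_ne_top ENNReal.ofReal_ne_top hV
    have hat : a ≠ ⊤ := by
      rw [ha]
      have h1 : ∫⁻ x in F', ‖Cv τ w V x‖ₑ ^ 2 ∂μ ≤ ∫⁻ _x in F', ENNReal.ofReal (B * Bw * (τ Set.univ).toReal) ^ 2 ∂μ := by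
        refine lintegral_mono fun x => pow_le_pow_left' ?_ 2
        rw [← ofReal_norm]
        exact ENNReal.ofReal_le_ofReal (pb_cvb (τ := τ) bw bV x)
      rw [lintegral_const, Measure.restrict_apply_univ] at h1
      exact ne_top_of_le_ne_top (ENNReal.mul_ne_top (ENNReal.pow_ne_top ENNReal.ofReal_ne_top) ht) h1
    rw [← ha, ← hc]
    by_contra hcon
    push Not at hcon
    obtain ⟨a', ha'⟩ : ∃ a' : ℝ, a' = a.toReal := ⟨_, rfl⟩
    obtain ⟨c', hc'⟩ : ∃ c' : ℝ, c' = c.toReal := ⟨_, rfl⟩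
    have ea : a = ENNReal.ofReal a' := by rw [ha', ENNReal.ofReal_toReal hat]
    have ec : c = ENNReal.ofReal c' := by rw [hc', ENNReal.ofReal_toReal hct]
    have a0 : 0 ≤ a' := by rw [ha']; exact ENNReal.toReal_nonneg
    have c0 : 0 ≤ c' := by rw [hc']; exact ENNReal.toReal_nonneg
    have hlt : c' < a' := by
      rw [hc', ha']
      exact (ENNReal.toReal_lt_toReal hct hat).2 hcon
    have main : ∀ t : ℝ, 0 < t → t < 1 → (1 - t) * a' ≤ (1 + t) * c' + 2 * t := by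
      intro t t0 t1
      obtain ⟨Ξ, hΞ⟩ := pb_err (H := H) (μ := μ) (τ := τ) mmul hF mw bw mV bV ht (δ := ENNReal.ofReal (t ^ 2)) (by positivity)
      have h1 := pb_one hm mmul hF hfol mw bw hop mV iV bV hV mF' hF' Ξ t0 (η := ENNReal.ofReal t) (by positivity) ENNReal.ofReal_ne_top
      rw [← ha, ← hc] at h1
      have h2 : (1 + (ENNReal.ofReal t)⁻¹) * ∫⁻ x in F', pbE τ w V (pbT F Ξ) x ^ 2 ∂μ ≤ ENNReal.ofReal (2 * t) := by
        refine (mul_le_mul_right hΞ _).trans ?_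
        rw [← ENNReal.ofReal_inv_of_pos t0, ← ENNReal.ofReal_one, ← ENNReal.ofReal_add zero_le_one (by positivity), ← ENNReal.ofReal_mul (by positivity)]
        refine ENNReal.ofReal_le_ofReal ?_
        have h3 : (1 + t⁻¹) * t ^ 2 = t ^ 2 + t := by
          field_simp
        rw [h3]
        nlinarith
      have h3 := h1.trans (add_le_add le_rfl h2)
      rw [ea, ec, ← ENNReal.ofReal_mul (by linarith), ← ENNReal.ofReal_one, ← ENNReal.ofReal_add zero_le_one t0.le, ← ENNReal.ofReal_mul (by positivity),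
        ← ENNReal.ofReal_add (by positivity) (by positivity)] at h3
      exact (ENNReal.ofReal_le_ofReal_iff (by positivity)).1 h3
    obtain ⟨t, ht'⟩ : ∃ t : ℝ, t = min (1 / 2) ((a' - c') / (2 * (a' + c' + 2))) := ⟨_, rfl⟩
    have hpos : 0 < 2 * (a' + c' + 2) := by linarith
    have t0 : 0 < t := by
      rw [ht']
      exact lt_min (by norm_num) (div_pos (by linarith) hpos)
    have t1 : t < 1 := by
      rw [ht']
      exact (min_le_left _ _).trans_lt (by norm_num)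
    have t2 : t * (2 * (a' + c' + 2)) ≤ a' - c' := by
      rw [← le_div_iff₀ hpos, ht']
      exact min_le_right _ _
    have h5 := main t t0 t1
    nlinarith
  have hU : F = ⋃ n, F ∩ spanningSets μ n := by
    rw [← Set.inter_iUnion, iUnion_spanningSets, Set.inter_univ]
  have hdir : Directed (· ⊆ ·) fun n => F ∩ spanningSets μ n :=
    (monotone_nat_of_le_succ fun n => Set.inter_subset_inter_right F (monotone_spanningSets μ (Nat.le_succ n))).directed_le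
  have h1 : ∫⁻ x in F, ‖Cv τ w V x‖ₑ ^ 2 ∂μ = ⨆ n, ∫⁻ x in F ∩ spanningSets μ n, ‖Cv τ w V x‖ₑ ^ 2 ∂μ := by
    rw [← setLIntegral_iUnion_of_directed _ hdir, ← hU]
  rw [h1]
  refine iSup_le fun n => key _ (hF.meas.inter (measurableSet_spanningSets μ n)) Set.inter_subset_left ?_
  exact ((measure_mono Set.inter_subset_right).trans_lt (measure_spanningSets_lt_top μ n)).ne

end main

end

end Pool.Agent.Lib.L8
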