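import Pool.Agent.Lib.L8.PB2
import Pool.Agent.Lib.L1S.AX14

/-!
# L8, file PC10 (helper67): the functional at a point for an invariant function; the iterated convolution
-/

namespace Pool.Agent.Lib.L8

open MeasureTheory Pool.Agent.Lib.H33W Pool.Agent.Lib.H67G Pool.Agent.Lib.L1S
open scoped ENNReal Pointwise

noncomputable section

/-- As `ax_J`, for any function `Φ` invariant under `T`. -/
theorem pc_J {H G T : Type} [Group H] [Countable H] [Group G] [Group T] [TopologicalSpace G] [MeasurableSpace G] [MeasurableSpace T] [MulAction H G] {HU : Subgroup H} [MulAction HU T]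
    {emb : H →* G} {j : T →* G} {k : HU →* T} {μ : Measure G} {ν : Measure T} [SFinite μ] [SFinite ν] {ψ : T → ℂ} (hG : GD emb j k μ ν ψ)
    {Γ : Subgroup H} {D : Set T} {S Q : Set G} (hS : SD0 j k μ ν ψ Γ D S Q) {F_U : Set G} (hU : SF (Γ ⊓ HU) F_U)
    {Φ : G → ℝ≥0∞} (mΦ : Measurable Φ) (uΦ : ∀ t x, Φ (j t * x) = Φ x) {K : G → ℝ≥0∞} (mK : Measurable K) :
    ν D * (∫⁻ z, K z * Φ z ∂μ) ^ 2 ≤ (∫⁻ t, ∫⁻ z, K z * K (j t * z) ∂μ ∂ν) * ∫⁻ x in F_U, Φ x ^ 2 ∂μ := by
  have i1 : MeasurableConstSMul HU G := ⟨fun c => (an10_fun hG (c : H)).measurable⟩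
  have i2 : SMulInvariantMeasure HU G μ :=
    ⟨fun c s hs => (an10_fun hG (c : H)).measure_preimage hs.nullMeasurableSet⟩
  have hA := gd_avg hG
  have hsf : SF (Γ.subgroupOf HU) F_U := gd_sub.1 hU
  have act : ∀ (γ : HU) (x : G), (γ • x : G) = j (k γ) * x := by
    intro γ x
    have h2 : (γ • x : G) = (γ : H) • x := rfl
    rw [h2, hG.act, hG.jk]
  -- the integral over `T`
  obtain ⟨SK, hSK⟩ : ∃ SK : G → ℝ≥0∞, SK = fun z => ∫⁻ s, K (j s⁻¹ * z) ∂ν := ⟨_, rfl⟩
  have mp : Measurable fun p : T × G => K (j p.1⁻¹ * p.2) :=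
    mK.comp (hG.mj.comp ((hG.iT.measurable.comp measurable_fst).prodMk measurable_snd))
  have mSK : Measurable SK := by
    rw [hSK]
    exact mp.lintegral_prod_left'
  have uSK : ∀ t x, SK (j t * x) = SK x := by
    intro t x
    rw [hSK]
    show ∫⁻ s, K (j s⁻¹ * (j t * x)) ∂ν = ∫⁻ s, K (j s⁻¹ * x) ∂ν
    have m1 : Measurable fun s : T => K (j s⁻¹ * (j t * x)) := mp.comp (measurable_id.prodMk measurable_const)
    rw [← (hG.lT t).lintegral_comp m1]
    refine lintegral_congr fun s => ?_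
    rw [mul_inv_rev, map_mul, map_inv j t, mul_assoc, inv_mul_cancel_left]
  have g1 : ∀ {φ : G → ℝ≥0∞}, Measurable φ → (∀ t x, φ (j t * x) = φ x) → ν D * ∫⁻ z, K z * φ z ∂μ = ∫⁻ y in F_U, φ y * SK y ∂μ := by
    intro φ mφ uφ
    have h1 := avu_gen hA hS.sfD hsf mφ mK (fun γ _ x => by rw [act, uφ])
    have h2 : ∀ t, ∫⁻ x, K x * φ (j t * x) ∂μ = ∫⁻ z, K z * φ z ∂μ := fun t => lintegral_congr fun x => by rw [uφ]
    rw [lintegral_congr h2, lintegral_const, Measure.restrict_apply_univ, mul_comm] at h1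
    rw [h1, hSK]
  have e1 := g1 mΦ uΦ
  have e2 := g1 mSK uSK
  have e3 : ∫⁻ z, K z * SK z ∂μ = ∫⁻ t, ∫⁻ z, K z * K (j t * z) ∂μ ∂ν := by
    have m2 : Measurable fun p : G × T => K p.1 * K (j p.2 * p.1) :=
      (mK.comp measurable_fst).mul (mK.comp (hG.mj.comp (measurable_snd.prodMk measurable_fst)))
    rw [← lintegral_lintegral_swap m2.aemeasurable]
    refine lintegral_congr fun z => ?_
    have m3 : Measurable fun t : T => K (j t * z) := mK.comp (hG.mj.comp (measurable_id.prodMk measurable_const))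
    rw [lintegral_const_mul _ m3, ← hG.iT.lintegral_comp m3, hSK]
  have key := b5_csq (μ.restrict F_U) mΦ mSK
  have e7 : ∫⁻ y in F_U, SK y ^ 2 ∂μ = ν D * ∫⁻ t, ∫⁻ z, K z * K (j t * z) ∂μ ∂ν := by
    rw [← e3, e2]
    refine lintegral_congr fun y => ?_
    rw [sq]
  rw [← e1, e7] at key
  have h3 : ν D * (ν D * (∫⁻ z, K z * Φ z ∂μ) ^ 2) ≤ ν D * ((∫⁻ t, ∫⁻ z, K z * K (j t * z) ∂μ ∂ν) * ∫⁻ x in F_U, Φ x ^ 2 ∂μ) := by
    calc ν D * (ν D * (∫⁻ z, K z * Φ z ∂μ) ^ 2) = (ν D * ∫⁻ z, K z * Φ z ∂μ) ^ 2 := by ring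
      _ ≤ (∫⁻ x in F_U, Φ x ^ 2 ∂μ) * (ν D * ∫⁻ t, ∫⁻ z, K z * K (j t * z) ∂μ ∂ν) := key
      _ = _ := by ring
  exact (ENNReal.mul_le_mul_iff_right hS.pD hS.fD).1 h3

/-! ## The iterated convolution -/

/-- The data of the convolution operator with the complex measure `w τ`: `τ` is concentrated on the compact set `Kt`, `Λ` bounds the norm on `L²(G)`. -/
structure CvD {G : Type} [Group G] [TopologicalSpace G] [MeasurableSpace G] (μ τ : Measure G) (w : G → ℂ) (Kt : Set G) (Λ : ℝ) : Prop where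
  fin : IsFiniteMeasure τ
  mw : Measurable w
  bw : ∃ B : ℝ, ∀ y, ‖w y‖ ≤ B
  cK : IsCompact Kt
  tK : τ Ktᶜ = 0
  op : OpB μ τ w Λ

section iter

variable {G : Type} [Group G] [MeasurableSpace G] {τ : Measure G} {w : G → ℂ}

theorem pc_it_meas [IsFiniteMeasure τ] (mmul : Measurable fun p : G × G => p.1 * p.2) (mw : Measurable w) {V : G → ℂ} (mV : Measurable V) (n : ℕ) : Measurable ((Cv τ w)^[n] V) := by
  induction n with
  | zero => exact mV
  | succ n ih =>
    rw [Function.iterate_succ_apply']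
    exact pb_cvm mmul mw ih

theorem pc_it_bdd [IsFiniteMeasure τ] {Bw : ℝ} (bw : ∀ y, ‖w y‖ ≤ Bw) {V : G → ℂ} (bV : ∃ B : ℝ, ∀ x, ‖V x‖ ≤ B) (n : ℕ) : ∃ B : ℝ, ∀ x, ‖(Cv τ w)^[n] V x‖ ≤ B := by
  induction n with
  | zero => exact bV
  | succ n ih =>
    obtain ⟨B, hB⟩ := ih
    refine ⟨B * Bw * (τ Set.univ).toReal, fun x => ?_⟩
    rw [Function.iterate_succ_apply']
    exact pb_cvb bw hB x

theorem pc_it_eq {T : Type} {tr : T → G} {ψ : T → ℂ} {V : G → ℂ} (hV : ∀ t x, V (tr t * x) = ψ t * V x) (n : ℕ) : ∀ t x, (Cv τ w)^[n] V (tr t * x) = ψ t * (Cv τ w)^[n] V x := by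
  induction n with
  | zero => exact hV
  | succ n ih =>
    intro t x
    rw [Function.iterate_succ_apply']
    show ∫ y, (Cv τ w)^[n] V (tr t * x * y) * w y ∂τ = ψ t * ∫ y, (Cv τ w)^[n] V (x * y) * w y ∂τ
    rw [← integral_const_mul]
    refine integral_congr_ae (Filter.Eventually.of_forall fun y => ?_)
    show (Cv τ w)^[n] V (tr t * x * y) * w y = ψ t * ((Cv τ w)^[n] V (x * y) * w y)
    rw [mul_assoc (tr t), ih t (x * y), mul_assoc]

theorem pc_agree {Kt S : Set G} (hK : τ Ktᶜ = 0) {V W : G → ℂ} (h : ∀ z ∈ S, V z = W z) (n : ℕ) :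
    ∀ z, (∀ y ∈ Kt ^ n, z * y ∈ S) → (Cv τ w)^[n] V z = (Cv τ w)^[n] W z := by
  induction n with
  | zero =>
    intro z hz
    refine h z ?_
    have h1 := hz 1 (by rw [pow_zero]; exact Set.mem_one.2 rfl)
    rwa [mul_one] at h1
  | succ n ih =>
    intro z hz
    rw [Function.iterate_succ_apply', Function.iterate_succ_apply']
    refine integral_congr_ae ?_
    have h1 : ∀ᵐ y ∂τ, y ∈ Kt := by
      rw [ae_iff]
      exact hK
    filter_upwards [h1] with y hy
    rw [ih (z * y) fun y' hy' => by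
      rw [mul_assoc]
      exact hz _ (by rw [pow_succ']; exact Set.mul_mem_mul hy hy')]

theorem pc_lin {m : ℕ} {W : Fin m → G → ℂ} {kap : Fin m → ℂ} (hκ : ∀ l x, Cv τ w (W l) x = kap l * W l x) (hi : ∀ l x, Integrable (fun y => W l (x * y) * w y) τ) (c : Fin m → ℂ) (n : ℕ) :
    (Cv τ w)^[n] (fun z => ∑ l, c l * W l z) = fun z => ∑ l, c l * kap l ^ n * W l z := by
  induction n with
  | zero =>
    funext z
    show ∑ l, c l * W l z = ∑ l, c l * kap l ^ 0 * W l z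
    exact Finset.sum_congr rfl fun l _ => by rw [pow_zero, mul_one]
  | succ n ih =>
    rw [Function.iterate_succ_apply', ih]
    funext z
    show ∫ y, (∑ l, c l * kap l ^ n * W l (z * y)) * w y ∂τ = _
    have e1 : ∀ y, (∑ l, c l * kap l ^ n * W l (z * y)) * w y = ∑ l, c l * kap l ^ n * (W l (z * y) * w y) := fun y => by
      rw [Finset.sum_mul]
      exact Finset.sum_congr rfl fun l _ => by ring
    simp only [e1]
    rw [integral_finset_sum _ fun l _ => (hi l z).const_mul _]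
    refine Finset.sum_congr rfl fun l _ => ?_
    rw [integral_const_mul]
    have h1 : ∫ y, W l (z * y) * w y ∂τ = kap l * W l z := hκ l z
    rw [h1]
    ring

end iter

/-- The contraction, iterated. -/
theorem pc_it_contr {H G : Type} [Group H] [Countable H] [Group G] [MulAction H G] [MeasurableSpace G] [MeasurableConstSMul H G] {μ : Measure G} [SMulInvariantMeasure H G μ] [SigmaFinite μ]
    {Δ : Subgroup H} {F : Set G} (hm : ∀ (h : H) (x y : G), (h • x) * y = h • (x * y)) (mmul : Measurable fun p : G × G => p.1 * p.2) (hF : SF Δ F) (hfol : Fol Δ) {τ : Measure G} [IsFiniteMeasure τ]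
    {w : G → ℂ} (mw : Measurable w) {Bw : ℝ} (bw : ∀ y, ‖w y‖ ≤ Bw) {Λ : ℝ} (hop : OpB μ τ w Λ) {V : G → ℂ} (mV : Measurable V) (iV : ∀ u ∈ Δ, ∀ x, V (u • x) = V x)
    (bV : ∃ B : ℝ, ∀ x, ‖V x‖ ≤ B) (hV : ∫⁻ x in F, ‖V x‖ₑ ^ 2 ∂μ ≠ ⊤) (n : ℕ) :
    ∫⁻ x in F, ‖(Cv τ w)^[n] V x‖ₑ ^ 2 ∂μ ≤ ENNReal.ofReal (Λ ^ 2) ^ n * ∫⁻ x in F, ‖V x‖ₑ ^ 2 ∂μ := by
  have iC : ∀ n, ∀ u ∈ Δ, ∀ x, (Cv τ w)^[n] V (u • x) = (Cv τ w)^[n] V x := by
    intro n
    induction n with
    | zero => exact iV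
    | succ n ih =>
      intro u hu x
      rw [Function.iterate_succ_apply']
      show ∫ y, (Cv τ w)^[n] V (u • x * y) * w y ∂τ = ∫ y, (Cv τ w)^[n] V (x * y) * w y ∂τ
      refine integral_congr_ae (Filter.Eventually.of_forall fun y => ?_)
      show (Cv τ w)^[n] V (u • x * y) * w y = (Cv τ w)^[n] V (x * y) * w y
      rw [hm, ih u hu]
  induction n with
  | zero =>
    rw [pow_zero, one_mul]
    exact le_rfl
  | succ n ih =>
    have fin : ∫⁻ x in F, ‖(Cv τ w)^[n] V x‖ₑ ^ 2 ∂μ ≠ ⊤ := ne_top_of_le_ne_top (ENNReal.mul_ne_top (ENNReal.pow_ne_top ENNReal.ofReal_ne_top) hV) ih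
    obtain ⟨B, hB⟩ := pc_it_bdd (τ := τ) bw bV n
    have h1 := pb_contr hm mmul hF hfol mw bw hop (pc_it_meas mmul mw mV n) (iC n) hB fin
    rw [Function.iterate_succ_apply']
    refine h1.trans ((mul_le_mul_right ih _).trans (le_of_eq ?_))
    rw [pow_succ' (ENNReal.ofReal (Λ ^ 2)) n, mul_assoc]

/-- The mean commutes with the convolution. -/
theorem pc_conv {H G T : Type} [Group H] [Group G] [Group T] [TopologicalSpace G] [MeasurableSpace G] [MeasurableSpace T] [MulAction H G] {HU : Subgroup H} [MulAction HU T]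
    {emb : H →* G} {j : T →* G} {k : HU →* T} {μ : Measure G} {ν : Measure T} {ψ : T → ℂ} [IsTopologicalGroup G] [BorelSpace G] [SecondCountableTopology G] [SFinite ν]
    (hG : GD emb j k μ ν ψ) {D : Set T} (fD : ν D ≠ ⊤) {τ : Measure G} {w : G → ℂ} {Kt : Set G} {Λ : ℝ} (hτ : CvD μ τ w Kt Λ) {F : G → ℂ} (mF : Measurable F)
    (bF : ∀ K : Set G, IsCompact K → ∃ B : ℝ, ∀ t, ∀ y ∈ K, ‖F (j t * y)‖ ≤ B) {kap : ℂ} (hl : ∀ x, Cv τ w F x = kap * F x) (x : G) :
    Cv τ w (Wm j ψ ν D F) x = kap * Wm j ψ ν D F x ∧ Integrable (fun y => Wm j ψ ν D F (x * y) * w y) τ := by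
  have ft := hτ.fin
  obtain ⟨Bw, hBw⟩ := hτ.bw
  have hxK : IsCompact ((fun y => x * y) '' Kt) := hτ.cK.image (continuous_const_mul x)
  obtain ⟨B, hB⟩ := bF _ hxK
  have haeK : ∀ᵐ y ∂τ, y ∈ Kt := by
    rw [ae_iff]
    exact hτ.tK
  have e1 : ∀ y, Wm j ψ ν D F (x * y) * w y = ((ν.real D)⁻¹ : ℝ) • ∫ t in D, star (ψ t) * F (j t * (x * y)) * w y ∂ν := by
    intro y
    rw [Wm, setAverage_eq, smul_mul_assoc, ← integral_mul_const]
  have e2 : kap * Wm j ψ ν D F x = ((ν.real D)⁻¹ : ℝ) • ∫ t in D, star (ψ t) * (kap * F (j t * x)) ∂ν := by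
    rw [Wm, setAverage_eq, mul_smul_comm, ← integral_const_mul]
    congr 1
    refine integral_congr_ae (Filter.Eventually.of_forall fun t => ?_)
    change kap * (star (ψ t) * F (j t * x)) = star (ψ t) * (kap * F (j t * x))
    ring
  have mJ : Measurable fun p : G × T => F (j p.2 * (x * p.1)) := by
    have h1 : Measurable fun p : G × T => ((p.2, x * p.1) : T × G) :=
      measurable_snd.prodMk ((measurable_const_mul x).comp measurable_fst)
    exact mF.comp (hG.mj.comp h1)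
  have mS : Measurable fun p : G × T => star (ψ p.2) :=
    (continuous_star.measurable).comp (hG.mψ.comp measurable_snd)
  have mAll : Measurable fun p : G × T => star (ψ p.2) * F (j p.2 * (x * p.1)) * w p.1 :=
    (mS.mul mJ).mul (hτ.mw.comp measurable_fst)
  have hfD : IsFiniteMeasure (ν.restrict D) := ⟨by rw [Measure.restrict_apply_univ]; exact fD.lt_top⟩
  have iAll : Integrable (fun p : G × T => star (ψ p.2) * F (j p.2 * (x * p.1)) * w p.1) (τ.prod (ν.restrict D)) := by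
    refine (integrable_const (|B| * |Bw|)).mono' mAll.aestronglyMeasurable ?_
    have h1 : ∀ᵐ p ∂(τ.prod (ν.restrict D)), p.1 ∈ Kt := Measure.quasiMeasurePreserving_fst.ae haeK
    filter_upwards [h1] with p hp
    have hp' : x * p.1 ∈ (fun y => x * y) '' Kt := ⟨p.1, hp, rfl⟩
    rw [norm_mul, norm_mul, norm_star, hG.nψ, one_mul]
    exact mul_le_mul ((hB p.2 _ hp').trans (le_abs_self B)) ((hBw _).trans (le_abs_self Bw)) (norm_nonneg _) (abs_nonneg _)
  refine ⟨?_, ?_⟩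
  · rw [e2]
    show ∫ y, Wm j ψ ν D F (x * y) * w y ∂τ = _
    simp only [e1]
    rw [integral_smul]
    congr 1
    rw [integral_integral_swap iAll]
    refine integral_congr_ae (Filter.Eventually.of_forall fun t => ?_)
    change ∫ y, star (ψ t) * F (j t * (x * y)) * w y ∂τ = star (ψ t) * (kap * F (j t * x))
    rw [← hl (j t * x), Cv, ← integral_const_mul]
    refine integral_congr_ae (Filter.Eventually.of_forall fun y => ?_)
    change star (ψ t) * F (j t * (x * y)) * w y = star (ψ t) * (F (j t * x * y) * w y)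
    rw [mul_assoc (j t) x y, mul_assoc]
  · have mW : Measurable fun y => Wm j ψ ν D F (x * y) := (wm_meas hG mF).comp (measurable_const_mul x)
    refine (integrable_const (|B| * |Bw|)).mono' (mW.mul hτ.mw).aestronglyMeasurable ?_
    filter_upwards [haeK] with y hy
    rw [norm_mul]
    refine mul_le_mul ?_ ((hBw _).trans (le_abs_self Bw)) (norm_nonneg _) (abs_nonneg _)
    exact wm_bdd hG (abs_nonneg B) fun t => (hB t _ ⟨y, hy, rfl⟩).trans (le_abs_self B)

end

end Pool.Agent.Lib.L8
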