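import Pool.Agent.Lib.L8.PD3
import Pool.Agent.Lib.L1S.QM1

/-!
# L8, module P4, file PD4 (helper29): the sets `U x (C Kt ^ m)`
-/

namespace Pool.Agent.Lib.L8

set_option linter.unusedSectionVars false

open MeasureTheory Matrix NumberField NumberField.InfinitePlace IsDedekindDomain Pool.Agent.Lib.H89N Pool.Agent.Lib.H33W Pool.Agent.Lib.L1S
open scoped Pointwise

noncomputable section

variable {ι M N : Type} [Fintype ι] [DecidableEq ι] [AddCommGroup M] [Module ℚ M] [AddCommGroup N] [Module ℚ N]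
  {P : RootPairing ι ℚ M N} [P.IsCrystallographic] [P.IsReduced] [P.IsIrreducible] [P.IsRootSystem] {b : P.Base} {L : Type} [Field L] [NumberField L]

/-- The compact set `Ω C ∪ (Ω C)⁻¹` of `GL(L ⊗ ℝ)`. -/
def Om3 (b : P.Base) (Ω : Set (GL (I b) (EE L))) (C : Set (GR b L)) : Set (GL (I b) (EE L)) :=
  {g | ∃ κ ∈ Ω, ∃ y ∈ C, g = κ * y.1 ∨ g = (κ * y.1)⁻¹}

theorem om3_compact {Ω : Set (GL (I b) (EE L))} (hΩ : IsCompact Ω) {C : Set (GR b L)} (hC : IsCompact C) : IsCompact (Om3 b Ω C) := by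
  have h1 : IsCompact (Ω ×ˢ C) := hΩ.prod hC
  have c1 : Continuous fun p : GL (I b) (EE L) × GR b L => p.1 * p.2.1 := continuous_fst.mul (continuous_subtype_val.comp continuous_snd)
  have h2 : IsCompact (((fun p : GL (I b) (EE L) × GR b L => p.1 * p.2.1) '' (Ω ×ˢ C)) ∪ ((fun p : GL (I b) (EE L) × GR b L => (p.1 * p.2.1)⁻¹) '' (Ω ×ˢ C))) :=
    (h1.image c1).union (h1.image c1.inv)
  have e : Om3 b Ω C = ((fun p : GL (I b) (EE L) × GR b L => p.1 * p.2.1) '' (Ω ×ˢ C)) ∪ ((fun p : GL (I b) (EE L) × GR b L => (p.1 * p.2.1)⁻¹) '' (Ω ×ˢ C)) := by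
    ext g
    constructor
    · rintro ⟨κ, hκ, y, hy, h | h⟩
      · exact Or.inl ⟨(κ, y), ⟨hκ, hy⟩, h.symm⟩
      · exact Or.inr ⟨(κ, y), ⟨hκ, hy⟩, h.symm⟩
    · rintro (⟨⟨κ, y⟩, ⟨hκ, hy⟩, h⟩ | ⟨⟨κ, y⟩, ⟨hκ, hy⟩, h⟩)
      · exact ⟨κ, hκ, y, hy, Or.inl h.symm⟩
      · exact ⟨κ, hκ, y, hy, Or.inr h.symm⟩
  rw [e]
  exact h2

/-- The torus element as a unit. -/
def dgU (b : P.Base) (a : ι → (EE L)ˣ) : GL (I b) (EE L) where
  val := dgz b a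
  inv := dgz b a⁻¹
  val_inv := by
    unfold dgz
    rw [Matrix.diagonal_mul_diagonal, ← Matrix.diagonal_one]
    congr 1
    funext r
    rcases r with k | β
    · simp
    · simp
  inv_val := by
    unfold dgz
    rw [Matrix.diagonal_mul_diagonal, ← Matrix.diagonal_one]
    congr 1
    funext r
    rcases r with k | β
    · simp
    · simp

variable (H : Subgroup (GK b L))

/-- `x ∈ U a Ω`, `a` any element of the torus. -/
def InRz (Ω : Set (GL (I b) (EE L))) (a : ι → (EE L)ˣ) (x : HRt H) : Prop :=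
  ∃ u : UHR H, ∃ ω ∈ Ω, x.1.1.1 = u.1.1.1.1 * dgz b a * ω.1

theorem pd_inRz {H : Subgroup (GK b L)} {Ω : Set (GL (I b) (EE L))} {A : M →ₗ[ℚ] ℝ} {x : HRt H} (h : InRangeH H Ω A x) : InRz H Ω (aA P L A) x := h

/-- The matrix of an element of `H(ℝ)`. -/
def matH : HRt H →* Matrix (I b) (I b) (EE L) := (Units.coeHom _).comp ((Subgroup.subtype _).comp (Subgroup.subtype _))

/-- The minors of the elements of `Kt` and of their inverses are bounded by `B`. -/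
def KB (B : b.support → InfinitePlace L → ℝ) (Kt : Set (HRt H)) : Prop :=
  ∀ g ∈ Kt, ∀ i w, CB (Phi b i).card w g.1.1.1 (B i w) ∧ CB (Phi b i).card w g⁻¹.1.1.1 (B i w)

theorem pd_kb {H : Subgroup (GK b L)} {B : b.support → InfinitePlace L → ℝ} (hB : ∀ i w, 0 ≤ B i w) {Kt : Set (HRt H)} (hK : KB H B Kt) {m : ℕ} {s : HRt H} (hs : s ∈ Kt ^ m) (i : b.support) (w : InfinitePlace L) :
    CB (Phi b i).card w s.1.1.1 (B i w ^ m) ∧ CB (Phi b i).card w s⁻¹.1.1.1 (B i w ^ m) := by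
  constructor
  · obtain ⟨f, rfl⟩ := Set.mem_pow.1 hs
    exact cb_pow (matH H) (hB i w) (S := Kt) (fun g hg => (hK g hg i w).1) m (fun i => (f i : HRt H)) fun i => (f i).2
  · have h1 : s⁻¹ ∈ (Kt⁻¹) ^ m := by
      rw [inv_pow, Set.inv_mem_inv]
      exact hs
    obtain ⟨f, hf⟩ := Set.mem_pow.1 h1
    rw [← hf]
    refine cb_pow (matH H) (hB i w) (S := Kt⁻¹) (fun g hg => ?_) m (fun i => (f i : HRt H)) fun i => (f i).2
    have h2 := (hK g⁻¹ hg i w).2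
    rw [inv_inv] at h2
    exact h2

/-- **The moved points.** -/
theorem pd_mv4 {H : Subgroup (GK b L)} {Ω : Set (GL (I b) (EE L))} {a : ι → (EE L)ˣ} {x : HRt H} (hx : InRz H Ω a x) {C Kt : Set (HRt H)} {B : b.support → InfinitePlace L → ℝ} (hB : ∀ i w, 0 ≤ B i w)
    (hK : KB H B Kt) {m : ℕ} {γ : HRt H} {t t' : UHR H} {y y' : HRt H} (hy : y ∈ C * Kt ^ m) (hy' : y' ∈ C * Kt ^ m) (h : γ * (t.1 * (x * y)) = t'.1 * (x * y')) :
    Mv4 b (Om3 b Ω (CG H C)) a (fun i w => B i w ^ (2 * m)) γ.1 := by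
  obtain ⟨u, ω, hω, hxu'⟩ := hx
  have hxu : x.1.1 = u.1.1.1 * dgU b a * ω := Units.ext hxu'
  obtain ⟨p, hp, s, hs, rfl⟩ := Set.mem_mul.1 hy
  obtain ⟨p', hp', s', hs', rfl⟩ := Set.mem_mul.1 hy'
  refine ⟨(t.1.1 * u.1.1)⁻¹, inv_mem (mul_mem t.2 u.2), t'.1.1 * u.1.1, mul_mem t'.2 u.2, ω * p'.1.1, ⟨ω, hω, p'.1, ⟨p', hp', rfl⟩, Or.inl rfl⟩,
    (ω * p.1.1)⁻¹, ⟨ω, hω, p.1, ⟨p, hp, rfl⟩, Or.inr rfl⟩, (s' * s⁻¹).1.1.1, fun i w => ?_, ?_⟩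
  · have e : (s' * s⁻¹).1.1.1 = s'.1.1.1 * s⁻¹.1.1.1 := rfl
    have e2 : B i w ^ (2 * m) = B i w ^ m * B i w ^ m := by rw [two_mul, pow_add]
    simp only [e, e2]
    exact (pd_kb hB hK hs' i w).1.mul (pd_kb hB hK hs i w).2 (pow_nonneg (hB i w) m)
  · have h1 : γ = t'.1 * (x * (p' * s')) * (t.1 * (x * (p * s)))⁻¹ := by
      rw [← h, mul_inv_cancel_right]
    have h2 : γ.1.1 = t'.1.1.1 * (x.1.1 * (p'.1.1 * s'.1.1)) * (t.1.1.1 * (x.1.1 * (p.1.1 * s.1.1)))⁻¹ := congrArg (fun w : HRt H => w.1.1) h1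
    have h3 : γ.1.1 = (t'.1.1.1 * u.1.1.1) * (dgU b a * ((ω * p'.1.1) * (s'.1.1 * s.1.1⁻¹) * (ω * p.1.1)⁻¹) * (dgU b a)⁻¹) * (t.1.1.1 * u.1.1.1)⁻¹ := by
      rw [h2, hxu]
      group
    exact congrArg Units.val h3

theorem pd_mv3 {H : Subgroup (GK b L)} {Ω : Set (GL (I b) (EE L))} {A : M →ₗ[ℚ] ℝ} {x : HRt H} (hx : InRangeH H Ω A x) {C Kt : Set (HRt H)} {B : b.support → InfinitePlace L → ℝ} (hB : ∀ i w, 0 ≤ B i w)
    (hK : KB H B Kt) {m : ℕ} {γ : HRt H} {t t' : UHR H} {y y' : HRt H} (hy : y ∈ C * Kt ^ m) (hy' : y' ∈ C * Kt ^ m) (h : γ * (t.1 * (x * y)) = t'.1 * (x * y')) :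
    Mv3 b (Om3 b Ω (CG H C)) A (fun i w => B i w ^ (2 * m)) γ.1 := by
  obtain ⟨u₁, h1, u₂, h2, ω₁, h3, ω₂, h4, Y, hY, e⟩ := pd_mv4 (pd_inRz hx) hB hK hy hy' h
  refine ⟨u₁, h1, u₂, h2, ω₁, h3, ω₂, h4, Y, hY, ?_⟩
  rw [pd_dg, pd_dg, pd_aA_neg]
  exact e

end

end Pool.Agent.Lib.L8
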