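import Pool.Agent.Lib.L8.PD4

/-!
# L8, module PE, file PE2 (helper29): the bound `P` for the points `x ∈ U a Ω`, `a` any element of the torus
-/

namespace Pool.Agent.Lib.L8

set_option linter.unusedSectionVars false

open MeasureTheory Matrix NumberField NumberField.InfinitePlace IsDedekindDomain Pool.Agent.Lib.H89N Pool.Agent.Lib.H33W Pool.Agent.Lib.L1S
open scoped ENNReal

noncomputable section

variable {ι M N : Type} [Fintype ι] [DecidableEq ι] [AddCommGroup M] [Module ℚ M] [AddCommGroup N] [Module ℚ N]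
  {P : RootPairing ι ℚ M N} [P.IsCrystallographic] [P.IsReduced] [P.IsIrreducible] [P.IsRootSystem] {b : P.Base} {L : Type} [Field L] [NumberField L] (H : Subgroup (GK b L))

/-- `qm_P` for the points `x ∈ U a Ω`. -/
theorem pz_P {ν : Measure (UHR H)} [ν.IsHaarMeasure] (hr : ∀ s : UHR H, MeasurePreserving (fun t : UHR H => t * s) ν ν) (hi : MeasurePreserving (fun t : UHR H => t⁻¹) ν ν)
    [MeasurableMul (UHR H)] {Ω : Set (GL (I b) (EE L))} {C : Set (HRt H)} {a : ι → (EE L)ˣ} {x : HRt H} (hx : InRz H Ω a x) (z : HRt H) :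
    ν {s : UHR H | ∃ y ∈ C, s.1⁻¹ * z = x * y} ≤ ν {u : UHR H | ∃ κ ∈ Om2 b Ω (CG H C), u.1.1.1.1 = dgz b a * κ.1 * dgz b a⁻¹} := by
  rcases Set.eq_empty_or_nonempty {s : UHR H | ∃ y ∈ C, s.1⁻¹ * z = x * y} with he | ⟨s₀, y₀, hy₀, h0⟩
  · rw [he, measure_empty]
    exact bot_le
  obtain ⟨u, ω, hω, hxu'⟩ := hx
  have hxu : x.1.1 = u.1.1.1 * dgU b a * ω := Units.ext hxu'
  have hmp : MeasurePreserving (fun s : UHR H => u⁻¹ * (s⁻¹ * (s₀ * u))) ν ν :=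
    (measurePreserving_mul_left ν u⁻¹).comp ((hr (s₀ * u)).comp hi)
  have hsub : {s : UHR H | ∃ y ∈ C, s.1⁻¹ * z = x * y} ⊆ (fun s : UHR H => u⁻¹ * (s⁻¹ * (s₀ * u))) ⁻¹'
      {u : UHR H | ∃ κ ∈ Om2 b Ω (CG H C), u.1.1.1.1 = dgz b a * κ.1 * dgz b a⁻¹} := by
    rintro s ⟨y, hy, h1⟩
    refine ⟨ω * y.1.1 * (ω * y₀.1.1)⁻¹, ⟨ω, hω, y.1, ⟨y, hy, rfl⟩, ω, hω, y₀.1, ⟨y₀, hy₀, rfl⟩, rfl⟩, ?_⟩
    have e1 : s.1.1.1⁻¹ * z.1.1 = x.1.1 * y.1.1 := congrArg (fun w : HRt H => w.1.1) h1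
    have e0 : s₀.1.1.1⁻¹ * z.1.1 = x.1.1 * y₀.1.1 := congrArg (fun w : HRt H => w.1.1) h0
    have e2 : s.1.1.1⁻¹ * s₀.1.1.1 = x.1.1 * y.1.1 * (x.1.1 * y₀.1.1)⁻¹ := by
      rw [← e1, ← e0]
      group
    have e3 : u.1.1.1⁻¹ * (s.1.1.1⁻¹ * (s₀.1.1.1 * u.1.1.1)) = dgU b a * (ω * y.1.1 * (ω * y₀.1.1)⁻¹) * (dgU b a)⁻¹ := by
      rw [← mul_assoc s.1.1.1⁻¹, e2, hxu]
      group
    have e4 := congrArg Units.val e3
    exact e4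
  calc ν {s : UHR H | ∃ y ∈ C, s.1⁻¹ * z = x * y} ≤ ν ((fun s : UHR H => u⁻¹ * (s⁻¹ * (s₀ * u))) ⁻¹'
      {u : UHR H | ∃ κ ∈ Om2 b Ω (CG H C), u.1.1.1.1 = dgz b a * κ.1 * dgz b a⁻¹}) := measure_mono hsub
    _ ≤ (ν.map (fun s : UHR H => u⁻¹ * (s⁻¹ * (s₀ * u))))
        {u : UHR H | ∃ κ ∈ Om2 b Ω (CG H C), u.1.1.1.1 = dgz b a * κ.1 * dgz b a⁻¹} :=
        Measure.le_map_apply hmp.measurable.aemeasurable _
    _ = _ := by rw [hmp.map_eq]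

end

end Pool.Agent.Lib.L8
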