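import Pool.Agent.Lib.L1S.RH0
import Pool.Agent.Lib.H89N.Inst

/-!
# L8, module PE, file PE4 (helper29): determinants over `ℝ`, over `L ⊗ ℝ` and over the `K`-form
-/

namespace Pool.Agent.Lib.L8

set_option linter.unusedSectionVars false

open MeasureTheory Matrix NumberField NumberField.InfinitePlace Pool.Agent.Lib.H89N Pool.Agent.Lib.L1S

noncomputable section

variable {L : Type} [Field L] [NumberField L]

/-- The norm of `L ⊗ ℝ` as a product over the real and over the complex places. -/
theorem pe4_norm (z : EE L) : mixedEmbedding.norm z = (∏ w : {w : InfinitePlace L // w.IsReal}, ‖z.1 w‖) * ∏ w : {w : InfinitePlace L // w.IsComplex}, ‖z.2 w‖ ^ 2 := by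
  classical
  rw [mixedEmbedding.norm_apply, ← Fintype.prod_subtype_mul_prod_subtype (fun w : InfinitePlace L => w.IsReal)]
  congr 1
  · refine Finset.prod_congr rfl fun w _ => ?_
    rw [mixedEmbedding.normAtPlace_apply_of_isReal w.2, mult, if_pos w.2, pow_one]
  · refine Fintype.prod_equiv (Equiv.subtypeEquivRight fun w => not_isReal_iff_isComplex) _ _ fun w => ?_
    have h : w.1.IsComplex := not_isReal_iff_isComplex.1 w.2
    rw [mixedEmbedding.normAtPlace_apply_of_isComplex h, mult, if_neg w.2]
    rfl

/-- The determinant of a multiplication. -/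
theorem pe4_mul (z : EE L) : |LinearMap.det (LinearMap.mulLeft ℝ z)| = mixedEmbedding.norm z := by
  have e1 : LinearMap.mulLeft ℝ z = LinearMap.prodMap (LinearMap.pi fun w => (LinearMap.mulLeft ℝ (z.1 w)) ∘ₗ LinearMap.proj w) (LinearMap.pi fun w => (LinearMap.mulLeft ℝ (z.2 w)) ∘ₗ LinearMap.proj w) := by
    ext x <;> simp
  rw [e1, LinearMap.det_prodMap, LinearMap.det_pi, LinearMap.det_pi, abs_mul, Finset.abs_prod, Finset.abs_prod, pe4_norm]
  congr 1
  · refine Finset.prod_congr rfl fun w _ => ?_
    have h : LinearMap.mulLeft ℝ (z.1 w) = (z.1 w) • (LinearMap.id : ℝ →ₗ[ℝ] ℝ) := by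
      ext
      simp
    rw [h, LinearMap.det_smul]
    simp
  · refine Finset.prod_congr rfl fun w _ => ?_
    have h : LinearMap.det (LinearMap.mulLeft ℝ (z.2 w)) = Algebra.norm ℝ (z.2 w) := rfl
    rw [h, Algebra.norm_complex_apply, Complex.normSq_eq_norm_sq, abs_of_nonneg (sq_nonneg _)]

variable {n : Type} [Fintype n] [DecidableEq n]

/-- The real linear map of a matrix over `L ⊗ ℝ`. -/
def LM (M : Matrix n n (EE L)) : (n → EE L) →ₗ[ℝ] (n → EE L) := (Matrix.mulVecLin M).restrictScalars ℝ

theorem lm_apply (M : Matrix n n (EE L)) (v : n → EE L) (i : n) : LM M v i = ∑ j, M i j * v j := rfl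

theorem lm_mul (M C : Matrix n n (EE L)) : LM (M * C) = LM M ∘ₗ LM C := by
  refine LinearMap.ext fun v => ?_
  show (M * C).mulVec v = M.mulVec (C.mulVec v)
  rw [Matrix.mulVec_mulVec]

theorem lm_one : LM (1 : Matrix n n (EE L)) = LinearMap.id := by
  refine LinearMap.ext fun v => ?_
  show (1 : Matrix n n (EE L)).mulVec v = v
  rw [Matrix.one_mulVec]

theorem lm_diag (a : n → EE L) : |LinearMap.det (LM (Matrix.diagonal a))| = ∏ i, mixedEmbedding.norm (a i) := by
  have e : LM (Matrix.diagonal a) = LinearMap.pi fun i => (LinearMap.mulLeft ℝ (a i)) ∘ₗ LinearMap.proj i := by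
    refine LinearMap.ext fun v => funext fun i => ?_
    show ((Matrix.diagonal a).mulVec v) i = a i * v i
    rw [Matrix.mulVec_diagonal]
  rw [e]
  have h := LinearMap.det_pi (R := ℝ) (M := EE L) (fun i => LinearMap.mulLeft ℝ (a i))
  rw [h, Finset.abs_prod]
  exact Finset.prod_congr rfl fun i _ => pe4_mul _

/-- Conjugate matrices. -/
theorem lm_conj {M C C' : Matrix n n (EE L)} {a : n → EE L} (h : M * C = C * Matrix.diagonal a) (hC : C * C' = 1) : |LinearMap.det (LM M)| = ∏ i, mixedEmbedding.norm (a i) := by
  have h1 : LinearMap.det (LM C) * LinearMap.det (LM C') = 1 := by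
    rw [← LinearMap.det_comp, ← lm_mul, hC, lm_one, LinearMap.det_id]
  have h2 : LinearMap.det (LM M) * LinearMap.det (LM C) = LinearMap.det (LM C) * LinearMap.det (LM (Matrix.diagonal a)) := by
    rw [← LinearMap.det_comp, ← LinearMap.det_comp, ← lm_mul, ← lm_mul, h]
  have h3 : LinearMap.det (LM C) ≠ 0 := left_ne_zero_of_mul_eq_one h1
  have h4 : LinearMap.det (LM M) = LinearMap.det (LM (Matrix.diagonal a)) := by
    rw [mul_comm] at h2
    exact mul_left_cancel₀ h3 h2
  rw [h4, lm_diag]

variable {K : Type} [Field K] [NumberField K] [Algebra K L]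

theorem pe4_finrank_KR : Module.finrank ℝ (KR K L) ≤ Module.finrank ℚ K := by
  classical
  let ω := Module.finBasis ℚ K
  have h1 : KR K L = Submodule.span ℝ (Set.range fun i => (mixedEmbedding L (algebraMap K L (ω i)) : EE L)) := by
    refine le_antisymm ?_ ?_
    · unfold KR
      rw [Submodule.span_le]
      rintro _ ⟨t, rfl⟩
      have h2 : (mixedEmbedding L (algebraMap K L t) : EE L) = ∑ i, ((ω.repr t i : ℚ) : ℝ) • (mixedEmbedding L (algebraMap K L (ω i)) : EE L) := by
        conv_lhs => rw [← ω.sum_repr t]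
        rw [map_sum, map_sum]
        refine Finset.sum_congr rfl fun i _ => ?_
        rw [Rat.cast_smul_eq_qsmul, map_rat_smul (algebraMap K L), map_rat_smul (mixedEmbedding L)]
      show (mixedEmbedding L (algebraMap K L t) : EE L) ∈ _
      rw [h2]
      exact Submodule.sum_mem _ fun i _ => Submodule.smul_mem _ _ (Submodule.subset_span ⟨i, rfl⟩)
    · rw [Submodule.span_le]
      rintro _ ⟨i, rfl⟩
      exact Submodule.subset_span ⟨ω i, rfl⟩
  rw [h1]
  refine (finrank_range_le_card (R := ℝ) (fun i => (mixedEmbedding L (algebraMap K L (ω i)) : EE L))).trans (le_of_eq ?_)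
  rw [Fintype.card_fin]

theorem pe4_span : Submodule.span ℝ (Set.range (mixedEmbedding L : L → EE L)) = ⊤ := by
  rw [eq_top_iff, ← (mixedEmbedding.latticeBasis L).span_eq, Submodule.span_le]
  rintro _ ⟨i, rfl⟩
  refine Submodule.subset_span ⟨integralBasis L i, ?_⟩
  rw [mixedEmbedding.latticeBasis_apply]

/-- `L ⊗ ℝ` is `[L : K]` copies of the `K`-form. -/
theorem pe4_det {M : Matrix n n (EE L)} {T : (n → KR K L) →ₗ[ℝ] (n → KR K L)} (hT : ∀ v i, ((T v i : KR K L) : EE L) = ∑ j, M i j * (v j : EE L)) :
    LinearMap.det (LM M) = LinearMap.det T ^ Module.finrank K L := by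
  classical
  have : FiniteDimensional K L := Module.Finite.of_restrictScalars_finite ℚ K L
  let ω := Module.finBasis K L
  let Θ : (Fin (Module.finrank K L) → (n → KR K L)) →ₗ[ℝ] (n → EE L) :=
    { toFun := fun v i => ∑ j, mixedEmbedding L (ω j) * (v j i : EE L)
      map_add' := fun v v' => funext fun i => by
        simp only [Pi.add_apply, Submodule.coe_add, mul_add, Finset.sum_add_distrib]
      map_smul' := fun r v => funext fun i => by
        simp only [Pi.smul_apply, Submodule.coe_smul, mul_smul_comm, RingHom.id_apply, Finset.smul_sum] }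
  have hΘ : ∀ v i, Θ v i = ∑ j, mixedEmbedding L (ω j) * (v j i : EE L) := fun _ _ => rfl
  have hsurj : Function.Surjective Θ := by
    rw [← LinearMap.range_eq_top, eq_top_iff]
    intro y _
    have h1 : ∀ (i : n) (x : EE L), Pi.single i x ∈ LinearMap.range Θ := by
      intro i x
      have h2 : x ∈ Submodule.span ℝ (Set.range (mixedEmbedding L : L → EE L)) := by
        rw [pe4_span]
        exact Submodule.mem_top
      induction h2 using Submodule.span_induction with
      | mem x hx =>
        obtain ⟨t, rfl⟩ := hx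
        refine ⟨fun j => Pi.single i (kr K L (ω.repr t j)), ?_⟩
        funext i'
        rw [hΘ]
        by_cases hi : i' = i
        · subst hi
          rw [Pi.single_eq_same]
          conv_rhs => rw [← ω.sum_repr t, map_sum]
          refine Finset.sum_congr rfl fun j _ => ?_
          rw [Pi.single_eq_same, Algebra.smul_def, map_mul, mul_comm]
          rfl
        · rw [Pi.single_eq_of_ne hi]
          refine Finset.sum_eq_zero fun j _ => ?_
          rw [Pi.single_eq_of_ne hi, Submodule.coe_zero, mul_zero]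
      | zero =>
        rw [Pi.single_zero]
        exact Submodule.zero_mem _
      | add x y _ _ hx hy =>
        rw [Pi.single_add]
        exact Submodule.add_mem _ hx hy
      | smul r x _ hx =>
        rw [Pi.single_smul]
        exact Submodule.smul_mem _ _ hx
    have h3 : y = ∑ i, Pi.single i (y i) := (Finset.univ_sum_single y).symm
    rw [h3]
    exact Submodule.sum_mem _ fun i _ => h1 i _
  have hfin : Module.finrank ℝ (Fin (Module.finrank K L) → (n → KR K L)) = Module.finrank ℝ (n → EE L) := by
    have h1 : Module.finrank ℝ (n → EE L) ≤ Module.finrank ℝ (Fin (Module.finrank K L) → (n → KR K L)) := LinearMap.finrank_le_finrank_of_surjective hsurj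
    refine le_antisymm ?_ h1
    rw [Module.finrank_pi_fintype, Module.finrank_pi_fintype]
    simp only [Module.finrank_pi_fintype, Finset.sum_const, Finset.card_univ, Fintype.card_fin, smul_eq_mul]
    rw [mixedEmbedding.finrank, ← Module.finrank_mul_finrank ℚ K L]
    calc Module.finrank K L * (Fintype.card n * Module.finrank ℝ (KR K L)) ≤ Module.finrank K L * (Fintype.card n * Module.finrank ℚ K) :=
          Nat.mul_le_mul_left _ (Nat.mul_le_mul_left _ pe4_finrank_KR)
      _ = _ := by ring
  have hinj : Function.Injective Θ := (LinearMap.injective_iff_surjective_of_finrank_eq_finrank hfin).2 hsurj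
  let e := LinearEquiv.ofBijective Θ ⟨hinj, hsurj⟩
  have he : ∀ v, e v = Θ v := fun _ => rfl
  have h1 : LM M = e.toLinearMap ∘ₗ (LinearMap.pi fun j => T ∘ₗ LinearMap.proj j) ∘ₗ e.symm.toLinearMap := by
    refine LinearMap.ext fun y => ?_
    obtain ⟨v, rfl⟩ := e.surjective y
    show LM M (e v) = e ((LinearMap.pi fun j => T ∘ₗ LinearMap.proj j) (e.symm (e v)))
    rw [e.symm_apply_apply, he, he]
    funext i
    rw [lm_apply, hΘ]
    have h2 : ∀ j, Θ v j = ∑ l, mixedEmbedding L (ω l) * (v l j : EE L) := fun _ => rfl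
    simp only [h2, Finset.mul_sum]
    rw [Finset.sum_comm]
    refine Finset.sum_congr rfl fun l _ => ?_
    show _ = mixedEmbedding L (ω l) * ((T (v l) i : KR K L) : EE L)
    rw [hT, Finset.mul_sum]
    refine Finset.sum_congr rfl fun j _ => ?_
    ring
  rw [h1, LinearMap.det_conj]
  have h := LinearMap.det_pi (R := ℝ) (M := n → KR K L) (fun _ : Fin (Module.finrank K L) => T)
  rw [h, Finset.prod_const, Finset.card_univ, Fintype.card_fin]

/-- **The determinant on the `K`-form.** -/
theorem pe_det {M C C' : Matrix n n (EE L)} {a : n → EE L} (h : M * C = C * Matrix.diagonal a) (hC : C * C' = 1) {T : (n → KR K L) →ₗ[ℝ] (n → KR K L)}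
    (hT : ∀ v i, ((T v i : KR K L) : EE L) = ∑ j, M i j * (v j : EE L)) : |LinearMap.det T| ^ Module.finrank K L = ∏ i, mixedEmbedding.norm (a i) := by
  rw [← abs_pow, ← pe4_det hT, lm_conj h hC]

end

end Pool.Agent.Lib.L8
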