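import Pool.Agent.Lib.L8.PE1
import Pool.Agent.Lib.L8.PE4
import Pool.Agent.Lib.L1S.LI10
import Pool.Agent.Lib.L1S.TH1

/-!
# L8, module PE, file PE5 (helper29): the torus on the degree `k` part of the `K`-form
-/

namespace Pool.Agent.Lib.L8

set_option linter.unusedSectionVars false

open MeasureTheory Matrix NumberField NumberField.InfinitePlace IsDedekindDomain Pool.Agent.Lib.H89N Pool.Agent.Lib.H33W Pool.Agent.Lib.L1S

noncomputable section

variable {ι M N : Type} [Fintype ι] [DecidableEq ι] [AddCommGroup M] [Module ℚ M] [AddCommGroup N] [Module ℚ N]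
  {P : RootPairing ι ℚ M N} [P.IsCrystallographic] [P.IsReduced] [P.IsIrreducible] [P.IsRootSystem] {b : P.Base}
  {K L : Type} [Field K] [NumberField K] [Field L] [NumberField L] [Algebra K L] {Q : QS b K L} [IsGalois K L] (J : LID Q)

/-- The functional `F_β` over `L ⊗ ℝ`. -/
def FE (β : ι) : Matrix (I b) (I b) (EE L) := (J.F β).map (mixedEmbedding L)

/-- The vector `Y_β` over `L ⊗ ℝ`. -/
def YM (β : ι) : Matrix (I b) (I b) (EE L) := (J.Y β).map (mixedEmbedding L)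

theorem pe5_FY (β γ : ι) : fcM (FE J β) (YM J γ) = if β = γ then 1 else 0 := by
  unfold FE YM
  rw [fcM_map, J.FY]
  split_ifs
  · rw [map_one]
  · rw [map_zero]

theorem pe5_posk {k : ℕ} {β : ι} (h : β ∈ Posk b k) : b.height β = k := (Finset.mem_filter.1 h).2.2

/-- The entries of `Y_β` raise the height by the height of `β`. -/
theorem pe5_Yht (β : ι) (r c : I b) (h : J.Y β r c ≠ 0) : ht b r = ht b c + b.height β := by
  obtain ⟨s, hs⟩ := J.Yw β r c h
  have h1 := li7_ht hs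
  rwa [(Q.da s).height] at h1

theorem pe5_Fht (β : ι) (r c : I b) (h : J.F β r c ≠ 0) : ht b r = ht b c + b.height β := by
  obtain ⟨s, hs⟩ := J.Fw β r c h
  have h1 := li7_ht hs
  rwa [(Q.da s).height] at h1

/-- Only the part of degree `k` counts. -/
theorem pe5_F_dgk {k : ℕ} {β : ι} (hβ : β ∈ Posk b k) (X : Matrix (I b) (I b) (EE L)) : fcM (FE J β) (dgk b k X) = fcM (FE J β) X := by
  unfold fcM
  refine Finset.sum_congr rfl fun r _ => Finset.sum_congr rfl fun c _ => ?_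
  unfold dgk
  rw [Matrix.of_apply]
  split_ifs with h2
  · rfl
  · have h3 : J.F β r c = 0 := by
      by_contra h4
      have h5 := pe5_Fht J β r c h4
      rw [pe5_posk hβ] at h5
      exact h2 h5
    have h4 : FE J β r c = 0 := by
      unfold FE
      rw [Matrix.map_apply, h3, map_zero]
    rw [h4, zero_mul, zero_mul]

/-- `dgk (a X a⁻¹) = a (dgk X) a⁻¹`. -/
theorem pe5_conj_dgk (a : ι → (EE L)ˣ) (k : ℕ) (X : Matrix (I b) (I b) (EE L)) : dgk b k (dgz b a * X * dgz b a⁻¹) = dgz b a * dgk b k X * dgz b a⁻¹ := by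
  ext1 r c
  rw [pe_conj_entry]
  unfold dgk
  rw [Matrix.of_apply, Matrix.of_apply, pe_conj_entry]
  split_ifs
  · rfl
  · rw [mul_zero, zero_mul]

theorem pe5_sum {k : ℕ} (hk : 1 ≤ k) {S : Type} [AddCommMonoid S] (f : ι → S) : ∑ β with b.height β = (k : ℤ), f β = ∑ β : {β // β ∈ Posk b k}, f β.1 := by
  rw [li10_Posk b hk, ← Finset.sum_coe_sort (Posk b k)]

/-- `E_β` in the basis `Y`. -/
theorem pe5_EY {k : ℕ} (hk : 1 ≤ k) {δ : ι} (hδ : δ ∈ Posk b k) {A : Type} [CommRing A] (φ : L →+* A) :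
    toA A (E b δ) = ∑ γ : {γ // γ ∈ Posk b k}, fcM ((J.F γ.1).map φ) (toA A (E b δ)) • (J.Y γ.1).map φ := by
  classical
  have h0 : hcp b (k : ℤ) (toA A (E b δ)) = toA A (E b δ) := by
    ext1 r c
    unfold hcp
    rw [Matrix.of_apply]
    split_ifs with h
    · rfl
    · by_contra h1
      have h2 := HasWt.ht b (HasWt.toA (hasWt_E b δ)) r c (fun h3 => h1 h3.symm)
      rw [pe5_posk hδ] at h2
      exact h h2
  have h1 : hcp b (k : ℤ) (toA A (E b δ)) = ∑ β with b.height β = (k : ℤ), (if β = δ then (1 : A) else 0) • toA A (E b β) := by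
    rw [h0, Finset.sum_eq_single δ]
    · rw [if_pos rfl, one_smul]
    · intro γ _ hγ
      rw [if_neg hγ, zero_smul]
    · intro h
      exact absurd (Finset.mem_filter.2 ⟨Finset.mem_univ δ, pe5_posk hδ⟩ : δ ∈ Finset.univ.filter fun β => b.height β = (k : ℤ)) h
  have h2 := li7_lead Q.da φ J.Fw J.FY J.EY h1
  rw [h0] at h2
  conv_lhs => rw [h2]
  rw [pe5_sum hk]

/-- `Y_β` in the basis `E`. -/
theorem pe5_YE {k : ℕ} (hk : 1 ≤ k) {δ : ι} (hδ : δ ∈ Posk b k) : J.Y δ = ∑ γ : {γ // γ ∈ Posk b k}, cf b γ.1 (J.Y δ) • toA L (E b γ.1) := by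
  have h1 := gR_ht b (J.mem δ) (k : ℤ) (by omega) (fun r c h => by rw [pe5_Yht J δ r c h, pe5_posk hδ])
  conv_lhs => rw [h1]
  rw [pe5_sum hk]

/-- The matrix of the change of the basis, over `L`. -/
def CL (k : ℕ) : Matrix {γ // γ ∈ Posk b k} {γ // γ ∈ Posk b k} L := Matrix.of fun γ δ => fcM (J.F γ.1) (toA L (E b δ.1))

/-- The inverse matrix. -/
def CL' (k : ℕ) : Matrix {γ // γ ∈ Posk b k} {γ // γ ∈ Posk b k} L := Matrix.of fun γ δ => cf b γ.1 (J.Y δ.1)

theorem pe5_CC {k : ℕ} (hk : 1 ≤ k) : CL J k * CL' J k = 1 := by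
  ext β δ
  rw [Matrix.mul_apply]
  have h1 : fcM (J.F β.1) (J.Y δ.1) = ∑ γ : {γ // γ ∈ Posk b k}, fcM (J.F β.1) (toA L (E b γ.1)) * cf b γ.1 (J.Y δ.1) := by
    conv_lhs => rw [pe5_YE J hk δ.2]
    rw [fcM_sum]
    refine Finset.sum_congr rfl fun γ _ => ?_
    rw [fcM_smul, mul_comm]
  have h2 : ∑ γ, CL J k β γ * CL' J k γ δ = fcM (J.F β.1) (J.Y δ.1) := h1.symm
  rw [h2, J.FY, Matrix.one_apply]
  by_cases h : β = δ
  · rw [if_pos h, if_pos (congrArg Subtype.val h)]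
  · rw [if_neg h, if_neg fun h' => h (Subtype.ext h')]

/-- The matrix of `t` on the degree `k` part, in the basis `Y`. -/
def Mk (k : ℕ) (a : ι → (EE L)ˣ) : Matrix {γ // γ ∈ Posk b k} {γ // γ ∈ Posk b k} (EE L) := Matrix.of fun β γ => fcM (FE J β.1) (dgz b a * YM J γ.1 * dgz b a⁻¹)

theorem pe5_toA {A B : Type} [CommRing A] [CommRing B] (φ : A →+* B) (X : Matrix (I b) (I b) ℤ) : (toA A X).map φ = toA B X := by
  ext r c
  show φ ((X r c : ℤ) : A) = ((X r c : ℤ) : B)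
  rw [map_intCast]

theorem pe5_MC {k : ℕ} (hk : 1 ≤ k) {g : GR b L} {a : ι → (EE L)ˣ} (h : g.1.1 = dgz b a) :
    Mk J k a * (CL J k).map (mixedEmbedding L) = (CL J k).map (mixedEmbedding L) * Matrix.diagonal fun β : {γ // γ ∈ Posk b k} => (a β.1 : EE L) := by
  ext1 β δ
  rw [Matrix.mul_diagonal, Matrix.mul_apply]
  have hC : ∀ γ : {γ // γ ∈ Posk b k}, (CL J k).map (mixedEmbedding L) γ δ = fcM (FE J γ.1) (toA (EE L) (E b δ.1)) := by
    intro γ
    rw [Matrix.map_apply]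
    unfold CL FE
    rw [Matrix.of_apply, ← fcM_map, pe5_toA]
  have h1 : fcM (FE J β.1) (dgz b a * toA (EE L) (E b δ.1) * dgz b a⁻¹) = ∑ γ : {γ // γ ∈ Posk b k}, Mk J k a β γ * (CL J k).map (mixedEmbedding L) γ δ := by
    conv_lhs => rw [pe5_EY J hk δ.2 (mixedEmbedding L)]
    rw [Finset.mul_sum, Finset.sum_mul, fcM_sum]
    refine Finset.sum_congr rfl fun γ _ => ?_
    rw [Matrix.mul_smul, Matrix.smul_mul, fcM_smul, hC, mul_comm]
    rfl
  rw [← h1, pe_conj_E h, fcM_smul, hC, mul_comm]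

/-- **The determinant of `t` on the degree `k` part of the `K`-form.** -/
theorem pe5_det {k : ℕ} (hk : 1 ≤ k) {g : GR b L} {a : ι → (EE L)ˣ} (h : g.1.1 = dgz b a) {T : ({γ // γ ∈ Posk b k} → KR K L) →ₗ[ℝ] ({γ // γ ∈ Posk b k} → KR K L)}
    (hT : ∀ v β, ((T v β : KR K L) : EE L) = ∑ γ, Mk J k a β γ * (v γ : EE L)) : |LinearMap.det T| ^ Module.finrank K L = ∏ β ∈ Posk b k, mixedEmbedding.norm (a β : EE L) := by
  have hCC : (CL J k).map (mixedEmbedding L) * (CL' J k).map (mixedEmbedding L) = 1 := by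
    have h1 : (CL J k * CL' J k).map (mixedEmbedding L) = (1 : Matrix {γ // γ ∈ Posk b k} {γ // γ ∈ Posk b k} L).map (mixedEmbedding L) := by rw [pe5_CC J hk]
    rw [Matrix.map_mul, Matrix.map_one _ (map_zero _) (map_one _)] at h1
    exact h1
  rw [pe_det (pe5_MC J hk h) hCC hT, ← Finset.prod_coe_sort (Posk b k)]

end

end Pool.Agent.Lib.L8
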