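import Pool.Agent.Lib.L8.PD4

/-!
# L8, conductor aspect, file PF1 (helper29): the dichotomy for bounded minors
-/

namespace Pool.Agent.Lib.L8

set_option linter.unusedSectionVars false

open MeasureTheory Matrix NumberField NumberField.InfinitePlace IsDedekindDomain Pool.Agent.Lib.H89N Pool.Agent.Lib.H33W Pool.Agent.Lib.L1S

noncomputable section

variable {ι M N : Type} [Fintype ι] [DecidableEq ι] [AddCommGroup M] [Module ℚ M] [AddCommGroup N] [Module ℚ N]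
  {P : RootPairing ι ℚ M N} [P.IsCrystallographic] [P.IsReduced] [P.IsIrreducible] [P.IsRootSystem]

/-- `γ = u' a κ a⁻¹ u`, the minors of `κ` (rows `w Φ_i`, columns `Φ_i`) at the place `w'` at most `c X i w'`. -/
def Mv5 (b : P.Base) {L : Type} [Field L] [NumberField L] (c : ℝ) (a : ι → (EE L)ˣ) (X : b.support → InfinitePlace L → ℝ) (γ : GR b L) : Prop :=
  ∃ u ∈ UR b L, ∃ u' ∈ UR b L, ∃ κ : Matrix (I b) (I b) (EE L), (∀ (i j : b.support) (w : Equiv.Perm ι), OppW b i j w → ∀ w', mixedEmbedding.normAtPlace w' (Dm b i w κ) ≤ c * X i w') ∧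
    γ.1.1 = u'.1.1 * (dgz b a * κ * dgz b a⁻¹) * u.1.1

/-- The minors of `ω₁ Y ω₂`. -/
theorem Mv4.mv5 (b : P.Base) (L : Type) [Field L] [NumberField L] {Ω : Set (GL (I b) (EE L))} (hΩ : IsCompact Ω) :
    ∃ c : ℝ, 0 ≤ c ∧ ∀ (a : ι → (EE L)ˣ) (X : b.support → InfinitePlace L → ℝ), (∀ i w, 0 ≤ X i w) → ∀ γ : GR b L, Mv4 b Ω a X γ → Mv5 b c a X γ := by
  have h1 : ∀ i : b.support, ∃ C : ℝ, 1 ≤ C ∧ ∀ s ∈ Ω, ∀ w : InfinitePlace L, CB (Phi b i).card w s.1 C := fun i =>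
    cb_compact (L := L) (Phi b i).card hΩ (F := fun s : GL (I b) (EE L) => s.1) Units.continuous_val
  choose C hC1 hC using h1
  have hB0 : ∀ i, 0 ≤ ((Phi b i).card.factorial : ℝ) * (C i * C i) := fun i => mul_nonneg (Nat.cast_nonneg _) (mul_self_nonneg _)
  refine ⟨∑ i, ((Phi b i).card.factorial : ℝ) * (C i * C i), Finset.sum_nonneg fun i _ => hB0 i, fun a X hX γ hγ => ?_⟩
  obtain ⟨u, hu, u', hu', ω₁, h1, ω₂, h2, Y, hY, e3⟩ := hγ
  refine ⟨u, hu, u', hu', ω₁.1 * Y * ω₂.1, fun i j w hw w' => ?_, e3⟩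
  have h4 : CB (Fintype.card (Phi b i)) w' (ω₁.1 * Y * ω₂.1) (C i * X i w' * C i) := by
    rw [Fintype.card_coe]
    exact ((hC i ω₁ h1 w').mul (hY i w') (hX i w')).mul (hC i ω₂ h2 w') (zero_le_one.trans (hC1 i))
  have h5 := h4.minor' (fun β : Phi b i => Sum.inr (w β.1)) (fun β : Phi b i => Sum.inr β.1)
  rw [Fintype.card_coe] at h5
  refine h5.trans ?_
  have h6 := Finset.single_le_sum (f := fun i => ((Phi b i).card.factorial : ℝ) * (C i * C i)) (fun i _ => hB0 i) (Finset.mem_univ i)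
  calc ((Phi b i).card.factorial : ℝ) * (C i * X i w' * C i) = ((Phi b i).card.factorial : ℝ) * (C i * C i) * X i w' := by ring
    _ ≤ _ := mul_le_mul_of_nonneg_right h6 (hX i w')

/-- **The size of the minors at the infinite places.** -/
theorem pf_arch (b : P.Base) (L : Type) [Field L] [NumberField L] (c₀ : ℝ) :
    ∃ C : ℝ, 0 < C ∧ ∀ a : ι → (EE L)ˣ, (∀ β, a (P.reflectionPerm β β) = (a β)⁻¹) → ∀ X : b.support → InfinitePlace L → ℝ, (∀ i w, 0 ≤ X i w) → ∀ γ : GK b L, Mv5 b c₀ a X (emb b L γ) →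
      ∀ (i j : b.support) (w : Equiv.Perm ι), OppW b i j w →
      mixedEmbedding.norm (mixedEmbedding L (Dm b i w γ.1.1)) ≤ C * Rf b X i * (Ea b a i j)⁻¹ := by
  refine ⟨(max c₀ 1) ^ Module.finrank ℚ L, pow_pos (lt_max_of_lt_right zero_lt_one) _, fun a ha X hX γ hγ i j w hw => ?_⟩
  obtain ⟨u, hu, u', hu', κ, h3, e3⟩ := hγ
  have e1 : (emb b L γ).1.1 = γ.1.1.map (mixedEmbedding L) := rfl
  rw [← dm_map, ← e1, e3, dm_uni hw (uni_UR b hu') (uni_UR b hu), pd_dm hw ha, mul_comm]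
  refine mul_le_mul_of_nonneg_right ?_ (inv_pos.2 (ea_pos b a i j)).le
  rw [mixedEmbedding.norm_apply]
  calc ∏ w', mixedEmbedding.normAtPlace w' (Dm b i w κ) ^ mult w' ≤ ∏ w', (max c₀ 1 * X i w') ^ mult w' :=
        Finset.prod_le_prod (fun w' _ => pow_nonneg (mixedEmbedding.normAtPlace_nonneg _ _) _) fun w' _ => pow_le_pow_left₀ (mixedEmbedding.normAtPlace_nonneg _ _)
          ((h3 i j w hw w').trans (mul_le_mul_of_nonneg_right (le_max_left _ _) (hX i w'))) _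
    _ = _ := by
        simp only [mul_pow, Finset.prod_mul_distrib, Rf]
        rw [Finset.prod_pow_eq_pow_sum, InfinitePlace.sum_mult_eq]

/-- **The minors are zero**, over the splitting field, with growth at the infinite places. -/
theorem pf_zero (b : P.Base) (L : Type) [Field L] [NumberField L] (c₀ : ℝ) : ∃ m₀ : ℕ, ∀ m : ℕ, m₀ ≤ m → ∀ 𝔫 𝔳 : Ideal (𝓞 L), 𝔫 ≠ ⊥ → 𝔳 ≠ ⊥ →
    ∀ (e : ℕ) (c c' : b.support → ℤ) (π : L) (a : ι → (EE L)ˣ), (∀ β, a (P.reflectionPerm β β) = (a β)⁻¹) → ∀ X : b.support → InfinitePlace L → ℝ, (∀ i w, 0 ≤ X i w) →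
    Szx b (Ideal.absNorm 𝔳) (Ideal.absNorm 𝔫) e c c' (Rf b X) (Ea b a) →
    ∀ γ : GK b L, Qloc b (Ideal.span {(m : 𝓞 L)} * 𝔫) 𝔳 e c c' π γ → Mv5 b c₀ a X (emb b L γ) →
    ∀ (i j : b.support) (w : Equiv.Perm ι), w ∈ Subgroup.closure (Set.range P.reflectionPerm) → OppW b i j w → Dm b i w γ.1.1 = 0 := by
  obtain ⟨C0, hC0, hC⟩ := pf_arch b L c₀
  set C : ℝ := max C0 1 with hCdef
  have hC1 : 1 ≤ C := le_max_right _ _
  refine ⟨⌈C ^ (mB b + 1)⌉₊ + 1, fun m hm 𝔫 𝔳 h𝔫 h𝔳 e c c' π a ha X hX hS γ hγ hM i j w hw hO => ?_⟩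
  by_contra hD
  set q : ℝ := (Ideal.absNorm 𝔳 : ℝ) with hq
  set n : ℝ := (Ideal.absNorm 𝔫 : ℝ) with hn
  have hN1 : ∀ J : Ideal (𝓞 L), J ≠ ⊥ → (1 : ℝ) ≤ (Ideal.absNorm J : ℝ) := by
    intro J hJ
    have := Ideal.absNorm_ne_zero_iff_mem_nonZeroDivisors.2 (mem_nonZeroDivisors_of_ne_zero hJ)
    exact_mod_cast Nat.pos_of_ne_zero this
  have hq1 : 1 ≤ q := hN1 𝔳 h𝔳
  have hq0 : 0 < q := zero_lt_one.trans_le hq1
  have hn1 : 1 ≤ n := hN1 𝔫 h𝔫
  have hn0 : 0 < n := zero_lt_one.trans_le hn1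
  have hm1' : 1 ≤ m := (Nat.le_add_left 1 _).trans hm
  have hm1 : (1 : ℝ) ≤ m := by exact_mod_cast hm1'
  have hmC : C ^ (mB b + 1) < m := by
    have h14 : C ^ (mB b + 1) ≤ ⌈C ^ (mB b + 1)⌉₊ := Nat.le_ceil _
    have h15 : ((⌈C ^ (mB b + 1)⌉₊ + 1 : ℕ) : ℝ) ≤ m := by exact_mod_cast hm
    push_cast at h15
    linarith
  have h0 : Ideal.span {(m : 𝓞 L)} * 𝔫 ≠ ⊥ := by
    refine mul_ne_zero ?_ h𝔫
    rw [Ne, Ideal.zero_eq_bot, Ideal.span_singleton_eq_bot]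
    have : m ≠ 0 := by omega
    exact_mod_cast this
  obtain ⟨h1, h2⟩ := qd_ab h0 h𝔳 hγ hO hD
  have h4 := hC a ha X hX γ hM i j w hO
  have hnorm : (Ideal.absNorm (Ideal.span {(m : 𝓞 L)} * 𝔫) : ℝ) = (m : ℝ) ^ Module.finrank ℤ (𝓞 L) * n := by
    rw [map_mul, Ideal.absNorm_span_natCast, hn]
    push_cast
    rfl
  rw [hnorm] at h1
  have hf1 : 1 ≤ Module.finrank ℤ (𝓞 L) := Module.finrank_pos
  set E : ℝ := Ea b a i j with hE
  have hE0 : 0 < E := ea_pos b a i j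
  have hR0 : 0 ≤ Rf b X i := rf_nonneg hX i
  have hDC : mixedEmbedding.norm (mixedEmbedding L (Dm b i w γ.1.1)) ≤ C * Rf b X i * E⁻¹ := by
    refine h4.trans ?_
    exact mul_le_mul_of_nonneg_right (mul_le_mul_of_nonneg_right (le_max_left _ _) hR0) (inv_pos.2 hE0).le
  have hD0 : 0 ≤ mixedEmbedding.norm (mixedEmbedding L (Dm b i w γ.1.1)) := mixedEmbedding.norm_nonneg _
  have hCn : ∀ T ≤ mB b + 1, C ^ T ≤ C ^ (mB b + 1) := fun T hT => pow_le_pow_right₀ hC1 hT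
  have hX0 : 0 ≤ q ^ (Sl b i c + Sl b j c') * Rf b X i * E⁻¹ := mul_nonneg (mul_nonneg (zpow_pos hq0 _).le hR0) (inv_pos.2 hE0).le
  rcases hS i j ⟨w, hw, hO⟩ with h5 | ⟨l, T, hT, h5⟩
  · have h8 := pd_real (T := 1) (e := e) (S := Sl b i c + Sl b j c') hm1 hn0 hq0 (zero_le_one.trans hC1) hD0 hf1 (d4_card i) (by
      rw [pow_one]
      exact h1) hDC (by
      rw [pow_one, mul_inv_le_iff₀ hE0]
      exact h5) (by
      push_cast
      ring)
    exact absurd (h8.trans (hCn 1 (by omega))) (not_le.2 hmC)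
  · set T' := min T (mB b) with hT'
    have hTc : ∀ β, mc b l (Sum.inr β) ≤ T' := by
      intro β
      rw [hT']
      push_cast
      exact le_min (hT β) (d8_mB b l β)
    have hP1 : 1 ≤ SM b i l + SM b j l := by
      have := d7_SM_pos i l
      have := d7_SM_nonneg j l
      omega
    have hP2 : SM b i l + SM b j l = ((SM b i l + SM b j l).toNat : ℤ) := (Int.toNat_of_nonneg (by omega)).symm
    have hk1 : 1 ≤ (SM b i l + SM b j l).toNat := by omega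
    have h9 := h2 l T' hTc
    rw [hnorm] at h9
    have hY : 1 ≤ (n * q ^ e) ^ (SM b i l + SM b j l).toNat := one_le_pow₀ (one_le_mul_of_one_le_of_one_le hn1 (one_le_pow₀ hq1))
    have h10 : (q ^ (Sl b i c + Sl b j c') * Rf b X i * E⁻¹) ^ T' ≤ (n * q ^ e) ^ (SM b i l + SM b j l).toNat := by
      refine pd_pow hX0 hY (min_le_left T (mB b)) ?_
      rw [mul_pow _ E⁻¹, inv_pow, mul_inv_le_iff₀ (pow_pos hE0 _)]
      rw [hP2, zpow_natCast] at h5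
      exact h5
    have h11 := pd_real (T := T') (e := e) (k := (SM b i l + SM b j l).toNat) (S := Sl b i c + Sl b j c') hm1 hn0 hq0 (zero_le_one.trans hC1) hD0 hf1 hk1 h9 hDC h10 (by
      rw [← hP2])
    exact absurd (h11.trans (hCn T' ((min_le_right T (mB b)).trans (Nat.le_succ _)))) (not_le.2 hmC)

variable {b : P.Base} {K L : Type} [Field K] [NumberField K] [Field L] [NumberField L] [Algebra K L]

/-- **The dichotomy for quasi-split groups with growth at the infinite places and for all points of the torus.** -/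
theorem qb_star5 (Q : QS b K L) (c₀ : ℝ) : ∃ m₀ : ℕ, ∀ m : ℕ, m₀ ≤ m → ∀ (v : HeightOneSpectrum (𝓞 K)), (m : 𝓞 K) ∉ v.asIdeal →
    ∀ (𝔫 : Ideal (𝓞 K)) (r s : ℕ) (c c' : b.support → ℤ) (π : K) (h h' : HQ Q), LvL b (Ideal.span {(m : 𝓞 K)} * 𝔫) v r s c π h.1 →
    LvL b (Ideal.span {(m : 𝓞 K)} * 𝔫) v r s c' π h'.1 →
    ∀ a : ι → (EE L)ˣ, (∀ β, a (P.reflectionPerm β β) = (a β)⁻¹) →
    ∀ X : b.support → InfinitePlace L → ℝ, (∀ i w, 0 ≤ X i w) → Sz4 b L 𝔫 v r s c c' (Rf b X) (Ea b a) →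
    ∀ θ : b.support → (EE L →ₗ[ℝ] ℝ), (∀ i, ∃ z : L, ∑ t : L ≃ₐ[K] L, θ ((Q.da t).sp i) (mixedEmbedding L (t z)) ≠ 0) →
    ∀ γ : HQ Q, h' * γ * h⁻¹ ∈ GamQ (HQ Q) (Ideal.span {(m : 𝓞 K)} * 𝔫) v r s → Mv5 b c₀ a X (emb b L γ.1) → (γ ∈ HUH (HQ Q) ∧ c = c') ∨ AltH (HQ Q) θ γ := by
  obtain ⟨m₁, hm₁⟩ := pf_zero b L c₀
  refine ⟨max m₁ (2 * Fintype.card (I b) + 1), fun m hm v hv 𝔫 r s c c' π h h' hL hL' a ha X hX hS θ hθ γ hγ hM => ?_⟩
  have hm1 : m₁ ≤ m := (le_max_left _ _).trans hm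
  have hm2 : 2 * Fintype.card (I b) < m := (le_max_right m₁ (2 * Fintype.card (I b) + 1)).trans hm
  have hγ' : h'.1 * γ.1 * h.1⁻¹ ∈ GamL b L (Ideal.span {(m : 𝓞 K)} * 𝔫) v r s := hγ
  have hn0 : 𝔫 ≠ ⊥ := by
    rintro rfl
    exact hL.ne (by rw [Ideal.mul_bot])
  have hup : L1S.up L (Ideal.span {(m : 𝓞 K)} * 𝔫) = Ideal.span {(m : 𝓞 L)} * L1S.up L 𝔫 := by
    unfold L1S.up
    rw [Ideal.map_mul, Ideal.map_span, Set.image_singleton, map_natCast]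
  have hnv : ∀ J : Ideal (𝓞 K), Ideal.absNorm (L1S.up L J) = Ideal.absNorm J ^ Module.finrank K L := by
    intro J
    have h1 := Ideal.absNorm_algebraMap (R := 𝓞 K) (S := 𝓞 L) J
    rw [← IsFractionRing.finrank_eq (𝓞 K) K (𝓞 L) L] at h1
    exact h1
  have hS' : Szx b (Ideal.absNorm (L1S.up L v.asIdeal)) (Ideal.absNorm (L1S.up L 𝔫)) (r + s) c c' (Rf b X) (Ea b a) := by
    rw [hnv, hnv, Nat.cast_pow, Nat.cast_pow]
    exact pd_szx hS
  have hq := qb4_qloc hL hL' hγ'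
  rw [hup] at hq
  have hD := hm₁ m hm1 (L1S.up L 𝔫) (L1S.up L v.asIdeal) (qb4_ne L hn0) (qb4_ne L v.ne_bot) (r + s) c c' (algebraMap K L π) a ha X hX hS' γ.1 hq hM
  have hG : γ.1 ∈ HGL b L (Ideal.span {(m : 𝓞 K)} * 𝔫) v := by
    have e : γ.1 = h'.1⁻¹ * (h'.1 * γ.1 * h.1⁻¹) * h.1 := by group
    rw [e]
    exact rh3_HGL_mul (rh3_HGL_mul (rh3_HGL_inv hL'.hh) ((rh3_GamL hL.nv hL.hπ).1 hγ').1) hL.hh
  obtain ⟨j, hj⟩ := hG
  rcases qb3_core hm2 hv Q (θ := θ) hθ (δ := γ) (j := j) (fun i => qb3_den_mono Ideal.mul_le_left (hj i i).1) (fun i j w hw hO => hD i j w hw hO) with h1 | h1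
  · left
    refine ⟨h1, bf2_inj fun i => ?_⟩
    have hU : γ.1 ∈ HU b L := h1
    obtain ⟨g, hg, hg', e1, e2⟩ := qb4_v hL.nv hL.hπ hL.hv hL'.hv hγ'
    have hπ0 : algebraMap K L π ≠ 0 := by
      rw [Ne, map_eq_zero]
      rintro rfl
      have := hL.hπ
      rw [map_zero] at this
      exact WithZero.exp_ne_zero this.symm
    have d1 : γ.1.1.1 i i = 1 := bf2_diag hU i
    have d2 : γ.1⁻¹.1.1 i i = 1 := bf2_diag (inv_mem hU) i
    have f1 : g.1.1 i i = algebraMap K L π ^ (pr b c i - pr b c' i) := by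
      have h2 := e1 i i
      rw [d1] at h2
      have h3 : algebraMap K L π ^ (pr b c i - pr b c' i) * (algebraMap K L π ^ pr b c' i * g.1.1 i i * algebraMap K L π ^ (-pr b c i)) = g.1.1 i i := by
        rw [zpow_sub₀ hπ0, _root_.zpow_neg]
        have h4 := zpow_ne_zero (pr b c i) hπ0
        have h5 := zpow_ne_zero (pr b c' i) hπ0
        field_simp
      rw [← h2, mul_one] at h3
      exact h3.symm
    have f2 : g⁻¹.1.1 i i = algebraMap K L π ^ (pr b c' i - pr b c i) := by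
      have h2 := e2 i i
      rw [d2] at h2
      have h3 : algebraMap K L π ^ (pr b c' i - pr b c i) * (algebraMap K L π ^ pr b c i * g⁻¹.1.1 i i * algebraMap K L π ^ (-pr b c' i)) = g⁻¹.1.1 i i := by
        rw [zpow_sub₀ hπ0, _root_.zpow_neg]
        have h4 := zpow_ne_zero (pr b c i) hπ0
        have h5 := zpow_ne_zero (pr b c' i) hπ0
        field_simp
      rw [← h2, mul_one] at h3
      exact h3.symm
    have g1 := (hg i i).1
    have g2 := (hg' i i).1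
    rw [f1] at g1
    rw [f2] at g2
    have k1 := qb3_pi hL.hπ g1
    have k2 := qb3_pi hL.hπ g2
    lia
  · exact Or.inr h1

end

end Pool.Agent.Lib.L8
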