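import Pool.Agent.Lib.L8.PF1
import Pool.Agent.Lib.L1S.D3

/-!
# L8, conductor aspect, file PF2 (helper29): the moved points, support near `1` at some of the infinite places
-/

namespace Pool.Agent.Lib.L8

set_option linter.unusedSectionVars false

open MeasureTheory Matrix NumberField NumberField.InfinitePlace IsDedekindDomain Pool.Agent.Lib.H89N Pool.Agent.Lib.H33W Pool.Agent.Lib.L1S
open scoped Pointwise

noncomputable section

section bounds

variable {L : Type} [Field L] [NumberField L] {J : Type} [Fintype J] [DecidableEq J] {w : InfinitePlace L}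

/-- The entries of `A` at the place `w` are at most `X`. -/
def NB (w : InfinitePlace L) (A : Matrix J J (EE L)) (X : ℝ) : Prop := ∀ i j, mixedEmbedding.normAtPlace w (A i j) ≤ X

theorem NB.mono {A : Matrix J J (EE L)} {X Y : ℝ} (h : NB w A X) (hXY : X ≤ Y) : NB w A Y := fun i j => (h i j).trans hXY

theorem NB.add {A B : Matrix J J (EE L)} {X Y : ℝ} (h : NB w A X) (h' : NB w B Y) : NB w (A + B) (X + Y) := fun i j =>
  (mixedEmbedding.normAtPlace_add_le w _ _).trans (add_le_add (h i j) (h' i j))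

theorem NB.neg {A : Matrix J J (EE L)} {X : ℝ} (h : NB w A X) : NB w (-A) X := fun i j => by
  rw [Matrix.neg_apply, mixedEmbedding.normAtPlace_neg]
  exact h i j

theorem NB.sub {A B : Matrix J J (EE L)} {X Y : ℝ} (h : NB w A X) (h' : NB w B Y) : NB w (A - B) (X + Y) := by
  rw [sub_eq_add_neg]
  exact h.add h'.neg

theorem NB.mul {A B : Matrix J J (EE L)} {X Y : ℝ} (h : NB w A X) (h' : NB w B Y) (hX : 0 ≤ X) : NB w (A * B) (Fintype.card J * (X * Y)) := by
  intro i j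
  rw [Matrix.mul_apply]
  refine (pd_sum_le w _ _).trans ?_
  have h1 : ∀ l ∈ (Finset.univ : Finset J), mixedEmbedding.normAtPlace w (A i l * B l j) ≤ X * Y := fun l _ => by
    rw [map_mul]
    exact mul_le_mul (h i l) (h' l j) (mixedEmbedding.normAtPlace_nonneg _ _) hX
  refine (Finset.sum_le_card_nsmul _ _ _ h1).trans (le_of_eq ?_)
  rw [Finset.card_univ, nsmul_eq_mul]

theorem nb_nonneg [Nonempty J] {A : Matrix J J (EE L)} {X : ℝ} (h : NB w A X) : 0 ≤ X :=
  (mixedEmbedding.normAtPlace_nonneg w _).trans (h (Classical.arbitrary J) (Classical.arbitrary J))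

/-- A minor. -/
theorem NB.minor {A : Matrix J J (EE L)} {X : ℝ} {T : Type} [Fintype T] [DecidableEq T] (f g : T → J) (h : ∀ i j, mixedEmbedding.normAtPlace w (A (f i) (g j)) ≤ X) :
    mixedEmbedding.normAtPlace w (A.submatrix f g).det ≤ (Fintype.card T).factorial * X ^ Fintype.card T := by
  rw [Matrix.det_apply]
  refine (pd_sum_le w _ _).trans ?_
  have h1 : ∀ σ ∈ (Finset.univ : Finset (Equiv.Perm T)), mixedEmbedding.normAtPlace w (Equiv.Perm.sign σ • ∏ i, A.submatrix f g (σ i) i) ≤ X ^ Fintype.card T := fun σ _ => by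
    rw [pd_sign, map_prod]
    refine (Finset.prod_le_prod (fun i _ => mixedEmbedding.normAtPlace_nonneg _ _) fun i _ => h (σ i) i).trans (le_of_eq ?_)
    rw [Finset.prod_const, Finset.card_univ]
  refine (Finset.sum_le_card_nsmul _ _ _ h1).trans (le_of_eq ?_)
  rw [Finset.card_univ, Fintype.card_perm, nsmul_eq_mul]

/-- A bound on a compact set. -/
theorem nb_compact {S : Type} [TopologicalSpace S] {Ω : Set S} (hΩ : IsCompact Ω) {F : S → Matrix J J (EE L)} (hF : Continuous F) :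
    ∃ C : ℝ, 1 ≤ C ∧ ∀ s ∈ Ω, ∀ w : InfinitePlace L, NB w (F s) C := by
  have h1 : ∀ p : (J × J) × InfinitePlace L, ∃ C : ℝ, ∀ s ∈ Ω, mixedEmbedding.normAtPlace p.2 (F s p.1.1 p.1.2) ≤ C := by
    intro p
    have hc : Continuous fun s => mixedEmbedding.normAtPlace p.2 (F s p.1.1 p.1.2) := (mixedEmbedding.continuous_normAtPlace p.2).comp (hF.matrix_elem _ _)
    obtain ⟨C, hC⟩ := hΩ.exists_bound_of_continuousOn hc.continuousOn
    exact ⟨C, fun s hs => (le_abs_self _).trans (hC s hs)⟩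
  choose C hC using h1
  have h5 : 0 ≤ ∑ p : (J × J) × InfinitePlace L, |C p| := Finset.sum_nonneg fun _ _ => abs_nonneg _
  refine ⟨∑ p : (J × J) × InfinitePlace L, |C p| + 1, by linarith, fun s hs w i j => ?_⟩
  have h2 := Finset.single_le_sum (f := fun p : (J × J) × InfinitePlace L => |C p|) (fun p _ => abs_nonneg (C p)) (Finset.mem_univ ((i, j), w))
  have h3 := hC ((i, j), w) s hs
  have h4 := le_abs_self (C ((i, j), w))
  simp only at h2 h3
  linarith

/-- `g = 1` at the place `w`: products. -/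
theorem nb0_mul {A B : Matrix J J (EE L)} {X : ℝ} (hA : NB w (A - 1) 0) (hB : NB w (B - 1) 0) (hX : NB w B X) : NB w (A * B - 1) 0 := by
  have e : A * B - 1 = (A - 1) * B + (B - 1) := by
    rw [sub_mul, one_mul, sub_add_sub_cancel]
  rw [e]
  have h1 := (hA.mul hX le_rfl).add hB
  rwa [zero_mul, mul_zero, add_zero] at h1

end bounds

variable {ι M N : Type} [Fintype ι] [DecidableEq ι] [AddCommGroup M] [Module ℚ M] [AddCommGroup N] [Module ℚ N]
  {P : RootPairing ι ℚ M N} [P.IsCrystallographic] [P.IsReduced] [P.IsIrreducible] [P.IsRootSystem] {b : P.Base} {L : Type} [Field L] [NumberField L]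

/-- A bound of every matrix. -/
theorem nb_exists (w : InfinitePlace L) {J : Type} [Fintype J] [DecidableEq J] (A : Matrix J J (EE L)) : ∃ X : ℝ, 0 ≤ X ∧ NB w A X := by
  refine ⟨∑ i, ∑ j, mixedEmbedding.normAtPlace w (A i j), Finset.sum_nonneg fun i _ => Finset.sum_nonneg fun j _ => mixedEmbedding.normAtPlace_nonneg _ _, fun i j => ?_⟩
  have h1 := Finset.single_le_sum (f := fun j => mixedEmbedding.normAtPlace w (A i j)) (fun j _ => mixedEmbedding.normAtPlace_nonneg _ _) (Finset.mem_univ j)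
  have h2 := Finset.single_le_sum (f := fun i => ∑ j, mixedEmbedding.normAtPlace w (A i j)) (fun i _ => Finset.sum_nonneg fun j _ => mixedEmbedding.normAtPlace_nonneg _ _) (Finset.mem_univ i)
  exact h1.trans h2

/-- The elements which are `1` at the place `w`. -/
def G1 {b : P.Base} (w : InfinitePlace L) (H : Subgroup (GK b L)) : Subgroup (HRt H) where
  carrier := {g | NB w (g.1.1.1 - 1) 0}
  one_mem' := by
    show NB w ((1 : Matrix (I b) (I b) (EE L)) - 1) 0
    intro i j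
    rw [sub_self, Matrix.zero_apply, map_zero]
  mul_mem' := by
    intro g h hg hh
    obtain ⟨X, hX, h1⟩ := nb_exists w h.1.1.1
    have e : (g * h).1.1.1 = g.1.1.1 * h.1.1.1 := rfl
    show NB w ((g * h).1.1.1 - 1) 0
    rw [e]
    exact nb0_mul hg hh h1
  inv_mem' := by
    intro g hg
    obtain ⟨X, hX, h1⟩ := nb_exists w g⁻¹.1.1.1
    have e : g⁻¹.1.1.1 * g.1.1.1 = 1 := g.1.1.inv_mul
    have e2 : g⁻¹.1.1.1 - 1 = -(g⁻¹.1.1.1 * (g.1.1.1 - 1)) := by
      rw [mul_sub, mul_one, e]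
      exact (neg_sub _ _).symm
    show NB w (g⁻¹.1.1.1 - 1) 0
    rw [e2]
    have h2 := (h1.mul hg hX).neg
    rwa [mul_zero, mul_zero] at h2

/-- The factor at the place `w`: `δ_w ^ k_i` for `w ∈ S`, the product of the bounds `B i w` otherwise. -/
def Xd {b : P.Base} (S : Set (InfinitePlace L)) (δ : InfinitePlace L → ℝ) (B : b.support → InfinitePlace L → ℝ) (m : ℕ) (i : b.support) (w : InfinitePlace L) : ℝ := by
  classical exact if w ∈ S then δ w ^ (Phi b i).card else B i w ^ (2 * m)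

theorem xd_nonneg {S : Set (InfinitePlace L)} {δ : InfinitePlace L → ℝ} {B : b.support → InfinitePlace L → ℝ} (hδ : ∀ w, 0 ≤ δ w) (hB : ∀ i w, 0 ≤ B i w) (m : ℕ) (i : b.support) (w : InfinitePlace L) :
    0 ≤ Xd S δ B m i w := by
  classical
  unfold Xd
  split_ifs
  · exact pow_nonneg (hδ w) _
  · exact pow_nonneg (hB i w) _

/-- **The moved points**, `C` near `1` at the places in `S`, `Kt = 1` at the places in `S`. -/
theorem pf_mv5 (b : P.Base) (L : Type) [Field L] [NumberField L] (H : Subgroup (GK b L)) {Ω : Set (GL (I b) (EE L))} (hΩ : IsCompact Ω) {K₀ : Set (GR b L)} (hK₀ : IsCompact K₀) :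
    ∃ c : ℝ, 0 ≤ c ∧ ∀ (a : ι → (EE L)ˣ) (x : HRt H), InRz H Ω a x → ∀ (C Kt : Set (HRt H)), CG H C ⊆ K₀ → ∀ B : b.support → InfinitePlace L → ℝ, (∀ i w, 0 ≤ B i w) → KB H B Kt →
      ∀ (S : Set (InfinitePlace L)) (δ : InfinitePlace L → ℝ), (∀ w, 0 ≤ δ w) → (∀ y ∈ C, ∀ w ∈ S, NB w (y.1.1.1 - 1) (δ w)) → (∀ y ∈ Kt, ∀ w ∈ S, NB w (y.1.1.1 - 1) 0) →
      ∀ (m : ℕ) (γ : HRt H) (t t' : UHR H) (y y' : HRt H), y ∈ C * Kt ^ m → y' ∈ C * Kt ^ m → γ * (t.1 * (x * y)) = t'.1 * (x * y') → Mv5 b c a (Xd S δ B m) γ.1 := by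
  classical
  set Ω₃ : Set (GL (I b) (EE L)) := Om3 b Ω K₀ with hΩ₃
  have hc3 : IsCompact Ω₃ := om3_compact hΩ hK₀
  obtain ⟨C₁, hC1, hN1⟩ := nb_compact (L := L) hc3 (F := fun s : GL (I b) (EE L) => s.1) Units.continuous_val
  obtain ⟨C₂, hC2, hN2⟩ := nb_compact (L := L) hΩ (F := fun s : GL (I b) (EE L) => s.1) Units.continuous_val
  have h1 : ∀ i : b.support, ∃ C : ℝ, 1 ≤ C ∧ ∀ s ∈ Ω₃, ∀ w : InfinitePlace L, CB (Phi b i).card w s.1 C := fun i =>
    cb_compact (L := L) (Phi b i).card hc3 (F := fun s : GL (I b) (EE L) => s.1) Units.continuous_val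
  choose C hCB1 hCB using h1
  set n : ℝ := (Fintype.card (I b) : ℝ) with hn
  have hn0 : 0 ≤ n := Nat.cast_nonneg _
  set D : ℝ := n * (n * (C₂ * 2) * C₁) with hD
  have hD0 : 0 ≤ D := by positivity
  have hB0 : ∀ i, 0 ≤ ((Phi b i).card.factorial : ℝ) * (C i * C i) + ((Phi b i).card.factorial : ℝ) * D ^ (Phi b i).card := fun i =>
    add_nonneg (mul_nonneg (Nat.cast_nonneg _) (mul_self_nonneg _)) (mul_nonneg (Nat.cast_nonneg _) (pow_nonneg hD0 _))
  refine ⟨∑ i, (((Phi b i).card.factorial : ℝ) * (C i * C i) + ((Phi b i).card.factorial : ℝ) * D ^ (Phi b i).card), Finset.sum_nonneg fun i _ => hB0 i, ?_⟩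
  intro a x hx Cs Kt hCs B hB hKB S δ hδ hCδ hKδ m γ t t' y y' hy hy' h
  obtain ⟨u, ω, hω, hxu'⟩ := hx
  have hxu : x.1.1 = u.1.1.1 * dgU b a * ω := Units.ext hxu'
  obtain ⟨p, hp, s, hs, rfl⟩ := Set.mem_mul.1 hy
  obtain ⟨p', hp', s', hs', rfl⟩ := Set.mem_mul.1 hy'
  have hq' : ω * p'.1.1 ∈ Ω₃ := ⟨ω, hω, p'.1, hCs ⟨p', hp', rfl⟩, Or.inl rfl⟩
  have hq : (ω * p.1.1)⁻¹ ∈ Ω₃ := ⟨ω, hω, p.1, hCs ⟨p, hp, rfl⟩, Or.inr rfl⟩
  have h3 : γ.1.1 = (t'.1.1.1 * u.1.1.1) * (dgU b a * ((ω * p'.1.1) * (s'.1.1 * s.1.1⁻¹) * (ω * p.1.1)⁻¹) * (dgU b a)⁻¹) * (t.1.1.1 * u.1.1.1)⁻¹ := by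
    have h1 : γ = t'.1 * (x * (p' * s')) * (t.1 * (x * (p * s)))⁻¹ := by
      rw [← h, mul_inv_cancel_right]
    have h2 : γ.1.1 = t'.1.1.1 * (x.1.1 * (p'.1.1 * s'.1.1)) * (t.1.1.1 * (x.1.1 * (p.1.1 * s.1.1)))⁻¹ := congrArg (fun w : HRt H => w.1.1) h1
    rw [h2, hxu]
    group
  refine ⟨(t.1.1 * u.1.1)⁻¹, inv_mem (mul_mem t.2 u.2), t'.1.1 * u.1.1, mul_mem t'.2 u.2, (ω * p'.1.1).1 * (s' * s⁻¹).1.1.1 * ((ω * p.1.1)⁻¹ : GL (I b) (EE L)).1, fun i j w hw w' => ?_, congrArg Units.val h3⟩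
  have h6 := Finset.single_le_sum (f := fun i => ((Phi b i).card.factorial : ℝ) * (C i * C i) + ((Phi b i).card.factorial : ℝ) * D ^ (Phi b i).card) (fun i _ => hB0 i) (Finset.mem_univ i)
  refine le_trans ?_ (mul_le_mul_of_nonneg_right h6 (xd_nonneg hδ hB m i w'))
  by_cases hS : w' ∈ S
  · -- near 1
    have eX : Xd S δ B m i w' = δ w' ^ (Phi b i).card := by
      unfold Xd
      rw [if_pos hS]
    have g0 : NB w' ((s' * s⁻¹).1.1.1 - 1) 0 := by
      have hKt : Kt ⊆ (G1 w' H : Set (HRt H)) := fun g hg => hKδ g hg w' hS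
      have hKm : ∀ g ∈ Kt ^ m, g ∈ G1 w' H := by
        intro g hg
        obtain ⟨f, rfl⟩ := Set.mem_pow.1 hg
        refine Subgroup.list_prod_mem _ ?_
        intro x hx
        obtain ⟨i, rfl⟩ := (List.mem_ofFn' _ _).1 hx
        exact hKt (f i).2
      exact mul_mem (hKm _ hs') (inv_mem (hKm _ hs))
    have g1 : NB w' ((ω * p'.1.1).1 * (s' * s⁻¹).1.1.1 * ((ω * p.1.1)⁻¹ : GL (I b) (EE L)).1 - 1) (D * δ w') := by
      have e1 : (ω * p.1.1).1 * ((ω * p.1.1)⁻¹ : GL (I b) (EE L)).1 = 1 := Units.mul_inv _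
      have e2 : (ω * p'.1.1).1 * (s' * s⁻¹).1.1.1 * ((ω * p.1.1)⁻¹ : GL (I b) (EE L)).1 - 1 =
          (ω * p'.1.1).1 * ((s' * s⁻¹).1.1.1 - 1) * ((ω * p.1.1)⁻¹ : GL (I b) (EE L)).1 + ω.1 * ((p'.1.1.1 - 1) - (p.1.1.1 - 1)) * ((ω * p.1.1)⁻¹ : GL (I b) (EE L)).1 := by
        have e3 : ω.1 * ((p'.1.1.1 - 1) - (p.1.1.1 - 1)) = (ω * p'.1.1).1 - (ω * p.1.1).1 := by
          rw [sub_sub_sub_cancel_right, mul_sub]
          rfl
        have e4 : ∀ A Y Z W : Matrix (I b) (I b) (EE L), A * (Y - 1) * Z + (A - W) * Z = A * Y * Z - W * Z := by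
          intro A Y Z W
          rw [mul_sub, mul_one, sub_mul, sub_mul]
          abel
        rw [e3, e4, e1]
      rw [e2]
      have k1 := ((hN1 _ hq' w').mul g0 (zero_le_one.trans hC1)).mul (hN1 _ hq w') (by positivity)
      have k2 := ((hN2 _ hω w').mul ((hCδ p' hp' w' hS).sub (hCδ p hp w' hS)) (zero_le_one.trans hC2)).mul (hN1 _ hq w') (by
        have := hδ w'
        positivity)
      refine (k1.add k2).mono (le_of_eq ?_)
      rw [hD]
      ring
    rw [eX]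
    have k3 : mixedEmbedding.normAtPlace w' (Dm b i w ((ω * p'.1.1).1 * (s' * s⁻¹).1.1.1 * ((ω * p.1.1)⁻¹ : GL (I b) (EE L)).1)) ≤ ((Phi b i).card.factorial : ℝ) * (D * δ w') ^ (Phi b i).card := by
      have k4 := NB.minor (w := w') (X := D * δ w') (A := (ω * p'.1.1).1 * (s' * s⁻¹).1.1.1 * ((ω * p.1.1)⁻¹ : GL (I b) (EE L)).1) (fun β : Phi b i => Sum.inr (w β.1)) (fun β : Phi b i => Sum.inr β.1) (by
        intro β β'
        have hne : (Sum.inr (w β.1) : I b) ≠ Sum.inr β'.1 := by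
          intro he
          have h7 := Sum.inr.inj he
          have h8 := d3_pos β'.2
          have h9 := d3_neg ((hw β.1).1 β.2)
          rw [h7] at h9
          omega
        have k5 := g1 (Sum.inr (w β.1)) (Sum.inr β'.1)
        rw [Matrix.sub_apply, Matrix.one_apply_ne hne, sub_zero] at k5
        exact k5)
      rw [Fintype.card_coe] at k4
      exact k4
    refine k3.trans ?_
    rw [mul_pow, ← mul_assoc]
    refine mul_le_mul_of_nonneg_right ?_ (pow_nonneg (hδ w') _)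
    have : 0 ≤ ((Phi b i).card.factorial : ℝ) * (C i * C i) := mul_nonneg (Nat.cast_nonneg _) (mul_self_nonneg _)
    linarith
  · have eX : Xd S δ B m i w' = B i w' ^ (2 * m) := by
      unfold Xd
      rw [if_neg hS]
    rw [eX]
    have e2 : B i w' ^ (2 * m) = B i w' ^ m * B i w' ^ m := by rw [two_mul, pow_add]
    have hY : CB (Phi b i).card w' (s' * s⁻¹).1.1.1 (B i w' ^ (2 * m)) := by
      have e : (s' * s⁻¹).1.1.1 = s'.1.1.1 * s⁻¹.1.1.1 := rfl
      rw [e, e2]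
      exact (pd_kb hB hKB hs' i w').1.mul (pd_kb hB hKB hs i w').2 (pow_nonneg (hB i w') m)
    have h4 : CB (Fintype.card (Phi b i)) w' ((ω * p'.1.1).1 * (s' * s⁻¹).1.1.1 * ((ω * p.1.1)⁻¹ : GL (I b) (EE L)).1) (C i * B i w' ^ (2 * m) * C i) := by
      rw [Fintype.card_coe]
      exact ((hCB i _ hq' w').mul hY (pow_nonneg (hB i w') _)).mul (hCB i _ hq w') (zero_le_one.trans (hCB1 i))
    have h5 := h4.minor' (fun β : Phi b i => Sum.inr (w β.1)) (fun β : Phi b i => Sum.inr β.1)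
    rw [Fintype.card_coe] at h5
    refine h5.trans ?_
    have h7 : 0 ≤ ((Phi b i).card.factorial : ℝ) * D ^ (Phi b i).card := mul_nonneg (Nat.cast_nonneg _) (pow_nonneg hD0 _)
    calc ((Phi b i).card.factorial : ℝ) * (C i * B i w' ^ (2 * m) * C i) = ((Phi b i).card.factorial : ℝ) * (C i * C i) * B i w' ^ (2 * m) := by ring
      _ ≤ _ := mul_le_mul_of_nonneg_right (by linarith) (pow_nonneg (hB i w') _)

end

end Pool.Agent.Lib.L8
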