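import Pool.Agent.Lib.L8.PE4
import Pool.Agent.Lib.L8.PF2

/-!
# L8, conductor aspect, file PF3 (helper29): scaling of the `K`-form of `L ⊗ ℝ` at the infinite places of `K`
-/

namespace Pool.Agent.Lib.L8

set_option linter.unusedSectionVars false

open MeasureTheory Matrix NumberField NumberField.InfinitePlace IsDedekindDomain Pool.Agent.Lib.H89N Pool.Agent.Lib.H33W Pool.Agent.Lib.L1S

noncomputable section

section ev

variable {L : Type} [Field L] [NumberField L]

/-- The coordinate of `x ∈ L ⊗ ℝ` at the place `w`. -/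
def ev (w : InfinitePlace L) (x : EE L) : ℂ := by
  classical exact if h : w.IsReal then ((x.1 ⟨w, h⟩ : ℝ) : ℂ) else x.2 ⟨w, not_isReal_iff_isComplex.1 h⟩

theorem ev_real {w : InfinitePlace L} (h : w.IsReal) (x : EE L) : ev w x = ((x.1 ⟨w, h⟩ : ℝ) : ℂ) := by
  unfold ev
  rw [dif_pos h]

theorem ev_complex {w : InfinitePlace L} (h : w.IsComplex) (x : EE L) : ev w x = x.2 ⟨w, h⟩ := by
  unfold ev
  rw [dif_neg (not_isReal_iff_isComplex.2 h)]

theorem ev_norm (w : InfinitePlace L) (x : EE L) : ‖ev w x‖ = mixedEmbedding.normAtPlace w x := by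
  rcases isReal_or_isComplex w with h | h
  · rw [ev_real h, mixedEmbedding.normAtPlace_apply_of_isReal h, Complex.norm_real]
  · rw [ev_complex h, mixedEmbedding.normAtPlace_apply_of_isComplex h]

theorem ev_add (w : InfinitePlace L) (x y : EE L) : ev w (x + y) = ev w x + ev w y := by
  rcases isReal_or_isComplex w with h | h
  · rw [ev_real h, ev_real h, ev_real h, ← Complex.ofReal_add]
    rfl
  · rw [ev_complex h, ev_complex h, ev_complex h]
    rfl

theorem ev_mul (w : InfinitePlace L) (x y : EE L) : ev w (x * y) = ev w x * ev w y := by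
  rcases isReal_or_isComplex w with h | h
  · rw [ev_real h, ev_real h, ev_real h, ← Complex.ofReal_mul]
    rfl
  · rw [ev_complex h, ev_complex h, ev_complex h]
    rfl

theorem ev_zero (w : InfinitePlace L) : ev w (0 : EE L) = 0 := by
  have h := ev_add w (0 : EE L) 0
  rw [add_zero] at h
  exact left_eq_add.1 h

theorem ev_one (w : InfinitePlace L) : ev w (1 : EE L) = 1 := by
  rcases isReal_or_isComplex w with h | h
  · rw [ev_real h]
    exact Complex.ofReal_one
  · rw [ev_complex h]
    rfl

theorem ev_smul (w : InfinitePlace L) (r : ℝ) (x : EE L) : ev w (r • x) = r • ev w x := by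
  rcases isReal_or_isComplex w with h | h
  · rw [ev_real h, ev_real h, Complex.real_smul, ← Complex.ofReal_mul]
    rfl
  · rw [ev_complex h, ev_complex h]
    rfl

theorem ev_me (w : InfinitePlace L) (t : L) : ev w (mixedEmbedding L t) = w.embedding t := by
  rcases isReal_or_isComplex w with h | h
  · rw [ev_real h, mixedEmbedding.mixedEmbedding_apply_isReal]
    exact embedding_of_isReal_apply h t
  · rw [ev_complex h, mixedEmbedding.mixedEmbedding_apply_isComplex]

theorem ev_ext {x y : EE L} (h : ∀ w, ev w x = ev w y) : x = y := by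
  refine Prod.ext (funext fun w => ?_) (funext fun w => ?_)
  · have h1 := h w.1
    rw [ev_real w.2, ev_real w.2] at h1
    exact Complex.ofReal_injective h1
  · have h1 := h w.1
    rw [ev_complex w.2, ev_complex w.2] at h1
    exact h1

/-- The element with the real coordinates `ρ w`. -/
def rhoE (L : Type) [Field L] [NumberField L] (ρ : InfinitePlace L → ℝ) : EE L := (fun w => ρ w.1, fun w => ((ρ w.1 : ℝ) : ℂ))

theorem ev_rhoE (ρ : InfinitePlace L → ℝ) (w : InfinitePlace L) : ev w (rhoE L ρ) = ((ρ w : ℝ) : ℂ) := by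
  rcases isReal_or_isComplex w with h | h
  · rw [ev_real h]
    rfl
  · rw [ev_complex h]
    rfl

end ev

variable {K L : Type} [Field K] [NumberField K] [Field L] [NumberField L] [Algebra K L]

/-- The embedding of a place and the embedding of its restriction. -/
theorem pf3_conj (w : InfinitePlace L) : ∃ σ : ℂ →ₗ[ℝ] ℂ, (∀ r : ℝ, σ (r : ℂ) = r) ∧ ∀ t : K, w.embedding (algebraMap K L t) = σ ((w.comap (algebraMap K L)).embedding t) := by
  have h1 : mk (w.embedding.comp (algebraMap K L)) = mk (w.comap (algebraMap K L)).embedding := by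
    rw [mk_embedding, ← comap_mk, mk_embedding]
  rcases mk_eq_iff.1 h1 with h | h
  · refine ⟨LinearMap.id, fun r => rfl, fun t => ?_⟩
    rw [LinearMap.id_apply, ← h]
    rfl
  · refine ⟨Complex.conjAe.toLinearMap, fun r => Complex.conj_ofReal r, fun t => ?_⟩
    rw [← h]
    show _ = (starRingEnd ℂ) (ComplexEmbedding.conjugate (w.embedding.comp (algebraMap K L)) t)
    rw [ComplexEmbedding.conjugate_coe_eq, Complex.conj_conj]
    rfl

/-- **The elements of the `K`-form with given real coordinates** (constant on the places over a place of `K`). -/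
theorem pf3_rho (ρ : InfinitePlace K → ℝ) : rhoE L (fun w => ρ (w.comap (algebraMap K L))) ∈ KR K L := by
  choose σ hσ1 hσ2 using pf3_conj (K := K) (L := L)
  have key : ∀ x : EE K, ∃ d ∈ KR K L, ∀ w : InfinitePlace L, ev w d = σ w (ev (w.comap (algebraMap K L)) x) := by
    intro x
    have h2 : x ∈ Submodule.span ℝ (Set.range (mixedEmbedding K : K → EE K)) := by
      rw [pe4_span]
      exact Submodule.mem_top
    induction h2 using Submodule.span_induction with
    | mem x hx =>
      obtain ⟨t, rfl⟩ := hx
      refine ⟨mixedEmbedding L (algebraMap K L t), Submodule.subset_span ⟨t, rfl⟩, fun w => ?_⟩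
      rw [ev_me, ev_me, hσ2]
    | zero => exact ⟨0, Submodule.zero_mem _, fun w => by rw [ev_zero, ev_zero, map_zero]⟩
    | add x y _ _ hx hy =>
      obtain ⟨d, hd, h1⟩ := hx
      obtain ⟨d', hd', h2⟩ := hy
      exact ⟨d + d', Submodule.add_mem _ hd hd', fun w => by rw [ev_add, ev_add, map_add, h1, h2]⟩
    | smul r x _ hx =>
      obtain ⟨d, hd, h1⟩ := hx
      exact ⟨r • d, Submodule.smul_mem _ _ hd, fun w => by rw [ev_smul, ev_smul, map_smul, h1]⟩
  obtain ⟨d, hd, h1⟩ := key (rhoE K ρ)
  have e : rhoE L (fun w => ρ (w.comap (algebraMap K L))) = d := by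
    refine ev_ext fun w => ?_
    rw [ev_rhoE, h1, ev_rhoE, hσ1]
  rw [e]
  exact hd

/-- The `K`-form is a ring. -/
theorem pf3_mul {x y : EE L} (hx : x ∈ KR K L) (hy : y ∈ KR K L) : x * y ∈ KR K L := by
  induction hx using Submodule.span_induction with
  | mem x hx =>
    obtain ⟨t, rfl⟩ := hx
    induction hy using Submodule.span_induction with
    | mem y hy =>
      obtain ⟨t', rfl⟩ := hy
      show mixedEmbedding L (algebraMap K L t) * mixedEmbedding L (algebraMap K L t') ∈ KR K L
      rw [← map_mul, ← map_mul]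
      exact Submodule.subset_span ⟨t * t', rfl⟩
    | zero =>
      rw [mul_zero]
      exact Submodule.zero_mem _
    | add y y' _ _ h h' =>
      rw [mul_add]
      exact Submodule.add_mem _ h h'
    | smul r y _ h =>
      rw [mul_smul_comm]
      exact Submodule.smul_mem _ _ h
  | zero =>
    rw [zero_mul]
    exact Submodule.zero_mem _
  | add x x' _ _ h h' =>
    rw [add_mul]
    exact Submodule.add_mem _ h h'
  | smul r x _ h =>
    rw [smul_mul_assoc]
    exact Submodule.smul_mem _ _ h

variable {n : Type} [Fintype n] [DecidableEq n]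

/-- The scaling of the vectors over the `K`-form. -/
def ScL (K L : Type) [Field K] [NumberField K] [Field L] [NumberField L] [Algebra K L] (n : Type) (ρ : InfinitePlace K → ℝ) : (n → KR K L) →ₗ[ℝ] (n → KR K L) where
  toFun v i := ⟨rhoE L (fun w => ρ (w.comap (algebraMap K L))) * (v i : EE L), pf3_mul (pf3_rho ρ) (v i).2⟩
  map_add' _ _ := funext fun _ => Subtype.ext (mul_add _ _ _)
  map_smul' _ _ := funext fun _ => Subtype.ext (mul_smul_comm _ _ _)

theorem scL_coe (ρ : InfinitePlace K → ℝ) (v : n → KR K L) (i : n) : ((ScL K L n ρ v i : KR K L) : EE L) = rhoE L (fun w => ρ (w.comap (algebraMap K L))) * (v i : EE L) := rfl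

theorem norm_rhoE (ρ : InfinitePlace L → ℝ) : mixedEmbedding.norm (rhoE L ρ) = ∏ w, |ρ w| ^ mult w := by
  rw [mixedEmbedding.norm_apply]
  refine Finset.prod_congr rfl fun w _ => ?_
  rw [← ev_norm, ev_rhoE, Complex.norm_real, Real.norm_eq_abs]

/-- **The determinant of the scaling.** -/
theorem scL_det (ρ : InfinitePlace K → ℝ) : |LinearMap.det (ScL K L n ρ)| ^ Module.finrank K L = (∏ w : InfinitePlace L, |ρ (w.comap (algebraMap K L))| ^ mult w) ^ Fintype.card n := by
  have h := pe_det (K := K) (L := L) (n := n) (M := Matrix.diagonal fun _ => rhoE L (fun w => ρ (w.comap (algebraMap K L)))) (C := 1) (C' := 1) (a := fun _ => rhoE L (fun w => ρ (w.comap (algebraMap K L))))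
    (by rw [mul_one, one_mul]) (mul_one _) (T := ScL K L n ρ) (fun v i => by
      rw [scL_coe, Finset.sum_eq_single i]
      · rw [Matrix.diagonal_apply_eq]
      · intro j _ hj
        rw [Matrix.diagonal_apply_ne _ hj.symm, zero_mul]
      · intro h
        exact absurd (Finset.mem_univ i) h)
  rw [h, Finset.prod_const, Finset.card_univ, norm_rhoE]

end

end Pool.Agent.Lib.L8
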