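import Pool.Agent.Lib.L8.PF3

/-!
# L8, conductor aspect, file PF4 (helper29): the volume of the balls in the `K`-form, the Haar measure of an extension by a vector group
-/

namespace Pool.Agent.Lib.L8

set_option linter.unusedSectionVars false

open MeasureTheory Matrix NumberField NumberField.InfinitePlace IsDedekindDomain Pool.Agent.Lib.H89N Pool.Agent.Lib.H33W Pool.Agent.Lib.L1S
open scoped ENNReal

noncomputable section

/-- The Haar measure of an extension by a vector group: a set in a product. -/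
theorem pf_haar {G N V : Type} [Group G] [TopologicalSpace G] [IsTopologicalGroup G] [T2Space G] [LocallyCompactSpace G] [SecondCountableTopology G] [MeasurableSpace G] [BorelSpace G]
    [Group N] [TopologicalSpace N] [IsTopologicalGroup N] [LocallyCompactSpace N] [SecondCountableTopology N] [MeasurableSpace N] [BorelSpace N]
    [NormedAddCommGroup V] [NormedSpace ℝ V] [FiniteDimensional ℝ V] [MeasurableSpace V] [BorelSpace V]
    (μ : Measure G) [μ.IsHaarMeasure] (μN : Measure N) [μN.IsHaarMeasure] (μV : Measure V) [μV.IsAddHaarMeasure] (e : V × N ≃ₜ G) (j : N →* G) (κ : G → V) (hκ : ∀ g g', κ (g * g') = κ g + κ g')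
    (he : ∀ v n, e (v, n) = e (v, 1) * j n) (hκe : ∀ v n, κ (e (v, n)) = v) :
    ∃ c : ℝ, 0 ≤ c ∧ ∀ (s : Set G) (A : Set V) (B : Set N), (∀ v n, e (v, n) ∈ s → v ∈ A ∧ n ∈ B) → μ s ≤ ENNReal.ofReal c * (μV A * μN B) := by
  have : SecondCountableTopology V := inferInstance
  -- the form of an element
  have key : ∀ x : G, x = e (κ x, 1) * j (e.symm x).2 := by
    intro x
    obtain ⟨⟨v, n⟩, rfl⟩ := e.surjective x
    rw [hκe, e.symm_apply_apply]
    exact he v n
  have e1 : ∀ v n n', e (v, n) * j n' = e (v, n * n') := by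
    intro v n n'
    rw [he v n, he v (n * n'), map_mul, mul_assoc]
  have ce1 : Continuous fun v : V => e (v, 1) := e.continuous.comp (continuous_id.prodMk continuous_const)
  set m : Measure (V × N) := μV.prod μN with hm
  set μ' : Measure G := m.map e with hμ'
  have hem : Measurable e := e.continuous.measurable
  -- left invariance
  have hinv : μ'.IsMulLeftInvariant := by
    constructor
    intro g
    set cg : V → N := fun v => (e.symm (g * e (v, 1))).2 with hcg
    have ccg : Continuous cg := continuous_snd.comp (e.symm.continuous.comp (continuous_const.mul ce1))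
    have h1 : ∀ p : V × N, g * e p = e (κ g + p.1, cg p.1 * p.2) := by
      rintro ⟨v, n⟩
      have h2 : g * e (v, 1) = e (κ g + v, 1) * j (cg v) := by
        conv_lhs => rw [key (g * e (v, 1))]
        rw [hκ, hκe]
      rw [he v n, ← mul_assoc, h2, mul_assoc, ← map_mul, e1, one_mul]
    have h3 : MeasurePreserving (fun p : V × N => (κ g + p.1, cg p.1 * p.2)) m m := by
      refine MeasurePreserving.skew_product (f := fun v => κ g + v) (g := fun v n => cg v * n) (measurePreserving_add_left μV (κ g)) ?_ ?_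
      · exact ((ccg.comp continuous_fst).mul continuous_snd).measurable
      · exact Filter.Eventually.of_forall fun v => map_mul_left_eq_self μN (cg v)
    have h4 : (fun x : G => g * x) ∘ e = e ∘ fun p : V × N => (κ g + p.1, cg p.1 * p.2) := funext h1
    rw [hμ', Measure.map_map (measurable_const_mul g) hem, h4, ← Measure.map_map hem h3.measurable, h3.map_eq]
  have hfin : IsFiniteMeasureOnCompacts μ' := by
    constructor
    intro K hK
    rw [hμ', Measure.map_apply hem hK.measurableSet]
    exact (e.isCompact_preimage.2 hK).measure_lt_top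
  have hne : μ' ≠ 0 := by
    rw [hμ', Ne, Measure.map_eq_zero_iff hem.aemeasurable]
    exact (inferInstance : NeZero m).out
  have hs := Measure.isMulLeftInvariant_eq_smul μ' μ
  set c₀ := μ'.haarScalarFactor μ with hc₀
  have hc0 : c₀ ≠ 0 := by
    intro h
    apply hne
    rw [hs, h, zero_smul]
  refine ⟨((c₀⁻¹ : NNReal) : ℝ), NNReal.coe_nonneg _, fun s A B h => ?_⟩
  have h1 : μ = (c₀⁻¹ : NNReal) • μ' := by
    rw [hs, smul_smul, inv_mul_cancel₀ hc0, one_smul]
  have h2 : μ' s ≤ μV A * μN B := by
    rw [hμ', e.measurableEmbedding.map_apply, hm]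
    refine (measure_mono (t := A ×ˢ B) ?_).trans (Measure.prod_prod_le A B)
    rintro ⟨v, n⟩ hp
    exact h v n hp
  rw [h1, Measure.smul_apply, ENNReal.ofReal_coe_nnreal]
  exact mul_le_mul_right h2 _

section ball

variable {L : Type} [Field L] [NumberField L]

theorem pf4_norm_le {x : EE L} {c : ℝ} (hc : 0 ≤ c) (h : ∀ w, mixedEmbedding.normAtPlace w x ≤ c) : ‖x‖ ≤ c := by
  rw [Prod.norm_def, sup_le_iff]
  constructor
  · rw [pi_norm_le_iff_of_nonneg hc]
    intro w
    rw [← mixedEmbedding.normAtPlace_apply_of_isReal w.2]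
    exact h w.1
  · rw [pi_norm_le_iff_of_nonneg hc]
    intro w
    rw [← mixedEmbedding.normAtPlace_apply_of_isComplex w.2]
    exact h w.1

variable {K : Type} [Field K] [NumberField K] [Algebra K L]

/-- `(∏_w δ_w ^ n_w) ^ (1 / [L : K])` for `δ` constant on the places over a place of `K`. -/
def Dk (L : Type) [Field L] [NumberField L] {K : Type} [Field K] [NumberField K] [Algebra K L] (δ : InfinitePlace K → ℝ) : ℝ :=
  (∏ w : InfinitePlace L, δ (w.comap (algebraMap K L)) ^ mult w) ^ ((Module.finrank K L : ℝ)⁻¹)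

theorem pf4_g (K L : Type) [Field K] [NumberField K] [Field L] [NumberField L] [Algebra K L] : 0 < Module.finrank K L := by
  have : FiniteDimensional K L := Module.Finite.of_restrictScalars_finite ℚ K L
  exact Module.finrank_pos

theorem dk_pos {δ : InfinitePlace K → ℝ} (hδ : ∀ y, 0 < δ y) : 0 < Dk L δ := Real.rpow_pos_of_pos (Finset.prod_pos fun w _ => pow_pos (hδ _) _) _

variable {n : Type} [Fintype n] [DecidableEq n]

theorem scL_det' {δ : InfinitePlace K → ℝ} (hδ : ∀ y, 0 < δ y) : |LinearMap.det (ScL K L n δ)| = Dk L δ ^ Fintype.card n := by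
  have h := scL_det (L := L) (n := n) δ
  have h1 : (∏ w : InfinitePlace L, |δ (w.comap (algebraMap K L))| ^ mult w) = ∏ w : InfinitePlace L, δ (w.comap (algebraMap K L)) ^ mult w :=
    Finset.prod_congr rfl fun _ _ => by rw [abs_of_pos (hδ _)]
  rw [h1] at h
  have h2 : (0 : ℝ) ≤ ∏ w : InfinitePlace L, δ (w.comap (algebraMap K L)) ^ mult w := Finset.prod_nonneg fun w _ => (pow_pos (hδ _) _).le
  have h3 : (Dk L δ ^ Fintype.card n) ^ Module.finrank K L = (∏ w : InfinitePlace L, δ (w.comap (algebraMap K L)) ^ mult w) ^ Fintype.card n := by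
    rw [← pow_mul, mul_comm, pow_mul]
    unfold Dk
    rw [Real.rpow_inv_natCast_pow h2 (pf4_g K L).ne']
  exact (pow_left_inj₀ (abs_nonneg _) (pow_nonneg (dk_pos hδ).le _) (pf4_g K L).ne').1 (h.trans h3.symm)

/-- **The volume of the balls in the `K`-form.** -/
theorem pf_ball [MeasurableSpace (n → KR K L)] [BorelSpace (n → KR K L)] (μ : Measure (n → KR K L)) [μ.IsAddHaarMeasure] {c : ℝ} (hc : 0 ≤ c) :
    ∃ C : ℝ, 0 ≤ C ∧ ∀ δ : InfinitePlace K → ℝ, (∀ y, 0 < δ y) →
      μ {v | ∀ i (w : InfinitePlace L), mixedEmbedding.normAtPlace w (v i : EE L) ≤ c * δ (w.comap (algebraMap K L))} ≤ ENNReal.ofReal (C * Dk L δ ^ Fintype.card n) := by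
  set B₁ : Set (n → KR K L) := {v | ∀ i (w : InfinitePlace L), mixedEmbedding.normAtPlace w (v i : EE L) ≤ c} with hB₁
  have hfin : μ B₁ ≠ ⊤ := by
    refine ((measure_mono (t := Metric.closedBall 0 c) ?_).trans_lt (isCompact_closedBall (0 : n → KR K L) c).measure_lt_top).ne
    intro v hv
    rw [mem_closedBall_zero_iff, pi_norm_le_iff_of_nonneg hc]
    intro i
    exact pf4_norm_le hc (hv i)
  refine ⟨(μ B₁).toReal, ENNReal.toReal_nonneg, fun δ hδ => ?_⟩
  have h1 : {v : n → KR K L | ∀ i (w : InfinitePlace L), mixedEmbedding.normAtPlace w (v i : EE L) ≤ c * δ (w.comap (algebraMap K L))} ⊆ ScL K L n δ '' B₁ := by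
    intro v hv
    refine ⟨ScL K L n (fun y => (δ y)⁻¹) v, fun i w => ?_, ?_⟩
    · rw [scL_coe, map_mul, ← ev_norm, ev_rhoE, Complex.norm_real, Real.norm_eq_abs, abs_inv, abs_of_pos (hδ _), inv_mul_le_iff₀ (hδ _), mul_comm]
      exact hv i w
    · funext i
      apply Subtype.ext
      rw [scL_coe, scL_coe, ← mul_assoc]
      have e : rhoE L (fun w => δ (w.comap (algebraMap K L))) * rhoE L (fun w => (δ (w.comap (algebraMap K L)))⁻¹) = 1 := by
        refine ev_ext fun w => ?_
        rw [ev_mul, ev_rhoE, ev_rhoE, ev_one, ← Complex.ofReal_mul, mul_inv_cancel₀ (hδ _).ne', Complex.ofReal_one]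
      rw [e, one_mul]
  refine (measure_mono h1).trans ?_
  rw [Measure.addHaar_image_linearMap, scL_det' hδ, mul_comm ((μ B₁).toReal), ENNReal.ofReal_mul (pow_nonneg (dk_pos hδ).le _), ENNReal.ofReal_toReal hfin]

end ball

end

end Pool.Agent.Lib.L8
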