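import Pool.Agent.Lib.L8.PF4
import Pool.Agent.Lib.L8.PE7

/-!
# L8, conductor aspect, file PF5 (helper29): the volume of the small balls of `U`
-/

namespace Pool.Agent.Lib.L8

set_option linter.unusedSectionVars false

open MeasureTheory Matrix NumberField NumberField.InfinitePlace IsDedekindDomain Pool.Agent.Lib.H89N Pool.Agent.Lib.H33W Pool.Agent.Lib.L1S
open scoped ENNReal

noncomputable section

section near

variable {L : Type} [Field L] [NumberField L] {J : Type} [Fintype J] [DecidableEq J] {w : InfinitePlace L}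

theorem nb_one (w : InfinitePlace L) : NB w (1 : Matrix J J (EE L)) 1 := by
  intro i j
  rw [Matrix.one_apply]
  split_ifs
  · rw [map_one]
  · rw [map_zero]
    exact zero_le_one

/-- `A = 1 + O(δ)` is bounded. -/
theorem nb_of_near {A : Matrix J J (EE L)} {c δ : ℝ} (hc : 0 ≤ c) (hδ : δ ≤ 1) (h : NB w (A - 1) (c * δ)) : NB w A (c + 1) := by
  have h1 := h.add (nb_one (J := J) w)
  rw [sub_add_cancel] at h1
  refine h1.mono ?_
  nlinarith

/-- Products of matrices near `1`. -/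
theorem nb_near_mul {A B : Matrix J J (EE L)} {c c' δ : ℝ} (hc : 0 ≤ c) (hc' : 0 ≤ c') (hδ0 : 0 ≤ δ) (hδ : δ ≤ 1) (h : NB w (A - 1) (c * δ)) (h' : NB w (B - 1) (c' * δ)) :
    NB w (A * B - 1) ((Fintype.card J * (c * (c' + 1)) + c') * δ) := by
  have e : A * B - 1 = (A - 1) * B + (B - 1) := by
    rw [sub_mul, one_mul, sub_add_sub_cancel]
  rw [e]
  refine ((h.mul (nb_of_near hc' hδ h') (mul_nonneg hc hδ0)).add h').mono (le_of_eq ?_)
  ring

end near

variable {ι M N : Type} [Fintype ι] [DecidableEq ι] [AddCommGroup M] [Module ℚ M] [AddCommGroup N] [Module ℚ N]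
  {P : RootPairing ι ℚ M N} [P.IsCrystallographic] [P.IsReduced] [P.IsIrreducible] [P.IsRootSystem] {b : P.Base}

/-- `g` and `g⁻¹` are near `1` at the place `w`. -/
def Nr {L : Type} [Field L] [NumberField L] {H : Subgroup (GK b L)} (w : InfinitePlace L) (X : ℝ) (g : UHR H) : Prop := NB w (g.1.1.1.1 - 1) X ∧ NB w (g⁻¹.1.1.1.1 - 1) X

theorem Nr.inv {L : Type} [Field L] [NumberField L] {H : Subgroup (GK b L)} {w : InfinitePlace L} {X : ℝ} {g : UHR H} (h : Nr w X g) : Nr w X g⁻¹ := by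
  refine ⟨h.2, ?_⟩
  rw [inv_inv]
  exact h.1

/-- The constant of a product. -/
def cM (b : P.Base) (c c' : ℝ) : ℝ := Fintype.card (I b) * (c * (c' + 1)) + c' + (Fintype.card (I b) * (c' * (c + 1)) + c)

theorem cM_nonneg {c c' : ℝ} (hc : 0 ≤ c) (hc' : 0 ≤ c') : 0 ≤ cM b c c' := by
  unfold cM
  positivity

theorem Nr.mul {L : Type} [Field L] [NumberField L] {H : Subgroup (GK b L)} {w : InfinitePlace L} {c c' δ : ℝ} (hc : 0 ≤ c) (hc' : 0 ≤ c') (hδ0 : 0 ≤ δ) (hδ : δ ≤ 1) {g g' : UHR H}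
    (h : Nr w (c * δ) g) (h' : Nr w (c' * δ) g') : Nr w (cM b c c' * δ) (g * g') := by
  have hn : (0 : ℝ) ≤ Fintype.card (I b) := Nat.cast_nonneg _
  constructor
  · have e : (g * g').1.1.1.1 = g.1.1.1.1 * g'.1.1.1.1 := rfl
    rw [e]
    refine (nb_near_mul hc hc' hδ0 hδ h.1 h'.1).mono (mul_le_mul_of_nonneg_right ?_ hδ0)
    unfold cM
    have : 0 ≤ (Fintype.card (I b) : ℝ) * (c' * (c + 1)) + c := by positivity
    linarith
  · have e : (g * g')⁻¹.1.1.1.1 = g'⁻¹.1.1.1.1 * g⁻¹.1.1.1.1 := by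
      rw [_root_.mul_inv_rev]
      rfl
    rw [e]
    refine (nb_near_mul hc' hc hδ0 hδ h'.2 h.2).mono (mul_le_mul_of_nonneg_right ?_ hδ0)
    unfold cM
    have : 0 ≤ (Fintype.card (I b) : ℝ) * (c * (c' + 1)) + c' := by positivity
    linarith

theorem nr_one {L : Type} [Field L] [NumberField L] {H : Subgroup (GK b L)} (w : InfinitePlace L) {X : ℝ} (hX : 0 ≤ X) : Nr w X (1 : UHR H) := by
  have h1 : NB w ((1 : Matrix (I b) (I b) (EE L)) - 1) X := by
    intro i j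
    rw [sub_self, Matrix.zero_apply, map_zero]
    exact hX
  refine ⟨h1, ?_⟩
  rw [inv_one]
  exact h1

variable {K L : Type} [Field K] [NumberField K] [Field L] [NumberField L] [Algebra K L]

section lie

variable {D : Set (Equiv.Perm ι)} {H : Subgroup (GK b L)} (J : LieH b K L D H)

/-- The size of `x_β(t) - 1`. -/
theorem pf5_xE {c : ℝ} (hc : 0 ≤ c) : ∃ c' : ℝ, 0 ≤ c' ∧ ∀ β ∈ Pos b, ∀ (w : InfinitePlace L) (δ : ℝ), 0 ≤ δ → δ ≤ 1 → ∀ t : KR K L, mixedEmbedding.normAtPlace w (t : EE L) ≤ c * δ →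
    NB w ((J.xE β t).1.1 - 1) (c' * δ) := by
  set m : ι → ℕ → I b → I b → InfinitePlace L → ℝ := fun β k r c w => mixedEmbedding.normAtPlace w (mixedEmbedding L ((J.DP β k r c : 𝓞 L) : L)) with hm
  have hm0 : ∀ β k r c w, 0 ≤ m β k r c w := fun β k r c w => mixedEmbedding.normAtPlace_nonneg _ _
  set M : ℝ := ∑ β, ∑ k ∈ Finset.range J.m, ∑ r, ∑ c, ∑ w, m β k r c w with hM
  have hM0 : 0 ≤ M := Finset.sum_nonneg fun β _ => Finset.sum_nonneg fun k _ => Finset.sum_nonneg fun r _ => Finset.sum_nonneg fun c _ => Finset.sum_nonneg fun w _ => hm0 β k r c w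
  have hle : ∀ β, ∀ k ∈ Finset.range J.m, ∀ r c w, m β k r c w ≤ M := by
    intro β k hk r c w
    have h1 := Finset.single_le_sum (f := fun w => m β k r c w) (fun w _ => hm0 β k r c w) (Finset.mem_univ w)
    have h2 := Finset.single_le_sum (f := fun c => ∑ w, m β k r c w) (fun c _ => Finset.sum_nonneg fun w _ => hm0 β k r c w) (Finset.mem_univ c)
    have h3 := Finset.single_le_sum (f := fun r => ∑ c, ∑ w, m β k r c w) (fun r _ => Finset.sum_nonneg fun c _ => Finset.sum_nonneg fun w _ => hm0 β k r c w) (Finset.mem_univ r)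
    have h4 := Finset.single_le_sum (f := fun k => ∑ r, ∑ c, ∑ w, m β k r c w) (fun k _ => Finset.sum_nonneg fun r _ => Finset.sum_nonneg fun c _ => Finset.sum_nonneg fun w _ => hm0 β k r c w) hk
    have h5 := Finset.single_le_sum (f := fun β => ∑ k ∈ Finset.range J.m, ∑ r, ∑ c, ∑ w, m β k r c w)
      (fun β _ => Finset.sum_nonneg fun k _ => Finset.sum_nonneg fun r _ => Finset.sum_nonneg fun c _ => Finset.sum_nonneg fun w _ => hm0 β k r c w) (Finset.mem_univ β)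
    exact h1.trans (h2.trans (h3.trans (h4.trans h5)))
  refine ⟨J.m * ((c + 1) ^ J.m * M), by positivity, fun β hβ w δ hδ0 hδ t ht r s => ?_⟩
  have hmp := rh2e_m J β r
  have e1 : ((J.xE β t).1.1 - 1) r s = ∑ k ∈ (Finset.range J.m).erase 0, (t : EE L) ^ k * (mixedEmbedding L ((J.DP β k r s : 𝓞 L) : L) : EE L) := by
    rw [Matrix.sub_apply, rh2e_val J hβ, ← Finset.add_sum_erase _ _ (Finset.mem_range.2 hmp), pow_zero, one_mul, J.dp0]
    have e2 : (mixedEmbedding L (((1 : Matrix (I b) (I b) (𝓞 L)) r s : 𝓞 L) : L) : EE L) = (1 : Matrix (I b) (I b) (EE L)) r s := by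
      rw [Matrix.one_apply, Matrix.one_apply]
      split_ifs
      · exact rh2e_me1
      · exact rh2e_me0
    rw [e2, add_sub_cancel_left]
  rw [e1]
  refine (pd_sum_le w _ _).trans ?_
  have h1 : ∀ k ∈ (Finset.range J.m).erase 0, mixedEmbedding.normAtPlace w ((t : EE L) ^ k * (mixedEmbedding L ((J.DP β k r s : 𝓞 L) : L) : EE L)) ≤ ((c + 1) ^ J.m * M) * δ := by
    intro k hk
    obtain ⟨hk0, hkm⟩ := Finset.mem_erase.1 hk
    rw [map_mul, map_pow]
    have h2 : mixedEmbedding.normAtPlace w (t : EE L) ^ k ≤ (c + 1) ^ J.m * δ := by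
      calc mixedEmbedding.normAtPlace w (t : EE L) ^ k ≤ (c * δ) ^ k := pow_le_pow_left₀ (mixedEmbedding.normAtPlace_nonneg _ _) ht k
        _ = c ^ k * δ ^ k := mul_pow _ _ _
        _ ≤ (c + 1) ^ J.m * δ := by
            refine mul_le_mul ?_ ?_ (pow_nonneg hδ0 k) (by positivity)
            · exact (pow_le_pow_left₀ hc (by linarith) k).trans (pow_le_pow_right₀ (by linarith) (Finset.mem_range.1 hkm).le)
            · exact pow_le_of_le_one hδ0 hδ hk0
    calc mixedEmbedding.normAtPlace w (t : EE L) ^ k * m β k r s w ≤ ((c + 1) ^ J.m * δ) * M := mul_le_mul h2 (hle β k hkm r s w) (hm0 β k r s w) (by positivity)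
      _ = _ := by ring
  refine (Finset.sum_le_card_nsmul _ _ _ h1).trans ?_
  have h2 : (J.m : ℝ) * ((c + 1) ^ J.m * M) * δ = J.m * (((c + 1) ^ J.m * M) * δ) := by ring
  have h0 : 0 ≤ ((c + 1) ^ J.m * M) * δ := by positivity
  rw [nsmul_eq_mul, h2]
  refine mul_le_mul_of_nonneg_right ?_ h0
  have h3 : ((Finset.range J.m).erase 0).card ≤ J.m := by
    have h4 : ((Finset.range J.m).erase 0).card ≤ (Finset.range J.m).card := Finset.card_le_card (Finset.erase_subset _ _)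
    rwa [Finset.card_range] at h4
  exact_mod_cast h3

/-- The size of the product of the `x_β(s_β)`, `β` of height `k`. -/
theorem pf5_prE (k : ℕ) {c : ℝ} (hc : 0 ≤ c) : ∃ c' : ℝ, 0 ≤ c' ∧ ∀ (w : InfinitePlace L) (δ : ℝ), 0 ≤ δ → δ ≤ 1 → ∀ s : ι → KR K L, (∀ β ∈ Posk b k, mixedEmbedding.normAtPlace w (s β : EE L) ≤ c * δ) →
    Nr w (c' * δ) (J.prE k s) := by
  obtain ⟨c₁, hc1, h1⟩ := pf5_xE J hc
  have hx : ∀ β ∈ Posk b k, ∀ (w : InfinitePlace L) (δ : ℝ), 0 ≤ δ → δ ≤ 1 → ∀ t : KR K L, mixedEmbedding.normAtPlace w (t : EE L) ≤ c * δ → Nr w (c₁ * δ) (J.xU β t) := by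
    intro β hβ w δ hδ0 hδ t ht
    obtain ⟨hp, _⟩ := r1_mem_posk.1 hβ
    have e1 : (J.xU β t).1.1 = J.xE β t := by
      unfold LieH.xU
      rw [dif_pos hp]
    have e2 : (J.xU β t)⁻¹.1.1 = J.xE β (-t) := by
      rw [← rh2e_neg J hp, ← e1]
      rfl
    refine ⟨?_, ?_⟩
    · rw [e1]
      exact h1 β hp w δ hδ0 hδ t ht
    · rw [e2]
      refine h1 β hp w δ hδ0 hδ (-t) ?_
      rw [Submodule.coe_neg, mixedEmbedding.normAtPlace_neg]
      exact ht
  have key : ∀ l : List ι, (∀ β ∈ l, β ∈ Posk b k) → ∃ c' : ℝ, 0 ≤ c' ∧ ∀ (w : InfinitePlace L) (δ : ℝ), 0 ≤ δ → δ ≤ 1 → ∀ s : ι → KR K L, (∀ β ∈ Posk b k, mixedEmbedding.normAtPlace w (s β : EE L) ≤ c * δ) →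
      Nr w (c' * δ) (l.map fun β => J.xU β (s β)).prod := by
    intro l
    induction l with
    | nil =>
      intro _
      refine ⟨0, le_rfl, fun w δ hδ0 hδ s hs => ?_⟩
      rw [List.map_nil, List.prod_nil]
      exact nr_one w (by rw [zero_mul])
    | cons β l ih =>
      intro hl
      obtain ⟨c₂, hc2, h2⟩ := ih fun β' h' => hl β' (List.mem_cons_of_mem _ h')
      refine ⟨cM b c₁ c₂, cM_nonneg hc1 hc2, fun w δ hδ0 hδ s hs => ?_⟩
      rw [List.map_cons, List.prod_cons]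
      have hβ := hl β List.mem_cons_self
      exact (hx β hβ w δ hδ0 hδ _ (hs β hβ)).mul hc1 hc2 hδ0 hδ (h2 w δ hδ0 hδ s hs)
  exact key _ fun β hβ => Finset.mem_toList.1 hβ

end lie

variable {Q : QS b K L} [IsGalois K L] (J : LID Q)

/-- The size of the coordinates. -/
theorem pf5_kapE {k : ℕ} (hk : 1 ≤ k) : ∃ c' : ℝ, 0 ≤ c' ∧ ∀ β ∈ Posk b k, ∀ (w : InfinitePlace L) (u : UHR (HQ Q)) (X : ℝ), 0 ≤ X → NB w (u.1.1.1.1 - 1) X → mixedEmbedding.normAtPlace w (kapE J β u : EE L) ≤ c' * X := by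
  set M : ℝ := ∑ β, ∑ w : InfinitePlace L, ∑ r, ∑ c, mixedEmbedding.normAtPlace w (FE J β r c) with hM
  have hm0 : ∀ β (w : InfinitePlace L) r c, 0 ≤ mixedEmbedding.normAtPlace w (FE J β r c) := fun β w r c => mixedEmbedding.normAtPlace_nonneg _ _
  have hM0 : 0 ≤ M := Finset.sum_nonneg fun β _ => Finset.sum_nonneg fun w _ => Finset.sum_nonneg fun r _ => Finset.sum_nonneg fun c _ => hm0 β w r c
  refine ⟨|(J.c0 : ℝ)⁻¹| * M, by positivity, fun β hβ w u X hX hu => ?_⟩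
  have h1 : (kapE J β u : EE L) = (J.c0 : ℝ)⁻¹ • fcM (FE J β) (u.1.1.1.1 - 1) := by
    have h2 : (kapE J β (1 : UHR (HQ Q)) : EE L) = 0 := by
      rw [kapE_one J hk hβ]
      rfl
    have h3 : (J.c0 : ℝ)⁻¹ • fcM (FE J β) (1 : Matrix (I b) (I b) (EE L)) = 0 := h2
    have h4 : fcM (FE J β) u.1.1.1.1 = fcM (FE J β) (u.1.1.1.1 - 1) + fcM (FE J β) 1 := by
      rw [← fcM_add, sub_add_cancel]
    rw [kapE_coe, h4, smul_add, h3, add_zero]
  rw [h1, mixedEmbedding.normAtPlace_smul, mul_assoc]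
  refine mul_le_mul_of_nonneg_left ?_ (abs_nonneg _)
  unfold fcM
  calc mixedEmbedding.normAtPlace w (∑ r, ∑ c, FE J β r c * (u.1.1.1.1 - 1) r c) ≤ ∑ r, mixedEmbedding.normAtPlace w (∑ c, FE J β r c * (u.1.1.1.1 - 1) r c) := pd_sum_le w _ _
    _ ≤ ∑ r, ∑ c, mixedEmbedding.normAtPlace w (FE J β r c * (u.1.1.1.1 - 1) r c) := Finset.sum_le_sum fun r _ => pd_sum_le w _ _
    _ ≤ ∑ r, ∑ c, mixedEmbedding.normAtPlace w (FE J β r c) * X := by
        refine Finset.sum_le_sum fun r _ => Finset.sum_le_sum fun c _ => ?_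
        rw [map_mul]
        exact mul_le_mul_of_nonneg_left (hu r c) (hm0 β w r c)
    _ = (∑ r, ∑ c, mixedEmbedding.normAtPlace w (FE J β r c)) * X := by
        rw [Finset.sum_mul]
        exact Finset.sum_congr rfl fun r _ => (Finset.sum_mul _ _ _).symm
    _ ≤ M * X := by
        refine mul_le_mul_of_nonneg_right ?_ hX
        have h2 := Finset.single_le_sum (f := fun w : InfinitePlace L => ∑ r, ∑ c, mixedEmbedding.normAtPlace w (FE J β r c)) (fun w _ => Finset.sum_nonneg fun r _ => Finset.sum_nonneg fun c _ => hm0 β w r c) (Finset.mem_univ w)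
        have h3 := Finset.single_le_sum (f := fun β => ∑ w : InfinitePlace L, ∑ r, ∑ c, mixedEmbedding.normAtPlace w (FE J β r c)) (fun β _ => Finset.sum_nonneg fun w _ => Finset.sum_nonneg fun r _ => Finset.sum_nonneg fun c _ => hm0 β w r c) (Finset.mem_univ β)
        exact h2.trans h3

/-- The small ball of `U`. -/
def BlU (c : ℝ) (δ : InfinitePlace K → ℝ) : Set (UHR (HQ Q)) := {u | ∀ w : InfinitePlace L, Nr w (c * δ (w.comap (algebraMap K L))) u}

include J in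
/-- **The volume of the small balls of the filtration.** -/
theorem pf5_chain (d : ℕ) : ∀ k, k + d = HM b + 1 → 1 ≤ k → ∀ (ν : Measure ↥(FH (HQ Q) k)) [ν.IsHaarMeasure] (c : ℝ), 0 ≤ c → ∃ C : ℝ, 0 ≤ C ∧ ∀ δ : InfinitePlace K → ℝ, (∀ y, 0 < δ y ∧ δ y ≤ 1) →
    ν {u | u.1 ∈ BlU c δ} ≤ ENNReal.ofReal (C * ∏ l ∈ Finset.Ico k (HM b + 1), Dk L δ ^ (Posk b l).card) := by
  induction d with
  | zero =>
    intro k hk _ ν _ c _
    rw [add_zero] at hk
    subst hk
    have h1 : (Set.univ : Set ↥(FH (HQ Q) (HM b + 1))) ⊆ {1} := by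
      intro u _
      have h3 : toUR (HQ Q) u.1 ∈ FR b L (HM b + 1) := u.2
      rw [r1_FR_bot, Subgroup.mem_bot] at h3
      have h5 : u.1.1.1 = 1 := congrArg (fun x : UR b L => x.1) h3
      exact Subtype.ext (Subtype.ext (Subtype.ext h5))
    have h2 : ν {(1 : ↥(FH (HQ Q) (HM b + 1)))} ≠ ⊤ := (isCompact_singleton.measure_lt_top).ne
    refine ⟨(ν {(1 : ↥(FH (HQ Q) (HM b + 1)))}).toReal, ENNReal.toReal_nonneg, fun δ _ => ?_⟩
    rw [Finset.Ico_self, Finset.prod_empty, mul_one, ENNReal.ofReal_toReal h2]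
    exact measure_mono ((Set.subset_univ _).trans h1)
  | succ d ih =>
    intro k hk hk1 ν _ c hc
    have hlt : k < HM b + 1 := by omega
    obtain ⟨ν', hν'⟩ : ∃ ν' : Measure ↥(FH (HQ Q) (k + 1)), ν'.IsHaarMeasure := ⟨Measure.haar, inferInstance⟩
    obtain ⟨μV, hμV⟩ : ∃ μV : Measure ({β // β ∈ Posk b k} → KR K L), μV.IsAddHaarMeasure := ⟨Measure.addHaar, inferInstance⟩
    obtain ⟨c₁, hc1, h1⟩ := pf5_kapE J hk1
    obtain ⟨c₂, hc2, h2⟩ := pf5_prE J.lieH k (mul_nonneg hc1 hc)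
    have hc3 : 0 ≤ cM b c₂ c := cM_nonneg hc2 hc
    obtain ⟨C₁, hC1, hB⟩ := pf_ball μV (mul_nonneg hc1 hc)
    obtain ⟨C₂, hC2, hI⟩ := ih (k + 1) (by omega) (by omega) ν' (cM b c₂ c) hc3
    obtain ⟨C₀, hC0, hE⟩ := pf_haar ν ν' μV (eK J hk1) (Subgroup.inclusion (fh_mono (H := HQ Q) k)) (fun g => kaV J k g.1)
      (fun g g' => funext fun β => kapE_mul J hk1 g.2 g'.2 β.2)
      (fun v n => Subtype.ext (by
        show seV J k v * n.1 = seV J k v * 1 * n.1
        rw [mul_one]))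
      (fun v n => congrArg Prod.fst ((eK J hk1).left_inv (v, n)))
    refine ⟨C₀ * (C₁ * C₂), by positivity, fun δ hδ => ?_⟩
    have hδ0 : ∀ y, 0 < δ y := fun y => (hδ y).1
    have h3 := hE {u | u.1 ∈ BlU c δ} {v | ∀ i (w : InfinitePlace L), mixedEmbedding.normAtPlace w (v i : EE L) ≤ c₁ * c * δ (w.comap (algebraMap K L))} {u | u.1 ∈ BlU (cM b c₂ c) δ} (by
      intro v n hvn
      have e1 : ((eK J hk1) (v, n)).1 = seV J k v * n.1 := rfl
      have hvn' : ∀ w : InfinitePlace L, Nr w (c * δ (w.comap (algebraMap K L))) (seV J k v * n.1) := hvn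
      have hkv : ∀ β : {β // β ∈ Posk b k}, kapE J β.1 (seV J k v * n.1) = v β := fun β =>
        congrFun (congrArg Prod.fst ((eK J hk1).left_inv (v, n))) β
      have hv : ∀ i (w : InfinitePlace L), mixedEmbedding.normAtPlace w (v i : EE L) ≤ c₁ * c * δ (w.comap (algebraMap K L)) := by
        intro i w
        have h4 := h1 i.1 i.2 w _ _ (mul_nonneg hc (hδ0 _).le) (hvn' w).1
        rw [hkv i] at h4
        rw [mul_assoc]
        exact h4
      refine ⟨hv, fun w => ?_⟩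
      have h5 : Nr w (c₂ * δ (w.comap (algebraMap K L))) (seV J k v) := h2 w _ (hδ0 _).le (hδ _).2 (exK v) (fun β hβ => by
        rw [exK_mem v ⟨β, hβ⟩]
        exact hv ⟨β, hβ⟩ w)
      have h6 := h5.inv.mul hc2 hc (hδ0 _).le (hδ _).2 (hvn' w)
      rw [inv_mul_cancel_left] at h6
      exact h6)
    refine h3.trans ?_
    have hD0 : 0 ≤ Dk L δ := (dk_pos hδ0).le
    rw [Finset.prod_eq_prod_Ico_succ_bot hlt]
    calc ENNReal.ofReal C₀ * (μV {v | ∀ i (w : InfinitePlace L), mixedEmbedding.normAtPlace w (v i : EE L) ≤ c₁ * c * δ (w.comap (algebraMap K L))} * ν' {u | u.1 ∈ BlU (cM b c₂ c) δ})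
        ≤ ENNReal.ofReal C₀ * (ENNReal.ofReal (C₁ * Dk L δ ^ (Posk b k).card) * ENNReal.ofReal (C₂ * ∏ l ∈ Finset.Ico (k + 1) (HM b + 1), Dk L δ ^ (Posk b l).card)) := by
          have h7 := hB δ hδ0
          rw [Fintype.card_coe] at h7
          gcongr
          exact hI δ hδ
      _ = _ := by
          rw [← ENNReal.ofReal_mul (by positivity), ← ENNReal.ofReal_mul hC0]
          congr 1
          ring

include J in
/-- **The volume of the small balls of `U`.** -/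
theorem pf5_vol (ν : Measure (UHR (HQ Q))) [ν.IsHaarMeasure] {c : ℝ} (hc : 0 ≤ c) : ∃ C : ℝ, 0 ≤ C ∧ ∀ δ : InfinitePlace K → ℝ, (∀ y, 0 < δ y ∧ δ y ≤ 1) → ν (BlU c δ) ≤ ENNReal.ofReal (C * Dk L δ ^ (Pos b).card) := by
  obtain ⟨ν', hν'⟩ : ∃ ν' : Measure ↥(FH (HQ Q) 1), ν'.IsHaarMeasure := ⟨Measure.haar, inferInstance⟩
  obtain ⟨μV, hμV⟩ : ∃ μV : Measure (Fin 0 → ℝ), μV.IsAddHaarMeasure := ⟨Measure.addHaar, inferInstance⟩
  obtain ⟨C₁, hC1, h1⟩ := pf5_chain J (HM b) 1 (by omega) le_rfl ν' c hc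
  have hmem : ∀ u : UHR (HQ Q), u ∈ FH (HQ Q) 1 := by
    intro u
    show toUR (HQ Q) u ∈ FR b L 1
    rw [r1_FR_top]
    exact Subgroup.mem_top _
  let e : (Fin 0 → ℝ) × ↥(FH (HQ Q) 1) ≃ₜ UHR (HQ Q) :=
    { toFun := fun p => p.2.1
      invFun := fun u => (0, ⟨u, hmem u⟩)
      left_inv := fun p => Prod.ext (Subsingleton.elim _ _) rfl
      right_inv := fun u => rfl
      continuous_toFun := continuous_subtype_val.comp continuous_snd
      continuous_invFun := continuous_const.prodMk (Continuous.subtype_mk continuous_id _) }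
  obtain ⟨C₀, hC0, hE⟩ := pf_haar ν ν' μV e (FH (HQ Q) 1).subtype (fun _ => 0) (fun _ _ => (add_zero _).symm) (fun v n => by
      show n.1 = 1 * n.1
      rw [one_mul]) (fun v n => Subsingleton.elim _ _)
  have hfin : μV Set.univ ≠ ⊤ := by
    have h2 : (Set.univ : Set (Fin 0 → ℝ)) = {0} := by
      ext v
      simp only [Set.mem_univ, Set.mem_singleton_iff, true_iff]
      exact Subsingleton.elim _ _
    rw [h2]
    exact (isCompact_singleton.measure_lt_top).ne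
  refine ⟨C₀ * ((μV Set.univ).toReal * C₁), by positivity, fun δ hδ => ?_⟩
  have h3 := hE (BlU c δ) Set.univ {u | u.1 ∈ BlU c δ} (fun v n h => ⟨Set.mem_univ _, h⟩)
  have h4 := h1 δ hδ
  have e1 : ∏ l ∈ Finset.Ico 1 (HM b + 1), Dk L δ ^ (Posk b l).card = Dk L δ ^ (Pos b).card := by
    have h5 : Finset.Ico 1 (HM b + 1) = Finset.Icc 1 (HM b) := by
      ext l
      simp only [Finset.mem_Ico, Finset.mem_Icc]
      omega
    have h6 := r1_prod (b := b) (fun _ => Dk L δ)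
    simp only [Finset.prod_const] at h6
    rw [h5]
    exact h6
  rw [e1] at h4
  have hD0 : 0 ≤ Dk L δ := (dk_pos fun y => (hδ y).1).le
  calc ν (BlU c δ) ≤ ENNReal.ofReal C₀ * (μV Set.univ * ν' {u | u.1 ∈ BlU c δ}) := h3
    _ ≤ ENNReal.ofReal C₀ * (ENNReal.ofReal (μV Set.univ).toReal * ENNReal.ofReal (C₁ * Dk L δ ^ (Pos b).card)) := by
        rw [ENNReal.ofReal_toReal hfin]
        gcongr
    _ = _ := by
        rw [← ENNReal.ofReal_mul ENNReal.toReal_nonneg, ← ENNReal.ofReal_mul hC0]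
        congr 1
        ring

end

end Pool.Agent.Lib.L8
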