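import Pool.Agent.Lib.L8.PF5

/-!
# L8, conductor aspect, file PF6 (helper29): the volume of `U ∩ x C C⁻¹ x⁻¹`, `C` near `1`
-/

namespace Pool.Agent.Lib.L8

set_option linter.unusedSectionVars false

open MeasureTheory Matrix NumberField NumberField.InfinitePlace IsDedekindDomain Pool.Agent.Lib.H89N Pool.Agent.Lib.H33W Pool.Agent.Lib.L1S
open scoped ENNReal

noncomputable section

variable {ι M N : Type} [Fintype ι] [DecidableEq ι] [AddCommGroup M] [Module ℚ M] [AddCommGroup N] [Module ℚ N]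
  {P : RootPairing ι ℚ M N} [P.IsCrystallographic] [P.IsReduced] [P.IsIrreducible] [P.IsRootSystem] {b : P.Base}
  {K L : Type} [Field K] [NumberField K] [Field L] [NumberField L] [Algebra K L]

theorem nb_closed {X : Type} [TopologicalSpace X] {J : Type} [Fintype J] [DecidableEq J] {F : X → Matrix J J (EE L)} (hF : Continuous F) (w : InfinitePlace L) (B : ℝ) : IsClosed {x | NB w (F x) B} := by
  have e : {x | NB w (F x) B} = ⋂ (i : J) (j : J), {x | mixedEmbedding.normAtPlace w (F x i j) ≤ B} := by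
    ext x
    simp only [Set.mem_iInter, Set.mem_ofPred_eq]
    rfl
  rw [e]
  exact isClosed_iInter fun i => isClosed_iInter fun j => isClosed_le ((mixedEmbedding.continuous_normAtPlace w).comp (hF.matrix_elem i j)) continuous_const

variable {Q : QS b K L}

theorem blU_closed (c : ℝ) (δ : InfinitePlace K → ℝ) : IsClosed (BlU (Q := Q) c δ) := by
  have c1 : Continuous fun u : UHR (HQ Q) => u.1.1.1.1 := Units.continuous_val.comp (continuous_subtype_val.comp (continuous_subtype_val.comp continuous_subtype_val))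
  have c2 : Continuous fun u : UHR (HQ Q) => u⁻¹.1.1.1.1 := c1.comp continuous_inv
  have e : BlU (Q := Q) c δ = ⋂ w : InfinitePlace L, ({u : UHR (HQ Q) | NB w (u.1.1.1.1 - 1) (c * δ (w.comap (algebraMap K L)))} ∩ {u | NB w (u⁻¹.1.1.1.1 - 1) (c * δ (w.comap (algebraMap K L)))}) := by
    ext u
    simp only [Set.mem_iInter, Set.mem_inter_iff, Set.mem_ofPred_eq]
    rfl
  rw [e]
  exact isClosed_iInter fun w => (nb_closed (c1.sub continuous_const) w _).inter (nb_closed (c2.sub continuous_const) w _)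

variable [IsGalois K L]

/-- **The volume of the small balls** compared with the covolume. -/
theorem pf6_ball (Q : QS b K L) {c : ℝ} (hc : 0 ≤ c) : ∃ C : ℝ, 0 ≤ C ∧ ∀ (ν : Measure (UHR (HQ Q))) [ν.IsHaarMeasure] (𝔫 : Ideal (𝓞 K)), 𝔫 ≠ ⊥ →
    ∀ (v : HeightOneSpectrum (𝓞 K)) (r s : ℕ) (D : Set (UHR (HQ Q))), SF ((GamQ (HQ Q) 𝔫 v r s).subgroupOf (HUH (HQ Q))) D → ∀ δ : InfinitePlace K → ℝ, (∀ y, 0 < δ y ∧ δ y ≤ 1) →
    ν (BlU c δ) ≤ ENNReal.ofReal (C * (Dk L δ ^ (Pos b).card / (Ideal.absNorm 𝔫 : ℝ) ^ (Pos b).card)) * ν D := by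
  obtain ⟨J⟩ := exists_LID Q
  obtain ⟨ν₀, hν₀⟩ : ∃ ν₀ : Measure (UHR (HQ Q)), ν₀.IsHaarMeasure := ⟨Measure.haar, inferInstance⟩
  obtain ⟨C₁, hC1, h1⟩ := pf5_vol J ν₀ hc
  obtain ⟨K₁, hK₁, hn₁⟩ := exists_compact_mem_nhds (1 : UHR (HQ Q))
  have hm0 : ν₀ K₁ ≠ 0 := (Measure.measure_pos_of_mem_nhds ν₀ hn₁).ne'
  have hmt : ν₀ K₁ ≠ ⊤ := hK₁.measure_lt_top.ne
  set Ω₁ : Set (GL (I b) (EE L)) := (fun u : UHR (HQ Q) => u.1.1.1) '' K₁ with hΩ₁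
  have hΩc : IsCompact Ω₁ := hK₁.image (continuous_subtype_val.comp (continuous_subtype_val.comp continuous_subtype_val))
  obtain ⟨C₅, hC5, h5⟩ := pe_vol Q hΩc
  have hm1 : 0 < (ν₀ K₁).toReal := ENNReal.toReal_pos hm0 hmt
  refine ⟨C₁ / (ν₀ K₁).toReal * C₅, by positivity, fun ν _ 𝔫 h𝔫 v r s D hD δ hδ => ?_⟩
  have hs := Measure.isMulLeftInvariant_eq_smul ν ν₀
  set a₀ := ν.haarScalarFactor ν₀ with ha₀
  have hD0 : 0 ≤ Dk L δ ^ (Pos b).card := pow_nonneg (dk_pos fun y => (hδ y).1).le _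
  have hK : ν K₁ ≤ ENNReal.ofReal (C₅ * (1 / (Ideal.absNorm 𝔫 : ℝ) ^ (Pos b).card)) * ν D := by
    have h2 := h5 ν 𝔫 h𝔫 v r s D hD 1 1 (by
      show (1 : Matrix (I b) (I b) (EE L)) = dgz b 1
      unfold dgz
      rw [← Matrix.diagonal_one]
      congr 1
      funext r
      rcases r with j | β
      · rfl
      · rfl)
    have e1 : (∏ β ∈ Pos b, mixedEmbedding.norm (((1 : ι → (EE L)ˣ) β : (EE L)ˣ) : EE L)) = 1 := by
      refine Finset.prod_eq_one fun β _ => ?_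
      rw [Pi.one_apply, Units.val_one, map_one]
    rw [e1, Real.one_rpow] at h2
    refine (measure_mono ?_).trans h2
    intro u hu
    refine ⟨u.1.1.1, ⟨u, hu, rfl⟩, ?_⟩
    have e2 : dgz b (1 : ι → (EE L)ˣ) = 1 := by
      unfold dgz
      rw [← Matrix.diagonal_one]
      congr 1
      funext r
      rcases r with j | β
      · rfl
      · rfl
    rw [inv_one, e2, Matrix.one_mul, Matrix.mul_one]
  calc ν (BlU c δ) = (a₀ : ℝ≥0∞) * ν₀ (BlU c δ) := by rw [hs]; rfl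
    _ ≤ (a₀ : ℝ≥0∞) * ENNReal.ofReal (C₁ * Dk L δ ^ (Pos b).card) := mul_le_mul_right (h1 δ hδ) _
    _ = ENNReal.ofReal (C₁ / (ν₀ K₁).toReal * Dk L δ ^ (Pos b).card) * ((a₀ : ℝ≥0∞) * ν₀ K₁) := by
        have e3 : C₁ * Dk L δ ^ (Pos b).card = (C₁ / (ν₀ K₁).toReal * Dk L δ ^ (Pos b).card) * (ν₀ K₁).toReal := by
          rw [div_mul_eq_mul_div, div_mul_cancel₀ _ hm1.ne']
        conv_lhs => rw [e3, ENNReal.ofReal_mul (by positivity), ENNReal.ofReal_toReal hmt]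
        ring
    _ = ENNReal.ofReal (C₁ / (ν₀ K₁).toReal * Dk L δ ^ (Pos b).card) * ν K₁ := by
        congr 1
        rw [hs]
        rfl
    _ ≤ ENNReal.ofReal (C₁ / (ν₀ K₁).toReal * Dk L δ ^ (Pos b).card) * (ENNReal.ofReal (C₅ * (1 / (Ideal.absNorm 𝔫 : ℝ) ^ (Pos b).card)) * ν D) := mul_le_mul_right hK _
    _ = _ := by
        rw [← mul_assoc, ← ENNReal.ofReal_mul (by positivity)]
        congr 2
        ring

/-- **The volume of `U ∩ x C C⁻¹ x⁻¹`** for a small set `C`. -/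
theorem pf_vol (Q : QS b K L) {Ω : Set (GL (I b) (EE L))} (hΩ : IsCompact Ω) {c₀ : ℝ} (hc₀ : 0 ≤ c₀) : ∃ C : ℝ, 0 ≤ C ∧ ∀ (ν : Measure (UHR (HQ Q))) [ν.IsHaarMeasure] (𝔫 : Ideal (𝓞 K)), 𝔫 ≠ ⊥ →
    ∀ (v : HeightOneSpectrum (𝓞 K)) (r s : ℕ) (D : Set (UHR (HQ Q))), SF ((GamQ (HQ Q) 𝔫 v r s).subgroupOf (HUH (HQ Q))) D →
    ∀ (t : HRt (HQ Q)) (a : ι → (EE L)ˣ), t.1.1.1 = dgz b a → ∀ x : HRt (HQ Q), InRz (HQ Q) Ω a x → (∀ s : UHR (HQ Q), MeasurePreserving (fun t : UHR (HQ Q) => t * s) ν ν) →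
    ∀ δ : InfinitePlace K → ℝ, (∀ y, 0 < δ y ∧ δ y ≤ 1) → ∀ C' : Set (HRt (HQ Q)),
    (∀ y ∈ C', ∀ w : InfinitePlace L, NB w (y.1.1.1 - 1) (c₀ * δ (w.comap (algebraMap K L))) ∧ NB w (y⁻¹.1.1.1 - 1) (c₀ * δ (w.comap (algebraMap K L)))) →
    ν {t : UHR (HQ Q) | ∃ y ∈ C', ∃ y' ∈ C', (t : HRt (HQ Q)) = x * y * (x * y')⁻¹} ≤
      ENNReal.ofReal (C * (Dk L δ ^ (Pos b).card * (∏ β ∈ Pos b, mixedEmbedding.norm (a β : EE L)) ^ ((Module.finrank K L : ℝ)⁻¹) / (Ideal.absNorm 𝔫 : ℝ) ^ (Pos b).card)) * ν D := by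
  obtain ⟨C₂, hC2, hN2⟩ := nb_compact (L := L) hΩ (F := fun s : GL (I b) (EE L) => s.1) Units.continuous_val
  obtain ⟨C₃, hC3, hN3⟩ := nb_compact (L := L) hΩ (F := fun s : GL (I b) (EE L) => (s⁻¹ : GL (I b) (EE L)).1) (Units.continuous_val.comp continuous_inv)
  set n : ℝ := (Fintype.card (I b) : ℝ) with hn
  have hn0 : 0 ≤ n := Nat.cast_nonneg _
  set c₁ : ℝ := n * (c₀ * (c₀ + 1)) + c₀ with hc₁
  have hc1 : 0 ≤ c₁ := by positivity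
  set c₄ : ℝ := n * (n * (C₂ * c₁) * C₃) with hc₄
  have hc4 : 0 ≤ c₄ := by
    have h2 : 0 ≤ C₂ := zero_le_one.trans hC2
    have h3 : 0 ≤ C₃ := zero_le_one.trans hC3
    positivity
  obtain ⟨C, hC, h⟩ := pf6_ball Q hc4
  refine ⟨C, hC, fun ν _ 𝔫 h0 v r s D hD t a ht x hx hr δ hδ C' hC' => ?_⟩
  obtain ⟨u, ω, hω, hxu'⟩ := hx
  have hxu : x.1.1 = u.1.1.1 * dgU b a * ω := Units.ext hxu'
  have hmp : MeasurePreserving (fun s : UHR (HQ Q) => u⁻¹ * (s * u)) ν ν := (measurePreserving_mul_left ν u⁻¹).comp (hr u)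
  have hnear : ∀ y ∈ C', ∀ y' ∈ C', ∀ w : InfinitePlace L, NB w ((ω * (y.1.1 * y'.1.1⁻¹) * ω⁻¹ : GL (I b) (EE L)).1 - 1) (c₄ * δ (w.comap (algebraMap K L))) := by
    intro y hy y' hy' w
    have hδ0 := (hδ (w.comap (algebraMap K L))).1.le
    have hδ1 := (hδ (w.comap (algebraMap K L))).2
    have k1 : NB w (y.1.1.1 * y'⁻¹.1.1.1 - 1) (c₁ * δ (w.comap (algebraMap K L))) := nb_near_mul hc₀ hc₀ hδ0 hδ1 (hC' y hy w).1 (hC' y' hy' w).2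
    have e1 : (ω * (y.1.1 * y'.1.1⁻¹) * ω⁻¹ : GL (I b) (EE L)).1 - 1 = ω.1 * (y.1.1.1 * y'⁻¹.1.1.1 - 1) * (ω⁻¹ : GL (I b) (EE L)).1 := by
      have e2 : ω.1 * (ω⁻¹ : GL (I b) (EE L)).1 = 1 := Units.mul_inv _
      rw [mul_sub, mul_one, sub_mul, e2]
      rfl
    rw [e1]
    have k2 := ((hN2 ω hω w).mul k1 (zero_le_one.trans hC2)).mul (hN3 ω hω w) (by
      have := zero_le_one.trans hC2
      positivity)
    refine k2.mono (le_of_eq ?_)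
    rw [hc₄]
    ring
  have hsub : {t : UHR (HQ Q) | ∃ y ∈ C', ∃ y' ∈ C', (t : HRt (HQ Q)) = x * y * (x * y')⁻¹} ⊆ (fun s : UHR (HQ Q) => u⁻¹ * (s * u)) ⁻¹' (cU t⁻¹ (pe7_inv ht) ⁻¹' BlU c₄ δ) := by
    rintro s ⟨y, hy, y', hy', h1⟩
    have e1 : s.1.1.1 = x.1.1 * y.1.1 * (x.1.1 * y'.1.1)⁻¹ := congrArg (fun w : HRt (HQ Q) => w.1.1) h1
    have htU : t.1.1 = dgU b a := Units.ext ht
    have e3 : (cU t⁻¹ (pe7_inv ht) (u⁻¹ * (s * u))).1.1.1 = ω * (y.1.1 * y'.1.1⁻¹) * ω⁻¹ := by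
      show t.1.1⁻¹ * (u.1.1.1⁻¹ * (s.1.1.1 * u.1.1.1)) * (t.1.1⁻¹)⁻¹ = _
      rw [e1, hxu, htU]
      group
    intro w
    refine ⟨?_, ?_⟩
    · rw [e3]
      exact hnear y hy y' hy' w
    · have e4 : (cU t⁻¹ (pe7_inv ht) (u⁻¹ * (s * u)))⁻¹.1.1.1 = ω * (y'.1.1 * y.1.1⁻¹) * ω⁻¹ := by
        have e5 : (cU t⁻¹ (pe7_inv ht) (u⁻¹ * (s * u)))⁻¹.1.1.1 = ((cU t⁻¹ (pe7_inv ht) (u⁻¹ * (s * u))).1.1.1)⁻¹ := rfl
        rw [e5, e3]
        group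
      rw [e4]
      exact hnear y' hy' y hy w
  have hme : MeasurableSet (BlU (Q := Q) c₄ δ) := (blU_closed c₄ δ).measurableSet
  have hP0 : 0 ≤ ∏ β ∈ Pos b, mixedEmbedding.norm (a β : EE L) := Finset.prod_nonneg fun β _ => mixedEmbedding.norm_nonneg _
  have hR : 0 ≤ (∏ β ∈ Pos b, mixedEmbedding.norm (a β : EE L)) ^ ((Module.finrank K L : ℝ)⁻¹) := Real.rpow_nonneg hP0 _
  have h2 : ν (cU t⁻¹ (pe7_inv ht) ⁻¹' BlU c₄ δ) = ENNReal.ofReal ((∏ β ∈ Pos b, mixedEmbedding.norm (a β : EE L)) ^ ((Module.finrank K L : ℝ)⁻¹)) * ν (BlU c₄ δ) := by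
    rw [← Measure.map_apply (cU_cont _).measurable hme, pe_mod (pe7_inv ht) ν, Measure.smul_apply, smul_eq_mul]
    congr 2
    have e3 : ∀ β, mixedEmbedding.norm ((a⁻¹ β : (EE L)ˣ) : EE L) = (mixedEmbedding.norm (a β : EE L))⁻¹ := fun β => pd_norm_inv (a β)
    simp only [e3, Finset.prod_inv_distrib]
    rw [Real.inv_rpow hP0, inv_inv]
  have hme2 : MeasurableSet (cU t⁻¹ (pe7_inv ht) ⁻¹' BlU c₄ δ) := (cU_cont _).measurable hme
  calc ν {t : UHR (HQ Q) | ∃ y ∈ C', ∃ y' ∈ C', (t : HRt (HQ Q)) = x * y * (x * y')⁻¹} ≤ ν ((fun s : UHR (HQ Q) => u⁻¹ * (s * u)) ⁻¹' (cU t⁻¹ (pe7_inv ht) ⁻¹' BlU c₄ δ)) := measure_mono hsub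
    _ = ν (cU t⁻¹ (pe7_inv ht) ⁻¹' BlU c₄ δ) := hmp.measure_preimage hme2.nullMeasurableSet
    _ ≤ ENNReal.ofReal ((∏ β ∈ Pos b, mixedEmbedding.norm (a β : EE L)) ^ ((Module.finrank K L : ℝ)⁻¹)) * (ENNReal.ofReal (C * (Dk L δ ^ (Pos b).card / (Ideal.absNorm 𝔫 : ℝ) ^ (Pos b).card)) * ν D) := by
        rw [h2]
        exact mul_le_mul_right (h ν 𝔫 h0 v r s D hD δ hδ) _
    _ = _ := by
        rw [← mul_assoc, ← ENNReal.ofReal_mul hR]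
        congr 2
        ring

end

end Pool.Agent.Lib.L8
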