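import Pool.Agent.Lib.L8.PF6
import Pool.Agent.Lib.L8.QMain8

/-!
# L8, conductor aspect, file PF7 (helper29): the two ingredients of the conductor aspect: the moved points and the double integral
-/

namespace Pool.Agent.Lib.L8

set_option linter.unusedSectionVars false

open MeasureTheory Matrix NumberField NumberField.InfinitePlace IsDedekindDomain Pool.Agent.Lib.H89N Pool.Agent.Lib.H33W Pool.Agent.Lib.H67G Pool.Agent.Lib.L1S
open scoped ENNReal Pointwise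

noncomputable section

variable {ι M N : Type} [Fintype ι] [DecidableEq ι] [AddCommGroup M] [Module ℚ M] [AddCommGroup N] [Module ℚ N]
  {P : RootPairing ι ℚ M N} [P.IsCrystallographic] [P.IsReduced] [P.IsIrreducible] [P.IsRootSystem] {b : P.Base}
  {K L : Type} [Field K] [NumberField K] [Field L] [NumberField L] [Algebra K L]

/-- A bound of the compound matrices from a bound of the entries. -/
theorem nb_cb {J : Type} [Fintype J] [DecidableEq J] {w : InfinitePlace L} {A : Matrix J J (EE L)} {X : ℝ} (h : NB w A X) (k : ℕ) : CB k w A ((Fintype.card J : ℝ) ^ k * X ^ k) := by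
  intro f
  have h1 : ∀ g ∈ (Finset.univ : Finset (Fin k → J)), mixedEmbedding.normAtPlace w (A.submatrix f g).det ≤ (k.factorial : ℝ) * X ^ k := fun g _ => by
    have h2 := NB.minor (w := w) (X := X) (A := A) f g fun i j => h _ _
    rw [Fintype.card_fin] at h2
    exact h2
  refine (Finset.sum_le_card_nsmul _ _ _ h1).trans (le_of_eq ?_)
  rw [Finset.card_univ, Fintype.card_fun, Fintype.card_fin, nsmul_eq_mul]
  push_cast
  ring

/-- `y` and `y⁻¹` are in the ball of radius `c₀ δ_y` around `1` at every infinite place. -/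
def NearD {H : Subgroup (GK b L)} (c₀ : ℝ) (δ : InfinitePlace K → ℝ) (y : HRt H) : Prop :=
  ∀ w : InfinitePlace L, NB w (y.1.1.1 - 1) (c₀ * δ (w.comap (algebraMap K L))) ∧ NB w (y⁻¹.1.1.1 - 1) (c₀ * δ (w.comap (algebraMap K L)))

theorem nearD_closed {H : Subgroup (GK b L)} (c₀ : ℝ) (δ : InfinitePlace K → ℝ) : IsClosed {y : HRt H | NearD c₀ δ y} := by
  have c1 : Continuous fun u : HRt H => u.1.1.1 := Units.continuous_val.comp (continuous_subtype_val.comp continuous_subtype_val)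
  have c2 : Continuous fun u : HRt H => u⁻¹.1.1.1 := c1.comp continuous_inv
  have e : {y : HRt H | NearD c₀ δ y} = ⋂ w : InfinitePlace L, ({u : HRt H | NB w (u.1.1.1 - 1) (c₀ * δ (w.comap (algebraMap K L)))} ∩ {u | NB w (u⁻¹.1.1.1 - 1) (c₀ * δ (w.comap (algebraMap K L)))}) := by
    ext u
    simp only [Set.mem_iInter, Set.mem_inter_iff, Set.mem_ofPred_eq]
    rfl
  rw [e]
  exact isClosed_iInter fun w => (nb_closed (c1.sub continuous_const) w _).inter (nb_closed (c2.sub continuous_const) w _)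

theorem nearD_tsupport {H : Subgroup (GK b L)} {c₀ : ℝ} {δ : InfinitePlace K → ℝ} {φ : HRt H → ℂ} (h : ∀ y, φ y ≠ 0 → NearD c₀ δ y) : ∀ y ∈ tsupport φ, NearD c₀ δ y :=
  fun _ hy => closure_minimal (fun z hz => h z hz) (nearD_closed c₀ δ) hy

/-- The factor at the place `w` of `L`: `δ_w ^ k_i` for `w ∈ S`, `B i w ^ (2 m)` otherwise (`δ_w` the value of `δ` at the place of `K` below `w`). -/
def Xm (b : P.Base) {K L : Type} [Field K] [NumberField K] [Field L] [NumberField L] [Algebra K L] (S : Set (InfinitePlace L)) (δ : InfinitePlace K → ℝ) (B : b.support → InfinitePlace L → ℝ) (m : ℕ) (i : b.support) (w : InfinitePlace L) : ℝ :=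
  Xd S (fun w => δ (w.comap (algebraMap K L))) B m i w

theorem xm_nonneg {S : Set (InfinitePlace L)} {δ : InfinitePlace K → ℝ} {B : b.support → InfinitePlace L → ℝ} (hδ : ∀ y, 0 < δ y ∧ δ y ≤ 1) (hB : ∀ i w, 0 ≤ B i w) (m : ℕ) (i : b.support) (w : InfinitePlace L) :
    0 ≤ Xm b S δ B m i w := xd_nonneg (fun _ => (hδ _).1.le) hB m i w

/-- **The moved points**, `C` near `1`, `Kt = 1` at the places in `S`. -/
theorem pf_mv6 (b : P.Base) (K L : Type) [Field K] [NumberField K] [Field L] [NumberField L] [Algebra K L] (H : Subgroup (GK b L)) {Ω : Set (GL (I b) (EE L))} (hΩ : IsCompact Ω) {c₀ : ℝ} (hc₀ : 0 ≤ c₀) :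
    ∃ c : ℝ, 0 ≤ c ∧ ∀ (a : ι → (EE L)ˣ) (x : HRt H), InRz H Ω a x → ∀ (C Kt : Set (HRt H)) (δ : InfinitePlace K → ℝ), (∀ y, 0 < δ y ∧ δ y ≤ 1) → (∀ y ∈ C, NearD c₀ δ y) →
      ∀ B : b.support → InfinitePlace L → ℝ, (∀ i w, 0 ≤ B i w) → KB H B Kt → ∀ S : Set (InfinitePlace L), (∀ y ∈ Kt, ∀ w ∈ S, NB w (y.1.1.1 - 1) 0) →
      ∀ (m : ℕ) (γ : HRt H), MvT H x (C * Kt ^ m) γ → Mv5 b c a (Xm b S δ B m) γ.1 := by
  classical
  obtain ⟨C₂, hC2, hN2⟩ := nb_compact (L := L) hΩ (F := fun s : GL (I b) (EE L) => s.1) Units.continuous_val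
  obtain ⟨C₃, hC3, hN3⟩ := nb_compact (L := L) hΩ (F := fun s : GL (I b) (EE L) => (s⁻¹ : GL (I b) (EE L)).1) (Units.continuous_val.comp continuous_inv)
  have hC20 : 0 ≤ C₂ := zero_le_one.trans hC2
  have hC30 : 0 ≤ C₃ := zero_le_one.trans hC3
  set n : ℝ := (Fintype.card (I b) : ℝ) with hn
  have hn0 : 0 ≤ n := Nat.cast_nonneg _
  set A₁ : ℝ := n * (C₂ * (c₀ + 1)) with hA1
  have hA10 : 0 ≤ A₁ := by positivity
  set A₂ : ℝ := n * ((c₀ + 1) * C₃) with hA2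
  have hA20 : 0 ≤ A₂ := by positivity
  set D : ℝ := n * (n * (C₂ * (2 * c₀)) * A₂) with hD
  have hD0 : 0 ≤ D := by positivity
  set k : b.support → ℕ := fun i => (Phi b i).card with hk
  set c₁ : b.support → ℝ := fun i => (n ^ k i * A₁ ^ k i) * (n ^ k i * A₂ ^ k i) with hc1
  have hc10 : ∀ i, 0 ≤ c₁ i := fun i => by
    rw [hc1]
    positivity
  have hB0 : ∀ i, 0 ≤ ((k i).factorial : ℝ) * c₁ i + ((k i).factorial : ℝ) * D ^ k i := fun i => by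
    have := hc10 i
    positivity
  refine ⟨∑ i, (((k i).factorial : ℝ) * c₁ i + ((k i).factorial : ℝ) * D ^ k i), Finset.sum_nonneg fun i _ => hB0 i, ?_⟩
  intro a x hx Cs Kt δ hδ hCδ B hB hKB S hKδ m γ hmv
  obtain ⟨t, t', y, hy, y', hy', h⟩ := hmv
  obtain ⟨u, ω, hω, hxu'⟩ := hx
  have hxu : x.1.1 = u.1.1.1 * dgU b a * ω := Units.ext hxu'
  obtain ⟨p, hp, s, hs, rfl⟩ := Set.mem_mul.1 hy
  obtain ⟨p', hp', s', hs', rfl⟩ := Set.mem_mul.1 hy'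
  have hq' : ∀ w : InfinitePlace L, NB w (ω * p'.1.1).1 A₁ := fun w =>
    (hN2 ω hω w).mul (nb_of_near hc₀ (hδ _).2 (hCδ p' hp' w).1) hC20
  have hq : ∀ w : InfinitePlace L, NB w ((ω * p.1.1)⁻¹ : GL (I b) (EE L)).1 A₂ := fun w => by
    have e : ((ω * p.1.1)⁻¹ : GL (I b) (EE L)).1 = p⁻¹.1.1.1 * (ω⁻¹ : GL (I b) (EE L)).1 := by
      rw [_root_.mul_inv_rev]
      rfl
    rw [e]
    exact (nb_of_near hc₀ (hδ _).2 (hCδ p hp w).2).mul (hN3 ω hω w) (by positivity)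
  have h3 : γ.1.1 = (t'.1.1.1 * u.1.1.1) * (dgU b a * ((ω * p'.1.1) * (s'.1.1 * s.1.1⁻¹) * (ω * p.1.1)⁻¹) * (dgU b a)⁻¹) * (t.1.1.1 * u.1.1.1)⁻¹ := by
    have h1 : γ = t'.1 * (x * (p' * s')) * (t.1 * (x * (p * s)))⁻¹ := by
      rw [← h, mul_inv_cancel_right]
    have h2 : γ.1.1 = t'.1.1.1 * (x.1.1 * (p'.1.1 * s'.1.1)) * (t.1.1.1 * (x.1.1 * (p.1.1 * s.1.1)))⁻¹ := congrArg (fun w : HRt H => w.1.1) h1
    rw [h2, hxu]
    group
  refine ⟨(t.1.1 * u.1.1)⁻¹, inv_mem (mul_mem t.2 u.2), t'.1.1 * u.1.1, mul_mem t'.2 u.2, (ω * p'.1.1).1 * (s' * s⁻¹).1.1.1 * ((ω * p.1.1)⁻¹ : GL (I b) (EE L)).1, fun i j w hw w' => ?_, congrArg Units.val h3⟩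
  have h6 := Finset.single_le_sum (f := fun i => ((k i).factorial : ℝ) * c₁ i + ((k i).factorial : ℝ) * D ^ k i) (fun i _ => hB0 i) (Finset.mem_univ i)
  refine le_trans ?_ (mul_le_mul_of_nonneg_right h6 (xm_nonneg hδ hB m i w'))
  have hδ' := hδ (w'.comap (algebraMap K L))
  by_cases hS : w' ∈ S
  · -- near 1
    have eX : Xm b S δ B m i w' = δ (w'.comap (algebraMap K L)) ^ k i := by
      unfold Xm Xd
      rw [if_pos hS]
    have g0 : NB w' ((s' * s⁻¹).1.1.1 - 1) 0 := by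
      have hKt : Kt ⊆ (G1 w' H : Set (HRt H)) := fun g hg => hKδ g hg w' hS
      have hKm : ∀ g ∈ Kt ^ m, g ∈ G1 w' H := by
        intro g hg
        obtain ⟨f, rfl⟩ := Set.mem_pow.1 hg
        refine Subgroup.list_prod_mem _ ?_
        intro x hx
        obtain ⟨i, rfl⟩ := (List.mem_ofFn' _ _).1 hx
        exact hKt (f i).2
      exact mul_mem (hKm _ hs') (inv_mem (hKm _ hs))
    have g1 : NB w' ((ω * p'.1.1).1 * (s' * s⁻¹).1.1.1 * ((ω * p.1.1)⁻¹ : GL (I b) (EE L)).1 - 1) (D * δ (w'.comap (algebraMap K L))) := by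
      have e1 : (ω * p.1.1).1 * ((ω * p.1.1)⁻¹ : GL (I b) (EE L)).1 = 1 := Units.mul_inv _
      have e2 : (ω * p'.1.1).1 * (s' * s⁻¹).1.1.1 * ((ω * p.1.1)⁻¹ : GL (I b) (EE L)).1 - 1 =
          (ω * p'.1.1).1 * ((s' * s⁻¹).1.1.1 - 1) * ((ω * p.1.1)⁻¹ : GL (I b) (EE L)).1 + ω.1 * ((p'.1.1.1 - 1) - (p.1.1.1 - 1)) * ((ω * p.1.1)⁻¹ : GL (I b) (EE L)).1 := by
        have e3 : ω.1 * ((p'.1.1.1 - 1) - (p.1.1.1 - 1)) = (ω * p'.1.1).1 - (ω * p.1.1).1 := by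
          rw [sub_sub_sub_cancel_right, mul_sub]
          rfl
        have e4 : ∀ A Y Z W : Matrix (I b) (I b) (EE L), A * (Y - 1) * Z + (A - W) * Z = A * Y * Z - W * Z := by
          intro A Y Z W
          rw [mul_sub, mul_one, sub_mul, sub_mul]
          abel
        rw [e3, e4, e1]
      rw [e2]
      have k1 := ((hq' w').mul g0 hA10).mul (hq w') (by positivity)
      have k2 := ((hN2 _ hω w').mul ((hCδ p' hp' w').1.sub (hCδ p hp w').1) hC20).mul (hq w') (by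
        have := hδ'.1.le
        positivity)
      refine (k1.add k2).mono (le_of_eq ?_)
      rw [hD]
      ring
    rw [eX]
    have k3 : mixedEmbedding.normAtPlace w' (Dm b i w ((ω * p'.1.1).1 * (s' * s⁻¹).1.1.1 * ((ω * p.1.1)⁻¹ : GL (I b) (EE L)).1)) ≤ ((k i).factorial : ℝ) * (D * δ (w'.comap (algebraMap K L))) ^ k i := by
      have k4 := NB.minor (w := w') (X := D * δ (w'.comap (algebraMap K L))) (A := (ω * p'.1.1).1 * (s' * s⁻¹).1.1.1 * ((ω * p.1.1)⁻¹ : GL (I b) (EE L)).1) (fun β : Phi b i => Sum.inr (w β.1)) (fun β : Phi b i => Sum.inr β.1) (by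
        intro β β'
        have hne : (Sum.inr (w β.1) : I b) ≠ Sum.inr β'.1 := by
          intro he
          have h7 := Sum.inr.inj he
          have h8 := d3_pos β'.2
          have h9 := d3_neg ((hw β.1).1 β.2)
          rw [h7] at h9
          omega
        have k5 := g1 (Sum.inr (w β.1)) (Sum.inr β'.1)
        rw [Matrix.sub_apply, Matrix.one_apply_ne hne, sub_zero] at k5
        exact k5)
      rw [Fintype.card_coe] at k4
      exact k4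
    refine k3.trans ?_
    rw [mul_pow, ← mul_assoc]
    refine mul_le_mul_of_nonneg_right ?_ (pow_nonneg hδ'.1.le _)
    have : 0 ≤ ((k i).factorial : ℝ) * c₁ i := mul_nonneg (Nat.cast_nonneg _) (hc10 i)
    linarith
  · have eX : Xm b S δ B m i w' = B i w' ^ (2 * m) := by
      unfold Xm Xd
      rw [if_neg hS]
    rw [eX]
    have e2 : B i w' ^ (2 * m) = B i w' ^ m * B i w' ^ m := by rw [two_mul, pow_add]
    have hY : CB (k i) w' (s' * s⁻¹).1.1.1 (B i w' ^ (2 * m)) := by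
      have e : (s' * s⁻¹).1.1.1 = s'.1.1.1 * s⁻¹.1.1.1 := rfl
      rw [e, e2]
      exact (pd_kb hB hKB hs' i w').1.mul (pd_kb hB hKB hs i w').2 (pow_nonneg (hB i w') m)
    have h4 : CB (Fintype.card (Phi b i)) w' ((ω * p'.1.1).1 * (s' * s⁻¹).1.1.1 * ((ω * p.1.1)⁻¹ : GL (I b) (EE L)).1) ((n ^ k i * A₁ ^ k i) * B i w' ^ (2 * m) * (n ^ k i * A₂ ^ k i)) := by
      rw [Fintype.card_coe]
      exact ((nb_cb (hq' w') (k i)).mul hY (pow_nonneg (hB i w') _)).mul (nb_cb (hq w') (k i)) (by positivity)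
    have h5 := h4.minor' (fun β : Phi b i => Sum.inr (w β.1)) (fun β : Phi b i => Sum.inr β.1)
    rw [Fintype.card_coe] at h5
    refine h5.trans ?_
    have h7 : 0 ≤ ((k i).factorial : ℝ) * D ^ k i := mul_nonneg (Nat.cast_nonneg _) (pow_nonneg hD0 _)
    calc ((k i).factorial : ℝ) * ((n ^ k i * A₁ ^ k i) * B i w' ^ (2 * m) * (n ^ k i * A₂ ^ k i)) = ((k i).factorial : ℝ) * c₁ i * B i w' ^ (2 * m) := by ring
      _ ≤ _ := mul_le_mul_of_nonneg_right (by linarith) (pow_nonneg (hB i w') _)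

/-- The two forms of the square of the norm of a continuous function with compact support. -/
theorem pf7_sq {G : Type} [TopologicalSpace G] [MeasurableSpace G] [OpensMeasurableSpace G] (μ : Measure G) [IsFiniteMeasureOnCompacts μ] {φ : G → ℂ} (cφ : Continuous φ) (sφ : HasCompactSupport φ) :
    ∫⁻ y, ‖φ y‖ₑ ^ 2 ∂μ = ENNReal.ofReal (∫ y, ‖φ y‖ ^ 2 ∂μ) := by
  have h1 : HasCompactSupport (fun y => ‖φ y‖ ^ 2) := sφ.comp_left (g := fun z : ℂ => ‖z‖ ^ 2) (by simp)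
  have h2 : Continuous (fun y => ‖φ y‖ ^ 2) := by fun_prop
  have i1 : Integrable (fun y => ‖φ y‖ ^ 2) μ := h2.integrable_of_hasCompactSupport h1
  rw [ofReal_integral_eq_lintegral_ofReal i1 (Filter.Eventually.of_forall fun y => by positivity)]
  refine lintegral_congr fun y => ?_
  rw [ENNReal.ofReal_pow (norm_nonneg _), ofReal_norm]

/-- **The double integral** for `φ` with support near `1`. -/
theorem pf_J (Q : QS b K L) [IsGalois K L] {Ω : Set (GL (I b) (EE L))} (hΩ : IsCompact Ω) {c₀ : ℝ} (hc₀ : 0 ≤ c₀) : ∃ C : ℝ, 0 ≤ C ∧ ∀ (𝔫 : Ideal (𝓞 K)), 𝔫 ≠ ⊥ → ∀ (v : HeightOneSpectrum (𝓞 K)) (r s : ℕ)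
    (t : HRt (HQ Q)) (a : ι → (EE L)ˣ), t.1.1.1 = dgz b a → ∀ x : HRt (HQ Q), InRz (HQ Q) Ω a x → ∀ δ : InfinitePlace K → ℝ, (∀ y, 0 < δ y ∧ δ y ≤ 1) →
    ∀ (μ : Measure (HRt (HQ Q))) [μ.IsHaarMeasure] (φ : HRt (HQ Q) → ℂ), Continuous φ → HasCompactSupport φ → (∀ y, φ y ≠ 0 → NearD c₀ δ y) →
    ∀ (ν : Measure (UHR (HQ Q))) [ν.IsHaarMeasure] (D' : Set (UHR (HQ Q))), IsFundamentalDomain (GamUH (HQ Q) 𝔫 v r s) D' ν →
      Jf (UHR (HQ Q)).subtype μ ν φ x ≤ ENNReal.ofReal (C * (∫ y, ‖φ y‖ ^ 2 ∂μ) * (∏ β ∈ Pos b, mixedEmbedding.norm (a β : EE L)) ^ ((Module.finrank K L : ℝ)⁻¹) * Dk L δ ^ (Pos b).card / (Ideal.absNorm 𝔫 : ℝ) ^ (Pos b).card) * ν D' := by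
  obtain ⟨C, hC, h⟩ := pf_vol Q hΩ hc₀
  refine ⟨C, hC, fun 𝔫 h0 v r s t a ht x hx δ hδ μ _ φ cφ sφ hφ ν _ D' hD' => ?_⟩
  obtain ⟨D₁, hD₁⟩ := (dsc_Gam (HQ Q) 𝔫 v r s).sfU
  have hcc0 : CCH (HQ Q) (GamQ (HQ Q) 𝔫 v r s) := by
    have h2 : CCH (HQ Q) (cjG (GamQ (HQ Q) 𝔫 v r s) 1) := qa_cc Q h0 v r s 1
    rw [cjG_one] at h2
    exact h2
  have hG := th2_gd (HQ Q) hcc0 hD₁ μ ν 0 (psT_mul' (HQ Q) 0)
  have hvD : ν D' = ν D₁ := th2_volU (HQ Q) ν hD₁ hD'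
  have e1 : ∫⁻ y, ‖φ y‖ₑ ^ 2 ∂μ = ENNReal.ofReal (∫ y, ‖φ y‖ ^ 2 ∂μ) := pf7_sq μ cφ sφ
  have h3 := jf_vol hG cφ.measurable x (V := {t : UHR (HQ Q) | ∃ y ∈ {y : HRt (HQ Q) | φ y ≠ 0}, ∃ y' ∈ {y : HRt (HQ Q) | φ y ≠ 0}, (t : HRt (HQ Q)) = x * y * (x * y')⁻¹}) (by
    rintro t ⟨y, hy, y', hy', e⟩
    exact ⟨y, hy, y', hy', e⟩)
  have h4 := h ν 𝔫 h0 v r s D₁ hD₁ t a ht x hx (fun s => hG.rT s) δ hδ {y : HRt (HQ Q) | φ y ≠ 0} (fun y hy => hφ y hy)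
  have hφ0 : 0 ≤ ∫ y, ‖φ y‖ ^ 2 ∂μ := integral_nonneg fun y => by positivity
  calc Jf (UHR (HQ Q)).subtype μ ν φ x ≤ (∫⁻ y, ‖φ y‖ₑ ^ 2 ∂μ) * ν {t : UHR (HQ Q) | ∃ y ∈ {y : HRt (HQ Q) | φ y ≠ 0}, ∃ y' ∈ {y : HRt (HQ Q) | φ y ≠ 0}, (t : HRt (HQ Q)) = x * y * (x * y')⁻¹} := h3
    _ ≤ ENNReal.ofReal (∫ y, ‖φ y‖ ^ 2 ∂μ) * (ENNReal.ofReal (C * (Dk L δ ^ (Pos b).card * (∏ β ∈ Pos b, mixedEmbedding.norm (a β : EE L)) ^ ((Module.finrank K L : ℝ)⁻¹) / (Ideal.absNorm 𝔫 : ℝ) ^ (Pos b).card)) * ν D₁) := by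
        rw [e1]
        exact mul_le_mul_right h4 _
    _ = _ := by
        rw [← mul_assoc, ← ENNReal.ofReal_mul hφ0, hvD]
        congr 2
        ring

end

end Pool.Agent.Lib.L8
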