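import Pool.Agent.Lib.L8.PD1

/-!
# U, chunk UC1: the Cauchy-Binet formula without the factorial
-/

namespace Pool.Agent.Lib.L8

open MeasureTheory Matrix NumberField NumberField.InfinitePlace IsDedekindDomain Pool.Agent.Lib.H89N Pool.Agent.Lib.H33W Pool.Agent.Lib.L1S
open scoped ENNReal Pointwise

noncomputable section

set_option linter.unusedSectionVars false

section uc1

variable {J κ R : Type} [Fintype J] [DecidableEq J] [Fintype κ] [DecidableEq κ] [CommRing R]

theorem uc1_exp (X Y : Matrix J J R) (f h : κ → J) :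
    ((X * Y).submatrix f h).det = ∑ g : κ → J, (X.submatrix f g).det * ∏ t, Y (g t) (h t) := by
  have e1 : ∀ σ : Equiv.Perm κ, ∏ t, ((X * Y).submatrix f h) (σ t) t = ∑ g : κ → J, ∏ t, (X (f (σ t)) (g t) * Y (g t) (h t)) := by
    intro σ
    simp only [Matrix.submatrix_apply, Matrix.mul_apply]
    rw [Finset.prod_univ_sum, Fintype.piFinset_univ]
  rw [Matrix.det_apply]
  simp only [e1, Finset.smul_sum]
  rw [Finset.sum_comm]
  refine Finset.sum_congr rfl fun g _ => ?_
  rw [Matrix.det_apply, Finset.sum_mul]
  refine Finset.sum_congr rfl fun σ _ => ?_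
  rw [Finset.prod_mul_distrib, smul_mul_assoc]
  rfl

theorem uc1_noninj (X : Matrix J J R) (f g : κ → J) (hg : ¬ Function.Injective g) : (X.submatrix f g).det = 0 := by
  rw [Function.Injective] at hg
  push Not at hg
  obtain ⟨a, b, hab, hne⟩ := hg
  exact Matrix.det_zero_of_column_eq hne (fun i => by rw [Matrix.submatrix_apply, Matrix.submatrix_apply, hab])

theorem uc1_perm (X Y : Matrix J J R) (f h e : κ → J) :
    ∑ σ : Equiv.Perm κ, (X.submatrix f (e ∘ σ)).det * ∏ t, Y ((e ∘ σ) t) (h t) = (X.submatrix f e).det * (Y.submatrix e h).det := by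
  rw [Matrix.det_apply (Y.submatrix e h), Finset.mul_sum]
  refine Finset.sum_congr rfl fun σ _ => ?_
  have e3 : X.submatrix f (e ∘ σ) = (X.submatrix f e).submatrix id σ := by
    ext i j
    rfl
  rw [e3, Matrix.det_permute', Units.smul_def, zsmul_eq_mul]
  have e4 : ∏ t, Y ((e ∘ σ) t) (h t) = ∏ i, (Y.submatrix e h) (σ i) i := rfl
  rw [e4]
  ring

theorem uc1_eps (s : Finset J) (hs : s.card = Fintype.card κ) : ∃ e : κ → J, Function.Injective e ∧ Finset.univ.image e = s := by
  have h1 : Fintype.card κ = Fintype.card s := by rw [Fintype.card_coe, hs]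
  let E : κ ≃ s := Fintype.equivOfCardEq h1
  refine ⟨fun t => (E t : J), fun a b hab => E.injective (Subtype.ext hab), ?_⟩
  ext x
  rw [Finset.mem_image]
  constructor
  · rintro ⟨t, _, rfl⟩
    exact (E t).2
  · intro hx
    exact ⟨E.symm ⟨x, hx⟩, Finset.mem_univ _, by rw [Equiv.apply_symm_apply]⟩

end uc1

/-- **UC1. The Cauchy–Binet formula.** Model: `pd_exp`, `pd_binet` in Lib/L8/PD1.lean (imported; there the index type is `Fin k`).
Proof. First for the index type `Fin k`. `ε s` an enumeration `Fin k → J` of `s` if `s.card = k` (`s.equivFin` or `Finset.equivFinOfCardEq`), and `h` otherwise. `S` is the set of the `ε s`, `s` of cardinality `k`. By `pd_exp` the left side is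
`∑_{g : Fin k → J} det (X.submatrix f g) ∏_t Y (g t) (h t)`; the terms with `g` not injective are zero (two equal columns, `Matrix.det_zero_of_column_eq`); an injective `g` with image `s` is `ε s ∘ σ` for exactly one permutation `σ`; for
fixed `s`, `∑_σ det (X.submatrix f (ε s ∘ σ)) ∏_t Y (ε s (σ t)) (h t) = det (X.submatrix f (ε s)) ∑_σ sign σ ∏_t Y (ε s (σ t)) (h t) = det (X.submatrix f (ε s)) det (Y.submatrix (ε s) h)` (`Matrix.det_permute'`, `Matrix.det_apply`).
General index type: transport along `ε : κ ≃ Fin k`, `k = Fintype.card κ` (`Matrix.det_submatrix_equiv_self`), or do the whole proof for `κ` with the expansion of the determinant directly. -/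
theorem uc_binet {J κ R : Type} [Fintype J] [DecidableEq J] [Fintype κ] [DecidableEq κ] [CommRing R] (X Y : Matrix J J R) (f h : κ → J) :
    ∃ S : Finset (κ → J), ((X * Y).submatrix f h).det = ∑ g ∈ S, (X.submatrix f g).det * (Y.submatrix g h).det := by
  classical
  have : Nonempty (κ → J) := ⟨f⟩
  choose! e he1 he2 using fun (s : Finset J) (hs : s.card = Fintype.card κ) => uc1_eps (κ := κ) s hs
  set P : Finset (Finset J) := Finset.univ.filter fun s => s.card = Fintype.card κ with hP
  have hPm : ∀ s, s ∈ P ↔ s.card = Fintype.card κ := fun s => by rw [hP, Finset.mem_filter]; exact ⟨fun h => h.2, fun h => ⟨Finset.mem_univ _, h⟩⟩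
  have hinj : Set.InjOn e (P : Set (Finset J)) := by
    intro s hs t ht hst
    rw [← he2 s ((hPm s).1 hs), ← he2 t ((hPm t).1 ht), hst]
  refine ⟨P.image e, ?_⟩
  rw [Finset.sum_image hinj, uc1_exp]
  have h1 : ∑ g : κ → J, (X.submatrix f g).det * ∏ t, Y (g t) (h t) =
      ∑ g ∈ Finset.univ.filter (fun g : κ → J => Function.Injective g), (X.submatrix f g).det * ∏ t, Y (g t) (h t) := by
    symm
    refine Finset.sum_subset (Finset.filter_subset _ _) fun g _ hg => ?_
    rw [uc1_noninj X f g (fun h2 => hg (Finset.mem_filter.2 ⟨Finset.mem_univ _, h2⟩)), zero_mul]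
  rw [h1]
  rw [← Finset.sum_fiberwise_of_maps_to (s := Finset.univ.filter (fun g : κ → J => Function.Injective g)) (t := P)
    (g := fun g => Finset.univ.image g) (fun g hg => (hPm _).2 (by
      rw [Finset.card_image_of_injective _ (Finset.mem_filter.1 hg).2, Finset.card_univ]))]
  refine Finset.sum_congr rfl fun s hs => ?_
  have hs' := (hPm s).1 hs
  rw [← uc1_perm X Y f h (e s)]
  symm
  refine Finset.sum_nbij (fun σ : Equiv.Perm κ => e s ∘ σ) ?_ ?_ ?_ ?_
  · intro σ _
    rw [Finset.mem_filter, Finset.mem_filter]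
    refine ⟨⟨Finset.mem_univ _, (he1 s hs').comp σ.injective⟩, ?_⟩
    have h2 : (Finset.univ : Finset κ).image (e s ∘ σ) = ((Finset.univ : Finset κ).image σ).image (e s) := by
      rw [Finset.image_image]
    rw [h2, Finset.image_univ_equiv, he2 s hs']
  · intro σ _ τ _ hst
    apply Equiv.ext
    intro t
    exact he1 s hs' (congrFun hst t)
  · intro g hg
    have hg' := Finset.mem_filter.1 (Finset.mem_coe.1 hg)
    have hgi := (Finset.mem_filter.1 hg'.1).2
    have h2 : ∀ t, ∃ t', e s t' = g t := by
      intro t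
      have h3 : g t ∈ Finset.univ.image g := Finset.mem_image_of_mem g (Finset.mem_univ t)
      rw [hg'.2, ← he2 s hs', Finset.mem_image] at h3
      obtain ⟨t', _, ht'⟩ := h3
      exact ⟨t', ht'⟩
    choose τ hτ using h2
    have hτi : Function.Injective τ := by
      intro a b hab
      apply hgi
      rw [← hτ a, ← hτ b, hab]
    refine ⟨Equiv.ofBijective τ (Finite.injective_iff_bijective.1 hτi), Finset.mem_coe.2 (Finset.mem_univ _), ?_⟩
    funext t
    exact hτ t
  · intro σ _
    rfl


end

end Pool.Agent.Lib.L8
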