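import Pool.Agent.Lib.L8.U0
import Pool.Agent.Lib.L8.UC1

/-!
# U, chunk UC2: products, integral matrices
-/

namespace Pool.Agent.Lib.L8

open MeasureTheory Matrix NumberField NumberField.InfinitePlace IsDedekindDomain Pool.Agent.Lib.H89N Pool.Agent.Lib.H33W Pool.Agent.Lib.H67G Pool.Agent.Lib.L1S
open scoped ENNReal Pointwise

noncomputable section

set_option linter.unusedSectionVars false

variable {ι M N : Type} [Fintype ι] [DecidableEq ι] [AddCommGroup M] [Module ℚ M] [AddCommGroup N] [Module ℚ N]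
  {P : RootPairing ι ℚ M N} [P.IsCrystallographic] {b : P.Base}

variable [P.IsRootSystem] [P.IsReduced] [P.IsIrreducible] {K L : Type} [Field K] [NumberField K] [Field L] [NumberField L] [Algebra K L]

theorem uc2_sign {v : HeightOneSpectrum (𝓞 K)} (n : ℤˣ) {x : L} (hx : IntV v x) : IntV v (((n : ℤ) : L) * x) := by
  rcases Int.units_eq_one_or n with rfl | rfl
  · have e : (((1 : ℤˣ) : ℤ) : L) * x = x := by simp
    rw [e]
    exact hx
  · have e : (((-1 : ℤˣ) : ℤ) : L) * x = -x := by simp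
    rw [e]
    exact hx.neg

theorem uc2_det {v : HeightOneSpectrum (𝓞 K)} {κ : Type} [Fintype κ] [DecidableEq κ] {A : Matrix κ κ L} (h : ∀ i j, IntV v (A i j)) : IntV v A.det := by
  rw [Matrix.det_apply']
  refine IntV.sum _ _ fun σ _ => uc2_sign _ ?_
  refine Finset.prod_induction _ (fun x => IntV v x) (fun x y hx hy => hx.mul hy) IntV.one fun i _ => h _ _

/-- The bijection `β ↦ -w β` between `Φ_i` and `Φ_j`. -/
def uc2_eq {i j : b.support} {w : Equiv.Perm ι} (hO : OppW b i j w) : Phi b i ≃ Phi b j where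
  toFun β := ⟨P.reflectionPerm (w β.1) (w β.1), (hO β.1).1 β.2⟩
  invFun β := ⟨w.symm (P.reflectionPerm β.1 β.1), (hO _).2 (by
    rw [Equiv.apply_symm_apply, d2_neg_neg]
    exact β.2)⟩
  left_inv β := by
    apply Subtype.ext
    show w.symm (P.reflectionPerm (P.reflectionPerm (w β.1) (w β.1)) (P.reflectionPerm (w β.1) (w β.1))) = β.1
    rw [d2_neg_neg, Equiv.symm_apply_apply]
  right_inv β := by
    apply Subtype.ext
    show P.reflectionPerm (w (w.symm (P.reflectionPerm β.1 β.1))) (w (w.symm (P.reflectionPerm β.1 β.1))) = β.1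
    rw [Equiv.apply_symm_apply, d2_neg_neg]

/-- **UC2, products.**
Proof. Let `σ : Phi b i ≃ Phi b j`, `σ β = -w β` (`OppW`: `β ∈ Φ_i ↔ P.reflectionPerm (w β) (w β) ∈ Φ_j`; injective since `w` and `β ↦ -β` are; surjective: `-β'` is `w β` for `β = w⁻¹ (-β')`, and `- w β = β' ∈ Φ_j` gives `β ∈ Φ_i`; the equalities
`P.reflectionPerm (P.reflectionPerm β β) (P.reflectionPerm β β) = β`: see `d3_neg`, `d3_sum` in Lib/L1S). `Dm b i w (X Y)` is the minor of `X Y` with the rows `w β` and the columns `β`, `β ∈ Φ_i`, so by `uc_binet` it is the sum over `g ∈ S` of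
`(X.submatrix (fun β => Sum.inr (w β)) g).det * (Y.submatrix g (fun β => Sum.inr β)).det`. The first factor is `(X.submatrix (fun β : Phi b j => Sum.inr (P.reflectionPerm β β)) (g ∘ σ.symm)).det` (`Matrix.det_submatrix_equiv_self`, `w (σ.symm β) = -β`).
For `a ∈ v ^ (e + e') = v ^ e * v ^ e'` (`pow_add`) use `Submodule.mul_induction_on`: for `a = a₁ a₂` the number `a (x y) = (a₁ x) (a₂ y)` is `IntV` (`IntV.mul`), and sums are fine (`IntV.add`, `add_mul`). `IntV.sum`, `Finset.mul_sum`. -/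
theorem uc_dm {v : HeightOneSpectrum (𝓞 K)} {i j : b.support} {w : Equiv.Perm ι} (hO : OppW b i j w) {e e' : ℕ} {X Y : Matrix (I b) (I b) L} (hX : MRl b v j e X) (hY : MCl b v i e' Y) :
    ∀ a ∈ v.asIdeal ^ (e + e'), IntV v (algebraMap K L (a : K) * Dm b i w (X * Y)) := by
  obtain ⟨S, hS⟩ := uc_binet X Y (fun β : Phi b i => Sum.inr (w β.1)) (fun β : Phi b i => Sum.inr β.1)
  have hD : Dm b i w (X * Y) = ((X * Y).submatrix (fun β : Phi b i => Sum.inr (w β.1)) (fun β : Phi b i => Sum.inr β.1)).det := rfl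
  have hX' : ∀ g : Phi b i → I b, ∀ a ∈ v.asIdeal ^ e, IntV v (algebraMap K L (a : K) * (X.submatrix (fun β : Phi b i => Sum.inr (w β.1)) g).det) := by
    intro g a ha
    have h1 := hX (g ∘ (uc2_eq hO).symm) a ha
    have e1 : (X.submatrix (fun β : Phi b j => Sum.inr (P.reflectionPerm β.1 β.1)) (g ∘ (uc2_eq hO).symm)).submatrix (uc2_eq hO) (uc2_eq hO) =
        X.submatrix (fun β : Phi b i => Sum.inr (w β.1)) g := by
      ext β β'
      rw [Matrix.submatrix_apply, Matrix.submatrix_apply, Matrix.submatrix_apply]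
      have e2 : P.reflectionPerm ((uc2_eq hO) β).1 ((uc2_eq hO) β).1 = w β.1 := by
        show P.reflectionPerm (P.reflectionPerm (w β.1) (w β.1)) (P.reflectionPerm (w β.1) (w β.1)) = w β.1
        rw [d2_neg_neg]
      have e3 : (g ∘ (uc2_eq hO).symm) ((uc2_eq hO) β') = g β' := by
        show g ((uc2_eq hO).symm ((uc2_eq hO) β')) = g β'
        rw [Equiv.symm_apply_apply]
      rw [e2, e3]
    rw [← e1, Matrix.det_submatrix_equiv_self]
    exact h1
  intro a ha
  rw [pow_add] at ha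
  refine Submodule.mul_induction_on ha (fun a₁ h₁ a₂ h₂ => ?_) (fun x y hx hy => ?_)
  · rw [hD, hS, Finset.mul_sum]
    refine IntV.sum _ _ fun g _ => ?_
    have e1 : algebraMap K L ((a₁ * a₂ : 𝓞 K) : K) * ((X.submatrix (fun β : Phi b i => Sum.inr (w β.1)) g).det * (Y.submatrix g fun β : Phi b i => Sum.inr β.1).det) =
        (algebraMap K L (a₁ : K) * (X.submatrix (fun β : Phi b i => Sum.inr (w β.1)) g).det) *
          (algebraMap K L (a₂ : K) * (Y.submatrix g fun β : Phi b i => Sum.inr β.1).det) := by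
      rw [qc_cm]
      ring
    rw [e1]
    exact (hX' g a₁ h₁).mul (hY g a₂ h₂)
  · have e1 : algebraMap K L ((x + y : 𝓞 K) : K) = algebraMap K L (x : K) + algebraMap K L (y : K) := by
      rw [← map_add]
      rfl
    rw [e1, add_mul]
    exact hx.add hy

/-- **UC2, integral matrices on the left.**
Proof. `uc_binet`; the minors of `X` are `IntV`: a determinant is a sum of products of entries with signs (`Matrix.det_apply`, `IntV.sum`, `Units.smul_def`, `IntV.neg`; a product over a `Fintype` by `Finset.prod_induction`). -/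
theorem MCl.mul_int {v : HeightOneSpectrum (𝓞 K)} {i : b.support} {e : ℕ} {X Y : Matrix (I b) (I b) L} (hX : ∀ r c, IntV v (X r c)) (hY : MCl b v i e Y) : MCl b v i e (X * Y) := by
  intro f a ha
  obtain ⟨S, hS⟩ := uc_binet X Y f (fun β : Phi b i => Sum.inr β.1)
  rw [hS, Finset.mul_sum]
  refine IntV.sum _ _ fun g _ => ?_
  have e1 : algebraMap K L (a : K) * ((X.submatrix f g).det * (Y.submatrix g fun β : Phi b i => Sum.inr β.1).det) =
      (X.submatrix f g).det * (algebraMap K L (a : K) * (Y.submatrix g fun β : Phi b i => Sum.inr β.1).det) := by ring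
  rw [e1]
  exact (uc2_det fun r c => hX _ _).mul (hY g a ha)

/-- **UC2, the elements of `Γ` are integral.** Proof. `InI (up L 𝔫) ((γ - 1) i j)`, so `γ i j` is integral: `qc_top`, `IntV.of_int`. -/
theorem uc_gam {v : HeightOneSpectrum (𝓞 K)} {𝔫 : Ideal (𝓞 K)} {r s : ℕ} {γ : GK b L} (h : γ ∈ GamL b L 𝔫 v r s) (i j : I b) : IntV v (γ.1.1 i j) ∧ IntV v (γ⁻¹.1.1 i j) := by
  exact ⟨IntV.of_int (qc_top (𝔞 := up L 𝔫) (fun i j => (h i j).1.1) i j), IntV.of_int (qc_top (𝔞 := up L 𝔫) (fun i j => (h i j).2.1) i j)⟩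


end

end Pool.Agent.Lib.L8
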