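import Pool.Agent.Lib.L8.W0
import Pool.Agent.Lib.L8.UC2

/-!
# W, chunk W5: Cauchy-Binet for the minors in `𝔟⁻¹`
-/

namespace Pool.Agent.Lib.L8

open MeasureTheory Matrix NumberField NumberField.InfinitePlace IsDedekindDomain Pool.Agent.Lib.H89N Pool.Agent.Lib.H33W Pool.Agent.Lib.H67G Pool.Agent.Lib.L1S
open scoped ENNReal Pointwise

noncomputable section

set_option linter.unusedSectionVars false

variable {ι M N : Type} [Fintype ι] [DecidableEq ι] [AddCommGroup M] [Module ℚ M] [AddCommGroup N] [Module ℚ N]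
  {P : RootPairing ι ℚ M N} [P.IsCrystallographic] {b : P.Base}

variable {K L : Type} [Field K] [NumberField K] [Field L] [NumberField L] [Algebra K L]

variable [P.IsRootSystem] [P.IsReduced] [P.IsIrreducible]

omit [Algebra K L] [NumberField K] [Field K] in
theorem w5_sign (n : ℤˣ) {x : L} (hx : L1S.InI (⊤ : Ideal (𝓞 L)) x) : L1S.InI (⊤ : Ideal (𝓞 L)) (((n : ℤ) : L) * x) := by
  refine L1S.InI.mul' ⟨((n : ℤ) : 𝓞 L), Submodule.mem_top, ?_⟩ hx
  simp

omit [Algebra K L] [NumberField K] [Field K] in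
theorem w5_det {κ : Type} [Fintype κ] [DecidableEq κ] {A : Matrix κ κ L} (h : ∀ i j, L1S.InI (⊤ : Ideal (𝓞 L)) (A i j)) :
    L1S.InI (⊤ : Ideal (𝓞 L)) A.det := by
  rw [Matrix.det_apply']
  refine L1S.InI.sum _ _ fun σ _ => w5_sign _ ?_
  refine Finset.prod_induction _ (fun x => L1S.InI (⊤ : Ideal (𝓞 L)) x) (fun x y hx hy => L1S.InI.mul hx hy) ⟨1, Submodule.mem_top, by simp⟩ fun i _ => h _ _

/-- **W5, products.** Proof. Copy of `uc_dm` (Lib/L8/UC2.lean) with `InI ⊤` (integral) in place of `IntV v` and `𝔟`, `𝔟'` in place of `v ^ e`, `v ^ e'` (`Submodule.mul_induction_on` on `𝔟 * 𝔟'`). -/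
theorem w5_dm {i j : b.support} {w : Equiv.Perm ι} (hO : OppW b i j w) {𝔟 𝔟' : Ideal (𝓞 K)} {X Y : Matrix (I b) (I b) L} (hX : MRi b 𝔟 j X) (hY : MCi b 𝔟' i Y) :
    ∀ y ∈ 𝔟 * 𝔟', L1S.InI (⊤ : Ideal (𝓞 L)) (algebraMap K L (y : K) * Dm b i w (X * Y)) := by
  obtain ⟨S, hS⟩ := uc_binet X Y (fun β : Phi b i => Sum.inr (w β.1)) (fun β : Phi b i => Sum.inr β.1)
  have hD : Dm b i w (X * Y) = ((X * Y).submatrix (fun β : Phi b i => Sum.inr (w β.1)) (fun β : Phi b i => Sum.inr β.1)).det := rfl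
  have hX' : ∀ g : Phi b i → I b, ∀ a ∈ 𝔟, L1S.InI (⊤ : Ideal (𝓞 L)) (algebraMap K L (a : K) * (X.submatrix (fun β : Phi b i => Sum.inr (w β.1)) g).det) := by
    intro g a ha
    have h1 := hX (g ∘ (uc2_eq hO).symm) a ha
    have e1 : (X.submatrix (fun β : Phi b j => Sum.inr (P.reflectionPerm β.1 β.1)) (g ∘ (uc2_eq hO).symm)).submatrix (uc2_eq hO) (uc2_eq hO) =
        X.submatrix (fun β : Phi b i => Sum.inr (w β.1)) g := by
      ext β β'
      rw [Matrix.submatrix_apply, Matrix.submatrix_apply, Matrix.submatrix_apply]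
      have e2 : P.reflectionPerm ((uc2_eq hO) β).1 ((uc2_eq hO) β).1 = w β.1 := by
        show P.reflectionPerm (P.reflectionPerm (w β.1) (w β.1)) (P.reflectionPerm (w β.1) (w β.1)) = w β.1
        rw [d2_neg_neg]
      have e3 : (g ∘ (uc2_eq hO).symm) ((uc2_eq hO) β') = g β' := by
        show g ((uc2_eq hO).symm ((uc2_eq hO) β')) = g β'
        rw [Equiv.symm_apply_apply]
      rw [e2, e3]
    rw [← e1, Matrix.det_submatrix_equiv_self]
    exact h1
  intro a ha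
  refine Submodule.mul_induction_on ha (fun a₁ h₁ a₂ h₂ => ?_) (fun x y hx hy => ?_)
  · rw [hD, hS, Finset.mul_sum]
    refine L1S.InI.sum _ _ fun g _ => ?_
    have e1 : algebraMap K L ((a₁ * a₂ : 𝓞 K) : K) * ((X.submatrix (fun β : Phi b i => Sum.inr (w β.1)) g).det * (Y.submatrix g fun β : Phi b i => Sum.inr β.1).det) =
        (algebraMap K L (a₁ : K) * (X.submatrix (fun β : Phi b i => Sum.inr (w β.1)) g).det) *
          (algebraMap K L (a₂ : K) * (Y.submatrix g fun β : Phi b i => Sum.inr β.1).det) := by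
      rw [qc_cm]
      ring
    rw [e1]
    exact L1S.InI.mul (hX' g a₁ h₁) (hY g a₂ h₂)
  · have e1 : algebraMap K L ((x + y : 𝓞 K) : K) = algebraMap K L (x : K) + algebraMap K L (y : K) := by
      rw [← map_add]
      rfl
    rw [e1, add_mul]
    exact hx.add hy


/-- **W5, integral matrices on the left.** Proof. Copy of `MCl.mul_int` (Lib/L8/UC2.lean). -/
theorem MCi.mul_int {𝔟 : Ideal (𝓞 K)} {i : b.support} {X Y : Matrix (I b) (I b) L} (hX : IntM b X) (hY : MCi b 𝔟 i Y) : MCi b 𝔟 i (X * Y) := by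
  intro f a ha
  obtain ⟨S, hS⟩ := uc_binet X Y f (fun β : Phi b i => Sum.inr β.1)
  rw [hS, Finset.mul_sum]
  refine L1S.InI.sum _ _ fun g _ => ?_
  have e1 : algebraMap K L (a : K) * ((X.submatrix f g).det * (Y.submatrix g fun β : Phi b i => Sum.inr β.1).det) =
      (X.submatrix f g).det * (algebraMap K L (a : K) * (Y.submatrix g fun β : Phi b i => Sum.inr β.1).det) := by ring
  rw [e1]
  exact L1S.InI.mul (w5_det fun r c => hX _ _) (hY g a ha)


/-- **W5, congruences.** Proof. `X Y - 1 = (X - 1) Y + (Y - 1)`; with the ideals `𝔞`, `𝔞'` of `X`, `Y` take `𝔞 * 𝔞'` (`Ideal.mul_sup_eq_of_coprime..`, `IsCoprime.mul_left`): for `y ∈ 𝔞`, `y' ∈ 𝔞'` the entries of `y (X - 1)` are in `up L 𝔫`, those of `y' Y` are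
integral (`y' (Y - 1)` and `y'` are), `Submodule.mul_induction_on`. -/
theorem Cg.mul {𝔫 : Ideal (𝓞 K)} {X Y : Matrix (I b) (I b) L} (hX : Cg b 𝔫 X) (hY : Cg b 𝔫 Y) : Cg b 𝔫 (X * Y) := by
  obtain ⟨𝔞, h1, hX⟩ := hX
  obtain ⟨𝔞', h2, hY⟩ := hY
  refine ⟨𝔞 * 𝔞', ?_, ?_⟩
  · rw [← Ideal.isCoprime_iff_sup_eq] at h1 h2 ⊢
    exact h1.mul_left h2
  · intro y hy
    refine Submodule.mul_induction_on hy (fun a₁ h₁ a₂ h₂ => ?_) (fun x y hx hy => ?_)
    · intro r c
      have e0 : X * Y - 1 = (X - 1) * Y + (Y - 1) := by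
        rw [sub_mul, one_mul]
        abel
      rw [e0, Matrix.add_apply, Matrix.mul_apply, mul_add, Finset.mul_sum]
      have hm : algebraMap K L ((a₁ * a₂ : 𝓞 K) : K) = algebraMap K L (a₁ : K) * algebraMap K L (a₂ : K) := by
        rw [qc_cm]
      refine InI.add (L1S.InI.sum _ _ fun k _ => ?_) ?_
      · have e1 : algebraMap K L ((a₁ * a₂ : 𝓞 K) : K) * ((X - 1) r k * Y k c) =
            (algebraMap K L (a₁ : K) * (X - 1) r k) * (algebraMap K L (a₂ : K) * (Y - 1) k c + algebraMap K L (a₂ : K) * (1 : Matrix (I b) (I b) L) k c) := by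
          rw [hm, Matrix.sub_apply Y 1]
          ring
        rw [e1]
        refine L1S.InI.mul (hX a₁ h₁ r k) (InI.add (hY a₂ h₂ k c).top (L1S.InI.mul ⟨algebraMap (𝓞 K) (𝓞 L) a₂, Submodule.mem_top, ?_⟩ (IntM.one k c)))
        rfl
      · have e1 : algebraMap K L ((a₁ * a₂ : 𝓞 K) : K) * (Y - 1) r c = algebraMap K L (a₁ : K) * (algebraMap K L (a₂ : K) * (Y - 1) r c) := by
          rw [hm, mul_assoc]
        rw [e1]
        refine L1S.InI.mul' ⟨algebraMap (𝓞 K) (𝓞 L) a₁, Submodule.mem_top, ?_⟩ (hY a₂ h₂ r c)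
        rfl
    · intro r c
      have e1 : algebraMap K L ((x + y : 𝓞 K) : K) = algebraMap K L (x : K) + algebraMap K L (y : K) := by
        rw [← map_add]
        rfl
      rw [e1, add_mul]
      exact (hx r c).add (hy r c)


end

end Pool.Agent.Lib.L8
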