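import Pool.Agent.Lib.L8.U0
import Pool.Agent.Lib.L1S.QD2

/-!
# U, chunk UD1: the two estimates of the minors, from the minors at the places of 𝔳
-/

namespace Pool.Agent.Lib.L8

open MeasureTheory Matrix NumberField NumberField.InfinitePlace IsDedekindDomain Pool.Agent.Lib.H89N Pool.Agent.Lib.H33W Pool.Agent.Lib.H67G Pool.Agent.Lib.L1S
open scoped ENNReal Pointwise

noncomputable section

set_option linter.unusedSectionVars false

variable {ι M N : Type} [Fintype ι] [DecidableEq ι] [AddCommGroup M] [Module ℚ M] [AddCommGroup N] [Module ℚ N]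
  {P : RootPairing ι ℚ M N} [P.IsCrystallographic] {b : P.Base}

variable [P.IsRootSystem] [P.IsReduced] [P.IsIrreducible] {K L : Type} [Field K] [NumberField K] [Field L] [NumberField L] [Algebra K L]

/-- The local hypotheses over the splitting field `L` (ideals `𝔞`, `𝔳` of `𝓞 L`). -/
structure QU (b : P.Base) {L : Type} [Field L] [NumberField L] (𝔞 𝔳 : Ideal (𝓞 L)) (f : b.support → b.support → ℤ) (γ : GK b L) : Prop where
  cop : ∀ w : HeightOneSpectrum (𝓞 L), 𝔳 ≤ w.asIdeal → ¬𝔞 ≤ w.asIdeal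
  aw1 : ∀ w : HeightOneSpectrum (𝓞 L), ¬𝔳 ≤ w.asIdeal → ∀ i j, aw w ((γ.1.1 - 1) i j) ≤ nw w 𝔞 ∧ aw w ((γ⁻¹.1.1 - 1) i j) ≤ nw w 𝔞
  mv : ∀ w : HeightOneSpectrum (𝓞 L), 𝔳 ≤ w.asIdeal → ∀ (i j : b.support) (w' : Equiv.Perm ι), OppW b i j w' → aw w (Dm b i w' γ.1.1) ≤ nw w 𝔳 ^ (-(f i j))

/-- Helper: the estimate of the minor, the places of `𝔳` by hypothesis. -/
theorem ud1_gen {𝔞 𝔳 : Ideal (𝓞 L)} (h0 : 𝔞 ≠ ⊥) (h1 : 𝔳 ≠ ⊥) (T : ℕ) {γ : Matrix (I b) (I b) L} {i j : b.support} {w : Equiv.Perm ι} (hO : OppW b i j w) (hD : Dm b i w γ ≠ 0)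
    (μ μ' : I b → ℤ) (k : ℕ) (s : ℤ) (hk : ∑ β ∈ Phi b i, μ (Sum.inr β) - ∑ β ∈ Phi b i, μ' (Sum.inr (w β)) = k)
    (hv : ∀ w' : HeightOneSpectrum (𝓞 L), 𝔳 ≤ w'.asIdeal → aw w' (Dm b i w γ ^ T) ≤ nw w' 𝔞 ^ k * nw w' 𝔳 ^ (-s))
    (h : ∀ w' : HeightOneSpectrum (𝓞 L), ¬𝔳 ≤ w'.asIdeal → ∀ r c : I b, ht b r < ht b c → aw w' (γ r c) ^ T ≤ nw w' 𝔞 ^ (μ c - μ' r)) :
    (Ideal.absNorm 𝔞 : ℝ) ^ k ≤ mixedEmbedding.norm (mixedEmbedding L (Dm b i w γ)) ^ T * (Ideal.absNorm 𝔳 : ℝ) ^ s := by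
  have hlow : ∀ β β' : Phi b i, ht b (Sum.inr (w β.1)) < ht b (Sum.inr β'.1) := by
    intro β β'
    have h3 := d3_neg ((hO β.1).1 β.2)
    have h4 := d3_pos β'.2
    exact h3.trans h4
  have key : ∀ w', aw w' (Dm b i w γ ^ T) ≤ nw w' 𝔞 ^ k * nw w' 𝔳 ^ (-s) := by
    intro w'
    by_cases hw : 𝔳 ≤ w'.asIdeal
    · exact hv w' hw
    rw [qd_nw_one w' h1 hw, _root_.one_zpow, mul_one]
    have hq := nw_pos w' 𝔞
    have h6 := d5_det (aw w') (aw_nonarch w') T (Matrix.of fun β β' : Phi b i => γ (Sum.inr (w β.1)) (Sum.inr β'.1))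
      (fun β => nw w' 𝔞 ^ (-μ' (Sum.inr (w β.1)))) (fun β' => nw w' 𝔞 ^ (μ (Sum.inr β'.1)))
      (fun β β' => by
        refine (h w' hw _ _ (hlow β β')).trans (le_of_eq ?_)
        rw [sub_eq_add_neg, zpow_add₀ hq.ne']
        ring)
    rw [d3_prod_zpow _ _ hq.ne', d3_prod_zpow _ _ hq.ne'] at h6
    rw [map_pow]
    refine h6.trans (le_of_eq ?_)
    have e1 : ∑ β : Phi b i, -μ' (Sum.inr (w β.1)) = -∑ β ∈ Phi b i, μ' (Sum.inr (w β)) := by
      rw [Finset.sum_neg_distrib, Finset.sum_coe_sort (Phi b i) fun β => μ' (Sum.inr (w β))]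
    have e3 : ∑ β : Phi b i, μ (Sum.inr β.1) = ∑ β ∈ Phi b i, μ (Sum.inr β) := Finset.sum_coe_sort (Phi b i) fun β => μ (Sum.inr β)
    rw [e1, e3, ← zpow_add₀ hq.ne', ← zpow_natCast, ← hk]
    congr 1
    ring
  have h3 := qd_norm h0 h1 k s (pow_ne_zero T hD) key
  rwa [map_pow, map_pow] at h3

/-- **UD1.** The two estimates (model: `qd_ab` in Lib/L1S/QD2.lean and `qd_minor` in QD1.lean; here the places of `𝔳` are treated by the hypothesis `mv` on the minors instead of the entries).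
Proof. By `qd_norm h0 h1 k s (pow_ne_zero T hD)` (with `T = 1`, `k = (Phi b i).card`, `s = f i j` in the first estimate, `k = (SM b i l + SM b j l).toNat`, `s = T f i j` in the second) it is enough that
`aw w (Dm ^ T) ≤ nw w 𝔞 ^ k * nw w 𝔳 ^ (-s)` at all `w`. (1) `𝔳 ≤ w`: `nw w 𝔞 = 1` (`qd_nw_one w h0 (hq.cop w hw)`), and `aw w Dm ^ T ≤ (nw w 𝔳 ^ (-f i j)) ^ T` by `mv`. (2) `¬ 𝔳 ≤ w`: `nw w 𝔳 = 1` (`qd_nw_one w h1 hw`), and the bound is the one of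
`qd_minor` at the place `w`: copy the part `key` of the proof of `qd_minor` (`d5_det (aw w) (aw_nonarch w) T ..`) with `κ = κ' = 0` and `(μ, μ') = (1, 0)` resp. `(mc b l, mc b l)`; the bounds of the entries are those of the second bullet
(`¬ 𝔳 ≤ w'`) in the proof of `qd_ab` (`hne`, `hint`, `qd_loc`), which use only `hq.aw1`. -/
theorem qu_ab {𝔞 𝔳 : Ideal (𝓞 L)} (h0 : 𝔞 ≠ ⊥) (h1 : 𝔳 ≠ ⊥) {f : b.support → b.support → ℤ} {γ : GK b L} (hq : QU b 𝔞 𝔳 f γ) {i j : b.support} {w : Equiv.Perm ι} (hO : OppW b i j w) (hD : Dm b i w γ.1.1 ≠ 0) :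
    (Ideal.absNorm 𝔞 : ℝ) ^ (Phi b i).card ≤ mixedEmbedding.norm (mixedEmbedding L (Dm b i w γ.1.1)) * (Ideal.absNorm 𝔳 : ℝ) ^ f i j ∧
      ∀ (l : b.support) (T : ℕ), (∀ β, mc b l (Sum.inr β) ≤ T) →
        (Ideal.absNorm 𝔞 : ℝ) ^ (SM b i l + SM b j l).toNat ≤ mixedEmbedding.norm (mixedEmbedding L (Dm b i w γ.1.1)) ^ T * (Ideal.absNorm 𝔳 : ℝ) ^ ((T : ℤ) * f i j) := by
  have hne : ∀ (X : Matrix (I b) (I b) L) (r c : I b), ht b r < ht b c → X r c = (X - 1) r c := by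
    intro X r c h
    rw [Matrix.sub_apply, Matrix.one_apply_ne, sub_zero]
    rintro rfl
    exact lt_irrefl _ h
  have hint : ∀ (w : HeightOneSpectrum (𝓞 L)) (X : Matrix (I b) (I b) L), (∀ i j, aw w ((X - 1) i j) ≤ nw w 𝔞) → ∀ i j, aw w (X i j) ≤ 1 := by
    intro w X hX i j
    have e : X i j = (X - 1) i j + (1 : Matrix (I b) (I b) L) i j := by simp
    rw [e]
    refine (aw_nonarch w _ _).trans (max_le ((hX i j).trans (nw_le_one w 𝔞)) ?_)
    by_cases h : i = j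
    · subst h
      rw [Matrix.one_apply_eq, map_one]
    · rw [Matrix.one_apply_ne h, map_zero]
      exact zero_le_one
  have hvv : ∀ (T k : ℕ) (w' : HeightOneSpectrum (𝓞 L)), 𝔳 ≤ w'.asIdeal → aw w' (Dm b i w γ.1.1 ^ T) ≤ nw w' 𝔞 ^ k * nw w' 𝔳 ^ (-((T : ℤ) * f i j)) := by
    intro T k w' hw
    rw [qd_nw_one w' h0 (hq.cop w' hw), one_pow, one_mul, map_pow]
    refine (pow_le_pow_left₀ ((aw w').nonneg _) (hq.mv w' hw i j w hO) T).trans (le_of_eq ?_)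
    rw [← zpow_natCast, ← _root_.zpow_mul]
    congr 1
    ring
  refine ⟨?_, fun l T hT => ?_⟩
  · have h2 := ud1_gen h0 h1 1 hO hD (fun _ => 1) (fun _ => 0) (Phi b i).card (f i j) (by simp) (fun w' hw => by
        have h3 := hvv 1 (Phi b i).card w' hw
        rwa [Nat.cast_one, one_mul] at h3) (fun w' hw k k' hk => by
        rw [pow_one, sub_zero, zpow_one, hne γ.1.1 k k' hk]
        exact (hq.aw1 w' hw k k').1)
    rwa [pow_one] at h2
  · have hT' : ∀ a, mc b l a ≤ T := by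
      intro a
      rcases a with k | β
      · exact Int.natCast_nonneg T
      · exact hT β
    have hP : 0 ≤ SM b i l + SM b j l := add_nonneg (d7_SM_nonneg i l) (d7_SM_nonneg j l)
    refine ud1_gen h0 h1 T hO hD (mc b l) (mc b l) _ _ ?_ (hvv T _) ?_
    · rw [d7_sum_mc hO, sub_neg_eq_add, Int.toNat_of_nonneg hP]
      rfl
    · intro w' hw k k' hk
      set a := (Associates.mk w'.asIdeal).count (Associates.mk 𝔞).factors with haa
      have enw : nw w' 𝔞 = (Ideal.absNorm w'.asIdeal : ℝ) ^ (-(a : ℤ)) := rfl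
      have h2 := hq.aw1 w' hw
      have h3 := qd_loc (w := w') (e := a) (fun i j => ⟨⟨hint w' _ (fun i j => (h2 i j).1) i j, fun hij => by
          rw [hne γ.1.1 i j hij, ← enw]
          exact (h2 i j).1⟩, ⟨hint w' _ (fun i j => (h2 i j).2) i j, fun hij => by
          rw [hne γ⁻¹.1.1 i j hij, ← enw]
          exact (h2 i j).2⟩⟩) l T hT' k k'
      refine h3.trans (le_of_eq ?_)
      rw [enw, ← _root_.zpow_mul]
      congr 1
      ring


end

end Pool.Agent.Lib.L8
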