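import Pool.Agent.Lib.L8.W0
import Pool.Agent.Lib.L8.UD1

/-!
# W, chunk W6: the lower bound of the minors
-/

namespace Pool.Agent.Lib.L8

open MeasureTheory Matrix NumberField NumberField.InfinitePlace IsDedekindDomain Pool.Agent.Lib.H89N Pool.Agent.Lib.H33W Pool.Agent.Lib.H67G Pool.Agent.Lib.L1S
open scoped ENNReal Pointwise

noncomputable section

set_option linter.unusedSectionVars false

variable {ι M N : Type} [Fintype ι] [DecidableEq ι] [AddCommGroup M] [Module ℚ M] [AddCommGroup N] [Module ℚ N]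
  {P : RootPairing ι ℚ M N} [P.IsCrystallographic] {b : P.Base}

variable {K L : Type} [Field K] [NumberField K] [Field L] [NumberField L] [Algebra K L]

variable [P.IsRootSystem] [P.IsReduced] [P.IsIrreducible]

/-- An element of `𝔟` of the absolute value of `up L 𝔟`. -/
theorem w6_ge {𝔟 : Ideal (𝓞 K)} (h1 : 𝔟 ≠ ⊥) (w' : HeightOneSpectrum (𝓞 L)) : ∃ y ∈ 𝔟, nw w' (up L 𝔟) ≤ aw w' (algebraMap K L (y : K)) := by
  have h0 : up L 𝔟 ≠ ⊥ := qb4_ne L h1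
  set n := (Associates.mk w'.asIdeal).count (Associates.mk (up L 𝔟)).factors with hn
  obtain ⟨y, hy, hy'⟩ : ∃ y ∈ 𝔟, algebraMap (𝓞 K) (𝓞 L) y ∉ w'.asIdeal ^ (n + 1) := by
    by_contra hcon
    push Not at hcon
    have h2 : up L 𝔟 ≤ w'.asIdeal ^ (n + 1) := Ideal.map_le_iff_le_comap.2 fun a ha => hcon a ha
    have h3 : w'.asIdeal ^ (n + 1) ∣ up L 𝔟 := Ideal.dvd_iff_le.2 h2
    have h4 : n + 1 ≤ n := by
      rw [hn, ← Associates.prime_pow_dvd_iff_le (Associates.mk_ne_zero.2 h0) w'.associates_irreducible, ← Associates.mk_pow,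
        Associates.mk_le_mk_iff_dvd]
      exact h3
    omega
  refine ⟨y, hy, ?_⟩
  have hy0 : ((algebraMap (𝓞 K) (𝓞 L) y : 𝓞 L) : L) ≠ 0 := by
    intro h
    apply hy'
    have h2 : algebraMap (𝓞 K) (𝓞 L) y = 0 := RingOfIntegers.coe_injective (by simpa using h)
    rw [h2]
    exact Ideal.zero_mem _
  obtain ⟨m, hm⟩ := aw_zpow w' ((algebraMap (𝓞 K) (𝓞 L) y : 𝓞 L) : L) hy0
  have h2 : ¬aw w' ((algebraMap (𝓞 K) (𝓞 L) y : 𝓞 L) : L) ≤ (Ideal.absNorm w'.asIdeal : ℝ) ^ (-((n + 1 : ℕ) : ℤ)) := fun h => hy' ((nu2_le_pow w' _ _).1 h)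
  rw [← qb4_coe, hm]
  have h3 : -(n : ℤ) ≤ m := by
    by_contra hlt
    apply h2
    rw [hm]
    refine zpow_le_zpow_right₀ (nu2_one_lt w').le ?_
    push_cast
    omega
  show (Ideal.absNorm w'.asIdeal : ℝ) ^ (-(n : ℤ)) ≤ _
  exact zpow_le_zpow_right₀ (nu2_one_lt w').le h3

/-- The minor at a place, from the denominators in `𝔟`. -/
theorem w6_den {𝔟 : Ideal (𝓞 K)} (h1 : 𝔟 ≠ ⊥) {D : L} (hb : ∀ y ∈ 𝔟, L1S.InI (⊤ : Ideal (𝓞 L)) (algebraMap K L (y : K) * D)) (w' : HeightOneSpectrum (𝓞 L)) :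
    aw w' D ≤ (nw w' (up L 𝔟))⁻¹ := by
  obtain ⟨y, hy, hy'⟩ := w6_ge (L := L) h1 w'
  obtain ⟨z, -, hz⟩ := hb y hy
  have h2 := nu2_le_one w' z
  rw [hz, map_mul] at h2
  have h3 := nw_pos w' (up L 𝔟)
  rw [← one_div, le_div_iff₀ h3, mul_comm]
  exact (mul_le_mul_of_nonneg_right hy' ((aw w').nonneg D)).trans h2

/-- The entries at the places of `𝔫`. -/
theorem w6_cg {𝔫 : Ideal (𝓞 K)} (h0 : 𝔫 ≠ ⊥) {X : Matrix (I b) (I b) L} (hX : Cg b 𝔫 X) {w' : HeightOneSpectrum (𝓞 L)} (hw : up L 𝔫 ≤ w'.asIdeal) (r c : I b) :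
    aw w' ((X - 1) r c) ≤ nw w' (up L 𝔫) := by
  obtain ⟨𝔞, ha, h⟩ := hX
  obtain ⟨y, hy, hy'⟩ : ∃ y ∈ 𝔞, algebraMap (𝓞 K) (𝓞 L) y ∉ w'.asIdeal := by
    by_contra hcon
    push Not at hcon
    have h2 : up L 𝔞 ≤ w'.asIdeal := Ideal.map_le_iff_le_comap.2 fun a ha => hcon a ha
    have h3 : up L (𝔞 ⊔ 𝔫) ≤ w'.asIdeal := by
      unfold L1S.up at h2 hw ⊢
      rw [Ideal.map_sup]
      exact sup_le h2 hw
    rw [ha] at h3
    unfold L1S.up at h3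
    rw [Ideal.map_top] at h3
    exact w'.isPrime.ne_top (top_le_iff.1 h3)
  obtain ⟨z, hz, hz'⟩ := h y hy r c
  have h2 := (nu2_A (qb4_ne L h0) (z : L)).1 ⟨z, hz, rfl⟩ w'
  rw [hz', map_mul, ← qb4_coe, qb4_aw_one hy', one_mul] at h2
  exact h2

/-- **W6, the local estimates.** `D = Dm b i w γ`, `w'` a place of `L`.
Proof. (1) `w' ∤ 𝔫` (i.e. `¬ up L 𝔫 ≤ w'`): `nw w' (up L 𝔫) = 1` (`qd_nw_one`), and `aw w' D ≤ (nw w' (up L 𝔟))⁻¹`: choose `y ∈ 𝔟` with `aw w' y = nw w' (up L 𝔟)` (an element of `𝔟` generating `𝔟` locally at the place of `K` below `w'`; or: the set of all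
`x ∈ up L 𝔟` is generated by the `y ∈ 𝔟`, all `x D`, `x ∈ up L 𝔟`, are integral, and there is `x ∈ up L 𝔟` with `aw w' x = nw w' (up L 𝔟)`: see the lemmas on `nw` in Lib/L1S/QD1.lean, QB4.lean), so `aw w' (x D) ≤ 1`.
(2) `up L 𝔫 ≤ w'`: the ideal `𝔞` of `Cg` is not contained in the place below `w'` (`𝔞 ⊔ 𝔫 = ⊤`), so there is `y ∈ 𝔞` with `aw w' y = 1` and the entries of `γ - 1` satisfy `aw w' ≤ nw w' (up L 𝔫)` (as `qb4_away`); the same for `γ⁻¹`; then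
`aw w' (D ^ T) ≤ nw w' (up L 𝔫) ^ k` by `d5_det`, exactly as in `ud1_gen` (Lib/L8/UD1.lean, the part after `rw [qd_nw_one w' h1 hw, ..]`, with `𝔞 := up L 𝔫`), and `nw w' (up L 𝔟) ≤ 1`. -/
theorem w6_gen {𝔫 𝔟 : Ideal (𝓞 K)} (h0 : 𝔫 ≠ ⊥) (h1 : 𝔟 ≠ ⊥) (T : ℕ) {γ : GK b L} {i j : b.support} {w : Equiv.Perm ι} (hO : OppW b i j w)
    (hb : ∀ y ∈ 𝔟, L1S.InI (⊤ : Ideal (𝓞 L)) (algebraMap K L (y : K) * Dm b i w γ.1.1)) (μ μ' : I b → ℤ) (k : ℕ) (hk : ∑ β ∈ Phi b i, μ (Sum.inr β) - ∑ β ∈ Phi b i, μ' (Sum.inr (w β)) = k)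
    (h : ∀ w' : HeightOneSpectrum (𝓞 L), up L 𝔫 ≤ w'.asIdeal → ∀ r c : I b, ht b r < ht b c → aw w' (γ.1.1 r c) ^ T ≤ nw w' (up L 𝔫) ^ (μ c - μ' r)) (w' : HeightOneSpectrum (𝓞 L)) :
    aw w' (Dm b i w γ.1.1 ^ T) ≤ nw w' (up L 𝔫) ^ k * nw w' (up L 𝔟) ^ (-(T : ℤ)) := by
  have hnb := nw_pos w' (up L 𝔟)
  by_cases hw : up L 𝔫 ≤ w'.asIdeal
  swap
  · rw [qd_nw_one w' (qb4_ne L h0) hw, one_pow, one_mul, map_pow]
    refine (pow_le_pow_left₀ ((aw w').nonneg _) (w6_den h1 hb w') T).trans (le_of_eq ?_)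
    rw [inv_pow, _root_.zpow_neg, zpow_natCast]
  have hlow : ∀ β β' : Phi b i, ht b (Sum.inr (w β.1)) < ht b (Sum.inr β'.1) := by
    intro β β'
    have h3 := d3_neg ((hO β.1).1 β.2)
    have h4 := d3_pos β'.2
    exact h3.trans h4
  have hq := nw_pos w' (up L 𝔫)
  have h6 := d5_det (aw w') (aw_nonarch w') T (Matrix.of fun β β' : Phi b i => γ.1.1 (Sum.inr (w β.1)) (Sum.inr β'.1))
    (fun β => nw w' (up L 𝔫) ^ (-μ' (Sum.inr (w β.1)))) (fun β' => nw w' (up L 𝔫) ^ (μ (Sum.inr β'.1)))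
    (fun β β' => by
      refine (h w' hw _ _ (hlow β β')).trans (le_of_eq ?_)
      rw [sub_eq_add_neg, zpow_add₀ hq.ne']
      ring)
  rw [d3_prod_zpow _ _ hq.ne', d3_prod_zpow _ _ hq.ne'] at h6
  have e1 : ∑ β : Phi b i, -μ' (Sum.inr (w β.1)) = -∑ β ∈ Phi b i, μ' (Sum.inr (w β)) := by
    rw [Finset.sum_neg_distrib, Finset.sum_coe_sort (Phi b i) fun β => μ' (Sum.inr (w β))]
  have e3 : ∑ β : Phi b i, μ (Sum.inr β.1) = ∑ β ∈ Phi b i, μ (Sum.inr β) := Finset.sum_coe_sort (Phi b i) fun β => μ (Sum.inr β)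
  rw [e1, e3, ← zpow_add₀ hq.ne', neg_add_eq_sub, hk, zpow_natCast] at h6
  rw [map_pow]
  refine h6.trans ?_
  have h7 : (1 : ℝ) ≤ nw w' (up L 𝔟) ^ (-(T : ℤ)) := by
    rw [_root_.zpow_neg, zpow_natCast]
    exact (one_le_inv₀ (pow_pos hnb T)).2 (pow_le_one₀ hnb.le (nw_le_one w' _))
  exact le_mul_of_one_le_right (pow_pos hq k).le h7

/-- **W6, the lower bound.**
Proof. `qd_norm` (Lib/L1S/QD1.lean) with `𝔞 := up L 𝔫`, `𝔳 := up L 𝔟`, `s = T`, and `w6_gen`, exactly as in `qu_ab` (Lib/L8/UD1.lean): `T = 1`, `(μ, μ') = (1, 0)` for the first statement and `(mc b l, mc b l)` for the second; the bounds of the entries at the places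
`up L 𝔫 ≤ w'` from `Cg` (see `w6_gen` (2)) and `qd_loc`. `absNorm (up L 𝔫) = absNorm 𝔫 ^ [L : K]` as `hnv` in the proof of `qu_star` (Lib/L8/UD3.lean). -/
theorem w6_low {𝔫 𝔟 : Ideal (𝓞 K)} (h0 : 𝔫 ≠ ⊥) (h1 : 𝔟 ≠ ⊥) {γ : GK b L} (hγ : Cg b 𝔫 γ.1.1) (hγ' : Cg b 𝔫 γ⁻¹.1.1) {i j : b.support} {w : Equiv.Perm ι} (hO : OppW b i j w)
    (hb : ∀ y ∈ 𝔟, L1S.InI (⊤ : Ideal (𝓞 L)) (algebraMap K L (y : K) * Dm b i w γ.1.1)) (hD : Dm b i w γ.1.1 ≠ 0) :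
    ((Ideal.absNorm 𝔫 : ℝ) ^ (Phi b i).card) ^ Module.finrank K L ≤ mixedEmbedding.norm (mixedEmbedding L (Dm b i w γ.1.1)) * (Ideal.absNorm 𝔟 : ℝ) ^ Module.finrank K L ∧
      ∀ (l : b.support) (T : ℕ), (∀ β, mc b l (Sum.inr β) ≤ T) →
        ((Ideal.absNorm 𝔫 : ℝ) ^ (SM b i l + SM b j l).toNat) ^ Module.finrank K L ≤ mixedEmbedding.norm (mixedEmbedding L (Dm b i w γ.1.1)) ^ T * ((Ideal.absNorm 𝔟 : ℝ) ^ T) ^ Module.finrank K L := by
  have hne : ∀ (X : Matrix (I b) (I b) L) (r c : I b), ht b r < ht b c → X r c = (X - 1) r c := by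
    intro X r c h
    rw [Matrix.sub_apply, Matrix.one_apply_ne, sub_zero]
    rintro rfl
    exact lt_irrefl _ h
  have hint : ∀ (w : HeightOneSpectrum (𝓞 L)) (X : Matrix (I b) (I b) L), (∀ i j, aw w ((X - 1) i j) ≤ nw w (up L 𝔫)) → ∀ i j, aw w (X i j) ≤ 1 := by
    intro w X hX i j
    have e : X i j = (X - 1) i j + (1 : Matrix (I b) (I b) L) i j := by simp
    rw [e]
    refine (aw_nonarch w _ _).trans (max_le ((hX i j).trans (nw_le_one w (up L 𝔫))) ?_)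
    by_cases h : i = j
    · subst h
      rw [Matrix.one_apply_eq, map_one]
    · rw [Matrix.one_apply_ne h, map_zero]
      exact zero_le_one
  have hnv : ∀ J : Ideal (𝓞 K), Ideal.absNorm (up L J) = Ideal.absNorm J ^ Module.finrank K L := by
    intro J
    have h1 := Ideal.absNorm_algebraMap (R := 𝓞 K) (S := 𝓞 L) J
    rw [← IsFractionRing.finrank_eq (𝓞 K) K (𝓞 L) L] at h1
    exact h1
  have e2 : ∀ (x : ℝ) (k : ℕ), (x ^ Module.finrank K L) ^ k = (x ^ k) ^ Module.finrank K L := by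
    intro x k
    rw [← pow_mul, ← pow_mul, mul_comm]
  refine ⟨?_, fun l T hT => ?_⟩
  · have h2 := qd_norm (qb4_ne L h0) (qb4_ne L h1) (Phi b i).card ((1 : ℕ) : ℤ) (pow_ne_zero 1 hD)
      (w6_gen h0 h1 1 hO hb (fun _ => 1) (fun _ => 0) (Phi b i).card (by simp) (fun w' hw k k' hk => by
        rw [pow_one, sub_zero, zpow_one, hne γ.1.1 k k' hk]
        exact w6_cg h0 hγ hw k k'))
    rw [hnv, hnv, Nat.cast_pow, Nat.cast_pow, e2, map_pow, map_pow, pow_one, zpow_natCast, pow_one] at h2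
    exact h2
  · have hT' : ∀ a, mc b l a ≤ T := by
      intro a
      rcases a with k | β
      · exact Int.natCast_nonneg T
      · exact hT β
    have hP : 0 ≤ SM b i l + SM b j l := add_nonneg (d7_SM_nonneg i l) (d7_SM_nonneg j l)
    have h2 := qd_norm (qb4_ne L h0) (qb4_ne L h1) (SM b i l + SM b j l).toNat (T : ℤ) (pow_ne_zero T hD)
      (w6_gen h0 h1 T hO hb (mc b l) (mc b l) _ (by
          rw [d7_sum_mc hO, sub_neg_eq_add, Int.toNat_of_nonneg hP]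
          rfl) (fun w' hw k k' hk => by
        set a := (Associates.mk w'.asIdeal).count (Associates.mk (up L 𝔫)).factors with haa
        have enw : nw w' (up L 𝔫) = (Ideal.absNorm w'.asIdeal : ℝ) ^ (-(a : ℤ)) := rfl
        have h3 := qd_loc (w := w') (e := a) (fun i j => ⟨⟨hint w' _ (fun i j => w6_cg h0 hγ hw i j) i j, fun hij => by
          rw [hne γ.1.1 i j hij, ← enw]
          exact w6_cg h0 hγ hw i j⟩, ⟨hint w' _ (fun i j => w6_cg h0 hγ' hw i j) i j, fun hij => by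
          rw [hne γ⁻¹.1.1 i j hij, ← enw]
          exact w6_cg h0 hγ' hw i j⟩⟩) l T hT' k k'
        refine h3.trans (le_of_eq ?_)
        rw [enw, ← _root_.zpow_mul]
        congr 1
        ring))
    rw [hnv, hnv, Nat.cast_pow, Nat.cast_pow, e2, map_pow, map_pow, zpow_natCast, e2] at h2
    exact h2

end

end Pool.Agent.Lib.L8
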