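import Pool.Agent.Lib.L8.PCT

/-!
# L8, file SA1 (helper67): spherical eigenfunctions, module (S)

`W_l` a finite family with `∫ W_l(x y) dτ(y) = kap_l W_l(x)`, `b ≥ 0` with `∫ b(x y) dτ(y) ≤ Ξ b(x)`. If `∑ |W_l|² ≤ b²` at the points `x z`, `z ∈ Kt^M`, then `∑ |kap_l|^(2M) |W_l(x)|² ≤ (Ξ^M b(x))²`.
For spherical functions: `τ` = the law of `k y`, `k ∈ K`, `kap_l = ω_l(y)`, `b = C e^(ρ(H(x)))`, `Ξ = Ξ(y)`.
-/

namespace Pool.Agent.Lib.L8

open MeasureTheory Matrix NumberField IsDedekindDomain Pool.Agent.Lib.H89N Pool.Agent.Lib.H33W Pool.Agent.Lib.H67G Pool.Agent.Lib.L1S Topology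
open scoped ENNReal Pointwise

noncomputable section

/-- Minkowski's inequality: the norm of an integral in `ℂ^m`. -/
theorem sp_mink {X : Type} [MeasurableSpace X] {τ : Measure X} {m : ℕ} {f : Fin m → X → ℂ} (hf : ∀ l, Integrable (f l) τ) {b : X → ℝ} (ib : Integrable b τ)
    (b0 : ∀ y, 0 ≤ b y) (hb : ∀ᵐ y ∂τ, ∑ l, ‖f l y‖ ^ 2 ≤ b y ^ 2) : ∑ l, ‖∫ y, f l y ∂τ‖ ^ 2 ≤ (∫ y, b y ∂τ) ^ 2 := by
  obtain ⟨a, ha⟩ : ∃ a : Fin m → ℂ, a = fun l => ∫ y, f l y ∂τ := ⟨_, rfl⟩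
  obtain ⟨S, hS⟩ : ∃ S : ℝ, S = ∑ l, ‖a l‖ ^ 2 := ⟨_, rfl⟩
  have hS0 : 0 ≤ S := by
    rw [hS]
    exact Finset.sum_nonneg fun l _ => sq_nonneg _
  have hB0 : 0 ≤ ∫ y, b y ∂τ := integral_nonneg b0
  -- the dual vector
  have e1 : ((S : ℝ) : ℂ) = ∫ y, ∑ l, star (a l) * f l y ∂τ := by
    rw [integral_finset_sum _ fun l _ => (hf l).const_mul _, hS, Complex.ofReal_sum]
    refine Finset.sum_congr rfl fun l _ => ?_
    rw [integral_const_mul]
    have h1 : ∫ y, f l y ∂τ = a l := by rw [ha]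
    rw [h1]
    have := Complex.conj_mul' (a l)
    rw [← Complex.star_def] at this
    rw [this]
    push_cast
    rfl
  have e2 : S ≤ ∫ y, √S * b y ∂τ := by
    have h1 : ‖((S : ℝ) : ℂ)‖ = S := by rw [Complex.norm_real, Real.norm_of_nonneg hS0]
    have h5 : ‖∫ y, ∑ l, star (a l) * f l y ∂τ‖ = S := by rw [← e1, h1]
    refine h5.symm.le.trans (norm_integral_le_of_norm_le (ib.const_mul _) ?_)
    filter_upwards [hb] with y hy
    refine (norm_sum_le _ _).trans ?_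
    have h2 : ∀ l, ‖star (a l) * f l y‖ = ‖a l‖ * ‖f l y‖ := fun l => by rw [norm_mul, norm_star]
    simp only [h2]
    have h3 : (∑ l, ‖a l‖ * ‖f l y‖) ^ 2 ≤ (∑ l, ‖a l‖ ^ 2) * ∑ l, ‖f l y‖ ^ 2 := Finset.sum_mul_sq_le_sq_mul_sq _ _ _
    have h4 : (∑ l, ‖a l‖ * ‖f l y‖) ^ 2 ≤ (√S * b y) ^ 2 := by
      rw [mul_pow, Real.sq_sqrt hS0]
      rw [← hS] at h3
      exact h3.trans (mul_le_mul_of_nonneg_left hy hS0)
    exact le_of_sq_le_sq h4 (mul_nonneg (Real.sqrt_nonneg _) (b0 y))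
  rw [integral_const_mul] at e2
  have e3 : √S ≤ ∫ y, b y ∂τ := by
    by_cases h0 : S = 0
    · rw [h0, Real.sqrt_zero]
      exact hB0
    · have h1 : 0 < √S := Real.sqrt_pos.2 (lt_of_le_of_ne hS0 (Ne.symm h0))
      have h2 : √S * √S ≤ √S * ∫ y, b y ∂τ := by
        rw [Real.mul_self_sqrt hS0]
        exact e2
      exact le_of_mul_le_mul_left h2 h1
  have e4 : ∑ l, ‖∫ y, f l y ∂τ‖ ^ 2 = √S ^ 2 := by
    rw [Real.sq_sqrt hS0, hS, ha]
  rw [e4]
  exact pow_le_pow_left₀ (Real.sqrt_nonneg _) e3 2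

/-- **Module (S)**, abstract form. -/
theorem sp_iter {G : Type} [Group G] [MeasurableSpace G] {τ : Measure G} {Kt : Set G} (tK : τ Ktᶜ = 0) {m : ℕ} {W : Fin m → G → ℂ} {kap : Fin m → ℂ}
    (hκ : ∀ l x, ∫ y, W l (x * y) ∂τ = kap l * W l x) (hi : ∀ l x, Integrable (fun y => W l (x * y)) τ) {b : G → ℝ} (b0 : ∀ x, 0 ≤ b x) {Ξ : ℝ}
    (hΞ : 0 ≤ Ξ) (ib : ∀ x, Integrable (fun y => b (x * y)) τ) (hb : ∀ x, ∫ y, b (x * y) ∂τ ≤ Ξ * b x) (M : ℕ) :
    ∀ x, (∀ z ∈ Kt ^ M, ∑ l, ‖W l (x * z)‖ ^ 2 ≤ b (x * z) ^ 2) → ∑ l, ‖kap l ^ M * W l x‖ ^ 2 ≤ (Ξ ^ M * b x) ^ 2 := by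
  induction M with
  | zero =>
    intro x hx
    have h1 := hx 1 (by rw [pow_zero]; exact Set.mem_one.2 rfl)
    simpa only [mul_one, pow_zero, one_mul] using h1
  | succ n ih =>
    intro x hx
    have haeK : ∀ᵐ y ∂τ, y ∈ Kt := by
      rw [ae_iff]
      exact tK
    have key := sp_mink (τ := τ) (f := fun l y => kap l ^ n * W l (x * y)) (b := fun y => Ξ ^ n * b (x * y)) (fun l => (hi l x).const_mul _) ((ib x).const_mul _)
      (fun y => mul_nonneg (pow_nonneg hΞ n) (b0 _)) (by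
        filter_upwards [haeK] with y hy
        refine ih (x * y) fun z hz => ?_
        rw [mul_assoc]
        exact hx _ (by rw [pow_succ']; exact Set.mul_mem_mul hy hz))
    have e1 : ∀ l, ∫ y, kap l ^ n * W l (x * y) ∂τ = kap l ^ (n + 1) * W l x := fun l => by
      rw [integral_const_mul, hκ l x]
      ring
    simp only [e1] at key
    refine key.trans ?_
    rw [integral_const_mul]
    refine pow_le_pow_left₀ (mul_nonneg (pow_nonneg hΞ n) (integral_nonneg fun y => b0 _)) ?_ 2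
    calc Ξ ^ n * ∫ y, b (x * y) ∂τ ≤ Ξ ^ n * (Ξ * b x) := mul_le_mul_of_nonneg_left (hb x) (pow_nonneg hΞ n)
      _ = Ξ ^ (n + 1) * b x := by ring

variable {ι M N : Type} [Fintype ι] [DecidableEq ι] [AddCommGroup M] [Module ℚ M] [AddCommGroup N] [Module ℚ N]
  {P : RootPairing ι ℚ M N} [P.IsCrystallographic] {b : P.Base} {L : Type} [Field L] [NumberField L] (H : Subgroup (GK b L))

/-- **Module (S)** for the groups `H`: `F_l` continuous and invariant under `Γ`, `∫ F_l(x y) dτ(y) = kap_l F_l(x)`. If the inequality `∑ |W_l|² ≤ β²` holds at the points `x z`, `z ∈ Kt^M`, then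
`∑ |kap_l|^(2M) |W_l(x)|² ≤ (Ξ^M β(x))²`. -/
theorem sp_TH {Γ : Subgroup H} (hcc : CCH H Γ) {θ : b.support → (EE L →ₗ[ℝ] ℝ)} (one : ∀ w : HUH H, (w : H) ∈ Γ → psT H θ (kUH H w) = 1) {ν : Measure (UHR H)} [ν.IsHaarMeasure]
    {D₁ : Set (UHR H)} (hD₁ : SF (Γ.subgroupOf (HUH H)) D₁) {D' : Set (UHR H)} (hD' : IsFundamentalDomain (imU H Γ) D' ν)
    {τ : Measure (HRt H)} [IsFiniteMeasure τ] {Kt : Set (HRt H)} (cK : IsCompact Kt) (tK : τ Ktᶜ = 0) {m : ℕ} {F : Fin m → HRt H → ℂ} (cF : ∀ l, Continuous (F l))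
    (iF : ∀ l, ∀ γ ∈ imH H Γ, ∀ x, F l (γ * x) = F l x) {kap : Fin m → ℂ} (hκ : ∀ l x, ∫ y, F l (x * y) ∂τ = kap l * F l x)
    {β : HRt H → ℝ} (b0 : ∀ x, 0 ≤ β x) {Ξ : ℝ} (hΞ : 0 ≤ Ξ) (ib : ∀ x, Integrable (fun y => β (x * y)) τ) (hb : ∀ x, ∫ y, β (x * y) ∂τ ≤ Ξ * β x) (Mc : ℕ)
    {x : HRt H} (hx : ∀ z ∈ Kt ^ Mc, ∑ l, ‖WhT H ν D' θ (F l) (x * z)‖ ^ 2 ≤ β (x * z) ^ 2) :
    ∑ l, ‖kap l‖ ^ (2 * Mc) * ‖WhT H ν D' θ (F l) x‖ ^ 2 ≤ (Ξ ^ Mc * β x) ^ 2 := by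
  have ci : Countable H := th_count H
  have cjj : Continuous ((UHR H).subtype : UHR H →* HRt H) := continuous_subtype_val
  obtain ⟨μ, hμ⟩ : ∃ μ : Measure (HRt H), μ.IsHaarMeasure := ⟨Measure.haar, inferInstance⟩
  have fD := th2_fin H hcc hD₁ ν
  have hG := th2_gd H hcc hD₁ μ ν θ (psT_mul' H θ)
  have e0 : ∀ l z, WhT H ν D' θ (F l) z = Wm (UHR H).subtype (psT H θ) ν D₁ (F l) z := fun l z =>
    th2_Wh H ν hD₁ hD' θ (fun δ hδ u => by rw [psT_mul' H θ, one δ hδ, one_mul]) (iF l) z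
  simp only [e0] at hx ⊢
  have mF : ∀ l, Measurable (F l) := fun l => (cF l).measurable
  have bF : ∀ l, ∀ K' : Set (HRt H), IsCompact K' → ∃ B : ℝ, ∀ t : UHR H, ∀ y ∈ K', ‖F l ((UHR H).subtype t * y)‖ ≤ B := fun l =>
    an14_bdd hG cjj hcc (cF l) (fun γ hγ y => iF l _ ⟨γ, hγ, rfl⟩ y)
  have hτ : ∀ l, Cv τ (fun _ => 1) (F l) = fun y => kap l * F l y := fun l => funext fun y => by
    rw [← hκ l y, Cv]
    exact integral_congr_ae (Filter.Eventually.of_forall fun z => mul_one _)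
  have hxK : ∀ x : HRt H, IsCompact ((fun y => x * y) '' Kt) := fun x => cK.image (continuous_const_mul x)
  have haeK : ∀ᵐ y ∂τ, y ∈ Kt := by
    rw [ae_iff]
    exact tK
  have mW : ∀ l, Measurable (Wm (UHR H).subtype (psT H θ) ν D₁ (F l)) := fun l => wm_meas hG (mF l)
  have hi : ∀ l x, Integrable (fun y => Wm (UHR H).subtype (psT H θ) ν D₁ (F l) (x * y)) τ := fun l x => by
    obtain ⟨B, hB⟩ := bF l _ (hxK x)
    refine (integrable_const |B|).mono' ((mW l).comp (measurable_const_mul x)).aestronglyMeasurable ?_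
    filter_upwards [haeK] with y hy
    exact wm_bdd hG (abs_nonneg B) fun t => (hB t _ ⟨y, hy, rfl⟩).trans (le_abs_self B)
  have hW : ∀ l x, ∫ y, Wm (UHR H).subtype (psT H θ) ν D₁ (F l) (x * y) ∂τ = kap l * Wm (UHR H).subtype (psT H θ) ν D₁ (F l) x := fun l x => by
    have hfD : IsFiniteMeasure (ν.restrict D₁) := ⟨by rw [Measure.restrict_apply_univ]; exact fD.lt_top⟩
    obtain ⟨B, hB⟩ := bF l _ (hxK x)
    have mJ : Measurable fun p : HRt H × UHR H => F l ((UHR H).subtype p.2 * (x * p.1)) := by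
      have h1 : Measurable fun p : HRt H × UHR H => ((p.2, x * p.1) : UHR H × HRt H) := measurable_snd.prodMk ((measurable_const_mul x).comp measurable_fst)
      have h2 := hG.mj.comp h1
      have h3 := (mF l).comp h2
      exact h3
    have mS : Measurable fun p : HRt H × UHR H => star (psT H θ p.2) := (continuous_star.measurable).comp (hG.mψ.comp measurable_snd)
    have iAll : Integrable (fun p : HRt H × UHR H => star (psT H θ p.2) * F l ((UHR H).subtype p.2 * (x * p.1))) (τ.prod (ν.restrict D₁)) := by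
      refine (integrable_const |B|).mono' (mS.mul mJ).aestronglyMeasurable ?_
      have h1 : ∀ᵐ p ∂(τ.prod (ν.restrict D₁)), p.1 ∈ Kt := Measure.quasiMeasurePreserving_fst.ae haeK
      filter_upwards [h1] with p hp
      rw [norm_mul, norm_star, hG.nψ, one_mul]
      exact (hB p.2 _ ⟨p.1, hp, rfl⟩).trans (le_abs_self B)
    have e1 : ∀ y, Wm (UHR H).subtype (psT H θ) ν D₁ (F l) (x * y) = ((ν.real D₁)⁻¹ : ℝ) • ∫ t in D₁, star (psT H θ t) * F l ((UHR H).subtype t * (x * y)) ∂ν := fun y => by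
      rw [Wm, setAverage_eq]
    simp only [e1]
    rw [Wm, setAverage_eq, integral_smul, mul_smul_comm, ← integral_const_mul]
    congr 1
    rw [integral_integral_swap iAll]
    refine integral_congr_ae (Filter.Eventually.of_forall fun t => ?_)
    change ∫ y, star (psT H θ t) * F l ((UHR H).subtype t * (x * y)) ∂τ = kap l * (star (psT H θ t) * F l ((UHR H).subtype t * x))
    have e2 : kap l * (star (psT H θ t) * F l ((UHR H).subtype t * x)) = star (psT H θ t) * (kap l * F l ((UHR H).subtype t * x)) := by ring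
    rw [e2, ← hκ l ((UHR H).subtype t * x), ← integral_const_mul]
    refine integral_congr_ae (Filter.Eventually.of_forall fun y => ?_)
    change star (psT H θ t) * F l ((UHR H).subtype t * (x * y)) = star (psT H θ t) * F l ((UHR H).subtype t * x * y)
    rw [mul_assoc ((UHR H).subtype t) x y]
  have key := sp_iter tK hW hi b0 hΞ ib hb Mc x hx
  refine le_trans (le_of_eq (Finset.sum_congr rfl fun l _ => ?_)) key
  rw [norm_mul, norm_pow, mul_pow, ← pow_mul, mul_comm 2 Mc]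

end

end Pool.Agent.Lib.L8
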