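import Pool.Agent.Lib.L1S.QStm
import Pool.Agent.Lib.L8.Df
import Pool.Agent.Lib.L8.PD3

/-!
# L8: the density theorem at the archimedean places (helper43): the statement in terms of the definitions of version V1

Notation of `Pool.Agent.Lib.L1S.QStm`: `G = HRt (HQ Q)` is the real group of the quasi-split group of type `(P, Q)` over `K`, `Γ = GamHR (HQ Q) 𝔫 v r s`, `U = UHR (HQ Q)`.
-/

namespace Pool.Agent.Lib.L8

open MeasureTheory Matrix NumberField NumberField.InfinitePlace IsDedekindDomain Pool.Agent.Lib.H89N Pool.Agent.Lib.H33W Pool.Agent.Lib.L1S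
open scoped ENNReal

noncomputable section

set_option linter.unusedSectionVars false

variable {ι M N : Type} [Fintype ι] [DecidableEq ι] [AddCommGroup M] [Module ℚ M] [AddCommGroup N] [Module ℚ N]
  {P : RootPairing ι ℚ M N} [P.IsCrystallographic] {b : P.Base}
  {K L : Type} [Field K] [NumberField K] [Field L] [NumberField L] [Algebra K L]

/-- **The size condition**: `N = N(𝔫)`, `q = N(v)`, `d = [K : ℚ]`, for `w Φ_i = - Φ_j` and `k_i = |Φ_i|`: `R_i ≤ ((N q ^ (r + s)) ^ k_i exp(d (A(Φ_i) + A(Φ_j)))) ^ [L : K]`, or for some simple root `α_l` and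
`T ≥ m_l(β)` for all `β`: `R_i ^ T ≤ ((N q ^ (r + s)) ^ P exp(T d (A(Φ_i) + A(Φ_j)))) ^ [L : K]`, `P` the sum of the coefficients `m_l` of the roots in `Φ_i` and in `Φ_j`. -/
def SzA [P.IsRootSystem] (b : P.Base) {K : Type} (L : Type) [Field K] [NumberField K] [Field L] [NumberField L] [Algebra K L] (𝔫 : Ideal (𝓞 K)) (v : HeightOneSpectrum (𝓞 K)) (r s : ℕ)
    (A : M →ₗ[ℚ] ℝ) (R : b.support → ℝ) : Prop :=
  ∀ i j, Opp b i j →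
    R i ≤ (((Ideal.absNorm 𝔫 : ℝ) * (Ideal.absNorm v.asIdeal : ℝ) ^ (r + s)) ^ (Phi b i).card * Real.exp (Module.finrank ℚ K * (AA b A i + AA b A j))) ^ Module.finrank K L ∨
    ∃ (l : b.support) (T : ℕ), (∀ β, mc b l (Sum.inr β) ≤ T) ∧
      R i ^ T ≤ (((Ideal.absNorm 𝔫 : ℝ) * (Ideal.absNorm v.asIdeal : ℝ) ^ (r + s)) ^ (SM b i l + SM b j l) * Real.exp (Module.finrank ℚ K * (AA b A i + AA b A j)) ^ T) ^ Module.finrank K L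

/-- **The statement**: density theorem at the archimedean places for the globally generic spectrum of the quasi-split group `(P, Q)` over `K`, for all `K`-types.
Let `w τ` be a complex measure on `G` with compact support `Kt`, `Λ` a bound for the norm of the right convolution operator of `w τ` on `L²(G)`, and let `B i w` bound the row sums of the `k_i`-th compound matrices of `g` and
`g⁻¹` at the place `w` of `L`, `g ∈ Kt`. Let `F_1, …, F_n` in `L²(Γ \ G)` be orthonormal, eigenfunctions of `φ` with eigenvalues of absolute value at least one, and eigenfunctions of `w τ` with the eigenvalues `κ_l`.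
If `R_i = ∏_w B i w ^ (2 m n_w)` satisfy the size condition, then `∑_l |κ_l| ^ (2 m) |W_{F_l}(x)|² ≤ C Λ ^ (2 m) ∏_{β > 0} exp(d A(β)) / N`. The constant `C` does not depend on `w τ`, `m`, the level and `x`. -/
def StatementA [P.IsRootSystem] (Q : QS b K L) : Prop :=
  ∀ (μ : Measure (HRt (HQ Q))) [μ.IsHaarMeasure] (φ : HRt (HQ Q) → ℂ), Continuous φ → HasCompactSupport φ →
    ∀ Ω : Set (GL (I b) (EE L)), IsCompact Ω → ∃ C : ℝ, ∀ (v : HeightOneSpectrum (𝓞 K)) (𝔫 : Ideal (𝓞 K)), 𝔫 ≠ ⊥ → ¬𝔫 ≤ v.asIdeal → ∀ r s : ℕ,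
    ∀ θ : b.support → (EE L →ₗ[ℝ] ℝ), GenQ Q 𝔫 v r s θ →
    ∀ A : M →ₗ[ℚ] ℝ, InvA Q A → (∀ i : b.support, 0 ≤ A (P.root i)) → ∀ x : HRt (HQ Q), InRangeH (HQ Q) Ω A x →
    ∀ (τ : Measure (HRt (HQ Q))) [IsFiniteMeasure τ] (Kt : Set (HRt (HQ Q))), IsCompact Kt → τ Ktᶜ = 0 → ∀ w : HRt (HQ Q) → ℂ, Measurable w → (∃ c, ∀ y, ‖w y‖ ≤ c) →
    ∀ Λ : ℝ, OpB μ τ w Λ → ∀ B : b.support → InfinitePlace L → ℝ, (∀ i w, 0 ≤ B i w) → (∀ g ∈ Kt, ∀ i w, CB (Phi b i).card w g.1.1.1 (B i w) ∧ CB (Phi b i).card w g⁻¹.1.1.1 (B i w)) →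
    ∀ m : ℕ, SzA b L 𝔫 v r s A (fun i => ∏ w, B i w ^ (2 * m * mult w)) →
    ∀ (ν : Measure (UHR (HQ Q))) [ν.IsHaarMeasure] (D : Set (HRt (HQ Q))), IsFundamentalDomain (GamHR (HQ Q) 𝔫 v r s) D μ →
    ∀ (n : ℕ) (F : Fin n → HRt (HQ Q) → ℂ), (∀ l, AutH (HQ Q) 𝔫 v r s μ D φ (F l)) → (∀ l k, ∫ x in D, star (F l x) * F k x ∂μ = if l = k then 1 else 0) →
    ∀ κ : Fin n → ℂ, (∀ l x, ∫ y, F l (x * y) * w y ∂τ = κ l * F l x) →
    ∀ D' : Set (UHR (HQ Q)), IsFundamentalDomain (GamUH (HQ Q) 𝔫 v r s) D' ν →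
      ∑ l, ‖κ l‖ ^ (2 * m) * ‖WhH (HQ Q) ν D' θ (F l) x‖ ^ 2 ≤ C * Λ ^ (2 * m) * ∏ β ∈ Pos b, Real.exp (Module.finrank ℚ K * A (P.root β)) / (Ideal.absNorm 𝔫 : ℝ)

/-- **The size condition** at the torus point `a`: `R_i ≤ ((N q ^ (r + s)) ^ k_i) ^ [L : K] E_ij`, `E_ij = ∏_{β ∈ Φ_i} |a_β| ∏_{β ∈ Φ_j} |a_β|`, or for some simple root `α_l` and
`T ≥ m_l(β)` for all `β`: `R_i ^ T ≤ ((N q ^ (r + s)) ^ P) ^ [L : K] E_ij ^ T`, `P` the sum of the coefficients `m_l` of the roots in `Φ_i` and in `Φ_j`. -/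
def SzT [P.IsRootSystem] (b : P.Base) {K : Type} (L : Type) [Field K] [NumberField K] [Field L] [NumberField L] [Algebra K L] (𝔫 : Ideal (𝓞 K)) (v : HeightOneSpectrum (𝓞 K)) (r s : ℕ)
    (a : ι → (EE L)ˣ) (R : b.support → ℝ) : Prop :=
  ∀ i j, Opp b i j →
    R i ≤ (((Ideal.absNorm 𝔫 : ℝ) * (Ideal.absNorm v.asIdeal : ℝ) ^ (r + s)) ^ (Phi b i).card) ^ Module.finrank K L * Ea b a i j ∨
    ∃ (l : b.support) (T : ℕ), (∀ β, mc b l (Sum.inr β) ≤ T) ∧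
      R i ^ T ≤ (((Ideal.absNorm 𝔫 : ℝ) * (Ideal.absNorm v.asIdeal : ℝ) ^ (r + s)) ^ (SM b i l + SM b j l)) ^ Module.finrank K L * Ea b a i j ^ T

/-- **The statement at every torus point** `t = diag(a_β)` of `G`: `x ∈ U t Ω`; the bound is `C Λ ^ (2 m) δ(t) N ^ (-#Φ⁺)`, `δ(t) = (∏_{β > 0} |a_β|) ^ (1 / [L : K])` the modulus of `t` on `U` (`|a|` the absolute value of the
norm from `L ⊗ ℝ` to `ℝ`). -/
def StatementT [P.IsRootSystem] (Q : QS b K L) : Prop :=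
  ∀ (μ : Measure (HRt (HQ Q))) [μ.IsHaarMeasure] (φ : HRt (HQ Q) → ℂ), Continuous φ → HasCompactSupport φ →
    ∀ Ω : Set (GL (I b) (EE L)), IsCompact Ω → ∃ C : ℝ, ∀ (v : HeightOneSpectrum (𝓞 K)) (𝔫 : Ideal (𝓞 K)), 𝔫 ≠ ⊥ → ¬𝔫 ≤ v.asIdeal → ∀ r s : ℕ,
    ∀ θ : b.support → (EE L →ₗ[ℝ] ℝ), GenQ Q 𝔫 v r s θ →
    ∀ (t : HRt (HQ Q)) (a : ι → (EE L)ˣ), t.1.1.1 = dgz b a → ∀ x : HRt (HQ Q), (∃ u : UHR (HQ Q), ∃ ω ∈ Ω, x.1.1.1 = u.1.1.1.1 * t.1.1.1 * ω.1) →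
    ∀ (τ : Measure (HRt (HQ Q))) [IsFiniteMeasure τ] (Kt : Set (HRt (HQ Q))), IsCompact Kt → τ Ktᶜ = 0 → ∀ w : HRt (HQ Q) → ℂ, Measurable w → (∃ c, ∀ y, ‖w y‖ ≤ c) →
    ∀ Λ : ℝ, OpB μ τ w Λ → ∀ B : b.support → InfinitePlace L → ℝ, (∀ i w, 0 ≤ B i w) → (∀ g ∈ Kt, ∀ i w, CB (Phi b i).card w g.1.1.1 (B i w) ∧ CB (Phi b i).card w g⁻¹.1.1.1 (B i w)) →
    ∀ m : ℕ, SzT b L 𝔫 v r s a (fun i => ∏ w, B i w ^ (2 * m * mult w)) →
    ∀ (ν : Measure (UHR (HQ Q))) [ν.IsHaarMeasure] (D : Set (HRt (HQ Q))), IsFundamentalDomain (GamHR (HQ Q) 𝔫 v r s) D μ →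
    ∀ (n : ℕ) (F : Fin n → HRt (HQ Q) → ℂ), (∀ l, AutH (HQ Q) 𝔫 v r s μ D φ (F l)) → (∀ l k, ∫ x in D, star (F l x) * F k x ∂μ = if l = k then 1 else 0) →
    ∀ κ : Fin n → ℂ, (∀ l x, ∫ y, F l (x * y) * w y ∂τ = κ l * F l x) →
    ∀ D' : Set (UHR (HQ Q)), IsFundamentalDomain (GamUH (HQ Q) 𝔫 v r s) D' ν →
      ∑ l, ‖κ l‖ ^ (2 * m) * ‖WhH (HQ Q) ν D' θ (F l) x‖ ^ 2 ≤
        C * Λ ^ (2 * m) * ((∏ β ∈ Pos b, mixedEmbedding.norm (a β : EE L)) ^ ((Module.finrank K L : ℝ)⁻¹) / (Ideal.absNorm 𝔫 : ℝ) ^ (Pos b).card)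

end

end Pool.Agent.Lib.L8
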