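import Pool.Agent.Lib.L8.Stm

/-!
# M: the hybrid density theorem (helper43): the statement in terms of the definitions of version V1

Notation of `Pool.Agent.Lib.L1S.QStm`: `G = HRt (HQ Q)` is the real group of the quasi-split group of type `(P, Q)` over `K`, `Γ = GamHR (HQ Q) 𝔫 v r s`, `U = UHR (HQ Q)`.
-/

namespace Pool.Agent.Lib.L8

open MeasureTheory Matrix NumberField NumberField.InfinitePlace IsDedekindDomain Pool.Agent.Lib.H89N Pool.Agent.Lib.H33W Pool.Agent.Lib.L1S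
open scoped ENNReal

noncomputable section

set_option linter.unusedSectionVars false

variable {ι M N : Type} [Fintype ι] [DecidableEq ι] [AddCommGroup M] [Module ℚ M] [AddCommGroup N] [Module ℚ N]
  {P : RootPairing ι ℚ M N} [P.IsCrystallographic] {b : P.Base}
  {K L : Type} [Field K] [NumberField K] [Field L] [NumberField L] [Algebra K L]

/-- Continuous functions in `L²(Γ \ G)` (`D` a fundamental domain) which are eigenfunctions of the convolution operator of `φ` (eigenvalue `c`), of the convolution operator of `w τ` (eigenvalue `κ`) and of the Hecke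
operator `Γ h Γ` (eigenvalue `t`). -/
structure AutM (Q : QS b K L) (𝔫 : Ideal (𝓞 K)) (v : HeightOneSpectrum (𝓞 K)) (r s : ℕ) (μ : Measure (HRt (HQ Q))) (D : Set (HRt (HQ Q))) (φ : HRt (HQ Q) → ℂ) (τ : Measure (HRt (HQ Q)))
    (w : HRt (HQ Q) → ℂ) (h : HQ Q) (F : HRt (HQ Q) → ℂ) (c κ t : ℂ) : Prop where
  cont : Continuous F
  inv : ∀ γ ∈ GamHR (HQ Q) 𝔫 v r s, ∀ x, F (γ * x) = F x
  l2 : MemLp F 2 (μ.restrict D)
  eig : ∀ x, ∫ y, F (x * y) * φ y ∂μ = c * F x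
  cv : ∀ x, ∫ y, F (x * y) * w y ∂τ = κ * F x
  hec : IsTH (HQ Q) 𝔫 v r s h F t

/-- The norm of the convolution operator of the compactly supported complex measure `w τ` on `L²(G)` is at most `Λ`, and the row sums of the `k_i`-th compound matrices of `g` and `g⁻¹` at the place `w` are at most
`B i w`, for all `g` in a compact set `Kt` outside which `τ` vanishes. -/
def MeaM [P.IsRootSystem] (Q : QS b K L) (μ τ : Measure (HRt (HQ Q))) (w : HRt (HQ Q) → ℂ) (Λ : ℝ) (B : b.support → InfinitePlace L → ℝ) : Prop :=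
  IsFiniteMeasure τ ∧ Measurable w ∧ (∃ C, ∀ y, ‖w y‖ ≤ C) ∧ OpB μ τ w Λ ∧
    ∃ Kt : Set (HRt (HQ Q)), IsCompact Kt ∧ τ Ktᶜ = 0 ∧ ∀ g ∈ Kt, ∀ i w, CB (Phi b i).card w g.1.1.1 (B i w) ∧ CB (Phi b i).card w g⁻¹.1.1.1 (B i w)

/-- **The statement**: hybrid density theorem for the globally generic spectrum of the quasi-split group `(P, Q)` over `K`, at a finite place `v` and at the archimedean places.
For compact sets `Ω`, `K₀` there is `C` such that for every level `𝔫`, `v`, `r`, `s`, every dominant coweight `λ = ∑ c_j α_j^∨` fixed by the Galois group with a Hecke element `h ∈ Γ_v λ(π)⁻¹` (`r + s ≥ 1` or `λ = 0`), every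
nondegenerate character `ψ`, every torus element `t = diag(a_β)` of `G` and `x ∈ U t Ω`, every complex measure `w τ` (`MeaM`), `m ≥ 0` with the size condition `Sz4` (`R_i = ∏_w B i w ^ (2 m n_w)`, `E_ij = ∏_{Φ_i} |a_β| ∏_{Φ_j} |a_β|`),
every continuous `φ` with support in `K₀`, orthonormal `F_1, …, F_n` in `L²(Γ \ G)` with `F_l * φ = c_l F_l`, `F_l * (w τ) = κ_l F_l` and the eigenvalue `t_l` of `Γ h Γ`:
`ν(Γ_U \ U) ∑_l |c_l κ_l ^ m t_l W_l(x)|² ≤ C Λ ^ (2 m) q ^ (∑_{β > 0} ⟨β, λ⟩) J`, `J = ∫_U ∫_G |φ(x⁻¹ z)| |φ(x⁻¹ u z)| dz du`, and `J ≤ C ‖φ‖₂² δ(t) N ^ (-#Φ⁺) ν(Γ_U \ U)`, `δ(t) = (∏_{β > 0} |a_β|) ^ (1 / [L : K])`. -/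
def StatementM [P.IsRootSystem] (Q : QS b K L) : Prop :=
  ∀ (Ω : Set (GL (I b) (EE L))) (K₀ : Set (HRt (HQ Q))), IsCompact Ω → IsCompact K₀ → ∃ C : ℝ,
    ∀ (v : HeightOneSpectrum (𝓞 K)) (𝔫 : Ideal (𝓞 K)), 𝔫 ≠ ⊥ → ¬𝔫 ≤ v.asIdeal → ∀ (r s : ℕ) (c : b.support → ℤ), InvC Q c → (∀ i : b.support, 0 ≤ pr b c (Sum.inr i)) → (1 ≤ r + s ∨ c = 0) →
    ∀ π : K, v.valuation K π = WithZero.exp (-1 : ℤ) → ∀ h : HQ Q, h.1 ∈ HGL b L 𝔫 v → AtVL b v r s π c h.1 →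
    ∀ θ : b.support → (EE L →ₗ[ℝ] ℝ), GenQ Q 𝔫 v r s θ →
    ∀ (t : HRt (HQ Q)) (a : ι → (EE L)ˣ), t.1.1.1 = dgz b a → ∀ x : HRt (HQ Q), (∃ u : UHR (HQ Q), ∃ ω ∈ Ω, x.1.1.1 = u.1.1.1.1 * t.1.1.1 * ω.1) →
    ∀ (μ τ : Measure (HRt (HQ Q))) [μ.IsHaarMeasure] (w : HRt (HQ Q) → ℂ) (Λ : ℝ) (B : b.support → InfinitePlace L → ℝ), (∀ i w, 0 ≤ B i w) → MeaM Q μ τ w Λ B →
    ∀ m : ℕ, Sz4 b L 𝔫 v r s c c (fun i => ∏ w, B i w ^ (2 * m * mult w)) (Ea b a) →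
    ∀ φ : HRt (HQ Q) → ℂ, Continuous φ → tsupport φ ⊆ K₀ →
    ∀ (ν : Measure (UHR (HQ Q))) [ν.IsHaarMeasure] (D : Set (HRt (HQ Q))), IsFundamentalDomain (GamHR (HQ Q) 𝔫 v r s) D μ →
    ∀ (n : ℕ) (F : Fin n → HRt (HQ Q) → ℂ) (c' κ t' : Fin n → ℂ), (∀ l, AutM Q 𝔫 v r s μ D φ τ w h (F l) (c' l) (κ l) (t' l)) → (∀ l k, ∫ x in D, star (F l x) * F k x ∂μ = if l = k then 1 else 0) →
    ∀ D' : Set (UHR (HQ Q)), IsFundamentalDomain (GamUH (HQ Q) 𝔫 v r s) D' ν →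
      ENNReal.ofReal (∑ l, ‖c' l * κ l ^ m * t' l * WhH (HQ Q) ν D' θ (F l) x‖ ^ 2) * ν D' ≤
        ENNReal.ofReal (C * Λ ^ (2 * m) * (Ideal.absNorm v.asIdeal : ℝ) ^ (∑ β ∈ Pos b, pr b c (Sum.inr β))) * ∫⁻ u : UHR (HQ Q), ∫⁻ z, ‖φ (x⁻¹ * z)‖ₑ * ‖φ (x⁻¹ * (u * z))‖ₑ ∂μ ∂ν ∧
      ∫⁻ u : UHR (HQ Q), ∫⁻ z, ‖φ (x⁻¹ * z)‖ₑ * ‖φ (x⁻¹ * (u * z))‖ₑ ∂μ ∂ν ≤
        ENNReal.ofReal (C * (∫ y, ‖φ y‖ ^ 2 ∂μ) * (∏ β ∈ Pos b, mixedEmbedding.norm (a β : EE L)) ^ ((Module.finrank K L : ℝ)⁻¹) / (Ideal.absNorm 𝔫 : ℝ) ^ (Pos b).card) * ν D'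

end

end Pool.Agent.Lib.L8
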