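import Pool.Agent.Lib.L8.U00
import Pool.Agent.Lib.L1S.QB4
import Pool.Agent.Lib.L1S.QC3
import Pool.Agent.Lib.L1S.QApi

/-!
# U, file U0: definitions (helper43), see PROOF_U.md
-/

namespace Pool.Agent.Lib.L8

open MeasureTheory Matrix NumberField NumberField.InfinitePlace IsDedekindDomain Pool.Agent.Lib.H89N Pool.Agent.Lib.H33W Pool.Agent.Lib.H67G Pool.Agent.Lib.L1S
open scoped ENNReal Pointwise

noncomputable section

set_option linter.unusedSectionVars false

/-! ## The group `H'` and the minors at `v` -/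

variable {ι M N : Type} [Fintype ι] [DecidableEq ι] [AddCommGroup M] [Module ℚ M] [AddCommGroup N] [Module ℚ N]
  {P : RootPairing ι ℚ M N} [P.IsCrystallographic] {b : P.Base}

variable {K L : Type} [Field K] [NumberField K] [Field L] [NumberField L] [Algebra K L]

variable [P.IsRootSystem]

/-- The minors of `X` with the columns `Φ_i` are in `v ^ (-e)` at the places over `v`. -/
def MCl (b : P.Base) (v : HeightOneSpectrum (𝓞 K)) (i : b.support) (e : ℕ) (X : Matrix (I b) (I b) L) : Prop :=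
  ∀ f : Phi b i → I b, ∀ a ∈ v.asIdeal ^ e, IntV v (algebraMap K L (a : K) * (X.submatrix f fun β : Phi b i => Sum.inr β.1).det)

/-- The minors of `X` with the rows `-Φ_i` are in `v ^ (-e)` at the places over `v`. -/
def MRl (b : P.Base) (v : HeightOneSpectrum (𝓞 K)) (i : b.support) (e : ℕ) (X : Matrix (I b) (I b) L) : Prop :=
  ∀ f : Phi b i → I b, ∀ a ∈ v.asIdeal ^ e, IntV v (algebraMap K L (a : K) * (X.submatrix (fun β : Phi b i => Sum.inr (P.reflectionPerm β.1 β.1)) f).det)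

/-- **The size condition** with exponents `f i j` of `q = N(v)`: for `w Φ_i = - Φ_j` and `k_i = |Φ_i|`: `q ^ ([L : K] f_ij) R_i ≤ N ^ ([L : K] k_i) E_ij`, or for some simple root `α_l` and `T ≥ m_l(β)` for all `β`:
`(q ^ ([L : K] f_ij) R_i) ^ T ≤ N ^ ([L : K] P) E_ij ^ T`, `P` the sum of the coefficients `m_l` of the roots in `Φ_i` and in `Φ_j`. -/
def SzU (b : P.Base) {K : Type} (L : Type) [Field K] [NumberField K] [Field L] [NumberField L] [Algebra K L] (𝔫 : Ideal (𝓞 K)) (v : HeightOneSpectrum (𝓞 K)) (f : b.support → b.support → ℤ)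
    (R : b.support → ℝ) (E : b.support → b.support → ℝ) : Prop :=
  ∀ i j, Opp b i j →
    ((Ideal.absNorm v.asIdeal : ℝ) ^ f i j) ^ Module.finrank K L * R i ≤ ((Ideal.absNorm 𝔫 : ℝ) ^ (Phi b i).card) ^ Module.finrank K L * E i j ∨
    ∃ (l : b.support) (T : ℕ), (∀ β, mc b l (Sum.inr β) ≤ T) ∧
      (((Ideal.absNorm v.asIdeal : ℝ) ^ f i j) ^ Module.finrank K L * R i) ^ T ≤ ((Ideal.absNorm 𝔫 : ℝ) ^ (SM b i l + SM b j l)) ^ Module.finrank K L * E i j ^ T

variable [P.IsReduced] [P.IsIrreducible]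

/-- **The group `H'`**: the elements of `HQ Q` over `𝓞_L[1/v]` congruent to `1` modulo `𝔫`. -/
def HvQ (Q : QS b K L) (𝔫 : Ideal (𝓞 K)) (v : HeightOneSpectrum (𝓞 K)) : Subgroup (HQ Q) where
  carrier := {h | h.1 ∈ HGL b L 𝔫 v}
  one_mem' := hgl_one 𝔫
  mul_mem' hg hh := hgl_mul hg hh
  inv_mem' hg := hgl_inv hg

theorem mem_HvQ {Q : QS b K L} {𝔫 : Ideal (𝓞 K)} {v : HeightOneSpectrum (𝓞 K)} {h : HQ Q} : h ∈ HvQ Q 𝔫 v ↔ h.1 ∈ HGL b L 𝔫 v := Iff.rfl


end

end Pool.Agent.Lib.L8
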