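import Pool.Agent.Lib.L8.U0

/-!
# W, file W0: definitions (helper43): the universal density theorem for all finite places and all arithmetic groups, see PROOF_W.md
-/

namespace Pool.Agent.Lib.L8

open MeasureTheory Matrix NumberField NumberField.InfinitePlace IsDedekindDomain Pool.Agent.Lib.H89N Pool.Agent.Lib.H33W Pool.Agent.Lib.H67G Pool.Agent.Lib.L1S
open scoped ENNReal Pointwise

noncomputable section

set_option linter.unusedSectionVars false

variable {ι M N : Type} [Fintype ι] [DecidableEq ι] [AddCommGroup M] [Module ℚ M] [AddCommGroup N] [Module ℚ N]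
  {P : RootPairing ι ℚ M N} [P.IsCrystallographic] {b : P.Base}

variable {K L : Type} [Field K] [NumberField K] [Field L] [NumberField L] [Algebra K L]

variable [P.IsRootSystem]

/-- The minors of `X` with the columns `Φ_i` are in `𝔟⁻¹`. -/
def MCi (b : P.Base) (𝔟 : Ideal (𝓞 K)) (i : b.support) (X : Matrix (I b) (I b) L) : Prop :=
  ∀ f : Phi b i → I b, ∀ y ∈ 𝔟, L1S.InI (⊤ : Ideal (𝓞 L)) (algebraMap K L (y : K) * (X.submatrix f fun β : Phi b i => Sum.inr β.1).det)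

/-- The minors of `X` with the rows `-Φ_i` are in `𝔟⁻¹`. -/
def MRi (b : P.Base) (𝔟 : Ideal (𝓞 K)) (i : b.support) (X : Matrix (I b) (I b) L) : Prop :=
  ∀ f : Phi b i → I b, ∀ y ∈ 𝔟, L1S.InI (⊤ : Ideal (𝓞 L)) (algebraMap K L (y : K) * (X.submatrix (fun β : Phi b i => Sum.inr (P.reflectionPerm β.1 β.1)) f).det)

/-- `X` is congruent to `1` modulo `𝔫` at the places which divide `𝔫`. -/
def Cg (b : P.Base) (𝔫 : Ideal (𝓞 K)) (X : Matrix (I b) (I b) L) : Prop :=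
  ∃ 𝔞 : Ideal (𝓞 K), 𝔞 ⊔ 𝔫 = ⊤ ∧ ∀ y ∈ 𝔞, ∀ r c, L1S.InI (up L 𝔫) (algebraMap K L (y : K) * (X - 1) r c)

/-- All entries are integral. -/
def IntM (b : P.Base) (X : Matrix (I b) (I b) L) : Prop := ∀ r c, L1S.InI (⊤ : Ideal (𝓞 L)) (X r c)

omit [P.IsRootSystem] in
theorem IntM.one : IntM b (1 : Matrix (I b) (I b) L) := fun r c => by
  by_cases h : r = c
  · subst h
    rw [Matrix.one_apply_eq]
    exact ⟨1, Submodule.mem_top, by simp⟩
  · rw [Matrix.one_apply_ne h]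
    exact ⟨0, Submodule.mem_top, by simp⟩

omit [P.IsRootSystem] in
theorem IntM.mul {X Y : Matrix (I b) (I b) L} (hX : IntM b X) (hY : IntM b Y) : IntM b (X * Y) := fun r c => by
  rw [Matrix.mul_apply]
  refine L1S.InI.sum _ _ fun k _ => ?_
  obtain ⟨x, -, ex⟩ := hX r k
  obtain ⟨y, -, ey⟩ := hY k c
  exact ⟨x * y, Submodule.mem_top, by rw [← ex, ← ey]; simp⟩

variable [P.IsReduced] [P.IsIrreducible]

/-- **The group `G(𝓞)`**: the elements `g` of `HQ Q` with integral `g`, `g⁻¹`. -/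
def GI (Q : QS b K L) : Subgroup (HQ Q) where
  carrier := {g | IntM b g.1.1.1 ∧ IntM b g⁻¹.1.1.1}
  one_mem' := ⟨IntM.one, by
    rw [inv_one]
    exact IntM.one⟩
  mul_mem' := by
    rintro g h ⟨hg, hg'⟩ ⟨hh, hh'⟩
    refine ⟨hg.mul hh, ?_⟩
    rw [_root_.mul_inv_rev]
    exact hh'.mul hg'
  inv_mem' := by
    rintro g ⟨hg, hg'⟩
    refine ⟨hg', ?_⟩
    rw [inv_inv]
    exact hg

/-- **The gap**: for `a`, `a'` and `γ ∈ (w_a h)⁻¹ Γ (w_a' h)`, `w Φ_i = -Φ_j`, the minor `D` of `γ` (rows `w Φ_i`, columns `Φ_i`) is zero or `C R_i < |N(D)| E_ij`. -/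
def GapQ (Q : QS b K L) (Γ : Subgroup (HQ Q)) {k : ℕ} (w' : Fin k → HQ Q) (h : HQ Q) (C : ℝ) (R : b.support → ℝ) (E : b.support → b.support → ℝ) : Prop :=
  ∀ (i j : b.support) (w : Equiv.Perm ι), w ∈ WP P → OppW b i j w → ∀ (a a' : Fin k) (γ : HQ Q), w' a * h * γ * (w' a' * h)⁻¹ ∈ Γ →
    Dm b i w γ.1.1.1 = 0 ∨ C * R i < mixedEmbedding.norm (mixedEmbedding L (Dm b i w γ.1.1.1)) * E i j

end

end Pool.Agent.Lib.L8
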