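import Pool.Agent.Lib.L8.UG3

/-!
# W, file W7: the Whittaker norm of the operator (helper43)
-/

namespace Pool.Agent.Lib.L8

open MeasureTheory Matrix NumberField NumberField.InfinitePlace IsDedekindDomain Pool.Agent.Lib.H89N Pool.Agent.Lib.H33W Pool.Agent.Lib.H67G Pool.Agent.Lib.L1S
open scoped ENNReal Pointwise

noncomputable section

set_option linter.unusedSectionVars false

variable {ι M N : Type} [Fintype ι] [DecidableEq ι] [AddCommGroup M] [Module ℚ M] [AddCommGroup N] [Module ℚ N]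
  {P : RootPairing ι ℚ M N} [P.IsCrystallographic] {b : P.Base} {L : Type} [Field L] [NumberField L] (H : Subgroup (GK b L))

/-- The volume of `(x⁻¹ Γ x ∩ U) \ U`. -/
def cvH (Γ : Subgroup H) (ν : Measure (UHR H)) (x : H) : ℝ≥0∞ := covolume (imU H (cjG Γ x)) (UHR H) ν

/-- The square of the norm of `f` in `L²(Γ \ H / (U, ψ))`: the sum of `|f(x)|² vol((x⁻¹ Γ x ∩ U) \ U)` over `x ∈ Γ \ H / (U ∩ H)`. -/
def wnH (Γ : Subgroup H) (ν : Measure (UHR H)) (f : H → ℂ) : ℝ≥0∞ :=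
  ⨆ (R : Finset H) (_ : ∀ x ∈ R, ∀ y ∈ R, (∃ u : HUH H, x * u * y⁻¹ ∈ Γ) → x = y), ∑ x ∈ R, ‖f x‖ₑ ^ 2 * cvH H Γ ν x

/-- The condition on the norm of the operator at the point `h`. -/
def WnH (Γ : Subgroup H) (θ : b.support → (EE L →ₗ[ℝ] ℝ)) (ν : Measure (UHR H)) {A : Type} [Fintype A] (w : A → H) (e : A → ℂ) (h : H) (Λ : ℝ) : Prop :=
  ∀ f : H → ℂ, (∀ γ ∈ Γ, ∀ y, f (γ * y) = f y) → (∀ (u : HUH H) (y : H), f (y * u) = psT H θ (kUH H u) * f y) →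
    cvH H Γ ν h * ‖∑ a, e a * f (w a * h)‖ₑ ^ 2 ≤ ENNReal.ofReal (Λ ^ 2) * wnH H Γ ν f

theorem w7_cv {Γ : Subgroup H} (ν : Measure (UHR H)) [ν.IsHaarMeasure] {x : H} {D : Set (UHR H)} (hD : SF ((cjG Γ x).subgroupOf (HUH H)) D) : cvH H Γ ν x = ν D := by
  have := th2_countU H (cjG Γ x)
  exact (th2_fdU H hD ν).covolume_eq_volume ν

/-- Conjugation. -/
theorem WnH.conj {Γ : Subgroup H} {θ : b.support → (EE L →ₗ[ℝ] ℝ)} {ν : Measure (UHR H)} {A : Type} [Fintype A] {w : A → H} {e : A → ℂ} {h : H} {Λ : ℝ} (hW : WnH H Γ θ ν w e h Λ) :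
    WnH H (cjG Γ h) θ ν (fun a => h⁻¹ * w a * h) e 1 Λ := by
  classical
  intro f hf hfu
  have e0 : ∀ x, cvH H (cjG Γ h) ν x = cvH H Γ ν (h * x) := fun x => by
    unfold cvH
    rw [ug_cjcj]
  have h1 := hW (fun y => f (h⁻¹ * y)) (fun γ hγ y => by
      have e1 : h⁻¹ * (γ * y) = (h⁻¹ * γ * h) * (h⁻¹ * y) := by group
      rw [e1]
      refine hf _ ?_ _
      rw [cjG_mem]
      have e2 : h * (h⁻¹ * γ * h) * h⁻¹ = γ := by group
      rw [e2]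
      exact hγ) (fun u y => by
      rw [← mul_assoc]
      exact hfu u _)
  have e3 : ∑ a, e a * f (h⁻¹ * w a * h * 1) = ∑ a, e a * f (h⁻¹ * (w a * h)) := Finset.sum_congr rfl fun a _ => by
    rw [mul_one, mul_assoc]
  rw [e0, mul_one, e3]
  refine h1.trans (mul_le_mul_right ?_ _)
  unfold wnH
  refine iSup_le fun R => iSup_le fun hR => ?_
  have hinj : Set.InjOn (fun y => h⁻¹ * y) (R : Set H) := fun x _ y _ hxy => mul_left_cancel hxy
  refine le_iSup_of_le (R.image fun y => h⁻¹ * y) (le_iSup_of_le (fun x hx y hy hxy => ?_) ?_)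
  · obtain ⟨x', hx', rfl⟩ := Finset.mem_image.1 hx
    obtain ⟨y', hy', rfl⟩ := Finset.mem_image.1 hy
    obtain ⟨u, hu⟩ := hxy
    rw [cjG_mem] at hu
    have e4 : h * (h⁻¹ * x' * u * (h⁻¹ * y')⁻¹) * h⁻¹ = x' * u * y'⁻¹ := by group
    rw [e4] at hu
    rw [hR x' hx' y' hy' ⟨u, hu⟩]
  · rw [Finset.sum_image fun x _ y _ hxy => mul_left_cancel hxy]
    refine Finset.sum_le_sum fun x _ => ?_
    rw [e0, mul_inv_cancel_left]

/-- The bound for the coefficients `a_i` of the operator. -/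
theorem w7_bound {Γ : Subgroup H} {θ : b.support → (EE L →ₗ[ℝ] ℝ)} (hc : UCx H Γ θ) (ν : Measure (UHR H)) [ν.IsHaarMeasure] {A κ : Type} [Fintype A] [Fintype κ] [DecidableEq κ] {w : A → H} {e : A → ℂ} {Λ : ℝ}
    (hW : WnH H Γ θ ν w e 1 Λ) (hCh : ChU Γ (HUH H) fun u => psT H θ (kUH H u)) {g : κ → H} {p : A → Option (κ × HUH H)} (hD : HDat Γ ⊤ (HUH H) (fun u => psT H θ (kUH H u)) w g p)
    {D₀ : Set (UHR H)} (hD₀ : SF (Γ.subgroupOf (HUH H)) D₀) {D₂ : κ → Set (UHR H)} (hD₂ : ∀ i, SF ((cjG Γ (g i)).subgroupOf (HUH H)) (D₂ i)) :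
    ∑ i, ‖hac e (fun u => psT H θ (kUH H u)) p i‖ₑ ^ 2 / ν (D₂ i) ≤ ENNReal.ofReal (Λ ^ 2) / ν D₀ := by
  classical
  obtain ⟨χ, hχ⟩ : ∃ χ : HUH H → ℂ, χ = fun u => psT H θ (kUH H u) := ⟨_, rfl⟩
  rw [← hχ] at hCh hD ⊢
  have hχu : ∀ u, χ u = psT H θ (kUH H u) := fun u => by rw [hχ]
  have hcc0 : CCH H Γ := by
    have h1 := hc.cc 1
    rwa [cjG_one] at h1
  have pD0 : ν D₀ ≠ 0 := th2_pos H hD₀ ν
  have fD0 : ν D₀ ≠ ⊤ := th2_fin H hcc0 hD₀ ν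
  have pD2 : ∀ i, ν (D₂ i) ≠ 0 := fun i => th2_pos H (hD₂ i) ν
  have fD2 : ∀ i, ν (D₂ i) ≠ ⊤ := fun i => th2_fin H (hc.cc (g i)) (hD₂ i) ν
  have pr0 : 0 < (ν D₀).toReal := ENNReal.toReal_pos pD0 fD0
  have pr2 : ∀ i, 0 < (ν (D₂ i)).toReal := fun i => ENNReal.toReal_pos (pD2 i) (fD2 i)
  -- the test function
  obtain ⟨z, hz⟩ : ∃ z : κ → ℂ, z = fun i => star (hac e χ p i) / ((ν (D₂ i)).toReal : ℂ) := ⟨_, rfl⟩
  obtain ⟨f, hinv, hval, hne⟩ := ua_fun hCh hD (E := HUH H) (le_inf le_rfl le_top) z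
  have hval' : ∀ (i : κ) (δ : HUH H) (h : H), h * (g i * δ)⁻¹ ∈ Γ → f h = χ δ * z i := by
    intro i δ h hh
    rw [← hval i δ δ.2, ← hinv _ hh (g i * δ)]
    congr 1
    group
  have hne' : ∀ h, f h ≠ 0 → ∃ i, ∃ δ : HUH H, h * (g i * δ)⁻¹ ∈ Γ := fun h hh => by
    obtain ⟨i, δ, -, h1⟩ := hne h hh
    exact ⟨i, δ, h1⟩
  have hone : χ 1 = 1 := hCh.one 1 (by rw [OneMemClass.coe_one]; exact Γ.one_mem)
  have hequi : ∀ (u : HUH H) (y : H), f (y * u) = χ u * f y := by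
    intro u y
    by_cases h0 : f y = 0
    · by_contra h1
      have h2 : f (y * u) ≠ 0 := fun h => h1 (by rw [h, h0, mul_zero])
      obtain ⟨i, δ, h3⟩ := hne' _ h2
      have h4 := hval' i δ _ h3
      have h5 : y * (g i * ((δ * u⁻¹ : HUH H) : H))⁻¹ ∈ Γ := by
        have e1 : y * (g i * ((δ * u⁻¹ : HUH H) : H))⁻¹ = y * u * (g i * δ)⁻¹ := by
          push_cast
          group
        rw [e1]
        exact h3
      have h6 := hval' i _ _ h5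
      rw [h0] at h6
      rcases mul_eq_zero.1 h6.symm with h7 | h7
      · have h8 := hCh.nrm (δ * u⁻¹)
        rw [h7, norm_zero] at h8
        exact zero_ne_one h8
      · rw [h4, h7, mul_zero] at h2
        exact h2 rfl
    · obtain ⟨i, δ, h3⟩ := hne' _ h0
      have h5 : y * u * (g i * ((δ * u : HUH H) : H))⁻¹ ∈ Γ := by
        have e1 : y * u * (g i * ((δ * u : HUH H) : H))⁻¹ = y * (g i * δ)⁻¹ := by
          push_cast
          group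
        rw [e1]
        exact h3
      rw [hval' i _ _ h5, hval' i _ _ h3, hCh.mul]
      ring
  -- the value of the operator
  have hT : ∑ a, e a * f (w a * 1) = ∑ i, hac e χ p i * z i := by
    simp only [mul_one]
    rw [ua_sum (H' := ⊤) le_top (fun a => Subgroup.mem_top _) hD e (Φ := f) (fun γ hγ h _ => hinv γ hγ h) (fun h _ δ _ => hequi δ h)]
    refine Finset.sum_congr rfl fun i _ => ?_
    rw [hval' i 1 (g i) (by rw [OneMemClass.coe_one, mul_one, mul_inv_cancel]; exact Γ.one_mem), hone, one_mul]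
  have hS : ∑ i, hac e χ p i * z i = ((∑ i, ‖hac e χ p i‖ ^ 2 / (ν (D₂ i)).toReal : ℝ) : ℂ) := by
    rw [Complex.ofReal_sum]
    refine Finset.sum_congr rfl fun i _ => ?_
    rw [hz]
    show hac e χ p i * (star (hac e χ p i) / _) = _
    rw [← mul_div_assoc, Complex.ofReal_div]
    congr 1
    rw [Complex.ofReal_pow]
    exact Complex.mul_conj' _
  -- the norm of the test function
  have i1 : MeasurableConstSMul (HUH H) (UHR H) := ⟨fun g => (th2_hp H ν g).measurable⟩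
  have hcv : ∀ (i : κ) (δ : HUH H) (x : H), x * (g i * δ)⁻¹ ∈ Γ → cvH H Γ ν x = ν (D₂ i) := by
    intro i δ x hx
    have h1 : SF ((cjG Γ x).subgroupOf (HUH H)) {t : UHR H | δ • t ∈ D₂ i} := by
      refine tr_sf (H := HUH H) (Γ := (cjG Γ (g i)).subgroupOf (HUH H)) (h₀ := δ) (fun u => ?_) (hD₂ i)
      rw [Subgroup.mem_subgroupOf, Subgroup.mem_subgroupOf, cjG_mem, cjG_mem]
      have e1 : x * (u : H) * x⁻¹ = (x * (g i * δ)⁻¹) * (g i * ((δ * u * δ⁻¹ : HUH H) : H) * (g i)⁻¹) * (x * (g i * δ)⁻¹)⁻¹ := by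
        push_cast
        group
      have e2 : g i * ((δ * u * δ⁻¹ : HUH H) : H) * (g i)⁻¹ = (x * (g i * δ)⁻¹)⁻¹ * (x * (u : H) * x⁻¹) * (x * (g i * δ)⁻¹) := by
        push_cast
        group
      constructor
      · intro h
        rw [e2]
        exact Γ.mul_mem (Γ.mul_mem (Γ.inv_mem hx) h) hx
      · intro h
        rw [e1]
        exact Γ.mul_mem (Γ.mul_mem hx h) (Γ.inv_mem hx)
    rw [w7_cv H ν h1]
    exact (th2_hp H ν δ).measure_preimage (hD₂ i).meas.nullMeasurableSet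
  have hwn : wnH H Γ ν f ≤ ∑ i, ‖z i‖ₑ ^ 2 * ν (D₂ i) := by
    unfold wnH
    refine iSup_le fun R => iSup_le fun hR => ?_
    have h2 : ∀ x ∈ R, ‖f x‖ₑ ^ 2 * cvH H Γ ν x ≤ ∑ i, if (∃ δ : HUH H, x * (g i * δ)⁻¹ ∈ Γ) then ‖z i‖ₑ ^ 2 * ν (D₂ i) else 0 := by
      intro x _
      by_cases hx : f x = 0
      · rw [hx, enorm_zero]
        simp
      · obtain ⟨i, δ, hx'⟩ := hne' x hx
        have h3 : ‖f x‖ₑ ^ 2 * cvH H Γ ν x = ‖z i‖ₑ ^ 2 * ν (D₂ i) := by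
          have h4 : ‖χ δ‖ₑ = 1 := by
            rw [← ofReal_norm, hCh.nrm, ENNReal.ofReal_one]
          rw [hcv i δ x hx', hval' i δ x hx', enorm_mul, h4, one_mul]
        have h4 : ‖z i‖ₑ ^ 2 * ν (D₂ i) = if (∃ δ : HUH H, x * (g i * δ)⁻¹ ∈ Γ) then ‖z i‖ₑ ^ 2 * ν (D₂ i) else 0 := by
          rw [if_pos ⟨δ, hx'⟩]
        rw [h3, h4]
        exact Finset.single_le_sum (f := fun i => if (∃ δ : HUH H, x * (g i * δ)⁻¹ ∈ Γ) then ‖z i‖ₑ ^ 2 * ν (D₂ i) else 0)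
          (fun j _ => zero_le) (Finset.mem_univ i)
    refine (Finset.sum_le_sum h2).trans ?_
    rw [Finset.sum_comm]
    refine Finset.sum_le_sum fun i _ => ?_
    rw [← Finset.sum_filter, Finset.sum_const]
    have hcard : (R.filter fun x => ∃ δ : HUH H, x * (g i * δ)⁻¹ ∈ Γ).card ≤ 1 := by
      rw [Finset.card_le_one]
      intro x hx y hy
      obtain ⟨hx1, δ, hx2⟩ := Finset.mem_filter.1 hx
      obtain ⟨hy1, δ', hy2⟩ := Finset.mem_filter.1 hy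
      refine hR x hx1 y hy1 ⟨δ⁻¹ * δ', ?_⟩
      have e1 : x * ((δ⁻¹ * δ' : HUH H) : H) * y⁻¹ = (x * (g i * δ)⁻¹) * (y * (g i * δ')⁻¹)⁻¹ := by
        push_cast
        group
      rw [e1]
      exact Γ.mul_mem hx2 (Γ.inv_mem hy2)
    calc _ ≤ 1 • (‖z i‖ₑ ^ 2 * ν (D₂ i)) := nsmul_le_nsmul_left zero_le hcard
      _ = _ := one_nsmul _
  have hz2 : ∑ i, ‖z i‖ₑ ^ 2 * ν (D₂ i) = ENNReal.ofReal (∑ i, ‖hac e χ p i‖ ^ 2 / (ν (D₂ i)).toReal) := by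
    rw [ENNReal.ofReal_sum_of_nonneg fun i _ => div_nonneg (sq_nonneg _) (pr2 i).le]
    refine Finset.sum_congr rfl fun i _ => ?_
    have e1 : ν (D₂ i) = ENNReal.ofReal (ν (D₂ i)).toReal := (ENNReal.ofReal_toReal (fD2 i)).symm
    rw [← ofReal_norm, ← ENNReal.ofReal_pow (norm_nonneg _)]
    conv_lhs => rw [e1]
    rw [← ENNReal.ofReal_mul (sq_nonneg _)]
    congr 1
    rw [hz]
    show ‖star (hac e χ p i) / ((ν (D₂ i)).toReal : ℂ)‖ ^ 2 * _ = _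
    rw [norm_div, norm_star, Complex.norm_real, Real.norm_of_nonneg (pr2 i).le]
    have := (pr2 i).ne'
    field_simp
  have key := hW f hinv (fun u y => by rw [← hχu]; exact hequi u y)
  rw [hT, hS] at key
  have e5 : cvH H Γ ν 1 = ν D₀ := w7_cv H ν (by rw [cjG_one]; exact hD₀)
  rw [e5] at key
  have key2 := key.trans ((mul_le_mul_right hwn _).trans_eq (by rw [hz2]))
  obtain ⟨S, hSd⟩ : ∃ S : ℝ, S = ∑ i, ‖hac e χ p i‖ ^ 2 / (ν (D₂ i)).toReal := ⟨_, rfl⟩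
  rw [← hSd] at key2
  have hS0 : 0 ≤ S := by
    rw [hSd]
    exact Finset.sum_nonneg fun i _ => div_nonneg (sq_nonneg _) (pr2 i).le
  have key3 : (ν D₀).toReal * S ^ 2 ≤ Λ ^ 2 * S := by
    have e1 : ν D₀ * ‖((S : ℝ) : ℂ)‖ₑ ^ 2 = ENNReal.ofReal ((ν D₀).toReal * S ^ 2) := by
      rw [← ofReal_norm, Complex.norm_real, Real.norm_of_nonneg hS0, ENNReal.ofReal_mul pr0.le, ENNReal.ofReal_toReal fD0, ENNReal.ofReal_pow hS0]
    rw [e1, ← ENNReal.ofReal_mul (sq_nonneg _)] at key2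
    exact (ENNReal.ofReal_le_ofReal_iff (mul_nonneg (sq_nonneg _) hS0)).1 key2
  have key4 : S ≤ Λ ^ 2 / (ν D₀).toReal := by
    rw [le_div_iff₀ pr0]
    rcases hS0.eq_or_lt with h1 | h1
    · rw [← h1, zero_mul]
      exact sq_nonneg _
    · have h2 : S * (S * (ν D₀).toReal) ≤ S * Λ ^ 2 := by nlinarith [key3]
      exact le_of_mul_le_mul_left h2 h1
  have e1 : ∀ i, ‖hac e χ p i‖ₑ ^ 2 / ν (D₂ i) = ENNReal.ofReal (‖hac e χ p i‖ ^ 2 / (ν (D₂ i)).toReal) := fun i => by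
    rw [ENNReal.ofReal_div_of_pos (pr2 i), ENNReal.ofReal_toReal (fD2 i), ENNReal.ofReal_pow (norm_nonneg _), ofReal_norm]
  have e2 : ENNReal.ofReal (Λ ^ 2) / ν D₀ = ENNReal.ofReal (Λ ^ 2 / (ν D₀).toReal) := by
    rw [ENNReal.ofReal_div_of_pos pr0, ENNReal.ofReal_toReal fD0]
  rw [e2, Finset.sum_congr rfl fun i _ => e1 i, ← ENNReal.ofReal_sum_of_nonneg fun i _ => div_nonneg (sq_nonneg _) (pr2 i).le, ← hSd]
  exact ENNReal.ofReal_le_ofReal key4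

end

end Pool.Agent.Lib.L8
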