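import Pool.Agent.Lib.L8.StmM
import Pool.Agent.Lib.L8.MG
import Pool.Agent.Lib.L8.W7
import Pool.Agent.Lib.L8.W0

/-!
# W: the universal density theorem (helper43): the statement in terms of the definitions of version V1

Notation of `Pool.Agent.Lib.L1S.QStm`: `G = HRt (HQ Q)` is the real group of the quasi-split group of type `(P, Q)` over `K`, `U = UHR (HQ Q)`; `GI Q` is the group of the integral elements of `G(K) = HQ Q`.
-/

namespace Pool.Agent.Lib.L8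

open MeasureTheory Matrix NumberField NumberField.InfinitePlace IsDedekindDomain Pool.Agent.Lib.H89N Pool.Agent.Lib.H33W Pool.Agent.Lib.L1S
open scoped ENNReal

noncomputable section

set_option linter.unusedSectionVars false

variable {ι M N : Type} [Fintype ι] [DecidableEq ι] [AddCommGroup M] [Module ℚ M] [AddCommGroup N] [Module ℚ N]
  {P : RootPairing ι ℚ M N} [P.IsCrystallographic] {b : P.Base}

/-- **The statement**: the density theorem for the globally generic spectrum of the quasi-split group `(P, Q)` over `K`, at ALL finite places through an arbitrary Hecke operator of an arbitrary arithmetic group `Γ`, and at the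
archimedean places through an arbitrary compactly supported complex measure.
For compact sets `Ω`, `S₀` there is `C` such that for every subgroup `Γ` of finite index of `G(𝓞)`, every operator `(T f)(h) = ∑_a e_a f(w_a h)` of the pair `Γ ≤ G(K)` with the norm at most `Λ_f` on `ℓ²(Γ \ G(K))` (or only: on the functions with `f(y u) = ψ(u) f(y)`, at the point `h`: `WnH`), every `h ∈ G(K)`,
nondegenerate character `ψ` of `U` trivial on `h⁻¹ Γ h ∩ U`, torus element `t = diag(a_β)` of `G` and `x ∈ U t Ω`, every complex measure `w τ` with support in a compact set `Kt` and norm at most `Λ` on `L²(G)`, numbers `0 < δ_w ≤ 1`,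
`B i w` as in `StatementG`, `R_i = ∏_w (B i w ^ 2 δ_w ^ k_i) ^ n_w`, `E_ij = ∏_{Φ_i} |a_β| ∏_{Φ_j} |a_β|`, the gap `C R_i < |N(D)| E_ij` for the nonzero minors `D` of the elements of `(w_a h)⁻¹ Γ (w_a' h)`, every continuous `φ` with support
in `S₀`, orthonormal `F_1, …, F_n` in `L²(Γ \ G)` with `F_l * φ = c_l F_l`, `F_l * (w τ) = κ_l F_l` and `T F_l = t_l F_l`:
`vol(h⁻¹ Γ h ∩ U \ U) ∑_l |c_l κ_l t_l W_l(h, x)|² ≤ C Λ² Λ_f² ‖φ‖₂² (∏_{β > 0} δ |a_β|) ^ (1 / [L : K]) vol(G(𝓞) ∩ U \ U)`, `δ = ∏_w δ_w ^ n_w`, `W_l(h, x)` the Whittaker coefficient of `y ↦ F_l(h y)` at `x`. -/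
def StatementW [P.IsRootSystem] [P.IsReduced] [P.IsIrreducible] {K L : Type} [Field K] [NumberField K] [Field L] [NumberField L] [Algebra K L] (Q : QS b K L) : Prop :=
  ∀ (Ω : Set (GL (I b) (EE L))) (S₀ : Set (HRt (HQ Q))), IsCompact Ω → IsCompact S₀ → ∃ C : ℝ,
    ∀ Γ : Subgroup (HQ Q), Γ ≤ GI Q → Γ.relIndex (GI Q) ≠ 0 → ∀ (k : ℕ) (w' : Fin k → HQ Q) (e' : Fin k → ℂ) (Λf : ℝ) (h : HQ Q),
    ∀ θ : b.support → (EE L →ₗ[ℝ] ℝ), (∀ i, ∃ z : L, ∑ t : L ≃ₐ[K] L, θ ((Q.da t).sp i) (mixedEmbedding L (t z)) ≠ 0) → (∀ u ∈ imU (HQ Q) (cjG Γ h), psiH (HQ Q) θ u = 1) →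
    ∀ (t : HRt (HQ Q)) (a : ι → (EE L)ˣ), t.1.1.1 = dgz b a → ∀ x : HRt (HQ Q), (∃ u : UHR (HQ Q), ∃ ω ∈ Ω, x.1.1.1 = u.1.1.1.1 * t.1.1.1 * ω.1) →
    ∀ (μ τ : Measure (HRt (HQ Q))) [μ.IsHaarMeasure] (w : HRt (HQ Q) → ℂ) (Kt : Set (HRt (HQ Q))) (Λ : ℝ), CvD μ τ w Kt Λ →
    ∀ B : b.support → InfinitePlace L → ℝ, (∀ i w, 0 ≤ B i w) → KB (HQ Q) B Kt →
    ∀ φ : HRt (HQ Q) → ℂ, Continuous φ → tsupport φ ⊆ S₀ →
    ∀ δ : InfinitePlace L → ℝ, (∀ w, 0 < δ w ∧ δ w ≤ 1) → (∀ w w', w.comap (algebraMap K L) = w'.comap (algebraMap K L) → δ w = δ w') →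
    (∀ g, g ∈ Kt ∨ g ∈ tsupport φ → ∀ w, δ w = 1 ∨ ∀ i j, mixedEmbedding.normAtPlace w ((g.1.1.1 - 1) i j) ≤ δ w ∧ mixedEmbedding.normAtPlace w ((g⁻¹.1.1.1 - 1) i j) ≤ δ w) →
    GapQ Q Γ w' h C (fun i => ∏ w, (B i w ^ 2 * δ w ^ (Phi b i).card) ^ mult w) (Ea b a) →
    ∀ (ν : Measure (UHR (HQ Q))) [ν.IsHaarMeasure], HeOp Γ Set.univ w' e' Λf ∨ WnH (HQ Q) Γ θ ν w' e' h Λf → ∀ D₀ : Set (UHR (HQ Q)), IsFundamentalDomain (imU (HQ Q) (GI Q)) D₀ ν →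
    ∀ Dh : Set (UHR (HQ Q)), IsFundamentalDomain (imU (HQ Q) (cjG Γ h)) Dh ν → ∀ D : Set (HRt (HQ Q)), IsFundamentalDomain (Γ.map (embH (HQ Q))) D μ →
    ∀ (n : ℕ) (F : Fin n → HRt (HQ Q) → ℂ) (c' κ : Fin n → ℂ), (∀ l, AuE (HQ Q) Γ μ D φ (c' l) (F l)) → (∀ l y, Cv τ w (F l) y = κ l * F l y) → (∀ l k, ∫ x in D, star (F l x) * F k x ∂μ = if l = k then 1 else 0) →
    ∀ t' : Fin n → ℂ, (∀ l y, ∑ a, e' a * F l (embH (HQ Q) (w' a) * y) = t' l * F l y) →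
      (ν Dh).toReal * ∑ l, ‖c' l * κ l * t' l * WhH (HQ Q) ν Dh θ (fun y => F l (embH (HQ Q) h * y)) x‖ ^ 2 ≤
        C * Λ ^ 2 * Λf ^ 2 * (∫ y, ‖φ y‖ ^ 2 ∂μ) *
          (∏ β ∈ Pos b, (∏ w, δ w ^ mult w) * mixedEmbedding.norm (a β : EE L)) ^ ((Module.finrank K L : ℝ)⁻¹) * (ν D₀).toReal

end

end Pool.Agent.Lib.L8
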