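import Pool.Agent.Lib.L1S.TH3

/-!
# U, file U00: definitions, abstract part (helper43), see PROOF_U.md
-/

namespace Pool.Agent.Lib.L8

open MeasureTheory Matrix NumberField NumberField.InfinitePlace IsDedekindDomain Pool.Agent.Lib.H89N Pool.Agent.Lib.H33W Pool.Agent.Lib.H67G Pool.Agent.Lib.L1S
open scoped ENNReal Pointwise

noncomputable section

set_option linter.unusedSectionVars false

/-! ## Hecke operators of a pair `Γ ≤ H'` -/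

section hecke

variable {H : Type} [Group H]

/-- The operator `(T f)(h) = ∑_a e_a f (w_a h)` preserves the functions on `Γ \ H'` and its norm on `ℓ²(Γ \ H')` is at most `Λ`: `w_a ∈ H'`; if `f` is left invariant under `Γ`, so is `T f` (on `H'`); and if `∑_{x ∈ R} |f x|² ≤ B` for all
finite sets `R` of representatives of different classes of `Γ \ H'`, then `∑_{x ∈ R'} |(T f) x|² ≤ Λ² B` for all finite sets `R'` of representatives of different classes. -/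
structure HeOp (Γ : Subgroup H) (H' : Set H) {A : Type} [Fintype A] (w : A → H) (e : A → ℂ) (Λ : ℝ) : Prop where
  mem : ∀ a, w a ∈ H'
  inv : ∀ f : H → ℂ, (∀ γ ∈ Γ, ∀ h, f (γ * h) = f h) → ∀ γ ∈ Γ, ∀ h ∈ H', ∑ a, e a * f (w a * (γ * h)) = ∑ a, e a * f (w a * h)
  nrm : ∀ f : H → ℂ, (∀ γ ∈ Γ, ∀ h, f (γ * h) = f h) → ∀ B : ℝ, (∀ R : Finset H, (∀ x ∈ R, x ∈ H') → (∀ x ∈ R, ∀ y ∈ R, x * y⁻¹ ∈ Γ → x = y) → ∑ x ∈ R, ‖f x‖ ^ 2 ≤ B) →
    ∀ R : Finset H, (∀ x ∈ R, x ∈ H') → (∀ x ∈ R, ∀ y ∈ R, x * y⁻¹ ∈ Γ → x = y) → ∑ x ∈ R, ‖∑ a, e a * f (w a * x)‖ ^ 2 ≤ Λ ^ 2 * B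

/-- `χ` is a unitary character of `HU`, trivial on `Γ ∩ HU`. -/
structure ChU (Γ HU : Subgroup H) (χ : HU → ℂ) : Prop where
  mul : ∀ u v, χ (u * v) = χ u * χ v
  nrm : ∀ u, ‖χ u‖ = 1
  one : ∀ u : HU, (u : H) ∈ Γ → χ u = 1

/-- The double cosets `Γ w_a Δ`, `Δ = HU ∩ H'`, for which `χ = 1` on `w_a⁻¹ Γ w_a ∩ HU`: representatives `g_i`, different for different `i`; `p a = some (i, δ)` if `w_a ∈ Γ g_i δ`, and `p a = none` if `χ ≠ 1` on `w_a⁻¹ Γ w_a ∩ HU`. -/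
structure HDat (Γ H' HU : Subgroup H) (χ : HU → ℂ) {A κ : Type} (w : A → H) (g : κ → H) (p : A → Option (κ × HU)) : Prop where
  gw : ∀ i, ∃ a, g i = w a
  good : ∀ i, ∀ u : HU, (u : H) ∈ cjG Γ (g i) → χ u = 1
  ine : ∀ i j, ∀ δ : HU, (δ : H) ∈ H' → g i * δ * (g j)⁻¹ ∈ Γ → i = j
  some : ∀ a i δ, p a = some (i, δ) → (δ : H) ∈ H' ∧ w a * (g i * δ)⁻¹ ∈ Γ
  none : ∀ a, p a = none → ∃ u : HU, (u : H) ∈ cjG Γ (w a) ∧ χ u ≠ 1

/-- The coefficients `a_i = ∑_a e_a χ(δ_a)`, the sum over the `a` with `w_a ∈ Γ g_i δ_a`. -/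
def hac {HU : Subgroup H} {A κ : Type} [Fintype A] [DecidableEq κ] (e : A → ℂ) (χ : HU → ℂ) (p : A → Option (κ × HU)) (i : κ) : ℂ :=
  ∑ a, e a * (p a).elim 0 fun q => if q.1 = i then χ q.2 else 0

end hecke


end

end Pool.Agent.Lib.L8
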