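import Pool.Agent.Lib.L8.U00

/-!
# U, chunk UA3: the test function
-/

namespace Pool.Agent.Lib.L8

open MeasureTheory Matrix NumberField NumberField.InfinitePlace IsDedekindDomain Pool.Agent.Lib.H89N Pool.Agent.Lib.H33W Pool.Agent.Lib.H67G Pool.Agent.Lib.L1S
open scoped ENNReal Pointwise

noncomputable section

set_option linter.unusedSectionVars false

variable {H : Type} [Group H] {Γ H' HU : Subgroup H} {χ : HU → ℂ}

/-- **UA3.** The function `f (γ g_i δ) = χ(δ) z_i`, `γ ∈ Γ`, `δ ∈ E`, and `f = 0` elsewhere.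
Proof. Define `f h := if h : ∃ q : κ × HU, (q.2 : H) ∈ E ∧ h * (g q.1 * q.2)⁻¹ ∈ Γ then χ (choose).2 * z (choose).1 else 0`. Well defined: if `h = γ g_i δ = γ' g_j δ'` with `δ, δ' ∈ E ≤ H'`, then `g_i (δ δ'⁻¹) g_j⁻¹ = γ⁻¹ γ' ∈ Γ`, so `i = j` (`ine`), and
`χ(δ δ'⁻¹) = 1` (`good`), so `χ(δ) = χ(δ')` (`χ(δ) = χ(δ δ'⁻¹ δ')`). Invariance under `Γ`: the condition for `γ h` is the condition for `h` (and the value does not depend on the choice). -/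
theorem ua_fun (hχ : ChU Γ HU χ) {A κ : Type} {w : A → H} {g : κ → H} {p : A → Option (κ × HU)} (hD : HDat Γ H' HU χ w g p) {E : Subgroup H} (hE : E ≤ HU ⊓ H') (z : κ → ℂ) :
    ∃ f : H → ℂ, (∀ γ ∈ Γ, ∀ h, f (γ * h) = f h) ∧ (∀ i, ∀ δ : HU, (δ : H) ∈ E → f (g i * δ) = χ δ * z i) ∧ ∀ h, f h ≠ 0 → ∃ i, ∃ δ : HU, (δ : H) ∈ E ∧ h * (g i * δ)⁻¹ ∈ Γ := by
  classical
  have hC : ∀ (h h' : H) (i j : κ) (δ δ' : HU), (δ : H) ∈ E → (δ' : H) ∈ E → h * (g i * δ)⁻¹ ∈ Γ → h' * (g j * δ')⁻¹ ∈ Γ →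
      h' * h⁻¹ ∈ Γ → i = j ∧ χ δ = χ δ' := by
    intro h h' i j δ δ' hδ hδ' h1 h2 h3
    have h4 : g i * ((δ * δ'⁻¹ : HU) : H) * (g j)⁻¹ ∈ Γ := by
      have h5 := Γ.mul_mem (Γ.mul_mem (Γ.inv_mem h1) (Γ.inv_mem h3)) h2
      have h6 : (h * (g i * δ)⁻¹)⁻¹ * (h' * h⁻¹)⁻¹ * (h' * (g j * δ')⁻¹) = g i * ((δ * δ'⁻¹ : HU) : H) * (g j)⁻¹ := by
        rw [Subgroup.coe_mul, Subgroup.coe_inv]
        group
      rwa [h6] at h5
    have h7 : ((δ * δ'⁻¹ : HU) : H) ∈ H' := by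
      rw [Subgroup.coe_mul, Subgroup.coe_inv]
      exact H'.mul_mem (hE hδ).2 (H'.inv_mem (hE hδ').2)
    have h8 := hD.ine i j (δ * δ'⁻¹) h7 h4
    refine ⟨h8, ?_⟩
    subst h8
    have h9 := hD.good i (δ * δ'⁻¹) ((cjG_mem Γ (g i) _).2 h4)
    have h10 : χ δ = χ (δ * δ'⁻¹) * χ δ' := by
      rw [← hχ.mul, inv_mul_cancel_right]
    rw [h10, h9, one_mul]
  let P : H → Prop := fun h => ∃ q : κ × HU, (q.2 : H) ∈ E ∧ h * (g q.1 * q.2)⁻¹ ∈ Γ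
  let f : H → ℂ := fun h => if hP : P h then χ hP.choose.2 * z hP.choose.1 else 0
  have hf1 : ∀ (h : H) (i : κ) (δ : HU), (δ : H) ∈ E → h * (g i * δ)⁻¹ ∈ Γ → f h = χ δ * z i := by
    intro h i δ hδ h1
    have hP : P h := ⟨(i, δ), hδ, h1⟩
    have h2 := hP.choose_spec
    have h3 := hC h h i hP.choose.1 δ hP.choose.2 hδ h2.1 h1 h2.2 (by rw [mul_inv_cancel]; exact Γ.one_mem)
    have h4 : f h = χ hP.choose.2 * z hP.choose.1 := dif_pos hP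
    rw [h4, ← h3.1, ← h3.2]
  have hf0 : ∀ h : H, ¬ P h → f h = 0 := fun h hP => dif_neg hP
  refine ⟨f, ?_, ?_, ?_⟩
  · intro γ hγ h
    by_cases hP : P h
    · obtain ⟨q, hq1, hq2⟩ := hP
      have h1 : γ * h * (g q.1 * q.2)⁻¹ ∈ Γ := by
        rw [mul_assoc]
        exact Γ.mul_mem hγ hq2
      rw [hf1 h q.1 q.2 hq1 hq2, hf1 (γ * h) q.1 q.2 hq1 h1]
    · have hP' : ¬ P (γ * h) := by
        rintro ⟨q, hq1, hq2⟩
        apply hP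
        refine ⟨q, hq1, ?_⟩
        have h1 := Γ.mul_mem (Γ.inv_mem hγ) hq2
        have h2 : γ⁻¹ * (γ * h * (g q.1 * q.2)⁻¹) = h * (g q.1 * q.2)⁻¹ := by group
        rwa [h2] at h1
      rw [hf0 h hP, hf0 _ hP']
  · intro i δ hδ
    exact hf1 _ i δ hδ (by rw [mul_inv_cancel]; exact Γ.one_mem)
  · intro h hh
    by_contra hno
    apply hh
    refine hf0 h ?_
    rintro ⟨q, hq1, hq2⟩
    exact hno ⟨q.1, q.2, hq1, hq2⟩


end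

end Pool.Agent.Lib.L8
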