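import Pool.Agent.Lib.L8.U00

/-!
# U, chunk UA4: counting cosets
-/

namespace Pool.Agent.Lib.L8

open MeasureTheory Matrix NumberField NumberField.InfinitePlace IsDedekindDomain Pool.Agent.Lib.H89N Pool.Agent.Lib.H33W Pool.Agent.Lib.H67G Pool.Agent.Lib.L1S
open scoped ENNReal Pointwise

noncomputable section

set_option linter.unusedSectionVars false

variable {H : Type} [Group H] {Γ H' HU : Subgroup H} {χ : HU → ℂ}

/-- **UA4, upper bound.** The classes of `Γ \ Γ g E` are in bijection with `(g⁻¹ Γ g ∩ E) \ E`.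
Proof. For `x` in the filtered set choose `δ_x ∈ E` with `x (g δ_x)⁻¹ ∈ Γ`. The map `x ↦ δ_x⁻¹ (cjG Γ g ⊓ E)`, a left coset of `(cjG Γ g).subgroupOf E` in `E`, is injective: if `δ_x δ_y⁻¹ ∈ cjG Γ g` then `g δ_x δ_y⁻¹ g⁻¹ ∈ Γ`, so `x y⁻¹ ∈ Γ`, `x = y`.
`Subgroup.relIndex` is the index of `(cjG Γ g).subgroupOf E`, i.e. the cardinality (`Nat.card`) of the quotient, finite because it is not `0`. -/
theorem ua_count (g : H) {E : Subgroup H} (h0 : (cjG Γ g).relIndex E ≠ 0) {R : Finset H} (hR : ∀ x ∈ R, ∀ y ∈ R, x * y⁻¹ ∈ Γ → x = y) {S : Finset H} (hS : S ⊆ R) (hS' : ∀ x ∈ S, ∃ δ ∈ E, x * (g * δ)⁻¹ ∈ Γ) :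
    S.card ≤ (cjG Γ g).relIndex E := by
  classical
  have hfin : Finite (E ⧸ (cjG Γ g).subgroupOf E) := by
    apply Nat.finite_of_card_ne_zero
    exact h0
  choose! δ hδ hδ' using hS'
  have hinj : Function.Injective (fun x : S => (QuotientGroup.mk (⟨(δ x.1)⁻¹, E.inv_mem (hδ x.1 x.2)⟩ : E) :
      E ⧸ (cjG Γ g).subgroupOf E)) := by
    rintro ⟨x, hx⟩ ⟨y, hy⟩ hxy
    have h1 := QuotientGroup.eq.1 hxy
    rw [Subgroup.mem_subgroupOf, cjG_mem] at h1
    have h2 : g * (((δ x)⁻¹)⁻¹ * (δ y)⁻¹) * g⁻¹ ∈ Γ := h1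
    rw [inv_inv] at h2
    have h3 := Γ.mul_mem (Γ.mul_mem (hδ' x hx) h2) (Γ.inv_mem (hδ' y hy))
    have e : x * (g * δ x)⁻¹ * (g * (δ x * (δ y)⁻¹) * g⁻¹) * (y * (g * δ y)⁻¹)⁻¹ = x * y⁻¹ := by group
    rw [e] at h3
    exact Subtype.ext (hR x (hS hx) y (hS hy) h3)
  have h1 := Nat.card_le_card_of_injective _ hinj
  rw [Nat.card_eq_fintype_card, Fintype.card_coe] at h1
  exact h1

/-- **UA4, representatives.** A set of representatives of `(Γ ∩ E) \ E`.
Proof. For every left coset of `Γ.subgroupOf E` in `E` take the inverse of a representative (`Quotient.out`); the number of cosets is `Γ.relIndex E`, finite. -/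
theorem ua_reps {E : Subgroup H} (h0 : Γ.relIndex E ≠ 0) : ∃ R : Finset H, (∀ x ∈ R, x ∈ E) ∧ (∀ x ∈ R, ∀ y ∈ R, x * y⁻¹ ∈ Γ → x = y) ∧ R.card = Γ.relIndex E := by
  classical
  have hfin : Finite (E ⧸ Γ.subgroupOf E) := by
    apply Nat.finite_of_card_ne_zero
    exact h0
  letI := Fintype.ofFinite (E ⧸ Γ.subgroupOf E)
  obtain ⟨f, hf⟩ : ∃ f : E ⧸ Γ.subgroupOf E → H, f = fun q => (((Quotient.out q : E)⁻¹ : E) : H) := ⟨_, rfl⟩
  have hkey : ∀ q q', f q * (f q')⁻¹ ∈ Γ → q = q' := by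
    intro q q' h
    rw [hf] at h
    have h1 : ((Quotient.out q : E)⁻¹ * (Quotient.out q' : E)) ∈ Γ.subgroupOf E := by
      rw [Subgroup.mem_subgroupOf]
      have e : (((Quotient.out q : E)⁻¹ * (Quotient.out q' : E) : E) : H) =
          (((Quotient.out q : E)⁻¹ : E) : H) * ((((Quotient.out q' : E)⁻¹ : E) : H))⁻¹ := by
        push_cast
        rw [inv_inv]
      rw [e]
      exact h
    have h2 := QuotientGroup.eq.2 h1
    rw [QuotientGroup.out_eq', QuotientGroup.out_eq'] at h2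
    exact h2
  have hinj : Function.Injective f := by
    intro q q' h
    apply hkey
    rw [h, mul_inv_cancel]
    exact Γ.one_mem
  refine ⟨Finset.univ.image f, ?_, ?_, ?_⟩
  · intro x hx
    obtain ⟨q, _, rfl⟩ := Finset.mem_image.1 hx
    rw [hf]
    exact Subtype.mem _
  · intro x hx y hy h
    obtain ⟨q, _, rfl⟩ := Finset.mem_image.1 hx
    obtain ⟨q', _, rfl⟩ := Finset.mem_image.1 hy
    rw [hkey q q' h]
  · rw [Finset.card_image_of_injective _ hinj, Finset.card_univ, ← Nat.card_eq_fintype_card]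
    rfl


end

end Pool.Agent.Lib.L8
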