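import Pool.Agent.Lib.L8.UA3
import Pool.Agent.Lib.L8.UA4

/-!
# U, chunk UA5: the norm inequality
-/

namespace Pool.Agent.Lib.L8

open MeasureTheory Matrix NumberField NumberField.InfinitePlace IsDedekindDomain Pool.Agent.Lib.H89N Pool.Agent.Lib.H33W Pool.Agent.Lib.H67G Pool.Agent.Lib.L1S
open scoped ENNReal Pointwise

noncomputable section

set_option linter.unusedSectionVars false

variable {H : Type} [Group H] {Γ H' HU : Subgroup H} {χ : HU → ℂ}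

/-- **UA5.** `[E : Γ ∩ E] |∑_i a_i z_i|² ≤ Λ² ∑_i [E : g_i⁻¹ Γ g_i ∩ E] |z_i|²`.
Proof. Let `f` be the function of `ua_fun`. (1) For every finite `R ⊆ H'` of different classes `∑_{x ∈ R} |f x|² ≤ B := ∑_i [E : g_i⁻¹ Γ g_i ∩ E] |z_i|²`: if `f x ≠ 0`, then `x = γ g_i δ`, `|f x| = |z_i|` (`f` is `Γ`-invariant, `|χ| = 1`); so
`∑_{x ∈ R} |f x|² ≤ ∑_i ∑_{x ∈ R, x ∈ Γ g_i E} |z_i|²` and the number of these `x` is at most `(cjG Γ (g i)).relIndex E` (`ua_count`). (2) Let `R` be the set of `ua_reps` (`⊆ E ≤ H'`). For `x = δ ∈ E`: `∑_a e_a f(w_a δ) = χ(δ) ∑_i a_i z_i`: if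
`p a = some (i, δ_a)`, then `w_a δ = γ g_i δ_a δ` with `δ_a δ ∈ E` (`hp`), so `f(w_a δ) = χ(δ_a δ) z_i = χ(δ_a) χ(δ) z_i`; if `p a = none` then `f(w_a δ) = 0`: otherwise `w_a δ = γ g_i δ''`, `δ'' ∈ E`, `w_a = γ g_i δ₁` with `δ₁ = δ'' δ⁻¹`; for the `u` of
`none`: `w_a u w_a⁻¹ ∈ Γ`, so `g_i (δ₁ u δ₁⁻¹) g_i⁻¹ ∈ Γ`, `χ(δ₁ u δ₁⁻¹) = 1` (`good`), but `χ(δ₁ u δ₁⁻¹) = χ(u) ≠ 1`. Then use the definition of `hac` and exchange the sums. (3) `hT.nrm f _ B _ R` gives the inequality, `|χ(δ)| = 1`. -/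
theorem ua_ineq (hχ : ChU Γ HU χ) {A κ : Type} [Fintype A] [Fintype κ] [DecidableEq κ] {w : A → H} {e : A → ℂ} {Λ : ℝ} (hT : HeOp Γ (H' : Set H) w e Λ) {g : κ → H} {p : A → Option (κ × HU)} (hD : HDat Γ H' HU χ w g p) {E : Subgroup H}
    (hE : E ≤ HU ⊓ H') (hp : ∀ a i δ, p a = some (i, δ) → (δ : H) ∈ E) (h0 : Γ.relIndex E ≠ 0) (hi : ∀ i, (cjG Γ (g i)).relIndex E ≠ 0) (z : κ → ℂ) :
    (Γ.relIndex E : ℝ) * ‖∑ i, hac e χ p i * z i‖ ^ 2 ≤ Λ ^ 2 * ∑ i, ((cjG Γ (g i)).relIndex E : ℝ) * ‖z i‖ ^ 2 := by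
  classical
  obtain ⟨f, hinv, hval, hne⟩ := ua_fun hχ hD hE z
  have hval' : ∀ (i : κ) (δ : HU) (h : H), (δ : H) ∈ E → h * (g i * δ)⁻¹ ∈ Γ → f h = χ δ * z i := by
    intro i δ h hδ hh
    rw [← hval i δ hδ, ← hinv _ hh (g i * δ)]
    congr 1
    group
  have hone : χ 1 = 1 := hχ.one 1 (by rw [OneMemClass.coe_one]; exact Γ.one_mem)
  -- (1)
  have h1 : ∀ R : Finset H, (∀ x ∈ R, x ∈ (H' : Set H)) → (∀ x ∈ R, ∀ y ∈ R, x * y⁻¹ ∈ Γ → x = y) →
      ∑ x ∈ R, ‖f x‖ ^ 2 ≤ ∑ i, ((cjG Γ (g i)).relIndex E : ℝ) * ‖z i‖ ^ 2 := by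
    intro R _ hR
    have h2 : ∀ x ∈ R, ‖f x‖ ^ 2 ≤
        ∑ i, if (∃ δ ∈ E, x * (g i * δ)⁻¹ ∈ Γ) then ‖z i‖ ^ 2 else 0 := by
      intro x _
      by_cases hx : f x = 0
      · rw [hx, norm_zero]
        have : (0 : ℝ) ≤ ∑ i, if (∃ δ ∈ E, x * (g i * δ)⁻¹ ∈ Γ) then ‖z i‖ ^ 2 else 0 :=
          Finset.sum_nonneg fun i _ => by split_ifs <;> positivity
        simpa using this
      · obtain ⟨i, δ, hδ, hx'⟩ := hne x hx
        have h3 : ‖f x‖ ^ 2 = ‖z i‖ ^ 2 := by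
          rw [hval' i δ x hδ hx', norm_mul, hχ.nrm, one_mul]
        have h4 : ‖z i‖ ^ 2 = if (∃ δ ∈ E, x * (g i * δ)⁻¹ ∈ Γ) then ‖z i‖ ^ 2 else 0 := by
          rw [if_pos ⟨(δ : H), hδ, hx'⟩]
        rw [h3, h4]
        exact Finset.single_le_sum (f := fun i => if (∃ δ ∈ E, x * (g i * δ)⁻¹ ∈ Γ) then ‖z i‖ ^ 2 else 0)
          (fun j _ => by split_ifs <;> positivity) (Finset.mem_univ i)
    refine (Finset.sum_le_sum h2).trans ?_
    rw [Finset.sum_comm]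
    refine Finset.sum_le_sum fun i _ => ?_
    rw [← Finset.sum_filter, Finset.sum_const, nsmul_eq_mul]
    refine mul_le_mul_of_nonneg_right ?_ (sq_nonneg _)
    exact_mod_cast ua_count (g i) (hi i) hR (Finset.filter_subset _ _) fun x hx =>
      (Finset.mem_filter.1 hx).2
  -- (2)
  obtain ⟨R, hRE, hRd, hRc⟩ := ua_reps (Γ := Γ) h0
  have h2 : ∀ x ∈ R, ‖∑ a, e a * f (w a * x)‖ ^ 2 = ‖∑ i, hac e χ p i * z i‖ ^ 2 := by
    intro x hx
    have hxE := hRE x hx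
    obtain ⟨u, hu⟩ : ∃ u : HU, (u : H) = x := ⟨⟨x, (hE hxE).1⟩, rfl⟩
    have h3 : ∑ a, e a * f (w a * x) = χ u * ∑ i, hac e χ p i * z i := by
      have h4 : ∑ i, hac e χ p i * z i =
          ∑ a, e a * ∑ i, ((p a).elim 0 fun q => if q.1 = i then χ q.2 else 0) * z i := by
        unfold hac
        simp only [Finset.sum_mul, Finset.mul_sum]
        rw [Finset.sum_comm]
        refine Finset.sum_congr rfl fun a _ => Finset.sum_congr rfl fun i _ => ?_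
        ring
      rw [h4, Finset.mul_sum]
      refine Finset.sum_congr rfl fun a _ => ?_
      rw [mul_left_comm]
      congr 1
      cases hpa : p a with
      | none =>
        have h5 : ∑ i : κ, ((Option.none : Option (κ × HU)).elim (0 : ℂ) fun q => if q.1 = i then χ q.2 else 0) * z i = 0 :=
          Finset.sum_eq_zero fun i _ => by rw [Option.elim_none, zero_mul]
        rw [h5, mul_zero]
        by_contra hf
        obtain ⟨i, δ, hδ, hx'⟩ := hne _ hf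
        obtain ⟨v, hv, hv'⟩ := hD.none a hpa
        obtain ⟨δ₁, hδ₁⟩ : ∃ δ₁ : HU, δ₁ = δ * u⁻¹ := ⟨_, rfl⟩
        have h6 : w a * (g i * δ₁)⁻¹ ∈ Γ := by
          have h7 : w a * (g i * δ₁)⁻¹ = w a * x * (g i * δ)⁻¹ := by
            rw [hδ₁, Subgroup.coe_mul, Subgroup.coe_inv, hu]
            group
          rw [h7]
          exact hx'
        have h8 : ((δ₁ * v * δ₁⁻¹ : HU) : H) ∈ cjG Γ (g i) := by
          have h9 : w a * v * (w a)⁻¹ ∈ Γ := hv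
          show g i * ((δ₁ * v * δ₁⁻¹ : HU) : H) * (g i)⁻¹ ∈ Γ
          have h10 : g i * ((δ₁ * v * δ₁⁻¹ : HU) : H) * (g i)⁻¹ =
              (w a * (g i * δ₁)⁻¹)⁻¹ * (w a * v * (w a)⁻¹) * (w a * (g i * δ₁)⁻¹) := by
            rw [Subgroup.coe_mul, Subgroup.coe_mul, Subgroup.coe_inv]
            group
          rw [h10]
          exact Γ.mul_mem (Γ.mul_mem (Γ.inv_mem h6) h9) h6
        have h11 := hD.good i _ h8
        rw [hχ.mul, hχ.mul] at h11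
        have h12 : χ δ₁ * χ δ₁⁻¹ = 1 := by rw [← hχ.mul, mul_inv_cancel, hone]
        apply hv'
        calc χ v = χ v * (χ δ₁ * χ δ₁⁻¹) := by rw [h12, mul_one]
          _ = χ δ₁ * χ v * χ δ₁⁻¹ := by ring
          _ = 1 := h11
      | some q =>
        obtain ⟨i₀, δ₀⟩ := q
        have h5 : ∑ i : κ, ((Option.some (i₀, δ₀) : Option (κ × HU)).elim (0 : ℂ) fun q => if q.1 = i then χ q.2 else 0) * z i =
            χ δ₀ * z i₀ := by
          simp only [Option.elim_some]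
          rw [Finset.sum_eq_single i₀]
          · rw [if_pos rfl]
          · intro j _ hj
            rw [if_neg hj.symm, zero_mul]
          · intro hj
            exact absurd (Finset.mem_univ _) hj
        rw [h5]
        have h6 := hp a i₀ δ₀ hpa
        have h7 := (hD.some a i₀ δ₀ hpa).2
        have h8 : f (w a * x) = χ (δ₀ * u) * z i₀ := by
          refine hval' i₀ (δ₀ * u) _ ?_ ?_
          · rw [Subgroup.coe_mul, hu]
            exact E.mul_mem h6 hxE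
          · have h9 : w a * x * (g i₀ * ((δ₀ * u : HU) : H))⁻¹ = w a * (g i₀ * δ₀)⁻¹ := by
              rw [Subgroup.coe_mul, hu]
              group
            rw [h9]
            exact h7
        rw [h8, hχ.mul]
        ring
    rw [h3, norm_mul, hχ.nrm, one_mul]
  have h3 := hT.nrm f hinv _ h1 R (fun x hx => (hE (hRE x hx)).2) hRd
  rw [Finset.sum_congr rfl h2, Finset.sum_const, nsmul_eq_mul, hRc] at h3
  exact h3


end

end Pool.Agent.Lib.L8
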