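import Pool.Agent.Lib.L8.UC2

/-!
# U, chunk UC3: the minors of the quotients
-/

namespace Pool.Agent.Lib.L8

open MeasureTheory Matrix NumberField NumberField.InfinitePlace IsDedekindDomain Pool.Agent.Lib.H89N Pool.Agent.Lib.H33W Pool.Agent.Lib.H67G Pool.Agent.Lib.L1S
open scoped ENNReal Pointwise

noncomputable section

set_option linter.unusedSectionVars false

variable {ι M N : Type} [Fintype ι] [DecidableEq ι] [AddCommGroup M] [Module ℚ M] [AddCommGroup N] [Module ℚ N]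
  {P : RootPairing ι ℚ M N} [P.IsCrystallographic] {b : P.Base}

variable [P.IsRootSystem] [P.IsReduced] [P.IsIrreducible] {K L : Type} [Field K] [NumberField K] [Field L] [NumberField L] [Algebra K L]

/-- **UC3.** `γ = g⁻¹ γ₁ g'`: the minors `Dm b i w γ`, `w Φ_i = -Φ_j`, are in `v ^ (-(e j + e' i))`.
Proof. `γ.1.1.1 = g⁻¹.1.1.1 * (γ₁.1.1.1 * g'.1.1.1)` (as in `h2` of UE1, rfl after `mul_assoc`), `MCl.mul_int (uc_gam hγ)`, `uc_dm`. -/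
theorem uc_quot {Q : QS b K L} {v : HeightOneSpectrum (𝓞 K)} {𝔫 : Ideal (𝓞 K)} {r s : ℕ} {g g' γ : HQ Q} {e : b.support → ℕ} (hg : ∀ i, MRl b v i (e i) g⁻¹.1.1.1) (hg' : ∀ i, MCl b v i (e i) g'.1.1.1)
    (hγ : g * γ * g'⁻¹ ∈ GamQ (HQ Q) 𝔫 v r s) {i j : b.support} {w : Equiv.Perm ι} (hO : OppW b i j w) : ∀ a ∈ v.asIdeal ^ (e i + e j), IntV v (algebraMap K L (a : K) * Dm b i w γ.1.1.1) := by
  intro a ha
  obtain ⟨γ₁, h1⟩ : ∃ γ₁ : HQ Q, γ₁ = g * γ * g'⁻¹ := ⟨_, rfl⟩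
  have h2 : γ = g⁻¹ * (γ₁ * g') := by
    rw [h1]
    group
  have h3 : γ₁.1 ∈ GamL b L 𝔫 v r s := by
    rw [h1]
    exact hγ
  have e1 : γ.1.1.1 = g⁻¹.1.1.1 * (γ₁.1.1.1 * g'.1.1.1) := by
    rw [h2]
    rfl
  rw [e1]
  rw [add_comm] at ha
  exact uc_dm hO (hg j) ((hg' i).mul_int fun r c => (uc_gam h3 r c).1) a ha



end

end Pool.Agent.Lib.L8
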