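import Pool.Agent.Lib.L8.UD1
import Pool.Agent.Lib.L8.PF1

/-!
# U, chunk UD2: the minors are zero
-/

namespace Pool.Agent.Lib.L8

open MeasureTheory Matrix NumberField NumberField.InfinitePlace IsDedekindDomain Pool.Agent.Lib.H89N Pool.Agent.Lib.H33W Pool.Agent.Lib.H67G Pool.Agent.Lib.L1S
open scoped ENNReal Pointwise

noncomputable section

set_option linter.unusedSectionVars false

variable {ι M N : Type} [Fintype ι] [DecidableEq ι] [AddCommGroup M] [Module ℚ M] [AddCommGroup N] [Module ℚ N]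
  {P : RootPairing ι ℚ M N} [P.IsCrystallographic] {b : P.Base}

variable [P.IsRootSystem] [P.IsReduced] [P.IsIrreducible] {K L : Type} [Field K] [NumberField K] [Field L] [NumberField L] [Algebra K L]

/-- **UD2.** The minors are zero (model: `pf_zero` in Lib/L8/PF1.lean, the same proof with `qu_ab` in place of `qd_ab`, `e = 0`, `S = f i j`).
Proof. Copy the proof of `pf_zero`: `pf_arch b L c₀`, `C`, `m₀ = ⌈C ^ (mB b + 1)⌉₊ + 1`; if `Dm ≠ 0`, `qu_ab h0 h𝔳 hγ hO hD` gives the two estimates, and `hS i j ⟨w, hw, hO⟩` is the condition needed for `pd_real` with `S = f i j`, `e = 0`, `s = T * f i j`. -/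
theorem qu_zero (b : P.Base) (L : Type) [Field L] [NumberField L] (c₀ : ℝ) : ∃ m₀ : ℕ, ∀ m : ℕ, m₀ ≤ m → ∀ 𝔫 𝔳 : Ideal (𝓞 L), 𝔫 ≠ ⊥ → 𝔳 ≠ ⊥ →
    ∀ (f : b.support → b.support → ℤ) (a : ι → (EE L)ˣ), (∀ β, a (P.reflectionPerm β β) = (a β)⁻¹) → ∀ X : b.support → InfinitePlace L → ℝ, (∀ i w, 0 ≤ X i w) →
    (∀ i j, Opp b i j → (Ideal.absNorm 𝔳 : ℝ) ^ f i j * Rf b X i ≤ (Ideal.absNorm 𝔫 : ℝ) ^ (Phi b i).card * Ea b a i j ∨
      ∃ (l : b.support) (T : ℕ), (∀ β, mc b l (Sum.inr β) ≤ T) ∧ ((Ideal.absNorm 𝔳 : ℝ) ^ f i j * Rf b X i) ^ T ≤ (Ideal.absNorm 𝔫 : ℝ) ^ (SM b i l + SM b j l) * Ea b a i j ^ T) →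
    ∀ γ : GK b L, QU b (Ideal.span {(m : 𝓞 L)} * 𝔫) 𝔳 f γ → Mv5 b c₀ a X (emb b L γ) →
    ∀ (i j : b.support) (w : Equiv.Perm ι), w ∈ Subgroup.closure (Set.range P.reflectionPerm) → OppW b i j w → Dm b i w γ.1.1 = 0 := by
  obtain ⟨C0, hC0, hC⟩ := pf_arch b L c₀
  set C : ℝ := max C0 1 with hCdef
  have hC1 : 1 ≤ C := le_max_right _ _
  refine ⟨⌈C ^ (mB b + 1)⌉₊ + 1, fun m hm 𝔫 𝔳 h𝔫 h𝔳 f a ha X hX hS γ hγ hM i j w hw hO => ?_⟩
  by_contra hD
  set q : ℝ := (Ideal.absNorm 𝔳 : ℝ) with hq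
  set n : ℝ := (Ideal.absNorm 𝔫 : ℝ) with hn
  have hN1 : ∀ J : Ideal (𝓞 L), J ≠ ⊥ → (1 : ℝ) ≤ (Ideal.absNorm J : ℝ) := by
    intro J hJ
    have := Ideal.absNorm_ne_zero_iff_mem_nonZeroDivisors.2 (mem_nonZeroDivisors_of_ne_zero hJ)
    exact_mod_cast Nat.pos_of_ne_zero this
  have hq1 : 1 ≤ q := hN1 𝔳 h𝔳
  have hq0 : 0 < q := zero_lt_one.trans_le hq1
  have hn1 : 1 ≤ n := hN1 𝔫 h𝔫
  have hn0 : 0 < n := zero_lt_one.trans_le hn1
  have hm1' : 1 ≤ m := (Nat.le_add_left 1 _).trans hm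
  have hm1 : (1 : ℝ) ≤ m := by exact_mod_cast hm1'
  have hmC : C ^ (mB b + 1) < m := by
    have h14 : C ^ (mB b + 1) ≤ ⌈C ^ (mB b + 1)⌉₊ := Nat.le_ceil _
    have h15 : ((⌈C ^ (mB b + 1)⌉₊ + 1 : ℕ) : ℝ) ≤ m := by exact_mod_cast hm
    push_cast at h15
    linarith
  have h0 : Ideal.span {(m : 𝓞 L)} * 𝔫 ≠ ⊥ := by
    refine mul_ne_zero ?_ h𝔫
    rw [Ne, Ideal.zero_eq_bot, Ideal.span_singleton_eq_bot]
    have : m ≠ 0 := by omega
    exact_mod_cast this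
  obtain ⟨h1, h2⟩ := qu_ab h0 h𝔳 hγ hO hD
  have h4 := hC a ha X hX γ hM i j w hO
  have hnorm : (Ideal.absNorm (Ideal.span {(m : 𝓞 L)} * 𝔫) : ℝ) = (m : ℝ) ^ Module.finrank ℤ (𝓞 L) * n := by
    rw [map_mul, Ideal.absNorm_span_natCast, hn]
    push_cast
    rfl
  rw [hnorm] at h1
  have hf1 : 1 ≤ Module.finrank ℤ (𝓞 L) := Module.finrank_pos
  set E : ℝ := Ea b a i j with hE
  have hE0 : 0 < E := ea_pos b a i j
  have hR0 : 0 ≤ Rf b X i := rf_nonneg hX i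
  have hDC : mixedEmbedding.norm (mixedEmbedding L (Dm b i w γ.1.1)) ≤ C * Rf b X i * E⁻¹ := by
    refine h4.trans ?_
    exact mul_le_mul_of_nonneg_right (mul_le_mul_of_nonneg_right (le_max_left _ _) hR0) (inv_pos.2 hE0).le
  have hD0 : 0 ≤ mixedEmbedding.norm (mixedEmbedding L (Dm b i w γ.1.1)) := mixedEmbedding.norm_nonneg _
  have hCn : ∀ T ≤ mB b + 1, C ^ T ≤ C ^ (mB b + 1) := fun T hT => pow_le_pow_right₀ hC1 hT
  have hX0 : 0 ≤ q ^ (f i j) * Rf b X i * E⁻¹ := mul_nonneg (mul_nonneg (zpow_pos hq0 _).le hR0) (inv_pos.2 hE0).le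
  rcases hS i j ⟨w, hw, hO⟩ with h5 | ⟨l, T, hT, h5⟩
  · have h8 := pd_real (T := 1) (e := 0) (S := f i j) (k := (Phi b i).card) hm1 hn0 hq0 (zero_le_one.trans hC1) hD0 hf1 (d4_card i) (by
      rw [pow_one]
      exact h1) hDC (by
      rw [pow_one, pow_zero, mul_one, mul_inv_le_iff₀ hE0]
      exact h5) (by
      push_cast
      ring)
    exact absurd (h8.trans (hCn 1 (by omega))) (not_le.2 hmC)
  · set T' := min T (mB b) with hT'
    have hTc : ∀ β, mc b l (Sum.inr β) ≤ T' := by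
      intro β
      rw [hT']
      push_cast
      exact le_min (hT β) (d8_mB b l β)
    have hP1 : 1 ≤ SM b i l + SM b j l := by
      have := d7_SM_pos i l
      have := d7_SM_nonneg j l
      omega
    have hP2 : SM b i l + SM b j l = ((SM b i l + SM b j l).toNat : ℤ) := (Int.toNat_of_nonneg (by omega)).symm
    have hk1 : 1 ≤ (SM b i l + SM b j l).toNat := by omega
    have h9 := h2 l T' hTc
    rw [hnorm] at h9
    have hY : 1 ≤ n ^ (SM b i l + SM b j l).toNat := one_le_pow₀ hn1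
    have h10 : (q ^ (f i j) * Rf b X i * E⁻¹) ^ T' ≤ n ^ (SM b i l + SM b j l).toNat := by
      refine pd_pow hX0 hY (min_le_left T (mB b)) ?_
      rw [mul_pow _ E⁻¹, inv_pow, mul_inv_le_iff₀ (pow_pos hE0 _)]
      rw [hP2, zpow_natCast] at h5
      exact h5
    have h11 := pd_real (T := T') (e := 0) (k := (SM b i l + SM b j l).toNat) (S := f i j) hm1 hn0 hq0 (zero_le_one.trans hC1) hD0 hf1 hk1 h9 hDC (by
      rw [pow_zero, mul_one]
      exact h10) (by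
      push_cast
      ring)
    exact absurd (h11.trans (hCn T' ((min_le_right T (mB b)).trans (Nat.le_succ _)))) (not_le.2 hmC)


end

end Pool.Agent.Lib.L8
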