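import Pool.Agent.Lib.L8.U0

/-!
# U, chunk UE0: the lattices with weighted denominators in the unipotent group
-/

namespace Pool.Agent.Lib.L8

open MeasureTheory Matrix NumberField NumberField.InfinitePlace IsDedekindDomain Pool.Agent.Lib.H89N Pool.Agent.Lib.H33W Pool.Agent.Lib.H67G Pool.Agent.Lib.L1S
open scoped ENNReal Pointwise

noncomputable section

set_option linter.unusedSectionVars false

variable {ι M N : Type} [Fintype ι] [DecidableEq ι] [AddCommGroup M] [Module ℚ M] [AddCommGroup N] [Module ℚ N]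
  {P : RootPairing ι ℚ M N} [P.IsCrystallographic] {b : P.Base}

variable [P.IsRootSystem] [P.IsReduced] [P.IsIrreducible] {K L : Type} [Field K] [NumberField K] [Field L] [NumberField L] [Algebra K L]

/-- The matrices `X` with `X - 1` raising the height and `v ^ (e (ht r - ht c)) (X - 1)_{rc} ⊆ 𝔫`. -/
def WEm (b : P.Base) {K L : Type} [Field K] [NumberField K] [Field L] [NumberField L] [Algebra K L] (𝔫 : Ideal (𝓞 K)) (v : HeightOneSpectrum (𝓞 K)) (e : ℕ) (X : Matrix (I b) (I b) L) : Prop :=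
  ∀ r c, (ht b r ≤ ht b c → (X - 1) r c = 0) ∧ DenL 𝔫 v (e * (ht b r - ht b c).toNat) ((X - 1) r c)

theorem ue0_bil {𝔫 : Ideal (𝓞 K)} {v : HeightOneSpectrum (𝓞 K)} {e : ℕ} {X Y : Matrix (I b) (I b) L}
    (hX : WEm b 𝔫 v e X) (hY : WEm b 𝔫 v e Y) (r c : I b) :
    (ht b r ≤ ht b c → ((X - 1) * (Y - 1)) r c = 0) ∧
      DenL 𝔫 v (e * (ht b r - ht b c).toNat) (((X - 1) * (Y - 1)) r c) := by
  constructor
  · intro h
    rw [Matrix.mul_apply]
    refine Finset.sum_eq_zero fun k _ => ?_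
    by_cases h1 : ht b r ≤ ht b k
    · rw [(hX r k).1 h1, zero_mul]
    · rw [(hY k c).1 (by omega), mul_zero]
  · rw [Matrix.mul_apply]
    refine DenL.sum _ _ fun k _ => ?_
    by_cases h1 : ht b r ≤ ht b k
    · rw [(hX r k).1 h1, zero_mul]
      exact DenL.zero _ _
    · by_cases h2 : ht b k ≤ ht b c
      · rw [(hY k c).1 h2, mul_zero]
        exact DenL.zero _ _
      · have h3 : e * (ht b r - ht b c).toNat = e * (ht b r - ht b k).toNat + e * (ht b k - ht b c).toNat := by
          rw [← mul_add]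
          refine congrArg (fun z => e * z) ?_
          omega
        rw [h3]
        exact DenL.mul1 (hX r k).2 (hY k c).2

/-- **UE0.** The condition is stable under products.
Proof. `X Y - 1 = (X - 1)(Y - 1) + (X - 1) + (Y - 1)`. The entry `(r, c)` of `(X - 1)(Y - 1)` is a sum of `(X - 1)_{rk} (Y - 1)_{kc}`; it is zero unless `ht r > ht k > ht c`, and then `DenL.mul1` gives the exponent
`e (ht r - ht k) + e (ht k - ht c) = e (ht r - ht c)` (all differences positive; `Int.toNat`). If `ht r ≤ ht c` all the terms are zero. `DenL.sum`, `DenL.add`, `DenL.zero`. -/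
theorem ue_mul {𝔫 : Ideal (𝓞 K)} {v : HeightOneSpectrum (𝓞 K)} {e : ℕ} {X Y : Matrix (I b) (I b) L} (hX : WEm b 𝔫 v e X) (hY : WEm b 𝔫 v e Y) : WEm b 𝔫 v e (X * Y) := by
  intro r c
  have e1 : (X * Y - 1) r c = ((X - 1) * (Y - 1)) r c + (X - 1) r c + (Y - 1) r c := by
    have e2 : X * Y - 1 = (X - 1) * (Y - 1) + (X - 1) + (Y - 1) := by
      rw [sub_mul, mul_sub, mul_one, one_mul]
      abel
    rw [e2, Matrix.add_apply, Matrix.add_apply]
  rw [e1]
  have h := ue0_bil hX hY r c
  refine ⟨fun hrc => ?_, DenL.add (DenL.add h.2 (hX r c).2) (hY r c).2⟩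
  rw [h.1 hrc, (hX r c).1 hrc, (hY r c).1 hrc, add_zero, add_zero]


end

end Pool.Agent.Lib.L8
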