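import Pool.Agent.Lib.L8.UE0

/-!
# U, file UE1: the groups with weighted denominators (helper43)
-/

namespace Pool.Agent.Lib.L8

open MeasureTheory Matrix NumberField NumberField.InfinitePlace IsDedekindDomain Pool.Agent.Lib.H89N Pool.Agent.Lib.H33W Pool.Agent.Lib.H67G Pool.Agent.Lib.L1S
open scoped ENNReal Pointwise

noncomputable section

set_option linter.unusedSectionVars false

variable {ι M N : Type} [Fintype ι] [DecidableEq ι] [AddCommGroup M] [Module ℚ M] [AddCommGroup N] [Module ℚ N]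
  {P : RootPairing ι ℚ M N} [P.IsCrystallographic] {b : P.Base}

variable [P.IsRootSystem] [P.IsReduced] [P.IsIrreducible] {K L : Type} [Field K] [NumberField K] [Field L] [NumberField L] [Algebra K L]

theorem ue_one (𝔫 : Ideal (𝓞 K)) (v : HeightOneSpectrum (𝓞 K)) (e : ℕ) : WEm b 𝔫 v e (1 : Matrix (I b) (I b) L) := fun r c => by
  rw [sub_self, Matrix.zero_apply]
  exact ⟨fun _ => rfl, DenL.zero _ _⟩

/-- The subgroup of the elements `g` of `HQ Q` with `g`, `g⁻¹` in the set `WEm`. -/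
def WE (Q : QS b K L) (𝔫 : Ideal (𝓞 K)) (v : HeightOneSpectrum (𝓞 K)) (e : ℕ) : Subgroup (HQ Q) where
  carrier := {g | WEm b 𝔫 v e g.1.1.1 ∧ WEm b 𝔫 v e g.1⁻¹.1.1}
  one_mem' := by
    have e1 : (1 : HQ Q).1⁻¹.1.1 = (1 : Matrix (I b) (I b) L) := by
      have h : (1 : HQ Q).1⁻¹ = 1 := by rw [Subgroup.coe_one, inv_one]
      rw [h]
      rfl
    refine ⟨ue_one 𝔫 v e, ?_⟩
    rw [e1]
    exact ue_one 𝔫 v e
  mul_mem' := by
    rintro g h ⟨hg, hg'⟩ ⟨hh, hh'⟩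
    refine ⟨ue_mul hg hh, ?_⟩
    have e1 : (g * h).1⁻¹.1.1 = h.1⁻¹.1.1 * g.1⁻¹.1.1 := by
      have h2 : (g * h).1⁻¹ = h.1⁻¹ * g.1⁻¹ := by rw [Subgroup.coe_mul, _root_.mul_inv_rev]
      rw [h2]
      rfl
    rw [e1]
    exact ue_mul hh' hg'
  inv_mem' := by
    rintro g ⟨hg, hg'⟩
    refine ⟨hg', ?_⟩
    have e1 : (g⁻¹).1⁻¹ = g.1 := by rw [Subgroup.coe_inv, inv_inv]
    rw [e1]
    exact hg


end

end Pool.Agent.Lib.L8
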