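import Pool.Agent.Lib.L8.UE1

/-!
# U, chunk UE2: the elements of the groups WE
-/

namespace Pool.Agent.Lib.L8

open MeasureTheory Matrix NumberField NumberField.InfinitePlace IsDedekindDomain Pool.Agent.Lib.H89N Pool.Agent.Lib.H33W Pool.Agent.Lib.H67G Pool.Agent.Lib.L1S
open scoped ENNReal Pointwise

noncomputable section

set_option linter.unusedSectionVars false

variable {ι M N : Type} [Fintype ι] [DecidableEq ι] [AddCommGroup M] [Module ℚ M] [AddCommGroup N] [Module ℚ N]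
  {P : RootPairing ι ℚ M N} [P.IsCrystallographic] {b : P.Base}

variable [P.IsRootSystem] [P.IsReduced] [P.IsIrreducible] {K L : Type} [Field K] [NumberField K] [Field L] [NumberField L] [Algebra K L]

/-- **UE2, the groups are in `U ∩ H'`.**
Proof. `HUH` : `qb2_mem_HUH` / `mem_HU` (Lib/L1S): `g ∈ HUH (HQ Q)` iff `g.1 ∈ HU b L` iff `g - 1` raises the height (`UT`); see `QB2.lean`, `BF.lean`. `H'`: the exponents `e (ht r - ht c).toNat` are bounded (finitely many `r`, `c`), `DenL.mono`. -/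
theorem ue_le (Q : QS b K L) (𝔫 : Ideal (𝓞 K)) (v : HeightOneSpectrum (𝓞 K)) (e : ℕ) : WE Q 𝔫 v e ≤ HUH (HQ Q) ⊓ HvQ Q 𝔫 v := by
  rintro g ⟨hg, hg'⟩
  refine ⟨?_, ?_⟩
  · show g ∈ HUH (HQ Q)
    rw [qb2_mem_HUH, mem_HU]
    intro r c hrc
    have h1 := (hg r c).1 hrc
    have h2 := (hg' r c).1 hrc
    rw [Matrix.sub_apply, sub_eq_zero] at h1 h2
    exact ⟨h1, h2⟩
  · show g ∈ HvQ Q 𝔫 v
    rw [mem_HvQ]
    refine ⟨∑ p : I b × I b, e * (ht b p.1 - ht b p.2).toNat, fun r c => ?_⟩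
    have hle : e * (ht b r - ht b c).toNat ≤ ∑ p : I b × I b, e * (ht b p.1 - ht b p.2).toNat :=
      Finset.single_le_sum (f := fun p : I b × I b => e * (ht b p.1 - ht b p.2).toNat) (fun _ _ => Nat.zero_le _) (Finset.mem_univ (r, c))
    exact ⟨(hg r c).2.mono hle, (hg' r c).2.mono hle⟩

/-- **UE2, bounded denominators.** An element of `U` with `v ^ e (g - 1) ⊆ 𝔫`, `v ^ e (g⁻¹ - 1) ⊆ 𝔫` is in `WE e'`, `e ≤ e'`.
Proof. `(g - 1)_{rc} = 0` for `ht r ≤ ht c`; for `ht r > ht c` the exponent `e' (ht r - ht c)` is at least `e`, `DenL.mono`. -/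
theorem ue_den (Q : QS b K L) {𝔫 : Ideal (𝓞 K)} {v : HeightOneSpectrum (𝓞 K)} {e e' : ℕ} (he : e ≤ e') {g : HQ Q} (hg : g ∈ HUH (HQ Q)) (h : ∀ r c, DenL 𝔫 v e ((g.1.1.1 - 1) r c) ∧ DenL 𝔫 v e ((g.1⁻¹.1.1 - 1) r c)) :
    g ∈ WE Q 𝔫 v e' := by
  rw [qb2_mem_HUH, mem_HU] at hg
  have key : ∀ X : Matrix (I b) (I b) L, (∀ r c, ht b r ≤ ht b c → (X - 1) r c = 0) → (∀ r c, DenL 𝔫 v e ((X - 1) r c)) → WEm b 𝔫 v e' X := by
    intro X h0 h1 r c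
    refine ⟨h0 r c, ?_⟩
    by_cases hrc : ht b r ≤ ht b c
    · rw [h0 r c hrc]
      exact DenL.zero _ _
    · refine (h1 r c).mono (he.trans (Nat.le_mul_of_pos_right _ ?_))
      push Not at hrc
      exact Int.lt_toNat.2 (by push_cast; linarith)
  refine ⟨key _ (fun r c hrc => ?_) fun r c => (h r c).1, key _ (fun r c hrc => ?_) fun r c => (h r c).2⟩
  · rw [Matrix.sub_apply, sub_eq_zero]
    exact (hg r c hrc).1
  · rw [Matrix.sub_apply, sub_eq_zero]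
    exact (hg r c hrc).2

/-- **UE2, conjugates.** `g⁻¹ Γ g ∩ U ⊆ WE e` for `g ∈ H'` and all large `e`.
Proof. Let `j` be the exponent of `g ∈ HGL b L 𝔫 v`. For `x` with `γ = g x g⁻¹ ∈ Γ`: `x - 1 = g⁻¹ (γ - 1) g`, the entries of `g⁻¹`, `g` satisfy `DenL ⊤ v j` (`qc_den_one`), those of `γ - 1` are in `𝔫` (`DenL.of_int`), so `DenL 𝔫 v (2 j)` for the
entries of `x - 1` (`DenL.mul`, `Ideal.top_mul`, `Ideal.mul_top`; `DenL.sum`); the same for `x⁻¹`. Then `ue_den` with `e = 2 j`. -/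
theorem ue_cj (Q : QS b K L) {𝔫 : Ideal (𝓞 K)} {v : HeightOneSpectrum (𝓞 K)} (r s : ℕ) {g : HQ Q} (hg : g.1 ∈ HGL b L 𝔫 v) : ∃ e : ℕ, ∀ e' ≥ e, cjG (GamQ (HQ Q) 𝔫 v r s) g ⊓ HUH (HQ Q) ≤ WE Q 𝔫 v e' := by
  obtain ⟨j, hj⟩ := hg
  have key : ∀ x : HQ Q, g.1 * x.1 * g.1⁻¹ ∈ GamL b L 𝔫 v r s → ∀ i k, DenL 𝔫 v (j + j) ((x.1.1.1 - 1) i k) := by
    intro x hx i k
    have e : x.1.1.1 - 1 = g.1⁻¹.1.1 * (((g.1 * x.1 * g.1⁻¹).1.1 - 1) * g.1.1.1) := by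
      have e1 : (g.1 * x.1 * g.1⁻¹).1.1 = g.1.1.1 * x.1.1.1 * g.1⁻¹.1.1 := rfl
      have e2 : g.1⁻¹.1.1 * g.1.1.1 = 1 := by
        have h : g.1⁻¹ * g.1 = 1 := inv_mul_cancel _
        exact congrArg (fun z : GK b L => z.1.1) h
      rw [e1, sub_mul, one_mul, Matrix.mul_assoc, Matrix.mul_assoc, e2, Matrix.mul_one, mul_sub, ← Matrix.mul_assoc, e2, Matrix.one_mul]
    rw [e, Matrix.mul_apply]
    refine DenL.sum _ _ fun l _ => ?_
    have h1 : DenL (⊤ : Ideal (𝓞 K)) v j (g.1⁻¹.1.1 i l) := qc_den_one (fun r c => (hj r c).2) i l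
    have h2 : DenL 𝔫 v j ((((g.1 * x.1 * g.1⁻¹).1.1 - 1) * g.1.1.1) l k) := by
      rw [Matrix.mul_apply]
      refine DenL.sum _ _ fun m _ => ?_
      have h3 : DenL 𝔫 v 0 (((g.1 * x.1 * g.1⁻¹).1.1 - 1) l m) := DenL.of_int (hx l m).1.1 0
      have h4 := h3.mul1 (qc_den_one (fun r c => (hj r c).1) m k)
      rwa [Nat.zero_add] at h4
    rw [mul_comm]
    exact h2.mul1 h1
  refine ⟨j + j, fun e' he' x hx => ?_⟩
  obtain ⟨hx1, hx2⟩ := hx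
  have h1 : g.1 * x.1 * g.1⁻¹ ∈ GamL b L 𝔫 v r s := hx1
  have h2 : g.1 * (x⁻¹ : HQ Q).1 * g.1⁻¹ ∈ GamL b L 𝔫 v r s := by
    have h := inv_mem h1
    have e : (g.1 * x.1 * g.1⁻¹)⁻¹ = g.1 * (x⁻¹ : HQ Q).1 * g.1⁻¹ := by
      rw [Subgroup.coe_inv]
      group
    rwa [e] at h
  refine ue_den Q he' hx2 fun i k => ⟨key x h1 i k, ?_⟩
  exact key x⁻¹ h2 i k


end

end Pool.Agent.Lib.L8
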