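import Pool.Agent.Lib.L8.UE2

/-!
# U, chunk UE3: the index
-/

namespace Pool.Agent.Lib.L8

open MeasureTheory Matrix NumberField NumberField.InfinitePlace IsDedekindDomain Pool.Agent.Lib.H89N Pool.Agent.Lib.H33W Pool.Agent.Lib.H67G Pool.Agent.Lib.L1S
open scoped ENNReal Pointwise

noncomputable section

set_option linter.unusedSectionVars false

variable {ι M N : Type} [Fintype ι] [DecidableEq ι] [AddCommGroup M] [Module ℚ M] [AddCommGroup N] [Module ℚ N]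
  {P : RootPairing ι ℚ M N} [P.IsCrystallographic] {b : P.Base}

variable [P.IsRootSystem] [P.IsReduced] [P.IsIrreducible] {K L : Type} [Field K] [NumberField K] [Field L] [NumberField L] [Algebra K L]

/-- Division by `a`. -/
theorem ue3_div {a : 𝓞 K} {𝔟 : Ideal (𝓞 K)} {x : L} (h : L1S.InI (L1S.up L (Ideal.span {a} * 𝔟)) x) : ∃ t : L, L1S.InI (L1S.up L 𝔟) t ∧ x = algebraMap K L (a : K) * t := by
  obtain ⟨y, hy, rfl⟩ := h
  have e : L1S.up L (Ideal.span {a} * 𝔟) = Ideal.span {algebraMap (𝓞 K) (𝓞 L) a} * L1S.up L 𝔟 := by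
    rw [qc_up_mul]
    congr 1
    unfold L1S.up
    rw [Ideal.map_span, Set.image_singleton]
  rw [e] at hy
  obtain ⟨z, hz, hzy⟩ := Ideal.mem_span_singleton_mul.1 hy
  refine ⟨(z : L), ⟨z, hz, rfl⟩, ?_⟩
  rw [← hzy]
  rfl

theorem ue3_inI_le {𝔞 𝔟 : Ideal (𝓞 K)} (h : 𝔞 ≤ 𝔟) {x : L} (hx : L1S.InI (L1S.up L 𝔞) x) : L1S.InI (L1S.up L 𝔟) x := by
  obtain ⟨y, hy, e⟩ := hx
  exact ⟨y, up_mono L h hy, e⟩

/-- The congruence. -/
theorem ue3_cong {a : 𝓞 K} {𝔠 : Ideal (𝓞 K)} {G G' X : Matrix (I b) (I b) L} (hG : G' * G = 1) (h1 : ∀ i j, L1S.InI ⊤ (algebraMap K L (a : K) * G' i j))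
    (h2 : ∀ i j, L1S.InI (L1S.up L (Ideal.span {a} * 𝔠)) ((X - G) i j)) (i j : I b) : L1S.InI (L1S.up L 𝔠) ((G' * X - 1) i j) := by
  have e : G' * X - 1 = G' * (X - G) := by rw [Matrix.mul_sub, hG]
  rw [e, Matrix.mul_apply]
  refine L1S.InI.sum _ _ fun k _ => ?_
  obtain ⟨t, ht, e1⟩ := ue3_div (h2 k j)
  rw [e1]
  have e2 : G' i k * (algebraMap K L (a : K) * t) = (algebraMap K L (a : K) * G' i k) * t := by ring
  rw [e2]
  exact (h1 i k).mul' ht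

/-- Elements congruent to `1` modulo `𝔫 v ^ (r + s)`. -/
theorem ue3_gam {𝔫 : Ideal (𝓞 K)} {v : HeightOneSpectrum (𝓞 K)} {r s : ℕ} {X : Matrix (I b) (I b) L} (h : ∀ i j, L1S.InI (L1S.up L (𝔫 * v.asIdeal ^ (r + s))) ((X - 1) i j)) (i j : I b) :
    L1S.InI (L1S.up L 𝔫) ((X - 1) i j) ∧ (ht b i < ht b j → L1S.InI (L1S.up L (v.asIdeal ^ (r + s))) (X i j)) ∧ (ht b i = ht b j → L1S.InI (L1S.up L (v.asIdeal ^ r)) ((X - 1) i j)) := by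
  have hm1 : 𝔫 * v.asIdeal ^ (r + s) ≤ 𝔫 := Ideal.mul_le_left
  have hm2 : 𝔫 * v.asIdeal ^ (r + s) ≤ v.asIdeal ^ (r + s) := Ideal.mul_le_right
  have hm3 : v.asIdeal ^ (r + s) ≤ v.asIdeal ^ r := Ideal.pow_le_pow_right (Nat.le_add_right r s)
  refine ⟨ue3_inI_le hm1 (h i j), fun hij => ?_, fun _ => ?_⟩
  · have hne : i ≠ j := by
      rintro rfl
      exact lt_irrefl _ hij
    have e : X i j = (X - 1) i j := by
      rw [Matrix.sub_apply, Matrix.one_apply_ne hne, sub_zero]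
    rw [e]
    exact ue3_inI_le hm2 (h i j)
  · exact ue3_inI_le (hm2.trans hm3) (h i j)

theorem ue3_idx (Q : QS b K L) {𝔫 : Ideal (𝓞 K)} (h0 : 𝔫 ≠ ⊥) (v : HeightOneSpectrum (𝓞 K)) (r s e : ℕ) : (GamQ (HQ Q) 𝔫 v r s).relIndex (WE Q 𝔫 v e) ≠ 0 := by
  classical
  set J : ℕ := ∑ p : I b × I b, e * (ht b p.1 - ht b p.2).toNat with hJ
  have hJle : ∀ r c : I b, e * (ht b r - ht b c).toNat ≤ J := fun r c =>
    Finset.single_le_sum (f := fun p : I b × I b => e * (ht b p.1 - ht b p.2).toNat) (fun _ _ => Nat.zero_le _) (Finset.mem_univ (r, c))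
  have hvJ : v.asIdeal ^ J ≠ ⊥ := pow_ne_zero J v.ne_bot
  obtain ⟨a, ha, ha0⟩ := Submodule.exists_mem_ne_zero_of_ne_bot hvJ
  have hA0 : algebraMap K L (a : K) ≠ 0 := by
    rw [ne_eq, map_eq_zero]
    exact fun h => ha0 (RingOfIntegers.ext h)
  have hint : ∀ X : Matrix (I b) (I b) L, WEm b 𝔫 v e X → ∀ i j, L1S.InI ⊤ (algebraMap K L (a : K) * X i j) := by
    intro X hX i j
    exact (qc_den_one (fun r c => ((hX r c).2).mono (hJle r c)) i j a ha).top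
  set 𝔠 : Ideal (𝓞 K) := 𝔫 * v.asIdeal ^ (r + s) with h𝔠
  have h𝔠0 : 𝔠 ≠ ⊥ := mul_ne_zero h0 (pow_ne_zero _ v.ne_bot)
  have hs0 : (Ideal.span {a} : Ideal (𝓞 K)) ≠ ⊥ := by
    rw [Ne, Ideal.span_singleton_eq_bot]
    exact ha0
  set 𝔡 : Ideal (𝓞 L) := L1S.up L (Ideal.span {a} * (Ideal.span {a} * 𝔠)) with h𝔡
  have h𝔡0 : 𝔡 ≠ ⊥ := qc_up_ne (mul_ne_zero hs0 (mul_ne_zero hs0 h𝔠0))
  obtain ⟨q, hq⟩ := r8a_q (K := L) ⊤ 𝔡
  have hcard : Nat.card ((⊤ : Ideal (𝓞 L)).toAddSubgroup ⧸ (((⊤ : Ideal (𝓞 L)) * 𝔡).toAddSubgroup).addSubgroupOf (⊤ : Ideal (𝓞 L)).toAddSubgroup) = Ideal.absNorm 𝔡 := r2_idx top_ne_bot 𝔡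
  have h00 : Ideal.absNorm 𝔡 ≠ 0 := fun h => h𝔡0 (Ideal.absNorm_eq_zero_iff.1 h)
  have hfin : Finite ((⊤ : Ideal (𝓞 L)).toAddSubgroup ⧸ (((⊤ : Ideal (𝓞 L)) * 𝔡).toAddSubgroup).addSubgroupOf (⊤ : Ideal (𝓞 L)).toAddSubgroup) := Nat.finite_of_card_ne_zero (by rw [hcard]; exact h00)
  have key := (r8_card (Γ := WE Q 𝔫 v e) (Γ' := GamQ (HQ Q) 𝔫 v r s ⊓ WE Q 𝔫 v e) inf_le_right
    (fun g i j => q (algebraMap K L (a : K) * g.1.1.1 i j)) fun g hg h hh heq => ?_).2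
  · rwa [Subgroup.inf_relIndex_right] at key
  · refine Subgroup.mem_inf.2 ⟨?_, (WE Q 𝔫 v e).mul_mem ((WE Q 𝔫 v e).inv_mem hg) hh⟩
    have hdiff : ∀ (X Y : Matrix (I b) (I b) L), WEm b 𝔫 v e X → WEm b 𝔫 v e Y → (∀ i j, q (algebraMap K L (a : K) * X i j) = q (algebraMap K L (a : K) * Y i j)) →
        ∀ i j, L1S.InI (L1S.up L (Ideal.span {a} * 𝔠)) ((Y - X) i j) := by
      intro X Y hX hY hXY i j
      have h1 := hq _ _ (hint X hX i j) (hint Y hY i j) (hXY i j)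
      rw [Ideal.top_mul, ← mul_sub] at h1
      obtain ⟨t, ht, e1⟩ := ue3_div h1
      have e2 := mul_left_cancel₀ hA0 e1
      rw [Matrix.sub_apply, e2]
      exact ht
    have hfg : ∀ i j, q (algebraMap K L (a : K) * g.1.1.1 i j) = q (algebraMap K L (a : K) * h.1.1.1 i j) := fun i j => congrFun (congrFun heq i) j
    have hg1 : g.1⁻¹.1.1 * g.1.1.1 = 1 := congrArg (fun x : GK b L => x.1.1) (inv_mul_cancel g.1)
    have hh1 : h.1⁻¹.1.1 * h.1.1.1 = 1 := congrArg (fun x : GK b L => x.1.1) (inv_mul_cancel h.1)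
    have k1 := ue3_cong hg1 (hint _ hg.2) (hdiff _ _ hg.1 hh.1 hfg)
    have k2 := ue3_cong hh1 (hint _ hh.2) (hdiff _ _ hh.1 hg.1 fun i j => (hfg i j).symm)
    refine Subgroup.mem_subgroupOf.2 ?_
    have e1 : ((g⁻¹ * h : HQ Q) : GK b L).1.1 = g.1⁻¹.1.1 * h.1.1.1 := rfl
    have e2 : ((g⁻¹ * h : HQ Q) : GK b L)⁻¹.1.1 = h.1⁻¹.1.1 * g.1.1.1 := by
      have e3 : ((g⁻¹ * h : HQ Q) : GK b L)⁻¹ = h.1⁻¹ * g.1 := by
        rw [Subgroup.coe_mul, Subgroup.coe_inv]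
        group
      rw [e3]
      rfl
    intro i j
    rw [e1, e2]
    exact ⟨ue3_gam k1 i j, ue3_gam k2 i j⟩

/-- **UE3.** `g⁻¹ Γ g ∩ WE e` has finite index in `WE e`.
Proof. By `qa_comm Q h0 v v r s r s g 1` (`GhQ (HQ Q) 𝔫 v r s g = cjG (GamQ ..) g` by rfl, `cjG_one`) and `Subgroup.relIndex_ne_zero_trans` it is enough that `(GamQ (HQ Q) 𝔫 v r s).relIndex (WE Q 𝔫 v e) ≠ 0`. Let `j` be a bound for all the exponents
`e (ht r - ht c).toNat`, choose `a ∈ v ^ j`, `a ≠ 0` (`v ^ j ≠ ⊥`), and put `𝔠 := 𝔫 * v ^ (r + s)` (nonzero), `𝔡 := up L (span {a} * 𝔠)` (nonzero ideal of `𝓞 L`). For `g ∈ WE e` the entries of `a g` and of `a g⁻¹` are in `𝓞 L` (`a (g - 1)` is in `up L 𝔫`, `a · 1` is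
integral). CLAIM: if `g, h ∈ WE e` and the entries of `a g - a h` are in `span {a} 𝔡` (so `g ≡ h` modulo `𝔡`), then `g⁻¹ h ∈ Γ`: `g⁻¹ h - 1 = g⁻¹ (h - g) = (a g⁻¹) (a⁻¹ (h - g))`, the entries of `h - g` are in `𝔡 = a 𝔠 𝓞 L`, so those of `a⁻¹ (h - g)` are in `up L 𝔠`,
and so are those of `g⁻¹ h - 1`; in the same way `h⁻¹ g - 1`; and an element with `x - 1`, `x⁻¹ - 1` in `up L 𝔠 ⊆ up L 𝔫 ∩ up L (v ^ (r + s)) ⊆ up L (v ^ r)` is in `GamL b L 𝔫 v r s` (for `i ≠ j` the entry of `x` is the entry of `x - 1`). So the map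
`WE e → (I b → I b → 𝓞 L ⧸ (span {a} 𝔡))`, `g ↦ a g`, to a finite set (`Ideal.finiteQuotientOfFreeOfNeBot` or the instance used in Lib/L1S/QC.lean, `RH6A.lean`) separates the left cosets of `Γ ∩ WE e` in `WE e`: finitely many cosets
(`Subgroup.relIndex`, `Subgroup.index_ne_zero_of_finite`, `Finite.of_injective`). -/
theorem ue_idx (Q : QS b K L) [IsGalois K L] {𝔫 : Ideal (𝓞 K)} (h0 : 𝔫 ≠ ⊥) (v : HeightOneSpectrum (𝓞 K)) (r s e : ℕ) (g : HQ Q) : (cjG (GamQ (HQ Q) 𝔫 v r s) g).relIndex (WE Q 𝔫 v e) ≠ 0 := by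
  have h1 := qa_comm Q (𝔪 := 𝔫) h0 v v r s r s g 1
  have e1 : GhQ (HQ Q) 𝔫 v r s 1 = GamQ (HQ Q) 𝔫 v r s := cjG_one _
  rw [e1] at h1
  exact Subgroup.relIndex_ne_zero_trans h1 (ue3_idx Q h0 v r s e)


end

end Pool.Agent.Lib.L8
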