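import Pool.Agent.Lib.L8.U00
import Pool.Agent.Lib.L1S.TH4
import Pool.Agent.Lib.L1S.TX5

/-!
# U, file UF0: means over lattices, definitions (helper43)
-/

namespace Pool.Agent.Lib.L8

open MeasureTheory Matrix NumberField NumberField.InfinitePlace IsDedekindDomain Pool.Agent.Lib.H89N Pool.Agent.Lib.H33W Pool.Agent.Lib.H67G Pool.Agent.Lib.L1S
open scoped ENNReal Pointwise

noncomputable section

set_option linter.unusedSectionVars false

variable {ι M N : Type} [Fintype ι] [DecidableEq ι] [AddCommGroup M] [Module ℚ M] [AddCommGroup N] [Module ℚ N]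
  {P : RootPairing ι ℚ M N} [P.IsCrystallographic] {b : P.Base} {L : Type} [Field L] [NumberField L] (H : Subgroup (GK b L))

/-- The group `Γ` and the character `ψ_θ`: `Γ` is discrete and commensurable with its conjugates, `h⁻¹ Γ h ∩ U` is cocompact in `U`, and `ψ = 1` on `Γ ∩ U`. -/
structure UCx (Γ : Subgroup H) (θ : b.support → (EE L →ₗ[ℝ] ℝ)) : Prop where
  dsc : Dsc H Γ
  comm : ∀ a, (cjG Γ a).relIndex Γ ≠ 0
  cc : ∀ a, CCH H (cjG Γ a)
  one : ∀ w : HUH H, (w : H) ∈ Γ → psT H θ (kUH H w) = 1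

/-- **The mean** `Φ(h) = ∫_{(h⁻¹ Γ h ∩ Γ ∩ U) \ U} f(h u x) ψ(u)⁻¹ du` (normalised). -/
def Phw (Γ : Subgroup H) (ν : Measure (UHR H)) (θ : b.support → (EE L →ₗ[ℝ] ℝ)) (f : HRt H → ℂ) (x : HRt H) (h : H) : ℂ := by
  classical
  exact if hs : ∃ D : Set (UHR H), SF ((cjG Γ h ⊓ Γ).subgroupOf (HUH H)) D then Wm (UHR H).subtype (psT H θ) ν hs.choose (fun y => f (h • y)) x else 0


end

end Pool.Agent.Lib.L8
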