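import Pool.Agent.Lib.L8.UF0

/-!
# U, chunk UF1: finite index, fundamental domains
-/

namespace Pool.Agent.Lib.L8

open MeasureTheory Matrix NumberField NumberField.InfinitePlace IsDedekindDomain Pool.Agent.Lib.H89N Pool.Agent.Lib.H33W Pool.Agent.Lib.H67G Pool.Agent.Lib.L1S
open scoped ENNReal Pointwise

noncomputable section

set_option linter.unusedSectionVars false

variable {ι M N : Type} [Fintype ι] [DecidableEq ι] [AddCommGroup M] [Module ℚ M] [AddCommGroup N] [Module ℚ N]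
  {P : RootPairing ι ℚ M N} [P.IsCrystallographic] {b : P.Base} {L : Type} [Field L] [NumberField L] (H : Subgroup (GK b L))

/-- **UF1, the index.** Proof. Induction over `S` (`Finset.induction_on`, `Finset.iInf_insert`, `Subgroup.relIndex_inf_ne_zero`), for `∅` the infimum is `⊤` (`Subgroup.relIndex_top_left`), the step uses `hc.comm`. -/
theorem uf_idx {Γ : Subgroup H} {θ : b.support → (EE L →ₗ[ℝ] ℝ)} (hc : UCx H Γ θ) (S : Finset H) : (⨅ g ∈ S, cjG Γ g).relIndex Γ ≠ 0 := by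
  classical
  refine Finset.induction_on S ?_ ?_
  · have h1 : (⨅ g ∈ (∅ : Finset H), cjG Γ g) = ⊤ := by simp
    rw [h1, Subgroup.relIndex_top_left]
    exact one_ne_zero
  · intro a S _ ih
    rw [Finset.iInf_insert]
    exact Subgroup.relIndex_inf_ne_zero (hc.comm a) ih

/-- **UF1, the fundamental domain.** Proof. `(hc.dsc.mono inf_le_right).sfU` gives `D`; `hc.dsc.sfU` gives `D₀` for `Γ`, `ν D₀ ≠ ⊤` by `th2_fin` (`CCH H Γ` is `hc.cc 1` with `cjG_one`); `hG := th2_gd H hcc hD₀ μ ν θ (psT_mul' H θ)`;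
`(vol_sub hG inf_le_right (..) hD₀ hD fD₀).2` with `(Δ ⊓ Γ).relIndex Γ = Δ.relIndex Γ` (`Subgroup.inf_relIndex_right`); `Countable H` is `th_count H`. -/
theorem uf_fin {Γ : Subgroup H} {θ : b.support → (EE L →ₗ[ℝ] ℝ)} (hc : UCx H Γ θ) (μ : Measure (HRt H)) [μ.IsHaarMeasure] (ν : Measure (UHR H)) [ν.IsHaarMeasure] {Δ : Subgroup H} (h : Δ.relIndex Γ ≠ 0) :
    ∃ D : Set (UHR H), SF ((Δ ⊓ Γ).subgroupOf (HUH H)) D ∧ ν D ≠ ⊤ := by
  have hC := th_count H
  have hcc : CCH H Γ := by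
    have h1 := hc.cc 1
    rwa [cjG_one] at h1
  obtain ⟨D, hD⟩ := (hc.dsc.mono (inf_le_right (a := Δ))).sfU
  obtain ⟨D₀, hD₀⟩ := hc.dsc.sfU
  have fD₀ : ν D₀ ≠ ⊤ := th2_fin H hcc hD₀ ν
  have hG := th2_gd H hcc hD₀ μ ν θ (psT_mul' H θ)
  have h2 : (Δ ⊓ Γ).relIndex Γ ≠ 0 := by
    rw [Subgroup.inf_relIndex_right]
    exact h
  exact ⟨D, hD, (vol_sub hG inf_le_right h2 hD₀ hD fD₀).2⟩


end

end Pool.Agent.Lib.L8
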