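import Pool.Agent.Lib.L8.UF1

/-!
# U, chunk UF2: the mean does not depend on the lattice
-/

namespace Pool.Agent.Lib.L8

open MeasureTheory Matrix NumberField NumberField.InfinitePlace IsDedekindDomain Pool.Agent.Lib.H89N Pool.Agent.Lib.H33W Pool.Agent.Lib.H67G Pool.Agent.Lib.L1S
open scoped ENNReal Pointwise

noncomputable section

set_option linter.unusedSectionVars false

variable {ι M N : Type} [Fintype ι] [DecidableEq ι] [AddCommGroup M] [Module ℚ M] [AddCommGroup N] [Module ℚ N]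
  {P : RootPairing ι ℚ M N} [P.IsCrystallographic] {b : P.Base} {L : Type} [Field L] [NumberField L] (H : Subgroup (GK b L))

/-- **UF2.**
Proof. Put `Δ' := (Δ ⊓ cjG Γ h) ⊓ Γ`, `hs : ∃ D, SF ((cjG Γ h ⊓ Γ).subgroupOf (HUH H)) D` from `uf_fin` (`hc.comm h`), `D₂ := hs.choose`. `uf_fin hc μ ν (Δ := Δ ⊓ cjG Γ h)` (`Subgroup.relIndex_inf_ne_zero h3 (hc.comm h)`) gives `D'` for `Δ'` with `ν D' ≠ ⊤`. By
`wm_sub hG` with `Γ := Δ ⊓ HUH H`, `Γ' := Δ'` (`(Δ ⊓ HUH H).subgroupOf (HUH H) = Δ.subgroupOf (HUH H)`, `Subgroup.inf_subgroupOf_right`; the function `y ↦ f (h • y)` is invariant under `Δ ⊓ HUH H ≤ cjG Γ h`: `h • (γ • y) = (h γ h⁻¹) • (h • y)`) the mean over `D'` is the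
mean over `D`, and by `wm_sub hG` with `Γ := cjG Γ h ⊓ Γ`, `Γ' := Δ'` it is the mean over `D₂` (`ψ = 1` on `Γ ∩ U`). `hG := th2_gd H hcc hD₀ μ ν θ (psT_mul' H θ)`, measurability: `cf` composed with the left multiplication. -/
theorem uf_any {Γ : Subgroup H} {θ : b.support → (EE L →ₗ[ℝ] ℝ)} (hc : UCx H Γ θ) (μ : Measure (HRt H)) [μ.IsHaarMeasure] (ν : Measure (UHR H)) [ν.IsHaarMeasure] {f : HRt H → ℂ} (cf : Continuous f)
    (inv : ∀ γ ∈ Γ, ∀ y, f (γ • y) = f y) {h : H} {Δ : Subgroup H} (h1 : Δ ⊓ HUH H ≤ cjG Γ h) (h2 : ∀ w : HUH H, (w : H) ∈ Δ → psT H θ (kUH H w) = 1) (h3 : Δ.relIndex Γ ≠ 0)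
    {D : Set (UHR H)} (hD : SF (Δ.subgroupOf (HUH H)) D) (x : HRt H) : Wm (UHR H).subtype (psT H θ) ν D (fun y => f (h • y)) x = Phw H Γ ν θ f x h := by
  have ci : Countable H := th_count H
  have hcc : CCH H Γ := by
    have h4 := hc.cc 1
    rwa [cjG_one] at h4
  obtain ⟨D₀, hD₀⟩ := hc.dsc.sfU
  have hG := th2_gd H hcc hD₀ μ ν θ (psT_mul' H θ)
  have hs : ∃ D : Set (UHR H), SF ((cjG Γ h ⊓ Γ).subgroupOf (HUH H)) D := by
    obtain ⟨D', h5, -⟩ := uf_fin H hc μ ν (hc.comm h)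
    exact ⟨D', h5⟩
  obtain ⟨D', hD', fD'⟩ := uf_fin H hc μ ν (Δ := Δ ⊓ cjG Γ h) (Subgroup.relIndex_inf_ne_zero h3 (hc.comm h))
  have mh : Measurable fun y : HRt H => f (h • y) := (cf.comp (continuous_const.mul continuous_id : Continuous fun y : HRt H => embH H h * y)).measurable
  have ih : ∀ γ ∈ cjG Γ h, ∀ y : HRt H, f (h • (γ • y)) = f (h • y) := by
    intro γ hγ y
    have e : h • (γ • y) = (h * γ * h⁻¹) • (h • y) := by
      rw [smul_smul, smul_smul, inv_mul_cancel_right]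
    rw [e]
    exact inv _ hγ _
  have hD1 : SF ((Δ ⊓ HUH H).subgroupOf (HUH H)) D := by
    rw [Subgroup.inf_subgroupOf_right]
    exact hD
  have e1 := wm_sub hG (Γ := Δ ⊓ HUH H) (Γ' := (Δ ⊓ cjG Γ h) ⊓ Γ) (fun w hw => ⟨hw.1.1.1, hw.2⟩) (fun w hw => h2 w hw.1) hD1 hD' fD' mh
    (fun γ hγ y => ih γ (h1 hγ) y) x
  have e2 := wm_sub hG (Γ := cjG Γ h ⊓ Γ) (Γ' := (Δ ⊓ cjG Γ h) ⊓ Γ) (fun w hw => ⟨hw.1.1.2, hw.1.2⟩) (fun w hw => hc.one w hw.2) hs.choose_spec hD' fD' mh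
    (fun γ hγ y => ih γ hγ.1 y) x
  have e3 : Phw H Γ ν θ f x h = Wm (UHR H).subtype (psT H θ) ν hs.choose (fun y => f (h • y)) x := by
    unfold Phw
    exact dif_pos hs
  rw [e3, ← e1, e2]


end

end Pool.Agent.Lib.L8
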