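import Pool.Agent.Lib.L8.UF0
import Pool.Agent.Lib.L8.PCT

/-!
# U, file UG1: the density inequality for a finite family of elements, form A, without the condition on the lattices (helper43)
-/

namespace Pool.Agent.Lib.L8

open MeasureTheory Matrix NumberField NumberField.InfinitePlace IsDedekindDomain Pool.Agent.Lib.H89N Pool.Agent.Lib.H33W Pool.Agent.Lib.H67G Pool.Agent.Lib.L1S
open scoped ENNReal Pointwise

noncomputable section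

set_option linter.unusedSectionVars false

variable {ι M N : Type} [Fintype ι] [DecidableEq ι] [AddCommGroup M] [Module ℚ M] [AddCommGroup N] [Module ℚ N]
  {P : RootPairing ι ℚ M N} [P.IsCrystallographic] {b : P.Base} {L : Type} [Field L] [NumberField L] (H : Subgroup (GK b L))

/-- **The density inequality** for a finite family of elements `g_i` of `H` (form A) such that `ψ = 1` on `g_i⁻¹ Γ g_i ∩ U`. -/
theorem th6_A {κ : Type} [Fintype κ] {Γ Γ₁ : Subgroup H} {g : κ → H} {θ : b.support → (EE L →ₗ[ℝ] ℝ)} {x : HRt H} {φ : HRt H → ℂ} (hd : Dsc H Γ) (hle : Γ₁ ≤ Γ)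
    (hcomm : ∀ a, (cjG Γ₁ a).relIndex Γ₁ ≠ 0) (hidx : Γ₁.relIndex Γ ≠ 0) (hcc1 : CCH H Γ₁) (hcc : ∀ i, CCH H (cjG Γ₁ (g i))) (hone : ∀ i, ∀ w : HUH H, (w : H) ∈ cjG Γ (g i) → psT H θ (kUH H w) = 1)
    (cφ : Continuous φ) (sφ : HasCompactSupport φ) {μ : Measure (HRt H)} [μ.IsHaarMeasure] {ν : Measure (UHR H)} [ν.IsHaarMeasure]
    {τ : Measure (HRt H)} {wt : HRt H → ℂ} {Kt : Set (HRt H)} {Λ : ℝ} (hτ : CvD μ τ wt Kt Λ) (hfol : ∀ i, Fol ↥((cjG Γ₁ (g i)).subgroupOf (HUH H))) {Mc : ℕ}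
    (dich : ∀ i j γ, g i * γ * (g j)⁻¹ ∈ Γ₁ → MvT H x (tsupport φ * Kt ^ Mc) (embH H γ) → (i = j ∧ γ ∈ HUH H) ∨ AltT H θ γ)
    {D₂ : κ → Set (UHR H)} (hD₂ : ∀ i, SF ((cjG Γ (g i)).subgroupOf (HUH H)) (D₂ i))
    {F₁ : Set (HRt H)} (hF₁ : SF Γ F₁) {m : ℕ} {lam : Fin m → ℂ} {F : Fin m → HRt H → ℂ} (hF : ∀ l, AFe μ Γ F₁ φ (lam l) (F l)) {kap : Fin m → ℂ} (hκ : ∀ l y, Cv τ wt (F l) y = kap l * F l y)
    (hort : ∀ l k, ∫ x in F₁, star (F l x) * F k x ∂μ = if l = k then 1 else 0) (a : κ → ℂ) :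
    ∑ l, ‖kap l ^ Mc * lam l‖ₑ ^ 2 * ‖∑ i, a i * Wm (UHR H).subtype (psT H θ) ν (D₂ i) (fun y => F l (g i • y)) x‖ₑ ^ 2 ≤
      ((Γ₁.relIndex Γ : ℕ) * (Jf (UHR H).subtype μ ν φ x * ENNReal.ofReal (Λ ^ 2) ^ Mc)) * ∑ i, ‖a i‖ₑ ^ 2 / ν (D₂ i) := by
  classical
  have ci : Countable H := th_count H
  have cjj : Continuous ((UHR H).subtype : UHR H →* HRt H) := continuous_subtype_val
  obtain ⟨D₁, hD₁⟩ := hd.sfU
  have hcΓ : CCH H Γ := hcc1.mono hle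
  have hccΓ : ∀ k, CCH H (cjG Γ (g k)) := fun k => (hcc k).mono (cjG_mono hle _)
  have hG := th2_gd H hcΓ hD₁ μ ν θ (psT_mul' H θ)
  have hpT : ∀ g : HUH H, MeasurePreserving (fun t : UHR H => g • t) ν ν := th2_hp H ν
  have pD2 : ∀ k, ν (D₂ k) ≠ 0 := fun k => th2_pos H (hD₂ k) ν
  have fD2 : ∀ k, ν (D₂ k) ≠ ⊤ := fun k => th2_fin H (hccΓ k) (hD₂ k) ν
  have hCk : IsCompact ((fun y => x * y) '' (tsupport φ * Kt ^ Mc)) := ((show IsCompact (tsupport φ) from sφ).mul (pc_cpow hτ.cK Mc)).image (continuous_const.mul continuous_id)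
  have hdk : ∀ k, Dsc H (cjG Γ₁ (g k)) := fun k => dsc_conj H (hd.mono hle) (g k)
  obtain ⟨Q, hQ, hfq⟩ := th3_fq H hdk hcc μ hCk
  have hAS : ∀ z, φ (x⁻¹ * z) ≠ 0 → ∀ y ∈ Kt ^ Mc, z * y ∈ ST H x (tsupport φ * Kt ^ Mc) := fun z hz y hy =>
    (mem_ST H).2 ⟨1, x⁻¹ * z * y, Set.mul_mem_mul (subset_tsupport _ hz) hy, by
      rw [Subgroup.coe_one]
      group⟩
  have hSS : ∀ (t : UHR H) (z : HRt H), (UHR H).subtype t * z ∈ ST H x (tsupport φ * Kt ^ Mc) ↔ z ∈ ST H x (tsupport φ * Kt ^ Mc) := fun t z => ST_mul H t z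
  have mST : MeasurableSet (ST H x (tsupport φ * Kt ^ Mc)) := th3_meas H hCk
  have hleU : ∀ k, (cjG Γ₁ (g k)).subgroupOf (HUH H) ≤ (cjG Γ (g k)).subgroupOf (HUH H) := fun k w hw => cjG_mono hle _ hw
  choose E₁ hE₁ using fun k => an_sf (fun g => (hpT g).measurable) (hleU k) (hD₂ k)
  have hC : CntT H ν Γ₁ g x (tsupport φ * Kt ^ Mc) E₁ (fun _ _ => ∅) (fun _ _ => 0) (fun _ => 1) 0 := cntT_zero H ν Γ₁ g x (tsupport φ * Kt ^ Mc) hE₁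
  have hCB := hC.toB H hG mST
  have hcm := cjG_comm hcomm
  have hdich : ∀ i j γ, g i * γ * (g j)⁻¹ ∈ Γ₁ → γ ∉ (fun _ _ => (∅ : Set H) : κ → κ → Set H) i j → (∃ y ∈ ST H x (tsupport φ * Kt ^ Mc),
      γ • y ∈ ST H x (tsupport φ * Kt ^ Mc)) → (i = j ∧ γ ∈ HUH H) ∨
      Dich2 (cjG Γ₁ (g i)) (cjG Γ₁ (g j)) (HUH H) (fun w => psT H θ (kUH H w)) γ := by
    rintro i j γ hγ _ ⟨y, hy1, hy2⟩
    obtain ⟨t1, _, ⟨y1, hy1, rfl⟩, e1⟩ := hy1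
    obtain ⟨t2, _, ⟨y2, hy2, rfl⟩, e2⟩ := hy2
    have h2 : MvT H x (tsupport φ * Kt ^ Mc) (embH H γ) := by
      refine ⟨t1, t2, y1, hy1, y2, hy2, ?_⟩
      rw [← e1, ← e2]
      rfl
    rcases dich i j γ hγ h2 with h3 | ⟨w₀, w₀', hw, hχ⟩
    · exact Or.inl h3
    · exact Or.inr (th3_dich hcm hγ hw hχ)
  have key := l1_absA5 hG cjj (Γ := Γ) (Γ₁ := Γ₁) (hk := g) (Γ' := fun k => cjG Γ (g k))
    (Γ1 := fun k => cjG Γ₁ (g k)) (fun i g => Iff.rfl) (fun i g => Iff.rfl) hD₂ pD2 fD2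
    hone hccΓ hle rfl hidx mST hSS hfq hC.sf hCB hdich hQ (subset_refl Q) cφ sφ (x := x) hτ hfol hAS hF₁ (f := F) hF hκ hort a
  rw [add_zero, one_mul] at key
  exact key

end

end Pool.Agent.Lib.L8
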