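import Pool.Agent.Lib.L8.UC3
import Pool.Agent.Lib.L1S.QX1

/-!
# U, file UH1: change of the representatives of the operator (helper43)
-/

namespace Pool.Agent.Lib.L8

open MeasureTheory Matrix NumberField NumberField.InfinitePlace IsDedekindDomain Pool.Agent.Lib.H89N Pool.Agent.Lib.H33W Pool.Agent.Lib.H67G Pool.Agent.Lib.L1S
open scoped ENNReal Pointwise

noncomputable section

set_option linter.unusedSectionVars false

/-- The operator does not change if the `w_a` are multiplied by elements of `Γ` from the left. -/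
theorem HeOp.congr {H : Type} [Group H] {Γ : Subgroup H} {H' : Subgroup H} (hΓ : Γ ≤ H') {A : Type} [Fintype A] {w w' : A → H} {e : A → ℂ} {Λ : ℝ} (hT : HeOp Γ (H' : Set H) w e Λ) (hw : ∀ a, w' a * (w a)⁻¹ ∈ Γ) :
    HeOp Γ (H' : Set H) w' e Λ := by
  have h1 : ∀ f : H → ℂ, (∀ γ ∈ Γ, ∀ h, f (γ * h) = f h) → ∀ a x, f (w' a * x) = f (w a * x) := fun f hf a x => by
    have e1 : w' a * x = (w' a * (w a)⁻¹) * (w a * x) := by group
    rw [e1, hf _ (hw a)]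
  refine ⟨fun a => ?_, fun f hf γ hγ h hh => ?_, fun f hf B hB R hR hR' => ?_⟩
  · have e1 : w' a = (w' a * (w a)⁻¹) * w a := by group
    rw [e1]
    exact H'.mul_mem (hΓ (hw a)) (hT.mem a)
  · simp only [h1 f hf]
    exact hT.inv f hf γ hγ h hh
  · simp only [h1 f hf]
    exact hT.nrm f hf B hB R hR hR'

variable {ι M N : Type} [Fintype ι] [DecidableEq ι] [AddCommGroup M] [Module ℚ M] [AddCommGroup N] [Module ℚ N]
  {P : RootPairing ι ℚ M N} [P.IsCrystallographic] {b : P.Base}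

variable [P.IsRootSystem] [P.IsReduced] [P.IsIrreducible] {K L : Type} [Field K] [NumberField K] [Field L] [NumberField L] [Algebra K L]

theorem uh_det_int {v : HeightOneSpectrum (𝓞 K)} {κ : Type} [Fintype κ] [DecidableEq κ] {X : Matrix κ κ L} (hX : ∀ r c, IntV v (X r c)) : IntV v X.det := by
  rw [Matrix.det_apply]
  refine IntV.sum _ _ fun σ _ => ?_
  have h1 : IntV v (∏ i, X (σ i) i) := Finset.prod_induction _ (IntV v) (fun x y hx hy => hx.mul hy) IntV.one fun i _ => hX _ _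
  rcases Int.units_eq_one_or (Equiv.Perm.sign σ) with h | h
  · rw [h, one_smul]
    exact h1
  · rw [h, Units.neg_smul, one_smul]
    exact h1.neg

/-- Integral matrices on the right. -/
theorem MRl.int_mul {v : HeightOneSpectrum (𝓞 K)} {i : b.support} {e : ℕ} {X Y : Matrix (I b) (I b) L} (hX : MRl b v i e X) (hY : ∀ r c, IntV v (Y r c)) : MRl b v i e (X * Y) := by
  classical
  intro f a ha
  obtain ⟨S, hS⟩ := uc_binet X Y (fun β : Phi b i => Sum.inr (P.reflectionPerm β.1 β.1)) f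
  rw [hS, Finset.mul_sum]
  refine IntV.sum _ _ fun g _ => ?_
  rw [← mul_assoc]
  exact (hX g a ha).mul (uh_det_int fun r c => hY _ _)

/-- The elements of `Γ` are in `H'`. -/
theorem uh_le (Q : QS b K L) (𝔫 : Ideal (𝓞 K)) (v : HeightOneSpectrum (𝓞 K)) (r s : ℕ) : GamQ (HQ Q) 𝔫 v r s ≤ HvQ Q 𝔫 v := fun _ hγ => qc_hg (show _ ∈ GamL b L 𝔫 v r s from hγ)

theorem uh_hgl_mono {𝔪 𝔫 : Ideal (𝓞 K)} (hle : 𝔪 ≤ 𝔫) {v : HeightOneSpectrum (𝓞 K)} {g : GK b L} (h : g ∈ HGL b L 𝔪 v) : g ∈ HGL b L 𝔫 v := by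
  obtain ⟨j, hj⟩ := h
  exact ⟨j, fun i i' => ⟨(hj i i').1.le hle, (hj i i').2.le hle⟩⟩

/-- **Strong approximation**: the coset `Γ h` contains an element congruent to `1` modulo `𝔪`. -/
theorem uh_rep (Q : QS b K L) {𝔪 𝔫 : Ideal (𝓞 K)} (hle : 𝔪 ≤ 𝔫) {v : HeightOneSpectrum (𝓞 K)} (hv : ¬𝔪 ≤ v.asIdeal) (hv' : ¬𝔫 ≤ v.asIdeal) (r s : ℕ) {h : HQ Q} (hh : h.1 ∈ HGL b L 𝔫 v) :
    ∃ h' : HQ Q, h'.1 ∈ HGL b L 𝔪 v ∧ h' * h⁻¹ ∈ GamQ (HQ Q) 𝔫 v r s := by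
  obtain ⟨π, hπ⟩ : ∃ π : K, v.valuation K π = WithZero.exp (-1 : ℤ) := v.valuation_exists_uniformizer K
  obtain ⟨h', hQ, hh', hc⟩ := qx_sa hv hπ h.2 (r + s)
  refine ⟨⟨h', hQ⟩, hh', ?_⟩
  show h' * h.1⁻¹ ∈ GamL b L 𝔫 v r s
  refine qc_mem hv' hπ (hgl_mul (uh_hgl_mono hle hh') (hgl_inv hh)) (IwV.of_cong' hπ fun i j => (hc i j).1) ?_
  exact IwV.of_cong' hπ fun i j => (hc i j).2

/-- Multiplication by elements of `Γ` does not change the conditions on the minors. -/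
theorem uh_mc {Q : QS b K L} {𝔫 : Ideal (𝓞 K)} {v : HeightOneSpectrum (𝓞 K)} {r s : ℕ} {w w' : HQ Q} (h : w' * w⁻¹ ∈ GamQ (HQ Q) 𝔫 v r s) {i : b.support} {e : ℕ} (h1 : MCl b v i e w.1.1.1)
    (h2 : MRl b v i e w⁻¹.1.1.1) : MCl b v i e w'.1.1.1 ∧ MRl b v i e w'⁻¹.1.1.1 := by
  obtain ⟨γ, hγ⟩ : ∃ γ : HQ Q, γ = w' * w⁻¹ := ⟨_, rfl⟩
  have h3 : γ.1 ∈ GamL b L 𝔫 v r s := by
    rw [hγ]
    exact h
  have e1 : w' = γ * w := by
    rw [hγ]
    group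
  have e2 : w'⁻¹ = w⁻¹ * γ⁻¹ := by
    rw [e1]
    group
  have e3 : w'.1.1.1 = γ.1.1.1 * w.1.1.1 := by
    rw [e1]
    rfl
  have e4 : w'⁻¹.1.1.1 = w⁻¹.1.1.1 * γ⁻¹.1.1.1 := by
    rw [e2]
    rfl
  rw [e3, e4]
  exact ⟨h1.mul_int fun r c => (uc_gam h3 r c).1, h2.int_mul fun r c => (uc_gam h3 r c).2⟩

end

end Pool.Agent.Lib.L8
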