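import Pool.Agent.Lib.L8.W0
import Pool.Agent.Lib.L1S.QB3

/-!
# W, chunk W1: scalar matrices in `G(K)`
-/

namespace Pool.Agent.Lib.L8

open MeasureTheory Matrix NumberField NumberField.InfinitePlace IsDedekindDomain Pool.Agent.Lib.H89N Pool.Agent.Lib.H33W Pool.Agent.Lib.H67G Pool.Agent.Lib.L1S
open scoped ENNReal Pointwise

noncomputable section

set_option linter.unusedSectionVars false

section w1gen

variable {n : Type} [Fintype n] [DecidableEq n] {L : Type} [Field L] [CharZero L]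

/-- The matrix `diag(Y, 0)`. -/
def w1_z (Y : Matrix n n L) : Matrix (n ⊕ Unit) (n ⊕ Unit) L := Matrix.fromBlocks Y 0 0 0

/-- The matrix `diag(Y, 1)`. -/
def w1_d (Y : Matrix n n L) : Matrix (n ⊕ Unit) (n ⊕ Unit) L := Matrix.fromBlocks Y 0 0 1

/-- The pair `(X, x)`. -/
def w1_bl (X : Matrix n n L) (x : n → L) : Matrix (n ⊕ Unit) (n ⊕ Unit) L := Matrix.fromBlocks X (Matrix.of fun r _ => x r) 0 0

theorem w1_z_mul (X Y : Matrix n n L) : w1_z X * w1_z Y = w1_z (X * Y) := by
  unfold w1_z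
  rw [Matrix.fromBlocks_multiply]
  simp

theorem w1_z_pow (Y : Matrix n n L) (k : ℕ) : w1_z Y ^ (k + 1) = w1_z (Y ^ (k + 1)) := by
  induction k with
  | zero => rw [pow_one, pow_one]
  | succ k ih => rw [pow_succ, ih, w1_z_mul, ← pow_succ]

theorem w1_z_smul (t : L) (Y : Matrix n n L) : w1_z (t • Y) = t • w1_z Y := by
  unfold w1_z
  rw [Matrix.fromBlocks_smul]
  simp

theorem w1_z_sub (X Y : Matrix n n L) : w1_z (X - Y) = w1_z X - w1_z Y := by
  unfold w1_z
  ext i j
  rcases i with i | i <;> rcases j with j | j <;> simp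

theorem w1_z_zero : w1_z (0 : Matrix n n L) = 0 := by
  unfold w1_z
  exact Matrix.fromBlocks_zero

theorem w1_nil {Y : Matrix n n L} (h : Y ^ 4 = 0) : w1_z Y ^ 4 = 0 := by
  rw [w1_z_pow Y 3, h, w1_z_zero]

theorem w1_exp {Y : Matrix n n L} (h : Y ^ 4 = 0) : IsNilpotent.exp (w1_z Y) = w1_d (IsNilpotent.exp Y) := by
  rw [IsNilpotent.exp_eq_sum (w1_nil h), IsNilpotent.exp_eq_sum h]
  have e1 : (∑ i ∈ Finset.range 4, ((i.factorial : ℕ) : ℚ)⁻¹ • w1_z Y ^ i) = (∑ i ∈ Finset.range 3, ((i + 1).factorial : ℚ)⁻¹ • w1_z Y ^ (i + 1)) + ((Nat.factorial 0 : ℕ) : ℚ)⁻¹ • w1_z Y ^ 0 :=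
    Finset.sum_range_succ' _ 3
  have e2 : (∑ i ∈ Finset.range 4, ((i.factorial : ℕ) : ℚ)⁻¹ • Y ^ i) = (∑ i ∈ Finset.range 3, ((i + 1).factorial : ℚ)⁻¹ • Y ^ (i + 1)) + ((Nat.factorial 0 : ℕ) : ℚ)⁻¹ • Y ^ 0 :=
    Finset.sum_range_succ' _ 3
  rw [e1, e2, pow_zero, pow_zero]
  simp only [w1_z_pow]
  have h1 : w1_d ((∑ i ∈ Finset.range 3, ((i + 1).factorial : ℚ)⁻¹ • Y ^ (i + 1)) + ((Nat.factorial 0 : ℕ) : ℚ)⁻¹ • (1 : Matrix n n L)) =
      (∑ i ∈ Finset.range 3, ((i + 1).factorial : ℚ)⁻¹ • w1_z (Y ^ (i + 1))) + ((Nat.factorial 0 : ℕ) : ℚ)⁻¹ • (1 : Matrix (n ⊕ Unit) (n ⊕ Unit) L) := by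
    unfold w1_d w1_z
    ext i j
    rcases i with i | i <;> rcases j with j | j
    · simp [Matrix.sum_apply, Matrix.one_apply]
    · simp [Matrix.sum_apply]
    · simp [Matrix.sum_apply]
    · simp [Matrix.sum_apply]
  exact h1.symm

theorem w1_lie (Y X : Matrix n n L) (x : n → L) : w1_z Y * w1_bl X x - w1_bl X x * w1_z Y = w1_bl (Y * X - X * Y) (Y *ᵥ x) := by
  unfold w1_z w1_bl
  rw [Matrix.fromBlocks_multiply, Matrix.fromBlocks_multiply]
  ext i j
  rcases i with i | i <;> rcases j with j | j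
  · simp
  · simp [Matrix.mul_apply, Matrix.mulVec, dotProduct]
  · simp
  · simp

theorem w1_conj (Y Y' X : Matrix n n L) (x : n → L) : w1_d Y * w1_bl X x * w1_d Y' = w1_bl (Y * X * Y') (Y *ᵥ x) := by
  unfold w1_d w1_bl
  rw [Matrix.fromBlocks_multiply, Matrix.fromBlocks_multiply]
  ext i j
  rcases i with i | i <;> rcases j with j | j
  · simp
  · simp [Matrix.mul_apply, Matrix.mulVec, dotProduct]
  · simp
  · simp

end w1gen

section w1wt

variable {m : Type} [Fintype m] {L : Type} [Field L] {M : Type} [AddCommGroup M]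

/-- `X` is homogeneous of the weight `μ`. -/
def w1_hw (w : m → M) (μ : M) (X : Matrix m m L) : Prop := ∀ r c, X r c ≠ 0 → w r = w c + μ

theorem w1_hw_mul {w : m → M} {μ ν : M} {X Y : Matrix m m L} (hX : w1_hw w μ X) (hY : w1_hw w ν Y) : w1_hw w (μ + ν) (X * Y) := by
  intro r c h
  rw [Matrix.mul_apply] at h
  obtain ⟨j, -, hj⟩ := Finset.exists_ne_zero_of_sum_ne_zero h
  have h1 := hX r j (left_ne_zero_of_mul hj)
  have h2 := hY j c (right_ne_zero_of_mul hj)
  rw [h1, h2]
  abel

theorem w1_hw_lie {w : m → M} {μ ν : M} {X Y : Matrix m m L} (hX : w1_hw w μ X) (hY : w1_hw w ν Y) : w1_hw w (μ + ν) (X * Y - Y * X) := by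
  intro r c h
  rw [Matrix.sub_apply] at h
  by_cases h1 : (X * Y) r c = 0
  · rw [h1, zero_sub] at h
    have h2 := w1_hw_mul hY hX r c (neg_ne_zero.1 h)
    rw [h2, add_comm ν μ]
  · exact w1_hw_mul hX hY r c h1

end w1wt

variable {ι M N : Type} [Fintype ι] [DecidableEq ι] [AddCommGroup M] [Module ℚ M] [AddCommGroup N] [Module ℚ N]
  {P : RootPairing ι ℚ M N} [P.IsCrystallographic] {b : P.Base}

variable {K L : Type} [Field K] [NumberField K] [Field L] [NumberField L] [Algebra K L]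

variable [P.IsRootSystem] [P.IsReduced] [P.IsIrreducible]

/-- The vectors obtained from the highest weight vector. -/
def w1_W (b : P.Base) (L : Type) [Field L] (θ : ι) : List b.support → Matrix (I b ⊕ Unit) (I b ⊕ Unit) L
  | [] => w1_bl (toA L (E b θ)) (Pi.single (Sum.inr θ) 1)
  | j :: l => w1_z (fA b L j) * w1_W b L θ l - w1_W b L θ l * w1_z (fA b L j)

/-- The weights. -/
def w1_w (b : P.Base) : I b ⊕ Unit → M := Sum.elim (wt b) fun _ => 0

/-- The weight of the vector number `l`. -/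
def w1_mu (b : P.Base) (θ : ι) : List b.support → M
  | [] => P.root θ
  | j :: l => -P.root j + w1_mu b θ l

theorem w1_hw_z {μ : M} {X : Matrix (I b) (I b) L} (hX : HasWt b μ X) : w1_hw (w1_w b) μ (w1_z X) := by
  intro r c h
  rcases r with r | r <;> rcases c with c | c
  · exact hX r c h
  · exact absurd rfl h
  · exact absurd rfl h
  · exact absurd rfl h

theorem w1_hw_W (θ : ι) (l : List b.support) : w1_hw (w1_w b) (w1_mu b θ l) (w1_W b L θ l) := by
  induction l with
  | nil =>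
    intro r c h
    rcases r with r | r <;> rcases c with c | c
    · exact (HasWt.toA (A := L) (hasWt_E b θ)) r c h
    · have h1 : r = Sum.inr θ := by
        by_contra hne
        apply h
        show (Pi.single (Sum.inr θ) (1 : L) : I b → L) r = 0
        exact Pi.single_eq_of_ne hne 1
      rw [h1]
      show P.root θ = 0 + P.root θ
      rw [zero_add]
    · exact absurd rfl h
    · exact absurd rfl h
  | cons j l ih => exact w1_hw_lie (w1_hw_z (fA_wt j)) ih

/-- The action of a diagonal matrix. -/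
theorem w1_diag (i : b.support) {μ : M} {Z : Matrix (I b ⊕ Unit) (I b ⊕ Unit) L} (hZ : w1_hw (w1_w b) μ Z) :
    w1_z (hA b L i) * Z - Z * w1_z (hA b L i) = (algebraMap ℚ L (P.coroot' i μ)) • Z := by
  have h1 : w1_z (hA b L i) = Matrix.diagonal fun r : I b ⊕ Unit => algebraMap ℚ L (P.coroot' i (w1_w b r)) := by
    have h2 : hA b L i = Dl b L (P.coroot' i) := toA_hZ_eq i
    rw [h2]
    unfold w1_z Dl
    ext r c
    rcases r with r | r <;> rcases c with c | c
    · show (Matrix.diagonal (fun r => algebraMap ℚ L (P.coroot' i (wt b r))) : Matrix (I b) (I b) L) r c = _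
      by_cases hrc : r = c
      · subst hrc
        rw [Matrix.diagonal_apply_eq, Matrix.diagonal_apply_eq]
        rfl
      · rw [Matrix.diagonal_apply_ne _ hrc, Matrix.diagonal_apply_ne _ (fun h => hrc (Sum.inl_injective h))]
    · rw [Matrix.diagonal_apply_ne _ Sum.inl_ne_inr]
      rfl
    · rw [Matrix.diagonal_apply_ne _ Sum.inr_ne_inl]
      rfl
    · show (0 : L) = (Matrix.diagonal (fun r : I b ⊕ Unit => algebraMap ℚ L (P.coroot' i (w1_w b r))) : Matrix (I b ⊕ Unit) (I b ⊕ Unit) L) (Sum.inr r) (Sum.inr c)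
      have h3 : c = r := rfl
      rw [h3, Matrix.diagonal_apply_eq]
      show (0 : L) = algebraMap ℚ L (P.coroot' i 0)
      rw [map_zero, map_zero]
  rw [h1]
  ext r c
  rw [Matrix.sub_apply, Matrix.diagonal_mul, Matrix.mul_diagonal, Matrix.smul_apply, smul_eq_mul]
  by_cases h2 : Z r c = 0
  · rw [h2, mul_zero, zero_mul, mul_zero, sub_zero]
  · have h3 := hZ r c h2
    rw [h3, map_add, map_add]
    ring

/-- **W1, there are no scalar matrices except `1` in `G(L)`.**
Proof. The group `G(L)` acts on the pairs `(x, X)`, `x ∈ L^I`, `X` a matrix, by `g (x, X) = (g x, g X g⁻¹)`; write the pair as the matrix `[[X, x], [0, 0]]` of size `I ⊕ Unit` (`Matrix.fromBlocks`); the action of `g` is the conjugation with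
`diag(g, 1)`. Let `θ` be a root of maximal height `h` (`Finset.exists_max_image Finset.univ`), `v` the basis vector of `inr θ`, `Z = [[E_θ, v], [0, 0]]` (`E_θ = toA L (E b θ)`). Put `e_i' = diag(toA L (eZ b i), 0)`, `f_i'`, `h_i'` in the
same way, `W [] = Z`, `W (i :: l) = f_i' W(l) - W(l) f_i'`, and let `S` be the span of the `W l`, `l` a list of simple roots. (1) `ad h_i' (W l) = c W l`, `c` a scalar (induction on `l`, `[h_i, f_j] = - A f_j`, Lib/L1S/L106.lean or the weights
`HasWt`: `W l` has the weight `μ = θ - ∑ l` in both components, and `h_i` is the diagonal matrix of the `⟨μ, α_i^∨⟩`). (2) `ad e_i' Z = 0`: `e_i v = 0` and `[e_i, E_θ] = 0` since both raise the height by `h + 1` (`gR_lie`, `l124_E`, `gR_ht` with an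
empty sum). (3) `ad e_i' (W l) ∈ S` by induction on `l`: `ad e_i' (ad f_j' W) = ad [e_i', f_j'] W + ad f_j' (ad e_i' W)`, `[e_i, f_j] = δ_ij h_i`. (4) So `S` is stable under `ad (t e_i')`, `ad (t f_i')`, hence under the conjugation with
`exp(t e_i')`, `exp(t f_i')` (`qb0_ad`, Lib/L1S/QB0.lean, any index type; `exp (diag(t e_i, 0)) = diag(exp(t e_i), 1)`), hence under the conjugation with `diag(g, 1)`, `g ∈ G(L)` (`Subgroup.closure_induction`; `GQ` is defined as a closure; the
inverses of the generators are generators). (5) Every `W ∈ S` satisfies `W(r₀, c₀) Z(θ, *) = W(θ, *) Z(r₀, c₀)`, where `(r₀, c₀)` is a place with `E_θ(r₀, c₀) ≠ 0`: this is linear in `W`, clear for `Z`, and for `l ≠ []` both entries of `W l` are `0`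
because the component `X` of `W l` raises the height by `h - |l|` and `x` is supported at the height `h - |l|`. (6) For `g = z`: `diag(z, 1) Z diag(z, 1)⁻¹ = [[E_θ, z v], [0, 0]] ∈ S`, so `E_θ(r₀, c₀) = z E_θ(r₀, c₀)` and `z = 1`. -/
theorem w1_scalar {g : GK b L} {z : L} (h : g.1.1 = z • (1 : Matrix (I b) (I b) L)) : z = 1 := by
  classical
  obtain ⟨lw, hlw⟩ := exists_lht b
  -- the highest root
  have hne : Nonempty ι := by
    by_contra hemp
    rw [not_nonempty_iff] at hemp
    have h1 : Nontrivial M := RootPairing.IsIrreducible.nontrivial P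
    have h2 : Submodule.span ℚ (Set.range P.root) = ⊤ := RootPairing.IsRootSystem.span_root_eq_top
    rw [Set.range_eq_empty, Submodule.span_empty] at h2
    exact (bot_ne_top (α := Submodule ℚ M)) h2
  obtain ⟨θ, hθ⟩ : ∃ θ : ι, ∀ β, b.height β ≤ b.height θ := Finite.exists_max _
  have hθ0 : 0 ≤ b.height θ := by
    have h1 := hθ (ng P θ)
    have h2 : b.height (ng P θ) = -b.height θ := b.height_reflectionPerm_self θ
    rw [h2] at h1
    linarith
  have hht : ∀ r : I b, ht b r ≤ b.height θ := by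
    intro r
    rcases r with i | β
    · exact hθ0
    · exact hθ β
  have hwl : ∀ i : b.support, lw (P.root i) = 1 := by
    intro i
    have h1 := hlw (Sum.inr (i : ι))
    have h2 : wt b (Sum.inr (i : ι)) = P.root i := rfl
    have h3 : ht b (Sum.inr (i : ι)) = b.height (i : ι) := rfl
    rw [h2, h3, b.height_one_of_mem_support i.2] at h1
    rw [h1, Int.cast_one]
  have hwθ : lw (P.root θ) = (b.height θ : ℚ) := hlw (Sum.inr θ)
  have hmu : ∀ l : List b.support, lw (w1_mu b θ l) = (b.height θ : ℚ) - l.length := by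
    intro l
    induction l with
    | nil =>
      show lw (P.root θ) = _
      rw [hwθ, List.length_nil, Nat.cast_zero, sub_zero]
    | cons j l ih =>
      show lw (-P.root j + w1_mu b θ l) = _
      rw [map_add, map_neg, hwl, ih, List.length_cons]
      push_cast
      ring
  -- the submodule
  set S : Submodule L (Matrix (I b ⊕ Unit) (I b ⊕ Unit) L) := Submodule.span L (Set.range (w1_W b L θ)) with hS
  have hWS : ∀ l, w1_W b L θ l ∈ S := fun l => Submodule.subset_span ⟨l, rfl⟩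
  have hstab : ∀ Y : Matrix (I b ⊕ Unit) (I b ⊕ Unit) L, (∀ l, Y * w1_W b L θ l - w1_W b L θ l * Y ∈ S) → ∀ X ∈ S, Y * X - X * Y ∈ S := by
    intro Y hY X hX
    have h1 : S ≤ S.comap (LinearMap.mulLeft L Y - LinearMap.mulRight L Y) := by
      rw [hS, Submodule.span_le]
      rintro _ ⟨l, rfl⟩
      exact hY l
    exact h1 hX
  have hF : ∀ j : b.support, ∀ X ∈ S, w1_z (fA b L j) * X - X * w1_z (fA b L j) ∈ S := by
    intro j
    apply hstab
    intro l
    exact hWS (j :: l)
  have hE0 : ∀ i : b.support, w1_z (eA b L i) * w1_W b L θ [] - w1_W b L θ [] * w1_z (eA b L i) = 0 := by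
    intro i
    have h1 : w1_W b L θ [] = w1_bl (toA L (E b θ)) (Pi.single (Sum.inr θ) 1) := rfl
    rw [h1, w1_lie]
    have h2 : eA b L i * toA L (E b θ) - toA L (E b θ) * eA b L i = 0 := by
      have h3 : eA b L i * toA L (E b θ) - toA L (E b θ) * eA b L i ∈ gR b L := gR_lie b (eA_mem i) (l124_E b θ)
      have h4 : HasWt b (P.root i + P.root θ) (eA b L i * toA L (E b θ) - toA L (E b θ) * eA b L i) := (eA_wt i).lie (HasWt.toA (hasWt_E b θ))
      rw [gR_ht b h3 (b.height θ + 1) (by linarith) (fun r c hrc => by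
        have h5 := congrArg lw (h4 r c hrc)
        rw [map_add, map_add, hlw, hlw, hwl, hwθ] at h5
        have h6 : ((ht b r : ℤ) : ℚ) = ((ht b c + (b.height θ + 1) : ℤ) : ℚ) := by
          push_cast
          rw [h5]
          ring
        exact_mod_cast h6)]
      apply Finset.sum_eq_zero
      intro β hβ
      rw [Finset.mem_filter] at hβ
      have h5 := hθ β
      rw [hβ.2] at h5
      linarith
    have h3 : eA b L i *ᵥ (Pi.single (Sum.inr θ) (1 : L)) = 0 := by
      funext r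
      rw [Matrix.mulVec_single_one]
      show eA b L i r (Sum.inr θ) = 0
      by_contra hne
      have h4 := congrArg lw (eA_wt i r (Sum.inr θ) hne)
      rw [map_add, hlw, hlw, hwl] at h4
      have h5 : ht b r = b.height θ + 1 := by
        have h6 : ((ht b r : ℤ) : ℚ) = ((b.height θ + 1 : ℤ) : ℚ) := by
          rw [h4]
          push_cast
          rfl
        exact_mod_cast h6
      have h6 := hht r
      rw [h5] at h6
      linarith
    rw [h2, h3]
    unfold w1_bl
    ext r c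
    rcases r with r | r <;> rcases c with c | c <;> rfl
  have hE : ∀ (l : List b.support) (i : b.support), w1_z (eA b L i) * w1_W b L θ l - w1_W b L θ l * w1_z (eA b L i) ∈ S := by
    intro l
    induction l with
    | nil =>
      intro i
      rw [hE0]
      exact S.zero_mem
    | cons j l ih =>
      intro i
      have h1 : w1_W b L θ (j :: l) = w1_z (fA b L j) * w1_W b L θ l - w1_W b L θ l * w1_z (fA b L j) := rfl
      rw [h1]
      have h2 : w1_z (eA b L i) * (w1_z (fA b L j) * w1_W b L θ l - w1_W b L θ l * w1_z (fA b L j)) -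
          (w1_z (fA b L j) * w1_W b L θ l - w1_W b L θ l * w1_z (fA b L j)) * w1_z (eA b L i) =
          ((w1_z (eA b L i) * w1_z (fA b L j) - w1_z (fA b L j) * w1_z (eA b L i)) * w1_W b L θ l -
            w1_W b L θ l * (w1_z (eA b L i) * w1_z (fA b L j) - w1_z (fA b L j) * w1_z (eA b L i))) +
          (w1_z (fA b L j) * (w1_z (eA b L i) * w1_W b L θ l - w1_W b L θ l * w1_z (eA b L i)) -
            (w1_z (eA b L i) * w1_W b L θ l - w1_W b L θ l * w1_z (eA b L i)) * w1_z (fA b L j)) := by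
        noncomm_ring
      rw [h2]
      refine S.add_mem ?_ (hF j _ (ih i))
      rw [w1_z_mul, w1_z_mul, ← w1_z_sub]
      by_cases hij : i = j
      · subst hij
        rw [eA_fA_same, w1_diag i (w1_hw_W θ l)]
        exact S.smul_mem _ (hWS l)
      · rw [eA_fA_ne hij, w1_z_zero, zero_mul, mul_zero, sub_zero]
        exact S.zero_mem
  have hE' : ∀ i : b.support, ∀ X ∈ S, w1_z (eA b L i) * X - X * w1_z (eA b L i) ∈ S := fun i => hstab _ fun l => hE l i
  -- the group
  have hexp : ∀ (Y : Matrix (I b) (I b) L), Y ^ 4 = 0 → (∀ X ∈ S, w1_z Y * X - X * w1_z Y ∈ S) → ∀ X ∈ S,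
      w1_d (IsNilpotent.exp Y) * X * w1_d (IsNilpotent.exp (-Y)) ∈ S := by
    intro Y h4 hY X hX
    have h4' : (-Y) ^ 4 = 0 := by
      rw [neg_pow, h4, mul_zero]
    have h5 := qb0_ad S (Y := w1_z Y) ⟨4, w1_nil h4⟩ hY hX
    have h6 : -w1_z Y = w1_z (-Y) := by
      have h7 := w1_z_sub (0 : Matrix (I b) (I b) L) Y
      rw [w1_z_zero, zero_sub, zero_sub] at h7
      exact h7.symm
    rw [h6, w1_exp h4, w1_exp h4'] at h5
    exact h5
  have hgen : ∀ (Y : Matrix (I b) (I b) ℤ), DP Y → (∀ X ∈ S, w1_z (toA L Y) * X - X * w1_z (toA L Y) ∈ S) → ∀ (t : L), ∀ X ∈ S,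
      w1_d (ex Y t) * X * w1_d (ex Y (-t)) ∈ S := by
    intro Y hY hS' t X hX
    rw [hY.ex_eq_exp, hY.ex_eq_exp, neg_smul]
    refine hexp _ ?_ ?_ X hX
    · rw [smul_pow, ← toA_pow, hY.pow4]
      have h5 : toA L (0 : Matrix (I b) (I b) ℤ) = 0 := Matrix.map_zero _ Int.cast_zero
      rw [h5, smul_zero]
    · intro X hX
      rw [w1_z_smul, smul_mul_assoc, mul_smul_comm, ← smul_sub]
      exact S.smul_mem _ (hS' X hX)
  have hGQ : ∀ g ∈ GQ b L, (∀ X ∈ S, w1_d g.1 * X * w1_d g⁻¹.1 ∈ S) ∧ ∀ X ∈ S, w1_d g⁻¹.1 * X * w1_d g.1 ∈ S := by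
    intro g hg
    rw [GQ_eq] at hg
    have hdm : ∀ X Y : Matrix (I b) (I b) L, w1_d X * w1_d Y = w1_d (X * Y) := by
      intro X Y
      unfold w1_d
      rw [Matrix.fromBlocks_multiply]
      simp
    have hdm' : ∀ X Y : GL (I b) L, w1_d (X * Y).1 = w1_d X.1 * w1_d Y.1 := fun X Y => (hdm _ _).symm
    induction hg using Subgroup.closure_induction with
    | mem x hx =>
      obtain ⟨i, t, rfl | rfl⟩ := hx
      · rw [xG_inv]
        have h1 : ∀ s : L, (xG b (i : ι) s).1 = ex (eZ b i) s := by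
          intro s
          show ex (E b i) s = _
          rw [E_simple]
        rw [h1, h1]
        refine ⟨hgen _ (DP_eZ i) (hE' i) t, ?_⟩
        have h2 := hgen _ (DP_eZ i) (hE' i) (-t)
        rw [neg_neg] at h2
        exact h2
      · rw [xG_inv]
        have h1 : ∀ s : L, (xG b (ng P i) s).1 = ex (fZ b i) s := by
          intro s
          show ex (E b (ng P i)) s = _
          rw [E_neg_simple]
        rw [h1, h1]
        refine ⟨hgen _ (DP_fZ i) (hF i) t, ?_⟩
        have h2 := hgen _ (DP_fZ i) (hF i) (-t)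
        rw [neg_neg] at h2
        exact h2
    | one =>
      have h1 : w1_d ((1 : GL (I b) L)).1 = 1 := by
        unfold w1_d
        exact Matrix.fromBlocks_one
      rw [inv_one, h1]
      refine ⟨fun X hX => ?_, fun X hX => ?_⟩
      · rw [one_mul, mul_one]
        exact hX
      · rw [one_mul, mul_one]
        exact hX
    | mul x y _ _ ihx ihy =>
      rw [_root_.mul_inv_rev, hdm', hdm']
      refine ⟨fun X hX => ?_, fun X hX => ?_⟩
      · have h1 := ihx.1 _ (ihy.1 X hX)
        have h2 : w1_d x.1 * w1_d y.1 * X * (w1_d y⁻¹.1 * w1_d x⁻¹.1) = w1_d x.1 * (w1_d y.1 * X * w1_d y⁻¹.1) * w1_d x⁻¹.1 := by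
          simp only [Matrix.mul_assoc]
        rw [h2]
        exact h1
      · have h1 := ihy.2 _ (ihx.2 X hX)
        have h2 : w1_d y⁻¹.1 * w1_d x⁻¹.1 * X * (w1_d x.1 * w1_d y.1) = w1_d y⁻¹.1 * (w1_d x⁻¹.1 * X * w1_d x.1) * w1_d y.1 := by
          simp only [Matrix.mul_assoc]
        rw [h2]
        exact h1
    | inv x _ ihx =>
      rw [inv_inv]
      exact ⟨ihx.2, ihx.1⟩
  -- the linear relation
  obtain ⟨r₀, c₀, hrc⟩ : ∃ r c, toA L (E b θ) r c ≠ 0 := by
    by_contra hcon
    push Not at hcon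
    have h1 : toA L (E b θ) = 0 := by
      ext r c
      exact hcon r c
    have h2 := cf_E (A := L) b θ θ
    rw [h1, if_pos rfl] at h2
    have h3 : cf b θ (0 : Matrix (I b) (I b) L) = 0 := by
      have h4 := cf_smul b θ (0 : L) (0 : Matrix (I b) (I b) L)
      rw [zero_smul, zero_mul] at h4
      exact h4
    rw [h3] at h2
    exact zero_ne_one h2
  have hrel : ∀ X ∈ S, X (Sum.inl r₀) (Sum.inl c₀) = X (Sum.inl (Sum.inr θ)) (Sum.inr ()) * toA L (E b θ) r₀ c₀ := by
    intro X hX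
    rw [hS] at hX
    induction hX using Submodule.span_induction with
    | mem x hx =>
      obtain ⟨l, rfl⟩ := hx
      rcases l with _ | ⟨j, l⟩
      · have h1 : w1_W b L θ [] (Sum.inl (Sum.inr θ)) (Sum.inr ()) = 1 := by
          show (Pi.single (Sum.inr θ) (1 : L) : I b → L) (Sum.inr θ) = 1
          exact Pi.single_eq_same _ _
        rw [h1, one_mul]
        rfl
      · have hlen : lw (w1_mu b θ (j :: l)) ≠ lw (P.root θ) := by
          rw [hmu, hwθ, List.length_cons]
          intro h2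
          have h3 : ((l.length + 1 : ℕ) : ℚ) = 0 := by linarith
          exact (Nat.cast_ne_zero.2 (Nat.succ_ne_zero _)) h3
        have h1 : w1_W b L θ (j :: l) (Sum.inl r₀) (Sum.inl c₀) = 0 := by
          by_contra h2
          have h3 := w1_hw_W θ (j :: l) _ _ h2
          have h4 : wt b r₀ = wt b c₀ + P.root θ := HasWt.toA (hasWt_E b θ) r₀ c₀ hrc
          have h5 : wt b r₀ = wt b c₀ + w1_mu b θ (j :: l) := h3
          rw [h4] at h5
          exact hlen (congrArg lw (add_left_cancel h5)).symm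
        have h2 : w1_W b L θ (j :: l) (Sum.inl (Sum.inr θ)) (Sum.inr ()) = 0 := by
          by_contra h2
          have h3 : P.root θ = 0 + w1_mu b θ (j :: l) := w1_hw_W θ (j :: l) _ _ h2
          rw [zero_add] at h3
          exact hlen (congrArg lw h3).symm
        rw [h1, h2, zero_mul]
    | zero =>
      rw [Matrix.zero_apply, Matrix.zero_apply, zero_mul]
    | add x y _ _ hx hy => rw [Matrix.add_apply, Matrix.add_apply, hx, hy, add_mul]
    | smul a x _ hx => rw [Matrix.smul_apply, Matrix.smul_apply, hx, smul_eq_mul, smul_eq_mul, mul_assoc]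
  -- the conclusion
  have h1 := (hGQ g.1 g.2).1 _ (hWS [])
  have h2 : w1_W b L θ [] = w1_bl (toA L (E b θ)) (Pi.single (Sum.inr θ) 1) := rfl
  rw [h2, w1_conj] at h1
  have h3 := hrel _ h1
  have h4 : (w1_bl (g.1.1 * toA L (E b θ) * g.1⁻¹.1) (g.1.1 *ᵥ Pi.single (Sum.inr θ) 1)) (Sum.inl r₀) (Sum.inl c₀) = (g.1.1 * toA L (E b θ) * g.1⁻¹.1) r₀ c₀ := rfl
  have h5 : (w1_bl (g.1.1 * toA L (E b θ) * g.1⁻¹.1) (g.1.1 *ᵥ Pi.single (Sum.inr θ) 1)) (Sum.inl (Sum.inr θ)) (Sum.inr ()) = (g.1.1 *ᵥ Pi.single (Sum.inr θ) 1) (Sum.inr θ) := rfl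
  rw [h4, h5] at h3
  have h6 : g.1.1 * toA L (E b θ) * g.1⁻¹.1 = toA L (E b θ) := by
    have h7 : g.1.1 * g.1⁻¹.1 = 1 := g.1.mul_inv
    have h8 : g.1.1 * toA L (E b θ) = toA L (E b θ) * g.1.1 := by
      rw [h, smul_mul_assoc, mul_smul_comm, one_mul, mul_one]
    rw [h8, Matrix.mul_assoc, h7, mul_one]
  have h7 : (g.1.1 *ᵥ Pi.single (Sum.inr θ) (1 : L)) (Sum.inr θ) = z := by
    rw [h, Matrix.smul_mulVec, Matrix.one_mulVec, Pi.smul_apply, Pi.single_eq_same, smul_eq_mul, mul_one]
  rw [h6, h7] at h3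
  have h8 : (z - 1) * toA L (E b θ) r₀ c₀ = 0 := by
    rw [sub_mul, one_mul, ← h3, sub_self]
  rcases mul_eq_zero.1 h8 with h9 | h9
  · exact sub_eq_zero.1 h9
  · exact absurd h9 hrc

end

end Pool.Agent.Lib.L8
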