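import Pool.Agent.Lib.L8.W0
import Pool.Agent.Lib.L1S.QX

/-!
# W, chunk W2: the coweight `k ρ^∨`
-/

namespace Pool.Agent.Lib.L8

open MeasureTheory Matrix NumberField NumberField.InfinitePlace IsDedekindDomain Pool.Agent.Lib.H89N Pool.Agent.Lib.H33W Pool.Agent.Lib.H67G Pool.Agent.Lib.L1S
open scoped ENNReal Pointwise

noncomputable section

set_option linter.unusedSectionVars false

variable {ι M N : Type} [Fintype ι] [DecidableEq ι] [AddCommGroup M] [Module ℚ M] [AddCommGroup N] [Module ℚ N]
  {P : RootPairing ι ℚ M N} [P.IsCrystallographic] {b : P.Base}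

variable {K L : Type} [Field K] [NumberField K] [Field L] [NumberField L] [Algebra K L]

variable [P.IsRootSystem] [P.IsReduced] [P.IsIrreducible]

/-- **W2, the coweight.**
Proof. (1) There is `l : M →ₗ[ℚ] ℚ` with `l (wt b r) = ht b r` (`exists_lht`, Lib/L1S/L21.lean). (2) `l = ⟨·, n⟩` for some `n : N` (as in the proof of `gR_diag`, Lib/L1S/L123.lean: `P.toLinearMap.flip.toPerfPair.surjective l`), and `n = ∑_j a_j α_j^∨` with
rational `a_j` (`P.flip` has the base `b.flip`, `b.flip.toWeightBasis`; or the coroots of the base span `N`: `RootPairing.Base.span_coroot_support` / `IsRootSystem`), so `ht b r = ∑_j a_j P.coroot' j (wt b r)` (compare `pr`). (3) The `a_j` are unique: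
the coroots `α_j^∨`, `j ∈ b.support`, are linearly independent (`b.linearIndepOn_coroot`) and `P` is perfect. By `Q` the numbers `a_(s j)` satisfy the same equations (`(Q.da s)`: the action preserves the base, the heights and the Cartan integers, see
`InvC`, `qx_muS` and the lemmas on `Q.da s` in Lib/L1S/QX5.lean), so `a_(s j) = a_j`. It is enough to compare the values at the simple roots: `∑_j a_j ⟨α_i, α_j^∨⟩ = 1` for all `i ∈ b.support`. (4) Let `k > 0` be a common denominator of the `a_j`
(`∏ (a_j).den`) and `c_j = - k a_j`. -/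
theorem w2_cow (Q : QS b K L) : ∃ (c : b.support → ℤ) (k : ℕ), InvC Q c ∧ 0 < k ∧ ∀ r : I b, pr b c r = -((k : ℤ) * ht b r) := by
  classical
  obtain ⟨lw, hlw⟩ := exists_lht b
  obtain ⟨n, hn⟩ : ∃ n : N, P.toLinearMap.flip n = lw := P.toLinearMap.flip.toPerfPair.surjective lw
  have hinj : ∀ x y : N, P.toLinearMap.flip x = P.toLinearMap.flip y → x = y := fun x y h => P.toLinearMap.flip.toPerfPair.injective h
  obtain ⟨a, ha⟩ : ∃ a : b.support → ℚ, a = fun j => b.toCoweightBasis.repr n j := ⟨_, rfl⟩
  have hna : n = ∑ j, a j • P.coroot (j : ι) := by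
    have h1 := (b.toCoweightBasis.sum_repr n).symm
    simp only [RootPairing.Base.toCoweightBasis_apply] at h1
    rw [ha]
    exact h1
  have hval : ∀ (d : b.support → ℚ) (β : ι), P.toLinearMap.flip (∑ j, d j • P.coroot (j : ι)) (P.root β) = ∑ j, d j * P.pairing β (j : ι) := by
    intro d β
    rw [map_sum, LinearMap.sum_apply]
    refine Finset.sum_congr rfl fun j _ => ?_
    rw [map_smul, LinearMap.smul_apply, smul_eq_mul]
    rfl
  have hsimple : ∀ i : b.support, lw (P.root i) = 1 := by
    intro i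
    have h1 := hlw (Sum.inr (i : ι))
    have h2 : wt b (Sum.inr (i : ι)) = P.root i := rfl
    have h3 : ht b (Sum.inr (i : ι)) = b.height (i : ι) := rfl
    rw [h2, h3, b.height_one_of_mem_support i.2] at h1
    rw [h1, Int.cast_one]
  have hroot : ∀ β : ι, ∑ j, a j * P.pairing β (j : ι) = (b.height β : ℚ) := by
    intro β
    rw [← hval a β, ← hna, hn]
    exact hlw (Sum.inr β)
  have hinv : ∀ (s : L ≃ₐ[K] L) (j : b.support), a ((Q.da s).sp j) = a j := by
    intro s
    have h1 : P.toLinearMap.flip (∑ j : b.support, a ((Q.da s).sp j) • P.coroot (j : ι)) = lw := by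
      refine b.toWeightBasis.ext fun i => ?_
      rw [RootPairing.Base.toWeightBasis_apply, hsimple, hval (fun j => a ((Q.da s).sp j)) i]
      have h2 := hroot ((Q.da s).sp i : ι)
      rw [b.height_one_of_mem_support ((Q.da s).sp i).2, Int.cast_one] at h2
      have h4 : ∑ j : b.support, a ((Q.da s).sp j) * P.pairing (((Q.da s).sp i : b.support) : ι) (((Q.da s).sp j : b.support) : ι) = 1 :=
        (Equiv.sum_comp (Q.da s).sp fun j : b.support => a j * P.pairing (((Q.da s).sp i : b.support) : ι) (j : ι)).trans h2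
      rw [← h4]
      refine Finset.sum_congr rfl fun j _ => ?_
      have h3 : P.pairing (((Q.da s).sp i : b.support) : ι) (((Q.da s).sp j : b.support) : ι) = P.pairing (i : ι) (j : ι) := (Q.da s).pairing (i : ι) (j : ι)
      rw [h3]
    have h2 : ∑ j : b.support, a ((Q.da s).sp j) • P.coroot (j : ι) = n := hinj _ _ (h1.trans hn.symm)
    intro j
    have h3 : b.toCoweightBasis.repr n j = a ((Q.da s).sp j) := by
      rw [← h2]
      have h4 : ∑ j : b.support, a ((Q.da s).sp j) • P.coroot (j : ι) = ∑ j : b.support, a ((Q.da s).sp j) • b.toCoweightBasis j := by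
        refine Finset.sum_congr rfl fun j _ => ?_
        rw [RootPairing.Base.toCoweightBasis_apply]
      rw [h4, Module.Basis.repr_sum_self]
    rw [← h3, ha]
  have hden : ∀ j : b.support, ∃ z : ℤ, (z : ℚ) = -(((∏ i, (a i).den : ℕ) : ℚ) * a j) := by
    intro j
    obtain ⟨m, hm⟩ := Finset.dvd_prod_of_mem (fun i : b.support => (a i).den) (Finset.mem_univ j)
    refine ⟨-(m * (a j).num), ?_⟩
    rw [hm]
    have h1 : ((a j).den : ℚ) * a j = (a j).num := by
      rw [mul_comm]
      exact Rat.mul_den_eq_num (a j)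
    push_cast
    rw [mul_assoc, mul_comm ((m : ℕ) : ℚ) (a j), ← mul_assoc, h1]
    ring
  choose c hc using hden
  refine ⟨c, ∏ i, (a i).den, ?_, ?_, ?_⟩
  · intro s i
    have h1 : (c ((Q.da s).sp i) : ℚ) = (c i : ℚ) := by
      rw [hc, hc, hinv s i]
    exact_mod_cast h1
  · exact Finset.prod_pos fun i _ => (a i).den_pos
  · intro r
    rcases r with i | β
    · show (0 : ℤ) = -(((∏ i, (a i).den : ℕ) : ℤ) * 0)
      rw [mul_zero, neg_zero]
    · show ∑ j, c j * P.pairingIn ℤ β (j : ι) = -(((∏ i, (a i).den : ℕ) : ℤ) * b.height β)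
      have h1 : ((∑ j, c j * P.pairingIn ℤ β (j : ι) : ℤ) : ℚ) = ((-(((∏ i, (a i).den : ℕ) : ℤ) * b.height β) : ℤ) : ℚ) := by
        rw [Int.cast_sum, Int.cast_neg, Int.cast_mul, ← hroot β, Finset.mul_sum, ← Finset.sum_neg_distrib]
        refine Finset.sum_congr rfl fun j _ => ?_
        have h2 : ((P.pairingIn ℤ β (j : ι) : ℤ) : ℚ) = P.pairing β (j : ι) := P.algebraMap_pairingIn ℤ β (j : ι)
        rw [Int.cast_mul, hc, h2]
        push_cast
        ring
      exact_mod_cast h1

end

end Pool.Agent.Lib.L8
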